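import Pool.Agent.Lib.MP_696deb_nt.B5.ZHa
import Pool.Agent.Lib.MP_696deb_nt.AnForms

/-! The Hecke operators are self-adjoint on divisors made of special points. -/

set_option autoImplicit false

open Finset
open scoped Classical

namespace Pool.Agent.G5

open Pool.Agent.Lib.MP_696deb_nt Pool.Agent.B4.GE Pool.Agent.Shared.Weier

namespace AD

variable {V : Type} [AddCommGroup V] {N n l : ℕ} {g k M : MZ} {z w x : ℂ} {s s' : Finset ℂ}
  {ν ν' : ℂ → ℤ} {S F : ℂ → V}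

theorem one : G0 N 1 := ⟨Matrix.det_one, by simp⟩

theorem mul (h : G0 N g) (h' : G0 N k) : G0 N (g * k) :=
  ⟨by rw [Matrix.det_mul, h.1, h'.1, one_mul], by
    rw [Matrix.mul_apply, Fin.sum_univ_two]
    exact (h.2.mul_right _).add (h'.2.mul_left _)⟩

theorem adj (h : G0 N g) : G0 N g.adjugate :=
  ⟨by rw [det_adjugate_two, h.1], by
    rw [Matrix.adjugate_fin_two]
    exact dvd_neg.2 h.2⟩

theorem gpos (h : G0 N g) (hz : 0 < z.im) : 0 < (act g z).im := act_pos (h.1 ▸ one_pos) hz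

/-- Equivalent points. -/
def Ev (N : ℕ) (z w : ℂ) : Prop := ∃ g, G0 N g ∧ z = act g w

theorem Ev.refl (z : ℂ) : Ev N z z := ⟨1, one, (act_one z).symm⟩

theorem Ev.symm (h : Ev N z w) (hw : 0 < w.im) : Ev N w z := by
  obtain ⟨g, hg, rfl⟩ := h
  exact ⟨_, adj hg, (act_adjugate (hg.1 ▸ one_ne_zero) hw).symm⟩

theorem Ev.trans (h : Ev N z w) (h' : Ev N w x) (hx : 0 < x.im) : Ev N z x := by
  obtain ⟨g, hg, rfl⟩ := h
  obtain ⟨k, hk, rfl⟩ := h'
  exact ⟨_, mul hg hk, (act_mul _ (hk.1 ▸ one_ne_zero) hx).symm⟩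

theorem Ev.inv {α : Type*} {F : ℂ → α} (h : Ev N z w) (hF : Inv0 N F) (hw : 0 < w.im) :
    F z = F w := by
  obtain ⟨g, hg, rfl⟩ := h
  exact hF g hg w hw

theorem sqf_eq {n k x y : ℕ} (hn : Squarefree n) (hk : Squarefree k) (hx : x ≠ 0)
    (h : n * x ^ 2 = k * y ^ 2) : n = k := by
  obtain ⟨a, b, c, h1, h2⟩ := Nat.exists_coprime x y
  have h0 : Nat.gcd x y ≠ 0 := fun e => hx (Nat.eq_zero_of_gcd_eq_zero_left e)
  generalize Nat.gcd x y = d at h1 h2 h0
  subst h1 h2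
  have h3 : n * a ^ 2 = k * b ^ 2 :=
    mul_right_cancel₀ (pow_ne_zero 2 h0) (by rw [mul_assoc, mul_assoc, ← mul_pow, ← mul_pow, h])
  have h4 : a * a ∣ k := by
    rw [← sq]
    exact (c.pow 2 2).dvd_of_dvd_mul_right (h3 ▸ dvd_mul_left _ _)
  have h5 : b * b ∣ n := by
    rw [← sq]
    exact (c.symm.pow 2 2).dvd_of_dvd_mul_right (h3 ▸ dvd_mul_left _ _)
  rw [Nat.isUnit_iff.1 (hk a h4), Nat.isUnit_iff.1 (hn b h5)] at h3
  simpa using h3

theorem disc_neg {R : Fm} {m : ℕ} (hn : 0 < n) (hm : m ≠ 0) (h : fdisc R = -(n * m ^ 2)) :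
    fdisc R < 0 := by
  rw [h, neg_lt_zero]
  positivity

theorem cm_pos (hn : 0 < n) (h : CM n z) : 0 < z.im := by
  obtain ⟨R, m, h1, h2, h3, rfl⟩ := h
  exact im_froot_pos (disc_neg hn h1 h3) h2

/-- Special points are stable under matrices of positive determinant. -/
theorem cm_act (hn : 0 < n) (h : CM n z) (hM : 0 < M.det) : CM n (act M z) := by
  have hz := cm_pos hn h
  obtain ⟨R, m, h1, h2, h3, h4⟩ := h
  have hD := disc_neg hn h1 h3
  have h5 := froot_root hD h2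
  rw [← h4] at h5
  have h6 := den_ne' hM.ne' hz
  have h7 := act_pos hM hz
  rw [Matrix.det_fin_two] at hM
  have e1 : fdisc (fmap R (M 1 1) (-M 0 1) (-M 1 0) (M 0 0)) =
      (M 0 0 * M 1 1 - M 0 1 * M 1 0) ^ 2 * fdisc R := by
    simp only [fdisc, fmap, fval]
    ring
  have e2 : 0 < (fmap R (M 1 1) (-M 0 1) (-M 1 0) (M 0 0)).1 := by
    change 0 < fval R _ _
    have h8 := four_mul_fval R (M 1 1) (-M 1 0)
    refine (pos_iff_pos_of_mul_pos (a := 4 * R.1) ?_).1 (by omega)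
    rw [h8]
    rcases eq_or_ne (M 1 0) 0 with e | e
    · have : M 1 1 ≠ 0 := by
        rintro e'
        simp [e, e'] at hM
      simp only [e, neg_zero, mul_zero]
      have : 2 * R.1 * M 1 1 ≠ 0 := mul_ne_zero (by omega) this
      simpa using sq_pos_of_ne_zero this
    · nlinarith [sq_nonneg (2 * R.1 * M 1 1 + R.2.1 * -M 1 0), sq_pos_of_ne_zero e]
  refine ⟨_, (M 0 0 * M 1 1 - M 0 1 * M 1 0).natAbs * m,
    mul_ne_zero (Int.natAbs_ne_zero.2 hM.ne') h1, e2, ?_,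
    eq_froot (by rw [e1]; exact mul_neg_of_pos_of_neg (by positivity) hD) e2 h7 ?_⟩
  · rw [e1, h3]
    push_cast
    rw [mul_pow, sq_abs]
    ring
  · simp only [fmap, fval, act, mob]
    simp only [den] at h6
    push_cast
    obtain ⟨u, hu⟩ : ∃ u, u = (M 1 0 : ℂ) * z + M 1 1 := ⟨_, rfl⟩
    rw [← hu] at h6 ⊢
    field_simp
    rw [hu]
    linear_combination ((M 0 0 : ℂ) * M 1 1 - M 0 1 * M 1 0) ^ 2 * h5

/-- Special points have trivial stabilizers. -/
theorem cm_free (hn : Squarefree n) (h3 : 3 < n) (h : CM n z) (hg : g.det = 1)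
    (e : act g z = z) : g = 1 ∨ g = -1 := by
  have hz := cm_pos (by omega) h
  obtain ⟨R, m, h1, h2, h4, h5⟩ := h
  have h6 := froot_root (disc_neg (by omega) h1 h4) h2
  rw [← h5] at h6
  have h7 := den_ne' (M := g) (by omega) hz
  simp only [act, mob, den] at e h7
  rw [div_eq_iff h7] at e
  rw [Matrix.det_fin_two] at hg
  have h8 : ((R.1 * (g 1 1 - g 0 0) - R.2.1 * g 1 0 : ℤ) : ℂ) * z =
      ((R.1 * g 0 1 + R.2.2 * g 1 0 : ℤ) : ℂ) := by
    push_cast
    linear_combination (-(R.1 : ℂ)) * e - g 1 0 * h6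
  have e1 : R.1 * (g 1 1 - g 0 0) - R.2.1 * g 1 0 = 0 := by
    have := congrArg Complex.im h8
    rw [Complex.mul_im, Complex.intCast_im, Complex.intCast_im, Complex.intCast_re, zero_mul,
      add_zero] at this
    exact_mod_cast (mul_eq_zero.1 this).resolve_right hz.ne'
  have e2 : R.1 * g 0 1 + R.2.2 * g 1 0 = 0 := by
    rw [e1, Int.cast_zero, zero_mul] at h8
    exact_mod_cast h8.symm
  have e3 : n * (m * g 1 0) ^ 2 = (4 - (g 0 0 + g 1 1) ^ 2) * R.1 ^ 2 := by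
    rw [fdisc] at h4
    linear_combination g 1 0 ^ 2 * h4 + (R.1 * (g 1 1 - g 0 0) + R.2.1 * g 1 0) * e1 +
      4 * R.1 * g 1 0 * e2 + 4 * R.1 ^ 2 * hg
  have e4 : g 1 0 = 0 := by
    by_contra c
    have x0 : (m * g 1 0).natAbs ≠ 0 :=
      Int.natAbs_ne_zero.2 (mul_ne_zero (Int.natCast_ne_zero.2 h1) c)
    have p : (0 : ℤ) < n * (m * g 1 0) ^ 2 :=
      mul_pos (by omega) (sq_pos_of_ne_zero (Int.natAbs_ne_zero.1 x0))
    have q : (g 0 0 + g 1 1) ^ 2 < 4 := by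
      rw [e3] at p
      have := pos_of_mul_pos_left p (sq_nonneg _)
      omega
    have q1 : -2 < g 0 0 + g 1 1 := by nlinarith
    have q2 : g 0 0 + g 1 1 < 2 := by nlinarith
    have q3 : g 0 0 + g 1 1 = 0 ∨ (g 0 0 + g 1 1) ^ 2 = 1 := by
      rw [sq_eq_one_iff]
      omega
    rcases q3 with q3 | q3
    · have := sqf_eq (y := (2 * R.1).natAbs) hn squarefree_one x0 (by
        zify
        rw [sq_abs, sq_abs, e3, q3]
        ring)
      omega
    · have := sqf_eq (y := R.1.natAbs) hn Nat.prime_three.squarefree x0 (by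
        zify
        rw [sq_abs, sq_abs, e3, q3]
        ring)
      omega
  rw [e4, mul_zero] at e1 e2 hg
  have e5 : g 1 1 = g 0 0 := by
    have := (mul_eq_zero.1 (by simpa using e1 : R.1 * (g 1 1 - g 0 0) = 0)).resolve_left h2.ne'
    omega
  have e6 : g 0 1 = 0 := (mul_eq_zero.1 (by simpa using e2 : R.1 * g 0 1 = 0)).resolve_left h2.ne'
  rcases Int.eq_one_or_neg_one_of_mul_eq_one' (by simpa using hg : g 0 0 * g 1 1 = 1) with c | c
  · left
    ext i j
    fin_cases i <;> fin_cases j <;> simp [c.1, c.2, e4, e6]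
  · right
    ext i j
    fin_cases i <;> fin_cases j <;> simp [c.1, c.2, e4, e6]

/-- Finite sets of inequivalent special points. -/
structure Sep (N n : ℕ) (s : Finset ℂ) : Prop where
  cm : ∀ z ∈ s, CM n z
  uniq : ∀ z ∈ s, ∀ w ∈ s, Ev N z w → z = w

/-- The set `s` meets all the orbits on which `F` does not vanish. -/
def Cov (N : ℕ) (F : ℂ → V) (s : Finset ℂ) : Prop :=
  ∀ z : ℂ, 0 < z.im → F z ≠ 0 → ∃ w ∈ s, Ev N z w

theorem exists_sep (hn : 0 < n) (s : Finset ℂ) (h : ∀ z ∈ s, CM n z) :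
    ∃ s', Sep N n s' ∧ ∀ z ∈ s, ∃ w ∈ s', Ev N z w := by
  induction s using Finset.induction_on with
  | empty => exact ⟨∅, ⟨by simp, by simp⟩, by simp⟩
  | insert x s _ ih =>
    obtain ⟨s', h1, h2⟩ := ih fun z hz => h z (mem_insert_of_mem hz)
    by_cases c : ∃ w ∈ s', Ev N x w
    · exact ⟨s', h1, forall_mem_insert _ _ _ |>.2 ⟨c, h2⟩⟩
    have hx := h x (mem_insert_self _ _)
    refine ⟨insert x s', ⟨(forall_mem_insert _ _ _).2 ⟨hx, h1.cm⟩, fun z hz w hw e => ?_⟩,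
      (forall_mem_insert _ _ _).2 ⟨⟨x, mem_insert_self _ _, .refl x⟩, fun z hz => ?_⟩⟩
    · rcases mem_insert.1 hz with rfl | kz <;> rcases mem_insert.1 hw with rfl | kw
      · rfl
      · exact absurd ⟨w, kw, e⟩ c
      · exact absurd ⟨z, kz, e.symm (cm_pos hn hx)⟩ c
      · exact h1.uniq z kz w kw e
    · obtain ⟨w, hw, e⟩ := h2 z hz
      exact ⟨w, mem_insert_of_mem hw, e⟩

theorem expand (hn : 0 < n) (hs : Sep N n s) (hF : Inv0 N F)
    (h : F z ≠ 0 → ∃ w ∈ s, Ev N z w) : F z = ∑ w ∈ s, if Ev N z w then F w else 0 := by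
  by_cases c : ∃ w ∈ s, Ev N z w
  · obtain ⟨w, hw, e⟩ := c
    have p := cm_pos hn (hs.cm w hw)
    rw [sum_eq_single_of_mem w hw fun x hx ne => if_neg fun e' =>
      ne (hs.uniq x hx w hw ((e'.symm (cm_pos hn (hs.cm x hx))).trans e p)), if_pos e, e.inv hF p]
  · rw [of_not_not (mt h c), sum_eq_zero fun w hw => if_neg fun e => c ⟨w, hw, e⟩]

/-- The sum does not depend on the representatives. -/
theorem sum_indep (hn : 0 < n) (hs : Sep N n s) (hs' : Sep N n s') (hF : Inv0 N F)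
    (h : Cov N F s) (h' : Cov N F s') : ∑ z ∈ s, F z = ∑ z ∈ s', F z := by
  have p := fun z hz => cm_pos hn (hs.cm z hz)
  have p' := fun z hz => cm_pos hn (hs'.cm z hz)
  rw [sum_congr rfl fun z hz => expand hn hs' hF (h' z (p z hz)),
    sum_congr rfl fun z hz => expand hn hs hF (h z (p' z hz)), sum_comm]
  refine sum_congr rfl fun w hw => sum_congr rfl fun z hz => ?_
  by_cases c : Ev N z w
  · rw [if_pos c, if_pos (c.symm (p' w hw)), c.inv hF (p' w hw)]
  · rw [if_neg c, if_neg fun e => c (e.symm (p z hz))]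

theorem inv_smul (h : Inv0 N ν) (hS : Inv0 N S) : Inv0 N fun z => ν z • S z :=
  fun g hg z hz => by simp only [h g hg z hz, hS g hg z hz]

theorem Cov.smul (h : Cov N ν s) (S : ℂ → V) : Cov N (fun z => ν z • S z) s :=
  fun z hz e => h z hz fun c => e (by simp only [c, zero_smul])

theorem Cov.mono (hn : 0 < n) (h : Cov N F s) (hs : Sep N n s') (e : ∀ z ∈ s, ∃ w ∈ s', Ev N z w) :
    Cov N F s' := fun z hz c => by
  obtain ⟨w, hw, e1⟩ := h z hz c
  obtain ⟨x, hx, e2⟩ := e w hw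
  exact ⟨x, hx, e1.trans e2 (cm_pos hn (hs.cm x hx))⟩

/-- The dual isogeny. -/
theorem dual (hl : l.Prime) (h : ¬ l ∣ N) (hg : G0 N g) (i : Option (Fin l)) :
    ∃ j k, G0 N k ∧ (rP l i).adjugate * g = k * rP l j := by
  obtain ⟨j, k, h1, h2⟩ := (isReps_rP hl).surj ((rP l i).adjugate * g) (by
    rw [Matrix.det_mul, det_adjugate_two, hg.1, mul_one, (isReps_rP hl).det])
  refine ⟨j, k, ⟨h1, ?_⟩, h2⟩
  have c : IsCoprime (N : ℤ) l :=
    Nat.isCoprime_iff_coprime.2 ((Nat.Prime.coprime_iff_not_dvd hl).2 h).symm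
  have e := congrFun (congrFun h2 1) 0
  have e1 : rP l i 0 0 * g 1 0 = k 1 0 * rP l j 0 0 := by
    rcases i with _ | i <;> rcases j with _ | j <;>
      simpa [rP, ut, Matrix.mul_apply, Fin.sum_univ_two, Matrix.adjugate_fin_two] using e
  refine IsCoprime.dvd_of_dvd_mul_right (z := rP l j 0 0) ?_ (e1 ▸ hg.2.mul_left _)
  rcases j with _ | j <;> simp [rP, ut, c, isCoprime_one_right]

theorem dual_act (hl : l.Prime) {i j : Option (Fin l)} (hg : G0 N g) (hz : 0 < z.im)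
    (hw : 0 < w.im) (e : act (rP l i) z = act g w) (e' : (rP l i).adjugate * g = k * rP l j) :
    z = act k (act (rP l j) w) := by
  rw [← act_mul _ (rP_det_pos hl j).ne' hw, ← e', act_mul _ (hg.1 ▸ one_ne_zero) hw, ← e,
    act_adjugate (rP_det_pos hl i).ne' hz]

/-- The number of isogenies between two points. -/
noncomputable def cnt (N l : ℕ) (z w : ℂ) : ℕ := #{i | Ev N (act (rP l i) z) w}

theorem cnt_le (hl : l.Prime) (h : ¬ l ∣ N) (hz : 0 < z.im) (hw : 0 < w.im)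
    (fr : ∀ g : MZ, g.det = 1 → act g z = z → g = 1 ∨ g = -1) : cnt N l z w ≤ cnt N l w z := by
  have key : ∀ i, ∃ j g k, Ev N (act (rP l i) z) w → G0 N g ∧ G0 N k ∧
      (rP l i).adjugate * g = k * rP l j ∧ z = act k (act (rP l j) w) := fun i => by
    by_cases c : Ev N (act (rP l i) z) w
    · obtain ⟨g, hg, e⟩ := c
      obtain ⟨j, k, hk, e'⟩ := dual hl h hg i
      exact ⟨j, g, k, fun _ => ⟨hg, hk, e', dual_act hl hg hz hw e e'⟩⟩
    · exact ⟨i, 1, 1, fun e => absurd e c⟩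
  choose σ g k H using key
  refine card_le_card_of_injOn σ (fun i hi => ?_) fun i hi j hj e => ?_
  · obtain ⟨-, h2, -, h4⟩ := H i (mem_filter.1 hi).2
    exact mem_filter.2 ⟨mem_univ _, Ev.symm ⟨_, h2, h4⟩ (rP_pos hl _ hw)⟩
  obtain ⟨a1, a2, a3, a4⟩ := H i (mem_filter.1 hi).2
  obtain ⟨b1, b2, b3, b4⟩ := H j (mem_filter.1 hj).2
  rw [← e] at b3 b4
  have c1 : act (k j * (k i).adjugate) z = z := by
    rw [act_mul _ ((adj a2).1 ▸ one_ne_zero) hz]
    conv_lhs => rw [a4, act_adjugate (a2.1 ▸ one_ne_zero) (rP_pos hl _ hw), ← b4]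
  have c2 : ∀ u : MZ, k j * (k i).adjugate = u → (rP l j).adjugate * g j =
      u * ((rP l i).adjugate * g i) := fun u hu => by
    rw [a3, b3, ← hu, mul_assoc, ← mul_assoc _ (k i), Matrix.adjugate_mul, a2.1, one_smul, one_mul]
  have aa : ∀ M : MZ, M.adjugate.adjugate = M := fun M => by
    rw [Matrix.adjugate_adjugate M (by simp)]
    simp
  have c3 : ∀ u : MZ, k j * (k i).adjugate = u → rP l j =
      g j * (g i).adjugate * rP l i * u.adjugate := fun u hu => by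
    have := congrArg (fun M => g j * Matrix.adjugate M) (c2 u hu)
    simp only [Matrix.adjugate_mul_distrib, aa] at this
    rwa [← mul_assoc, Matrix.mul_adjugate, b1.1, one_smul, one_mul, ← mul_assoc, ← mul_assoc] at this
  have d := (mul b1 (adj a1)).1
  rcases fr _ (mul b2 (adj a2)).1 c1 with u | u
  · exact ((isReps_rP hl).inj j i _ d (by simpa using c3 _ u)).symm
  · refine ((isReps_rP hl).inj j i (-(g j * (g i).adjugate)) (by simp [Matrix.det_neg, d]) ?_).symm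
    have : (-1 : MZ).adjugate = -1 := by
      ext a b
      fin_cases a <;> fin_cases b <;> simp [Matrix.adjugate_fin_two]
    simpa [this] using c3 _ u

theorem sum_cnt (c : V) (z w : ℂ) :
    ∑ i, (if Ev N (act (rP l i) z) w then c else 0) = cnt N l z w • c := by
  rw [← sum_filter, sum_const, cnt]

/-- The case of a prime. -/
theorem step (hn : Squarefree n) (h3 : 3 < n) (hl : l.Prime) (h : ¬ l ∣ N) (hν : Inv0 N ν)
    (hs : Sep N n s) (hc : Cov N ν s) : ∃ s', Sep N n s' ∧ Cov N (Tf ℤ l ν) s' ∧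
      ∀ (V : Type) [AddCommGroup V] (S : ℂ → V), Inv0 N S →
        ∑ z ∈ s', Tf ℤ l ν z • S z = ∑ z ∈ s, ν z • Tf V l S z := by
  have n0 : 0 < n := by omega
  obtain ⟨s', h1, h2⟩ := exists_sep (N := N) n0
    ((s ×ˢ univ).image fun p : ℂ × Option (Fin l) => act (rP l p.2) p.1) fun z hz => by
      obtain ⟨p, hp, rfl⟩ := mem_image.1 hz
      exact cm_act n0 (hs.cm _ (mem_product.1 hp).1) (rP_det_pos hl _)
  replace h2 : ∀ w ∈ s, ∀ j, ∃ x ∈ s', Ev N (act (rP l j) w) x := fun w hw j =>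
    h2 _ (mem_image.2 ⟨(w, j), mem_product.2 ⟨hw, mem_univ _⟩, rfl⟩)
  have p := fun z hz => cm_pos n0 (hs.cm z hz)
  have p' := fun z hz => cm_pos n0 (h1.cm z hz)
  refine ⟨s', h1, fun z hz e => ?_, fun V _ S hS => ?_⟩
  · obtain ⟨i, -, e1⟩ := exists_ne_zero_of_sum_ne_zero (Tf_apply l ν z ▸ e)
    obtain ⟨w, hw, g, hg, e2⟩ := hc _ (rP_pos hl i hz) e1
    obtain ⟨j, k, hk, e3⟩ := dual hl h hg i
    obtain ⟨x, hx, e4⟩ := h2 w hw j
    exact ⟨x, hx, Ev.trans ⟨k, hk, dual_act hl hg hz (p w hw) e2 e3⟩ e4 (p' x hx)⟩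
  have a1 : ∀ z ∈ s', Tf ℤ l ν z • S z = ∑ w ∈ s, cnt N l z w • ν w • S z := fun z hz => by
    rw [Tf_apply, sum_congr rfl fun i _ => expand n0 hs hν (hc _ (rP_pos hl i (p' z hz))), sum_comm, sum_smul]
    exact sum_congr rfl fun w _ => by rw [sum_cnt, smul_assoc]
  have a2 : ∀ w ∈ s, ν w • Tf V l S w = ∑ z ∈ s', cnt N l w z • ν w • S z := fun w hw => by
    rw [Tf_apply, sum_congr rfl fun i _ => expand n0 h1 hS fun _ => h2 w hw i, sum_comm, smul_sum]
    exact sum_congr rfl fun z _ => by rw [sum_cnt, smul_comm]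
  rw [sum_congr rfl a1, sum_congr rfl a2, sum_comm]
  refine sum_congr rfl fun w hw => sum_congr rfl fun z hz => ?_
  rw [le_antisymm
    (cnt_le hl h (p' z hz) (p w hw) fun _ => cm_free hn h3 (h1.cm z hz))
    (cnt_le hl h (p w hw) (p' z hz) fun _ => cm_free hn h3 (hs.cm w hw))]

theorem main (hn : Squarefree n) (h3 : 3 < n) {t : HW} (ht : t ∈ HA N) (hν : Inv0 N ν)
    (hs : Sep N n s) (hc : Cov N ν s) : ∃ s', Sep N n s' ∧ Cov N (hf ℤ t ν) s' ∧
      ∀ (V : Type) [AddCommGroup V] (S : ℂ → V) (a : ℕ → ℤ), Inv0 N S → Eig N a S →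
        ∑ z ∈ s', hf ℤ t ν z • S z = he a t • ∑ z ∈ s, ν z • S z := by
  have n0 : 0 < n := by omega
  revert ν s
  refine HA_ind (p := fun t => ∀ {s : Finset ℂ} {ν : ℂ → ℤ}, Inv0 N ν → Sep N n s → Cov N ν s →
    ∃ s', Sep N n s' ∧ Cov N (hf ℤ t ν) s' ∧
      ∀ (V : Type) [AddCommGroup V] (S : ℂ → V) (a : ℕ → ℤ), Inv0 N S → Eig N a S →
        ∑ z ∈ s', hf ℤ t ν z • S z = he a t • ∑ z ∈ s, ν z • S z) ht
    (fun l hl h s ν hν hs hc => ?_) (fun c s ν hν hs hc => ?_)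
    (fun t u ht hu h1 h2 s ν hν hs hc => ?_) fun t u _ hu h1 h2 s ν hν hs hc => ?_
  · obtain ⟨s', a1, a2, a3⟩ := step hn h3 hl h hν hs hc
    rw [hf_tl]
    refine ⟨s', a1, a2, fun V _ S a hS hE => ?_⟩
    rw [a3 V S hS, he_tl, smul_sum]
    exact sum_congr rfl fun z hz => by rw [hE l hl h z (cm_pos n0 (hs.cm z hz)), smul_comm]
  · refine ⟨s, hs, fun z hz e => hc z hz fun k => e (by rw [hf_int, k, smul_zero]),
      fun V _ S a _ _ => ?_⟩
    rw [(he a).commutes, smul_sum]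
    exact sum_congr rfl fun z _ => by rw [hf_int, smul_assoc]; rfl
  · obtain ⟨s₁, a1, a2, a3⟩ := h1 hν hs hc
    obtain ⟨s₂, b1, b2, b3⟩ := h2 hν hs hc
    obtain ⟨s', c1, c2⟩ := exists_sep (N := N) n0 (s₁ ∪ s₂) fun z hz =>
      (mem_union.1 hz).elim (a1.cm z) (b1.cm z)
    have a4 := a2.mono n0 c1 fun z hz => c2 z (mem_union_left _ hz)
    have b4 := b2.mono n0 c1 fun z hz => c2 z (mem_union_right _ hz)
    refine ⟨s', c1, fun z hz e => ?_, fun V _ S a hS hE => ?_⟩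
    · by_cases k : hf ℤ t ν z = 0
      · exact b4 z hz fun k' => e (by rw [hf_add, k, k', add_zero])
      · exact a4 z hz k
    · rw [map_add (he a), add_smul, ← a3 V S a hS hE, ← b3 V S a hS hE,
        sum_indep n0 a1 c1 (inv_smul (inv0_hf hν ht) hS) (a2.smul S) (a4.smul S),
        sum_indep n0 b1 c1 (inv_smul (inv0_hf hν hu) hS) (b2.smul S) (b4.smul S),
        ← sum_add_distrib]
      exact sum_congr rfl fun z _ => by rw [hf_add, add_smul]
  · obtain ⟨s₂, b1, b2, b3⟩ := h2 hν hs hc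
    obtain ⟨s₁, a1, a2, a3⟩ := h1 (inv0_hf hν hu) b1 b2
    rw [hf_mul]
    exact ⟨s₁, a1, a2, fun V _ S a hS hE => by
      rw [a3 V S a hS hE, b3 V S a hS hE, map_mul, mul_smul]⟩

end AD

theorem ad_stmt : ADStmt := fun N n ν s t _ hn h3 hR hs ht => by
  obtain ⟨s', h1, h2, h4⟩ := AD.main hn h3 ht hR.inv
    ⟨hs, fun z hz w hw ⟨g, hg, e⟩ => hR.uniq z hz w hw g hg e⟩ hR.ex
  exact ⟨s', ⟨inv0_hf hR.inv ht, fun z hz => AD.cm_pos (by omega) (h1.cm z hz),
    fun z hz _ => AD.cm_free hn h3 (h1.cm z hz), h2,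
    fun z hz w hw g hg e => h1.uniq z hz w hw ⟨g, hg, e⟩⟩, h1.cm, h4⟩

end Pool.Agent.G5
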