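import Pool.Agent.Lib.MP_696deb_nt.B5.HT0
import Pool.Agent.Lib.MP_696deb_nt.B5.ADa
import Pool.Agent.Lib.MP_696deb_nt.B4.HSa

/-! Special points are smooth points of the plane model. -/

set_option autoImplicit false

open Filter Topology Complex
open scoped Classical Real MatrixGroups UpperHalfPlane

namespace Pool.Agent.G5

open Pool.Agent.Lib.MP_696deb_nt Pool.Agent.Lib.MP_696deb_nt.B4 Pool.Agent.B4.GE
  Pool.Agent.Lib.MP_696deb_nt.B2.CM

variable {N n : ℕ} {z z' : ℂ}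

theorem jf_surj (x : ℂ) : ∃ z : ℂ, 0 < z.im ∧ jf z = x := by
  by_contra! h
  have h1 : Tendsto (fun z => (jf z - x)⁻¹) atI (𝓝 0) :=
    tendsto_inv₀_cobounded.comp ((tendsto_sub_const_cobounded x).comp tendsto_jf)
  have h2 : Inv1 fun z => (jf z - x)⁻¹ := fun g hg z hz => by simp only [jf_act hg hz]
  obtain ⟨A, hA⟩ := QE.exists_of_periodic (F := fun z => (jf z - x)⁻¹)
    (fun z hz => ((hol_jf z hz).sub_const x).inv (sub_ne_zero.2 (h z hz))) h2.periodic
    (Bdd.of_tendsto h1)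
  have h3 := h2.const hA I (by simp)
  rw [tendsto_nhds_unique hA.tendsto h1] at h3
  exact inv_ne_zero (sub_ne_zero.2 (h I (by simp))) h3

theorem exists_sl (hz : 0 < z.im) (hz' : 0 < z'.im) (h : jf z' = jf z) :
    ∃ g : MZ, g.det = 1 ∧ z' = act g z := by
  obtain ⟨a, ha, e⟩ := jL_inj (isLat_sp2 hz'.ne') (isLat_sp2 hz.ne')
    (by rw [jL_tau hz, jL_tau hz', h])
  obtain ⟨x, y, u, w, k1, -, k2⟩ := B4.exists_mob hz' hz ha e
  exact ⟨!![x, y; u, w], by rwa [Matrix.det_fin_two_of], k2⟩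

/-- An analytic function is not injective near a critical point. -/
theorem not_inj {f : ℂ → ℂ} (hf : AnalyticAt ℂ f z) (h0 : deriv f z = 0) {U : Set ℂ}
    (hU : U ∈ 𝓝 z) : ∃ s ∈ U, ∃ t ∈ U, s ≠ t ∧ f s = f t := by
  have h1 : AnalyticAt ℂ (fun t => f t - f z) z := hf.sub analyticAt_const
  rcases h : analyticOrderAt (fun t => f t - f z) z with _ | m
  · obtain ⟨t, k1, k2, k3⟩ := (((analyticOrderAt_eq_top.1 h).filter_mono
      (nhdsWithin_le_nhds (s := {z}ᶜ))).and (Eventually.and (p := fun t => t ∈ U)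
        (q := fun t => t ≠ z) (mem_nhdsWithin_of_mem_nhds hU) self_mem_nhdsWithin)).exists
    exact ⟨t, k2, z, mem_of_mem_nhds hU, k3, sub_eq_zero.1 k1⟩
  obtain ⟨g, g1, g2, g3⟩ := h1.analyticOrderAt_eq_natCast.1 h
  have m0 : m ≠ 0 := by
    rintro rfl
    exact g2 (by simpa using g3.self_of_nhds.symm)
  have m1 : m ≠ 1 := by
    rintro rfl
    have k1 := ((hasDerivAt_id z).sub_const z).mul g1.differentiableAt.hasDerivAt
    have k2 := (hf.differentiableAt.hasDerivAt.sub_const (f z)).unique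
      (k1.congr_of_eventuallyEq (g3.mono fun t ht => by simpa using ht))
    exact g2 (by simpa [h0] using k2.symm)
  have m2 : (m : ℂ) ≠ 0 := Nat.cast_ne_zero.2 m0
  have g4 : AnalyticAt ℂ (fun t => g t / g z) z := g1.div analyticAt_const g2
  have g5 : AnalyticAt ℂ (fun t => cexp (log (g t / g z) / m)) z :=
    ((g4.clog (by simp [g2])).div analyticAt_const m2).cexp
  have g0 : HasStrictDerivAt (fun x => id x - z) 1 z := (hasStrictDerivAt_id z).sub_const z
  have g6 := g0.mul g5.hasStrictDerivAt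
  have g7 := g6.map_nhds_eq (by simp)
  have g8 := image_mem_map (m := (fun x => id x - z) * fun t => cexp (log (g t / g z) / m))
    (inter_mem hU (g3.and (g1.continuousAt.eventually_ne g2)))
  rw [g7, Pi.mul_apply, id, sub_self, zero_mul] at g8
  have hζ := isPrimitiveRoot_exp m m0
  generalize cexp (2 * π * I / m) = ζ at hζ
  have g9 : Tendsto (fun w : ℂ => ζ * w) (𝓝 0) (𝓝 0) := by
    simpa using (continuous_const_mul ζ).tendsto 0
  obtain ⟨w, ⟨⟨s, ⟨s1, s2, s3⟩, s4⟩, t, ⟨t1, t2, t3⟩, t4⟩, w0⟩ :=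
    ((((eventually_mem_set.2 g8).and (g9.eventually (eventually_mem_set.2 g8))).filter_mono
      (nhdsWithin_le_nhds (s := {0}ᶜ))).and self_mem_nhdsWithin).exists
  have key : ∀ t, g t ≠ 0 → (t - z) ^ m • g t =
      ((t - z) * cexp (log (g t / g z) / m)) ^ m * g z := fun t ht => by
    rw [mul_pow, ← exp_nat_mul, mul_div_cancel₀ _ m2, exp_log (div_ne_zero ht g2), mul_assoc,
      div_mul_cancel₀ _ g2, smul_eq_mul]
  refine ⟨s, s1, t, t1, fun e => ?_, sub_left_injective (b := f z) ?_⟩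
  · rw [← e, s4] at t4
    exact hζ.ne_one (by omega) (mul_right_cancel₀ w0 (t4.symm.trans (one_mul w).symm))
  · simp only [Pi.mul_apply, id] at s4 t4
    simp only [s2, t2, key s s3, key t t3, s4, t4, mul_pow, hζ.pow_eq_one, one_mul]

theorem deriv_jf_ne (hz : 0 < z.im) (h : ∀ g : MZ, g.det = 1 → act g z = z → g = 1 ∨ g = -1) :
    deriv jf z ≠ 0 := fun h0 => by
  obtain ⟨U, hU, k⟩ := ProperlyDiscontinuousSMul.exists_nhds_image_smul_eq_self 𝒮ℒ (⟨z, hz⟩ : ℍ)
  obtain ⟨_, ⟨s, s1, rfl⟩, _, ⟨t, t1, rfl⟩, e1, e2⟩ := not_inj (gb_an hol_jf hz) h0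
    (UpperHalfPlane.isOpenEmbedding_coe.image_mem_nhds.2 hU)
  obtain ⟨g, hg, e3⟩ := exists_sl t.2 s.2 e2
  have e4 := k ⟨Matrix.SpecialLinearGroup.mapGL ℝ (⟨g, hg⟩ : SL(2, ℤ)), _, rfl⟩ ⟨s, ⟨t, t1,
    UpperHalfPlane.ext ((coe_smul_eq_mob ⟨g, hg⟩ t).trans e3.symm)⟩, s1⟩
  have e5 := (coe_smul_eq_mob ⟨g, hg⟩ ⟨z, hz⟩).symm.trans (congrArg UpperHalfPlane.coe e4)
  refine e1 (e3.trans ?_)
  rcases h g hg e5 with rfl | rfl
  · exact act_one _
  · rw [← neg_one_smul ℤ, act_smul (by decide), act_one]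

/-- Matrices of small determinant that fix a special point are scalar. -/
theorem CM.scalar (h : CM n z) (hn : Squarefree n) {M : MZ} (h0 : M.det ≠ 0) (h1 : 4 * M.det < n)
    (e : act M z = z) : M 1 0 = 0 ∧ M 0 1 = 0 ∧ M 0 0 = M 1 1 := by
  have n0 : 0 < n := hn.ne_zero.bot_lt
  have hz := AD.cm_pos n0 h
  obtain ⟨R, m, k1, k2, k3, rfl⟩ := h
  have k4 := froot_root (AD.disc_neg n0 k1 k3) k2
  have k5 := den_ne' h0 hz
  rw [den] at k5
  rw [act, mob, div_eq_iff k5] at e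
  rw [Matrix.det_fin_two] at h1
  generalize froot R = z at *
  generalize M 0 0 = a at *
  generalize M 0 1 = b at *
  generalize M 1 1 = d at *
  generalize M 1 0 = c at *
  obtain ⟨e1, e2⟩ := tau_indep hz.ne' (x := R.1 * (d - a) - c * R.2.1) (y := -(R.1 * b) - c * R.2.2)
    (by push_cast; linear_combination -(R.1 : ℂ) * e - c * k4)
  have hc : c = 0 := by
    by_contra hc
    have e3 : (4 * (a * d - b * c) - (a + d) ^ 2) * n * R.1 ^ 2 = (n * (c * m)) ^ 2 := by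
      rw [fdisc] at k3
      linear_combination -n * c ^ 2 * k3 - n * (R.1 * (d - a) + c * R.2.1) * e1 +
        4 * n * c * R.1 * e2
    obtain ⟨t, ht⟩ := (Int.pow_dvd_pow_iff two_ne_zero).1 (Dvd.intro_left _ e3)
    rw [ht, mul_pow, mul_comm (R.1 ^ 2), mul_left_inj' (pow_ne_zero 2 k2.ne')] at e3
    obtain ⟨s, rfl⟩ := ((Int.squarefree_natCast.2 hn).dvd_pow_iff_dvd two_ne_zero).1
      (Dvd.intro_left _ e3)
    have n1 : (0 : ℤ) < n := by exact_mod_cast n0
    have s0 : s ≠ 0 := by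
      rintro rfl
      exact mul_ne_zero n1.ne' (mul_ne_zero hc (Nat.cast_ne_zero.2 k1)) (by simpa using ht)
    have e4 : 4 * (a * d - b * c) - (a + d) ^ 2 = n * s ^ 2 :=
      mul_right_cancel₀ n1.ne' (by linear_combination e3)
    have : 0 < s ^ 2 := by positivity
    nlinarith [sq_nonneg (a + d)]
  subst hc
  exact ⟨rfl, (mul_eq_zero.1 (by linear_combination -e2)).resolve_left k2.ne',
    (sub_eq_zero.1 ((mul_eq_zero.1 (by linear_combination e1)).resolve_left k2.ne')).symm⟩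

theorem CM.sep (h : CM n z) (hN : N ≠ 0) (hn : Squarefree n) (h1 : 4 * N ^ 2 < n) : Sep N z := by
  intro g hg e
  have hz := AD.cm_pos hn.ne_zero.bot_lt h
  have h2 := act_pos (hg ▸ one_pos : 0 < g.det) hz
  obtain ⟨k, hk, e1⟩ := exists_sl (ga_pos hN h2) (ga_pos hN hz) e.symm
  have n0 : (N : ℤ) ≠ 0 := Nat.cast_ne_zero.2 hN
  have d1 : (ut N 0 1).det = N := by simp [det_ut]
  have d2 : (k * (ut N 0 1 * g)).det = N := by simp [hk, hg, d1]
  have e2 : act ((ut N 0 1).adjugate * (k * (ut N 0 1 * g))) z = z := by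
    rw [act_mul _ (d2 ▸ n0) hz, act_mul _ (by simp [hg, d1, hN]) hz, act_mul _ (by omega) hz,
      act_dg, ← e1, ← act_dg, act_adjugate (d1 ▸ n0) hz]
  have d3 : ((ut N 0 1).adjugate * (k * (ut N 0 1 * g))).det = N ^ 2 := by
    rw [Matrix.det_mul, d2, det_adjugate_two, d1, sq]
  obtain ⟨f1, f2, f3⟩ := h.scalar hn (d3 ▸ pow_ne_zero 2 n0) (by rw [d3]; exact_mod_cast h1) e2
  rw [Matrix.det_fin_two, f1, f3] at d3
  rw [Matrix.det_fin_two] at hk
  simp only [ut, Matrix.adjugate_fin_two, Matrix.mul_apply, Fin.sum_univ_two, Matrix.of_apply,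
    Matrix.cons_val', Matrix.cons_val_zero, Matrix.cons_val_one, Matrix.cons_val_fin_one,
    Nat.cast_one, Nat.cast_zero, neg_zero, zero_mul, one_mul, add_zero, zero_add, mul_zero,
    sub_zero] at f1 f3 d3
  have f4 := (mul_eq_zero.1 f1).resolve_left n0
  exact ⟨hg, -(k 1 0 * (k 1 0 * (N * g 0 1) + k 1 1 * g 1 1)), by
    linear_combination -g 1 0 * hk + k 0 0 * f4 - k 1 0 * f3⟩

theorem sp_stmt : SPStmt := ⟨jf_surj, fun _ _ => exists_sl, fun N n z hN hn _ h1 h => by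
  have h3 : 4 < n := by
    have : 0 < N ^ 2 := by positivity
    omega
  exact ⟨deriv_jf_ne (AD.cm_pos (by omega) h) fun g hg => AD.cm_free hn (by omega) h hg,
    h.sep hN hn h1, fun g hg => AD.cm_act (by omega) h hg⟩⟩

end Pool.Agent.G5
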