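import Pool.Agent.Lib.MP_696deb_nt.B5.ZFa

/-! Forms of arbitrary level: systems of representatives, involutions, divisors. -/

set_option autoImplicit false

open Finset NumberTheorySymbols
open scoped Classical

namespace Pool.Agent.G5

open Pool.Agent.Lib.MP_696deb_nt Pool.Agent.B4.GE

variable {N A B : ℕ} {a b c d e β D ρ : ℤ} {z : ℂ} {Q R : Fm} {w : Fm → ℤ} {T T' : Finset Fm}

theorem FReps.sum_eq {M : Type*} [AddCommMonoid M] (h : FReps N D β T) (h' : FReps N D β T')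
    (f : Fm → M) (hf : ∀ Q R, Fam N D β Q → 0 < Q.1 → FEq N Q R → f R = f Q) :
    ∑ Q ∈ T, f Q = ∑ Q ∈ T', f Q := by
  choose g g1 g2 using fun Q hQ => h'.ex Q (h.fam Q hQ) (h.pos Q hQ)
  refine sum_bij g g1 (fun Q hQ R hR e => h.uniq Q hQ R hR ?_) (fun R hR => ?_) fun Q hQ =>
    hf _ _ (h'.fam _ (g1 Q hQ)) (h'.pos _ (g1 Q hQ)) (g2 Q hQ)
  · exact (g2 Q hQ).symm.trans (e ▸ g2 R hR)
  · obtain ⟨Q, hQ, e⟩ := h.ex R (h'.fam R hR) (h'.pos R hR)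
    exact ⟨Q, hQ, h'.uniq _ (g1 Q hQ) _ hR ((g2 Q hQ).trans e)⟩

theorem FReps.image (h : FReps N D β T) (φ : Fm → Fm)
    (h1 : ∀ β Q, Fam N D β Q → 0 < Q.1 → Fam N D (-β) (φ Q) ∧ 0 < (φ Q).1 ∧ φ (φ Q) = Q)
    (h2 : ∀ Q R, (N : ℤ) ∣ Q.1 → FEq N Q R → FEq N (φ Q) (φ R)) :
    FReps N D (-β) (T.image φ) ∧ ∀ {M : Type} [AddCommMonoid M] (f : Fm → M),
      ∑ Q ∈ T.image φ, f Q = ∑ Q ∈ T, f (φ Q) := by
  have h3 := fun Q hQ => h1 β Q (h.fam Q hQ) (h.pos Q hQ)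
  refine ⟨⟨forall_mem_image.mpr fun Q hQ => (h3 Q hQ).1, forall_mem_image.mpr fun Q hQ => (h3 Q hQ).2.1,
    fun Q h4 h5 => ?_, ?_⟩, fun f => sum_image fun Q hQ R hR e => ?_⟩
  · obtain ⟨h6, h7, h8⟩ := h1 _ Q h4 h5
    obtain ⟨R, hR, h9⟩ := h.ex _ (by simpa using h6) h7
    exact ⟨φ R, mem_image_of_mem _ hR, h8 ▸ h2 _ _ (h.fam R hR).1 h9⟩
  · simp only [forall_mem_image]
    intro Q hQ R hR e
    have := h2 _ _ (h3 Q hQ).1.1 e
    rw [(h3 Q hQ).2.2, (h3 R hR).2.2] at this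
    rw [h.uniq Q hQ R hR this]
  · rw [← (h3 Q hQ).2.2, e, (h3 R hR).2.2]

/-- The Fricke involution on forms. -/
def fV (N : ℕ) (R : Fm) : Fm := (N * R.2.2, -R.2.1, R.1 / N)

theorem Fam.cj (h : Fam N D β Q) : Fam N D (-β) (cj Q) :=
  ⟨h.1, by rw [← h.2.1]; simp [fdisc, Lib.MP_696deb_nt.cj], by
    simpa [Lib.MP_696deb_nt.cj, ← sub_eq_neg_add] using dvd_sub_comm.mp h.2.2⟩

theorem FEq.cj (h : FEq N Q R) : FEq N (cj Q) (cj R) := by
  obtain ⟨a, b, c, d, h, rfl⟩ := h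
  refine ⟨a, -b, -c, d, by linear_combination h, ?_⟩
  simp only [Lib.MP_696deb_nt.cj, fmap, fval, Prod.mk.injEq]
  refine ⟨?_, ?_, ?_⟩ <;> ring

theorem FReps.cj (h : FReps N D β T) : FReps N D (-β) (T.image cj) ∧
    ∀ {M : Type} [AddCommMonoid M] (f : Fm → M), ∑ Q ∈ T.image cj, f Q = ∑ Q ∈ T, f (cj Q) :=
  h.image _ (fun _ Q h1 h2 => ⟨h1.cj, h2, cj_cj Q⟩) fun _ _ _ h => h.cj

theorem FReps.fV (hN : N ≠ 0) (hD : D < 0) (h : FReps N D β T) : FReps N D (-β) (T.image (fV N)) ∧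
    ∀ {M : Type} [AddCommMonoid M] (f : Fm → M), ∑ Q ∈ T.image (fV N), f Q = ∑ Q ∈ T, f (fV N Q) := by
  have h0 : (N : ℤ) ≠ 0 := Nat.cast_ne_zero.2 hN
  refine h.image _ ?_ ?_
  · rintro β ⟨_, b, c⟩ ⟨⟨a, rfl⟩, h2, h3⟩ h4
    have := pos_last (h2 ▸ hD) h4
    refine ⟨⟨dvd_mul_right _ _, ?_, by
      simpa [G5.fV, ← sub_eq_neg_add] using dvd_sub_comm.mp h3⟩, ?_, ?_⟩
    · rw [← h2]; simp [fdisc, G5.fV, hN]; ring
    · exact mul_pos (by omega) this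
    · simp [G5.fV, hN]
  · rintro ⟨_, b, c⟩ _ ⟨a, rfl⟩ ⟨x, y, z, u, h, rfl⟩
    refine ⟨u, -z, -y, x, by linear_combination h, ?_⟩
    simp only [G5.fV, fmap, fval, Prod.mk.injEq, mul_div_cancel_left₀ _ h0]
    refine ⟨by ring, by ring, ?_⟩
    rw [Int.ediv_eq_iff_eq_mul_right h0 ⟨a * x ^ 2 + b * x * z + N * c * z ^ 2, by ring⟩]
    ring

theorem gch_fV (hN : N ≠ 0) (hB : Squarefree B) (hodd : Odd B) (h15 : B.Coprime N)
    (hd : (B : ℤ) ∣ fdisc Q)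
    (h : (N : ℤ) ∣ Q.1) : gch B (fV N Q) = J(N | B) * gch B Q := by
  obtain ⟨_, b, c⟩ := Q
  obtain ⟨a, rfl⟩ := h
  rw [gch_eq, gch_eq, jac_eq_prod _ hB, ← prod_mul_distrib]
  refine prod_congr rfl fun p hp => ?_
  have h1 := Nat.prime_of_mem_primeFactors hp
  have h2 : ¬ (p : ℤ) ∣ N := fun h => h1.one_lt.ne' (Nat.eq_one_of_dvd_coprimes h15
    (Nat.dvd_of_mem_primeFactors hp) (by exact_mod_cast h))
  refine gl_of_vals h1 (prime_ne_two hodd hp) (dvd_of_mem hd hp) ?_ h2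
    (fun x y => ⟨y, -N * x, ⟨0, by simp [fV, fval, hN]; ring⟩⟩) fun h0 x y => ?_
  · convert dvd_of_mem hd hp using 1
    simp [fdisc, fV, hN]; ring
  · refine ((Nat.prime_iff_prime_int.mp h1).dvd_or_dvd (a := N) ?_).resolve_left h2
    exact (h0 (-y) (N * x)).trans ⟨1, by simp [fV, fval, hN]; ring⟩

theorem Fam.not_neg {Q : Fm} (h15 : ¬ (N : ℤ) ∣ ρ) (h : Fam N D ρ Q) : ¬ Fam N D (-ρ) Q := fun h' => by
  obtain ⟨k, hk⟩ := h'.2.2.sub h.2.2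
  exact h15 ⟨k, by linarith⟩

theorem jac_lev (h : J(-N | B) = -1) (hB : Odd B) : J(N | B) = -J(-1 | B) := by
  rw [show (-N : ℤ) = -1 * N by ring, jacobiSym.mul_left, jac_m1 hB] at h
  rw [jac_m1 hB]
  split_ifs at h ⊢ <;> omega

theorem FReps.sum_cj {M : Type} [AddCommGroup M] (h : FReps N D ρ T) (hN : N ≠ 0) (hD : D < 0)
    (hB : Squarefree B) (ho : Odd B) (hc : B.Coprime N) (hd : (B : ℤ) ∣ D) (f : Fm → M)
    (hf : ∀ Q R, Fam N D (-ρ) Q → 0 < Q.1 → FEq N Q R → f R = f Q) :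
    ∑ Q ∈ T, gch B Q • f (Lib.MP_696deb_nt.cj Q) =
      J(N | B) • ∑ Q ∈ T, gch B Q • f (G5.fV N Q) := by
  have h1 := h.cj.1.sum_eq (h.fV hN hD).1 (fun Q => gch B Q • f Q) fun Q R h1 h2 h3 => by
    rw [h3.gch ho (h1.2.1 ▸ hd), hf Q R h1 h2 h3]
  rw [h.cj.2, (h.fV hN hD).2] at h1
  rw [smul_sum]
  refine h1.trans (sum_congr rfl fun Q hQ => ?_)
  rw [gch_fV hN hB ho hc ((h.fam Q hQ).2.1 ▸ hd) (h.fam Q hQ).1, mul_smul]

theorem exists_red {n : ℕ} (hD : fdisc Q = -n) (hn : 0 < n) (h : 0 < Q.1) :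
    ∃ a b c d : ℤ, a * d - b * c = 1 ∧ fmap Q a b c d ∈ redForms n := by
  obtain ⟨a, b, c, d, e, k⟩ := exists_reduced (n := n) (by exact_mod_cast hn) Q.1.toNat Q.1 Q.2.1
    Q.2.2 (by omega) h hD
  exact ⟨a, b, c, d, e, (mem_redForms hn).mpr ⟨(fdisc_fmap e Q).trans hD, k⟩⟩

/-- There are finitely many classes of Heegner forms. -/
theorem exists_freps (hN : N ≠ 0) (hD : D < 0) (r : ℤ) : ∃ R, FReps N D r R := by
  have : NeZero N := ⟨hN⟩
  obtain ⟨n, rfl⟩ : ∃ n : ℕ, D = -n := ⟨(-D).toNat, by omega⟩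
  let s : Setoid Fm := ⟨FEq N, FEq.refl, FEq.symm, FEq.trans⟩
  have hT : (Quotient.mk s '' {Q | Fam N (-n) r Q ∧ 0 < Q.1}).Finite := by
    refine Set.Finite.subset (((redForms n).finite_toSet.prod
      (Set.finite_univ (α := ZMod N × ZMod N))).biUnion (t := fun k => Quotient.mk s ''
        {Q | ∃ a b c d : ℤ, a * d - b * c = 1 ∧ k = (fmap Q a b c d, (c : ZMod N), (d : ZMod N))})
      fun k _ => Set.Subsingleton.finite ?_) ?_
    · rintro _ ⟨Q, ⟨a, b, c, d, e, rfl⟩, rfl⟩ _ ⟨Q', ⟨a', b', c', d', e', k⟩, rfl⟩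
      simp only [Prod.mk.injEq] at k
      obtain ⟨u, hu⟩ := (ZMod.intCast_eq_intCast_iff_dvd_sub _ _ _).mp k.2.1
      obtain ⟨v, hv⟩ := (ZMod.intCast_eq_intCast_iff_dvd_sub _ _ _).mp k.2.2
      refine Quotient.sound ⟨a * d' - b * c', b * a' - a * b', c * v - d * u, d * a' - c * b', ?_, ?_⟩
      · linear_combination (a' * d' - b' * c') * e + e' + (b * a' - a * b') * (c * hv - d * hu)
      · rw [← fmap_inv e' Q', ← k.1, fmap_fmap]
        congr 1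
        · ring
        · ring
        · linear_combination c * hv - d * hu
        · ring
    · rintro _ ⟨Q, hQ, rfl⟩
      obtain ⟨a, b, c, d, e, k⟩ := exists_red hQ.1.2.1 (by omega) hQ.2
      exact Set.mem_biUnion (x := (fmap Q a b c d, (c : ZMod N), (d : ZMod N))) ⟨k, trivial⟩
        ⟨Q, ⟨a, b, c, d, e, rfl⟩, rfl⟩
  have key : ∀ Q ∈ hT.toFinset.image Quotient.out, Fam N (-n) r Q ∧ 0 < Q.1 := fun Q hQ => by
    obtain ⟨_, h, rfl⟩ := mem_image.mp hQ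
    obtain ⟨Q, h1, rfl⟩ := hT.mem_toFinset.mp h
    have h2 : FEq N Q _ := FEq.symm (Quotient.mk_out (s := s) Q)
    exact ⟨h2.fam h1.1, h2.pos (h1.1.2.1 ▸ hD) h1.2⟩
  refine ⟨hT.toFinset.image Quotient.out, fun Q hQ => (key Q hQ).1, fun Q hQ => (key Q hQ).2,
    fun Q hQ h0 => ⟨_, mem_image_of_mem _ (hT.mem_toFinset.mpr ⟨Q, ⟨hQ, h0⟩, rfl⟩),
      Quotient.mk_out (s := s) Q⟩, fun Q hQ Q' hQ' e => ?_⟩
  obtain ⟨x, -, rfl⟩ := mem_image.mp hQ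
  obtain ⟨y, -, rfl⟩ := mem_image.mp hQ'
  rw [(Quotient.out_equiv_out (s := s)).mp e]

theorem fV_eq (hN : N ≠ 0) (a b c : ℤ) : fV N (N * a, b, c) = (N * c, -b, a) := by
  simp [fV, hN]

theorem froot_fV (hN : N ≠ 0) (hD : fdisc Q < 0) (hQ : 0 < Q.1) (h : (N : ℤ) ∣ Q.1) :
    froot (fV N Q) = -1 / (N * froot Q) := by
  obtain ⟨_, b, c⟩ := Q
  obtain ⟨a, rfl⟩ := h
  have h1 := im_froot_pos hD hQ
  have h2 := im_mob_pos (a := 0) (b := -1) (c := N) (d := 0) (by omega) h1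
  have h3 := froot_root hD hQ
  have h4 : froot (N * a, b, c) ≠ 0 := fun h => by simp [h] at h1
  have h5 : (N : ℂ) ≠ 0 := Nat.cast_ne_zero.2 hN
  rw [fV_eq hN]
  refine (eq_froot (by simp only [fdisc] at hD ⊢; linarith)
    (mul_pos (by omega) (pos_last hD hQ)) (by simpa [mob] using h2) ?_).symm
  push_cast at h3 ⊢
  field_simp
  linear_combination h3

theorem froot_cj (Q : Fm) : froot (cj Q) = -(starRingEnd ℂ) (froot Q) := by
  simp only [froot, cj, fdisc, map_div₀, map_add, map_mul, map_neg, Complex.conj_ofReal,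
    Complex.conj_I, map_intCast, map_ofNat, neg_sq]
  push_cast
  ring

theorem gch_cj (B : ℕ) (Q : Fm) : gch B (cj Q) = gch B Q := rfl

theorem wZ_of_fam (hρ : ¬ (N : ℤ) ∣ ρ) (h : Fam N D ρ Q) (h0 : 0 < Q.1) :
    wZ N B D ρ Q = gch B Q := by
  rw [wZ, if_pos h0, wG, wG, if_pos h, if_neg (h.not_neg hρ), mul_zero, add_zero]

theorem wZ_of_neg (hρ : ¬ (N : ℤ) ∣ ρ) (h : Fam N D (-ρ) Q) (h0 : 0 < Q.1) :
    wZ N B D ρ Q = J(-1 | B) * gch B Q := by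
  rw [wZ, if_pos h0, wG, wG, if_pos h, if_neg fun k => Fam.not_neg hρ k h, zero_add]

/-- Sums over both orientations. -/
theorem sum_wZ {M : Type} [AddCommGroup M] (h : FReps N D ρ T) (h' : FReps N D (-ρ) T')
    (hρ : ¬ (N : ℤ) ∣ ρ) (f : Fm → M) : ∑ Q ∈ T ∪ T', wZ N B D ρ Q • f Q =
      ∑ Q ∈ T, gch B Q • f Q + J(-1 | B) • ∑ Q ∈ T', gch B Q • f Q := by
  rw [sum_union (disjoint_left.mpr fun Q h1 h2 => (h.fam Q h1).not_neg hρ (h'.fam Q h2)), smul_sum]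
  congr 1 <;> refine sum_congr rfl fun Q hQ => ?_
  · rw [wZ_of_fam hρ (h.fam Q hQ) (h.pos Q hQ)]
  · rw [wZ_of_neg hρ (h'.fam Q hQ) (h'.pos Q hQ), mul_smul]

theorem nuW_froot (hw : ∀ R, w R ≠ 0 → fdisc R = fdisc Q ∧ 0 < R.1) (hD : fdisc Q < 0)
    (hQ : 0 < Q.1) : nuW w (froot Q) = w Q := by
  rw [nuW, finsum_eq_single _ Q fun R hR => ?_, if_pos rfl]
  split_ifs with h
  · exact by_contra fun k => hR (froot_inj hD hQ (hw R k).2 (hw R k).1 h)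
  · rfl

theorem exists_of_nuW (h : nuW w z ≠ 0) : ∃ R, w R ≠ 0 ∧ froot R = z := by
  by_contra k
  push Not at k
  refine h (finsum_eq_zero_of_forall_eq_zero fun R => ?_)
  split_ifs with l
  · exact by_contra fun j => k R j l
  · rfl

theorem Wt.nuW_inv (hw : Wt N w e) (he : e < 0) (hp : ∀ R, w R ≠ 0 → 0 < R.1) :
    Inv0 N (nuW w) := by
  have key : ∀ g, G0 N g → ∀ z : ℂ, 0 < z.im → nuW w (act g z) ≠ 0 →
      nuW w (act g z) = nuW w z := fun g hg z hz h => by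
    obtain ⟨R, h1, h2⟩ := exists_of_nuW h
    have h3 := feq_fm hg R
    have h4 := hw.disc R h1
    have h5 := h3.pos (h4 ▸ he) (hp R h1)
    have h6 : z = froot (fm R g) := by
      rw [← act_adj hg.1 hz, ← h2, ← act_froot hg.1 (h4 ▸ he) (hp R h1),
        act_adj hg.1 (im_froot_pos (h3.disc ▸ h4 ▸ he) h5)]
    rw [← h2, h6, nuW_froot (fun P k => ⟨(hw.disc P k).trans h4.symm, hp P k⟩) (h4 ▸ he) (hp R h1),
      nuW_froot (fun P k => ⟨(hw.disc P k).trans (h3.disc.trans h4).symm, hp P k⟩)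
        (h3.disc ▸ h4 ▸ he) h5, hw.inv _ _ h3]
  intro g hg z hz
  by_cases h : nuW w (act g z) = 0
  · rw [h, eq_comm]
    by_contra k
    have := key _ (g0_adj hg) _ (act_pos (by rw [hg.1]; exact one_pos) hz)
    rw [act_adj hg.1 hz] at this
    exact k ((this k).trans h)
  · exact key g hg z hz h

/-- Special points of other fields than those of the third and fourth roots of unity are free. -/
theorem free_of_cm {n : ℕ} {M : ℤ} {g : MZ} (hn : Squarefree n) (h3 : 3 < n) (hM : M ≠ 0)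
    (hg : g.det = 1) (hD : fdisc Q = -(n * M ^ 2)) (e : fm Q g = Q) : g = 1 ∨ g = -1 := by
  have h := det_eq hg
  obtain ⟨h1, h2, -, h4⟩ := aut_eqs h e
  have h5 : (0 : ℤ) < n * M ^ 2 := by positivity
  have h0 : Q.1 ≠ 0 := fun k => by
    rw [fdisc, k] at hD
    nlinarith [sq_nonneg Q.2.1]
  have key : ∀ {k x y : ℤ}, y ≠ 0 → k * y ^ 2 = x ^ 2 → ∃ s, k = s * s := fun {k x y} hy h => by
    obtain ⟨s, rfl⟩ := (Int.pow_dvd_pow_iff two_ne_zero).1 ⟨k, h.symm.trans (mul_comm _ _)⟩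
    exact ⟨s, mul_right_cancel₀ (pow_ne_zero 2 hy) (by linear_combination h)⟩
  have sq : ∀ s k : ℤ, n = s * s * k → n = k := fun s k h => by
    rcases Int.isUnit_iff.1 (Int.squarefree_natCast.2 hn s ⟨k, h⟩) with rfl | rfl <;> omega
  have hc : g 1 0 = 0 := by
    by_contra hc
    have h6 : (g 0 0 + g 1 1) ^ 2 < 4 := by
      have : 0 < g 1 0 ^ 2 := by positivity
      have : 0 < Q.1 ^ 2 := by positivity
      nlinarith
    rw [hD] at h4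
    generalize g 0 0 + g 1 1 = t at h4 h6
    have h7 : t = 0 ∨ t ^ 2 = 1 := by
      have : -2 < t ∧ t < 2 := by constructor <;> nlinarith
      have : t = 0 ∨ t = 1 ∨ t = -1 := by omega
      rcases this with rfl | rfl | rfl <;> simp
    rcases h7 with rfl | h7
    · obtain ⟨s, hs⟩ := key (k := n) (x := 2 * Q.1) (mul_ne_zero hM hc) (by linear_combination h4)
      have := sq s 1 (by rw [hs, mul_one])
      omega
    · obtain ⟨s, hs⟩ := key (k := 3 * n) (x := 3 * Q.1) (mul_ne_zero hM hc)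
        (by linear_combination 3 * h4 - 3 * Q.1 ^ 2 * h7)
      obtain ⟨s, rfl⟩ : 3 ∣ s := (Int.prime_three.dvd_or_dvd ⟨n, hs.symm⟩).elim id id
      have := sq s 3 (by linarith)
      omega
  rw [hc] at h h1 h2
  have hb : g 0 1 = 0 := by simpa [h0] using h2
  rw [Matrix.eta_fin_two g, hb, hc]
  rcases Int.eq_one_or_neg_one_of_mul_eq_one' (show g 0 0 * g 1 1 = 1 by simpa using h) with k | k
  · exact .inl (by rw [k.1, k.2, Matrix.one_fin_two])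
  · exact .inr (by rw [k.1, k.2, Matrix.one_fin_two]; simp)

theorem CM.free {n : ℕ} {g : MZ} (h : CM n z) (hn : Squarefree n) (h3 : 3 < n) (hg : g.det = 1)
    (e : act g z = z) : g = 1 ∨ g = -1 := by
  obtain ⟨R, M, h0, h1, h2, rfl⟩ := h
  have h4 : fdisc R < 0 := by rw [h2, neg_lt_zero]; positivity
  exact free_of_cm hn h3 (Nat.cast_ne_zero.2 h0) hg h2
    (feq_of_root (N := 1) ⟨hg, one_dvd _⟩ h4 h1 h1 rfl e.symm).1.symm

theorem Good.not_dvd {n : ℕ} (hn : Good N n) (hρ : 4 * (N : ℤ) ∣ ρ ^ 2 + n) {p : ℕ} (hp : 1 < p)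
    (h : p ∣ N) : ¬ (p : ℤ) ∣ ρ := fun k => by
  have h1 : (p : ℤ) ∣ n := (dvd_add_right (dvd_pow k two_ne_zero)).1
    (((Int.natCast_dvd_natCast.2 h).mul_left 4).trans hρ)
  exact hp.ne' (Nat.eq_one_of_dvd_coprimes hn.cop (Int.natCast_dvd_natCast.1 h1) h)

end Pool.Agent.G5
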