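import Pool.Agent.Lib.MP_696deb_nt.B5.ZFb

/-! Neighbours of a binary quadratic form at a prime: counting lemmas. -/

set_option autoImplicit false

open Finset NumberTheorySymbols
open scoped Classical

namespace Pool.Agent.G5.Hw

open Pool.Agent.Lib.MP_696deb_nt

variable {l p : ℕ} {a b c e t : ℤ} {Q R : Fm}

theorem lin {K : Type} [Field K] [Fintype K] [DecidableEq K] {a : K} (ha : a ≠ 0) (b : K) :
    ∑ k : K, (if b - a * k = 0 then (1 : ℤ) else 0) = 1 := by
  rw [sum_eq_single (b / a), if_pos (by field_simp; ring)]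
  · exact fun k _ hk => if_neg fun h => hk (by field_simp; linear_combination -h)
  · simp

theorem bij {K : Type} [Field K] [Fintype K] {a : K} (ha : a ≠ 0) (b : K) :
    Function.Bijective fun k : K => a * k - b :=
  Finite.injective_iff_bijective.1 fun _ _ e => mul_left_cancel₀ ha (sub_left_injective e)

theorem quad {K : Type} [Field K] [Fintype K] [DecidableEq K] (h2 : ringChar K ≠ 2)
    {a b c : K} (h : ¬ (a = 0 ∧ b = 0 ∧ c = 0)) :
    (if a = 0 then (1 : ℤ) else 0) + ∑ k : K, (if a * k ^ 2 - b * k + c = 0 then (1 : ℤ) else 0) =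
      1 + quadraticChar K (b ^ 2 - 4 * a * c) := by
  by_cases ha : a = 0
  · subst ha
    rw [if_pos rfl, mul_zero, zero_mul, sub_zero]
    congr 1
    by_cases hb : b = 0
    · subst hb
      have hc : c ≠ 0 := fun hc => h ⟨rfl, rfl, hc⟩
      simp [hc]
    · rw [quadraticChar_sq_one' hb]
      refine Eq.trans (sum_congr rfl fun k _ => ?_) (lin hb c)
      exact if_congr (by rw [zero_mul, zero_sub, neg_add_eq_sub]) rfl rfl
  · have t2 : (2 : K) ≠ 0 := Ring.two_ne_zero h2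
    have t4 : (4 : K) ≠ 0 := by
      rw [show (4 : K) = 2 * 2 by norm_num]
      exact mul_ne_zero t2 t2
    rw [if_neg ha, zero_add, add_comm, ← quadraticChar_card_sqrts h2, Set.toFinset_ofPred,
      card_filter]
    push_cast
    refine Fintype.sum_bijective _ (bij (mul_ne_zero t2 ha) b) _ _ fun k => ?_
    refine if_congr ⟨fun e => ?_, fun e => ?_⟩ rfl rfl
    · linear_combination 4 * a * e
    · exact mul_left_cancel₀ (mul_ne_zero t4 ha) (by linear_combination e)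

theorem sum_sq_sub {K : Type} [Field K] [Fintype K] [DecidableEq K] (h2 : ringChar K ≠ 2)
    {D : K} (hD : D ≠ 0) : ∑ u : K, quadraticChar K (u ^ 2 - D) = -1 := by
  have h0 : ∑ s : K, quadraticChar K (s - D) = 0 := by
    rw [← quadraticChar_sum_zero h2]
    exact Fintype.sum_bijective _ (bij one_ne_zero D) _ _ fun k => by rw [one_mul]
  have h1 : ∑ s : K, quadraticChar K s * quadraticChar K (s - D) = -1 := by
    have hJ := jacobiSum_nontrivial_inv (quadraticChar_ne_one h2)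
    rw [(quadraticChar_isQuadratic K).inv, jacobiSum] at hJ
    have h3 : quadraticChar K (-1) * quadraticChar K (-1) = 1 := by rw [← map_mul]; simp
    have h4 : quadraticChar K D * quadraticChar K D = 1 := by
      rw [← sq]; exact quadraticChar_sq_one hD
    rw [← Fintype.sum_bijective _ (bij hD 0)
      (fun x => quadraticChar K (-1) * (quadraticChar K x * quadraticChar K (1 - x))) _ fun x => ?_,
      ← mul_sum, hJ, mul_neg, h3]
    rw [show D * x - 0 - D = D * (-1 * (1 - x)) by ring, sub_zero, map_mul, map_mul, map_mul]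
    linear_combination
      -(quadraticChar K (-1) * quadraticChar K x * quadraticChar K (1 - x)) * h4
  rw [← sum_fiberwise univ (fun u : K => u ^ 2), ← h1, ← add_zero (∑ s : K, _ * _), ← h0,
    ← sum_add_distrib]
  refine sum_congr rfl fun s _ => ?_
  rw [sum_congr rfl fun u hu => by rw [(mem_filter.1 hu).2], sum_const, ← add_one_mul,
    ← quadraticChar_card_sqrts h2, Set.toFinset_ofPred, nsmul_eq_mul]

theorem sum_quad {K : Type} [Field K] [Fintype K] [DecidableEq K] (h2 : ringChar K ≠ 2)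
    {a b c : K} (h : b ^ 2 - 4 * a * c ≠ 0) :
    quadraticChar K a + ∑ k : K, quadraticChar K (a * k ^ 2 - b * k + c) = 0 := by
  by_cases ha : a = 0
  · subst ha
    have hb : b ≠ 0 := fun k => h (by simp [k])
    rw [MulChar.map_zero, zero_add, ← quadraticChar_sum_zero h2]
    exact Fintype.sum_bijective _ (bij (neg_ne_zero.2 hb) (-c)) _ _ fun k => by congr 1; ring
  · have t2 : (2 : K) ≠ 0 := Ring.two_ne_zero h2
    have h1 := sum_sq_sub h2 h
    rw [← Fintype.sum_bijective _ (bij (mul_ne_zero t2 ha) b)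
      (fun k => quadraticChar K a * quadraticChar K (a * k ^ 2 - b * k + c)) _ fun k => ?_,
      ← mul_sum] at h1
    · have h4 : quadraticChar K a * quadraticChar K a = 1 := by
        rw [← sq]; exact quadraticChar_sq_one ha
      linear_combination quadraticChar K a * h1 -
        (∑ k : K, quadraticChar K (a * k ^ 2 - b * k + c)) * h4
    · rw [show (2 * a * k - b) ^ 2 - (b ^ 2 - 4 * a * c) =
        2 ^ 2 * (a * (a * k ^ 2 - b * k + c)) by ring, map_mul, map_mul, quadraticChar_sq_one' t2,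
        one_mul]

theorem sum_fin [NeZero l] (f : ZMod l → ℤ) : ∑ k : Fin l, f (k : ℕ) = ∑ j, f j := by
  rw [Fin.sum_univ_eq_sum_range (fun k => f (k : ℕ))]
  exact sum_nbij' (fun j : ℕ => (j : ZMod l)) (fun j : ZMod l => j.val) (by simp)
    (by simp [ZMod.val_lt]) (fun j hj => ZMod.val_cast_of_lt (by simpa using hj)) (by simp)
    (by simp)

/-- A multiple of a form. -/
def sc (t : ℤ) (R : Fm) : Fm := (t * R.1, t * R.2.1, t * R.2.2)

/-- The form is not divisible by `l`. -/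
def Pr (l : ℕ) (R : Fm) : Prop := ¬ ((l : ℤ) ∣ R.1 ∧ (l : ℤ) ∣ R.2.1 ∧ (l : ℤ) ∣ R.2.2)

/-- The values of a form at the points of the projective line. -/
def vl (l : ℕ) : Option (Fin l) → Fm → ℤ
  | none, R => R.1
  | some k, R => R.1 * (k : ℕ) ^ 2 - R.2.1 * (k : ℕ) + R.2.2

/-- The Kronecker symbol at a prime. -/
def kr (e : ℤ) (l : ℕ) : ℤ :=
  if l = 2 then (if e % 2 = 0 then 0 else if e % 8 = 1 then 1 else -1) else J(e | l)

theorem kr_zero (hl : l.Prime) (h : (l : ℤ) ∣ e) : kr e l = 0 := by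
  unfold kr
  split_ifs with h1 h2 h3
  · rfl
  · subst h1; omega
  · subst h1; omega
  · exact jac_zero_of_dvd hl h

theorem kr_sq (hl : l.Prime) (h : ¬ (l : ℤ) ∣ t) : kr (e * t ^ 2) l = kr e l := by
  unfold kr
  by_cases h1 : l = 2
  · subst h1
    obtain ⟨k, rfl⟩ : ∃ k, t = 2 * k + 1 := ⟨t / 2, by omega⟩
    obtain ⟨j, hj⟩ := Int.even_mul_succ_self k
    have : e * (2 * k + 1) ^ 2 = e + 8 * (e * j) := by linear_combination 4 * e * hj
    rw [if_pos rfl, if_pos rfl, this]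
    refine if_congr (by omega) rfl (if_congr (by omega) rfl rfl)
  · rw [if_neg h1, if_neg h1, jacobiSym.mul_left, jacobiSym.pow_left, jac_sq hl h, mul_one]

theorem kr_one (l : ℕ) : kr 1 l = 1 := by
  unfold kr
  split_ifs <;> simp_all

theorem kr_neg {n : ℕ} (hl : l.Prime) (hn : n % 4 = 3) : kr (-(n : ℤ)) l = J((l : ℤ) | n) := by
  unfold kr
  by_cases h1 : l = 2
  · subst h1
    have ho : Odd n := by rw [Nat.odd_iff]; omega
    rw [if_pos rfl, Nat.cast_ofNat, jacobiSym.at_two ho, ZMod.χ₈_nat_eq_if_mod_eight]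
    split_ifs <;> omega
  · rw [if_neg h1, jac_neg_swap hn (hl.odd_of_ne_two h1)]

theorem cnt (hl : l.Prime) (h : Pr l R) :
    ∑ i, (if (l : ℤ) ∣ vl l i R then (1 : ℤ) else 0) = 1 + kr (fdisc R) l := by
  obtain ⟨a, b, c⟩ := R
  have : Fact l.Prime := ⟨hl⟩
  rw [Fintype.sum_option]
  simp only [vl, fdisc, Pr] at h ⊢
  by_cases h2 : l = 2
  · subst h2
    rw [Fin.sum_univ_two, kr, if_pos rfl]
    simp only [Fin.val_zero, Fin.val_one, Nat.cast_zero, Nat.cast_one, Nat.cast_ofNat] at h ⊢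
    rcases Int.even_or_odd' b with ⟨k, rfl | rfl⟩
    · rw [if_pos (show ((2 * k) ^ 2 - 4 * a * c) % 2 = 0 by
        rw [show (2 * k) ^ 2 - 4 * a * c = 2 * (2 * k ^ 2 - 2 * a * c) by ring]; omega)]
      split_ifs <;> omega
    · obtain ⟨j, hj⟩ := Int.even_mul_succ_self k
      have h3 : (2 * k + 1) ^ 2 - 4 * a * c = 1 + 8 * j - 4 * (a * c) := by
        linear_combination 4 * hj
      rw [h3, if_neg (show ¬ (1 + 8 * j - 4 * (a * c)) % 2 = 0 by omega)]
      have h4 : (a * c) % 2 = 0 ↔ a % 2 = 0 ∨ c % 2 = 0 := by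
        simp only [← Int.dvd_iff_emod_eq_zero]
        exact Int.prime_two.dvd_mul
      split_ifs <;> omega
  · have h1 := quad (K := ZMod l) (by rwa [ZMod.ringChar_zmod_n]) (a := a) (b := b) (c := c)
      (by simpa only [ZMod.intCast_zmod_eq_zero_iff_dvd] using h)
    rw [← sum_fin] at h1
    rw [kr, if_neg h2, ← jacobiSym.legendreSym.to_jacobiSym, legendreSym]
    push_cast
    rw [← h1]
    congr 1
    · exact if_congr (ZMod.intCast_zmod_eq_zero_iff_dvd _ _).symm rfl rfl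
    · refine sum_congr rfl fun k _ => if_congr ?_ rfl rfl
      rw [← ZMod.intCast_zmod_eq_zero_iff_dvd]
      push_cast
      rfl

theorem sum_jac (hl : l.Prime) (h2 : l ≠ 2) (h : ¬ (l : ℤ) ∣ fdisc R) :
    ∑ i, J(vl l i R | l) = 0 := by
  obtain ⟨a, b, c⟩ := R
  have : Fact l.Prime := ⟨hl⟩
  have h1 := sum_quad (K := ZMod l) (by rwa [ZMod.ringChar_zmod_n]) (a := a) (b := b) (c := c)
    (by rw [← ZMod.intCast_zmod_eq_zero_iff_dvd] at h; simpa [fdisc] using h)
  rw [← sum_fin] at h1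
  rw [Fintype.sum_option, ← h1]
  simp only [vl, ← jacobiSym.legendreSym.to_jacobiSym, legendreSym]
  push_cast
  rfl

theorem vl_val (i : Option (Fin l)) (R : Fm) : ∃ x y, vl l i R = fval R x y := by
  rcases i with _ | k
  · exact ⟨1, 0, by simp [vl, fval]⟩
  · exact ⟨-(k : ℕ), 1, by simp only [vl, fval]; ring⟩

theorem gl_sc (hp : p.Prime) (t : ℤ) (R : Fm) : gl p (sc t R) = J(t | p) * gl p R := by
  by_cases h : (p : ℤ) ∣ t
  · rw [jac_zero_of_dvd hp h, zero_mul, gl, if_pos (show (p : ℤ) ∣ (sc t R).1 from h.mul_right _)]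
    exact jac_zero_of_dvd hp (h.mul_right _)
  · simp only [gl, sc, (Nat.prime_iff_prime_int.1 hp).dvd_mul, h, false_or, jacobiSym.mul_left,
      mul_ite]

theorem exists_sc (h : ¬ Pr l R) : ∃ Q, R = sc l Q := by
  obtain ⟨a, b, c⟩ := R
  obtain ⟨⟨a, rfl⟩, ⟨b, rfl⟩, c, rfl⟩ := not_not.1 h
  exact ⟨(a, b, c), rfl⟩

theorem not_pr (t : ℤ) (R : Fm) : ¬ Pr l (sc (l * t) R) := fun h =>
  h ⟨⟨_, mul_assoc _ _ _⟩, ⟨_, mul_assoc _ _ _⟩, _, mul_assoc _ _ _⟩

theorem sc_sc (s t : ℤ) (R : Fm) : sc s (sc t R) = sc (s * t) R := by simp [sc, mul_assoc]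

theorem sc_inj (h : t ≠ 0) : Function.Injective (sc t) := fun Q R k => by
  simpa [sc, Prod.ext_iff, h] using k

theorem disc_sc (t : ℤ) (R : Fm) : fdisc (sc t R) = fdisc R * t ^ 2 := by
  simp only [fdisc, sc]; ring

theorem sum_jac' (hl : l.Prime) (h2 : l ≠ 2) (h : (l : ℤ) ∣ fdisc R) :
    ∑ i, J(vl l i R | l) = l * gl l R := by
  have h1 : ∀ i, J(vl l i R | l) = gl l R - (if (l : ℤ) ∣ vl l i R then 1 else 0) * gl l R := by
    intro i
    split_ifs with k
    · rw [jac_zero_of_dvd hl k, one_mul, sub_self]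
    · obtain ⟨x, y, e⟩ := vl_val i R
      rw [zero_mul, sub_zero, gl_fval hl h2 h (e ▸ k), e]
  rw [sum_congr rfl fun i _ => h1 i, sum_sub_distrib, ← sum_mul, sum_const]
  by_cases k : Pr l R
  · rw [cnt hl k, kr_zero hl h]
    simp
    ring
  · obtain ⟨Q, rfl⟩ := exists_sc k
    rw [gl_sc hl, jac_zero_of_dvd hl dvd_rfl]
    simp

theorem key (hl : l.Prime) (h4 : l = 2 → ∃ β, 4 ∣ β ^ 2 - e) (hd : b ^ 2 - 4 * a * c = e * l ^ 2)
    (h : Pr l (a, b, c)) (ha : (l : ℤ) ∣ a) : (l : ℤ) ^ 2 ∣ a ∧ (l : ℤ) ∣ b := by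
  have hP := Nat.prime_iff_prime_int.mp hl
  obtain ⟨a, rfl⟩ := ha
  obtain ⟨b, rfl⟩ : (l : ℤ) ∣ b := hP.dvd_of_dvd_pow (n := 2)
    ⟨e * l + 4 * a * c, by linear_combination hd⟩
  have hc : ¬ (l : ℤ) ∣ c := fun k => h ⟨dvd_mul_right _ _, dvd_mul_right _ _, k⟩
  refine ⟨?_, dvd_mul_right _ _⟩
  rw [sq, mul_dvd_mul_iff_left hP.ne_zero]
  have h1 : l * (b ^ 2 - e) = 4 * (a * c) :=
    mul_left_cancel₀ hP.ne_zero (by linear_combination hd)
  refine (hP.dvd_or_dvd ?_).resolve_right hc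
  by_cases h2 : l = 2
  · obtain ⟨β, k, hk⟩ := h4 h2
    subst h2
    push_cast at h1 ⊢
    have h3 : ∀ x : ℤ, x ^ 2 % 4 = 0 ∨ x ^ 2 % 4 = 1 := fun x => by
      rcases Int.even_or_odd' x with ⟨y, rfl | rfl⟩
      · rw [show (2 * y) ^ 2 = 4 * y ^ 2 by ring]; omega
      · rw [show (2 * y + 1) ^ 2 = 4 * (y ^ 2 + y) + 1 by ring]; omega
    have := h3 b
    have := h3 β
    omega
  · have n2 : ¬ (l : ℤ) ∣ 2 := not_dvd_of_prime_ne hl Nat.prime_two h2
    exact (hP.dvd_or_dvd ⟨_, h1.symm⟩).resolve_left fun k => n2 (hP.dvd_of_dvd_pow (n := 2) k)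

theorem ram (hl : l.Prime) (h2 : l ≠ 2) (hd : b ^ 2 - 4 * (l * a) * c = l * e)
    (he : ¬ (l : ℤ) ∣ e) : ¬ (l : ℤ) ∣ a ∧ ¬ (l : ℤ) ∣ c ∧ J(a | l) = J(-e | l) * J(c | l) ∧
      J(c | l) = J(-e | l) * J(a | l) := by
  have hP := Nat.prime_iff_prime_int.mp hl
  obtain ⟨b, rfl⟩ : (l : ℤ) ∣ b := hP.dvd_of_dvd_pow (n := 2)
    ⟨e + 4 * a * c, by linear_combination hd⟩
  have h1 : e = l * b ^ 2 - 2 ^ 2 * (a * c) :=
    mul_left_cancel₀ hP.ne_zero (by linear_combination -hd)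
  have ha : ¬ (l : ℤ) ∣ a := fun k => he (h1 ▸ (dvd_mul_right _ _).sub ((k.mul_right _).mul_left _))
  have hc : ¬ (l : ℤ) ∣ c := fun k => he (h1 ▸ (dvd_mul_right _ _).sub ((k.mul_left _).mul_left _))
  have h3 : J(-e | l) = J(a | l) * J(c | l) := by
    rw [jac_congr (v := 2 ^ 2 * (a * c)) ⟨-b ^ 2, by rw [h1]; ring⟩, jacobiSym.mul_left,
      jacobiSym.pow_left, jac_sq hl (k := 2) (not_dvd_of_prime_ne hl Nat.prime_two h2), one_mul,
      jacobiSym.mul_left]
  have h4 := jac_sq hl ha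
  have h5 := jac_sq hl hc
  exact ⟨ha, hc, by rw [h3]; linear_combination -J(a | l) * h5,
    by rw [h3]; linear_combination -J(c | l) * h4⟩

end Pool.Agent.G5.Hw
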