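import Pool.Agent.Lib.MP_696deb_nt.B5.Z2

/-! Raising the level by an auxiliary prime. -/

set_option autoImplicit false

open Finset NumberTheorySymbols
open scoped Classical

namespace Pool.Agent.G5

open Pool.Agent.Lib.MP_696deb_nt Pool.Agent.B4.GE Pool.Agent.Shared.Weier

/-- The parametrization of the raised level and its companion. -/
def LRStmt : Prop := ∀ (W : WeierstrassCurve ℚ) (N r : ℕ) (D : MD W N), Squarefree N → Nw D →
  r.Prime → ¬ r ∣ N → ∃ P : Par W (N * r), P.L = D.L ∧ P.a = D.c ∧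
    (∀ z, P.F z = D.par.F z + D.par.F (r * z)) ∧ IsOfFinAddOrder (P.per.unif P.t0) ∧
    Cp P (fun z => D.par.F z - D.par.F (r * z)) r

/-- Special points and twisted series at the raised level. -/
def LQStmt : Prop := (∀ (N r A B : ℕ) (ρ ρ₁ : ℤ) (T T₁ : Finset Fm), Good (N * r) (A * B) →
    r.Prime → 1 < A → 1 < B → 4 * ((N * r : ℕ) : ℤ) ∣ ρ₁ ^ 2 + (A * B : ℕ) →
    2 * (N : ℤ) ∣ ρ₁ - ρ → FReps N (-(A * B : ℕ)) ρ T → FReps (N * r) (-(A * B : ℕ)) ρ₁ T₁ →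
    ∀ (V : Type) [AddCommGroup V] (S : ℂ → V), Inv0 N S →
      ∑ Q ∈ T₁, gch B Q • S (froot Q) = ∑ Q ∈ T, gch B Q • S (froot Q) ∧
      ∑ Q ∈ T₁, gch B Q • S (r * froot Q) = J((r : ℤ) | B) • ∑ Q ∈ T, gch B Q • S (froot Q)) ∧
  ∀ (N r B : ℕ) (G : ℂ → ℂ), N ≠ 0 → r ≠ 0 → Squarefree B → Odd B → r.Coprime B → Ci N G → ∀ s,
    LA (fun z => G (r * z)) B s = J((r : ℤ) | B) * (r : ℂ) ^ (1 - s) * LA G B s

end Pool.Agent.G5
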