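import Pool.Agent.Lib.MP_696deb_nt.B5.ZGb
import Pool.Agent.Lib.MP_696deb_nt.B5.Z4

/-! The formula of Gross and Zagier at the level of a newform. -/

set_option autoImplicit false

open Finset Complex NumberTheorySymbols
open scoped Classical

namespace Pool.Agent.G5

open Pool.Agent.Lib.MP_696deb_nt Pool.Agent.B4.GE Pool.Agent.Shared.Weier

variable {W : WeierstrassCurve ℚ} {N p r A B : ℕ} {ρ : ℤ}

theorem exists_crt {a b : ℤ} (h : IsCoprime a b) (x y : ℤ) : ∃ z, a ∣ z - x ∧ b ∣ z - y := by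
  obtain ⟨u, v, e⟩ := h
  exact ⟨y * u * a + x * v * b, ⟨(y - x) * u, by linear_combination x * e⟩,
    ⟨(x - y) * v, by linear_combination y * e⟩⟩

theorem exists_cx (h : Good N (A * B)) (hp : p.Prime) (hd : p ∣ N) (hne : N ≠ p) (hA : 1 < A)
    (hB : 1 < B) (hJ : J(-N | B) = -1) (hρ : 4 * (N : ℤ) ∣ ρ ^ 2 + (A * B : ℕ)) :
    ∃ ρ' β, Cx N p A B ρ ρ' β := by
  have c1 : p.Coprime (2 * (N / p)) := ((Nat.coprime_two_right.2 (h.lodd.of_dvd_nat hd)).mul_right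
    (Nat.coprime_of_squarefree_mul ((Nat.mul_div_cancel' hd).symm ▸ h.lsq)))
  obtain ⟨ρ', h1, h2⟩ := exists_crt (Nat.isCoprime_iff_coprime.2 c1) (-ρ) ρ
  obtain ⟨u, v, e⟩ := Nat.isCoprime_iff_coprime.2
    ((Nat.coprime_two_right.2 (Nat.odd_mul.1 h.odd).2).mul_right h.cop.coprime_mul_left)
  exact ⟨ρ', -(u * (ρ * ρ')), h, hp, hd, hne, hA, hB, hJ, hρ, by simpa using h1,
    by simpa using h2, v * (ρ * ρ'), by
      push_cast at e
      linear_combination -(ρ * ρ') * e⟩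

/-- There are inert primes at which the eigenvalue does not vanish. -/
def Inert (a : ℕ → ℤ) : Prop := ∀ n M : ℕ, Squarefree n → n % 4 = 3 → M ≠ 0 →
  ∃ l : ℕ, l.Prime ∧ ¬ l ∣ M ∧ J((l : ℤ) | n) = -1 ∧ a l ≠ 0

/-- The conclusion for pairs that satisfy the condition `c`. -/
def GZB (P : Par W N) (c : ℕ → ℕ → Prop) (B₀ : ℕ) : Prop := ∀ (A B : ℕ) (ρ : ℤ) (T : Finset Fm),
  c A B → Good N (A * B) → 1 < A → 1 < B → B₀ < A * B → J(-N | B) = -1 →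
  4 * (N : ℤ) ∣ ρ ^ 2 + (A * B : ℕ) → FReps N (-(A * B : ℕ)) ρ T →
  ¬ IsOfFinAddOrder (∑ Q ∈ T, gch B Q • P.φ (froot Q)) →
  LA P.F A 1 ≠ 0 ∧ LA P.F B 1 = 0 ∧ deriv (LA P.F B) 1 ≠ 0

/-- The same with some lower bound. -/
def GZAt (P : Par W N) (c : ℕ → ℕ → Prop) : Prop := ∃ B₀ : ℕ, GZB P c B₀

theorem LA_zero (B : ℕ) : LA 0 B = fun _ => 0 := funext fun s => by
  simp [LA, Ld, mellin]

variable [W.IsElliptic] {D : MD W N}

/-- Composite level. -/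
theorem gz_comp (gz : GZStmt) (pr : PRStmt)
    (hW : ∃ W' : WeierstrassCurve ℤ, W = W'.map (Int.castRingHom ℚ)) (h : Nw D)
    (hN : Squarefree N) (hp : p.Prime) (hd : p ∣ N) (hne : N ≠ p) (hi : Inert D.c) :
    GZAt D.par fun _ _ => True := by
  obtain ⟨h0, cp⟩ := pr W N D hN h
  obtain ⟨B₀, g⟩ := gz W N D.par hW h0
  refine ⟨B₀, fun A B ρ T _ h1 hA hB h2 hJ hρ hT hy => ?_⟩
  obtain ⟨ρ', β, c⟩ := exists_cx h1 hp hd hne hA hB hJ hρ
  obtain ⟨T', hT'⟩ := exists_freps h1.N0 h1.neg (-ρ)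
  exact g p A B ρ ρ' β T T' 0 c h2 hT hT' (cp p hp hd) (by rw [LA_zero]) (by rw [LA_zero])
    (by simp [LA_zero]) (by simp [zs, zsmul_zero]) (fun M => hi _ M h1.sqf h1.mod4) hy

omit [W.IsElliptic] in
theorem gz_up (lq : LQStmt) (la : LAStmt) {P : Par W (N * r)} {B₀ : ℕ} (g : GZc P B₀)
    (e1 : P.L = D.L) (e2 : P.a = D.c) (e3 : ∀ z, P.F z = D.par.F z + D.par.F (r * z))
    (cp : Cp P (fun z => D.par.F z - D.par.F (r * z)) r)
    (hN : Squarefree N) (hi : Inert D.c) (hr : r.Prime) (r4 : r % 4 = 1) (rN : ¬ r ∣ N) :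
    GZB D.par (fun A B => J((r : ℤ) | A) = 1 ∧ J((r : ℤ) | B) = 1) B₀ := by
  rintro A B ρ T ⟨jA, jB⟩ h1 hA hB h2 hJ hρ hT hy
  have ro : Odd r := Nat.odd_iff.2 (by omega)
  have c0 : ∀ {X : ℕ}, 1 < X → J((r : ℤ) | X) = 1 → r.Coprime X := fun hX k => by_contra fun e =>
    zero_ne_one ((jacobiSym.eq_zero_iff.2 ⟨by omega, by rwa [Int.gcd_natCast_natCast]⟩).symm.trans k)
  have cN := (Nat.Prime.coprime_iff_not_dvd hr).2 rN
  have h3 : Good (N * r) (A * B) := ⟨h1.sqf, h1.mod4,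
    h1.cop.mul_right ((c0 hA jA).mul_right (c0 hB jB)).symm,
    (Nat.squarefree_mul cN.symm).2 ⟨hN, hr.squarefree⟩, h1.lodd.mul ro,
    one_lt_mul'' h1.l1 hr.one_lt⟩
  have := Fact.mk hr
  obtain ⟨x, hx⟩ : IsSquare ((-(A * B : ℕ) : ℤ) : ZMod r) := ZMod.isSquare_of_jacobiSym_eq_one (by
    rw [jac_neg_swap h1.mod4 ro, jacobiSym.mul_right' _ (by omega) (by omega), jA, jB, mul_one])
  obtain ⟨ρ₁, k1, k2⟩ := exists_crt (a := 4 * N) (b := r) (by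
    exact_mod_cast Nat.isCoprime_iff_coprime.2 (((Nat.coprime_two_left.2 ro).pow_left 2).mul_left
      cN.symm)) ρ x.val
  have k3 : 4 * ((N * r : ℕ) : ℤ) ∣ ρ₁ ^ 2 + (A * B : ℕ) := by
    rw [Nat.cast_mul N, ← mul_assoc]
    refine IsCoprime.mul_dvd (by
      exact_mod_cast Nat.isCoprime_iff_coprime.2 (((Nat.coprime_two_left.2 ro).pow_left 2).mul_left
        cN.symm)) (by convert dvd_add (k1.mul_right (ρ₁ + ρ)) hρ using 1; ring) ?_
    rw [← ZMod.intCast_zmod_eq_zero_iff_dvd] at k2 ⊢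
    push_cast [ZMod.natCast_zmod_val] at k2 hx ⊢
    linear_combination (ρ₁ + x) * k2 - hx
  have k4 : 2 * (N : ℤ) ∣ ρ₁ - ρ := Dvd.dvd.trans ⟨2, by ring⟩ k1
  obtain ⟨ρ', β, c⟩ := exists_cx h3 hr (dvd_mul_left r N)
    (fun e => h1.l1.ne' (by simpa [hr.ne_zero] using e)) hA hB (by
      rw [Nat.cast_mul, ← neg_mul, jacobiSym.mul_left, hJ, jB, mul_one]) k3
  obtain ⟨T', hT'⟩ := exists_freps h1.N0 h1.neg (-ρ)
  obtain ⟨S, hS⟩ := exists_freps h3.N0 h1.neg ρ₁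
  obtain ⟨S', hS'⟩ := exists_freps h3.N0 h1.neg (-ρ₁)
  obtain ⟨q1, q2⟩ := lq.1 N r A B ρ ρ₁ T S h3 hr hA hB k3 k4 hT hS _ _ D.par.inv0
  obtain ⟨q3, q4⟩ := lq.1 N r A B (-ρ) (-ρ₁) T' S' h3 hr hA hB (by rwa [neg_sq])
    (by rwa [neg_sub_neg, ← dvd_neg, neg_sub]) hT' hS' _ _ D.par.inv0
  have u : P.per.unif = D.par.per.unif := by
    have : ∀ (L : PeriodPair) (k : IsPer L (W.baseChange ℂ)), L = D.L → k.unif = D.per.unif := by
      rintro _ _ rfl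
      rfl
    exact this _ _ e1
  have l : ∀ X : ℕ, 1 < X → X ∣ A * B → J((r : ℤ) | X) = 1 →
      LA P.F X = (fun s => (1 + (r : ℂ) ^ (1 - s)) * LA D.par.F X s) ∧
      LA (fun z => D.par.F z - D.par.F (r * z)) X =
        fun s => (1 - (r : ℂ) ^ (1 - s)) * LA D.par.F X s := fun X hX d j => by
    have l1 := (la _ X h3.N0 (by omega)).2.1
    have l2 := l1 D.par.F _ _ (1 / 2) (1 / 2) 0 (par_ci P) cp.ci fun z _ => by rw [e3]; ring
    have l3 := l1 (fun z => D.par.F (r * z)) _ _ (1 / 2) (-1 / 2) 0 (par_ci P) cp.ci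
      fun z _ => by rw [e3]; ring
    have l4 := lq.2 N r X _ h1.N0 hr.ne_zero (h1.sqf.squarefree_of_dvd d) (h1.odd.of_dvd_nat d)
      (c0 hX j) (par_ci D.par)
    simp only [j, Int.cast_one, one_mul] at l4
    constructor <;> funext s
    · linear_combination -l2 s - l3 s + l4 s
    · linear_combination -l2 s + l3 s - l4 s
  obtain ⟨l1, l2⟩ := l A hA (dvd_mul_right _ _) jA
  obtain ⟨l3, l4⟩ := l B hB (dvd_mul_left _ _) jB
  obtain ⟨a1, -, a2⟩ := la N B h1.N0 (by omega)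
  have a3 := a2 _ _ h1.sqf.of_mul_right (Nat.odd_mul.1 h1.odd).2 h1.cop.coprime_mul_left hJ
    (par_ci D.par) D.par.al
  have d1 := (a1 _ (par_ci D.par) 1).hasDerivAt
  have d2 := ((hasDerivAt_id' (1 : ℂ)).const_sub 1).const_cpow (c := (r : ℂ))
    (.inl (by exact_mod_cast hr.ne_zero))
  obtain ⟨g1, -, g2⟩ := g r A B ρ₁ ρ' β S S' _ c h2 hS hS' cp (by simp [l2]) (by simp [l4])
    (by rw [l4, ((d2.const_sub 1).fun_mul d1).deriv]; simp [a3]) (by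
      rw [zs, sum_wZ hS hS' (h3.not_dvd k3 h3.l1 dvd_rfl)]
      simp only [u, map_sub, zsmul_sub, sum_sub_distrib]
      simp only [Par.φ, jB, one_smul] at q1 q2 q3 q4
      rw [q1, q2, q3, q4]
      simp) (fun M => e2 ▸ hi _ M h1.sqf h1.mod4) fun k => hy (by
      simp only [Par.φ, jB, one_smul] at q1 q2
      simp only [Par.φ, u, e3, map_add, zsmul_add, sum_add_distrib, q1, q2, ← two_nsmul] at k
      exact k.of_nsmul two_ne_zero)
  refine ⟨fun k => g1 (by simp [l1, k]), a3, fun k => g2 ?_⟩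
  rw [l3, ((d2.const_add 1).fun_mul d1).deriv]
  simp [a3, k]

/-- Every level, with an auxiliary prime. -/
theorem gz_raise (gz : GZStmt) (lr : LRStmt) (lq : LQStmt) (la : LAStmt)
    (hW : ∃ W' : WeierstrassCurve ℤ, W = W'.map (Int.castRingHom ℚ)) (h : Nw D)
    (hN : Squarefree N) (hi : Inert D.c) (hr : r.Prime) (r4 : r % 4 = 1) (rN : ¬ r ∣ N) :
    GZAt D.par fun A B => J((r : ℤ) | A) = 1 ∧ J((r : ℤ) | B) = 1 := by
  obtain ⟨P, e1, e2, e3, h0, cp⟩ := lr W N r D hN h hr rN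
  exact (gz W _ P hW h0).imp fun _ g => gz_up lq la g e1 e2 e3 cp hN hi hr r4 rN

omit [W.IsElliptic] in
/-- Every level, when the lower bound does not depend on the level. -/
theorem gz_free (lr : LRStmt) (lq : LQStmt) (la : LAStmt) {B₀ : ℕ}
    (gz : ∀ (M : ℕ) (P : Par W M), IsOfFinAddOrder (P.per.unif P.t0) → GZc P B₀) (h : Nw D)
    (hN : Squarefree N) (hi : Inert D.c) : GZB D.par (fun _ _ => True) B₀ := by
  intro A B ρ T _ h1
  obtain ⟨r, k, hr, e⟩ := Nat.forall_exists_prime_gt_and_modEq N (q := 4 * (A * B)) (a := 1)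
    (mul_ne_zero four_ne_zero h1.sqf.ne_zero) (Nat.coprime_one_left _)
  have rN : ¬ r ∣ N := fun d => (Nat.le_of_dvd h1.N0.bot_lt d).not_gt k
  have j : ∀ X, X ∣ A * B → J((r : ℤ) | X) = 1 := fun X d => by
    rw [jacobiSym.mod_left' (Int.natCast_modEq_iff.2 (e.of_dvd (d.mul_left 4))), Nat.cast_one,
      jacobiSym.one_left]
  obtain ⟨P, e1, e2, e3, h0, cp⟩ := lr W N r D hN h hr rN
  exact gz_up lq la (gz _ P h0) e1 e2 e3 cp hN hi hr (e.of_mul_right _) rN A B ρ T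
    ⟨j A (dvd_mul_right _ _), j B (dvd_mul_left _ _)⟩ h1

end Pool.Agent.G5
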