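import Pool.Agent.Lib.MP_696deb_nt.B5.Z1
import Pool.Agent.Lib.MP_696deb_nt.Twist

/-! Mellin transforms of derivatives of integrals of cusp forms. -/

set_option autoImplicit false

open Filter Topology Complex MeasureTheory Asymptotics Set
open scoped Real

namespace Pool.Agent.G5

open Pool.Agent.Lib.MP_696deb_nt Pool.Agent.B4.GE

variable {N : ℕ} {G : ℂ → ℂ} {g : MZ} {z : ℂ}

/-- The value at the cusp at infinity. -/
noncomputable def cI (G : ℂ → ℂ) : ℂ := limUnder atI G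

/-- The normalized derivative. -/
noncomputable def dF (G : ℂ → ℂ) (z : ℂ) : ℂ := deriv G z / (2 * π * I)

theorem atI_neBot : atI.NeBot := (tendsto_vert 0).neBot

theorem tpi_ne : (2 * π * I : ℂ) ≠ 0 := by simp

theorem Ld_eq (G : ℂ → ℂ) (a c : ℤ) (s : ℂ) : Ld G a c s =
    (2 * π) ^ s * (Gamma s)⁻¹ * mellin (fun y : ℝ => dF G (a / c + y * I)) s := rfl

open PowerSeries in
theorem qe_isBigO {A : ℂ⟦X⟧} (h : QE G A) (h0 : coeff 0 A = 0) :
    G =O[atI] fun z => Real.exp (-(2 * π) * z.im) := by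
  obtain ⟨B, rfl⟩ := X_dvd_iff.2 (by simpa using h0 : constantCoeff A = 0)
  have h1 := IsBigO.mul (QE.of_X_pow_mul (m := 1) (B := B) (by simpa using h)).bdd
    (isBigO_refl q1 atI).norm_right
  refine h1.congr (fun z => ?_) fun z => ?_
  · have := q1_ne z
    field_simp
  · simp [norm_q1]

theorem hol_deriv (h : Hol G) : Hol (deriv G) := fun z hz => by
  have hU : IsOpen {z : ℂ | 0 < z.im} := isOpen_lt continuous_const continuous_im
  exact (DifferentiableOn.deriv (fun w hw => (h w hw).differentiableWithinAt) hU).differentiableAt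
    (hU.mem_nhds hz)

theorem hol_dF (h : Hol G) : Hol (dF G) := fun z hz => (hol_deriv h z hz).div_const _

theorem hasDerivAt_dF (h : Hol G) (hz : 0 < z.im) : HasDerivAt G (2 * π * I * dF G z) z := by
  rw [dF, mul_div_cancel₀ _ tpi_ne]
  exact (h z hz).hasDerivAt

theorem hasDerivAt_dF_act (h : Hol G) (hg : 0 < g.det) (hz : 0 < z.im) :
    HasDerivAt (fun z => G (act g z)) (2 * π * I * (g.det * dF G (act g z) / den g z ^ 2)) z := by
  have := (hasDerivAt_dF h (act_pos hg hz)).comp z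
    (hasDerivAt_mob (a := g 0 0) (b := g 0 1) (c := g 1 0) (d := g 1 1)
      (by rw [← Matrix.det_fin_two]; exact hg.ne') hz)
  rw [← Matrix.det_fin_two] at this
  convert! this using 1
  rw [den]
  ring

theorem im_vert (a c : ℤ) (y : ℝ) : ((a : ℂ) / c + y * I).im = y := by rw [← cast_div]; simp

theorem hasDerivAt_vert (h : Hol G) (a c : ℤ) {y : ℝ} (hy : 0 < y) :
    HasDerivAt (fun y : ℝ => G (a / c + y * I)) (-(2 * π) * dF G (a / c + y * I)) y := by
  have h3 := ((hasDerivAt_dF h (z := a / c + y * I) (by rwa [im_vert])).comp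
    (y : ℂ) (((hasDerivAt_id (y : ℂ)).mul_const I).const_add (a / c : ℂ))).comp_ofReal
  refine h3.congr_deriv ?_
  linear_combination (2 * π * dF G (a / c + y * I)) * I_sq

open PowerSeries in
/-- Exponential decay at every cusp. -/
theorem Ci.cusp_isBigO (hG : Ci N G) (hN : N ≠ 0) (hg : g.det = 1) : ∃ c : ℂ,
    ((fun z => G (act g z) - c) =O[atI] fun z => Real.exp (-(2 * π / N) * z.im)) ∧
    (fun z => dF G (act g z) / den g z ^ 2) =O[atI] fun z => Real.exp (-(2 * π / N) * z.im) := by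
  have n0 : (0 : ℝ) < N := by exact_mod_cast Nat.pos_of_ne_zero hN
  have n1 : (N : ℂ) ≠ 0 := by exact_mod_cast hN
  obtain ⟨A, hA⟩ := hG.cusp g hg
  have key : ∀ H : ℂ → ℂ, ((fun z => H (N * z)) =O[atI] fun z => Real.exp (-(2 * π) * z.im)) →
      H =O[atI] fun z => Real.exp (-(2 * π / N) * z.im) := fun H h =>
    (h.comp_tendsto (tendsto_affine (inv_pos.2 n0) 0)).congr (fun z => by simp [n1]) fun z => by
      simp only [Function.comp, add_zero, im_ofReal_mul]
      congr 1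
      ring
  refine ⟨coeff 0 A, key _ (qe_isBigO (hA.sub (QE.const _)) (by simp)), key _ ?_⟩
  obtain ⟨F₁, h1, h2⟩ := hA.hasDerivAt
  refine ((qe_isBigO h1 (by simp)).const_mul_left (N : ℂ)⁻¹).congr' (ev_pos.mono fun z hz => ?_)
    EventuallyEq.rfl
  have h3 := (hasDerivAt_dF_act hG.hol (g := g) (by omega) (z := N * z)
    (by simpa using mul_pos n0 hz)).comp z ((hasDerivAt_id z).const_mul (N : ℂ))
  have h4 := (h2 z hz).unique h3
  rw [hg, mul_assoc (2 * π * I : ℂ)] at h4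
  beta_reduce
  rw [mul_left_cancel₀ tpi_ne h4]
  push_cast
  field_simp

theorem exp_tendsto (hN : N ≠ 0) :
    Tendsto (fun z : ℂ => Real.exp (-(2 * π / N) * z.im)) atI (𝓝 0) := by
  have n0 : (0 : ℝ) < N := by exact_mod_cast Nat.pos_of_ne_zero hN
  exact Real.tendsto_exp_atBot.comp (tendsto_comap.const_mul_atTop_of_neg (by
    rw [neg_lt_zero]; positivity))

theorem Ci.exists_lim (hG : Ci N G) (hN : N ≠ 0) (hg : g.det = 1) :
    ∃ c, Tendsto (fun z => G (act g z)) atI (𝓝 c) := by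
  obtain ⟨c, h, -⟩ := hG.cusp_isBigO hN hg
  exact ⟨c, tendsto_sub_nhds_zero_iff.1 (h.trans_tendsto (exp_tendsto hN))⟩

theorem Ci.tendsto (hG : Ci N G) (hN : N ≠ 0) : Tendsto G atI (𝓝 (cI G)) := by
  obtain ⟨c, h⟩ := hG.exists_lim hN Matrix.det_one
  simp only [act_one] at h
  exact tendsto_nhds_limUnder ⟨c, h⟩

theorem Ci.sub_isBigO (hG : Ci N G) (hN : N ≠ 0) :
    (fun z => G z - cI G) =O[atI] fun z => Real.exp (-(2 * π / N) * z.im) := by
  obtain ⟨c, h, -⟩ := hG.cusp_isBigO hN Matrix.det_one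
  simp only [act_one] at h
  have := atI_neBot
  rwa [tendsto_nhds_unique (hG.tendsto hN)
    (tendsto_sub_nhds_zero_iff.1 (h.trans_tendsto (exp_tendsto hN)))]

theorem Ci.dF_isBigO (hG : Ci N G) (hN : N ≠ 0) :
    dF G =O[atI] fun z => Real.exp (-(2 * π / N) * z.im) := by
  obtain ⟨c, -, h⟩ := hG.cusp_isBigO hN Matrix.det_one
  simpa only [act_one, den_one, one_pow, div_one] using h

theorem tendsto_vert' (a c : ℤ) : Tendsto (fun y : ℝ => (a : ℂ) / c + y * I) atTop atI :=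
  cast_div a c ▸ tendsto_vert _

theorem Ci.dF_top (hG : Ci N G) (hN : N ≠ 0) (a c : ℤ) :
    (fun y : ℝ => dF G (a / c + y * I)) =O[atTop] fun y => Real.exp (-(2 * π / N) * y) :=
  ((hG.dF_isBigO hN).comp_tendsto (tendsto_vert' a c)).congr_right fun y => by
    rw [Function.comp_apply, im_vert]

theorem Ci.sub_top (hG : Ci N G) (hN : N ≠ 0) (a c : ℤ) :
    (fun y : ℝ => G (a / c + y * I) - cI G) =O[atTop] fun y => Real.exp (-(2 * π / N) * y) :=
  ((hG.sub_isBigO hN).comp_tendsto (tendsto_vert' a c)).congr_right fun y => by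
    rw [Function.comp_apply, im_vert]

theorem Ci.dF_zero (hG : Ci N G) (hN : N ≠ 0) (a : ℤ) {c : ℤ} (hc : c ≠ 0) (e : ℝ) :
    (fun y : ℝ => dF G (a / c + y * I)) =O[𝓝[>] 0] fun y => y ^ e := by
  have n0 : (0 : ℝ) < N := by exact_mod_cast Nat.pos_of_ne_zero hN
  obtain ⟨g, a, b, c, d, hg, rfl, rfl, hd⟩ := exists_SL (a := a) (Or.inr hc)
  have hg' : (g : ℂ) ≠ 0 := by exact_mod_cast hg.ne'
  replace hc := left_ne_zero_of_mul hc
  have hc' : (0 : ℝ) < (c : ℝ) ^ 2 := by positivity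
  obtain ⟨-, -, H⟩ := hG.cusp_isBigO hN (g := !![a, b; c, d]) (by simpa using hd)
  have h1 := H.comp_tendsto (tendsto_pth hc d)
  have h2 := (isLittleO_exp_neg_mul_rpow_atTop (a := 2 * π / (N * c ^ 2)) (by positivity)
    (-(e + 2))).isBigO.comp_tendsto tendsto_inv_nhdsGT_zero
  have h3 : (fun y => dF G (mob a b c d (pth c d y)) / (c * pth c d y + d) ^ 2) =O[𝓝[>] 0]
      fun y : ℝ => y ^ (e + 2) := by
    refine (h1.congr (fun y => rfl) fun y => ?_).trans (h2.congr' EventuallyEq.rfl ?_)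
    · simp only [Function.comp, im_pth]
      congr 1
      field_simp
    · filter_upwards [self_mem_nhdsWithin] with y hy
      simp only [Function.comp]
      rw [Real.inv_rpow (le_of_lt hy), Real.rpow_neg (le_of_lt hy), inv_inv]
  have h4 := (h3.mul (isBigO_refl (fun y : ℝ => ((y : ℂ) ^ 2)⁻¹) _).norm_right).const_mul_left
    (-1 / c ^ 2)
  refine h4.congr' ?_ ?_
  · filter_upwards [self_mem_nhdsWithin] with y hy
    have hy' : y ≠ 0 := ne_of_gt hy
    have l1 : (c : ℂ) ≠ 0 := by exact_mod_cast hc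
    have l2 : (y : ℂ) ≠ 0 := by exact_mod_cast hy'
    rw [den_pth hc d hy', mob_pth hd hc hy', div_pow, I_sq]
    push_cast
    rw [mul_div_mul_right _ _ hg']
    field_simp
  · filter_upwards [self_mem_nhdsWithin] with y hy
    have hy' : (0 : ℝ) < y := hy
    rw [Real.rpow_add hy', norm_inv, norm_pow, Complex.norm_real, Real.norm_of_nonneg hy'.le,
      Real.rpow_two]
    field_simp

theorem dF_contOn (h : Hol G) (a c : ℤ) :
    ContinuousOn (fun y : ℝ => dF G (a / c + y * I)) (Ioi 0) := fun y hy =>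
  (ContinuousAt.comp (f := fun y : ℝ => (a / c + y * I : ℂ))
    (hol_dF h _ (by rwa [im_vert])).continuousAt (by fun_prop)).continuousWithinAt

theorem Ci.mellinConvergent (hG : Ci N G) (hN : N ≠ 0) (a : ℤ) {c : ℤ} (hc : c ≠ 0) (s : ℂ) :
    MellinConvergent (fun y : ℝ => dF G (a / c + y * I)) s :=
  mellinConvergent_of_isBigO_rpow_exp (a := 2 * π / N) (b := s.re - 1) (by positivity)
    ((dF_contOn hG.hol a c).locallyIntegrableOn measurableSet_Ioi) (hG.dF_top hN a c)
    (hG.dF_zero hN a hc _) (by linarith)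

theorem Ci.mellin_differentiable (hG : Ci N G) (hN : N ≠ 0) (a : ℤ) {c : ℤ} (hc : c ≠ 0) :
    Differentiable ℂ (mellin fun y : ℝ => dF G (a / c + y * I)) := fun s =>
  mellin_differentiableAt_of_isBigO_rpow_exp (a := 2 * π / N) (b := s.re - 1) (by positivity)
    ((dF_contOn hG.hol a c).locallyIntegrableOn measurableSet_Ioi) (hG.dF_top hN a c)
    (hG.dF_zero hN a hc _) (by linarith)

theorem Ci.Ld_differentiable (hG : Ci N G) (hN : N ≠ 0) (a : ℤ) {c : ℤ} (hc : c ≠ 0) :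
    Differentiable ℂ (Ld G a c) :=
  ((differentiable_id.const_cpow (Or.inl (by simp))).mul differentiable_one_div_Gamma).mul
    (hG.mellin_differentiable hN a hc)

theorem Ld_one (G : ℂ → ℂ) (a c : ℤ) :
    Ld G a c 1 = 2 * π * ∫ y in Ioi (0 : ℝ), dF G (a / c + y * I) := by
  simp [Ld_eq, mellin]

theorem Ld_scale (G : ℂ → ℂ) {k : ℤ} (hk : k ≠ 0) (a c : ℤ) : Ld G (a * k) (c * k) = Ld G a c := by
  have h : (k : ℂ) ≠ 0 := by exact_mod_cast hk
  funext s
  simp [Ld, mul_div_mul_right _ _ h]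

theorem Ci.Ld_one_eq (hG : Ci N G) (hN : N ≠ 0) (a : ℤ) {c : ℤ} (hc : c ≠ 0) {L : ℂ}
    (hL : Tendsto (fun y : ℝ => G (a / c + y * I)) (𝓝[>] 0) (𝓝 L)) :
    cI G + Ld G a c 1 = L := by
  have h1 : IntegrableOn (fun y : ℝ => dF G (a / c + y * I)) (Ioi 0) := by
    simpa [MellinConvergent] using hG.mellinConvergent hN a hc 1
  have h2 := integral_Ioi_of_hasDerivAt_of_tendsto
    (f := Function.update (fun y : ℝ => G (a / c + y * I)) 0 L) (a := 0) (m := cI G)
    (f' := fun y : ℝ => -(2 * π) * dF G (a / c + y * I)) ?_ (fun y hy => ?_) (h1.const_mul _) ?_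
  · rw [integral_const_mul, Function.update_self] at h2
    rw [Ld_one]
    linear_combination -h2
  · rw [← continuousWithinAt_Ioi_iff_Ici, continuousWithinAt_update_same]
    exact hL.mono_left (nhdsWithin_mono _ sdiff_subset)
  · refine (hasDerivAt_vert hG.hol a c hy).congr_of_eventuallyEq ?_
    filter_upwards [eventually_ne_nhds (ne_of_gt hy)] with w hw
    simp [Function.update_of_ne hw]
  · refine ((hG.tendsto hN).comp (tendsto_vert' a c)).congr' ?_
    filter_upwards [eventually_ne_atTop 0] with y hy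
    simp [Function.update_of_ne hy]

theorem Ci.tendsto_mob (hG : Ci N G) (hN : N ≠ 0) {a b c d : ℤ} (hd : a * d - b * c = 1)
    (hc : c ≠ 0) : Tendsto (fun z => G (mob a b c d z)) atI (𝓝 (cI G + Ld G a c 1)) ∧
      Tendsto (fun y : ℝ => G (a / c + y * I)) (𝓝[>] 0) (𝓝 (cI G + Ld G a c 1)) := by
  obtain ⟨L, hL⟩ := hG.exists_lim hN (g := !![a, b; c, d]) (by simpa using hd)
  have h1 : Tendsto (fun y : ℝ => G (a / c + y * I)) (𝓝[>] 0) (𝓝 L) := by
    refine (hL.comp (tendsto_pth hc d)).congr' ?_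
    filter_upwards [self_mem_nhdsWithin] with y hy
    simp only [Function.comp, act_of, mob_pth hd hc (ne_of_gt hy)]
  rw [hG.Ld_one_eq hN a hc h1]
  exact ⟨hL, h1⟩

/-- The value at the cusp `a / c`, along the vertical line. -/
theorem Ci.tendsto_zero (hG : Ci N G) (hN : N ≠ 0) (a : ℤ) {c : ℤ} (hc : c ≠ 0) :
    Tendsto (fun y : ℝ => G (a / c + y * I)) (𝓝[>] 0) (𝓝 (cI G + Ld G a c 1)) := by
  obtain ⟨g, a, b, c, d, hg, rfl, rfl, hd⟩ := exists_SL (a := a) (Or.inr hc)
  have hg' : (g : ℂ) ≠ 0 := by exact_mod_cast hg.ne'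
  rw [Ld_scale G hg.ne']
  simpa [mul_div_mul_right _ _ hg'] using (hG.tendsto_mob hN hd (left_ne_zero_of_mul hc)).2

/-- The value at the cusp `g ∞`. -/
theorem Ci.tendsto_act (hG : Ci N G) (hN : N ≠ 0) (hg : 0 < g.det) (hc : g 1 0 ≠ 0) :
    Tendsto (fun z => G (act g z)) atI (𝓝 (cI G + Ld G (g 0 0) (g 1 0) 1)) := by
  rw [Matrix.det_fin_two] at hg
  simp only [act]
  generalize g 0 0 = a, g 0 1 = b, g 1 0 = c, g 1 1 = d at *
  obtain ⟨k, a, b', c, d', hk, rfl, rfl, hd⟩ := exists_SL (a := a) (Or.inr hc)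
  rw [Ld_scale G hk.ne']
  have h2 : 0 < k * (a * d - b * c) := by linarith
  refine ((hG.tendsto_mob hN hd (left_ne_zero_of_mul hc)).1.comp
    (tendsto_mob_upper h2 (d' * b - b' * d))).congr' (ev_pos.mono fun z hz => ?_)
  simp only [Function.comp]
  rw [mob_mob (by simpa using h2.ne') _ _ _ _ hz]
  congr 2
  · ring
  · linear_combination b * hd
  · ring
  · linear_combination d * hd

theorem Ci.tendsto_upper (hG : Ci N G) (hN : N ≠ 0) (hg : 0 < g.det) (hc : g 1 0 = 0) :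
    Tendsto (fun z => G (act g z)) atI (𝓝 (cI G)) := by
  rw [Matrix.det_fin_two, hc, mul_zero, sub_zero] at hg
  simpa only [act, hc, Function.comp_def] using
    (hG.tendsto hN).comp (tendsto_mob_upper hg (g 0 1))

theorem Ci.LA_differentiable (hG : Ci N G) (hN : N ≠ 0) {B : ℕ} (hB : B ≠ 0) :
    Differentiable ℂ (LA G B) :=
  Differentiable.fun_sum fun k _ => (hG.Ld_differentiable hN k (by exact_mod_cast hB)).const_mul _

theorem dF_congr {F : ℂ → ℂ} {c : ℂ} (h : ∀ z : ℂ, 0 < z.im → G z = F z + c) (hz : 0 < z.im) :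
    dF G z = dF F z := by
  have h1 : G =ᶠ[𝓝 z] fun w => F w + c := by
    filter_upwards [(isOpen_lt continuous_const continuous_im).mem_nhds hz] with w hw using h w hw
  rw [dF, h1.deriv_eq, deriv_add_const, dF]

theorem Ld_congr {F : ℂ → ℂ} {c : ℂ} (h : ∀ z : ℂ, 0 < z.im → G z = F z + c) (a b : ℤ) :
    Ld G a b = Ld F a b := by
  funext s
  rw [Ld_eq, Ld_eq, mellin, mellin, setIntegral_congr_fun measurableSet_Ioi fun y hy => by
    rw [dF_congr h (by rwa [im_vert])]]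

theorem Ld_lin {F F₂ : ℂ → ℂ} {κ κ₂ c : ℂ} (hN : N ≠ 0) (hF : Ci N F) (hF₂ : Ci N F₂)
    (h : ∀ z : ℂ, 0 < z.im → G z = κ * F z + κ₂ * F₂ z + c) (a : ℤ) {b : ℤ} (hb : b ≠ 0) (s : ℂ) :
    Ld G a b s = κ * Ld F a b s + κ₂ * Ld F₂ a b s := by
  have h1 : ∀ z : ℂ, 0 < z.im → dF G z = κ * dF F z + κ₂ * dF F₂ z := fun z hz => by
    rw [dF_congr h hz, dF, (((hasDerivAt_dF hF.hol hz).const_mul κ).fun_add
      ((hasDerivAt_dF hF₂.hol hz).const_mul κ₂)).deriv, div_eq_iff tpi_ne]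
    ring
  have h2 := (hasMellin_add ((hF.mellinConvergent hN a hb s).const_smul κ)
    ((hF₂.mellinConvergent hN a hb s).const_smul κ₂)).2
  rw [mellin_const_smul, mellin_const_smul] at h2
  simp only [smul_eq_mul] at h2
  rw [Ld_eq, Ld_eq, Ld_eq, mellin, setIntegral_congr_fun measurableSet_Ioi fun y hy => by
    rw [h1 _ (by rwa [im_vert])], ← mellin, h2]
  ring

end Pool.Agent.G5
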