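import Pool.Agent.Lib.MP_696deb_nt.B5.Z4
import Pool.Agent.Lib.MP_696deb_nt.B5.ZFb
import Pool.Agent.Lib.MP_696deb_nt.B5.LAa

/-! Special points and twisted series at the raised level. -/

set_option autoImplicit false

open Finset NumberTheorySymbols Complex
open scoped Classical Real

namespace Pool.Agent.G5

open Pool.Agent.Lib.MP_696deb_nt Pool.Agent.B4.GE

variable {N r B : ℕ} {D ρ ρ₁ : ℤ} {Q R : Fm} {T T₁ : Finset Fm}

theorem lq_feq (h : FEq (N * r) Q R) : FEq N Q R := by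
  obtain ⟨a, b, c, d, h, rfl⟩ := h
  refine ⟨a, b, r * c, d, ?_, ?_⟩
  · rw [← h]; push_cast; ring
  · congr 1; push_cast; ring

theorem lq_fam (h : Fam (N * r) D ρ₁ Q) (e : 2 * (N : ℤ) ∣ ρ₁ - ρ) : Fam N D ρ Q := by
  obtain ⟨h1, h2, h3⟩ := h
  push_cast at h1 h3
  refine ⟨(dvd_mul_right _ _).trans h1, h2, ?_⟩
  have := ((mul_assoc (2 : ℤ) N r ▸ dvd_mul_right _ _ : 2 * (N : ℤ) ∣ 2 * (N * r)).trans h3).add e
  rwa [sub_add_sub_cancel] at this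

theorem lq_inj (hr : Prime (r : ℤ)) (h2 : ¬ (r : ℤ) ∣ 2 * N) (hρ : ¬ (r : ℤ) ∣ ρ₁)
    (hQ : Fam (N * r) D ρ₁ Q) (hR : Fam (N * r) D ρ₁ R) (h : FEq N Q R) : FEq (N * r) Q R := by
  obtain ⟨a, b, c, d, h, rfl⟩ := h
  obtain ⟨x, y, z⟩ := Q
  obtain ⟨⟨k1, q1⟩, -, ⟨k2, q2⟩⟩ := hQ
  obtain ⟨⟨k3, q3⟩, -, ⟨k4, q4⟩⟩ := hR
  simp only [fmap, fval] at q1 q2 q3 q4
  push_cast at q1 q2 q3 q4
  have key : (r : ℤ) ∣ 2 * N * (c * ρ₁) := by
    refine ⟨2 * N * (d * (k3 - k1 * a ^ 2) - N * c * (k4 - k2 - k1 * a * b) - N * c * k2 * 2), ?_⟩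
    linear_combination (2 * d) * q3 - (2 * d * a ^ 2 - 2 * N * c * a * b) * q1 - N * c * q4 -
      N * c * q2 - N * c * y * h
  obtain ⟨c', rfl⟩ := (hr.dvd_or_dvd ((hr.dvd_or_dvd key).resolve_left h2)).resolve_right hρ
  refine ⟨a, b, c', d, ?_, ?_⟩
  · rw [← h]; push_cast; ring
  · congr 1; push_cast; ring

theorem lq_surj (hr : Prime (r : ℤ)) (h2 : ¬ (r : ℤ) ∣ 2 * N) (hρ : ¬ (r : ℤ) ∣ ρ₁)
    (hD : (r : ℤ) ∣ ρ₁ ^ 2 - D) (e : 2 * (N : ℤ) ∣ ρ₁ - ρ) (hQ : Fam N D ρ Q) :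
    ∃ R, FEq N Q R ∧ Fam (N * r) D ρ₁ R := by
  have cop : IsCoprime (2 * (N : ℤ)) r := ((Prime.coprime_iff_not_dvd hr).2 h2).symm
  have two : ¬ (r : ℤ) ∣ 2 := fun h => h2 (h.mul_right _)
  have step : ∀ Q : Fm, Fam N D ρ Q → ¬ (r : ℤ) ∣ Q.2.2 → ∃ R, FEq N Q R ∧ Fam (N * r) D ρ₁ R := by
    rintro ⟨x, y, z⟩ hQ hz
    obtain ⟨u, v, huv⟩ := cop.mul_left ((Prime.coprime_iff_not_dvd hr).2 hz).symm
    have f : FEq N (x, y, z) _ := ⟨1, 0, u * (ρ₁ - y), 1, by ring, rfl⟩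
    have g := f.fam hQ
    refine ⟨_, f, ?_⟩
    generalize hR : fmap (x, y, z) 1 0 (N * (u * (ρ₁ - y))) 1 = R at g
    have e2 : (r : ℤ) ∣ R.2.1 - ρ₁ := by
      refine ⟨-v * (ρ₁ - y), ?_⟩
      simp only [← hR, fmap]
      linear_combination (ρ₁ - y) * huv
    have e3 : R.2.2 = z := by simp [← hR, fmap, fval]
    have e1 : (r : ℤ) ∣ R.1 := by
      have k : (r : ℤ) ∣ 2 * (2 * (R.1 * z)) := by
        have k1 := (e2.mul_right (R.2.1 + ρ₁)).add hD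
        rw [← g.2.1, fdisc, e3] at k1
        exact k1.trans (dvd_of_eq (by ring))
      exact (hr.dvd_or_dvd ((hr.dvd_or_dvd ((hr.dvd_or_dvd k).resolve_left two)).resolve_left
        two)).resolve_right hz
    refine ⟨?_, g.2.1, ?_⟩
    · push_cast
      exact cop.of_mul_left_right.mul_dvd g.1 e1
    · push_cast
      rw [← mul_assoc]
      refine cop.mul_dvd ?_ e2
      have := g.2.2.sub e
      rwa [sub_sub_sub_cancel_right] at this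
  by_cases h0 : (r : ℤ) ∣ Q.2.2
  swap
  · exact step Q hQ h0
  obtain ⟨x, y, z⟩ := Q
  have f : ∀ k : ℤ, FEq N (x, y, z) (fmap (x, y, z) 1 k (N * 0) 1) := fun k =>
    ⟨1, k, 0, 1, by ring, rfl⟩
  by_contra hn
  have k : ∀ k : ℤ, (r : ℤ) ∣ x * k ^ 2 + y * k + z := fun k => by
    by_contra h
    obtain ⟨R, h3, h4⟩ := step _ ((f k).fam hQ) (by simpa [fmap, fval] using h)
    exact hn ⟨R, (f k).trans h3, h4⟩
  have hy : (r : ℤ) ∣ y := (hr.dvd_or_dvd (a := 2) (by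
    convert (k 1).sub (k (-1)) using 1
    ring)).resolve_left two
  refine hρ (hr.dvd_of_dvd_pow (n := 2) ?_)
  have k1 := (hD.add (hy.mul_right y)).sub (h0.mul_left (4 * x))
  rw [← hQ.2.1, fdisc] at k1
  convert k1 using 1
  ring

/-- Representatives at the raised level are representatives at the lower level. -/
theorem lq_freps (hr : Prime (r : ℤ)) (h2 : ¬ (r : ℤ) ∣ 2 * N) (hρ : ¬ (r : ℤ) ∣ ρ₁)
    (hD : (r : ℤ) ∣ ρ₁ ^ 2 - D) (h0 : D < 0) (e : 2 * (N : ℤ) ∣ ρ₁ - ρ)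
    (h : FReps (N * r) D ρ₁ T₁) : FReps N D ρ T₁ where
  fam Q hQ := lq_fam (h.fam Q hQ) e
  pos := h.pos
  ex Q hQ hp := by
    obtain ⟨R, h3, h4⟩ := lq_surj hr h2 hρ hD e hQ
    obtain ⟨P, h5, h6⟩ := h.ex R h4 (h3.pos (hQ.2.1 ▸ h0) hp)
    exact ⟨P, h5, (lq_feq h6).trans h3.symm⟩
  uniq Q hQ R hR k := h.uniq Q hQ R hR (lq_inj hr h2 hρ (h.fam Q hQ) (h.fam R hR) k)

theorem lq_fricke (N : ℕ) (z : ℂ) : act !![0, -1; (N : ℤ), 0] z = -1 / (N * z) := by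
  simp [act_of, mob]

theorem lq_fricke_pos (hN : N ≠ 0) {z : ℂ} (hz : 0 < z.im) : 0 < (-1 / (N * z)).im :=
  lq_fricke N z ▸ act_pos (by simpa using Nat.pos_of_ne_zero hN) hz

theorem inv0_fricke {V : Type} {S : ℂ → V} (hN : N ≠ 0) (h : Inv0 N S) :
    Inv0 N fun z => S (-1 / (N * z)) := fun g hg z hz => by
  obtain ⟨a, b, c, d, e, rfl⟩ := g0_ex hg
  have n : (!![0, -1; (N : ℤ), 0] : MZ).det ≠ 0 := by simpa using hN
  have k := h _ (g0_of (a := d) (b := -c) (c := -b) (d := a) (by linear_combination e)) _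
    (lq_fricke_pos hN hz)
  beta_reduce
  rw [← k, ← lq_fricke, ← lq_fricke, ← act_mul _ n hz, ← act_mul _ (hg.1 ▸ one_ne_zero) hz]
  congr 2
  ext i j
  fin_cases i <;> fin_cases j <;> simp [Matrix.mul_apply, Fin.sum_univ_two] <;> ring

theorem lq_sum {V : Type} [AddCommGroup V] {S : ℂ → V} (hB : Odd B) (hd : (B : ℤ) ∣ D) (h0 : D < 0)
    (h : FReps N D ρ T) (h' : FReps N D ρ T₁) (hS : Inv0 N S) :
    ∑ Q ∈ T₁, gch B Q • S (froot Q) = ∑ Q ∈ T, gch B Q • S (froot Q) :=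
  h'.sum_eq h _ fun Q R h1 h2 h3 => by
    rw [h3.gch hB (h1.2.1 ▸ hd), h3.inv0 hS (h1.2.1 ▸ h0) h2]

theorem lq_points (N r A B : ℕ) (ρ ρ₁ : ℤ) (T T₁ : Finset Fm) (hg : Good (N * r) (A * B))
    (hr : r.Prime) (h4 : 4 * ((N * r : ℕ) : ℤ) ∣ ρ₁ ^ 2 + (A * B : ℕ))
    (e : 2 * (N : ℤ) ∣ ρ₁ - ρ) (h : FReps N (-(A * B : ℕ)) ρ T)
    (h₁ : FReps (N * r) (-(A * B : ℕ)) ρ₁ T₁) (V : Type) [AddCommGroup V] (S : ℂ → V)
    (hS : Inv0 N S) :
    ∑ Q ∈ T₁, gch B Q • S (froot Q) = ∑ Q ∈ T, gch B Q • S (froot Q) ∧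
      ∑ Q ∈ T₁, gch B Q • S (r * froot Q) = J((r : ℤ) | B) • ∑ Q ∈ T, gch B Q • S (froot Q) := by
  have n1 : N * r ≠ 0 := hg.lsq.ne_zero
  have n0 : N ≠ 0 := left_ne_zero_of_mul n1
  have pr : Prime (r : ℤ) := Nat.prime_iff_prime_int.1 hr
  have hD : (r : ℤ) ∣ ρ₁ ^ 2 - -(A * B : ℕ) := by
    rw [sub_neg_eq_add]
    exact Dvd.dvd.trans ⟨4 * N, by push_cast; ring⟩ h4
  have hρ : ¬ (r : ℤ) ∣ ρ₁ := hg.not_dvd h4 hr.one_lt (dvd_mul_left _ _)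
  have h2 : ¬ (r : ℤ) ∣ 2 * N := fun k => (pr.dvd_or_dvd k).elim (fun k => by
    have k1 : r ∣ 2 := by exact_mod_cast k
    have k2 := (Nat.odd_mul.1 hg.lodd).2
    rw [(Nat.prime_dvd_prime_iff_eq hr Nat.prime_two).1 k1] at k2
    exact absurd k2 (by decide)) fun k => by
      have k1 : r ∣ N := by exact_mod_cast k
      exact hr.one_lt.ne' (Nat.isUnit_iff.1 (hg.lsq r (mul_dvd_mul_right k1 r)))
  have hB : Squarefree B := hg.sqf.of_mul_right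
  have ho : Odd B := (Nat.odd_mul.1 (Nat.odd_iff.2 (by have := hg.mod4; omega) : Odd (A * B))).2
  have hd : (B : ℤ) ∣ -(A * B : ℕ) := dvd_neg.2 (by push_cast; exact dvd_mul_left _ _)
  have h0 : -((A * B : ℕ) : ℤ) < 0 := by have := hg.mod4; omega
  have c1 : B.Coprime (N * r) := hg.cop.coprime_mul_left
  have c0 : B.Coprime N := c1.coprime_mul_right_right
  refine ⟨lq_sum ho hd h0 h (lq_freps pr h2 hρ hD h0 e h₁) hS, ?_⟩
  have k := lq_sum ho hd h0 (h.fV n0 h0).1 (lq_freps (ρ := -ρ) pr h2 (by rwa [dvd_neg])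
    (by rwa [neg_sq]) h0 (by rwa [neg_sub_neg, dvd_sub_comm]) (h₁.fV n1 h0).1) (inv0_fricke n0 hS)
  rw [(h.fV n0 h0).2, (h₁.fV n1 h0).2] at k
  have n2 : (N : ℂ) ≠ 0 := by exact_mod_cast n0
  have k1 : ∀ Q ∈ T₁, gch B (fV (N * r) Q) • S (-1 / (N * froot (fV (N * r) Q))) =
      (J(N | B) * J(r | B)) • gch B Q • S (r * froot Q) := fun Q hQ => by
    have f := h₁.fam Q hQ
    rw [gch_fV n1 hB ho c1 (f.2.1 ▸ hd) f.1, froot_fV n1 (f.2.1 ▸ h0) (h₁.pos Q hQ) f.1, mul_smul,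
      Nat.cast_mul, jacobiSym.mul_left]
    congr 3
    push_cast
    field_simp
  have k2 : ∀ Q ∈ T, gch B (fV N Q) • S (-1 / (N * froot (fV N Q))) =
      J(N | B) • gch B Q • S (froot Q) := fun Q hQ => by
    have f := h.fam Q hQ
    rw [gch_fV n0 hB ho c0 (f.2.1 ▸ hd) f.1, froot_fV n0 (f.2.1 ▸ h0) (h.pos Q hQ) f.1, mul_smul]
    congr 3
    field_simp
  rw [sum_congr rfl k1, sum_congr rfl k2, ← smul_sum, ← smul_sum] at k
  have j1 : J(N | B) ^ 2 = 1 := jacobiSym.sq_one (by simpa using c0.symm)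
  have j2 : J(r | B) ^ 2 = 1 := jacobiSym.sq_one (by simpa using c1.coprime_mul_left_right.symm)
  have k3 := congrArg (fun x => (J(N | B) * J(r | B)) • x) k
  simp only [smul_smul] at k3
  rwa [show J(N | B) * J(r | B) * (J(N | B) * J(r | B)) = 1 by linear_combination J(r | B) ^ 2 * j1 + j2,
    show J(N | B) * J(r | B) * J(N | B) = J(r | B) by linear_combination J(r | B) * j1,
    one_smul] at k3

variable {G : ℂ → ℂ}

theorem Ld_mul (hr : r ≠ 0) (G : ℂ → ℂ) (a c : ℤ) (s : ℂ) :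
    Ld (fun z => G (r * z)) a c s = (r : ℂ) ^ (1 - s) * Ld G (r * a) c s := by
  have r0 : (0 : ℝ) < r := by positivity
  have r1 : (r : ℂ) ≠ 0 := by exact_mod_cast hr
  have e : (fun y : ℝ => dF (fun z => G (r * z)) (a / c + y * I)) =
      fun y : ℝ => (r : ℂ) • (fun y : ℝ => dF G ((r * a : ℤ) / c + y * I)) (r * y) := by
    funext y
    simp only [dF, deriv_comp_mul_left, smul_eq_mul]
    rw [mul_div_assoc]
    congr 3
    push_cast
    ring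
  rw [Ld_eq, Ld_eq, e, mellin_const_smul, mellin_comp_mul_left (fun y : ℝ => dF G ((r * a : ℤ) / c + y * I)) _ r0, sub_eq_add_neg,
    cpow_add _ _ r1, cpow_one]
  simp only [smul_eq_mul, ofReal_natCast]
  ring

theorem Ci.Ld_add (hG : Ci N G) (a k : ℤ) {c : ℤ} (hc : c ≠ 0) : Ld G (a + c * k) c = Ld G a c := by
  obtain ⟨e, he⟩ := hG.inv _ (g0_of (N := N) (a := 1) (b := k) (c := 0) (d := 1) (by ring))
  have c1 : (c : ℂ) ≠ 0 := by exact_mod_cast hc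
  funext s
  rw [Ld_eq, Ld_eq, ← Ld_eq G a, ← Ld_congr (G := fun z => G (z + k)) (c := e) (fun z hz => by
    simpa [act_of, mob] using he z hz), Ld_eq]
  congr 2
  funext y
  simp only [dF, deriv_comp_add_const]
  congr 2
  push_cast
  field_simp
  ring

theorem lq_series (N r B : ℕ) (G : ℂ → ℂ) (hr : r ≠ 0) (hB : B ≠ 0) (hc : r.Coprime B)
    (hG : Ci N G) (s : ℂ) :
    LA (fun z => G (r * z)) B s = J((r : ℤ) | B) * (r : ℂ) ^ (1 - s) * LA G B s := by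
  have b0 : (B : ℤ) ≠ 0 := by exact_mod_cast hB
  have j2 : J(r | B) ^ 2 = 1 := jacobiSym.sq_one (by simpa using hc)
  have inj : ∀ k ∈ range B, ∀ l ∈ range B, r * k % B = r * l % B → k = l := fun k hk l hl e =>
    Nat.ModEq.eq_of_lt_of_lt (Nat.ModEq.cancel_left_of_coprime hc.symm e) (mem_range.1 hk)
      (mem_range.1 hl)
  have mem : ∀ k ∈ range B, r * k % B ∈ range B := fun k _ => mem_range.2 (Nat.mod_lt _ hB.bot_lt)
  rw [LA, LA, mul_sum]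
  refine sum_bij (fun k _ => r * k % B) mem inj (fun l hl => ?_) fun k _ => ?_
  · obtain ⟨k, hk, e⟩ := surj_on_of_inj_on_of_card_le (fun k _ => r * k % B) mem
      (fun k l hk hl => inj k hk l hl) le_rfl l hl
    exact ⟨k, hk, e.symm⟩
  · have e1 : J(((r * k % B : ℕ) : ℤ) | B) = J(r | B) * J(k | B) := by
      rw [← jacobiSym.mul_left, jacobiSym.mod_left (r * k)]
      push_cast
      rfl
    have e2 : (r * k : ℤ) = (r * k % B : ℕ) + B * (r * k / B : ℕ) := by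
      exact_mod_cast (Nat.mod_add_div _ _).symm
    have j3 : (J(r | B) : ℂ) ^ 2 = 1 := by exact_mod_cast j2
    rw [Ld_mul hr, e2, hG.Ld_add _ _ b0, e1]
    push_cast
    linear_combination (-(J(k | B) * (r : ℂ) ^ (1 - s) * Ld G (r * k % B) B s)) * j3

theorem lq_stmt : LQStmt :=
  ⟨fun N r A B ρ ρ₁ T T₁ hg hr _ _ => lq_points N r A B ρ ρ₁ T T₁ hg hr,
    fun N r B G _ hr hB _ => lq_series N r B G hr hB.ne_zero⟩

end Pool.Agent.G5
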