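import Pool.Agent.Lib.MP_696deb_nt.B5.ZFb
import Pool.Agent.Lib.MP_696deb_nt.Heeg

/-! The genus character sums to zero on each orientation. -/

set_option autoImplicit false

open Finset NumberTheorySymbols
open scoped Classical

namespace Pool.Agent.G5

open Pool.Agent.Lib.MP_696deb_nt Pool.Agent.Lib.MP_696deb_nt.Gal

variable {N A B : ℕ} {ρ : ℤ} {T : Finset Fm} {Q Q' : Fm}

theorem exists_jac_neg (hB : Squarefree B) (h2 : Odd B) (h1 : 1 < B) :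
    ∃ a : ℕ, J((a : ℤ) | B) = -1 := by
  obtain ⟨p, hp, C, rfl⟩ := Nat.exists_prime_and_dvd h1.ne'
  have := Fact.mk hp
  obtain ⟨a, ha⟩ := FiniteField.exists_nonsquare (F := ZMod p) (by
    rw [ZMod.ringChar_zmod_n]
    rintro rfl
    exact (Nat.not_even_iff_odd.2 h2) (even_two_mul C))
  obtain ⟨k, k1, k2⟩ := Nat.chineseRemainder (Nat.coprime_of_squarefree_mul hB) a.val 1
  have c0 : C ≠ 0 := right_ne_zero_of_mul hB.ne_zero
  refine ⟨k, ?_⟩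
  rw [jacobiSym.mul_right' _ hp.ne_zero c0, jacobiSym.mod_left' (Int.natCast_modEq_iff.2 k1),
    jacobiSym.mod_left' (Int.natCast_modEq_iff.2 k2),
    ZMod.nonsquare_iff_jacobiSym_eq_neg_one.2 (by simpa using ha)]
  simp

/-- A split prime in a genus on which the character is nontrivial. -/
theorem exists_prime_jac (hn : Squarefree (A * B)) (h4 : A * B % 4 = 3) (hA : 1 < A) (hB : 1 < B)
    (M : ℕ) : ∃ q > M, q.Prime ∧ J((q : ℤ) | B) = -1 ∧ ∃ s : ℤ, (q : ℤ) ∣ s ^ 2 + (A * B : ℕ) := by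
  have o : Odd (A * B) := by rw [Nat.odd_iff]; omega
  obtain ⟨a, ha⟩ := exists_jac_neg hn.of_mul_left (Nat.odd_mul.1 o).1 hA
  obtain ⟨b, hb⟩ := exists_jac_neg hn.of_mul_right (Nat.odd_mul.1 o).2 hB
  obtain ⟨k, k1, k2⟩ := Nat.chineseRemainder (Nat.coprime_of_squarefree_mul hn) a b
  have h2 : ∀ l : ℕ, l ≡ k [MOD A * B] → J((l : ℤ) | B) = -1 ∧ J((l : ℤ) | A * B) = 1 :=
    fun l hl => by
      have e1 := jacobiSym.mod_left' (Int.natCast_modEq_iff.2 ((hl.of_mul_right B).trans k1))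
      have e2 := jacobiSym.mod_left' (Int.natCast_modEq_iff.2 ((hl.of_mul_left A).trans k2))
      rw [jacobiSym.mul_right' _ (by omega) (by omega), e1, e2, ha, hb]
      simp
  obtain ⟨l, h5, h6, h7⟩ := Nat.forall_exists_prime_gt_and_modEq (M + 2) hn.ne_zero (a := k) (by
    by_contra h
    simpa [(h2 k rfl).2] using (jacobiSym.eq_zero_iff (a := k) (b := A * B)).2 ⟨hn.ne_zero, h⟩)
  have := Fact.mk h6
  obtain ⟨s, hs⟩ := ZMod.isSquare_of_jacobiSym_eq_one ((jac_neg_swap h4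
    (h6.odd_of_ne_two (by omega))).trans (h2 l h7).2)
  obtain ⟨s, rfl⟩ := ZMod.intCast_surjective s
  refine ⟨l, by omega, h6, (h2 l h7).1, s, (ZMod.intCast_zmod_eq_zero_iff_dvd _ _).1 ?_⟩
  push_cast at hs ⊢
  linear_combination -hs

theorem feq_of_sh {l : ℕ} (hl : l.Prime) (h2 : l ≠ 2) (hb : ¬ (l : ℤ) ∣ Q.2.1) (h : (l : ℤ) ∣ Q.1)
    (h' : (l : ℤ) ∣ Q'.1) (hb' : (l : ℤ) ∣ Q'.2.1 - Q.2.1) (e : FEq N (sh l Q) (sh l Q')) :
    FEq N Q Q' := by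
  obtain ⟨x, w, y, z, e, k⟩ := e
  obtain ⟨a, ha⟩ := h
  obtain ⟨a', ha'⟩ := h'
  have l0 : (l : ℤ) ≠ 0 := by exact_mod_cast hl.ne_zero
  simp only [sh, fmap, fval, ha, ha', Int.mul_ediv_cancel_left _ l0, Prod.mk.injEq] at k
  obtain ⟨k1, k2, k3⟩ := k
  obtain ⟨w, rfl⟩ := dvd_of_type (Nat.prime_iff_prime_int.mp hl)
    (not_dvd_of_prime_ne hl Nat.prime_two h2) hb (x := z) (w := N * y) (y := w) (z := x) (c := a)
    (by linear_combination e) (dvd_mul_left _ Q.2.2) ⟨Q'.2.2, by linear_combination -k3⟩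
    (dvd_eq hb' (by linear_combination -k2))
  refine ⟨x, w, l * y, z, by linear_combination e, Prod.ext ?_ (Prod.ext ?_
    (mul_right_cancel₀ l0 ?_))⟩ <;> simp only [fmap, fval, ha, ha']
  · linear_combination l * k1
  · linear_combination k2
  · linear_combination k3

theorem gch_sh {l : ℕ} (hB : Squarefree B) (hl : l.Prime) (hc : ¬ l ∣ B) (h : (l : ℤ) ∣ Q.1) :
    gch B (sh l Q) = J((l : ℤ) | B) * gch B Q := by
  obtain ⟨_, b, c⟩ := Q
  obtain ⟨a, rfl⟩ := h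
  have l0 : (l : ℤ) ≠ 0 := by exact_mod_cast hl.ne_zero
  rw [gch, gch, jac_eq_prod _ hB, ← prod_mul_distrib]
  refine prod_congr rfl fun p hp => ?_
  have h1 := Nat.prime_of_mem_primeFactors hp
  have h2 : ¬ (p : ℤ) ∣ l := not_dvd_of_prime_ne h1 hl fun e =>
    hc (e ▸ Nat.dvd_of_mem_primeFactors hp)
  have h3 := Nat.prime_iff_prime_int.1 h1
  simp only [sh, Int.mul_ediv_cancel_left _ l0, h3.dvd_mul, h2, false_or]
  split_ifs
  · rw [jacobiSym.mul_left, mul_comm]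
  · rw [jacobiSym.mul_left, ← mul_assoc, ← pow_two, jacobiSym.sq_one
      (Int.isCoprime_iff_gcd_eq_one.1 (h3.coprime_iff_not_dvd.2 h2).symm), one_mul]

/-- The genus character sums to zero. -/
theorem FReps.sum_gch (h : FReps N (-(A * B : ℕ)) ρ T) (hn : Good N (A * B)) (hA : 1 < A)
    (hB : 1 < B) : ∑ Q ∈ T, gch B Q = 0 := by
  obtain ⟨l, h0, hl, hJ, s, hs⟩ := exists_prime_jac hn.sqf hn.mod4 hA hB (2 + N + A * B)
  have hP := Nat.prime_iff_prime_int.1 hl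
  have n0 : 0 < A * B := by positivity
  have N0 := hn.l1
  have hD : (-(A * B : ℕ) : ℤ) < 0 := by omega
  have nd : ∀ k : ℕ, 0 < k → k ≤ 2 + N + A * B → ¬ (l : ℤ) ∣ k := fun k h1 h2 h =>
    absurd (Nat.le_of_dvd h1 (Int.natCast_dvd_natCast.mp h)) (by omega)
  have cN : IsCoprime (l : ℤ) N := hP.coprime_iff_not_dvd.2 (nd N (by omega) (by omega))
  have hlr : ¬ (l : ℤ) ∣ s := fun h =>
    nd _ n0 (by omega) ((dvd_add_right (dvd_pow h two_ne_zero)).mp hs)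
  have oB : Odd B := (Nat.odd_mul.1 (show Odd (A * B) by
    have := hn.mod4; rw [Nat.odd_iff]; omega)).2
  have dB : ∀ R : Fm, Fam N (-(A * B : ℕ)) ρ R → (B : ℤ) ∣ fdisc R := fun R hR => by
    rw [hR.2.1, dvd_neg]
    exact_mod_cast dvd_mul_left B A
  have : ∀ Q ∈ T, ∃ R, FEq N Q R ∧ (l : ℤ) ∣ R.1 ∧ (l : ℤ) ∣ R.2.1 - s := fun Q hQ => by
    obtain ⟨a, b, c, d, e, k1, k2⟩ := exists_type (r := s) Q (N := N) hP
      (nd 2 (by omega) (by omega)) (nd N (by omega) (by omega))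
      (by simpa only [(h.fam Q hQ).2.1, sub_neg_eq_add] using hs)
    exact ⟨_, ⟨a, b, c, d, e, rfl⟩, k1, k2⟩
  choose! ψ p1 p2 p3 using this
  have f1 := fun Q hQ => (p1 Q hQ).fam (h.fam Q hQ)
  have s1 : ∀ Q ∈ T, Fam N (-(A * B : ℕ)) ρ (sh l (ψ Q)) ∧ 0 < (sh l (ψ Q)).1 := fun Q hQ => by
    obtain ⟨a, ha⟩ := cN.mul_dvd (p2 Q hQ) (f1 Q hQ).1
    have l0 : (0 : ℤ) < l := by exact_mod_cast hl.pos
    have e : (ψ Q).1 / l = N * a := by rw [ha, mul_assoc, Int.mul_ediv_cancel_left _ l0.ne']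
    refine ⟨⟨⟨a, e⟩, ?_, (f1 Q hQ).2.2⟩, Int.ediv_pos_of_pos_of_dvd
      ((p1 Q hQ).pos ((h.fam Q hQ).2.1 ▸ hD) (h.pos Q hQ)) l0.le (p2 Q hQ)⟩
    rw [← (f1 Q hQ).2.1]
    simp only [fdisc, sh, e]
    rw [ha]
    ring
  choose! φ q1 q2 using fun Q hQ => h.ex _ (s1 Q hQ).1 (s1 Q hQ).2
  have i1 : Set.InjOn φ T := fun Q hQ Q' hQ' e => h.uniq Q hQ Q' hQ' (((p1 Q hQ).trans
    (feq_of_sh hl (by omega) (fun h => hlr (by simpa using dvd_sub h (p3 Q hQ))) (p2 Q hQ)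
      (p2 Q' hQ') (by simpa using dvd_sub (p3 Q' hQ') (p3 Q hQ))
      ((q2 Q hQ).symm.trans (e ▸ q2 Q' hQ')))).trans (p1 Q' hQ').symm)
  have e : ∑ Q ∈ T, gch B (φ Q) = ∑ Q ∈ T, gch B Q := sum_nbij φ q1 i1
    (Finset.surjOn_of_injOn_of_card_le φ q1 i1 le_rfl) fun _ _ => rfl
  rw [sum_congr rfl fun Q hQ => show gch B (φ Q) = -gch B Q by
    rw [← (q2 Q hQ).gch oB (dB _ (h.fam _ (q1 Q hQ))), gch_sh hn.sqf.of_mul_right hl
      (fun k => nd B (by omega) (by nlinarith) (by exact_mod_cast k)) (p2 Q hQ), hJ,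
      (p1 Q hQ).gch oB (dB _ (h.fam Q hQ)), neg_one_mul], sum_neg_distrib] at e
  omega

end Pool.Agent.G5
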