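import Pool.Agent.Lib.MP_696deb_nt.B5.NUa

/-! The involution at one prime moves one special divisor to the other. -/

set_option autoImplicit false

open Finset NumberTheorySymbols
open scoped Classical

namespace Pool.Agent.G5

open Pool.Agent.Lib.MP_696deb_nt Pool.Agent.B4.GE

variable {N p B : ℕ} {D β β' : ℤ} {T T' : Finset Fm} {w g : MZ} {z : ℂ}

theorem ALm.shape (h : ALm N p w) (hp : p ≠ 0) (hN : p ∣ N) : ∃ q a b c d : ℤ, (N : ℤ) = p * q ∧
    p * a * d - b * q * c = 1 ∧ w = !![p * a, b; p * q * c, p * d] := by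
  obtain ⟨q, rfl⟩ := hN
  obtain ⟨h1, ⟨a, ha⟩, ⟨c, hc⟩, d, hd⟩ := h
  rw [Matrix.det_fin_two, ha, hc, hd] at h1
  push_cast at hc h1
  refine ⟨q, a, w 0 1, c, d, by push_cast; rfl, mul_left_cancel₀ (Nat.cast_ne_zero.2 hp : (p : ℤ) ≠ 0)
    (by linear_combination h1), ?_⟩
  rw [← ha, ← hc, ← hd]
  exact Matrix.eta_fin_two w

theorem ALm.adj (h : ALm N p w) : ALm N p w.adjugate := by
  refine ⟨by rw [Matrix.det_adjugate, h.det]; simp, ?_, ?_, ?_⟩ <;> rw [Matrix.adjugate_fin_two]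
  exacts [h.d, dvd_neg.2 h.c, h.a]

theorem ALm.pos (h : ALm N p w) (hp : p ≠ 0) : 0 < w.det := by rw [h.det]; omega

theorem ALm.act_adj (h : ALm N p w) (hp : p ≠ 0) (hz : 0 < z.im) :
    act w.adjugate (act w z) = z := by
  rw [← act_mul _ (h.pos hp).ne' hz, Matrix.adjugate_mul, act_smul (h.pos hp).ne', act_one]

theorem ALm.act_adj' (h : ALm N p w) (hp : p ≠ 0) (hz : 0 < z.im) :
    act w (act w.adjugate z) = z := by
  rw [← act_mul _ (h.adj.pos hp).ne' hz, Matrix.mul_adjugate, act_smul (h.pos hp).ne', act_one]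

/-- The matrices normalize the congruence subgroup. -/
theorem ALm.norm (h : ALm N p w) (hp : p ≠ 0) (hN : p ∣ N) (hg : G0 N g) :
    ∃ g', G0 N g' ∧ w * g = g' * w := by
  obtain ⟨q, a, b, c, d, h1, h2, rfl⟩ := h.shape hp hN
  obtain ⟨x, y, z, u, h3, rfl⟩ := g0_ex hg
  refine ⟨_, g0_of (a := (p * a * x + b * p * q * z) * d - (p * a * y + b * u) * q * c)
    (b := (p * a * y + b * u) * a - (a * x + b * q * z) * b)
    (c := c * x * d + p * d ^ 2 * z - q * c ^ 2 * y - d * u * c)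
    (d := (p * q * c * y + p * d * u) * a - (q * c * x + p * d * q * z) * b) ?_, ?_⟩
  · rw [h1] at h3 ⊢
    linear_combination (p * a * d - b * q * c) ^ 2 * h3 + (p * a * d - b * q * c + 1) * h2
  · rw [h1, Matrix.mul_fin_two, Matrix.mul_fin_two]
    congrm !![?_, ?_; ?_, ?_]
    · linear_combination -(p * a * x + b * p * q * z) * h2
    · linear_combination -(p * a * y + b * u) * h2
    · linear_combination -(p * q * c * x + p * d * p * q * z) * h2
    · linear_combination -(p * q * c * y + p * d * u) * h2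

theorem ALm.act_norm (h : ALm N p w) (hp : p ≠ 0) (hN : p ∣ N) (hg : G0 N g) :
    ∃ g', G0 N g' ∧ ∀ z : ℂ, 0 < z.im → act w (act g z) = act g' (act w z) := by
  obtain ⟨g', h1, h2⟩ := h.norm hp hN hg
  exact ⟨g', h1, fun z hz => by
    rw [← act_mul _ (by rw [hg.1]; exact one_ne_zero) hz, h2, act_mul _ (h.pos hp).ne' hz]⟩

/-- The involution on forms. -/
theorem ALm.form (h : ALm N p w) (hp : p.Prime) (h2 : p ≠ 2) (hN : p ∣ N) (hD : D < 0)
    (k1 : (p : ℤ) ∣ β' + β) (k2 : 2 * ((N / p : ℕ) : ℤ) ∣ β' - β) {Q : Fm} (hQ : Fam N D β Q)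
    (h0 : 0 < Q.1) : ∃ R, Fam N D β' R ∧ 0 < R.1 ∧ froot R = act w (froot Q) ∧
      ∀ B : ℕ, Squarefree B → Odd B → B.Coprime N → (B : ℤ) ∣ D → gch B R = J(p | B) * gch B Q := by
  obtain ⟨q, a, b, c, d, h1, e, rfl⟩ := h.shape hp.ne_zero hN
  have p0 : (0 : ℤ) < p := by exact_mod_cast hp.pos
  rw [Int.natCast_div, h1, Int.mul_ediv_cancel_left _ p0.ne'] at k2
  obtain ⟨_, y, x⟩ := Q
  obtain ⟨⟨α, rfl⟩, h3, t, h4⟩ := hQ
  obtain ⟨R, hR⟩ : ∃ R : Fm, R = (N * (α * p * d ^ 2 - y * d * c + x * q * c ^ 2),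
    y * (p * a * d + b * q * c) - 2 * N * (α * d * b + x * c * a),
    q * α * b ^ 2 - y * b * a + x * p * a ^ 2) := ⟨_, rfl⟩
  have v1 : ∀ s t, p * fval R s t =
      fval (N * α, y, x) (p * d * s - b * t) (p * a * t - p * q * c * s) := fun s t => by
    simp only [hR, fval, h1]; ring
  have v2 : ∀ s t, fval R (p * a * s + b * t) (p * q * c * s + p * d * t) =
      p * fval (N * α, y, x) s t := fun s t => by
    simp only [hR, fval, h1]
    linear_combination p * (p * q * α * s ^ 2 + y * s * t + x * t ^ 2) *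
      (p * a * d - b * q * c + 1) * e
  have hd : fdisc R = D := by
    rw [← h3]
    simp only [hR, fdisc, h1]
    linear_combination (y ^ 2 - 4 * (p * q * α) * x) * (p * a * d - b * q * c + 1) * e
  have hz := im_froot_pos (h3 ▸ hD) h0
  have h5 : 0 < R.1 := by
    have k3 : 4 * R.1 * (p * (N * α)) = (2 * R.1 * (p * a) + R.2.1 * (p * q * c)) ^ 2 -
        (p * q * c) ^ 2 * D := by
      have := v2 1 0
      simp only [fval, mul_one, mul_zero, add_zero] at this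
      rw [← hd, fdisc]
      linear_combination -4 * R.1 * this
    have k4 : R.1 ≠ 0 := fun k => by
      rw [fdisc, k] at hd
      nlinarith [sq_nonneg R.2.1]
    have k5 : 0 < p * (N * α) := mul_pos p0 h0
    refine lt_of_le_of_ne (le_of_not_gt fun k => ?_) k4.symm
    nlinarith [sq_nonneg (2 * R.1 * (p * a) + R.2.1 * (p * q * c)), sq_nonneg (p * q * c)]
  refine ⟨R, ⟨hR ▸ dvd_mul_right _ _, hd, ?_⟩, h5, (eq_froot (hd ▸ hD) h5
    (act_pos (h.pos hp.ne_zero) hz) ?_).symm, fun B hB ho hc hBD => ?_⟩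
  · obtain ⟨s, hs⟩ := k1
    obtain ⟨r, hr⟩ := k2
    obtain ⟨k, hk⟩ := (IsCoprime.mul_right (Nat.isCoprime_iff_coprime.2
      ((Nat.coprime_primes hp Nat.prime_two).2 h2)) (z := q) ⟨a * d, -(b * c), by
        linear_combination e⟩).dvd_of_dvd_mul_left (z := β * b * c - r)
      ⟨2 * β * a * d - s, by push_cast; linear_combination hr - hs - 2 * β * e⟩
    refine ⟨t * (p * a * d + b * q * c) - (α * d * b + x * c * a) + k, ?_⟩
    simp only [hR, h1] at h4 ⊢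
    linear_combination (p * a * d + b * q * c) * h4 + 2 * q * hk - hr + β * e
  · have k3 := froot_root (h3 ▸ hD) h0
    have k4 := den_ne' (h.pos hp.ne_zero).ne' hz
    have k5 : (p : ℂ) * a * d - b * q * c = 1 := by exact_mod_cast e
    have k6 : (N : ℂ) = p * q := by exact_mod_cast h1
    generalize froot (N * α, y, x) = τ at k3 k4
    simp only [hR, act_of, mob, den, Matrix.of_apply, Matrix.cons_val', Matrix.cons_val_zero,
      Matrix.cons_val_one, Matrix.cons_val_fin_one] at k3 k4 ⊢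
    push_cast at k3 k4 ⊢
    rw [k6] at k3 ⊢
    obtain ⟨u, hu⟩ : ∃ u, u = (p : ℂ) * q * c * τ + p * d := ⟨_, rfl⟩
    rw [← hu] at k4 ⊢
    field_simp
    rw [hu]
    linear_combination p * (p * a * d - b * q * c) ^ 2 * k3
  · rw [gch_eq, gch_eq, jac_eq_prod _ hB, ← prod_mul_distrib]
    refine prod_congr rfl fun l hl => ?_
    have l1 := Nat.prime_of_mem_primeFactors hl
    have l2 : ¬ (l : ℤ) ∣ p := fun k => l1.one_lt.ne' (Nat.eq_one_of_dvd_coprimes hc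
      (Nat.dvd_of_mem_primeFactors hl) ((Int.natCast_dvd_natCast.1 k).trans hN))
    exact gl_of_vals l1 (prime_ne_two ho hl) (h3 ▸ dvd_of_mem hBD hl) (hd ▸ dvd_of_mem hBD hl) l2
      (fun s t => ⟨_, _, by rw [v2, sub_self]; exact dvd_zero _⟩) fun k s t =>
      ((Nat.prime_iff_prime_int.1 l1).dvd_or_dvd (v1 s t ▸ k _ _)).resolve_left l2

theorem ALm.sum (h : ALm N p w) (hp : p.Prime) (h2 : p ≠ 2) (hN : p ∣ N) (hD : D < 0)
    (k1 : (p : ℤ) ∣ β' + β) (k2 : 2 * ((N / p : ℕ) : ℤ) ∣ β' - β) (hT : FReps N D β T)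
    (hT' : FReps N D β' T') (hB : Squarefree B) (ho : Odd B) (hc : B.Coprime N) (hd : (B : ℤ) ∣ D)
    {V : Type} [AddCommGroup V] {S : ℂ → V} (hS : Inv0 N S) : ∑ Q ∈ T', gch B Q • S (froot Q) =
      J(p | B) • ∑ Q ∈ T, gch B Q • S (act w (froot Q)) := by
  have p0 := hp.ne_zero
  choose! φ f1 f2 f3 f4 using fun Q (hQ : Q ∈ T) =>
    h.form hp h2 hN hD k1 k2 (hT.fam Q hQ) (hT.pos Q hQ)
  have d1 : ∀ {β : ℤ} {Q : Fm}, Fam N D β Q → fdisc Q < 0 := fun k => k.2.1 ▸ hD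
  have z1 := fun Q hQ => im_froot_pos (d1 (hT.fam Q hQ)) (hT.pos Q hQ)
  have inj : ∀ Q ∈ T, ∀ R ∈ T, FEq N (φ Q) (φ R) → Q = R := fun Q hQ R hR e => by
    obtain ⟨g, g1, g2⟩ := e.root (d1 (f1 Q hQ)) (f2 Q hQ)
    obtain ⟨g', g3, g4⟩ := h.adj.act_norm p0 hN g1
    refine hT.uniq Q hQ R hR (feq_of_root g3 (d1 (hT.fam Q hQ)) (hT.pos Q hQ) (hT.pos R hR)
      ((hT.fam R hR).2.1.trans (hT.fam Q hQ).2.1.symm) ?_).2
    rw [← h.act_adj p0 (z1 Q hQ), ← f3 Q hQ, g2, g4 _ (im_froot_pos (d1 (f1 R hR)) (f2 R hR)),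
      f3 R hR, h.act_adj p0 (z1 R hR)]
  have key : FReps N D β' (T.image φ) := by
    refine ⟨forall_mem_image.2 f1, forall_mem_image.2 f2, fun Q a b => ?_, ?_⟩
    · obtain ⟨P, a1, a2, a3, -⟩ := h.adj.form hp h2 hN hD (add_comm β' β ▸ k1) (dvd_sub_comm.1 k2) a b
      obtain ⟨R, hR, e⟩ := hT.ex P a1 a2
      obtain ⟨g, g1, g2⟩ := e.root (d1 (hT.fam R hR)) (hT.pos R hR)
      obtain ⟨g', g3, g4⟩ := h.act_norm p0 hN g1
      refine ⟨_, mem_image_of_mem _ hR, (feq_of_root g3 (d1 (f1 R hR)) (f2 R hR) b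
        (a.2.1.trans (f1 R hR).2.1.symm) ?_).2⟩
      rw [f3 R hR, g2, g4 _ (im_froot_pos (d1 a1) a2), a3, h.act_adj' p0 (im_froot_pos (d1 a) b)]
    · simp only [forall_mem_image]
      exact fun Q hQ R hR e => congrArg φ (inj Q hQ R hR e)
  rw [hT'.sum_eq key _ fun Q R a b e => by rw [e.gch ho (a.2.1 ▸ hd), e.inv0 hS (d1 a) b],
    sum_image fun Q hQ R hR e => inj Q hQ R hR ((show φ Q = φ R from e) ▸ FEq.refl _), smul_sum]
  exact sum_congr rfl fun Q hQ => by rw [f3 Q hQ, f4 Q hQ B hB ho hc hd, mul_smul]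

theorem Cx.p2 {A : ℕ} {ρ ρ' : ℤ} (h : Cx N p A B ρ ρ' β) : p ≠ 2 := fun k =>
  Nat.not_even_iff_odd.2 h.lodd (even_iff_two_dvd.2 (k ▸ h.dvd))

theorem Cx.not_dvd' {A : ℕ} {ρ ρ' : ℤ} (h : Cx N p A B ρ ρ' β) : ¬ (p : ℤ) ∣ ρ' := fun k =>
  h.toGood.not_dvd h.root h.hp.one_lt h.dvd ((dvd_add_right k).1 h.rp)

theorem wp_stmt : WPStmt := by
  intro N p A B ρ ρ' β T T' R R' w h hT hT' hR hR' hw
  have hn := h.toGood
  have hc : B.Coprime N := hn.cop.coprime_mul_left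
  have ho := hn.odd.of_dvd_nat (dvd_mul_left B A)
  refine ⟨J(p | B), jacobiSym.eq_one_or_neg_one (by
    simpa using (hc.coprime_dvd_right h.dvd).symm), fun V _ S hS => ?_⟩
  rw [zs, zs, sum_wZ hR hR' fun k => h.not_dvd' ((Int.natCast_dvd_natCast.2 h.dvd).trans k),
    sum_wZ hT hT' (hn.not_dvd h.root hn.l1 dvd_rfl),
    hw.sum h.hp h.p2 h.dvd hn.neg h.rp h.rq hT hR hn.sqf.of_mul_right ho hc (dvd_disc A B) hS,
    hw.sum h.hp h.p2 h.dvd hn.neg (by rw [← neg_add, dvd_neg]; exact h.rp)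
      (by rw [neg_sub_neg]; exact dvd_sub_comm.1 h.rq) hT' hR' hn.sqf.of_mul_right ho hc
      (dvd_disc A B) hS, smul_add, smul_comm (J(-1 | B))]

end Pool.Agent.G5
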