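import Pool.Agent.Lib.MP_696deb_nt.B5.HWc

/-! The Hecke recursion for the special divisors and the split geodesics. -/

set_option autoImplicit false

open Finset NumberTheorySymbols Function
open scoped Classical

namespace Pool.Agent.G5

open Pool.Agent.Lib.MP_696deb_nt Hw

variable {N p A B l m : ℕ} {ρ ρ' β : ℤ}

theorem Cx.odd (h : Cx N p A B ρ ρ' β) : Odd A ∧ Odd B :=
  Nat.odd_mul.1 (by have := h.mod4; rw [Nat.odd_iff]; omega)

theorem hw_four {x y : ℤ} (hx : Odd x) (hy : Odd y) : 4 ∣ x ^ 2 - y ^ 2 := by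
  obtain ⟨a, rfl⟩ := hx
  obtain ⟨b, rfl⟩ := hy
  exact ⟨a ^ 2 + a - b ^ 2 - b, by ring⟩

theorem Cx.odd_root (h : Cx N p A B ρ ρ' β) : Odd ρ ∧ Odd ρ' ∧ Odd β := by
  have h0 : Odd ((A * B : ℕ) : ℤ) := by exact_mod_cast h.odd.1.mul h.odd.2
  have h1 : Odd ρ := by
    have := (Int.even_add'.1 (even_iff_two_dvd.2 (dvd_trans (b := 4 * (N : ℤ)) ⟨2 * N, by ring⟩
      h.root))).2 h0
    exact (Int.odd_pow' two_ne_zero).1 this
  have h2 : Odd ρ' := (Int.even_sub'.1 (even_iff_two_dvd.2 ((dvd_mul_right _ _).trans h.rq))).2 h1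
  exact ⟨h1, h2, (Int.odd_mul.1 ((Int.even_add'.1 (even_iff_two_dvd.2
    ((dvd_mul_right _ _).trans h.bet))).2 (h1.mul h2))).2⟩

theorem hw_half {q : ℕ} (hq : q ∣ N) (ho : Odd N) {x : ℤ} (h : (q : ℤ) ∣ 2 * x) : (q : ℤ) ∣ x :=
  (Nat.isCoprime_iff_coprime.2 (Nat.coprime_two_right.2 (ho.of_dvd_nat hq))).dvd_of_dvd_mul_left h

theorem Cx.ne_root (h : Cx N p A B ρ ρ' β) : ¬ (N : ℤ) ∣ ρ' - ρ ∧ ¬ (N : ℤ) ∣ ρ' + ρ := by
  have h1 : 1 < N / p := by
    obtain ⟨q, rfl⟩ := h.dvd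
    rw [Nat.mul_div_cancel_left _ h.hp.pos]
    rcases q with _ | _ | q
    · simpa using h.l1
    · exact absurd (mul_one p) h.ne
    · omega
  have h2 := Nat.div_dvd_of_dvd h.dvd
  refine ⟨fun k => h.toGood.not_dvd h.root h.hp.one_lt h.dvd (hw_half h.dvd h.lodd ?_),
    fun k => h.toGood.not_dvd h.root h1 h2 (hw_half h2 h.lodd ?_)⟩
  · have := h.rp.sub ((Int.natCast_dvd_natCast.2 h.dvd).trans k)
    rwa [show ρ' + ρ - (ρ' - ρ) = 2 * ρ by ring] at this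
  · have := ((Int.natCast_dvd_natCast.2 h2).trans k).sub ((dvd_mul_left _ _).trans h.rq)
    rwa [show ρ' + ρ - (ρ' - ρ) = 2 * ρ by ring] at this

theorem Cx.cop_root (h : Cx N p A B ρ ρ' β) : IsCoprime (N : ℤ) ρ := by
  obtain ⟨k, hk⟩ := h.root
  obtain ⟨u, v, e⟩ := Nat.isCoprime_iff_coprime.2 h.cop
  exact ⟨v + 4 * k * u, -u * ρ, by linear_combination e - u * hk⟩

/-- No geodesic of the split family ends at infinity. -/
theorem Cx.fam_ne (h : Cx N p A B ρ ρ' β) (hm : m.Coprime N) {R : Fm}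
    (hR : Fam N (A ^ 2 * m ^ 2) (β * m) R) : R.1 ≠ 0 := fun k => by
  have h1 : R.2.1 ^ 2 = (A * m) ^ 2 := by
    have := hR.2.1
    rw [fdisc, k] at this
    linear_combination this
  have h2 : (N : ℤ) ∣ R.2.1 - β * m := (dvd_mul_left _ _).trans hR.2.2
  have h3 : (N : ℤ) ∣ B * β + ρ * ρ' := (dvd_mul_left _ _).trans h.bet
  have h4 : (N : ℤ) ∣ ρ ^ 2 + (A * B : ℕ) := (dvd_mul_left _ _).trans h.root
  have c : IsCoprime (N : ℤ) (m * ρ) := (Nat.isCoprime_iff_coprime.2 hm.symm).mul_right h.cop_root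
  push_cast at h4
  rcases sq_eq_sq_iff_eq_or_eq_neg.1 h1 with e | e <;> rw [e] at h2
  · refine h.ne_root.1 (c.dvd_of_dvd_mul_left ?_)
    have := ((h2.mul_left B).add (h3.mul_left m)).sub (h4.mul_left m)
    rwa [show B * (A * m - β * m) + m * (B * β + ρ * ρ') - m * (ρ ^ 2 + A * B) =
      m * ρ * (ρ' - ρ) by ring] at this
  · refine h.ne_root.2 (c.dvd_of_dvd_mul_left ?_)
    have := ((h2.mul_left B).add (h3.mul_left m)).add (h4.mul_left m)
    rwa [show B * (-(A * m) - β * m) + m * (B * β + ρ * ρ') + m * (ρ ^ 2 + A * B) =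
      m * ρ * (ρ' + ρ) by ring] at this

theorem Cw_eq (N A : ℕ) (β : ℤ) (m : ℕ) : Cw N A β m = wG N A (A ^ 2 * m ^ 2) (β * m) := by
  rw [Cw, ← mul_assoc, ← sq]

theorem Yw_eq (N A B : ℕ) (ρ' : ℤ) (m : ℕ) :
    Yw N A B ρ' m = wZ N B (-(A * B : ℕ) * m ^ 2) (ρ' * m) := by
  rw [Yw]; congr 1; push_cast; ring

theorem hw_etaC (hl : l.Prime) (hA : Squarefree A) (ho : Odd A) (hm : ¬ l ∣ m) (R : Fm)
    (hR : fdisc R = A ^ 2 * m ^ 2) : NS l A R = (J((l : ℤ) | A) + et A l) * gch A R := by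
  have hP := Nat.prime_iff_prime_int.mp hl
  by_cases h : l ∣ A
  · rw [et, jac_self hl hA h, add_zero, zero_mul]
    by_cases k : Pr l R
    · rw [ns_sq hl hA ho (hR ▸ (dvd_pow_self _ two_ne_zero).mul_right _)
        (hR ▸ (pow_dvd_pow_of_dvd (Int.natCast_dvd_natCast.2 h) 2).mul_right _) k,
        jac_self hl hA h, zero_mul]
    · obtain ⟨Q, rfl⟩ := exists_sc k
      obtain ⟨C, rfl⟩ := h
      have h1 : fdisc Q = (C * m) ^ 2 := mul_right_cancel₀ (pow_ne_zero 2 hP.ne_zero) (by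
        rw [← disc_sc, hR]; push_cast; ring)
      refine ns_zero hl hA ho (h1 ▸ ⟨C * m ^ 2, by ring⟩) (h1 ▸ fun j => ?_)
      rcases hP.dvd_or_dvd (hP.dvd_of_dvd_pow j) with j | j
      · exact (split hl hA).2.2 (Int.natCast_dvd_natCast.1 j)
      · exact hm (Int.natCast_dvd_natCast.1 j)
  · have h1 : ¬ (l : ℤ) ∣ A := by rwa [Int.natCast_dvd_natCast]
    have h2 : kr (A ^ 2) l = 1 := by rw [← one_mul ((A : ℤ) ^ 2), kr_sq hl h1, kr_one]
    rw [eta_cop hl hA ho (dvd_pow_self _ two_ne_zero) h (fun j => h1 (hP.dvd_of_dvd_pow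
      ((dvd_pow_self _ two_ne_zero).trans j))) hm R hR, h2, one_mul, et]

theorem hw_etaY (hl : l.Prime) (hn : Squarefree (A * B)) (h4 : A * B % 4 = 3) (hm : ¬ l ∣ m)
    (R : Fm) (hR : fdisc R = -(A * B : ℕ) * m ^ 2) :
    NS l B R = (J((l : ℤ) | B) + et A l) * gch B R := by
  have hP := Nat.prime_iff_prime_int.mp hl
  obtain ⟨oA, oB⟩ := Nat.odd_mul.1 (show Odd (A * B) by rw [Nat.odd_iff]; omega)
  have hB := hn.of_mul_right
  have A0 := hn.of_mul_left.ne_zero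
  by_cases h : l ∣ B
  · rw [jac_self hl hB h, zero_add]
    obtain ⟨C, rfl⟩ := h
    have C0 := hB.of_mul_right.ne_zero
    have h1 : ¬ l ∣ A * C := (split hl (by rwa [mul_left_comm])).2.2
    have h2 : ¬ (l : ℤ) ∣ m := by rwa [Int.natCast_dvd_natCast]
    have oL := Nat.Odd.of_mul_left oB
    have oC := oA.mul (Nat.Odd.of_mul_right oB)
    rw [ns_ram (e := -((A * C : ℕ) * m ^ 2)) hl hB oB (hR ▸ ⟨-(A * l * m ^ 2), by push_cast; ring⟩)
      (by rw [hR]; push_cast; ring) (fun j => (hP.dvd_or_dvd (dvd_neg.1 j)).elim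
        (fun j => h1 (Int.natCast_dvd_natCast.1 j)) fun j => h2 (hP.dvd_of_dvd_pow j)), neg_neg,
      jacobiSym.mul_left, jacobiSym.pow_left, jac_sq hl h2, mul_one]
    have h3 : J(((A * C : ℕ) : ℤ) | l) = J((l : ℤ) | A * C) := by
      rcases Nat.odd_mod_four_iff.mp (Nat.odd_iff.mp oL) with k | k
      · exact (jacobiSym.quadratic_reciprocity_one_mod_four k oC).symm
      · refine jacobiSym.quadratic_reciprocity_one_mod_four ?_ oL
        rcases Nat.odd_mod_four_iff.mp (Nat.odd_iff.mp oC) with j | j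
        · exact j
        · rw [mul_left_comm, Nat.mul_mod, k, j] at h4
          omega
    have h5 : J((l : ℤ) | C) ^ 2 = 1 :=
      jacobiSym.sq_one (by simpa using (split hl hB).2.1)
    rw [h3, jacobiSym.mul_right' _ A0 C0, et]
    linear_combination J((l : ℤ) | A) * gch (l * C) R * h5
  · have h5 : J((l : ℤ) | B) ^ 2 = 1 :=
      jacobiSym.sq_one (by simpa using hl.coprime_iff_not_dvd.2 h)
    rw [eta_cop hl hB oB (by simp) h (fun j => hl.one_lt.ne' (Nat.isUnit_iff.1 (hn l (by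
      rw [dvd_neg, sq] at j; exact_mod_cast j)))) hm R hR, kr_neg hl h4,
      jacobiSym.mul_right' _ A0 hB.ne_zero, et]
    linear_combination J((l : ℤ) | A) * gch B R * h5

theorem hw_adj (hl : l ≠ 0) (i : Option (Fin l)) {R : Fm} (h : 0 < R.1) :
    froot (nb l i (sc l R)) = act (rP l i) (froot R) ∧ 0 < (nb l i (sc l R)).1 ∧
      hm l i (nb l i (sc l R)) = sc l (sc l R) := by
  have l0 : (0 : ℤ) < l := by positivity
  have h1 := hm_nb (i := i) (R := sc l R) (vl_sc i l R ▸ dvd_mul_right _ _)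
  have h2 : 0 < (nb l i (sc l R)).1 := (pos_hm hl i).1 (h1 ▸ mul_pos l0 (mul_pos l0 h))
  exact ⟨by rw [← froot_hm hl i h2.ne', h1, froot_sc l0, froot_sc l0], h2, h1⟩

theorem hw_ori {n : ℕ} (h4 : 4 ∣ ρ ^ 2 + n) {z : ℂ} (hz : Ori N n ρ z) (hl : l.Prime)
    (hN : ¬ l ∣ N) (i : Option (Fin l)) : Ori N n ρ (act (rP l i) z) := by
  obtain ⟨R, M, h0, h1, h2, h3, rfl⟩ := hz
  obtain ⟨k1, k2, k3⟩ := hw_adj hl.ne_zero i h2
  have h5 : ∀ β : ℤ, β ^ 2 = (ρ * M) ^ 2 → Fam N (-(n * M ^ 2)) β R →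
      Fam N (-(n * (M * l : ℕ) ^ 2)) (β * l) (nb l i (sc l R)) := fun β e k => by
    have h6 : 4 ∣ β ^ 2 - -(n * M ^ 2) := by
      rw [e, mul_pow, sub_neg_eq_add, ← add_mul]; exact h4.mul_right _
    rw [show -((n : ℤ) * (M * l : ℕ) ^ 2) = -(n * M ^ 2) * l ^ 2 by push_cast; ring,
      ← fam_hm (i := i) hl hN (four h6 l), k3, fam_sc hl hN (four h6 l), fam_sc hl hN h6]
    exact k
  refine ⟨_, M * l, mul_ne_zero h0 hl.ne_zero,
    Nat.Coprime.mul_left h1 (hl.coprime_iff_not_dvd.2 hN), k2, h3.imp (fun k => ?_) fun k => ?_,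
    k1.symm⟩
  · simpa only [mul_assoc, Nat.cast_mul] using h5 _ rfl k
  · simpa only [mul_assoc, Nat.cast_mul, neg_mul] using h5 _ (neg_sq _) k

theorem hw_root {n M : ℕ} (hn : n ≠ 0) (hM : M ≠ 0) (hm : m ≠ 0) {Q R : Fm} (hQ : 0 < Q.1)
    (hR : 0 < R.1) (dQ : fdisc Q = -(n * M ^ 2)) (dR : fdisc R = -n * m ^ 2)
    (h : froot R = froot Q) : M * R.2.1 = m * Q.2.1 := by
  have M0 : (0 : ℤ) < M := by positivity
  have m0 : (0 : ℤ) < m := by positivity
  have := froot_inj (Q := sc m Q) (R := sc M R) (by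
    rw [disc_sc, dQ, neg_mul, neg_lt_zero]; positivity) (mul_pos m0 hQ) (mul_pos M0 hR)
    (by rw [disc_sc, disc_sc, dQ, dR]; ring) (by rw [froot_sc M0, froot_sc m0, h])
  exact congrArg (fun S : Fm => S.2.1) this

theorem hw_stmt : HWStmt := by
  intro N p A B ρ ρ' β h
  obtain ⟨oA, oB⟩ := h.odd
  obtain ⟨o1, o2, o3⟩ := h.odd_root
  have h4 : (4 : ℤ) ∣ ρ ^ 2 + (A * B : ℕ) := (dvd_mul_right _ _).trans h.root
  have n0 := h.sqf.ne_zero
  refine ⟨fun l hl hN m h0 hm z hz => ?_, fun l hl hN m h0 hm z hz => ?_,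
    fun z hz l hl hN i => hw_ori h4 hz hl hN i, ?_⟩
  · simp only [Yw_eq]
    refine nuW_rec hl hN ?_ (by rw [neg_lt_zero]; positivity) h.sqf.of_mul_right oB (by simp)
      (fun k => hw_etaY hl h.sqf h.mod4 k) h0 hm hz
    have := (hw_four o2 o1).add h4
    rwa [← add_assoc, sub_add_cancel, ← sub_neg_eq_add] at this
  · simp only [Cw_eq]
    exact Iw_rec hl hN (hw_four o3 (by exact_mod_cast oA)) h.sqf.of_mul_left oA
      (dvd_pow_self _ two_ne_zero) (fun m _ b R k => h.fam_ne b k)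
      (fun k => hw_etaC hl h.sqf.of_mul_left oA k) h0 hm hz
  · rintro _ ⟨Q, M, h0, h1, h2, h3, rfl⟩ m m0 hm R hR e
    rw [Yw_eq] at hR
    obtain ⟨k1, k2⟩ := pos_of_wZ hR
    have k3 := hw_root n0 h0 m0 h2 k1 (h3.elim (·.2.1) (·.2.1)) (k2.elim (·.2.1) (·.2.1)) e
    have c : IsCoprime (N : ℤ) (m * M) := (Nat.isCoprime_iff_coprime.2 hm.symm).mul_right
      (Nat.isCoprime_iff_coprime.2 h1.symm)
    have d : ∀ {x : ℤ}, 2 * (N : ℤ) ∣ x → (N : ℤ) ∣ x := fun k => (dvd_mul_left _ _).trans k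
    rcases h3 with a | a <;> rcases k2 with b | b <;>
      have := ((d a.2.2).mul_left m).sub ((d b.2.2).mul_left M)
    · exact h.ne_root.1 (c.dvd_of_dvd_mul_left (by convert this using 1; linear_combination k3))
    · exact h.ne_root.2 (c.dvd_of_dvd_mul_left (dvd_neg.1 (by
        convert this using 1; linear_combination k3)))
    · exact h.ne_root.2 (c.dvd_of_dvd_mul_left (by convert this using 1; linear_combination k3))
    · exact h.ne_root.1 (c.dvd_of_dvd_mul_left (dvd_neg.1 (by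
        convert this using 1; linear_combination k3)))

end Pool.Agent.G5
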