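import Pool.Agent.Lib.MP_696deb_nt.B5.Z1
import Pool.Agent.Lib.MP_696deb_nt.B4.GEm

/-! The statements that concern a newform. -/

set_option autoImplicit false

open NumberTheorySymbols
open scoped Classical

namespace Pool.Agent.G5

open Pool.Agent.Lib.MP_696deb_nt Pool.Agent.B4.GE Pool.Agent.Shared.Weier

/-- The form is new at the primes of the level. -/
def Nw {W : WeierstrassCurve ℚ} {N : ℕ} (D : MD W N) : Prop :=
  ∀ r : ℕ, r.Prime → r ∣ N → D.c r ^ 2 = 1 ∧ ∀ n, D.c (r * n) = D.c r * D.c n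

/-- The incomplete Euler product extends to an entire function with a zero of order `r`. -/
def AnR (a b : ℤ) (r : ℕ∞) : Prop := ∃ F : ℂ → ℂ, Differentiable ℂ F ∧
  (∀ s : ℂ, (3 : ℝ) / 2 < s.re → HasProd
    (fun p : ℕ =>
      if p.Prime ∧ ¬ ((p : ℤ) ∣ 2 * (-4 * a ^ 3 - 27 * b ^ 2)) then
        (1 - ((p : ℂ) - (Nat.card {q : ZMod p × ZMod p //
            q.2 ^ 2 = q.1 ^ 3 + (a : ZMod p) * q.1 + (b : ZMod p)} : ℂ))
            * (p : ℂ) ^ (-s) + (p : ℂ) ^ (1 - 2 * s))⁻¹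
      else 1)
    (F s)) ∧ analyticOrderAt F 1 = r

/-- The projector for a newform. -/
def PRStmt : Prop := ∀ (W : WeierstrassCurve ℚ) (N : ℕ) (D : MD W N), Squarefree N → Nw D →
  IsOfFinAddOrder (D.par.per.unif D.par.t0) ∧ ∀ p : ℕ, p.Prime → p ∣ N → Cp D.par 0 p

/-- From the twisted series to the Euler product. -/
def LFStmt : Prop := ∀ (W : WeierstrassCurve ℚ) (N : ℕ) (D : MD W N) (B : ℕ) (a b : ℤ), Nw D →
  Squarefree B → Odd B → -4 * a ^ 3 - 27 * b ^ 2 ≠ 0 →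
  (∀ l : ℕ, l.Prime → ¬ (l : ℤ) ∣ 2 * (-4 * a ^ 3 - 27 * b ^ 2) → ¬ l ∣ N * B ∧
    J((l : ℤ) | B) * D.c l = l - (Nat.card {q : ZMod l × ZMod l //
      q.2 ^ 2 = q.1 ^ 3 + (a : ZMod l) * q.1 + (b : ZMod l)} : ℤ)) →
  (LA D.par.F B 1 ≠ 0 → AnR a b 0) ∧
    (LA D.par.F B 1 = 0 → deriv (LA D.par.F B) 1 ≠ 0 → AnR a b 1)

end Pool.Agent.G5
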