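import Pool.Agent.Lib.MP_696deb_nt.B5.Z1

/-! Formal properties of the Hecke operators on functions and on coefficients. -/

set_option autoImplicit false

open Finset Filter Topology Complex
open scoped Classical

namespace Pool.Agent.G5

open Pool.Agent.Lib.MP_696deb_nt Pool.Agent.B4.GE Pool.Agent.Shared.Weier

variable {V V' : Type} [AddCommGroup V] [AddCommGroup V'] {N M M' l m : ℕ} {t : HW}
  {S S' : ℂ → V} {z : ℂ} {η a : ℕ → ℤ} {g : MZ} {G G' : ℂ → ℂ}

theorem Tf_apply (l : ℕ) (S : ℂ → V) (z : ℂ) : Tf V l S z = ∑ i, S (act (rP l i) z) := rfl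

theorem hf_tl (l : ℕ) : hf V (tl l) = Tf V l := FreeAlgebra.lift_ι_apply _ _

theorem he_tl (a : ℕ → ℤ) (l : ℕ) : he a (tl l) = a l := FreeAlgebra.lift_ι_apply _ _

theorem ha_tl (η : ℕ → ℤ) (l : ℕ) : ha η (tl l) = Ta η l := FreeAlgebra.lift_ι_apply _ _

theorem hf_mul (s t : HW) (S : ℂ → V) : hf V (s * t) S = hf V s (hf V t S) := by
  rw [map_mul, Module.End.mul_apply]

theorem hf_add (s t : HW) (S : ℂ → V) (z : ℂ) : hf V (s + t) S z = hf V s S z + hf V t S z := by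
  rw [map_add]
  rfl

theorem hf_int (c : ℤ) (S : ℂ → V) (z : ℂ) : hf V (algebraMap ℤ HW c) S z = c • S z := by
  rw [AlgHom.commutes]
  rfl

theorem ha_mul (s t : HW) (b : ℕ →₀ ℤ) : ha η (s * t) b = ha η s (ha η t b) := by
  rw [map_mul, Module.End.mul_apply]

theorem ha_add (s t : HW) (b : ℕ →₀ ℤ) : ha η (s + t) b = ha η s b + ha η t b := by
  rw [map_add]
  rfl

theorem ha_int (c : ℤ) (b : ℕ →₀ ℤ) : ha η (algebraMap ℤ HW c) b = c • b := by
  rw [AlgHom.commutes]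
  rfl

theorem tl_mem (hl : l.Prime) (h : ¬ l ∣ M) : tl l ∈ HA M :=
  Algebra.subset_adjoin ⟨l, ⟨hl, h⟩, rfl⟩

theorem HA_ind {p : HW → Prop} (ht : t ∈ HA M) (h1 : ∀ l : ℕ, l.Prime → ¬ l ∣ M → p (tl l))
    (h2 : ∀ c : ℤ, p (algebraMap ℤ HW c))
    (h3 : ∀ s t, s ∈ HA M → t ∈ HA M → p s → p t → p (s + t))
    (h4 : ∀ s t, s ∈ HA M → t ∈ HA M → p s → p t → p (s * t)) : p t :=
  Algebra.adjoin_induction (p := fun x _ => p x) (by
    rintro _ ⟨l, hl, rfl⟩
    exact h1 l hl.1 hl.2) h2 h3 h4 ht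

theorem HA_mono (h : M ∣ M') (ht : t ∈ HA M') : t ∈ HA M :=
  HA_ind (p := fun t => t ∈ HA M) ht (fun _ hl e => tl_mem hl fun k => e (k.trans h))
    (fun c => Subalgebra.algebraMap_mem _ c) (fun _ _ _ _ => add_mem) fun _ _ _ _ => mul_mem

theorem Xl_mem (hl : l.Prime) (h : ¬ l ∣ M) : ∀ j, Xl l j ∈ HA M
  | 0 => one_mem _
  | 1 => tl_mem hl h
  | j + 2 => sub_mem (mul_mem (tl_mem hl h) (Xl_mem hl h (j + 1)))
      (Subalgebra.smul_mem _ (Xl_mem hl h j) _)

theorem rP_det_pos (hl : l.Prime) (i : Option (Fin l)) : 0 < (rP l i).det := by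
  rw [(isReps_rP hl).det i]
  exact_mod_cast hl.pos

theorem rP_pos (hl : l.Prime) (i : Option (Fin l)) (hz : 0 < z.im) : 0 < (act (rP l i) z).im :=
  act_pos (rP_det_pos hl i) hz

/-- The operators only see a set that is stable under the correspondences. -/
theorem hf_congr_on {E : ℂ → Prop}
    (hE : ∀ z, E z → ∀ l : ℕ, l.Prime → ¬ l ∣ M → ∀ i, E (act (rP l i) z)) (ht : t ∈ HA M)
    (e : ∀ z, E z → S z = S' z) (hz : E z) : hf V t S z = hf V t S' z := by
  revert S S' z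
  refine HA_ind (p := fun t => ∀ {S S' : ℂ → V} {z : ℂ}, (∀ z, E z → S z = S' z) → E z →
    hf V t S z = hf V t S' z) ht (fun l hl h S S' z e hz => ?_) (fun c S S' z e hz => ?_)
    (fun s t _ _ h1 h2 S S' z e hz => ?_) fun s t _ _ h1 h2 S S' z e hz => ?_
  · rw [hf_tl, Tf_apply, Tf_apply]
    exact sum_congr rfl fun i _ => e _ (hE z hz l hl h i)
  · rw [hf_int, hf_int, e z hz]
  · rw [hf_add, hf_add, h1 e hz, h2 e hz]
  · rw [hf_mul, hf_mul]
    exact h1 (fun z hz => h2 e hz) hz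

theorem hf_congr (ht : t ∈ HA M) (e : ∀ z : ℂ, 0 < z.im → S z = S' z) (hz : 0 < z.im) :
    hf V t S z = hf V t S' z :=
  hf_congr_on (E := fun z => 0 < z.im) (fun _ hz _ hl _ i => rP_pos hl i hz) ht e hz

theorem hf_map (f : V →+ V') (t : HW) (S : ℂ → V) :
    (hf V' t fun z => f (S z)) = fun z => f (hf V t S z) := by
  induction t using FreeAlgebra.induction generalizing S with
  | grade0 c => exact funext fun z => by rw [hf_int, hf_int, map_zsmul]
  | grade1 l => exact funext fun z => by rw [hf_tl, hf_tl, Tf_apply, Tf_apply, map_sum]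
  | mul s t h1 h2 => rw [hf_mul, hf_mul, h2, h1]
  | add s t h1 h2 => exact funext fun z => by rw [hf_add, hf_add, h1, h2, map_add]

theorem Eig.hf (h : Eig N a S) (ht : t ∈ HA N) (hz : 0 < z.im) : hf V t S z = he a t • S z := by
  revert z
  refine HA_ind (p := fun t => ∀ {z : ℂ}, 0 < z.im → G5.hf V t S z = he a t • S z) ht
    (fun l hl e z hz => ?_) (fun c z _ => ?_) (fun s t _ _ h1 h2 z hz => ?_)
    fun s t hs _ h1 h2 z hz => ?_
  · rw [hf_tl, he_tl, h l hl e z hz]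
  · rw [hf_int, AlgHom.commutes]
    rfl
  · rw [hf_add, h1 hz, h2 hz, map_add, add_smul]
  · rw [hf_mul, hf_congr hs (S' := he a t • S) (fun z hz => h2 hz) hz, map_smul, Pi.smul_apply,
      h1 hz, map_mul, mul_comm, mul_smul]

theorem eig_const (N : ℕ) (c : V) : Eig N (fun l => l + 1) fun _ => c := fun l _ _ z _ => by
  simp [Tf_apply, add_smul]

/-- The representatives are permuted by the congruence subgroup. -/
theorem rP_perm (hl : l.Prime) (h : ¬ l ∣ N) (hg : G0 N g) : ∃ σ : Equiv.Perm (Option (Fin l)),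
    ∀ i, ∃ k, G0 N k ∧ rP l i * g = k * rP l (σ i) := by
  obtain ⟨σ, hσ⟩ := (isReps_rP hl).perm hg.1
  refine ⟨σ, fun i => (hσ i).imp fun k hk => ⟨⟨hk.1, ?_⟩, hk.2⟩⟩
  have c : IsCoprime (N : ℤ) l :=
    Nat.isCoprime_iff_coprime.2 ((Nat.Prime.coprime_iff_not_dvd hl).2 h).symm
  have e := congrFun (congrFun hk.2 1) 0
  have e1 : rP l i 1 1 * g 1 0 = k 1 0 * rP l (σ i) 0 0 := by
    generalize σ i = j at e
    rcases i with _ | i <;> rcases j with _ | j <;>
      simpa [rP, ut, Matrix.mul_apply, Fin.sum_univ_two] using e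
  refine IsCoprime.dvd_of_dvd_mul_right (z := rP l (σ i) 0 0) ?_ (e1 ▸ hg.2.mul_left _)
  rcases σ i with _ | j <;> simp [rP, ut, c, isCoprime_one_right]

theorem Tf_act (hl : l.Prime) (h : ¬ l ∣ N) (hg : G0 N g) : ∃ (σ : Equiv.Perm (Option (Fin l)))
    (k : Option (Fin l) → MZ), (∀ i, G0 N (k i)) ∧ ∀ i, ∀ z : ℂ, 0 < z.im →
      act (rP l i) (act g z) = act (k i) (act (rP l (σ i)) z) := by
  obtain ⟨σ, hσ⟩ := rP_perm hl h hg
  choose k h1 h2 using hσ
  exact ⟨σ, k, h1, fun i z hz => by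
    rw [← act_mul _ (hg.1 ▸ one_ne_zero) hz, h2, act_mul _ (rP_det_pos hl _).ne' hz]⟩

theorem inv0_hf (h : Inv0 N S) (ht : t ∈ HA N) : Inv0 N (hf V t S) := by
  revert S
  refine HA_ind (p := fun t => ∀ {S : ℂ → V}, Inv0 N S → Inv0 N (hf V t S)) ht
    (fun l hl e S h g hg z hz => ?_) (fun c S h g hg z hz => ?_)
    (fun s t _ _ h1 h2 S h g hg z hz => ?_) fun s t _ _ h1 h2 S h => ?_
  · obtain ⟨σ, k, h1, h2⟩ := Tf_act hl e hg
    rw [hf_tl, Tf_apply, Tf_apply, ← Equiv.sum_comp σ fun i => S (act (rP l i) z)]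
    exact sum_congr rfl fun i _ => by rw [h2 i z hz, h _ (h1 i) _ (rP_pos hl _ hz)]
  · rw [hf_int, hf_int, h g hg z hz]
  · rw [hf_add, hf_add, h1 h g hg z hz, h2 h g hg z hz]
  · rw [hf_mul]
    exact h1 (h2 h)

theorem tendsto_scale {r : ℝ} (hr : 0 < r) : Tendsto (fun z : ℂ => r * z) atI atI := by
  simpa using tendsto_affine hr 0

theorem tendsto_rP (hl : l.Prime) (i : Option (Fin l)) : Tendsto (act (rP l i)) atI atI := by
  have l0 : (0 : ℝ) < l := by exact_mod_cast hl.pos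
  rcases i with _ | j
  · simpa [← act_none] using tendsto_affine l0 0
  · convert tendsto_affine (inv_pos.2 l0) ((j : ℕ) / l) using 2 with z
    rw [act_rP_some]
    push_cast
    ring

theorem Ci.lim (hN : N ≠ 0) (h : Ci N G) (hg : g.det = 1) :
    ∃ c, Tendsto (fun z => G (act g z)) atI (𝓝 c) := by
  obtain ⟨A, hA⟩ := h.cusp g hg
  have n0 : (0 : ℝ) < N := by positivity
  refine ⟨_, (hA.tendsto.comp (tendsto_scale (inv_pos.2 n0))).congr fun z => ?_⟩
  have : (N : ℂ) ≠ 0 := by exact_mod_cast hN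
  simp [mul_inv_cancel_left₀ this]

theorem hol_act (h : Hol G) (hg : 0 < g.det) : Hol fun z => G (act g z) :=
  h.comp_mob (by rwa [Matrix.det_fin_two] at hg)

theorem conj_mem (hg : g.det = 1) : G0 N (g * ut 1 N 1 * g.adjugate) ∧ ∀ z : ℂ, 0 < z.im →
    act (g * ut 1 N 1 * g.adjugate) (act g z) = act g (z + N) := by
  refine ⟨⟨by simp [hg, det_ut, det_adjugate_two], -g 1 0 ^ 2, ?_⟩, fun z hz => ?_⟩
  · simp [ut, Matrix.mul_apply, Matrix.adjugate_fin_two]
    ring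
  · rw [← act_mul _ (by omega) hz, mul_assoc _ _ g, Matrix.adjugate_mul, hg, one_smul, mul_one,
      act_mul _ (by simp [det_ut]) hz]
    simp [ut, act_of, mob]

theorem Ci.of_lim (hN : N ≠ 0) (h1 : Hol G)
    (h2 : ∀ g, G0 N g → ∃ c, ∀ z : ℂ, 0 < z.im → G (act g z) = G z + c)
    (h3 : ∀ g : MZ, g.det = 1 → ∃ c, Tendsto (fun z => G (act g z)) atI (𝓝 c)) : Ci N G := by
  refine ⟨h1, h2, fun g hg => ?_⟩
  have n0 : (0 : ℝ) < N := by positivity
  have p : ∀ z : ℂ, 0 < z.im → 0 < ((N : ℂ) * z).im := fun z hz => by simpa using mul_pos n0 hz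
  obtain ⟨c, hc⟩ := h3 g hg
  obtain ⟨k1, k2⟩ := conj_mem (N := N) hg
  obtain ⟨e, he⟩ := h2 _ k1
  have k3 : ∀ z : ℂ, 0 < z.im → G (act g (z + N)) = G (act g z) + e := fun z hz => by
    rw [← k2 z hz, he _ (act_pos (by omega) hz)]
  obtain rfl : e = 0 := by
    have t1 := hc.comp (show Tendsto (fun z : ℂ => z + N) atI atI by
      simpa using tendsto_affine one_pos N)
    exact left_eq_add.1 (tendsto_nhds_unique t1
      ((hc.add_const e).congr' (ev_pos.mono fun z hz => (k3 z hz).symm))) 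
  refine QE.exists_of_periodic (fun z hz => ?_) (fun z hz => ?_)
    (.of_tendsto (c := c) (by simpa [Function.comp_def] using hc.comp (tendsto_scale n0)))
  · exact (hol_act h1 (g := g) (by omega) _ (p z hz)).comp z (differentiableAt_id.const_mul _)
  · rw [mul_add, mul_one, k3 _ (p z hz), add_zero]

theorem Ci.congr (h : Ci N G) (hN : N ≠ 0) (e : ∀ z : ℂ, 0 < z.im → G' z = G z) : Ci N G' := by
  refine .of_lim hN (fun z hz => (h.hol z hz).congr_of_eventuallyEq ?_) (fun g hg => ?_)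
    fun g hg => (h.lim hN hg).imp fun c hc => hc.congr' (ev_pos.mono fun z hz => ?_)
  · filter_upwards [(isOpen_lt continuous_const continuous_im).mem_nhds hz] using e
  · exact (h.inv g hg).imp fun c hc z hz => by
      rw [e _ (act_pos (hg.1 ▸ one_pos) hz), e z hz, hc z hz]
  · exact (e _ (act_pos (hg ▸ one_pos) hz)).symm

theorem ci_const (N : ℕ) (c : ℂ) : Ci N fun _ => c :=
  ⟨fun _ _ => differentiableAt_const _, fun _ _ => ⟨0, fun _ _ => (add_zero _).symm⟩,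
    fun _ _ => ⟨_, QE.const c⟩⟩

theorem Ci.add (h : Ci N G) (h' : Ci N G') : Ci N fun z => G z + G' z := by
  refine ⟨fun z hz => (h.hol z hz).add (h'.hol z hz), fun g hg => ?_, fun g hg => ?_⟩
  · obtain ⟨c, hc⟩ := h.inv g hg
    obtain ⟨c', hc'⟩ := h'.inv g hg
    exact ⟨c + c', fun z hz => by rw [hc z hz, hc' z hz]; ring⟩
  · obtain ⟨A, hA⟩ := h.cusp g hg
    obtain ⟨B, hB⟩ := h'.cusp g hg
    exact ⟨_, hA.add hB⟩

theorem Ci.smul (h : Ci N G) (k : ℂ) : Ci N fun z => k * G z :=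
  ⟨fun z hz => (h.hol z hz).const_mul k, fun g hg => (h.inv g hg).elim fun c hc =>
    ⟨k * c, fun z hz => by rw [hc z hz, mul_add]⟩,
    fun g hg => (h.cusp g hg).elim fun _ hA => ⟨_, hA.smul k⟩⟩

theorem Ci.Tf (hN : N ≠ 0) (hl : l.Prime) (e : ¬ l ∣ N) (h : Ci N G) : Ci N (Tf ℂ l G) := by
  refine .of_lim hN (fun z hz => ?_) (fun g hg => ?_) fun g hg => ?_
  · exact DifferentiableAt.fun_sum (u := univ) fun i _ => hol_act h.hol (rP_det_pos hl i) z hz
  · obtain ⟨σ, k, h1, h2⟩ := Tf_act hl e hg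
    choose c hc using fun i => h.inv _ (h1 i)
    refine ⟨∑ i, c i, fun z hz => ?_⟩
    rw [Tf_apply, Tf_apply, ← Equiv.sum_comp σ fun i => G (act (rP l i) z), ← sum_add_distrib]
    exact sum_congr rfl fun i _ => by rw [h2 i z hz, hc i _ (rP_pos hl _ hz)]
  · obtain ⟨σ, k, h1, h2⟩ := Tf_act (N := 1) hl hl.not_dvd_one ⟨hg, one_dvd _⟩
    choose c hc using fun i => h.lim hN (h1 i).1
    refine ⟨_, (tendsto_finsetSum univ fun i _ => (hc i).comp (tendsto_rP hl (σ i))).congr'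
      (ev_pos.mono fun z hz => ?_)⟩
    simp only [Tf_apply, h2 _ z hz, Function.comp]

theorem Ci.hf (hN : N ≠ 0) (h : Ci N G) (ht : t ∈ HA N) : Ci N (hf ℂ t G) := by
  revert G
  refine HA_ind (p := fun t => ∀ {G : ℂ → ℂ}, Ci N G → Ci N (G5.hf ℂ t G)) ht
    (fun l hl e G h => ?_) (fun c G h => ?_) (fun s t _ _ h1 h2 G h => ?_)
    fun s t _ _ h1 h2 G h => ?_
  · rw [hf_tl]
    exact h.Tf hN hl e
  · exact (h.smul c).congr hN fun z _ => by rw [hf_int, zsmul_eq_mul]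
  · exact ((h1 h).add (h2 h)).congr hN fun z _ => hf_add _ _ _ _
  · rw [hf_mul]
    exact h1 (h2 h)

theorem g0_T (N : ℕ) : G0 N (ut 1 1 1) := ⟨by simp [det_ut], by simp [ut]⟩

theorem act_T (z : ℂ) : act (ut 1 1 1) z = z + 1 := by simp [ut, act_of, mob]

theorem inv0_per {α : Type*} {S : ℂ → α} (h : Inv0 N S) (hz : 0 < z.im) : S (z + 1) = S z :=
  act_T z ▸ h _ (g0_T N) z hz

/-- A function with periods in a lattice has constant periods. -/
theorem ci_of_per {L : PeriodPair} (h1 : Hol G) (h2 : PerL N L G)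
    (h3 : ∀ g : MZ, g.det = 1 → ∃ A, QE (fun z => G (act g (N * z))) A) : Ci N G := by
  refine ⟨h1, fun g hg => ⟨G (act g I) - G I, fun z hz => ?_⟩, h3⟩
  have c : ContinuousOn (fun z => G (act g z) - G z) {z : ℂ | 0 < z.im} := fun z hz =>
    ((hol_act h1 (hg.1 ▸ one_pos) z hz).sub (h1 z hz)).continuousAt.continuousWithinAt
  have d : IsDiscrete (L.lattice : Set ℂ) := ⟨inferInstanceAs (DiscreteTopology L.lattice)⟩
  have := (convex_halfSpace_im_gt 0).isPreconnected.constant_of_mapsTo d c (h2 g hg) hz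
    (show 0 < I.im by simp)
  rw [← this]
  ring

variable {W : WeierstrassCurve ℚ} (P : Par W N)

theorem par_ci : Ci N P.F := ci_of_per P.qe.hol P.inv P.cusp

theorem par_eig : Eig N P.a P.F := fun l hl h z hz => by
  rw [Tf_apply, P.hecke l hl h z hz, zsmul_eq_mul]

theorem par_eig_φ : Eig N P.a P.φ := fun _ hl h _ hz => P.φ_hecke hl h hz

theorem par_ne : ∃ z z' : ℂ, 0 < z.im ∧ 0 < z'.im ∧ P.F z ≠ P.F z' := by
  by_contra! h
  have e := P.qe.unique (QE.const (P.F I)) fun z hz => h z I hz (by simp)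
  refine P.A1 (PowerSeries.ext fun n => ?_)
  rcases n with _ | n
  · simpa using P.A0
  · simpa using congrArg (PowerSeries.coeff (n + 1)) e

end Pool.Agent.G5
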