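import Pool.Agent.Lib.MP_696deb_nt.B5.PJ6
import Pool.Agent.Lib.MP_696deb_nt.B5.ZHa
import Pool.Agent.Lib.MP_696deb_nt.B5.Z2
import Pool.Agent.Lib.MP_696deb_nt.B4.FIa

/-! The projector for a newform, in its own level and in a raised level. -/

set_option autoImplicit false

open PowerSeries Filter Topology
open scoped Real

namespace Pool.Agent.G5

open Pool.Agent.Lib.MP_696deb_nt Pool.Agent.B4.GE Pool.Agent.B5

variable {N S r : ℕ} {W : WeierstrassCurve ℚ}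

theorem md_der (D : MD W N) : Der D.par.F fun z => D.k * (2 * π * Complex.I) * B4.cf D.f z :=
  fun z hz => by
  have := (B4.gl_deriv D.qe D.S0 hz).const_mul (D.k : ℂ)
  rw [← D.F_eq, ← mul_assoc] at this
  exact this

theorem md_der_V (D : MD W N) (hr : r ≠ 0) : Der (fun z => D.par.F (r * z))
    fun z => D.k * (2 * π * Complex.I) * r * B4.cf D.f (r * z) := fun z hz => by
  have r0 : (0 : ℝ) < r := by exact_mod_cast Nat.pos_of_ne_zero hr
  convert! (md_der D (r * z) (by simpa using mul_pos r0 hz)).comp z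
    ((hasDerivAt_id z).const_mul (r : ℂ)) using 1
  ring

theorem md_eg (D : MD W N) (hNS : N ∣ S) : Eg N S (fun l => D.c l) (B4.cf D.f) :=
  ⟨md_mk D, md_cu D, fun _ hl h _ hz => md_Tl D hl (fun k => absurd (k.trans hNS) h) hz⟩

theorem md_tors (D : MD W N) : IsOfFinAddOrder (D.par.per.unif D.par.t0) := by
  obtain ⟨l, h1, hl⟩ := Nat.exists_infinite_primes (N + 1)
  have h : ¬ l ∣ N := Nat.not_dvd_of_pos_of_lt (Nat.pos_of_ne_zero D.N0) h1
  exact isOfFinAddOrder_iff_zsmul_eq_zero.2 ⟨_, (sub_pos.2 (lt_of_abs_lt (md_abs_lt D hl h))).ne',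
    D.par.t0_kill hl h⟩

theorem Nw.up {D : MD W N} (h : Nw D) (r : ℕ) (hr : r.Prime) (k : r ∣ N) : ∃ c : ℂ, c ^ 2 = 1 ∧
    ∀ z : ℂ, 0 < z.im → Tl N r (B4.cf D.f) z = c * B4.cf D.f z :=
  ⟨D.c r, by exact_mod_cast (h r hr k).1, fun _ hz => md_Tl D hr (fun _ => (h r hr k).2) hz⟩

theorem md_k (D : MD W N) : (D.k : ℂ) * (2 * π * Complex.I) ≠ 0 :=
  mul_ne_zero (Rat.cast_ne_zero.2 D.hk) Complex.two_pi_I_ne_zero

theorem md_one (D : MD W N) : coeff 1 D.S = 1 := by simp [MD.S, D.hc]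

theorem Nw.prj {D : MD W N} (h : Nw D) (hN : Squarefree N) (hS : S ≠ 0) (hNS : N ∣ S) :
    ∃ t ∈ HA S, he D.c t ≠ 0 ∧ Prj N D.par.F 0 t := by
  obtain ⟨t, ht, h1, h2⟩ := prj_eig D.N0 hNS D.c
  refine ⟨t, ht, h1, fun G hG => ?_⟩
  obtain ⟨v, h3, h4⟩ := h2 G _ hG fun z hz => (hG.hol z hz).hasDerivAt
  obtain ⟨κ, hκ⟩ := mult_one_new hN hS hNS (md_eg D hNS) h3 D.qe (md_one D) h.up
  obtain ⟨c, hc⟩ := const_of_deriv
    (G := fun z => hf ℂ t G z - κ / (D.k * (2 * π * Complex.I)) * D.par.F z) fun z hz => by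
      convert! (h4 z hz).fun_sub
        ((md_der D z hz).const_mul (κ / (D.k * (2 * π * Complex.I)))) using 1
      rw [hκ z hz, ← mul_assoc, div_mul_cancel₀ _ (md_k D), sub_self]
  exact ⟨κ / (D.k * (2 * π * Complex.I)), 0, c, fun z hz => by rw [← hc z hz]; ring⟩

/-- The projector in the raised level. -/
theorem prj_raise {D : MD W N} (h : Nw D) (hN : Squarefree N) (hr : r.Prime) (k : ¬ r ∣ N)
    (hS : S ≠ 0) (hNS : N * r ∣ S) {F₁ F₂ : ℂ → ℂ}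
    (e₁ : ∀ z, F₁ z = D.par.F z + D.par.F (r * z)) (e₂ : ∀ z, F₂ z = D.par.F z - D.par.F (r * z)) :
    ∃ t ∈ HA S, he D.c t ≠ 0 ∧ Prj (N * r) F₁ F₂ t := by
  obtain ⟨t, ht, h1, h2⟩ := prj_eig (mul_ne_zero D.N0 hr.ne_zero) hNS D.c
  refine ⟨t, ht, h1, fun G hG => ?_⟩
  obtain ⟨v, h3, h4⟩ := h2 G _ hG fun z hz => (hG.hol z hz).hasDerivAt
  obtain ⟨κ, κ', hκ⟩ := mult_one_old
    ((Nat.squarefree_mul (hr.coprime_iff_not_dvd.2 k).symm).2 ⟨hN, hr.squarefree⟩) hr hS hNS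
    (md_eg D ((dvd_mul_right _ _).trans hNS)) h3 D.qe (md_one D) h.up
  have r0 : (r : ℂ) ≠ 0 := Nat.cast_ne_zero.2 hr.ne_zero
  obtain ⟨x, hx⟩ : ∃ x, κ = x * (D.k * (2 * π * Complex.I)) :=
    ⟨_, (div_mul_cancel₀ _ (md_k D)).symm⟩
  obtain ⟨y, hy⟩ : ∃ y, κ' = y * (D.k * (2 * π * Complex.I) * r) :=
    ⟨_, (div_mul_cancel₀ _ (mul_ne_zero (md_k D) r0)).symm⟩
  obtain ⟨c, hc⟩ := const_of_deriv
    (G := fun z => hf ℂ t G z - (x * D.par.F z + y * D.par.F (r * z))) fun z hz => by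
      convert! (h4 z hz).fun_sub (((md_der D z hz).const_mul x).fun_add
        ((md_der_V D hr.ne_zero z hz).const_mul y)) using 1
      rw [hκ z hz, hx, hy]
      ring
  exact ⟨(x + y) / 2, (x - y) / 2, c, fun z hz => by rw [← hc z hz, e₁, e₂]; ring⟩

theorem Nw.al {D : MD W N} (h : Nw D) (hN : Squarefree N) {p : ℕ} (hp : p.Prime) (k : p ∣ N)
    {w : MZ} (hw : AL N p w) :
    ∃ c, ∀ z : ℂ, 0 < z.im → D.par.F (act w z) = (-D.c p : ℤ) * D.par.F z + c := by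
  obtain ⟨c, hc⟩ := const_of_deriv
    (G := fun z => D.par.F (act w z) - (-D.c p : ℤ) * D.par.F z) fun z hz => by
      convert! ((md_der D).act (hw.pos hp.ne_zero) z hz).fun_sub
        ((md_der D z hz).const_mul ((-D.c p : ℤ) : ℂ)) using 1
      have := hw.sign' hN hp k (md_mk D) (c := D.c p) (by exact_mod_cast (h p hp k).1)
        (fun _ hz => md_Tl D hp (fun _ => (h p hp k).2) hz) hz
      simp only [sk_cmul, hw.det]
      push_cast
      linear_combination -(D.k * (2 * π * Complex.I)) * this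
  exact ⟨c, fun z hz => by rw [← hc z hz, add_sub_cancel]⟩

theorem pr_stmt : PRStmt := fun W N D hN h => by
  refine ⟨md_tors D, fun p hp k => ⟨ci_const N 0, fun _ _ _ _ => by simp, fun l _ _ z _ => by simp,
    ?_, fun M M0 => h.prj hN (mul_ne_zero D.N0 M0) (dvd_mul_right _ _)⟩⟩
  obtain ⟨w, hw⟩ := sqf_AL hN
  have a := hw p hp k
  obtain ⟨c, hc⟩ := h.al hN hp k a
  refine ⟨w p, -D.c p, c, 0, ⟨a.det, a.a, a.c, a.d⟩, ?_, fun z hz => ⟨hc z hz, by simp⟩⟩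
  rcases sq_eq_sq_iff_eq_or_eq_neg.1 ((h p hp k).1.trans (one_pow 2).symm) with e | e <;> simp [e]

end Pool.Agent.G5
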