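import Pool.Agent.Lib.MP_696deb_nt.B5.LRa
import Pool.Agent.Lib.MP_696deb_nt.B5.PRa

/-! Raising the level: the final statement. -/

set_option autoImplicit false

namespace Pool.Agent.G5

theorem pjr_stmt : PJRStmt := by
  intro W N r D hN hD hr h M hM
  obtain ⟨t, h1, h2, h3⟩ := prj_raise hD hN hr h
    (mul_ne_zero (mul_ne_zero D.N0 hr.ne_zero) hM) (dvd_mul_right _ M) (fun _ => rfl) fun _ => rfl
  refine ⟨t, h1, h2, fun G hG => ?_⟩
  obtain ⟨κ, κ₂, c, e⟩ := h3 G hG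
  exact ⟨κ + κ₂, κ - κ₂, c, fun z hz => by rw [e z hz]; ring⟩

theorem lr_stmt' : LRStmt := lr_stmt pr_stmt pjr_stmt

end Pool.Agent.G5
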