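import Pool.Agent.Lib.MP_696deb_nt.B5.AL

/-! The strict trivial bound for eigenvalues of Hecke operators on cusp forms. -/

set_option autoImplicit false

open PowerSeries Filter Topology
open scoped Real MatrixGroups UpperHalfPlane

namespace Pool.Agent.B5

open Pool.Agent.Lib.MP_696deb_nt Pool.Agent.B4.GE Pool.Agent.Lib.MP_696deb_nt.B4

variable {N l : ℕ} {G : ℂ → ℂ} {B : ℂ⟦X⟧} {g : MZ} {z c : ℂ}

/-- The invariant size of a form of weight two. -/
noncomputable def sz (G : ℂ → ℂ) (z : ℂ) : ℝ := ‖G z‖ * z.im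

theorem sz_act (hg : g.det ≠ 0) (hz : 0 < z.im) : sz G (act g z) = g.det * sz (sk 2 g G) z := by
  have := norm_ne_zero_iff.2 (den_ne' hg hz)
  rw [sz, sz, sk, act, im_mob, norm_div, norm_pow, Matrix.det_fin_two]
  simp only [den] at this ⊢
  push_cast
  field_simp

theorem sz_tendsto_of_qe (h : QE G B) (h0 : coeff 0 B = 0) : Tendsto (sz G) atI (𝓝 0) := by
  obtain ⟨B, rfl⟩ := X_dvd_iff.2 (by simpa using h0 : constantCoeff B = 0)
  have h1 := (QE.of_X_pow_mul (m := 1) (B := B) (by simpa using h)).tendsto.norm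
  have h2 : Tendsto (fun z : ℂ => (2 * π)⁻¹ * ((2 * π * z.im) ^ 1 * Real.exp (-(2 * π * z.im))))
      atI (𝓝 ((2 * π)⁻¹ * 0)) := ((Real.tendsto_pow_mul_exp_neg_atTop_nhds_zero 1).comp
    (tendsto_comap.const_mul_atTop (by positivity))).const_mul _
  have := h1.mul h2
  simp only [mul_zero] at this
  refine this.congr fun z => ?_
  have := Real.exp_pos (-2 * π * z.im)
  rw [norm_div, pow_one, norm_q1, sz, ← neg_mul, ← neg_mul]
  field_simp

theorem Mk.sz_tendsto (hN : N ≠ 0) (hG : Mk N 2 G) (hC : Cu G) (hg : g.det = 1) :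
    Tendsto (sz (sk 2 g G)) atI (𝓝 0) := by
  have N0 : (0 : ℝ) < N := by exact_mod_cast Nat.pos_of_ne_zero hN
  have N1 : (N : ℂ) ≠ 0 := by exact_mod_cast hN
  obtain ⟨B, hB⟩ := hG.qe_cusp hN hg
  have h1 := (sz_tendsto_of_qe hB (tendsto_nhds_unique hB.tendsto (by
    simpa [sk, Function.comp_def] using (hC g hg).comp (tendsto_affine N0 0)))).comp
    (tendsto_affine (inv_pos.2 N0) 0) |>.const_mul (N : ℝ)
  rw [mul_zero] at h1
  refine h1.congr fun z => ?_
  simp [sz, N1]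
  field_simp

theorem Mk.exists_max (hN : N ≠ 0) (hG : Mk N 2 G) (hC : Cu G) :
    ∃ z : ℂ, 0 < z.im ∧ ∀ w : ℂ, 0 < w.im → sz G w ≤ sz G z := by
  by_cases h : ∀ w : ℂ, 0 < w.im → sz G w ≤ sz G Complex.I
  · exact ⟨_, by simp, h⟩
  push Not at h
  obtain ⟨z1, p1, h1⟩ := h
  replace h1 : 0 < sz G z1 := lt_of_le_of_lt (by simp [sz]) h1
  obtain ⟨μ, hμ⟩ := idx_sq hN
  obtain ⟨ι, _, r, i₀, -, r1, r2, r3⟩ := hμ.reps
  have red : ∀ w : ℂ, 0 < w.im → ∃ i, ∃ τ ∈ ModularGroup.fd, sz G w = sz (sk 2 (r i) G) (τ : ℍ) :=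
    fun w hw => by
      obtain ⟨γ, hγ⟩ := ModularGroup.exists_smul_mem_fd ⟨w, hw⟩
      obtain ⟨σ, hσ⟩ := r3 (γ⁻¹).1 (γ⁻¹).2
      obtain ⟨h, k1, k2⟩ := hσ i₀
      refine ⟨σ i₀, _, hγ, ?_⟩
      have e : w = act (γ⁻¹).1 (γ • (⟨w, hw⟩ : ℍ) : ℍ) := by
        rw [act, ← coe_smul_eq_mob, inv_smul_smul]
      have p := (γ • (⟨w, hw⟩ : ℍ)).2
      rw [congrArg (sz G) e, sz_act ((γ⁻¹).2.trans_ne one_ne_zero) p, (γ⁻¹).2, Int.cast_one, one_mul, sz, sz,
        ← hG.sk_mul_eq k1 (one_pos.trans_eq (r1 _).symm) p, ← k2,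
        hG.sk_mul_eq r2 (one_pos.trans_eq (γ⁻¹).2.symm) p]
  obtain ⟨Y, hY⟩ : ∃ Y : ℝ, ∀ z : ℂ, Y ≤ z.im → ∀ i, sz (sk 2 (r i) G) z < sz G z1 := by
    have := eventually_all.2 fun i => (hG.sz_tendsto hN hC (r1 i)).eventually (gt_mem_nhds h1)
    simpa only [eventually_comap, eventually_atTop, ge_iff_le, forall_exists_index, and_imp,
      forall_apply_eq_imp_iff, forall_eq'] using this.exists_mem.elim fun s hs => by
        obtain ⟨t, ht, hs'⟩ := mem_comap.1 hs.1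
        obtain ⟨Y, hY⟩ := mem_atTop_sets.1 ht
        exact ⟨Y, fun z hz => hs.2 z (hs' (hY _ hz))⟩
  obtain ⟨i1, τ1, t1, t2⟩ := red z1 p1
  have mem : ∀ i (τ : ℍ), τ ∈ ModularGroup.fd → sz G z1 ≤ sz (sk 2 (r i) G) τ →
      τ ∈ ModularGroup.truncatedFundamentalDomain Y := fun i τ h k =>
    ⟨h, le_of_not_ge fun k' => (hY τ k' i).not_ge k⟩
  have cont : ∀ i, Continuous fun τ : ℍ => sz (sk 2 (r i) G) τ := fun i => by
    have : Continuous fun τ : ℍ => sk 2 (r i) G τ := continuous_iff_continuousAt.2 fun τ =>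
      ContinuousAt.comp (g := sk 2 (r i) G) (hol_sk hG.hol (one_pos.trans_eq (r1 i).symm) τ
        τ.coe_im_pos).continuousAt UpperHalfPlane.continuous_coe.continuousAt
    exact this.norm.mul (Complex.continuous_im.comp UpperHalfPlane.continuous_coe)
  choose m m1 m2 using fun i => (ModularGroup.isCompact_truncatedFundamentalDomain Y).exists_isMaxOn
    ⟨τ1, mem i1 τ1 t1 t2.le⟩ (cont i).continuousOn
  have : Nonempty ι := ⟨i₀⟩
  obtain ⟨j, hj⟩ := Finite.exists_max fun i => sz (sk 2 (r i) G) (m i)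
  have key : ∀ w : ℂ, 0 < w.im → sz G z1 ≤ sz G w → sz G w ≤ sz (sk 2 (r j) G) (m j) :=
    fun w hw k => by
      obtain ⟨i, τ, k1, k2⟩ := red w hw
      exact k2.trans_le ((m2 i (mem i τ k1 (k2 ▸ k))).trans (hj i))
  refine ⟨act (r j) (m j), mh_pos (r1 j) (m j).2, fun w hw => ?_⟩
  rw [sz_act ((r1 j).trans_ne one_ne_zero) (m j).2, r1, Int.cast_one, one_mul]
  exact (le_total _ _).elim (key w hw) fun k => k.trans (key z1 p1 le_rfl)

/-- The strict bound for eigenvalues. -/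
theorem Mk.eigen_lt (hN : N ≠ 0) (hG : Mk N 2 G) (hC : Cu G) (hl : l.Prime) (h : ¬ l ∣ N)
    (hT : ∀ z : ℂ, 0 < z.im → B5.Tl N l G z = c * G z) (hz : 0 < z.im) (h0 : G z ≠ 0) :
    ‖c‖ < l + 1 := by
  by_contra! hc
  obtain ⟨w, hw, hm⟩ := hG.exists_max hN hC
  have l0 : (0 : ℝ) < l := Nat.cast_pos.2 hl.pos
  have pos : 0 < sz G w := (mul_pos (norm_pos_iff.2 h0) hz).trans_le (hm z hz)
  have step : ∀ z : ℂ, 0 < z.im → sz G w ≤ sz G z → sz G w ≤ sz G (l * z) := fun z hz k => by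
    have e : ∀ i, ‖(tw N l i : ℂ) * sk 2 (rP l i) G z‖ * z.im = sz G (act (rP l i) z) := fun i => by
      rw [sz_act (det_rP_pos hl i).ne' hz, det_rP hl, norm_mul, sz, mul_assoc]
      simp [tw, h]
    have k1 : ‖c‖ * sz G z ≤ ∑ i, sz G (act (rP l i) z) := by
      rw [sz, ← mul_assoc, ← norm_mul, ← hT z hz, B5.Tl]
      simp only [← e, ← Finset.sum_mul]
      exact mul_le_mul_of_nonneg_right (norm_sum_le _ _) hz.le
    have k2 : ∑ j : Fin l, sz G (act (rP l (some j)) z) ≤ l * sz G w := by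
      simpa using Finset.sum_le_card_nsmul Finset.univ _ _ fun (j : Fin l) _ =>
        hm _ (act_pos (det_rP_pos hl (some j)) hz)
    rw [Fintype.sum_option, act_none] at k1
    nlinarith [mul_le_mul hc k pos.le (norm_nonneg c)]
  have key : ∀ k : ℕ, sz G w ≤ sz G ((l ^ k : ℕ) * w) := fun k => by
    induction k with
    | zero => simp
    | succ k ih =>
      rw [pow_succ', Nat.cast_mul, mul_assoc]
      exact step _ (im_V (pow_ne_zero k hl.ne_zero) hw) ih
  have t : Tendsto (fun k : ℕ => ((l ^ k : ℕ) : ℂ) * w) atTop atI := by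
    refine tendsto_comap_iff.2 (((tendsto_pow_atTop_atTop_of_one_lt (r := (l : ℝ))
      (by exact_mod_cast hl.one_lt)).atTop_mul_const hw).congr fun k => ?_)
    simp only [Function.comp, Complex.mul_im, Complex.natCast_re, Complex.natCast_im, zero_mul,
      add_zero]
    push_cast
    rfl
  have t1 := hG.sz_tendsto hN hC Matrix.det_one
  rw [show sk 2 1 G = G from funext fun z => by simp [sk, act_one, den_one]] at t1
  exact pos.not_ge (ge_of_tendsto' (t1.comp t) key)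

theorem md_abs_lt {E : WeierstrassCurve ℚ} (D : MD E N) (hl : l.Prime) (h : ¬ l ∣ N) :
    |D.c l| < l + 1 := by
  obtain ⟨z, hz, h0⟩ : ∃ z : ℂ, 0 < z.im ∧ cf D.f z ≠ 0 := by
    by_contra! k
    have := congrArg (coeff 1) (D.qe.unique (QE.const 0) k)
    simp [MD.S, D.hc] at this
  have := (md_mk D).eigen_lt D.N0 (md_cu D) hl h (fun _ hz => md_Tl D hl (absurd · h) hz) hz h0
  rw [Complex.norm_intCast] at this
  exact_mod_cast this

end Pool.Agent.B5
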