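import Pool.Agent.Lib.MP_696deb_nt.B5.Z3
import Pool.Agent.Lib.MP_696deb_nt.B5.WPa
import Pool.Agent.Lib.MP_696deb_nt.B5.MX

/-! Change of orientation of a special divisor. -/

set_option autoImplicit false

open Finset NumberTheorySymbols
open scoped Classical

namespace Pool.Agent.G5

open Pool.Agent.Lib.MP_696deb_nt Pool.Agent.B4.GE Pool.Agent.Shared.Weier

variable {W : WeierstrassCurve ℚ} {N p l B : ℕ} {w : MZ} {s e ρ ρ' : ℤ} {c z : ℂ}
  {T T' : Finset Fm}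

theorem ALm.nrm (h : ALm N p w) (hp : p ≠ 0) (hN : p ∣ N) : B5.Nrm N w := by
  obtain ⟨M, rfl⟩ := exists_eq_mul_left_of_dvd hN
  exact B5.AL.nrm ⟨h.det, h.a, h.c, h.d⟩ hp

/-- The involutions permute the representatives of the Hecke correspondence. -/
theorem nrm_perm (hW : B5.Nrm N w) (hl : l.Prime) (hN : ¬ l ∣ N) :
    ∃ σ : Option (Fin l) → Option (Fin l), Function.Bijective σ ∧
      ∀ i, ∃ h, G0 N h ∧ rP l i * w = h * (w * rP l (σ i)) := by
  have key : ∀ i, ∃ j h, G0 N h ∧ rP l i * w = h * (w * rP l j) := fun i => by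
    obtain ⟨M, h1, e⟩ := hW.right (rP l i) (by rcases i with _ | i <;> simp [rP, ut])
    have h2 : M.det = l := mul_left_cancel₀ hW.pos.ne' (by
      rw [← Matrix.det_mul, ← e, Matrix.det_mul, B5.det_rP hl, mul_comm])
    obtain ⟨j, g, h3, rfl⟩ := (isReps_rP hl).surj M h2
    have h4 : (g * rP l j) 1 0 = g 1 0 * rP l j 0 0 := by
      rcases j with _ | j <;> simp [rP, ut, Matrix.mul_apply, Fin.sum_univ_two]
    obtain ⟨h, h5, e'⟩ := hW.g0 ⟨h3, (B5.rP_cop hl hN j).1.dvd_of_dvd_mul_right (h4 ▸ h1)⟩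
    exact ⟨j, h, h5, by rw [e, ← mul_assoc, e', mul_assoc]⟩
  choose σ h h1 h2 using key
  refine ⟨σ, Finite.injective_iff_bijective.1 fun i j e => ?_, fun i => ⟨h i, h1 i, h2 i⟩⟩
  refine (isReps_rP hl).inj i j (h i * (h j).adjugate)
    (by rw [Matrix.det_mul, det_adjugate_two, (h1 i).1, (h1 j).1]; rfl) ?_
  have : rP l i * w = h i * (h j).adjugate * rP l j * w := by
    rw [mul_assoc, h2 j, ← mul_assoc, mul_assoc (h i), Matrix.adjugate_mul, (h1 j).1, one_smul,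
      mul_one, h2, e]
  have h3 := congrArg (· * w.adjugate) this
  simp only [mul_assoc _ w, Matrix.mul_adjugate, Matrix.mul_smul, mul_one] at h3
  exact smul_right_injective _ hW.pos.ne' h3

theorem alm_phi (P : Par W N) (h : ∀ z : ℂ, 0 < z.im → P.F (act w z) = s * P.F z + c)
    (hz : 0 < z.im) : P.φ (act w z) = s • P.φ z + P.per.unif c := by
  rw [Par.φ, h z hz, map_add, Par.φ, ← map_zsmul, zsmul_eq_mul]

/-- The constant of the involution is killed by `l + 1 - a l`. -/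
theorem alm_kill (P : Par W N) (hW : B5.Nrm N w)
    (h : ∀ z : ℂ, 0 < z.im → P.F (act w z) = s * P.F z + c) (hl : l.Prime) (hN : ¬ l ∣ N) :
    ((l : ℤ) + 1 - P.a l) • P.per.unif c = 0 := by
  obtain ⟨σ, hσ, k⟩ := nrm_perm hW hl hN
  have hz : 0 < Complex.I.im := by simp
  have h1 := P.φ_hecke hl hN (act_pos hW.pos hz)
  have h2 : ∀ i, P.φ (act (rP l i) (act w Complex.I)) =
      s • P.φ (act (rP l (σ i)) Complex.I) + P.per.unif c := fun i => by
    obtain ⟨g, g1, g2⟩ := k i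
    have d1 := B5.det_rP_pos hl (σ i)
    have d2 : 0 < (w * rP l (σ i)).det := by
      rw [Matrix.det_mul]
      exact mul_pos hW.pos d1
    rw [← act_mul _ hW.pos.ne' hz, g2, act_mul _ d2.ne' hz, P.inv0 g g1 _ (act_pos d2 hz),
      act_mul _ d1.ne' hz, alm_phi P h (act_pos d1 hz)]
  rw [sum_congr rfl fun i _ => h2 i, sum_add_distrib, ← smul_sum,
    hσ.sum_comp fun i => P.φ (act (rP l i) Complex.I), P.φ_hecke hl hN hz, alm_phi P h hz,
    smul_add, smul_comm s, add_right_inj, sum_const, card_univ, Fintype.card_option,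
    Fintype.card_fin, ← natCast_zsmul] at h1
  rw [sub_smul, ← h1, Nat.cast_succ, sub_self]

/-- The constant of the involution is a torsion point. -/
theorem alm_tors (D : MD W N) (hw : ALm N p w) (hp : p ≠ 0) (hN : p ∣ N)
    (h : ∀ z : ℂ, 0 < z.im → D.par.F (act w z) = s * D.par.F z + c) :
    IsOfFinAddOrder (D.par.per.unif c) := by
  obtain ⟨l, h1, hl⟩ := Nat.exists_infinite_primes (N + 1)
  have k : ¬ l ∣ N := Nat.not_dvd_of_pos_of_lt (Nat.pos_of_ne_zero D.N0) h1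
  exact isOfFinAddOrder_iff_zsmul_eq_zero.2
    ⟨_, (sub_pos.2 (lt_of_abs_lt (B5.md_abs_lt D hl k))).ne', alm_kill D.par (hw.nrm hp hN) h hl k⟩

theorem FReps.congr (h : FReps N e ρ T) (k : 2 * (N : ℤ) ∣ ρ - ρ') : FReps N e ρ' T := by
  have a : ∀ Q, Fam N e ρ Q ↔ Fam N e ρ' Q := fun Q =>
    and_congr_right fun _ => and_congr_right fun _ => by
      rw [← sub_add_sub_cancel Q.2.1 ρ ρ', dvd_add_left k]
  exact ⟨fun Q hQ => (a Q).1 (h.fam Q hQ), h.pos, fun Q hQ => h.ex Q ((a Q).2 hQ), h.uniq⟩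

theorem yP_eq (P : Par W N) (h : FReps N e ρ T) (h' : FReps N e ρ' T') (k : 2 * (N : ℤ) ∣ ρ - ρ')
    (ho : Odd B) (hd : (B : ℤ) ∣ e) (he : e < 0) : yP P B T' = yP P B T :=
  h'.sum_eq (h.congr k) _ fun Q R a b r => by
    rw [r.gch ho (a.2.1 ▸ hd), r.inv0 P.inv0 (a.2.1 ▸ he) b]

/-- The flip of the orientation at one prime. -/
theorem yG_flip (D : MD W N) (hp : p.Prime) (h2 : p ≠ 2) (hN : p ∣ N) (hC : Cp D.par 0 p)
    (hB : Squarefree B) (ho : Odd B) (hc : B.Coprime N) (hd : (B : ℤ) ∣ e) (he : e < 0)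
    (k1 : (p : ℤ) ∣ ρ' + ρ) (k2 : 2 * ((N / p : ℕ) : ℤ) ∣ ρ' - ρ) (hT : FReps N e ρ T)
    (hT' : FReps N e ρ' T') :
    ∃ s : ℤ, (s = 1 ∨ s = -1) ∧ IsOfFinAddOrder (yG D B T' - s • yG D B T) := by
  obtain ⟨w, s, c, c₂, hw, hs, h⟩ := hC.al
  have hJ : J(p | B) = 1 ∨ J(p | B) = -1 := jacobiSym.eq_one_or_neg_one (by
    simpa using (hc.coprime_dvd_right hN).symm)
  refine ⟨J(p | B) * s, by rcases hJ with a | a <;> rcases hs with b | b <;> simp [a, b], ?_⟩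
  have h1 : yG D B T' = J(p | B) • (s • yG D B T + (∑ Q ∈ T, gch B Q) • D.par.per.unif c) := by
    rw [yG, yP, hw.sum hp h2 hN he k1 k2 hT hT' hB ho hc hd D.par.inv0, yG, yP,
      smul_sum (r := s), Finset.sum_smul (R := ℤ) (M := Pt W ℂ), ← sum_add_distrib]
    refine congrArg _ (sum_congr rfl fun Q hQ => ?_)
    rw [alm_phi D.par (fun z hz => (h z hz).1)
      (im_froot_pos ((hT.fam Q hQ).2.1 ▸ he) (hT.pos Q hQ)), smul_add, smul_comm]
  rw [h1, smul_add, mul_smul, add_sub_cancel_left]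
  exact ((alm_tors D hw hp.ne_zero hN fun z hz => (h z hz).1).zsmul).zsmul

theorem or_stmt : ORStmt := by
  intro W N D B e ρ ρ' T T' hN hodd hC hB ho hc hd he hρ hρ' hT hT'
  suffices key : ∀ (S : Finset ℕ) (ρ : ℤ) (T : Finset Fm), 4 * (N : ℤ) ∣ ρ ^ 2 - e →
      FReps N e ρ T → (∀ q : ℕ, q.Prime → q ∣ N → q ∉ S → (q : ℤ) ∣ ρ - ρ') →
      ∃ s : ℤ, (s = 1 ∨ s = -1) ∧ IsOfFinAddOrder (yG D B T' - s • yG D B T) from
    key N.primeFactors ρ T hρ hT fun q h1 h2 h3 =>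
      absurd (Nat.mem_primeFactors.2 ⟨h1, h2, D.N0⟩) h3
  have sq : ∀ ρ : ℤ, 4 * (N : ℤ) ∣ ρ ^ 2 - e → 4 * (N : ℤ) ∣ (ρ - ρ') * (ρ + ρ') := fun ρ h =>
    (show ρ ^ 2 - e - (ρ' ^ 2 - e) = (ρ - ρ') * (ρ + ρ') by ring) ▸ h.sub hρ'
  intro S
  induction S using Finset.induction_on with
  | empty =>
    intro ρ T hρ hT h
    have h1 : (N : ℤ) ∣ ρ - ρ' := by
      rw [← Int.natAbs_dvd_natAbs, Int.natAbs_natCast, ← Nat.prod_primeFactors_of_squarefree hN]
      refine Finset.prod_primes_dvd _ (fun q hq => (Nat.prime_of_mem_primeFactors hq).prime)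
        fun q hq => Int.natCast_dvd.1
          (h q (Nat.prime_of_mem_primeFactors hq) (Nat.dvd_of_mem_primeFactors hq) (by simp))
    have h2 : (2 : ℤ) ∣ ρ - ρ' := by
      rcases Int.prime_two.dvd_or_dvd ((show (2 : ℤ) ∣ 4 * N from ⟨2 * N, by ring⟩).trans
        (sq ρ hρ)) with a | a <;> omega
    have h3 : IsCoprime (2 : ℤ) N :=
      Nat.isCoprime_iff_coprime.2 (Nat.coprime_two_left.2 hodd)
    refine ⟨1, Or.inl rfl, ?_⟩
    rw [yG, yP_eq D.par hT hT' (h3.mul_dvd h2 h1) ho hd he, one_smul, sub_self]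
    exact IsOfFinAddOrder.zero
  | insert p S _ ih =>
    intro ρ T hρ hT h
    by_cases k : p.Prime ∧ p ∣ N ∧ ¬ (p : ℤ) ∣ ρ - ρ'
    swap
    · refine ih ρ T hρ hT fun q h1 h2 h3 => ?_
      by_cases a : q = p
      · subst a
        exact by_contra fun b => k ⟨h1, h2, b⟩
      · exact h q h1 h2 (by simp [a, h3])
    obtain ⟨hp, ⟨M, rfl⟩, k⟩ := k
    have p2 : p ≠ 2 := fun a => Nat.not_even_iff_odd.2 hodd (a ▸ even_two_mul M)
    have k1 : (p : ℤ) ∣ ρ + ρ' := ((Nat.prime_iff_prime_int.1 hp).dvd_or_dvd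
      ((show (p : ℤ) ∣ 4 * (p * M : ℕ) from ⟨4 * M, by push_cast; ring⟩).trans
        (sq ρ hρ))).resolve_left k
    obtain ⟨u, v, uv⟩ : IsCoprime (p : ℤ) (2 * M) := IsCoprime.mul_right
      (Nat.isCoprime_iff_coprime.2 ((Nat.coprime_primes hp Nat.prime_two).2 p2))
      (Nat.isCoprime_iff_coprime.2 (Nat.coprime_of_squarefree_mul hN))
    obtain ⟨r, hr⟩ : ∃ r : ℤ, r = ρ - 2 * ρ * v * (2 * M) := ⟨_, rfl⟩
    have r1 : (p : ℤ) ∣ r + ρ := ⟨2 * ρ * u, by rw [hr]; linear_combination -2 * ρ * uv⟩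
    have r2 : 2 * (M : ℤ) ∣ r - ρ := ⟨-(2 * ρ * v), by rw [hr]; ring⟩
    obtain ⟨R, hR⟩ := exists_freps D.N0 he r
    obtain ⟨s, hs, h1⟩ := ih r R (by
      have : r ^ 2 - e = ρ ^ 2 - e + 4 * (p * M : ℕ) * -(2 * ρ ^ 2 * u * v) := by
        rw [hr]
        push_cast
        linear_combination 8 * ρ ^ 2 * v * M * uv
      rw [this]
      exact hρ.add (dvd_mul_right _ _)) hR fun q h1 h2 h3 => by
        by_cases a : q = p
        · subst a
          exact (show r + ρ - (ρ + ρ') = r - ρ' by ring) ▸ r1.sub k1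
        · rw [← sub_add_sub_cancel r ρ ρ']
          refine dvd_add (((Int.natCast_dvd_natCast.2 ?_).mul_left 2).trans r2)
            (h q h1 h2 (by simp [a, h3]))
          exact (h1.dvd_mul.1 h2).resolve_left fun b =>
            a ((Nat.prime_dvd_prime_iff_eq h1 hp).1 b)
    obtain ⟨t, ht, h2⟩ := yG_flip D hp p2 (dvd_mul_right p M) (hC p hp (dvd_mul_right p M)) hB ho
      hc hd he r1 (by rwa [Nat.mul_div_cancel_left _ hp.pos]) hT hR
    refine ⟨s * t, by rcases hs with a | a <;> rcases ht with b | b <;> simp [a, b], ?_⟩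
    have h3 := h1.add (h2.zsmul (i := s))
    rwa [smul_sub, sub_add_sub_cancel, ← mul_smul] at h3

end Pool.Agent.G5
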