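import Pool.Agent.Lib.MP_696deb_nt.B5.QPb
import Pool.Agent.Lib.MP_696deb_nt.HeightMain
import Pool.Agent.Lib.MP_696deb_nt.B4.GEb

/-! The expansion principle for every level, and the Gauss norm. -/

set_option autoImplicit false

open PowerSeries Filter Topology
open scoped Classical

namespace Pool.Agent.B5

open Pool.Agent.Lib.MP_696deb_nt Pool.Agent.B4.GE

variable {N : ℕ} {g : MZ} {F G : ℂ → ℂ}

theorem dl_act {d : ℕ} (hd : d ≠ 0) (hg : g.det = 1) : ∃ a b e : ℕ, a * e = d ∧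
    a = d.gcd (g 1 0).natAbs ∧ ∀ z : ℂ, 0 < z.im →
      d ^ 12 * Dl (d * act g z) = a ^ 12 * den g z ^ 12 * Dl (act (ut a b e) z) := by
  obtain ⟨a, b, e, k, h1, h2, h3⟩ := exists_dg hd hg
  have he : e ≠ 0 := right_ne_zero_of_mul (h1.trans_ne hd)
  have h4 : g 1 0 = k 1 0 * a := by simpa [ut, Matrix.mul_apply] using congrFun (congrFun h3 1) 0
  have h5 : d * g 0 0 = k 0 0 * a := by
    simpa [ut, Matrix.mul_apply] using congrFun (congrFun h3 0) 0
  refine ⟨a, b, e, h1, Nat.dvd_antisymm (Nat.dvd_gcd ⟨e, h1.symm⟩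
    (Int.natCast_dvd.1 ⟨k 1 0, by rw [h4, mul_comm]⟩)) (Int.natCast_dvd_natCast.1 ?_),
    fun z hz => ?_⟩
  · rw [Matrix.det_fin_two] at h2
    rw [show (a : ℤ) = k 1 1 * (d * g 0 0) - k 0 1 * g 1 0 by
      rw [h4, h5]; linear_combination -a * h2]
    exact ((Int.natCast_dvd_natCast.2 (Nat.gcd_dvd_left _ _)).mul_right _ |>.mul_left _).sub
      ((Int.natCast_dvd.2 (Nat.gcd_dvd_right _ _)).mul_left _)
  · have h6 : 0 < (ut a b e).det := by rw [det_ut]; exact_mod_cast Nat.pos_of_ne_zero (h1 ▸ hd)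
    have h7 := phi_mul (ut d 0 1) (N := g) (by omega) hz
    rw [h3, phi_mul _ h6 hz, phi_det_one h2 (act_pos h6 hz), phi_det_one hg hz, phi_ut he,
      phi_ut one_ne_zero, act_dg, Dl_act hg hz] at h7
    have := Dl_ne hz
    have := den_ne' (M := g) (by omega) hz
    field_simp at h7
    linear_combination -h7

theorem tendsto_dl_aff {a : ℕ} (ha : a ≠ 0) (c : ℚ) :
    Tendsto (fun z => Dl (aff a c z) / q1 z ^ a) atI (𝓝 (q1 ((c : ℝ) : ℂ))) := by
  have h := (qe_affine (n := 0) (F := fun z => eul (q1 z) ^ 24) (A := toC (P1 ^ 24))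
    (by simpa using qe_P1.pow 24) ha (c : ℝ)).tendsto.const_mul (q1 ((c : ℝ) : ℂ))
  rw [coeff_C_mul, coeff_expand, if_pos (dvd_zero _), Nat.zero_div, coeff_rescale, cc_toC] at h
  simp only [map_pow, cc_P1, pow_zero, one_pow, inv_one, Int.cast_one, mul_one, mul_zero,
    one_mul] at h
  refine h.congr fun z => ?_
  have := q1_ne z
  rw [Dl_eq, aff, q1_add, q1_nat_mul]
  field_simp

/-- The quotient of two values of the discriminant. -/
noncomputable def rD (d : ℕ) (z : ℂ) : ℂ := Dl z / Dl (d * z)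

/-- A modular unit which vanishes at the finite cusps. -/
noncomputable def uN (N : ℕ) (z : ℂ) : ℂ :=
  ∏ x ∈ N.divisorsAntidiagonal, rD x.2 z ^ (ArithmeticFunction.moebius x.1 * x.2 : ℤ)

theorem rD_act {d e : ℕ} (hd : d ≠ 0) (he : e ≠ 0) (hg : g.det = 1) : ∃ (κ : ℂ) (c : ℚ), κ ≠ 0 ∧
    ∀ z : ℂ, 0 < z.im → rD d (act g ((e * d : ℕ) * z)) =
      κ * (Dl (aff (e * d) 0 z) * (Dl (aff (d.gcd (g 1 0).natAbs ^ 2 * e) c z))⁻¹) := by
  have hN := mul_ne_zero he hd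
  obtain ⟨a₁, b₁, e₁, h₁, k₁, l₁⟩ := dl_act hd hg
  have d0 : (d : ℂ) ≠ 0 := by exact_mod_cast hd
  have a0 : (a₁ : ℂ) ≠ 0 := by exact_mod_cast left_ne_zero_of_mul (h₁.trans_ne hd)
  rw [← k₁]
  refine ⟨(d / a₁) ^ 12, b₁ / e₁, pow_ne_zero _ (div_ne_zero d0 a0), fun z hz => ?_⟩
  have z0 := ga_pos hN hz
  have m₁ := act_ut_aff (a := a₁) (b := b₁) (right_ne_zero_of_mul (h₁.trans_ne hd)) e z
  have k : aff (e * d) 0 z = (e * d : ℕ) * z := by simp [aff]
  rw [h₁, mul_comm d e, k, ← sq] at m₁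
  have := den_ne' (M := g) (by omega) z0
  rw [rD, Dl_act hg z0, (eq_div_iff (pow_ne_zero 12 d0)).2 ((mul_comm _ _).trans (l₁ _ z0)), m₁, k]
  field_simp

theorem dl_inv0 {d : ℕ} (hd : d ≠ 0) (h : d ∣ N) (hg : G0 N g) {z : ℂ} (hz : 0 < z.im) :
    Dl (d * act g z) = den g z ^ 12 * Dl (d * z) := by
  obtain ⟨a, b, e, h1, h2, h3⟩ := dl_act hd hg.1
  rw [Nat.gcd_eq_left (Int.natCast_dvd.1 ((Int.natCast_dvd_natCast.2 h).trans hg.2))] at h2
  subst h2
  obtain rfl : e = 1 := Nat.eq_of_mul_eq_mul_left (Nat.pos_of_ne_zero hd) (by omega)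
  have h4 := h3 z hz
  have h5 : act (ut a b 1) z = act (ut 1 b 1) (a * z) := by simp [ut, act_of, mob]
  rw [h5, Dl_act (by simp [det_ut]) (ga_pos hd hz), show den (ut 1 b 1) (a * z) = 1 by
    simp [den, ut], one_pow, one_mul, mul_assoc] at h4
  exact mul_left_cancel₀ (pow_ne_zero _ (by exact_mod_cast hd)) h4

theorem zpow_mem_LR {R : Subring ℂ} (h : F ∈ LR R) (h' : (fun z => (F z)⁻¹) ∈ LR R) (k : ℤ) :
    (fun z => F z ^ k) ∈ LR R := by
  cases k with
  | ofNat n => simpa [Pi.pow_def] using pow_mem h n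
  | negSucc n => simpa [Pi.pow_def] using pow_mem h' (n + 1)

theorem mf_uN (hN : N ≠ 0) : MF N (uN N) := by
  refine ⟨fun g hg z hz => Finset.prod_congr rfl fun x hx => ?_, fun g hg => ?_⟩
  · have := den_ne' (M := g) (by rw [hg.1]; exact one_ne_zero) hz
    have e := (Nat.mem_divisorsAntidiagonal.1 hx).1
    rw [rD, rD, Dl_act hg.1 hz, dl_inv0 (right_ne_zero_of_mul (e.trans_ne hN)) (Dvd.intro_left _ e)
      hg hz, mul_div_mul_left _ _ (pow_ne_zero _ this)]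
  · refine LE.congr (LE.mono (prod_mem (S := LR V1.integer) (t := N.divisorsAntidiagonal)
      fun x hx => zpow_mem_LR (F := fun z => rD x.2 (act g (N * z))) ?_ ?_
        (ArithmeticFunction.moebius x.1 * x.2)) le_top) fun z _ => by simp [uN]
    all_goals
      have e := (Nat.mem_divisorsAntidiagonal.1 hx).1
      have h1 := left_ne_zero_of_mul (e.trans_ne hN)
      have h2 := right_ne_zero_of_mul (e.trans_ne hN)
      obtain ⟨κ, c, -, h⟩ := rD_act h2 h1 hg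
      have k := mul_ne_zero (pow_ne_zero 2 (Nat.gcd_ne_zero_left (n := (g 1 0).natAbs) h2)) h1
      rw [e] at h
    · exact LE.congr (mul_mem (const_mem V1 (ga_le κ)) (mul_mem
        (lz_Dl.affine_mem V1 hN (val_q1 0)) (lz_Dl_inv.affine_mem V1 k (val_q1 c)))) h
    · exact LE.congr (mul_mem (const_mem V1 (ga_le κ⁻¹)) (mul_mem
        (lz_Dl_inv.affine_mem V1 hN (val_q1 0)) (lz_Dl.affine_mem V1 k (val_q1 c))))
        fun z hz => by rw [h z hz, mul_inv, mul_inv, inv_inv]; rfl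

open ArithmeticFunction in
theorem moeb_gcd (hN : N ≠ 0) {c : ℕ} (h : ¬ N ∣ c) :
    ∑ x ∈ N.divisorsAntidiagonal, (moebius x.1 : ℤ) * (x.2.gcd c : ℤ) ^ 2 = 0 := by
  have a := (sum_eq_iff_sum_mul_moebius_eq (R := ℤ) (g := fun n => (n : ℤ) ^ 2)).2 fun _ _ => rfl
  have b := (sum_eq_iff_sum_mul_moebius_eq (R := ℤ) (g := fun n => (n.gcd c : ℤ) ^ 2)
    (f := fun n => if n ∣ c then ∑ x ∈ n.divisorsAntidiagonal, (moebius x.1 : ℤ) * (x.2 : ℤ) ^ 2
      else 0)).1 (fun n hn => by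
    rw [← a _ (Nat.gcd_pos_of_pos_left c hn), ← Finset.sum_filter]
    refine Finset.sum_congr (Finset.ext fun i => ?_) fun _ _ => by simp
    simp [Nat.dvd_gcd_iff, hn.ne']) N (Nat.pos_of_ne_zero hN)
  simpa [h] using b

open ArithmeticFunction in
theorem moeb_id (hN : N ≠ 0) :
    ∑ x ∈ N.divisorsAntidiagonal, (moebius x.1 : ℤ) * x.2 = N.totient := by
  simpa using (sum_eq_iff_sum_mul_moebius_eq (R := ℤ) (g := fun n => (n : ℤ))
    (f := fun n => n.totient)).1 (fun n _ => by exact_mod_cast Nat.sum_totient n) N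
      (Nat.pos_of_ne_zero hN)

theorem zpow_sum' {ι : Type*} {a : ℂ} (ha : a ≠ 0) (s : Finset ι) (f : ι → ℤ) :
    a ^ ∑ i ∈ s, f i = ∏ i ∈ s, a ^ f i := by
  induction s using Finset.induction_on with
  | empty => simp
  | insert i s hi ih => rw [Finset.sum_insert hi, Finset.prod_insert hi, zpow_add₀ ha, ih]

theorem tendsto_uN (hN : N ≠ 0) (hg : g.det = 1) (h0 : ¬ G0 N g) :
    Tendsto (fun z => uN N (act g (N * z))) atI (𝓝 0) := by
  have h1 : ¬ N ∣ (g 1 0).natAbs := fun e => h0 ⟨hg, Int.natCast_dvd.2 e⟩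
  have k : ∀ x ∈ N.divisorsAntidiagonal, ∃ c : ℂ, c ≠ 0 ∧ Tendsto (fun z => rD x.2 (act g (N * z)) /
      q1 z ^ (N - x.2.gcd (g 1 0).natAbs ^ 2 * x.1 : ℤ)) atI (𝓝 c) := fun x hx => by
    have e := (Nat.mem_divisorsAntidiagonal.1 hx).1
    have h1 := left_ne_zero_of_mul (e.trans_ne hN)
    have h2 := right_ne_zero_of_mul (e.trans_ne hN)
    obtain ⟨κ, c, k0, h⟩ := rD_act h2 h1 hg
    have k := mul_ne_zero (pow_ne_zero 2 (Nat.gcd_ne_zero_left (n := (g 1 0).natAbs) h2)) h1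
    rw [e] at h
    refine ⟨_, mul_ne_zero k0 (div_ne_zero (q1_ne _) (q1_ne _)), (((tendsto_dl_aff hN 0).div
      (tendsto_dl_aff k c) (q1_ne _)).const_mul κ).congr' (ev_pos.mono fun z hz => ?_)⟩
    have := q1_ne z
    have := Dl_ne (aff_pos k c hz)
    simp only [Pi.div_apply]
    rw [h z hz, zpow_sub₀ (q1_ne z)]
    norm_cast
    field_simp
  choose! c c1 c2 using k
  have t := (tendsto_q1.pow (N * N.totient)).mul (tendsto_finsetProd _ fun x hx =>
    (c2 x hx).zpow₀ (ArithmeticFunction.moebius x.1 * x.2) (Or.inl (c1 x hx)))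
  rw [zero_pow (mul_ne_zero hN (Nat.totient_pos.2 (Nat.pos_of_ne_zero hN)).ne'), zero_mul] at t
  refine t.congr fun z => ?_
  have e : ∑ x ∈ N.divisorsAntidiagonal, (N - x.2.gcd (g 1 0).natAbs ^ 2 * x.1 : ℤ) *
      (ArithmeticFunction.moebius x.1 * x.2) = (N * N.totient : ℕ) := by
    rw [Nat.cast_mul, ← moeb_id hN, ← sub_zero (_ * _ : ℤ), ← mul_zero (N : ℤ), ← moeb_gcd hN h1,
      Finset.mul_sum, Finset.mul_sum, ← Finset.sum_sub_distrib]
    refine Finset.sum_congr rfl fun x hx => ?_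
    rw [← (Nat.mem_divisorsAntidiagonal.1 hx).1]
    push_cast
    ring
  simp only [div_zpow, ← zpow_mul, Finset.prod_div_distrib]
  rw [← zpow_sum' (q1_ne z), e, zpow_natCast, mul_div_cancel₀ _ (pow_ne_zero _ (q1_ne z)), uN]

variable {Γ : Type*} [LinearOrderedCommGroupWithZero Γ] {V : Valuation ℂ Γ} {τ : ℂ}

theorem uN_mem (hN : N ≠ 0) : uN N ∈ LR V.integer := by
  refine LE.congr (prod_mem (S := LR V.integer) (t := N.divisorsAntidiagonal) fun x hx =>
    zpow_mem_LR (F := rD x.2) ?_ ?_ (ArithmeticFunction.moebius x.1 * x.2)) fun z _ => by simp [uN]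
  all_goals
    have h2 := right_ne_zero_of_mul ((Nat.mem_divisorsAntidiagonal.1 hx).1.trans_ne hN)
  · exact LE.congr (mul_mem (lz_Dl.mem V.integer) (lz_Dl_inv.expand_mem V h2))
      fun z _ => by simp [rD, div_eq_mul_inv]
  · exact LE.congr (mul_mem (lz_Dl.expand_mem V h2) (lz_Dl_inv.mem V.integer))
      fun z _ => by simp [rD, div_eq_mul_inv]

theorem val_rD {d : ℕ} (hN : N ≠ 0) (hd : d ∣ N) (hτ : 0 < τ.im) (hj : V (jf τ) ≤ 1)
    (h : V (Dl τ / Dl (N * τ)) = 1) : V (Dl τ / Dl (d * τ)) = 1 := by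
  obtain ⟨e, rfl⟩ := hd
  obtain ⟨a1, a2, -⟩ := val_Dl_div (left_ne_zero_of_mul hN) hτ hj
  obtain ⟨-, a3, -⟩ := val_Dl_div (right_ne_zero_of_mul hN) (ga_pos (left_ne_zero_of_mul hN) hτ) a1
  refine (val_eq_one_of_mul a2 a3 ?_).1
  rwa [div_mul_div_cancel₀ (Dl_ne (ga_pos (left_ne_zero_of_mul hN) hτ)), ← mul_assoc,
    ← Nat.cast_mul, mul_comm e]

theorem val_uN (hN : N ≠ 0) (hτ : 0 < τ.im) (hj : V (jf τ) ≤ 1)
    (h : V (Dl τ / Dl (N * τ)) = 1) : V (uN N τ) = 1 := by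
  rw [uN, map_prod]
  exact Finset.prod_eq_one fun x hx => by
    rw [map_zpow₀, rD, val_rD hN (Dvd.intro_left _ (Nat.mem_divisorsAntidiagonal.1 hx).1) hτ hj h,
      one_zpow]

variable (V N) in
/-- Points which reduce to the affine part of the component of the cusp at infinity. -/
structure Aff (τ : ℂ) : Prop where
  pos : 0 < τ.im
  int : V (jf τ) ≤ 1
  unit : V (Dl τ / Dl (N * τ)) = 1

theorem Aff.of_unit (hN : N ≠ 0) (h : V N = 1) (hτ : 0 < τ.im) (hj : V (jf τ) ≤ 1) : Aff N V τ :=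
  ⟨hτ, hj, (val_Dl_div hN hτ hj).2.2 h⟩

/-- The expansion principle. -/
theorem qp (hN : N ≠ 0) (hF : MF N F) (hi : F ∈ LR V.integer) (hτ : Aff N V τ) : V (F τ) ≤ 1 :=
  qp_unit hN (mf_uN hN) (fun _ => tendsto_uN hN) (uN_mem hN) hF hi hτ.pos hτ.int
    (val_uN hN hτ.pos hτ.int hτ.unit)

variable (V) in
/-- The Gauss norm of the expansion at infinity is the value of `c`. -/
structure GN (F : ℂ → ℂ) (c : ℂ) : Prop where
  ne : c ≠ 0
  mem : (fun z => c⁻¹ * F z) ∈ LR V.integer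
  top : ¬ LE (V.ltAddSubgroup 1) fun z => c⁻¹ * F z

variable {c d : ℂ}

variable (V) in
theorem exists_gn (hN : N ≠ 0) (hF : MF N F) {z₀ : ℂ} (hz : 0 < z₀.im) (h0 : F z₀ ≠ 0) :
    ∃ c, GN V F c := by
  obtain ⟨S, s1, s2⟩ := exists_fg hN hF
  have s3 := LE.of_comp hN (le_periodic (mf_le hN hF))
    (by simpa only [act_one] using s2 1 Matrix.det_one)
  obtain ⟨c, c1, i, c2⟩ := exists_top (V := V) (ι := Unit) s1 fun _ => s3
  have c0 : c ≠ 0 := by
    rintro rfl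
    obtain ⟨n, A, a1, a2⟩ := c1 i
    obtain rfl : A = C 0 := by
      ext k
      simpa using a2 k
    exact mul_ne_zero (pow_ne_zero n (q1_ne z₀)) h0 (a1.eq_of_eq (QE.const 0) hz)
  refine ⟨c, c0, le_norm c0 (c1 i), fun e => ?_⟩
  have := c2 _ ((le_smul (T := V.ltAddSubgroup (Units.mk0 (V c) ((V.ne_zero_iff).2 c0))) e c
    fun x hx => by
      rw [Valuation.mem_ltAddSubgroup_iff, map_mul]
      exact mul_lt_of_lt_one_right ((V.pos_iff).2 c0) hx).congr fun z _ =>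
        (mul_inv_cancel_left₀ c0 _).symm)
  exact lt_irrefl (V c) this

theorem GN.congr (h : GN V F c) (e : ∀ z : ℂ, 0 < z.im → G z = F z) : GN V G c :=
  ⟨h.ne, LE.congr h.mem fun z hz => by rw [e z hz],
    fun k => h.top (k.congr fun z hz => by rw [e z hz])⟩

theorem GN.mul (h : GN V F c) (h' : GN V G d) : GN V (fun z => F z * G z) (c * d) :=
  ⟨mul_ne_zero h.ne h'.ne, LE.congr (mul_mem h.mem h'.mem) fun z _ => by simp; ring, fun k =>
    ((li_prime (V := V)).mem_or_mem (x := ⟨_, h.mem⟩) (y := ⟨_, h'.mem⟩)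
      (k.congr fun z _ => by simp; ring)).elim h.top h'.top⟩

theorem gn_const (hc : c ≠ 0) : GN V (fun _ => c) c :=
  ⟨hc, const_mem V (by simp [hc]), fun k => (Ideal.ne_top_iff_one _).1 (li_prime (V := V)).ne_top
    (k.congr fun z _ => by simp [hc])⟩

theorem GN.pow (h : GN V F c) (k : ℕ) : GN V (fun z => F z ^ k) (c ^ k) := by
  induction k with
  | zero => simpa using gn_const one_ne_zero
  | succ k ih => simpa only [pow_succ] using ih.mul h

theorem GN.le (h : GN V F c) (hd : d ≠ 0) (h' : (fun z => d⁻¹ * F z) ∈ LR V.integer) :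
    V c ≤ V d := by
  by_contra! k
  refine h.top ((le_smul h' (c⁻¹ * d) fun s hs => ?_).congr fun z _ => by field_simp)
  rw [mul_comm]
  refine ged_lt _ hs _ ?_
  rw [Valuation.mem_ltAddSubgroup_iff, map_mul, map_inv₀]
  exact (inv_mul_lt_one₀ ((V.pos_iff).2 h.ne)).2 k

theorem GN.unique (h : GN V F c) (h' : GN V F d) : V c = V d :=
  le_antisymm (h.le h'.ne h'.mem) (h'.le h.ne h.mem)

theorem GN.of_val (h : GN V F c) (e : V d = V c) : GN V F d := by
  have d0 : d ≠ 0 := fun k => h.ne (by simpa [k] using e.symm)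
  have c0 := h.ne
  have v0 : V c ≠ 0 := (V.ne_zero_iff).2 c0
  exact ⟨d0, (le_smul h.mem (d⁻¹ * c) fun s hs => ged_int _ (by simp [e, v0]) _ hs).congr
    fun z _ => by field_simp, fun k => h.top ((le_smul k (c⁻¹ * d) fun s hs =>
      ged_lt _ (by simp [e, v0]) _ hs).congr fun z _ => by field_simp)⟩

theorem eval_mem {P : Polynomial ℂ} (h : ∀ k, V (P.coeff k) ≤ 1) :
    (fun z => P.eval (jf z)) ∈ LR V.integer :=
  LE.congr (sum_mem fun k (_ : k ∈ Finset.range (P.natDegree + 1)) =>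
    mul_mem (const_mem V (h k)) (pow_mem (lz_jf.mem V.integer) k)) fun z _ => by
      simp [Polynomial.eval_eq_sum_range]

theorem gn_eval {P : Polynomial ℂ} (h : ∀ k, V (P.coeff k) ≤ 1) {k : ℕ} (hk : V (P.coeff k) = 1) :
    GN V (fun z => P.eval (jf z)) 1 := by
  refine ⟨one_ne_zero, by simpa using eval_mem h, fun e => ?_⟩
  obtain ⟨Q, q1, q2⟩ := e.exists_poly fun g hg z hz => by simp only [jf_act hg hz]
  obtain rfl : P = Q := by
    by_contra e
    obtain ⟨z, z1, z2⟩ := (geb_ne (sub_ne_zero.2 e) (z := Complex.I) (by simp)).exists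
    exact z2 (by simpa [sub_eq_zero] using q2 z z1)
  exact hk.not_lt (q1 k)

/-- The upper bound for the values. -/
theorem GN.val_le (hN : N ≠ 0) (hF : MF N F) (h : GN V F c) (hτ : Aff N V τ) : V (F τ) ≤ V c := by
  have := qp hN (mf_mul (mf_const c⁻¹) hF) h.mem hτ
  rwa [map_mul, map_inv₀, inv_mul_le_one₀ ((V.pos_iff).2 h.ne)] at this

/-- The lower bound for the values. -/
theorem GN.val_ge (hN : N ≠ 0) (hG : MF N G) (h : GN V F c) {R : Polynomial ℂ}
    (hR : ∀ k, V (R.coeff k) ≤ 1) (e : ∀ z : ℂ, 0 < z.im → F z * G z = R.eval (jf z))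
    (hτ : Aff N V τ) : V c * V (R.eval (jf τ)) ≤ V (F τ) := by
  by_cases h0 : G τ = 0
  · simp [← e τ hτ.pos, h0]
  obtain ⟨d, hd⟩ := exists_gn V hN hG hτ.pos h0
  have h1 := (h.mul hd).le one_ne_zero (LE.congr (eval_mem hR) fun z hz => by simp [e z hz])
  rw [map_one, map_mul] at h1
  rw [← e τ hτ.pos, map_mul, mul_left_comm]
  exact mul_le_of_le_one_right' ((mul_le_mul_right (hd.val_le hN hG hτ) _).trans h1)

end Pool.Agent.B5
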