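import Pool.Agent.Lib.MP_696deb_nt.B5.LAa
import Pool.Agent.Lib.MP_696deb_nt.B5.Z2
import Pool.Agent.Lib.MP_696deb_nt.B5.MX
import Pool.Agent.Lib.MP_696deb_nt.Euler

/-! From the twisted series to the incomplete Euler product. -/

set_option autoImplicit false

open PowerSeries Filter Topology Complex Asymptotics Finset NumberTheorySymbols
open scoped Real

namespace Pool.Agent.G5

open Pool.Agent.Lib.MP_696deb_nt Pool.Agent.B4.GE Pool.Agent.Lib.MP_696deb_nt.B4

variable {G f : ℂ → ℂ} {A : ℂ⟦X⟧} {s : ℂ}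

theorem hasSum_Ld (h : QE (dF G) A) (h0 : coeff 0 A = 0) (a c : ℤ) (hs : 0 < s.re)
    (hA : LSeriesSummable (fun n => coeff n A) s) :
    LSeriesHasSum (fun n => q1 (a / c) ^ n * coeff n A) s (Ld G a c s) := by
  have hπ : (0 : ℝ) < 2 * π := by positivity
  have hq : ‖q1 (a / c)‖ = 1 := by rw [norm_q1, ← cast_div, ofReal_im]; simp
  have h1 := hasSum_mellin (a := fun n : ℕ => q1 (a / c) ^ n * coeff n A)
    (p := fun n => 2 * π * n) (F := fun y : ℝ => dF G (a / c + y * I)) (s := s) (fun n => by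
      rcases Nat.eq_zero_or_pos n with rfl | hn
      · exact Or.inl (by rw [h0, mul_zero])
      · exact Or.inr (by positivity)) hs (fun t ht => by
      have := h.hasSum (z := a / c + t * I) (by rwa [im_vert])
      convert! this using 2 with n
      have h2 : q1 (t * I) ^ n = (Real.exp (-(2 * π * n) * t) : ℝ) := by
        rw [← q1_nat_mul, q1, ofReal_exp]
        congr 1
        push_cast
        linear_combination 2 * π * n * t * I_sq
      rw [q1_add, mul_pow, h2]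
      ring) (by
      have := (summable_norm_iff.mpr hA).mul_left ((2 * π) ^ s.re)⁻¹
      convert! this using 2 with n
      rw [LSeries.norm_term_eq]
      split_ifs with hn
      · rw [hn, h0]
        simp
      · rw [norm_mul, norm_pow, hq, one_pow, one_mul, Real.mul_rpow hπ.le (Nat.cast_nonneg _)]
        ring)
  have hG : Gamma s ≠ 0 := Gamma_ne_zero_of_re_pos hs
  have h2 : ((2 * π : ℝ) : ℂ) ^ s ≠ 0 := by simp
  rw [LSeriesHasSum, Ld_eq]
  convert! h1.mul_left ((2 * π) ^ s * (Gamma s)⁻¹) using 2 with n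
  rcases eq_or_ne n 0 with rfl | hn
  · rw [h0]
    simp
  rw [LSeries.term_of_ne_zero hn, ofReal_mul (2 * π), mul_cpow_ofReal_nonneg hπ.le
    (Nat.cast_nonneg _)]
  push_cast at h2 ⊢
  field_simp

/-- The twisted series is the Dirichlet series, up to a Gauss sum. -/
theorem LA_eq_LSeries {B : ℕ} (hB : Odd B) (hsq : Squarefree B) : ∃ τ : ℂ, τ ≠ 0 ∧
    ∀ (G : ℂ → ℂ) (A : ℂ⟦X⟧) (s : ℂ), QE (dF G) A → coeff 0 A = 0 → 0 < s.re →
      LSeriesSummable (fun n => coeff n A) s →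
      τ * LA G B s = LSeries (fun n => (J((n : ℤ) | B) : ℂ) * coeff n A) s := by
  have : NeZero B := ⟨hsq.ne_zero⟩
  have h0 := gs_one_ne hB hsq
  have hξ : ∀ n : ℕ, (J((n : ℤ) | B) : ℂ) = ∑ k ∈ range B,
      (gs (1 : ZMod B))⁻¹ * (J((k : ℤ) | B) : ℂ) * q1 ((k : ℤ) / (B : ℤ)) ^ n := fun n => by
    have h4 := gs_eq hB hsq n
    simp only [mul_assoc, ← mul_sum]
    rw [eq_inv_mul_iff_mul_eq₀ h0, mul_comm, ← h4, gs]
    refine sum_nbij' (fun j : ZMod B => j.val) (fun j : ℕ => (j : ZMod B)) (by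
      simp [ZMod.val_lt]) (by simp) (by simp)
      (fun j hj => ZMod.val_cast_of_lt (by simpa using hj)) fun k _ => ?_
    have := q1_div_pow B (k.val : ℤ) n
    simp only [Int.cast_natCast, ZMod.natCast_zmod_val] at this ⊢
    rw [this, jc]
  refine ⟨_, inv_ne_zero h0, fun G A s h hA hs hS => (LSeriesHasSum.LSeries_eq ?_).symm⟩
  have := hasSum_sum (s := range B) fun k _ =>
    (hasSum_Ld h hA k B hs hS).mul_left ((gs (1 : ZMod B))⁻¹ * (J((k : ℤ) | B) : ℂ))
  unfold LSeriesHasSum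
  convert! this using 2 with n
  · rcases eq_or_ne n 0 with rfl | hn
    · simp
    rw [LSeries.term_of_ne_zero hn, hξ, sum_mul, sum_div]
    exact sum_congr rfl fun k _ => by rw [LSeries.term_of_ne_zero hn]; ring
  · simp only [LA, mul_sum, mul_assoc]

theorem qe_summable (h : QE f A) {C : ℝ} (hC : ∀ z : ℂ, 0 < z.im → ‖f z‖ * z.im ≤ C)
    (hs : (3 : ℝ) / 2 < s.re) : LSeriesSummable (fun n => coeff n A) s := by
  refine LSeriesSummable_of_sum_norm_bigO (r := 3 / 2) ?_ (by norm_num) hs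
  refine IsBigO.of_bound |Real.exp (2 * π) * C| ?_
  filter_upwards [eventually_gt_atTop 0] with n hn
  have hn' : (0 : ℝ) < n := by exact_mod_cast hn
  have h1 := (sq_sum_le_card_mul_sum_sq (s := Finset.Icc 1 n)
    (f := fun k => ‖coeff k A‖)).trans
    (mul_le_mul_of_nonneg_left (h.sum_sq_le hC hn) (Nat.cast_nonneg _))
  have h2 : ((n : ℝ) ^ (3 / 2 : ℝ)) ^ 2 = n ^ 3 := by
    rw [← Real.rpow_natCast, ← Real.rpow_mul hn'.le]
    norm_num
  rw [Real.norm_eq_abs, Real.norm_eq_abs, ← abs_mul, ← sq_le_sq, mul_pow, h2]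
  simp only [Nat.card_Icc, Nat.add_sub_cancel] at h1
  convert h1 using 1
  ring

/-- An entire continuation of the twisted series gives one of the incomplete product. -/
theorem anr_of {c e : ℕ → ℤ} (h : Hecke c e) {B : ℕ} (hB : B ≠ 0) {a b : ℤ}
    (hΔ : -4 * a ^ 3 - 27 * b ^ 2 ≠ 0)
    (hS : ∀ s : ℂ, (3 : ℝ) / 2 < s.re → LSeriesSummable (fun n => (c n : ℂ)) s)
    (hlt : ∀ l : ℕ, l.Prime → |c l| * l < l ^ 2 + e l)
    (hg : ∀ l : ℕ, l.Prime → ¬ (l : ℤ) ∣ 2 * (-4 * a ^ 3 - 27 * b ^ 2) → ¬ l ∣ B ∧ e l = l ∧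
      J((l : ℤ) | B) * c l = l - (Nat.card {q : ZMod l × ZMod l //
        q.2 ^ 2 = q.1 ^ 3 + (a : ZMod l) * q.1 + (b : ZMod l)} : ℤ))
    {H : ℂ → ℂ} (dH : Differentiable ℂ H) {τ : ℂ} (hτ : τ ≠ 0)
    (hH : ∀ s : ℂ, (3 : ℝ) / 2 < s.re →
      τ * H s = LSeries (fun n => (J((n : ℤ) | B) : ℂ) * c n) s) :
    AnR a b (analyticOrderAt H 1) := by
  have : NeZero B := ⟨hB⟩
  set ξ : ℕ → ℂ := fun n => (J((n : ℤ) | B) : ℂ) with hξ
  have x3 : ∀ n, ξ n = 0 ∨ ξ n = 1 ∨ ξ n = -1 := fun n => by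
    rcases jacobiSym.trichotomy n B with h | h | h <;> simp [hξ, h]
  set P := fun s => ∏ p ∈ (2 * (-4 * a ^ 3 - 27 * b ^ 2)).natAbs.primeFactors, loc ξ c e p s with hP
  have dP : Differentiable ℂ P := Differentiable.fun_finsetProd fun p hp =>
    loc_differentiable _ _ _ (Nat.mem_primeFactors.mp hp).1.ne_zero
  have P1 : P 1 ≠ 0 := prod_ne_zero_iff.mpr fun p hp =>
    loc_one_ne_zero _ _ _ (Nat.mem_primeFactors.mp hp).1.ne_zero
      ((x3 p).imp_right fun k => ⟨k, hlt p (Nat.mem_primeFactors.mp hp).1⟩)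
  refine ⟨fun s => P s * (τ * H s), dP.mul (dH.const_mul τ), fun s hs => ?_, ?_⟩
  · beta_reduce
    rw [hH s hs]
    refine hasProd_frozen h (by simp [hξ]) (fun m n => by simp [hξ, jacobiSym.mul_left])
      (summable_twist (fun n => by rcases x3 n with h | h | h <;> simp [h]) (hS s hs))
      (mul_ne_zero two_ne_zero hΔ) _ fun p hp hd => ?_
    obtain ⟨h1, h2, h3⟩ := hg p hp hd
    refine ⟨by simp only [hξ]; exact_mod_cast h3, ?_, h2⟩
    have : Int.gcd (p : ℤ) B = 1 := by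
      rw [Int.gcd_natCast_natCast]; exact (Nat.Prime.coprime_iff_not_dvd hp).mpr h1
    simp only [hξ]
    exact_mod_cast jacobiSym.sq_one this
  · have a1 : AnalyticAt ℂ (fun s => P s * τ) 1 := (dP.mul_const τ).analyticAt 1
    have := analyticOrderAt_mul a1 (dH.analyticAt 1)
    rw [a1.analyticOrderAt_eq_zero.mpr (mul_ne_zero P1 hτ), zero_add] at this
    rw [← this]
    congr 1
    funext s
    simp [mul_assoc]

variable {W : WeierstrassCurve ℚ} {N : ℕ} (D : MD W N)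

theorem md_deriv {z : ℂ} (hz : 0 < z.im) :
    HasDerivAt D.par.F (2 * π * I * (D.k * cf D.f z)) z := by
  have := (gl_deriv D.qe D.S0 hz).const_mul (D.k : ℂ)
  rw [mul_left_comm, ← D.F_eq] at this
  exact this

theorem md_dF {z : ℂ} (hz : 0 < z.im) : dF D.par.F z = D.k * cf D.f z := by
  rw [dF, (md_deriv D hz).deriv, mul_div_cancel_left₀ _ tpi_ne]

theorem md_ci : Ci N D.par.F where
  hol := D.par.qe.hol
  cusp := D.par.cusp
  inv g hg := by
    have d : 0 < g.det := by rw [hg.1]; exact one_pos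
    obtain ⟨c, hc⟩ := const_of_deriv (G := fun z => D.par.F (act g z) - D.par.F z) fun z hz => by
      have := (hasDerivAt_dF_act D.par.qe.hol d hz).fun_sub (md_deriv D hz)
      have k := den_ne' d.ne' hz
      convert! this using 1
      rw [md_dF D (act_pos d hz), cf_act D.f hg.1 hg.2 hz, hg.1]
      push_cast
      field_simp
      ring
    exact ⟨c, fun z hz => by rw [← hc z hz, add_sub_cancel]⟩

theorem md_summable (hs : (3 : ℝ) / 2 < s.re) : LSeriesSummable (fun n => (D.c n : ℂ)) s := by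
  have : NeZero N := ⟨D.N0⟩
  obtain ⟨C, hC⟩ := CuspFormClass.exists_bound D.f
  simpa only [MD.S, coeff_mk] using qe_summable D.qe (C := C) (fun z hz => (le_div_iff₀ hz).1 (by
    simpa [← cf_coe] using hC ⟨z, hz⟩)) hs

/-- The series of the parametrization. -/
theorem md_LA {B : ℕ} (hB : Odd B) (hsq : Squarefree B) : ∃ τ : ℂ, τ ≠ 0 ∧
    ∀ s : ℂ, (3 : ℝ) / 2 < s.re →
      τ * LA D.par.F B s = LSeries (fun n => (J((n : ℤ) | B) : ℂ) * D.c n) s := by
  obtain ⟨τ, hτ, H⟩ := LA_eq_LSeries hB hsq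
  have hk : (D.k : ℂ) ≠ 0 := by exact_mod_cast D.hk
  refine ⟨(D.k : ℂ)⁻¹ * τ, mul_ne_zero (inv_ne_zero hk) hτ, fun s hs => ?_⟩
  have h1 := H D.par.F _ s ((D.qe.smul D.k).congr fun z hz => md_dF D hz)
    (by rw [coeff_C_mul, D.S0, mul_zero]) (by linarith) (by
      simp only [coeff_C_mul, MD.S, coeff_mk]
      exact (md_summable D hs).smul (D.k : ℂ))
  rw [mul_assoc, h1, ← LSeries_smul]
  congr 1
  funext n
  simp only [coeff_C_mul, MD.S, coeff_mk, Pi.smul_apply, smul_eq_mul]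
  field_simp

theorem md_hecke (h : Nw D) : Hecke D.c fun p => if p ∣ N then 0 else p := by
  refine ⟨D.hc, fun p hp n _ => ?_⟩
  by_cases k : p ∣ N
  · simp [k, (h p hp k).2 n]
  · simpa only [if_neg k] using D.hT p hp k n

/-- The order of the continuation of the Euler product is the order of the twisted series. -/
theorem md_anr (h : Nw D) {B : ℕ} {a b : ℤ} (hsq : Squarefree B) (hB : Odd B)
    (hΔ : -4 * a ^ 3 - 27 * b ^ 2 ≠ 0)
    (hg : ∀ l : ℕ, l.Prime → ¬ (l : ℤ) ∣ 2 * (-4 * a ^ 3 - 27 * b ^ 2) → ¬ l ∣ N * B ∧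
      J((l : ℤ) | B) * D.c l = l - (Nat.card {q : ZMod l × ZMod l //
        q.2 ^ 2 = q.1 ^ 3 + (a : ZMod l) * q.1 + (b : ZMod l)} : ℤ)) :
    AnR a b (analyticOrderAt (LA D.par.F B) 1) := by
  obtain ⟨τ, hτ, H⟩ := md_LA D hB hsq
  refine anr_of (md_hecke D h) hsq.ne_zero hΔ (fun s hs => md_summable D hs) (fun l hl => ?_)
    (fun l hl k => ?_) ((md_ci D).LA_differentiable D.N0 hsq.ne_zero) hτ H
  · have l1 : (1 : ℤ) < l := by exact_mod_cast hl.one_lt
    split_ifs with k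
    · have : |D.c l| = 1 := by
        rcases sq_eq_one_iff.1 (h l hl k).1 with e | e <;> simp [e]
      rw [this]
      nlinarith
    · have := B5.md_abs_lt D hl k
      nlinarith
  · obtain ⟨h1, h2⟩ := hg l hl k
    exact ⟨fun e => h1 (e.mul_left _), if_neg fun e => h1 (e.mul_right _), h2⟩

theorem lf_stmt : LFStmt := fun _ _ D _ _ _ h hsq hB hΔ hg => by
  have k := md_anr D h hsq hB hΔ hg
  have a1 := ((md_ci D).LA_differentiable D.N0 hsq.ne_zero).analyticAt 1
  exact ⟨fun h0 => a1.analyticOrderAt_eq_zero.mpr h0 ▸ k,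
    fun h0 h1 => a1.analyticOrderAt_eq_one_of_zero_deriv_ne_zero h0 h1 ▸ k⟩

end Pool.Agent.G5
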