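import Pool.Agent.Lib.MP_696deb_nt.B5.ZLa
import Pool.Agent.Lib.MP_696deb_nt.B5.LAa
import Pool.Agent.Lib.MP_696deb_nt.B2.Stmt
import Pool.Agent.Lib.MP_696deb_nt.Cartier

/-! Auxiliary facts: inert primes, the value at the cusp, and changes of the model. -/

set_option autoImplicit false

open Finset Complex NumberTheorySymbols Filter Topology
open scoped Classical

namespace Pool.Agent.G5

open Pool.Agent.Lib.MP_696deb_nt Pool.Agent.B4.GE Pool.Agent.Lib.MP_696deb_nt.B2.Stmt

theorem LA_one {W : WeierstrassCurve ℚ} {N : ℕ} (P : Par W N) : LA P.F 1 1 = P.t0 := by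
  have := atI_neBot
  have h0 : Tendsto P.F atI (𝓝 0) := by simpa [P.A0] using P.qe.tendsto
  have h1 := (par_ci P).tendsto_act P.N0 (g := !![0, -1; (N : ℤ), 0])
    (by simpa using Nat.pos_of_ne_zero P.N0) (by simpa using P.N0)
  rw [tendsto_nhds_unique ((par_ci P).tendsto P.N0) h0, zero_add] at h1
  have h2 := tendsto_nhds_unique h1 ((h0.const_sub P.t0).congr' (ev_pos.mono fun z hz => by
    simp [act_of, mob, ← P.al z hz]))
  simpa [LA, Ld] using h2

theorem exists_inert {n M : ℕ} (h : n % 4 = 3) (hM : M ≠ 0) :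
    ∃ l : ℕ, l.Prime ∧ ¬ l ∣ M ∧ l % 4 = 1 ∧ J((l : ℤ) | n) = -1 := by
  obtain ⟨k, hk⟩ : ∃ k, 2 * n = k + 1 := ⟨2 * n - 1, by omega⟩
  obtain ⟨l, h1, h2, h3⟩ := Nat.forall_exists_prime_gt_and_modEq M (q := 4 * n) (a := k)
    (by omega) (by rw [show 4 * n = (2 * n) * 2 by ring, hk]
                   exact Nat.Coprime.mul_right (by simp) (Nat.coprime_two_right.2 ⟨n - 1, by omega⟩))
  have h4 : l % 4 = k % 4 := h3.of_mul_right n
  refine ⟨l, h2, fun e => (Nat.le_of_dvd hM.bot_lt e).not_gt h1, by omega, ?_⟩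
  rw [jacobiSym.mod_left' (a₂ := -1) ((Int.natCast_modEq_iff.2 (h3.of_mul_left 4)).trans
      (Int.modEq_iff_dvd.2 ⟨-2, by omega⟩)), jacobiSym.at_neg_one (Nat.odd_iff.2 (by omega)),
    ZMod.χ₄_nat_three_mod_four h]

theorem sum_sign {α : Type*} {f : α → ℤ} (s : Finset α) (h : ∀ x ∈ s, f x = 1 ∨ f x = -1) :
    4 ∣ ∑ x ∈ s, f x - s.card + 1 - ∏ x ∈ s, f x ∧ (∏ x ∈ s, f x = 1 ∨ ∏ x ∈ s, f x = -1) := by
  induction s using Finset.induction_on with
  | empty => simp
  | insert a s ha ih =>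
    obtain ⟨h1, h2⟩ := ih fun x hx => h x (mem_insert_of_mem hx)
    rw [sum_insert ha, prod_insert ha, card_insert_of_notMem ha]
    rcases h a (mem_insert_self _ _) with e | e <;> rw [e] <;> omega

theorem prod_erase_sub (l : ℕ) [Fact l.Prime] (e : ZMod l) : ∏ x ∈ univ.erase e, (x - e) = -1 := by
  have := congrArg Units.val (FiniteField.prod_univ_units_id_eq_neg_one (K := ZMod l))
  rw [Units.coe_prod, Units.val_neg, Units.val_one] at this
  rw [← this]
  symm
  refine prod_bij (fun x _ => x + e) (fun x _ => by simp) (fun x _ y _ k => Units.ext (by simpa using k))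
    (fun x hx => ⟨Units.mk0 (x - e) (sub_ne_zero.2 (mem_erase.1 hx).1), mem_univ _, by simp⟩)
    fun x _ => by simp

theorem four_dvd_tr (l : ℕ) [Fact l.Prime] {a b c : ZMod l} (h1 : a ≠ b) (h2 : a ≠ c)
    (h3 : b ≠ c) : 4 ∣ (tr l fun x => (x - a) * (x - b) * (x - c)) + l - 3 := by
  set S : Finset (ZMod l) := ((univ.erase a).erase b).erase c with hS
  have m : ∀ x, x ∈ S ↔ x ≠ c ∧ x ≠ b ∧ x ≠ a := fun x => by simp [hS]
  have u : univ = insert a (insert b (insert c S)) := by
    ext x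
    simp only [mem_univ, mem_insert, m]
    tauto
  have na : a ∉ insert b (insert c S) := by simp [m, h1, h2]
  have nb : b ∉ insert c S := by simp [m, h3]
  have nc : c ∉ S := by simp [m]
  have e0 := congrArg card u
  rw [card_univ, ZMod.card, card_insert_of_notMem na, card_insert_of_notMem nb,
    card_insert_of_notMem nc] at e0
  have e1 := prod_erase_sub l a
  have e2 := prod_erase_sub l b
  have e3 := prod_erase_sub l c
  rw [u, erase_insert na, prod_insert nb, prod_insert nc] at e1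
  rw [u, erase_insert_of_ne h1, erase_insert nb, prod_insert (by simp [m, h2]),
    prod_insert nc] at e2
  rw [u, erase_insert_of_ne h2, erase_insert_of_ne h3, erase_insert nc,
    prod_insert (by simp [m, h1]), prod_insert (by simp [m])] at e3
  have e4 : (∏ x ∈ S, (x - a) * (x - b) * (x - c)) * ((a - b) * (a - c) * (b - c)) ^ 2 = 1 := by
    rw [prod_mul_distrib, prod_mul_distrib]
    linear_combination -((a - b) * ((c - b) * ∏ x ∈ S, (x - b))) *
      ((a - c) * ((b - c) * ∏ x ∈ S, (x - c))) * e1 +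
      ((a - c) * ((b - c) * ∏ x ∈ S, (x - c))) * e2 - e3
  have e5 := congrArg (quadraticChar (ZMod l)) e4
  rw [map_mul, quadraticChar_sq_one' (mul_ne_zero (mul_ne_zero (sub_ne_zero.2 h1)
    (sub_ne_zero.2 h2)) (sub_ne_zero.2 h3)), map_one, mul_one, map_prod] at e5
  have e6 := (sum_sign (f := fun x => quadraticChar (ZMod l) ((x - a) * (x - b) * (x - c))) S
    fun x hx => quadraticChar_dichotomy (by simp [sub_eq_zero, (m x).1 hx])).1
  rw [tr, u, sum_insert na, sum_insert nb, sum_insert nc]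
  simp only [sub_self, zero_mul, mul_zero, quadraticChar_zero]
  omega

theorem jac_abs {d : ℤ} {l : ℕ} (hd : d % 4 = 1) (hl : Odd l) :
    J((l : ℤ) | d.natAbs) = J(d | l) := by
  rcases Int.natAbs_eq d with e | e
  · rw [← jacobiSym.quadratic_reciprocity_one_mod_four (by omega) hl, ← e]
  · rw [← jac_neg_swap (by omega) hl, ← e]

section
variable {W W' : WeierstrassCurve ℚ} {u r s t : ℚ}

theorem vc_base (h : VC (RingHom.id ℚ) W' W u r s t) (F : Type) [Field F] [CharZero F] :
    VC (RingHom.id F) (W'.baseChange F) (W.baseChange F) u r s t := by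
  obtain ⟨h0, h1, h2, h3, h4, h6⟩ := h
  refine ⟨Rat.cast_ne_zero.2 h0, ?_, ?_, ?_, ?_, ?_⟩ <;>
    simp only [RingHom.id_apply, WeierstrassCurve.baseChange, WeierstrassCurve.map,
      eq_ratCast] at * <;> assumption_mod_cast

theorem vc_surj {F : Type} [Field F] {W W' : WeierstrassCurve F} {u r s t : F}
    (h : VC (RingHom.id F) W' W u r s t) : Function.Surjective h.hom := by
  have h0 := h.hu
  rintro (_ | ⟨X, Y, k⟩)
  · exact ⟨0, rfl⟩
  · exact h.mem_range k (x := (X - r) / u ^ 2) (y := (Y - s * (X - r) - t) / u ^ 3)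
      (by rw [RingHom.id_apply]; field_simp; ring)
      (by simp only [RingHom.id_apply]; field_simp; ring)

theorem vc_pm (h : VC (RingHom.id ℚ) W' W u r s t) {F F' : Type} [Field F] [CharZero F] [Field F']
    [CharZero F'] (f : F →+* F') (P : B2.Stmt.Pts W' F) :
    pm W f ((vc_base h F).hom P) = (vc_base h F').hom (pm W' f P) := by
  rcases P with _ | ⟨x, y, k⟩
  · rfl
  · refine (WeierstrassCurve.Affine.Point.some.injEq ..).mpr ⟨?_, ?_⟩ <;> simp

theorem corank_vc (h : VC (RingHom.id ℚ) W' W u r s t) {k : ℕ} (hW : CorankLE W k) :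
    CorankLE W' k := by
  obtain ⟨C, hC⟩ := hW
  refine ⟨C, fun m S h1 h2 => ?_⟩
  have i := fun (F : Type) [Field F] [CharZero F] => (vc_base h F).hom_injective
  have loc : ∀ (F : Type) [Field F] [CharZero F] ξ, LocTriv W' F ξ →
      LocTriv W F fun σ => (vc_base h _).hom (ξ σ) := fun F _ _ ξ k j => by
    obtain ⟨P, hP⟩ := k j
    exact ⟨(vc_base h _).hom P, fun s σ e => by rw [vc_pm h, hP s σ e, map_sub, vc_pm h]⟩
  rw [← card_image_of_injective S (f := fun ξ σ => (vc_base h _).hom (ξ σ))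
    fun ξ η e => funext fun σ => i _ (congrFun e σ)]
  refine hC m _ (fun x hx => ?_) fun x hx y hy e => ?_
  · obtain ⟨ξ, k, rfl⟩ := mem_image.1 hx
    obtain ⟨a1, a2, a3, a4, a5⟩ := h1 ξ k
    exact ⟨a1.comp _, fun σ => by rw [← map_nsmul, a2, map_zero],
      fun σ τ => by simp only [a3, map_add, vc_pm h], loc _ _ a4, fun p _ => loc _ _ (a5 p)⟩
  · obtain ⟨ξ, k, rfl⟩ := mem_image.1 hx
    obtain ⟨η, k', rfl⟩ := mem_image.1 hy
    obtain ⟨P, p1, p2⟩ := e
    obtain ⟨P, rfl⟩ := vc_surj (vc_base h _) P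
    rw [h2 ξ k η k' ⟨P, i _ (by rw [map_nsmul, p1, map_zero]), fun σ => i _ (by
      rw [map_sub, map_sub, ← vc_pm h, ← p2])⟩]

theorem rank_vc (h : VC (RingHom.id ℚ) W' W u r s t) : (Module.Finite ℤ W'.toAffine.Point →
    Module.Finite ℤ W.toAffine.Point) ∧
    Module.finrank ℤ W.toAffine.Point = Module.finrank ℤ W'.toAffine.Point :=
  have e := (AddEquiv.ofBijective h.hom ⟨h.hom_injective, vc_surj h⟩).toIntLinearEquiv
  ⟨fun _ => .equiv e, e.finrank_eq.symm⟩

end

end Pool.Agent.G5
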