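import Pool.Agent.Lib.MP_696deb_nt.B5.Z2

/-! The relation between special points of different fields: statements. -/

set_option autoImplicit false

open Finset NumberTheorySymbols
open scoped Classical ComplexConjugate

namespace Pool.Agent.G5

open Pool.Agent.Lib.MP_696deb_nt Pool.Agent.B4.GE Pool.Agent.Shared.Weier

/-- The image of a twisted special divisor. -/
noncomputable def yP {W : WeierstrassCurve ℚ} {N : ℕ} (P : Par W N) (B : ℕ) (T : Finset Fm) :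
    Pt W ℂ := ∑ Q ∈ T, gch B Q • P.φ (froot Q)

/-- The same for a newform. -/
noncomputable abbrev yG {W : WeierstrassCurve ℚ} {N : ℕ} (D : MD W N) (B : ℕ) (T : Finset Fm) :
    Pt W ℂ := yP D.par B T

/-- The counts of pairs of a point and a geodesic agree for a twisted and a split family. -/
def MAStmt : Prop := ∀ (N p A B : ℕ) (γ : ℤ), Good N (A * B) → 3 < A * B → p.Prime → p ∣ N →
  (p : ℤ) ∣ γ + A → 2 * ((N / p : ℕ) : ℤ) ∣ γ - A → ∃ σ : ℤ, (σ = 1 ∨ σ = -1) ∧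
  ∀ (x ρ ρ₂ β t : ℤ) (n m : ℕ) (T T₂ : Finset Fm), Squarefree n → 3 < n → m ≠ 0 →
    B * x = n * m ^ 2 → 4 * (N : ℤ) ∣ ρ ^ 2 + (A * B : ℕ) → 2 * (N : ℤ) ∣ ρ * β - γ * ρ₂ →
    FReps N (-(A * B : ℕ)) ρ T → FReps N (-(B * x)) ρ₂ T₂ →
    cntP T (gch B) (wG N A (A * x) β) t = σ * cntP T₂ (gch B) (wG N A (A * A) γ) t

/-- The Hecke recursion for an arbitrary discriminant, at the primes that do not divide it. -/
def HGStmt : Prop := ∀ (N C K : ℕ) (e β : ℤ) (η : ℕ → ℤ), Squarefree C → Odd C → (C : ℤ) ∣ e →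
  N ∣ K → 2 * e ∣ K → (∀ l : ℕ, l.Prime → ¬ l ∣ K → η l = J((l : ℤ) | C) * J(e | l)) →
  (0 < e → (∀ m : ℕ, m ≠ 0 → m.Coprime K → ∀ R, wG N C (e * m ^ 2) (β * m) R ≠ 0 → R.1 ≠ 0) →
    HFm K η fun m => Iw (wG N C (e * m ^ 2) (β * m))) ∧
  (e < 0 → HFm K η fun m => nuW (wZ N C (e * m ^ 2) (β * m)))

/-- The operator `T l - (l + 1)` makes every class parabolic. -/
def ESStmt : Prop := ∀ (N l : ℕ) (I : ℂ → ℝ), Squarefree N → l.Prime → ¬ l ∣ N →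
  (∀ g, G0 N g → ∃ c, ∀ z : ℂ, 0 < z.im → I (act g z) = I z + c) →
  ∃ G, Ci N G ∧ Inv0 N fun z => (G z).re - (Tf ℝ l I z - (l + 1) * I z)

/-- The Hecke operators move from the special divisors to an invariant function. -/
def AJStmt : Prop := ∀ (N K B n g : ℕ) (D ρ : ℤ) (η : ℕ → ℤ) (T T' : ℕ → Finset Fm) (t : HW),
  1 < N → N ∣ K → Odd B → (B : ℤ) ∣ D → Squarefree n → 3 < n → g ≠ 0 → D = -(n * g ^ 2) →
  IsCoprime (N : ℤ) ρ → t ∈ HA K →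
  (∀ m : ℕ, m ≠ 0 → FReps N (D * m ^ 2) (ρ * m) (T m) ∧ FReps N (D * m ^ 2) (-(ρ * m)) (T' m)) →
  (HFm K η fun m => nuW (wZ N B (D * m ^ 2) (ρ * m))) →
  ∀ (V : Type) [AddCommGroup V] (S : ℂ → V), Inv0 N S →
    cmb (fun m => ∑ Q ∈ T m ∪ T' m, wZ N B (D * m ^ 2) (ρ * m) Q • S (froot Q))
      (ha η t (Finsupp.single 1 1)) = ∑ Q ∈ T 1 ∪ T' 1, wZ N B D ρ Q • hf V t S (froot Q)

/-- The class of the split family survives when the twisted period does not vanish. -/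
def PDStmt : Prop := ∀ (N p A : ℕ) (β ε : ℤ) (F F₂ G : ℂ → ℂ) (a : ℕ → ℤ) (t : HW) (w : MZ) (s : ℤ)
  (c c₂ κ κ₂ c₃ : ℂ), Squarefree N → Odd N → p.Prime → p ∣ N → N ≠ p → Squarefree A → Odd A →
  A.Coprime N → (ε = 1 ∨ ε = -1) → (p : ℤ) ∣ β + ε * A → 2 * ((N / p : ℕ) : ℤ) ∣ β - ε * A →
  Ci N F → Ci N F₂ → Eig N a F → ALm N p w → (s = 1 ∨ s = -1) →
  (∀ z : ℂ, 0 < z.im → F (act w z) = s * F z + c ∧ F₂ (act w z) = -s * F₂ z + c₂) → t ∈ HA N →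
  (Inv0 N fun z => (G z).re -
    cmb (fun m => Iw (Cw N A β m)) (ha (et A) t (Finsupp.single 1 1)) z) →
  (∀ z : ℂ, 0 < z.im → G z = κ * F z + κ₂ * F₂ z + c₃) → he a t ≠ 0 → LA F A 1 ≠ 0 → κ ≠ 0

/-- The relation of Gross, Kohnen and Zagier at a composite level, for a fixed orientation. -/
def GKStmt : Prop := ∀ (W : WeierstrassCurve ℚ) (N p : ℕ) (P : Par W N) (F₂ : ℂ → ℂ) (A x M : ℕ)
  (β γ : ℤ), Squarefree N → Odd N → p.Prime → p ∣ N → N ≠ p → Cp P F₂ p →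
  (∀ z : ℂ, 0 < z.im → F₂ (-conj z) = conj (F₂ z)) → IsOfFinAddOrder (P.per.unif P.t0) →
  (∀ l : ℕ, l.Prime → ¬ l ∣ N → P.a l ≠ l + 1) → Squarefree A → Odd A → A.Coprime N →
  Squarefree x → Odd x → x.Coprime N → A ≠ x → M ≠ 0 →
  (p : ℤ) ∣ γ + A → 2 * ((N / p : ℕ) : ℤ) ∣ γ - A →
  ∃ al nu : ℤ, (LA P.F A 1 ≠ 0 → nu ≠ 0) ∧ ∀ (B : ℕ) (ρ ρ₂ : ℤ) (T T₂ : Finset Fm), B ∣ M →
    Good N (A * B) → 3 < A * B → J(-N | B) = -1 → (∀ k : ℕ, B * x ≠ 3 * k ^ 2) →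
    4 * (N : ℤ) ∣ ρ ^ 2 + (A * B : ℕ) → 4 * (N : ℤ) ∣ ρ₂ ^ 2 + (B * x : ℕ) →
    2 * (N : ℤ) ∣ ρ * β - γ * ρ₂ → FReps N (-(A * B : ℕ)) ρ T → FReps N (-(B * x : ℕ)) ρ₂ T₂ →
    ∃ s : ℤ, (s = 1 ∨ s = -1) ∧ IsOfFinAddOrder (al • yP P B T - (s * nu) • yP P B T₂)

/-- Change of orientation. -/
def ORStmt : Prop := ∀ (W : WeierstrassCurve ℚ) (N : ℕ) (D : MD W N) (B : ℕ) (e ρ ρ' : ℤ)
  (T T' : Finset Fm), Squarefree N → Odd N → (∀ p : ℕ, p.Prime → p ∣ N → Cp D.par 0 p) →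
  Squarefree B → Odd B → B.Coprime N → (B : ℤ) ∣ e → e < 0 → 4 * (N : ℤ) ∣ ρ ^ 2 - e →
  4 * (N : ℤ) ∣ ρ' ^ 2 - e → FReps N e ρ T → FReps N e ρ' T' →
  ∃ s : ℤ, (s = 1 ∨ s = -1) ∧ IsOfFinAddOrder (yG D B T' - s • yG D B T)

/-- The formula of Gross and Zagier at the level of the newform. -/
def GZ6Stmt : Prop := ∀ (W : WeierstrassCurve ℚ) [W.IsElliptic] (N : ℕ) (D : MD W N),
  (∃ W' : WeierstrassCurve ℤ, W = W'.map (Int.castRingHom ℚ)) → Squarefree N → Odd N → 1 < N →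
  Nw D → (∀ n M : ℕ, Squarefree n → n % 4 = 3 → M ≠ 0 →
    ∃ l : ℕ, l.Prime ∧ ¬ l ∣ M ∧ J((l : ℤ) | n) = -1 ∧ D.c l ≠ 0) →
  ∀ r : ℕ, r.Prime → r % 4 = 1 → ¬ r ∣ N → ∃ B₀ : ℕ, ∀ (A B : ℕ) (ρ : ℤ) (T : Finset Fm),
    J((r : ℤ) | A) = 1 → J((r : ℤ) | B) = 1 → Good N (A * B) → 1 < A → 1 < B → B₀ < A * B →
    J(-N | B) = -1 → 4 * (N : ℤ) ∣ ρ ^ 2 + (A * B : ℕ) → FReps N (-(A * B : ℕ)) ρ T →
    ¬ IsOfFinAddOrder (yG D B T) →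
    LA D.par.F A 1 ≠ 0 ∧ LA D.par.F B 1 = 0 ∧ deriv (LA D.par.F B) 1 ≠ 0

/-- The relation of Gross, Kohnen and Zagier at the level of the newform. -/
def GK6Stmt : Prop := ∀ (W : WeierstrassCurve ℚ) (N : ℕ) (D : MD W N), Squarefree N → Odd N →
  1 < N → Nw D → ∀ A x M : ℕ, Squarefree A → Odd A → A.Coprime N → Squarefree x → Odd x →
  x.Coprime N → A ≠ x → M ≠ 0 →
  ∃ al nu : ℤ, (LA D.par.F A 1 ≠ 0 → nu ≠ 0) ∧ ∀ (B : ℕ) (ρ ρ₂ : ℤ) (T T₂ : Finset Fm), B ∣ M →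
    Good N (A * B) → 3 < A * B → J(-N | B) = -1 → (∀ k : ℕ, B * x ≠ 3 * k ^ 2) →
    4 * (N : ℤ) ∣ ρ ^ 2 + (A * B : ℕ) → 4 * (N : ℤ) ∣ ρ₂ ^ 2 + (B * x : ℕ) →
    FReps N (-(A * B : ℕ)) ρ T → FReps N (-(B * x : ℕ)) ρ₂ T₂ →
    ∃ s : ℤ, (s = 1 ∨ s = -1) ∧ IsOfFinAddOrder (al • yG D B T - (s * nu) • yG D B T₂)

end Pool.Agent.G5
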