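import Pool.Agent.Lib.MP_696deb_nt.B5.NLb

/-! Real valued extensions of finite places to the complex numbers. -/

set_option autoImplicit false

open Cardinal Filter Topology NumberField
open scoped NNReal

namespace Pool.Agent.B5

open Pool.Agent.Lib.MP_696deb_nt

theorem mk_le_of_dense {X K : Type} [MetricSpace X] [Countable K] {f : K → X} (h : DenseRange f) :
    mk X ≤ 𝔠 := by
  choose u hu using fun x : X => (mem_closure_iff_seq_limit.1 (h x))
  choose s hs using fun x n => (hu x).1 n
  refine (mk_le_of_injective (f := s) fun x y e => tendsto_nhds_unique (hu x).2 ?_).trans ?_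
  · rw [show u x = u y from funext fun n => by rw [← hs, ← hs, e]]
    exact (hu y).2
  · rw [mk_arrow, lift_id, lift_id, mk_nat, ← aleph0_power_aleph0]
    exact power_le_power_right mk_le_aleph0

theorem exists_abv {K : Type} [Field K] [Countable K] (f : K →+* ℂ) {w : AbsoluteValue K ℝ}
    (hw : IsNonarchimedean w) {x₀ : K} (h0 : 1 < w x₀) :
    ∃ v : AbsoluteValue ℂ ℝ, IsNonarchimedean v ∧ ∀ x, v (f x) = w x := by
  let F := w.Completion
  let i : K →+* F := UniformSpace.Completion.coeRingHom.comp (WithAbs.equiv w).symm.toRingHom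
  have hi : ∀ x, ‖i x‖ = w x := fun x => UniformSpace.Completion.norm_coe _
  let : NontriviallyNormedField F := { non_trivial := ⟨i x₀, (hi x₀).symm ▸ h0⟩ }
  have : IsUltrametricDist F :=
    IsUltrametricDist.isUltrametricDist_of_isNonarchimedean_norm fun a b => by
      refine UniformSpace.Completion.induction_on₂ a b (isClosed_le (by fun_prop) (by fun_prop))
        fun a b => ?_
      change ‖i a.ofAbs + i b.ofAbs‖ ≤ max ‖i a.ofAbs‖ ‖i b.ofAbs‖
      rw [← map_add, hi, hi, hi]
      exact hw _ _
  have c1 : mk F ≤ 𝔠 := mk_le_of_dense (f := i)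
    (UniformSpace.Completion.denseRange_coe.comp (WithAbs.toAbs_surjective w).denseRange
      (UniformSpace.Completion.continuous_coe _))
  have c2 : mk (AlgebraicClosure F) = 𝔠 := le_antisymm
    ((Algebra.IsAlgebraic.cardinalMk_le_max F _).trans (max_le c1 aleph0_le_continuum))
    ((continuum_le_cardinal_of_nontriviallyNormedField F).trans
      (mk_le_of_injective (algebraMap F _).injective))
  obtain ⟨e, he⟩ := Gal.exists_iso c2 f ((algebraMap F _).comp i) f.injective (RingHom.injective _)
  let n := spectralMulAlgNorm F (AlgebraicClosure F)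
  refine ⟨⟨⟨fun x => n (e x), fun x y => by simp only [map_mul]⟩, fun x => apply_nonneg n _,
    fun x => by simp, fun x y => by simpa using map_add_le_add n _ _⟩, fun x y => ?_, fun x => ?_⟩
  · change n (e (x + y)) ≤ max (n (e x)) (n (e y))
    rw [map_add]
    exact isNonarchimedean_spectralNorm (e x) (e y)
  · change n (e (f x)) = _
    rw [he, ← hi]
    exact spectralAlgNorm_extends _

theorem exists_abv_place {K : Type} [Field K] [NumberField K] (f : K →+* ℂ) (w : FinitePlace K) :
    ∃ v : AbsoluteValue ℂ ℝ, IsNonarchimedean v ∧ ∀ x, v (f x) = w x := by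
  have : Countable K := (Module.finBasis ℚ K).equivFun.toEquiv.countable_iff.mpr inferInstance
  obtain ⟨p, hp, h, -⟩ := exists_prime_below w
  exact exists_abv f (w := w.1) w.add_le (x₀ := (p : K)⁻¹) (by
    rw [map_inv₀]
    exact (one_lt_inv₀ (w.1.pos (by exact_mod_cast hp.ne_zero))).2 h)

/-- The valuation defined by a nonarchimedean absolute value. -/
def valOf {v : AbsoluteValue ℂ ℝ} (hv : IsNonarchimedean v) : Valuation ℂ ℝ≥0 where
  toFun x := ⟨v x, v.nonneg x⟩
  map_zero' := NNReal.eq v.map_zero
  map_one' := NNReal.eq v.map_one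
  map_mul' x y := NNReal.eq (v.map_mul x y)
  map_add_le_max' x y := by
    rcases le_max_iff.1 (hv x y) with h | h
    exacts [le_max_of_le_left h, le_max_of_le_right h]

theorem coe_valOf {v : AbsoluteValue ℂ ℝ} (hv : IsNonarchimedean v) (x : ℂ) :
    (valOf hv x : ℝ) = v x := rfl

theorem lamV_pmap {K L : Type*} [Field K] [DecidableEq K] [CharZero K] [Field L] [DecidableEq L]
    [CharZero L] {W : WeierstrassCurve ℚ} (f : K →+* L) {w : AbsoluteValue K ℝ}
    {v : AbsoluteValue L ℝ} (h : ∀ x, v (f x) = w x) (P : Pt W K) :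
    lamV v (pmap f P) = lamV w P := by
  simp only [lamV, dfc, hx, ← map_nsmul, xco_pmap, dupc_pmap, h]

end Pool.Agent.B5
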