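import Pool.Agent.Lib.MP_696deb_nt.B5.RWa

/-! Modular data and traces of Frobenius for a curve with an odd torsion point. -/

set_option autoImplicit false

open PowerSeries Filter Topology Complex Finset
open scoped Real MatrixGroups

namespace Pool.Agent.B5

open Pool.Agent.Lib.MP_696deb_nt Pool.Agent.Lib.MP_696deb_nt.B4 Pool.Agent.B4.GE
open Pool.Agent.Lib.MP_696deb_nt.Unif Pool.Agent.Shared.Weier

variable {N l : ℕ} {a b c : ℤ} (R : RW N a b c) {z : ℂ} {L : PeriodPair} {W : WeierstrassCurve ℚ}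

/-- The cusp form. -/
noncomputable def RW.form : CuspForm (CongruenceSubgroup.Gamma0 N) 2 where
  toFun τ := R.f τ
  slash_action_eq' := by
    rintro _ ⟨γ, hγ, rfl⟩
    ext τ
    have h2 := ModularForm.SL_slash_apply (f := fun τ : UpperHalfPlane => R.f τ) (k := 2) γ τ
    have h3 := R.inv γ.1 ⟨γ.2, (ZMod.intCast_zmod_eq_zero_iff_dvd _ _).mp
      (CongruenceSubgroup.Gamma0_mem.mp hγ)⟩ τ τ.im_pos
    have h4 := den_ne' (M := γ.1) (by rw [γ.2]; exact one_ne_zero) τ.im_pos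
    rw [coe_smul_eq_mob, ← act, h3] at h2
    refine h2.trans ?_
    change _ * den γ.1 τ ^ (-(2 : ℤ)) = _
    rw [zpow_neg, zpow_ofNat]
    field_simp
  holo' := R.qf.hol.mdiff
  zero_at_cusps' := by
    intro c hc
    have : NeZero N := ⟨R.N0⟩
    rw [Subgroup.IsArithmetic.isCusp_iff_isCusp_SL2Z] at hc
    rw [OnePoint.isZeroAt_iff_forall_SL2Z hc]
    intro γ _
    refine ((R.cusp γ.1 γ.2).comp UpperHalfPlane.tendsto_coe_atImInfty).congr fun τ => ?_
    rw [ModularForm.SL_slash_apply, coe_smul_eq_mob, zpow_neg, Function.comp_apply, div_eq_mul_inv]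
    rfl

theorem RW.form_apply (τ : UpperHalfPlane) : R.form τ = R.f τ := rfl

/-- The cubic belongs to the curve. -/
structure Cw (a b c : ℤ) (W : WeierstrassCurve ℚ) : Prop where
  h2 : W.b₂ = a
  h4 : 2 * W.b₄ = b
  h6 : W.b₆ = c

theorem Cw.b2 (h : Cw a b c W) : (W.baseChange ℂ).b₂ = a := by
  rw [WeierstrassCurve.baseChange, WeierstrassCurve.map_b₂, h.h2, map_intCast]

theorem Cw.sw (h : Cw a b c W) (per : IsPer L (W.baseChange ℂ)) : Sw a b c L := by
  constructor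
  · rw [← per.h4, WeierstrassCurve.baseChange, WeierstrassCurve.map_c₄, eq_ratCast]
    exact_mod_cast (by rw [WeierstrassCurve.c₄, h.h2, ← h.h4]; ring : W.c₄ = a ^ 2 - 12 * b)
  · rw [← per.h6, WeierstrassCurve.baseChange, WeierstrassCurve.map_c₆, eq_ratCast]
    exact_mod_cast (by rw [WeierstrassCurve.c₆, h.h2, ← h.h4, h.h6]; ring :
      W.c₆ = -a ^ 3 + 18 * a * b - 216 * c)

/-- The modular data. -/
theorem RW.md (h : Cw a b c W) (per : IsPer L (W.baseChange ℂ))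
    (hW : ∀ z : ℂ, 0 < z.im → R.f (-1 / (N * z)) = -(N * z ^ 2 * R.f z)) :
    ∃ D : MD W N, D.c = (fun n => coeff n R.cs) ∧ D.L = L ∧ D.k = 1 ∧ D.F = R.F := by
  obtain ⟨Ω, -, o2⟩ := gl_fricke R.N0 R.qf R.c0' hW
  refine ⟨⟨R.N0, R.form, fun n => coeff n R.cs, R.c1, fun τ => ?_, R.hT, fun τ τ' e => ?_, R.F,
    fun z => ?_, L, per, 1, one_ne_zero, fun γ hγ τ => ?_, Ω, ?_⟩, rfl, rfl, rfl, rfl⟩
  · simpa only [coeff_map, eq_intCast, q1, R.form_apply] using R.qf.hasSum τ.im_pos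
  · rw [R.form_apply, R.form_apply, e, hW _ τ.im_pos, neg_mul]
  · simp only [RW.F, prF, coeff_map, eq_intCast, q1]
  · rw [coe_smul_eq_mob, Rat.cast_one, one_mul]
    exact R.per (h.sw per) (g := γ.1) ⟨γ.2, (ZMod.intCast_zmod_eq_zero_iff_dvd _ _).mp
      (CongruenceSubgroup.Gamma0_mem.mp hγ)⟩ τ.im_pos
  · simpa only [mul_comm I, RW.F] using o2

theorem two_ne_zmod [hl : Fact l.Prime] (h2 : l ≠ 2) : (2 : ZMod l) ≠ 0 := fun e =>
  h2 ((Nat.prime_dvd_prime_iff_eq hl.out Nat.prime_two).1 ((ZMod.natCast_eq_zero_iff 2 l).1 e))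

variable {f A B : ℤ⟦X⟧}

theorem Ode.cong [Fact l.Prime] (h2 : l ≠ 2) (h : Ode a b c f A (X ^ 2 * B)) (c0 : coeff 0 f = 0)
    (c1 : coeff 1 f = 1) (A0 : coeff 0 A = coeff 0 B) (hB : ¬ (l : ℤ) ∣ coeff 0 B) :
    ((tr l fun x => 4 * x ^ 3 + a * x ^ 2 + b * x + c : ℤ) : ZMod l) = (coeff l f : ℤ) := by
  obtain ⟨m, hm⟩ := (Fact.out : l.Prime).odd_of_ne_two h2
  let φ : ℤ →+* ZMod l := Int.castRingHom (ZMod l)
  let Q : Cubic (ZMod l) := ⟨4, a, b, c⟩
  have hg : Q.toPoly.natDegree ≤ 3 := by rw [Cubic.toPoly]; compute_degree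
  have k := h.map φ
  have B0 : constantCoeff (PowerSeries.map φ B) ≠ 0 := by
    rw [← coeff_zero_eq_constantCoeff_apply, coeff_map]
    exact mt (ZMod.intCast_zmod_eq_zero_iff_dvd _ l).1 hB
  have A1 : constantCoeff (PowerSeries.map φ A) = constantCoeff (PowerSeries.map φ B) := by
    simp only [← coeff_zero_eq_constantCoeff_apply, coeff_map, A0]
  have f0 : constantCoeff (PowerSeries.map φ f) = 0 := by
    rw [← coeff_zero_eq_constantCoeff_apply, coeff_map, c0, map_zero]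
  have f1 : coeff 1 (PowerSeries.map φ f) = 1 := by rw [coeff_map, c1, map_one]
  rw [← eq_intCast φ (coeff l f), ← coeff_map]
  rw [map_mul, map_pow, map_X] at k
  generalize PowerSeries.map φ A = A at *
  generalize PowerSeries.map φ B = B at *
  generalize PowerSeries.map φ f = f at *
  obtain ⟨g, rfl⟩ := X_dvd_iff.2 f0
  obtain ⟨u, rfl⟩ : ∃ u, A = u * B := ⟨A * B⁻¹, by
    rw [mul_assoc, PowerSeries.inv_mul_cancel _ B0, mul_one]⟩
  have g0 := f1
  rw [coeff_succ_X_mul, coeff_zero_eq_constantCoeff_apply] at g0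
  have u0 : constantCoeff u = 1 := mul_right_cancel₀ B0 (by rw [one_mul, ← map_mul, A1])
  have g1 := PowerSeries.mul_inv_cancel g (by rw [g0]; exact one_ne_zero)
  have B1 : B ≠ 0 := fun e => B0 (by rw [e, map_zero])
  obtain ⟨v, hv⟩ : ∃ v, v = (X * d⁄dX (ZMod l) u - 2 * u) * g⁻¹ := ⟨_, rfl⟩
  have E1 : v * g = X * d⁄dX (ZMod l) u - 2 * u := by
    rw [hv]
    linear_combination (X * d⁄dX (ZMod l) u - 2 * u) * g1
  have := cartier l m hm Q.toPoly hg u v (X * g) 1 one_ne_zero (by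
      simpa [hv, u0, g0, map_ofNat] using two_ne_zmod h2) f0 (by
      simp only [sum_range_succ, sum_range_zero, Cubic.coeff_eq_a, Cubic.coeff_eq_b,
        Cubic.coeff_eq_c, Cubic.coeff_eq_d, Q, map_ofNat]
      simp only [Ode, Derivation.leibniz, Derivation.leibniz_pow, derivative_X, smul_eq_mul,
        nsmul_eq_mul, Nat.cast_ofNat, Nat.add_one_sub_one, eq_intCast φ] at k
      refine mul_left_cancel₀ (pow_ne_zero 2 (mul_ne_zero (mul_ne_zero (pow_ne_zero 2 X_ne_zero)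
        (left_ne_zero_of_mul_eq_one g1)) (pow_ne_zero 2 B1))) ?_
      linear_combination k + X ^ 4 * B ^ 4 * (v * g + (X * d⁄dX (ZMod l) u - 2 * u)) * E1)
    (by rw [← E1, map_one]; ring)
  rw [← tr_cast l m hm _ hg, f1, mul_one] at this
  rw [this]
  congr 2 with x
  simp [Q, Cubic.toPoly]

theorem Ode.strip [hl : Fact l.Prime] (h2 : l ≠ 2) (c1 : coeff 1 f = 1) (n : ℕ) : ∀ (D : ℤ) (A : ℤ⟦X⟧),
    D.natAbs = n → D ≠ 0 → coeff 0 A = D → Ode a b c f A (C D * f ^ 2) →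
      ∃ (D : ℤ) (A : ℤ⟦X⟧), ¬ (l : ℤ) ∣ D ∧ coeff 0 A = D ∧ Ode a b c f A (C D * f ^ 2) := by
  refine Nat.strong_induction_on n fun n ih D A hn D0 A0 h => ?_
  by_cases hD : (l : ℤ) ∣ D
  swap
  · exact ⟨D, A, hD, A0, h⟩
  obtain ⟨E, rfl⟩ := hD
  let φ : ℤ →+* ZMod l := Int.castRingHom (ZMod l)
  have f0 : f ≠ 0 := fun e => by simp [e] at c1
  have l0 : (C (l : ℤ) : ℤ⟦X⟧) ≠ 0 := by
    rw [ne_eq, map_eq_zero_iff _ C_injective]
    exact left_ne_zero_of_mul D0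
  have E0 : (C E : ℤ⟦X⟧) ≠ 0 := by
    rw [ne_eq, map_eq_zero_iff _ C_injective]
    exact right_ne_zero_of_mul D0
  simp only [Ode, Derivation.leibniz, Derivation.leibniz_pow, derivative_C, smul_eq_mul,
    nsmul_eq_mul, Nat.cast_ofNat, Nat.add_one_sub_one, map_mul] at h
  have k : C (l : ℤ) * (C E * (X * (d⁄dX ℤ A * f - 2 * A * d⁄dX ℤ f)) ^ 2 - f ^ 2 *
      (C a * A ^ 2 * (C E * f ^ 2) + C b * A * C (l : ℤ) * (C E * f ^ 2) ^ 2 +
        C c * C (l : ℤ) ^ 2 * (C E * f ^ 2) ^ 3)) = f ^ 2 * (2 ^ 2 * A ^ 3) :=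
    mul_left_cancel₀ (mul_ne_zero (mul_ne_zero l0 E0) (pow_ne_zero 2 f0)) (by linear_combination h)
  replace k := congrArg (PowerSeries.map φ) k
  rw [map_mul, map_C, map_natCast φ, ZMod.natCast_self, map_zero, zero_mul, map_mul, map_mul,
    map_pow, map_pow, map_pow, map_ofNat, eq_comm, mul_eq_zero, mul_eq_zero] at k
  have A1 : PowerSeries.map φ A = 0 := by
    rcases k with k | k | k
    · have := congrArg (coeff 1) (pow_eq_zero_iff two_ne_zero |>.1 k)
      simp [c1] at this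
    · have := congrArg constantCoeff (pow_eq_zero_iff two_ne_zero |>.1 k)
      rw [map_ofNat, map_zero] at this
      exact absurd this (two_ne_zmod h2)
    · exact pow_eq_zero_iff three_ne_zero |>.1 k
  obtain ⟨A, rfl⟩ : ∃ A', A = C (l : ℤ) * A' := ⟨PowerSeries.mk fun i => coeff i A / l, by
    ext i
    rw [coeff_C_mul, coeff_mk, Int.mul_ediv_cancel' ((ZMod.intCast_zmod_eq_zero_iff_dvd _ l).1
      (by simpa using congrArg (coeff i) A1))]⟩
  refine ih _ ?_ E A rfl (right_ne_zero_of_mul D0)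
    (mul_left_cancel₀ (left_ne_zero_of_mul D0) (by rwa [coeff_C_mul] at A0)) ?_
  · rw [← hn, Int.natAbs_mul, Int.natAbs_natCast]
    exact lt_mul_of_one_lt_left (Int.natAbs_pos.2 (right_ne_zero_of_mul D0)) hl.out.one_lt
  · simp only [Ode, Derivation.leibniz, Derivation.leibniz_pow, derivative_C, smul_eq_mul,
      nsmul_eq_mul, Nat.cast_ofNat, Nat.add_one_sub_one] at h ⊢
    exact mul_left_cancel₀ (pow_ne_zero 4 l0) (by linear_combination h)

/-- The congruence at all odd primes in genus one. -/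
theorem Ode.cong1 [Fact l.Prime] (h2 : l ≠ 2) {D : ℤ} (h : Ode a b c f A (C D * f ^ 2))
    (c0 : coeff 0 f = 0) (c1 : coeff 1 f = 1) (D0 : D ≠ 0) (A0 : coeff 0 A = D) :
    ((tr l fun x => 4 * x ^ 3 + a * x ^ 2 + b * x + c : ℤ) : ZMod l) = (coeff l f : ℤ) := by
  obtain ⟨D, A, h1, h3, h⟩ := Ode.strip h2 c1 _ D A rfl D0 A0 h
  obtain ⟨g, rfl⟩ := X_dvd_iff.2 ((coeff_zero_eq_constantCoeff_apply f).symm.trans c0)
  have g0 := c1
  rw [coeff_succ_X_mul, coeff_zero_eq_constantCoeff_apply] at g0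
  have e : coeff 0 (C D * g ^ 2) = D := by simp [g0]
  rw [mul_pow, mul_left_comm] at h
  exact h.cong h2 c0 c1 (h3.trans e.symm) (e.symm ▸ h1)

theorem card_pts [Fact l.Prime] (h2 : l ≠ 2) (W : WeierstrassCurve (ZMod l)) [W.IsElliptic] :
    (Nat.card W.toAffine.Point : ℤ) =
      l + 1 - tr l fun x => 4 * x ^ 3 + W.b₂ * x ^ 2 + 2 * W.b₄ * x + W.b₆ := by
  have t := two_ne_zmod h2
  have := card_eq_sub_tr l h2 fun x => 4 * x ^ 3 + W.b₂ * x ^ 2 + 2 * W.b₄ * x + W.b₆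
  rw [Nat.card_congr W.toAffine.pointEquiv]
  erw [Finite.card_option]
  rw [← Nat.card_congr (Equiv.subtypeEquiv (p := fun q => W.toAffine.Equation q.1 q.2)
    ((Equiv.refl _).prodShear fun x => (Equiv.mulLeft₀ 2 t).trans
      (Equiv.addRight (W.a₁ * x + W.a₃))) fun q => ?_)] at this
  · push_cast
    linear_combination this
  · rw [WeierstrassCurve.Affine.equation_iff, ← mul_right_inj' (mul_ne_zero t t)]
    simp only [Equiv.prodShear_apply, Equiv.refl_apply, Equiv.trans_apply, Equiv.mulLeft₀_apply,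
      Equiv.coe_addRight, WeierstrassCurve.b₂, WeierstrassCurve.b₄, WeierstrassCurve.b₆]
    constructor <;> intro h <;> linear_combination h

theorem abs_tr [Fact l.Prime] (g : ZMod l → ZMod l) : |tr l g| ≤ l := by
  rw [tr, abs_neg]
  refine (abs_sum_le_sum_abs _ _).trans ?_
  simpa using sum_le_card_nsmul univ (fun x : ZMod l => |quadraticChar (ZMod l) (g x)|) 1
    fun x _ => by rcases quadraticChar_isQuadratic (ZMod l) (g x) with h | h | h <;> simp [h]

/-- The coefficient is determined by two congruences. -/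
theorem md_eq_tr [hl : Fact l.Prime] (D : MD W N) {t : ℕ} (ht : 3 ≤ t) (hc : l.Coprime t)
    (hN : ¬ l ∣ N) (ho : ∀ m : ℤ, m • D.par.per.unif D.par.t0 = 0 → (t : ℤ) ∣ m)
    {g : ZMod l → ZMod l} (h1 : ((tr l g : ℤ) : ZMod l) = (D.c l : ℤ))
    (h3 : (t : ℤ) ∣ l + 1 - tr l g) : D.c l = tr l g := by
  have h4 := ho _ (D.par.t0_kill hl.out hN)
  have h5 := md_abs D hl.out hN
  have h6 := abs_tr g
  rw [ZMod.intCast_eq_intCast_iff_dvd_sub] at h1
  have h7 := (Nat.isCoprime_iff_coprime.2 hc).mul_dvd h1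
    (by simpa [MD.par_a] using dvd_sub h3 h4)
  have h8 : (2 : ℤ) ≤ l := by exact_mod_cast hl.out.two_le
  have h9 : (3 : ℤ) ≤ t := by exact_mod_cast ht
  rw [abs_le] at h5 h6
  exact sub_eq_zero.1 (Int.eq_zero_of_abs_lt_dvd h7 (abs_lt.2 ⟨by nlinarith, by nlinarith⟩))

end Pool.Agent.B5
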