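import Pool.Agent.Lib.MP_696deb_nt.B5.CJa

/-! Conjugate points, and the transfer of divisibility. -/

set_option autoImplicit false

open Polynomial Filter Topology Asymptotics
open scoped Classical

namespace Pool.Agent.G5

open Pool.Agent.Lib.MP_696deb_nt Pool.Agent.B4.GE Pool.Agent.Shared.Weier Pool.Agent.B5
open Pool.Agent.Lib.MP_696deb_nt.B4

variable {N : ℕ} {σ : ℂ ≃+* ℂ} {f f' g g' G G' H : ℂ → ℂ} {z z' : ℂ}

theorem Cg.symm (h : Cg N σ f f') : Cg N σ.symm f' f := ⟨h.mf', h.mf, Cq.symm h.ex⟩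

theorem Cg.mul (h : Cg N σ f f') (k : Cg N σ g g') :
    Cg N σ (fun z => f z * g z) fun z => f' z * g' z :=
  ⟨mf_mul h.mf k.mf, mf_mul h.mf' k.mf', Cq.mul h.ex k.ex⟩

theorem Cg.add (h : Cg N σ f f') (k : Cg N σ g g') :
    Cg N σ (fun z => f z + g z) fun z => f' z + g' z :=
  ⟨mf_add h.mf k.mf, mf_add h.mf' k.mf', Cq.add h.ex k.ex⟩

theorem cg_const (c : ℂ) : Cg N σ (fun _ => c) fun _ => σ c := ⟨mf_const _, mf_const _, cq_const c⟩

theorem Cg.prod {ι : Type*} (s : Finset ι) {f f' : ι → ℂ → ℂ} (h : ∀ i ∈ s, Cg N σ (f i) (f' i)) :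
    Cg N σ (fun z => ∏ i ∈ s, f i z) fun z => ∏ i ∈ s, f' i z := by
  induction s using Finset.induction_on with
  | empty => simpa using cg_const (σ := σ) 1
  | insert i s hi ih =>
    simpa only [Finset.prod_insert hi] using (h i (by simp)).mul (ih fun j hj => h j (by simp [hj]))

theorem map_evalEval' (σ : ℂ ≃+* ℂ) (p : ℂ[X][X]) (x y : ℂ) :
    (p.map (mapRingHom (σ : ℂ →+* ℂ))).evalEval (σ x) (σ y) = σ (p.evalEval x y) :=
  map_mapRingHom_evalEval (σ : ℂ →+* ℂ) p x y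

theorem map_eval' (σ : ℂ ≃+* ℂ) (p : ℂ[X]) (x : ℂ) :
    (p.map (σ : ℂ →+* ℂ)).eval (σ x) = σ (p.eval x) := eval_map_apply (σ : ℂ →+* ℂ) x

theorem Pc.symm (h : Pc N σ z z') : Pc N σ.symm z' z :=
  ⟨h.pos', h.pos, fun f' f k => by rw [h.ev f f' k.symm, RingEquiv.symm_apply_apply]⟩

theorem Pc.act (h : Pc N σ z z') {γ : MZ} (hγ : G0 N γ) : Pc N σ z (act γ z') :=
  ⟨h.pos, act_pos (by rw [hγ.1]; exact one_pos) h.pos', fun f f' k => by
    rw [k.mf'.1 γ hγ z' h.pos', h.ev f f' k]⟩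

theorem Pc.rj (hN : N ≠ 0) (h : Pc N σ z z') : Rj N σ z z' :=
  ⟨h.pos, h.pos', h.ev _ _ ⟨mf_jf hN, mf_jf hN, cq_jf⟩, h.ev _ _ ⟨mf_jN hN, mf_jN hN, cq_jN hN⟩⟩

/-- Every point has a conjugate. -/
theorem exists_pc (hs : ∀ x : ℂ, ∃ z : ℂ, 0 < z.im ∧ jf z = x) (hN : N ≠ 0) (σ : ℂ ≃+* ℂ)
    (hz : 0 < z.im) : ∃ z', Pc N σ z z' := by
  have := finite_CI hN
  have := Fintype.ofFinite (CI N)
  obtain ⟨w, w1, w2⟩ := hs (σ (jf z))
  have a : ∀ f f', Cg N σ f f' → ∃ i : CI N, f' (act (cr i) w) = σ (f z) := fun f f' k => by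
    obtain ⟨A, -, -, hA⟩ := monic_exact hN k.mf'
    have e := congrArg σ ((cq_jf.evalEval (Cq.symm k.ex) A).zero (fun t ht => (hA t ht).2) hz)
    rw [← map_evalEval', Polynomial.map_map, mapRingHom_comp, RingEquiv.comp_symm, mapRingHom_id,
      Polynomial.map_id, ← w2, ← map_evalRingHom_eval, (hA w w1).1, eval_prod, map_zero,
      Finset.prod_eq_zero_iff] at e
    exact e.imp fun i hi => (sub_eq_zero.1 (by simpa using hi)).symm
  by_contra! hc
  choose f f' k1 k2 using fun i : CI N => (show ∃ f f', Cg N σ f f' ∧ f' (act (cr i) w) ≠ σ (f z) by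
    by_contra! e
    exact hc _ ⟨hz, act_pos (by rw [cr_det]; exact one_pos) w1, e⟩)
  obtain ⟨i, hi⟩ := a _ _ (Cg.prod Finset.univ fun i _ =>
    (k1 i).add (cg_const (σ.symm (-f' i (act (cr i) w)))))
  rw [Finset.prod_eq_zero (Finset.mem_univ i) (by simp), map_prod, eq_comm,
    Finset.prod_eq_zero_iff] at hi
  obtain ⟨j, -, hj⟩ := hi
  exact k2 j (add_neg_eq_zero.1 (by simpa using hj)).symm

theorem exists_pc' (hs : ∀ x : ℂ, ∃ z : ℂ, 0 < z.im ∧ jf z = x) (hN : N ≠ 0) (σ : ℂ ≃+* ℂ)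
    (hz : 0 < z'.im) : ∃ z, Pc N σ z z' := (exists_pc hs hN σ.symm hz).imp fun _ h => h.symm

theorem map_int (σ : ℂ ≃+* ℂ) (e : ℤ[X]) : (m1 e).map (σ : ℂ →+* ℂ) = m1 e := by
  ext; simp

theorem RF.mf (hN : N ≠ 0) {e : ℤ[X]} {A : ℤ[X][X]} (h : RF N e A f) (he : e ≠ 0) : MF N f :=
  ⟨h.inv, fun g hg => by
    simpa using LE.mono (h.mem (V := V1) hN (Valuation.one_apply_of_ne_zero (by simpa using he)) hg
      one_ne_zero) le_top⟩

theorem RF.cg (hN : N ≠ 0) {e : ℤ[X]} {A : ℤ[X][X]} (h : RF N e A f) (he : e ≠ 0) : Cg N σ f f := by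
  have m := RF.mf hN h he
  have a := (cq_jf (σ := σ)).evalEval (cq_jN hN) (m2 A)
  have b := (cq_jf (σ := σ)).eval (m1 e)
  rw [map_int] at b
  rw [show (m2 A).map (mapRingHom (σ : ℂ →+* ℂ)) = m2 A by ext; simp] at a
  obtain ⟨t, t1, t2⟩ := (geb_ne (b := m1 e) ((Polynomial.map_ne_zero_iff
    (Int.castRingHom ℂ).injective_int).2 he) (z := Complex.I) (by simp)).exists
  have c : ∀ z : ℂ, 0 < z.im → (m1 e).eval (jf z) * f z = (m2 A).evalEval (jf z) (jN N z) :=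
    fun z hz => by rw [eval_m1, eval_m2, h.rel z hz]
  exact ⟨m, m, b.cancel (a.congr c c) (mf_le hN m) (mf_le hN m) t1 t2⟩

variable {W : WeierstrassCurve ℚ}

theorem exists_chart (P : Par W N) (z : ℂ) : ∃ T : Chart P, aeval (jf z) T.b ≠ 0 := by
  obtain ⟨T, r, M, m0, hM⟩ := P.two_charts
  by_contra! h
  have := congrArg (aeval (jf z)) hM
  rw [map_add, map_mul, map_mul, h, h] at this
  exact m0 (by simpa using this.symm)

/-- The parametrization commutes with conjugation. -/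
theorem Pc.φ (P : Par W N) (h : Pc N σ z z') : P.φ z' = pmap (σ : ℂ →+* ℂ) (P.φ z) := by
  obtain ⟨T, hT⟩ := exists_chart P z
  have e : aeval (jf z') T.b = σ (aeval (jf z) T.b) := by
    rw [(h.rj P.N0).j]
    exact (map_ev1 (σ : ℂ →+* ℂ) _ _).symm
  have hT' : aeval (jf z') T.b ≠ 0 := by rwa [e, _root_.map_ne_zero]
  have k : ∀ i, ch (T.c : ℂ) i (P.φ z') = (σ : ℂ →+* ℂ) (ch (T.c : ℂ) i (P.φ z)) := fun i => by
    have := h.ev _ _ (RF.cg P.N0 (T.rf i) T.e0)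
    rw [map_mul, ← e] at this
    exact mul_left_cancel₀ hT' this
  rw [← ofUV_ch (T.fn z' h.pos' hT'), ← ofUV_ch (T.fn z h.pos hT), pmap_ofUV, k, k, map_intCast]

theorem bdd_prod {ι : Type*} (s : Finset ι) {u : ι → ℂ → ℂ} (h : ∀ i ∈ s, Bdd (u i)) :
    Bdd fun z => ∏ i ∈ s, u i z := by
  induction s using Finset.induction_on with
  | empty => simpa using Bdd.const 1
  | insert i s hi ih =>
    simpa only [Finset.prod_insert hi] using (h i (by simp)).mul (ih fun j hj => h j (by simp [hj]))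

/-- Conjugation preserves the growth at the cusps. -/
theorem Cg.bdd (hN : N ≠ 0) (h : Cg N σ G G') {b : ℂ[X]} (hb : b ≠ 0)
    (hG : ∀ g : MZ, g.det = 1 → Bdd fun z => G (act g z) / b.eval (jf z)) {g : MZ}
    (hg : g.det = 1) : Bdd fun z => G' (act g z) / (b.map (σ : ℂ →+* ℂ)).eval (jf z) := by
  have := finite_CI hN
  have := Fintype.ofFinite (CI N)
  obtain ⟨A, a1, a2, a3⟩ := monic_exact hN h.mf
  have a4 := a1.map (mapRingHom (σ : ℂ →+* ℂ))
  have b1 : b.map (σ : ℂ →+* ℂ) ≠ 0 := Polynomial.map_ne_zero hb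
  refine bdd_root (d := Fintype.card (CI N)) (c := fun t => ((A.map (mapRingHom
    (σ : ℂ →+* ℂ))).map (evalRingHom (jf t))).scaleRoots ((b.map (σ : ℂ →+* ℂ)).eval (jf t))⁻¹)
    (ev_pos.mono fun t ht => ⟨(monic_scaleRoots_iff _).2 (a4.map _), by
      rw [natDegree_scaleRoots, a4.natDegree_map, a1.natDegree_map, a2], by
      rw [IsRoot, div_eq_inv_mul, scaleRoots_eval_mul, map_evalRingHom_eval, ← jf_act hg ht,
        (cq_jf.evalEval h.ex A).zero (fun w hw => (a3 w hw).2) (act_pos (by omega) ht),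
        mul_zero]⟩) fun k hk => ?_
  have : Bdd fun z => (A.coeff k).eval (jf z) / (b ^ (Fintype.card (CI N) - k)).eval (jf z) := by
    refine Bdd.congr (IsBigO.sum fun t (_ : t ∈ (Finset.univ : Finset (CI N)).powersetCard (Fintype.card (CI N) - k))
      => bdd_prod t fun i _ => (hG _ (cr_det i)).neg_left) fun z hz => ?_
    have := congrArg (coeff · k) (a3 z hz).1
    simp only [sub_eq_add_neg, ← C_neg, coeff_map, coe_evalRingHom] at this
    rw [this, Finset.prod_X_add_C_coeff _ _ hk.le, Finset.sum_div, Finset.sum_apply]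
    refine Finset.sum_congr rfl fun t ht => ?_
    simp only [← neg_div, Finset.prod_div_distrib, Finset.prod_const, eval_pow,
      (Finset.mem_powersetCard.1 ht).2]
  rw [bdd_iff (pow_ne_zero _ hb), ← degree_map _ (σ : ℂ →+* ℂ), ← degree_map (b ^ _) (σ : ℂ →+* ℂ),
    Polynomial.map_pow, ← bdd_iff (pow_ne_zero _ b1)] at this
  refine this.congr fun z _ => ?_
  simp only [coeff_scaleRoots, a4.natDegree_map, a1.natDegree_map, a2, coeff_map, coe_evalRingHom,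
    coe_mapRingHom, eval_pow, inv_pow, div_eq_mul_inv]

end Pool.Agent.G5
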