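import Pool.Agent.Lib.MP_696deb_nt.B5.GAa
import Pool.Agent.Lib.MP_696deb_nt.B5.ZFb
import Pool.Agent.Lib.MP_696deb_nt.B4.HSc

/-! The automorphisms of the complex numbers act on the special divisors by a sign. -/

set_option autoImplicit false

open scoped Classical NumberTheorySymbols

namespace Pool.Agent.G5

open Pool.Agent.Lib.MP_696deb_nt Pool.Agent.Lib.MP_696deb_nt.B2 Pool.Agent.B4 Pool.Agent.B4.GE
  Pool.Agent.Lib.MP_696deb_nt.B2.CM

variable {N n c m A B : ℕ} {r s e d D β ρ : ℤ} {σ : ℂ ≃+* ℂ} {g : Gam} {Q R R' : Fm} {z z' : ℂ}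

theorem exists_gam (σ : ℂ ≃+* ℂ) : ∃ g, Ex g σ := by
  let _ := jC.toAlgebra
  have : IsScalarTower ℚ Qbar ℂ := .of_algebraMap_eq' (Subsingleton.elim _ _)
  exact ⟨σ.toRatAlgEquiv.restrictNormal Qbar, fun x =>
    (AlgEquiv.restrictNormal_commutes σ.toRatAlgEquiv Qbar x).symm⟩

theorem okN_neg (ok : OkN N n c r) : OkN N n c (-r) :=
  ⟨ok.toOk, by rw [neg_sq]; exact ok.root, ok.cop⟩

theorem nn_neg (ok : OkN N n c r) : nn N n c (-r) = (nn N n c r)⁻¹ := by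
  obtain ⟨k, hk⟩ := ok.eq
  obtain ⟨u, v, h⟩ := ok.cop_r
  rw [nn, neg_mul, cl_idl_neg ok.m4 hk (by exact_mod_cast ok.N_ne) ⟨u, v, 0, by
    linear_combination h⟩, nn]

/-- The conjugate of a primitive special form. -/
theorem ga_prim (ok : OkN N n c r) (hσ : Ex g σ) (hB : B ∣ n) (hQ : Fam N (-(n * c ^ 2)) (r * c) Q)
    (h0 : 0 < Q.1) (hI : IsIv (Oc n c) (sp2 (froot Q) 1)) : ∃ R,
    Fam N (-(n * c ^ 2)) ((if g ∈ GK n then r else -r) * c) R ∧ 0 < R.1 ∧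
      Rj N σ (froot Q) (froot R) ∧ gch B R =
        (∏ p ∈ B.primeFactors, chi (pst p) (if g ∈ GK n then g else g * cc) : ℤˣ) * gch B Q := by
  have hc : cc ∉ GK n := cc_notMem (by have := ok.gt; omega)
  have k := hg_form ok hQ.2.1 h0 hQ.1 hQ.2.2 hI
  obtain ⟨j1, j2⟩ := k.jP ok
  obtain ⟨h, hh, e⟩ := rho_surj ok.toOk (cl _ (sp2 (froot Q) 1))
  obtain ⟨ok', t, ht, e1, e2, e3⟩ : OkN N n c (if g ∈ GK n then r else -r) ∧ ∃ t ∈ GK n,
      g (jQ n c (rho n c h)) = jQ n c (rho n c t) ∧ g (jQ n c (nn N n c r * rho n c h)) =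
        jQ n c (nn N n c (if g ∈ GK n then r else -r) * rho n c t) ∧
      ∀ a, chi a t = chi a (if g ∈ GK n then g else g * cc) * chi a h := by
    split_ifs with hg
    · exact ⟨ok, g * h, mul_mem hg hh, by rw [smul_jQ ok.toOk hg, rho_mul ok.toOk hg],
        by rw [smul_jQ ok.toOk hg, rho_mul ok.toOk hg, mul_left_comm], fun a => map_mul _ _ _⟩
    · have e0 : rho n c (g * (h * cc)) = rho n c g * (rho n c h)⁻¹ := by
        rw [rho_mul' ok.toOk hg, rho_mul ok.toOk hh, rho_cc ok.toOk, mul_one]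
      exact ⟨okN_neg ok, g * (h * cc), mul_mem_GK hg fun k => hc ((mul_mem_cancel_left hh).1 k),
        by rw [smul_jQ' ok.toOk hg, e0],
        by rw [smul_jQ' ok.toOk hg, e0, nn_neg ok, mul_inv, mul_left_comm],
        fun a => by simp only [map_mul, mul_assoc, mul_comm (chi a h)]⟩
  obtain ⟨R, r1, r2, r3, r4, r5, r6⟩ := exists_hform ok' (rho n c t)
  have k' := hg_form ok' r1 r2 r3 r4 r5
  obtain ⟨j3, j4⟩ := k'.jP ok'
  refine ⟨R, ⟨r3, r1, r4⟩, r2, ⟨k.pos, k'.pos, ?_, ?_⟩, ?_⟩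
  · rw [← j3, ← j1, ← jC_jQ ok.toOk, ← jC_jQ ok.toOk, hσ, ← e, e1, r6]
  · rw [jN, jN, ← j4, ← j2, ← jC_jQ ok.toOk, ← jC_jQ ok.toOk, hσ, ← e, e2, r6]
  · rw [Units.coe_prod, gch, gch, ← Finset.prod_mul_distrib]
    refine Finset.prod_congr rfl fun p hp => ?_
    have p1 := Nat.prime_of_mem_primeFactors hp
    have p2 := (Nat.dvd_of_mem_primeFactors hp).trans hB
    have f1 := chi_form ok.toOk hh p1 (ne_two ok.m4 p2) (p2.mul_right c) hQ.2.1 h0 hI e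
    have f2 := chi_form ok.toOk ht p1 (ne_two ok.m4 p2) (p2.mul_right c) r1 r2 r5 r6.symm
    rw [e3, Units.val_mul, f1] at f2
    exact f2.symm

/-- Multiples of forms. -/
def fsm (d : ℤ) (R : Fm) : Fm := (d * R.1, d * R.2.1, d * R.2.2)

theorem fdisc_sm (d : ℤ) (R : Fm) : fdisc (fsm d R) = d ^ 2 * fdisc R := by
  simp only [fdisc, fsm]
  ring

theorem froot_sm (hd : 0 < d) (hD : fdisc R < 0) (h : 0 < R.1) : froot (fsm d R) = froot R := by
  refine (eq_froot (by rw [fdisc_sm]; exact mul_neg_of_pos_of_neg (by positivity) hD)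
    (mul_pos hd h) (im_froot_pos hD h) ?_).symm
  simp only [fsm]
  push_cast
  linear_combination d * froot_root hD h

theorem gch_sm (B : ℕ) (d : ℤ) (R : Fm) :
    gch B (fsm d R) = (∏ p ∈ B.primeFactors, J(d | p)) * gch B R := by
  rw [gch, gch, ← Finset.prod_mul_distrib]
  refine Finset.prod_congr rfl fun p hp => ?_
  have p1 := Nat.prime_of_mem_primeFactors hp
  have := Fact.mk p1
  simp only [fsm, jacobiSym.mul_left]
  by_cases h : (p : ℤ) ∣ d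
  · rw [jacobiSym.mod_left d, Int.emod_eq_zero_of_dvd h, jacobiSym.zero_left p1.one_lt]
    simp
  · rw [mul_ite]
    exact if_congr ((Nat.prime_iff_prime_int.1 p1).dvd_mul.trans (or_iff_right h)) rfl rfl

theorem sq_dvd (hn : Squarefree n) {d m : ℕ} (hd : d ≠ 0) (h : d ^ 2 ∣ n * m ^ 2) : d ∣ m := by
  obtain ⟨a, b, k, e1, e2⟩ := Nat.exists_coprime d m
  have h0 := Nat.gcd_pos_of_pos_left m (Nat.pos_of_ne_zero hd)
  generalize d.gcd m = t at e1 e2 h0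
  subst e1 e2
  rw [mul_pow, mul_pow, ← mul_assoc, Nat.mul_dvd_mul_iff_right (by positivity)] at h
  rw [Nat.isUnit_iff.1 (hn a (sq a ▸ (k.pow 2 2).dvd_of_dvd_mul_right h)), one_mul]
  exact dvd_mul_left _ _

/-- Every special form is a multiple of a primitive one. -/
theorem exists_prim (hn : Squarefree n) (h4 : n % 4 = 3) (hD : fdisc R = -(n * m ^ 2))
    (h : 0 < R.1) : ∃ (d c : ℕ) (Q : Fm), 0 < d ∧ m = d * c ∧ R = fsm d Q ∧ 0 < Q.1 ∧
      fdisc Q = -(n * c ^ 2) ∧ IsIv (Oc n c) (sp2 (froot Q) 1) := by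
  obtain ⟨d, x, y, u, Q, d0, e1, rfl⟩ : ∃ (d : ℕ) (x y u : ℤ) (Q : Fm), 0 < d ∧
      x * Q.1 + y * Q.2.1 + u * Q.2.2 = 1 ∧ R = fsm d Q := by
    obtain ⟨t, x, y, u, a, b, k, e1, e2, e3, e4⟩ := cmb_gcd R.1 R.2.1 R.2.2
    have t0 : t ≠ 0 := by
      rintro rfl
      omega
    have e5 : x * a + y * b + u * k = 1 := mul_left_cancel₀ t0 (by
      linear_combination e1 - x * e2 - y * e3 - u * e4)
    refine ⟨t.natAbs, t.sign * x, t.sign * y, t.sign * u, fsm t.sign (a, b, k), by positivity, ?_,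
      ?_⟩
    · simp only [fsm]
      have : t.sign * t.sign = 1 := by
        rw [← Int.sign_mul, Int.sign_eq_one_of_pos (mul_self_pos.2 t0)]
      linear_combination (x * a + y * b + u * k) * this + e5
    · simp only [fsm, ← mul_assoc, (mul_comm _ _).trans (Int.sign_mul_natAbs t)]
      exact Prod.ext e2 (Prod.ext e3 e4)
  rw [fdisc_sm] at hD
  obtain ⟨c, rfl⟩ := sq_dvd (m := m) hn d0.ne' (Int.natCast_dvd_natCast.1 ⟨-fdisc Q, by
    push_cast; linear_combination hD⟩)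
  have d1 : (0 : ℤ) < d := by exact_mod_cast d0
  have q0 : 0 < Q.1 := (pos_iff_pos_of_mul_pos h).1 d1
  have q1 : fdisc Q = -(n * c ^ 2) := mul_left_cancel₀ (pow_ne_zero 2 d1.ne') (by
    push_cast at hD; linear_combination hD)
  have q2 := isIv_idl (n := n) (c := c) (m := Q.1) (b := -Q.2.1) (k := Q.2.2) h4 (by
    rw [fdisc] at q1; linear_combination q1) q0.ne' ⟨x, -y, u, by linear_combination e1⟩
  have q3 : (Q.1 : ℂ) ≠ 0 := by exact_mod_cast q0.ne'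
  have q4 := (idl_froot q1 q0 ▸ q2).sc (inv_ne_zero q3)
  rw [sc_inv_sc q3] at q4
  exact ⟨d, c, Q, d0, rfl, rfl, q0, q1, q4⟩

theorem fam_prim {d : ℕ} (hn : Good N n) (hρ : 4 * (N : ℤ) ∣ r ^ 2 + n)
    (hm : (d * c).Coprime N) (hD : fdisc Q = -(n * c ^ 2))
    (h : Fam N D (r * (d * c : ℕ)) (fsm d Q)) : Fam N (-(n * c ^ 2)) (r * c) Q := by
  have k : IsCoprime (N : ℤ) d := Nat.isCoprime_iff_coprime.2 hm.coprime_mul_right.symm
  obtain ⟨t, ht⟩ := hρ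
  have k1 := two_dvd_sub (n := n) (c := c) (b := Q.2.1) (N := Q.1 * Q.2.2) hn.mod4 (by
    rw [fdisc] at hD; linear_combination hD)
  have k2 := two_dvd_sub (n := n) (c := c) (b := r * c) (N := N * t * c ^ 2) hn.mod4 (by
    linear_combination c ^ 2 * ht)
  refine ⟨k.dvd_of_dvd_mul_left h.1, hD, IsCoprime.mul_dvd (Nat.isCoprime_iff_coprime.2
    hn.lodd.coprime_two_left) (by omega) (k.dvd_of_dvd_mul_left ?_)⟩
  convert (dvd_mul_left _ 2).trans h.2.2 using 1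
  simp only [fsm]
  push_cast
  ring

theorem wG_eq (h : (N : ℤ) ∣ R.1) (h' : (N : ℤ) ∣ R'.1) (hD : fdisc R' = fdisc R)
    (hs : s * s = 1) (k : 2 * (N : ℤ) ∣ R'.2.1 - s * R.2.1) (f : gch B R' = e * gch B R) (β : ℤ) :
    wG N B D (s * β) R' = e * wG N B D β R := by
  rw [wG, wG, mul_ite, mul_zero, f]
  refine if_congr ⟨fun a => ⟨h, hD ▸ a.2.1, ?_⟩, fun a => ⟨h', hD ▸ a.2.1, ?_⟩⟩ rfl rfl
  · rw [show R.2.1 - β = s * (R'.2.1 - s * β - (R'.2.1 - s * R.2.1)) by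
      linear_combination (β - R.2.1) * hs]
    exact (a.2.2.sub k).mul_left s
  · rw [show R'.2.1 - s * β = R'.2.1 - s * R.2.1 + s * (R.2.1 - β) by ring]
    exact k.add (a.2.2.mul_left s)

theorem ex_sqrt (hσ : Ex g σ) {x : ℂ} (hx : x ^ 2 = -(n * m ^ 2)) :
    σ x = (if g ∈ GK n then 1 else -1 : ℤ) * x := by
  have h1 : σ (m * jC (rt (-n))) = (if g ∈ GK n then 1 else -1 : ℤ) * (m * jC (rt (-n))) := by
    rw [map_mul, map_natCast, hσ]
    split_ifs with h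
    · rw [chi_eq_one.1 h, Int.cast_one, one_mul]
    · rw [(rt_or _ g).resolve_left fun k => h (chi_eq_one.2 k), map_neg]
      push_cast
      ring
  have h2 : x ^ 2 = (m * jC (rt (-n))) ^ 2 := by
    rw [mul_pow, ← map_pow, rt_sq, map_intCast, hx]
    push_cast
    ring
  rcases sq_eq_sq_iff_eq_or_eq_neg.1 h2 with rfl | rfl
  · exact h1
  · rw [map_neg, h1, mul_neg]

/-- The conjugate of a form in the support of a special divisor. -/
theorem ga_form (hn : Good N (A * B)) (h3 : 3 < A * B) (σ : ℂ ≃+* ℂ) : ∃ e : ℤ, (e = 1 ∨ e = -1) ∧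
    ∀ (ρ : ℤ) (m : ℕ) (R : Fm), 4 * (N : ℤ) ∣ ρ ^ 2 + (A * B : ℕ) → m ≠ 0 → m.Coprime N →
      Yw N A B ρ m R ≠ 0 → ∃ R', Rj N σ (froot R) (froot R') ∧
        Yw N A B ρ m R' = e * Yw N A B ρ m R ∧ ∃ s : ℤ, s * s = 1 ∧
          (N : ℤ) ∣ R'.2.1 - s * R.2.1 ∧ ∀ x : ℂ, x ^ 2 = fdisc R → σ x = s * x := by
  obtain ⟨g, hσ⟩ := exists_gam σ
  have hB : Odd B := (Nat.odd_mul.1 (show Odd (A * B) from
    Nat.odd_iff.2 (by have := hn.mod4; omega))).2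
  have j1 : J(-1 | B) * J(-1 | B) = 1 := by
    rw [← jacobiSym.mul_left, neg_mul_neg, one_mul, jacobiSym.one_left]
  refine ⟨(if g ∈ GK (A * B) then 1 else J(-1 | B)) * (∏ p ∈ B.primeFactors,
    chi (pst p) (if g ∈ GK (A * B) then g else g * cc) : ℤˣ), ?_, fun ρ m R hρ m0 m1 hR => ?_⟩
  · refine Int.isUnit_iff.1 (IsUnit.mul ?_ (Units.isUnit _))
    split_ifs
    exacts [isUnit_one, .of_mul_eq_one _ j1]
  obtain ⟨r0, r1⟩ := pos_of_wZ hR
  obtain ⟨r, hr, r2⟩ : ∃ r : ℤ, 4 * (N : ℤ) ∣ r ^ 2 + (A * B : ℕ) ∧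
      Fam N (-(B * (A * m ^ 2))) (r * m) R :=
    r1.elim (fun k => ⟨ρ, hρ, k⟩) fun k => ⟨-ρ, by rwa [neg_sq], by rwa [neg_mul]⟩
  obtain ⟨d, c, Q, d0, rfl, rfl, q0, q1, q2⟩ := exists_prim (m := m) hn.sqf hn.mod4
    (r2.2.1.trans (by push_cast; ring)) r0
  have ok : OkN N (A * B) c r := ⟨⟨hn.mod4, h3, right_ne_zero_of_mul m0⟩, hr,
    hn.cop.mul_left m1.coprime_mul_left⟩
  have q3 := fam_prim hn hr m1 q1 r2
  obtain ⟨P, p1, p2, p3, p4⟩ := ga_prim ok hσ (dvd_mul_left B A) q3 q0 q2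
  have d1 : (0 : ℤ) < d := by exact_mod_cast d0
  have k := fun s hs k => wG_eq (B := B) (D := -(B * (A * (d * c : ℕ) ^ 2))) (R := fsm d Q)
    (R' := fsm d P) (s := s) r2.1 (p1.1.mul_left d) (by rw [fdisc_sm, fdisc_sm, q1, p1.2.1]) hs k
    (by rw [gch_sm, gch_sm, p4, mul_left_comm])
  refine ⟨fsm d P, by
    rwa [froot_sm d1 (q1 ▸ ok_neg ok.toOk) q0, froot_sm d1 (p1.2.1 ▸ ok_neg ok.toOk) p2], ?_⟩
  rw [Yw, wZ, wZ, if_pos r0, if_pos (show 0 < (fsm d P).1 from mul_pos d1 p2)]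
  have hx := fun (x : ℂ) (h : x ^ 2 = fdisc (fsm d Q)) => ex_sqrt (n := A * B) (m := d * c) hσ
    (h.trans (by rw [r2.2.1]; push_cast; ring))
  by_cases hg : g ∈ GK (A * B)
  · rw [if_pos hg] at p1 hx
    have k0 : 2 * (N : ℤ) ∣ (fsm d P).2.1 - 1 * (fsm d Q).2.1 := by
      rw [show (fsm d P).2.1 - 1 * (fsm d Q).2.1 = d * (P.2.1 - r * c - (Q.2.1 - r * c)) by
        simp only [fsm]; ring]
      exact (p1.2.2.sub q3.2.2).mul_left d
    refine ⟨?_, 1, rfl, (dvd_mul_left _ 2).trans k0, hx⟩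
    have k1 := k 1 rfl k0
    simp only [one_mul] at k1
    rw [k1, k1, if_pos hg (t := (1 : ℤ))]
    ring
  · rw [if_neg hg] at p1 hx
    have k0 : 2 * (N : ℤ) ∣ (fsm d P).2.1 - -1 * (fsm d Q).2.1 := by
      rw [show (fsm d P).2.1 - -1 * (fsm d Q).2.1 = d * (P.2.1 - -r * c + (Q.2.1 - r * c)) by
        simp only [fsm]; ring]
      exact (p1.2.2.add q3.2.2).mul_left d
    refine ⟨?_, -1, rfl, (dvd_mul_left _ 2).trans k0, hx⟩
    have k1 := k (-1) rfl k0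
    simp only [neg_one_mul] at k1
    have k2 := k1 (-(ρ * (d * c : ℕ)))
    rw [neg_neg] at k2
    rw [k1, k2, if_neg hg (t := (1 : ℤ))]
    linear_combination -(∏ p ∈ B.primeFactors, chi (pst p) (if g ∈ GK (A * B) then g else g * cc) :
      ℤˣ) * wG N B (-(B * (A * (d * c : ℕ) ^ 2))) (-(ρ * (d * c : ℕ))) (fsm d Q) * j1

theorem Rj.symm (h : Rj N σ z z') : Rj N σ.symm z' z :=
  ⟨h.pos', h.pos, by rw [h.j, σ.symm_apply_apply], by rw [h.jN, σ.symm_apply_apply]⟩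

theorem Sep.eq (h : Sep N z) (hz : 0 < z.im) (hz' : 0 < z'.im) (e : jf z' = jf z)
    (e' : jN N z' = jN N z) : ∃ g, G0 N g ∧ z' = act g z := by
  obtain ⟨g, hg, rfl⟩ := exists_sl hz hz' e
  exact ⟨g, h g hg e', rfl⟩

theorem ga_stmt : GAStmt := fun N A B hn h1 σ => by
  have h0 : N ≠ 0 := hn.lsq.ne_zero
  have h3 : 3 < A * B := by
    have : 0 < N ^ 2 := by positivity
    omega
  have hB : Odd B := (Nat.odd_mul.1 (show Odd (A * B) from
    Nat.odd_iff.2 (by have := hn.mod4; omega))).2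
  have key : ∀ σ : ℂ ≃+* ℂ, ∃ e : ℤ, (e = 1 ∨ e = -1) ∧ ∀ (ρ : ℤ) (m : ℕ) (z z' : ℂ),
      4 * (N : ℤ) ∣ ρ ^ 2 + (A * B : ℕ) → m ≠ 0 → m.Coprime N → Rj N σ z z' →
      nuW (Yw N A B ρ m) z ≠ 0 → nuW (Yw N A B ρ m) z' = e * nuW (Yw N A B ρ m) z := fun σ => by
    obtain ⟨e, he, k⟩ := ga_form hn h3 σ
    refine ⟨e, he, fun ρ m z z' hρ m0 m1 h hz => ?_⟩
    obtain ⟨R, r1, rfl⟩ := exists_of_nuW hz
    obtain ⟨R', r2, r3, -⟩ := k ρ m R hρ m0 m1 r1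
    have r4 : Yw N A B ρ m R' ≠ 0 := r3 ▸ mul_ne_zero (by omega) r1
    have hD : -((B : ℤ) * (A * m ^ 2)) < 0 := by
      have : 0 < A := Nat.pos_of_mul_pos_right (by omega : 0 < A * B)
      have := hB.pos
      exact neg_lt_zero.2 (by positivity)
    have w := wt_wZ (N := N) (ρ := ρ * m) hB (dvd_mul_right _ _).neg_right hD
    have f : ∀ R, Yw N A B ρ m R ≠ 0 → nuW (Yw N A B ρ m) (froot R) = Yw N A B ρ m R :=
      fun R hR => nuW_froot (fun S hS => ⟨(w.disc S hS).trans (w.disc R hR).symm,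
        (pos_of_wZ hS).1⟩) (w.disc R hR ▸ hD) (pos_of_wZ hR).1
    have c : CM (A * B) (froot R') :=
      ⟨R', m, m0, (pos_of_wZ r4).1, (w.disc R' r4).trans (by push_cast; ring), rfl⟩
    obtain ⟨g, hg, rfl⟩ := (c.sep h0 hn.sqf h1).eq r2.pos' h.pos' (h.j.trans r2.j.symm)
      (h.jN.trans r2.jN.symm)
    rw [f R r1, ← r3, ← f R' r4]
    exact w.nuW_inv hD (fun S hS => (pos_of_wZ hS).1) g hg _ r2.pos'
  obtain ⟨e, he, k⟩ := key σ
  obtain ⟨e', he', k'⟩ := key σ.symm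
  refine ⟨e, he, fun ρ m z z' hρ m0 m1 h => ?_⟩
  by_cases hz : nuW (Yw N A B ρ m) z = 0
  · rw [hz, mul_zero]
    by_contra hz'
    exact mul_ne_zero (by omega) hz' ((k' ρ m z' z hρ m0 m1 h.symm hz').symm.trans hz)
  · exact k ρ m z z' hρ m0 m1 h hz

end Pool.Agent.G5
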