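import Pool.Agent.Lib.MP_696deb_nt.B5.LCa

/-! The inner statements of the height block. -/

set_option autoImplicit false

open NumberTheorySymbols Polynomial
open scoped Classical NNReal

namespace Pool.Agent.G5

open Pool.Agent.Lib.MP_696deb_nt Pool.Agent.B4.GE Pool.Agent.Shared.Weier

/-- The points of the Hecke correspondence of degree `M`. -/
def HP (M : ℕ) (τ z : ℂ) : Prop := ∃ a d b : ℕ, a * d = M ∧ b < d ∧ z = (a * τ + b) / d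

/-- The two invariants of `z'` are conjugate to those of `z`. -/
structure Rj (N : ℕ) (σ : ℂ ≃+* ℂ) (z z' : ℂ) : Prop where
  pos : 0 < z.im
  pos' : 0 < z'.im
  j : jf z' = σ (jf z)
  jN : jN N z' = σ (jN N z)

/-- Conjugate modular functions. -/
structure Cg (N : ℕ) (σ : ℂ ≃+* ℂ) (h h' : ℂ → ℂ) : Prop where
  mf : MF N h
  mf' : MF N h'
  ex : ∃ (n : ℕ) (A : PowerSeries ℂ), QE (fun z => q1 z ^ n * h z) A ∧
    QE (fun z => q1 z ^ n * h' z) (PowerSeries.map (σ : ℂ →+* ℂ) A)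

/-- Conjugate points. -/
structure Pc (N : ℕ) (σ : ℂ ≃+* ℂ) (z z' : ℂ) : Prop where
  pos : 0 < z.im
  pos' : 0 < z'.im
  ev : ∀ h h', Cg N σ h h' → h' z' = σ (h z)

/-- Smooth points of the plane model. -/
def Sep (N : ℕ) (z : ℂ) : Prop := ∀ g : MZ, g.det = 1 → jN N (act g z) = jN N z → G0 N g

/-- The automorphisms of the complex numbers fix the special divisors up to a common sign. -/
def GAStmt : Prop := ∀ (N A B : ℕ), Good N (A * B) → 4 * N ^ 2 < A * B → ∀ σ : ℂ ≃+* ℂ,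
  ∃ e : ℤ, (e = 1 ∨ e = -1) ∧ ∀ (ρ : ℤ) (m : ℕ) (z z' : ℂ), 4 * (N : ℤ) ∣ ρ ^ 2 + (A * B : ℕ) →
    m ≠ 0 → m.Coprime N → Rj N σ z z' → nuW (Yw N A B ρ m) z' = e * nuW (Yw N A B ρ m) z

/-- Special points of large discriminant are smooth points of the plane model. -/
def SPStmt : Prop := (∀ x : ℂ, ∃ z : ℂ, 0 < z.im ∧ jf z = x) ∧
  (∀ z z' : ℂ, 0 < z.im → 0 < z'.im → jf z' = jf z → ∃ g : MZ, g.det = 1 ∧ z' = act g z) ∧
  ∀ (N n : ℕ) (z : ℂ), N ≠ 0 → Squarefree n → n % 4 = 3 → 4 * N ^ 2 < n → CM n z →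
    deriv jf z ≠ 0 ∧ Sep N z ∧ ∀ g : MZ, 0 < g.det → CM n (act g z)

/-- The points of the correspondence are away from the support of the other divisor. -/
def DJStmt : Prop := ∀ (n M l₀ m : ℕ) (Q R : Fm) (z : ℂ), Squarefree n → n % 4 = 3 → 3 < n →
  0 < Q.1 → fdisc Q = -n → M ≠ 0 → l₀.Prime → l₀ ≠ 2 → et n l₀ = -1 → M.Coprime l₀ →
  HP (l₀ * M) (froot Q) z → m ≠ 0 → m.Coprime l₀ → 0 < R.1 → fdisc R = -(n * m ^ 2) →
  jf z ≠ jf (froot R)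

/-- The Hecke correspondences commute with conjugation. -/
def HBStmt : Prop := ∀ (N M : ℕ) (σ : ℂ ≃+* ℂ) (z z' : ℂ) (S S' : ℂ → ℝ), N ≠ 0 → M ≠ 0 →
  M.Coprime N → Pc N σ z z' → (∀ w w', HP M z w → HP M z' w' → Pc N σ w w' → S w = S' w') →
  hsum M S z = hsum M S' z'

/-- The archimedean local height. -/
def NAStmt : Prop := ∀ (W : WeierstrassCurve ℚ) [W.IsElliptic] (L : PeriodPair)
  (h : IsPer L (W.baseChange ℂ)), ∃ Λ : Pt W ℂ → ℝ, NeronLocal (fun z : ℂ => ‖z‖) Λ ∧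
    ∀ u ∉ L.lattice, Λ (h.unif u) = (eta L u * u).re - 2 * Real.log ‖sig L u‖

/-- The places above a split prime. -/
def LCStmt : Prop := ∀ (W : WeierstrassCurve ℚ) [W.IsElliptic] (N : ℕ) (P : Par W N)
  (p A B : ℕ) (ρ ρ' β : ℤ) (T T' : Finset Fm) (l l₀ : ℕ) (a : ℕ →₀ ℤ) (u : ℂ) (V : ℂ → ℂ)
  (v : AbsoluteValue ℂ ℝ), Cx N p A B ρ ρ' β → FReps N (-(A * B : ℕ)) ρ T →
  FReps N (-(A * B : ℕ)) (-ρ) T' → l.Prime → l₀.Prime → l ≠ l₀ → l₀ ≠ 2 → et (A * B) l₀ = -1 →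
  Sup (N * l * l₀) a → Th N (cmb (fun m => nuW (Yw N A B ρ' m)) a) (U1 P.L P.F u) V →
  B5.IntW v (W.baseChange ℂ) → v l < 1 → et (A * B) l = 1 →
  zs N A B ρ T T' (hsum l₀ (gv v P u V)) = 0

/-- The places above a prime that does not split. -/
def NSStmt : Prop := ∀ (W : WeierstrassCurve ℚ) [W.IsElliptic] (N : ℕ) (P : Par W N)
  (p A B : ℕ) (ρ ρ' β : ℤ) (T T' : Finset Fm) (l l₀ : ℕ) (a : ℕ →₀ ℤ) (u : ℂ) (V : ℂ → ℂ),
  Cx N p A B ρ ρ' β → FReps N (-(A * B : ℕ)) ρ T →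
  FReps N (-(A * B : ℕ)) (-ρ) T' → l.Prime → l₀.Prime → l ≠ l₀ → l₀ ≠ 2 → et (A * B) l₀ = -1 →
  Sup (N * l * l₀) a → Th N (cmb (fun m => nuW (Yw N A B ρ' m)) a) (U1 P.L P.F u) V →
  et (A * B) l ≠ 1 → ∃ (C : ℝ) (k : ℕ), ∀ (v : AbsoluteValue ℂ ℝ) (j : ℕ),
    B5.IntW v (W.baseChange ℂ) → v l < 1 →
    |zs N A B ρ T T' (hsum (l₀ * l ^ j) (gv v P u V))| ≤ C * (j + 1) ^ k * -Real.log (v l)

end Pool.Agent.G5
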