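import Pool.Agent.Lib.MP_696deb_nt.B5.ABa

/-! Local analysis for the theorem of Abel. -/

set_option autoImplicit false

open Filter Topology Complex Bornology
open scoped Classical Real

namespace Pool.Agent.G5.A0

open Pool.Agent.Lib.MP_696deb_nt

variable {f g G F H a b ψ D : ℂ → ℂ} {p t₀ z c : ℂ} {m : ℕ}

/-- The local normal form. -/
theorem nf (hm : 0 < m) (hg : AnalyticAt ℂ g p) (h0 : g p ≠ 0) :
    ∃ φ ψ : ℂ → ℂ, AnalyticAt ℂ ψ 0 ∧ ψ 0 = p ∧
      (∀ᶠ z in 𝓝 p, (z - p) ^ m * g z = φ z ^ m ∧ ψ (φ z) = z) ∧ ∀ᶠ w in 𝓝 0, φ (ψ w) = w := by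
  obtain ⟨c, hc⟩ := IsAlgClosed.exists_pow_nat_eq (g p) hm
  have c0 : c ≠ 0 := fun e => h0 (by rw [← hc, e, zero_pow hm.ne'])
  have m0 : (m : ℂ) ≠ 0 := Nat.cast_ne_zero.2 hm.ne'
  let r : ℂ → ℂ := fun z => c * cexp (log (g z / g p) / m)
  have hr : AnalyticAt ℂ r p := analyticAt_const.mul
    ((hg.div_const.clog (by simp [div_self h0])).div_const).cexp
  let φ : ℂ → ℂ := fun z => (z - p) * r z
  have hφ : AnalyticAt ℂ φ p := (analyticAt_id.sub analyticAt_const).mul hr
  have hd : HasDerivAt φ c p := by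
    simpa [r, div_self h0] using ((hasDerivAt_id p).sub_const p).fun_mul
      hr.differentiableAt.hasDerivAt
  have hd' : deriv φ p ≠ 0 := hd.deriv ▸ c0
  have φ0 : φ p = 0 := by simp [φ]
  have k := hφ.hasStrictDerivAt.eventually_left_inverse hd'
  refine ⟨φ, hφ.hasStrictDerivAt.localInverse _ _ _ hd', φ0 ▸ hφ.analyticAt_localInverse hd',
    φ0 ▸ k.self_of_nhds, .and ?_ k, φ0 ▸ hφ.hasStrictDerivAt.eventually_right_inverse hd'⟩
  filter_upwards [hg.continuousAt.eventually_ne h0] with z hz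
  simp only [φ, r, mul_pow, hc, ← exp_nat_mul, mul_div_cancel₀ _ m0, exp_log (div_ne_zero hz h0),
    mul_div_cancel₀ _ h0]

theorem rt (m : ℕ) {R : ℂ → Prop} (h : ∀ᶠ w in 𝓝 0, R w) (t₀ : ℂ) :
    ∀ᶠ t in 𝓝 t₀, ∀ w, w ^ m = t - t₀ → R w := by
  obtain ⟨δ, δ0, hδ⟩ := Metric.eventually_nhds_iff.1 h
  filter_upwards [Metric.ball_mem_nhds t₀ (pow_pos δ0 m)] with t ht w e
  refine hδ ?_
  rw [dist_zero_right]
  refine lt_of_pow_lt_pow_left₀ m δ0.le ?_
  rwa [← norm_pow, e, ← dist_eq_norm]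

theorem card_roots (hm : 0 < m) (hc : c ≠ 0) : (Polynomial.nthRootsFinset m c).card = m := by
  have h := isPrimitiveRoot_exp m hm.ne'
  rw [Polynomial.nthRootsFinset_def, Multiset.toFinset_card_of_nodup (h.nthRoots_nodup hc),
    h.card_nthRoots, if_pos (IsAlgClosed.exists_pow_nat_eq c hm)]

theorem tendsto_roots (hm : 0 < m) (hf : ContinuousAt f 0) :
    Tendsto (fun t => ∑ w ∈ Polynomial.nthRootsFinset m t, f w) (𝓝[≠] 0) (𝓝 (m * f 0)) := by
  refine Metric.tendsto_nhds.2 fun ε hε => ?_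
  have m0 : (0 : ℝ) < m := Nat.cast_pos.2 hm
  filter_upwards [(rt m (Metric.tendsto_nhds.1 hf (ε / 2 / m) (by positivity)) 0).filter_mono
    nhdsWithin_le_nhds, self_mem_nhdsWithin] with t ht t0
  have e : ∑ w ∈ Polynomial.nthRootsFinset m t, f w - m * f 0 =
      ∑ w ∈ Polynomial.nthRootsFinset m t, (f w - f 0) := by
    rw [Finset.sum_sub_distrib, Finset.sum_const, card_roots hm t0, nsmul_eq_mul]
  rw [dist_eq_norm, e]
  refine (norm_sum_le_of_le (n := fun _ => ε / 2 / m) _ fun w hw => ?_).trans_lt ?_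
  · rw [← dist_eq_norm]
    exact (ht w (by rwa [sub_zero, ← Polynomial.mem_nthRootsFinset hm])).le
  · rw [Finset.sum_const, card_roots hm t0, nsmul_eq_mul, mul_div_cancel₀ _ m0.ne']
    exact half_lt_self hε

theorem sec (hψ : AnalyticAt ℂ ψ 0) (hf : AnalyticAt ℂ f (ψ 0)) (hG : AnalyticAt ℂ G (ψ 0))
    (e : ∀ᶠ w in 𝓝 0, f (ψ w) = t₀ + w) :
    ∀ᶠ w in 𝓝 0, HasDerivAt (fun w => G (ψ w)) (deriv G (ψ w) / deriv f (ψ w)) w := by
  filter_upwards [hψ.eventually_analyticAt, hψ.continuousAt.eventually hf.eventually_analyticAt,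
    hψ.continuousAt.eventually hG.eventually_analyticAt, e.eventually_nhds] with w h1 h2 h3 h4
  have d1 := h1.differentiableAt.hasDerivAt
  have k := (h2.differentiableAt.hasDerivAt.comp w d1).unique
    (((hasDerivAt_id w).const_add t₀).congr_of_eventuallyEq h4)
  rw [div_eq_mul_inv, ← eq_inv_of_mul_eq_one_right k]
  exact h3.differentiableAt.hasDerivAt.comp w d1

theorem ol (hf : MeromorphicAt f p) (h0 : meromorphicOrderAt f p ≠ 0) (hG : AnalyticAt ℂ G p) :
    Tendsto (fun z => f z * (deriv G z / deriv f z)) (𝓝[≠] p) (𝓝 0) ∧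
      ∀ᶠ z in 𝓝[≠] p, deriv f z = 0 → f z = 0 := by
  by_cases h1 : meromorphicOrderAt f p = ⊤
  · have k := meromorphicOrderAt_eq_top_iff.1 h1
    exact ⟨tendsto_const_nhds.congr' (k.mono fun z hz => by simp only [hz, zero_mul]),
      k.mono fun z hz _ => hz⟩
  have k := tendsto_cobounded_of_meromorphicOrderAt_neg (f := logDeriv f) (x := p) (by
    rw [meromorphicOrderAt_logDeriv_eq_neg_one hf h0 h1]
    exact WithTop.coe_lt_coe.2 (show (-1 : ℤ) < 0 by decide))
  refine ⟨?_, (k.eventually (eventually_ne_cobounded 0)).mono fun z hz e =>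
    absurd (by rw [logDeriv_apply, e, zero_div]) hz⟩
  have k2 := (tendsto_inv₀_cobounded.comp k).mul
    (hG.deriv.continuousAt.tendsto.mono_left nhdsWithin_le_nhds)
  rw [zero_mul] at k2
  refine k2.congr fun z => ?_
  rw [Function.comp_apply, logDeriv_apply, inv_div]
  ring

/-- The version for holomorphic functions. -/
theorem ol' (hf : AnalyticAt ℂ f p) (hG : AnalyticAt ℂ G p) :
    Tendsto (fun z => (f z - f p) * (deriv G z / deriv f z)) (𝓝 p) (𝓝 0) ∧
      ∀ᶠ z in 𝓝 p, deriv f z = 0 → f z = f p := by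
  have h1 : AnalyticAt ℂ (fun z => f z - f p) p := hf.sub analyticAt_const
  have h := ol h1.meromorphicAt (by
    rw [h1.meromorphicOrderAt_eq]
    simpa using h1.analyticOrderAt_ne_zero.2 (sub_self _)) hG
  simp only [deriv_sub_const, sub_eq_zero] at h
  rw [← nhdsNE_sup_pure p, tendsto_sup, eventually_sup, eventually_pure]
  exact ⟨⟨h.1, tendsto_pure_left.2 fun s hs => by simpa using mem_of_mem_nhds hs⟩, h.2,
    fun _ => rfl⟩

/-- The chart at a cusp. -/
theorem chart {n : ℝ} (hn : 0 < n) (hp : ∀ z : ℂ, 0 < z.im → F (z + n) = F z)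
    (hd : ∀ᶠ z in atI, DifferentiableAt ℂ F z) (hc : Tendsto F atI (𝓝 c)) :
    ∃ H, AnalyticAt ℂ H 0 ∧ H 0 = c ∧
      ∀ z : ℂ, 0 < z.im → F z = H (Function.Periodic.qParam n z) := by
  let F' : ℂ → ℂ := fun z => if 0 < z.im then F z else 0
  have e : ∀ z : ℂ, 0 < z.im → F' z = F z := fun z hz => if_pos hz
  have h1 : Function.Periodic F' n := fun z => by
    by_cases hz : 0 < z.im
    · rw [e z hz, e _ (by simpa using hz), hp z hz]
    · exact (if_neg (by simpa using hz)).trans (if_neg hz).symm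
  have h2 : ∀ᶠ z in atI, DifferentiableAt ℂ F' z := by
    filter_upwards [hd, ev_pos] with z h hz using h.congr_of_eventuallyEq ((ev_im hz).mono e)
  have h3 : Tendsto F' atI (𝓝 c) := hc.congr' (ev_pos.mono fun z hz => (e z hz).symm)
  refine ⟨Function.Periodic.cuspFunction n F', analyticAt_iff_eventually_differentiableAt.2 ?_,
    tendsto_nhds_unique (h1.tendsto_at_I_inf hn h2 (h3.isBigO_one ℝ)) h3,
    fun z hz => (e z hz).symm.trans (h1.eq_cuspFunction hn.ne' z).symm⟩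
  rw [← nhdsNE_sup_pure 0, eventually_sup, eventually_pure]
  exact ⟨h1.eventually_differentiableAt_cuspFunction_nhds_ne_zero hn h2,
    h1.differentiableAt_cuspFunction_zero hn h2 (h3.isBigO_one ℝ)⟩

theorem trans (ha : DifferentiableAt ℂ a z) (hb : DifferentiableAt ℂ b z) (h0 : deriv a z ≠ 0)
    (hF : DifferentiableAt ℂ F (a z)) (hH : DifferentiableAt ℂ H (b z))
    (e : ∀ᶠ u in 𝓝 z, F (a u) = H (b u)) :
    deriv F (a z) = deriv H (b z) * (deriv b z / deriv a z) := by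
  rw [← mul_div_assoc, eq_div_iff h0]
  exact (hF.hasDerivAt.comp z ha.hasDerivAt).unique
    ((hH.hasDerivAt.comp z hb.hasDerivAt).congr_of_eventuallyEq e)

theorem liou {S : Set ℂ} (hS : ∀ᶠ t in cofinite, t ∈ S) (hd : ∀ t ∈ S, DifferentiableAt ℂ D t)
    (h1 : ∀ b, Tendsto (fun t => (t - b) * D t) (𝓝[≠] b) (𝓝 0))
    (h2 : Tendsto (fun t => t * D t) (cobounded ℂ) (𝓝 0)) : ∀ t ∈ S, D t = 0 := by
  let E : ℂ → ℂ := fun t => limUnder (𝓝[≠] t) D
  have hE : ∀ t ∈ S, E t = D t := fun t ht =>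
    ((hd t ht).continuousAt.tendsto.mono_left nhdsWithin_le_nhds).limUnder_eq
  have k : Differentiable ℂ E := fun c => by
    have k1 : {t | t ≠ c → t ∈ S} ∈ 𝓝 c :=
      eventually_nhdsWithin_iff.1 (hS.filter_mono (nhdsNE_le_cofinite c))
    refine ((differentiableOn_update_limUnder_of_isLittleO (f := D) k1
      (fun t ht => (hd t (ht.1 ht.2)).differentiableWithinAt)
      (Asymptotics.isLittleO_of_tendsto' ?_ ?_)).differentiableAt k1).congr_of_eventuallyEq ?_
    · filter_upwards [self_mem_nhdsWithin] with t ht e using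
        absurd e (inv_ne_zero (sub_ne_zero.2 ht))
    · have k2 : Tendsto (fun t => (t - c) * D c) (𝓝[≠] c) (𝓝 ((c - c) * D c)) :=
        (Continuous.tendsto (by fun_prop) c).mono_left nhdsWithin_le_nhds
      have k3 := (h1 c).sub k2
      rw [sub_self, zero_mul, sub_self] at k3
      exact k3.congr fun t => by rw [div_inv_eq_mul]; ring
    · filter_upwards [k1] with t ht
      by_cases e : t = c
      · rw [e, Function.update_self]
      · rw [Function.update_of_ne e, hE t (ht e)]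
  intro t ht
  rw [← hE t ht]
  refine k.apply_eq_of_tendsto_cocompact t ?_
  have k2 := tendsto_inv₀_cobounded.mul h2
  rw [zero_mul] at k2
  rw [← Metric.cobounded_eq_cocompact]
  refine k2.congr' ?_
  filter_upwards [hS.filter_mono (le_cofinite ℂ), eventually_ne_cobounded 0] with u hu u0
  rw [hE u hu, inv_mul_cancel_left₀ u0]

theorem const_of_loc {V : Type} {A : ℂ → V} {S : Set ℂ} (hS : ∀ᶠ t in cofinite, t ∈ S)
    (h : ∀ t ∈ S, ∀ᶠ u in 𝓝 t, A u = A t) : ∃ v, ∀ t ∈ S, A t = v := by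
  let _ : TopologicalSpace V := ⊥
  have : DiscreteTopology V := ⟨rfl⟩
  have k := (Set.Finite.countable hS).isConnected_compl_of_one_lt_rank
    (by rw [rank_real_complex]; exact Nat.one_lt_ofNat)
  rw [compl_compl] at k
  obtain ⟨t₀, h0⟩ := k.nonempty
  exact ⟨A t₀, fun t ht => k.isPreconnected.constant (fun u hu =>
    (continuousAt_const.congr ((h u hu).mono fun _ e => e.symm)).continuousWithinAt) ht h0⟩

theorem loc_const (hd : ∀ᶠ t in 𝓝 t₀, HasDerivAt a 0 t) : ∀ᶠ t in 𝓝 t₀, a t = a t₀ := by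
  obtain ⟨δ, δ0, hδ⟩ := Metric.eventually_nhds_iff_ball.1 hd
  filter_upwards [Metric.ball_mem_nhds t₀ δ0] with t ht using
    Metric.isOpen_ball.is_const_of_deriv_eq_zero (convex_ball _ _).isPreconnected
      (fun u hu => (hδ u hu).differentiableAt.differentiableWithinAt)
      (fun u hu => (hδ u hu).deriv) ht (Metric.mem_ball_self δ0)

end Pool.Agent.G5.A0
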