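import Pool.Agent.Lib.MP_696deb_nt.B5.A0a
import Pool.Agent.Lib.MP_696deb_nt.B4.GE1

/-! Compactness, places, and the fibres of an invariant function. -/

set_option autoImplicit false

open Filter Topology Complex Bornology
open scoped Classical Real MatrixGroups UpperHalfPlane

namespace Pool.Agent.G5.A0

open Pool.Agent.Lib.MP_696deb_nt Pool.Agent.B4.GE AB

variable {N : ℕ} {h G F : ℂ → ℂ} {ν : ℂ → ℤ} {p p' t t₀ y z : ℂ} {g : MZ} {X : Type}
  {l : Filter X} {Q : X → ℂ → Prop}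

theorem cont_act (hg : g.det = 1) (hz : 0 < z.im) : ContinuousAt (act g) z :=
  (hol_act (pos_of_det hg).ne' z hz).continuousAt

/-- The action is properly discontinuous. -/
theorem pd (hp : 0 < p.im) (hp' : 0 < p'.im) :
    ∀ᶠ x in 𝓝 p ×ˢ 𝓝 p', ∀ g : MZ, g.det = 1 → x.1 = act g x.2 → p = act g p' := by
  have h1 : ∀ᶠ x in 𝓝 p ×ˢ 𝓝 p', ∀ γ ∈ {γ : SL(2, ℤ) | dist (⟨p, hp⟩ : ℍ) (γ • ⟨p', hp'⟩) ≤ 2},
      x.1 = act γ.1 x.2 → p = act γ.1 p' :=
    (eventually_all_finite (B5.HA.finite_near _ _ 2)).2 fun γ _ => by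
      by_cases e : p = act γ.1 p'
      · exact .of_forall fun _ _ => e
      · have k : ContinuousAt (fun x : ℂ × ℂ => x.1 - act γ.1 x.2) (p, p') :=
          continuousAt_fst.sub ((cont_act γ.2 hp').comp (f := Prod.snd) continuousAt_snd)
        rw [← nhds_prod_eq]
        exact (k.eventually_ne (sub_ne_zero.2 e)).mono fun x hx e' => absurd (sub_eq_zero.2 e') hx
  have h2 : ∀ τ : ℍ, ∀ᶠ z in 𝓝 (τ : ℂ), ∃ u : ℍ, (u : ℂ) = z ∧ dist u τ < 1 := fun τ => by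
    rw [← UpperHalfPlane.isOpenEmbedding_coe.map_nhds_eq, eventually_map]
    filter_upwards [Metric.ball_mem_nhds τ one_pos] with u hu using ⟨u, rfl, hu⟩
  filter_upwards [h1, (h2 ⟨p, hp⟩).prod_mk (h2 ⟨p', hp'⟩)] with x k1 k2 g hg e
  obtain ⟨⟨u, e1, k2⟩, u', e2, k3⟩ := k2
  obtain ⟨γ, rfl⟩ : ∃ γ : SL(2, ℤ), γ.1 = g := ⟨⟨g, hg⟩, rfl⟩
  have e3 : u = γ • u' := UpperHalfPlane.ext (by rw [coe_act, e1, e2]; exact e)
  have k4 : dist u (γ • (⟨p', hp'⟩ : ℍ)) < 1 := by rwa [e3, dist_smul_int]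
  have k5 := dist_triangle_left (⟨p, hp⟩ : ℍ) (γ • ⟨p', hp'⟩) u
  exact k1 γ (k5.trans ((add_lt_add k2 k4).le.trans one_add_one_eq_two.le)) e

theorem cos (hN : N ≠ 0) : ∃ r : CI N → MZ, (∀ a, (r a).det = 1) ∧ ∀ g : MZ, g.det = 1 →
    ∃ a, ∀ τ : ℂ, 0 < τ.im → Ev N (act g τ) (act (r a) τ) :=
  ⟨cr, cr_det, fun g hg => by
    obtain ⟨i, γ, h1, rfl⟩ := cr_surj hN hg
    exact ⟨i, fun τ hτ => ⟨γ, h1, act_mul _ (pos_of_det (cr_det i)).ne' hτ⟩⟩⟩

theorem fd (hz : 0 < z.im) :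
    ∃ (g : MZ) (τ : ℂ), g.det = 1 ∧ |τ.re| ≤ 1 / 2 ∧ 1 / 2 ≤ τ.im ∧ z = act g τ := by
  obtain ⟨γ, hγ⟩ := ModularGroup.exists_smul_mem_fd ⟨z, hz⟩
  have h3 := ModularGroup.three_le_four_mul_im_sq_of_mem_fd hγ
  have h5 := (γ • (⟨z, hz⟩ : ℍ)).im_pos
  refine ⟨(γ⁻¹).1, (γ • (⟨z, hz⟩ : ℍ) : ℍ), (γ⁻¹).2, hγ.2, ?_, by rw [← coe_act, inv_smul_smul]⟩
  rw [UpperHalfPlane.coe_im]
  nlinarith

/-- The compactness principle. -/
theorem prop (hN : N ≠ 0) (hh : Inv0 N h)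
    (hi : ∀ x z y, 0 < y.im → h y ≠ 0 → Ev N z y → Q x y → Q x z)
    (h1 : ∀ z₀ : ℂ, 0 < z₀.im → ∀ᶠ x in l ×ˢ 𝓝[{z | h z ≠ 0}] z₀, Q x.1 x.2)
    (h2 : ∀ g : MZ, g.det = 1 → ∀ᶠ x in l ×ˢ map (act g) atI, Q x.1 x.2) :
    ∀ᶠ x in l, ∀ z : ℂ, 0 < z.im → h z ≠ 0 → Q x z := by
  have k : ∀ r : MZ, r.det = 1 → ∀ᶠ x in l, ∀ τ : ℂ, |τ.re| ≤ 1 / 2 → 1 / 2 ≤ τ.im →
      h (act r τ) ≠ 0 → Q x (act r τ) := fun r hr => by
    obtain ⟨pa, ha, pb, hb, hab⟩ := eventually_prod_iff.1 (h2 r hr)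
    obtain ⟨T, hT⟩ := eventually_atTop.1 (eventually_comap.1 (eventually_map.1 hb))
    have hK : IsCompact (Set.Icc (-(1 / 2) : ℝ) (1 / 2) ×ℂ Set.Icc (1 / 2 : ℝ) T) :=
      isCompact_Icc.reProdIm isCompact_Icc
    have k1 := hK.induction_on
      (p := fun S => ∀ᶠ x in l, ∀ τ ∈ S, h (act r τ) ≠ 0 → Q x (act r τ)) (by simp)
      (fun s t hst ht => ht.mono fun x hx τ hτ => hx τ (hst hτ))
      (fun s t hs ht => (hs.and ht).mono fun x hx τ hτ => hτ.elim (hx.1 τ) (hx.2 τ))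
      fun τ hτ => by
        have p : 0 < τ.im := lt_of_lt_of_le (by norm_num) hτ.2.1
        obtain ⟨pa, ha, pb, hb, hab⟩ := eventually_prod_iff.1 (h1 _ (act_pos (pos_of_det hr) p))
        exact ⟨_, nhdsWithin_le_nhds ((cont_act hr p).eventually (eventually_nhdsWithin_iff.1 hb)),
          ha.mono fun x hx u hu e => hab hx (hu e)⟩
    filter_upwards [k1, ha] with x k1 k2 τ e1 e2 e3
    rcases le_total τ.im T with c | c
    · exact k1 τ ⟨abs_le.1 e1, e2, c⟩ e3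
    · exact hab k2 (hT _ c τ rfl)
  obtain ⟨r, hr, hc⟩ := cos hN
  have := finite_CI hN
  filter_upwards [eventually_all.2 fun a => k (r a) (hr a)] with x hx z hz h0
  obtain ⟨g, τ, hg, e1, e2, rfl⟩ := fd hz
  obtain ⟨a, ha⟩ := hc g hg
  have p : 0 < τ.im := lt_of_lt_of_le (by norm_num) e2
  have p' := act_pos (pos_of_det (hr a)) p
  have h0' : h (act (r a) τ) ≠ 0 := (ha τ p).inv hh p' ▸ h0
  exact hi x _ _ p' h0' (ha τ p) (hx a τ e1 e2 h0')

/-- The standing hypotheses. -/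
structure Hy (N : ℕ) (h G : ℂ → ℂ) (ν : ℂ → ℤ) : Prop where
  n0 : N ≠ 0
  dv : Dv h ν
  inv : Inv0 N h
  cn : Cn h
  ci : Ci N G

/-- Neighbourhoods of the points of the sphere. -/
noncomputable def fl : Option ℂ → Filter ℂ
  | some c => 𝓝 c
  | none => cobounded ℂ

theorem fl_disj : ∀ {o o' : Option ℂ}, o ≠ o' → Disjoint (fl o) (fl o')
  | some _, some _, e => disjoint_nhds_nhds.2 fun k => e (congrArg some k)
  | some _, none, _ => Metric.disjoint_nhds_cobounded _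
  | none, some _, _ => Metric.disjoint_cobounded_nhds _
  | none, none, e => absurd rfl e

theorem sepn {τ : X → ℂ} {l₀ l₁ l₂ : Filter ℂ} (h1 : Tendsto τ l l₁) (h2 : Tendsto h l₀ l₂)
    (hd : Disjoint l₁ l₂) : ∀ᶠ x in l ×ˢ l₀, h x.2 ≠ τ x.1 := by
  obtain ⟨U, hU, V, hV, e⟩ := Filter.disjoint_iff.1 hd
  filter_upwards [(h1.eventually hU).prod_mk (h2.eventually hV)] with x hx k
  exact Set.disjoint_left.1 e hx.1 (k ▸ hx.2)

/-- The quotient of the derivatives. -/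
noncomputable def Kf (h G : ℂ → ℂ) (z : ℂ) : ℂ := deriv G z / deriv h z

/-- The behaviour at a place. -/
structure Pl (h G : ℂ → ℂ) (l₀ : Filter ℂ) (o : Option ℂ) : Prop where
  lim : Tendsto h l₀ (fl o)
  est : Tendsto (fun z => (h z - o.getD 0) * Kf h G z) l₀ (𝓝 0)
  crit : ∀ᶠ z in l₀, deriv h z = 0 → h z = o.getD 0

theorem Hy.an (H : Hy N h G ν) (hz : 0 < z.im) (h0 : 0 ≤ ν z) : AnalyticAt ℂ h z :=
  (H.dv.nf hz).meromorphicOrderAt_nonneg_iff_analyticAt.mp (by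
    rw [(H.dv.mo z hz).2]
    exact WithTop.coe_nonneg.2 h0)

theorem Hy.an' (H : Hy N h G ν) (hz : 0 < z.im) (h0 : h z ≠ 0) : AnalyticAt ℂ h z :=
  H.dv.an hz ((H.dv.ne_iff hz).1 h0)

theorem Hy.pl_pt (H : Hy N h G ν) (hz : 0 < z.im) :
    Pl h G (𝓝[{z | h z ≠ 0}] z) (if 0 ≤ ν z then some (h z) else none) := by
  have hG := hol_an H.ci.hol hz
  split_ifs with c
  · have k := ol' (H.an hz c) hG
    exact ⟨(H.an hz c).continuousAt.tendsto.mono_left nhdsWithin_le_nhds,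
      k.1.mono_left nhdsWithin_le_nhds, k.2.filter_mono nhdsWithin_le_nhds⟩
  · have h0 : h z = 0 := of_not_not fun e => c ((H.dv.ne_iff hz).1 e).ge
    have le : 𝓝[{z | h z ≠ 0}] z ≤ 𝓝[≠] z := nhdsWithin_mono _ fun u hu e => hu (e ▸ h0)
    have o : meromorphicOrderAt h z < 0 := by
      rw [(H.dv.mo z hz).2]
      exact WithTop.coe_lt_coe.2 (not_le.1 c)
    have k := ol (H.dv.mo z hz).1 o.ne hG
    exact ⟨(tendsto_cobounded_of_meromorphicOrderAt_neg o).mono_left le,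
      by simpa [Kf] using k.1.mono_left le, k.2.filter_mono le⟩

theorem Hy.pl_cusp (H : Hy N h G ν) (hg : g.det = 1) :
    ∃ c, Pl h G (map (act g) atI) (some c) := by
  have n0 : (0 : ℝ) < N := Nat.cast_pos.2 (Nat.pos_of_ne_zero H.n0)
  have n1 : (N : ℂ) ≠ 0 := Nat.cast_ne_zero.2 H.n0
  have per : ∀ F : ℂ → ℂ, (∀ z : ℂ, 0 < z.im → F (N * (z + 1)) = F (N * z)) →
      ∀ z : ℂ, 0 < z.im → F (z + (N : ℝ)) = F z := fun F hF z hz => by
    simpa [mul_add, mul_div_cancel₀ _ n1] using hF (z / N) (by simpa using div_pos hz n0)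
  have ha := hol_act (pos_of_det hg).ne'
  obtain ⟨c, c0, hc⟩ := H.cn g hg
  obtain ⟨c', hc'⟩ := lim H.n0 H.ci hg
  obtain ⟨A, hA⟩ := H.ci.cusp g hg
  have k1 : ∀ᶠ z in atI, DifferentiableAt ℂ h (act g z) := by
    filter_upwards [hc.eventually_ne c0, ev_pos] with z k hz using
      (H.an' (act_pos (pos_of_det hg) hz) k).differentiableAt
  obtain ⟨H1, a1, rfl, e1⟩ := chart n0 (per (fun z => h (act g z)) fun z hz =>
    H.inv.periodic hg dvd_rfl H.n0 hz) ((k1.and ev_pos).mono fun z k => k.1.comp z (ha z k.2)) hc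
  obtain ⟨H2, a2, -, e2⟩ := chart n0 (per (fun z => G (act g z)) fun z hz => by
    simpa using hA.periodic 1 hz) (ev_pos.mono fun z hz =>
      (H.ci.hol _ (act_pos (pos_of_det hg) hz)).comp z (ha z hz)) hc'
  have q := (Function.Periodic.qParam_tendsto n0).mono_right nhdsWithin_le_nhds
  have k := ol' a1 a2
  have k2 : ∀ᶠ z in atI, h (act g z) = H1 (Function.Periodic.qParam N z) ∧ ∃ u, u ≠ 0 ∧
      deriv h (act g z) = deriv H1 (Function.Periodic.qParam N z) * u ∧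
      deriv G (act g z) = deriv H2 (Function.Periodic.qParam N z) * u := by
    filter_upwards [k1, ev_pos, q.eventually a1.eventually_analyticAt,
      q.eventually a2.eventually_analyticAt] with z k1 hz b1 b2
    have d : HasDerivAt (Function.Periodic.qParam N) _ z :=
      (((hasDerivAt_id z).const_mul (2 * π * I)).div_const ((N : ℝ) : ℂ)).cexp
    have d0 := deriv_act_ne (pos_of_det hg).ne' hz
    refine ⟨e1 z hz, _, div_ne_zero ?_ d0,
      trans (ha z hz) d.differentiableAt d0 k1 b1.differentiableAt ((ev_im hz).mono e1),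
      trans (ha z hz) d.differentiableAt d0 (H.ci.hol _ (act_pos (pos_of_det hg) hz))
        b2.differentiableAt ((ev_im hz).mono e2)⟩
    rw [d.deriv]
    simp [n1]
  refine ⟨H1 0, tendsto_map' hc, tendsto_map' ((k.1.comp q).congr' (k2.mono fun z hz => ?_)),
    eventually_map.2 ((k2.and (q.eventually k.2)).mono fun z hz e => ?_)⟩
  · obtain ⟨e, u, u0, d1, d2⟩ := hz
    simp only [Function.comp_apply, Kf, e, d1, d2, mul_div_mul_right _ _ u0, Option.getD_some]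
  · obtain ⟨⟨e', u, u0, d1, -⟩, k⟩ := hz
    exact e'.trans (k ((mul_eq_zero.1 (d1 ▸ e)).resolve_right u0))

theorem Hy.prop (H : Hy N h G ν) (hi : ∀ x z y, 0 < y.im → h y ≠ 0 → Ev N z y → Q x y → Q x z)
    (h1 : ∀ l₀ o, Pl h G l₀ o → ∀ᶠ x in l ×ˢ l₀, Q x.1 x.2) :
    ∀ᶠ x in l, ∀ z : ℂ, 0 < z.im → h z ≠ 0 → Q x z :=
  A0.prop H.n0 H.inv hi (fun _ hz => h1 _ _ (H.pl_pt hz)) fun _ hg =>
    (H.pl_cusp hg).elim fun _ => h1 _ _

theorem dinv (hg : G0 N g) (hy : 0 < y.im) {c : ℂ} (hF : DifferentiableAt ℂ F y)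
    (hF' : DifferentiableAt ℂ F (act g y)) (e : ∀ z : ℂ, 0 < z.im → F (act g z) = F z + c) :
    deriv F (act g y) = deriv F y * (deriv (act g) y)⁻¹ := by
  simpa using trans (b := id) (H := fun z => F z + c) (hol_act (pos_of_det hg.1).ne' y hy)
    differentiableAt_id (deriv_act_ne (pos_of_det hg.1).ne' hy) hF' (hF.add_const c)
    ((ev_im hy).mono e)

theorem Hy.kinv (H : Hy N h G ν) (hy : 0 < y.im) (h0 : h y ≠ 0) (e : Ev N z y) :
    Kf h G z = Kf h G y ∧ (deriv h y ≠ 0 → deriv h z ≠ 0) := by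
  obtain ⟨g, hg, rfl⟩ := e
  obtain ⟨c, hc⟩ := H.ci.inv g hg
  have u0 := inv_ne_zero (deriv_act_ne (pos_of_det hg.1).ne' hy)
  have e1 := dinv (c := 0) hg hy (H.an' hy h0).differentiableAt
    (H.an' (gpos hg hy) (H.inv g hg y hy ▸ h0)).differentiableAt fun z hz => by
      rw [H.inv g hg z hz, add_zero]
  rw [Kf, Kf, e1, dinv hg hy (H.ci.hol y hy) (H.ci.hol _ (gpos hg hy)) hc]
  exact ⟨mul_div_mul_right _ _ u0, fun k => mul_ne_zero k u0⟩

theorem Hy.est (H : Hy N h G ν) (o : Option ℂ) {ε : ℝ} (hε : 0 < ε) :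
    ∀ᶠ t in fl o, ∀ z : ℂ, 0 < z.im → h z ≠ 0 → h z = t → ‖(t - o.getD 0) * Kf h G z‖ ≤ ε := by
  refine H.prop (fun t z y hy h0 e k e' => ?_) fun l₀ o' P => ?_
  · rw [(H.kinv hy h0 e).1]
    exact k (e.inv H.inv hy ▸ e')
  · by_cases c : o = o'
    · subst c
      refine ((Metric.tendsto_nhds.1 P.est ε hε).prod_inr _).mono fun x hx e => ?_
      rw [← e, ← dist_zero_right]
      exact hx.le
    · exact (sepn tendsto_id P.lim (fl_disj c)).mono fun x hx e => absurd e hx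

/-- Values that are not taken at the cusps. -/
def Gv (h : ℂ → ℂ) (t : ℂ) : Prop :=
  ∀ g : MZ, g.det = 1 → ∃ c, c ≠ t ∧ Tendsto (fun z => h (act g z)) atI (𝓝 c)

/-- Regular values. -/
def Gd (h : ℂ → ℂ) : Set ℂ :=
  {t | t ≠ 0 ∧ Gv h t ∧ ∀ z : ℂ, 0 < z.im → h z = t → deriv h z ≠ 0}

theorem Hy.gd (H : Hy N h G ν) : ∀ᶠ t in cofinite, t ∈ Gd h := by
  obtain ⟨r, hr, hc⟩ := cos H.n0
  have := finite_CI H.n0
  choose c _ k using fun a => H.cn (r a) (hr a)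
  have k1 := H.prop (l := cofinite) (Q := fun t z => h z = t → deriv h z ≠ 0)
    (fun t z y hy h0 e k e' => (H.kinv hy h0 e).2 (k (e.inv H.inv hy ▸ e'))) fun l₀ o P =>
      ((eventually_cofinite_ne (o.getD 0)).prod_mk P.crit).mono fun x hx e e' =>
        hx.1 (e.symm.trans (hx.2 e'))
  filter_upwards [eventually_cofinite_ne 0, eventually_all.2 fun a => eventually_cofinite_ne (c a),
    k1] with t t0 k2 k3
  refine ⟨t0, fun g hg => ?_, fun z hz e => k3 z hz (e ▸ t0) e⟩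
  obtain ⟨a, ha⟩ := hc g hg
  exact ⟨c a, (k2 a).symm, (k a).congr' (ev_pos.mono fun z hz =>
    ((ha z hz).inv H.inv (act_pos (pos_of_det (hr a)) hz)).symm)⟩

/-- Points of nearby fibres are near the fibre. -/
theorem Hy.away (H : Hy N h G ν) (hv : Gv h t₀) {τ : X → ℂ} (hτ : Tendsto τ l (𝓝 t₀))
    (hi : ∀ x z y, 0 < y.im → Ev N z y → Q x y → Q x z)
    (h1 : ∀ z₀ : ℂ, 0 < z₀.im → 0 ≤ ν z₀ → h z₀ = t₀ →
      ∀ᶠ x in l ×ˢ 𝓝 z₀, h x.2 = τ x.1 → Q x.1 x.2) :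
    ∀ᶠ x in l, ∀ z : ℂ, 0 < z.im → h z ≠ 0 → h z = τ x → Q x z := by
  refine A0.prop H.n0 H.inv (fun x z y hy _ e k e' => hi x z y hy e (k (e.inv H.inv hy ▸ e')))
    (fun z₀ hz => ?_) fun g hg => ?_
  · by_cases c : 0 ≤ ν z₀ ∧ h z₀ = t₀
    · exact (h1 z₀ hz c.1 c.2).filter_mono (prod_mono_right _ nhdsWithin_le_nhds)
    · refine (sepn hτ (H.pl_pt hz).lim (fl_disj (o := some t₀) fun e => c ?_)).mono
        fun x hx e => absurd e hx
      split_ifs at e with c'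
      exact ⟨c', (Option.some.inj e).symm⟩
  · obtain ⟨c, c0, hc⟩ := hv g hg
    exact (sepn hτ (tendsto_map' hc) (disjoint_nhds_nhds.2 c0.symm)).mono fun x hx e => absurd e hx

end Pool.Agent.G5.A0
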