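import Pool.Agent.Lib.MP_696deb_nt.B5.A0b

/-! The easy half of the theorem of Abel. -/

set_option autoImplicit false

open Filter Topology Complex Bornology Finset Polynomial
open scoped Classical

namespace Pool.Agent.G5

namespace A0

open Pool.Agent.Lib.MP_696deb_nt Pool.Agent.B4.GE AB

variable {N : ℕ} {h G : ℂ → ℂ} {ν : ℂ → ℤ} {t t₀ z : ℂ} {Z : Set ℂ} {s : Finset ℂ}
  {L : PeriodPair}

/-- Representatives for the points of an invariant set. -/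
structure Fb (N : ℕ) (Z : Set ℂ) (s : Finset ℂ) : Prop where
  sep : Sep N s
  mem : ∀ z ∈ s, z ∈ Z
  cov : ∀ z : ℂ, 0 < z.im → z ∈ Z → ∃ y ∈ s, Ev N z y

/-- The chosen representatives. -/
noncomputable def R (N : ℕ) (Z : Set ℂ) : Finset ℂ := if H : ∃ s, Fb N Z s then H.choose else ∅

theorem R_mem (hz : z ∈ R N Z) : 0 < z.im ∧ z ∈ Z := by
  rw [R] at hz
  split_ifs at hz with H
  · exact ⟨H.choose_spec.sep.pos z hz, H.choose_spec.mem z hz⟩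
  · exact absurd hz (notMem_empty z)

theorem sum_R {V : Type} [AddCommGroup V] {F : ℂ → V} (hh : Inv0 N h) (hs : Fb N {z | h z = t} s)
    (hF : ∀ z y, 0 < y.im → h y = t → Ev N z y → F z = F y) :
    ∑ z ∈ R N {z | h z = t}, F z = ∑ z ∈ s, F z := by
  have H : ∃ s, Fb N {z | h z = t} s := ⟨s, hs⟩
  have k : ∀ s, Fb N {z | h z = t} s → ∑ z ∈ s, F z = ∑ z ∈ s, if h z = t then F z else 0 :=
    fun s hs => sum_congr rfl fun z hz => (if_pos (hs.mem z hz)).symm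
  have k' : ∀ s, Fb N {z | h z = t} s → Cov N (fun z => if h z = t then F z else 0) s :=
    fun s hs z hz e => hs.cov z hz (of_not_not fun c => e (if_neg c))
  rw [R, dif_pos H, k _ H.choose_spec, k s hs]
  refine sum_indep H.choose_spec.sep hs.sep (fun g hg z hz => ?_) (k' _ H.choose_spec) (k' s hs)
  simp only [hh g hg z hz]
  exact if_ctx_congr Iff.rfl (fun e => hF _ _ hz e ⟨g, hg, rfl⟩) fun _ => rfl

/-- The local structure of the fibres. -/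
theorem Hy.loc (H : Hy N h G ν) (hv : Gv h t₀) (hs : Sep N s) {m : ℂ → ℕ}
    (h1 : ∀ p ∈ s, 0 < m p ∧ (m p = 1 ∨ Fr p) ∧ ∃ g, AnalyticAt ℂ g p ∧ g p ≠ 0 ∧
      ∀ᶠ z in 𝓝 p, h z = t₀ + (z - p) ^ m p * g z)
    (h2 : ∀ z : ℂ, 0 < z.im → 0 ≤ ν z → h z = t₀ → ∃ p ∈ s, Ev N z p) :
    ∃ ψ : ℂ → ℂ → ℂ, (∀ p ∈ s, AnalyticAt ℂ (ψ p) 0 ∧ ψ p 0 = p ∧
      ∀ᶠ w in 𝓝 0, h (ψ p w) = t₀ + w ^ m p) ∧
      ∀ᶠ t in 𝓝 t₀, t ≠ 0 → ∀ (V : Type) [AddCommGroup V] (F : ℂ → V),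
        (∀ z y, 0 < y.im → h y = t → Ev N z y → F z = F y) → ∑ z ∈ R N {z | h z = t}, F z =
          ∑ p ∈ s, ∑ w ∈ nthRootsFinset (m p) (t - t₀), F (ψ p w) := by
  have k : ∀ p ∈ s, ∃ φ ψ : ℂ → ℂ, AnalyticAt ℂ ψ 0 ∧ ψ 0 = p ∧
      (∀ᶠ z in 𝓝 p, h z = t₀ + φ z ^ m p ∧ ψ (φ z) = z) ∧ ∀ᶠ w in 𝓝 0, φ (ψ w) = w := fun p hp => by
    obtain ⟨m0, -, g, g1, g2, g3⟩ := h1 p hp
    obtain ⟨φ, ψ, a1, a2, a3, a4⟩ := nf m0 g1 g2
    exact ⟨φ, ψ, a1, a2, (g3.and a3).mono fun z k => ⟨k.2.1 ▸ k.1, k.2.2⟩, a4⟩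
  choose! φ ψ a1 a2 a3 a4 using k
  have tψ : ∀ p ∈ s, Tendsto (ψ p) (𝓝 0) (𝓝 p) := fun p hp => by
    simpa only [a2 p hp] using (a1 p hp).continuousAt.tendsto
  have b1 : ∀ p ∈ s, ∀ᶠ w in 𝓝 0,
      0 < (ψ p w).im ∧ h (ψ p w) = t₀ + w ^ m p ∧ φ p (ψ p w) = w := fun p hp => by
    filter_upwards [(tψ p hp).eventually (ev_im (hs.pos p hp)), (tψ p hp).eventually (a3 p hp),
      a4 p hp] with w k1 k2 k3 using ⟨k1, by rw [k2.1, k3], k3⟩
  have c1 := (eventually_all_finset s).2 fun p hp => rt (m p) (b1 p hp) t₀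
  have c2 : ∀ᶠ t in 𝓝 t₀, ∀ p ∈ s, ∀ p' ∈ s, ∀ w, w ^ m p = t - t₀ → ∀ w', w' ^ m p' = t - t₀ →
      ∀ g : MZ, g.det = 1 → ψ p w = act g (ψ p' w') → p = act g p' :=
    (eventually_all_finset s).2 fun p hp => (eventually_all_finset s).2 fun p' hp' => by
      obtain ⟨pa, ha, pb, hb, hab⟩ := eventually_prod_iff.1 (pd (hs.pos p hp) (hs.pos p' hp'))
      filter_upwards [rt (m p) ((tψ p hp).eventually ha) t₀,
        rt (m p') ((tψ p' hp').eventually hb) t₀] with t k1 k2 w e w' e' using hab (k1 w e) (k2 w' e')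
  have c3 := H.away (l := 𝓝 t₀) (Q := fun _ z => ∃ p ∈ s, ∃ y : ℂ, 0 < y.im ∧ Ev N z y ∧
      h y = t₀ + φ p y ^ m p ∧ ψ p (φ p y) = y) hv tendsto_id
    (fun _ z y _ e ⟨p, hp, x, k1, k2, k3⟩ => ⟨p, hp, x, k1, e.trans k2 k1, k3⟩)
    fun z₀ hz n0 e => by
      obtain ⟨p, hp, g, hg, rfl⟩ := h2 z₀ hz n0 e
      have c := (cont_act (adj hg).1 hz).tendsto
      rw [act_adjugate (pos_of_det hg.1).ne' (hs.pos p hp)] at c
      exact (((ev_im hz).and (c.eventually (a3 p hp))).prod_inr _).mono fun x hx _ =>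
        ⟨p, hp, _, gpos (adj hg) hx.1, ⟨g, hg, (act_adj' (pos_of_det hg.1) hx.1).symm⟩, hx.2⟩
  refine ⟨ψ, fun p hp => ⟨a1 p hp, a2 p hp, (b1 p hp).mono fun w k => k.2.1⟩, ?_⟩
  filter_upwards [c1, c2, c3] with t c1 c2 c3 t0 V _ F hF
  have ms : ∀ x : Σ _ : ℂ, ℂ, x ∈ s.sigma (fun p => nthRootsFinset (m p) (t - t₀)) ↔
      x.1 ∈ s ∧ x.2 ^ m x.1 = t - t₀ := fun x =>
    mem_sigma.trans (and_congr_right fun hp => mem_nthRootsFinset (h1 _ hp).1 _)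
  have inj : ∀ x ∈ s.sigma (fun p => nthRootsFinset (m p) (t - t₀)),
      ∀ x' ∈ s.sigma (fun p => nthRootsFinset (m p) (t - t₀)),
        Ev N (ψ x.1 x.2) (ψ x'.1 x'.2) → x = x' := by
    rintro ⟨p, w⟩ hx ⟨p', w'⟩ hx' ⟨g, hg, e⟩
    obtain ⟨hp, hw⟩ := (ms _).1 hx
    obtain ⟨hp', hw'⟩ := (ms _).1 hx'
    have e1 := c2 p hp p' hp' w hw w' hw' g hg.1 e
    obtain rfl := hs.uniq p hp p' hp' ⟨g, hg, e1⟩
    congr 1
    rcases (h1 p hp).2.1 with c | c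
    · simpa only [c, pow_one] using hw.trans hw'.symm
    · have e2 : ψ p w = ψ p w' := by
        rcases c g hg.1 e1.symm with rfl | rfl
        · exact e.trans (act_one _)
        · rw [← neg_one_smul ℤ, act_smul (by norm_num), act_one] at e
          exact e
      rw [← (c1 p hp w hw).2.2, e2, (c1 p hp w' hw').2.2]
  rw [sum_sigma', ← sum_image (g := fun x : Σ _ : ℂ, ℂ => ψ x.1 x.2) fun x hx x' hx' e =>
    inj x hx x' hx' (by rw [show ψ x.1 x.2 = ψ x'.1 x'.2 from e]; exact .refl _)]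
  refine sum_R H.inv ⟨⟨forall_mem_image.2 fun x hx => ?_, forall_mem_image.2 fun x hx =>
    forall_mem_image.2 fun x' hx' e => by rw [inj x hx x' hx' e]⟩,
    forall_mem_image.2 fun x hx => ?_, fun z hz e => ?_⟩ hF
  · exact (c1 _ ((ms x).1 hx).1 _ ((ms x).1 hx).2).1
  · exact (c1 _ ((ms x).1 hx).1 _ ((ms x).1 hx).2).2.1.trans (by
      rw [((ms x).1 hx).2, add_sub_cancel])
  · have e : h z = t := e
    obtain ⟨p, hp, y, k1, k2, k3, k4⟩ := c3 z hz (e ▸ t0) e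
    exact ⟨y, mem_image.2 ⟨⟨p, φ p y⟩, (ms _).2 ⟨hp, by
      rw [← e, k2.inv H.inv k1, k3, add_sub_cancel_left]⟩, k4⟩, k2⟩

theorem mk_inv (hL : PerL N L G) (z y : ℂ) (hy : 0 < y.im) (_ : h y = t) (e : Ev N z y) :
    L.lattice.mkQ (G z) = L.lattice.mkQ (G y) := by
  obtain ⟨g, hg, rfl⟩ := e
  exact (Submodule.Quotient.eq _).2 (hL g hg y hy)

/-- The structure near a regular value. -/
theorem Hy.reg (H : Hy N h G ν) (hL : PerL N L G) (ht : t₀ ∈ Gd h) :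
    ∃ (a : ℂ → ℂ) (n : ℤ), ∀ᶠ t in 𝓝 t₀, ∑ _z ∈ R N {z | h z = t}, (1 : ℤ) = n ∧
      ∑ z ∈ R N {z | h z = t}, L.lattice.mkQ (G z) = L.lattice.mkQ (a t) ∧
      HasDerivAt a (∑ z ∈ R N {z | h z = t}, Kf h G z) t := by
  obtain ⟨T, hT⟩ := (H.away (l := atTop) (τ := fun _ : Finset ℂ => t₀)
    (Q := fun T z => ∃ p ∈ T, (0 < p.im ∧ h p = t₀) ∧ Ev N z p) ht.2.1 tendsto_const_nhds
    (fun _ z y _ e ⟨p, hp, k1, k2⟩ => ⟨p, hp, k1, e.trans k2 k1.1⟩) fun z₀ hz n0 e =>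
      ((eventually_ge_atTop {z₀}).prod_mk (eventually_nhdsWithin_iff.1
        ((H.an hz n0).differentiableAt.hasDerivAt.eventually_ne (c := t₀) (ht.2.2 z₀ hz e)))).mono
        fun x hx e' => ⟨z₀, hx.1 (mem_singleton_self _), ⟨hz, e⟩, by
          rw [of_not_not fun c => hx.2 c e']
          exact .refl _⟩).exists
  obtain ⟨s, s1, s2, s3⟩ := exists_sep (N := N) (T.filter fun p => 0 < p.im ∧ h p = t₀)
    fun p hp => (mem_filter.1 hp).2.1
  have v : ∀ p ∈ s, h p = t₀ := fun p hp => (mem_filter.1 (s1 hp)).2.2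
  have an : ∀ p ∈ s, AnalyticAt ℂ h p := fun p hp => H.an' (s2.pos p hp) (v p hp ▸ ht.1)
  obtain ⟨ψ, k1, k2⟩ := H.loc ht.2.1 s2 (m := fun _ => 1) (fun p hp => ⟨one_pos, .inl rfl,
    dslope h p, (an p hp).elim fun _ k => ⟨_, k.has_fpower_series_dslope_fslope⟩, by
      rw [dslope_same]
      exact ht.2.2 p (s2.pos p hp) (v p hp), .of_forall fun z => by
      rw [pow_one, ← smul_eq_mul, sub_smul_dslope, v p hp, add_sub_cancel]⟩) fun z hz _ e => by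
      obtain ⟨p, hp, k1, k2⟩ := hT z hz (e ▸ ht.1) e
      obtain ⟨y, hy, k3⟩ := s3 p (mem_filter.2 ⟨hp, k1⟩)
      exact ⟨y, hy, k2.trans k3 (s2.pos y hy)⟩
  have r1 : ∀ c : ℂ, nthRootsFinset 1 c = {c} := fun c => Finset.ext fun w => by
    rw [mem_nthRootsFinset one_pos, pow_one, mem_singleton]
  simp only [r1, sum_singleton, pow_one] at k1 k2
  have sb : Tendsto (fun t => t - t₀) (𝓝 t₀) (𝓝 0) := tendsto_sub_nhds_zero_iff.2 tendsto_id
  refine ⟨fun t => ∑ p ∈ s, G (ψ p (t - t₀)), ∑ _p ∈ s, 1, ?_⟩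
  filter_upwards [k2, eventually_ne_nhds ht.1, (eventually_all_finset s).2 fun p hp =>
    sb.eventually (sec (k1 p hp).1 ((k1 p hp).2.1.symm ▸ an p hp)
      ((k1 p hp).2.1.symm ▸ hol_an H.ci.hol (s2.pos p hp)) (k1 p hp).2.2)] with t k2 t0 k3
  refine ⟨k2 t0 ℤ _ fun _ _ _ _ _ => rfl, (k2 t0 _ _ (mk_inv hL)).trans (map_sum _ _ _).symm, ?_⟩
  rw [k2 t0 ℂ _ fun z y hy e e' => (H.kinv hy (e ▸ t0) e').1]
  exact HasDerivAt.fun_sum fun p hp => (k3 p hp).comp_sub_const t t₀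

/-- The degree and the sum of the fibre do not depend on the regular value. -/
theorem Hy.const (H : Hy N h G ν) (hL : PerL N L G) : ∃ (n : ℤ) (v : ℂ ⧸ L.lattice), ∀ t ∈ Gd h,
    ∑ _z ∈ R N {z | h z = t}, (1 : ℤ) = n ∧ ∑ z ∈ R N {z | h z = t}, L.lattice.mkQ (G z) = v := by
  obtain ⟨n, hn⟩ := const_of_loc (A := fun t => ∑ _z ∈ R N {z | h z = t}, (1 : ℤ)) H.gd
    fun t ht => by
      obtain ⟨a, n, k⟩ := H.reg hL ht
      exact k.mono fun u hu => hu.1.trans k.self_of_nhds.1.symm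
  have est : ∀ (o : Option ℂ) (l : Filter ℂ), l ≤ fl o → l ≤ Filter.cofinite →
      Tendsto (fun t => (t - o.getD 0) * ∑ z ∈ R N {z | h z = t}, Kf h G z) l (𝓝 0) :=
    fun o l l1 l2 => Metric.tendsto_nhds.2 fun ε hε => by
      have p : (0 : ℝ) < |(n : ℝ)| + 1 := by positivity
      filter_upwards [(H.est o (div_pos hε p)).filter_mono l1, H.gd.filter_mono l2] with t k ht
      rw [dist_zero_right, mul_sum]
      refine (norm_sum_le_of_le (R N {z | h z = t}) fun z hz => k z (R_mem hz).1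
        ((R_mem hz).2.trans_ne ht.1) (R_mem hz).2).trans_lt ?_
      have e : ((R N {z | h z = t}).card : ℝ) = n := by
        rw [← hn t ht]
        simp
      rw [sum_const, nsmul_eq_mul, e, mul_div_assoc', div_lt_iff₀ p, mul_comm]
      exact mul_lt_mul_of_pos_left ((le_abs_self _).trans_lt (lt_add_one _)) hε
  have D0 := liou H.gd (fun t ht => by
    obtain ⟨a, n, k⟩ := H.reg hL ht
    exact (analyticAt_iff_eventually_differentiableAt.2 (k.mono fun u hu =>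
      hu.2.2.differentiableAt)).deriv.differentiableAt.congr_of_eventuallyEq
        (k.mono fun u hu => hu.2.2.deriv.symm))
    (fun b => est (some b) _ nhdsWithin_le_nhds (nhdsNE_le_cofinite b))
    (by simpa using est none (cobounded ℂ) le_rfl (le_cofinite ℂ))
  obtain ⟨v, hv⟩ := const_of_loc (A := fun t => ∑ z ∈ R N {z | h z = t}, L.lattice.mkQ (G z)) H.gd
    fun t ht => by
      obtain ⟨a, n, k⟩ := H.reg hL ht
      have k1 : ∀ᶠ u in 𝓝 t, u ∈ Gd h := by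
        rw [← nhdsNE_sup_pure t, eventually_sup, eventually_pure]
        exact ⟨H.gd.filter_mono (nhdsNE_le_cofinite t), ht⟩
      filter_upwards [k, loc_const ((k.and k1).mono fun u hu => D0 u hu.2 ▸ hu.1.2.2)] with u k2 k3
      rw [k2.2.1, k.self_of_nhds.2.1, k3]
  exact ⟨n, v, fun t ht => ⟨hn t ht, hv t ht⟩⟩

/-- The structure near the zeros. -/
theorem Hy.zero (H : Hy N h G ν) (hL : PerL N L G) (hs : Rp N ν s) :
    ∃ a : ℂ → ℂ, Tendsto a (𝓝[≠] 0) (𝓝 (∑ p ∈ s, (ν p).toNat * G p)) ∧ ∀ᶠ t in 𝓝[≠] 0,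
      ∑ _z ∈ R N {z | h z = t}, (1 : ℤ) = ∑ p ∈ s, ((ν p).toNat : ℤ) ∧
      ∑ z ∈ R N {z | h z = t}, L.lattice.mkQ (G z) = L.lattice.mkQ (a t) := by
  have m0 : ∀ p ∈ s.filter fun p => 0 < ν p, 0 < (ν p).toNat := fun p hp =>
    Int.lt_toNat.2 (mem_filter.1 hp).2
  have ps : ∀ p ∈ s.filter fun p => 0 < ν p, 0 < p.im := fun p hp => hs.pos p (mem_filter.1 hp).1
  obtain ⟨ψ, k1, k2⟩ := H.loc (t₀ := 0) (s := s.filter fun p => 0 < ν p) H.cn
    ⟨ps, fun z hz y hy => (rp_sep hs).uniq z (mem_filter.1 hz).1 y (mem_filter.1 hy).1⟩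
    (m := fun p => (ν p).toNat) (fun p hp => ⟨m0 p hp, .inr (hs.free p (mem_filter.1 hp).1),
      (H.dv p (ps p hp)).imp fun g k => ⟨k.1, k.2.1, k.2.2.mono fun z e => by
        rw [e, zero_add, ← zpow_natCast, Int.toNat_of_nonneg (mem_filter.1 hp).2.le]⟩⟩)
    fun z hz n0 e => by
      have n1 : ν z ≠ 0 := fun c => (H.dv.ne_iff hz).2 c e
      obtain ⟨p, hp, k⟩ := hs.ex z hz n1
      exact ⟨p, mem_filter.2 ⟨hp, Ev.inv k hs.inv (hs.pos p hp) ▸ n0.lt_of_ne' n1⟩, k⟩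
  have fs : ∀ {V : Type} [Ring V] (f : ℂ → V), ∑ p ∈ s, (ν p).toNat * f p =
      ∑ p ∈ s.filter fun p => 0 < ν p, (ν p).toNat * f p := fun f =>
    (sum_filter_of_ne fun p _ e => lt_of_not_ge fun c => e (by
      rw [Int.toNat_of_nonpos c, Nat.cast_zero, zero_mul])).symm
  simp only [sub_zero] at k2
  refine ⟨fun t => ∑ p ∈ s.filter fun p => 0 < ν p, ∑ w ∈ nthRootsFinset (ν p).toNat t,
    G (ψ p w), ?_, ?_⟩
  · rw [fs]
    refine tendsto_finsetSum _ fun p hp => ?_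
    have k := tendsto_roots (f := fun w => G (ψ p w)) (m0 p hp) (ContinuousAt.comp
      ((k1 p hp).2.1.symm ▸ (H.ci.hol p (ps p hp)).continuousAt) (k1 p hp).1.continuousAt)
    rwa [(k1 p hp).2.1] at k
  · filter_upwards [k2.filter_mono nhdsWithin_le_nhds, self_mem_nhdsWithin] with t k2 t0
    refine ⟨(k2 t0 ℤ _ fun _ _ _ _ _ => rfl).trans ?_, (k2 t0 _ _ (mk_inv hL)).trans (by
      simp only [map_sum])⟩
    refine Eq.trans (sum_congr rfl fun p hp => ?_)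
      ((fs fun _ => (1 : ℤ)).symm.trans (sum_congr rfl fun p _ => mul_one _))
    rw [sum_const, card_roots (m0 p hp) t0, nsmul_eq_mul]

end A0

open A0 Pool.Agent.B4.GE in
theorem a0_stmt : A0Stmt := fun N L h G ν s hN hd hi hc hs hG hL => by
  have H : Hy N h G ν := ⟨hN, hd, hi, hc, hG⟩
  have H' : Hy N (fun z => h z ^ (-1 : ℤ)) G fun z => -1 * ν z :=
    ⟨hN, hd.zpow _, fun g hg z hz => by simp only [hi g hg z hz], hc.zpow _, hG⟩
  obtain ⟨n, v, k⟩ := H.const hL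
  obtain ⟨a, a1, a2⟩ := H.zero hL hs
  obtain ⟨b, b1, b2⟩ := H'.zero hL (AB.rp_neg hs)
  have e : ∀ t : ℂ, {z | h z ^ (-1 : ℤ) = t} = {z | h z = t⁻¹} := fun t => Set.ext fun z => by
    simp only [Set.mem_ofPred_eq, zpow_neg_one, inv_eq_iff_eq_inv]
  simp only [e, neg_one_mul] at b1 b2
  have k1 : ∀ᶠ t in 𝓝[≠] (0 : ℂ), ∑ p ∈ s, ((ν p).toNat : ℤ) = ∑ p ∈ s, ((-ν p).toNat : ℤ) ∧
      a t - b t ∈ (L.lattice : Set ℂ) := by
    filter_upwards [a2, b2, H.gd.filter_mono (nhdsNE_le_cofinite 0),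
      tendsto_inv₀_nhdsNE_zero.eventually (H.gd.filter_mono (le_cofinite ℂ))] with t k1 k2 k3 k4
    exact ⟨k1.1.symm.trans (((k t k3).1.trans (k _ k4).1.symm).trans k2.1),
      (Submodule.Quotient.eq _).1 (k1.2.symm.trans (((k t k3).2.trans (k _ k4).2.symm).trans k2.2))⟩
  refine ⟨?_, ?_⟩
  · rw [← sub_eq_zero.2 k1.exists.choose_spec.1, ← sum_sub_distrib]
    exact sum_congr rfl fun p _ => (Int.toNat_sub_toNat_neg _).symm
  · have k2 := L.isClosed_lattice.mem_of_tendsto (a1.sub b1) (k1.mono fun t ht => ht.2)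
    rw [← sum_sub_distrib, sum_congr rfl fun p _ => show ((ν p).toNat : ℂ) * G p -
      (-ν p).toNat * G p = ν p * G p by
        rw [← sub_mul, ← Int.cast_natCast (ν p).toNat, ← Int.cast_natCast (-ν p).toNat,
          ← Int.cast_sub, Int.toNat_sub_toNat_neg]] at k2
    exact k2

end Pool.Agent.G5
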