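import Pool.Agent.Lib.MP_696deb_nt.B5.EXa

/-! Invariant divisors with finite support modulo the group, and functions with a multiplier. -/

set_option autoImplicit false

open Finset Filter Topology Complex
open scoped Classical MatrixGroups UpperHalfPlane

namespace Pool.Agent.G5.AB

open Pool.Agent.Lib.MP_696deb_nt Pool.Agent.B4.GE

variable {V : Type} [AddCommGroup V] {N p : ℕ} {g k w : MZ} {z y x : ℂ} {s s' : Finset ℂ}
  {ν ν' : ℂ → ℤ} {S S' F : ℂ → V} {W W' G : ℂ → ℂ} {c c' : MZ → ℂ}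

theorem one : G0 N 1 := ⟨Matrix.det_one, by simp⟩

theorem mul (h : G0 N g) (h' : G0 N k) : G0 N (g * k) :=
  ⟨by rw [Matrix.det_mul, h.1, h'.1, one_mul], by
    rw [Matrix.mul_apply, Fin.sum_univ_two]
    exact (h.2.mul_right _).add (h'.2.mul_left _)⟩

theorem adj (h : G0 N g) : G0 N g.adjugate :=
  ⟨by rw [det_adjugate_two, h.1], by
    rw [Matrix.adjugate_fin_two]
    exact dvd_neg.2 h.2⟩

theorem gpos (h : G0 N g) (hz : 0 < z.im) : 0 < (act g z).im := act_pos (h.1 ▸ one_pos) hz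

theorem act_adj' (h : 0 < g.det) (hz : 0 < z.im) : act g (act g.adjugate z) = z := by
  rw [← act_mul g (by rw [det_adjugate_two]; exact h.ne') hz, Matrix.mul_adjugate,
    act_smul h.ne', act_one]

/-- Equivalent points. -/
def Ev (N : ℕ) (z y : ℂ) : Prop := ∃ g, G0 N g ∧ z = act g y

theorem Ev.refl (z : ℂ) : Ev N z z := ⟨1, one, (act_one z).symm⟩

theorem Ev.symm (h : Ev N z y) (hy : 0 < y.im) : Ev N y z := by
  obtain ⟨g, hg, rfl⟩ := h
  exact ⟨_, adj hg, (act_adjugate (hg.1 ▸ one_ne_zero) hy).symm⟩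

theorem Ev.trans (h : Ev N z y) (h' : Ev N y x) (hx : 0 < x.im) : Ev N z x := by
  obtain ⟨g, hg, rfl⟩ := h
  obtain ⟨k, hk, rfl⟩ := h'
  exact ⟨_, mul hg hk, (act_mul _ (hk.1 ▸ one_ne_zero) hx).symm⟩

theorem Ev.inv {α : Type*} {F : ℂ → α} (h : Ev N z y) (hF : Inv0 N F) (hy : 0 < y.im) :
    F z = F y := by
  obtain ⟨g, hg, rfl⟩ := h
  exact hF g hg y hy

/-- Finite sets of inequivalent points. -/
structure Sep (N : ℕ) (s : Finset ℂ) : Prop where
  pos : ∀ z ∈ s, 0 < z.im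
  uniq : ∀ z ∈ s, ∀ y ∈ s, Ev N z y → z = y

/-- The set `s` meets all the orbits on which `F` does not vanish. -/
def Cov (N : ℕ) (F : ℂ → V) (s : Finset ℂ) : Prop :=
  ∀ z : ℂ, 0 < z.im → F z ≠ 0 → ∃ y ∈ s, Ev N z y

theorem exists_sep (s : Finset ℂ) (h : ∀ z ∈ s, 0 < z.im) :
    ∃ s' ⊆ s, Sep N s' ∧ ∀ z ∈ s, ∃ y ∈ s', Ev N z y := by
  induction s using Finset.induction_on with
  | empty => exact ⟨∅, Subset.rfl, ⟨by simp, by simp⟩, by simp⟩
  | insert x s _ ih =>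
    obtain ⟨s', h0, h1, h2⟩ := ih fun z hz => h z (mem_insert_of_mem hz)
    by_cases c : ∃ y ∈ s', Ev N x y
    · exact ⟨s', h0.trans (subset_insert _ _), h1, forall_mem_insert _ _ _ |>.2 ⟨c, h2⟩⟩
    have hx := h x (mem_insert_self _ _)
    refine ⟨insert x s', insert_subset_insert _ h0,
      ⟨(forall_mem_insert _ _ _).2 ⟨hx, h1.pos⟩, fun z hz y hy e => ?_⟩,
      (forall_mem_insert _ _ _).2 ⟨⟨x, mem_insert_self _ _, .refl x⟩, fun z hz => ?_⟩⟩
    · rcases mem_insert.1 hz with rfl | kz <;> rcases mem_insert.1 hy with rfl | ky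
      · rfl
      · exact absurd ⟨y, ky, e⟩ c
      · exact absurd ⟨z, kz, e.symm hx⟩ c
      · exact h1.uniq z kz y ky e
    · obtain ⟨y, hy, e⟩ := h2 z hz
      exact ⟨y, mem_insert_of_mem hy, e⟩

theorem expand (hs : Sep N s) (hF : Inv0 N F) (h : F z ≠ 0 → ∃ y ∈ s, Ev N z y) :
    F z = ∑ y ∈ s, if Ev N z y then F y else 0 := by
  by_cases c : ∃ y ∈ s, Ev N z y
  · obtain ⟨y, hy, e⟩ := c
    have p := hs.pos y hy
    rw [sum_eq_single_of_mem y hy fun x hx ne => if_neg fun e' =>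
      ne (hs.uniq x hx y hy ((e'.symm (hs.pos x hx)).trans e p)), if_pos e, e.inv hF p]
  · rw [of_not_not (mt h c), sum_eq_zero fun y hy => if_neg fun e => c ⟨y, hy, e⟩]

/-- The sum does not depend on the representatives. -/
theorem sum_indep (hs : Sep N s) (hs' : Sep N s') (hF : Inv0 N F) (h : Cov N F s)
    (h' : Cov N F s') : ∑ z ∈ s, F z = ∑ z ∈ s', F z := by
  rw [sum_congr rfl fun z hz => expand hs' hF (h' z (hs.pos z hz)),
    sum_congr rfl fun z hz => expand hs hF (h z (hs'.pos z hz)), sum_comm]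
  refine sum_congr rfl fun y hy => sum_congr rfl fun z hz => ?_
  by_cases c : Ev N z y
  · rw [if_pos c, if_pos (c.symm (hs'.pos y hy)), c.inv hF (hs'.pos y hy)]
  · rw [if_neg c, if_neg fun e => c (e.symm (hs.pos z hz))]

/-- Points with trivial stabilizer. -/
def Fr (z : ℂ) : Prop := ∀ g : MZ, g.det = 1 → act g z = z → g = 1 ∨ g = -1

/-- Invariant divisors with finitely many orbits, all of them free. -/
def Fi (N : ℕ) (ν : ℂ → ℤ) : Prop := ∃ s, Rp N ν s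

theorem rp_sep (h : Rp N ν s) : Sep N s := ⟨h.pos, fun z hz y hy ⟨g, hg, e⟩ => h.uniq z hz y hy g hg e⟩

theorem rp_of (h : Inv0 N ν) (h1 : ∀ z ∈ s, 0 < z.im ∧ Fr z) (h2 : Cov N ν s) :
    ∃ s' ⊆ s, Rp N ν s' ∧ ∀ z ∈ s, ∃ y ∈ s', Ev N z y := by
  obtain ⟨s', k0, k1, k2⟩ := exists_sep (N := N) s fun z hz => (h1 z hz).1
  refine ⟨s', k0, ⟨h, k1.pos, fun z hz => (h1 z (k0 hz)).2, fun z hz e => ?_,
    fun z hz y hy g hg e => k1.uniq z hz y hy ⟨g, hg, e⟩⟩, k2⟩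
  obtain ⟨y, hy, e1⟩ := h2 z hz e
  obtain ⟨x, hx, e2⟩ := k2 y hy
  exact ⟨x, hx, e1.trans e2 (k1.pos x hx)⟩

theorem common (h : Fi N ν) (h' : Fi N ν') : ∃ t, Rp N ν t ∧ Rp N ν' t := by
  obtain ⟨s, h⟩ := h
  obtain ⟨s', h'⟩ := h'
  obtain ⟨t, -, k1, k2⟩ := rp_of (s := s ∪ s') h.inv (fun z hz => (mem_union.1 hz).elim
    (fun e => ⟨h.pos z e, h.free z e⟩) fun e => ⟨h'.pos z e, h'.free z e⟩) fun z hz e =>
    (h.ex z hz e).imp fun y hy => ⟨mem_union_left _ hy.1, hy.2⟩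
  refine ⟨t, k1, h'.inv, k1.pos, k1.free, fun z hz e => ?_, k1.uniq⟩
  obtain ⟨y, hy, e1⟩ := h'.ex z hz e
  obtain ⟨x, hx, e2⟩ := k2 y (mem_union_right _ hy)
  exact ⟨x, hx, Ev.trans e1 e2 (k1.pos x hx)⟩

theorem rp_add (h : Rp N ν s) (h' : Rp N ν' s) : Rp N (fun z => ν z + ν' z) s :=
  ⟨fun g hg z hz => by simp only [h.inv g hg z hz, h'.inv g hg z hz], h.pos, h.free,
    fun z hz e => by
      by_cases c : ν z = 0
      · exact h'.ex z hz fun e' => e (by rw [c, e', add_zero])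
      · exact h.ex z hz c, h.uniq⟩

theorem rp_neg (h : Rp N ν s) : Rp N (fun z => -1 * ν z) s :=
  ⟨fun g hg z hz => by simp only [h.inv g hg z hz], h.pos, h.free,
    fun z hz e => h.ex z hz fun e' => e (by rw [e', mul_zero]), h.uniq⟩

theorem Fi.add (h : Fi N ν) (h' : Fi N ν') : Fi N fun z => ν z + ν' z :=
  (common h h').imp fun _ k => rp_add k.1 k.2

theorem Fi.neg (h : Fi N ν) : Fi N fun z => -1 * ν z := h.imp fun _ => rp_neg

/-- The chosen representatives. -/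
noncomputable def rs (N : ℕ) (ν : ℂ → ℤ) : Finset ℂ := if h : Fi N ν then h.choose else ∅

theorem Fi.rp (h : Fi N ν) : Rp N ν (rs N ν) := by
  rw [rs, dif_pos h]
  exact h.choose_spec

/-- The sum of `S` over the divisor. -/
noncomputable def sm (N : ℕ) (ν : ℂ → ℤ) (S : ℂ → V) : V := ∑ z ∈ rs N ν, ν z • S z

theorem sm_eq' (h : Fi N ν) (hS : Inv0 N S) (h1 : Sep N s) (h2 : Cov N ν s) :
    sm N ν S = ∑ z ∈ s, ν z • S z :=
  sum_indep (rp_sep h.rp) h1 (fun g hg z hz => by simp only [h.rp.inv g hg z hz, hS g hg z hz])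
    (fun z hz e => h.rp.ex z hz fun e' => e (by simp only [e', zero_smul]))
    fun z hz e => h2 z hz fun e' => e (by simp only [e', zero_smul])

theorem sm_eq (h : Rp N ν s) (hS : Inv0 N S) : sm N ν S = ∑ z ∈ s, ν z • S z :=
  sm_eq' ⟨s, h⟩ hS (rp_sep h) h.ex

theorem sm_add (h : Fi N ν) (h' : Fi N ν') (hS : Inv0 N S) :
    sm N (fun z => ν z + ν' z) S = sm N ν S + sm N ν' S := by
  obtain ⟨t, k, k'⟩ := common h h'
  rw [sm_eq (rp_add k k') hS, sm_eq k hS, sm_eq k' hS, ← sum_add_distrib]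
  exact sum_congr rfl fun z _ => add_smul _ _ _

theorem sm_neg (h : Fi N ν) (hS : Inv0 N S) : sm N (fun z => -1 * ν z) S = -sm N ν S := by
  rw [sm_eq (rp_neg h.rp) hS, sm, ← sum_neg_distrib]
  exact sum_congr rfl fun z _ => by rw [neg_one_mul, neg_smul]

theorem sm_congr (h : Fi N ν) (e : ∀ z : ℂ, 0 < z.im → ν z ≠ 0 → S z = S' z) :
    sm N ν S = sm N ν S' := sum_congr rfl fun z hz => by
  by_cases c : ν z = 0
  · rw [c, zero_smul, zero_smul]
  · rw [e z (h.rp.pos z hz) c]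

theorem sm_aff (ν : ℂ → ℤ) (S : ℂ → V) (e : ℤ) (v : V) :
    sm N ν (fun z => e • S z + v) = e • sm N ν S + sm N ν (fun _ => (1 : ℤ)) • v := by
  simp only [sm, smul_add, sum_add_distrib, smul_sum, sum_smul, smul_eq_mul, mul_one,
    smul_comm e]

theorem sm_const (ν : ℂ → ℤ) (v : V) : sm N ν (fun _ => v) = sm N ν (fun _ => (1 : ℤ)) • v := by
  simpa using sm_aff (N := N) ν (fun _ => v) 0 v

/-- Zeros and poles of a function with nonzero limits at the cusps form finitely many orbits. -/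
theorem fi_of_dv (hN : N ≠ 0) (h : Dv W ν) (hc : Cn W) (hi : Inv0 N ν)
    (hf : ∀ z : ℂ, 0 < z.im → ν z ≠ 0 → Fr z) : Fi N ν := by
  have : NeZero N := ⟨hN⟩
  have k1 : ∀ r : MZ, r.det = 1 →
      {τ : ℂ | |τ.re| ≤ 1 / 2 ∧ 1 / 2 ≤ τ.im ∧ ν (act r τ) ≠ 0}.Finite := by
    intro r hr
    obtain ⟨c, c0, hc⟩ := hc r hr
    obtain ⟨T, hT⟩ : ∃ T : ℝ, ∀ τ : ℂ, T ≤ τ.im → W (act r τ) ≠ 0 := by
      obtain ⟨T, hT⟩ := eventually_atTop.1 (eventually_comap.1 (hc.eventually_ne c0))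
      exact ⟨T, fun τ e => hT _ e τ rfl⟩
    have hK : IsCompact (Set.Icc (-(1 / 2) : ℝ) (1 / 2) ×ℂ Set.Icc (1 / 2 : ℝ) T) :=
      isCompact_Icc.reProdIm isCompact_Icc
    have hd := h.act (pos_of_det hr)
    obtain ⟨t, -, ht⟩ := hK.elim_nhds_subcover (fun τ => {u | u ≠ τ → ν (act r u) = 0})
      fun τ hτ => by
        have := eventually_nhdsWithin_iff.1 (hd.ev (lt_of_lt_of_le (by norm_num) hτ.2.1))
        exact this.mono fun u hu e => (hu e).2
    refine t.finite_toSet.subset fun τ hτ => ?_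
    have p : 0 < τ.im := lt_of_lt_of_le (by norm_num) hτ.2.1
    have q : τ.im ≤ T := le_of_not_ge fun e => hτ.2.2 ((hd.ne_iff p).1 (hT τ e))
    obtain ⟨u, hu, e⟩ := Set.mem_iUnion₂.1 (ht ⟨abs_le.1 hτ.1, hτ.2.1, q⟩)
    rwa [of_not_not fun e' => hτ.2.2 (e e')]
  have k2 : ∀ a : ZMod N × ZMod N, ∃ r : MZ, r.det = 1 ∧ ∀ g : MZ, g.det = 1 →
      ((g 1 0 : ZMod N), (g 1 1 : ZMod N)) = a → G0 N (g * r.adjugate) := by
    intro a
    by_cases c : ∃ r : MZ, r.det = 1 ∧ ((r 1 0 : ZMod N), (r 1 1 : ZMod N)) = a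
    · obtain ⟨r, h1, h2⟩ := c
      refine ⟨r, h1, fun g hg e => ⟨by rw [Matrix.det_mul, det_adjugate_two, hg, h1, mul_one], ?_⟩⟩
      obtain ⟨e1, e2⟩ := Prod.mk.inj (e.trans h2.symm)
      rw [← ZMod.intCast_zmod_eq_zero_iff_dvd]
      simp [Matrix.mul_apply, Matrix.adjugate_fin_two, e1, e2, mul_comm]
    · exact ⟨1, Matrix.det_one, fun g hg e => absurd ⟨g, hg, e⟩ c⟩
  choose r hr k2 using k2
  have k3 := Set.finite_iUnion fun a => (k1 (r a) (hr a)).image (act (r a))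
  obtain ⟨t, -, ht, -⟩ := rp_of (s := k3.toFinset) hi (fun z hz => by
    obtain ⟨a, τ, hτ, rfl⟩ := Set.mem_iUnion.1 (k3.mem_toFinset.1 hz)
    have p := act_pos (pos_of_det (hr a)) (lt_of_lt_of_le (by norm_num) hτ.2.1)
    exact ⟨p, hf _ p hτ.2.2⟩) fun z hz e => by
      obtain ⟨γ, hγ⟩ := ModularGroup.exists_smul_mem_fd ⟨z, hz⟩
      have e1 : z = act (γ⁻¹).1 ((γ • (⟨z, hz⟩ : ℍ) : ℍ) : ℂ) := by
        rw [← coe_act, inv_smul_smul]
      have h3 := ModularGroup.three_le_four_mul_im_sq_of_mem_fd hγ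
      have h4 : |((γ • (⟨z, hz⟩ : ℍ) : ℍ) : ℂ).re| ≤ 1 / 2 := hγ.2
      have h5 : 0 < ((γ • (⟨z, hz⟩ : ℍ) : ℍ) : ℂ).im := (γ • (⟨z, hz⟩ : ℍ)).im_pos
      change 3 ≤ 4 * ((γ • (⟨z, hz⟩ : ℍ) : ℍ) : ℂ).im ^ 2 at h3
      generalize ((γ • (⟨z, hz⟩ : ℍ) : ℍ) : ℂ) = τ at e1 h3 h4 h5
      have h6 := k2 _ (γ⁻¹).1 (γ⁻¹).2 rfl
      generalize (((γ⁻¹).1 1 0 : ZMod N), ((γ⁻¹).1 1 1 : ZMod N)) = a at h6
      have e2 : Ev N z (act (r a) τ) := ⟨_, h6, by
        rw [act_mul _ (by rw [det_adjugate_two, hr a]; exact one_ne_zero)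
          (act_pos (pos_of_det (hr a)) h5), act_adjugate (pos_of_det (hr a)).ne' h5, e1]⟩
      refine ⟨_, k3.mem_toFinset.2 (Set.mem_iUnion.2 ⟨a, τ, ⟨h4, by nlinarith, ?_⟩, rfl⟩), e2⟩
      rwa [← e2.inv hi (act_pos (pos_of_det (hr a)) h5)]
  exact ⟨t, ht⟩

theorem countable_not_fr : {z : ℂ | 0 < z.im ∧ ¬ Fr z}.Countable := by
  refine (Algebraic.countable ℤ ℂ).mono fun z hz => ?_
  obtain ⟨hz, h⟩ := hz
  simp only [Fr, not_forall] at h
  obtain ⟨g, hg, e, h⟩ := h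
  have h7 := den_ne' (M := g) (by omega) hz
  simp only [act, mob, den] at e h7
  rw [div_eq_iff h7] at e
  refine ⟨Polynomial.C (g 1 0) * Polynomial.X ^ 2 + Polynomial.C (g 1 1 - g 0 0) * Polynomial.X +
    Polynomial.C (-g 0 1), fun e' => h ?_, ?_⟩
  · have e0 := congrArg (Polynomial.coeff · 0) e'
    have e1 := congrArg (Polynomial.coeff · 1) e'
    have e2 := congrArg (Polynomial.coeff · 2) e'
    simp only [Polynomial.coeff_add, Polynomial.coeff_C_mul, Polynomial.coeff_X_pow,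
      Polynomial.coeff_X, Polynomial.coeff_C, Polynomial.coeff_zero] at e0 e1 e2
    norm_num at e0 e1 e2
    rw [Matrix.det_fin_two, e2, mul_zero, sub_zero] at hg
    rcases Int.eq_one_or_neg_one_of_mul_eq_one' hg with c | c
    · left
      ext i j
      fin_cases i <;> fin_cases j <;> simp [c.1, c.2, e0, e2]
    · right
      ext i j
      fin_cases i <;> fin_cases j <;> simp [c.1, c.2, e0, e2]
  · simp only [map_add, map_mul, map_pow, Polynomial.aeval_C, Polynomial.aeval_X]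
    simp only [eq_intCast]
    push_cast
    linear_combination -e

theorem alm_pos (hw : ALm N p w) (hp : p ≠ 0) : 0 < w.det := by
  rw [hw.det]
  exact_mod_cast Nat.pos_of_ne_zero hp

theorem alm_adj (hw : ALm N p w) : ALm N p w.adjugate :=
  ⟨by rw [det_adjugate_two, hw.det], by simpa [Matrix.adjugate_fin_two] using hw.d,
    by simpa [Matrix.adjugate_fin_two] using hw.c, by simpa [Matrix.adjugate_fin_two] using hw.a⟩

theorem alm_ev (hw : ALm N p w) (hp : p ≠ 0) (hd : p ∣ N) (hy : 0 < y.im) (h : Ev N z y) :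
    Ev N (act w z) (act w y) := by
  obtain ⟨g, hg, rfl⟩ := h
  obtain ⟨M, rfl⟩ := hd
  obtain ⟨a, ha⟩ := hw.a
  obtain ⟨c, hc⟩ := hw.c
  obtain ⟨d, hd⟩ := hw.d
  obtain ⟨γ, hγ⟩ := hg.2
  have h1 := hw.det
  have h2 := hg.1
  have p0 : (p : ℤ) ≠ 0 := by exact_mod_cast hp
  rw [Matrix.det_fin_two] at h1 h2
  rw [ha, hc, hd] at h1
  push_cast at h1 hc hγ
  have h3 : p * a * d - w 0 1 * (M * c) = 1 := mul_left_cancel₀ p0 (by linear_combination h1)
  have key : ∃ k : MZ, (((p * M : ℕ) : ℤ) ∣ k 1 0) ∧ w * g * w.adjugate = (p : ℤ) • k := by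
    refine ⟨!![d * (p * a * g 0 0 + w 0 1 * (p * M * γ)) - M * c * (p * a * g 0 1 + w 0 1 * g 1 1),
      -(w 0 1 * (a * g 0 0 + w 0 1 * (M * γ))) + a * (p * a * g 0 1 + w 0 1 * g 1 1);
      p * M * (d * c * g 0 0 + p * d * d * γ - M * c * c * g 0 1 - c * d * g 1 1),
      -(w 0 1 * (M * c * g 0 0 + d * (p * M * γ))) + a * (p * M * c * g 0 1 + p * d * g 1 1)],
      by simp, ?_⟩
    ext i j
    fin_cases i <;> fin_cases j <;>
      simp [Matrix.mul_apply, Matrix.adjugate_fin_two, Fin.sum_univ_two, ha, hc, hd, hγ] <;> ring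
  obtain ⟨k, k1, k2⟩ := key
  have k3 : k.det = 1 := by
    have := congrArg Matrix.det k2
    rw [Matrix.det_mul, Matrix.det_mul, det_adjugate_two, hw.det, hg.1, Matrix.det_smul,
      Fintype.card_fin] at this
    exact mul_left_cancel₀ (pow_ne_zero 2 p0) (by linear_combination -this)
  have wp := alm_pos hw hp
  refine ⟨k, ⟨k3, k1⟩, ?_⟩
  rw [← act_smul p0 k, ← k2, act_mul _ (by rw [det_adjugate_two]; exact wp.ne') (act_pos wp hy),
    act_adjugate wp.ne' hy, act_mul _ (hg.1 ▸ one_ne_zero) hy]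

/-- Transport of a divisor through the involution. -/
theorem sm_al (hw : ALm N p w) (hp : p ≠ 0) (hd : p ∣ N) (h : Fi N ν) (h' : Fi N ν')
    (e : ∀ z : ℂ, 0 < z.im → ν (act w z) = ν' z) (hS : Inv0 N S) :
    sm N ν S = sm N ν' fun z => S (act w z) := by
  have wp := alm_pos hw hp
  have k := h'.rp
  have back : ∀ z ∈ rs N ν', ∀ y ∈ rs N ν', Ev N (act w z) (act w y) → z = y := fun z hz y hy e1 => by
    have := alm_ev (alm_adj hw) hp hd (act_pos wp (k.pos y hy)) e1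
    rw [act_adjugate wp.ne' (k.pos z hz), act_adjugate wp.ne' (k.pos y hy)] at this
    exact (rp_sep k).uniq z hz y hy this
  rw [sm_eq' (s := (rs N ν').image (act w)) h hS ⟨forall_mem_image.2 fun z hz =>
    act_pos wp (k.pos z hz), forall_mem_image.2 fun z hz => forall_mem_image.2 fun y hy e1 =>
    by rw [back z hz y hy e1]⟩ fun z hz e1 => ?_,
    sum_image fun z hz y hy e1 => back z hz y hy (by rw [e1]; exact .refl _), sm]
  · exact sum_congr rfl fun z hz => by rw [e z (k.pos z hz)]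
  · have p1 := act_pos (alm_pos (alm_adj hw) hp) hz
    obtain ⟨y, hy, e2⟩ := k.ex _ p1 (by rwa [← e _ p1, act_adj' wp hz])
    refine ⟨_, mem_image_of_mem _ hy, ?_⟩
    simpa only [act_adj' wp hz] using alm_ev hw hp hd (k.pos y hy) e2

/-- There is a function with divisor `ν` and multiplier `c`. -/
def Ex (N : ℕ) (ν : ℂ → ℤ) (c : MZ → ℂ) : Prop := Fi N ν ∧ ∃ W, Dv W ν ∧ Cn W ∧
  ∀ g, G0 N g → c g ≠ 0 ∧ ∀ z : ℂ, 0 < z.im → W (act g z) = c g * W z

theorem ex_of_mul (hf : Fi N ν) (hf' : Fi N ν') (h : Dv W ν) (h' : Dv W' ν') (k : Cn W)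
    (k' : Cn W') (hc : ∀ g, G0 N g → c g ≠ 0 ∧ ∀ z : ℂ, 0 < z.im →
      W (act g z) * W' (act g z) = c g * (W z * W' z)) : Ex N (fun z => ν z + ν' z) c := by
  obtain ⟨U, h1, h2, h3⟩ := exists_prod (univ : Finset Bool) (W := fun b => bif b then W else W')
    (ν := fun b => bif b then ν else ν') (fun b _ => by cases b <;> assumption)
    fun b _ => by cases b <;> assumption
  simp only [Fintype.univ_bool, mem_singleton, Bool.true_eq_false, not_false_eq_true, sum_insert,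
    prod_insert, sum_singleton, prod_singleton, cond_true, cond_false] at h1 h3
  refine ⟨hf.add hf', U, h1, h2, fun g hg => ⟨(hc g hg).1, fun z hz => ?_⟩⟩
  exact h1.mult_of (fun z hz => (h3 z hz).1) (pos_of_det hg.1) (hc g hg).1 hz
    (((ev_im hz).filter_mono nhdsWithin_le_nhds).mono (hc g hg).2)

theorem Ex.add (h : Ex N ν c) (h' : Ex N ν' c') :
    Ex N (fun z => ν z + ν' z) fun g => c g * c' g := by
  obtain ⟨f, W, h1, h2, h3⟩ := h
  obtain ⟨f', W', h1', h2', h3'⟩ := h'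
  exact ex_of_mul f f' h1 h1' h2 h2' fun g hg => ⟨mul_ne_zero (h3 g hg).1 (h3' g hg).1,
    fun z hz => by rw [(h3 g hg).2 z hz, (h3' g hg).2 z hz]; ring⟩

/-- Functions whose sum vanishes on principal divisors. -/
def Kill (N : ℕ) (S : ℂ → V) : Prop :=
  Inv0 N S ∧ ∀ ν c, Ex N ν c → (∀ g, G0 N g → c g = 1) → sm N ν S = 0

theorem lim (hN : N ≠ 0) (h : Ci N G) (hg : g.det = 1) :
    ∃ c, Tendsto (fun z => G (act g z)) atI (𝓝 c) := by
  obtain ⟨A, hA⟩ := h.cusp g hg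
  have n0 : (0 : ℝ) < N := by positivity
  refine ⟨_, (hA.tendsto.comp (tendsto_affine (inv_pos.2 n0) 0)).congr fun z => ?_⟩
  have : (N : ℂ) ≠ 0 := by exact_mod_cast hN
  simp [mul_inv_cancel_left₀ this]

end Pool.Agent.G5.AB
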