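import Pool.Agent.Lib.MP_696deb_nt.B5.ABa

/-! Generic fibres of the map to the elliptic curve, and the point attached to a multiplier. -/

set_option autoImplicit false

open Finset Filter Topology Complex MeasureTheory
open scoped Classical Real

namespace Pool.Agent.G5.AB

open Pool.Agent.Lib.MP_696deb_nt Pool.Agent.B4.GE Pool.Agent.Shared.Weier

variable {V : Type} [AddCommGroup V] {N p : ℕ} {g w : MZ} {z a b x y u c c' : ℂ} {e : ℤ}
  {ν ν' : ℂ → ℤ} {S : ℂ → V} {W W' G G' : ℂ → ℂ} {L : PeriodPair}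

/-- The period attached to a matrix. -/
noncomputable def dl (G : ℂ → ℂ) (g : MZ) : ℂ := G (act g I) - G I

theorem dl_eq (h : Ci N G) (hg : G0 N g) (hz : 0 < z.im) : G (act g z) = G z + dl G g := by
  obtain ⟨c, hc⟩ := h.inv g hg
  rw [dl, hc z hz, hc I (by simp), add_sub_cancel_left]

theorem dl_mem (h : PerL N L G) (hg : G0 N g) : dl G g ∈ L.lattice := h g hg I (by simp)

/-- Nonconstant maps to the elliptic curve. -/
structure Pm (N : ℕ) (L : PeriodPair) (G : ℂ → ℂ) : Prop where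
  n0 : N ≠ 0
  ci : Ci N G
  per : PerL N L G
  nc : ∃ z z' : ℂ, 0 < z.im ∧ 0 < z'.im ∧ G z ≠ G z'

theorem Pm.unc (h : Pm N L G) {B : Set ℂ} (hB : B.Countable) : ∃ z : ℂ, 0 < z.im ∧ G z ∉ B := by
  by_contra! k
  obtain ⟨z, z', hz, hz', e⟩ := h.nc
  exact e (hB.isTotallyDisconnected (G '' {z | 0 < z.im}) (Set.image_subset_iff.2 k)
    ((convex_halfSpace_im_gt 0).isPreconnected.image _ fun z hz =>
      (h.ci.hol z hz).continuousAt.continuousWithinAt) ⟨z, hz, rfl⟩ ⟨z', hz', rfl⟩)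

/-- The fibre over `a` as a divisor. -/
noncomputable def mu (L : PeriodPair) (G : ℂ → ℂ) (a z : ℂ) : ℤ :=
  analyticOrderNatAt (fun u => sig L (G u - a)) z

theorem hol_sig (h : Hol G) (a : ℂ) : Hol fun z => sig L (G z - a) := fun z hz =>
  (differentiable_sig L _).comp z ((h z hz).sub_const a)

theorem Pm.dv (h : Pm N L G) (a : ℂ) : Dv (fun z => sig L (G z - a)) (mu L G a) := fun z hz => by
  have k := hol_sig (L := L) h.ci.hol a
  obtain ⟨f, h1, h2, h3⟩ := ((hol_an k hz).analyticOrderNatAt_eq_iff (n := _) fun e => by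
    obtain ⟨y, hy, e'⟩ := h.unc (((countable_lattice (L := L)).image (· + a)))
    exact e' ⟨_, sig_eq_zero_iff.1 (AnalyticOnNhd.eqOn_zero_of_preconnected_of_eventuallyEq_zero
      (fun y hy => hol_an k hy) (convex_halfSpace_im_gt 0).isPreconnected hz
      (analyticOrderAt_eq_top.1 e) hy), sub_add_cancel _ _⟩).1 rfl
  exact ⟨f, h1, h2, h3.mono fun u hu => by rw [mu, zpow_natCast]; exact hu⟩

theorem Pm.mu_ne (h : Pm N L G) (hz : 0 < z.im) : mu L G a z ≠ 0 ↔ G z - a ∈ L.lattice := by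
  rw [Ne, ← (h.dv a).ne_iff hz, not_not, sig_eq_zero_iff]

theorem dv_unique (h : Dv W ν) (h' : Dv W' ν') (e : ∀ z : ℂ, 0 < z.im → W z = W' z)
    (hz : 0 < z.im) : ν z = ν' z := by
  have := meromorphicOrderAt_congr (((ev_im hz).filter_mono nhdsWithin_le_nhds).mono e :
    W =ᶠ[𝓝[≠] z] W')
  rw [(h.mo z hz).2, (h'.mo z hz).2] at this
  exact_mod_cast this

theorem Pm.mu_inv (h : Pm N L G) (a : ℂ) : Inv0 N (mu L G a) := fun g hg z hz => by
  obtain ⟨e, he, -, k⟩ := sig_add (dl_mem h.per hg)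
  refine dv_unique ((h.dv a).act (pos_of_det hg.1)) ((h.dv a).mul_hol
    (V := fun z => e * cexp (eta L (dl G g) * (G z - a + dl G g / 2))) (fun z hz => ?_)
    fun z _ => mul_ne_zero (by rcases he with rfl | rfl <;> simp) (exp_ne_zero _))
    (fun z hz => ?_) hz
  · have := h.ci.hol z hz
    fun_prop
  · rw [dl_eq h.ci hg hz, ← sub_add_eq_add_sub, k, mul_comm]

theorem Pm.mu_al (h : Pm N L G) (he : e = 1 ∨ e = -1) (hw : 0 < w.det)
    (hG : ∀ z : ℂ, 0 < z.im → G (act w z) = e * G z + c) (hz : 0 < z.im) :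
    mu L G (e * y + c) (act w z) = mu L G y z := by
  refine dv_unique ((h.dv _).act hw) ((h.dv y).mul_hol (V := fun _ => e)
    (fun z _ => differentiableAt_const _) fun z _ => by rcases he with rfl | rfl <;> simp)
    (fun z hz => ?_) hz
  rw [hG z hz, add_sub_add_right_eq_sub, ← mul_sub]
  rcases he with rfl | rfl <;> simp [← sig_neg]

/-- Generic points. -/
def Gn (L : PeriodPair) (G : ℂ → ℂ) (a : ℂ) : Prop :=
  (∀ z : ℂ, 0 < z.im → G z - a ∈ L.lattice → Fr z) ∧ ∀ (g : MZ) (c : ℂ), g.det = 1 →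
    Tendsto (fun z => G (act g z)) atI (𝓝 c) → c - a ∉ L.lattice

theorem countable_not_gn (L : PeriodPair) (G : ℂ → ℂ) : {a | ¬ Gn L G a}.Countable := by
  have : Countable MZ := inferInstanceAs (Countable (Fin 2 → Fin 2 → ℤ))
  have h1 : (G '' {z : ℂ | 0 < z.im ∧ ¬ Fr z} ∪
      ⋃ g : MZ, {c | Tendsto (fun z => G (act g z)) atI (𝓝 c)}).Countable :=
    (countable_not_fr.image G).union (Set.countable_iUnion fun g =>
      Set.Subsingleton.countable fun c hc c' hc' => tendsto_nhds_unique hc hc')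
  refine (h1.image2 (countable_lattice (L := L)) (· - ·)).mono fun a ha => ?_
  by_contra k
  refine ha ⟨fun z hz e => ?_, fun g c _ hc e => ?_⟩
  · by_contra f
    exact k ⟨_, Or.inl ⟨z, ⟨hz, f⟩, rfl⟩, _, e, sub_sub_cancel _ _⟩
  · exact k ⟨_, Or.inr (Set.mem_iUnion.2 ⟨g, hc⟩), _, e, sub_sub_cancel _ _⟩

theorem ae_gn (L : PeriodPair) (G : ℂ → ℂ) (ha : a ≠ 0) (b : ℂ) :
    ∀ᵐ y : ℂ, Gn L G (a * y + b) :=
  (((countable_not_gn L G).preimage (f := fun y => a * y + b) fun _ _ e =>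
    mul_left_cancel₀ ha (add_right_cancel e)).ae_notMem volume).mono fun _ => of_not_not

theorem ae_gn' (L : PeriodPair) (G : ℂ → ℂ) (b : ℂ) : ∀ᵐ y : ℂ, Gn L G (y + b) := by
  simpa using ae_gn L G one_ne_zero b

theorem exists_gn (L : PeriodPair) (G : ℂ → ℂ) (u : ℂ) : ∃ y, Gn L G y ∧ Gn L G (y + u) := by
  simpa using ((ae_gn' L G 0).and (ae_gn' L G u)).exists

theorem Pm.cn (h : Pm N L G) (ha : Gn L G a) : Cn fun z => sig L (G z - a) := fun g hg => by
  obtain ⟨c, hc⟩ := lim h.n0 h.ci hg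
  exact ⟨_, sig_ne (ha.2 g c hg hc),
    ((differentiable_sig L).continuous.tendsto _).comp (hc.sub_const a)⟩

theorem Pm.fi (h : Pm N L G) (ha : Gn L G a) : Fi N (mu L G a) :=
  fi_of_dv h.n0 (h.dv a) (h.cn ha) (h.mu_inv a) fun z hz e => ha.1 z hz ((h.mu_ne hz).1 e)

theorem Pm.ex (h : Pm N L G) (ha : Gn L G a) (hb : Gn L G b) :
    Ex N (fun z => mu L G a z + -1 * mu L G b z) fun g => cexp (eta L (dl G g) * (b - a)) := by
  refine ex_of_mul (h.fi ha) (h.fi hb).neg (h.dv a) ((h.dv b).zpow (-1)) (h.cn ha)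
    ((h.cn hb).zpow (-1)) fun g hg => ⟨exp_ne_zero _, fun z hz => ?_⟩
  obtain ⟨e, he, -, k⟩ := sig_add (dl_mem h.per hg)
  have e0 : e ≠ 0 := by rcases he with rfl | rfl <;> simp
  have e1 : cexp (eta L (dl G g) * (G z - a + dl G g / 2)) = cexp (eta L (dl G g) * (b - a)) *
      cexp (eta L (dl G g) * (G z - b + dl G g / 2)) := by
    rw [← exp_add]
    congr 1
    ring
  have e2 := exp_ne_zero (eta L (dl G g) * (G z - b + dl G g / 2))
  rw [dl_eq h.ci hg hz, ← sub_add_eq_add_sub, ← sub_add_eq_add_sub, k, k, e1, zpow_neg_one,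
    zpow_neg_one, mul_inv, mul_inv]
  field_simp

theorem Pm.sm_sub (h : Pm N L G) (ha : Gn L G a) (hb : Gn L G b) (hS : Inv0 N S) :
    sm N (fun z => mu L G a z + -1 * mu L G b z) S = sm N (mu L G a) S - sm N (mu L G b) S := by
  rw [sm_add (h.fi ha) (h.fi hb).neg hS, sm_neg (h.fi hb) hS, sub_eq_add_neg]

theorem Pm.indep (h : Pm N L G) (hS : Kill N S) (h1 : Gn L G x) (h2 : Gn L G (x + u))
    (h3 : Gn L G y) (h4 : Gn L G (y + u)) : sm N (mu L G (x + u)) S - sm N (mu L G x) S =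
      sm N (mu L G (y + u)) S - sm N (mu L G y) S := by
  have := hS.2 _ _ ((h.ex h1 h2).add (h.ex h4 h3)) fun g _ => by
    rw [← exp_add, ← mul_add, show x + u - x + (y - (y + u)) = 0 by ring, mul_zero, exp_zero]
  rw [sm_add (h.ex h1 h2).1 (h.ex h4 h3).1 hS.1, h.sm_sub h1 h2 hS.1, h.sm_sub h4 h3 hS.1] at this
  rw [← sub_eq_zero, ← neg_eq_zero, ← this]
  abel

/-- The degree of the fibre. -/
noncomputable def dg (N : ℕ) (L : PeriodPair) (G : ℂ → ℂ) (a : ℂ) : ℤ :=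
  sm N (mu L G a) fun _ => (1 : ℤ)

theorem mu_nonneg (z : ℂ) : 0 ≤ mu L G a z • (1 : ℤ) := by simp [mu]

theorem dg_nonneg : 0 ≤ dg N L G a := sum_nonneg fun z _ => mu_nonneg z

theorem Pm.dg_le (h : Pm N L G) (hS : Kill N fun _ => (1 : ℤ)) (h1 : Gn L G x)
    (h2 : Gn L G (x + u)) : dg N L G x ≤ dg N L G (x + u) := by
  by_contra! k
  obtain ⟨y, hy⟩ := (ae_all_iff.2 fun n : ℕ => ae_gn' L G (n * u)).exists
  have key : ∀ n : ℕ, dg N L G (y + n * u) + n ≤ dg N L G (y + (0 : ℕ) * u) := by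
    intro n
    induction n with
    | zero => simp
    | succ n ih =>
      have e : y + ((n + 1 : ℕ) : ℂ) * u = y + n * u + u := by
        push_cast
        ring
      have := h.indep hS h1 h2 (hy n) (e ▸ hy (n + 1))
      rw [e]
      simp only [dg] at k ih ⊢
      omega
  have k1 := key ((dg N L G (y + (0 : ℕ) * u)).toNat + 1)
  have k2 := dg_nonneg (N := N) (L := L) (G := G)
    (a := y + (((dg N L G (y + (0 : ℕ) * u)).toNat + 1 : ℕ) : ℂ) * u)
  omega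

theorem Pm.dg_eq (h : Pm N L G) (hS : Kill N fun _ => (1 : ℤ)) (h1 : Gn L G x) (h2 : Gn L G y) :
    dg N L G x = dg N L G y := by
  have k1 := h.dg_le (u := y - x) hS h1 (by rwa [add_sub_cancel])
  have k2 := h.dg_le (u := x - y) hS h2 (by rwa [add_sub_cancel])
  rw [add_sub_cancel] at k1 k2
  exact le_antisymm k1 k2

theorem Pm.dg_pos (h : Pm N L G) (hS : Kill N fun _ => (1 : ℤ)) (h1 : Gn L G x) :
    0 < dg N L G x := by
  obtain ⟨z, hz, e⟩ := h.unc (countable_not_gn L G)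
  have k : Gn L G (G z) := of_not_not e
  have k1 : mu L G (G z) z ≠ 0 := (h.mu_ne hz).2 (by simp)
  obtain ⟨y, hy, e1⟩ := (h.fi k).rp.ex z hz k1
  rw [h.dg_eq hS h1 k]
  refine sum_pos' (fun z _ => mu_nonneg z) ⟨y, hy, (mu_nonneg y).lt_of_ne' ?_⟩
  rwa [smul_eq_mul, mul_one, ← Ev.inv e1 (h.mu_inv _) ((h.fi k).rp.pos y hy)]

/-- The quotient map. -/
noncomputable def pq (L : PeriodPair) : ℂ →+ ℂ ⧸ L.lattice.toAddSubgroup := QuotientAddGroup.mk' _

theorem pq_zero : pq L x = 0 ↔ x ∈ L.lattice := QuotientAddGroup.eq_zero_iff x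

theorem pq_eq : pq L x = pq L y ↔ x - y ∈ L.lattice := by rw [← pq_zero, map_sub, sub_eq_zero]

theorem inv_pq (h : PerL N L G) : Inv0 N fun z => pq L (G z) := fun g hg z hz =>
  pq_eq.2 (h g hg z hz)

theorem pq_sum (s : Finset ℂ) : pq L (∑ z ∈ s, ν z * G z) = ∑ z ∈ s, ν z • pq L (G z) := by
  simp only [map_sum, ← zsmul_eq_mul, map_zsmul]

theorem kill (a0 : A0Stmt) (hN : N ≠ 0) (h : Ci N G) (h' : PerL N L G) :
    (Kill N fun _ => (1 : ℤ)) ∧ Kill N fun z => pq L (G z) := by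
  have k : ∀ ν c, Ex N ν c → (∀ g, G0 N g → c g = 1) → ∑ z ∈ rs N ν, ν z = 0 ∧
      ∑ z ∈ rs N ν, ν z * G z ∈ L.lattice := fun ν c ⟨f, W, h1, h2, h3⟩ e =>
    a0 N L W G ν _ hN h1 (fun g hg z hz => by rw [(h3 g hg).2 z hz, e g hg, one_mul]) h2 f.rp h h'
  exact ⟨⟨fun _ _ _ _ => rfl, fun ν c h1 h2 => by simpa [sm] using (k ν c h1 h2).1⟩, inv_pq h',
    fun ν c h1 h2 => by rw [sm, ← pq_sum, pq_zero]; exact (k ν c h1 h2).2⟩

theorem Pm.sm_self (h : Pm N L G) (ha : Gn L G a) :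
    sm N (mu L G a) (fun z => pq L (G z)) = dg N L G a • pq L a := by
  rw [dg, ← sm_const]
  exact sm_congr (h.fi ha) fun z hz e => pq_eq.2 ((h.mu_ne hz).1 e)

/-- The cross term is killed by two. -/
theorem Pm.cross (h : Pm N L G') (h0 : Kill N fun _ => (1 : ℤ)) (hS : Kill N fun z => pq L (G z))
    (hw : ALm N p w) (hp : p ≠ 0) (hd : p ∣ N) (he : e = 1 ∨ e = -1)
    (hG : ∀ z : ℂ, 0 < z.im → G (act w z) = -e * G z + c ∧ G' (act w z) = e * G' z + c')
    (h1 : Gn L G' x) (h2 : Gn L G' (x + u)) :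
    2 • (sm N (mu L G' (x + u)) (fun z => pq L (G z)) - sm N (mu L G' x) fun z => pq L (G z)) =
      0 := by
  have e0 : (e : ℂ) ≠ 0 := by rcases he with rfl | rfl <;> simp
  have e1 : (e : ℂ) * e = 1 := by rcases he with rfl | rfl <;> simp
  have key : ∀ y, Gn L G' y → Gn L G' (e * y + c') →
      sm N (mu L G' (e * y + c')) (fun z => pq L (G z)) =
        -e • sm N (mu L G' y) (fun z => pq L (G z)) + dg N L G' x • pq L c := fun y k1 k2 => by
    rw [sm_al hw hp hd (h.fi k2) (h.fi k1)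
      (fun z hz => h.mu_al he (alm_pos hw hp) (fun z hz => (hG z hz).2) hz) hS.1,
      h.dg_eq h0 h1 k1, dg, ← sm_aff]
    exact sm_congr (h.fi k1) fun z hz _ => by
      rw [(hG z hz).1, map_add, ← map_zsmul, zsmul_eq_mul, Int.cast_neg]
  obtain ⟨y, ⟨k1, k2⟩, k3, k4⟩ := (((ae_gn' L G' 0).and (ae_gn' L G' (e * u))).and
    ((ae_gn L G' e0 c').and (ae_gn L G' e0 (c' + u)))).exists
  rw [add_zero] at k1
  rw [← add_assoc] at k4
  have e2 : e * (y + e * u) + c' = e * y + c' + u := by linear_combination u * e1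
  have k5 := key _ k2 (e2 ▸ k4)
  rw [e2] at k5
  rw [two_smul]
  nth_rw 1 [h.indep hS h1 h2 k3 k4, k5, key _ k1 k3]
  rcases he with rfl | rfl
  · simp only [Int.cast_one, one_mul] at k2 ⊢
    rw [h.indep hS h1 h2 k1 k2]
    module
  · simp only [Int.cast_neg, Int.cast_one, neg_one_mul] at k2 ⊢
    rw [h.indep hS h1 h2 k2 (by rwa [neg_add_cancel_right]), neg_add_cancel_right]
    module

theorem exp_leg' (ha : a ∈ L.lattice) (hb : b ∈ L.lattice) :
    cexp (eta L a * b - eta L b * a) = 1 := by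
  obtain ⟨m, n, rfl⟩ := PeriodPair.mem_lattice.1 ha
  obtain ⟨m', n', rfl⟩ := PeriodPair.mem_lattice.1 hb
  rw [eta_lattice, eta_lattice, ← one_zpow (m * n' - n * m'), ← exp_leg (L := L), ← exp_int_mul, leg]
  congr 1
  push_cast
  ring

theorem Pm.main (h : Pm N L G) (h0 : Kill N fun _ => (1 : ℤ)) (hS : Kill N fun z => pq L (G z))
    {k : MZ → ℂ} (hν : Ex N ν k) (hk : ∀ g, G0 N g → k g * cexp (eta L (dl G g) * u) = 1)
    (ha : Gn L G a) (hu : Gn L G (a + u)) :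
    sm N ν (fun z => pq L (G z)) = dg N L G a • pq L u := by
  have := hS.2 _ _ (hν.add (h.ex ha hu)) fun g hg => by rw [add_sub_cancel_left, hk g hg]
  rw [sm_add hν.1 (h.ex ha hu).1 hS.1, h.sm_sub ha hu hS.1, h.sm_self ha, h.sm_self hu,
    ← h.dg_eq h0 ha hu, map_add] at this
  rw [← sub_eq_zero, ← this]
  module

theorem Pm.main2 (h : Pm N L G) (h' : Pm N L G') (h0 : Kill N fun _ => (1 : ℤ))
    (hS : Kill N fun z => pq L (G z)) (hw : ALm N p w) (hp : p ≠ 0) (hd : p ∣ N)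
    (he : e = 1 ∨ e = -1)
    (hG : ∀ z : ℂ, 0 < z.im → G (act w z) = -e * G z + c ∧ G' (act w z) = e * G' z + c')
    {k : MZ → ℂ} {u' : ℂ} (hν : Ex N ν k) (hk : ∀ g, G0 N g →
      k g * (cexp (eta L (dl G g) * u) * cexp (eta L (dl G' g) * u')) = 1)
    (ha : Gn L G a) (hu : Gn L G (a + u)) :
    2 • sm N ν (fun z => pq L (G z)) = 2 • dg N L G a • pq L u := by
  obtain ⟨b, hb, hu'⟩ := exists_gn L G' u'
  have k1 := h.main (u := u) h0 hS (hν.add (h'.ex hb hu')) (fun g hg => by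
    rw [add_sub_cancel_left, ← hk g hg]
    ring) ha hu
  have k2 := h'.cross h0 hS hw hp hd he hG hb hu'
  rw [sm_add hν.1 (h'.ex hb hu').1 hS.1, h'.sm_sub hb hu' hS.1] at k1
  rw [← k1, ← sub_eq_zero, ← k2]
  module

end AB

open AB Pool.Agent.Lib.MP_696deb_nt Pool.Agent.B4.GE Pool.Agent.Shared.Weier

theorem ab_stmt (a0 : A0Stmt) : ABStmt := by
  intro N p L F F₂ V u u₂ ν s w e c c₂ hN hd h1 h2 p1 p2 nc hw he hG hs hV ⟨k, k0, hk⟩
  have n0 := hN.ne_zero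
  have hp : p ≠ 0 := ne_zero_of_dvd_ne_zero n0 hd
  have hF : Pm N L F := ⟨n0, h1, p1, nc⟩
  obtain ⟨h0, hS⟩ := kill a0 n0 h1 p1
  have mV : ∀ g, G0 N g → ∀ z : ℂ, 0 < z.im → V (act g z) =
      cexp (-(eta L (dl F g) * u + eta L (dl F₂ g) * u₂)) * V z := fun g hg z hz => by
    rw [hV.inv g hg z hz, mul_comm, U1, U1, U1, U1, dl_eq h1 hg hz, dl_eq h2 hg hz, map_add, map_add]
    congr 2
    ring
  have hE : Ex N ν fun g => cexp (-(eta L (dl F g) * u + eta L (dl F₂ g) * u₂)) :=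
    ⟨⟨s, hs⟩, V, hV.dv, hV.cn, fun g hg => ⟨exp_ne_zero _, mV g hg⟩⟩
  obtain ⟨a, ha, hu⟩ := exists_gn L F u
  obtain ⟨δ, hδ⟩ := Int.eq_ofNat_of_zero_le (dg_nonneg (N := N) (L := L) (G := F) (a := a))
  have δ0 : 0 < δ := by exact_mod_cast hδ ▸ hF.dg_pos h0 ha
  have fin : 2 • sm N ν (fun z => pq L (F z)) = 2 • dg N L F a • pq L u →
      2 * (δ * u - ∑ z ∈ s, ν z * F z) ∈ L.lattice := fun e => by
    rw [hδ, sm_eq hs hS.1, ← pq_sum, ← map_zsmul, ← map_nsmul, ← map_nsmul, eq_comm, pq_eq] at e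
    simpa [mul_sub] using e
  have th : ∀ (n : ℕ) (l : ℂ), (∀ g, G0 N g → cexp (eta L l * dl F₂ g -
      eta L (dl F₂ g) * (n * u₂)) = 1) → Th N ((n : ℤ) • ν) (U1 L F (n * u))
      fun z => V z ^ (n : ℤ) * cexp (eta L l * F₂ z) := fun n l e => by
    refine ⟨(hV.dv.zpow n).mul_hol (fun z hz => ?_) fun _ _ => exp_ne_zero _, fun g hg z hz => ?_,
      (hV.cn.zpow n).mul fun g hg => ?_⟩
    · have := h2.hol z hz
      fun_prop
    · rw [mV g hg z hz, mul_zpow, ← exp_int_mul, U1, U1, dl_eq h1 hg hz, dl_eq h2 hg hz, map_add,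
        mul_comm (cexp _), mul_assoc, mul_assoc, ← exp_add, ← exp_add, ← mul_one (cexp (_ + (_ - _))),
        ← e g hg, ← exp_add]
      congr 2
      push_cast
      ring
    · obtain ⟨c, hc⟩ := lim n0 h2 hg
      exact ⟨_, exp_ne_zero _, (hc.const_mul _).cexp⟩
  by_cases nc2 : ∃ z z' : ℂ, 0 < z.im ∧ 0 < z'.im ∧ F₂ z ≠ F₂ z'
  · have hF2 : Pm N L F₂ := ⟨n0, h2, p2, nc2⟩
    obtain ⟨-, hS2⟩ := kill a0 n0 h2 p2
    obtain ⟨b, hb, hu2⟩ := exists_gn L F₂ u₂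
    obtain ⟨δ₂, hδ₂⟩ := Int.eq_ofNat_of_zero_le (dg_nonneg (N := N) (L := L) (G := F₂) (a := b))
    have δ2 : 0 < δ₂ := by exact_mod_cast hδ₂ ▸ hF2.dg_pos h0 hb
    have k1 := hF2.main2 (u := u₂) (u' := u) hF h0 hS2 hw hp hd he (fun z hz => (hG z hz).symm) hE
      (fun g _ => by rw [← exp_add, ← exp_add, add_comm (_ * u₂), neg_add_cancel, exp_zero]) hb hu2
    have k2 : ((2 * k * δ₂ : ℕ) : ℂ) * u₂ ∈ L.lattice := by
      rw [hδ₂, sm_eq hs hS2.1, ← pq_sum, ← map_zsmul, ← map_nsmul, ← map_nsmul, pq_eq] at k1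
      have := sub_mem (L.lattice.smul_mem (2 : ℤ) hk) (L.lattice.smul_mem (k : ℤ) k1)
      convert this using 1
      simp only [nsmul_eq_mul, zsmul_eq_mul]
      push_cast
      ring
    refine ⟨2 * k * δ₂, δ, _, by positivity, δ0, th _ _ fun g hg => exp_leg' k2 (dl_mem p2 hg),
      fin (hF.main2 (e := -e) (u := u) (u' := u₂) (c := c) (c' := c₂) hF2 h0 hS hw hp hd (by omega)
        (fun z hz => by simpa using hG z hz) hE
        (fun g _ => by rw [← exp_add, ← exp_add, neg_add_cancel, exp_zero]) ha hu)⟩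
  · have z2 : ∀ g, G0 N g → dl F₂ g = 0 := fun g hg => by
      by_contra f
      exact nc2 ⟨_, _, gpos hg (z := I) (by simp), by simp, fun e => f (sub_eq_zero.2 e)⟩
    refine ⟨1, δ, _, one_pos, δ0, th 1 0 fun g hg => by simp [z2 g hg], fin ?_⟩
    rw [hF.main (u := u) h0 hS hE (fun g hg => by simp [z2 g hg, ← exp_add]) ha hu]

end Pool.Agent.G5
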