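import Pool.Agent.Lib.MP_696deb_nt.B5.Z1
import Pool.Agent.Lib.MP_696deb_nt.B4.GEf
import Pool.Agent.Lib.MP_696deb_nt.AnForms

/-! Special points have algebraic images. -/

set_option autoImplicit false

open scoped Classical

namespace Pool.Agent.G5

open Pool.Agent.Lib.MP_696deb_nt Pool.Agent.Lib.MP_696deb_nt.B2 Pool.Agent.B4.GE

theorem isCM_froot {R : Fm} (hD : fdisc R < 0) (h : 0 < R.1) : IsCM (fdisc R) (froot R) :=
  isCM_of_form (im_froot_pos hD h) hD (froot_root hD h)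

theorem alg_froot {R : Fm} (hD : fdisc R < 0) (h : 0 < R.1) : ∃ x, jC x = jf (froot R) :=
  gef_alg fun B _ => (isCM_froot hD h).val_jf B.valuation

theorem alg_pmap {W : WeierstrassCurve ℚ} [W.IsElliptic] (Q : Pt W Qbar) : pmap jC Q ∈ Alg W := by
  constructor
  · rw [xco_pmap]
    exact (Algebra.IsAlgebraic.isAlgebraic _).algHom jC.toRatAlgHom
  · rw [yco_pmap]
    exact (Algebra.IsAlgebraic.isAlgebraic _).algHom jC.toRatAlgHom

theorem CM.neg {n : ℕ} {R : Fm} {M : ℕ} (hn : 0 < n) (hM : M ≠ 0) (h : fdisc R = -(n * M ^ 2)) :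
    fdisc R < 0 := by
  rw [h, neg_lt_zero]
  positivity

theorem ag_stmt : AGStmt := by
  rintro W _ N n P _ hn ⟨R, M, h1, h2, h3, rfl⟩
  have h4 := CM.neg hn h1 h3
  obtain ⟨x, hx⟩ := alg_froot h4 h2
  obtain ⟨Q, hQ⟩ := P.alg (im_froot_pos h4 h2) hx
  exact hQ ▸ alg_pmap Q

end Pool.Agent.G5
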