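import Pool.Agent.Lib.MP_696deb_nt.B5.ZHa

/-! Families with a Hecke recursion, sums over Hecke correspondences, and the growth argument. -/

set_option autoImplicit false

open Finset Filter Topology Complex
open scoped Classical

namespace Pool.Agent.G5

open Pool.Agent.Lib.MP_696deb_nt Pool.Agent.B4.GE Pool.Agent.Shared.Weier

section
variable {l m M n : ℕ} {τ : ℂ}

theorem fpb_im {a d : ℕ} (ha : a ≠ 0) (hd : d ≠ 0) (b : ℕ) (hτ : 0 < τ.im) :
    0 < ((a * τ + b) / d : ℂ).im := by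
  rw [Complex.div_natCast_im]
  have h1 : (0 : ℝ) < a := Nat.cast_pos.2 (Nat.pos_of_ne_zero ha)
  have h2 : (0 : ℝ) < d := Nat.cast_pos.2 (Nat.pos_of_ne_zero hd)
  simp only [add_im, mul_im, natCast_re, natCast_im, zero_mul, add_zero]
  positivity

theorem hsum_one {E : Type} [AddCommGroup E] (g : ℂ → E) (τ : ℂ) : hsum 1 g τ = g τ := by
  simp [hsum]

theorem fpa_per {E ι : Type*} [AddCommMonoid E] {h : ℕ → E} {d : ℕ} (hd : d ≠ 0)
    (hh : Function.Periodic h d) (S : Finset ι) (φ : ι → ℕ) (hc : S.card = d)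
    (hi : ∀ s ∈ S, ∀ t ∈ S, φ s ≡ φ t [MOD d] → s = t) :
    ∑ s ∈ S, h (φ s) = ∑ b ∈ range d, h b := by
  have h1 : ∀ s ∈ S, φ s % d ∈ range d := fun s _ =>
    mem_range.2 (Nat.mod_lt _ (Nat.pos_of_ne_zero hd))
  refine sum_bij (fun s _ => φ s % d) h1 (fun s hs t ht e => hi s hs t ht e) (fun b hb => ?_)
    fun s _ => (hh.map_mod_nat _).symm
  obtain ⟨s, hs, e⟩ := surj_on_of_inj_on_of_card_le (fun s _ => φ s % d) h1
    (fun s t hs ht e => hi s hs t ht e) (by rw [card_range, hc]) b hb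
  exact ⟨s, hs, e.symm⟩

/-- The sum over the matrices with given diagonal. -/
noncomputable def fpaG {E : Type*} [AddCommMonoid E] (g : ℂ → E) (τ : ℂ) (a d : ℕ) : E :=
  ∑ b ∈ range d, g ((a * τ + b) / d)

theorem fpa_periodic {E : Type*} {g : ℂ → E} (hg : ∀ z : ℂ, 0 < z.im → g (z + 1) = g z)
    {a d : ℕ} (ha : a ≠ 0) (hd : d ≠ 0) (hτ : 0 < τ.im) :
    Function.Periodic (fun b : ℕ => g ((a * τ + b) / d)) d := by
  intro b
  have h1 : (d : ℂ) ≠ 0 := Nat.cast_ne_zero.2 hd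
  have h2 : ((a : ℂ) * τ + ((b + d : ℕ) : ℂ)) / d = (a * τ + b) / d + 1 := by
    push_cast
    field_simp
    ring
  beta_reduce
  rw [h2, hg _ (fpb_im ha hd b hτ)]

theorem fpa_some {E : Type*} [AddCommMonoid E] {g : ℂ → E}
    (hg : ∀ z : ℂ, 0 < z.im → g (z + 1) = g z) (hl : l.Prime) {a d : ℕ} (ha : a ≠ 0) (hd : d ≠ 0)
    (hτ : 0 < τ.im) : ∑ k : Fin l, fpaG g (act (rP l (some k)) τ) a d =
      if l ∣ a then l • fpaG g τ (a / l) d else fpaG g τ a (d * l) := by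
  have hl0 : (l : ℂ) ≠ 0 := Nat.cast_ne_zero.2 hl.ne_zero
  have hd0 : (d : ℂ) ≠ 0 := Nat.cast_ne_zero.2 hd
  split_ifs with h
  · obtain ⟨a, rfl⟩ := h
    rw [Nat.mul_div_cancel_left _ hl.pos]
    have h1 : ∀ k : Fin l, fpaG g (act (rP l (some k)) τ) (l * a) d = fpaG g τ a d := by
      intro k
      refine Eq.trans (sum_congr rfl fun b _ => ?_) (fpa_per hd
        (fpa_periodic hg (right_ne_zero_of_mul ha) hd hτ) (range d) (fun b => b + a * k)
        (card_range d) fun s hs t ht e => ?_)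
      · congr 1
        simp only [act_rP_some]
        push_cast
        field_simp
        ring
      · exact (Nat.ModEq.add_right_cancel' _ e).eq_of_lt_of_lt (mem_range.1 hs) (mem_range.1 ht)
    rw [sum_congr rfl fun k _ => h1 k, sum_const, card_univ, Fintype.card_fin]
  · have hdl : d * l ≠ 0 := mul_ne_zero hd hl.ne_zero
    refine Eq.trans ?_ (fpa_per hdl (fpa_periodic hg ha hdl hτ)
      ((univ : Finset (Fin l)) ×ˢ range d) (fun s => a * s.1 + l * s.2) ?_ fun s hs t ht e => ?_)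
    · rw [sum_product]
      refine sum_congr rfl fun k _ => sum_congr rfl fun b _ => ?_
      congr 1
      simp only [act_rP_some]
      push_cast
      field_simp
      ring
    · rw [card_product, card_univ, Fintype.card_fin, card_range, mul_comm]
    · have e1 : a * s.1 ≡ a * t.1 [MOD l] := by
        have e2 := e.of_mul_left d
        simpa [Nat.ModEq] using e2
      have e2 : s.1 = t.1 := Fin.ext ((Nat.ModEq.cancel_left_of_coprime
        ((Nat.Prime.coprime_iff_not_dvd hl).2 h) e1).eq_of_lt_of_lt s.1.2 t.1.2)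
      rw [e2, mul_comm d l] at e
      have e3 := Nat.ModEq.mul_left_cancel' hl.ne_zero (Nat.ModEq.add_left_cancel' _ e)
      exact Prod.ext e2 (e3.eq_of_lt_of_lt (mem_range.1 (mem_product.1 hs).2)
        (mem_range.1 (mem_product.1 ht).2))

theorem fpa_dvd {E : Type*} [AddCommMonoid E] (F : ℕ → ℕ → E) (hl : l ≠ 0) (m : ℕ) :
    ∑ x ∈ (l * m).divisorsAntidiagonal.filter (fun x => l ∣ x.1), F x.1 x.2 =
      ∑ x ∈ m.divisorsAntidiagonal, F (l * x.1) x.2 := by
  symm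
  refine sum_bij (fun x _ => (l * x.1, x.2)) (fun x hx => ?_) (fun x _ y _ e => ?_)
    (fun y hy => ?_) fun _ _ => rfl
  · obtain ⟨h1, h2⟩ := Nat.mem_divisorsAntidiagonal.1 hx
    exact mem_filter.2 ⟨Nat.mem_divisorsAntidiagonal.2 ⟨by rw [mul_assoc, h1], mul_ne_zero hl h2⟩,
      dvd_mul_right _ _⟩
  · exact Prod.ext (mul_left_cancel₀ hl (Prod.ext_iff.1 e).1) (Prod.ext_iff.1 e).2
  · obtain ⟨h1, a, ha⟩ := mem_filter.1 hy
    obtain ⟨h1, h2⟩ := Nat.mem_divisorsAntidiagonal.1 h1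
    rw [ha, mul_assoc] at h1
    exact ⟨(a, y.2), Nat.mem_divisorsAntidiagonal.2 ⟨mul_left_cancel₀ hl h1,
      right_ne_zero_of_mul h2⟩, Prod.ext ha.symm rfl⟩

theorem fpa_not {E : Type*} [AddCommMonoid E] (F : ℕ → ℕ → E) (hl : l.Prime) (m : ℕ) :
    ∑ x ∈ (l * m).divisorsAntidiagonal.filter (fun x => ¬ l ∣ x.1), F x.1 x.2 =
      ∑ x ∈ m.divisorsAntidiagonal.filter (fun x => ¬ l ∣ x.1), F x.1 (x.2 * l) := by
  symm
  refine sum_bij (fun x _ => (x.1, x.2 * l)) (fun x hx => ?_) (fun x _ y _ e => ?_)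
    (fun y hy => ?_) fun _ _ => rfl
  · obtain ⟨h0, h3⟩ := mem_filter.1 hx
    obtain ⟨h1, h2⟩ := Nat.mem_divisorsAntidiagonal.1 h0
    exact mem_filter.2 ⟨Nat.mem_divisorsAntidiagonal.2
      ⟨by rw [← mul_assoc, h1, mul_comm], mul_ne_zero hl.ne_zero h2⟩, h3⟩
  · exact Prod.ext (Prod.ext_iff.1 e).1 (mul_right_cancel₀ hl.ne_zero (Prod.ext_iff.1 e).2)
  · obtain ⟨h0, h3⟩ := mem_filter.1 hy
    obtain ⟨h1, h2⟩ := Nat.mem_divisorsAntidiagonal.1 h0
    obtain ⟨d, hd⟩ := (hl.dvd_mul.1 (h1 ▸ dvd_mul_right l m)).resolve_left h3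
    rw [hd, mul_left_comm] at h1
    exact ⟨(y.1, d), mem_filter.2 ⟨Nat.mem_divisorsAntidiagonal.2
      ⟨mul_left_cancel₀ hl.ne_zero h1, right_ne_zero_of_mul h2⟩, h3⟩,
      Prod.ext rfl (by rw [hd, mul_comm])⟩

theorem hsum_rel {E : Type} [AddCommGroup E] {g : ℂ → E}
    (hg : ∀ z : ℂ, 0 < z.im → g (z + 1) = g z) (hl : l.Prime) (hm : m ≠ 0) (hτ : 0 < τ.im) :
    hsum (l * m) g τ + (if l ∣ m then l • hsum (m / l) g τ else 0) =
      ∑ i, hsum m g (act (rP l i) τ) := by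
  have e : ∀ (M : ℕ) (z : ℂ), hsum M g z = ∑ x ∈ M.divisorsAntidiagonal, fpaG g z x.1 x.2 :=
    fun _ _ => rfl
  have h1 : ∀ a d, fpaG g (act (rP l none) τ) a d = fpaG g τ (l * a) d := by
    intro a d
    refine sum_congr rfl fun b _ => ?_
    congr 2
    simp only [act_none]
    push_cast
    ring
  have h2 : ∑ x ∈ m.divisorsAntidiagonal.filter (fun x => l ∣ x.1), l • fpaG g τ (x.1 / l) x.2 =
      if l ∣ m then l • hsum (m / l) g τ else 0 := by
    split_ifs with h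
    · obtain ⟨m', rfl⟩ := h
      rw [fpa_dvd (fun a d => l • fpaG g τ (a / l) d) hl.ne_zero, Nat.mul_div_cancel_left _ hl.pos,
        e, smul_sum]
      exact sum_congr rfl fun x _ => by rw [Nat.mul_div_cancel_left _ hl.pos]
    · refine sum_eq_zero fun x hx => absurd ?_ h
      obtain ⟨h0, h3⟩ := mem_filter.1 hx
      exact h3.trans (Dvd.intro _ (Nat.mem_divisorsAntidiagonal.1 h0).1)
  have h3 : ∑ k : Fin l, hsum m g (act (rP l (some k)) τ) = ∑ x ∈ m.divisorsAntidiagonal,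
      if l ∣ x.1 then l • fpaG g τ (x.1 / l) x.2 else fpaG g τ x.1 (x.2 * l) := by
    simp only [e]
    rw [sum_comm]
    refine sum_congr rfl fun x hx => ?_
    have h4 := Nat.ne_zero_of_mem_divisorsAntidiagonal hx
    exact fpa_some hg hl h4.1 h4.2 hτ
  rw [Fintype.sum_option, h3, sum_ite, h2, e (l * m), e m,
    ← sum_filter_add_sum_filter_not _ (fun x : ℕ × ℕ => l ∣ x.1), fpa_dvd _ hl.ne_zero,
    fpa_not _ hl, add_assoc, add_comm (ite _ _ _)]
  simp only [h1]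
end

variable {V : Type} [AddCommGroup V] {N M l l₀ m : ℕ} {t : HW} {z : ℂ} {η a : ℕ → ℤ}
  {b b' : ℕ →₀ ℤ} {Φ : ℕ → ℂ → V} {g : ℂ → V}

theorem hf_Xl (hg : ∀ z : ℂ, 0 < z.im → g (z + 1) = g z) (hl : l.Prime) :
    ∀ (j : ℕ) {z : ℂ}, 0 < z.im → hf V (Xl l j) g z = hsum (l ^ j) g z
  | 0, z, _ => by rw [Xl, map_one, pow_zero, hsum_one, Module.End.one_apply]
  | 1, z, hz => by
    have := hsum_rel hg hl one_ne_zero hz
    simp only [hl.not_dvd_one, if_false, add_zero, mul_one, hsum_one] at this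
    rw [Xl, hf_tl, pow_one, this, Tf_apply]
  | j + 2, z, hz => by
    have := hsum_rel hg hl (pow_ne_zero (j + 1) hl.ne_zero) hz
    rw [if_pos (dvd_pow_self l j.succ_ne_zero), pow_succ' l j, Nat.mul_div_cancel_left _ hl.pos,
      ← pow_succ', ← pow_succ'] at this
    rw [Xl, map_sub, map_smul, LinearMap.sub_apply, Pi.sub_apply, hf_mul, hf_tl, Tf_apply,
      sum_congr rfl fun i _ => hf_Xl hg hl (j + 1) (rP_pos hl i hz), ← this, LinearMap.smul_apply,
      Pi.smul_apply, hf_Xl hg hl j hz, natCast_zsmul, add_sub_cancel_right]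

theorem hf_tl_Xl (hg : ∀ z : ℂ, 0 < z.im → g (z + 1) = g z) (hl : l.Prime) (h0 : l₀.Prime)
    (hne : l ≠ l₀) (j : ℕ) (hz : 0 < z.im) :
    hf V (tl l₀ * Xl l j) g z = hsum (l₀ * l ^ j) g z := by
  have := hsum_rel hg h0 (pow_ne_zero j hl.ne_zero) hz
  rw [if_neg fun e => hne ((Nat.prime_dvd_prime_iff_eq h0 hl).1 (h0.dvd_of_dvd_pow e)).symm,
    add_zero] at this
  rw [hf_mul, hf_tl, Tf_apply, this]
  exact sum_congr rfl fun i _ => hf_Xl hg hl j (rP_pos h0 i hz)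

theorem Ta_single (η : ℕ → ℤ) (l m : ℕ) (c : ℤ) : Ta η l (Finsupp.single m c) =
    c • (Finsupp.single (l * m) 1 +
      if l ∣ m then Finsupp.single (m / l) (l : ℤ) else Finsupp.single m (η l)) :=
  Finsupp.linearCombination_single _ _ _

theorem sup_iff : Sup M b ↔ b ∈ Finsupp.supported ℤ ℤ {m | m ≠ 0 ∧ m.Coprime M} := Iff.rfl

theorem Sup.single (h0 : m ≠ 0) (h : m.Coprime M) (c : ℤ) : Sup M (Finsupp.single m c) :=
  fun k hk => by
    obtain rfl := mem_singleton.1 (Finsupp.support_single_subset hk)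
    exact ⟨h0, h⟩

theorem Sup.add (h : Sup M b) (h' : Sup M b') : Sup M (b + b') :=
  sup_iff.2 (add_mem (sup_iff.1 h) (sup_iff.1 h'))

theorem Sup.smul (h : Sup M b) (c : ℤ) : Sup M (c • b) :=
  sup_iff.2 (Submodule.smul_mem _ c (sup_iff.1 h))

theorem Sup.mono (h : Sup M b) (e : N ∣ M) : Sup N b := fun m hm =>
  ⟨(h m hm).1, (h m hm).2.coprime_dvd_right e⟩

theorem Sup.ind {p : (ℕ →₀ ℤ) → Prop} (h : Sup M b) (h0 : p 0)
    (h1 : ∀ m c, m ≠ 0 → m.Coprime M → p (Finsupp.single m c))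
    (h2 : ∀ b b', p b → p b' → p (b + b')) : p b := by
  rw [← b.sum_single, Finsupp.sum]
  exact sum_induction _ p h2 h0 fun m hm => h1 m _ (h m hm).1 (h m hm).2

theorem Sup.Ta (h : Sup M b) (hl : l.Prime) (e : ¬ l ∣ M) : Sup M (Ta η l b) := by
  refine h.ind (p := fun b => Sup M (G5.Ta η l b)) (by simp [Sup]) (fun m c h0 h1 => ?_)
    fun b b' h1 h2 => map_add (G5.Ta η l) b b' ▸ h1.add h2
  rw [Ta_single]
  refine ((Sup.single (mul_ne_zero hl.ne_zero h0)
    (((Nat.Prime.coprime_iff_not_dvd hl).2 e).mul_left h1) _).add ?_).smul c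
  split_ifs with k
  · exact .single (Nat.div_ne_zero_iff_of_dvd k |>.2 ⟨h0, hl.ne_zero⟩)
      (h1.coprime_dvd_left (Nat.div_dvd_of_dvd k)) _
  · exact .single h0 h1 _

theorem Sup.ha (h : Sup M b) (ht : t ∈ HA M) : Sup M (ha η t b) := by
  revert b
  exact HA_ind (p := fun t => ∀ {b}, Sup M b → Sup M (G5.ha η t b)) ht
    (fun l hl e b h => ha_tl η l ▸ h.Ta hl e) (fun c b h => ha_int (η := η) c b ▸ h.smul c)
    (fun s t _ _ h1 h2 b h => ha_add (η := η) s t b ▸ (h1 h).add (h2 h))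
    fun s t _ _ h1 h2 b h => ha_mul (η := η) s t b ▸ h1 (h2 h)

theorem cmb_single (Ψ : ℕ → V) (m : ℕ) (c : ℤ) : cmb Ψ (Finsupp.single m c) = c • Ψ m :=
  Finsupp.linearCombination_single _ _ _

theorem HFm.hf (h : HFm N η Φ) (ht : t ∈ HA N) (hb : Sup N b) (hz : 0 < z.im) :
    hf V t (cmb Φ b) z = cmb Φ (ha η t b) z := by
  revert b z
  refine HA_ind (p := fun t => ∀ {z : ℂ} {b}, Sup N b → 0 < z.im →
    G5.hf V t (cmb Φ b) z = cmb Φ (ha η t b) z) ht (fun l hl e z b hb hz => ?_)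
    (fun c z b _ _ => ?_) (fun s t _ _ h1 h2 z b hb hz => ?_) fun s t hs ht h1 h2 z b hb hz => ?_
  · rw [hf_tl, ha_tl]
    refine hb.ind (p := fun b => Tf V l (cmb Φ b) z = cmb Φ (Ta η l b) z) (by simp)
      (fun m c h0 h1 => ?_) fun b b' h1 h2 => by simp only [map_add, Pi.add_apply, h1, h2]
    rw [Ta_single, cmb_single, map_smul, map_smul, map_add, cmb_single, Pi.smul_apply,
      Pi.smul_apply, h l hl e m h0 h1 z hz, one_smul, Pi.add_apply]
    split_ifs <;> rw [cmb_single, Pi.smul_apply]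
  · rw [hf_int, ha_int, map_smul, Pi.smul_apply]
  · rw [hf_add, ha_add, map_add, Pi.add_apply, h1 hb hz, h2 hb hz]
  · rw [hf_mul, ha_mul, hf_congr hs (fun z hz => h2 hb hz) hz, h1 (hb.ha ht) hz]

theorem ha_Xl (hl : l.Prime) (h : ¬ l ∣ m) (c : ℤ) : ∀ j : ℕ, ha η (Xl l j) (Finsupp.single m c) =
    ∑ i ∈ range (j + 1), Finsupp.single (m * l ^ i) (η l ^ (j - i) * c) := by
  have s : ∀ i (x : ℤ), Ta η l (Finsupp.single (m * l ^ (i + 1)) x) =
      Finsupp.single (m * l ^ (i + 2)) x + (l : ℤ) • Finsupp.single (m * l ^ i) x := fun i x => by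
    rw [Ta_single, if_pos ((dvd_pow_self l i.succ_ne_zero).mul_left m), pow_succ l i, ← mul_assoc m,
      Nat.mul_div_cancel _ hl.pos, show l * (m * l ^ i * l) = m * l ^ (i + 2) by ring]
    simp [mul_comm]
  have s0 : ∀ x : ℤ, Ta η l (Finsupp.single m x) =
      Finsupp.single (m * l) x + Finsupp.single m (η l * x) := fun x => by
    rw [Ta_single, if_neg h]
    simp [mul_comm]
  intro j
  induction j using Nat.twoStepInduction with
  | zero => simp [Xl]
  | one =>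
    simp only [Xl, ha_tl, s0, sum_range_succ, range_zero, sum_empty, zero_add, pow_zero, mul_one,
      Nat.sub_zero, pow_one, Nat.sub_self, one_mul]
    exact add_comm _ _
  | more j h1 h2 =>
    rw [Xl, map_sub, map_smul, LinearMap.sub_apply, ha_mul, ha_tl, h2, LinearMap.smul_apply, h1,
      sum_range_succ' _ (j + 1), map_add, map_sum, sum_range_succ' _ (j + 2),
      sum_range_succ' _ (j + 1)]
    simp only [s, pow_zero, mul_one, s0, sum_add_distrib, ← smul_sum, Nat.add_sub_add_right,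
      zero_add, pow_one, Nat.sub_zero, pow_succ' (η l) (j + 1), mul_assoc]
    rw [show j + 2 - 1 = j + 1 from rfl]
    abel

theorem cassini (a : ℕ → ℤ) (l j : ℕ) : he a (Xl l (j + 1)) ^ 2 -
    he a (Xl l (j + 2)) * he a (Xl l j) = (l : ℤ) ^ (j + 1) := by
  have r : ∀ j, he a (Xl l (j + 2)) = a l * he a (Xl l (j + 1)) - l * he a (Xl l j) := fun j => by
    rw [Xl, map_sub, map_mul, he_tl, map_smul, smul_eq_mul]
  induction j with
  | zero => rw [r]; simp [Xl, he_tl, sq]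
  | succ j ih =>
    linear_combination l * ih - he a (Xl l (j + 1)) * r (j + 1) + he a (Xl l (j + 2)) * r j

theorem eq_zero_of_poly (hl : l.Prime) {x C : ℝ} {k : ℕ}
    (h : ∀ j : ℕ, |he a (Xl l j) * x| ≤ C * (j + 1) ^ k) : x = 0 := by
  have C0 : 0 ≤ C := by simpa using (abs_nonneg _).trans (h 0)
  have b : ∀ i j : ℕ, i ≤ j + 2 → |he a (Xl l i) * x| ≤ C * ((j + 3 : ℕ) : ℝ) ^ k := fun i j e =>
    (h i).trans (by
      gcongr
      exact_mod_cast Nat.succ_le_succ e)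
  have t := ((tendsto_pow_const_div_const_pow_of_one_lt (k + k) (one_lt_two (α := ℝ))).comp
    (tendsto_add_atTop_nat 3)).const_mul (8 * C ^ 2)
  rw [mul_zero] at t
  refine pow_eq_zero_iff two_ne_zero |>.1 (le_antisymm (ge_of_tendsto' t fun j => ?_) (sq_nonneg x))
  have e : (he a (Xl l (j + 1)) : ℝ) ^ 2 - he a (Xl l (j + 2)) * he a (Xl l j) =
      (l : ℝ) ^ (j + 1) := by exact_mod_cast cassini a l j
  have h1 := mul_self_le_mul_self (abs_nonneg _) (b (j + 1) j (by omega))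
  have h2 := mul_le_mul (b (j + 2) j le_rfl) (b j j (by omega)) (abs_nonneg _) (by positivity)
  have h3 : (2 : ℝ) ^ (j + 1) ≤ (l : ℝ) ^ (j + 1) := by
    gcongr
    exact_mod_cast hl.two_le
  rw [abs_mul_abs_self] at h1
  rw [← abs_mul] at h2
  rw [Function.comp, mul_div_assoc', le_div_iff₀ (by positivity), pow_add _ k, pow_add _ (j + 1) 2]
  nlinarith [neg_abs_le (he a (Xl l (j + 2)) * x * (he a (Xl l j) * x)), sq_nonneg x]

theorem eq_zero_of_log (hl : l.Prime) {x : ℚ} (h : x * Real.log l ∈ LogS l) : x = 0 := by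
  by_contra hx
  have h1 := LogS.rat_mul x⁻¹ h
  rw [← mul_assoc, ← Rat.cast_mul, inv_mul_cancel₀ hx, Rat.cast_one, one_mul] at h1
  exact linInd_log.notMem_span_image (s := {q | q.1 ≠ l}) (x := ⟨l, hl⟩) (fun e => e rfl) h1

/-- The growth argument. -/
theorem mem_of_growth (hl : l.Prime) {δ : ℝ} {C : ℚ} {k : ℕ} (h : ∀ j : ℕ, ∃ σ : ℚ,
    |σ| ≤ C * (j + 1) ^ k ∧ he a (Xl l j) * δ - σ * Real.log l ∈ LogS l) : δ ∈ LogS l := by
  obtain ⟨c, -, h1⟩ := h 0
  rw [Xl, map_one, Int.cast_one, one_mul] at h1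
  have h2 : (c : ℝ) = 0 := by
    refine eq_zero_of_poly (a := a) hl (C := C) (k := k) fun j => ?_
    obtain ⟨σ, k1, k2⟩ := h j
    have k3 : (he a (Xl l j) : ℚ) * c - σ = 0 := by
      refine eq_zero_of_log hl ?_
      convert sub_mem k2 (LogS.int_mul (he a (Xl l j)) h1) using 1
      push_cast
      ring
    rw [← sub_eq_zero.1 k3] at k1
    exact_mod_cast k1
  rwa [h2, zero_mul, sub_zero] at h1

end Pool.Agent.G5
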