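import Pool.Agent.Lib.MP_696deb_nt.B5.Z3
import Pool.Agent.Lib.MP_696deb_nt.B5.ADa
import Pool.Agent.Lib.MP_696deb_nt.B5.ZHb
import Pool.Agent.Lib.MP_696deb_nt.B5.ZFb

/-! The Hecke operators move from the special divisors to an invariant function. -/

set_option autoImplicit false

open Finset
open scoped Classical

namespace Pool.Agent.G5

open Pool.Agent.Lib.MP_696deb_nt Pool.Agent.B4.GE Pool.Agent.Shared.Weier

namespace AJ

open AD

variable {N n B : ℕ} {t u : HW} {s : Finset ℂ} {ν : ℂ → ℤ}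

/-- Two operators commute on invariant functions. -/
def Cm (V : Type) [AddCommGroup V] (N : ℕ) (u t : HW) : Prop := ∀ S : ℂ → V, Inv0 N S →
  ∀ z : ℂ, 0 < z.im → hf V u (hf V t S) z = hf V t (hf V u S) z

theorem cm_ind {V : Type} [AddCommGroup V] (h : ∀ l : ℕ, l.Prime → ¬ l ∣ N → Cm V N u (tl l))
    (ht : t ∈ HA N) : Cm V N u t := by
  refine HA_ind (p := Cm V N u) ht h (fun c S _ z _ => ?_) (fun s t _ _ h1 h2 S hS z hz => ?_)
    fun s t hs ht h1 h2 S hS z hz => ?_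
  · rw [hf_int, show hf V (algebraMap ℤ HW c) S = c • S from funext (hf_int c S), map_smul,
      Pi.smul_apply]
  · rw [hf_add, ← h1 S hS z hz, ← h2 S hS z hz,
      show hf V (s + t) S = hf V s S + hf V t S from funext (hf_add s t S), map_add, Pi.add_apply]
  · rw [hf_mul, hf_mul, h1 _ (inv0_hf hS ht) z hz]
    exact hf_congr hs (h2 S hS) hz

theorem hf_comm {V : Type} [AddCommGroup V] (hu : u ∈ HA N) (ht : t ∈ HA N) : Cm V N u t := by
  refine cm_ind (fun l hl _ S hS z hz => (cm_ind (fun k hk _ S hS z hz => ?_) hu S hS z hz).symm) ht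
  rcases eq_or_ne l k with rfl | e
  · rfl
  have h1 := hf_tl_Xl (fun z hz => inv0_per hS hz) hk hl e.symm 1 hz
  have h2 := hf_tl_Xl (fun z hz => inv0_per hS hz) hl hk e 1 hz
  rw [pow_one, hf_mul] at h1 h2
  exact h1.trans (mul_comm l k ▸ h2.symm)

theorem main (hn : Squarefree n) (h3 : 3 < n) (ht : t ∈ HA N) (hν : Inv0 N ν)
    (hs : Sep N n s) (hc : Cov N ν s) : ∃ s', Sep N n s' ∧ Cov N (hf ℤ t ν) s' ∧
      ∀ (V : Type) [AddCommGroup V] (S : ℂ → V), Inv0 N S →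
        ∑ z ∈ s', hf ℤ t ν z • S z = ∑ z ∈ s, ν z • hf V t S z := by
  have n0 : 0 < n := by omega
  revert ν s
  refine HA_ind (p := fun t => ∀ {s : Finset ℂ} {ν : ℂ → ℤ}, Inv0 N ν → Sep N n s → Cov N ν s →
    ∃ s', Sep N n s' ∧ Cov N (hf ℤ t ν) s' ∧
      ∀ (V : Type) [AddCommGroup V] (S : ℂ → V), Inv0 N S →
        ∑ z ∈ s', hf ℤ t ν z • S z = ∑ z ∈ s, ν z • hf V t S z) ht
    (fun l hl h s ν hν hs hc => ?_) (fun c s ν hν hs hc => ?_)
    (fun t u ht hu h1 h2 s ν hν hs hc => ?_) fun t u ht hu h1 h2 s ν hν hs hc => ?_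
  · simp only [hf_tl]
    exact step hn h3 hl h hν hs hc
  · refine ⟨s, hs, fun z hz e => hc z hz fun k => e (by rw [hf_int, k, smul_zero]),
      fun V _ S _ => ?_⟩
    exact sum_congr rfl fun z _ => by rw [hf_int, hf_int, smul_assoc, smul_comm]
  · obtain ⟨s₁, a1, a2, a3⟩ := h1 hν hs hc
    obtain ⟨s₂, b1, b2, b3⟩ := h2 hν hs hc
    obtain ⟨s', c1, c2⟩ := exists_sep (N := N) n0 (s₁ ∪ s₂) fun z hz =>
      (mem_union.1 hz).elim (a1.cm z) (b1.cm z)
    have a4 := a2.mono n0 c1 fun z hz => c2 z (mem_union_left _ hz)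
    have b4 := b2.mono n0 c1 fun z hz => c2 z (mem_union_right _ hz)
    refine ⟨s', c1, fun z hz e => ?_, fun V _ S hS => ?_⟩
    · by_cases k : hf ℤ t ν z = 0
      · exact b4 z hz fun k' => e (by rw [hf_add, k, k', add_zero])
      · exact a4 z hz k
    · simp only [hf_add, add_smul, smul_add, sum_add_distrib]
      rw [← a3 V S hS, ← b3 V S hS,
        sum_indep n0 a1 c1 (inv_smul (inv0_hf hν ht) hS) (a2.smul S) (a4.smul S),
        sum_indep n0 b1 c1 (inv_smul (inv0_hf hν hu) hS) (b2.smul S) (b4.smul S)]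
  · obtain ⟨s₂, b1, b2, b3⟩ := h2 hν hs hc
    obtain ⟨s₁, a1, a2, a3⟩ := h1 (inv0_hf hν hu) b1 b2
    simp only [hf_mul]
    refine ⟨s₁, a1, a2, fun V _ S hS => ?_⟩
    rw [a3 V S hS, b3 V _ (inv0_hf hS ht)]
    exact sum_congr rfl fun z hz => by rw [hf_comm hu ht S hS z (cm_pos n0 (hs.cm z hz))]

/-- The roots of the representatives of both orientations. -/
theorem reps {M : ℕ} {D ρ : ℤ} {T T' : Finset Fm} (hn : 0 < n) (hM : M ≠ 0) (hB : Odd B)
    (hd : (B : ℤ) ∣ D) (hD : D = -(n * M ^ 2)) (h1 : ¬ (N : ℤ) ∣ ρ) (h : FReps N D ρ T)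
    (h' : FReps N D (-ρ) T') : Inv0 N (nuW (wZ N B D ρ)) ∧ Sep N n ((T ∪ T').image froot) ∧
      Cov N (nuW (wZ N B D ρ)) ((T ∪ T').image froot) ∧
      ∀ (V : Type) [AddCommGroup V] (S : ℂ → V), ∑ Q ∈ T ∪ T', wZ N B D ρ Q • S (froot Q) =
        ∑ z ∈ (T ∪ T').image froot, nuW (wZ N B D ρ) z • S z := by
  have h0 : D < 0 := by
    rw [hD, neg_lt_zero]
    positivity
  have hw : Wt N (wZ N B D ρ) D := wt_wZ hB hd h0
  have hd : ∀ Q ∈ T ∪ T', fdisc Q = D := fun Q hQ =>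
    (mem_union.1 hQ).elim (fun k => (h.fam Q k).2.1) fun k => (h'.fam Q k).2.1
  have hp : ∀ Q ∈ T ∪ T', 0 < Q.1 := fun Q hQ => (mem_union.1 hQ).elim (h.pos Q) (h'.pos Q)
  refine ⟨hw.nuW_inv h0 fun R k => (pos_of_wZ k).1, ⟨forall_mem_image.2 fun Q hQ =>
    ⟨Q, M, hM, hp Q hQ, (hd Q hQ).trans hD, rfl⟩, ?_⟩, fun z _ k => ?_, fun V _ S => ?_⟩
  · simp only [forall_mem_image]
    rintro Q hQ R hR ⟨g, hg, e⟩
    have k := (feq_of_root hg (hd Q hQ ▸ h0) (hp Q hQ) (hp R hR)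
      ((hd R hR).trans (hd Q hQ).symm) e).2
    congr 1
    rcases mem_union.1 hQ with a | a <;> rcases mem_union.1 hR with b | b
    exacts [h.uniq Q a R b k, absurd (h'.fam R b) ((k.fam (h.fam Q a)).not_neg h1),
      absurd (k.fam (h'.fam Q a)) ((h.fam R b).not_neg h1), h'.uniq Q a R b k]
  · obtain ⟨R, k1, rfl⟩ := exists_of_nuW k
    obtain ⟨k2, k3⟩ := pos_of_wZ k1
    obtain ⟨Q, k4, k5⟩ : ∃ Q ∈ T ∪ T', FEq N Q R := k3.elim
      (fun j => (h.ex R j k2).imp fun Q l => ⟨mem_union_left _ l.1, l.2⟩)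
      fun j => (h'.ex R j k2).imp fun Q l => ⟨mem_union_right _ l.1, l.2⟩
    exact ⟨_, mem_image_of_mem _ k4, k5.symm.root (hw.disc R k1 ▸ h0) k2⟩
  · rw [sum_image fun Q hQ R hR e => froot_inj (hd R hR ▸ h0) (hp R hR) (hp Q hQ)
      ((hd Q hQ).trans (hd R hR).symm) e]
    exact sum_congr rfl fun Q hQ => by
      rw [nuW_froot (fun R k => ⟨(hw.disc R k).trans (hd Q hQ).symm, (pos_of_wZ k).1⟩)
        (hd Q hQ ▸ h0) (hp Q hQ)]

end AJ

open AD in
theorem aj_stmt : AJStmt := by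
  intro N K B n g D ρ η T T' t hN hK hB hd hn h3 hg hD hρ ht hT hH V _ S hS
  have n0 : 0 < n := by omega
  have R := fun (m : ℕ) (h0 : m ≠ 0) (hm : m.Coprime K) => AJ.reps (M := g * m) n0
    (mul_ne_zero hg h0) hB (hd.mul_right ((m : ℤ) ^ 2)) (by rw [hD]; push_cast; ring)
    (fun k => by
      have c := hρ.mul_right (Nat.isCoprime_iff_coprime.2 (hm.coprime_dvd_right hK).symm)
      have := Int.isUnit_iff.1 (c.isUnit_of_dvd' dvd_rfl k)
      omega) (hT m h0).1 (hT m h0).2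
  have one : Sup K (Finsupp.single 1 1) := Sup.single one_ne_zero (Nat.coprime_one_left K) 1
  have hs := one.ha (η := η) ht
  have hF := fun z hz => HFm.hf (z := z) hH ht one hz
  generalize ha η t (Finsupp.single 1 1) = a at hs hF
  obtain ⟨r1, r2, r3, r4⟩ := R 1 one_ne_zero (Nat.coprime_one_left K)
  simp only [cmb_single, one_smul] at hF
  simp only [Nat.cast_one, one_pow, mul_one] at r1 r2 r3 r4 hF
  obtain ⟨s', a1, a2, a3⟩ := AJ.main hn h3 (HA_mono hK ht) r1 r2 r3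
  obtain ⟨u, c1, c2⟩ := exists_sep (N := N) n0
    (s' ∪ a.support.biUnion fun m => (T m ∪ T' m).image froot) fun z hz => by
      rcases mem_union.1 hz with k | k
      · exact a1.cm z k
      · obtain ⟨m, hm, k⟩ := mem_biUnion.1 k
        exact (R m (hs m hm).1 (hs m hm).2).2.1.cm z k
  rw [r4, ← a3 V S hS, sum_indep n0 a1 c1 (inv_smul (inv0_hf r1 (HA_mono hK ht)) hS) (a2.smul S)
    ((a2.mono n0 c1 fun z hz => c2 z (mem_union_left _ hz)).smul S),
    sum_congr rfl fun z hz => by rw [hF z (cm_pos n0 (c1.cm z hz))]]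
  simp only [Finsupp.linearCombination_apply, Finsupp.sum, Finset.sum_apply, sum_smul]
  rw [sum_comm]
  refine sum_congr rfl fun m hm => ?_
  obtain ⟨k1, k2, k3, k4⟩ := R m (hs m hm).1 (hs m hm).2
  rw [k4, sum_indep n0 k2 c1 (inv_smul k1 hS) (k3.smul S) ((k3.mono n0 c1 fun z hz =>
    c2 z (mem_union_right _ (mem_biUnion.2 ⟨m, hm, hz⟩))).smul S), smul_sum]
  exact sum_congr rfl fun z _ => by rw [Pi.smul_apply, smul_assoc]

end Pool.Agent.G5
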