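import Pool.Agent.Lib.MP_696deb_nt.B5.MH2

/-! The involutions of Atkin and Lehner and strong multiplicity one in squarefree level. -/

set_option autoImplicit false

open PowerSeries Filter Topology

namespace Pool.Agent.B5

open Pool.Agent.Lib.MP_696deb_nt Pool.Agent.B4.GE Pool.Agent.Lib.MP_696deb_nt.B4

/-- A matrix of Atkin and Lehner at `r` in level `N`. -/
structure AL (N r : ℕ) (W : MZ) : Prop where
  det : W.det = r
  a : (r : ℤ) ∣ W 0 0
  c : (N : ℤ) ∣ W 1 0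
  d : (r : ℤ) ∣ W 1 1

variable {N N' M k l r S : ℕ} {G G' H K : ℂ → ℂ} {A B : ℂ⟦X⟧} {g h W : MZ} {z c w : ℂ}

theorem g0_mul (h1 : G0 N g) (h2 : G0 N h) : G0 N (g * h) :=
  ⟨by rw [Matrix.det_mul, h1.1, h2.1, one_mul], by
    simpa [Matrix.mul_apply] using (h1.2.mul_right _).add (h2.2.mul_left _)⟩

theorem idx_sq (hN : N ≠ 0) : ∃ μ, Idx N μ := by
  have : NeZero N := ⟨hN⟩
  refine ⟨_, fun g => Fintype.equivFin (ZMod N × ZMod N) (g 1 0, g 1 1), fun g h e => ?_⟩
  obtain ⟨e1, e2⟩ := Prod.ext_iff.1 ((Fintype.equivFin _).injective e)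
  rw [← ZMod.intCast_zmod_eq_zero_iff_dvd]
  push_cast
  dsimp only at e1 e2
  rw [e1, e2, sub_self]

theorem sk_congr (hg : 0 < g.det) (e : ∀ z : ℂ, 0 < z.im → G z = G' z) (hz : 0 < z.im) :
    sk k g G z = sk k g G' z := by rw [sk, sk, e _ (act_pos hg hz)]

theorem sk_zsmul {n : ℤ} (hn : n ≠ 0) (g : MZ) (G : ℂ → ℂ) (z : ℂ) :
    sk k (n • g) G z = sk k g G z / n ^ k := by
  rw [sk, sk, act_smul hn, den_smul, mul_pow, div_div, mul_comm]

theorem sk_V (r : ℕ) (G : ℂ → ℂ) (z : ℂ) : sk k (ut r 0 1) G z = G (r * z) := by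
  simp [sk, ut, act_of, mob, den]

theorem im_V (hr : r ≠ 0) (hz : 0 < z.im) : 0 < ((r : ℂ) * z).im := by
  simpa using mul_pos (Nat.cast_pos.2 (Nat.pos_of_ne_zero hr)) hz

theorem Mk.bdd_sk (hG : Mk N k G) (hg : 0 < g.det) : Bdd (sk k g G) := by
  obtain ⟨a, b, d, h, h1, h2, rfl⟩ := exists_ut hg
  rw [Matrix.det_mul, h2, one_mul, det_ut] at hg
  have a0 : (0 : ℝ) < a := by
    exact_mod_cast Nat.pos_of_ne_zero (by rintro rfl; simp at hg)
  have d0 : (0 : ℝ) < d := by exact_mod_cast (by omega : 0 < d)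
  refine ((Bdd.const ((d : ℂ) ^ k)⁻¹).mul ((hG.bd h h2).comp_affine (div_pos a0 d0) (b / d))).congr
    fun z hz => ?_
  rw [sk_mul _ (by rw [det_ut]; exact hg.ne') hz, sk, div_eq_inv_mul]
  have : act (ut a b d) z = ((a : ℝ) / d : ℝ) * z + b / d := by
    simp [ut, act_of, mob]
    ring
  rw [this]
  simp [ut, den, sk]

theorem Mk.of_sk (hG : Mk N k G) (hW : 0 < W.det)
    (e : ∀ g, G0 N' g → ∃ h, G0 N h ∧ W * g = h * W) : Mk N' k (sk k W G) where
  hol := hol_sk hG.hol hW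
  inv g hg z hz := by
    obtain ⟨h, h1, h2⟩ := e g hg
    have := sk_mul (k := k) (G := G) W (hg.1 ▸ one_ne_zero) hz
    rw [h2, hG.sk_mul_eq h1 hW hz, sk.eq_1 k g, eq_div_iff (pow_ne_zero _ (mh_den hg.1 hz))] at this
    rw [← this, mul_comm]
  bd g hg := (hG.bdd_sk (g := W * g) (by rwa [Matrix.det_mul, hg, mul_one])).congr fun z hz =>
    (sk_mul _ (hg ▸ one_ne_zero) hz).symm

theorem Mk.V (hG : Mk N k G) (hr : r ≠ 0) : Mk (N * r) k fun z => G (r * z) := by
  refine (hG.of_sk (W := ut r 0 1) (by simpa [det_ut] using Nat.pos_of_ne_zero hr)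
    fun g ⟨h1, t, h2⟩ => ⟨!![g 0 0, r * g 0 1; N * t, g 1 1], ⟨?_, by simp⟩, ?_⟩).congr
    fun z _ => (sk_V r G z).symm
  · rw [Matrix.det_fin_two, h2] at h1
    rw [Matrix.det_fin_two_of, ← h1]
    push_cast
    ring
  · ext i j
    fin_cases i <;> fin_cases j <;> simp [ut, Matrix.mul_apply, Fin.sum_univ_two, h2] <;> ring

theorem AL.form (hW : AL (M * r) r W) (hr : r ≠ 0) : ∃ a b c d : ℤ,
    W = !![r * a, b; M * r * c, r * d] ∧ r * a * d - M * b * c = 1 := by
  obtain ⟨h0, ⟨a, h1⟩, ⟨c, h2⟩, ⟨d, h3⟩⟩ := hW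
  refine ⟨a, W 0 1, c, d, ?_, mul_left_cancel₀ (Int.natCast_ne_zero.2 hr) ?_⟩
  · rw [← h1, ← h3, ← Nat.cast_mul, ← h2]
    exact Matrix.eta_fin_two W
  · rw [Matrix.det_fin_two, h1, h2, h3] at h0
    push_cast at h0
    linear_combination h0

theorem AL.pos (hW : AL N r W) (hr : r ≠ 0) : 0 < W.det := by
  rw [hW.det]
  exact_mod_cast Nat.pos_of_ne_zero hr

theorem exists_AL (h : M.Coprime r) : ∃ W, AL (M * r) r W := by
  obtain ⟨u, v, e⟩ := Nat.isCoprime_iff_coprime.2 h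
  exact ⟨!![r * v, -u; M * r, r], by rw [Matrix.det_fin_two_of]; linear_combination r * e,
    by simp, by simp, by simp⟩

theorem AL.nrm (hW : AL (M * r) r W) (hr : r ≠ 0) : Nrm (M * r) W := by
  obtain ⟨a, b, c, d, rfl, e⟩ := hW.form hr
  refine ⟨hW.pos hr, fun g ⟨t, h⟩ => ?_, fun g ⟨t, h⟩ => ?_⟩
  · refine ⟨!![r * a * d * g 0 0 - r * M * a * c * g 0 1 + r * M * b * d * t - M * b * c * g 1 1,
      -a * b * g 0 0 + r * a ^ 2 * g 0 1 - M * b ^ 2 * t + a * b * g 1 1;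
      M * r * (c * d * g 0 0 - M * c ^ 2 * g 0 1 + r * d ^ 2 * t - c * d * g 1 1),
      -M * b * c * g 0 0 + r * M * a * c * g 0 1 - r * M * b * d * t + r * a * d * g 1 1],
      by simp, ?_⟩
    ext i j
    fin_cases i <;> fin_cases j <;> simp [Matrix.mul_apply, Fin.sum_univ_two, h]
    · linear_combination -(r * a * g 0 0 + b * (M * r * t)) * e
    · linear_combination -(r * a * g 0 1 + b * g 1 1) * e
    · linear_combination -(M * r * c * g 0 0 + r * d * (M * r * t)) * e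
    · linear_combination -(M * r * c * g 0 1 + r * d * g 1 1) * e
  · refine ⟨!![r * a * d * g 0 0 + r * M * c * d * g 0 1 - r * M * a * b * t - M * b * c * g 1 1,
      b * d * g 0 0 + r * d ^ 2 * g 0 1 - M * b ^ 2 * t - b * d * g 1 1;
      M * r * (-a * c * g 0 0 - M * c ^ 2 * g 0 1 + r * a ^ 2 * t + a * c * g 1 1),
      -M * b * c * g 0 0 - r * M * c * d * g 0 1 + r * M * a * b * t + r * a * d * g 1 1],
      by simp, ?_⟩
    ext i j
    fin_cases i <;> fin_cases j <;> simp [Matrix.mul_apply, Fin.sum_univ_two, h]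
    · linear_combination -(g 0 0 * (r * a) + g 0 1 * (M * r * c)) * e
    · linear_combination -(g 0 0 * b + g 0 1 * (r * d)) * e
    · linear_combination -(M * r * t * (r * a) + g 1 1 * (M * r * c)) * e
    · linear_combination -(M * r * t * b + g 1 1 * (r * d)) * e

theorem AL.unique {W' : MZ} (hW : AL (M * r) r W) (hW' : AL (M * r) r W') (hr : r ≠ 0) :
    ∃ h, G0 (M * r) h ∧ W' = h * W := by
  obtain ⟨a, b, c, d, rfl, e⟩ := hW.form hr
  obtain ⟨a', b', c', d', rfl, e'⟩ := hW'.form hr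
  refine ⟨!![r * a' * d - M * b' * c, a * b' - a' * b; M * r * (c' * d - c * d'),
    r * a * d' - M * b * c'], ⟨?_, by simp⟩, ?_⟩
  · rw [Matrix.det_fin_two_of]
    linear_combination (r * a' * d' - M * b' * c') * e + e'
  · ext i j
    fin_cases i <;> fin_cases j <;> simp [Matrix.mul_apply, Fin.sum_univ_two]
    · linear_combination -(r * a') * e
    · linear_combination -b' * e
    · linear_combination -(M * r * c') * e
    · linear_combination -(r * d') * e

theorem AL.sk_eq {W' : MZ} (hW : AL (M * r) r W) (hW' : AL (M * r) r W') (hr : r ≠ 0)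
    (hG : Mk (M * r) k G) (hz : 0 < z.im) : sk k W' G z = sk k W G z := by
  obtain ⟨h, h1, rfl⟩ := hW.unique hW' hr
  exact hG.sk_mul_eq h1 (hW.pos hr) hz

theorem AL.mul {s : ℕ} {W' : MZ} (hW : AL N r W) (hW' : AL N s W') (h : r * s ∣ N) :
    AL N (r * s) (W * W') := by
  have k := Int.natCast_dvd_natCast.2 h
  refine ⟨by rw [Matrix.det_mul, hW.det, hW'.det, Nat.cast_mul], ?_, ?_, ?_⟩ <;>
    rw [Matrix.mul_apply, Fin.sum_univ_two]
  · exact (Nat.cast_mul (α := ℤ) r s ▸ mul_dvd_mul hW.a hW'.a).add ((k.trans hW'.c).mul_left _)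
  · exact (hW.c.mul_right _).add (hW'.c.mul_left _)
  · exact ((k.trans hW.c).mul_right _).add (Nat.cast_mul (α := ℤ) r s ▸ mul_dvd_mul hW.d hW'.d)

theorem al_fricke (N : ℕ) : AL N N !![0, -1; N, 0] := ⟨by simp, by simp, by simp, by simp⟩

/-- The involutions commute. -/
theorem AL.comm {s : ℕ} {W' : MZ} (hW : AL (M * (r * s)) r W) (hW' : AL (M * (r * s)) s W')
    (h : r * s ≠ 0) (hG : Mk (M * (r * s)) k G) (hz : 0 < z.im) :
    sk k W (sk k W' G) z = sk k W' (sk k W G) z := by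
  rw [← sk_mul _ (hW.pos (left_ne_zero_of_mul h)).ne' hz,
    ← sk_mul _ (hW'.pos (right_ne_zero_of_mul h)).ne' hz]
  exact (hW.mul hW' (dvd_mul_left _ _)).sk_eq
    (mul_comm s r ▸ hW'.mul hW (mul_comm r s ▸ dvd_mul_left _ _)) h hG hz

theorem Mk.nrm (hG : Mk N k G) (hW : Nrm N W) : Mk N k (sk k W G) :=
  hG.of_sk hW.pos fun _ hg => hW.g0 hg

/-- The square of the involution. -/
theorem AL.sq (hW : AL (M * r) r W) (hr : r ≠ 0) (hG : Mk (M * r) k G) (hz : 0 < z.im) :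
    sk k W (sk k W G) z = G z / r ^ k := by
  have h0 := hW.pos hr
  obtain ⟨a, b, c, d, rfl, e⟩ := hW.form hr
  rw [← sk_mul _ h0.ne' hz, show !![(r : ℤ) * a, b; M * r * c, r * d] *
      !![(r : ℤ) * a, b; M * r * c, r * d] = (r : ℤ) • !![r * a ^ 2 + M * b * c, b * (a + d);
        M * r * (c * (a + d)), M * b * c + r * d ^ 2] by
    ext i j
    fin_cases i <;> fin_cases j <;> simp [Matrix.mul_apply, Fin.sum_univ_two] <;> ring,
    sk_zsmul (Int.natCast_ne_zero.2 hr), hG.sk_eq ⟨?_, by simp⟩ hz, Int.cast_natCast]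
  rw [Matrix.det_fin_two_of]
  linear_combination (r * a * d - M * b * c + 1) * e

/-- The involution on forms of lower level. -/
theorem AL.old (hW : AL (M * r) r W) (hr : r ≠ 0) (hG : Mk M k G) (hz : 0 < z.im) :
    sk k W G z = G (r * z) := by
  obtain ⟨a, b, c, d, rfl, e⟩ := hW.form hr
  rw [show !![(r : ℤ) * a, b; M * r * c, r * d] = !![a, b; M * c, r * d] * ut r 0 1 by
    ext i j
    fin_cases i <;> fin_cases j <;> simp [ut, Matrix.mul_apply, Fin.sum_univ_two] <;> ring,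
    hG.sk_mul_eq ⟨?_, by simp⟩ (by simpa [det_ut] using Nat.pos_of_ne_zero hr) hz, sk_V]
  rw [Matrix.det_fin_two_of]
  linear_combination e

theorem Tl_of_dvd (h : l ∣ N) (G : ℂ → ℂ) (z : ℂ) :
    Tl N l G z = ∑ j : Fin l, l * sk 2 (rP l (some j)) G z := by
  simp [Tl, Fintype.sum_option, tw, h]

/-- The trace to the lower level. -/
theorem AL.trace (hW : AL (M * r) r W) (hr : r.Prime) (hM : ¬ r ∣ M) (hG : Mk (M * r) 2 G) :
    Mk M 2 fun z => Tl (M * r) r G z + r * sk 2 W G z := by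
  have h0 := hW.pos hr.ne_zero
  have m1 := (hG.Tl hr).add ((hG.nrm (hW.nrm hr.ne_zero)).smul r)
  refine ⟨m1.hol, fun g hg z hz => ?_, m1.bd⟩
  obtain ⟨a, b, c, d, e1, e⟩ := hW.form hr.ne_zero
  set s : Option (Fin r) → MZ := fun i => i.elim W fun j => rP r (some j) with hs
  have R : IsReps r s := by
    set γ : Option (Fin r) → MZ := fun i => i.elim !![a, b; M * c, r * d] fun _ => 1 with hγ
    have g1 : ∀ i, (γ i).det = 1 := by
      rintro (_ | i)
      · simp only [hγ, Option.elim, Matrix.det_fin_two_of]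
        linear_combination e
      · exact Matrix.det_one
    have g2 : ∀ i, s i = γ i * rP r i := by
      rintro (_ | i)
      · simp only [hs, hγ, Option.elim, e1, rP, ut]
        ext i j
        fin_cases i <;> fin_cases j <;> simp [Matrix.mul_apply, Fin.sum_univ_two] <;> ring
      · exact (one_mul _).symm
    have g3 : ∀ i, rP r i = (γ i).adjugate * s i := fun i => by
      rw [g2, ← mul_assoc, Matrix.adjugate_mul, g1, one_smul, one_mul]
    refine ⟨fun i => by rw [g2, Matrix.det_mul, g1, one_mul, det_rP hr], fun X hX => ?_,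
      fun i j h h1 h2 => (isReps_rP hr).inj i j ((γ i).adjugate * h * γ j) (by
        simp only [Matrix.det_mul, det_adjugate_two, g1, h1, one_mul])
        (by rw [g3, h2, g2 j, mul_assoc, mul_assoc])⟩
    obtain ⟨i, h, h1, rfl⟩ := (isReps_rP hr).surj X hX
    exact ⟨i, h * (γ i).adjugate, by simp only [Matrix.det_mul, det_adjugate_two, g1, h1, one_mul],
      by rw [g3 i, mul_assoc]⟩
  have s1 : ∀ i, (M : ℤ) ∣ s i 1 0 ∧ (r : ℤ) ∣ s i 1 0 ∧ (r : ℤ) ∣ s i 1 1 := by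
    rintro (_ | i)
    · exact ⟨(Int.natCast_dvd_natCast.2 (dvd_mul_right _ _)).trans hW.c,
        (Int.natCast_dvd_natCast.2 (dvd_mul_left _ _)).trans hW.c, hW.d⟩
    · simp [hs, rP, ut]
  obtain ⟨σ, hσ⟩ := R.perm hg.1
  choose h h1 h2 using hσ
  have cop : IsCoprime (M : ℤ) r :=
    Nat.isCoprime_iff_coprime.2 ((Nat.Prime.coprime_iff_not_dvd hr).2 hM).symm
  have r0 : (r : ℤ) ≠ 0 := Int.natCast_ne_zero.2 hr.ne_zero
  have key : ∀ i, G0 (M * r) (h i) := fun i => by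
    have k : r * h i 1 0 = (s i 1 0 * g 0 0 + s i 1 1 * g 1 0) * s (σ i) 1 1 -
        (s i 1 0 * g 0 1 + s i 1 1 * g 1 1) * s (σ i) 1 0 := by
      have k0 := congrFun (congrFun (h2 i) 1) 0
      have k1 := congrFun (congrFun (h2 i) 1) 1
      have k2 := R.det (σ i)
      simp only [Matrix.mul_apply, Fin.sum_univ_two] at k0 k1
      rw [Matrix.det_fin_two] at k2
      rw [k0, k1, ← k2]
      ring
    refine ⟨h1 i, ?_⟩
    push_cast
    refine cop.mul_dvd (cop.dvd_of_dvd_mul_left (k ▸ ?_)) ((mul_dvd_mul_iff_left r0).1 (k ▸ ?_))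
    · exact ((((s1 i).1.mul_right _).add (hg.2.mul_left _)).mul_right _).sub
        ((s1 _).1.mul_left _)
    · exact (mul_dvd_mul (((s1 i).2.1.mul_right _).add ((s1 i).2.2.mul_right _)) (s1 _).2.2).sub
        (mul_dvd_mul (((s1 i).2.1.mul_right _).add ((s1 i).2.2.mul_right _)) (s1 _).2.1)
  have f : ∀ z, Tl (M * r) r G z + r * sk 2 W G z = ∑ i, r * sk 2 (s i) G z := fun z => by
    rw [Tl_of_dvd (dvd_mul_left _ _), Fintype.sum_option, add_comm]
    rfl
  rw [f, f, ← Equiv.sum_comp σ fun i => (r : ℂ) * sk 2 (s i) G z, Finset.mul_sum]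
  refine Finset.sum_congr rfl fun i _ => ?_
  rw [← hG.sk_mul_eq (key i) (by rw [R.det]; exact_mod_cast hr.pos) hz, ← h2,
    sk_mul _ (hg.1 ▸ one_ne_zero) hz, sk.eq_1 2 g, mul_left_comm,
    mul_div_cancel₀ _ (pow_ne_zero _ (mh_den hg.1 hz))]

theorem eq_zero_of_V (hK : QE K B) (hr : 1 < r) (h0 : c = 1 → coeff 0 B = 0)
    (e : ∀ z : ℂ, 0 < z.im → K z = c * K (r * z)) : B = 0 := by
  have h := hK.unique ((hK.expand r (by omega)).smul c) e
  ext n
  induction n using Nat.strong_induction_on with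
  | _ n ih =>
    have k := congrArg (coeff n) h
    rw [coeff_C_mul, coeff_expand] at k
    rcases n.eq_zero_or_pos with rfl | hn
    · by_contra k0
      simp only [dvd_zero, if_true, Nat.zero_div] at k
      exact k0 (h0 (mul_right_cancel₀ k0 (by rw [← k, one_mul])))
    · rw [k, ih _ (Nat.div_lt_self hn hr)]
      simp

theorem QE.zero (hK : QE K 0) (hz : 0 < z.im) : K z = 0 :=
  hK.eq_of_eq (by simpa using QE.const 0) hz

/-- The sign of the involution is read off from the eigenvalue. -/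
theorem AL.sign (hW : AL (M * r) r W) (hr : r.Prime) (hM : ¬ r ∣ M) (hG : Mk (M * r) 2 G)
    (hc : c ^ 2 = 1) (hU : ∀ z : ℂ, 0 < z.im → Tl (M * r) r G z = c * G z) (hz : 0 < z.im) :
    r * sk 2 W G z = -c * G z := by
  have r0 : (r : ℂ) ≠ 0 := Nat.cast_ne_zero.2 hr.ne_zero
  have m1 := (hW.trace hr hM hG).congr (G' := fun z => c * G z + r * sk 2 W G z)
    fun z hz => by rw [hU z hz]
  obtain ⟨B, hB⟩ := m1.qe
  have := eq_zero_of_V (c := c * r) hB hr.one_lt (fun k => absurd k fun k => ?_) fun z hz => ?_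
  · linear_combination QE.zero (this ▸ hB) hz
  · have k1 : ((r : ℂ)) ^ 2 = 1 := by linear_combination (c * r + 1) * k - (r : ℂ) ^ 2 * hc
    have k2 : r ^ 2 = 1 := by exact_mod_cast k1
    exact hr.one_lt.ne' (by simpa using k2)
  · have k1 := hW.old hr.ne_zero m1 hz
    have k2 := hW.sq hr.ne_zero hG hz
    beta_reduce at k1 ⊢
    rw [← k1]
    rw [sk] at k2
    rw [sk.eq_1 2 W fun z => c * G z + r * sk 2 W G z, add_div, mul_div_assoc, mul_div_assoc, k2,
      ← sk]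
    field_simp
    linear_combination -(r * sk 2 W G z) * hc

theorem coeff_U (h : l ∣ N) (n : ℕ) : coeff n (tS N l A) = coeff (l * n) A := by
  simp [coeff_tS, h]

/-- A form supported on multiples of a prime comes from a lower level. -/
theorem Mk.lower (hl : l.Prime) (hG : Mk (M * l) 2 G) (hA : QE G A)
    (h0 : ∀ n, ¬ l ∣ n → coeff n A = 0) : Mk M 2 (B5.Tl (M * l) l G) := by
  have m1 := hG.Tl hl
  have q1 := qe_Tl (N := M * l) hl hA
  have l0 : (l : ℤ) ≠ 0 := Int.natCast_ne_zero.2 hl.ne_zero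
  have d0 : 0 < (ut l 0 1).det := by simpa [det_ut] using hl.pos
  set K := B5.Tl (M * l) l G
  have e : ∀ z : ℂ, 0 < z.im → G z = sk 2 (ut l 0 1) K z := fun z hz => by
    rw [sk_V]
    refine hA.eq_of_eq (F' := fun z => K (l * z)) ?_ hz
    convert q1.expand l hl.ne_zero using 1
    ext n
    rw [coeff_expand, coeff_U (dvd_mul_left _ _)]
    split_ifs with h
    · rw [Nat.mul_div_cancel' h]
    · exact h0 n h
  have f1 : ∀ g, G0 M g → (l : ℤ) ∣ g 0 1 → ∀ z : ℂ, 0 < z.im → sk 2 g K z = K z := by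
    rintro g ⟨h1, t, h2⟩ ⟨b, h3⟩ z hz
    have l1 : (l : ℂ) ≠ 0 := Nat.cast_ne_zero.2 hl.ne_zero
    obtain ⟨y, hy, rfl⟩ : ∃ y : ℂ, 0 < y.im ∧ z = l * y :=
      ⟨z / l, by simpa using div_pos hz (Nat.cast_pos.2 hl.pos), by field_simp⟩
    have k1 : G0 (M * l) !![g 0 0, b; M * l * t, g 1 1] := ⟨by
      rw [Matrix.det_fin_two, h2, h3] at h1
      rw [Matrix.det_fin_two_of, ← h1]
      ring, by simp⟩
    have k2 : g * ut l 0 1 = ut l 0 1 * !![g 0 0, b; M * l * t, g 1 1] := by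
      ext i j
      fin_cases i <;> fin_cases j <;> simp [ut, Matrix.mul_apply, Fin.sum_univ_two, h2, h3] <;> ring
    rw [← sk_V (k := 2) l (sk 2 g K), ← sk_mul _ d0.ne' hy, k2, sk_mul _ (k1.1 ▸ one_ne_zero) hy,
      ← sk_congr (k1.1 ▸ one_pos) e hy, hG.sk_eq k1 hy, e y hy, sk_V]
  have f2 : ∀ t : ℤ, G0 M !![1, t; 0, 1] ∧ ∀ z : ℂ, 0 < z.im → sk 2 !![1, t; 0, 1] K z = K z :=
    fun t => ⟨⟨by simp, by simp⟩, fun z hz => m1.sk_eq ⟨by simp, by simp⟩ hz⟩
  have f3 : ∀ g, G0 M g → ¬ (l : ℤ) ∣ g 0 0 → ∀ z : ℂ, 0 < z.im → sk 2 g K z = K z :=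
    fun g hg h z hz => by
      obtain ⟨t, ht⟩ := mh_solve hl (x := g 0 1) (y := g 0 0) fun k => absurd k h
      have k : g = g * !![1, -t; 0, 1] * !![1, t; 0, 1] := by simp [mul_assoc, ← Matrix.one_fin_two]
      rw [k, sk_mul _ (by simp) hz, sk_congr (by simp) (f1 _ (g0_mul hg (f2 (-t)).1) ?_) hz,
        (f2 t).2 z hz]
      convert ht using 1
      simp [Matrix.mul_apply, Fin.sum_univ_two]
      ring
  refine ⟨m1.hol, fun g hg z hz => ?_, m1.bd⟩
  rw [mul_comm, ← div_eq_iff (pow_ne_zero _ (mh_den hg.1 hz)), ← sk]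
  by_cases h : (l : ℤ) ∣ g 0 0
  · have k : g = !![1, -1; 0, 1] * (!![1, 1; 0, 1] * g) := by
      rw [← mul_assoc, show !![(1 : ℤ), -1; 0, 1] * !![1, 1; 0, 1] = 1 by
        simp [← Matrix.one_fin_two], one_mul]
    have k1 := g0_mul (f2 1).1 hg
    rw [k, sk_mul _ (k1.1.trans_ne one_ne_zero) hz,
      sk_congr (one_pos.trans_eq k1.1.symm) (f2 (-1)).2 hz]
    refine f3 _ k1 (fun k2 => (Nat.prime_iff_prime_int.1 hl).not_dvd_one ?_) z hz
    have k3 : (l : ℤ) ∣ g 1 0 := (dvd_add_right h).1 (by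
      simpa [Matrix.mul_apply, Fin.sum_univ_two] using k2)
    rw [← hg.1, Matrix.det_fin_two]
    exact (h.mul_right _).sub (k3.mul_left _)
  · exact f3 g hg h z hz

/-- A form supported on multiples of a prime that does not divide the level vanishes. -/
theorem Mk.kill (hM0 : M ≠ 0) (hl : l.Prime) (hM : ¬ l ∣ M) (hG : Mk M 2 G) (hA : QE G A)
    (A0 : coeff 0 A = 0) (h0 : ∀ n, ¬ l ∣ n → coeff n A = 0) : A = 0 := by
  have l0 : (l : ℂ) ≠ 0 := Nat.cast_ne_zero.2 hl.ne_zero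
  have step : ∀ {G : ℂ → ℂ} {A : ℂ⟦X⟧}, Mk M 2 G → QE G A → (∀ n, ¬ l ∣ n → coeff n A = 0) →
      Mk M 2 fun z => G (l * z) := fun {G A} hG hA h0 =>
    (((hG.Tl hl).sub ((hG.of_dvd (dvd_mul_right M l)).lower hl hA h0)).smul (l : ℂ)⁻¹).congr
      fun z _ => by
        rw [Tl_eq hl, Tl_eq hl, if_neg hM, if_pos (dvd_mul_left _ _)]
        field_simp
        ring
  have key : ∀ j : ℕ, Mk M 2 (fun z => G ((l ^ j : ℕ) * z)) := fun j => by
    induction j with
    | zero => simpa using hG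
    | succ j ih =>
      refine (step ih (hA.expand _ (pow_ne_zero j hl.ne_zero)) fun n hn => ?_).congr fun z _ => ?_
      · rw [coeff_expand]
        split_ifs with h
        · exact h0 _ fun k => hn (k.trans (Nat.div_dvd_of_dvd h))
        · rfl
      · rw [pow_succ, Nat.cast_mul, mul_assoc]
  obtain ⟨μ, hμ⟩ := idx_sq hM0
  have p0 := pow_ne_zero μ hl.ne_zero
  have q1 := hA.expand _ p0
  have e := q1.unique (by simpa using QE.const 0 : QE (fun _ => 0) 0) fun z hz =>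
    Mk.sturm (m := μ + 1) (k := 2) (z := z) (G := fun z => G ((l ^ μ : ℕ) * z)) hμ (key μ) q1
      (by omega) (fun n hn => ?_) hz
  · ext n
    have := congrArg (coeff (l ^ μ * n)) e
    rwa [coeff_expand, if_pos (dvd_mul_right _ _), Nat.mul_div_cancel_left _ p0.bot_lt] at this
  · rw [coeff_expand]
    split_ifs with h
    · rw [Nat.eq_zero_of_dvd_of_lt h ((Nat.lt_succ_iff.1 hn).trans_lt
        (Nat.lt_pow_self hl.one_lt)), Nat.zero_div, A0]
    · rfl

/-- The part of a series with indices prime to `S`. -/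
noncomputable def piS (S : ℕ) (A : ℂ⟦X⟧) : ℂ⟦X⟧ :=
  PowerSeries.mk fun n => if n.Coprime S then coeff n A else 0

theorem Mk.exists_pi (hS : S ≠ 0) (hG : Mk N 2 G) (hA : QE G A) :
    ∃ H, Mk (N * S ^ 2) 2 H ∧ QE H (piS S A) := by
  induction S using induction_on_primes with
  | zero => exact absurd rfl hS
  | one => exact ⟨G, by simpa using hG, by convert hA using 1; ext n; simp [piS]⟩
  | prime_mul r a hr ih =>
    obtain ⟨H, h1, h2⟩ := ih (right_ne_zero_of_mul hS)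
    have h3 := h1.of_dvd (dvd_mul_right _ r)
    refine ⟨fun z => H z - B5.Tl (N * a ^ 2 * r) r H (r * z), ?_, ?_⟩
    · convert h1.of_dvd (dvd_mul_right _ (r * r)) |>.sub (((h3.Tl hr).V hr.ne_zero).of_dvd
        (by rw [mul_assoc])) using 1
      ring
    · convert h2.sub ((qe_Tl (N := N * a ^ 2 * r) hr h2).expand r hr.ne_zero) using 1
      ext n
      rw [map_sub, coeff_expand, coeff_U (dvd_mul_left _ _)]
      by_cases h : r ∣ n
      · rw [if_pos h, Nat.mul_div_cancel' h, sub_self, piS, coeff_mk, if_neg fun k => ?_]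
        exact hr.coprime_iff_not_dvd.1 (Nat.Coprime.coprime_mul_right_right k).symm h
      · simp only [piS, coeff_mk, h, Nat.coprime_mul_iff_right, if_false, sub_zero,
          eq_true (hr.coprime_iff_not_dvd.2 h).symm, true_and]

theorem Mk.drop (hN : N ≠ 0) (hS : S ≠ 0) (hl : l.Prime) (h1 : ¬ l ∣ N) (h2 : ¬ l ∣ S)
    (hG : Mk N 2 G) (hA : QE G A) (A0 : coeff 0 A = 0)
    (h0 : ∀ n, n.Coprime (l * S) → coeff n A = 0) (n : ℕ) (hn : n.Coprime S) : coeff n A = 0 := by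
  obtain ⟨H, m1, q1⟩ := hG.exists_pi hS hA
  have := m1.kill (by positivity) hl (fun k => (hl.dvd_mul.1 k).elim h1 fun k =>
    h2 (hl.dvd_of_dvd_pow k)) q1 (by simp [piS, A0]) fun n hn => by
      rw [piS, coeff_mk]
      split_ifs with k
      · exact h0 n ((hl.coprime_iff_not_dvd.2 hn).symm.mul_right k)
      · rfl
  simpa only [piS, coeff_mk, if_pos hn, map_zero] using congrArg (coeff n) this

theorem AL.drop (hW : AL (M * r) r W) (hM0 : M ≠ 0) (hS : S ≠ 0) (hr : r.Prime) (h1 : ¬ r ∣ M)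
    (h2 : ¬ r ∣ S) (hG : Mk (M * r) 2 G) (hA : QE G A) (A0 : coeff 0 A = 0) (hw : w ≠ 0)
    (hWG : ∀ z : ℂ, 0 < z.im → sk 2 W G z = w * G z)
    (h0 : ∀ n, n.Coprime (r * S) → coeff n A = 0) (n : ℕ) (hn : n.Coprime S) : coeff n A = 0 := by
  have r0 : (r : ℂ) ≠ 0 := Nat.cast_ne_zero.2 hr.ne_zero
  obtain ⟨H, m1, q1⟩ := hG.exists_pi hS hA
  have s1 : ∀ n, ¬ r ∣ n → coeff n (piS S A) = 0 := fun n hn => by
    rw [piS, coeff_mk]
    split_ifs with k
    · exact h0 n ((hr.coprime_iff_not_dvd.2 hn).symm.mul_right k)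
    · rfl
  have nd : ¬ r ∣ M * S ^ 2 := fun k => (hr.dvd_mul.1 k).elim h1 fun k => h2 (hr.dvd_of_dvd_pow k)
  rw [mul_right_comm] at m1
  have m2 := m1.lower hr q1 s1
  have q2 := qe_Tl (N := M * S ^ 2 * r) hr q1
  obtain ⟨D, m3, q3⟩ := ((hW.trace hr h1 hG).congr (G' := fun z => Tl (M * r) r G z + r * w * G z)
    fun z hz => by rw [hWG z hz, mul_assoc]).exists_pi hS ((qe_Tl hr hA).add (hA.smul _))
  have q4 : QE (fun z => (r * w)⁻¹ * (D z - Tl (M * S ^ 2 * r) r H z)) (piS S A) := by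
    convert (q3.sub q2).smul (r * w)⁻¹ using 1
    ext n
    rw [coeff_C_mul, map_sub, coeff_U (dvd_mul_left _ _)]
    simp only [piS, coeff_mk, map_add, coeff_U (dvd_mul_left r M), coeff_C_mul,
      Nat.coprime_mul_iff_left, eq_true (hr.coprime_iff_not_dvd.2 h2), true_and]
    split_ifs
    · field_simp
      ring
    · simp
  have := ((m3.sub m2).smul _).kill (by positivity) hr nd q4 (by simp [piS, A0]) s1
  simpa only [piS, coeff_mk, if_pos hn, map_zero] using congrArg (coeff n) this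

/-- An eigenform of all the involutions without coefficients prime to `S` vanishes. -/
theorem Mk.zero_of_coprime (hN : Squarefree N) (hS : S ≠ 0) (hG : Mk N 2 G) (hA : QE G A)
    (A0 : coeff 0 A = 0) (hW : ∀ r : ℕ, r.Prime → r ∣ N → ∃ (W : MZ) (w : ℂ), AL N r W ∧ w ≠ 0 ∧
      ∀ z : ℂ, 0 < z.im → sk 2 W G z = w * G z)
    (h0 : ∀ n, n.Coprime S → coeff n A = 0) : A = 0 := by
  induction S using induction_on_primes with
  | zero => exact absurd rfl hS
  | one => exact PowerSeries.ext fun n => h0 n (Nat.coprime_one_right n)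
  | prime_mul l a hl ih =>
    have a0 := right_ne_zero_of_mul hS
    refine ih a0 ?_
    by_cases h : l ∣ a
    · exact fun n hn => h0 n ((hn.coprime_dvd_right h).mul_right hn)
    by_cases h1 : l ∣ N
    · obtain ⟨W, w, k1, k2, k3⟩ := hW l hl h1
      obtain ⟨M, rfl⟩ := exists_eq_mul_left_of_dvd h1
      exact k1.drop (left_ne_zero_of_mul hN.ne_zero) a0 hl (fun k => hl.not_isUnit
        (hN l (mul_dvd_mul_right k l))) h hG hA A0 k2 k3 h0
    · exact hG.drop hN.ne_zero a0 hl h1 h hA A0 h0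

theorem coeff_zero_of_eigen {e : ℕ → ℂ} (A0 : coeff 0 A = 0) (A1 : coeff 1 A = 0)
    (hT : ∀ l : ℕ, l.Prime → ¬ l ∣ S → ∀ n, coeff n (tS N l A) = e l * coeff n A) (n : ℕ)
    (hn : n.Coprime S) : coeff n A = 0 := by
  induction n using Nat.strong_induction_on with
  | _ n ih =>
    rcases n.eq_zero_or_pos with rfl | n0
    · exact A0
    by_cases n1 : n = 1
    · rwa [n1]
    obtain ⟨l, hl, m, rfl⟩ := Nat.exists_prime_and_dvd n1
    have m0 : 0 < m := Nat.pos_of_mul_pos_left n0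
    have k := hT l hl (hl.coprime_iff_not_dvd.1 hn.coprime_mul_right) m
    have m1 : m < l * m := lt_mul_left m0 hl.one_lt
    rw [coeff_tS, ih m m1 hn.coprime_mul_left] at k
    split_ifs at k with h
    · rw [ih _ ((Nat.div_le_self _ _).trans_lt m1)
        (hn.coprime_mul_left.coprime_dvd_left (Nat.div_dvd_of_dvd h.1))] at k
      simpa using k
    · simpa using k

/-- Strong multiplicity one. -/
theorem mult_one_S {f g : ℂ → ℂ} {e : ℕ → ℂ} (hN : Squarefree N) (hS : S ≠ 0) (hf : Mk N 2 f)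
    (hg : Mk N 2 g) (qf : QE f A) (qg : QE g B) (A0 : coeff 0 A = 0) (B0 : coeff 0 B = 0)
    (A1 : coeff 1 A = 1)
    (Tf : ∀ l : ℕ, l.Prime → ¬ l ∣ S → ∀ z : ℂ, 0 < z.im → Tl N l f z = e l * f z)
    (Tg : ∀ l : ℕ, l.Prime → ¬ l ∣ S → ∀ z : ℂ, 0 < z.im → Tl N l g z = e l * g z)
    (hW : ∀ r : ℕ, r.Prime → r ∣ N → ∃ (W : MZ) (w : ℂ), AL N r W ∧ w ≠ 0 ∧
      (∀ z : ℂ, 0 < z.im → sk 2 W f z = w * f z) ∧ ∀ z : ℂ, 0 < z.im → sk 2 W g z = w * g z)
    (hz : 0 < z.im) : g z = coeff 1 B * f z := by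
  have q1 := qg.sub (qf.smul (coeff 1 B))
  have c0 : coeff 0 (B - C (coeff 1 B) * A) = 0 := by
    rw [map_sub, coeff_C_mul, A0, B0, mul_zero, sub_zero]
  have := (hg.sub (hf.smul (coeff 1 B))).zero_of_coprime hN hS q1 c0
    (fun r hr h => ?_) (coeff_zero_of_eigen (N := N) (e := e) c0 (by simp [A1])
      fun l hl h n => ?_)
  · rw [this] at q1
    exact sub_eq_zero.1 (QE.zero (K := fun z => g z - coeff 1 B * f z) q1 hz)
  · obtain ⟨W, w, k1, k2, k3, k4⟩ := hW r hr h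
    refine ⟨W, w, k1, k2, fun z hz => ?_⟩
    rw [sk, sub_div, mul_div_assoc, ← sk, ← sk, k3 z hz, k4 z hz]
    ring
  · have k1 := congrArg (coeff n) ((qe_Tl hl qf).unique (qf.smul _) (Tf l hl h))
    have k2 := congrArg (coeff n) ((qe_Tl hl qg).unique (qg.smul _) (Tg l hl h))
    simp only [coeff_tS, map_sub, coeff_C_mul] at k1 k2 ⊢
    split_ifs at k1 k2 ⊢ <;> linear_combination k2 - coeff 1 B * k1

variable {E : WeierstrassCurve ℚ}

theorem md_cu (D : MD E N) : Cu (cf D.f) := fun _ hg =>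
  haveI : NeZero N := ⟨D.N0⟩
  cf_cusp D.f hg

theorem md_mk (D : MD E N) : Mk N 2 (cf D.f) :=
  ⟨D.qe.hol, fun _ hg _ hz => cf_act D.f hg.1 hg.2 hz, fun g hg => .of_tendsto (md_cu D g hg)⟩

theorem md_Tl (D : MD E N) (hl : l.Prime) (hU : l ∣ N → ∀ n, D.c (l * n) = D.c l * D.c n)
    (hz : 0 < z.im) : Tl N l (cf D.f) z = D.c l * cf D.f z := by
  refine (qe_Tl hl D.qe).eq_of_eq (F' := fun z => D.c l * cf D.f z) ?_ hz
  convert D.qe.smul (D.c l) using 1
  ext n
  rw [coeff_tS, coeff_C_mul]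
  simp only [MD.S, coeff_mk]
  by_cases h : l ∣ N
  · simp [h, hU h n]
  · simp only [h, not_false_eq_true, and_true]
    exact_mod_cast D.hT l hl h n

/-- The sign of the involution on the form of a modular parametrisation. -/
theorem md_sign (D : MD E (M * r)) (hW : AL (M * r) r W) (hr : r.Prime) (hM : ¬ r ∣ M)
    (hU : ∀ n, D.c (r * n) = D.c r * D.c n) (hc : D.c r ^ 2 = 1) (hz : 0 < z.im) :
    r * sk 2 W (cf D.f) z = -D.c r * cf D.f z :=
  hW.sign hr hM (md_mk D) (by exact_mod_cast hc) (fun _ hz => md_Tl D hr (fun _ => hU) hz) hz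

end Pool.Agent.B5
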