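import Pool.Agent.Lib.MP_696deb_nt.B5.MX

/-! Strong multiplicity one for newforms of squarefree level. -/

set_option autoImplicit false

open PowerSeries Filter Topology

namespace Pool.Agent.B5

open Pool.Agent.Lib.MP_696deb_nt Pool.Agent.B4.GE Pool.Agent.Lib.MP_696deb_nt.B4

variable {N M l p r S : ℕ} {f g G H : ℂ → ℂ} {A B : ℂ⟦X⟧} {W : MZ} {z c : ℂ} {e : ℕ → ℂ}

theorem Cu.lim_sk (hG : Cu G) (hW : 0 < W.det) : Tendsto (sk 2 W G) atI (𝓝 0) := by
  obtain ⟨a, b, d, h, h1, h2, rfl⟩ := exists_ut hW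
  rw [Matrix.det_mul, h2, one_mul, det_ut] at hW
  have a0 : (0 : ℝ) < a := by
    exact_mod_cast Nat.pos_of_ne_zero (by rintro rfl; simp at hW)
  have d0 : (0 : ℝ) < d := by exact_mod_cast (by omega : 0 < d)
  have := ((hG h h2).comp (tendsto_affine (div_pos a0 d0) (b / d))).const_mul ((d : ℂ) ^ 2)⁻¹
  rw [mul_zero] at this
  refine this.congr' (ev_pos.mono fun z hz => ?_)
  have e : act (ut a b d) z = ((a : ℝ) / d : ℝ) * z + b / d := by
    simp [ut, act_of, mob]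
    ring
  rw [sk_mul _ (by rw [det_ut]; exact hW.ne') hz, sk.eq_1 2 (ut a b d), div_eq_inv_mul (sk _ _ _ _),
    e]
  simp [ut, den, sk]

theorem Cu.of_sk (hG : Cu G) (hW : 0 < W.det) : Cu (sk 2 W G) := fun g hg =>
  (hG.lim_sk (W := W * g) (by rwa [Matrix.det_mul, hg, mul_one])).congr'
    (ev_pos.mono fun _ hz => sk_mul W (hg.trans_ne one_ne_zero) hz)

theorem Cu.V (hG : Cu G) (hr : r ≠ 0) : Cu fun z => G (r * z) :=
  (hG.of_sk (W := ut r 0 1) (by simpa [det_ut] using Nat.pos_of_ne_zero hr)).congr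
    fun z _ => (sk_V r G z).symm

theorem Cu.sub (hG : Cu G) (hH : Cu H) : Cu fun z => G z - H z := fun g hg => by
  simpa only [sub_div, sub_zero] using (hG g hg).sub (hH g hg)

theorem Cu.zero_coeff (h : Cu G) (q : QE G A) : coeff 0 A = 0 :=
  tendsto_nhds_unique q.tendsto (by
    simpa only [act_one, den_one, one_pow, div_one] using h 1 Matrix.det_one)

theorem Cu.exists_pi (hS : S ≠ 0) (hG : Cu G) (hA : QE G A) : ∃ H, Cu H ∧ QE H (piS S A) := by
  induction S using induction_on_primes with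
  | zero => exact absurd rfl hS
  | one => exact ⟨G, hG, by convert hA using 1; ext n; simp [piS]⟩
  | prime_mul r a hr ih =>
    obtain ⟨H, h1, h2⟩ := ih (right_ne_zero_of_mul hS)
    refine ⟨_, h1.sub ((h1.Tl (N := r) hr).V hr.ne_zero), ?_⟩
    convert h2.sub ((qe_Tl (N := r) hr h2).expand r hr.ne_zero) using 1
    ext n
    rw [map_sub, coeff_expand, coeff_U dvd_rfl]
    by_cases h : r ∣ n
    · rw [if_pos h, Nat.mul_div_cancel' h, sub_self, piS, coeff_mk, if_neg fun k => ?_]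
      exact hr.coprime_iff_not_dvd.1 (Nat.Coprime.coprime_mul_right_right k).symm h
    · simp only [piS, coeff_mk, h, Nat.coprime_mul_iff_right, if_false, sub_zero,
        eq_true (hr.coprime_iff_not_dvd.2 h).symm, true_and]

/-- A form with the wrong sign cannot have the coefficients of a newform. -/
theorem AL.wrong (hW : AL (M * p) p W) (hM0 : M ≠ 0) (hS : S ≠ 0) (hp : p.Prime) (h1 : ¬ p ∣ M)
    (h2 : ¬ p ∣ S) (hf : Mk (M * p) 2 f) (cf : Cu f) (hg : Mk (M * p) 2 g) (cg : Cu g)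
    (qf : QE f A) (qg : QE g B) (hc : c ^ 2 = 1)
    (hU : ∀ z : ℂ, 0 < z.im → Tl (M * p) p f z = c * f z)
    (hWg : ∀ z : ℂ, 0 < z.im → p * sk 2 W g z = c * g z)
    (h0 : ∀ n, n.Coprime (p * S) → coeff n A = coeff n B) : coeff 1 A = 0 := by
  have nd : ¬ p ∣ M * S ^ 2 := fun k => (hp.dvd_mul.1 k).elim h1 fun k => h2 (hp.dvd_of_dvd_pow k)
  have n0 : M * S ^ 2 ≠ 0 := by positivity
  have cp : ∀ n, (p * n).Coprime S ↔ n.Coprime S := fun n => by
    simp only [Nat.coprime_mul_iff_left, eq_true (hp.coprime_iff_not_dvd.2 h2), true_and]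
  have uA : ∀ n, coeff (p * n) A = c * coeff n A := fun n => by
    simpa only [coeff_U (dvd_mul_left p M), coeff_C_mul] using
      congrArg (coeff n) ((qe_Tl hp qf).unique (qf.smul c) hU)
  obtain ⟨H, m1, q1⟩ := (hf.sub hg).exists_pi hS (qf.sub qg)
  rw [mul_right_comm] at m1
  have s1 : ∀ n, ¬ p ∣ n → coeff n (piS S (A - B)) = 0 := fun n hn => by
    rw [piS, coeff_mk]
    split_ifs with k
    · rw [map_sub, h0 n ((hp.coprime_iff_not_dvd.2 hn).symm.mul_right k), sub_self]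
    · rfl
  have m2 := m1.lower hp q1 s1
  have q2 := qe_Tl (N := M * S ^ 2 * p) hp q1
  obtain ⟨D, m3, q3⟩ := ((hW.trace hp h1 hg).congr (G' := fun z => Tl (M * p) p g z + c * g z)
    fun z hz => by rw [hWg z hz]).exists_pi hS ((qe_Tl hp qg).add (qg.smul _))
  obtain ⟨s, cs, qs⟩ := (cf.add cg).exists_pi hS (qf.add qg)
  have ms : Mk (M * S ^ 2) 2 s := ((m2.add m3).smul c).congr fun z hz => qs.eq_of_eq (by
    convert (q2.add q3).smul c using 1
    ext n
    simp only [coeff_C_mul, map_add, coeff_U (dvd_mul_left p _), piS, coeff_mk, cp, map_sub, uA]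
    split_ifs
    · linear_combination -(coeff n A + coeff n B) * hc
    · simp) hz
  have q4 := ((qe_Tl (N := M * S ^ 2) hp qs).add q2).sub (qs.smul c)
  have k : ∀ n, coeff n (tS (M * S ^ 2) p (piS S (A + B)) + tS (M * S ^ 2 * p) p (piS S (A - B)) -
      C c * piS S (A + B)) = c * coeff n (piS S (A - B)) +
        if p ∣ n then p * coeff (n / p) (piS S (A + B)) else 0 := fun n => by
    rw [map_sub, map_add, coeff_U (dvd_mul_left p _), coeff_tS, coeff_C_mul]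
    simp only [nd, not_false_eq_true, and_true]
    simp only [piS, coeff_mk, cp, map_sub, map_add, uA]
    split_ifs <;> ring
  have z4 := (((ms.Tl hp).add m2).sub (ms.smul c)).kill n0 hp nd q4 (by
    rw [k, Nat.zero_div, cs.zero_coeff qs, piS, coeff_mk, map_sub, cf.zero_coeff qf,
      cg.zero_coeff qg]
    simp) fun n hn => by rw [k, s1 n hn, if_neg hn, mul_zero, add_zero]
  have hT : ∀ z : ℂ, 0 < z.im → Tl (M * S ^ 2) p s z = c * (p + 1) * s z := fun z hz => by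
    refine (qe_Tl hp qs).eq_of_eq (F' := fun z => c * (p + 1) * s z) ?_ hz
    convert qs.smul (c * (p + 1)) using 1
    ext n
    have k1 := congrArg (coeff n) z4
    have k2 := k (p * n)
    rw [z4, if_pos (dvd_mul_right _ _), Nat.mul_div_cancel_left _ hp.pos, map_zero] at k2
    rw [map_sub, map_add, coeff_U (dvd_mul_left p _), coeff_C_mul, map_zero] at k1
    rw [coeff_C_mul]
    linear_combination k1 + c * k2 + coeff (p * n) (piS S (A - B)) * hc
  have s0 : ∀ z : ℂ, 0 < z.im → s z = 0 := fun z hz => by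
    by_contra k
    have := ms.eigen_lt n0 cs hp nd hT hz k
    rw [norm_mul, (pow_eq_one_iff_of_nonneg (norm_nonneg c) two_ne_zero).1
      (by rw [← norm_pow, hc, norm_one]), one_mul, ← Nat.cast_succ, Complex.norm_natCast,
      Nat.cast_succ] at this
    exact this.false
  have := congrArg (coeff 1) (qs.unique (QE.const 0) s0)
  rw [piS, coeff_mk, if_pos (Nat.coprime_one_left _), map_add, ← h0 1 (Nat.coprime_one_left _),
    map_zero, map_zero] at this
  exact add_self_eq_zero.1 this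

/-- Cusp forms with given eigenvalues outside `S`. -/
structure Eg (N S : ℕ) (e : ℕ → ℂ) (g : ℂ → ℂ) : Prop where
  mk2 : Mk N 2 g
  cu : Cu g
  eig : ∀ l : ℕ, l.Prime → ¬ l ∣ S → ∀ z : ℂ, 0 < z.im → Tl N l g z = e l * g z

theorem Tl_add (hl : l.Prime) (G H : ℂ → ℂ) (z : ℂ) :
    Tl N l (fun z => G z + H z) z = Tl N l G z + Tl N l H z := by
  simp only [Tl_eq hl, Finset.sum_add_distrib]
  split_ifs <;> ring

theorem Eg.add (h : Eg N S e f) (h' : Eg N S e g) : Eg N S e fun z => f z + g z :=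
  ⟨h.mk2.add h'.mk2, h.cu.add h'.cu, fun l hl k z hz => by
    rw [Tl_add hl, h.eig l hl k z hz, h'.eig l hl k z hz, mul_add]⟩

theorem Eg.smul (h : Eg N S e f) (c : ℂ) : Eg N S e fun z => c * f z :=
  ⟨h.mk2.smul c, h.cu.smul c, fun l hl k z hz => by rw [Tl_smul, h.eig l hl k z hz, mul_left_comm]⟩

theorem Eg.nrm (h : Eg N S e f) (hNS : N ∣ S) (hW : Nrm N W) : Eg N S e (sk 2 W f) :=
  ⟨h.mk2.nrm hW, h.cu.of_sk hW.pos, fun l hl k z hz => by
    rw [← hW.sk_Tl hl (fun k' => k (k'.trans hNS)) h.mk2 hz, sk_congr hW.pos (h.eig l hl k) hz, sk,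
      sk, mul_div_assoc]⟩

theorem Eg.coeff (h : Eg N S e f) (h' : Eg N S e g) (qf : QE f A) (qg : QE g B)
    (h1 : coeff 1 A = coeff 1 B) (n : ℕ) (hn : n.Coprime S) : coeff n A = coeff n B := by
  have h2 := h.add (h'.smul (-1))
  have q := qf.add (qg.smul (-1))
  have := coeff_zero_of_eigen (N := N) (e := e) (h2.cu.zero_coeff q) (by simp [h1])
    (fun l hl k n => by
      simpa only [coeff_C_mul] using
        congrArg (PowerSeries.coeff n) ((qe_Tl hl q).unique (q.smul _) (h2.eig l hl k))) n hn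
  rw [map_add, coeff_C_mul] at this
  linear_combination this

theorem sqf_split (hN : Squarefree N) (hp : p.Prime) (h : p ∣ N) :
    ∃ M, N = M * p ∧ M ≠ 0 ∧ ¬ p ∣ M := by
  obtain ⟨M, rfl⟩ := exists_eq_mul_left_of_dvd h
  exact ⟨M, rfl, left_ne_zero_of_mul hN.ne_zero, fun k => hp.not_isUnit
    (hN p (mul_dvd_mul_right k p))⟩

theorem sk_cmul (k : ℕ) (V : MZ) (c : ℂ) (G : ℂ → ℂ) (z : ℂ) :
    sk k V (fun z => c * G z) z = c * sk k V G z := by rw [sk, sk, mul_div_assoc]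

theorem AL.nrm' (hW : AL N r W) (h : r ∣ N) (hr : r ≠ 0) : Nrm N W := by
  obtain ⟨M, rfl⟩ := exists_eq_mul_left_of_dvd h
  exact hW.nrm hr

theorem AL.sq' {k : ℕ} (hW : AL N r W) (h : r ∣ N) (hr : r ≠ 0) (hG : Mk N k G) (hz : 0 < z.im) :
    sk k W (sk k W G) z = G z / r ^ k := by
  obtain ⟨M, rfl⟩ := exists_eq_mul_left_of_dvd h
  exact hW.sq hr hG hz

theorem AL.comm' {k s : ℕ} {W' : MZ} (hW : AL N r W) (hW' : AL N s W') (h : r * s ∣ N)
    (h0 : r * s ≠ 0) (hG : Mk N k G) (hz : 0 < z.im) :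
    sk k W (sk k W' G) z = sk k W' (sk k W G) z := by
  obtain ⟨M, rfl⟩ := exists_eq_mul_left_of_dvd h
  exact hW.comm hW' h0 hG hz

theorem AL.sign' (hW : AL N r W) (hN : Squarefree N) (hr : r.Prime) (h : r ∣ N) (hG : Mk N 2 G)
    (hc : c ^ 2 = 1) (hU : ∀ z : ℂ, 0 < z.im → Tl N r G z = c * G z) (hz : 0 < z.im) :
    r * sk 2 W G z = -c * G z := by
  obtain ⟨M, rfl, -, k⟩ := sqf_split hN hr h
  exact hW.sign hr k hG hc hU hz

theorem sqf_AL (hN : Squarefree N) : ∃ W : ℕ → MZ, ∀ p : ℕ, p.Prime → p ∣ N → AL N p (W p) := by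
  have : ∀ p : ℕ, ∃ W, p.Prime → p ∣ N → AL N p W := fun p => by
    by_cases h : p.Prime ∧ p ∣ N
    · obtain ⟨M, rfl, -, k⟩ := sqf_split hN h.1 h.2
      obtain ⟨W, hW⟩ := exists_AL (h.1.coprime_iff_not_dvd.2 k).symm
      exact ⟨W, fun _ _ => hW⟩
    · exact ⟨1, fun h1 h2 => absurd ⟨h1, h2⟩ h⟩
  choose W hW using this
  exact ⟨W, hW⟩

/-- Reduction to eigenforms of all the involutions. -/
theorem Eg.split (hN : Squarefree N) (hNS : N ∣ S) {W : ℕ → MZ}
    (hW : ∀ p : ℕ, p.Prime → p ∣ N → AL N p (W p)) {P : (ℂ → ℂ) → Prop}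
    (h1 : ∀ f g h : ℂ → ℂ, P f → P g → (∀ z : ℂ, 0 < z.im → h z = f z + g z) → P h)
    (h2 : ∀ g, Eg N S e g → (∀ p : ℕ, p.Prime → p ∣ N → ∃ c : ℂ, c ^ 2 = 1 ∧
      ∀ z : ℂ, 0 < z.im → p * sk 2 (W p) g z = c * g z) → P g) (hg : Eg N S e g) : P g := by
  have key : ∀ s : Finset ℕ, ∀ g, Eg N S e g → (∀ p : ℕ, p.Prime → p ∣ N → p ∉ s → ∃ c : ℂ,
      c ^ 2 = 1 ∧ ∀ z : ℂ, 0 < z.im → p * sk 2 (W p) g z = c * g z) → P g := fun s => by
    induction s using Finset.induction_on with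
    | empty => exact fun g hg h => h2 g hg fun p hp k => h p hp k (by simp)
    | insert r s hr ih =>
      intro g hg h
      by_cases k : r.Prime ∧ r ∣ N
      swap
      · exact ih g hg fun p hp k1 k2 => h p hp k1 fun k3 =>
          (Finset.mem_insert.1 k3).elim (fun k4 => k (k4 ▸ ⟨hp, k1⟩)) k2
      have r0 : (r : ℂ) ≠ 0 := Nat.cast_ne_zero.2 k.1.ne_zero
      have w := hW r k.1 k.2
      have one : ∀ c : ℂ, c ^ 2 = 1 → P fun z => 2⁻¹ * (g z + c * r * sk 2 (W r) g z) := by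
        intro c hc
        refine ih _ ((hg.add ((hg.nrm hNS (w.nrm' k.2 k.1.ne_zero)).smul _)).smul _)
          fun p hp k1 k2 => ?_
        have lin : ∀ (V : MZ) (z : ℂ), sk 2 V (fun z => 2⁻¹ * (g z + c * r * sk 2 (W r) g z)) z =
            2⁻¹ * (sk 2 V g z + c * r * sk 2 V (sk 2 (W r) g) z) := fun V z => by
          simp only [sk.eq_1 2 V]
          ring
        by_cases k3 : p = r
        · subst k3
          refine ⟨c, hc, fun z hz => ?_⟩
          rw [lin, w.sq' k1 hp.ne_zero hg.mk2 hz]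
          field_simp
          linear_combination -(p * sk 2 (W p) g z) * hc
        · obtain ⟨c', hc', k4⟩ := h p hp k1 (by simp [k2, k3])
          refine ⟨c', hc', fun z hz => ?_⟩
          have k5 := sk_congr (k := 2) (w.pos k.1.ne_zero) k4 hz
          rw [sk_cmul, sk_cmul] at k5
          rw [lin, (hW p hp k1).comm' w
            (((Nat.coprime_primes hp k.1).2 k3).mul_dvd_of_dvd_of_dvd k1 k.2)
            (mul_ne_zero hp.ne_zero k.1.ne_zero) hg.mk2 hz]
          linear_combination 2⁻¹ * k4 z hz + 2⁻¹ * c * r * k5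
      exact h1 _ _ _ (one 1 (one_pow 2)) (one (-1) (by norm_num)) fun z _ => by ring
  exact key N.primeFactors g hg fun p hp k1 k2 =>
    absurd (Nat.mem_primeFactors.2 ⟨hp, k1, hN.ne_zero⟩) k2

/-- Eigenforms of all the involutions are multiples of a reference form with the right sign at
the primes that are not new. -/
theorem Eg.prop (hN : Squarefree N) (hS : S ≠ 0) {W : ℕ → MZ}
    (hW : ∀ p : ℕ, p.Prime → p ∣ N → AL N p (W p)) (hf : Eg N S e f) (hg : Eg N S e g)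
    (qf : QE f A) (A1 : PowerSeries.coeff 1 A = 1)
    (h : ∀ p : ℕ, p.Prime → p ∣ N → ∃ c : ℂ, c ^ 2 = 1 ∧
      (∀ z : ℂ, 0 < z.im → p * sk 2 (W p) g z = c * g z) ∧
      ((∀ z : ℂ, 0 < z.im → p * sk 2 (W p) f z = c * f z) ∨
        ∀ z : ℂ, 0 < z.im → Tl N p f z = c * f z)) :
    ∃ κ : ℂ, ∀ z : ℂ, 0 < z.im → g z = κ * f z := by
  obtain ⟨B, qg⟩ := hg.mk2.qe
  have ne : ∀ {p : ℕ} {c : ℂ}, p.Prime → c ^ 2 = 1 → c / p ≠ 0 := fun hp hc =>
    div_ne_zero (fun k => by simp [k] at hc) (Nat.cast_ne_zero.2 hp.ne_zero)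
  have dv : ∀ {p : ℕ} {c : ℂ} {G : ℂ → ℂ}, p.Prime →
      (∀ z : ℂ, 0 < z.im → p * sk 2 (W p) G z = c * G z) →
      ∀ z : ℂ, 0 < z.im → sk 2 (W p) G z = c / p * G z := fun hp k z hz => by
    rw [div_mul_eq_mul_div, ← k z hz, mul_div_cancel_left₀ _ (Nat.cast_ne_zero.2 hp.ne_zero)]
  by_cases B1 : PowerSeries.coeff 1 B = 0
  · refine ⟨0, fun z hz => ?_⟩
    have := hg.mk2.zero_of_coprime hN hS qg (hg.cu.zero_coeff qg) (fun p hp k => by
      obtain ⟨c, hc, k1, -⟩ := h p hp k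
      exact ⟨W p, c / p, hW p hp k, ne hp hc, dv hp k1⟩) fun n hn => by
        simpa using hg.coeff (hg.smul 0) qg (qg.smul 0) (by simpa using B1) n hn
    rw [this] at qg
    rw [QE.zero qg hz, zero_mul]
  refine ⟨_, fun z hz => mult_one_S hN hS hf.mk2 hg.mk2 qf qg (hf.cu.zero_coeff qf)
    (hg.cu.zero_coeff qg) A1 hf.eig hg.eig (fun p hp k => ?_) hz⟩
  obtain ⟨c, hc, k1, k2 | k2⟩ := h p hp k
  · exact ⟨W p, c / p, hW p hp k, ne hp hc, dv hp k2, dv hp k1⟩
  · obtain ⟨M, rfl, M0, k3⟩ := sqf_split hN hp k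
    obtain ⟨j, S', k4, rfl⟩ := Nat.exists_eq_pow_mul_and_not_dvd hS p hp.ne_one
    have k5 := hf.smul (PowerSeries.coeff 1 B)
    have := (hW p hp k).wrong M0 (right_ne_zero_of_mul hS) hp k3 k4 k5.mk2 k5.cu hg.mk2 hg.cu
      (qf.smul _) qg hc (fun z hz => by rw [Tl_smul, k2 z hz, mul_left_comm]) k1 fun n hn =>
        k5.coeff hg (qf.smul _) qg (by simp [A1]) n
          ((hn.coprime_mul_right_right.pow_right j).mul_right hn.coprime_mul_left_right)
    rw [coeff_C_mul, A1, mul_one] at this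
    exact absurd this B1

theorem sign_cases {c c' : ℂ} (h : c ^ 2 = 1) (h' : c' ^ 2 = 1) : c = -c' ∨ c = c' := by
  have : (c + c') * (c - c') = 0 := by linear_combination h - h'
  exact (mul_eq_zero.1 this).imp eq_neg_of_add_eq_zero_left sub_eq_zero.1

/-- Strong multiplicity one for newforms. -/
theorem mult_one_new (hN : Squarefree N) (hS : S ≠ 0) (hNS : N ∣ S) (hf : Eg N S e f)
    (hg : Eg N S e g) (qf : QE f A) (A1 : coeff 1 A = 1)
    (hU : ∀ r : ℕ, r.Prime → r ∣ N → ∃ c : ℂ, c ^ 2 = 1 ∧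
      ∀ z : ℂ, 0 < z.im → Tl N r f z = c * f z) :
    ∃ κ : ℂ, ∀ z : ℂ, 0 < z.im → g z = κ * f z := by
  obtain ⟨W, hW⟩ := sqf_AL hN
  refine Eg.split hN hNS hW (P := fun g => ∃ κ : ℂ, ∀ z : ℂ, 0 < z.im → g z = κ * f z)
    (fun _ _ _ ⟨a, ha⟩ ⟨b, hb⟩ k => ⟨a + b, fun z hz => by rw [k z hz, ha z hz, hb z hz, add_mul]⟩)
    (fun g hg h => hf.prop hN hS hW hg qf A1 fun p hp k => ?_) hg
  obtain ⟨c, hc, k1⟩ := h p hp k
  obtain ⟨c', hc', k2⟩ := hU p hp k
  refine ⟨c, hc, k1, (sign_cases hc hc').imp (fun e z hz => ?_) fun e => by rwa [e]⟩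
  rw [e, (hW p hp k).sign' hN hp k hf.mk2 hc' k2 hz]

theorem Tl_level (hl : l.Prime) (h : l ∣ N ↔ l ∣ M) (G : ℂ → ℂ) (z : ℂ) :
    Tl N l G z = Tl M l G z := by simp only [Tl_eq hl, h]

theorem Tl_V (hl : l.Prime) (hr : r.Prime) (hne : l ≠ r) (qf : QE f A)
    (h : ∀ z : ℂ, 0 < z.im → Tl N l f z = c * f z) (hz : 0 < z.im) :
    Tl N l (fun z => f (r * z)) z = c * f (r * z) := by
  have q := qf.expand r hr.ne_zero
  refine (qe_Tl hl q).eq_of_eq (F' := fun z => c * f (r * z)) ?_ hz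
  convert q.smul c using 1
  ext n
  have co := (Nat.coprime_primes hr hl).2 hne.symm
  have k := congrArg (coeff (n / r)) ((qe_Tl hl qf).unique (qf.smul c) h)
  rw [coeff_C_mul, coeff_tS] at k
  rw [coeff_C_mul, coeff_tS, coeff_expand, coeff_expand, coeff_expand]
  by_cases h1 : r ∣ n
  · obtain ⟨m, rfl⟩ := h1
    rw [Nat.mul_div_cancel_left _ hr.pos] at k
    rw [mul_left_comm, if_pos (dvd_mul_right _ _), if_pos (dvd_mul_right r m),
      Nat.mul_div_cancel_left _ hr.pos, Nat.mul_div_cancel_left _ hr.pos, ← k]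
    simp only [co.symm.dvd_mul_left]
    split_ifs with h2 h3
    · rw [Nat.mul_div_assoc _ h2.1, Nat.mul_div_cancel_left _ hr.pos]
    · exact absurd (Nat.mul_div_assoc _ h2.1 ▸ dvd_mul_right _ _) h3
    · rfl
  · rw [if_neg (mt co.dvd_mul_left.1 h1), if_neg h1]
    split_ifs with h2 h3
    · exact absurd (h3.trans (Nat.div_dvd_of_dvd h2.1)) h1
    · simp
    · simp

/-- The eigenspace of a newform in the level raised by a prime. -/
theorem mult_one_old (hN : Squarefree (N * r)) (hr : r.Prime) (hS : S ≠ 0) (hNS : N * r ∣ S)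
    (hf : Eg N S e f) (hg : Eg (N * r) S e g) (qf : QE f A) (A1 : coeff 1 A = 1)
    (hU : ∀ p : ℕ, p.Prime → p ∣ N → ∃ c : ℂ, c ^ 2 = 1 ∧
      ∀ z : ℂ, 0 < z.im → Tl N p f z = c * f z) :
    ∃ κ κ' : ℂ, ∀ z : ℂ, 0 < z.im → g z = κ * f z + κ' * f (r * z) := by
  obtain ⟨W, hW⟩ := sqf_AL hN
  have r0 : (r : ℂ) ≠ 0 := Nat.cast_ne_zero.2 hr.ne_zero
  have lv : ∀ l : ℕ, l.Prime → l ≠ r → (l ∣ N * r ↔ l ∣ N) := fun l hl k => by
    rw [hl.dvd_mul, Nat.prime_dvd_prime_iff_eq hl hr, or_iff_left k]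
  have ne : ∀ l : ℕ, ¬ l ∣ S → l ≠ r := fun l k e => k (e ▸ (dvd_mul_left r N).trans hNS)
  have e1 : Eg (N * r) S e f := ⟨hf.mk2.of_dvd (dvd_mul_right _ _), hf.cu, fun l hl k z hz => by
    rw [Tl_level hl (lv l hl (ne l k)), hf.eig l hl k z hz]⟩
  have e2 : Eg (N * r) S e fun z => f (r * z) := ⟨hf.mk2.V hr.ne_zero, hf.cu.V hr.ne_zero,
    fun l hl k z hz => Tl_V hl hr (ne l k) qf (e1.eig l hl k) hz⟩
  refine Eg.split hN hNS hW
    (P := fun g => ∃ κ κ' : ℂ, ∀ z : ℂ, 0 < z.im → g z = κ * f z + κ' * f (r * z))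
    (fun _ _ _ ⟨a, a', ha⟩ ⟨b, b', hb⟩ k => ⟨a + b, a' + b', fun z hz => by
      rw [k z hz, ha z hz, hb z hz]; ring⟩) (fun g hg h => ?_) hg
  obtain ⟨s, hs, s1⟩ := h r hr (dvd_mul_left _ _)
  have e3 := e1.add (e2.smul (s * r))
  obtain ⟨κ, hκ⟩ := e3.prop hN hS hW hg (qf.add ((qf.expand r hr.ne_zero).smul _)) (by
    rw [map_add, A1, coeff_C_mul, coeff_expand, if_neg hr.not_dvd_one, mul_zero, add_zero])
    fun p hp k => by
      by_cases k0 : p = r
      · subst k0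
        have w := hW p hp k
        refine ⟨s, hs, s1, .inl fun z hz => ?_⟩
        have k1 := w.sq hp.ne_zero e1.mk2 hz
        rw [sk_congr (w.pos hp.ne_zero) (fun z hz => w.old hp.ne_zero hf.mk2 hz) hz, sk] at k1
        rw [sk, add_div, mul_div_assoc, k1, ← sk, w.old hp.ne_zero hf.mk2 hz]
        field_simp
        linear_combination -(p * f (p * z)) * hs
      obtain ⟨c, hc, k1⟩ := h p hp k
      obtain ⟨c', hc', k2⟩ := hU p hp ((lv p hp k0).1 k)
      have k2' : ∀ z : ℂ, 0 < z.im → Tl (N * r) p f z = c' * f z := fun z hz => by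
        rw [Tl_level hp (lv p hp k0), k2 z hz]
      have k4 : ∀ z : ℂ, 0 < z.im → Tl (N * r) p (fun z => f z + s * r * f (r * z)) z =
          c' * (f z + s * r * f (r * z)) := fun z hz => by
        rw [Tl_add hp, Tl_smul, k2' z hz, Tl_V hp hr k0 qf k2' hz]
        ring
      refine ⟨c, hc, k1, (sign_cases hc hc').imp (fun e z hz => ?_) fun e => by rwa [e]⟩
      rw [e, (hW p hp k).sign' hN hp k e3.mk2 hc' k4 hz]
  exact ⟨κ, κ * (s * r), fun z hz => by rw [hκ z hz]; ring⟩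

end Pool.Agent.B5
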