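import Pool.Agent.Lib.MP_696deb_nt.B5.LCa

/-! The maximum principle for functions with a divisor and a multiplier. -/

set_option autoImplicit false

open Polynomial Filter Topology Complex
open scoped Classical PeriodPair NNReal

namespace Pool.Agent.G5

open Pool.Agent.Lib.MP_696deb_nt Pool.Agent.B4.GE Pool.Agent.Shared.Weier
open Pool.Agent.Lib.MP_696deb_nt.B4
open Pool.Agent.B5 (IntW lg_mul lg_pow valOf Aff Mult)

variable {W : WeierstrassCurve ℚ} {N : ℕ} {P : Par W N} {u : ℂ} {V : ℂ → ℂ} {ν : ℂ → ℤ}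
  {J : Finset ℂ} {m : ℕ} {τ τ' : ℂ} {v : AbsoluteValue ℂ ℝ}

theorem Dv.ne (h : Dv V ν) (hτ : 0 < τ.im) (h0 : ν τ = 0) : V τ ≠ 0 := by
  obtain ⟨g, -, g2, g3⟩ := h τ hτ
  rw [g3.self_of_nhds, h0, zpow_zero, one_mul]
  exact g2

theorem Th.lc_inv {L : PeriodPair} {F : ℂ → ℂ} (h : Th N ν (U1 L F u) V) :
    Th N (-ν) (U1 L F (-u)) fun z => (V z)⁻¹ := by
  refine ⟨fun z hz => ?_, fun g hg z hz => ?_, fun g hg => ?_⟩
  · obtain ⟨g, g1, g2, g3⟩ := h.dv z hz
    exact ⟨fun t => (g t)⁻¹, g1.inv g2, inv_ne_zero g2, g3.mono fun t ht => by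
      rw [ht, mul_inv, Pi.neg_apply, zpow_neg]⟩
  · rw [h.inv g hg z hz, mul_inv, ← Complex.exp_neg]
    congr 2
    simp only [U1]
    ring
  · obtain ⟨c, c0, hc⟩ := h.cn g hg
    exact ⟨c⁻¹, inv_ne_zero c0, hc.inv₀ c0⟩

/-- The polynomial that clears the poles. -/
noncomputable def clr (J : Finset ℂ) (m : ℕ) : ℂ[X] := (∏ k ∈ J, (X - C k)) ^ m

theorem eval_clr (x : ℂ) : (clr J m).eval x = (∏ k ∈ J, (x - k)) ^ m := by
  simp [clr, eval_prod]

theorem clr_ne {x : ℂ} (h : x ∉ J) : (clr J m).eval x ≠ 0 := by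
  rw [eval_clr]
  exact pow_ne_zero _ (Finset.prod_ne_zero_iff.2 fun k hk e => h (sub_eq_zero.1 e ▸ hk))

theorem Dv.hol (h : Dv V ν) (hJ : ∀ z : ℂ, 0 < z.im → ν z ≠ 0 → jf z ∈ J)
    (hm : ∀ z : ℂ, 0 < z.im → |ν z| < m) : Hol fun z => (clr J m).eval (jf z) * V z := by
  intro z hz
  obtain ⟨g, g1, -, g3⟩ := h z hz
  have hj := gb_an hol_jf hz
  by_cases e : jf z ∈ J
  · obtain ⟨n, hn⟩ : ∃ n : ℕ, m + ν z = (n + 1 : ℕ) :=
      ⟨(m + ν z - 1).toNat, by have := abs_lt.1 (hm z hz); omega⟩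
    have m0 : m ≠ 0 := by
      rintro rfl
      exact (abs_nonneg _).not_gt (hm z hz)
    obtain ⟨p, hp⟩ := hj
    have d : AnalyticAt ℂ (dslope jf z) z := ⟨_, hp.has_fpower_series_dslope_fslope⟩
    have a : AnalyticAt ℂ (fun t => (t - z) ^ (n + 1) *
        ((dslope jf z t * ∏ k ∈ J.erase (jf z), (jf t - k)) ^ m * g t)) z :=
      ((analyticAt_id.sub analyticAt_const).pow _).mul (((d.mul (Finset.analyticAt_fun_prod _
        fun k _ => hp.analyticAt.sub analyticAt_const)).pow m).mul g1)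
    refine a.differentiableAt.congr_of_eventuallyEq (g3.mono fun t ht => ?_)
    simp only
    rw [eval_clr, ← Finset.mul_prod_erase _ _ e, ← sub_smul_dslope jf z t, smul_eq_mul, ht]
    by_cases k : t - z = 0
    · simp [k, m0]
    · rw [← zpow_natCast (t - z) (n + 1), ← hn, zpow_add₀ k, zpow_natCast, mul_assoc (t - z),
        mul_pow]
      ring
  · refine ((LE.hol (gb_poly (clr J m)) z hz).mul g1.differentiableAt).congr_of_eventuallyEq
      (g3.mono fun t ht => ?_)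
    simp only [ht, of_not_not (mt (hJ z hz) e), zpow_zero, one_mul, Pi.mul_apply]

theorem Th.mult (h : Th N ν (U1 P.L P.F u) V) (hJ : ∀ z : ℂ, 0 < z.im → ν z ≠ 0 → jf z ∈ J)
    (hm : ∀ z : ℂ, 0 < z.im → |ν z| < m) :
    Mult P (u / 2) fun z => (clr J m).eval (jf z) * V z := by
  have k : ∀ g, G0 N g → ∀ z : ℂ, 0 < z.im → (clr J m).eval (jf (act g z)) * V (act g z) =
      cexp (-(2 * (u / 2) * eta P.L (P.F (act g z) - P.F z))) * ((clr J m).eval (jf z) * V z) :=
    fun g hg z hz => by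
      rw [jf_act hg.1 hz, h.inv g hg z hz, map_sub, show U1 P.L P.F u z - U1 P.L P.F u (act g z) =
        -(2 * (u / 2) * (eta P.L (P.F (act g z)) - eta P.L (P.F z))) by simp only [U1]; ring]
      ring
  refine ⟨k, fun g hg => ?_⟩
  obtain ⟨B, hB⟩ := P.cusp g hg
  obtain ⟨c, -, hc⟩ := h.cn g hg
  obtain ⟨γ, γ1, γ2, γ3⟩ := gb_conj (N := N) hg
  have q : ∀ {z : ℂ}, 0 < z.im → 0 < (act g (N * z)).im := fun hz =>
    act_pos (by omega) (ga_pos P.N0 hz)
  refine B5.le_of_ev (fun z hz => (h.dv.hol hJ hm _ (q hz)).comp z (f := fun z => act g (N * z))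
    ((hol_act (by omega) _ (ga_pos P.N0 hz)).comp z (by fun_prop))) (fun z hz => ?_)
    ((B5.mf_eval P.N0 (clr J m)).2 g hg) (hc.comp (geb_mul P.N0)) (.of_forall fun z => rfl)
  have e1 : P.F (act g (N * (z + 1))) = P.F (act g (N * z)) := by simpa using hB.periodic 1 hz
  have e2 : act g (N * (z + 1)) = act γ (act g (N * z)) := by
    rw [mul_add, mul_one, γ3 _ (ga_pos P.N0 hz)]
  have := k γ ⟨γ1, γ2⟩ _ (q hz)
  rw [← e2, e1] at this
  simpa using this

theorem clr_int (hv : IsNonarchimedean v) (hi : ∀ k ∈ J, v k ≤ 1) (n : ℕ) :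
    v ((clr J m).coeff n) ≤ 1 := by
  refine B5.int_pow (V := valOf hv) (Finset.prod_induction _
    (fun p : ℂ[X] => ∀ n, valOf hv (p.coeff n) ≤ 1) (fun _ _ => B5.int_mul) (fun n => ?_)
    fun k hk n => ?_) m n
  · rw [coeff_one]; split_ifs <;> simp
  · rw [coeff_sub, coeff_X, coeff_C]
    split_ifs with h1 h2
    · omega
    · simp
    · rw [zero_sub, Valuation.map_neg]
      exact hi k hk
    · simp

theorem log_clr {x : ℂ} (h : x ∉ J) :
    Real.log (v ((clr J m).eval x)) = m * ∑ k ∈ J, Real.log (v (x - k)) := by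
  rw [eval_clr, lg_pow, map_prod, Real.log_prod fun k hk =>
    (v.pos (sub_ne_zero.2 fun e : x = k => h (e ▸ hk))).ne']

/-- The involution of Fricke transports functions with a multiplier. -/
theorem Th.al (h : Th N ν (U1 P.L P.F u) V) :
    Th N (fun z => ν (-1 / (N * z))) (U1 P.L P.F (-u)) fun z => V (-1 / (N * z)) := by
  have n0 : (N : ℂ) ≠ 0 := by exact_mod_cast P.N0
  have s : ∀ z : ℂ, -1 / (N * z) = act !![0, -1; 1, 0] (N * z) := fun z => by simp [act_of, mob]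
  have p : ∀ {z : ℂ}, 0 < z.im → 0 < (-1 / (N * z)).im := fun hz =>
    s _ ▸ act_pos (by simp) (ga_pos P.N0 hz)
  refine ⟨fun z hz => ?_, fun g hg z hz => ?_, fun g hg => ?_⟩
  · obtain ⟨g, g1, g2, g3⟩ := h.dv _ (p hz)
    have z0 : z ≠ 0 := fun e => by simp [e] at hz
    have a : AnalyticAt ℂ (fun t : ℂ => -1 / (N * t)) z :=
      analyticAt_const.div (by fun_prop) (mul_ne_zero n0 z0)
    have b : AnalyticAt ℂ (fun t : ℂ => (N * t * z)⁻¹) z :=
      AnalyticAt.inv (by fun_prop) (mul_ne_zero (mul_ne_zero n0 z0) z0)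
    have b0 := inv_ne_zero (mul_ne_zero (mul_ne_zero n0 z0) z0)
    refine ⟨fun t => (N * t * z)⁻¹ ^ ν (-1 / (N * z)) * g (-1 / (N * t)),
      (b.zpow b0).mul (g1.comp_of_eq a rfl), mul_ne_zero (zpow_ne_zero _ b0) g2, ?_⟩
    filter_upwards [a.continuousAt.eventually g3, eventually_ne_nhds z0] with t t1 t2
    rw [t1, ← mul_assoc, ← mul_zpow]
    congr 2
    field_simp
    ring
  · obtain ⟨g1, c, hc⟩ := id hg
    have g' : G0 N !![g 1 1, -c; -(N * g 0 1), g 0 0] := ⟨by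
      rw [Matrix.det_fin_two, hc] at g1
      rw [Matrix.det_fin_two_of]
      linear_combination g1, by simp⟩
    have d : (!![0, -1; N, 0] : MZ).det ≠ 0 := by simpa using P.N0
    have s' : ∀ z : ℂ, -1 / (N * z) = act !![0, -1; N, 0] z := fun z => by simp [act_of, mob]
    have e : -1 / (N * act g z) = act !![g 1 1, -c; -(N * g 0 1), g 0 0] (-1 / (N * z)) := by
      rw [s', s', ← act_mul _ (by omega) hz, ← act_mul _ d hz]
      congr 1
      ext i j
      fin_cases i <;> fin_cases j <;> simp [Matrix.mul_apply, hc, mul_comm]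
    have := h.inv _ g' _ (p hz)
    rw [← e] at this
    rw [this]
    simp only [U1]
    rw [P.al z hz, P.al _ (act_pos (by omega) hz), map_sub, map_sub]
    congr 2
    ring
  · obtain ⟨a, b, d, k, h1, h2, h3⟩ := exists_dg P.N0 hg
    obtain ⟨a0, d0⟩ := mul_ne_zero_iff.1 (h1.trans_ne P.N0)
    obtain ⟨c, c0, hc⟩ := h.cn (!![0, -1; 1, 0] * k) (by rw [Matrix.det_mul, h2]; simp)
    have h6 : 0 < (ut a b d).det := by rw [det_ut]; positivity
    have t : Tendsto (act (ut a b d)) atI atI := by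
      convert tendsto_affine (show (0 : ℝ) < a / d by positivity) (b / d) using 2 with z
      simp only [ut, act_of, mob]
      push_cast
      ring
    refine ⟨c, c0, (hc.comp t).congr' (ev_pos.mono fun z hz => ?_)⟩
    simp only [Function.comp]
    rw [act_mul _ (by omega) (act_pos h6 hz), ← act_mul k h6.ne' hz, ← h3,
      act_mul _ (by omega) hz, act_dg, s]

variable [W.IsElliptic] (I : IntW v (W.baseChange ℂ))
include I

theorem gv_al (hτ : 0 < τ.im) : gv v P (-u) (fun z => V (-1 / (N * z))) τ =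
    gv v P u V (-1 / (N * τ)) - bv v P.per P.t0 u := by
  rw [gv, gv, P.al τ hτ, bv_sub_left I, bv_neg_right I]
  ring

/-- The maximum principle. -/
theorem gv_le (h : Th N ν (U1 P.L P.F u) V) (hJ : ∀ z : ℂ, 0 < z.im → ν z ≠ 0 → jf z ∈ J)
    (hm : ∀ z : ℂ, 0 < z.im → |ν z| < m) (hi : ∀ k ∈ J, v k ≤ 1) (hτ : Aff N (valOf I.na) τ)
    (hτ' : Aff N (valOf I.na) τ') (e : jf τ ∉ J) (e' : jf τ' ∉ J) :
    gv v P u V τ' + m * ∑ k ∈ J, (Real.log (v (jf τ - k)) + Real.log (v (jf τ' - k))) ≤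
      gv v P u V τ := by
  have n : ∀ {z : ℂ}, 0 < z.im → jf z ∉ J → V z ≠ 0 := fun hz e =>
    h.dv.ne hz (of_not_not (mt (hJ _ hz) e))
  have H := gv_le_mult I (h.mult hJ hm) (neg_div 2 u ▸ h.lc_inv.mult (J := J) (m := m)
    (fun z hz k => hJ z hz (neg_ne_zero.1 k)) fun z hz => by simpa using hm z hz)
    (R := clr J (m + m)) (clr_int I.na hi) (fun z hz => by
      by_cases k : jf z ∈ J
      · have m0 : m ≠ 0 := by
          rintro rfl
          exact (abs_nonneg _).not_gt (hm z hz)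
        simp [eval_clr, Finset.prod_eq_zero k (sub_self _), m0]
      · have := n hz k
        rw [eval_clr, eval_clr, pow_add]
        field_simp) hτ hτ' (clr_ne e) (mul_ne_zero (clr_ne e') (n hτ'.pos e'))
  rw [add_halves, gv, gv, lg_mul (clr_ne e) (n hτ.pos e), lg_mul (clr_ne e') (n hτ'.pos e'),
    log_clr e, log_clr e, log_clr e'] at H
  rw [gv, gv, Finset.sum_add_distrib]
  push_cast at H
  linarith

/-- The Green function is constant away from the residue classes of the divisor. -/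
theorem gv_const (h : Th N ν (U1 P.L P.F u) V) (hJ : ∀ z : ℂ, 0 < z.im → ν z ≠ 0 → jf z ∈ J)
    (hm : ∀ z : ℂ, 0 < z.im → |ν z| < m) (hi : ∀ k ∈ J, v k ≤ 1) (hτ : Aff N (valOf I.na) τ)
    (hτ' : Aff N (valOf I.na) τ') (e : ∀ k ∈ J, v (jf τ - k) = 1)
    (e' : ∀ k ∈ J, v (jf τ' - k) = 1) : gv v P u V τ = gv v P u V τ' := by
  have n : jf τ ∉ J := fun k => by simpa using e _ k
  have n' : jf τ' ∉ J := fun k => by simpa using e' _ k
  have a := gv_le I h hJ hm hi hτ hτ' n n'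
  have b := gv_le I h hJ hm hi hτ' hτ n' n
  rw [Finset.sum_eq_zero fun k hk => by rw [e k hk, e' k hk, Real.log_one, add_zero]] at a b
  linarith

end Pool.Agent.G5
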