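import Pool.Agent.Lib.MP_696deb_nt.B5.HT2
import Pool.Agent.Lib.MP_696deb_nt.B5.GAa
import Pool.Agent.Lib.MP_696deb_nt.B5.LCb
import Pool.Agent.Lib.MP_696deb_nt.B5.ZHa

/-! The archimedean local symbol at conjugate points. -/

set_option autoImplicit false

open Polynomial Filter Topology Asymptotics Complex
open scoped Classical PeriodPair

namespace Pool.Agent.G5

open Pool.Agent.Lib.MP_696deb_nt Pool.Agent.B4.GE Pool.Agent.Shared.Weier Pool.Agent.B5
open Pool.Agent.Lib.MP_696deb_nt.B4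

variable {W : WeierstrassCurve ℚ} {N : ℕ} {P : Par W N} {σ : ℂ ≃+* ℂ} {ν : ℂ → ℤ} {V Θ : ℂ → ℂ}
  {a c c' u z z' : ℂ} {J : Finset ℂ} {m : ℕ} {s s' : ℤ}

theorem Gd.two' (h : Gd P (P.per.unif a)) : a + a ∉ P.L.lattice := fun k =>
  h.two (by rwa [← map_add, P.per.unif_eq_zero_iff])

theorem Gd.avo (h : Gd P (P.per.unif a)) : Avo P.L P.F a := by
  refine ⟨fun k => h.two' (add_mem k k), fun g hg x hx k => ?_⟩
  have e : P.per.unif x ∈ P.CV := ⟨g, x, hg, hx.comp (geb_mul P.N0), rfl⟩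
  rcases k with k | k
  · exact h.cv' (by rwa [← map_neg, ← P.per.unif_eq_iff.2 (show x - -a ∈ _ by simpa using k)])
  · exact h.cv (by rwa [← P.per.unif_eq_iff.2 k])

theorem an_sig (P : Par W N) (a : ℂ) (hz : 0 < z.im) :
    AnalyticAt ℂ (fun t => sig P.L (P.F t - a)) z :=
  (analyticAt_sig _).comp ((gb_an P.qe.hol hz).sub analyticAt_const)

theorem od_sig (P : Par W N) (a : ℂ) (hz : 0 < z.im) :
    ∃ s, Od (fun t => sig P.L (P.F t - a)) z s := by
  obtain ⟨t, t1, t2⟩ := ((geb_ne one_ne_zero hz).and (P.ig.ev_not_po (a := a) z hz)).exists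
  exact Nz.od ⟨t, t1.1, sig_ne (not_or.1 t2).2⟩ (fun w hw => (an_sig P a hw).differentiableAt) hz

theorem cn_sig (h : Avo P.L P.F a) : Cn fun t => sig P.L (P.F t - a) := fun g hg => by
  obtain ⟨x, hx⟩ := (par_ci P).lim' P.N0 hg
  exact ⟨_, sig_ne (not_or.1 (h.2 g hg x hx)).2,
    ((differentiable_sig P.L).continuous.tendsto _).comp (hx.sub_const a)⟩

theorem Cn.div {f g : ℂ → ℂ} (h : Cn f) (k : Cn g) : Cn fun t => f t / g t := by
  simpa [div_eq_mul_inv] using h.mul (k.zpow (-1))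

theorem cn_bdd {f : ℂ → ℂ} (h : Cn f) {g : MZ} (hg : g.det = 1) : Bdd fun t => f (act g t) :=
  (h g hg).elim fun _ k => Bdd.of_tendsto k.2

theorem cn_ev {f : ℂ → ℂ} (h : Cn f) {g : MZ} (hg : g.det = 1) :
    ∀ᶠ t in atI, f (act g t) ≠ 0 := (h g hg).elim fun _ k => k.2.eventually_ne k.1

/-- The auxiliary function is a quotient of a modular function by a polynomial in the invariant. -/
theorem exists_num (h : Th N ν (U1 P.L P.F u) V) (hJ : ∀ z : ℂ, 0 < z.im → ν z ≠ 0 → jf z ∈ J)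
    (hm : ∀ z : ℂ, 0 < z.im → |ν z| < m) (ha : Avo P.L P.F (c + u)) :
    ∃ (b : ℂ[X]) (G : ℂ → ℂ), b ≠ 0 ∧ MF N G ∧ ∀ z : ℂ, 0 < z.im → b.eval (jf z) ≠ 0 →
      G z / b.eval (jf z) = hq P u V c z := by
  obtain ⟨b, k, S, hS⟩ := exists_clear ha
  have hA := h.mult hJ hm
  refine ⟨clr J m * b, fun z => (clr J m).eval (jf z) * V z *
    (sig P.L (P.F z + -c) * sig P.L (P.F z + (c + u))) * S z, mul_ne_zero (pow_ne_zero _
      (Finset.prod_ne_zero_iff.2 fun x _ => X_sub_C_ne_zero x)) ?_,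
    ⟨fun g hg z hz => ?_, fun g hg => le_top_mul (le_top_mul (hA.le g hg)
      (le_comp P (U := fun x => sig P.L (x + -c) * sig P.L (x + (c + u)))
        (((differentiable_sig _).comp (by fun_prop)).mul
          ((differentiable_sig _).comp (by fun_prop))) hg)) (hS.le g hg)⟩, fun z hz h0 => ?_⟩
  · rintro rfl
    obtain ⟨w, w1, w2⟩ := ((tendsto_jf.eventually (P.ig.finite_poles ha).isBounded).and
      ev_pos).exists
    obtain ⟨t, t1, t2, t3⟩ := (hS.root w w2).1 (by simp)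
    exact w1 ⟨t, ⟨t1, t3⟩, t2⟩
  · simp only
    rw [hA.inv g hg z hz, ← hS.inv g hg z hz, sig_shift (P.inv g hg z hz),
      show eta P.L (P.F (act g z) - P.F z) * (P.F (act g z) + P.F z + -c + (c + u)) =
        eta P.L (P.F (act g z) - P.F z) * (P.F (act g z) + P.F z) +
          2 * (u / 2) * eta P.L (P.F (act g z) - P.F z) by ring, Complex.exp_add, Complex.exp_neg]
    field_simp
  · rw [eval_mul] at h0 ⊢
    have p := not_or.1 fun k => right_ne_zero_of_mul h0 ((hS.root z hz).2 ⟨z, hz, rfl, k⟩)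
    have e := mul_left_cancel₀ (pow_ne_zero 2 (sig_ne ha.1)) (hS.rel _ ha.1 z hz)
    have := left_ne_zero_of_mul h0
    have := sig_ne p.1
    have := sig_ne p.2
    rw [sub_self, zero_mul, add_zero] at e
    have : S z ≠ 0 := right_ne_zero_of_mul (e ▸ right_ne_zero_of_mul h0)
    simp only [hq, ← e, sub_sub, ← sub_eq_add_neg]
    field_simp

theorem cg_eval (hN : N ≠ 0) (p : ℂ[X]) : Cg N σ (fun t => p.eval (jf t))
    fun t => (p.map (σ : ℂ →+* ℂ)).eval (jf t) := ⟨mf_eval hN _, mf_eval hN _, cq_jf.eval p⟩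

theorem Pc.tw_one (hN : N ≠ 0) (h : Pc N σ z z') (k : deriv jf z ≠ 0) (k' : deriv jf z' ≠ 0) :
    (1, 1) ∈ Tw N σ z z' := by
  refine (Cg.add ⟨mf_jf hN, mf_jf hN, cq_jf⟩ (cg_const (-jf z))).tw
    (od_one (gb_an hol_jf h.pos) k) ?_
  rw [map_neg, ← (h.rj hN).j]
  exact od_one (gb_an hol_jf h.pos') k'

theorem chart_od (T : Chart P) (hz : 0 < z.im) (hT : aeval (jf z) T.b ≠ 0)
    (hc : P.φ z = P.per.unif c) (h2 : c + c ∉ P.L.lattice)
    (hs : Od (fun t => sig P.L (P.F t - c)) z s) :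
    Od (fun t => aeval (jf t) T.b * ch (T.c : ℂ) true (P.φ t) +
      -ch (T.c : ℂ) true (P.φ z) * (m1 T.b).eval (jf t)) z s := by
  obtain ⟨a, ha⟩ := P.exists_pa T.c
  have c0 : c ∉ P.L.lattice := fun k => h2 (add_mem k k)
  have l := P.per.unif_eq_iff.1 hc
  have f0 : P.F z ∉ P.L.lattice := fun k => c0 (by simpa using sub_mem k l)
  have p := (ha.fn _).1 (T.fn z hz hT)
  have f := gb_an P.qe.hol hz
  have q : ℘[P.L] (P.F z) = ℘[P.L] c := by
    simpa using P.L.weierstrassP_add_coe c ⟨_, l⟩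
  have n : ∀ x ∉ P.L.lattice, ¬ Po P.L a x → ℘[P.L] x - ℘[P.L] a ≠ 0 := fun x x1 x2 e =>
    x2 ((po_iff ha.nm).2 ⟨x1, sub_eq_zero.1 e⟩)
  have u0 : cU P.L a (P.F z) ≠ 0 := by
    rw [cU_eq ha.nm f0]
    exact inv_ne_zero (n _ f0 p)
  have := hs.mul (od_zero (f := fun t => (m1 T.b).eval (jf t) * (sig P.L (P.F t - -c) /
    (sig P.L (P.F t - 0) ^ 2 * sig P.L c ^ 2) * (cU P.L a (P.F t) * cU P.L a (P.F z))))
    ((MF.an P.N0 (mf_eval P.N0 _) hz).mul ((((an_sig P _ hz).div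
      (((an_sig P 0 hz).pow 2).mul analyticAt_const) (mul_ne_zero (pow_ne_zero 2 (sig_ne
        (by simpa using f0))) (pow_ne_zero 2 (sig_ne c0)))).mul
      (((an_cU p).comp f).mul analyticAt_const))))
    (mul_ne_zero (by rwa [eval_m1]) (mul_ne_zero (div_ne_zero (sig_ne fun k => h2 (by
      simpa using sub_mem k l)) (mul_ne_zero (pow_ne_zero 2 (sig_ne (by simpa using f0)))
        (pow_ne_zero 2 (sig_ne c0)))) (mul_ne_zero u0 u0))))
  rw [add_zero] at this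
  refine this.congr (mem_nhdsWithin_of_mem_nhds ?_)
  filter_upwards [f.continuousAt.eventually (isOpen_compl.mem_nhds f0),
    f.continuousAt.eventually (ev_not_po' p)] with t t1 t2
  have e := wp_sub t1 c0
  have := n _ t1 t2
  have := n _ f0 p
  simp only [Par.φ, ha.ch, eval_m1, sub_neg_eq_add, sub_zero]
  change _ = _ * cU P.L a _ + -cU P.L a _ * _
  rw [← mul_assoc, mul_comm (sig _ _), mul_assoc, ← mul_assoc (sig _ _), ← mul_div_assoc,
    mul_comm (sig _ _), ← neg_neg (_ / _), ← neg_div, ← e, cU_eq ha.nm t1, cU_eq ha.nm f0, ← q]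
  field_simp
  ring

theorem Pc.tw_sig (h : Pc N σ z z') (hc : P.per.unif c' = pmap (σ : ℂ →+* ℂ) (P.per.unif c))
    (g : Gd P (P.per.unif c)) (g' : Gd P (P.per.unif c'))
    (hs : Od (fun t => sig P.L (P.F t - c)) z s) (hs' : Od (fun t => sig P.L (P.F t - c')) z' s') :
    (s, s') ∈ Tw N σ z z' := by
  have e : P.φ z' = P.per.unif c' ↔ P.φ z = P.per.unif c := by
    rw [h.φ P, hc, (pmap_injective _).eq_iff]
  by_cases k : P.φ z = P.per.unif c
  · obtain ⟨T, hT⟩ := exists_chart P z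
    have hT' : aeval (jf z') T.b ≠ 0 := by
      rwa [(h.rj P.N0).j, show aeval (σ (jf z)) T.b = σ (aeval (jf z) T.b) from
        (map_ev1 (σ : ℂ →+* ℂ) _ _).symm, _root_.map_ne_zero]
    refine ((RF.cg P.N0 (T.rf true) T.e0).add ((cg_const _).mul (cg_eval P.N0 (m1 T.b)))).tw
      (chart_od T h.pos hT k g.two' hs) ?_
    rw [map_int, map_neg, show σ (ch (T.c : ℂ) true (P.φ z)) = ch (T.c : ℂ) true (P.φ z') by
      rw [h.φ P]; simpa using (ch_pmap (σ : ℂ →+* ℂ) (T.c : ℂ) true (P.φ z)).symm]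
    exact chart_od T h.pos' hT' (e.2 k) g'.two' hs'
  · rw [hs.unique (od_zero (an_sig P c h.pos) (sig_ne (mt P.per.unif_eq_iff.2 k))),
      hs'.unique (od_zero (an_sig P c' h.pos') (sig_ne (mt P.per.unif_eq_iff.2 (mt e.1 k))))]
    exact zero_mem _

theorem th_of_bdd (h : Dv Θ 0) (hi : ∀ g, G0 N g → ∀ z : ℂ, 0 < z.im →
      Θ (act g z) = Θ z * cexp (U1 P.L P.F u z - U1 P.L P.F u (act g z)))
    (hb : ∀ g : MZ, g.det = 1 → (Bdd fun z => Θ (act g z)) ∧ Bdd fun z => (Θ (act g z))⁻¹) :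
    Th N 0 (U1 P.L P.F u) Θ := by
  refine ⟨h, hi, fun g hg => ?_⟩
  obtain ⟨B, hB⟩ := P.cusp g hg
  obtain ⟨γ, γ1, γ2, γ3⟩ := gb_conj (N := N) hg
  have q : ∀ {z : ℂ}, 0 < z.im → 0 < (act g (N * z)).im := fun hz =>
    act_pos (by omega) (ga_pos P.N0 hz)
  obtain ⟨D, hD⟩ := QE.exists_of_periodic (F := fun z => Θ (act g (N * z)))
    (fun z hz => (h.an (q hz) rfl).differentiableAt.comp z (f := fun z => act g (N * z))
      ((Lib.MP_696deb_nt.hol_act (by omega) _ (ga_pos P.N0 hz)).comp z (by fun_prop)))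
    (fun z hz => by
      have e1 : P.F (act g (N * (z + 1))) = P.F (act g (N * z)) := by simpa using hB.periodic 1 hz
      have e2 : act g (N * (z + 1)) = act γ (act g (N * z)) := by
        rw [mul_add, mul_one, γ3 _ (ga_pos P.N0 hz)]
      have := hi γ ⟨γ1, γ2⟩ _ (q hz)
      rw [← e2, U1, U1, e1] at this
      simpa using this) ((hb g hg).1.comp_tendsto (geb_mul P.N0))
  have l := geb_lim (G := fun z => Θ (act g z)) P.N0 hD.tendsto
  refine ⟨_, fun e => ?_, l⟩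
  rw [e] at l
  have := ((isLittleO_one_iff ℝ).2 l).mul_isBigO (hb g hg).2
  rw [show (fun _ : ℂ => (1 : ℝ) * 1) = fun _ => 1 by simp, isLittleO_one_iff] at this
  refine zero_ne_one (tendsto_nhds_unique_of_eventuallyEq this tendsto_const_nhds ?_)
  filter_upwards [ev_pos] with z hz
  exact mul_inv_cancel₀ (h.ne (act_pos (by omega) hz) rfl)

theorem ac_stmt : ACStmt := by
  intro W _ N P ν u c V J m σ e hV hJ hm he hν g1 g2 g3 g4
  have hN := P.N0
  obtain ⟨c', hc⟩ := P.per.unif_surjective (pmap (σ : ℂ →+* ℂ) (P.per.unif c))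
  obtain ⟨u', hu⟩ := P.per.unif_surjective (pmap (σ : ℂ →+* ℂ) (P.per.unif u))
  have hd : P.per.unif (c' + u') = pmap (σ : ℂ →+* ℂ) (P.per.unif (c + u)) := by
    rw [map_add, map_add, map_add, hc, hu]
  rw [← map_add] at g2 g4
  rw [← hc] at g3
  rw [← hd] at g4
  obtain ⟨b, G, b0, G1, G2⟩ := exists_num hV (fun z hz k => (hJ z hz k).1) hm g2.avo
  obtain ⟨d, H, d0, H1, H2⟩ := exists_num (c := c + u) hV.lc_inv
    (fun z hz k => (hJ z hz (neg_ne_zero.1 k)).1) (fun z hz => by simpa using hm z hz)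
    (by simpa using g1.avo)
  have q : ∀ z, hq P u V c z = V z * (sig P.L (P.F z - c) / sig P.L (P.F z - (c + u))) :=
    fun z => by rw [hq, sub_sub]
  have q' : ∀ z, hq P (-u) (fun z => (V z)⁻¹) (c + u) z = (hq P u V c z)⁻¹ := fun z => by
    rw [q, hq, mul_inv, inv_div, sub_sub, add_neg_cancel_right]
  have cq : Cn (hq P u V c) := funext q ▸ hV.cn.mul ((cn_sig g1.avo).div (cn_sig g2.avo))
  obtain ⟨G', kG⟩ := exists_cg hN σ G1
  obtain ⟨H', kH⟩ := exists_cg hN σ H1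
  have p1 : ∀ {g : MZ}, g.det = 1 → ∀ {z : ℂ}, 0 < z.im → 0 < (act g z).im := fun hg _ hz =>
    act_pos (by omega) hz
  have oq : ∀ z : ℂ, 0 < z.im → ∀ s t, Od (fun t => sig P.L (P.F t - c)) z s →
      Od (fun t => sig P.L (P.F t - (c + u))) z t → Od (hq P u V c) z (ν z + (s - t)) :=
    fun z hz s t k l => funext q ▸ Od.mul (hV.dv.mo z hz) (k.div l)
  have eq : ∀ z : ℂ, 0 < z.im → (fun t => G t / b.eval (jf t)) =ᶠ[𝓝[≠] z] hq P u V c :=
    fun z hz => (geb_ne b0 hz).mono fun t ht => G2 t ht.1 ht.2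
  have nq : ∀ z : ℂ, 0 < z.im → ∀ᶠ t in 𝓝[≠] z, hq P u V c t ≠ 0 := fun z hz => by
    obtain ⟨s, hs⟩ := od_sig P c hz
    obtain ⟨t, ht⟩ := od_sig P (c + u) hz
    exact (oq z hz s t hs ht).ev
  have GH : ∀ z : ℂ, 0 < z.im → G z * H z = (b * d).eval (jf z) := fun z hz => by
    refine geb_eq (f := fun t => G t * H t) (g := fun t => (b * d).eval (jf t))
      (MF.an hN (mf_mul G1 H1) hz).continuousAt (MF.an hN (mf_eval hN _) hz).continuousAt ?_
    filter_upwards [geb_ne b0 hz, geb_ne d0 hz, nq z hz] with t t1 t2 t3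
    rw [(div_eq_iff t1.2).1 (G2 t t1.1 t1.2), (div_eq_iff t2.2).1 (H2 t t1.1 t2.2), q', eval_mul]
    field_simp
  have nG : Nz G := by
    obtain ⟨t, t1, t2⟩ := (geb_ne (mul_ne_zero b0 d0) (z := I) (by simp)).exists
    exact ⟨t, t1, left_ne_zero_of_mul (GH t t1 ▸ t2)⟩
  have b1 : b.map (σ : ℂ →+* ℂ) ≠ 0 := Polynomial.map_ne_zero b0
  have d1 : d.map (σ : ℂ →+* ℂ) ≠ 0 := Polynomial.map_ne_zero d0
  have nb : ∀ {b : ℂ[X]}, b ≠ 0 → Nz fun t => b.eval (jf t) := fun h =>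
    (geb_ne h (z := I) (by simp)).exists
  obtain ⟨Y, hY⟩ : ∃ Y : ℂ → ℂ, Y = fun t =>
    sig P.L (P.F t - (c' + u')) / sig P.L (P.F t - c') * V t ^ (-e) := ⟨_, rfl⟩
  have cY : Cn Y := hY ▸ ((cn_sig g4.avo).div (cn_sig g3.avo)).mul (hV.cn.zpow _)
  have aY : ∀ t : ℂ, 0 < t.im → ν t = 0 → P.F t - c' ∉ P.L.lattice → AnalyticAt ℂ Y t :=
    fun t t1 t2 t3 => hY ▸ ((an_sig P _ t1).div (an_sig P _ t1) (sig_ne t3)).mul
      ((hV.dv.an t1 t2).zpow (hV.dv.ne t1 t2))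
  have mo : Mo (fun t => G' t / (b.map (σ : ℂ →+* ℂ)).eval (jf t) * Y t) 0 := fun z' hz => by
    obtain ⟨z, h⟩ := exists_pc' jf_surj hN σ hz
    obtain ⟨x, hx⟩ := nG.od (mf_le hN G1).hol h.pos
    obtain ⟨x', hx'⟩ := (kG.nz nG).od (mf_le hN kG.mf').hol hz
    obtain ⟨y, hy⟩ := (nb b0).od (mf_le hN (mf_eval hN _)).hol h.pos
    obtain ⟨y', hy'⟩ := (nb b1).od (mf_le hN (mf_eval hN _)).hol hz
    obtain ⟨s, hs⟩ := od_sig P c h.pos
    obtain ⟨t, ht⟩ := od_sig P (c + u) h.pos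
    obtain ⟨s', hs'⟩ := od_sig P c' hz
    obtain ⟨t', ht'⟩ := od_sig P (c' + u') hz
    have e1 := ((hx.div hy).congr (eq z h.pos)).unique (oq z h.pos s t hs ht)
    have e2 : e * ν z' = ν z := by
      rw [hν z z' h]
      rcases he with rfl | rfl <;> simp
    have w : (ν z, ν z) ∈ Tw N σ z z' := by
      by_cases k : ν z = 0
      · rw [k]
        exact zero_mem _
      · simpa using zsmul_mem (h.tw_one hN (hJ z h.pos k).2
          (hJ z' hz fun l => k (by rw [← e2, l, mul_zero])).2) (ν z)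
    have := sub_mem (add_mem (sub_mem (sub_mem (kG.tw hx hx') ((cg_eval hN b).tw hy hy'))
      (h.tw_sig hc g1 g3 hs hs')) (h.tw_sig hd g2 g4 ht ht')) w
    simp only [Prod.mk_sub_mk, Prod.mk_add_mk] at this
    rw [show x - y - s + t - ν z = 0 by omega] at this
    have e3 := h.tw hN this
    have := (hx'.div hy').mul (hY ▸ (ht'.div hs').mul (Od.zpow (hV.dv.mo z' hz) (-e)) : Od Y z' _)
    rwa [show x' - y' + (t' - s' + -e * ν z') = 0 by linear_combination e3 - e2] at this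
  obtain ⟨Θ, t1, t2⟩ := mo.exists_dv
  have th : Th N 0 (U1 P.L P.F (u' - e * u)) Θ := by
    refine th_of_bdd t1 (fun g hg z hz => ?_) fun g hg => ?_
    · obtain ⟨l, hl⟩ := (par_ci P).inv g hg
      have l1 : l ∈ P.L.lattice := by simpa [hl z hz] using P.inv g hg z hz
      obtain ⟨ε, ε1, -, ε2⟩ := sig_add l1
      have ε0 : ε ≠ 0 := by rcases ε1 with rfl | rfl <;> simp
      rw [t1.mult_of (fun z hz => (t2 z hz).1) (pos_of_det hg.1) (Complex.exp_ne_zero
        (-(eta P.L l * (u' - e * u)))) hz ?_, mul_comm, U1, U1, hl z hz, map_add]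
      · congr 2
        ring
      filter_upwards [geb_ne one_ne_zero hz] with t ⟨ht, _⟩
      simp only [hY]
      rw [kG.mf'.1 g hg t ht, jf_act hg.1 ht, hV.inv g hg t ht, U1, U1, hl t ht, add_sub_right_comm,
        add_sub_right_comm, ε2, ε2, mul_zpow, ← Complex.exp_int_mul, map_add,
        show eta P.L l * (P.F t - c' + l / 2) =
          eta P.L l * (P.F t - (c' + u') + l / 2) + eta P.L l * u' by ring, Complex.exp_add,
        show -(eta P.L l * (u' - e * u)) = (-e : ℤ) * (eta P.L (P.F t) * u -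
          (eta P.L (P.F t) + eta P.L l) * u) - eta P.L l * u' by push_cast; ring, Complex.exp_sub]
      field_simp
    · have k : ∀ᶠ z in atI, Θ (act g z) =
          G' (act g z) / (b.map (σ : ℂ →+* ℂ)).eval (jf z) * Y (act g z) := by
        filter_upwards [ev_pos, ev_eval b1, cn_ev hV.cn hg, P.ig.ev_avo g3.avo g hg] with z z1 z2 z3 z4
        rw [← jf_act hg z1] at z2 ⊢
        exact (t2 _ (p1 hg z1)).2 (((MF.an hN kG.mf' (p1 hg z1)).div
          (MF.an hN (mf_eval hN _) (p1 hg z1)) z2).mul (aY _ (p1 hg z1)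
            ((hV.dv.ne_iff (p1 hg z1)).1 z3) (not_or.1 z4).2)).continuousAt
      have a1 := kG.bdd hN b0 (fun g hg => (cn_bdd cq hg).congr' (by
        filter_upwards [ev_pos, ev_eval b0] with z z1 z2
        rw [← jf_act hg z1] at z2 ⊢
        exact (G2 _ (p1 hg z1) z2).symm) EventuallyEq.rfl) hg
      have a2 := kH.bdd hN d0 (fun g hg => (cn_bdd (cq.zpow (-1)) hg).congr' (by
        filter_upwards [ev_pos, ev_eval d0] with z z1 z2
        rw [← jf_act hg z1] at z2 ⊢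
        rw [H2 _ (p1 hg z1) z2, q', zpow_neg_one]) EventuallyEq.rfl) hg
      refine ⟨(a1.mul (cn_bdd cY hg)).congr' (EventuallyEq.symm k) EventuallyEq.rfl,
        (a2.mul (cn_bdd (cY.zpow (-1)) hg)).congr' ?_ EventuallyEq.rfl⟩
      filter_upwards [k, ev_pos, ev_eval b1, ev_eval d1] with z z1 z2 z3 z4
      have := (kG.mul kH).eq (cg_eval hN (b * d)) GH (p1 hg z2)
      rw [Polynomial.map_mul, eval_mul, jf_act hg z2] at this
      rw [z1, mul_inv, zpow_neg_one, inv_div, div_eq_div_iff z4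
        (left_ne_zero_of_mul (this ▸ mul_ne_zero z3 z4)) |>.2 (by rw [← this, mul_comm])]
  obtain ⟨Θ₁, r1, r2⟩ := (gr_stmt N 0 hN).2.1 _ _ _ _ (par_ci P) th
  obtain ⟨κ, hκ⟩ := r1.const hN
  refine ⟨Real.log ‖κ‖ - (eta P.L c' * u').re - (eta P.L u' * u').re / 2,
    fun z z' h z1 z2 z3 => ?_⟩
  have z4 : ν z' = 0 := by rw [hν z z' h, z1, mul_zero]
  have s1 : pmap (σ : ℂ →+* ℂ) (P.φ z - P.per.unif c) = P.per.unif (P.F z' - c') := by
    rw [map_sub, map_sub, ← h.φ P, hc, Par.φ]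
  have s2 : pmap (σ : ℂ →+* ℂ) (P.φ z - P.per.unif c - P.per.unif u) =
      P.per.unif (P.F z' - (c' + u')) := by
    rw [map_sub, s1, ← hu, ← map_sub, sub_sub]
  have s3 : P.F z' - c' ∉ P.L.lattice := fun k => z2 (by
    rwa [← P.per.unif_eq_zero_iff, ← s1, gep_zero, Par.φ, ← map_sub,
      P.per.unif_eq_zero_iff] at k)
  have s4 : P.F z' - (c' + u') ∉ P.L.lattice := fun k => z3 (by
    rwa [← P.per.unif_eq_zero_iff, ← s2, gep_zero, Par.φ, ← map_sub, ← map_sub,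
      P.per.unif_eq_zero_iff] at k)
  obtain ⟨y, y1, y2, y3⟩ := h.val hN kG (cg_eval hN b) (nb b0) (g := hq P u V c) (funext q ▸
    (hV.dv.an h.pos z1).mul ((an_sig P _ h.pos).div (an_sig P _ h.pos)
      (sig_ne (by rwa [← sub_sub])))) (eq z h.pos)
  have y4 : Θ z' = y z' * Y z' := geb_eq (g := fun t => y t * Y t)
    (t1.an h.pos' rfl).continuousAt (y1.mul (aY _ h.pos' z4 s3)).continuousAt
    ((t2 _ h.pos').1.trans (y2.mul EventuallyEq.rfl))
  have y5 := r2 z' h.pos' rfl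
  have y6 : σ (hq P u V c z) ≠ 0 := by
    rw [_root_.map_ne_zero]
    exact mul_ne_zero (hV.dv.ne h.pos z1) (div_ne_zero (sig_ne z2) (sig_ne z3))
  have n1 := norm_ne_zero_iff.2 (sig_ne s3)
  have n2 := norm_ne_zero_iff.2 (sig_ne s4)
  have n3 := norm_ne_zero_iff.2 (hV.dv.ne h.pos' z4)
  rw [hκ _ h.pos', gT, y4, y3, hY, norm_mul, norm_mul, norm_div, norm_zpow,
    Real.log_mul (norm_ne_zero_iff.2 y6) (mul_ne_zero (div_ne_zero n2 n1) (zpow_ne_zero _ n3)),
    Real.log_mul (div_ne_zero n2 n1) (zpow_ne_zero _ n3), Real.log_div n2 n1, Real.log_zpow] at y5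
  rw [s1, s2, lamA_unif _ s3, lamA_unif _ s4, lamL, lamL, gT, y5, ← sub_sub]
  have y7 := re_eta_form (L := P.L) (P.F z' - c') u'
  rcases he with rfl | rfl <;>
    simp only [U1, map_sub, sub_mul, mul_sub, sub_re, Int.cast_neg, Int.cast_one, one_mul, neg_mul,
      mul_neg, neg_re, neg_neg] at y7 ⊢ <;>
    linarith

end Pool.Agent.G5
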