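import Pool.Agent.Lib.MP_696deb_nt.CntDefs
import Pool.Agent.Lib.MP_696deb_nt.ModPoly
import Pool.Agent.Lib.MP_696deb_nt.VarChange

/-! Forms of arbitrary level, formal Hecke operators, and the arithmetic statements. -/

set_option autoImplicit false

open Finset NumberTheorySymbols
open scoped Classical

namespace Pool.Agent.G5

open Pool.Agent.Lib.MP_696deb_nt

/-- Equivalence of forms under the congruence subgroup. -/
def FEq (N : ℕ) (Q R : Fm) : Prop :=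
  ∃ a b c d : ℤ, a * d - b * (N * c) = 1 ∧ R = fmap Q a b (N * c) d

/-- Bounded invariant weights on the forms of discriminant `e`. -/
structure Wt (N : ℕ) (w : Fm → ℤ) (e : ℤ) : Prop where
  disc : ∀ R, w R ≠ 0 → fdisc R = e
  inv : ∀ Q R, FEq N Q R → w R = w Q
  bdd : ∃ C : ℤ, ∀ R, |w R| ≤ C

/-- Forms of level `N` with discriminant `e` and orientation `β`. -/
def Fam (N : ℕ) (e β : ℤ) (R : Fm) : Prop :=
  (N : ℤ) ∣ R.1 ∧ fdisc R = e ∧ 2 * (N : ℤ) ∣ R.2.1 - β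

/-- The genus character as a weight on a family. -/
noncomputable def wG (N A : ℕ) (e β : ℤ) (R : Fm) : ℤ := if Fam N e β R then gch A R else 0

/-- The weight of the symmetrized special divisor. -/
noncomputable def wZ (N B : ℕ) (D ρ : ℤ) (Q : Fm) : ℤ :=
  if 0 < Q.1 then wG N B D ρ Q + J(-1 | B) * wG N B D (-ρ) Q else 0

/-- Complete systems of representatives of the positive forms of a family. -/
structure FReps (N : ℕ) (D β : ℤ) (T : Finset Fm) : Prop where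
  fam : ∀ Q ∈ T, Fam N D β Q
  pos : ∀ Q ∈ T, 0 < Q.1
  ex : ∀ Q, Fam N D β Q → 0 < Q.1 → ∃ R ∈ T, FEq N R Q
  uniq : ∀ Q ∈ T, ∀ R ∈ T, FEq N Q R → Q = R

/-- The level `N` and the discriminant `-n`. -/
structure Good (N n : ℕ) : Prop where
  sqf : Squarefree n
  mod4 : n % 4 = 3
  cop : n.Coprime N
  lsq : Squarefree N
  lodd : Odd N
  l1 : 1 < N

/-- The numerical data. -/
structure Cx (N p A B : ℕ) (ρ ρ' β : ℤ) : Prop extends Good N (A * B) where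
  hp : p.Prime
  dvd : p ∣ N
  ne : N ≠ p
  A1 : 1 < A
  B1 : 1 < B
  jac : J(-N | B) = -1
  root : 4 * (N : ℤ) ∣ ρ ^ 2 + (A * B : ℕ)
  rp : (p : ℤ) ∣ ρ' + ρ
  rq : 2 * ((N / p : ℕ) : ℤ) ∣ ρ' - ρ
  bet : 2 * (N : ℤ) ∣ B * β + ρ * ρ'

/-- The special divisors of conductor dividing `m`. -/
noncomputable def Yw (N A B : ℕ) (ρ' : ℤ) (m : ℕ) : Fm → ℤ :=
  wZ N B (-(B * (A * m ^ 2))) (ρ' * m)

/-- The split families of geodesics. -/
noncomputable def Cw (N A : ℕ) (β : ℤ) (m : ℕ) : Fm → ℤ := wG N A (A * (A * m ^ 2)) (β * m)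

/-- The divisor on the upper half plane attached to a weight. -/
noncomputable def nuW (w : Fm → ℤ) (z : ℂ) : ℤ := ∑ᶠ R : Fm, if froot R = z then w R else 0

/-- The sum of a function over the symmetrized special divisor. -/
noncomputable def zs {V : Type} [AddCommGroup V] (N A B : ℕ) (ρ : ℤ) (T T' : Finset Fm)
    (S : ℂ → V) : V := ∑ Q ∈ T ∪ T', wZ N B (-(A * B : ℕ)) ρ Q • S (froot Q)

/-- Special points with orientation `ρ` or `-ρ`. -/
def Ori (N n : ℕ) (ρ : ℤ) (z : ℂ) : Prop := ∃ (R : Fm) (M : ℕ), M ≠ 0 ∧ M.Coprime N ∧ 0 < R.1 ∧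
  (Fam N (-(n * M ^ 2)) (ρ * M) R ∨ Fam N (-(n * M ^ 2)) (-(ρ * M)) R) ∧ z = froot R

/-- Special points of the field of discriminant `-n`. -/
def CM (n : ℕ) (z : ℂ) : Prop :=
  ∃ (R : Fm) (M : ℕ), M ≠ 0 ∧ 0 < R.1 ∧ fdisc R = -(n * M ^ 2) ∧ z = froot R

/-- The count of pairs of a line and a geodesic. -/
noncomputable def cL (B : ℕ) (w : Fm → ℤ) (t : ℤ) : ℤ :=
  cntL B (Ico (0 : ℤ) B) (fun k => J(k | B)) w t + cntL B (Ico (0 : ℤ) B) (fun k => J(k | B)) w (-t)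

/-- The logarithmic terms. -/
noncomputable def Lg (B : ℕ) (w : Fm → ℤ) : ℝ :=
  ∑ k ∈ Ico (0 : ℤ) B, (J(k | B) : ℝ) * ∑ᶠ R : Fm, if R.1 * fval R k B < 0 then
    (w R * R.1.sign : ℝ) * (Real.log |(fval R k B : ℝ)| - Real.log |(R.1 : ℝ)|) / 2 else 0

/-- Formal Hecke operators. -/
abbrev HW := FreeAlgebra ℤ ℕ

/-- The generator attached to `l`. -/
abbrev tl (l : ℕ) : HW := FreeAlgebra.ι ℤ l

/-- The operators generated by the primes that do not divide `M`. -/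
noncomputable def HA (M : ℕ) : Subalgebra ℤ HW :=
  Algebra.adjoin ℤ (tl '' {l | l.Prime ∧ ¬ l ∣ M})

/-- The Hecke operator on functions. -/
noncomputable def Tf (V : Type) [AddCommGroup V] (l : ℕ) : Module.End ℤ (ℂ → V) where
  toFun S z := ∑ i, S (act (rP l i) z)
  map_add' S S' := funext fun z => by simp [sum_add_distrib]
  map_smul' c S := funext fun z => by simp [smul_sum]

/-- The action on functions. -/
noncomputable def hf (V : Type) [AddCommGroup V] : HW →ₐ[ℤ] Module.End ℤ (ℂ → V) :=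
  FreeAlgebra.lift ℤ (Tf V)

/-- The eigenvalue. -/
noncomputable def he (a : ℕ → ℤ) : HW →ₐ[ℤ] ℤ := FreeAlgebra.lift ℤ a

/-- Linear combinations of a family. -/
noncomputable abbrev cmb {V : Type} [AddCommGroup V] (Φ : ℕ → V) : (ℕ →₀ ℤ) →ₗ[ℤ] V :=
  Finsupp.linearCombination ℤ Φ

/-- The Hecke operator on coefficients. -/
noncomputable def Ta (η : ℕ → ℤ) (l : ℕ) : Module.End ℤ (ℕ →₀ ℤ) :=
  cmb fun m => Finsupp.single (l * m) 1 +
    if l ∣ m then Finsupp.single (m / l) (l : ℤ) else Finsupp.single m (η l)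

/-- The action on coefficients. -/
noncomputable def ha (η : ℕ → ℤ) : HW →ₐ[ℤ] Module.End ℤ (ℕ →₀ ℤ) := FreeAlgebra.lift ℤ (Ta η)

/-- The character that enters the recursion. -/
def et (A l : ℕ) : ℤ := J((l : ℤ) | A)

/-- Families that satisfy the Hecke recursion. -/
def HFm {V : Type} [AddCommGroup V] (N : ℕ) (η : ℕ → ℤ) (Φ : ℕ → ℂ → V) : Prop :=
  ∀ l : ℕ, l.Prime → ¬ l ∣ N → ∀ m : ℕ, m ≠ 0 → m.Coprime N → ∀ z : ℂ, 0 < z.im →
    Tf V l (Φ m) z = Φ (l * m) z + if l ∣ m then (l : ℤ) • Φ (m / l) z else η l • Φ m z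

/-- Coefficients supported on nonzero integers prime to `M`. -/
def Sup (M : ℕ) (a : ℕ →₀ ℤ) : Prop := ∀ m ∈ a.support, m ≠ 0 ∧ m.Coprime M

/-- The operators attached to the powers of `l`. -/
noncomputable def Xl (l : ℕ) : ℕ → HW
  | 0 => 1
  | 1 => tl l
  | j + 2 => tl l * Xl l (j + 1) - (l : ℤ) • Xl l j

/-- The sum over the Hecke correspondence of degree `M`. -/
noncomputable def hsum {V : Type} [AddCommGroup V] (M : ℕ) (g : ℂ → V) (τ : ℂ) : V :=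
  ∑ x ∈ M.divisorsAntidiagonal, ∑ b ∈ range x.2, g ((x.1 * τ + b) / x.2)

/-- The two counts agree. -/
def CNStmt : Prop := ∀ (N A B : ℕ) (x ρ ρ' β t : ℤ) (T T' : Finset Fm), Good N (A * B) →
  1 < A → J(-N | B) = -1 → 0 < x → 4 * (N : ℤ) ∣ ρ ^ 2 + (A * B : ℕ) → 2 * (N : ℤ) ∣ B * β + ρ * ρ' →
  FReps N (-(A * B : ℕ)) ρ T → FReps N (-(A * B : ℕ)) (-ρ) T' → 0 ≤ t → B ^ 2 * (A * x) < t ^ 2 →
  cntP (T ∪ T') (wZ N B (-(A * B : ℕ)) ρ) (wZ N B (-(B * x)) ρ') (-t) =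
    -(J(N | A) * J(-1 | B)) * cL B (wG N A (A * x) β) t

/-- The Hecke recursion for both families, and the points where the divisors vanish. -/
def HWStmt : Prop := ∀ (N p A B : ℕ) (ρ ρ' β : ℤ), Cx N p A B ρ ρ' β →
  HFm N (et A) (fun m => nuW (Yw N A B ρ' m)) ∧ HFm N (et A) (fun m => Iw (Cw N A β m)) ∧
  (∀ z, Ori N (A * B) ρ z → ∀ l : ℕ, l.Prime → ¬ l ∣ N → ∀ i, Ori N (A * B) ρ (act (rP l i) z)) ∧
  ∀ z, Ori N (A * B) ρ z → ∀ m : ℕ, m ≠ 0 → m.Coprime N → ∀ R, Yw N A B ρ' m R ≠ 0 → froot R ≠ z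

/-- The logarithmic terms at a prime. -/
def LTStmt : Prop := ∀ (N p A B : ℕ) (ρ ρ' β : ℤ), Cx N p A B ρ ρ' β → ∀ l m : ℕ, l.Prime →
  m ≠ 0 → m.Coprime (N * l) → (et (A * B) l = 1 → Lg B (Cw N A β m) ∈ LogS l) ∧
  (et (A * B) l ≠ 1 → ∃ C : ℚ, ∀ i : ℕ, ∃ σ : ℚ, |σ| ≤ C * (i + 1) ^ 2 ∧
    Lg B (Cw N A β (m * l ^ i)) - σ * Real.log l ∈ LogS l)

end Pool.Agent.G5
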