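import Pool.Agent.Lib.MP_60ff09_nt.Dih.FPg
import Pool.Agent.Lib.MP_696deb_nt.B5.Z0

/-! The points of the Hecke correspondence at a prime that is not split. -/

set_option autoImplicit false

open Complex Finset NumberTheorySymbols
open scoped Real ComplexConjugate Classical
open Pool.Agent.Lib.MP_696deb_nt Pool.Agent.Lib.MP_696deb_nt.B2.CM Pool.Agent.Lib.MP_696deb_nt.Unif

namespace Pool.Agent.G5

open Pool.Agent.Dih hiding hsum hsum_eq

variable {n l m M P : ℕ} {D D' : ℤ} {Q R : Fm} {τ τ' : ℂ} {t : (_ : ℕ × ℕ) × ℕ}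

theorem hsum_eq {E : Type} [AddCommGroup E] (M : ℕ) (g : ℂ → E) (τ : ℂ) :
    hsum M g τ = ∑ t ∈ HI M, g (hpt t τ) := sum_sigma' _ _ _

theorem fdisc_fmap' (R : Fm) (a b c d : ℤ) :
    fdisc (fmap R a b c d) = (a * d - b * c) ^ 2 * fdisc R := by
  simp only [fdisc, fmap, fval]
  ring

theorem fmap_hecke (hD : fdisc R < 0) (hR : 0 < R.1) {a d : ℤ} (ha : 0 < a) (hd : 0 < d) (b : ℤ) :
    0 < (fmap R d (-b) 0 a).1 ∧ froot (fmap R d (-b) 0 a) = (a * froot R + b) / d := by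
  have h1 : 0 < (fmap R d (-b) 0 a).1 := by
    have e : (fmap R d (-b) 0 a).1 = R.1 * d ^ 2 := by simp [fmap, fval]
    rw [e]
    positivity
  have h2 : fdisc (fmap R d (-b) 0 a) < 0 := by
    rw [fdisc_fmap']
    refine mul_neg_of_pos_of_neg ?_ hD
    rw [mul_zero, sub_zero]
    positivity
  have hd' : (d : ℂ) ≠ 0 := by exact_mod_cast hd.ne'
  refine ⟨h1, (eq_froot h2 h1 ?_ ?_).symm⟩
  · have h3 := im_froot_pos hD hR
    have e : (((a : ℂ) * froot R + b) / d).im = a * (froot R).im / d := by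
      rw [show (d : ℂ) = ((d : ℝ) : ℂ) by norm_cast, div_ofReal_im]
      simp
    rw [e]
    positivity
  · have h3 := froot_root hD hR
    simp only [fmap, fval]
    push_cast
    field_simp
    linear_combination (a : ℂ) ^ 2 * (d : ℂ) ^ 2 * h3

theorem fpa_im {a d : ℕ} (ha : a ≠ 0) (hd : d ≠ 0) (b : ℕ) (hτ : 0 < τ.im) :
    0 < ((a * τ + b) / d : ℂ).im := by
  rw [Complex.div_natCast_im]
  have h1 : (0 : ℝ) < a := Nat.cast_pos.2 (Nat.pos_of_ne_zero ha)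
  have h2 : (0 : ℝ) < d := Nat.cast_pos.2 (Nat.pos_of_ne_zero hd)
  simp only [add_im, mul_im, natCast_re, natCast_im, zero_mul, add_zero]
  positivity

theorem hpt_im (ht : t ∈ HI M) (hτ : 0 < τ.im) : 0 < (hpt t τ).im := by
  obtain ⟨h1, h2, -⟩ := mem_HI.1 ht
  rw [← h1] at h2
  exact fpa_im (left_ne_zero_of_mul h2) (right_ne_zero_of_mul h2) _ hτ

theorem sum_hgc_le (M : ℕ) : ∑ t ∈ HI M, hgc t ^ 2 ≤ M.divisors.card ^ 2 * M := by
  have h1 : ∀ x ∈ M.divisorsAntidiagonal,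
      ∑ b ∈ range x.2, x.1.gcd (x.2.gcd b) ^ 2 ≤ M.divisors.card * M := by
    intro x hx
    obtain ⟨e, hM⟩ := Nat.mem_divisorsAntidiagonal.1 hx
    have h2 : ∀ b ∈ range x.2, x.1.gcd (x.2.gcd b) ^ 2 ≤
        ∑ c ∈ M.divisors, if c ∣ x.1 ∧ c ∣ x.2 ∧ c ∣ b then c ^ 2 else 0 := by
      intro b _
      refine le_trans (le_of_eq ?_) (single_le_sum (f := fun c =>
        if c ∣ x.1 ∧ c ∣ x.2 ∧ c ∣ b then c ^ 2 else 0) (fun _ _ => Nat.zero_le _)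
        (Nat.mem_divisors.2 ⟨(Nat.gcd_dvd_left x.1 (x.2.gcd b)).trans (Dvd.intro _ e), hM⟩))
      rw [if_pos ⟨Nat.gcd_dvd_left _ _, (Nat.gcd_dvd_right _ _).trans (Nat.gcd_dvd_left _ _),
        (Nat.gcd_dvd_right _ _).trans (Nat.gcd_dvd_right _ _)⟩]
    refine (sum_le_sum h2).trans ?_
    rw [sum_comm, ← smul_eq_mul]
    refine sum_le_card_nsmul _ _ _ fun c hc => ?_
    by_cases h3 : c ∣ x.1 ∧ c ∣ x.2
    · obtain ⟨h3, d, hd⟩ := h3
      have ha : c ≤ x.1 := Nat.le_of_dvd (Nat.pos_of_ne_zero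
        (Nat.ne_zero_of_mem_divisorsAntidiagonal hx).1) h3
      have h4 : ((range x.2).filter fun b => c ∣ x.1 ∧ c ∣ x.2 ∧ c ∣ b).card ≤ d := by
        refine (card_le_card (t := (range d).image fun j => c * j) fun b hb => ?_).trans
          (card_image_le.trans (card_range d).le)
        obtain ⟨k1, -, -, j, rfl⟩ := mem_filter.1 hb
        rw [mem_range, hd] at k1
        exact mem_image.2 ⟨j, mem_range.2 (Nat.lt_of_mul_lt_mul_left k1), rfl⟩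
      rw [← sum_filter, sum_const, smul_eq_mul, ← e, hd]
      calc _ ≤ d * c ^ 2 := Nat.mul_le_mul_right _ (hd ▸ h4)
        _ = c * (c * d) := by ring
        _ ≤ _ := Nat.mul_le_mul_right _ ha
    · rw [sum_eq_zero fun b _ => if_neg fun h => h3 ⟨h.1, h.2.1⟩]
      exact Nat.zero_le _
  have h5 : M.divisorsAntidiagonal.card = M.divisors.card := by
    rw [← Nat.map_div_right_divisors, card_map]
  rw [HI, sum_sigma]
  refine (sum_le_card_nsmul _ _ _ h1).trans (le_of_eq ?_)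
  rw [h5, smul_eq_mul]
  ring

theorem fpi_form (hD : fdisc Q < 0) (hQ : 0 < Q.1) (ht : t ∈ HI M) :
    0 < (fmap Q t.1.2 (-t.2) 0 t.1.1).1 ∧ froot (fmap Q t.1.2 (-t.2) 0 t.1.1) = hpt t (froot Q) ∧
      fdisc (fmap Q t.1.2 (-t.2) 0 t.1.1) = fdisc Q * M ^ 2 ∧
      Rt (fmap Q t.1.2 (-t.2) 0 t.1.1) (hpt t (froot Q)) := by
  obtain ⟨h1, h2, -⟩ := mem_HI.1 ht
  obtain ⟨h3, h4⟩ := mul_ne_zero_iff.1 (h1 ▸ h2)
  obtain ⟨h5, h6⟩ := fmap_hecke hD hQ (a := t.1.1) (d := t.1.2) (by positivity) (by positivity) t.2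
  have h7 : fdisc (fmap Q t.1.2 (-t.2) 0 t.1.1) = fdisc Q * M ^ 2 := by
    rw [fdisc_fmap', ← h1]
    push_cast
    ring
  have h8 : froot (fmap Q t.1.2 (-t.2) 0 t.1.1) = hpt t (froot Q) := by simpa [hpt] using h6
  exact ⟨h5, h8, h7, h8 ▸ rt_froot (h7 ▸ mul_neg_of_neg_of_pos hD (by positivity)) h5⟩

theorem fpi_swap {x y : ℤ} {k : ℕ}
    (h : ∀ (Q : Fm) (x y : ℤ), fdisc Q = D → (P : ℤ) ^ k ∣ fval Q x y → (P : ℤ) ∣ y)
    (hQ : fdisc Q = D) (hv : (P : ℤ) ^ k ∣ fval Q x y) : (P : ℤ) ∣ x ∧ (P : ℤ) ∣ y :=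
  ⟨h (Q.2.2, Q.2.1, Q.1) y x (by rw [← hQ, fdisc, fdisc]; ring)
    (by convert hv using 1; simp only [fval]; ring), h Q x y hQ hv⟩

theorem fpi_inert (h : ∀ b k : ℤ, b ^ 2 - D ≠ 4 * P * k) (hP : P.Prime) (hQ : fdisc Q = D)
    {x y : ℤ} (hv : (P : ℤ) ∣ fval Q x y) : (P : ℤ) ∣ x ∧ (P : ℤ) ∣ y := by
  refine fpi_swap (k := 1) (fun Q x y hQ ⟨f, hf⟩ => ?_) hQ (by simpa using hv)
  by_contra k
  obtain ⟨s, z, e⟩ := (Nat.prime_iff_prime_int.1 hP).irreducible.coprime_iff_not_dvd.2 k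
  refine h (2 * Q.1 * x * z + Q.2.1) (Q.1 * (z ^ 2 * f + s * (Q.2.1 * x * z + Q.2.2 * (1 + z * y)))) ?_
  rw [← hQ, fdisc]
  rw [fval] at hf
  linear_combination 4 * Q.1 * z ^ 2 * hf - 4 * Q.1 * (Q.2.1 * x * z + Q.2.2 * (1 + z * y)) * e

theorem ns_not_sq (h : NS P D) : ¬ (P : ℤ) ^ 2 ∣ D := by
  obtain ⟨-, h4, h | h⟩ := h
  · rintro ⟨c, rfl⟩
    have h2 : (P : ℤ) % 2 = 1 := by
      by_contra k
      obtain ⟨a, e⟩ : 2 ∣ (P : ℤ) := by omega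
      rw [e, mul_pow, mul_assoc] at h4
      omega
    obtain ⟨a, e⟩ : 2 ∣ (P : ℤ) - 1 := by omega
    obtain ⟨s, e2⟩ : 4 ∣ 1 - c := by
      rw [show (P : ℤ) ^ 2 * c = c + 4 * ((a ^ 2 + a) * c) by
        linear_combination (P + 1 + 2 * a) * c * e] at h4
      omega
    exact h P (P * s) (by linear_combination (P : ℤ) ^ 2 * e2)
  · exact h.2

theorem ns_dvd (h : NS P D) (hP : P.Prime) (hQ : fdisc Q = D) {x y : ℤ} (u : ℕ)
    (hv : (P : ℤ) ^ (2 * u) ∣ fval Q x y) : (P : ℤ) ^ u ∣ x ∧ (P : ℤ) ^ u ∣ y := by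
  have hp := Nat.prime_iff_prime_int.1 hP
  induction u generalizing x y with
  | zero => simp
  | succ u ih =>
  have h2 : (P : ℤ) ^ 2 ∣ fval Q x y := (pow_dvd_pow _ (by omega)).trans hv
  obtain ⟨⟨x, rfl⟩, y, rfl⟩ : (P : ℤ) ∣ x ∧ (P : ℤ) ∣ y := by
    rcases h.2.2 with k | ⟨⟨c, rfl⟩, k⟩
    · exact fpi_inert k hP hQ ((dvd_pow_self _ two_ne_zero).trans h2)
    refine fpi_swap (fun Q x y hQ ⟨f, hf⟩ => ?_) hQ h2
    rw [fval] at hf
    rw [fdisc] at hQ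
    obtain ⟨s, e⟩ := hp.dvd_of_dvd_pow (a := 2 * Q.1 * x + Q.2.1 * y) (n := 2)
      ⟨4 * Q.1 * P * f + c * y ^ 2, by linear_combination 4 * Q.1 * hf + y ^ 2 * hQ⟩
    refine hp.dvd_of_dvd_pow (n := 2) ((hp.dvd_or_dvd (a := c) ⟨s ^ 2 - 4 * Q.1 * f,
      mul_left_cancel₀ hp.ne_zero ?_⟩).resolve_left fun e => k (sq (P : ℤ) ▸ mul_dvd_mul_left _ e))
    linear_combination (2 * Q.1 * x + Q.2.1 * y + P * s) * e - 4 * Q.1 * hf - y ^ 2 * hQ
  rw [show fval Q (P * x) (P * y) = P ^ 2 * fval Q x y by simp only [fval]; ring, mul_add, pow_add,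
    mul_one, mul_comm, mul_dvd_mul_iff_left (pow_ne_zero _ hp.ne_zero)] at hv
  rw [pow_succ']
  exact ⟨mul_dvd_mul_left _ (ih hv).1, mul_dvd_mul_left _ (ih hv).2⟩

theorem fpi_prim (hP : P.Prime) (hQ : Q.1 ≠ 0) : ∃ (e : ℕ) (R : Fm), Prm P R ∧
    Q.1 = P ^ e * R.1 ∧ Q.2.1 = P ^ e * R.2.1 ∧ Q.2.2 = P ^ e * R.2.2 := by
  obtain ⟨e, g, h1, h2⟩ := Nat.exists_eq_pow_mul_and_not_dvd
    (n := Int.gcd Q.1 (Int.gcd Q.2.1 Q.2.2)) (by simp [hQ]) P hP.ne_one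
  have h3 : ∀ k : ℕ, k ∣ Int.gcd Q.1 (Int.gcd Q.2.1 Q.2.2) ↔
      (k : ℤ) ∣ Q.1 ∧ (k : ℤ) ∣ Q.2.1 ∧ (k : ℤ) ∣ Q.2.2 := fun k => by
    rw [Int.dvd_gcd_iff, Int.natCast_dvd_natCast, Int.dvd_gcd_iff]
  obtain ⟨⟨a, ha⟩, ⟨b, hb⟩, c, hc⟩ := (h3 (P ^ e)).1 ⟨g, h2⟩
  push_cast at ha hb hc
  refine ⟨e, (a, b, c), fun ⟨a1, a2, a3⟩ => h1 ?_, ha, hb, hc⟩
  rw [← Nat.mul_dvd_mul_iff_left (pow_pos hP.pos e), ← h2, h3, ha, hb, hc]
  push_cast
  exact ⟨mul_dvd_mul_left _ a1, mul_dvd_mul_left _ a2, mul_dvd_mul_left _ a3⟩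

theorem dp_hpt (h : NS P D) (hP : P.Prime) (hD : fdisc Q = D) (hQ : 0 < Q.1) (hm : ¬ P ∣ m)
    {j : ℕ} (ht : t ∈ HI (m * P ^ j)) :
    ∃ i, Dp P (D * m ^ 2 * P ^ (2 * i)) (hpt t (froot Q)) ∧ P ^ j ≤ P * hgc t ^ 2 * P ^ i := by
  have hp := Nat.prime_iff_prime_int.1 hP
  have D0 : fdisc Q < 0 := hD ▸ h.1
  obtain ⟨h1, -, h3, h4⟩ := fpi_form D0 hQ ht
  obtain ⟨e, R, r1, r2, r3, r4⟩ := fpi_prim hP h1.ne'
  have p0 : (P : ℤ) ^ e ≠ 0 := pow_ne_zero _ hp.ne_zero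
  have h5 : (P ^ e) ^ 2 * fdisc R = D * m ^ 2 * (P ^ j) ^ 2 := by
    rw [fdisc, r2, r3, r4, hD] at h3
    rw [fdisc]
    push_cast at h3
    linear_combination h3
  obtain ⟨i, rfl⟩ : ∃ i, j = e + i := Nat.exists_eq_add_of_le (not_lt.1 fun k => by
    obtain ⟨i, rfl⟩ := Nat.exists_eq_add_of_lt k
    refine ns_not_sq h (hp.pow_dvd_of_dvd_mul_right 2 (b := (m : ℤ) ^ 2)
      (fun k => hm (Int.natCast_dvd_natCast.1 (hp.dvd_of_dvd_pow k))) ⟨(P ^ i) ^ 2 * fdisc R,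
        mul_left_cancel₀ (pow_ne_zero 2 (pow_ne_zero j hp.ne_zero)) ?_⟩)
    linear_combination -h5)
  have d : (P : ℤ) ^ (2 * (e / 2)) ∣ P ^ e := pow_dvd_pow _ (by omega)
  have d1 := (ns_dvd h hP hD _ (d.trans ⟨_, r2⟩)).1
  obtain ⟨d2, d3⟩ := ns_dvd h hP hD _ (d.trans ⟨_, r4⟩)
  have d4 : P ^ (e / 2) ≤ hgc t := Nat.le_of_dvd (Nat.gcd_pos_of_pos_left _
    (Nat.pos_of_mul_pos_right ((mem_HI.1 ht).1 ▸ (mem_HI.1 ht).2.1.bot_lt)))
    (Nat.dvd_gcd (by exact_mod_cast d3) (Nat.dvd_gcd (by exact_mod_cast d1)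
      (by exact_mod_cast dvd_neg.1 d2)))
  refine ⟨i, ⟨hpt_im ht (im_froot_pos D0 hQ), R, ?_,
    mul_left_cancel₀ (pow_ne_zero 2 p0) (by linear_combination h5), r1⟩, ?_⟩
  · rw [Rt, r2, r3, r4] at h4
    push_cast at h4
    exact mul_left_cancel₀ (a := (P : ℂ) ^ e) (by exact_mod_cast p0) (by linear_combination h4)
  · rw [pow_add]
    refine Nat.mul_le_mul_right _ (le_trans ?_ (Nat.mul_le_mul_left _ (Nat.pow_le_pow_left d4 2)))
    rw [← pow_mul, ← pow_succ']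
    exact Nat.pow_le_pow_right hP.pos (by omega)

theorem inert_of_jac (h4 : n % 4 = 3) (hl : l.Prime) (hJ : J((l : ℤ) | n) = -1) (b k : ℤ) :
    b ^ 2 + n ≠ 4 * l * k := fun e => by
  have hn : Odd n := Nat.odd_iff.2 (by omega)
  rcases hl.eq_two_or_odd' with rfl | h2
  · obtain ⟨c, rfl | rfl⟩ := Int.even_or_odd' b
    · rw [show (2 * c) ^ 2 = 4 * c ^ 2 by ring] at e
      omega
    · obtain ⟨d, hd⟩ := Int.even_mul_succ_self c
      rw [show (2 * c + 1) ^ 2 = 4 * (c * (c + 1)) + 1 by ring, hd] at e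
      rw [Nat.cast_ofNat, jacobiSym.at_two hn, ZMod.χ₈_nat_eq_if_mod_eight, if_neg (by omega),
        if_pos (by omega)] at hJ
      exact absurd hJ (by decide)
  · refine ZMod.nonsquare_of_jacobiSym_eq_neg_one (a := -n) (b := l) ?_ ⟨b, ?_⟩
    · rw [jacobiSym.neg _ h2, ZMod.χ₄_nat_eq_if_mod_four, if_neg (by have := Nat.odd_iff.1 h2; omega)]
      split_ifs with h
      · rw [one_mul, ← jacobiSym.quadratic_reciprocity_one_mod_four h hn, hJ]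
      · rw [jacobiSym.quadratic_reciprocity_three_mod_four h4
          (by have := Nat.odd_iff.1 h2; omega), hJ]
        rfl
    · rw [show -(n : ℤ) = b * b - l * (4 * k) by linear_combination -e]
      push_cast
      rw [ZMod.natCast_self, zero_mul, sub_zero]

theorem jac_cases (hl : l.Prime) (hJ : J((l : ℤ) | n) ≠ 1) : J((l : ℤ) | n) = -1 ∨ l ∣ n := by
  by_cases h : l ∣ n
  · exact .inr h
  · exact .inl ((jacobiSym.eq_one_or_neg_one (by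
      rw [Int.gcd_natCast_natCast]; exact hl.coprime_iff_not_dvd.2 h)).resolve_left hJ)

theorem yv_froot (hD : D < 0) (hR : 0 < R.1) (hm : ¬ l ∣ m) (h : fdisc R = D * m ^ 2) :
    Yv l D (froot R) :=
  have h0 : fdisc R < 0 := h ▸ mul_neg_of_neg_of_pos hD (by
    have : m ≠ 0 := fun e => hm (e ▸ dvd_zero _)
    positivity)
  ⟨im_froot_pos h0 hR, R, m, rt_froot h0 hR, h, mt Int.natCast_dvd_natCast.1 hm⟩

theorem zv_hpt (h4 : n % 4 = 3) (hQ : 0 < Q.1) (hD : fdisc Q = -n) (hl : l.Prime)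
    (hJ : J((l : ℤ) | n) = -1) (hm : ¬ l ∣ m) (ht : t ∈ HI (l * m)) :
    Zv l (-n) (hpt t (froot Q)) := by
  have h0 : fdisc Q < 0 := by omega
  obtain ⟨-, -, h3, h5⟩ := fpi_form h0 hQ ht
  have k := fun x y => fpi_inert (fun b k => by simpa using inert_of_jac h4 hl hJ b k) hl hD
    (x := x) (y := y)
  refine ⟨m, by rintro e; simp_all, hpt_im ht (im_froot_pos h0 hQ), _, h5,
    by rw [h3, hD, Nat.cast_mul], fun ⟨a1, _, a2⟩ => hm ?_⟩
  have := mul_dvd_mul (Int.natCast_dvd_natCast.1 (k _ _ a2).2) (Int.natCast_dvd_natCast.1 (k _ _ a1).1)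
  rwa [(mem_HI.1 ht).1, Nat.mul_dvd_mul_iff_left hl.pos] at this

/-- The prime is inert or ramified and does not divide the conductor. -/
def NS0 (P : ℕ) (D : ℤ) : Prop := D < 0 ∧
  ((∀ b k : ℤ, b ^ 2 - D ≠ 4 * P * k) ∨ ((P : ℤ) ∣ D ∧ ¬ (P : ℤ) ^ 2 ∣ D))

theorem ns0_of_jac (hn : Squarefree n) (h4 : n % 4 = 3) (hP : P.Prime) (hJ : J((P : ℤ) | n) ≠ 1)
    (hm : ¬ P ∣ m) : NS0 P (-n * m ^ 2) := by
  have hp := Nat.prime_iff_prime_int.1 hP
  have m0 : m ≠ 0 := fun e => hm (e ▸ dvd_zero _)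
  refine ⟨mul_neg_of_neg_of_pos (by omega) (by positivity), ?_⟩
  rcases jac_cases hP hJ with h | h
  · refine .inl fun b k e => hm (Int.natCast_dvd_natCast.1 ?_)
    obtain ⟨d, hd⟩ : ∃ d : ℤ, n + 1 = 4 * d := ⟨(n + 1) / 4, by omega⟩
    obtain ⟨c, hc⟩ : ∃ c : ℤ, b = 2 * c + m := by
      obtain ⟨x, hx⟩ := Int.even_mul_succ_self b
      obtain ⟨y, hy⟩ := Int.even_mul_succ_self (m : ℤ)
      exact ⟨x - y - 2 * P * k + 2 * d * m ^ 2, by linear_combination hx - hy - e + m ^ 2 * hd⟩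
    refine (fpi_inert (D := -n) (Q := (1, 1, d)) (x := c) (y := m)
      (fun b k => by simpa using inert_of_jac h4 hP h b k) hP
      (by simp only [fdisc]; linear_combination hd) ⟨k, ?_⟩).2
    simp only [fval]
    refine mul_left_cancel₀ (a := 4) (by norm_num) ?_
    rw [hc] at e
    linear_combination e - m ^ 2 * hd
  · refine .inr ⟨((Int.natCast_dvd_natCast.2 h).neg_right).mul_right _, fun k => ?_⟩
    have := hp.pow_dvd_of_dvd_mul_right 2 (b := (m : ℤ) ^ 2)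
      (fun k => hm (Int.natCast_dvd_natCast.1 (hp.dvd_of_dvd_pow k))) k
    exact hP.prime.not_isUnit (hn P (by rw [← sq]; exact_mod_cast dvd_neg.1 this))

theorem ns_of_jac (hn : Squarefree n) (h4 : n % 4 = 3) (hP : P.Prime) (hJ : J((P : ℤ) | n) ≠ 1)
    (hm : ¬ P ∣ m) (ho : Odd m) : NS P (-n * m ^ 2) := by
  obtain ⟨h1, h2⟩ := ns0_of_jac hn h4 hP hJ hm
  refine ⟨h1, ?_, h2⟩
  obtain ⟨c, rfl⟩ := ho
  rw [show -(n : ℤ) * ((2 * c + 1 : ℕ) : ℤ) ^ 2 = -n + 4 * (-n * (c ^ 2 + c)) by push_cast; ring]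
  omega

variable {Γ : Type*} [LinearOrderedCommGroupWithZero Γ] {V : Valuation ℂ Γ}

theorem val_ph_ram0 (hP : P.Prime) (hV : V P < 1) (hτ : 0 < τ.im) (h : Rt Q τ) (hD : fdisc Q < 0)
    (h1 : (P : ℤ) ∣ fdisc Q) (h2 : ¬ (P : ℤ) ^ 2 ∣ fdisc Q)
    {i : Option (Fin P)} (hi : (P : ℤ) ∣ Dih.ev P Q i) : V (ph P i τ) ^ 2 = V P ^ 12 := by
  have hj := (h.isCM hτ hD).val_jf V
  have hp := Nat.prime_iff_prime_int.mp hP
  have hp0 : (P : ℤ) ≠ 0 := by exact_mod_cast hP.ne_zero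
  obtain ⟨a, b, c⟩ := Q
  simp only [fdisc, Rt] at h hD h1 h2
  have hS : (!![-b, -(2 * c); 2 * a, b] : MZ).det = -(b ^ 2 - 4 * a * c) := by
    rw [Matrix.det_fin_two_of]; ring
  have hS0 : 0 < (!![-b, -(2 * c); 2 * a, b] : MZ).det := by rw [hS]; omega
  obtain ⟨N, hN⟩ : ∃ N : MZ, !![-b, -(2 * c); 2 * a, b] = N * rP P i := by
    rcases i with _ | k
    · simp only [Dih.ev] at hi
      obtain ⟨v, hv⟩ : (P : ℤ) ∣ b := hp.dvd_of_dvd_pow (n := 2) (by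
        simpa using dvd_add h1 ((hi.mul_left 4).mul_right c))
      obtain ⟨u, hu⟩ := hi
      refine ⟨!![-v, -(2 * c); 2 * u, b], ?_⟩
      ext x y
      fin_cases x <;> fin_cases y <;> simp [rP, ut, Matrix.mul_apply, Fin.sum_univ_two]
      · linear_combination hv
      · linear_combination 2 * hu
    · simp only [Dih.ev, fval] at hi
      obtain ⟨v, hv⟩ : (P : ℤ) ∣ b - 2 * a * (k : ℕ) := hp.dvd_of_dvd_pow (n := 2) (by
        convert dvd_add h1 (hi.mul_left (4 * a)) using 1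
        ring)
      obtain ⟨u, hu⟩ := hi
      refine ⟨!![-b, -(2 * u) - (k : ℕ) * v; 2 * a, v], ?_⟩
      ext x y
      fin_cases x <;> fin_cases y <;> simp [rP, ut, Matrix.mul_apply, Fin.sum_univ_two]
      · linear_combination -2 * hu - ((k : ℕ) : ℤ) * hv
      · linear_combination hv
  obtain ⟨e, he⟩ := h1
  have hN1 : N.det = -e := by
    have := congr_arg Matrix.det hN
    rw [hS, Matrix.det_mul, (isReps_rP hP).det, he] at this
    exact mul_right_cancel₀ hp0 (by linear_combination -this)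
  have he1 : ¬ (P : ℤ) ∣ e := fun ⟨f, hf⟩ => h2 ⟨f, by rw [he, hf]; ring⟩
  have hN0 : 0 < N.det := by
    rw [hN, Matrix.det_mul] at hS0
    exact pos_of_mul_pos_left hS0 (rP_pos hP i).le
  have hF : act !![-b, -(2 * c); 2 * a, b] τ = τ := by
    rw [act_eq_iff hS0.ne' hτ]
    simp
    linear_combination 2 * h
  have h5 : phiJ !![-b, -(2 * c); 2 * a, b] τ = ((P : ℂ) * e) ^ 6 := by
    have hd := den_ne' hS0.ne' hτ
    have he' : (b : ℂ) ^ 2 - 4 * a * c = P * e := by exact_mod_cast he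
    have hd2 : den !![-b, -(2 * c); 2 * a, b] τ ^ 2 = P * e := by
      simp [den]
      linear_combination 4 * a * h + he'
    rw [phi_of_fixed hτ hF, hS, he, ← hd2]
    have : ((-((P : ℤ) * e) : ℤ) : ℂ) = -den !![-b, -(2 * c); 2 * a, b] τ ^ 2 := by
      rw [hd2]; push_cast; ring
    rw [this]
    field_simp
  rw [hN, phi_mul _ (rP_pos hP i) hτ] at h5
  replace h5 := congr_arg V h5
  rw [map_mul, val_phi_eq_one hN0 (act_pos (rP_pos hP i) hτ) (val_isog (rP_pos hP i) hτ hj).2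
    (val_int_eq_one hP hV (by rwa [hN1, dvd_neg])), one_mul, map_pow, map_mul,
    val_int_eq_one hP hV he1, mul_one] at h5
  rw [ph, h5, ← pow_mul]

theorem NS0.edge (h : NS0 P D) (hP : P.Prime) (hV : V P < 1) (hτ : Dp P D τ)
    (k : Option (Fin P)) : V P ^ 12 ≤ V (ph P k τ) ^ 2 := by
  obtain ⟨hτ, Q, hQ, rfl, hq⟩ := hτ
  obtain ⟨d0, h⟩ := h
  have hj := (hQ.isCM hτ d0).val_jf V
  by_cases hk : (P : ℤ) ∣ Dih.ev P Q k
  · exact (val_ph_ram0 hP hV hτ hQ d0 (h.resolve_left fun e => not_dvd_ev e k hk).1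
      (h.resolve_left fun e => not_dvd_ev e k hk).2 hk).ge
  obtain ⟨i, hi⟩ : ∃ i, ∀ j, j ≠ i → ¬ (P : ℤ) ∣ Dih.ev P Q j := by
    rcases h with h | h
    · exact ⟨k, fun j _ => not_dvd_ev h j⟩
    · exact (exists_back hP hq h.1).imp fun i hi j e e' => e ((hi j).1 e')
  obtain ⟨j, hj'⟩ : ((univ.erase k).erase i).Nonempty := card_pos.1 (by
    have h1 := pred_card_le_card_erase (s := univ.erase k) (a := i)
    have h2 := hP.two_le
    rw [card_erase_of_mem (mem_univ k), card_univ, Fintype.card_option, Fintype.card_fin] at h1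
    omega)
  rw [← val_ph_mul hP hτ hj k, map_prod, ← mul_prod_erase _ _ (mem_of_mem_erase hj'),
    val_ph_eq hP hV hτ hQ d0 (hi j (ne_of_mem_erase hj')) hk, ← mul_assoc, sq]
  exact mul_le_of_le_one_right' (prod_le_one' fun l _ => val_ph_le hP hτ hj l)

theorem NS0.near_succ (h : NS0 P D) (h' : NS P D') (hP : P.Prime) (hV : V P < 1) {i : ℕ}
    (hτ : Dp P D τ) (hτ' : Dp P (D' * P ^ (2 * (i + 1))) τ') :
    V P ^ 4 ≤ V (jf τ - jf τ') ^ P ^ i := by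
  have h0 : V (hasse P τ) ≤ V P ^ 6 := by
    rw [hasse, sp]
    refine V.map_sum_le fun i _ => ?_
    have h1 := val_ph_mul hP hτ.1 ((hτ.fpg_isCM h.1).val_jf V) i
    have h2 : V P ^ 6 ≤ V (ph P i τ) := by
      rw [← pow_le_pow_iff_left₀ zero_le zero_le two_ne_zero, ← pow_mul]
      exact h.edge hP hV hτ i
    rw [one_mul, ← mul_le_mul_iff_right₀ (pow_pos (fpg_pos (V := V) hP) 6), ← pow_add, ← h1]
    exact mul_le_mul_left h2 _
  have h1 := h'.hasse_succ hP hV hτ'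
  have h2 : V (hasse P τ - hasse P τ') ≤ V (jf τ - jf τ') :=
    LE.val_sub_le hP.ne_zero (LE.congr (sp (fun _ => 1) (Ph V hP)).2 fun z _ => by
      rw [← evz_apply, map_sp]; rfl) (inv1_hasse hP) hτ.1 hτ'.1 ((hτ.fpg_isCM h.1).val_jf V)
      ((hτ'.fpg_isCM (h'.fpg_neg hP _)).val_jf V)
  have h3 : V (hasse P τ) < V (hasse P τ') := not_le.1 fun e => by
    have h4 := pow_le_pow_left₀ zero_le (e.trans h0) (P ^ i)
    have h5 : (V P ^ 6) ^ P ^ i ≤ V P ^ 6 :=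
      pow_le_of_le_one zero_le (pow_le_one₀ zero_le hV.le) (pow_ne_zero _ hP.ne_zero)
    exact ((h1.trans h4).trans h5).not_gt
      (pow_lt_pow_right_of_lt_one₀ (fpg_pos hP) hV (by norm_num))
  rw [V.map_sub_eq_of_lt_right h3] at h2
  exact h1.trans (pow_le_pow_left₀ zero_le h2 _)

theorem NS0.near (h : NS0 P D) (h' : NS P D') (hP : P.Prime) : ∃ a : ℕ, ∀ A : ValuationSubring ℂ,
    A.valuation P < 1 → ∀ (i : ℕ) (τ τ' : ℂ), Dp P D τ → Dp P (D' * P ^ (2 * i)) τ' →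
      jf τ ≠ jf τ' → A.valuation P ^ a ≤ A.valuation (jf τ - jf τ') ^ P ^ i := by
  have H : ∀ x : ℂ, ∃ a : ℕ, IsAlgebraic ℚ x → x ≠ 0 → ∀ A : ValuationSubring ℂ,
      A.valuation P < 1 → A.valuation P ^ a ≤ A.valuation x := fun x => by
    by_cases hx : IsAlgebraic ℚ x ∧ x ≠ 0
    · obtain ⟨a, ha⟩ := exists_pow_le hP hx.1 hx.2
      exact ⟨a, fun _ _ => ha⟩
    · exact ⟨0, fun h1 h2 => absurd ⟨h1, h2⟩ hx⟩
  choose f hf using H
  obtain ⟨b, hb⟩ := ((finite_jf_cm D).image2 (fun x y => f (x - y)) (finite_jf_cm D')).bddAbove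
  refine ⟨b + 4 * P, fun A hA i τ τ' hτ hτ' hne => ?_⟩
  rcases i with _ | i
  · rw [mul_zero, pow_zero, mul_one] at hτ'
    have c1 := hτ.fpg_isCM h.1
    have c2 := hτ'.fpg_isCM h'.1
    have h1 : f (jf τ - jf τ') ≤ b := hb (Set.mem_image2_of_mem ⟨τ, c1, rfl⟩ ⟨τ', c2, rfl⟩)
    rw [pow_zero, pow_one]
    exact (pow_le_pow_of_le_one zero_le hA.le (by omega)).trans
      (hf _ ((fpg_alg c1).sub (fpg_alg c2)) (sub_ne_zero.2 hne) A hA)
  · have h1 := pow_le_pow_left₀ zero_le (h.near_succ h' hP hA hτ hτ') P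
    rw [← pow_mul, ← pow_mul, ← pow_succ] at h1
    exact (pow_le_pow_of_le_one zero_le hA.le (by omega)).trans h1

end Pool.Agent.G5
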