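import Pool.Agent.Lib.MP_696deb_nt.B5.NAa
import Pool.Agent.Lib.MP_696deb_nt.B5.NSa

/-! The inner statements of the height block, with an arbitrary lower bound `b`. -/

set_option autoImplicit false

open NumberTheorySymbols
open scoped Classical

namespace Pool.Agent.G5

open Pool.Agent.Lib.MP_696deb_nt Pool.Agent.B4.GE Pool.Agent.Shared.Weier
open Pool.Agent.Dih (HI hpt)

/-- The modular invariant is onto, and unramified at the special points. -/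
def JFStmt : Prop := (∀ x : ℂ, ∃ z : ℂ, 0 < z.im ∧ jf z = x) ∧
  ∀ (n : ℕ) (z : ℂ), Squarefree n → n % 4 = 3 → 3 < n → CM n z → deriv jf z ≠ 0

/-- The automorphisms of the complex numbers fix the special divisors up to a common sign, and the
modular functions separate the points of the basic divisor. -/
def GPStmt (b : ℕ → ℕ) : Prop := ∀ (N A B : ℕ), Good N (A * B) → b N < A * B →
  (∀ σ : ℂ ≃+* ℂ, ∃ e : ℤ, (e = 1 ∨ e = -1) ∧ ∀ (ρ : ℤ) (m : ℕ) (z z' : ℂ),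
    4 * (N : ℤ) ∣ ρ ^ 2 + (A * B : ℕ) → m ≠ 0 → m.Coprime N → Pc N σ z z' →
      nuW (Yw N A B ρ m) z' = e * nuW (Yw N A B ρ m) z) ∧
  ∀ (ρ : ℤ) (z z' : ℂ), 4 * (N : ℤ) ∣ ρ ^ 2 + (A * B : ℕ) → nuW (Yw N A B ρ 1) z ≠ 0 →
    Pc N (RingEquiv.refl ℂ) z z' → ∃ g, G0 N g ∧ z' = act g z

/-- The modular function attached to an auxiliary point. -/
noncomputable def hq {W : WeierstrassCurve ℚ} {N : ℕ} (P : Par W N) (u : ℂ) (V : ℂ → ℂ)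
    (c z : ℂ) : ℂ := V z * (sig P.L (P.F z - c) / sig P.L (P.F z - c - u))

/-- The archimedean places. -/
def ARStmt (b : ℕ → ℕ) : Prop := ∀ (W : WeierstrassCurve ℚ) [W.IsElliptic] (N : ℕ) (P : Par W N)
  (p A B : ℕ) (ρ ρ' β : ℤ) (T T' : Finset Fm) (l l₀ M : ℕ) (a : ℕ →₀ ℤ) (u : ℂ) (V : ℂ → ℂ),
  Cx N p A B ρ ρ' β → b N < A * B → FReps N (-(A * B : ℕ)) ρ T → FReps N (-(A * B : ℕ)) (-ρ) T' →
  l₀.Prime → et (A * B) l₀ = -1 → M ≠ 0 → M.Coprime (N * l₀) → Sup (N * l * l₀) a →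
  Th N (cmb (fun m => nuW (Yw N A B ρ' m)) a) (U1 P.L P.F u) V → P.per.unif u ∈ Alg W →
  ∃ c : ℂ, P.per.unif c ∈ Alg W ∧ (∀ Q ∈ T ∪ T', ∀ t ∈ HI (l₀ * M),
    P.F (hpt t (froot Q)) - c ∉ P.L.lattice ∧ P.F (hpt t (froot Q)) - c - u ∉ P.L.lattice) ∧
    ∀ σ : ℂ ≃+* ℂ, zs N A B ρ T T' (hsum (l₀ * M) fun z => Real.log ‖σ (hq P u V c z)‖ +
      (lamA P.per (pmap (σ : ℂ →+* ℂ) (P.φ z - P.per.unif c)) -
        lamA P.per (pmap (σ : ℂ →+* ℂ) (P.φ z - P.per.unif c - P.per.unif u))) / 2) =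
      zs N A B ρ T T' (hsum (l₀ * M) (gT (U1 P.L P.F u) V))

/-- The height statement with an explicit lower bound. -/
def HTB (b : ℕ → ℕ) : Prop := ∀ (W : WeierstrassCurve ℚ) [W.IsElliptic] (N : ℕ) (P : Par W N),
  (∃ W' : WeierstrassCurve ℤ, W = W'.map (Int.castRingHom ℚ)) →
  ∀ (p A B : ℕ) (ρ ρ' β : ℤ) (T T' : Finset Fm) (l l₀ : ℕ) (a : ℕ →₀ ℤ) (u : ℂ) (V : ℂ → ℂ),
  Cx N p A B ρ ρ' β → b N < A * B → FReps N (-(A * B : ℕ)) ρ T → FReps N (-(A * B : ℕ)) (-ρ) T' →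
  l.Prime → l₀.Prime → l ≠ l₀ → l₀ ≠ 2 → et (A * B) l₀ = -1 → Sup (N * l * l₀) a →
  Th N (cmb (fun m => nuW (Yw N A B ρ' m)) a) (U1 P.L P.F u) V → P.per.unif u ∈ Alg W →
  (et (A * B) l = 1 → hpair (zs N A B ρ T T' (hsum l₀ P.φ)) (P.per.unif u) -
    2 * zs N A B ρ T T' (hsum l₀ (gT (U1 P.L P.F u) V)) ∈ LogS l) ∧
  (et (A * B) l ≠ 1 → ∃ (C : ℚ) (k : ℕ), ∀ j : ℕ, ∃ r : ℚ, |r| ≤ C * (j + 1) ^ k ∧
    hpair (zs N A B ρ T T' (hsum (l₀ * l ^ j) P.φ)) (P.per.unif u) -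
      2 * zs N A B ρ T T' (hsum (l₀ * l ^ j) (gT (U1 P.L P.F u) V)) - r * Real.log l ∈ LogS l)

theorem HTB.ht {b : ℕ → ℕ} (h : HTB b) : HTStmt := fun W _ N P hW => ⟨b N, h W N P hW⟩

end Pool.Agent.G5
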