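import Pool.Agent.Lib.MP_696deb_nt.B5.LCb
import Pool.Agent.Lib.MP_696deb_nt.B5.LCc
import Pool.Agent.Lib.MP_696deb_nt.B5.NSa

/-! The places above a split prime do not contribute. -/

set_option autoImplicit false

open Finset NumberTheorySymbols Complex
open scoped Classical NNReal

namespace Pool.Agent.G5

open Pool.Agent.Lib.MP_696deb_nt Pool.Agent.B4.GE Pool.Agent.Shared.Weier
open Pool.Agent.B5 (IntW valOf Aff)
open Pool.Agent.Dih (Yv Zv HI hpt mem_HI finite_jf_cm)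

variable {N n l l₀ A B : ℕ} {ρ ρ' : ℤ} {T T' : Finset Fm} {Q R R' : Fm} {τ : ℂ}

theorem act_W (N : ℕ) (z : ℂ) : act !![0, -1; N, 0] z = -1 / (N * z) := by simp [act_of, mob]

theorem Dl_W (hN : N ≠ 0) (hτ : 0 < τ.im) : Dl (-1 / (N * τ)) = (N * τ) ^ 12 * Dl (N * τ) ∧
    Dl (N * (-1 / (N * τ))) = τ ^ 12 * Dl τ := by
  have n0 : (N : ℂ) ≠ 0 := by exact_mod_cast hN
  have e1 : -1 / (N * τ) = act !![0, -1; 1, 0] (N * τ) := by simp [act_of, mob]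
  have e2 : N * (-1 / (N * τ)) = act !![0, -1; 1, 0] τ := by
    simp only [act_of, mob]
    push_cast
    rw [zero_mul, zero_add, one_mul, add_zero, mul_div_assoc', mul_div_mul_left _ _ n0]
  rw [e2, e1, Dl_act (by simp) hτ, Dl_act (by simp) (ga_pos hN hτ)]
  simp [den]

section
variable {Γ : Type*} [LinearOrderedCommGroupWithZero Γ] {V : Valuation ℂ Γ}

/-- The component to which a special point reduces. -/
theorem val_froot (hl : l.Prime) (hV : V l < 1) (h2 : l ≠ 2) (hN : N ≠ 0) (hlN : l ∣ N)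
    (hD : fdisc Q < 0) (hQ : 0 < Q.1) (hq : (N : ℤ) ∣ Q.1) (hb : ¬ (l : ℤ) ∣ fdisc Q) :
    (V (Q.2.1 + √(-fdisc Q : ℝ) * I) = 1 → Aff N V (froot Q)) ∧
    (V (Q.2.1 + √(-fdisc Q : ℝ) * I) ≠ 1 → Aff N V (-1 / (N * froot Q))) := by
  have h := isCM_froot hD hQ
  have h0 := froot_root hD hQ
  have h1 : (Q.1 : ℂ) ≠ 0 := by exact_mod_cast hQ.ne'
  have n0 : (N : ℂ) ≠ 0 := by exact_mod_cast hN
  have n1 : (0 : ℤ) < N := by omega
  have h2 : V (Q.2.1 + √(-fdisc Q : ℝ) * I) = V (Q.1 * froot Q + Q.2.1) := by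
    have h2 : V (2 : ℤ) = 1 := val_int_eq_one hl hV (not_dvd_of_prime_ne hl Nat.prime_two h2)
    rw [← one_mul (V (_ * _ + _)), ← h2, ← map_mul, froot]
    congr 1
    push_cast
    field_simp
    ring
  have hw := h.isog (g := !![0, -1; N, 0]) (by simpa using n1)
  rw [act_W] at hw
  rw [h2]
  obtain ⟨_, b, c⟩ := Q
  obtain ⟨a, rfl⟩ := hq
  simp only [fdisc] at hD hQ hb h0 ⊢
  generalize froot _ = τ at *
  have e : (!![0, -c; a, b] : MZ) * ut N 0 1 = !![0, -c; N * a, b] := by simp [ut, mul_comm]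
  have hM : 0 < (!![0, -c; a, b] : MZ).det := by
    simp only [Matrix.det_fin_two_of]
    exact pos_of_mul_pos_left (b := (N : ℤ)) (by nlinarith [sq_nonneg b]) n1.le
  have hN' : 0 < (ut N 0 1).det := by simpa [ut] using n1
  have hf : act (!![0, -c; a, b] * ut N 0 1) τ = τ := by
    rw [act_eq_iff (by rw [Matrix.det_mul]; positivity) h.1, e]
    simpa using h0
  have hd : den (!![0, -c; a, b] * ut N 0 1) τ = (N * a : ℤ) * τ + b := by simp [e, den]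
  have h3 : phiJ (ut N 0 1) τ = N ^ 12 * (Dl τ / Dl (N * τ))⁻¹ := by
    rw [phi_ut one_ne_zero, act_dg, inv_div]
    ring
  refine ⟨fun h4 => ⟨h.1, h.val_jf V, ?_⟩, fun h4 => ⟨hw.1, hw.val_jf V, ?_⟩⟩
  · have h5 := val_phi_of_den hM hN' h.1 (h.val_jf V) hf (hd ▸ h4)
    rw [h3, map_mul, map_pow, det_ut, map_inv₀] at h5
    push_cast at h5
    rwa [mul_one, mul_eq_left₀ (by simpa using hN), inv_eq_one] at h5
  · have h5 := val_phi_of_div hM hN' h.1 (h.val_jf V) hf ((val_den_or (by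
      rw [Matrix.det_mul]; positivity) h.1 (h.val_jf V) hf (val_int_eq_one hl hV fun h5 => hb (by
        rw [e] at h5
        simp only [Matrix.trace_fin_two_of, zero_add] at h5
        exact dvd_sub (dvd_pow h5 two_ne_zero) ((((Int.natCast_dvd_natCast.mpr hlN).mul_right
          a).mul_left 4).mul_right c)))).resolve_left (hd ▸ h4))
    have h6 : τ ≠ 0 := fun e => by simpa [e] using h.1
    rw [(Dl_W hN h.1).1, (Dl_W hN h.1).2, ← h5, h3, inv_div, mul_pow, mul_right_comm,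
      mul_comm (τ ^ 12), mul_div_mul_right _ _ (pow_ne_zero _ h6), mul_div_assoc]

theorem val_shift (hV : V l < 1) {b r : ℤ} {s : ℂ} (h : (l : ℤ) ∣ b - r) (e : V (r + s) = 1) :
    V (b + s) = 1 := by
  obtain ⟨k, hk⟩ := h
  rw [← e, show (b : ℂ) = l * k + r by exact_mod_cast eq_add_of_sub_eq hk, add_assoc]
  refine V.map_add_eq_of_lt_right ?_
  rw [e, map_mul]
  exact mul_lt_one_of_nonneg_of_lt_one_left zero_le hV (val_int _ k)

end

theorem not_dvd_of_jac (h4 : n % 4 = 3) (hl : l.Prime) (h : J((l : ℤ) | n) ≠ 0) : ¬ l ∣ n :=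
  fun e => h (jacobiSym.eq_zero_iff.2 ⟨by omega, by
    rw [Int.gcd_natCast_natCast, Nat.gcd_eq_left e]; exact hl.ne_one⟩)

theorem split_of_jac (h4 : n % 4 = 3) (hl : l.Prime) (h : J((l : ℤ) | n) = 1) (c : ℤ) :
    SplitAt l (-n * c ^ 2) := by
  have hn : Odd n := Nat.odd_iff.2 (by omega)
  suffices H : ∃ x : ℤ, 4 * (l : ℤ) ∣ x ^ 2 - -n from H.elim fun x hx => ⟨c, -n, x, mul_comm _ _,
    fun e => not_dvd_of_jac h4 hl (by simp [h]) (by exact_mod_cast dvd_neg.1 e), hx⟩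
  rcases hl.eq_two_or_odd' with rfl | h2
  · rw [Nat.cast_ofNat, jacobiSym.at_two hn, ZMod.χ₈_nat_eq_if_mod_eight, if_neg (by omega)] at h
    split_ifs at h
    exact ⟨1, by omega⟩
  have := Fact.mk hl
  obtain ⟨s, hs⟩ := ZMod.isSquare_of_jacobiSym_eq_one ((jac_neg_swap h4 h2).trans h)
  obtain ⟨s, rfl⟩ := ZMod.intCast_surjective s
  have h5 : (l : ℤ) ∣ s ^ 2 + n := (ZMod.intCast_zmod_eq_zero_iff_dvd _ _).1 (by
    push_cast at hs ⊢
    linear_combination -hs)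
  obtain ⟨k, hk⟩ := h2
  refine ⟨s + l * (s + 1), IsCoprime.mul_dvd ⟨k * k, 1 - 2 * k, by
    rw [hk]; push_cast; ring⟩ ?_ ?_⟩
  · obtain ⟨d, hd⟩ : ∃ d : ℤ, n + 1 = 4 * d := ⟨(n + 1) / 4, by omega⟩
    exact ⟨d + (k * s + s + k) ^ 2 + (k * s + s + k), by
      rw [hk]; push_cast; linear_combination hd⟩
  · convert dvd_add h5 (dvd_mul_right (l : ℤ) ((s + 1) * (2 * s + l * (s + 1)))) using 1
    ring

theorem abs_gch (B : ℕ) (R : Fm) : |gch B R| ≤ 1 := by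
  rw [gch, abs_prod]
  refine prod_le_one (fun _ _ => abs_nonneg _) fun p _ => ?_
  split_ifs
  · rcases jacobiSym.trichotomy R.2.2 p with h | h | h <;> simp [h]
  · rcases jacobiSym.trichotomy R.1 p with h | h | h <;> simp [h]

theorem abs_wZ (D : ℤ) (R : Fm) : |wZ N B D ρ R| ≤ 2 := by
  have k : ∀ β, |wG N B D β R| ≤ 1 := fun β => by
    rw [wG]
    split_ifs
    exacts [abs_gch B R, by simp]
  have h1 := abs_le.1 (k ρ)
  have h2 := abs_le.1 (k (-ρ))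
  rw [wZ, abs_le]
  rcases jacobiSym.trichotomy (-1) B with h | h | h <;> rw [h] <;> split_ifs <;> omega

theorem yw_spec {m : ℕ} (h : Yw N A B ρ' m R ≠ 0) :
    0 < R.1 ∧ (N : ℤ) ∣ R.1 ∧ fdisc R = -(A * B : ℕ) * (m : ℤ) ^ 2 := by
  obtain ⟨h1, h2⟩ := pos_of_wZ h
  refine ⟨h1, h2.elim (·.1) (·.1), (h2.elim (·.2.1) (·.2.1)).trans ?_⟩
  push_cast
  ring

/-- The invariants of the points of the divisor, and a bound for the multiplicities. -/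
theorem exists_JM (hN : N ≠ 0) (h0 : 0 < A * B) (ρ' : ℤ) {a : ℕ →₀ ℤ}
    (ha : ∀ m ∈ a.support, m ≠ 0) : ∃ (J : Finset ℂ) (m : ℕ),
    (∀ z : ℂ, cmb (fun m => nuW (Yw N A B ρ' m)) a z ≠ 0 → jf z ∈ J) ∧
    (∀ z : ℂ, 0 < z.im → cmb (fun m => nuW (Yw N A B ρ' m)) a (-1 / (N * z)) ≠ 0 → jf z ∈ J) ∧
    (∀ z : ℂ, |cmb (fun m => nuW (Yw N A B ρ' m)) a z| < m) ∧
    ∀ k ∈ J, ∃ (R : Fm) (c : ℕ), c ∈ a.support ∧ 0 < R.1 ∧
      fdisc R = -(A * B : ℕ) * (c : ℤ) ^ 2 ∧ k = jf (froot R) := by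
  have d : ∀ c ∈ a.support, (-(A * B : ℕ) * (c : ℤ) ^ 2) < 0 := fun c hc =>
    mul_neg_of_neg_of_pos (by omega) (by have := ha c hc; positivity)
  have f : {k | ∃ (R : Fm) (c : ℕ), c ∈ a.support ∧ 0 < R.1 ∧
      fdisc R = -(A * B : ℕ) * (c : ℤ) ^ 2 ∧ k = jf (froot R)}.Finite :=
    (a.support.finite_toSet.biUnion fun c _ => finite_jf_cm (-(A * B : ℕ) * (c : ℤ) ^ 2)).subset (by
      rintro _ ⟨R, c, h1, h2, h3, rfl⟩
      exact Set.mem_biUnion h1 ⟨_, h3 ▸ isCM_froot (h3 ▸ d c h1) h2, rfl⟩)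
  have e : ∀ z, cmb (fun m => nuW (Yw N A B ρ' m)) a z =
      ∑ c ∈ a.support, a c * nuW (Yw N A B ρ' c) z := fun z => by
    simp [Finsupp.linearCombination_apply, Finsupp.sum]
  have k : ∀ z, cmb (fun m => nuW (Yw N A B ρ' m)) a z ≠ 0 →
      ∃ c ∈ a.support, ∃ R, Yw N A B ρ' c R ≠ 0 ∧ froot R = z := fun z hz => by
    obtain ⟨c, hc, h⟩ := exists_ne_zero_of_sum_ne_zero (e z ▸ hz)
    exact ⟨c, hc, exists_of_nuW (right_ne_zero_of_mul h)⟩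
  refine ⟨f.toFinset, ∑ c ∈ a.support, (a c).natAbs * 2 + 1, fun z hz => ?_, fun z z0 hz => ?_,
    fun z => ?_, fun k hk => f.mem_toFinset.1 hk⟩
  · obtain ⟨c, hc, R, h, rfl⟩ := k z hz
    exact f.mem_toFinset.2 ⟨R, c, hc, (yw_spec h).1, (yw_spec h).2.2, rfl⟩
  · obtain ⟨c, hc, R, h, h'⟩ := k _ hz
    obtain ⟨r1, r2, r3⟩ := yw_spec h
    have r4 := froot_fV hN (r3 ▸ d c hc) r1 r2
    have n0 : (N : ℂ) ≠ 0 := by exact_mod_cast hN
    have z1 : z ≠ 0 := fun e => by simp [e] at z0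
    rw [h', show -1 / (N * (-1 / (N * z))) = z by field_simp] at r4
    have r5 := pos_c (r3 ▸ d c hc) r1
    obtain ⟨_, y, w⟩ := R
    obtain ⟨x, rfl⟩ := r2
    rw [fV_eq hN] at r4
    refine f.mem_toFinset.2 ⟨(N * w, -y, x), c, hc, by positivity, ?_, by rw [r4]⟩
    rw [← r3, fdisc, fdisc]
    ring
  · rw [e]
    refine (abs_sum_le_sum_abs _ _).trans_lt ?_
    push_cast
    refine Int.lt_add_one_iff.2 (sum_le_sum fun c hc => ?_)
    rw [abs_mul]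
    refine mul_le_mul_of_nonneg_left ?_ (abs_nonneg _)
    by_cases h : nuW (Yw N A B ρ' c) z = 0
    · simp [h]
    obtain ⟨R, h1, rfl⟩ := exists_of_nuW h
    obtain ⟨r1, -, r3⟩ := yw_spec h1
    rw [nuW_froot (fun S hS => ⟨(yw_spec hS).2.2.trans r3.symm, (yw_spec hS).1⟩) (r3 ▸ d c hc) r1]
    exact abs_wZ _ _

variable {W : WeierstrassCurve ℚ} [W.IsElliptic] {P : Par W N} {v : AbsoluteValue ℂ ℝ}
  {a : ℕ →₀ ℤ} {u : ℂ} {V : ℂ → ℂ}

/-- The Green function is constant on the points with a given orientation. -/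
theorem gv_fam (I : IntW v (W.baseChange ℂ)) (hv : v l < 1) (hn : Good N (A * B)) (hl : l.Prime)
    (hl₀ : l₀.Prime) (hne : l ≠ l₀) (h₀ : ¬ l₀ ∣ N) (h1 : et (A * B) l = 1)
    (ha : Sup (N * l * l₀) a) (h : Th N (cmb (fun m => nuW (Yw N A B ρ' m)) a) (U1 P.L P.F u) V)
    {β : ℤ} (f : Fam N (-(A * B : ℕ) * l₀ ^ 2) β R) (f' : Fam N (-(A * B : ℕ) * l₀ ^ 2) β R')
    (p : 0 < R.1) (p' : 0 < R'.1) (z : Zv l₀ (-(A * B : ℕ)) (froot R))
    (z' : Zv l₀ (-(A * B : ℕ)) (froot R')) : gv v P u V (froot R) = gv v P u V (froot R') := by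
  have h4 := hn.mod4
  have l0 := hl₀.pos
  have hD : (-(A * B : ℕ) : ℤ) < 0 := by omega
  have hD' : (-(A * B : ℕ) * l₀ ^ 2 : ℤ) < 0 := mul_neg_of_neg_of_pos hD (by positivity)
  have hV : valOf I.na l < 1 := hv
  obtain ⟨J, m, j1, j2, j3, j4⟩ := exists_JM P.N0 (A := A) (B := B) (by omega) ρ'
    fun c hc => (ha c hc).1
  have c : ∀ k ∈ J, v k ≤ 1 ∧ ∀ x, Zv l₀ (-(A * B : ℕ)) x → v (jf x - k) = 1 := fun k hk => by
    obtain ⟨S, c, s1, s2, s3, rfl⟩ := j4 k hk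
    have s4 := isCM_froot (s3 ▸ mul_neg_of_neg_of_pos hD (by have := (ha c s1).1; positivity)) s2
    refine ⟨s4.val_jf (valOf I.na), fun x hx => ?_⟩
    have := (yv_froot hD s2 (fun e => hl₀.ne_one (Nat.eq_one_of_dvd_coprimes (ha c s1).2 e
      (dvd_mul_left _ _))) s3).val_sub hx hl₀ hD hl hV hne
        (s4.ord hl hV (s3 ▸ split_of_jac h4 hl h1 c))
    rw [v.map_sub]
    exact congrArg NNReal.toReal this
  have cm := isCM_froot (f.2.1 ▸ hD') p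
  have cm' := isCM_froot (f'.2.1 ▸ hD') p'
  have k : Aff N (valOf I.na) (froot R) → Aff N (valOf I.na) (froot R') → _ := fun b b' =>
    gv_const I h (fun z _ => j1 z) (fun z _ => j3 z) (fun k hk => (c k hk).1) b b'
      (fun k hk => (c k hk).2 _ z) fun k hk => (c k hk).2 _ z'
  by_cases hlN : l ∣ N
  swap
  · have e : valOf I.na N = 1 := by
      simpa using val_int_eq_one hl hV (n := N) (mt Int.natCast_dvd_natCast.1 hlN)
    exact k (.of_unit P.N0 e cm.1 (cm.val_jf _)) (.of_unit P.N0 e cm'.1 (cm'.val_jf _))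
  have h2 : l ≠ 2 := by
    rintro rfl
    exact (Nat.not_even_iff_odd.2 hn.lodd) (even_iff_two_dvd.2 hlN)
  have nd : ¬ (l : ℤ) ∣ -(A * B : ℕ) * l₀ ^ 2 := fun e => by
    rcases (Nat.prime_iff_prime_int.1 hl).dvd_or_dvd e with e | e
    · exact not_dvd_of_jac h4 hl (h1.trans_ne one_ne_zero) (by exact_mod_cast dvd_neg.1 e)
    · exact not_dvd_of_prime_ne hl hl₀ hne ((Nat.prime_iff_prime_int.1 hl).dvd_of_dvd_pow e)
  have b := val_froot hl hV h2 P.N0 hlN (f.2.1 ▸ hD') p f.1 (f.2.1 ▸ nd)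
  have b' := val_froot hl hV h2 P.N0 hlN (f'.2.1 ▸ hD') p' f'.1 (f'.2.1 ▸ nd)
  have d : (l : ℤ) ∣ R'.2.1 - R.2.1 := by
    simpa using ((Int.natCast_dvd_natCast.2 hlN).mul_left 2).trans (dvd_sub f'.2.2 f.2.2)
  rw [f.2.1] at b
  rw [f'.2.1] at b'
  by_cases e : valOf I.na (R.2.1 + √(-(-(A * B : ℕ) * l₀ ^ 2 : ℤ) : ℝ) * Complex.I) = 1
  · exact k (b.1 e) (b'.1 (val_shift hV d e))
  have w : ∀ {x : ℂ}, Zv l₀ (-(A * B : ℕ)) x → Zv l₀ (-(A * B : ℕ)) (-1 / (N * x)) := fun hx =>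
    act_W N _ ▸ hx.act hl₀ (by simpa using Nat.pos_of_ne_zero P.N0)
      (by simpa using mt Int.natCast_dvd_natCast.1 h₀)
  have a1 := b.2 e
  have a2 := b'.2 fun e' => e (val_shift hV (dvd_sub_comm.1 d) e')
  have := gv_const I h.al j2 (fun z _ => j3 _) (fun k hk => (c k hk).1) a1 a2
    (fun k hk => (c k hk).2 _ (w z)) fun k hk => (c k hk).2 _ (w z')
  have n0 : (N : ℂ) ≠ 0 := by exact_mod_cast P.N0
  have i : ∀ {x : ℂ}, 0 < x.im → -1 / (N * (-1 / (N * x))) = x := fun {x} hx => by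
    have : x ≠ 0 := fun e => by simp [e] at hx
    field_simp
  rwa [gv_al I a1.pos, gv_al I a2.pos, i cm.1, i cm'.1, sub_left_inj] at this

theorem sum_gv (I : IntW v (W.baseChange ℂ)) (hv : v l < 1) (hn : Good N (A * B)) (hA : 1 < A)
    (hB : 1 < B) (hT : FReps N (-(A * B : ℕ)) ρ T) (hl : l.Prime) (hl₀ : l₀.Prime) (hne : l ≠ l₀)
    (h₀ : ¬ l₀ ∣ N) (h1 : et (A * B) l = 1) (h2 : et (A * B) l₀ = -1) (ha : Sup (N * l * l₀) a)
    (h : Th N (cmb (fun m => nuW (Yw N A B ρ' m)) a) (U1 P.L P.F u) V) :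
    ∑ Q ∈ T, gch B Q • hsum l₀ (gv v P u V) (froot Q) = 0 := by
  have h4 := hn.mod4
  have k : ∀ Q ∈ T, ∀ t ∈ HI l₀, ∃ R, Fam N (-(A * B : ℕ) * l₀ ^ 2) (ρ * l₀) R ∧ 0 < R.1 ∧
      Zv l₀ (-(A * B : ℕ)) (froot R) ∧ hpt t (froot Q) = froot R := fun Q hQ t ht => by
    obtain ⟨⟨x, f1⟩, f2, y, f3⟩ := hT.fam Q hQ
    obtain ⟨g1, g2, g3, -⟩ := fpi_form (by omega) (hT.pos Q hQ) ht
    have e : (t.1.1 * t.1.2 : ℤ) = l₀ := by exact_mod_cast (mem_HI.1 ht).1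
    refine ⟨_, ⟨⟨x * t.1.2 ^ 2, ?_⟩, by rw [g3, f2], y * l₀ - x * t.1.2 * t.2, ?_⟩, g1, g2 ▸ zv_hpt
      (m := 1) h4 (hT.pos Q hQ) f2 hl₀ h2 hl₀.not_dvd_one (by rwa [mul_one]), g2.symm⟩
    · simp only [fmap, fval, f1]
      ring
    · simp only [fmap, f1]
      linear_combination l₀ * f3 + Q.2.1 * e
  rcases T.eq_empty_or_nonempty with rfl | ⟨Q₀, q0⟩
  · simp
  obtain ⟨R₀, r1, r2, r3, -⟩ := k Q₀ q0 ⟨(l₀, 1), 0⟩ (by simp [mem_HI, hl₀.ne_zero])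
  rw [sum_congr rfl fun Q hQ => show gch B Q • hsum l₀ (gv v P u V) (froot Q) =
      gch B Q • ∑ _t ∈ HI l₀, gv v P u V (froot R₀) by
    rw [hsum_eq, sum_congr rfl fun t ht => ?_]
    obtain ⟨R, s1, s2, s3, s4⟩ := k Q hQ t ht
    rw [s4, gv_fam I hv hn hl hl₀ hne h₀ h1 ha h s1 r1 s2 r2 s3 r3], ← sum_smul,
    hT.sum_gch hn hA hB, zero_smul]

/-- The local Green function at a place above a split prime vanishes on the divisor. -/
theorem lc_split {p : ℕ} {β : ℤ} (I : IntW v (W.baseChange ℂ)) (hv : v l < 1)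
    (cx : Cx N p A B ρ ρ' β) (hT : FReps N (-(A * B : ℕ)) ρ T)
    (hT' : FReps N (-(A * B : ℕ)) (-ρ) T') (hl : l.Prime) (hl₀ : l₀.Prime) (hne : l ≠ l₀)
    (h2 : et (A * B) l₀ = -1) (ha : Sup (N * l * l₀) a)
    (h : Th N (cmb (fun m => nuW (Yw N A B ρ' m)) a) (U1 P.L P.F u) V) (h1 : et (A * B) l = 1) :
    zs N A B ρ T T' (hsum l₀ (gv v P u V)) = 0 := by
  have h₀ : ¬ l₀ ∣ N := by
    rintro ⟨c, hc⟩
    obtain ⟨k, hk⟩ := cx.root
    exact inert_of_jac cx.mod4 hl₀ h2 ρ (c * k) (by rw [hk, hc]; push_cast; ring)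
  rw [zs, sum_wZ hT hT' (cx.toGood.not_dvd cx.root cx.l1 dvd_rfl),
    sum_gv I hv cx.toGood cx.A1 cx.B1 hT hl hl₀ hne h₀ h1 h2 ha h,
    sum_gv I hv cx.toGood cx.A1 cx.B1 hT' hl hl₀ hne h₀ h1 h2 ha h, smul_zero, add_zero]

end Pool.Agent.G5
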