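import Pool.Agent.Lib.MP_696deb_nt.B5.GAb
import Pool.Agent.Lib.MP_696deb_nt.B5.HT1
import Pool.Agent.Lib.MP_696deb_nt.B5.CJb
import Pool.Agent.Lib.MP_696deb_nt.B5.LCd

/-! The modular invariant at special points, and conjugate points for large discriminants. -/

set_option autoImplicit false

open scoped Classical

namespace Pool.Agent.G5

open Pool.Agent.Lib.MP_696deb_nt Pool.Agent.B4.GE

theorem jf_stmt : JFStmt := ⟨jf_surj, fun _ _ hn _ h3 h =>
  deriv_jf_ne (AD.cm_pos (by omega) h) fun _ hg => AD.cm_free hn h3 h hg⟩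

theorem gp_large : GPStmt fun N => 4 * N ^ 2 := fun N A B hn h1 => by
  have h0 : N ≠ 0 := hn.lsq.ne_zero
  refine ⟨fun σ => (ga_stmt N A B hn h1 σ).imp fun e he =>
    ⟨he.1, fun ρ m z z' a b c h => he.2 ρ m z z' a b c (h.rj h0)⟩, fun ρ z z' _ hz h => ?_⟩
  obtain ⟨R, r1, rfl⟩ := exists_of_nuW hz
  obtain ⟨r2, -, r3⟩ := yw_spec r1
  have c : CM (A * B) (froot R) := ⟨R, 1, one_ne_zero, r2, r3.trans (by ring), rfl⟩
  exact (c.sep h0 hn.sqf h1).eq h.pos h.pos' (h.rj h0).j (h.rj h0).jN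

end Pool.Agent.G5
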