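import Pool.Agent.Lib.MP_696deb_nt.B5.GAc

/-! Conjugate special points: the orientation is read from the quotients of discriminants. -/

set_option autoImplicit false

open Complex
open scoped Classical NumberTheorySymbols

namespace Pool.Agent.G5

open Pool.Agent.Lib.MP_696deb_nt Pool.Agent.B4.GE Pool.Agent.B5
open Pool.Agent.Lib.MP_696deb_nt.B4

variable {N d p : ℕ} {σ : ℂ ≃+* ℂ} {f : ℂ → ℂ} {z z' τ : ℂ} {g : MZ} {Q R : Fm}

theorem mf_rD (hN : N ≠ 0) (hd : d ∣ N) : MF N (rD d) := by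
  obtain ⟨e, rfl⟩ := hd
  have h1 := left_ne_zero_of_mul hN
  have h2 := right_ne_zero_of_mul hN
  refine ⟨fun g hg z hz => ?_, fun g hg => ?_⟩
  · have := den_ne' (M := g) (by rw [hg.1]; exact one_ne_zero) hz
    rw [rD, rD, Dl_act hg.1 hz, dl_inv0 h1 (dvd_mul_right _ _) hg hz,
      mul_div_mul_left _ _ (pow_ne_zero _ this)]
  · obtain ⟨κ, c, -, h⟩ := rD_act h1 h2 hg
    have k := mul_ne_zero (pow_ne_zero 2 (Nat.gcd_ne_zero_left (n := (g 1 0).natAbs) h1)) h2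
    rw [mul_comm e d] at h
    exact LE.mono (LE.congr (mul_mem (const_mem V1 (ga_le κ)) (mul_mem
      (lz_Dl.affine_mem V1 hN (val_q1 0)) (lz_Dl_inv.affine_mem V1 k (val_q1 c)))) h) le_top

theorem cq_expand (h : LZ f) (hd : d ≠ 0) : Cq σ (fun z => f (d * z)) fun z => f (d * z) := by
  obtain ⟨n, A, h⟩ := h
  have a : QE (fun z => q1 z ^ (d * n) * f (d * z)) _ :=
    (h.expand d hd).congr fun z _ => by rw [q1_nat_mul, pow_mul]
  refine ⟨d * n, _, a, ?_⟩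
  convert a
  ext k
  simp [toC, PowerSeries.coeff_expand]

theorem cg_rD (hN : N ≠ 0) (hd : d ∣ N) : Cg N σ (rD d) (rD d) :=
  ⟨mf_rD hN hd, mf_rD hN hd,
    Cq.mul (LZ.cq lz_Dl) (cq_expand lz_Dl_inv (ne_zero_of_dvd_ne_zero hN hd))⟩

section
variable {Γ : Type*} [LinearOrderedCommGroupWithZero Γ] {V : Valuation ℂ Γ}

/-- The canonical subgroup is unique. -/
theorem can_uniq (hp : p.Prime) (hV : V p < 1) (h : Aff p V τ) (hg : g.det = 1)
    (h' : V (rD p (act g τ)) = 1) : (p : ℤ) ∣ g 1 0 := by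
  have k : ∀ z : ℂ, V (rD p z) = 1 → V (phiJ (ut p 0 1) z) = V p ^ 12 := fun z e => by
    have : phiJ (ut p 0 1) z = p ^ 12 * (rD p z)⁻¹ := by
      rw [phi_ut one_ne_zero, act_dg, rD, inv_div]
      ring
    rw [this, map_mul, map_inv₀, e, inv_one, mul_one, map_pow]
  have c : Can V p τ none := can_of_val hp h.pos h.int (k τ h.unit)
  obtain ⟨i, m, h1, h2⟩ := (isReps_rP hp).surj (ut p 0 1 * g) (by simp [hg, det_ut])
  have h3 := phi_mul (ut p 0 1) (hg ▸ one_pos : 0 < g.det) h.pos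
  have r : 0 < (rP p i).det := by
    rw [(isReps_rP hp).det]
    exact_mod_cast hp.pos
  rw [h2, phi_mul _ r h.pos, phi_det_one h1 (act_pos r h.pos), one_mul, phi_det_one hg h.pos,
    mul_one] at h3
  obtain rfl : i = none := by_contra fun e => (c.lt hV).ne
    (c.val.trans ((k _ h').symm.trans (h3 ▸ c.unit i e)))
  exact ⟨m 1 0, by simpa [rP, ut, Matrix.mul_apply, mul_comm] using congrFun (congrFun h2 1) 0⟩

end

theorem exists_orient (hp : p.Prime) (h2 : p ≠ 2) {D : ℤ} (hD : D < 0) (h : ¬ (p : ℤ) ∣ D) (b : ℤ) :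
    ∃ (A : ValuationSubring ℂ) (V : Valuation ℂ A.ValueGroup), V p < 1 ∧
      V (b + √(-D : ℝ) * I) = 1 := by
  obtain ⟨A, -, k⟩ := (Ideal.span {(p : (⊥ : Subring ℂ))}).image_subset_nonunits_valuationSubring
    (fun k => by
      obtain ⟨⟨_, c, rfl⟩, hc⟩ := (Ideal.span_singleton_eq_top.1 k).exists_right_inv
      have h1 : (p : ℂ) * c = 1 := congrArg Subtype.val hc
      exact (Nat.prime_iff_prime_int.1 hp).not_isUnit (.of_mul_eq_one c (by exact_mod_cast h1)))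
  have hV : A.valuation p < 1 := k ⟨p, Ideal.subset_span rfl, rfl⟩
  have e : (√(-D : ℝ) * I : ℂ) ^ 2 = D := by
    rw [mul_pow, I_sq, ← ofReal_pow, Real.sq_sqrt (by exact_mod_cast (neg_pos.2 hD).le)]
    simp
  have e' : (starRingEnd ℂ) (b + √(-D : ℝ) * I) = b - √(-D : ℝ) * I := by
    rw [map_add, map_mul, conj_I, conj_ofReal, map_intCast, mul_neg, sub_eq_add_neg]
  generalize (√(-D : ℝ) * I : ℂ) = s at e e'
  have v1 : A.valuation s = 1 := by
    rw [← pow_eq_one_iff_left two_ne_zero, ← map_pow, e]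
    exact val_int_eq_one hp hV h
  by_cases v2 : A.valuation (b + s) = 1
  · exact ⟨A, _, hV, v2⟩
  refine ⟨A, A.valuation.comap (starRingEnd ℂ), by simpa using hV, ?_⟩
  have v3 := (A.valuation.map_add_le (val_int _ b) v1.le).lt_of_ne v2
  have v4 : A.valuation ((2 : ℤ) * s) = 1 := by
    rw [map_mul, v1, mul_one]
    exact val_int_eq_one hp hV (not_dvd_of_prime_ne hp Nat.prime_two h2)
  rw [Valuation.comap_apply, e', show b - s = b + s - (2 : ℤ) * s by push_cast; ring,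
    A.valuation.map_sub_eq_of_lt_right (v4 ▸ v3), v4]

/-- Conjugate special points are determined by the invariant and the orientation. -/
theorem pc_g0 (hN : Squarefree N) (h2 : Odd N) (h : Pc N σ (froot Q) z') (hD : fdisc Q < 0)
    (hc : IsCoprime (N : ℤ) (fdisc Q)) (e : fdisc R = fdisc Q) (q0 : 0 < Q.1) (r0 : 0 < R.1)
    (q1 : (N : ℤ) ∣ Q.1) (r1 : (N : ℤ) ∣ R.1) (hj : jf z' = jf (froot R)) {s : ℤ} (s1 : s * s = 1)
    (s2 : (N : ℤ) ∣ R.2.1 - s * Q.2.1) (s3 : ∀ x : ℂ, x ^ 2 = fdisc Q → σ x = s * x) :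
    ∃ g, G0 N g ∧ z' = act g (froot R) := by
  obtain ⟨g, hg, rfl⟩ := exists_sl (im_froot_pos (e ▸ hD) r0) h.pos' hj
  refine ⟨g, ⟨hg, ?_⟩, rfl⟩
  rw [← Nat.prod_primeFactors_of_squarefree hN, Nat.cast_prod]
  refine Finset.prod_dvd_of_coprime (fun a ha b hb hab => Nat.isCoprime_iff_coprime.2
    ((Nat.coprime_primes (Nat.prime_of_mem_primeFactors ha)
      (Nat.prime_of_mem_primeFactors hb)).2 hab)) fun p hp => ?_
  have p1 := Nat.prime_of_mem_primeFactors hp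
  have p2 := Nat.dvd_of_mem_primeFactors hp
  have p3 : (p : ℤ) ∣ N := Int.natCast_dvd_natCast.2 p2
  have p4 : p ≠ 2 := by
    rintro rfl
    exact h2.not_two_dvd_nat p2
  have p5 : ¬ (p : ℤ) ∣ fdisc Q := fun k =>
    (Nat.prime_iff_prime_int.1 p1).not_isUnit (hc.isUnit_of_dvd' p3 k)
  obtain ⟨A, V, v1, v2⟩ := exists_orient p1 p4 hD p5 Q.2.1
  have a1 := (val_froot p1 v1 p4 p1.ne_zero dvd_rfl hD q0 (p3.trans q1) p5).1 v2
  have v3 : V.comap (σ.symm : ℂ →+* ℂ) p < 1 := by simpa using v1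
  have s4 := s3 (√(-fdisc Q : ℝ) * I) (by
    rw [mul_pow, I_sq, ← ofReal_pow, Real.sq_sqrt (by exact_mod_cast (neg_pos.2 hD).le)]
    simp)
  have s5 : (s : ℂ) * s = 1 := by exact_mod_cast s1
  have v4 : V s = 1 := by
    rw [← pow_eq_one_iff_left two_ne_zero, ← map_pow, sq, s5, map_one]
  refine can_uniq p1 v3 ((val_froot p1 v3 p4 p1.ne_zero dvd_rfl (e ▸ hD) r0 (p3.trans r1)
    (e ▸ p5)).1 ?_) hg ?_
  · rw [e]
    generalize (√(-fdisc Q : ℝ) * I : ℂ) = x at v2 s4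
    have : (R.2.1 + x : ℂ) = σ (s * ((s * R.2.1 : ℤ) + x)) := by
      simp only [map_mul, map_add, map_intCast, s4]
      push_cast
      linear_combination -(R.2.1 + x) * s5
    rw [this, Valuation.comap_apply, RingHom.coe_coe, σ.symm_apply_apply, map_mul, v4, one_mul]
    refine val_shift v1 ?_ v2
    rw [show s * R.2.1 - Q.2.1 = s * (R.2.1 - s * Q.2.1) by linear_combination Q.2.1 * s1]
    exact (p3.trans s2).mul_left s
  · rw [h.ev _ _ (cg_rD hN.ne_zero p2), Valuation.comap_apply, RingHom.coe_coe, σ.symm_apply_apply]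
    exact a1.unit

theorem gp_stmt : GPStmt fun _ => 3 := fun N A B hn h3 => by
  have h0 : N ≠ 0 := hn.lsq.ne_zero
  have hB : Odd B := (Nat.odd_mul.1 (show Odd (A * B) from
    Nat.odd_iff.2 (by have := hn.mod4; omega))).2
  have hD : ∀ m : ℕ, m ≠ 0 → -((B : ℤ) * (A * m ^ 2)) < 0 := fun m m0 => by
    have : 0 < A := Nat.pos_of_mul_pos_right (by omega : 0 < A * B)
    have := hB.pos
    exact neg_lt_zero.2 (by positivity)
  have hc : ∀ m : ℕ, m.Coprime N → IsCoprime (N : ℤ) (-(A * B : ℕ) * (m : ℤ) ^ 2) := fun m m1 =>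
    (Nat.isCoprime_iff_coprime.2 hn.cop.symm).neg_right.mul_right
      (Nat.isCoprime_iff_coprime.2 m1.symm).pow_right
  have key : ∀ σ : ℂ ≃+* ℂ, ∃ e : ℤ, (e = 1 ∨ e = -1) ∧ ∀ (ρ : ℤ) (m : ℕ) (z z' : ℂ),
      4 * (N : ℤ) ∣ ρ ^ 2 + (A * B : ℕ) → m ≠ 0 → m.Coprime N → Pc N σ z z' →
      nuW (Yw N A B ρ m) z ≠ 0 → nuW (Yw N A B ρ m) z' = e * nuW (Yw N A B ρ m) z := fun σ => by
    obtain ⟨e, he, k⟩ := ga_form hn h3 σ
    refine ⟨e, he, fun ρ m z z' hρ m0 m1 h hz => ?_⟩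
    obtain ⟨R, r1, rfl⟩ := exists_of_nuW hz
    obtain ⟨R', r2, r3, s, s1, s2, s3⟩ := k ρ m R hρ m0 m1 r1
    have r4 : Yw N A B ρ m R' ≠ 0 := r3 ▸ mul_ne_zero (by omega) r1
    have w := wt_wZ (N := N) (ρ := ρ * m) hB (dvd_mul_right _ _).neg_right (hD m m0)
    have f : ∀ R, Yw N A B ρ m R ≠ 0 → nuW (Yw N A B ρ m) (froot R) = Yw N A B ρ m R :=
      fun R hR => nuW_froot (fun S hS => ⟨(w.disc S hS).trans (w.disc R hR).symm,
        (pos_of_wZ hS).1⟩) (w.disc R hR ▸ hD m m0) (pos_of_wZ hR).1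
    obtain ⟨a1, a2, a3⟩ := yw_spec r1
    obtain ⟨b1, b2, b3⟩ := yw_spec r4
    obtain ⟨g, hg, rfl⟩ := pc_g0 hn.lsq hn.lodd h (w.disc R r1 ▸ hD m m0) (a3 ▸ hc m m1)
      (b3.trans a3.symm) a1 b1 a2 b2 ((h.rj h0).j.trans r2.j.symm) s1 s2 s3
    rw [f R r1, ← r3, ← f R' r4]
    exact w.nuW_inv (hD m m0) (fun S hS => (pos_of_wZ hS).1) g hg _ r2.pos'
  refine ⟨fun σ => ?_, fun ρ z z' _ hz h => ?_⟩
  · obtain ⟨e, he, k⟩ := key σ
    obtain ⟨e', he', k'⟩ := key σ.symm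
    refine ⟨e, he, fun ρ m z z' hρ m0 m1 h => ?_⟩
    by_cases hz : nuW (Yw N A B ρ m) z = 0
    · rw [hz, mul_zero]
      by_contra hz'
      exact mul_ne_zero (by omega) hz' ((k' ρ m z' z hρ m0 m1 h.symm hz').symm.trans hz)
    · exact k ρ m z z' hρ m0 m1 h hz
  · obtain ⟨R, r1, rfl⟩ := exists_of_nuW hz
    obtain ⟨a1, a2, a3⟩ := yw_spec r1
    have a4 : fdisc R < 0 := by
      have := hD 1 one_ne_zero
      rw [a3]
      push_cast at this ⊢
      linarith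
    exact pc_g0 (s := 1) hn.lsq hn.lodd h a4 (a3 ▸ hc 1 (Nat.coprime_one_left N)) rfl a1 a1 a2
      a2 (h.rj h0).j rfl (by simp) (by simp)

theorem GPStmt.mono {b b' : ℕ → ℕ} (h : GPStmt b) (k : ∀ N, b N ≤ b' N) : GPStmt b' :=
  fun N A B hn h1 => h N A B hn ((k N).trans_lt h1)

end Pool.Agent.G5
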