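import Pool.Agent.Lib.MP_696deb_nt.B5.CJa

/-! The Hecke correspondences commute with conjugation. -/

set_option autoImplicit false

open Finset PowerSeries
open scoped Classical

namespace Pool.Agent.G5

open Pool.Agent.Lib.MP_696deb_nt Pool.Agent.B4.GE Pool.Agent.B5

variable {N M : ℕ} {σ : ℂ ≃+* ℂ} {h h' : ℂ → ℂ}

theorem act_rI (x : RI M) (z : ℂ) : act (rI x) z = (x.1.1 * z + x.1.2.1) / x.1.2.2 := by
  simp [rI, ut, act_of, mob]

theorem hsum_RI {E : Type} [AddCommGroup E] (hM : M ≠ 0) [Fintype (RI M)] (g : ℂ → E) (τ : ℂ) :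
    hsum M g τ = ∑ x : RI M, g (act (rI x) τ) := by
  rw [hsum, sum_sigma']
  refine (sum_bij (fun x _ => ⟨(x.1.1, x.1.2.2), x.1.2.1⟩) (fun x _ => ?_) (fun x _ y _ e => ?_)
    (fun t ht => ?_) fun x _ => by rw [act_rI]).symm
  · simpa [hM] using x.2
  · simp only [Sigma.mk.injEq, Prod.mk.injEq, heq_eq_eq] at e
    exact Subtype.ext (Prod.ext e.1.1 (Prod.ext e.2 e.1.2))
  · simp only [mem_sigma, Nat.mem_divisorsAntidiagonal, mem_range] at ht
    exact ⟨⟨(t.1.1, t.2, t.1.2), ht.1.1, ht.2⟩, mem_univ _, rfl⟩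

theorem hp_rI (x : RI M) (z : ℂ) : HP M z (act (rI x) z) := ⟨_, _, _, x.2.1, x.2.2, act_rI x z⟩

theorem rI_pos (hM : M ≠ 0) (x : RI M) : 0 < (rI x).det := by
  rw [(isReps_rI hM).det]
  omega

theorem mf_hsum (hN : N ≠ 0) (hM : M ≠ 0) (hc : M.Coprime N) (hh : MF N h) : MF N (hsum M h) := by
  have := finite_RI hM
  have := Fintype.ofFinite (RI M)
  have k : ∀ g : MZ, g.det = 1 → ∃ (π : Equiv.Perm (RI M)) (γ : RI M → MZ), ∀ x, (γ x).det = 1 ∧
      rI x * g = γ x * rI (π x) ∧ ∀ z : ℂ, 0 < z.im →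
        act (rI x) (act g z) = act (γ x) (act (rI (π x)) z) := fun g hg => by
    obtain ⟨π, hπ⟩ := (isReps_rI hM).perm hg
    choose γ a b using hπ
    exact ⟨π, γ, fun x => ⟨a x, b x, fun z hz => by
      rw [← act_mul _ (by omega) hz, b, act_mul _ (rI_pos hM _).ne' hz]⟩⟩
  have i : Inv0 N (hsum M h) := fun g hg z hz => by
    obtain ⟨π, γ, H⟩ := k g hg.1
    rw [hsum_RI hM, hsum_RI hM, ← Equiv.sum_comp π fun x => h (act (rI x) z)]
    refine sum_congr rfl fun x _ => ?_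
    obtain ⟨a, b, c⟩ := H x
    rw [c z hz]
    refine hh.1 _ ⟨a, ?_⟩ _ (act_pos (rI_pos hM _) hz)
    have e : ((x.1.2.2 : ℤ) * g 1 0) = γ x 1 0 * (π x).1.1 := by
      simpa [rI, ut, Matrix.mul_apply] using congrFun (congrFun b 1) 0
    exact (Nat.isCoprime_iff_coprime.2
      (hc.coprime_dvd_left (Dvd.intro _ (π x).2.1)).symm).dvd_of_dvd_mul_right (e ▸ hg.2.mul_left _)
  refine ⟨i, fun g hg => LE.of_comp hM (fun z hz => i.periodic hg dvd_rfl hN hz) ?_⟩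
  obtain ⟨π, γ, H⟩ := k g hg
  refine LE.congr (sum_mem (S := LR ⊤) (t := univ) fun x _ => show (fun z => h (act (γ x)
    (N * (((π x).1.1 * (π x).1.1 : ℕ) * z + (((π x).1.2.1 / (π x).1.2.2 / N : ℝ) : ℂ))))) ∈ LR ⊤
    from ?_) fun z hz => ?_
  · obtain ⟨n, A, a, -⟩ := hh.2 _ (H x).1
    exact ⟨_, _, qe_affine a (mul_self_ne_zero.2 (ga_ne hM _).1) _, fun _ => trivial⟩
  · rw [hsum_RI hM, Finset.sum_apply]
    refine sum_congr rfl fun x _ => ?_
    have n0 : (N : ℂ) ≠ 0 := by exact_mod_cast hN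
    have d0 : ((π x).1.2.2 : ℂ) ≠ 0 := by exact_mod_cast (ga_ne hM _).2
    have e : (M : ℂ) = (π x).1.1 * (π x).1.2.2 := by exact_mod_cast (π x).2.1.symm
    rw [(H x).2.2 _ (ga_pos hN (ga_pos hM hz)), act_rI, e]
    congr 2
    push_cast
    field_simp

theorem Cq.sum {ι : Type*} (s : Finset ι) {f f' : ι → ℂ → ℂ} (H : ∀ i ∈ s, Cq σ (f i) (f' i)) :
    Cq σ (fun z => ∑ i ∈ s, f i z) fun z => ∑ i ∈ s, f' i z := by
  induction s using Finset.induction_on with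
  | empty => simpa using cq_const (σ := σ) 0
  | insert i s hi ih =>
    simpa only [sum_insert hi] using
      (H i (mem_insert_self _ _)).add (ih fun j hj => H j (mem_insert_of_mem hj))

theorem qe_sum {ι : Type*} (s : Finset ι) {f : ι → ℂ → ℂ} {A : ι → ℂ⟦X⟧}
    (H : ∀ i ∈ s, QE (f i) (A i)) : QE (fun z => ∑ i ∈ s, f i z) (∑ i ∈ s, A i) := by
  induction s using Finset.induction_on with
  | empty => simpa using QE.const 0
  | insert i s hi ih =>
    simpa only [sum_insert hi] using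
      (H i (mem_insert_self _ _)).add (ih fun j hj => H j (mem_insert_of_mem hj))

theorem map_geom {x : ℂ} {d : ℕ} (e : x ^ d = 1) :
    σ (∑ b ∈ range d, x ^ b) = ∑ b ∈ range d, x ^ b := by
  rcases eq_or_ne x 1 with rfl | k
  · simp
  · simp [geom_sum_eq k, e]

theorem Cq.trace (H : Cq σ h h') {a d : ℕ} (ha : a ≠ 0) (hd : d ≠ 0) :
    Cq σ (fun z => ∑ b ∈ range d, h (a * z + (b / d : ℝ)))
      fun z => ∑ b ∈ range d, h' (a * z + (b / d : ℝ)) := by
  obtain ⟨n, A, k, k'⟩ := H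
  refine ⟨a * n, _, (qe_sum (range d) fun b _ => qe_affine k ha (b / d)).congr fun z _ =>
    mul_sum _ _ _, ?_⟩
  have K : QE (fun z => q1 z ^ (a * n) * ∑ b ∈ range d, h' (a * z + (b / d : ℝ))) _ :=
    (qe_sum (range d) fun b _ => qe_affine k' ha (b / d)).congr fun z _ => mul_sum _ _ _
  convert K
  ext j
  have e : ∀ b : ℕ, q1 ((b / d : ℝ) : ℂ) = q1 (((1 : ℤ) / d : ℝ) : ℂ) ^ b := fun b => by
    rw [← q1_nat_mul]
    congr 1
    push_cast
    ring
  have e1 := q1_div_pow_eq_one 1 hd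
  simp only [coeff_map, map_sum (coeff j), coeff_C_mul, coeff_expand, coeff_rescale, e]
  generalize q1 (((1 : ℤ) / d : ℝ) : ℂ) = ζ at e1
  split_ifs
  · have e2 : ∀ (b : ℕ) (c : ℂ), ((ζ ^ b) ^ n)⁻¹ * ((ζ ^ b) ^ (j / a) * c) =
        ((ζ ^ n)⁻¹ * ζ ^ (j / a)) ^ b * c := fun b c => by
      rw [mul_pow, inv_pow, ← pow_mul, ← pow_mul, ← pow_mul, ← pow_mul, mul_comm b, mul_comm b,
        mul_assoc]
    simp only [e2, ← sum_mul, map_mul, RingHom.coe_coe]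
    rw [map_geom]
    rw [mul_pow, inv_pow, ← pow_mul, ← pow_mul, mul_comm n, mul_comm (j / a), pow_mul, pow_mul, e1]
    simp
  · simp

theorem Cq.of_comp (hM : M ≠ 0) (p : ∀ z : ℂ, 0 < z.im → h (z + 1) = h z)
    (p' : ∀ z : ℂ, 0 < z.im → h' (z + 1) = h' z)
    (H : Cq σ (fun z => h (M * z)) fun z => h' (M * z)) : Cq σ h h' := by
  obtain ⟨n, B, k, k'⟩ := H
  obtain ⟨m, rfl⟩ := Nat.exists_eq_succ_of_ne_zero hM
  obtain ⟨A, a1, a2⟩ := exists_qe_of_comp (n := n) hM p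
    ((k.pow_mul (m * n)).congr fun z _ => by rw [Nat.succ_mul, pow_add, mul_assoc])
  obtain ⟨A', b1, b2⟩ := exists_qe_of_comp (n := n) hM p'
    ((k'.pow_mul (m * n)).congr fun z _ => by rw [Nat.succ_mul, pow_add, mul_assoc])
  refine ⟨n, A, a1, ?_⟩
  convert b1
  have e : PowerSeries.map (σ : ℂ →+* ℂ) (expand _ hM A) = expand _ hM A' := by
    rw [a2, b2, map_mul, map_pow, map_X]
  ext j
  simpa using congrArg (coeff (m.succ * j)) e

theorem Cg.hsum (hN : N ≠ 0) (hM : M ≠ 0) (hc : M.Coprime N) (H : Cg N σ h h') :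
    Cg N σ (hsum M h) (hsum M h') := by
  have a := mf_hsum hN hM hc H.mf
  have a' := mf_hsum hN hM hc H.mf'
  refine ⟨a, a', Cq.of_comp hM (le_periodic (mf_le hN a)) (le_periodic (mf_le hN a')) ?_⟩
  have e : ∀ (g : ℂ → ℂ) (z : ℂ), G5.hsum M g (M * z) = ∑ x ∈ M.divisorsAntidiagonal,
      ∑ b ∈ range x.2, g ((x.1 * x.1 : ℕ) * z + (b / x.2 : ℝ)) := fun g z =>
    sum_congr rfl fun x hx => sum_congr rfl fun b _ => by
      have d0 : (x.2 : ℂ) ≠ 0 := by exact_mod_cast (Nat.ne_zero_of_mem_divisorsAntidiagonal hx).2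
      rw [← (Nat.mem_divisorsAntidiagonal.1 hx).1]
      congr 1
      push_cast
      field_simp
  simp only [e]
  exact Cq.sum _ fun x hx => Cq.trace H.ex
    (mul_self_ne_zero.2 (Nat.ne_zero_of_mem_divisorsAntidiagonal hx).1)
    (Nat.ne_zero_of_mem_divisorsAntidiagonal hx).2

variable (N σ) in
/-- The monoid of pairs of conjugate functions. -/
def CgM : Submonoid ((ℂ → ℂ) × (ℂ → ℂ)) where
  carrier := {p | Cg N σ p.1 p.2}
  mul_mem' a b := ⟨mf_mul a.mf b.mf, mf_mul a.mf' b.mf', Cq.mul a.ex b.ex⟩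
  one_mem' := ⟨mf_const 1, mf_const 1,
    show Cq σ (fun _ => 1) fun _ => 1 by simpa using cq_const (σ := σ) 1⟩

/-- A consequence of the independence of characters. -/
theorem sum_eq_of_chars {G ι : Type*} [Monoid G] [Fintype ι] {χ χ' : ι → G →* ℂ} {S S' : ι → ℝ}
    (e : ∀ g, ∑ i, χ i g = ∑ i, χ' i g) (H : ∀ i j, χ i = χ' j → S i = S' j) :
    ∑ i, S i = ∑ i, S' i := by
  have e1 : ∑ i, Finsupp.single (χ i) (1 : ℂ) = ∑ i, Finsupp.single (χ' i) 1 :=
    linearIndependent_monoidHom G ℂ (by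
      ext g
      simpa [map_sum] using e g)
  have e2 : ∀ c, #{i | χ i = c} = #{i | χ' i = c} := fun c => by
    simpa [Finsupp.single_apply] using DFunLike.congr_fun e1 c
  have a : ∀ i, ∃ j, χ' j = χ i := fun i => by
    have k : 0 < #{j | χ j = χ i} := card_pos.2 ⟨i, by simp⟩
    obtain ⟨j, hj⟩ := card_pos.1 (e2 _ ▸ k)
    exact ⟨j, (mem_filter.1 hj).2⟩
  have b : ∀ j, ∃ i, χ i = χ' j := fun j => by
    have k : 0 < #{i | χ' i = χ' j} := card_pos.2 ⟨j, by simp⟩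
    obtain ⟨i, hi⟩ := card_pos.1 (e2 _ ▸ k)
    exact ⟨i, (mem_filter.1 hi).2⟩
  obtain ⟨Φ, p⟩ : ∃ Φ : (G →* ℂ) → ℝ, ∀ i, Φ (χ i) = S i := by
    refine ⟨fun c => if k : ∃ i, χ i = c then S k.choose else 0, fun i => ?_⟩
    obtain ⟨j, hj⟩ := a i
    have k : ∃ i', χ i' = χ i := ⟨i, rfl⟩
    simp only [dif_pos k]
    rw [H _ j (k.choose_spec.trans hj.symm), H i j hj.symm]
  have p' : ∀ j, Φ (χ' j) = S' j := fun j => by
    obtain ⟨i, hi⟩ := b j
    rw [← hi, p, H i j hi]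
  have := congrArg (Finsupp.linearCombination ℂ fun c => (Φ c : ℂ)) e1
  simp only [map_sum, Finsupp.linearCombination_single, one_smul, p, p'] at this
  exact_mod_cast this

theorem hb_stmt : HBStmt := fun N M σ z z' S S' hN hM hc pc H => by
  have := finite_RI hM
  have := Fintype.ofFinite (RI M)
  rw [hsum_RI hM, hsum_RI hM]
  refine sum_eq_of_chars (G := CgM N σ)
    (χ := fun x => ⟨⟨fun p => σ (p.1.1 (act (rI x) z)), map_one σ⟩, fun _ _ => map_mul σ _ _⟩)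
    (χ' := fun x => ⟨⟨fun p => p.1.2 (act (rI x) z'), rfl⟩, fun _ _ => rfl⟩) (fun p => ?_)
    fun x y e => H _ _ (hp_rI x z) (hp_rI y z') ⟨act_pos (rI_pos hM x) pc.pos,
      act_pos (rI_pos hM y) pc.pos', fun h h' k => (DFunLike.congr_fun e ⟨(h, h'), k⟩).symm⟩
  have := pc.ev _ _ (Cg.hsum hN hM hc p.2)
  rw [hsum_RI hM, hsum_RI hM, map_sum] at this
  exact this.symm

end Pool.Agent.G5
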