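import Pool.Agent.Lib.MP_696deb_nt.B5.EXa
import Pool.Agent.Shared.Weier.Leg

/-! Existence and uniqueness of Green functions. -/

set_option autoImplicit false

open Filter Topology Complex Set MeasureTheory CongruenceSubgroup
open scoped Classical Real MatrixGroups UpperHalfPlane

namespace Pool.Agent.G5

open Pool.Agent.Lib.MP_696deb_nt Pool.Agent.B4.GE Pool.Agent.Shared.Weier

variable {W V U Θ Θ' G : ℂ → ℂ} {ν : ℂ → ℤ} {z : ℂ} {g : MZ} {N : ℕ}

theorem act_neg_one (z : ℂ) : act (-1) z = z := by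
  rw [← neg_one_smul ℤ, act_smul (by norm_num), act_one]

theorem ex_stmt : EXStmt := fun N ν s hN h h0 => by
  have : NeZero N := ⟨hN⟩
  let s' := s.filter fun z => ν z ≠ 0
  have hw : ∀ z ∈ s', ((UpperHalfPlane.ofComplex z : ℍ) : ℂ) = z := fun z hz => by
    rw [UpperHalfPlane.ofComplex_apply_of_im_pos (h.pos z (Finset.mem_filter.mp hz).1)]
  obtain ⟨Θ, v, hΘ⟩ := B5.HA.exists_th (Γ := Gamma0 N) s' ν UpperHalfPlane.ofComplex
    (by rwa [Finset.sum_filter_ne_zero])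
  have hS : ∀ τ : ℍ, τ ∈ B5.HA.Sp (Gamma0 N) s' UpperHalfPlane.ofComplex → ν τ ≠ 0 := by
    rintro _ ⟨w, hw', γ, hγ, rfl⟩
    rw [coe_act, hw w hw', h.inv _ ((g0_iff γ).mp hγ) w (h.pos w (Finset.mem_filter.mp hw').1)]
    exact (Finset.mem_filter.mp hw').2
  have hM : Mo Θ ((2 : ℤ) • ν) := fun z hz => by
    lift z to ℍ using hz
    refine ⟨hΘ.mero z, (hΘ.order z).trans (congrArg _ ?_)⟩
    by_cases h1 : ν z = 0
    · rw [Pi.smul_apply, h1, smul_zero]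
      refine Finset.sum_eq_zero fun w hw' => ?_
      rw [eq_empty_of_forall_notMem (s := {γ : Gamma0 N | _}) fun γ (e : _ = z) =>
        hS z ⟨w, hw', γ.1, γ.2, e.symm⟩ h1, ncard_empty, Nat.cast_zero, mul_zero]
    obtain ⟨w, h2, k, h3, h4⟩ := h.ex z z.im_pos h1
    have h5 : ν w = ν z := by rw [h4, h.inv k h3 w (h.pos w h2)]
    have h6 : w ∈ s' := Finset.mem_filter.mpr ⟨h2, h5 ▸ h1⟩
    obtain ⟨k, rfl⟩ : ∃ γ : SL(2, ℤ), γ.1 = k := ⟨⟨k, h3.1⟩, rfl⟩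
    let κ : Gamma0 N := ⟨k, (g0_iff _).mpr h3⟩
    have h7 : κ.1 • (UpperHalfPlane.ofComplex w : ℍ) = z :=
      UpperHalfPlane.ext (by rw [coe_act, hw w h6, h4])
    rw [Finset.sum_eq_single_of_mem w h6 fun w' h8 h9 => ?_]
    · let ε : Gamma0 N := ⟨-1, by simp [Gamma0_mem]⟩
      have h8 : κ ≠ κ * ε := fun e => by
        have := congrArg (fun γ : Gamma0 N => γ.1 0 0) (left_eq_mul.mp e)
        simp [ε] at this
      rw [h5, show {γ : Gamma0 N | γ.1 • (UpperHalfPlane.ofComplex w : ℍ) = z} = {κ, κ * ε} from ?_,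
        ncard_pair h8, mul_comm]
      · rfl
      ext γ
      simp only [mem_ofPred_eq, mem_insert_iff, mem_singleton_iff]
      constructor
      · intro e
        rw [← h7, ← inv_smul_eq_iff, smul_smul] at e
        have e2 := congrArg (fun τ : ℍ => (τ : ℂ)) e
        simp only [coe_act, hw w h6] at e2
        refine (h.free w h2 _ (κ.1⁻¹ * γ.1).2 e2).imp (fun e3 => ?_) fun e3 => ?_
        · exact Subtype.ext (inv_mul_eq_one.mp (show κ.1⁻¹ * γ.1 = 1 from Subtype.ext e3)).symm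
        · exact Subtype.ext (inv_mul_eq_iff_eq_mul.mp (show κ.1⁻¹ * γ.1 = -1 from Subtype.ext e3))
      · rintro (rfl | rfl)
        · exact h7
        · rw [Subgroup.coe_mul, mul_smul, ← h7]
          exact congrArg _ (ModularGroup.SL_neg_smul 1 _ |>.trans (one_smul _ _))
    · rw [eq_empty_of_forall_notMem (s := {γ : Gamma0 N | _}) fun γ (e : _ = z) => h9 ?_,
        ncard_empty, Nat.cast_zero, mul_zero]
      rw [← h7, ← inv_smul_eq_iff, smul_smul] at e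
      have e2 := congrArg (fun τ : ℍ => (τ : ℂ)) e
      simp only [coe_act, hw w h6, hw w' h8] at e2
      exact (h.uniq w h2 w' (Finset.mem_filter.mp h8).1 _
        ((g0_iff _).mp (mul_mem (inv_mem κ.2) γ.2)) e2.symm).symm
  obtain ⟨V, h1, h2⟩ := hM.exists_dv
  have h3 : ∀ τ : ℍ, τ ∉ B5.HA.Sp (Gamma0 N) s' UpperHalfPlane.ofComplex → V τ = Θ τ :=
    fun τ hτ => (h2 τ τ.im_pos).2 (hΘ.off hτ).1.continuousAt
  refine ⟨2, V, two_pos, h1, fun k hk z hz => ?_, fun k hk => ?_⟩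
  · obtain ⟨k, rfl⟩ : ∃ γ : SL(2, ℤ), γ.1 = k := ⟨⟨k, hk.1⟩, rfl⟩
    obtain ⟨c, hc, h4⟩ := hΘ.mult ((g0_iff k).mpr hk)
    simp only [coe_act] at h4 ⊢
    rw [h1.mult_of (fun z hz => (h2 z hz).1) (pos_of_det hk.1) (c := c)
      (norm_ne_zero_iff.mp (hc ▸ one_ne_zero)) hz ((h1.ev hz).mono fun u hu =>
        h4 ⟨u, hu.1⟩ fun e => hS _ e (by simpa using hu.2)), norm_mul, hc, one_mul]
  · obtain ⟨k, rfl⟩ : ∃ γ : SL(2, ℤ), γ.1 = k := ⟨⟨k, hk⟩, rfl⟩
    obtain ⟨c, hc, h4⟩ := hΘ.lim k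
    obtain ⟨Y, -, hY⟩ := B5.HA.exists_high (Gamma0 N) s' ν UpperHalfPlane.ofComplex v
    refine ⟨c, hc, h4.congr' ?_⟩
    filter_upwards [ev_pos, tendsto_comap.eventually (eventually_ge_atTop Y)] with z hz h5
    have h6 := h3 _ (hY ⟨z, hz⟩ h5 k).1
    rw [coe_act] at h6
    exact h6.symm

theorem Grn.norm (h : Grn N ν Θ) (hg : G0 N g) (hz : 0 < z.im) : ‖Θ (act g z)‖ = ‖Θ z‖ :=
  h.inv g hg z hz

/-- The multiplier of a Green function. -/
theorem Grn.mult (h : Grn N ν Θ) (hg : G0 N g) :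
    ∃ c : ℂ, ‖c‖ = 1 ∧ ∀ z : ℂ, 0 < z.im → Θ (act g z) = c * Θ z := by
  have h0 := pos_of_det hg.1
  have h1 : ∀ z : ℂ, 0 < z.im → (Θ (act g z) = 0 ↔ Θ z = 0) := fun z hz => by
    rw [← norm_eq_zero, ← norm_eq_zero (a := Θ z), h.norm hg hz]
  obtain ⟨c, hc, h2⟩ := B5.HA.prop_of_norm h.dv.closed.2 h.dv.closed.1
    (F := fun z => Θ (act g z)) (G := Θ)
    (fun τ hτ => ((h.dv.act h0).an τ.im_pos (((h.dv.act h0).ne_iff τ.im_pos).mp (mt
      (h1 τ τ.im_pos).mp ((h.dv.ne_iff τ.im_pos).mpr (of_not_not hτ))))).differentiableAt)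
    (fun τ hτ => (h.dv.an τ.im_pos (of_not_not hτ)).differentiableAt)
    (fun τ hτ => (h.dv.ne_iff τ.im_pos).mpr (of_not_not hτ)) fun τ _ => h.inv g hg τ τ.im_pos
  refine ⟨c, hc, fun z hz => ?_⟩
  by_cases h3 : ν z = 0
  · exact h2 ⟨z, hz⟩ (not_not.mpr h3)
  · have h4 : Θ z = 0 := of_not_not (mt (h.dv.ne_iff hz).mp h3)
    rw [(h1 z hz).mpr h4, h4, mul_zero]

/-- The complex numbers of absolute value one. -/
noncomputable def U0 : Subgroup ℂˣ where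
  carrier := {c | ‖(c : ℂ)‖ = 1}
  mul_mem' ha hb := by simp_all
  one_mem' := by simp
  inv_mem' ha := by simp_all

theorem mu_iff_grn (hU : ∀ z : ℂ, 0 < z.im → U z = 0) : Mu N U0 ν U Θ ↔ Grn N ν Θ := by
  refine ⟨fun h => ⟨h.dv, fun g hg z hz => ?_, h.cn⟩, fun h => ⟨h.dv, h.cn, fun g hg => ?_⟩⟩
  · obtain ⟨c, k, hc, h1⟩ := h.inv g hg
    have h2 := (h1 z hz).1
    rw [hU z hz, hU _ (act_pos (pos_of_det hg.1) hz), zero_add] at h2
    simp only
    rw [(h1 z hz).2, ← h2, norm_mul, norm_mul, show ‖(c : ℂ)‖ = 1 from hc]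
    simp
  · obtain ⟨c, hc, h1⟩ := h.mult hg
    exact ⟨Units.mk0 c (norm_ne_zero_iff.mp (hc ▸ one_ne_zero)), 0, hc, fun z hz => by
      simp [hU z hz, hU _ (act_pos (pos_of_det hg.1) hz), h1 z hz]⟩

theorem Mu.th (h : Mu N ⊥ ν U W) : Th N ν U W :=
  ⟨h.dv, fun g hg z hz => by
    obtain ⟨c, k, hc, h1⟩ := h.inv g hg
    rw [(h1 z hz).1, (h1 z hz).2, Subgroup.mem_bot.mp hc]
    simp [mul_comm], h.cn⟩

theorem Ci.lim' (h : Ci N G) (hN : N ≠ 0) (hg : g.det = 1) :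
    ∃ c, Tendsto (fun z => G (act g z)) atI (𝓝 c) := by
  obtain ⟨A, hA⟩ := h.cusp g hg
  refine ⟨_, (hA.tendsto.comp (tendsto_affine (r := (N : ℝ)⁻¹) (by positivity) 0)).congr fun z => ?_⟩
  simp [hN]

theorem Ci.cn (h : Ci N G) (hN : N ≠ 0) : Cn fun z => cexp (G z) := fun g hg => by
  obtain ⟨c, hc⟩ := h.lim' hN hg
  exact ⟨_, exp_ne_zero c, hc.cexp⟩

theorem Ci.smul' (h : Ci N G) (a : ℂ) : Ci N fun z => a * G z :=
  ⟨fun z hz => (h.hol z hz).const_mul a, fun g hg => by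
    obtain ⟨c, hc⟩ := h.inv g hg
    exact ⟨a * c, fun z hz => by rw [hc z hz, mul_add]⟩, fun g hg => by
    obtain ⟨A, hA⟩ := h.cusp g hg
    exact ⟨_, hA.smul a⟩⟩

theorem Ci.add' {G' : ℂ → ℂ} (h : Ci N G) (h' : Ci N G') : Ci N fun z => G z + G' z :=
  ⟨fun z hz => (h.hol z hz).add (h'.hol z hz), fun g hg => by
    obtain ⟨c, hc⟩ := h.inv g hg
    obtain ⟨c', hc'⟩ := h'.inv g hg
    exact ⟨c + c', fun z hz => by rw [hc z hz, hc' z hz, add_add_add_comm]⟩, fun g hg => by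
    obtain ⟨A, hA⟩ := h.cusp g hg
    obtain ⟨A', hA'⟩ := h'.cusp g hg
    exact ⟨_, hA.add hA'⟩⟩

/-- Changing the multiplier by an exponential factor. -/
theorem Th.exp {U' : ℂ → ℂ} (h : Th N ν U W) (hN : N ≠ 0) (hG : Ci N G) {c : ℂ}
    (e : ∀ z : ℂ, 0 < z.im → U' z = U z - G z + c) : Th N ν U' fun z => W z * cexp (G z) :=
  ⟨h.dv.mul_hol (fun z hz => (hG.hol z hz).cexp) fun _ _ => exp_ne_zero _, fun g hg z hz => by
    rw [h.inv g hg z hz, e z hz, e _ (act_pos (pos_of_det hg.1) hz), mul_assoc, mul_assoc,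
      ← exp_add, ← exp_add]
    congr 2
    ring, h.cn.mul (hG.cn hN)⟩

/-- Green functions without zeros and poles are constant. -/
theorem Grn.const (h : Grn N 0 Θ) (hN : N ≠ 0) : ∃ c, ∀ z : ℂ, 0 < z.im → Θ z = c := by
  have : NeZero N := ⟨hN⟩
  have h1 : Hol Θ := fun z hz => (h.dv.an hz rfl).differentiableAt
  have h2 : ∀ z : ℂ, 0 < z.im → Θ z ≠ 0 := fun z hz => (h.dv.ne_iff hz).mpr rfl
  have h3 : Continuous fun τ : ℍ => Real.log ‖Θ τ‖ :=
    h1.continuous_coe.norm.log fun τ => norm_ne_zero_iff.mpr (h2 τ τ.im_pos)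
  have h4 : Tame (Gamma0 N) fun τ : ℍ => Real.log ‖Θ τ‖ := by
    refine ⟨h3.measurable, fun γ hγ τ => ?_, h3.locallyIntegrable, fun γ => ?_⟩
    · rw [coe_act, h.norm ((g0_iff γ).mp hγ) τ.im_pos]
    obtain ⟨a, ha, h5⟩ := h.cn γ.1 γ.2
    obtain ⟨Y, hY⟩ := eventually_atTop.mp (eventually_comap.mp
      ((h5.norm.log (norm_ne_zero_iff.mpr ha)).abs.eventually (eventually_le_nhds (lt_add_one _))))
    exact ⟨Y, _, fun z _ hz => by rw [coe_act]; exact hY _ hz z rfl⟩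
  have h5 : ∀ ε : ℝ, 0 < ε → ∀ τ, avg ε (fun τ : ℍ => Real.log ‖Θ τ‖) τ = Real.log ‖Θ τ‖ :=
    fun ε hε τ => by
    obtain ⟨k, rfl⟩ : ∃ k : SL(2, ℝ), k • UpperHalfPlane.I = τ := ⟨_, τ.toSL2R_smul_I⟩
    rw [avg_smul, avg_polar (u := fun w => Real.log ‖Θ (k • w : ℍ)‖)
      (h3.comp (continuous_const_smul k)).aestronglyMeasurable
      (integrable_akr_smul (u := fun τ : ℍ => Real.log ‖Θ τ‖) k (h4.integrable hε _)), setIntegral_congr_fun measurableSet_Ioo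
      (g := fun r => nuK ε r * Real.log ‖Θ (k • UpperHalfPlane.I : ℍ)‖) fun r hr => ?_,
      integral_mul_const, (integral_nuK hε).2, one_mul]
    simp only
    rw [AnalyticOnNhd.circleAverage_log_norm_of_ne_zero (g := fun ζ => Θ (k • cay ζ : ℍ))
      ((DifferentiableOn.analyticOnNhd (s := Metric.ball 0 1) (fun ξ hξ =>
        (DifferentiableAt.comp (g := Θ) ξ (h1 _ (UpperHalfPlane.im_pos _))
        (differentiableAt_smul_cay k (by simpa using hξ))).differentiableWithinAt)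
        Metric.isOpen_ball).mono (Metric.closedBall_subset_ball (by rw [abs_of_pos hr.1]; exact hr.2)))
      fun u _ => h2 _ (UpperHalfPlane.im_pos _), cay_zero]
  have h6 : ∀ τ : ℍ, ‖Θ τ / Θ UpperHalfPlane.I‖ = 1 := fun τ => by
    have e := tendsto_nhds_unique ((h4.tendsto τ UpperHalfPlane.I).congr' (by
      filter_upwards [self_mem_nhdsWithin] with ε hε
      rw [h5 ε hε, h5 ε hε])) tendsto_const_nhds
    rw [norm_div, Real.log_injOn_pos (norm_pos_iff.mpr (h2 τ τ.im_pos))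
      (norm_pos_iff.mpr (h2 _ UpperHalfPlane.I.im_pos)) (sub_eq_zero.mp e.symm),
      div_self (norm_ne_zero_iff.mpr (h2 _ UpperHalfPlane.I.im_pos))]
  obtain ⟨c, -, hc⟩ := B5.HA.prop_of_norm countable_empty isClosed_empty (F := Θ)
    (G := fun _ => Θ UpperHalfPlane.I) (fun τ _ => h1 τ τ.im_pos)
    (fun _ _ => differentiableAt_const _) (fun _ _ => h2 _ UpperHalfPlane.I.im_pos) fun τ _ => by
      rw [← div_eq_one_iff_eq (norm_ne_zero_iff.mpr (h2 _ UpperHalfPlane.I.im_pos)), ← norm_div, h6]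
  exact ⟨_, fun z hz => hc ⟨z, hz⟩ (notMem_empty _)⟩

theorem Grn.uniq (h : Grn N ν Θ) (h' : Grn N ν Θ') (hN : N ≠ 0) :
    ∃ c : ℂ, ∀ z : ℂ, 0 < z.im → Θ' z = c * Θ z := by
  obtain ⟨Q, h3, h4, h5⟩ := exists_prod Finset.univ
    (W := fun i => bif i then Θ' else fun z => Θ z ^ (-1 : ℤ))
    (ν := fun i => bif i then ν else fun z => -1 * ν z)
    (by rintro (_ | _) -; exacts [h.dv.zpow _, h'.dv])
    (by rintro (_ | _) -; exacts [h.cn.zpow _, h'.cn])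
  simp only [Fintype.sum_bool, Fintype.prod_bool, cond_true, cond_false, Finset.mem_univ,
    forall_const, Bool.forall_bool, zpow_neg_one] at h3 h5
  obtain ⟨c, hc⟩ := Grn.const (N := N) ⟨h3.congr fun z _ => by simp, fun g hg z hz => by
    obtain ⟨a, ha, h6⟩ := h.mult hg
    obtain ⟨b, hb, h7⟩ := h'.mult hg
    have h8 : ‖b * a⁻¹‖ = 1 := by rw [norm_mul, norm_inv, ha, hb, inv_one, mul_one]
    simp only
    rw [h3.mult_of (fun z hz => (h5 z hz).1) (pos_of_det hg.1) (c := b * a⁻¹)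
      (norm_ne_zero_iff.mp (h8 ▸ one_ne_zero)) hz ((h3.ev hz).mono fun u hu => by
        rw [h6 u hu.1, h7 u hu.1, mul_inv, mul_mul_mul_comm]), norm_mul, h8, one_mul], h4⟩ hN
  refine ⟨c, fun z hz => ?_⟩
  by_cases h6 : ν z = 0
  · rw [← hc z hz, (h5 z hz).2 ⟨by rw [h6, mul_zero], h6⟩,
      inv_mul_cancel_right₀ ((h.dv.ne_iff hz).mpr h6)]
  · rw [of_not_not (mt (h.dv.ne_iff hz).mp h6), of_not_not (mt (h'.dv.ne_iff hz).mp h6), mul_zero]

theorem gr_stmt : GRStmt := fun N ν hN => by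
  refine ⟨fun Θ E t h hE0 hE ht => ?_, fun L F V u hF h => ?_, fun Θ Θ' h h' => h.uniq h' hN,
    fun G hG h => ?_⟩
  · obtain ⟨V, h1, h2⟩ := Mu.hecke ht (fun z hz => (hE0 z hz).1) hE
      ((mu_iff_grn (U := 0) fun _ _ => rfl).mpr h) fun z hz => (hE0 z hz).2
    exact ⟨V, (mu_iff_grn fun z _ => by rw [map_zero, Pi.zero_apply]).mp h1, h2⟩
  · obtain ⟨a, b, -, hb⟩ := exists_eta_eq L
    have e : ∀ z, ((a * u + b * (starRingEnd ℂ) u) * F z).re = (U1 L F u z).re := fun z => by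
      simp only [U1, hb, add_mul, add_re, mul_re, mul_im, ofReal_re, ofReal_im, conj_re, conj_im]
      ring
    have h1 := h.exp hN (hF.smul' (a * u + b * (starRingEnd ℂ) u)) (c := 0) fun _ _ => rfl
    refine ⟨_, ⟨h1.dv, fun g hg z hz => ?_, h1.cn⟩, fun z hz h0 => ?_⟩
    · simp only
      rw [h1.inv g hg z hz, norm_mul _ (cexp (_ - _)), norm_exp (_ - _)]
      simp only [add_zero, sub_re, e, sub_self, Real.exp_zero, mul_one]
    · rw [norm_mul, norm_exp, Real.log_mul (norm_ne_zero_iff.mpr ((h.dv.ne_iff hz).mpr h0))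
        (Real.exp_ne_zero _), Real.log_exp, e, gT]
  · obtain ⟨c, hc⟩ := Grn.const (N := N) (Θ := fun z => cexp (G z)) ⟨dv_zero
      (fun z hz => (hG.hol z hz).cexp) fun _ _ => exp_ne_zero _, fun g hg z hz => by
        simp only [norm_exp]
        exact congrArg _ (h g hg z hz), hG.cn hN⟩ hN
    exact B5.HA.hol_const hG.hol (c := Real.log ‖c‖) fun z hz => by
      rw [← hc z hz, norm_exp, Real.log_exp]

end Pool.Agent.G5
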