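import Pool.Agent.Lib.MP_696deb_nt.B5.CJb
import Pool.Agent.Lib.MP_696deb_nt.B5.EXb

/-! The transfer of values and of orders to conjugate points. -/

set_option autoImplicit false

open Polynomial Filter Topology Asymptotics
open scoped Classical

namespace Pool.Agent.G5

open Pool.Agent.Lib.MP_696deb_nt Pool.Agent.B4.GE Pool.Agent.Shared.Weier Pool.Agent.B5
open Pool.Agent.Lib.MP_696deb_nt.B4

variable {N : ℕ} {σ : ℂ ≃+* ℂ} {f f' g G G' H H' : ℂ → ℂ} {z z' : ℂ} {m n : ℤ}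

theorem kap_bd (a : ℕ → ℂ) (x : ℂ) (n : ℕ) (h : ∑ k ∈ Finset.range (n + 2), a k * x ^ k = 0) :
    ‖a (n + 1) * x‖ ≤ ∑ k ∈ Finset.range (n + 2), ‖a k‖ := by
  have p : 0 ≤ ∑ k ∈ Finset.range (n + 1), ‖a k‖ := Finset.sum_nonneg fun _ _ => norm_nonneg _
  rw [Finset.sum_range_succ] at h ⊢
  rcases le_or_gt ‖x‖ 1 with k | k
  · rw [norm_mul]
    nlinarith [norm_nonneg (a (n + 1))]
  · refine le_trans (le_of_mul_le_mul_right ?_ (pow_pos (one_pos.trans k) n))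
      (le_add_of_nonneg_right (norm_nonneg _))
    rw [← norm_pow, ← norm_mul, mul_assoc, ← pow_succ', eq_neg_of_add_eq_zero_right h, norm_neg,
      Finset.sum_mul]
    refine norm_sum_le_of_le _ fun i hi => ?_
    rw [norm_mul, norm_pow, norm_pow]
    exact mul_le_mul_of_nonneg_left (pow_le_pow_right₀ k.le
      (Nat.lt_succ_iff.1 (Finset.mem_range.1 hi))) (norm_nonneg _)

theorem MF.an (hN : N ≠ 0) (h : MF N f) (hz : 0 < z.im) : AnalyticAt ℂ f z :=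
  gb_an (mf_le hN h).hol hz

/-- The descent on the degree. -/
theorem kap (hN : N ≠ 0) (hG : MF N G) {ρ : ℂ[X]} (h0 : ρ ≠ 0) (hz : 0 < z.im)
    (hx : An (fun t => G t / ρ.eval (jf t)) z) (n : ℕ) : ∀ a : ℕ → ℂ → ℂ, (∀ k, MF N (a k)) →
    (∃ k ≤ n, a k z ≠ 0) → (∀ t : ℂ, 0 < t.im → ρ.eval (jf t) ≠ 0 →
      ∑ k ∈ Finset.range (n + 1), a k t * (G t / ρ.eval (jf t)) ^ k = 0) →
    ∃ S K, MF N S ∧ MF N K ∧ S z ≠ 0 ∧ ∀ t : ℂ, 0 < t.im → S t * G t = ρ.eval (jf t) * K t := by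
  induction n with
  | zero =>
    rintro a ha ⟨k, k1, k2⟩ e
    rw [Nat.le_zero.1 k1] at k2
    exact (k2 (geb_eq (g := fun _ => 0) (MF.an hN (ha 0) hz).continuousAt continuousAt_const
      ((geb_ne h0 hz).mono fun t ht => by simpa using e t ht.1 ht.2))).elim
  | succ n ih =>
    rintro a ha ⟨k, k1, k2⟩ e
    obtain ⟨K, K1, K2⟩ := mf_div hN (mf_mul (ha (n + 1)) hG) h0 fun w hw => an_of_bdd
      ((MF.an hN (mf_mul (ha _) hG) hw).meromorphicAt.div
        (MF.an hN (mf_eval hN ρ) hw).meromorphicAt)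
      ((IsBigO.of_norm_eventuallyLE ((geb_ne h0 hw).mono fun t ht => by
        simpa only [mul_div_assoc, Finset.sum_apply] using kap_bd (a · t) _ n (e t ht.1 ht.2))).trans
        (IsBigO.sum fun i _ => (((MF.an hN (ha i) hw).continuousAt.tendsto.mono_left
          nhdsWithin_le_nhds).isBigO_one ℝ).norm_left))
    by_cases c : a (n + 1) z = 0
    swap
    · exact ⟨_, K, ha _, K1, c, K2⟩
    have q : ∀ t : ℂ, 0 < t.im → ρ.eval (jf t) ≠ 0 →
        K t = a (n + 1) t * (G t / ρ.eval (jf t)) := fun t t1 t2 => by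
      rw [← mul_div_assoc, K2 t t1, mul_div_cancel_left₀ _ t2]
    obtain ⟨x, x1, x2⟩ := hx
    have K0 : K z = 0 := by
      rw [geb_eq (g := fun t => a (n + 1) t * x t) (MF.an hN K1 hz).continuousAt
        ((MF.an hN (ha _) hz).mul x1).continuousAt ?_, c, zero_mul]
      filter_upwards [geb_ne h0 hz, x2] with t t1 t2
      rw [q t t1.1 t1.2, t2]
    refine ih (fun i t => a i t + if i = n then K t else 0) (fun i => mf_add (ha i) ?_)
      ⟨k, Nat.lt_succ_iff.1 (k1.lt_of_ne fun r => k2 (r ▸ c)), by simpa [K0] using k2⟩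
      fun t t1 t2 => ?_
    · split_ifs
      exacts [K1, mf_const 0]
    · have := e t t1 t2
      rw [Finset.sum_range_succ, pow_succ', ← mul_assoc, ← q t t1 t2] at this
      simpa [add_mul, Finset.sum_add_distrib] using this

/-- Functions that do not vanish identically. -/
def Nz (f : ℂ → ℂ) : Prop := ∃ t : ℂ, 0 < t.im ∧ f t ≠ 0

theorem Nz.ev (h : Nz f) (hf : Hol f) (hz : 0 < z.im) : ∀ᶠ t in 𝓝[≠] z, 0 < t.im ∧ f t ≠ 0 := by
  obtain ⟨w, w1, w2⟩ := h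
  exact .and (mem_nhdsWithin_of_mem_nhds (gb_ev hz))
    ((gb_an hf hz).eventually_eq_zero_or_eventually_ne_zero.resolve_left fun k =>
      w2 (AnalyticOnNhd.eqOn_zero_of_preconnected_of_eventuallyEq_zero (U := {z : ℂ | 0 < z.im})
        (fun _ => gb_an hf) (convex_halfSpace_im_gt 0).isPreconnected hz k w1))

theorem Cg.nz (h : Cg N σ f f') (k : Nz f) : Nz f' := by
  by_contra c
  obtain ⟨w, w1, w2⟩ := k
  exact w2 ((Cq.symm h.ex).zero (fun t ht => by_contra fun e => c ⟨t, ht, e⟩) w1)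

/-- A quotient without pole at `z` has a denominator that does not vanish at `z`. -/
theorem exists_den (hN : N ≠ 0) (hG : MF N G) (hH : MF N H) (h0 : Nz H) (hz : 0 < z.im)
    (hx : An (fun t => G t / H t) z) :
    ∃ S K, MF N S ∧ MF N K ∧ S z ≠ 0 ∧ ∀ t : ℂ, 0 < t.im → S t * G t = H t * K t := by
  have := finite_CI hN
  have := Fintype.ofFinite (CI N)
  obtain ⟨w, w1, w2⟩ := h0
  obtain ⟨H₁, ρ, h1, -, h2⟩ := exists_cof (V := V1) hN hH w1 w2 fun g hg => ga_mem (hH.2 g hg)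
  have p : ∀ i : CI N, 0 < (cr i).det := fun i => by rw [cr_det]; exact one_pos
  have r : ρ ≠ 0 := by
    obtain ⟨t, ⟨t1, -⟩, t2⟩ := ((geb_ne one_ne_zero w1).and (eventually_all.2 fun i : CI N =>
      (gb_tendsto (p i).ne' w1).eventually
        (Nz.ev ⟨w, w1, w2⟩ (mf_le hN hH).hol (act_pos (p i) w1)))).exists
    rintro rfl
    exact Finset.prod_ne_zero_iff.2 (fun i _ => (t2 i).2) (by simpa using (h2 t t1).2.symm)
  have q : ∀ t : ℂ, 0 < t.im → ρ.eval (jf t) ≠ 0 → G t * H₁ t / ρ.eval (jf t) = G t / H t :=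
    fun t t1 t2 => by
      rw [← (h2 t t1).1] at t2 ⊢
      exact mul_div_mul_right _ _ (right_ne_zero_of_mul t2)
  obtain ⟨A, a1, a2⟩ := monic_rel hN (mf_mul hG h1)
  obtain ⟨B, b1, d, b2⟩ : ∃ B : ℂ[X][X], B.IsPrimitive ∧ ∃ d, A.comp (C ρ * X) = C d * B :=
    ⟨_, isPrimitive_primPart _, _, eq_C_content_mul_primPart _⟩
  have d0 : d ∣ ρ ^ A.natDegree := ⟨B.coeff A.natDegree, by
    rw [← coeff_C_mul, ← b2, comp_C_mul_X_coeff, a1.coeff_natDegree, one_mul]⟩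
  obtain ⟨S, K, s1, s2, s3, s4⟩ := kap hN (mf_mul hG h1) r hz
    (hx.congr ((geb_ne r hz).mono fun t ht => q t ht.1 ht.2)) B.natDegree
    (fun k t => (B.coeff k).eval (jf t)) (fun k => mf_eval hN _) (by
      by_contra! c
      refine not_isUnit_X_sub_C (jf z) (b1 _ ((C_dvd_iff_dvd_coeff _ _).2 fun k => ?_))
      rcases le_or_gt k B.natDegree with e | e
      · exact dvd_iff_isRoot.2 (c k e)
      · simp [coeff_eq_zero_of_natDegree_lt e]) fun t t1 t2 => by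
    have e := congrArg (evalEval (jf t) (G t * H₁ t / ρ.eval (jf t))) b2
    rw [evalEval_mul, evalEval_C, ← eval₂_evalRingHom, eval₂_comp, eval₂_mul, eval₂_C, eval₂_X,
      coe_evalRingHom, mul_div_cancel₀ _ t2, eval₂_evalRingHom, a2 t t1, ← eval₂_evalRingHom,
      eval₂_eq_sum_range] at e
    exact (mul_eq_zero.1 e.symm).resolve_left fun k =>
      pow_ne_zero A.natDegree t2 (eval_pow (p := ρ) _ ▸ eval_eq_zero_of_dvd_of_eval_eq_zero d0 k)
  refine ⟨S, K, s1, s2, s3, fun t ht => geb_eq (f := fun t => S t * G t) (g := fun t => H t * K t)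
    (MF.an hN (mf_mul s1 hG) ht).continuousAt (MF.an hN (mf_mul hH s2) ht).continuousAt ?_⟩
  filter_upwards [geb_ne r ht] with y y1
  refine mul_right_cancel₀ (right_ne_zero_of_mul ((h2 y y1.1).1 ▸ y1.2)) ?_
  rw [mul_assoc, s4 y y1.1, ← (h2 y y1.1).1]
  ring

theorem Cg.eq (h : Cg N σ f f') {g' : ℂ → ℂ} (k : Cg N σ g g') (e : ∀ t : ℂ, 0 < t.im → f t = g t)
    (hz : 0 < z.im) : f' z = g' z := by
  have := Cq.zero (h.add ((cg_const (-1)).mul k)).ex (fun t ht => by simp [e t ht]) hz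
  simpa [add_neg_eq_zero] using this

/-- The transfer of values. -/
theorem Pc.val (hN : N ≠ 0) (h : Pc N σ z z') (kG : Cg N σ G G') (kH : Cg N σ H H') (h0 : Nz H)
    (g1 : AnalyticAt ℂ g z) (g2 : (fun t => G t / H t) =ᶠ[𝓝[≠] z] g) :
    ∃ g', AnalyticAt ℂ g' z' ∧ (fun t => G' t / H' t) =ᶠ[𝓝[≠] z'] g' ∧ g' z' = σ (g z) := by
  obtain ⟨S, K, s1, s2, s3, s4⟩ := exists_den hN kG.mf kH.mf h0 h.pos ⟨g, g1, g2⟩
  obtain ⟨S', kS⟩ := exists_cg hN σ s1
  obtain ⟨K', kK⟩ := exists_cg hN σ s2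
  have s5 : S' z' ≠ 0 := by rwa [h.ev _ _ kS, _root_.map_ne_zero]
  have a := MF.an hN kS.mf' h.pos'
  refine ⟨fun t => K' t / S' t, (MF.an hN kK.mf' h.pos').div a s5, ?_, ?_⟩
  · filter_upwards [(kH.nz h0).ev (mf_le hN kH.mf').hol h.pos',
      mem_nhdsWithin_of_mem_nhds (a.continuousAt.eventually_ne s5)] with t t1 t2
    rw [div_eq_div_iff t1.2 t2, mul_comm, (kS.mul kG).eq (kH.mul kK) s4 t1.1, mul_comm]
  · simp only
    rw [h.ev _ _ kS, h.ev _ _ kK, ← map_div₀, geb_eq (f := K) (g := fun t => S t * g t)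
      (MF.an hN s2 h.pos).continuousAt ((MF.an hN s1 h.pos).mul g1).continuousAt ?_,
      mul_div_cancel_left₀ _ s3]
    filter_upwards [h0.ev (mf_le hN kH.mf).hol h.pos, g2] with t t1 t2
    rw [← t2, ← mul_div_assoc, s4 t t1.1, mul_div_cancel_left₀ _ t1.2]

/-- The order at a point. -/
def Od (f : ℂ → ℂ) (z : ℂ) (n : ℤ) : Prop := MeromorphicAt f z ∧ meromorphicOrderAt f z = n

theorem Od.mul (h : Od f z m) (k : Od g z n) : Od (fun t => f t * g t) z (m + n) :=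
  ⟨h.1.mul k.1, by rw [fun_meromorphicOrderAt_mul h.1 k.1, h.2, k.2, WithTop.coe_add]⟩

theorem Od.zpow (h : Od f z m) (n : ℤ) : Od (fun t => f t ^ n) z (n * m) :=
  ⟨h.1.zpow n, by rw [fun_meromorphicOrderAt_zpow h.1, h.2, WithTop.coe_mul]⟩

theorem Od.div (h : Od f z m) (k : Od g z n) : Od (fun t => f t / g t) z (m - n) := by
  simpa [div_eq_mul_inv, sub_eq_add_neg] using h.mul (k.zpow (-1))

theorem Od.congr (h : Od f z m) (e : f =ᶠ[𝓝[≠] z] g) : Od g z m :=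
  ⟨h.1.congr e, meromorphicOrderAt_congr e ▸ h.2⟩

theorem Od.unique (h : Od f z m) (k : Od f z n) : m = n := by
  exact_mod_cast h.2.symm.trans k.2

theorem Od.ev (h : Od f z m) : ∀ᶠ t in 𝓝[≠] z, f t ≠ 0 :=
  (meromorphicOrderAt_ne_top_iff_eventually_ne_zero h.1).1 (by simp [h.2])

theorem Od.nz (h : Od f z m) (hz : 0 < z.im) : Nz f :=
  ((show ∀ᶠ t in 𝓝[≠] z, 0 < t.im from mem_nhdsWithin_of_mem_nhds (gb_ev hz)).and h.ev).exists

theorem od_zero (h : AnalyticAt ℂ f z) (h0 : f z ≠ 0) : Od f z 0 :=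
  ⟨h.meromorphicAt, (meromorphicOrderAt_eq_int_iff h.meromorphicAt).2 ⟨f, h, h0, by simp⟩⟩

theorem Od.unit (h : Od f z 0) : ∃ g, AnalyticAt ℂ g z ∧ g z ≠ 0 ∧ f =ᶠ[𝓝[≠] z] g := by
  simpa [EventuallyEq] using (meromorphicOrderAt_eq_int_iff h.1).1 h.2

theorem Nz.od (h : Nz f) (hf : Hol f) (hz : 0 < z.im) : ∃ n, Od f z n := by
  have m := (gb_an hf hz).meromorphicAt
  obtain ⟨n, e⟩ := WithTop.ne_top_iff_exists.1
    ((meromorphicOrderAt_ne_top_iff_eventually_ne_zero m).2 ((h.ev hf hz).mono fun _ k => k.2))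
  exact ⟨n, m, e.symm⟩

theorem od_one (h : AnalyticAt ℂ f z) (h0 : deriv f z ≠ 0) : Od (fun t => f t - f z) z 1 := by
  have a := h.sub (analyticAt_const (v := f z))
  refine ⟨a.meromorphicAt, ?_⟩
  rw [show (fun t => f t - f z) = f - fun _ => f z from rfl, a.meromorphicOrderAt_eq,
    show f - (fun _ => f z) = fun t => f t - f z from rfl,
    h.analyticOrderAt_sub_eq_one_of_deriv_ne_zero h0]
  rfl

variable (N σ z z') in
/-- The orders of conjugate functions at two points. -/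
def Tw : AddSubgroup (ℤ × ℤ) := AddSubgroup.closure
  {x | ∃ G G', Cg N σ G G' ∧ Od G z x.1 ∧ Od G' z' x.2}

theorem Cg.tw (h : Cg N σ G G') (k : Od G z m) (k' : Od G' z' n) : (m, n) ∈ Tw N σ z z' :=
  AddSubgroup.subset_closure ⟨G, G', h, k, k'⟩

/-- The transfer of orders. -/
theorem Pc.tw (hN : N ≠ 0) (h : Pc N σ z z') (k : (0, n) ∈ Tw N σ z z') : n = 0 := by
  have : ∀ x ∈ Tw N σ z z', ∃ (G G' H H' : ℂ → ℂ) (a b : ℤ × ℤ), Cg N σ G G' ∧ Cg N σ H H' ∧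
      Od G z a.1 ∧ Od G' z' a.2 ∧ Od H z b.1 ∧ Od H' z' b.2 ∧ x = a - b := fun x hx => by
    have o : ∀ z c : ℂ, c ≠ 0 → Od (fun _ => c) z 0 := fun z c hc => od_zero analyticAt_const hc
    induction hx using AddSubgroup.closure_induction with
    | mem x hx =>
      obtain ⟨G, G', k1, k2, k3⟩ := hx
      exact ⟨G, G', _, _, x, 0, k1, cg_const 1, k2, k3, o _ _ one_ne_zero, o _ _ (by simp), by simp⟩
    | zero => exact ⟨_, _, _, _, 0, 0, cg_const 1, cg_const 1, o _ _ one_ne_zero, o _ _ (by simp),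
        o _ _ one_ne_zero, o _ _ (by simp), by simp⟩
    | add x y _ _ hx hy =>
      obtain ⟨G, G', H, H', a, b, k1, k2, k3, k4, k5, k6, rfl⟩ := hx
      obtain ⟨F, F', K, K', c, d, l1, l2, l3, l4, l5, l6, rfl⟩ := hy
      exact ⟨_, _, _, _, a + c, b + d, k1.mul l1, k2.mul l2, k3.mul l3, k4.mul l4, k5.mul l5,
        k6.mul l6, by abel⟩
    | neg x _ hx =>
      obtain ⟨G, G', H, H', a, b, k1, k2, k3, k4, k5, k6, rfl⟩ := hx
      exact ⟨_, _, _, _, b, a, k2, k1, k5, k6, k3, k4, by abel⟩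
  obtain ⟨G, G', H, H', a, b, k1, k2, k3, k4, k5, k6, e⟩ := this _ k
  obtain ⟨e1, e2⟩ : 0 = a.1 - b.1 ∧ n = a.2 - b.2 := Prod.ext_iff.1 e
  obtain ⟨g, g1, g2, g3⟩ := (e1 ▸ k3.div k5).unit
  obtain ⟨g', g4, g5, g6⟩ := h.val hN k1 k2 (k5.nz h.pos) g1 g3
  exact e2 ▸ (k4.div k6).unique ((od_zero g4 (by rwa [g6, _root_.map_ne_zero])).congr g5.symm)

theorem Pc.trans (hN : N ≠ 0) {w : ℂ} (h : Pc N σ z w) (k : Pc N σ z' w) :
    Pc N (RingEquiv.refl ℂ) z z' := ⟨h.pos, k.pos, fun f f' e => by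
  obtain ⟨g, l⟩ := exists_cg hN σ e.mf
  obtain ⟨n, A, a, a'⟩ := e.ex
  have : ∀ t : ℂ, 0 < t.im → f' t = f t := fun t ht => mul_left_cancel₀
    (pow_ne_zero n (q1_ne t)) (a'.eq_of_eq (by convert a; ext; simp) ht)
  rw [this _ k.pos]
  exact σ.injective ((k.ev _ _ l).symm.trans (h.ev _ _ l))⟩

end Pool.Agent.G5
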