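import Pool.Agent.Lib.MP_696deb_nt.B5.HT1
import Pool.Agent.Lib.MP_696deb_nt.B5.TPa

/-! The conjugate of the auxiliary modular function. -/

set_option autoImplicit false

open Filter Topology
open scoped Classical

namespace Pool.Agent.G5

open Pool.Agent.Lib.MP_696deb_nt Pool.Agent.B4.GE Pool.Agent.Shared.Weier

/-- The point is not of order dividing two, and it is not a value at a cusp up to sign. -/
structure Gd {W : WeierstrassCurve ℚ} {N : ℕ} (P : Par W N) (R : Pt W ℂ) : Prop where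
  two : R + R ≠ 0
  cv : R ∉ P.CV
  cv' : -R ∉ P.CV

/-- The archimedean local symbol at conjugate points. -/
def ACStmt : Prop := ∀ (W : WeierstrassCurve ℚ) [W.IsElliptic] (N : ℕ) (P : Par W N) (ν : ℂ → ℤ)
  (u c : ℂ) (V : ℂ → ℂ) (J : Finset ℂ) (m : ℕ) (σ : ℂ ≃+* ℂ) (e : ℤ),
  Th N ν (U1 P.L P.F u) V → (∀ z : ℂ, 0 < z.im → ν z ≠ 0 → jf z ∈ J ∧ deriv jf z ≠ 0) →
  (∀ z : ℂ, 0 < z.im → |ν z| < m) → (e = 1 ∨ e = -1) → (∀ z z', Pc N σ z z' → ν z' = e * ν z) →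
  Gd P (P.per.unif c) → Gd P (P.per.unif c + P.per.unif u) →
  Gd P (pmap (σ : ℂ →+* ℂ) (P.per.unif c)) →
  Gd P (pmap (σ : ℂ →+* ℂ) (P.per.unif c + P.per.unif u)) →
  ∃ κ : ℝ, ∀ z z', Pc N σ z z' → ν z = 0 → P.F z - c ∉ P.L.lattice →
    P.F z - c - u ∉ P.L.lattice → Real.log ‖σ (hq P u V c z)‖ +
      (lamA P.per (pmap (σ : ℂ →+* ℂ) (P.φ z - P.per.unif c)) -
        lamA P.per (pmap (σ : ℂ →+* ℂ) (P.φ z - P.per.unif c - P.per.unif u))) / 2 =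
      e * gT (U1 P.L P.F u) V z' + κ

end Pool.Agent.G5
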