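import Pool.Agent.Lib.MP_696deb_nt.B5.ZFb

/-! Basic facts on the special divisors. -/

set_option autoImplicit false

open Finset NumberTheorySymbols
open scoped Classical

namespace Pool.Agent.G5

open Pool.Agent.Lib.MP_696deb_nt Pool.Agent.B4.GE

variable {N A B : ℕ} {ρ : ℤ} {T T' : Finset Fm}

theorem Good.n0 {n : ℕ} (h : Good N n) : N ≠ 0 := by have := h.l1; omega

theorem Good.neg {n : ℕ} (h : Good N n) : -(n : ℤ) < 0 := by have := h.mod4; omega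

theorem Good.odd {n : ℕ} (h : Good N n) : Odd n := by have := h.mod4; rw [Nat.odd_iff]; omega

theorem Good.three (h : Good N (A * B)) (hA : 1 < A) (hB : 1 < B) : 3 < A * B := by nlinarith

theorem dvd_disc (A B : ℕ) : (B : ℤ) ∣ -(A * B : ℕ) := ⟨-A, by push_cast; ring⟩

theorem sum_wZ_fV {M : Type} [AddCommGroup M] (hn : Good N (A * B)) (hs : J(-N | B) = -1)
    (hρ : 4 * (N : ℤ) ∣ ρ ^ 2 + (A * B : ℕ)) (h : FReps N (-(A * B : ℕ)) ρ T)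
    (h' : FReps N (-(A * B : ℕ)) (-ρ) T') (f : Fm → M)
    (hf : ∀ Q R, Fam N (-(A * B : ℕ)) (-ρ) Q → 0 < Q.1 → FEq N Q R → f R = f Q) :
    ∑ Q ∈ T ∪ T', wZ N B (-(A * B : ℕ)) ρ Q • f Q =
      ∑ Q ∈ T, gch B Q • f Q - ∑ Q ∈ T, gch B Q • f (fV N Q) := by
  have ho := hn.odd.of_dvd_nat (dvd_mul_left B A)
  rw [sum_wZ h h' (hn.not_dvd hρ hn.l1 dvd_rfl), h'.sum_eq (h.fV hn.n0 hn.neg).1 _
    fun Q R h1 h2 h3 => by rw [h3.gch ho (h1.2.1 ▸ dvd_disc A B), hf Q R h1 h2 h3],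
    (h.fV hn.n0 hn.neg).2, sub_eq_add_neg, smul_sum, ← sum_neg_distrib]
  refine congrArg _ (sum_congr rfl fun Q hQ => ?_)
  rw [gch_fV hn.n0 hn.sqf.of_mul_right ho (hn.cop.coprime_mul_left)
    ((h.fam Q hQ).2.1 ▸ dvd_disc A B) (h.fam Q hQ).1, smul_smul, ← mul_assoc,
    ← jacobiSym.mul_left, neg_one_mul, hs, neg_one_mul, neg_smul]

theorem nu_stmt : NUStmt := by
  refine ⟨fun N D β hN hD => exists_freps hN hD β,
    fun N A e β hA he => ⟨wt_wG hA he β, wt_wZ hA he⟩, ?_⟩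
  intro N A B ρ T T' hn hA hB hs hρ h h'
  have h0 := hn.neg
  have h1 := hn.not_dvd hρ hn.l1 dvd_rfl
  have hw : Wt N (wZ N B (-(A * B : ℕ)) ρ) (-(A * B : ℕ)) :=
    wt_wZ (hn.odd.of_dvd_nat (dvd_mul_left B A)) (dvd_disc A B) h0
  have hd : ∀ Q ∈ T ∪ T', fdisc Q = -(A * B : ℕ) := fun Q hQ =>
    (mem_union.1 hQ).elim (fun k => (h.fam Q k).2.1) fun k => (h'.fam Q k).2.1
  have hp : ∀ Q ∈ T ∪ T', 0 < Q.1 := fun Q hQ => (mem_union.1 hQ).elim (h.pos Q) (h'.pos Q)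
  refine ⟨⟨h0, hd, hp, ?_⟩, ⟨hw.nuW_inv h0 fun R k => (pos_of_wZ k).1,
    forall_mem_image.2 fun Q hQ => im_froot_pos (hd Q hQ ▸ h0) (hp Q hQ),
    forall_mem_image.2 fun Q hQ g => CM.free ⟨Q, 1, one_ne_zero, hp Q hQ, by simpa using hd Q hQ,
      rfl⟩ hn.sqf (hn.three hA hB), fun z _ k => ?_, ?_⟩, fun V _ S => ?_, fun V _ S c hS hc => ?_⟩
  · simpa using sum_wZ_fV hn hs hρ h h' (fun _ => (1 : ℤ)) fun _ _ _ _ _ => rfl
  · obtain ⟨R, k1, rfl⟩ := exists_of_nuW k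
    obtain ⟨k2, k3⟩ := pos_of_wZ k1
    obtain ⟨Q, k4, k5⟩ : ∃ Q ∈ T ∪ T', FEq N Q R := k3.elim
      (fun j => (h.ex R j k2).imp fun Q l => ⟨mem_union_left _ l.1, l.2⟩)
      fun j => (h'.ex R j k2).imp fun Q l => ⟨mem_union_right _ l.1, l.2⟩
    exact ⟨_, mem_image_of_mem _ k4, k5.symm.root (hw.disc R k1 ▸ h0) k2⟩
  · simp only [forall_mem_image]
    intro Q hQ R hR g hg e
    have k := (feq_of_root hg (hd Q hQ ▸ h0) (hp Q hQ) (hp R hR)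
      ((hd R hR).trans (hd Q hQ).symm) e).2
    congr 1
    rcases mem_union.1 hQ with a | a <;> rcases mem_union.1 hR with b | b
    exacts [h.uniq Q a R b k, absurd (h'.fam R b) ((k.fam (h.fam Q a)).not_neg h1),
      absurd (k.fam (h'.fam Q a)) ((h.fam R b).not_neg h1), h'.uniq Q a R b k]
  · rw [sum_image fun Q hQ R hR e => froot_inj (hd R hR ▸ h0) (hp R hR) (hp Q hQ)
      ((hd Q hQ).trans (hd R hR).symm) e]
    exact sum_congr rfl fun Q hQ => by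
      rw [nuW_froot (fun R k => ⟨(hw.disc R k).trans (hd Q hQ).symm, (pos_of_wZ k).1⟩)
        (hd Q hQ ▸ h0) (hp Q hQ)]
  · refine ⟨-∑ Q ∈ T, gch B Q, ?_⟩
    rw [zs, sum_wZ_fV hn hs hρ h h' _ fun Q R k1 k2 k3 => k3.inv0 hS (k1.2.1 ▸ h0) k2,
      sum_congr (f := fun Q => gch B Q • S (froot (fV N Q))) rfl fun Q hQ => by
        rw [froot_fV hn.n0 ((h.fam Q hQ).2.1 ▸ h0) (h.pos Q hQ) (h.fam Q hQ).1,
          hc _ (im_froot_pos ((h.fam Q hQ).2.1 ▸ h0) (h.pos Q hQ)), smul_sub],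
      sum_sub_distrib, ← sum_smul, two_smul, neg_smul]
    abel

end Pool.Agent.G5
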