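import Pool.Agent.Lib.MP_696deb_nt.B5.ZHb
import Pool.Agent.Lib.MP_696deb_nt.B5.NUa
import Pool.Agent.Lib.MP_696deb_nt.AutC

/-! The analytic half of the formula of Gross and Zagier. -/

set_option autoImplicit false

open Finset Filter Topology Complex NumberTheorySymbols
open scoped Classical

namespace Pool.Agent.G5

open Pool.Agent.Lib.MP_696deb_nt Pool.Agent.B4.GE Pool.Agent.Shared.Weier

variable {W : WeierstrassCurve ℚ} {N p A B l l₀ : ℕ} {ρ ρ' β : ℤ} {T T' : Finset Fm}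
  {ν ν' : ℂ → ℤ} {U V Θ G : ℂ → ℂ} {s : Finset ℂ} {b : ℕ →₀ ℤ} {t u : HW}

theorem finite_ker {L : PeriodPair} (h : IsPer L (W.baseChange ℂ)) {m : ℕ} (hm : m ≠ 0) :
    {Q : Pt W ℂ | m • Q = 0}.Finite := by
  have m0 : (m : ℂ) ≠ 0 := by exact_mod_cast hm
  refine (((Set.finite_Ico (0 : ℤ) m).prod (Set.finite_Ico (0 : ℤ) m)).image
    fun x => h.unif ((x.1 * L.ω₁ + x.2 * L.ω₂) / m)).subset fun Q hQ => ?_
  obtain ⟨z, rfl⟩ := h.unif_surjective Q
  rw [Set.mem_ofPred_eq, ← map_nsmul, h.unif_eq_zero_iff, PeriodPair.mem_lattice] at hQ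
  obtain ⟨x, y, e⟩ := hQ
  have k : ∀ x : ℤ, x % m ∈ Set.Ico (0 : ℤ) m := fun x =>
    ⟨Int.emod_nonneg _ (by omega), Int.emod_lt_of_pos _ (by omega)⟩
  refine ⟨(x % m, y % m), ⟨k x, k y⟩, h.unif_eq_iff.2 (PeriodPair.mem_lattice.2
    ⟨-(x / m), -(y / m), ?_⟩)⟩
  rw [nsmul_eq_mul] at e
  simp only [Int.emod_def]
  push_cast
  field_simp
  linear_combination -e

theorem alg_of_smul [W.IsElliptic] {L : PeriodPair} (h : IsPer L (W.baseChange ℂ)) {m : ℕ}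
    (hm : m ≠ 0) {R : Pt W ℂ} (hR : m • R ∈ Alg W) : R ∈ Alg W := by
  have f1 : {Q : Pt W ℂ | xco Q ∈ (minpoly ℚ (xco (m • R))).rootSet ℂ ∧
      yco Q ∈ (minpoly ℚ (yco (m • R))).rootSet ℂ}.Finite := by
    refine Set.Finite.of_finite_image (f := fun Q => (decide (Q = 0), xco Q, yco Q))
      ((Set.finite_univ.prod ((Polynomial.rootSet_finite (minpoly ℚ (xco (m • R))) ℂ).prod
        (Polynomial.rootSet_finite (minpoly ℚ (yco (m • R))) ℂ))).subset ?_) ?_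
    · rintro _ ⟨Q, hQ, rfl⟩
      exact ⟨trivial, hQ⟩
    · rintro (_ | ⟨x, y, k⟩) - (_ | ⟨x', y', k'⟩) - e
      · rfl
      · simp [← WeierstrassCurve.Affine.Point.zero_def] at e
      · simp [← WeierstrassCurve.Affine.Point.zero_def] at e
      · obtain ⟨rfl, rfl⟩ : x = x' ∧ y = y' := by simpa using e
        rfl
  have f2 := f1.biUnion (t := fun S => {Q : Pt W ℂ | m • Q = S}) fun S _ => by
    rcases Set.eq_empty_or_nonempty {Q : Pt W ℂ | m • Q = S} with e | ⟨Q, hQ⟩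
    · exact e ▸ Set.finite_empty
    · exact ((finite_ker h hm).image (· + Q)).subset fun X hX =>
        ⟨X - Q, by rw [Set.mem_ofPred_eq, smul_sub, hX, hQ, sub_self], sub_add_cancel _ _⟩
  have r : ∀ (σ : ℂ ≃+* ℂ) {x : ℂ}, IsAlgebraic ℚ x → σ x ∈ (minpoly ℚ x).rootSet ℂ :=
    fun σ x hx => Polynomial.mem_rootSet.2 ⟨minpoly.ne_zero hx.isIntegral, by
      simpa using Polynomial.aeval_algHom_apply (σ : ℂ →+* ℂ).toRatAlgHom x (minpoly ℚ x)⟩
  have key := fun σ : ℂ ≃+* ℂ => Set.mem_biUnion (t := fun S => {Q : Pt W ℂ | m • Q = S})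
    (x := pmap (σ : ℂ →+* ℂ) (m • R)) (y := pmap (σ : ℂ →+* ℂ) R)
    (s := {Q : Pt W ℂ | xco Q ∈ (minpoly ℚ (xco (m • R))).rootSet ℂ ∧
      yco Q ∈ (minpoly ℚ (yco (m • R))).rootSet ℂ})
    ⟨by rw [xco_pmap]; exact r σ hR.1, by rw [yco_pmap]; exact r σ hR.2⟩ (map_nsmul _ _ _).symm
  exact ⟨Gal.isAlgebraic_of_finite (f2.image xco) fun σ _ => ⟨_, key σ, xco_pmap _ _⟩,
    Gal.isAlgebraic_of_finite (f2.image yco) fun σ _ => ⟨_, key σ, yco_pmap _ _⟩⟩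

theorem dv_congr (h : Dv V ν) (e : ∀ z : ℂ, 0 < z.im → ν' z = ν z) : Dv V ν' :=
  fun z hz => e z hz ▸ h z hz

theorem Grn.congr (h : Grn N ν Θ) (e : ∀ z : ℂ, 0 < z.im → ν' z = ν z) : Grn N ν' Θ :=
  ⟨dv_congr h.dv e, h.inv, h.cn⟩

theorem Th.congr (h : Th N ν U V) (e : ∀ z : ℂ, 0 < z.im → ν' z = ν z) : Th N ν' U V :=
  ⟨dv_congr h.dv e, h.inv, h.cn⟩

theorem Rp.smul (h : Rp N ν s) (c : ℤ) : Rp N (c • ν) s :=
  ⟨fun g hg z hz => by simp [h.inv g hg z hz], h.pos, h.free,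
    fun z hz e => h.ex z hz fun k => e (by simp [k]), h.uniq⟩

theorem Good.N0 {n : ℕ} (h : Good N n) : N ≠ 0 := h.lsq.ne_zero

theorem Cx.root' (c : Cx N p A B ρ ρ' β) : 4 * (N : ℤ) ∣ ρ' ^ 2 + (A * B : ℕ) := by
  obtain ⟨M, rfl⟩ := c.dvd
  obtain ⟨x, hx⟩ := c.rp
  obtain ⟨y, hy⟩ := c.rq
  rw [Nat.mul_div_cancel_left _ c.hp.pos] at hy
  obtain ⟨k, hk⟩ : Odd (p : ℤ) := by exact_mod_cast (Nat.odd_mul.1 c.lodd).1
  obtain ⟨z, rfl⟩ : 2 ∣ x := ⟨ρ + M * y - k * x, by linear_combination -hx + hy - x * hk⟩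
  obtain ⟨v, hv⟩ := c.root
  refine ⟨v + y * z, ?_⟩
  push_cast at hv ⊢
  linear_combination hv + (ρ' - ρ) * hx + 2 * p * z * hy

theorem Yw_one (N A B : ℕ) (ρ' : ℤ) : Yw N A B ρ' 1 = wZ N B (-(A * B : ℕ)) ρ' := by
  simp [Yw, mul_comm]

theorem root_ori (hT : FReps N (-(A * B : ℕ)) ρ T) (hT' : FReps N (-(A * B : ℕ)) (-ρ) T') {Q : Fm}
    (hQ : Q ∈ T ∪ T') : Ori N (A * B) ρ (froot Q) := by
  rcases mem_union.1 hQ with k | k
  · exact ⟨Q, 1, one_ne_zero, by simp, hT.pos Q k, .inl (by simpa using hT.fam Q k), rfl⟩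
  · exact ⟨Q, 1, one_ne_zero, by simp, hT'.pos Q k, .inr (by simpa using hT'.fam Q k), rfl⟩

theorem Ori.cm {n : ℕ} {z : ℂ} (h : Ori N n ρ z) : CM n z := by
  obtain ⟨R, M, h1, -, h2, h3, h4⟩ := h
  exact ⟨R, M, h1, h2, h3.elim (·.2.1) (·.2.1), h4⟩

theorem CM.pos {n : ℕ} {z : ℂ} (h : CM n z) (hn : n ≠ 0) : 0 < z.im := by
  obtain ⟨R, M, h1, h2, h3, rfl⟩ := h
  exact im_froot_pos (by rw [h3, neg_lt_zero]; positivity) h2

theorem zs_congr {V : Type} [AddCommGroup V] {S S' : ℂ → V} (hT : FReps N (-(A * B : ℕ)) ρ T)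
    (hT' : FReps N (-(A * B : ℕ)) (-ρ) T') (e : ∀ z, Ori N (A * B) ρ z → S z = S' z) :
    zs N A B ρ T T' S = zs N A B ρ T T' S' :=
  sum_congr rfl fun _ hQ => by rw [e _ (root_ori hT hT' hQ)]

theorem zs_aff {V : Type} [AddCommGroup V] (S : ℂ → V) (e : ℤ) (c : V)
    (h : Pts (T ∪ T') (wZ N B (-(A * B : ℕ)) ρ) (-(A * B : ℕ))) :
    (zs N A B ρ T T' fun z => e • S z + c) = e • zs N A B ρ T T' S := by
  simp only [zs, smul_add, sum_add_distrib, ← sum_smul, h.deg, zero_smul, add_zero, smul_sum,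
    smul_comm e]

theorem cmb_apply {V : Type} [AddCommGroup V] (Φ : ℕ → ℂ → V) (b : ℕ →₀ ℤ) (z : ℂ) :
    cmb Φ b z = ∑ m ∈ b.support, b m • Φ m z := by
  rw [Finsupp.linearCombination_apply, Finsupp.sum, Finset.sum_apply]
  rfl

theorem gT_per {L : PeriodPair} {F : ℂ → ℂ} {x : ℂ} (h : Th N ν (U1 L F x) V)
    (hF : ∀ z : ℂ, 0 < z.im → F (z + 1) = F z) (z : ℂ) (hz : 0 < z.im) :
    gT (U1 L F x) V (z + 1) = gT (U1 L F x) V z := by
  have := h.inv _ (g0_T N) z hz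
  rw [act_T] at this
  simp only [gT, this, U1, hF z hz, sub_self, Complex.exp_zero, mul_one]

/-- The two kernel sums agree. -/
theorem ker_eq (cn : CNStmt) (c : Cx N p A B ρ ρ' β) (hT : FReps N (-(A * B : ℕ)) ρ T)
    (hT' : FReps N (-(A * B : ℕ)) (-ρ) T') {m : ℕ} (hm : m ≠ 0) (ε : ℝ) :
    ∑' t : ℕ, (cntP (T ∪ T') (wZ N B (-(A * B : ℕ)) ρ) (Yw N A B ρ' m) (-t) : ℝ) *
      kerK ε (t / √((-(A * B : ℕ) : ℤ) * (-(B * (A * m ^ 2)) : ℤ) : ℝ)) =
    (-(J(N | A) * J(-1 | B)) : ℤ) * ∑' t : ℕ, (cL B (Cw N A β m) t : ℝ) *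
      kerK ε (t / (B * √((A * (A * m ^ 2) : ℤ) : ℝ))) := by
  have A1 := c.A1
  rw [← tsum_mul_left]
  refine tsum_congr fun t => ?_
  have e : √((-(A * B : ℕ) : ℤ) * (-(B * (A * m ^ 2)) : ℤ) : ℝ) =
      B * √((A * (A * m ^ 2) : ℤ) : ℝ) := by
    rw [← Real.sqrt_sq (x := (B : ℝ)) (by positivity), ← Real.sqrt_mul (sq_nonneg _)]
    congr 1
    push_cast
    ring
  rw [e]
  by_cases h1 : (B : ℤ) ^ 2 * (A * (A * m ^ 2)) < (t : ℤ) ^ 2
  · rw [Yw, cn N A B _ ρ _ (β * m) t T T' c.toGood A1 c.jac (by positivity) c.root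
      (by simpa only [← mul_assoc, ← add_mul] using c.bet.mul_right m) hT hT' (by omega) h1,
      Int.cast_mul, mul_assoc, Cw]
  · rw [kerK, if_neg, mul_zero, mul_zero, mul_zero]
    rw [← e, not_lt]
    refine div_le_one_of_le₀ (Real.le_sqrt_of_sq_le ?_) (Real.sqrt_nonneg _)
    exact_mod_cast (not_lt.mp h1).trans_eq
      (show _ = -((A * B : ℕ) : ℤ) * -(B * (A * m ^ 2)) by push_cast; ring)

/-- The Green function summed over a Hecke translate of the special divisor. -/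
theorem arch_eq (cn : CNStmt) (hw : HWStmt) (gr : GRStmt) (pp : PPStmt) (gl : GLStmt)
    (sw : SWStmt) (nu : NUStmt) (c : Cx N p A B ρ ρ' β) (hT : FReps N (-(A * B : ℕ)) ρ T)
    (hT' : FReps N (-(A * B : ℕ)) (-ρ) T') {L : PeriodPair} {F G₀ : ℂ → ℂ} {x : ℂ} {n : ℤ}
    (hF : Ci N F) (g0 : Geo N (Cw N A β 1) G₀) (ht : t ∈ HA N) (hu : u ∈ HA N)
    (hb : b = n • ha (et A) t (Finsupp.single 1 1))
    (hV : Th N (cmb (fun m => nuW (Yw N A B ρ' m)) b) (U1 L F x) V)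
    (hG : G = fun z => n * hf ℂ (u * t) G₀ z) (h1 : LA G B 1 = 0) :
    zs N A B ρ T T' (hf ℝ u (gT (U1 L F x) V)) = (J(N | A) * J(-1 | B) : ℤ) *
      ((deriv (LA G B) 1).re - cmb (fun m => Lg B (Cw N A β m)) (ha (et A) u b)) := by
  have N0 := c.N0
  have n0 := c.sqf.ne_zero
  have ho := Nat.odd_mul.1 c.odd
  have A1 := c.A1
  have B1 := c.B1
  obtain ⟨w1, w2, w3, w4⟩ := hw N p A B ρ ρ' β c
  have s1 : Sup N (Finsupp.single 1 (1 : ℤ)) := .single one_ne_zero (by simp) 1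
  have sb : Sup N b := hb ▸ (s1.ha ht).smul n
  have sa : Sup N (ha (et A) u b) := sb.ha hu
  have z0 : ∀ z, Ori N (A * B) ρ z → cmb (fun m => nuW (Yw N A B ρ' m)) b z = 0 := fun z hz => by
    rw [cmb_apply]
    refine sum_eq_zero fun m hm => smul_eq_zero_of_right _
      (finsum_eq_zero_of_forall_eq_zero fun R => ite_eq_right_iff.2 fun e => ?_)
    exact by_contra fun k => w4 z hz m (sb m hm).1 (sb m hm).2 R k e
  obtain ⟨g1, g2, -⟩ := gr N (cmb (fun m => nuW (Yw N A B ρ' m)) b) N0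
  obtain ⟨Θ, k1, k2⟩ := g2 L F V x hF hV
  obtain ⟨Θ', k3, k4⟩ := g1 Θ (Ori N (A * B) ρ) u k1 (fun z hz => ⟨hz.cm.pos n0, z0 z hz⟩) w3 hu
  obtain ⟨-, u2, u3⟩ := nu
  have p1 := pp N _ _ _ (Yw N A B ρ') (fun m => -(B * (A * m ^ 2))) (ha (et A) u b) Θ' N0
    (u3 N A B ρ T T' c.toGood A1 B1 c.jac c.root hT hT').1 (fun m hm => by
      have m0 := (sa m hm).1
      have : -((B : ℤ) * (A * m ^ 2)) < 0 := by rw [neg_lt_zero]; positivity
      exact ⟨this, (u2 N B _ _ ho.2 (by simp)).2 this, fun R hR =>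
        ⟨by_contra fun k => hR (if_neg k), fun Q hQ _ =>
          w4 _ (root_ori hT hT' hQ) m m0 (sa m hm).2 R hR⟩⟩)
    (k3.congr fun z hz => (w1.hf hu sb hz).symm)
  have cG : Ci N G := hG ▸ (g0.ci.hf N0 (mul_mem hu ht)).smul n
  have p2 := gl N B (Cw N A β) (fun m => A * (A * m ^ 2)) (ha (et A) u b) G N0
    c.sqf.of_mul_right ho.2 B1 c.cop.coprime_mul_left (fun m hm => by
      have m0 := (sa m hm).1
      exact ⟨by positivity, (u2 N A _ _ ho.1 (by simp)).1,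
        (sw N p A B ρ ρ' β c).1 m m0 (sa m hm).2⟩) cG (by
      have e : ∀ z : ℂ, 0 < z.im → (G z).re - cmb (fun m => Iw (Cw N A β m)) (ha (et A) u b) z =
          n * hf ℝ (u * t) (fun z => (G₀ z).re - Iw (Cw N A β 1) z) z := fun z hz => by
        have e1 := congrFun (hf_map reAddGroupHom (u * t) G₀) z
        have e2 := w2.hf (mul_mem hu ht) s1 hz
        rw [cmb_single, one_smul, ha_mul] at e2
        rw [hb, map_smul, map_smul, Pi.smul_apply, ← e2, hG, show (fun z => (G₀ z).re -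
          Iw (Cw N A β 1) z) = (fun z => reAddGroupHom (G₀ z)) - Iw (Cw N A β 1) from rfl, map_sub,
          Pi.sub_apply, e1]
        simp [mul_sub]
      intro g hg z hz
      simp only [e z hz, e _ (act_pos (hg.1 ▸ one_pos) hz),
        inv0_hf g0.inv (mul_mem hu ht) g hg z hz]) h1
  have p3 := tendsto_nhds_unique p1 ((p2.const_mul
    ((-(J(N | A) * J(-1 | B)) : ℤ) : ℝ)).congr fun ε => by
      rw [Finsupp.sum, Finsupp.sum, mul_sum]
      exact sum_congr rfl fun m hm => by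
        rw [ker_eq cn c hT hT' (sa m hm).1, mul_left_comm])
  rw [Int.cast_neg, neg_mul, neg_inj] at p3
  rw [Finsupp.linearCombination_apply]
  simp only [zsmul_eq_mul]
  rw [← p3, zs]
  refine sum_congr rfl fun Q hQ => ?_
  rw [k4 _ (root_ori hT hT' hQ), zsmul_eq_mul,
    hf_congr_on w3 hu (fun z hz => k2 z (hz.cm.pos n0) (z0 z hz)) (root_ori hT hT' hQ)]

/-- The logarithmic terms. -/
theorem log_terms (lt : LTStmt) (c : Cx N p A B ρ ρ' β) (hl : l.Prime) (h0 : l₀.Prime)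
    (hne : l ≠ l₀) (hN : ¬ l₀ ∣ N) (hb : Sup (N * l * l₀) b) :
    (et (A * B) l = 1 → cmb (fun m => Lg B (Cw N A β m)) (ha (et A) (tl l₀) b) ∈ LogS l) ∧
    (et (A * B) l ≠ 1 → ∃ C : ℚ, ∀ j : ℕ, ∃ σ : ℚ, |σ| ≤ C * (j + 1) ^ 3 ∧
      cmb (fun m => Lg B (Cw N A β m)) (ha (et A) (tl l₀ * Xl l j) b) - σ * Real.log l ∈
        LogS l) := by
  have d0 : ¬ l₀ ∣ N * l := fun e => (h0.dvd_mul.1 e).elim hN fun e =>
    hne ((Nat.prime_dvd_prime_iff_eq h0 hl).1 e).symm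
  refine ⟨fun h => ?_, fun h => ?_⟩
  · have sa := (hb.mono (dvd_mul_right _ _)).ha (η := et A) (tl_mem h0 d0)
    rw [Finsupp.linearCombination_apply]
    exact Submodule.sum_mem _ fun m hm => by
      simpa using LogS.int_mul _ ((lt N p A B ρ ρ' β c l m hl (sa m hm).1 (sa m hm).2).1 h)
  refine hb.ind (p := fun b => ∃ C : ℚ, ∀ j : ℕ, ∃ σ : ℚ, |σ| ≤ C * (j + 1) ^ 3 ∧
    cmb (fun m => Lg B (Cw N A β m)) (ha (et A) (tl l₀ * Xl l j) b) - σ * Real.log l ∈ LogS l)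
    ⟨0, fun j => ⟨0, by simp, by simp⟩⟩ (fun m x m0 m1 => ?_) ?_
  · have c1 : m.Coprime (N * l) := m1.coprime_mul_right_right
    obtain ⟨C, hC⟩ := (lt N p A B ρ ρ' β c l m hl m0 c1).2 h
    obtain ⟨C', hC'⟩ := (lt N p A B ρ ρ' β c l (l₀ * m) hl (mul_ne_zero h0.ne_zero m0)
      (((Nat.Prime.coprime_iff_not_dvd h0).2 d0).mul_left c1)).2 h
    choose σ s1 s2 using hC
    choose σ' s1' s2' using hC'
    have j1 : ∀ k, |(et A k : ℚ)| ≤ 1 := fun k => by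
      rcases jacobiSym.trichotomy k A with e | e | e <;> simp [et, e]
    have C0 : 0 ≤ C := by simpa using (abs_nonneg _).trans (s1 0)
    have C0' : 0 ≤ C' := by simpa using (abs_nonneg _).trans (s1' 0)
    refine ⟨|(x : ℚ)| * (C' + C), fun j => ⟨∑ i ∈ range (j + 1),
      et A l ^ (j - i) * x * (σ' i + et A l₀ * σ i), ?_, ?_⟩⟩
    · refine (abs_sum_le_sum_abs _ _).trans ((sum_le_card_nsmul _ _
        (|(x : ℚ)| * (C' + C) * (j + 1) ^ 2) fun i hi => ?_).trans_eq (by simp; ring))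
      have i1 : ((i : ℚ) + 1) ^ 2 ≤ (j + 1) ^ 2 := by
        gcongr
        exact Nat.lt_succ_iff.1 (mem_range.1 hi)
      rw [abs_mul, abs_mul, abs_pow, mul_assoc |(x : ℚ)|]
      refine mul_le_mul (mul_le_of_le_one_left (abs_nonneg _) (pow_le_one₀ (abs_nonneg _) (j1 l)))
        ((abs_add_le _ _).trans ?_) (abs_nonneg _) (abs_nonneg _)
      rw [abs_mul, add_mul]
      exact add_le_add ((s1' i).trans (mul_le_mul_of_nonneg_left i1 C0'))
        ((mul_le_of_le_one_left (abs_nonneg _) (j1 l₀)).trans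
          ((s1 i).trans (mul_le_mul_of_nonneg_left i1 C0)))
    · rw [ha_mul, ha_Xl hl ((Nat.Prime.coprime_iff_not_dvd hl).1 c1.coprime_mul_left_right.symm),
        map_sum, map_sum, Rat.cast_sum, sum_mul, ← sum_sub_distrib]
      refine Submodule.sum_mem _ fun i _ => ?_
      rw [ha_tl, Ta_single, if_neg fun e => (h0.dvd_mul.1 e).elim
        ((Nat.Prime.coprime_iff_not_dvd h0).1 m1.coprime_mul_left_right.symm) fun e =>
          hne ((Nat.prime_dvd_prime_iff_eq h0 hl).1 (h0.dvd_of_dvd_pow e)).symm,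
        map_smul, map_add, cmb_single, cmb_single, ← mul_assoc l₀]
      convert LogS.int_mul (et A l ^ (j - i) * x)
        (add_mem (s2' i) (LogS.int_mul (et A l₀) (s2 i))) using 1
      simp only [zsmul_eq_mul]
      push_cast
      ring
  · rintro b b' ⟨C, hC⟩ ⟨C', hC'⟩
    refine ⟨C + C', fun j => ?_⟩
    obtain ⟨σ, s1, s2⟩ := hC j
    obtain ⟨σ', s1', s2'⟩ := hC' j
    refine ⟨σ + σ', (abs_add_le _ _).trans (by linarith), ?_⟩
    convert add_mem s2 s2' using 1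
    rw [map_add, map_add]
    push_cast
    ring

end Pool.Agent.G5
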