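import Pool.Agent.Lib.MP_696deb_nt.B5.HTe
import Pool.Agent.Lib.MP_696deb_nt.B5.HT2
import Pool.Agent.Lib.MP_696deb_nt.B5.ZGa
import Pool.Agent.Lib.MP_696deb_nt.B5.GAc
import Pool.Agent.Lib.MP_696deb_nt.B5.GAd
import Pool.Agent.Lib.MP_696deb_nt.B5.HBa

/-! The archimedean places. -/

set_option autoImplicit false

open Finset WeierstrassCurve.Affine
open scoped Classical

namespace Pool.Agent.G5

open Pool.Agent.Lib.MP_696deb_nt Pool.Agent.B4.GE Pool.Agent.Shared.Weier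
open Pool.Agent.Dih (HI hpt mem_HI)

variable {W : WeierstrassCurve ℚ} [W.IsElliptic] {N : ℕ}

theorem finite_conj {U : Pt W ℂ} (h : U ∈ Alg W) :
    (Set.range fun σ : ℂ ≃+* ℂ => pmap (σ : ℂ →+* ℂ) U).Finite := by
  obtain ⟨K, _, U, -, -, rfl, -, -⟩ := exists_field₃ h h h
  refine (Set.finite_range fun φ : K →+* ℂ => pmap φ U).subset ?_
  rintro _ ⟨σ, rfl⟩
  exact ⟨_, (pmap_pmap _ _ _).symm⟩

/-- A point in general position whose first coordinate is an integer. -/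
theorem exists_gen (P : Par W N) {S : Set (Pt W ℂ)} (hS : S.Finite) : ∃ c : ℂ,
    P.per.unif c ∈ Alg W ∧ ∀ σ : ℂ ≃+* ℂ, pmap (σ : ℂ →+* ℂ) (P.per.unif c) ∉ S := by
  obtain ⟨x, hx⟩ := exists_fn hS
  obtain ⟨c, hc⟩ := P.exists_pa x
  obtain ⟨y, h, e⟩ : ∃ y h, P.per.unif c = Point.some (x : ℂ) y h := by
    have e : (x : ℂ) = ux P.L (W.baseChange ℂ) c := by rw [ux, hc.eq, add_sub_cancel_right]
    rw [e]
    exact ⟨_, _, P.per.unif_of_notMem hc.nm⟩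
  refine ⟨c, ?_⟩
  rw [e]
  have k : ∀ σ : ℂ ≃+* ℂ, pmap (σ : ℂ →+* ℂ) (Point.some (x : ℂ) y h : Pt W ℂ) = .some x y h ∨
      pmap (σ : ℂ →+* ℂ) (Point.some (x : ℂ) y h : Pt W ℂ) = -.some x y h := fun σ =>
    Point.X_eq_iff.1 (map_intCast σ x)
  refine ⟨⟨isAlgebraic_intCast x, Gal.isAlgebraic_of_finite (S := {y, yco (-Point.some _ y h)})
    (Set.toFinite _) fun σ _ => ?_⟩, fun σ m => ?_⟩
  · exact (k σ).imp (fun e => (yco_pmap _ _).symm.trans (congrArg yco e))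
      fun e => Set.mem_singleton_iff.2 ((yco_pmap (σ : ℂ →+* ℂ) _).symm.trans (congrArg yco e))
  · exact (hx _ m).elim (Point.some_ne_zero _) fun e => e (map_intCast σ x)

theorem exists_gd (P : Par W N) {U : Pt W ℂ} (h : U ∈ Alg W) {S : Set (Pt W ℂ)} (hS : S.Finite) :
    ∃ c : ℂ, P.per.unif c ∈ Alg W ∧ ∀ σ : ℂ ≃+* ℂ,
      (Gd P (pmap (σ : ℂ →+* ℂ) (P.per.unif c)) ∧ pmap (σ : ℂ →+* ℂ) (P.per.unif c) ∉ S) ∧
      Gd P (pmap (σ : ℂ →+* ℂ) (P.per.unif c + U)) ∧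
        pmap (σ : ℂ →+* ℂ) (P.per.unif c + U) ∉ S := by
  have f := (((finite_ker P.per two_ne_zero).union P.CV_finite).union P.CV_finite.neg).union hS
  obtain ⟨c, c1, c2⟩ := exists_gen P (f.union (f.image2 (· - ·) (finite_conj h)))
  have k : ∀ R, R ∉ {Q : Pt W ℂ | 2 • Q = 0} ∪ P.CV ∪ -P.CV ∪ S → Gd P R ∧ R ∉ S := fun R hR =>
    ⟨⟨fun e => hR (.inl (.inl (.inl ((two_nsmul R).trans e)))), fun e => hR (.inl (.inl (.inr e))),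
      fun e => hR (.inl (.inr e))⟩, fun e => hR (.inr e)⟩
  exact ⟨c, c1, fun σ => ⟨k _ fun m => c2 σ (.inl m), k _ fun m => c2 σ
    (.inr ⟨_, m, _, ⟨σ, rfl⟩, by simp⟩)⟩⟩

/-- An automorphism permutes the support of the divisor. -/
theorem sum_conj {ν : ℂ → ℤ} {s : Finset ℂ} {σ : ℂ ≃+* ℂ} {e : ℤ} {S S' : ℂ → ℝ} (hN : N ≠ 0)
    (h : Rp N ν s) (he : e = 1 ∨ e = -1) (h1 : ∀ z z', Pc N σ z z' → ν z' = e * ν z)
    (h2 : ∀ z z', ν z ≠ 0 → Pc N (RingEquiv.refl ℂ) z z' → ∃ g, G0 N g ∧ z' = act g z)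
    (h3 : ∀ z ∈ s, ∀ z' ∈ s, Pc N σ z z' → S z = S' z') :
    ∑ z ∈ s, ν z • S z = e • ∑ z ∈ s, ν z • S' z := by
  have e0 : e ≠ 0 := by omega
  have k : ∀ z ∈ s.filter (ν · ≠ 0), ∃ w ∈ s.filter (ν · ≠ 0), Pc N σ z w := fun z hz => by
    obtain ⟨a1, a2⟩ := mem_filter.1 hz
    obtain ⟨z', b1⟩ := exists_pc jf_surj hN σ (h.pos z a1)
    obtain ⟨w, b2, g, b3, rfl⟩ := h.ex z' b1.pos' (h1 _ _ b1 ▸ mul_ne_zero e0 a2)
    have b4 := b1.act (g0_adj b3)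
    rw [act_adj b3.1 (h.pos w b2)] at b4
    exact ⟨w, mem_filter.2 ⟨b2, h1 _ _ b4 ▸ mul_ne_zero e0 a2⟩, b4⟩
  choose! f f1 f2 using k
  have i : Set.InjOn f (s.filter (ν · ≠ 0)) := fun z hz w hw k => by
    obtain ⟨g, g1, g2⟩ := h2 w z (mem_filter.1 hw).2 ((f2 w hw).trans hN (k ▸ f2 z hz))
    exact h.uniq z (mem_filter.1 hz).1 w (mem_filter.1 hw).1 g g1 g2
  have r : ∀ S : ℂ → ℝ, ∑ z ∈ s.filter (ν · ≠ 0), ν z • S z = ∑ z ∈ s, ν z • S z := fun S =>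
    sum_filter_of_ne fun z _ k e => k (by rw [e, zero_smul])
  rw [← r, ← r, smul_sum]
  refine sum_nbij f f1 i (surjOn_of_injOn_of_card_le f f1 i le_rfl) fun z hz => ?_
  rw [h3 z (mem_filter.1 hz).1 _ (mem_filter.1 (f1 z hz)).1 (f2 z hz), h1 _ _ (f2 z hz), smul_smul,
    ← mul_assoc, show e * e = 1 by rcases he with rfl | rfl <;> rfl, one_mul]

theorem ar_of_ac (b : ℕ → ℕ) (ac : ACStmt) (gp : GPStmt b) : ARStmt b := by
  intro W _ N P p A B ρ ρ' β T T' l l₀ M a u V h hb hT hT' hl₀ hJ₀ M0 hM ha hV hu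
  obtain ⟨c, c1, c2⟩ := exists_gd P hu (S := (fun x : Fm × _ => P.φ (hpt x.2 (froot x.1))) ''
    ((T ∪ T') ×ˢ HI (l₀ * M) : Finset _)) (Set.toFinite _)
  have c3 := c2 (RingEquiv.refl ℂ)
  have id : ∀ R : Pt W ℂ, pmap (RingEquiv.refl ℂ : ℂ →+* ℂ) R = R := fun R => by cases R <;> rfl
  rw [id, id] at c3
  have c4 : ∀ Q ∈ T ∪ T', ∀ t ∈ HI (l₀ * M), P.F (hpt t (froot Q)) - c ∉ P.L.lattice ∧
      P.F (hpt t (froot Q)) - c - u ∉ P.L.lattice := fun Q hQ t ht => by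
    have m : (Q, t) ∈ (T ∪ T') ×ˢ HI (l₀ * M) := mem_product.2 ⟨hQ, ht⟩
    rw [sub_sub, ← P.per.unif_eq_zero_iff, ← P.per.unif_eq_zero_iff, map_sub, map_sub, map_add,
      sub_eq_zero, sub_eq_zero]
    exact ⟨fun e => c3.1.2 ⟨_, m, e⟩, fun e => c3.2.2 ⟨_, m, e⟩⟩
  refine ⟨c, c1, c4, fun σ => ?_⟩
  obtain ⟨g1, g2⟩ := gp N A B h.toGood hb
  obtain ⟨e, he, g1⟩ := g1 σ
  obtain ⟨J, m, j1, j2, -⟩ := h.ns_JM ha
  obtain ⟨κ, hκ⟩ := ac W N P _ u c V J m σ e hV (fun z _ k => ⟨j1 z k, by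
      obtain ⟨m, hm, k⟩ := ns_cmb_ne k
      obtain ⟨R, r, rfl⟩ := exists_of_nuW k
      exact jf_stmt.2 _ _ h.sqf h.mod4 (h.toGood.three h.A1 h.B1) ⟨R, m, (ha m hm).1,
        (pos_of_wZ r).1, ((h.ns_wt (ha m hm).1).2.disc R r).trans (neg_mul _ _), rfl⟩⟩)
    (fun z _ => j2 z) he (fun z z' k => by
      rw [cmb_apply, cmb_apply, mul_sum]
      exact sum_congr rfl fun m hm => by
        rw [g1 ρ' m z z' h.root' (ha m hm).1
          (ha m hm).2.coprime_mul_right_right.coprime_mul_right_right k, smul_eq_mul, smul_eq_mul,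
          mul_left_comm]) c3.1.1 c3.2.1 (c2 σ).1.1 (c2 σ).2.1
  obtain ⟨-, n1, n2, -⟩ := nu_stmt.2.2 N A B ρ T T' h.toGood h.A1 h.B1 h.jac h.root hT hT'
  have hS : ∀ Q ∈ T ∪ T', 0 < Q.1 ∧ fdisc Q = -(A * B : ℕ) := fun Q hQ =>
    (mem_union.1 hQ).elim (fun k => ⟨hT.pos _ k, (hT.fam _ k).2.1⟩)
      fun k => ⟨hT'.pos _ k, (hT'.fam _ k).2.1⟩
  have M1 := mul_ne_zero hl₀.ne_zero M0
  rw [← n2, sum_conj (S' := hsum (l₀ * M) fun z => e * gT (U1 P.L P.F u) V z + κ) P.N0 n1 he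
    (fun z z' k => Yw_one N A B ρ ▸ g1 ρ 1 z z' h.root one_ne_zero (Nat.coprime_one_left _) k)
    (fun z z' k => g2 ρ z z' h.root (Yw_one N A B ρ ▸ k)) fun z hz z' _ k => ?_, n2, zs_hsum,
    zs_hsum]
  · have deg : ∑ x ∈ (T ∪ T') ×ˢ HI (l₀ * M), wZ N B (-(A * B : ℕ)) ρ x.1 = 0 := by
      rw [sum_product, sum_comm]
      exact sum_eq_zero fun _ _ => h.ns_deg hT hT'
    simp only [smul_add, sum_add_distrib]
    rw [← sum_smul, deg, zero_smul, smul_zero, add_zero, smul_sum]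
    refine sum_congr rfl fun x _ => ?_
    rcases he with rfl | rfl <;> simp
  · obtain ⟨Q, hQ, rfl⟩ := mem_image.1 hz
    refine hb_stmt N _ σ _ z' _ _ P.N0 M1 ((hl₀.coprime_iff_not_dvd.2 (h.ns_not_dvd hl₀
      (by omega))).mul_left hM.coprime_mul_right_right) k ?_
    rintro _ w' ⟨x, d, y, e1, e2, rfl⟩ - k
    have ht : (⟨(x, d), y⟩ : (_ : ℕ × ℕ) × ℕ) ∈ HI (l₀ * M) := mem_HI.2 ⟨e1, M1, e2⟩
    have k1 := h.nu_hpt (l := l) hl₀ hJ₀ ha (hS Q hQ).1 (hS Q hQ).2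
      (hl₀.coprime_iff_not_dvd.1 hM.coprime_mul_left_right.symm) ht
    exact hκ (hpt ⟨(x, d), y⟩ (froot Q)) w' k k1 (c4 Q hQ _ ht).1 (c4 Q hQ _ ht).2

theorem htb_of_ac (ac : ACStmt) : HTB fun _ => 3 := htb_of_ar _ (ar_of_ac _ ac gp_stmt)

theorem ht_of_ac (ac : ACStmt) : HTStmt := (htb_of_ac ac).ht

end Pool.Agent.G5
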