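import Pool.Agent.Lib.MP_696deb_nt.B5.HT0
import Pool.Agent.Lib.MP_696deb_nt.B4.GEc
import Pool.Agent.Lib.MP_696deb_nt.B4.GEp

/-! Conjugation of expansions, and division of modular functions. -/

set_option autoImplicit false

open Polynomial Filter Topology Asymptotics
open scoped Classical

namespace Pool.Agent.G5

open Pool.Agent.Lib.MP_696deb_nt Pool.Agent.B4.GE Pool.Agent.Shared.Weier Pool.Agent.B5
open Pool.Agent.Lib.MP_696deb_nt.B4

variable {N : ℕ} {σ : ℂ ≃+* ℂ} {f f' g g' G H : ℂ → ℂ} {z z' : ℂ}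

/-- Conjugate expansions. -/
def Cq (σ : ℂ ≃+* ℂ) (h h' : ℂ → ℂ) : Prop :=
  ∃ (n : ℕ) (A : PowerSeries ℂ), QE (fun z => q1 z ^ n * h z) A ∧
    QE (fun z => q1 z ^ n * h' z) (PowerSeries.map (σ : ℂ →+* ℂ) A)

theorem Cq.congr (h : Cq σ f f') (e : ∀ z : ℂ, 0 < z.im → g z = f z)
    (e' : ∀ z : ℂ, 0 < z.im → g' z = f' z) : Cq σ g g' := by
  obtain ⟨n, A, a, a'⟩ := h
  exact ⟨n, A, a.congr fun z hz => by rw [e z hz], a'.congr fun z hz => by rw [e' z hz]⟩

theorem Cq.mul (h : Cq σ f f') (k : Cq σ g g') :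
    Cq σ (fun z => f z * g z) fun z => f' z * g' z := by
  obtain ⟨n, A, a, a'⟩ := h
  obtain ⟨m, B, b, b'⟩ := k
  exact ⟨n + m, A * B, (a.mul b).congr fun z _ => by ring,
    map_mul (PowerSeries.map (σ : ℂ →+* ℂ)) A B ▸ (a'.mul b').congr fun z _ => by ring⟩

theorem Cq.add (h : Cq σ f f') (k : Cq σ g g') :
    Cq σ (fun z => f z + g z) fun z => f' z + g' z := by
  obtain ⟨n, A, a, a'⟩ := h
  obtain ⟨m, B, b, b'⟩ := k
  refine ⟨n + m, _, ((a.pow_mul m).add (b.pow_mul n)).congr fun z _ => by ring, ?_⟩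
  simp only [map_add, map_mul, map_pow, PowerSeries.map_X]
  exact ((a'.pow_mul m).add (b'.pow_mul n)).congr fun z _ => by ring

theorem cq_const (c : ℂ) : Cq σ (fun _ => c) fun _ => σ c :=
  ⟨0, _, (QE.const c).congr fun z _ => by simp, by
    simpa using (QE.const (σ c)).congr fun z _ => by simp⟩

theorem Cq.symm (h : Cq σ f f') : Cq σ.symm f' f := by
  obtain ⟨n, A, a, a'⟩ := h
  refine ⟨n, _, a', ?_⟩
  convert a
  ext k
  simp

theorem Cq.zero (h : Cq σ f f') (e : ∀ z : ℂ, 0 < z.im → f z = 0) (hz : 0 < z.im) : f' z = 0 := by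
  obtain ⟨n, A, a, a'⟩ := h
  rw [a.unique (QE.const 0) fun z hz => by simp [e z hz], map_zero, map_zero, ← map_zero
    PowerSeries.C] at a'
  simpa [q1_ne] using a'.eq_of_eq (QE.const 0) hz

theorem LZ.cq (h : LZ f) : Cq σ f f := by
  obtain ⟨n, A, a⟩ := h
  refine ⟨n, _, a, ?_⟩
  convert a
  ext k
  simp [toC]

theorem cq_jf : Cq σ jf jf := LZ.cq lz_jf

theorem cq_jN (hN : N ≠ 0) : Cq σ (jN N) (jN N) := by
  have a : QE (fun z => q1 z ^ N * jN N z) _ :=
    (qe_jf.expand N hN).congr fun z _ => by rw [q1_nat_mul, pow_one, jN]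
  refine ⟨N, _, a, ?_⟩
  convert a
  ext k
  simp [toC, PowerSeries.coeff_expand]

theorem Cq.eval (h : Cq σ f f') (p : ℂ[X]) :
    Cq σ (fun z => p.eval (f z)) fun z => (p.map σ).eval (f' z) := by
  induction p using Polynomial.induction_on with
  | C c => simpa using cq_const c
  | add p q hp hq => simpa using hp.add hq
  | monomial n c hp => simpa [pow_succ, mul_assoc] using hp.mul h

theorem Cq.evalEval (h : Cq σ f f') (k : Cq σ g g') (p : ℂ[X][X]) :
    Cq σ (fun z => p.evalEval (f z) (g z))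
      fun z => (p.map (mapRingHom (σ : ℂ →+* ℂ))).evalEval (f' z) (g' z) := by
  induction p using Polynomial.induction_on with
  | C c => simpa [evalEval_C] using h.eval c
  | add p q hp hq => simpa [evalEval_add] using hp.add hq
  | monomial n c hp => simpa [pow_succ, mul_assoc, evalEval_mul] using hp.mul k

theorem Cq.cancel (h : Cq σ f f') (k : Cq σ (fun z => f z * g z) fun z => f' z * g' z)
    (l : LE ⊤ g) (l' : LE ⊤ g') (hz : 0 < z.im) (h0 : f' z ≠ 0) : Cq σ g g' := by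
  obtain ⟨n, A, a, a'⟩ := h
  obtain ⟨m, B, b, b'⟩ := k
  obtain ⟨r, D, d, -⟩ := l
  obtain ⟨s, D', d', -⟩ := l'
  have e := ((a.mul (d.pow_mul s)).pow_mul m).unique (b.pow_mul (n + r + s)) fun z _ => by ring
  have e' := ((a'.mul (d'.pow_mul r)).pow_mul m).unique (b'.pow_mul (n + r + s)) fun z _ => by ring
  have a0 : PowerSeries.map (σ : ℂ →+* ℂ) A ≠ 0 := fun k => h0 (by
    rw [k, ← map_zero PowerSeries.C] at a'
    simpa [q1_ne] using a'.eq_of_eq (QE.const 0) hz)
  refine ⟨r + s, _, (d.pow_mul s).congr fun z _ => by ring, ?_⟩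
  have := congrArg (PowerSeries.map (σ : ℂ →+* ℂ)) e
  simp only [map_mul, map_pow, PowerSeries.map_X] at this ⊢
  rw [mul_left_cancel₀ a0 (mul_left_cancel₀ (pow_ne_zero m PowerSeries.X_ne_zero)
    (this.trans e'.symm))]
  exact (d'.pow_mul r).congr fun z _ => by ring

/-- Removable singularities. -/
def An (f : ℂ → ℂ) (z : ℂ) : Prop := ∃ g, AnalyticAt ℂ g z ∧ f =ᶠ[𝓝[≠] z] g

theorem An.of_an (h : AnalyticAt ℂ f z) : An f z := ⟨f, h, EventuallyEq.rfl⟩

theorem An.congr (h : An f z) (e : g =ᶠ[𝓝[≠] z] f) : An g z :=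
  h.imp fun _ k => ⟨k.1, e.trans k.2⟩

theorem An.mul (h : An f z) (k : An g z) : An (fun z => f z * g z) z := by
  obtain ⟨a, a1, a2⟩ := h
  obtain ⟨b, b1, b2⟩ := k
  exact ⟨_, a1.mul b1, a2.mul b2⟩

theorem An.act {γ : MZ} (hγ : γ.det ≠ 0) (hz : 0 < z.im) (h : An f (act γ z)) :
    An (fun t => f (act γ t)) z := by
  obtain ⟨a, a1, a2⟩ := h
  exact ⟨_, a1.comp (gb_an (hol_act hγ) hz), (gb_tendsto hγ hz).eventually a2⟩

theorem an_of_bdd (h : MeromorphicAt f z) (b : f =O[𝓝[≠] z] fun _ => (1 : ℝ)) : An f z := by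
  refine h.meromorphicOrderAt_nonneg_iff.1 (not_lt.1 fun k => ?_)
  exact not_isBoundedUnder_of_tendsto_atTop (tendsto_norm_atTop_iff_cobounded.2
    (tendsto_cobounded_of_meromorphicOrderAt_neg k)) (isBigO_one_iff ℝ |>.1 b)

theorem exists_ext (h : ∀ z : ℂ, 0 < z.im → An f z) :
    ∃ K, Hol K ∧ ∀ z : ℂ, 0 < z.im → K =ᶠ[𝓝[≠] z] f := by
  have k : ∀ z : ℂ, 0 < z.im → ∃ g, AnalyticAt ℂ g z ∧ f =ᶠ[𝓝[≠] z] g ∧
      (fun z => limUnder (𝓝[≠] z) f) =ᶠ[𝓝 z] g := fun z hz => by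
    obtain ⟨g, g1, g2⟩ := h z hz
    refine ⟨g, g1, g2, eventuallyEq_nhds_of_eventuallyEq_nhdsNE ?_
      ((g1.continuousAt.tendsto.mono_left nhdsWithin_le_nhds).congr' g2.symm).limUnder_eq⟩
    filter_upwards [eventually_eventually_nhdsWithin.2 g2, self_mem_nhdsWithin,
      mem_nhdsWithin_of_mem_nhds g1.eventually_analyticAt] with t t1 t2 t3
    rw [isOpen_compl_singleton.nhdsWithin_eq t2] at t1
    exact ((t3.continuousAt.tendsto.congr' (EventuallyEq.symm t1)).mono_left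
      nhdsWithin_le_nhds).limUnder_eq
  refine ⟨fun z => limUnder (𝓝[≠] z) f, fun z hz => ?_, fun z hz => ?_⟩
  · obtain ⟨g, g1, -, g3⟩ := k z hz
    exact g1.differentiableAt.congr_of_eventuallyEq g3
  · obtain ⟨g, -, g2, g3⟩ := k z hz
    exact (g3.filter_mono nhdsWithin_le_nhds).trans g2.symm

theorem ev_eval {q : ℂ[X]} (hq : q ≠ 0) : ∀ᶠ z in atI, q.eval (jf z) ≠ 0 :=
  tendsto_jf.eventually (p := fun x => q.eval x ≠ 0) (Filter.mem_of_superset
    (Bornology.isBounded_def.1 (q.rootSet_finite ℂ).isBounded)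
      fun x hx (e : q.eval x = 0) => hx (mem_rootSet.2 ⟨hq, by simpa using e⟩))

theorem bdd_iff {p q : ℂ[X]} (hq : q ≠ 0) :
    (Bdd fun z => p.eval (jf z) / q.eval (jf z)) ↔ p.degree ≤ q.degree := by
  rw [Bdd, isBigO_one_iff, ← isBigO_iff_div_isBoundedUnder ((ev_eval hq).mono fun _ h k => (h k).elim)]
  refine ⟨fun h => not_lt.1 fun k => isLittleO_irrefl (ev_eval hq).frequently
    (((isLittleO_cobounded_of_degree_lt k).comp_tendsto tendsto_jf).trans_isBigO h),
    fun h => (isBigO_cobounded_of_degree_le h).comp_tendsto tendsto_jf⟩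

theorem le_of_bdd {w : ℂ → ℂ} (hH : Hol H) (hp : ∀ z : ℂ, 0 < z.im → H (z + 1) = H z)
    (hG : LE ⊤ G) (hw : Bdd w) (e : ∀ᶠ z in atI, H z = G z * w z) : LE ⊤ H := by
  obtain ⟨n, D, hD, -⟩ := hG
  obtain ⟨E, hE⟩ := QE.exists_of_periodic (F := fun z => q1 z ^ n * H z)
    (fun z hz => ((hol_q1 z hz).pow n).mul (hH z hz))
    (fun z hz => by rw [hp z hz, q1_add, ← Int.cast_one, q1_int, mul_one])
    ((hD.bdd.mul hw).congr' (e.mono fun z hz => by simp only [hz]; ring) EventuallyEq.rfl)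
  exact ⟨n, E, hE, fun _ => trivial⟩

/-- Division by a polynomial in the invariant. -/
theorem mf_div (hN : N ≠ 0) (hG : MF N G) {ρ : ℂ[X]} (h0 : ρ ≠ 0)
    (h : ∀ z : ℂ, 0 < z.im → An (fun t => G t / ρ.eval (jf t)) z) :
    ∃ K, MF N K ∧ ∀ z : ℂ, 0 < z.im → G z = ρ.eval (jf z) * K z := by
  obtain ⟨K, k1, k2⟩ := exists_ext h
  have e : ∀ z : ℂ, 0 < z.im → G z = ρ.eval (jf z) * K z := fun z hz =>
    geb_eq ((mf_le hN hG).hol z hz).continuousAt
      ((LE.hol (gb_poly ρ) z hz).mul (k1 z hz)).continuousAt (by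
        filter_upwards [k2 z hz, geb_ne h0 hz] with t t1 t2
        rw [Pi.mul_apply, t1, mul_div_cancel₀ _ t2.2])
  have i : Inv0 N K := fun g hg z hz => by
    have g1 := hg.1
    refine geb_eq (f := fun z => K (act g z)) ((k1 _ (act_pos (by omega) hz)).comp z
      (hol_act (by omega) z hz)).continuousAt (k1 z hz).continuousAt ?_
    filter_upwards [geb_ne h0 hz] with t t1
    refine mul_left_cancel₀ t1.2 ?_
    rw [← e t t1.1, ← jf_act g1 t1.1, ← e _ (act_pos (by omega) t1.1), hG.1 g hg t t1.1]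
  refine ⟨K, ⟨i, fun g hg => le_of_bdd (fun z hz => ((k1 _ (act_pos (by omega) (ga_pos hN hz))).comp
    _ (hol_act (by omega) _ (ga_pos hN hz))).comp z (by fun_prop))
    (fun z hz => i.periodic hg dvd_rfl hN hz) (hG.2 g hg)
    (((bdd_iff (p := 1) h0).2 (by simpa using zero_le_degree_iff.2 h0)).comp_tendsto (geb_mul hN))
    ?_⟩, e⟩
  filter_upwards [(geb_mul hN).eventually (ev_eval h0), ev_pos] with z z1 z2
  rw [e _ (act_pos (by omega) (ga_pos hN z2)), jf_act hg (ga_pos hN z2)]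
  simp only [Function.comp, eval_one]
  field_simp

theorem bdd_root {α : Type*} {l : Filter α} {c : α → ℂ[X]} {y : α → ℂ} {d : ℕ}
    (h : ∀ᶠ t in l, (c t).Monic ∧ (c t).natDegree = d ∧ (c t).IsRoot (y t))
    (hb : ∀ k < d, (fun t => (c t).coeff k) =O[l] fun _ => (1 : ℝ)) :
    y =O[l] fun _ => (1 : ℝ) := by
  refine IsBigO.trans (IsBigO.of_norm_eventuallyLE (h.mono fun t ⟨t1, t2, t3⟩ => ?_))
    ((IsBigO.sum fun k hk => (hb k (Finset.mem_range.1 hk)).norm_left).add (isBigO_refl _ _))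
  have := NNReal.coe_le_coe.2 (t3.norm_lt_cauchyBound t1.ne_zero).le
  rw [cauchyBound, t1.leadingCoeff, nnnorm_one, div_one, t2] at this
  refine this.trans (add_le_add_left ?_ _)
  simpa using NNReal.coe_le_coe.2 (Finset.sup_le fun k (hk : k ∈ Finset.range d) =>
    Finset.single_le_sum (f := fun k => ‖(c t).coeff k‖₊) (fun _ _ => zero_le) hk)

theorem monic_exact (hN : N ≠ 0) [Fintype (CI N)] {h : ℂ → ℂ} (hh : MF N h) :
    ∃ A : ℂ[X][X], A.Monic ∧ A.natDegree = Fintype.card (CI N) ∧ ∀ z : ℂ, 0 < z.im →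
      A.map (evalRingHom (jf z)) = ∏ i : CI N, (X - C (h (act (cr i) z))) ∧
        A.evalEval (jf z) (h z) = 0 := by
  have p := hh.1.permF hN
  obtain ⟨F, hF⟩ : ∃ F : CI N → LR V1.integer, ∀ i z, evz V1 z (F i) = h (act (cr i) (N * z)) :=
    ⟨fun i => ⟨_, ga_mem (hh.2 _ (cr_det i))⟩, fun _ _ => rfl⟩
  obtain ⟨A, hA⟩ := ga_biv hN (T := fun z => ∏ i : CI N, (X - C (h (act (cr i) z))))
    (∏ i, (X - C (F i))) (fun z => by
      simp only [Polynomial.map_prod, Polynomial.map_sub, map_X, map_C, hF])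
    fun k => p.inv1 (fun _ a => (∏ i, (X - C (a i))).coeff k)
      fun _ a σ => by rw [Equiv.prod_comp σ fun i => X - C (a i)]
  obtain ⟨i, hi⟩ := hh.1.exists_cr hN Matrix.det_one
  have d : (A %ₘ X ^ Fintype.card (CI N)).degree < Fintype.card (CI N) := by
    simpa using degree_modByMonic_lt A (monic_X_pow _)
  refine ⟨X ^ Fintype.card (CI N) + A %ₘ X ^ Fintype.card (CI N), monic_X_pow_add d,
    natDegree_eq_of_degree_eq_some (by
      rw [degree_add_eq_left_of_degree_lt (by rwa [degree_X_pow]), degree_X_pow]), fun z hz => ?_⟩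
  rw [← map_evalRingHom_eval, Polynomial.map_add, map_modByMonic _ (monic_X_pow _), hA z hz,
    Polynomial.map_pow, map_X, ga_mod, eval_prod]
  exact ⟨rfl, Finset.prod_eq_zero (Finset.mem_univ i) (by simp [← hi z hz, act_one])⟩

theorem mf_evalEval (h : MF N f) (k : MF N g) (p : ℂ[X][X]) :
    MF N fun z => p.evalEval (f z) (g z) := by
  have a : ∀ q : ℂ[X], MF N fun z => q.eval (f z) := fun q => by
    induction q using Polynomial.induction_on with
    | C c => simpa using mf_const c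
    | add p q hp hq => simpa using mf_add hp hq
    | monomial n c hp => simpa [pow_succ, mul_assoc] using mf_mul hp h
  induction p using Polynomial.induction_on with
  | C c => simpa [evalEval_C] using a c
  | add p q hp hq => simpa [evalEval_add] using mf_add hp hq
  | monomial n c hp => simpa [pow_succ, mul_assoc, evalEval_mul] using mf_mul hp k

theorem mf_jN (hN : N ≠ 0) : MF N (jN N) := by
  refine ⟨inv0_jN hN, fun g hg => ?_⟩
  obtain ⟨i, hi⟩ := (inv0_jN hN).exists_cr hN hg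
  exact LE.congr (LE.mono (ga_jN hN i) le_top) fun z hz => hi _ (ga_pos hN hz)

/-- Every modular function has a conjugate. -/
theorem exists_cg (hN : N ≠ 0) (σ : ℂ ≃+* ℂ) (h : MF N f) : ∃ f', Cg N σ f f' := by
  obtain ⟨D, d0, A, hA⟩ := field_thm hN h
  obtain ⟨M, m1, m2⟩ := monic_rel hN h
  have a := (cq_jf (σ := σ)).evalEval (cq_jN hN) A
  have d1 : D.map (σ : ℂ →+* ℂ) ≠ 0 := Polynomial.map_ne_zero d0
  have m3 := m1.map (mapRingHom (σ : ℂ →+* ℂ))
  obtain ⟨K, k1, k2⟩ := mf_div hN (mf_evalEval (mf_jf hN) (mf_jN hN)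
    (A.map (mapRingHom (σ : ℂ →+* ℂ)))) d1 fun z hz => an_of_bdd
      ((gb_an (mf_le hN (mf_evalEval (mf_jf hN) (mf_jN hN) _)).hol hz).meromorphicAt.div
        (gb_an (LE.hol (gb_poly _)) hz).meromorphicAt)
      (bdd_root (c := fun t => (M.map (mapRingHom (σ : ℂ →+* ℂ))).map (evalRingHom (jf t)))
        ((geb_ne d1 hz).mono fun t ht => ⟨m3.map _, m3.natDegree_map _, by
          have := (cq_jf.evalEval a (M.scaleRoots D)).zero (fun w hw => by
            rw [← hA w hw, ← map_evalRingHom_eval, ← eval₂_eq_eval_map]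
            exact scaleRoots_eval₂_eq_zero (evalRingHom (jf w)) (by
              rw [eval₂_eq_eval_map, map_evalRingHom_eval, m2 w hw])) ht.1
          rw [map_scaleRoots _ _ _ (by simp [m1.leadingCoeff]), ← map_evalRingHom_eval,
            ← eval₂_eq_eval_map] at this
          rw [IsRoot, ← eval₂_eq_eval_map]
          have e := scaleRoots_eval₂_mul (p := M.map (mapRingHom (σ : ℂ →+* ℂ)))
            (evalRingHom (jf t)) ((A.map (mapRingHom (σ : ℂ →+* ℂ))).evalEval (jf t) (jN N t) /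
              (D.map (σ : ℂ →+* ℂ)).eval (jf t)) (D.map (σ : ℂ →+* ℂ))
          rw [coe_evalRingHom, mul_div_cancel₀ _ ht.2] at e
          exact (mul_eq_zero.1 (e.symm.trans this)).resolve_left (pow_ne_zero _ ht.2)⟩)
        fun k _ => by
          simp only [coeff_map, coe_evalRingHom]
          exact (((LE.hol (gb_poly _) z hz).continuousAt.tendsto.mono_left
            nhdsWithin_le_nhds).isBigO_one ℝ))
  obtain ⟨t, t1, t2⟩ := (geb_ne d1 (z := Complex.I) (by simp)).exists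
  exact ⟨K, h, k1, (cq_jf.eval D).cancel (a.congr hA fun z hz => (k2 z hz).symm) (mf_le hN h)
    (mf_le hN k1) t1 t2⟩

end Pool.Agent.G5
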