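import Pool.Agent.Lib.MP_696deb_nt.B5.Z0
import Pool.Agent.Lib.MP_696deb_nt.TernRR
import Pool.Agent.Lib.MP_696deb_nt.SymArith

/-! The closed form of the weighted divisor sums at level `N`. -/

set_option autoImplicit false

open Finset NumberTheorySymbols

namespace Pool.Agent.G5

open Pool.Agent.Lib.MP_696deb_nt Tern

/-- A local character sum at a prime `p` that divides `t`. -/
def sigP (N p : ℕ) (t : ℤ) (M : ℕ) : ℤ :=
  ∑ s ∈ range p, if (p : ℤ) ∣ s ^ 2 - ((t / p) ^ 2 - 4 * N * (M / p ^ 2 : ℕ)) then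
    J(2 * (s - t / p) | p) else 0

/-- The local factors of the closed form of the weighted count of pairs. -/
def lamP (N n A : ℕ) (t : ℤ) (M p : ℕ) : ℤ :=
  if p ∣ A then
    if (p : ℤ) ∣ t then J(((n / p : ℕ) : ℤ) | p) * sigP N p t M *
      (1 + if p ^ 3 ∣ M then J((N : ℤ) | p) * hil n p M else 0)
    else J(-2 * t | p)
  else if p ∣ M then 1 + J((N : ℤ) | p) * hil n p M else 1

/-- The closed form of the weighted count of pairs. -/
def CF (N n A : ℕ) (t : ℤ) (M : ℕ) : ℤ := rr n M * ∏ p ∈ n.primeFactors, lamP N n A t M p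

/-- The local weight of the lines `k / A` that belong to the factorization `a * e`. -/
def muP (N p : ℕ) (t a e : ℤ) : ℤ :=
  if (p : ℤ) ∣ t then
    if (p : ℤ) ∣ a ∧ (p : ℤ) ∣ e then
      ∑ k ∈ range p, if (p : ℤ) ∣ N * (a / p) * k ^ 2 - t / p * k + e / p then J((k : ℤ) | p)
        else 0
    else 0
  else J(2 * N * a * t | p)

/-- The weight of the factorization `a * e`. -/
def muW (N A B : ℕ) (t a e : ℤ) : ℤ :=
  (∏ p ∈ A.primeFactors, muP N p t a e) *
    ∏ p ∈ B.primeFactors, if (p : ℤ) ∣ a then J(e | p) else J(N * a | p)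

variable {N : ℕ}

theorem Good.cop2 {n : ℕ} (hn : Good N n) : n.Coprime (2 * N) := Nat.Coprime.mul_right
  ((Nat.coprime_two_right).2 (Nat.odd_iff.2 (by have := hn.mod4; omega))) hn.cop

theorem Good.oddn {n : ℕ} (hn : Good N n) : Odd n := Nat.odd_iff.2 (by have := hn.mod4; omega)

theorem Good.comm {A B : ℕ} (hn : Good N (A * B)) : Good N (B * A) := mul_comm A B ▸ hn

namespace CN

theorem ne_zero {n p : ℕ} (h : n.Coprime (2 * N)) (hp : p.Prime) (hpn : p ∣ n) :
    (2 : ZMod p) ≠ 0 ∧ (N : ZMod p) ≠ 0 := by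
  have key : ∀ k : ℕ, k ∣ 2 * N → (k : ZMod p) ≠ 0 := fun k hk e =>
    hp.one_lt.ne' (Nat.eq_one_of_dvd_coprimes h hpn
      (((ZMod.natCast_eq_zero_iff k p).1 e).trans hk))
  exact ⟨by exact_mod_cast key 2 (by simp), key N (by simp)⟩

theorem not_dvd {n p : ℕ} (h : n.Coprime (2 * N)) (hp : p ∈ n.primeFactors) :
    ¬ (p : ℤ) ∣ 2 * N := fun e => (Nat.prime_of_mem_primeFactors hp).not_dvd_one
  (h ▸ Nat.dvd_gcd (Nat.dvd_of_mem_primeFactors hp) (by exact_mod_cast e))

theorem jac_sq_mul {p : ℕ} (hp : p.Prime) {u : ℤ} (hu : ¬ (p : ℤ) ∣ u) (x : ℤ) :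
    J(u ^ 2 * x | p) = J(x | p) := by
  rw [jacobiSym.mul_left, jacobiSym.pow_left, jac_sq hp hu, one_mul]

theorem hil_self_eq {n q : ℕ} (hn : Squarefree n) (h4 : n % 4 = 3) (hq : q ∈ n.primeFactors) :
    hil n q q = ∏ p ∈ n.primeFactors.erase q, J((q : ℤ) | p) := by
  have hq' := Nat.prime_of_mem_primeFactors hq
  obtain ⟨m, rfl⟩ := Nat.dvd_of_mem_primeFactors hq
  have hm : Squarefree m := hn.of_mul_right
  have hc : Nat.Coprime q m := Nat.coprime_of_squarefree_mul hn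
  have e : (q * m).primeFactors.erase q = m.primeFactors := by
    rw [hc.primeFactors_mul, hq'.primeFactors, ← insert_eq, erase_insert]
    intro h
    exact hq'.one_lt.ne' (hc.eq_one_of_dvd (Nat.dvd_of_mem_primeFactors h))
  rw [hil_self hq', Nat.mul_div_cancel_left _ hq'.pos, e, ← jac_eq_prod _ hm]
  have hodd : Odd (q * m) := Nat.odd_iff.mpr (by omega)
  have ho1 := (Nat.odd_mul.mp hodd).1
  have ho2 := (Nat.odd_mul.mp hodd).2
  by_cases h1 : q % 4 = 1
  · exact (jacobiSym.quadratic_reciprocity_one_mod_four h1 ho2).symm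
  · have h2 : m % 4 = 1 := by
      have h3 : q % 4 = 3 := by have := Nat.odd_iff.mp ho1; omega
      have h5 := Nat.odd_iff.mp ho2
      rw [Nat.mul_mod, h3] at h4
      omega
    exact jacobiSym.quadratic_reciprocity_one_mod_four h2 ho1

/-- Genus characters are determined by the norm. -/
theorem twisted_conv {n : ℕ} (hn : Squarefree n) (h4 : n % 4 = 3) {T : Finset ℕ}
    (hT : T ⊆ n.primeFactors) (k : ℕ) :
    ∑ x ∈ k.divisorsAntidiagonal,
      (∏ p ∈ n.primeFactors \ T, J((x.1 : ℤ) | p)) * ∏ p ∈ T, J((x.2 : ℤ) | p) =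
      hilS n T k * rr n k := by
  have hR : ∀ p ∈ n.primeFactors, p.Prime := fun p hp => Nat.prime_of_mem_primeFactors hp
  have hT' : ∀ p ∈ T, p.Prime := fun p hp => hR p (hT hp)
  have k1 : ∀ x, hilHom n T hT' x = hilS n T x := fun _ => rfl
  have k2 : ∀ U x, jacHom U x = ∏ p ∈ U, J((x : ℤ) | p) := fun _ _ => rfl
  have h := conv_eq (jacHom (n.primeFactors \ T)) (jacHom T)
    (hilHom n T hT' * jacHom n.primeFactors) (hilHom n T hT') ?_ k
  · refine h.trans ?_
    rw [rr, ← Nat.sum_divisorsAntidiagonal fun x _ => J((x : ℤ) | n), mul_sum]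
    refine sum_congr rfl fun x hx => ?_
    rw [← (Nat.mem_divisorsAntidiagonal.mp hx).1, jac_eq_prod _ hn, Nat.cast_mul, hilS_mul hT']
    simp only [MonoidHom.mul_apply, k1, k2]
    ring
  intro q hq
  simp only [MonoidHom.mul_apply, k1, k2]
  have hz : ∀ U : Finset ℕ, q ∈ U → ∏ p ∈ U, J((q : ℤ) | p) = 0 := fun U hU =>
    prod_eq_zero hU (jac_zero_of_dvd hq dvd_rfl)
  by_cases hqT : q ∈ T
  · right
    refine ⟨?_, by rw [hz _ hqT, hz _ (hT hqT), mul_zero]⟩
    have e : n.primeFactors.erase q = n.primeFactors \ T ∪ T.erase q := by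
      ext p
      simp only [mem_erase, mem_union, mem_sdiff]
      constructor
      · rintro ⟨h1, h2⟩
        by_cases h3 : p ∈ T
        · exact Or.inr ⟨h1, h3⟩
        · exact Or.inl ⟨h2, h3⟩
      · rintro (⟨h1, h2⟩ | ⟨h1, h2⟩)
        · exact ⟨fun h => h2 (h ▸ hqT), h1⟩
        · exact ⟨h1, hT h2⟩
    have h1 : ∏ p ∈ T.erase q, hil n p q = ∏ p ∈ T.erase q, J((q : ℤ) | p) :=
      prod_congr rfl fun p hp => hil_of_not_dvd (hT' p (mem_of_mem_erase hp))
        (not_dvd_of_prime_ne (hT' p (mem_of_mem_erase hp)) hq (ne_of_mem_erase hp))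
    rw [hilS, ← mul_prod_erase _ _ hqT, hil_self_eq hn h4 (hT hqT), e,
      prod_union (sdiff_disjoint.mono_right (erase_subset _ _)), h1, mul_assoc,
      prod_jac_sq (fun p hp => hT' p (mem_of_mem_erase hp)) fun p hp =>
        not_dvd_of_prime_ne (hT' p (mem_of_mem_erase hp)) hq (ne_of_mem_erase hp), mul_one]
  · left
    have h0 : ∀ p ∈ T, ¬ (p : ℤ) ∣ (q : ℤ) := fun p hp =>
      not_dvd_of_prime_ne (hT' p hp) hq fun h => hqT (h ▸ hp)
    have h1 : hilS n T q = ∏ p ∈ T, J((q : ℤ) | p) :=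
      prod_congr rfl fun p hp => hil_of_not_dvd (hT' p hp) (h0 p hp)
    refine ⟨?_, h1.symm⟩
    rw [h1, ← prod_sdiff hT, mul_left_comm, prod_jac_sq hT' h0, mul_one]

lemma mu_field {F : Type*} [Field F] [Fintype F] [DecidableEq F] (h2 : (2 : F) ≠ 0)
    {c : F} (h15 : c ≠ 0) (a e t : F) :
    (∑ k : F, if c * a * k ^ 2 - t * k + e = 0 then quadraticChar F k else 0) =
      (∑ s : F, if s ^ 2 - (t ^ 2 - 4 * c * (a * e)) = 0 then quadraticChar F (2 * (s - t))
        else 0) *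
        (quadraticChar F (-c * a) + if a * e = 0 then quadraticChar F (-e) else 0) := by
  have h0 : (∑ k : F, quadraticChar F k) = 0 := quadraticChar_sum_zero (by
    intro h
    exact h2 (by simpa [h] using ringChar.Nat.cast_ringChar (R := F)))
  rcases eq_or_ne a 0 with rfl | ha
  · simp only [mul_zero, zero_mul, zero_sub, sub_zero, MulChar.map_zero, zero_add, if_true]
    rcases eq_or_ne t 0 with rfl | ht
    · rcases eq_or_ne e 0 with rfl | he
      · simpa using h0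
      · simp [he]
    rw [sum_eq_single (e / t) (fun k _ hk => if_neg fun h => hk (by
        field_simp; linear_combination -h)) (by simp), if_pos (by field_simp; ring),
      sum_eq_single (-t) (fun s _ hs => ?_) (by simp), if_pos (by ring), ← map_mul,
      show 2 * (-t - t) * -e = (2 * t) ^ 2 * (e / t) by field_simp; ring, map_mul, map_pow,
      quadraticChar_sq_one (mul_ne_zero h2 ht), one_mul]
    split_ifs with h
    · rw [show s = t from (sq_eq_sq_iff_eq_or_eq_neg.mp (sub_eq_zero.mp h)).resolve_right hs]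
      simp
    · rfl
  have h30 : 2 * c * a ≠ 0 := mul_ne_zero (mul_ne_zero h2 h15) ha
  rw [show (if a * e = 0 then quadraticChar F (-e) else 0) = 0 by
    split_ifs with h
    · rw [(mul_eq_zero.mp h).resolve_left ha]; simp
    · rfl, add_zero, sum_mul, eq_comm,
    ← Equiv.sum_comp (((Equiv.mulLeft₀ _ h30).trans (Equiv.neg F)).trans (Equiv.addLeft t))]
  refine sum_congr rfl fun k _ => Eq.symm ?_
  simp only [Equiv.trans_apply, Equiv.mulLeft₀_apply, Equiv.neg_apply, Equiv.coe_addLeft, ite_mul,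
    zero_mul]
  refine if_congr ⟨fun h => by linear_combination 4 * c * a * h, fun h =>
    mul_left_cancel₀ (mul_ne_zero h2 h30) (by linear_combination h)⟩ ?_ rfl
  rw [← map_mul, show 2 * (t + -(2 * c * a * k) - t) * (-c * a) = (2 * c * a) ^ 2 * k by ring,
    map_mul,
    map_pow, quadraticChar_sq_one h30, one_mul]

lemma mu_local {n p : ℕ} (hn : n.Coprime (2 * N)) (hp : p ∈ n.primeFactors) (a e t : ℤ) :
    (∑ k ∈ range p, if (p : ℤ) ∣ N * a * k ^ 2 - t * k + e then J((k : ℤ) | p) else 0) =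
      (∑ s ∈ range p, if (p : ℤ) ∣ s ^ 2 - (t ^ 2 - 4 * N * (a * e)) then J(2 * (s - t) | p)
        else 0) *
        (J(-N * a | p) + if (p : ℤ) ∣ a * e then J(-e | p) else 0) := by
  have := Fact.mk (Nat.prime_of_mem_primeFactors hp)
  obtain ⟨h2, h3⟩ := ne_zero hn this.out (Nat.dvd_of_mem_primeFactors hp)
  have h := mu_field h2 h3 (a : ZMod p) e t
  rw [← sum_range_zmod, ← sum_range_zmod] at h
  simpa only [jac_eq, ← ZMod.intCast_zmod_eq_zero_iff_dvd, Int.cast_add, Int.cast_sub,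
    Int.cast_mul, Int.cast_pow, Int.cast_neg, Int.cast_ofNat, Int.cast_natCast] using h

/-- The primes at which the local factor has two terms. -/
def GG (A : ℕ) (t M : ℤ) (p : ℕ) : Prop :=
  if p ∣ A then (p : ℤ) ∣ t ∧ (p : ℤ) ^ 3 ∣ M else (p : ℤ) ∣ M

instance (A : ℕ) (t M : ℤ) (p : ℕ) : Decidable (GG A t M p) := by unfold GG; infer_instance

/-- The part of the local factor that does not depend on the factorization. -/
def alP (N n A : ℕ) (t M : ℤ) (p : ℕ) : ℤ :=
  if p ∣ A then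
    if (p : ℤ) ∣ t then J(((n / p : ℕ) : ℤ) | p) * ∑ s ∈ range p,
      if (p : ℤ) ∣ s ^ 2 - ((t / p) ^ 2 - 4 * N * (M / p ^ 2)) then J(2 * (s - t / p) | p) else 0
    else J(-2 * t | p)
  else 1

/-- The product of the primes that divide both `A` and `t`. -/
def gA (A : ℕ) (t : ℤ) : ℕ := ∏ p ∈ A.primeFactors.filter fun p : ℕ => (p : ℤ) ∣ t, p

lemma muW_eq_zero {A B : ℕ} {t a e : ℤ} (h : ¬ ((gA A t : ℤ) ∣ a ∧ (gA A t : ℤ) ∣ e)) :
    muW N A B t a e = 0 := by
  by_contra h0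
  have h1 : ∀ p ∈ A.primeFactors.filter fun p : ℕ => (p : ℤ) ∣ t, (p : ℤ) ∣ a ∧ (p : ℤ) ∣ e :=
    fun p hp => by
      by_contra h2
      rw [mem_filter] at hp
      exact prod_ne_zero_iff.mp (left_ne_zero_of_mul h0) p hp.1 (by rw [muP, if_pos hp.2, if_neg h2])
  have h2 : ∀ x : ℤ, (∀ p ∈ A.primeFactors.filter fun p : ℕ => (p : ℤ) ∣ t, (p : ℤ) ∣ x) →
      (gA A t : ℤ) ∣ x := fun x hx => Int.natCast_dvd.mpr (prod_primes_dvd _
    (fun p hp => (Nat.prime_of_mem_primeFactors (mem_filter.mp hp).1).prime)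
    fun p hp => Int.natCast_dvd.mp (hx p hp))
  exact h ⟨h2 a fun p hp => (h1 p hp).1, h2 e fun p hp => (h1 p hp).2⟩

lemma prod_gam {n : ℕ} (hn : Good N n) {P : Finset ℕ} (hP : P ⊆ n.primeFactors) :
    ∏ q ∈ n.primeFactors, J(((∏ p ∈ P.erase q, p : ℕ) : ℤ) | q) =
      ∏ p ∈ P, J(((n / p : ℕ) : ℤ) | p) := by
  have h1 : ∀ q, J(((∏ p ∈ P.erase q, p : ℕ) : ℤ) | q) = ∏ p ∈ P.erase q, J((p : ℤ) | q) :=
    fun q => by
      simpa only [jacHom, MonoidHom.coe_mk, OneHom.coe_mk, prod_singleton] using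
        map_prod (jacHom {q}) (fun p => p) (P.erase q)
  simp only [h1]
  rw [prod_comm' (t' := P) (s' := fun p => n.primeFactors.erase p) (by
    intro q p
    simp only [mem_erase]
    tauto)]
  exact prod_congr rfl fun p hp => by
    rw [← hil_self_eq hn.sqf hn.mod4 (hP hp), hil_self (Nat.prime_of_mem_primeFactors (hP hp))]

lemma muW_expand {A B : ℕ} (hn : Good N (A * B)) (t a e : ℤ) :
    muW N A B t (gA A t * a) (gA A t * e) = J(-N | A) * J((N : ℤ) | B) *
      (∏ p ∈ (A * B).primeFactors, alP N (A * B) A t (gA A t ^ 2 * (a * e)) p) *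
      ∏ p ∈ (A * B).primeFactors, (J(a | p) +
        if GG A t (gA A t ^ 2 * (a * e)) p then J((N : ℤ) | p) * J(e | p) else 0) := by
  have hc : Nat.Coprime A B := Nat.coprime_of_squarefree_mul hn.sqf
  have hR : (A * B).primeFactors = A.primeFactors ∪ B.primeFactors := hc.primeFactors_mul
  have hdisj : Disjoint A.primeFactors B.primeFactors := hc.disjoint_primeFactors
  set P := A.primeFactors.filter fun p : ℕ => (p : ℤ) ∣ t with hP
  have hP' : P ⊆ (A * B).primeFactors := (filter_subset _ _).trans (hR ▸ subset_union_left)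
  have hg : ∀ q ∈ (A * B).primeFactors, ¬ (q : ℤ) ∣ (∏ p ∈ P.erase q, p : ℕ) := fun q hq h => by
    obtain ⟨p, hp, h⟩ := (Nat.prime_of_mem_primeFactors hq).prime.exists_mem_finset_dvd
      (Int.natCast_dvd_natCast.mp h)
    exact ne_of_mem_erase hp ((Nat.prime_dvd_prime_iff_eq (Nat.prime_of_mem_primeFactors hq)
      (Nat.prime_of_mem_primeFactors (hP' (mem_of_mem_erase hp)))).mp h).symm
  have h1 : (∏ q ∈ (A * B).primeFactors, J(((∏ p ∈ P.erase q, p : ℕ) : ℤ) | q)) *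
      ∏ q ∈ (A * B).primeFactors, (if q ∈ P then J(((A * B / q : ℕ) : ℤ) | q) else 1) = 1 := by
    rw [prod_gam hn hP', prod_ite_mem, inter_eq_right.mpr hP', ← prod_mul_distrib]
    refine prod_eq_one fun p hp => ?_
    rw [← sq, jac_sq (Nat.prime_of_mem_primeFactors (hP' hp)) (not_dvd_div hn.sqf
      (Nat.prime_of_mem_primeFactors (hP' hp)) (Nat.dvd_of_mem_primeFactors (hP' hp)))]
  rw [← mul_one (_ * _ * _ * _), ← h1, jac_eq_prod _ hn.sqf.of_mul_left,
    jac_eq_prod _ hn.sqf.of_mul_right, muW, mul_assoc, mul_assoc, ← prod_mul_distrib,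
    ← prod_mul_distrib, ← prod_mul_distrib, hR, prod_union hdisj, mul_mul_mul_comm,
    ← prod_mul_distrib, ← prod_mul_distrib]
  congr 1 <;> refine prod_congr rfl fun p hp => ?_
  · have hpR : p ∈ (A * B).primeFactors := hR ▸ mem_union_left _ hp
    have hp' := Nat.prime_of_mem_primeFactors hpR
    have h3 : ¬ (p : ℤ) ∣ N := fun h => not_dvd hn.cop2 hpR (h.mul_left 2)
    have hp2 := Nat.prime_iff_prime_int.mp hp'
    have hpA := Nat.dvd_of_mem_primeFactors hp
    have k := hg p hpR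
    simp only [muP, alP, GG, if_pos hpA]
    by_cases ht : (p : ℤ) ∣ t
    · have hpP : p ∈ P := mem_filter.mpr ⟨hp, ht⟩
      have e1 : (gA A t : ℤ) = p * (∏ p ∈ P.erase p, p : ℕ) := by
        rw [gA, ← hP, ← mul_prod_erase _ _ hpP, Nat.cast_mul]
      have k2 := jac_sq hp' (not_dvd_div hn.sqf hp' (Nat.dvd_of_mem_primeFactors hpR))
      generalize ((∏ p ∈ P.erase p, p : ℕ) : ℤ) = g at e1 k
      have e2 : (p * g) ^ 2 * (a * e) = p ^ 2 * (g * a * (g * e)) := by ring
      have e3 : (p : ℤ) ^ 3 ∣ p ^ 2 * (g * a * (g * e)) ↔ (p : ℤ) ∣ g * a * (g * e) := by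
        rw [pow_succ, mul_dvd_mul_iff_left (pow_ne_zero 2 hp2.ne_zero)]
      simp only [e1, e2, e3, ht, hpP, if_true, true_and, mul_assoc (p : ℤ), dvd_mul_right, and_self,
        Int.mul_ediv_cancel_left _ hp2.ne_zero,
        Int.mul_ediv_cancel_left _ (pow_ne_zero 2 hp2.ne_zero)]
      rw [mu_local hn.cop2 hpR]
      have e4 : J(-N | p) * J((N : ℤ) | p) = J(-1 | p) := by
        rw [← jacobiSym.mul_left, ← jac_sq_mul hp' h3 (-1)]
        congr 1
        ring
      rw [show -(g * e) = -1 * (g * e) by ring]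
      simp only [jacobiSym.mul_left, ← e4]
      split_ifs <;> rw [← mul_one (_ * (_ + _)), ← k2] <;> ring
    · have hpP : p ∉ P := fun h => ht (mem_filter.mp h).2
      rw [erase_eq_of_notMem hpP]
      simp only [ht, hpP, if_false, false_and, add_zero, mul_one, ← jacobiSym.mul_left, gA, ← hP]
      congr 1
      ring
  · have hpR : p ∈ (A * B).primeFactors := hR ▸ mem_union_right _ hp
    have hp' := Nat.prime_of_mem_primeFactors hpR
    have h3 : ¬ (p : ℤ) ∣ N := fun h => not_dvd hn.cop2 hpR (h.mul_left 2)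
    have hp2 := Nat.prime_iff_prime_int.mp hp'
    have hpA : ¬ p ∣ A := fun h => disjoint_right.mp hdisj hp
      (Nat.mem_primeFactors.mpr ⟨hp', h, left_ne_zero_of_mul hn.sqf.ne_zero⟩)
    have hpP : p ∉ P := fun h => hpA (Nat.dvd_of_mem_primeFactors (mem_filter.mp h).1)
    have k := hg p hpR
    rw [erase_eq_of_notMem hpP] at k ⊢
    have e4 : J((N : ℤ) | p) * J((N : ℤ) | p) = 1 := by rw [← sq, jac_sq hp' h3]
    simp only [alP, GG, hpA, hpP, if_false, gA, ← hP, hp2.dvd_mul, k, false_or, sq,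
      jacobiSym.mul_left]
    by_cases ha : (p : ℤ) ∣ a
    · simp only [ha, true_or, if_true, jac_zero_of_dvd hp' ha]
      linear_combination -J(((∏ p ∈ P, p : ℕ) : ℤ) | p) * J(e | p) * e4
    · simp only [ha, false_or, if_false]
      split_ifs with he
      · rw [jac_zero_of_dvd hp' he]; ring
      · ring

lemma gA_sq_dvd {A : ℕ} {t M : ℤ} (h15 : A.Coprime (2 * N)) (hA : Squarefree A)
    (h : (A : ℤ) ^ 2 ∣ t ^ 2 - 4 * N * M) : (gA A t : ℤ) ^ 2 ∣ M := by
  have h1 : gA A t ∣ A := by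
    conv_rhs => rw [← Nat.prod_primeFactors_of_squarefree hA]
    exact prod_dvd_prod_of_subset _ _ _ (filter_subset _ _)
  have h2 : (gA A t : ℤ) ∣ t := Int.natCast_dvd.mpr (prod_primes_dvd _
    (fun p hp => (Nat.prime_of_mem_primeFactors (mem_filter.mp hp).1).prime)
    fun p hp => Int.natCast_dvd.mp (mem_filter.mp hp).2)
  have h3 : IsCoprime ((gA A t : ℤ) ^ 2) (4 * N) :=
    (IsCoprime.pow (n := 2) (Nat.isCoprime_iff_coprime.mpr
      (Nat.Coprime.coprime_dvd_left h1 h15))).of_isCoprime_of_dvd_right ⟨N, by push_cast; ring⟩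
  exact h3.dvd_of_dvd_mul_left ((dvd_sub_right (pow_dvd_pow_of_dvd h2 2)).mp
    ((pow_dvd_pow_of_dvd (Int.natCast_dvd_natCast.mpr h1) 2).trans h))

lemma gA_pos (A : ℕ) (t : ℤ) : 0 < gA A t :=
  prod_pos fun _ hp => (Nat.prime_of_mem_primeFactors (mem_filter.mp hp).1).pos

lemma sum_scale {g M : ℕ} (hg : 0 < g) (F : ℕ → ℕ → ℤ)
    (hF : ∀ a e, ¬ (g ∣ a ∧ g ∣ e) → F a e = 0) :
    ∑ x ∈ (g ^ 2 * M).divisorsAntidiagonal, F x.1 x.2 =
      ∑ x ∈ M.divisorsAntidiagonal, F (g * x.1) (g * x.2) := by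
  symm
  refine sum_of_injOn (fun x => (g * x.1, g * x.2)) (fun x _ y _ h => ?_) (fun x hx => ?_)
    (fun x hx h => hF _ _ ?_) fun _ _ => rfl
  · simp only [Prod.mk.injEq, Nat.mul_right_inj hg.ne'] at h
    exact Prod.ext h.1 h.2
  · obtain ⟨rfl, h⟩ := Nat.mem_divisorsAntidiagonal.mp hx
    exact Nat.mem_divisorsAntidiagonal.mpr ⟨by ring, mul_ne_zero (pow_ne_zero 2 hg.ne') h⟩
  · obtain ⟨a, e⟩ := x
    rintro ⟨⟨a, rfl⟩, e, rfl⟩
    obtain ⟨h1, h2⟩ := Nat.mem_divisorsAntidiagonal.mp hx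
    exact h ⟨(a, e), mem_coe.mpr (Nat.mem_divisorsAntidiagonal.mpr ⟨Nat.eq_of_mul_eq_mul_left
      (pow_pos hg 2) (by rw [← h1]; ring), right_ne_zero_of_mul h2⟩), rfl⟩

lemma sum_twist {n : ℕ} (hn : Good N n) (G : ℕ → Prop) [DecidablePred G] (c : ℕ → ℤ) (M : ℕ) :
    ∑ x ∈ M.divisorsAntidiagonal, ∏ p ∈ n.primeFactors,
      (J((x.1 : ℤ) | p) + if G p then c p * J((x.2 : ℤ) | p) else 0) =
      rr n M * ∏ p ∈ n.primeFactors, (1 + if G p then c p * hil n p M else 0) := by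
  rw [prod_one_add]
  simp only [add_comm (J(_ | _)), prod_add, mul_sum]
  rw [sum_comm]
  refine sum_congr rfl fun T hT => ?_
  by_cases h : ∀ p ∈ T, G p
  · simp only [prod_congr rfl fun p hp => if_pos (h p hp), prod_mul_distrib, mul_assoc, ← mul_sum]
    rw [mul_left_comm, mul_comm (rr n M), ← hilS, ← twisted_conv hn.sqf hn.mod4 (mem_powerset.mp hT)]
    simp only [mul_comm]
  · push Not at h
    obtain ⟨p, hp, h⟩ := h
    rw [prod_eq_zero hp (if_neg h), mul_zero]
    exact sum_eq_zero fun x _ => by rw [prod_eq_zero hp (if_neg h), zero_mul]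

lemma rr_gA {A B : ℕ} (h0 : A * B ≠ 0) (t : ℤ) (M : ℕ) :
    rr (A * B) (gA A t * M) = rr (A * B) M := by
  refine prod_induction _ (fun g => ∀ M, rr (A * B) (g * M) = rr (A * B) M)
    (fun a b ha hb M => by rw [mul_assoc, ha, hb]) (by simp) (fun p hp M => ?_) M
  have h := (mem_filter.mp hp).1
  exact rr_ram h0 (Nat.prime_of_mem_primeFactors h) ((Nat.dvd_of_mem_primeFactors h).mul_right _)

end CN

open CN

/-- The closed form of the weighted divisor sum. -/
theorem sum_muW {A B : ℕ} (hn : Good N (A * B)) {t : ℤ} {M : ℕ}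
    (h : (A : ℤ) ^ 2 ∣ t ^ 2 - 4 * N * M) :
    ∑ x ∈ M.divisorsAntidiagonal, muW N A B t x.1 x.2 =
      J(-N | A) * J((N : ℤ) | B) * CF N (A * B) A t M := by
  have h0 := hn.sqf.ne_zero
  have h1 := gA_sq_dvd hn.cop2.coprime_mul_right hn.sqf.of_mul_left h
  obtain ⟨M', hM⟩ : gA A t ^ 2 ∣ M := by exact_mod_cast h1
  have hM' : (M : ℤ) = (gA A t : ℤ) ^ 2 * M' := by exact_mod_cast hM
  rcases eq_or_ne M' 0 with rfl | h2
  · simp [hM, CF, rr]
  conv_lhs => rw [hM, sum_scale (gA_pos A t) (fun a e => muW N A B t a e)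
    fun a e h => muW_eq_zero (by exact_mod_cast h)]
  rw [sum_congr rfl fun x hx => by
    rw [Nat.cast_mul, Nat.cast_mul, muW_expand hn, ← Nat.cast_mul,
      (Nat.mem_divisorsAntidiagonal.mp hx).1, ← hM'], ← mul_sum, sum_twist hn, CF, mul_assoc,
    mul_left_comm (∏ _ ∈ _, _), ← prod_mul_distrib]
  congr 2
  · rw [hM, sq, mul_assoc, rr_gA h0, rr_gA h0]
  refine prod_congr rfl fun p hp => ?_
  have hp' := Nat.prime_of_mem_primeFactors hp
  have e : hil (A * B) p M' = hil (A * B) p M := by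
    rw [hM', hil_mul hp', hil_of_sq hn.sqf hp' (Nat.dvd_of_mem_primeFactors hp)
      (by exact_mod_cast (gA_pos A t).ne'), one_mul]
  simp only [alP, GG, lamP, sigP, e, Int.natCast_div, Nat.cast_pow, ← Int.natCast_dvd_natCast]
  by_cases h3 : (p : ℤ) ∣ A <;> by_cases h4 : (p : ℤ) ∣ t <;> simp [h3, h4] <;> split_ifs <;> simp

end Pool.Agent.G5
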