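import Pool.Agent.Lib.MP_696deb_nt.B5.CNa

/-! Pairs of a vertical line and a form of level `N`, counted by factorizations. -/

set_option autoImplicit false

open Finset NumberTheorySymbols

namespace Pool.Agent.G5

open Pool.Agent.Lib.MP_696deb_nt Tern

variable {N : ℕ}

namespace CN

theorem jac_of_sq {p : ℕ} (hp : p.Prime) {u v k l : ℤ} (hu : ¬ (p : ℤ) ∣ u) (hv : ¬ (p : ℤ) ∣ v)
    (hk : ¬ (p : ℤ) ∣ k) (h : (p : ℤ) ∣ k ^ 2 * (u * v) - l ^ 2) : J(u | p) = J(v | p) := by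
  have hP := Nat.prime_iff_prime_int.mp hp
  have hl : ¬ (p : ℤ) ∣ l := fun h1 => by
    have h2 : (p : ℤ) ∣ k ^ 2 * (u * v) := by simpa using h.add (h1.pow two_ne_zero)
    exact (hP.dvd_or_dvd h2).elim (fun h => hk (hP.dvd_of_dvd_pow h))
      fun h => (hP.dvd_or_dvd h).elim hu hv
  have h1 := jacobiSym.mod_left' (Int.modEq_iff_dvd.mpr h).symm
  rw [jacobiSym.mul_left, jacobiSym.mul_left, jacobiSym.pow_left, jacobiSym.pow_left, jac_sq hp hk,
    jac_sq hp hl] at h1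
  linear_combination J(v | p) * h1 - J(u | p) * jac_sq hp hv

lemma sum_Ico0 {V : Type*} [AddCommMonoid V] (n : ℕ) (f : ℤ → V) :
    ∑ k ∈ Ico (0 : ℤ) n, f k = ∑ k ∈ range n, f k := by
  rw [Int.Ico_eq_finset_map]; simp

lemma line_gen {K : Type*} [CommRing K] {A B : ℕ} (hN : (N : ℤ) ≠ 0) (hA : (A : ℤ) ≠ 0)
    (hB : ∀ p ∈ B.primeFactors, ¬ (p : ℤ) ∣ N ∧ ¬ (p : ℤ) ∣ A) {D β t M : ℤ}
    (hD : (B : ℤ) ∣ D) (hM : 4 * N * M = t ^ 2 - A ^ 2 * D) (h0 : M ≠ 0)
    (hc : IsCoprime (2 * N : ℤ) A) (hβ : 2 * (N : ℤ) ∣ t - A * β) (φ : ℤ → ℤ → K) (k : ℤ) :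
    ∑ᶠ R : Fm, (if fbil (0, A, -k) R = t then (wG N B D β R : K) * φ (R.1 / N) (fval R k A)
      else 0) = ∑ x ∈ M.divisorsAntidiag,
        if (A : ℤ) ∣ t - 2 * N * x.1 * k ∧ (A : ℤ) ^ 2 ∣ N * x.1 * k ^ 2 - t * k + x.2 then
          ((∏ p ∈ B.primeFactors, if (p : ℤ) ∣ x.1 then J(x.2 | p) else J(N * x.1 | p) : ℤ) : K) *
            φ x.1 x.2 else 0 := by
  rw [← sum_filter]
  set s := M.divisorsAntidiag.filter fun x =>
    (A : ℤ) ∣ t - 2 * N * x.1 * k ∧ (A : ℤ) ^ 2 ∣ N * x.1 * k ^ 2 - t * k + x.2 with hs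
  let g : ℤ × ℤ → Fm := fun x =>
    (N * x.1, (t - 2 * N * x.1 * k) / A, (N * x.1 * k ^ 2 - t * k + x.2) / A ^ 2)
  rw [finsum_eq_sum_of_support_subset _ (s := s.image g) fun R hR => ?_,
    sum_image fun x hx y hy h => ?_]
  · refine sum_congr rfl ?_
    rintro ⟨a, e⟩ hx
    obtain ⟨h1, ⟨b, hb⟩, c, hc'⟩ := mem_filter.mp hx
    have h2 : a * e = M := (Int.mem_divisorsAntidiag.mp h1).1
    simp only at hb hc'
    have h3 : g (a, e) = (N * a, b, c) := by
      simp only [g, hb, hc', Int.mul_ediv_cancel_left _ hA,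
        Int.mul_ediv_cancel_left _ (pow_ne_zero 2 hA)]
    have h4 : fval (N * a, b, c) k A = e := by
      simp only [fval]; linear_combination -k * hb - hc'
    have h5 : fdisc (N * a, b, c) = D := mul_left_cancel₀ (pow_ne_zero 2 hA) (by
      simp only [fdisc]
      linear_combination -(A * b + t - 2 * N * a * k) * hb + 4 * N * a * hc' - 4 * N * h2 - hM)
    have h9 : 2 * (N : ℤ) ∣ b - β := hc.dvd_of_dvd_mul_left (by
      rw [show (A : ℤ) * (b - β) = t - A * β - 2 * N * (a * k) by linear_combination -hb]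
      exact hβ.sub (dvd_mul_right _ _))
    rw [h3, h4, if_pos (by simp only [fbil]; linear_combination -hb), wG,
      if_pos ⟨dvd_mul_right _ _, h5, h9⟩, Int.mul_ediv_cancel_left _ hN, gch]
    congr 2
    refine prod_congr rfl fun p hp => ?_
    have hp' := Nat.prime_of_mem_primeFactors hp
    have hp2 := Nat.prime_iff_prime_int.mp hp'
    have hpB := Nat.dvd_of_mem_primeFactors hp
    have h8 : (p : ℤ) ∣ N * a ↔ (p : ℤ) ∣ a := by
      rw [hp2.dvd_mul, or_iff_right (hB p hp).1]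
    simp only [h8]
    split_ifs with ha
    · obtain ⟨a, rfl⟩ := ha
      obtain ⟨d, hd⟩ := (Int.natCast_dvd_natCast.mpr hpB).trans hD
      obtain ⟨b, rfl⟩ := hp2.dvd_of_dvd_pow (n := 2) (show (p : ℤ) ∣ b ^ 2 from
        ⟨d + 4 * N * a * c, by simp only [fdisc] at h5; linear_combination h5 + hd⟩)
      rw [← jac_sq_mul hp' (hB p hp).2, ← h4]
      exact jacobiSym.mod_left' (Int.ModEq.symm (Int.modEq_iff_dvd.mpr
        ⟨-(N * a * k ^ 2 + b * k * A), by simp only [fval]; ring⟩))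
    · rfl
  · simp only [g, Prod.mk.injEq, mul_right_inj' hN] at h
    have h1 := (Int.mem_divisorsAntidiag.mp (mem_filter.mp hx).1).1
    have h2 := (Int.mem_divisorsAntidiag.mp (mem_filter.mp hy).1).1
    exact Prod.ext h.1 (mul_left_cancel₀ (left_ne_zero_of_mul (h1 ▸ h0)) (by rw [h1, h.1, h2]))
  · obtain ⟨_, b, c⟩ := R
    simp only [Function.mem_support, ne_eq, ite_eq_right_iff, Classical.not_imp, wG] at hR
    obtain ⟨h1, h2⟩ := hR
    have h3 : Fam N D β _ := by_contra fun h => h2 (by rw [if_neg h]; simp)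
    obtain ⟨⟨a, rfl⟩, h4, -⟩ := h3
    simp only [fbil, fdisc] at h1 h4
    have e1 : t - 2 * N * a * k = A * b := by linear_combination -h1
    have e2 : N * a * k ^ 2 - t * k + fval (N * a, b, c) k A = A ^ 2 * c := by
      simp only [fval]; linear_combination k * h1
    refine mem_coe.mpr (mem_image.mpr ⟨(a, fval (N * a, b, c) k A), mem_filter.mpr
      ⟨Int.mem_divisorsAntidiag.mpr ⟨mul_left_cancel₀ (mul_ne_zero four_ne_zero hN) ?_, h0⟩,
        ⟨b, e1⟩, c, e2⟩, ?_⟩)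
    · linear_combination 4 * N * a * e2 - hM - A ^ 2 * h4 - (t - 2 * N * a * k + A * b) * e1
    · simp only [g, e1, e2, Int.mul_ediv_cancel_left _ hA,
        Int.mul_ediv_cancel_left _ (pow_ne_zero 2 hA)]

lemma muP_eq {n p : ℕ} (hn : n.Coprime (2 * N)) (hp : p ∈ n.primeFactors) {t a e : ℤ}
    (h : (p : ℤ) ^ 2 ∣ t ^ 2 - 4 * N * (a * e)) :
    (∑ k ∈ range p, if (p : ℤ) ∣ t - 2 * N * a * k ∧ (p : ℤ) ^ 2 ∣ N * a * k ^ 2 - t * k + e then
      J((k : ℤ) | p) else 0) = muP N p t a e := by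
  have hp' := Nat.prime_of_mem_primeFactors hp
  have hp2 := Nat.prime_iff_prime_int.mp hp'
  have h30 := not_dvd hn hp
  unfold muP
  split_ifs with ht ha
  · obtain ⟨t, rfl⟩ := ht
    obtain ⟨⟨a, rfl⟩, e, rfl⟩ := ha
    simp only [Int.mul_ediv_cancel_left _ hp2.ne_zero]
    refine sum_congr rfl fun k _ => if_congr ?_ rfl rfl
    rw [show N * (p * a) * k ^ 2 - p * t * k + p * e = p * (N * a * (k : ℤ) ^ 2 - t * k + e) by
      ring, sq, mul_dvd_mul_iff_left hp2.ne_zero]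
    exact and_iff_right ⟨t - 2 * N * a * k, by ring⟩
  · refine sum_eq_zero fun k _ => ?_
    split_ifs with hk
    · rcases hp2.dvd_or_dvd ((dvd_sub_right ht).mp hk.1) with h1 | h1
      · have h2 := (hp2.dvd_or_dvd h1).resolve_left h30
        exact (ha ⟨h2, (dvd_add_right (((h2.mul_left _).mul_right _).sub (ht.mul_right _))).mp
          ((dvd_pow_self _ two_ne_zero).trans hk.2)⟩).elim
      · exact jac_zero_of_dvd hp' h1
    · rfl
  by_cases ha : (p : ℤ) ∣ a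
  · rw [jac_zero_of_dvd hp' ((ha.mul_left _).mul_right _)]
    exact sum_eq_zero fun k _ => if_neg fun hk =>
      ht ((dvd_sub_left ((ha.mul_left _).mul_right _)).mp hk.1)
  have h1 : ¬ (p : ℤ) ∣ 2 * N * a := fun h => (hp2.dvd_or_dvd h).elim h30 ha
  have := Fact.mk hp'
  have h2 : ∀ k : ℤ, ((p : ℤ) ∣ t - 2 * N * a * k ∧ (p : ℤ) ^ 2 ∣ N * a * k ^ 2 - t * k + e) ↔
      (k : ZMod p) = t / (2 * N * a : ℤ) := fun k => by
    rw [eq_div_iff ((ZMod.intCast_zmod_eq_zero_iff_dvd _ p).not.mpr h1), ← Int.cast_mul,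
      ZMod.intCast_eq_intCast_iff_dvd_sub, mul_comm k]
    refine and_iff_left_of_imp fun hk => ?_
    refine ((hp2.coprime_iff_not_dvd.mpr h1).pow (n := 2)).dvd_of_dvd_mul_left ?_
    rw [show (2 * N * a) ^ 2 * (N * a * k ^ 2 - t * k + e) =
      N * a * ((t - 2 * N * a * k) ^ 2 - (t ^ 2 - 4 * N * (a * e))) by ring]
    exact ((pow_dvd_pow_of_dvd hk 2).sub h).mul_left _
  simp only [h2, jac_eq, Int.cast_natCast]
  rw [sum_range_zmod p fun x => if x = t / (2 * N * a : ℤ) then quadraticChar (ZMod p) x else 0,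
    sum_ite_eq' , if_pos (mem_univ _), Int.cast_mul _ t]
  have h3 := (ZMod.intCast_zmod_eq_zero_iff_dvd _ p).not.mpr h1
  generalize ((2 * N * a : ℤ) : ZMod p) = u at h3
  rw [show u * t = u ^ 2 * (t / u) by field_simp, map_mul, map_pow, quadraticChar_sq_one h3,
    one_mul]

lemma sum_line {A : ℕ} (hA : Squarefree A) (h30 : A.Coprime (2 * N)) {t a e : ℤ}
    (h : (A : ℤ) ^ 2 ∣ t ^ 2 - 4 * N * (a * e)) :
    (∑ k ∈ range A, if (A : ℤ) ∣ t - 2 * N * a * k ∧ (A : ℤ) ^ 2 ∣ N * a * k ^ 2 - t * k + e then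
      J((k : ℤ) | A) else 0) = ∏ p ∈ A.primeFactors, muP N p t a e := by
  rw [← prod_congr rfl fun p hp => muP_eq h30 hp ((pow_dvd_pow_of_dvd
      (Int.natCast_dvd_natCast.mpr (Nat.dvd_of_mem_primeFactors hp)) 2).trans h),
    ← crt_prod _ (fun p hp => Nat.prime_of_mem_primeFactors hp) _ fun p _ x => ?_,
    Nat.prod_primeFactors_of_squarefree hA]
  · refine sum_congr rfl fun k _ => ?_
    rw [prod_ite_zero, jac_eq_prod _ hA]
    refine if_congr ⟨fun hk p hp => ?_, fun hk => ⟨(sqfree_dvd_iff hA _).mpr fun p hp =>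
      (hk p hp).1, ?_⟩⟩ rfl rfl
    · have := Int.natCast_dvd_natCast.mpr (Nat.dvd_of_mem_primeFactors hp)
      exact ⟨this.trans hk.1, (pow_dvd_pow_of_dvd this 2).trans hk.2⟩
    · rw [← Nat.prod_primeFactors_of_squarefree hA, Nat.cast_prod, ← prod_pow]
      exact prod_dvd_of_coprime (fun p hp q hq hpq => (Nat.isCoprime_iff_coprime.2
        ((Nat.coprime_primes (Nat.prime_of_mem_primeFactors hp)
          (Nat.prime_of_mem_primeFactors hq)).2 hpq)).pow) fun p hp => (hk p hp).2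
  · have e1 : (x : ℤ) = (x % p : ℕ) + p * (x / p : ℕ) := by exact_mod_cast (Nat.mod_add_div x p).symm
    rw [e1, jacobiSym.mod_left (_ + _), Int.add_mul_emod_self_left, ← jacobiSym.mod_left]
    generalize ((x % p : ℕ) : ℤ) = y
    generalize ((x / p : ℕ) : ℤ) = j
    refine if_congr ?_ rfl rfl
    rw [show t - 2 * N * a * (y + p * j) = t - 2 * N * a * y - p * (2 * N * a * j) by ring,
      dvd_sub_left (dvd_mul_right _ _)]
    refine and_congr_right fun ⟨c, hc⟩ => ?_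
    rw [show N * a * (y + p * j) ^ 2 - t * (y + p * j) + e =
      N * a * y ^ 2 - t * y + e + p ^ 2 * (N * a * j ^ 2 - j * c) by linear_combination -p * j * hc,
      dvd_add_left (dvd_mul_right _ _)]

end CN

open CN

/-- The normal form of the count of pairs of a line and a form. -/
theorem sum_lines {K : Type*} [CommRing K] {A B : ℕ} (hn : Good N (A * B)) {D β t M : ℤ}
    (hD : (B : ℤ) ∣ D) (hM : 4 * N * M = t ^ 2 - A ^ 2 * D) (h0 : M ≠ 0)
    (hβ : 2 * (N : ℤ) ∣ t - A * β) (φ : ℤ → ℤ → K) :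
    ∑ k ∈ range A, (J((k : ℤ) | A) : K) * ∑ᶠ R : Fm, (if fbil (0, A, -(k : ℤ)) R = t then
        (wG N B D β R : K) * φ (R.1 / N) (fval R k A) else 0) =
      ∑ x ∈ M.divisorsAntidiag, (muW N A B t x.1 x.2 : K) * φ x.1 x.2 := by
  have hc : IsCoprime (2 * N : ℤ) A := by
    exact_mod_cast (Nat.isCoprime_iff_coprime.mpr hn.cop2.coprime_mul_right).symm
  have hB : ∀ p ∈ B.primeFactors, ¬ (p : ℤ) ∣ N ∧ ¬ (p : ℤ) ∣ A := fun p hp =>
    ⟨fun h => not_dvd hn.cop2.coprime_mul_left hp (h.mul_left 2),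
      fun h => (Nat.prime_of_mem_primeFactors hp).not_dvd_one
        ((Nat.coprime_of_squarefree_mul hn.sqf) ▸
        Nat.dvd_gcd (Int.natCast_dvd_natCast.mp h) (Nat.dvd_of_mem_primeFactors hp))⟩
  have h1 := line_gen (by exact_mod_cast hn.lsq.ne_zero)
    (by exact_mod_cast left_ne_zero_of_mul hn.sqf.ne_zero) hB hD hM h0 hc hβ φ
  simp only [h1, mul_sum]
  rw [sum_comm]
  refine sum_congr rfl fun x hx => ?_
  rw [muW, ← sum_line hn.sqf.of_mul_left hn.cop2.coprime_mul_right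
    ⟨D, by rw [(Int.mem_divisorsAntidiag.mp hx).1, hM]; ring⟩, Int.cast_mul (∑ _ ∈ _, _),
    Int.cast_sum, mul_assoc (∑ _ ∈ _, _), sum_mul]
  refine sum_congr rfl fun k _ => ?_
  split_ifs <;> simp

/-- No pairs exist if the orientation does not fit. -/
theorem wG_eq_zero {A k D β t : ℤ} {B : ℕ} (hβ : ¬ 2 * (N : ℤ) ∣ t - A * β) {R : Fm}
    (h : fbil (0, A, -k) R = t) : wG N B D β R = 0 := if_neg fun ⟨⟨a, ha⟩, _, b, hb⟩ => hβ
  ⟨A * b + k * a, by simp only [fbil] at h; linear_combination -h + A * hb + 2 * k * ha⟩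

section

variable {n p : ℕ} {t a e : ℤ}

lemma muP_mul [Fact p.Prime] (t a e : ℤ) : muP N p (p * t) (p * a) (p * e) =
    ∑ k : ZMod p, if N * a * k ^ 2 - t * k + e = 0 then quadraticChar (ZMod p) k else 0 := by
  have h : (p : ℤ) ≠ 0 := by exact_mod_cast (Fact.out : p.Prime).ne_zero
  rw [muP, if_pos (dvd_mul_right _ _), if_pos ⟨dvd_mul_right _ _, dvd_mul_right _ _⟩,
    ← sum_range_zmod]
  simp only [Int.mul_ediv_cancel_left _ h, jac_eq, ← ZMod.intCast_zmod_eq_zero_iff_dvd,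
    Int.cast_add, Int.cast_sub, Int.cast_mul, Int.cast_pow, Int.cast_natCast]

lemma muP_scale (hp : p.Prime) {c : ℤ} (hc : ¬ (p : ℤ) ∣ c) (t a e : ℤ) :
    muP N p t (c * a) e = J(c | p) * muP N p t a (c * e) := by
  have := Fact.mk hp
  have hP := Nat.prime_iff_prime_int.mp hp
  by_cases ht : (p : ℤ) ∣ t
  swap
  · rw [muP, muP, if_neg ht, if_neg ht, ← jacobiSym.mul_left]
    congr 1; ring
  by_cases h : (p : ℤ) ∣ a ∧ (p : ℤ) ∣ e
  swap
  · rw [muP, muP, if_pos ht, if_pos ht, if_neg, if_neg, mul_zero] <;> simpa [hP.dvd_mul, hc] using h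
  obtain ⟨⟨t, rfl⟩, ⟨a, rfl⟩, e, rfl⟩ := And.intro ht h
  have h0 : (c : ZMod p) ≠ 0 := by rwa [Ne, ZMod.intCast_zmod_eq_zero_iff_dvd]
  rw [mul_left_comm c, mul_left_comm c, muP_mul, muP_mul, mul_sum, jac_eq]
  refine Fintype.sum_equiv (Equiv.mulLeft₀ _ h0) _ _ fun k => ?_
  simp only [Equiv.mulLeft₀_apply, Int.cast_mul, map_mul, mul_ite, mul_zero, ← mul_assoc, ← sq,
    quadraticChar_sq_one h0, one_mul]
  exact if_congr ((mul_right_inj' h0).symm.trans (Eq.congr (by ring) (by ring))) rfl rfl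

lemma muP_swap (hn : n.Coprime (2 * N)) (hp : p ∈ n.primeFactors)
    (h : (p : ℤ) ∣ t ^ 2 - 4 * N * (a * e)) :
    muP N p t e a = J((N : ℤ) | p) * muP N p t a e := by
  have hp' := Nat.prime_of_mem_primeFactors hp
  have := Fact.mk hp'
  have hP := Nat.prime_iff_prime_int.mp hp'
  obtain ⟨h2, h15⟩ := ne_zero hn hp' (Nat.dvd_of_mem_primeFactors hp)
  by_cases ht : (p : ℤ) ∣ t
  swap
  · rw [muP, muP, if_neg ht, if_neg ht, ← jacobiSym.mul_left]
    rw [← ZMod.intCast_zmod_eq_zero_iff_dvd] at h ht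
    push_cast at h
    have h1 : (a : ZMod p) * e ≠ 0 := fun h1 => ht (by simpa [h1] using h)
    have h30 := mul_ne_zero h2 h15
    refine jac_of_sq hp' (k := 2) (l := 2 * N * t ^ 2) ?_ ?_ ?_ ?_ <;>
      rw [← ZMod.intCast_zmod_eq_zero_iff_dvd] <;> push_cast
    · exact mul_ne_zero (mul_ne_zero h30 (right_ne_zero_of_mul h1)) ht
    · exact mul_ne_zero h15 (mul_ne_zero (mul_ne_zero h30 (left_ne_zero_of_mul h1)) ht)
    · exact h2
    · linear_combination -4 * (N : ZMod p) ^ 2 * (t : ZMod p) ^ 2 * h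
  by_cases h : (p : ℤ) ∣ a ∧ (p : ℤ) ∣ e
  swap
  · rw [muP, muP, if_pos ht, if_pos ht, if_neg h, if_neg (mt And.symm h), mul_zero]
  obtain ⟨⟨t, rfl⟩, ⟨a, rfl⟩, e, rfl⟩ := And.intro ht h
  rw [muP_mul, muP_mul, mul_sum, jac_eq]
  refine Fintype.sum_equiv ((Equiv.mulLeft₀ _ h15).trans (Equiv.inv _)) _ _ fun k => ?_
  rcases eq_or_ne k 0 with rfl | hk
  · simp
  simp only [Equiv.trans_apply, Equiv.mulLeft₀_apply, Equiv.inv_apply, mul_ite, mul_zero,
    Int.cast_natCast, ← map_mul]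
  refine if_congr ((mul_right_inj' (inv_ne_zero (mul_ne_zero h15 (pow_ne_zero 2 hk)))).symm.trans
    (Eq.congr (by field_simp; ring) (by ring))) ?_ rfl
  rw [show N * (N * k)⁻¹ = k * k⁻¹ ^ 2 by field_simp, map_mul, map_pow,
    quadraticChar_sq_one (inv_ne_zero hk), mul_one]

lemma muW_one (n : ℕ) (t a e : ℤ) : muW N n 1 t a e = ∏ p ∈ n.primeFactors, muP N p t a e := by
  simp [muW]

lemma muW_neg_left (n : ℕ) (t a e : ℤ) : muW N n 1 (-t) a e = muW N n 1 t (-a) (-e) := by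
  rw [muW_one, muW_one]
  refine prod_congr rfl fun p hp => ?_
  have := Fact.mk (Nat.prime_of_mem_primeFactors hp)
  by_cases h : (p : ℤ) ∣ t ∧ (p : ℤ) ∣ a ∧ (p : ℤ) ∣ e
  · obtain ⟨⟨t, rfl⟩, ⟨a, rfl⟩, e, rfl⟩ := h
    simp only [← mul_neg, muP_mul, Int.cast_neg]
    exact sum_congr rfl fun k _ => if_congr (neg_inj.symm.trans (Eq.congr (by ring) neg_zero)) rfl rfl
  · simp only [muP, dvd_neg, mul_neg, neg_mul]
    split_ifs with h1 h2
    exacts [absurd ⟨h1, h2⟩ h, rfl, rfl]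

end

namespace CN

variable {A B : ℕ} {x β t e : ℤ}

theorem of_wG {R : Fm} (h : wG N A e β R ≠ 0) : Fam N e β R :=
  by_contra fun k => h (if_neg k)

theorem gza_P (hB : Squarefree B) (t a e : ℤ) : ∏ p ∈ B.primeFactors, muP N p t (-a) (-e) =
    J(-1 | B) * ∏ p ∈ B.primeFactors, muP N p t a e := by
  rw [jac_eq_prod _ hB, ← prod_mul_distrib]
  refine prod_congr rfl fun p hp => ?_
  have h1 := Nat.prime_of_mem_primeFactors hp
  simpa using muP_scale h1 (c := -1) (by rw [dvd_neg]; exact_mod_cast h1.not_dvd_one) t a (-e)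

theorem gza_neg_neg (hn : Good N (A * B)) (t a e : ℤ) :
    muW N B A t (-a) (-e) = -muW N B A t a e := by
  have h : J(-1 | A * B) = -1 := by
    rw [jacobiSym.at_neg_one hn.oddn, ZMod.χ₄_nat_three_mod_four hn.mod4]
  have hA := hn.sqf.of_mul_left
  have hB := hn.sqf.of_mul_right
  have k : ∏ p ∈ A.primeFactors, (if (p : ℤ) ∣ -a then J(-e | p) else J(N * -a | p)) =
      J(-1 | A) * ∏ p ∈ A.primeFactors, if (p : ℤ) ∣ a then J(e | p) else J(N * a | p) := by
    rw [jac_eq_prod _ hA, ← prod_mul_distrib]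
    refine prod_congr rfl fun p _ => ?_
    simp only [dvd_neg]
    split_ifs <;> rw [← jacobiSym.mul_left] <;> congr 1 <;> ring
  rw [jacobiSym.mul_right' _ hA.ne_zero hB.ne_zero] at h
  rw [muW, muW, gza_P hB, k, mul_mul_mul_comm, mul_comm J(-1 | B), h, neg_one_mul]

theorem gza_neg_left (hB : Squarefree B) (A : ℕ) (t a e : ℤ) :
    muW N B A (-t) a e = J(-1 | B) * muW N B A t a e := by
  rw [muW, muW, ← muW_one, muW_neg_left, muW_one, gza_P hB, mul_assoc]

theorem gza_cntL (hn : Good N (A * B)) (hs : J(-N | B) = -1) {M : ℕ} (h0 : 0 < M)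
    (hM : t ^ 2 - B ^ 2 * (A * x) = 4 * N * M) :
    cntL B (Ico (0 : ℤ) B) (fun k => J(k | B)) (wG N A (A * x) β) t =
      if 2 * (N : ℤ) ∣ t - B * β then -2 * J((N : ℤ) | A) * CF N (A * B) B t M else 0 := by
  split_ifs with h
  swap
  · exact sum_eq_zero fun k _ => mul_eq_zero_of_right _ (finsum_eq_zero_of_forall_eq_zero fun R =>
      ite_eq_right_iff.mpr fun h3 => by rw [wG_eq_zero h h3, zero_mul])
  have h1 := sum_lines (K := ℤ) (A := B) (B := A) hn.comm (by simp) hM.symm (by omega)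
    h fun a _ => a.sign
  have h2 := sum_muW (A := B) (B := A) (t := t) (M := M) hn.comm ⟨A * x, by linarith⟩
  rw [Int.divisorsAntidiag_natCast, sum_disjUnion, sum_map, sum_map, ← sum_add_distrib,
    sum_congr rfl (g := fun z : ℕ × ℕ => 2 * muW N B A t z.1 z.2) fun z hz => by
      have : (0 : ℤ) < z.1 := mod_cast Nat.pos_of_mem_divisors
        (Nat.fst_mem_divisors_of_mem_antidiagonal hz)
      simp [gza_neg_neg hn, Int.sign_eq_one_of_pos this, two_mul], ← mul_sum, h2, hs,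
    mul_comm B A] at h1
  rw [cntL, sum_Ico0]
  refine Eq.trans (sum_congr rfl fun k _ => congr_arg _ (finsum_congr fun R => ?_))
    (h1.trans (by ring))
  by_cases h3 : wG N A (A * x) β R = 0
  · simp [h3]
  obtain ⟨a, ha⟩ := (of_wG h3).1
  have h4 : (0 : ℤ) < N := mod_cast hn.lsq.ne_zero.bot_lt
  simp [ha, Int.sign_mul, Int.sign_eq_one_of_pos h4, Int.mul_ediv_cancel_left _ h4.ne']

theorem gza_sq (hn : Good N (A * B)) : J((N : ℤ) | A) ^ 2 = 1 :=
  jacobiSym.sq_one (by simpa [Int.gcd] using hn.cop.coprime_mul_right.symm)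

theorem gza_CF (hn : Good N (A * B)) (hs : J(-N | B) = -1) {M : ℕ}
    (h : (B : ℤ) ^ 2 ∣ t ^ 2 - 4 * N * M) :
    CF N (A * B) B (-t) M = J(-1 | B) * CF N (A * B) B t M := by
  have h1 := sum_muW (A := B) (B := A) (t := t) (M := M) hn.comm h
  have h2 := sum_muW (A := B) (B := A) (t := -t) (M := M) hn.comm (by simpa using h)
  simp only [gza_neg_left hn.sqf.of_mul_right, ← mul_sum, h1, hs, mul_comm B A] at h2
  linear_combination J((N : ℤ) | A) * h2 -
    (CF N (A * B) B (-t) M - J(-1 | B) * CF N (A * B) B t M) * gza_sq hn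


end CN

end Pool.Agent.G5
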