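import Pool.Agent.Lib.MP_696deb_nt.B5.CNa
import Pool.Agent.Lib.MP_696deb_nt.B5.CNc
import Pool.Agent.Lib.MP_696deb_nt.IndBeta

/-! The weighted number of normal forms. -/

set_option autoImplicit false

open Finset NumberTheorySymbols

namespace Pool.Agent.G5.CN

open Pool.Agent.Lib.MP_696deb_nt Tern
open Ind (omP swap_sum sum_cst sum_sq_eq)

section field

variable {F : Type*} [Field F] [Fintype F] [DecidableEq F]

theorem local_deep (h2 : ringChar F ≠ 2) {c : F} (h15 : c ≠ 0) {N τ m : F} (hN : N ≠ 0)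
    (hτ : τ ^ 2 = 4 * m * N) (e t : F) :
    (∑ j : F, if j ^ 2 * N - c = 0 then quadraticChar F (-t - e * j * τ) else 0) =
      (∑ s : F, if s ^ 2 - (t ^ 2 - 4 * c * (e ^ 2 * m)) = 0 then quadraticChar F (2 * (s - t))
        else 0) * (1 + if e ^ 2 * m = 0 then quadraticChar F (c * N) else 0) := by
  have h2' : (2 : F) ≠ 0 := Ring.two_ne_zero h2
  have h4 : (4 : F) ≠ 0 := by
    rw [show (4 : F) = 2 * 2 by norm_num]; exact mul_ne_zero h2' h2'
  have h5 : (e * τ) ^ 2 = 4 * N * (e ^ 2 * m) := by linear_combination e ^ 2 * hτ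
  by_cases hM : e ^ 2 * m = 0
  · have h6 : e * τ = 0 := by simpa [hM] using h5
    have h7 : ∀ j, -t - e * j * τ = -t := fun j => by linear_combination -j * h6
    simp only [h7, hM, if_true, mul_zero, sub_zero, sub_eq_zero (b := t ^ 2)]
    rw [sum_cst h2 hN]
    congr 1
    rcases eq_or_ne t 0 with rfl | ht
    · rw [sum_eq_single 0 (fun b _ hb => if_neg (by simpa using hb)) (by simp)]
      simp
    · rw [sum_sq_eq h2' _ ht, sub_self, mul_zero, MulChar.map_zero, zero_add,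
        show 2 * (-t - t) = 2 ^ 2 * -t by ring, map_mul, quadraticChar_sq_one' h2', one_mul]
  · have h6 : -(e * τ) ≠ 0 := fun h => mul_ne_zero (mul_ne_zero h4 hN) hM (by
      rw [← h5, neg_eq_zero.1 h]; simp)
    have h7 := swap_sum h2' (-t) (c := 4 * c * (e ^ 2 * m)) (mul_ne_zero (mul_ne_zero h4 h15) hM)
    rw [if_neg hM, add_zero, mul_one]
    refine Eq.trans ?_ (h7.trans (sum_congr rfl fun s _ => if_congr
      (by rw [neg_sq, sub_eq_zero]) (by congr 2; ring) rfl))
    refine Fintype.sum_equiv (Equiv.mulLeft₀ _ h6) _ _ fun j => if_congr ?_ (by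
      congr 1; simp; ring) rfl
    simp only [Equiv.mulLeft₀_apply]
    rw [mul_pow, neg_sq, h5]
    refine ⟨fun h => by linear_combination 4 * (e ^ 2 * m) * h, fun h => ?_⟩
    apply mul_left_cancel₀ (mul_ne_zero h4 hM)
    linear_combination h

end field

variable {N : ℕ}

theorem dvd_e {n d m y e p : ℕ} {t n2 : ℤ} (hn : Good N n) (hd : 4 * d = n + 1)
    (hy : m ∣ y ^ 2 + y + d) (ht : t ^ 2 - n * n2 = 4 * N * (e ^ 2 * m : ℕ)) (hp : p.Prime)
    (hpn : p ∣ n) (h1 : (p : ℤ) ∣ n2) (h2 : (p : ℤ) ∣ t) : p ∣ e := by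
  by_contra h
  have h3 : (p : ℤ) ^ 2 ∣ 4 * N * (e ^ 2 * m : ℕ) := ht ▸ dvd_sub (pow_dvd_pow_of_dvd h2 2)
    (by rw [sq]; exact mul_dvd_mul (Int.natCast_dvd_natCast.2 hpn) h1)
  have h4 : p ^ 2 ∣ 4 * N * e ^ 2 * m := by rw [mul_assoc]; exact_mod_cast h3
  have h5 : p.Coprime (4 * N) := by
    have := Nat.Coprime.coprime_dvd_left hpn hn.cop2
    exact Nat.Coprime.coprime_dvd_right ⟨N, by ring⟩ (this.pow_right 2)
  have h6 : p ^ 2 ∣ m := Nat.Coprime.dvd_of_dvd_mul_left
    ((h5.mul_right (((Nat.Prime.coprime_iff_not_dvd hp).2 h).pow_right 2)).pow_left 2) h4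
  have h7 : p ^ 2 ∣ (2 * y + 1) ^ 2 + n := by
    rw [show (2 * y + 1) ^ 2 + n = 4 * (y ^ 2 + y + d) by nlinarith]
    exact (h6.trans hy).mul_left 4
  have h8 : p ∣ 2 * y + 1 := hp.dvd_of_dvd_pow (n := 2)
    ((Nat.dvd_add_left hpn).1 ((dvd_pow_self p two_ne_zero).trans h7))
  have h9 : p * p ∣ n := by
    rw [← sq]; exact (Nat.dvd_add_right (pow_dvd_pow_of_dvd h8 2)).1 h7
  exact hp.one_lt.ne' (Nat.isUnit_iff.1 (hn.sqf p h9))

/-- The weighted number of ways to extend a binary form with a marked vector. -/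
theorem beta_count {n A d m y e : ℕ} {t n2 : ℤ} (hn : Good N n) (hd : 4 * d = n + 1)
    (hm : 0 < m) (he : 0 < e) (hy : m ∣ y ^ 2 + y + d) (hA : (A : ℤ) ∣ n2)
    (ht : t ^ 2 - n * n2 = 4 * N * (e ^ 2 * m : ℕ)) :
    (∑ j ∈ range n, if (n : ℤ) ∣ (j : ℤ) ^ 2 * nst n d m y - N ∧
        (n : ℤ) ∣ -t - e * j * tst n m y then
        ∏ p ∈ n.primeFactors, omP A t ((-t - e * j * tst n m y) / n) p else 0)
      = ∏ p ∈ n.primeFactors, lamP N n A t (e ^ 2 * m) p := by
  have h30 := hn.cop2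
  let f : ℕ → ℕ → ℤ := fun p j => if ((j : ZMod p) ^ 2 * nst n d m y - N = 0 ∧
      -(t : ZMod p) - e * j * tst n m y = 0) then omP A t
        ((n / p : ℕ) * (-(t / p) - (e / p : ℕ) * j * tst n m y)) p else 0
  have step : ∀ j : ℕ, (if (n : ℤ) ∣ (j : ℤ) ^ 2 * nst n d m y - N ∧
        (n : ℤ) ∣ -t - e * j * tst n m y then
        ∏ p ∈ n.primeFactors, omP A t ((-t - e * j * tst n m y) / n) p else 0)
      = ∏ p ∈ n.primeFactors, f p j := by
    intro j
    rw [prod_ite_zero]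
    have h1 : ((n : ℤ) ∣ (j : ℤ) ^ 2 * nst n d m y - N ∧ (n : ℤ) ∣ -t - e * j * tst n m y) ↔
        ∀ p ∈ n.primeFactors, ((j : ZMod p) ^ 2 * nst n d m y - N = 0 ∧
          -(t : ZMod p) - e * j * tst n m y = 0) := by
      rw [sqfree_dvd_iff hn.sqf, sqfree_dvd_iff hn.sqf, ← forall₂_and]
      refine forall₂_congr fun p _ => ?_
      simp only [← ZMod.intCast_zmod_eq_zero_iff_dvd]
      push_cast
      rfl
    refine if_ctx_congr h1 (fun h => prod_congr rfl fun p hp' => ?_) fun _ => rfl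
    obtain ⟨-, w, hw⟩ := h1.2 h
    have hp := Nat.prime_of_mem_primeFactors hp'
    have hpn := Nat.dvd_of_mem_primeFactors hp'
    refine if_ctx_congr Iff.rfl (fun h2 => if_ctx_congr Iff.rfl (fun h3 => ?_) fun _ => rfl)
      fun _ => rfl
    obtain ⟨e, rfl⟩ := dvd_e hn hd hy ht hp hpn ((Int.natCast_dvd_natCast.2 h2).trans hA) h3
    obtain ⟨t, rfl⟩ := h3
    have hp0 : (p : ℤ) ≠ 0 := by exact_mod_cast hp.ne_zero
    have h4 := jac_sq hp (not_dvd_div hn.sqf hp hpn)
    have h5 : (n : ℤ) = p * (n / p : ℕ) := by exact_mod_cast (Nat.mul_div_cancel' hpn).symm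
    have h6 : -t - e * j * tst n m y = (n / p : ℕ) * w := by
      apply mul_left_cancel₀ hp0
      push_cast at hw
      linear_combination hw + w * h5
    rw [hw, Int.mul_ediv_cancel_left _ (by exact_mod_cast hn.sqf.ne_zero),
      Int.mul_ediv_cancel_left _ hp0, Nat.mul_div_cancel_left _ hp.pos, h6, jacobiSym.mul_left,
      jacobiSym.mul_left, ← mul_assoc, ← sq, h4, one_mul]
  simp only [step]
  conv_lhs => enter [1, 1]; rw [← Nat.prod_primeFactors_of_squarefree hn.sqf]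
  rw [crt_prod _ (fun p hp => Nat.prime_of_mem_primeFactors hp) f (fun p hp x => by
    have := Fact.mk (Nat.prime_of_mem_primeFactors hp)
    simp only [f, omP, jac_eq, Int.cast_mul, Int.cast_sub, Int.cast_natCast, ZMod.natCast_mod])]
  refine prod_congr rfl fun p hp' => ?_
  have hp := Nat.prime_of_mem_primeFactors hp'
  have hpn := Nat.dvd_of_mem_primeFactors hp'
  have := Fact.mk hp
  obtain ⟨h2, h15⟩ := ne_zero h30 hp hpn
  have hp2 : p ≠ 2 := by rintro rfl; exact h2 rfl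
  have hch : ringChar (ZMod p) ≠ 2 := (ZMod.ringChar_zmod_n p).substr hp2
  have h4 : (4 : ZMod p) ≠ 0 := by
    rw [show (4 : ZMod p) = 2 * 2 by norm_num]; exact mul_ne_zero h2 h2
  have hN : (nst n d m y : ZMod p) ≠ 0 :=
    (ZMod.natCast_eq_zero_iff _ p).not.2 (not_dvd_nst hd hn.sqf hy hp hpn)
  have hτ : (tst n m y : ZMod p) ^ 2 = 4 * m * nst n d m y := by
    have := congrArg (Nat.cast : ℕ → ZMod p) (tst_sq hd hy)
    push_cast at this
    rw [(ZMod.natCast_eq_zero_iff n p).2 hpn] at this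
    linear_combination this
  have ht' : (t : ZMod p) ^ 2 = 4 * N * ((e : ZMod p) ^ 2 * m) := by
    have := congrArg (Int.cast : ℤ → ZMod p) ht
    push_cast at this
    rw [(ZMod.natCast_eq_zero_iff n p).2 hpn] at this
    linear_combination this
  have e1 : J((N : ℤ) | p) * hil n p (e ^ 2 * m : ℕ) =
      quadraticChar (ZMod p) (N * nst n d m y) := by
    have hgen : hil n p m = jacobiSym (nst n d m y) p :=
      (isHilb_hil n).genus hn.sqf hp hpn hp2 hm (tst_sq hd hy) (not_dvd_nst hd hn.sqf hy hp hpn)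
        (not_dvd_lam hn.sqf hp hpn)
    push_cast
    rw [hil_mul hp, hil_of_sq hn.sqf hp hpn (by exact_mod_cast he.ne'), one_mul, hgen, jac_eq,
      jac_eq, ← map_mul]
    push_cast
    rfl
  rw [lamP, e1]
  by_cases ht0 : (p : ℤ) ∣ t
  · have ht1 : (t : ZMod p) = 0 := (ZMod.intCast_zmod_eq_zero_iff_dvd _ p).2 ht0
    have hM : (e : ZMod p) ^ 2 * m = 0 := by
      rw [ht1] at ht'
      refine (mul_eq_zero.1 (ht'.symm.trans (by simp))).resolve_left ?_
      exact mul_ne_zero h4 h15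
    have heτ : ∀ j : ZMod p, -(t : ZMod p) - e * j * tst n m y = 0 := fun j => by
      have : ((e : ZMod p) * tst n m y) ^ 2 = 0 := by
        rw [mul_pow, hτ]; linear_combination 4 * (nst n d m y : ZMod p) * hM
      linear_combination -ht1 - j * (pow_eq_zero_iff two_ne_zero).1 this
    simp only [f, omP, heτ, and_true, if_pos ht0]
    by_cases hpA : p ∣ A
    · simp only [if_pos hpA]
      obtain ⟨e, rfl⟩ := dvd_e hn hd hy ht hp hpn ((Int.natCast_dvd_natCast.2 hpA).trans hA) ht0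
      have h6 : (p * e) ^ 2 * m / p ^ 2 = e ^ 2 * m := by
        rw [mul_pow, mul_assoc, Nat.mul_div_cancel_left _ (pow_pos hp.pos 2)]
      have h7 : p ^ 3 ∣ (p * e) ^ 2 * m ↔ (e : ZMod p) ^ 2 * m = 0 := by
        rw [mul_pow, mul_assoc, pow_succ, Nat.mul_dvd_mul_iff_left (pow_pos hp.pos 2),
          ← ZMod.natCast_eq_zero_iff]
        push_cast
        rfl
      have h8 := local_deep hch h15 hN hτ e ((t / p : ℤ) : ZMod p)
      rw [← sum_range_zmod, ← sum_range_zmod] at h8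
      simp only [sigP, h6, h7, Nat.mul_div_cancel_left _ hp.pos, jacobiSym.mul_left (n / p : ℕ),
        mul_assoc (J(_ | p)), ← ZMod.intCast_zmod_eq_zero_iff_dvd, jac_eq p (2 * _),
        jac_eq p (_ - _)]
      push_cast
      rw [← h8, mul_sum]
      exact sum_congr rfl fun j _ => by split_ifs <;> simp
    · have hM' : p ∣ e ^ 2 * m := (ZMod.natCast_eq_zero_iff _ p).1 (by exact_mod_cast hM)
      simp only [if_neg hpA, if_pos hM']
      rw [sum_range_zmod p (fun j => if j ^ 2 * nst n d m y - N = 0 then (1 : ℤ) else 0),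
        sum_cst hch hN, one_mul]
  · have ht1 : (t : ZMod p) ≠ 0 := (ZMod.intCast_zmod_eq_zero_iff_dvd _ p).not.2 ht0
    have hM : (e : ZMod p) ^ 2 * m ≠ 0 := fun h => ht1 (by simpa [h] using ht')
    have hM' : ¬ p ∣ e ^ 2 * m := (ZMod.natCast_eq_zero_iff _ p).not.1 (by exact_mod_cast hM)
    have he0 : (e : ZMod p) ≠ 0 := fun h0 => hM (by simp [h0])
    have hm0 : (m : ZMod p) ≠ 0 := fun h0 => hM (by simp [h0])
    simp only [f, omP, if_neg ht0, if_neg hM']
    generalize (tst n m y : ZMod p) = τ at *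
    generalize (nst n d m y : ZMod p) = K at *
    generalize (if p ∣ A then J(-2 * t | p) else 1) = k
    have hτ0 : τ ≠ 0 := by
      intro h0
      rw [h0] at hτ
      exact mul_ne_zero (mul_ne_zero h4 hm0) hN (by rw [← hτ]; simp)
    rw [sum_range_zmod p (fun j => if j ^ 2 * K - N = 0 ∧ -(t : ZMod p) - e * j * τ = 0 then k
      else 0), sum_eq_single (-(t : ZMod p) / (e * τ))]
    · rw [if_pos]
      refine ⟨?_, by field_simp; ring⟩
      have : (t : ZMod p) ^ 2 * K - N * (e * τ) ^ 2 = 0 := by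
        linear_combination K * ht' - N * (e : ZMod p) ^ 2 * hτ
      field_simp
      linear_combination this
    · intro j _ hne
      rw [if_neg]
      intro h0
      apply hne
      field_simp
      linear_combination (-1 : ZMod p) * h0.2
    · simp

open Classical in
/-- The finite set of parameters of normal forms. -/
noncomputable def canSet (N n d M : ℕ) (t : ℤ) : Finset (ℕ × ℕ × ℕ) :=
  (Icc 1 M ×ˢ range M ×ˢ range n).filter (CanOK N n d M t)

theorem mem_canSet {n d M : ℕ} {t : ℤ} (hM : 0 < M) {c : ℕ × ℕ × ℕ} :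
    c ∈ canSet N n d M t ↔ CanOK N n d M t c := by
  classical
  rw [canSet, mem_filter]
  refine ⟨fun h => h.2, fun h => ⟨?_, h⟩⟩
  obtain ⟨h1, h2, h3, -, h5, -, -⟩ := h
  simp only [mem_product, mem_Icc, mem_range]
  have := Nat.le_of_dvd hM h2
  exact ⟨⟨h1, by nlinarith⟩, h3.trans_le (Nat.div_le_self _ _), h5⟩

theorem sum_canSet {n A d M : ℕ} {t n2 : ℤ} (hn : Good N n) (hd : 4 * d = n + 1) (hM : 0 < M)
    (hA : (A : ℤ) ∣ n2) (ht : t ^ 2 - n * n2 = 4 * N * M) :
    ∑ c ∈ canSet N n d M (-t), ∏ p ∈ n.primeFactors, omP A t (canW n M (-t) c 0) p =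
      CF N n A t M := by
  classical
  rw [canSet, sum_filter, sum_product, CF, rr, ← sum_rho hd hn.sqf hM, sum_filter, sum_mul]
  refine sum_congr rfl fun e he => ?_
  have he0 : 0 < e := (mem_Icc.1 he).1
  by_cases h2 : e ^ 2 ∣ M
  swap
  · rw [if_neg h2, zero_mul]
    exact sum_eq_zero fun q _ => if_neg fun h => h2 h.2.1
  rw [if_pos h2, sum_product, rho, sum_mul]
  have hm : e ^ 2 * (M / e ^ 2) = M := Nat.mul_div_cancel' h2
  have hm0 : 0 < M / e ^ 2 := Nat.pos_of_mul_pos_left (hm.symm ▸ hM)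
  rw [← sum_subset (range_subset_range.2 (Nat.div_le_self M (e ^ 2)))]
  · refine sum_congr rfl fun y hy => ?_
    by_cases h4 : M / e ^ 2 ∣ y ^ 2 + y + d
    swap
    · rw [if_neg h4, zero_mul]
      exact sum_eq_zero fun q _ => if_neg fun h => h4 h.2.2.2.1
    have := beta_count hn hd hm0 he0 h4 hA (t := t) (by rw [hm]; exact ht)
    rw [hm] at this
    rw [if_pos h4, one_mul, ← this]
    refine sum_congr rfl fun j hj => if_congr ?_ rfl rfl
    exact ⟨fun h => h.2.2.2.2.2, fun h => ⟨he0, h2, mem_range.1 hy, h4, mem_range.1 hj, h⟩⟩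
  · intro y _ hy
    exact sum_eq_zero fun q _ => if_neg fun h => hy (mem_range.2 h.2.2.1)

end Pool.Agent.G5.CN
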