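import Pool.Agent.Lib.MP_696deb_nt.B5.CNc
import Pool.Agent.Lib.MP_696deb_nt.IndStab

/-! The automorphisms of the ternary form attached to level `N`. -/

set_option autoImplicit false

open Finset Matrix NumberTheorySymbols

namespace Pool.Agent.G5.CN

open Pool.Agent.Lib.MP_696deb_nt Tern
open Ind (mulVec_three eq_sq_of fbil_self)

/-- The ternary form attached to level `N`. -/
def H0 (N : ℕ) : M3 := form 0 N 0 0 (-1) 0

/-- The form of level `N` attached to a vector. -/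
def frm (N : ℕ) (x : V3) : Fm := (N * x 0, x 1, x 2)

variable {N : ℕ}

theorem evM_H0 : EvM N (H0 N) := evM_form (by ring)

theorem exists_frm {Q : Fm} (h : (N : ℤ) ∣ Q.1) : ∃ x, frm N x = Q := by
  obtain ⟨a, ha⟩ := h
  exact ⟨![a, Q.2.1, Q.2.2], Prod.ext ha.symm rfl⟩

theorem bil_H0 (x y : V3) : bil (H0 N) x y = -fbil (frm N x) (frm N y) := by
  rw [H0, bil_form]
  simp only [fbil, frm]
  ring

/-- The automorphism attached to a matrix of determinant `u`, where `u v = N`. -/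
def alG (u v a b c d : ℤ) (h : u * a * d - v * b * c = 1) : SL3 :=
  ⟨!![u * a ^ 2, a * c, v * c ^ 2; 2 * (u * v) * a * b, u * a * d + v * b * c, 2 * (u * v) * c * d;
    v * b ^ 2, b * d, u * d ^ 2], by
    simp [det_fin_three]
    linear_combination ((u * a * d - v * b * c) ^ 2 + (u * a * d - v * b * c) + 1) * h⟩

theorem alG_H0 {u v a b c d : ℤ} (h : u * a * d - v * b * c = 1) (hN : u * v = N) :
    (alG u v a b c d h).1 * H0 N * (alG u v a b c d h).1ᵀ = H0 N := by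
  have h2 : (u * a * d - v * b * c) ^ 2 = 1 := by rw [h]; norm_num
  have h3 : u * v * (u * a * d - v * b * c) ^ 2 = u * v := by rw [h]; norm_num
  ext i j
  fin_cases i <;> fin_cases j <;> simp [alG, H0, form, mul_apply, Fin.sum_univ_three, ← hN] <;>
    linarith

theorem frm_alG {a b c d : ℤ} (h : 1 * a * d - N * b * c = 1) (x : V3) :
    frm N ((alG 1 N a b c d h).1 *ᵥ x) = fmap (frm N x) a b (N * c) d := by
  simp only [frm, fmap, fval, mulVec_three]
  refine Prod.ext ?_ (Prod.ext ?_ ?_) <;> simp [alG] <;> ring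

theorem exists_sign {x : V3} (h : x 0 ≠ 0) :
    ∃ g : SL3, g.1 * H0 N * g.1ᵀ = H0 N ∧ 0 < (g.1 *ᵥ x) 0 ∧ (g.1 *ᵥ x) 1 = x 1 := by
  rcases lt_or_gt_of_ne h with h | h
  · refine ⟨⟨!![-1, 0, 0; 0, 1, 0; 0, 0, -1], by decide⟩, ?_,
      by simpa [mulVec_three] using h, by simp [mulVec_three]⟩
    ext i j
    fin_cases i <;> fin_cases j <;> simp [H0, form, mul_apply, Fin.sum_univ_three]
  · exact ⟨1, by simp, by simpa using h, by simp⟩

theorem exists_orient (hN : Squarefree N) (ho : Odd N) {x : V3} {ρ : ℤ}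
    (h : 4 * (N : ℤ) ∣ x 1 ^ 2 - ρ ^ 2) :
    ∃ g : SL3, g.1 * H0 N * g.1ᵀ = H0 N ∧ 2 * (N : ℤ) ∣ (g.1 *ᵥ x) 1 - ρ := by
  rw [show x 1 ^ 2 - ρ ^ 2 = (x 1 + ρ) * (x 1 - ρ) by ring] at h
  have h2 : 2 ∣ x 1 - ρ := by
    have := Int.prime_two.dvd_or_dvd (Dvd.dvd.trans ⟨2 * N, by ring⟩ h)
    omega
  obtain ⟨u, v, ⟨i, hi⟩, ⟨j, hj⟩, e⟩ := exists_dvd_and_dvd_of_dvd_mul ((dvd_mul_left _ _).trans h)
  obtain ⟨a, b, hc⟩ : IsCoprime u v :=
    (IsRelPrime.of_squarefree_mul (e ▸ Int.squarefree_natCast.2 hN)).isCoprime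
  refine ⟨alG u v a (-b) 1 1 (by linear_combination hc), alG_H0 _ e.symm, ?_⟩
  have h3 : 2 * (N : ℤ) ∣ (u * a - v * b) * x 1 - ρ := by
    refine (Int.isCoprime_two_left.2 (by exact_mod_cast ho)).mul_dvd ?_ ⟨a * j - b * i, ?_⟩
    · obtain ⟨k, hk⟩ := h2
      exact ⟨k - v * b * x 1, by linear_combination hk + x 1 * hc⟩
    · rw [e]
      linear_combination a * u * hj - b * v * hi + ρ * hc
  obtain ⟨k, hk⟩ := h3
  refine ⟨k - a * b * x 0 + x 2, ?_⟩
  simp [alG, mulVec_three]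
  rw [e] at hk ⊢
  linear_combination hk

/-- Automorphisms that keep the sign and the orientation come from the congruence subgroup. -/
theorem stab (hN : Odd N) {g : SL3} (hg : g.1 * H0 N * g.1ᵀ = H0 N) {x : V3}
    (hx : fdisc (frm N x) < 0)
    (h0 : 0 < x 0) (h1 : 0 < (g.1 *ᵥ x) 0) (h2 : 2 * (N : ℤ) ∣ (g.1 *ᵥ x) 1 - x 1)
    (h3 : IsCoprime (N : ℤ) (x 1)) : ∃ a b c d : ℤ, a * d - b * (N * c) = 1 ∧
      ∀ y, frm N (g.1 *ᵥ y) = fmap (frm N y) a b (N * c) d := by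
  have N0 : (0 : ℤ) < N := by exact_mod_cast hN.pos
  have N2 : IsCoprime (N : ℤ) 2 := Int.isCoprime_two_right.2 (by exact_mod_cast hN)
  obtain ⟨g, hd⟩ := g
  simp only at hg h1 h2 ⊢
  have ha : H0 N * gᵀ = g.adjugate * H0 N := by
    conv_rhs => rw [← hg, ← Matrix.mul_assoc, ← Matrix.mul_assoc, adjugate_mul, hd, one_smul,
      Matrix.one_mul]
  have a00 := congrFun (congrFun ha 0) 0
  have a01 := congrFun (congrFun ha 0) 1
  have a11 := congrFun (congrFun ha 1) 1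
  have a21 := congrFun (congrFun ha 2) 1
  have a22 := congrFun (congrFun ha 2) 2
  have r00 := congrFun (congrFun hg 0) 0
  have r02 := congrFun (congrFun hg 0) 2
  have r22 := congrFun (congrFun hg 2) 2
  simp [H0, form, mul_apply, Fin.sum_univ_three, adjugate_fin_three] at a00 a01 a11 a21 a22 r00 r02
  simp [H0, form, mul_apply, Fin.sum_univ_three] at r22
  rw [mulVec_three] at h1 h2
  simp only [fdisc, frm] at hx
  have e10 : g 1 0 = 2 * N * (g 0 0 * g 2 1 - g 0 1 * g 2 0) := by linarith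
  have e12 : g 1 2 = 2 * N * (g 0 1 * g 2 2 - g 0 2 * g 2 1) := by linarith
  obtain ⟨k, hk⟩ : (N : ℤ) ∣ g 1 1 - 1 := by
    obtain ⟨k, hk⟩ := h2
    refine h3.dvd_of_dvd_mul_right ⟨2 * k - 2 * (g 0 0 * g 2 1 - g 0 1 * g 2 0) * x 0 -
      2 * (g 0 1 * g 2 2 - g 0 2 * g 2 1) * x 2, ?_⟩
    linear_combination hk - x 0 * e10 - x 2 * e12
  obtain ⟨c2, hc2⟩ : (N : ℤ) ∣ g 0 2 := N2.dvd_of_dvd_mul_left
    ⟨2 * g 0 1 * (g 0 1 * g 2 2 - g 0 2 * g 2 1) - k * g 0 2, by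
      linear_combination -a00 + g 0 1 * e12 - g 0 2 * hk⟩
  obtain ⟨b2, hb2⟩ : (N : ℤ) ∣ g 2 0 := N2.dvd_of_dvd_mul_left
    ⟨2 * g 2 1 * (g 0 0 * g 2 1 - g 0 1 * g 2 0) - k * g 2 0, by
      linear_combination -a22 + g 2 1 * e10 - g 2 0 * hk⟩
  rw [hc2] at r00 r02 h1
  rw [hb2] at r02 r22
  have s0 : g 0 0 * c2 = g 0 1 ^ 2 := mul_left_cancel₀ N0.ne' (by linarith)
  have s2 : b2 * g 2 2 = g 2 1 ^ 2 := mul_left_cancel₀ N0.ne' (by linarith)
  have s1 : g 0 0 * g 2 2 + N ^ 2 * b2 * c2 - 2 * N * g 0 1 * g 2 1 = 1 := by linarith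
  have hc : IsCoprime (g 0 0) c2 :=
    ⟨g 2 2 * (2 - (g 0 0 * g 2 2 + N ^ 2 * b2 * c2)) + 4 * N ^ 2 * c2 * g 2 1 ^ 2,
      N ^ 2 * b2 * (2 - (g 0 0 * g 2 2 + N ^ 2 * b2 * c2)), by
      linear_combination 4 * N ^ 2 * g 2 1 ^ 2 * s0 +
        (1 - (g 0 0 * g 2 2 + N ^ 2 * b2 * c2) - 2 * N * g 0 1 * g 2 1) * s1⟩
  have hpos : 0 ≤ g 0 0 ∧ 0 ≤ c2 := by
    have h4 : 0 ≤ g 0 0 * c2 := s0 ▸ sq_nonneg _
    refine (mul_nonneg_iff.1 h4).resolve_right fun h5 => ?_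
    have h6 : 0 < x 2 := by nlinarith only [hx, mul_pos N0 h0, sq_nonneg (x 1)]
    have h7 : (g 0 1 * x 1) ^ 2 ≤ (-(g 0 0 * x 0 + N * c2 * x 2)) ^ 2 := by
      rw [mul_pow, ← s0]
      nlinarith only [mul_le_mul_of_nonneg_left (sub_neg.1 hx).le h4,
        sq_nonneg (g 0 0 * x 0 - N * c2 * x 2)]
    have h8 := abs_le_of_sq_le_sq h7 (by
      nlinarith only [mul_nonneg (neg_nonneg.2 h5.1) h0.le, mul_nonneg (neg_nonneg.2 h5.2)
        (mul_pos N0 h6).le])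
    linarith [le_abs_self (g 0 1 * x 1)]
  obtain ⟨a, ha⟩ := eq_sq_of hc s0 hpos.1
  obtain ⟨c, hc', hac⟩ : ∃ c, c2 = c ^ 2 ∧ g 0 1 = a * c := by
    obtain ⟨c, hc'⟩ := eq_sq_of hc.symm (by rw [mul_comm, s0]) hpos.2
    rcases sq_eq_sq_iff_eq_or_eq_neg.1 (show g 0 1 ^ 2 = (a * c) ^ 2 by
      rw [← s0, ha, hc']; ring) with h | h
    · exact ⟨c, hc', h⟩
    · exact ⟨-c, by rw [hc']; ring, by rw [h]; ring⟩
  rw [ha, hc', hac] at s1
  obtain ⟨d, hd'⟩ : ∃ d, d = a * g 2 2 - N * c * g 2 1 := ⟨_, rfl⟩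
  obtain ⟨b, hb'⟩ : ∃ b, b = a * g 2 1 - N * c * b2 := ⟨_, rfl⟩
  have h : a * d - b * (N * c) = 1 := by rw [hd', hb']; linear_combination s1
  have e22 : g 2 2 = d ^ 2 := by rw [hd']; linear_combination -g 2 2 * s1 + N ^ 2 * c ^ 2 * s2
  have e21 : g 2 1 = b * d := by
    rw [hd', hb']; linear_combination -g 2 1 * s1 + N * a * c * s2
  have e20 : b2 = b ^ 2 := by rw [hb']; linear_combination -b2 * s1 + a ^ 2 * s2
  refine ⟨a, b, c, d, h, fun y => ?_⟩
  have f10 : g 1 0 = 2 * N * a * b := by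
    rw [e10, ha, hac, hb2, e21, e20]; linear_combination 2 * N * a * b * h
  have f12 : g 1 2 = 2 * N * c * d := by
    rw [e12, hac, hc2, hc', e21, e22]; linear_combination 2 * N * c * d * h
  have f11 : g 1 1 = a * d + N * b * c := by
    have : g 1 1 = g 0 0 * g 2 2 - g 0 2 * g 2 0 := mul_left_cancel₀ N0.ne' (by linarith)
    rw [this, ha, hc2, hc', hb2, e22, e20]; linear_combination (a * d + N * b * c) * h
  simp only [frm, fmap, fval, mulVec_three, ha, hac, hc2, hc', hb2, e22, e21, e20, f10, f11, f12]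
  refine Prod.ext ?_ (Prod.ext ?_ ?_) <;> simp only <;> ring

/-- There are no elliptic elements that fix a special point. -/
theorem free_neg {n : ℕ} (hn : Squarefree n) (h4 : n % 4 = 3) (h3 : n ≠ 3) {Q : Fm}
    (hD : fdisc Q = -n) {a b c d : ℤ} (h : a * d - b * c = 1)
    (e : fmap Q a b c d = Q) (R : Fm) : fmap R a b c d = R := by
  obtain ⟨α, β, γ⟩ := Q
  simp only [fmap, fval, fdisc, Prod.mk.injEq] at e hD
  obtain ⟨e1, e2, e3⟩ := e
  have n0 : (0 : ℤ) < n := by omega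
  have hα : α ≠ 0 := by
    rintro rfl
    nlinarith only [hD, sq_nonneg β, n0]
  have u1 : α * (a - d) + β * c = 0 := by
    linarith [show 2 * α * a + β * c = 2 * α * d - β * c by
      linear_combination 2 * d * e1 - c * e2 - (2 * α * a + β * c) * h]
  have u2 : α * b + γ * c = 0 := by
    linarith [show β * a + 2 * γ * c = β * a - 2 * α * b by
      linear_combination a * e2 - 2 * b * e1 - (β * a + 2 * γ * c) * h]
  have u3 : α ^ 2 * (4 - (a + d) ^ 2) = c ^ 2 * n := by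
    linear_combination -4 * α ^ 2 * h - (α * (a - d) - β * c) * u1 - 4 * α * c * u2 - c ^ 2 * hD
  have hc : c = 0 := by
    by_contra hc
    have h1 : 0 < c ^ 2 * n := by positivity
    have h2 : (a + d) ^ 2 < 4 := by nlinarith only [u3, h1, sq_nonneg α]
    have h5 : -2 < a + d := by nlinarith only [h2]
    have h6 : a + d < 2 := by nlinarith only [h2]
    generalize a + d = s at u3 h5 h6
    obtain ⟨w, hw⟩ : c ∣ α * (4 - s ^ 2) := (Int.pow_dvd_pow_iff two_ne_zero).1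
      ⟨n * (4 - s ^ 2), by linear_combination (4 - s ^ 2) * u3⟩
    have h7 : w ^ 2 = n * (4 - s ^ 2) := mul_left_cancel₀ (pow_ne_zero 2 hc) (by
      linear_combination (4 - s ^ 2) * u3 - (α * (4 - s ^ 2) + c * w) * hw)
    have h8 : ∀ k : ℤ, k * k ∣ n → k ^ 2 = 1 := fun k hk => by
      rcases Int.isUnit_iff.1 (Int.squarefree_natCast.2 hn k hk) with rfl | rfl <;> norm_num
    have h9 : w ^ 2 = n * 3 → False := fun h9 => by
      obtain ⟨k, rfl⟩ : (3 : ℤ) ∣ w := Int.prime_three.dvd_of_dvd_pow (n := 2) ⟨n, by linarith⟩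
      have h10 := h8 k ⟨3, by linarith⟩
      have : (n : ℤ) = 3 := by linarith
      omega
    interval_cases s
    · exact h9 (by linarith)
    · obtain ⟨k, rfl⟩ : (2 : ℤ) ∣ w := Int.prime_two.dvd_of_dvd_pow (n := 2) ⟨2 * n, by linarith⟩
      have h10 := h8 k ⟨1, by linarith⟩
      have : (n : ℤ) = 1 := by linarith
      omega
    · exact h9 (by linarith)
  subst hc
  have hb : b = 0 := by simpa [hα] using u2
  subst hb
  have h1 : a * d = 1 := by simpa using h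
  have h2 : a = d := by simpa [hα, sub_eq_zero] using u1
  subst h2
  simp only [fmap, fval]
  refine Prod.ext ?_ (Prod.ext ?_ ?_) <;> simp only
  · linear_combination R.1 * h1
  · linear_combination R.2.1 * h1
  · linear_combination R.2.2 * h1

end Pool.Agent.G5.CN
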