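import Pool.Agent.Lib.MP_696deb_nt.IndIso

/-! There is one class of ternary forms that are split at the primes of the discriminant. -/

set_option autoImplicit false

open Matrix

namespace Pool.Agent.G5

open Pool.Agent.Lib.MP_696deb_nt Tern Ind

variable {a b c s1 s2 r : ℤ}

theorem act_form (g : M3) (a b c s1 s2 r : ℤ) : ∃ a' b' c' s1' s2' r',
    g * form a b c s1 s2 r * gᵀ = form a' b' c' s1' s2' r' := by
  let Q : Fin 3 → ℤ := fun i => a * g i 0 ^ 2 + b * g i 1 ^ 2 + c * g i 2 ^ 2 + s1 * g i 0 * g i 1 +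
    s2 * g i 0 * g i 2 + r * g i 1 * g i 2
  let B : Fin 3 → Fin 3 → ℤ := fun i j => (g * form a b c s1 s2 r * gᵀ) i j
  refine ⟨Q 0, Q 1, Q 2, B 0 1, B 0 2, B 1 2, ?_⟩
  ext i j
  fin_cases i <;> fin_cases j <;> simp [Q, B, form, mul_apply, Fin.sum_univ_three] <;> ring

theorem det_act (g : SL3) (G : M3) : (g.1 * G * g.1ᵀ).det = G.det := by
  rw [det_mul, det_mul, det_transpose, g.2, one_mul, mul_one]

theorem zero_of_min1
    (hd : 4 * a * b * c + s1 * s2 * r - a * r ^ 2 - b * s2 ^ 2 - c * s1 ^ 2 = -1)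
    (hm : ∀ v : V3, Int.gcd (v 1) (v 2) = 1 → (2 * a) ^ 2 ≤ (v ⬝ᵥ (form a b c s1 s2 r *ᵥ v)) ^ 2) :
    a = 0 := by
  by_contra ha
  obtain ⟨y, z, y', z', h1, h2⟩ :=
    binary_small (4 * a * b - s1 ^ 2) (2 * a * r - s1 * s2) (4 * a * c - s2 ^ 2)
  rw [show (2 * a * r - s1 * s2) ^ 2 - (4 * a * b - s1 ^ 2) * (4 * a * c - s2 ^ 2) = 4 * a by
    linear_combination (-4 * a) * hd] at h2
  obtain ⟨x, hx⟩ := exists_round ha (s1 * y + s2 * z)
  have h3 := hm ![x, y, z] (Int.isCoprime_iff_gcd_eq_one.1 ⟨z', -y', by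
    simp only [cons_val_one, cons_val_zero, cons_val]; linear_combination h1⟩)
  rw [quad_form] at h3
  simp only [cons_val_one, cons_val_zero, cons_val] at h3
  have h4 : 4 * a * (a * x ^ 2 + b * y ^ 2 + c * z ^ 2 + s1 * x * y + s2 * x * z + r * y * z) =
      (2 * a * x + (s1 * y + s2 * z)) ^ 2 + ((4 * a * b - s1 ^ 2) * y ^ 2 +
        2 * (2 * a * r - s1 * s2) * y * z + (4 * a * c - s2 ^ 2) * z ^ 2) := by ring
  generalize a * x ^ 2 + b * y ^ 2 + c * z ^ 2 + s1 * x * y + s2 * x * z + r * y * z = q at *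
  generalize 2 * a * x + (s1 * y + s2 * z) = u at *
  generalize (4 * a * b - s1 ^ 2) * y ^ 2 + 2 * (2 * a * r - s1 * s2) * y * z +
    (4 * a * c - s2 ^ 2) * z ^ 2 = A at *
  have h5 : (a ^ 2) ^ 2 ≤ (a * q) ^ 2 := by nlinarith only [h3, sq_nonneg a]
  have hu := sq_nonneg u
  have h6 : (3 * a ^ 2) ^ 2 ≤ A ^ 2 := by
    rcases sq_cases h5 with h | h
    · have : 3 * a ^ 2 ≤ A := by linarith only [h.1, h4, hx]
      nlinarith only [this, sq_nonneg a]
    · have : A ≤ -(3 * a ^ 2) := by nlinarith only [h.2, h4, hu, sq_nonneg a]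
      nlinarith only [this, sq_nonneg a]
  have h7 : 1 ≤ a ^ 2 := by have := sq_pos_of_ne_zero ha; omega
  have h8 : a ≤ a ^ 2 := by nlinarith only [sq_nonneg (2 * a - 1), h7]
  have h9 : -a ≤ a ^ 2 := by nlinarith only [sq_nonneg (2 * a + 1), h7]
  rcases h2 with h | h <;> nlinarith only [h, h6, h7, h8, h9]

/-- The form has a nontrivial zero. -/
def Iso3 (a b c s1 s2 r : ℤ) : Prop := ∃ x y z : ℤ, (x ≠ 0 ∨ y ≠ 0 ∨ z ≠ 0) ∧
  a * x ^ 2 + b * y ^ 2 + c * z ^ 2 + s1 * x * y + s2 * x * z + r * y * z = 0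

theorem iso3_one (hd : 4 * a * b * c + s1 * s2 * r - a * r ^ 2 - b * s2 ^ 2 - c * s1 ^ 2 = -1) :
    Iso3 a b c s1 s2 r := by
  obtain ⟨g, -, h2⟩ := exists_minimalFor_of_wellFoundedLT (fun _ : SL3 => True)
    (fun g => ((g.1 * form a b c s1 s2 r * g.1ᵀ) 0 0).natAbs) ⟨1, trivial⟩
  obtain ⟨a', b', c', s1', s2', r', e⟩ := act_form g.1 a b c s1 s2 r
  have h1 := det_act g (form a b c s1 s2 r)
  rw [e, det_form, det_form, hd] at h1
  obtain rfl : a' = 0 := zero_of_min1 (mul_left_cancel₀ two_ne_zero h1) fun v hv => by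
    obtain ⟨h, hh⟩ := exists_row (v := v) (by rw [hv]; simp) (form a' b' c' s1' s2' r')
    have h3 := not_lt.1 fun hlt => (h2 (j := h * g) trivial (le_of_lt hlt)).not_gt hlt
    simp only [act_act, e, hh] at h3
    rw [sq_le_sq, ← Int.natCast_natAbs, ← Int.natCast_natAbs]
    exact_mod_cast h3
  refine ⟨g.1 0 0, g.1 0 1, g.1 0 2, ?_, ?_⟩
  · by_contra! k
    have := g.2
    rw [det_fin_three, k.1, k.2.1, k.2.2] at this
    simp at this
  · have := congrFun (congrFun e 0) 0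
    simp [form, mul_apply, Fin.sum_univ_three] at this
    linarith

theorem iso3_step {l N ρ : ℤ} (hl : Prime l) (hc : l ∣ c) (hρ : ¬ l ∣ ρ)
    (h : l ∣ ρ ^ 2 + (4 * b * c - r ^ 2))
    (hd : 4 * a * b * c + s1 * s2 * r - a * r ^ 2 - b * s2 ^ 2 - c * s1 ^ 2 = -(l * N))
    (ih : ∀ a' b' c' s1' s2' r' : ℤ, 4 * b' * c' - r' ^ 2 = 4 * b * c - r ^ 2 →
      4 * a' * b' * c' + s1' * s2' * r' - a' * r' ^ 2 - b' * s2' ^ 2 - c' * s1' ^ 2 = -N →
      Iso3 a' b' c' s1' s2' r') : Iso3 a b c s1 s2 r := by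
  obtain ⟨c, rfl⟩ := hc
  obtain ⟨k, hk⟩ := h
  have h1 : ¬ l ∣ r := fun ⟨t, e⟩ => hρ (hl.dvd_of_dvd_pow (n := 2)
    ⟨k - 4 * b * c + t * r, by linear_combination hk + r * e⟩)
  obtain ⟨u, v, huv⟩ := hl.irreducible.coprime_iff_not_dvd.2 h1
  obtain ⟨A, hA⟩ : l ∣ a + s1 * (-s2 * v) + b * (-s2 * v) ^ 2 :=
    (hl.dvd_or_dvd (a := r ^ 2) ⟨N + 4 * a * b * c - c * s1 ^ 2 + s1 * s2 * u * r -
      b * s2 ^ 2 * u * (1 + v * r), by
        linear_combination -hd + (b * s2 ^ 2 * (1 + v * r) - s1 * s2 * r) * huv⟩).resolve_left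
      fun e => h1 (hl.dvd_of_dvd_pow e)
  obtain ⟨x, y, z, h2, h3⟩ := ih A (l * b) c (s1 + 2 * b * (-s2 * v)) (s2 * u) r (by ring)
    (mul_left_cancel₀ hl.ne_zero (by
      linear_combination hd - (4 * l * b * c - r ^ 2) * hA + (s1 * s2 * r - b * s2 ^ 2 *
        (1 + u * l + v * r) + 2 * b * s2 ^ 2 * (1 - u * l) * 0) * huv))
  refine ⟨x, -s2 * v * x + l * y, z, ?_, ?_⟩
  · by_contra! k
    obtain ⟨rfl, k1, rfl⟩ := k
    simp [hl.ne_zero] at k1 h2
    exact h2 k1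
  · linear_combination l * h3 + x ^ 2 * hA - s2 * x * z * huv

theorem iso3 {n ρ : ℤ} (N : ℕ) (hN : Odd N) (hc : IsCoprime (N : ℤ) ρ) (h : (N : ℤ) ∣ ρ ^ 2 + n)
    (a b c s1 s2 r : ℤ) (hn : 4 * b * c - r ^ 2 = n)
    (hd : 4 * a * b * c + s1 * s2 * r - a * r ^ 2 - b * s2 ^ 2 - c * s1 ^ 2 = -N) :
    Iso3 a b c s1 s2 r := by
  induction N using induction_on_primes generalizing a b c s1 s2 r with
  | zero => simp at hN
  | one => exact iso3_one hd
  | prime_mul l N hl ih =>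
    push_cast at hc h hd
    have hP := Nat.prime_iff_prime_int.1 hl
    have h1 : ¬ (l : ℤ) ∣ ρ := hP.irreducible.coprime_iff_not_dvd.1 hc.of_mul_left_left
    have h2 := (dvd_mul_right _ _).trans h
    have h3 := ih (Nat.odd_mul.1 hN).2 hc.of_mul_left_right ((dvd_mul_left _ _).trans h)
    by_cases hb : (l : ℤ) ∣ b
    · obtain ⟨x, y, z, k1, k2⟩ := iso3_step (a := a) (b := c) (c := b) (s1 := s2) (s2 := s1) (r := r)
        hP hb h1 (by rwa [mul_right_comm, hn]) (by linear_combination hd)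
        fun a' b' c' s1' s2' r' e => h3 a' b' c' s1' s2' r' (by linear_combination e + hn)
      exact ⟨x, z, y, by tauto, by linear_combination k2⟩
    have h4 : ¬ (l : ℤ) ∣ 2 * b := fun e => (hP.dvd_or_dvd e).elim (fun e => by
      have := (Nat.prime_dvd_prime_iff_eq hl Nat.prime_two).1 (by exact_mod_cast e)
      have := (Nat.odd_mul.1 hN).1
      subst l
      exact absurd this (by decide)) hb
    obtain ⟨u, v, huv⟩ := hP.irreducible.coprime_iff_not_dvd.2 h4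
    obtain ⟨k, hk⟩ := h2
    obtain ⟨x, y, z, k1, k2⟩ := iso3_step (a := a) (b := b)
      (c := b * (v * (ρ - r)) ^ 2 + r * (v * (ρ - r)) + c) (s1 := s1) (s2 := s2 + s1 * (v * (ρ - r)))
      (r := 2 * b * (v * (ρ - r)) + r) hP ((hP.dvd_or_dvd (a := (2 * b) ^ 2) ⟨b * (k -
        u * (ρ - r) * (2 * ρ - u * l * (ρ - r))), by
          linear_combination b * hk + b * hn + b * (ρ - r) * (2 * ρ - 2 * u * l * (ρ - r) +
            (ρ - r) * (u * l + v * (2 * b) - 1)) * huv⟩).resolve_left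
        fun e => h4 (hP.dvd_of_dvd_pow e)) h1 ⟨k, by linear_combination hk + hn⟩
      (by linear_combination hd)
      fun a' b' c' s1' s2' r' e => h3 a' b' c' s1' s2' r' (by linear_combination e + hn)
    refine ⟨x, y + v * (ρ - r) * z, z, ?_, by linear_combination k2⟩
    by_contra! k
    obtain ⟨rfl, k3, rfl⟩ := k
    simp at k1 k3
    exact k1 k3

/-- Isotropic forms of squarefree discriminant. -/
theorem iso_of_iso3 {N : ℕ} (hN : Squarefree N)
    (hd : 4 * a * b * c + s1 * s2 * r - a * r ^ 2 - b * s2 ^ 2 - c * s1 ^ 2 = -N)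
    (h : Iso3 a b c s1 s2 r) :
    ∃ g : SL3, g.1 * form a b c s1 s2 r * g.1ᵀ = form 0 N 0 0 (-1) 0 := by
  obtain ⟨x, y, z, h0, h1⟩ := h
  obtain ⟨w, hw⟩ := exists_prim ![x, y, z]
  have w0 := hw 0
  have w1 := hw 1
  have w2 := hw 2
  simp only [cons_val_one, cons_val_zero, cons_val] at w0 w1 w2
  have g0 : Int.gcd x (Int.gcd y z) ≠ 0 := fun e => by
    rw [e] at w0 w1 w2
    simp at w0 w1 w2
    tauto
  have g1 : Int.gcd (w 0) (Int.gcd (w 1) (w 2)) = 1 := by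
    have e : Int.gcd x (Int.gcd y z) = Int.gcd x (Int.gcd y z) *
        Int.gcd (w 0) (Int.gcd (w 1) (w 2)) := by
      generalize hd' : Int.gcd x (Int.gcd y z) = d at w0 w1 w2 ⊢
      rw [w0, w1, w2, Int.gcd_mul_left, Nat.cast_mul, Int.natAbs_natCast, Int.gcd_mul_left,
        Int.natAbs_natCast] at hd'
      exact hd'.symm
    exact (Nat.mul_eq_left g0).1 e.symm
  obtain ⟨g, hg⟩ := exists_row g1 (form a b c s1 s2 r)
  obtain ⟨a', b', c', s1', s2', r', e⟩ := act_form g.1 a b c s1 s2 r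
  have hd1 := det_act g (form a b c s1 s2 r)
  rw [e, det_form, det_form, hd] at hd1
  obtain rfl : a' = 0 := by
    rw [e, quad_form] at hg
    simp only [form, of_apply, cons_val', cons_val_zero] at hg
    generalize Int.gcd x (Int.gcd y z) = d at w0 w1 w2 g0
    subst w0 w1 w2
    refine mul_left_cancel₀ (a := 2 * (d : ℤ) ^ 2) (by positivity) ?_
    linear_combination d ^ 2 * hg + 2 * h1
  obtain ⟨p, q, u, v, h3, h4, h5⟩ := exists_sl2 s1' s2'
  have hg : Int.gcd s1' s2' = 1 := by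
    obtain ⟨t1, e1⟩ := Int.gcd_dvd_left s1' s2'
    obtain ⟨t2, e2⟩ := Int.gcd_dvd_right s1' s2'
    generalize Int.gcd s1' s2' = d at *
    apply Nat.isUnit_iff.1 (hN d _)
    rw [← Int.natCast_dvd_natCast]
    refine ⟨b' * t2 ^ 2 + c' * t1 ^ 2 - t1 * t2 * r', ?_⟩
    rw [e1, e2] at hd1
    push_cast
    linarith
  rw [hg] at h4
  let k : SL3 := ⟨!![1, 0, 0; 0, u, v; 0, -p, -q], by simp [det_fin_three]; linear_combination h3⟩
  obtain ⟨b'', c'', r'', e'⟩ : ∃ b'' c'' r'',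
      k.1 * form 0 b' c' s1' s2' r' * k.1ᵀ = form 0 b'' c'' 0 (-1) r'' := by
    refine ⟨b' * u ^ 2 + r' * u * v + c' * v ^ 2, b' * p ^ 2 + r' * p * q + c' * q ^ 2,
      -(2 * b' * u * p + r' * (u * q + v * p) + 2 * c' * v * q), ?_⟩
    push_cast at h4
    ext i j
    fin_cases i <;> fin_cases j <;> simp [k, form, mul_apply, Fin.sum_univ_three] <;> linarith
  have hd' := det_act k (form 0 b' c' s1' s2' r')
  rw [e', det_form, det_form, hd1] at hd'
  obtain rfl : b'' = N := by linarith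
  let l : SL3 := ⟨!![1, 0, 0; r'', 1, 0; c'', 0, 1], by simp [det_fin_three]⟩
  refine ⟨l * (k * g), ?_⟩
  rw [act_act, act_act, e, e']
  ext i j
  fin_cases i <;> fin_cases j <;> simp [l, form, mul_apply, Fin.sum_univ_three]
  ring

/-- There is one class. -/
theorem iso_form {N : ℕ} (hN : Squarefree N) (h2 : Odd N) {ρ : ℤ} (hc : IsCoprime (N : ℤ) ρ)
    (hρ : (N : ℤ) ∣ ρ ^ 2 + (4 * b * c - r ^ 2))
    (hd : 4 * a * b * c + s1 * s2 * r - a * r ^ 2 - b * s2 ^ 2 - c * s1 ^ 2 = -N) :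
    ∃ g : SL3, g.1 * form a b c s1 s2 r * g.1ᵀ = form 0 N 0 0 (-1) 0 :=
  iso_of_iso3 hN hd (iso3 N h2 hc hρ a b c s1 s2 r rfl hd)

end Pool.Agent.G5
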