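import Pool.Agent.Lib.MP_696deb_nt.B5.CNb
import Pool.Agent.Lib.MP_696deb_nt.B5.CNd
import Pool.Agent.Lib.MP_696deb_nt.B5.CNe
import Pool.Agent.Lib.MP_696deb_nt.B5.CNi
import Pool.Agent.Lib.MP_696deb_nt.CntS1

/-! The counts of pairs of points and of pairs of geodesics agree. -/

set_option autoImplicit false

open Finset Matrix NumberTheorySymbols

namespace Pool.Agent.G5.CN

open Pool.Agent.Lib.MP_696deb_nt Tern
open Ind (omP mulVec_three fbil_self wt_ndvd wt_dvd)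

variable {N : ℕ}

theorem fam_fbil2 {D ρ e β : ℤ} {Q R : Fm} (hQ : Fam N D ρ Q) (hR : Fam N e β R) :
    4 * (N : ℤ) ∣ fbil Q R ^ 2 - D * e := by
  obtain ⟨⟨a, ha⟩, rfl, -⟩ := hQ
  obtain ⟨⟨a', ha'⟩, rfl, -⟩ := hR
  refine ⟨N * (a * R.2.2 + Q.2.2 * a') ^ 2 - Q.2.1 * R.2.1 * (a * R.2.2 + Q.2.2 * a') +
      Q.2.1 ^ 2 * a' * R.2.2 + R.2.1 ^ 2 * a * Q.2.2 - 4 * N * a * Q.2.2 * a' * R.2.2, ?_⟩
  simp only [fbil, fdisc, ha, ha']
  ring

theorem fam_fbil {D ρ e β : ℤ} {Q R : Fm} (hQ : Fam N D ρ Q) (hR : Fam N e β R) :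
    2 * (N : ℤ) ∣ fbil Q R - ρ * β := by
  obtain ⟨⟨a, h1⟩, -, ⟨k, h2⟩⟩ := hQ
  obtain ⟨⟨a', h3⟩, -, ⟨k', h4⟩⟩ := hR
  refine ⟨k * R.2.1 + ρ * k' - a * R.2.2 - Q.2.2 * a', ?_⟩
  rw [fbil, h1, h3]
  linear_combination R.2.1 * h2 + ρ * h4

theorem cop_of_sq {n : ℕ} (hn : Good N n) {ρ : ℤ} (h : 4 * (N : ℤ) ∣ ρ ^ 2 + n) :
    IsCoprime (2 * N : ℤ) ρ := by
  obtain ⟨k, hk⟩ := h
  obtain ⟨u, v, huv⟩ := Nat.isCoprime_iff_coprime.2 hn.cop2
  push_cast at huv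
  exact ⟨v + 2 * k * u, -u * ρ, by linear_combination huv - u * hk⟩

section main

variable {n A d M : ℕ} {ρ e β t : ℤ} {T : Finset Fm}

theorem inv_frm {x w : V3} (hx : fdisc (frm N x) = -n) (hw : fdisc (frm N w) = e)
    (h : fbil (frm N x) (frm N w) = t) : Inv N n (-e) (-t) (H0 N) x w :=
  ⟨evM_H0, by rw [bil_H0, fbil_self, hx, neg_neg], by rw [bil_H0, fbil_self, hw],
    by rw [bil_H0, h]⟩

theorem frm_inv {x w : V3} (h : Inv N n (-e) (-t) (H0 N) x w) :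
    fdisc (frm N x) = -n ∧ fdisc (frm N w) = e ∧ fbil (frm N x) (frm N w) = t := by
  obtain ⟨-, h1, h2, h3⟩ := h
  rw [bil_H0] at h1 h2 h3
  rw [fbil_self] at h1 h2
  exact ⟨by linarith, by linarith, by linarith⟩

/-- Every normal form comes from a pair of forms. -/
theorem exists_pair (hn : Good N n) (hd : 4 * d = n + 1) (hρ : 4 * (N : ℤ) ∣ ρ ^ 2 + n)
    (hT : FReps N (-n) ρ T) (ht : (-t) ^ 2 - n * -e = 4 * N * M) (h30 : 2 * (N : ℤ) ∣ t - ρ * β)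
    {c : ℕ × ℕ × ℕ} (hc : CanOK N n d M (-t) c) : ∃ x w, frm N x ∈ T ∧ Fam N e β (frm N w) ∧
      fbil (frm N x) (frm N w) = t ∧ Rel (H0 N) x w (canG N n d M c) ![1, 0, 0] (canW n M (-t) c) := by
  have h1 := can_inv hd ht hc
  obtain ⟨g, hg⟩ : ∃ g : SL3, g.1 * canG N n d M c * g.1ᵀ = H0 N := by
    have h2 := h1.1.2.2
    have h3 := h1.2.1
    rw [canG] at h2 h3 ⊢
    rw [det_form] at h2
    rw [bil_form] at h3
    refine iso_form hn.lsq hn.lodd ((cop_of_sq hn hρ).of_mul_left_right) ?_ (by linarith)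
    refine ((dvd_mul_left _ _).trans hρ).trans (dvd_of_eq ?_)
    rw [← h3]
    simp only [cons_val_zero, cons_val_one, Matrix.cons_val]
    ring
  have r1 : Rel (canG N n d M c) ![1, 0, 0] (canW n M (-t) c) (H0 N) _ _ := ⟨g, hg, rfl, rfl⟩
  generalize g.1 *ᵥ ![1, 0, 0] = x at r1
  generalize g.1 *ᵥ canW n M (-t) c = w at r1
  obtain ⟨g2, hg2, o2⟩ := exists_orient hn.lsq hn.lodd (x := x) (ρ := ρ) (by
    have h2 := (frm_inv (h1.rel r1)).1
    obtain ⟨k, hk⟩ := hρ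
    simp only [fdisc, frm] at h2
    exact ⟨x 0 * x 2 - k, by linear_combination h2 - hk⟩)
  have r2 := r1.trans ⟨g2, hg2, rfl, rfl⟩
  generalize g2.1 *ᵥ x = x at r2 o2
  generalize g2.1 *ᵥ w = w at r2
  obtain ⟨g3, hg3, s3, o3⟩ := exists_sign (N := N) (x := x) fun h => by
    have h2 := (frm_inv (h1.rel r2)).1
    have h3 := hn.mod4
    simp only [fdisc, frm, h] at h2
    have : (0 : ℤ) < n := by omega
    nlinarith [sq_nonneg (x 1)]
  have r3 := r2.trans ⟨g3, hg3, rfl, rfl⟩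
  rw [← o3] at o2
  generalize g3.1 *ᵥ x = x at r3 o2 s3
  generalize g3.1 *ᵥ w = w at r3
  obtain ⟨Q, hQ, hF⟩ := hT.ex (frm N x) ⟨dvd_mul_right _ _, (frm_inv (h1.rel r3)).1, o2⟩
    (mul_pos (by exact_mod_cast hn.lodd.pos) s3)
  obtain ⟨d', b, c', a, h0, h5⟩ := hF
  have h4 : 1 * a * d' - N * -b * -c' = 1 := by linear_combination h0
  replace h5 : Q = fmap (frm N x) a (-b) (N * -c') d' := by rw [h5, mul_neg, fmap_inv h0]
  have r4 := r3.trans ⟨alG 1 N a (-b) (-c') d' h4, alG_H0 h4 (one_mul _), rfl, rfl⟩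
  rw [← frm_alG h4] at h5
  generalize (alG 1 N a (-b) (-c') d' h4).1 *ᵥ x = x at r4 h5
  generalize (alG 1 N a (-b) (-c') d' h4).1 *ᵥ w = w at r4
  subst h5
  obtain ⟨-, h6, h7⟩ := frm_inv (h1.rel r4)
  refine ⟨x, w, hQ, ⟨dvd_mul_right _ _, h6, ?_⟩, h7, Ind.Rel.symm r4⟩
  have h8 := fam_fbil (hT.fam _ hQ) (R := frm N w) (β := w 1) ⟨dvd_mul_right _ _, h6, by simp [frm]⟩
  rw [h7] at h8
  refine (cop_of_sq hn hρ).dvd_of_dvd_mul_left ?_
  convert h30.sub h8 using 1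
  simp only [frm]
  ring

/-- Two pairs with the same normal form are equal. -/
theorem pair_unique (hn : Good N n) (n3 : n ≠ 3) (hρ : 4 * (N : ℤ) ∣ ρ ^ 2 + n)
    (hT : FReps N (-n) ρ T) {x w x' w' : V3}
    (hx : frm N x ∈ T) (hx' : frm N x' ∈ T) (h : Rel (H0 N) x w (H0 N) x' w') :
    frm N x = frm N x' ∧ frm N w = frm N w' := by
  obtain ⟨g, hg, rfl, rfl⟩ := h
  have h1 := hT.fam _ hx
  have h2 := hT.fam _ hx'
  have h3 := hT.pos _ hx
  have h4 := hT.pos _ hx'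
  have hD : fdisc (frm N x) < 0 := by have := hn.mod4; rw [h1.2.1]; omega
  have N0 : (0 : ℤ) < N := by exact_mod_cast hn.lodd.pos
  obtain ⟨a, b, c, d, h5, h6⟩ := stab hn.lodd hg hD (pos_of_mul_pos_right h3 N0.le)
    (pos_of_mul_pos_right h4 N0.le)
    (by simpa [frm] using h2.2.2.sub h1.2.2) (by
      obtain ⟨k, hk⟩ := h1.2.2
      obtain ⟨u, v, huv⟩ := cop_of_sq hn hρ
      simp only [frm] at hk
      exact ⟨2 * u - 2 * k * v, v, by linear_combination huv + v * hk⟩)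
  have h7 := hT.uniq _ hx _ hx' ⟨a, b, c, d, h5, h6 x⟩
  exact ⟨h7, by rw [h6, free_neg hn.sqf hn.mod4 n3 h1.2.1 h5 (by rw [← h6, ← h7])]⟩

theorem frm_inj (hN : N ≠ 0) {x y : V3} (h : frm N x = frm N y) : x = y := by
  simp only [frm, Prod.mk.injEq] at h
  ext i
  fin_cases i
  · simpa [hN] using h.1
  · exact h.2.1
  · exact h.2.2

theorem weight_eq (hn : Good N n) (hA : A ∣ n) (hd : 4 * d = n + 1) (he : (A : ℤ) ∣ e)
    (ht : (-t) ^ 2 - n * -e = 4 * N * M) {c : ℕ × ℕ × ℕ} (hc : CanOK N n d M (-t) c) {x w : V3}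
    (h : Rel (H0 N) x w (canG N n d M c) ![1, 0, 0] (canW n M (-t) c)) :
    gch A (frm N x) * gch A (frm N w) = ∏ p ∈ n.primeFactors, omP A t (canW n M (-t) c 0) p := by
  obtain ⟨h1, h2, h3⟩ := frm_inv ((can_inv hd ht hc).rel (Ind.Rel.symm h))
  simp only [omP]
  rw [← prod_filter, Nat.primeFactors_filter_dvd_of_dvd hn.sqf.ne_zero hA, gch, gch,
    ← prod_mul_distrib]
  refine prod_congr rfl fun p hp' => ?_
  have hp := Nat.prime_of_mem_primeFactors hp'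
  have hpA := Nat.dvd_of_mem_primeFactors hp'
  have hpn := hpA.trans hA
  have h4 : (p : ℤ) ∣ fdisc (frm N x) := h1 ▸ (Int.natCast_dvd_natCast.2 hpn).neg_right
  have h5 : (p : ℤ) ∣ e := (Int.natCast_dvd_natCast.2 hpA).trans he
  by_cases h6 : (p : ℤ) ∣ t
  swap
  · rw [if_neg h6, ← h3]
    exact wt_ndvd hp (ne_zero hn.cop2 hp hpn).1 h4 (h2 ▸ h5) (h3 ▸ h6)
  rw [if_pos h6]
  have h7 : p ∣ c.1 := dvd_e hn hd hc.2.2.2.1 (t := -t) (n2 := -e)
    (by rw [Nat.mul_div_cancel' hc.2.1]; exact ht) hp hpn h5.neg_right h6.neg_right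
  obtain ⟨g, -, rfl, rfl⟩ := Ind.Rel.symm h
  have h8 : ∀ i, (p : ℤ) ∣ (g.1 *ᵥ canW n M (-t) c) i -
      canW n M (-t) c 0 * (g.1 *ᵥ ![1, 0, 0]) i := fun i => by
    obtain ⟨k, hk⟩ := h7
    refine ⟨-(g.1 i 2 * k), ?_⟩
    simp only [mulVec_three, canW, cons_val_zero, cons_val_one, Matrix.cons_val, hk]
    push_cast
    ring
  refine wt_dvd hp h4 (fun h9 => ?_) ?_ (h8 2)
  · rw [h1, dvd_neg] at h9
    exact hp.not_isUnit (hn.sqf p (by exact_mod_cast h9))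
  · simpa only [frm, mul_sub, mul_left_comm] using (h8 0).mul_left N

end main

/-- The closed form of the weighted count of pairs of forms. -/
theorem cntP_eq {n A : ℕ} (hn : Good N n) (n3 : n ≠ 3) (hA : A ∣ n) {ρ : ℤ}
    (hρ : 4 * (N : ℤ) ∣ ρ ^ 2 + n)
    {T : Finset Fm} (hT : FReps N (-n) ρ T) {e β t : ℤ} (he : (A : ℤ) ∣ e) {M : ℕ} (hM : 0 < M)
    (ht : t ^ 2 + n * e = 4 * N * M) :
    cntP T (gch A) (wG N A e β) t = if 2 * (N : ℤ) ∣ t - ρ * β then CF N n A t M else 0 := by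
  classical
  split_ifs with h30
  swap
  · refine sum_eq_zero fun Q hQ => mul_eq_zero_of_right _
      (finsum_eq_zero_of_forall_eq_zero fun R => ?_)
    split_ifs with h
    · exact if_neg fun h1 => h30 (h ▸ fam_fbil (hT.fam Q hQ) h1)
    · rfl
  obtain ⟨d, hd⟩ : ∃ d, 4 * d = n + 1 := ⟨(n + 1) / 4, by have := hn.mod4; omega⟩
  have ht' : (-t) ^ 2 - n * -e = 4 * N * M := by linear_combination ht
  rw [← sum_canSet hn hd hM he.neg_right (by linear_combination ht)]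
  choose! x w h1 h2 h3 h4 using fun c (hc : c ∈ canSet N n d M (-t)) =>
    exists_pair hn hd hρ hT ht' h30 ((mem_canSet hM).1 hc)
  set S := canSet N n d M (-t) with hS
  have hsurj : ∀ Q ∈ T, ∀ R, Fam N e β R → fbil Q R = t →
      ∃ c ∈ S, frm N (x c) = Q ∧ frm N (w c) = R := fun Q hQ R hR h => by
    obtain ⟨x', rfl⟩ := exists_frm (hT.fam Q hQ).1
    obtain ⟨w', rfl⟩ := exists_frm hR.1
    obtain ⟨c, hc, r⟩ := exists_can hn.lsq.ne_zero hd hn.sqf hM ht' (inv_frm (hT.fam _ hQ).2.1 hR.2.1 h)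
    have hc' := (mem_canSet hM).2 hc
    exact ⟨c, hc', pair_unique hn n3 hρ hT (h1 c hc') hQ ((h4 c hc').trans (Ind.Rel.symm r))⟩
  have hinj : ∀ c ∈ S, ∀ c' ∈ S, frm N (x c) = frm N (x c') → frm N (w c) = frm N (w c') → c = c' :=
    fun c hc c' hc' e1 e2 => by
      have r := h4 c' hc'
      rw [← frm_inj hn.lsq.ne_zero e1, ← frm_inj hn.lsq.ne_zero e2] at r
      obtain ⟨g, f1, f2, f3⟩ := (Ind.Rel.symm (h4 c hc)).trans r
      exact (can_unique hd hn.sqf ((mem_canSet hM).1 hc) ((mem_canSet hM).1 hc') g f1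
        f2 f3).2
  rw [← sum_fiberwise_of_maps_to (s := S) (t := T) (g := fun c => frm N (x c)) h1]
  refine sum_congr rfl fun Q hQ => ?_
  rw [finsum_eq_sum_of_support_subset
    (s := (S.filter fun c => frm N (x c) = Q).image fun c => frm N (w c)), sum_image, mul_sum]
  · refine sum_congr rfl fun c hc0 => ?_
    obtain ⟨hc, rfl⟩ := mem_filter.1 hc0
    rw [if_pos (h3 c hc), wG, if_pos (h2 c hc)]
    exact weight_eq hn hA hd he ht' ((mem_canSet hM).1 hc) (h4 c hc)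
  · intro c hc c' hc' h
    obtain ⟨hc, e1⟩ := mem_filter.1 hc
    obtain ⟨hc', e2⟩ := mem_filter.1 hc'
    exact hinj c hc c' hc' (e1.trans e2.symm) h
  · intro R hR
    rw [Function.mem_support] at hR
    have h5 : fbil Q R = t := by by_contra h; exact hR (if_neg h)
    rw [if_pos h5] at hR
    obtain ⟨c, hc, e1, e2⟩ := hsurj Q hQ R (by by_contra h; exact hR (if_neg h)) h5
    exact mem_coe.2 (mem_image.2 ⟨c, mem_filter.2 ⟨hc, e1⟩, e2⟩)

section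

variable {e t : ℤ} {Q R : Fm}

lemma fin_fbil (hD : fdisc Q < 0) (hQ : 0 < Q.1) (he : e < 0) (t : ℤ) :
    {R : Fm | fdisc R = e ∧ fbil Q R = t}.Finite := by
  have h1 := im_froot_pos hD hQ
  refine (finite_side e h1 |-t / √(-fdisc Q : ℝ) * (froot Q).im|).subset fun R ⟨h2, h3⟩ =>
    ⟨h2, fun h4 => ?_, ?_⟩
  · simp only [fdisc, h4] at h2
    nlinarith [sq_nonneg R.2.1]
  · rw [← h3, ← fside_froot hD hQ, div_mul_cancel₀ _ h1.ne']

lemma pos_fbil (hD : fdisc Q < 0) (hQ : 0 < Q.1) (he : fdisc R < 0) (h : fbil Q R ≤ 0) :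
    0 < R.1 := by
  by_contra! h1
  have h2 := fside_froot hD hQ R
  have h3 := four_mul_fside R (froot Q)
  have h4 := im_froot_pos hD hQ
  have h5 : 0 ≤ fside R (froot Q) := by
    rw [div_eq_iff h4.ne'] at h2
    have : (0 : ℝ) ≤ -fbil Q R := by exact_mod_cast neg_nonneg.mpr h
    rw [h2]
    positivity
  have h6 : (R.1 : ℝ) < 0 := by
    refine mod_cast h1.lt_of_ne fun h7 => ?_
    simp only [fdisc, h7] at he
    nlinarith [sq_nonneg R.2.1]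
  have h7 : (fdisc R : ℝ) < 0 := mod_cast he
  nlinarith [sq_nonneg (2 * R.1 * (froot Q).re + R.2.1), mul_pos_of_neg_of_neg h6 h6, mul_pos h4 h4,
    mul_pos (mul_pos_of_neg_of_neg h6 h6) (mul_pos h4 h4)]
end

theorem gza_wZ (n : ℕ) {D ρ β t e : ℤ} {T : Finset Fm} (hD : D < 0) (hT : FReps N D ρ T)
    (he : e < 0) (ht : t ≤ 0)
    (m : Fm → ℤ) : cntP T m (wZ N n e β) t =
      cntP T m (wG N n e β) t + J(-1 | n) * cntP T m (wG N n e (-β)) t := by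
  rw [cntP, cntP, cntP, mul_sum, ← sum_add_distrib]
  refine sum_congr rfl fun Q hQ => ?_
  have h1 : fdisc Q < 0 := (hT.fam Q hQ).2.1 ▸ hD
  have h2 : ∀ β, (Function.support fun R => if fbil Q R = t then wG N n e β R else 0).Finite :=
    fun β => (fin_fbil h1 (hT.pos Q hQ) he t).subset fun R hR => by
      have h3 : fbil Q R = t := by_contra fun h => hR (if_neg h)
      exact ⟨(of_wG fun h => hR ((if_pos h3).trans h)).2.1, h3⟩
  rw [mul_left_comm, ← mul_add, mul_finsum _ J(-1 | n), ← finsum_add_distrib (h2 _)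
    ((h2 (-β)).subset fun R hR => right_ne_zero_of_mul hR)]
  refine congr_arg _ (finsum_congr fun R => ?_)
  beta_reduce
  split_ifs with h3
  swap
  · simp
  rw [wZ]
  split_ifs with h4
  · rfl
  have h5 : ∀ β, wG N n e β R = 0 := fun β =>
    if_neg fun h : Fam _ _ _ _ => h4 (pos_fbil h1 (hT.pos Q hQ) (h.2.1 ▸ he) (h3 ▸ ht))
  rw [h5, h5, mul_zero, add_zero]

open Classical in
/-- The counts of pairs of points and of pairs of geodesics agree. -/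
theorem cn_main {A B : ℕ} (hn : Good N (A * B)) (n3 : A * B ≠ 3) (hB : J(-N | B) = -1)
    {x ρ ρ' β t : ℤ} (hx : 0 < x) (hρ : 4 * (N : ℤ) ∣ ρ ^ 2 + (A * B : ℕ))
    (h : 2 * (N : ℤ) ∣ B * β + ρ * ρ') {T T' : Finset Fm}
    (hT : FReps N (-(A * B : ℕ)) ρ T) (hT' : FReps N (-(A * B : ℕ)) (-ρ) T') (h0 : 0 ≤ t)
    (ht : B ^ 2 * (A * x) < t ^ 2) :
    cntP (T ∪ T') (wZ N B (-(A * B : ℕ)) ρ) (wZ N B (-(B * x)) ρ') (-t) =
      -(J(N | A) * J(-1 | B)) * cL B (wG N A (A * x) β) t := by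
  have h15 : ∀ {Q : Fm}, Fam N (-(A * B : ℕ)) ρ Q → ¬ Fam N (-(A * B : ℕ)) (-ρ) Q := fun h1 h2 => by
    have h3 : (N : ℤ) ∣ ρ := Int.dvd_of_mul_dvd_mul_left two_ne_zero
      ((h2.2.2.sub h1.2.2).trans (dvd_of_eq (by ring)))
    have h4 := Int.isUnit_iff.1 ((cop_of_sq hn hρ).of_mul_left_right.isUnit_of_dvd h3)
    have := hn.l1
    omega
  have N0 : (0 : ℤ) < N := by exact_mod_cast hn.lodd.pos
  have n0 : -(A * B : ℕ) < (0 : ℤ) := by have := hn.mod4; omega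
  have hD : -(B * x : ℤ) < 0 :=
    neg_neg_of_pos (mul_pos (mod_cast hn.sqf.of_mul_right.ne_zero.bot_lt) hx)
  have h1 : cntP (T ∪ T') (wZ N B (-(A * B : ℕ)) ρ) (wZ N B (-(B * x)) ρ') (-t) =
      cntP T (gch B) (wZ N B (-(B * x)) ρ') (-t) +
        J(-1 | B) * cntP T' (gch B) (wZ N B (-(B * x)) ρ') (-t) := by
    rw [cntP, cntP, cntP, sum_union (disjoint_left.mpr fun Q h1 h2 =>
      h15 (hT.fam Q h1) (hT'.fam Q h2)), mul_sum]
    congr 1 <;> refine sum_congr rfl fun Q hQ => ?_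
    · rw [wZ, if_pos (hT.pos Q hQ), wG, wG, if_pos (hT.fam Q hQ),
        if_neg (h15 (hT.fam Q hQ)), mul_zero, add_zero]
    · rw [wZ, if_pos (hT'.pos Q hQ), wG, wG, if_pos (hT'.fam Q hQ),
        if_neg fun h => h15 h (hT'.fam Q hQ), zero_add, mul_assoc]
  rw [h1, gza_wZ B n0 hT hD (by omega), gza_wZ B n0 hT' hD (by omega), cL]
  by_cases h2 : 4 * (N : ℤ) ∣ t ^ 2 - B ^ 2 * (A * x)
  swap
  · have k1 : ∀ {ρ β : ℤ} {T : Finset Fm}, FReps N (-(A * B : ℕ)) ρ T →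
        cntP T (gch B) (wG N B (-(B * x)) β) (-t) = 0 := fun hT => sum_eq_zero fun Q hQ =>
      mul_eq_zero_of_right _ (finsum_eq_zero_of_forall_eq_zero fun R => ite_eq_right_iff.mpr
        fun h3 => if_neg fun h4 => h2 (by
          refine (fam_fbil2 (hT.fam Q hQ) h4).trans (dvd_of_eq ?_); rw [h3]; push_cast; ring))
    have k2 : ∀ {s : ℤ}, s ^ 2 = t ^ 2 →
        cntL B (Ico (0 : ℤ) B) (fun k => J(k | B)) (wG N A (A * x) β) s = 0 := fun hs => sum_eq_zero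
      fun k _ => mul_eq_zero_of_right _ (finsum_eq_zero_of_forall_eq_zero fun R =>
        ite_eq_right_iff.mpr fun h3 => mul_eq_zero_of_left (if_neg fun ⟨⟨a, ha⟩, h5, _⟩ =>
          h2 ⟨a * fval R k B, by rw [← hs, ← h3, ← h5, fbil_line, ha]; ring⟩) _)
    rw [k1 hT, k1 hT, k1 hT', k1 hT', k2 rfl, k2 (neg_sq t)]
    simp
  obtain ⟨M, hM⟩ := h2
  have h3 : 0 < M := pos_of_mul_pos_right (hM ▸ sub_pos.2 ht) (by omega)
  lift M to ℕ using h3.le
  replace h3 : 0 < M := by omega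
  have k1 := fun {ρ β : ℤ} {T : Finset Fm} (hρ : 4 * (N : ℤ) ∣ ρ ^ 2 + (A * B : ℕ))
    (hT : FReps N (-(A * B : ℕ)) ρ T) => cntP_eq hn n3 (dvd_mul_left B A) hρ hT (e := -(B * x)) (β := β)
      (t := -t) (by simp) h3 (by push_cast; linarith)
  have hρ' : 4 * (N : ℤ) ∣ (-ρ) ^ 2 + (A * B : ℕ) := by rwa [neg_sq]
  rw [k1 hρ hT, k1 hρ hT, k1 hρ' hT', k1 hρ' hT', gza_cntL hn hB h3 hM,
    gza_cntL hn hB h3 (t := -t) (by rwa [neg_sq]), gza_CF hn hB ⟨A * x, by linarith⟩]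
  have j1 := sq_eq_one_iff.mp (gza_sq hn)
  have j2 : J(-1 | B) = 1 ∨ J(-1 | B) = -1 := jacobiSym.eq_one_or_neg_one (by simp)
  simp only [mul_neg, neg_mul, neg_neg]
  generalize ρ * ρ' = u at h
  generalize B * β = v at h
  have c1 : 2 * (N : ℤ) ∣ t - v ↔ 2 * (N : ℤ) ∣ -t - u := by
    rw [← dvd_neg (b := -t - u), show -(-t - u) = t - v + (v + u) by ring, dvd_add_left h]
  have c2 : 2 * (N : ℤ) ∣ -t - v ↔ 2 * (N : ℤ) ∣ -t - -u := by
    rw [show -t - v = -t - -u - (v + u) by ring, dvd_sub_left h]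
  simp only [c1, c2]
  rcases j1 with j1 | j1 <;> rcases j2 with j2 | j2 <;> rw [j1, j2] <;> split_ifs <;> omega

end Pool.Agent.G5.CN

namespace Pool.Agent.G5

theorem cn_stmt : CNStmt := fun _ A B _ _ _ _ _ _ _ hn hA hB hx hρ h hT hT' h0 ht =>
  CN.cn_main hn (fun e => by
    have h1 : A ≤ 3 := Nat.le_of_dvd (by norm_num) ⟨B, e.symm⟩
    obtain rfl : B = 1 := by interval_cases A <;> omega
    simp at hB) hB hx hρ h hT hT' h0 ht

end Pool.Agent.G5
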