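import Pool.Agent.Lib.MP_696deb_nt.B5.Z0
import Pool.Agent.Lib.MP_696deb_nt.B4.GE0

/-! Green functions, integrals of cusp forms, and the analytic statements. -/

set_option autoImplicit false

open Finset NumberTheorySymbols Filter Topology Complex
open scoped Classical Real

namespace Pool.Agent.G5

open Pool.Agent.Lib.MP_696deb_nt Pool.Agent.B4.GE Pool.Agent.Shared.Weier

/-- Integrals of cusp forms of weight two. -/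
structure Ci (N : ℕ) (G : ℂ → ℂ) : Prop where
  hol : Hol G
  inv : ∀ g, G0 N g → ∃ c, ∀ z : ℂ, 0 < z.im → G (act g z) = G z + c
  cusp : ∀ g : MZ, g.det = 1 → ∃ A, QE (fun z => G (act g (N * z))) A

/-- The periods lie in the lattice. -/
def PerL (N : ℕ) (L : PeriodPair) (G : ℂ → ℂ) : Prop :=
  ∀ g, G0 N g → ∀ z : ℂ, 0 < z.im → G (act g z) - G z ∈ L.lattice

/-- Eigenfunctions of the Hecke operators. -/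
def Eig {V : Type} [AddCommGroup V] (N : ℕ) (a : ℕ → ℤ) (S : ℂ → V) : Prop :=
  ∀ l : ℕ, l.Prime → ¬ l ∣ N → ∀ z : ℂ, 0 < z.im → Tf V l S z = a l • S z

/-- `W` is meromorphic with divisor `ν`, in normal form. -/
def Dv (W : ℂ → ℂ) (ν : ℂ → ℤ) : Prop := ∀ z₀ : ℂ, 0 < z₀.im →
  ∃ g : ℂ → ℂ, AnalyticAt ℂ g z₀ ∧ g z₀ ≠ 0 ∧ ∀ᶠ z in 𝓝 z₀, W z = (z - z₀) ^ ν z₀ * g z

/-- Nonzero limits at all cusps. -/
def Cn (W : ℂ → ℂ) : Prop :=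
  ∀ g : MZ, g.det = 1 → ∃ c : ℂ, c ≠ 0 ∧ Tendsto (fun z => W (act g z)) atI (𝓝 c)

/-- The logarithm of the absolute value of `Θ` is a Green function for `ν`. -/
structure Grn (N : ℕ) (ν : ℂ → ℤ) (Θ : ℂ → ℂ) : Prop where
  dv : Dv Θ ν
  inv : Inv0 N fun z => ‖Θ z‖
  cn : Cn Θ

/-- Functions with divisor `ν` and multiplier given by `U`. -/
structure Th (N : ℕ) (ν : ℂ → ℤ) (U W : ℂ → ℂ) : Prop where
  dv : Dv W ν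
  inv : ∀ g, G0 N g → ∀ z : ℂ, 0 < z.im → W (act g z) = W z * cexp (U z - U (act g z))
  cn : Cn W

/-- The Green function of such a function. -/
noncomputable def gT (U W : ℂ → ℂ) (z : ℂ) : ℝ := Real.log ‖W z‖ + (U z).re

/-- Representatives, with trivial stabilizers, for the support of an invariant divisor. -/
structure Rp (N : ℕ) (ν : ℂ → ℤ) (s : Finset ℂ) : Prop where
  inv : Inv0 N ν
  pos : ∀ z ∈ s, 0 < z.im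
  free : ∀ z ∈ s, ∀ g : MZ, g.det = 1 → act g z = z → g = 1 ∨ g = -1
  ex : ∀ z : ℂ, 0 < z.im → ν z ≠ 0 → ∃ w ∈ s, ∃ g, G0 N g ∧ z = act g w
  uniq : ∀ z ∈ s, ∀ w ∈ s, ∀ g, G0 N g → z = act g w → z = w

/-- The additive twist of the series of the derivative of `G`. -/
noncomputable def Ld (G : ℂ → ℂ) (a c : ℤ) (s : ℂ) : ℂ :=
  (2 * π) ^ s * (Gamma s)⁻¹ * mellin (fun y : ℝ => deriv G (a / c + y * I) / (2 * π * I)) s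

/-- The twist by the quadratic character of conductor `B`. -/
noncomputable def LA (G : ℂ → ℂ) (B : ℕ) (s : ℂ) : ℂ :=
  ∑ k ∈ range B, (J((k : ℤ) | B) : ℂ) * Ld G k B s

/-- `G` belongs to the weighted family of geodesics `w`. -/
structure Geo (N : ℕ) (w : Fm → ℤ) (G : ℂ → ℂ) : Prop where
  ci : Ci N G
  inv : Inv0 N fun z => (G z).re - Iw w z

/-- Matrices of Atkin and Lehner. -/
structure ALm (N p : ℕ) (w : MZ) : Prop where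
  det : w.det = p
  a : (p : ℤ) ∣ w 0 0
  c : (N : ℤ) ∣ w 1 0
  d : (p : ℤ) ∣ w 1 1

/-- The operator `t` projects onto the span of `F` and `F₂`. -/
def Prj (N : ℕ) (F F₂ : ℂ → ℂ) (t : HW) : Prop := ∀ G, Ci N G →
  ∃ κ κ₂ c : ℂ, ∀ z : ℂ, 0 < z.im → hf ℂ t G z = κ * F z + κ₂ * F₂ z + c

/-- The multiplier attached to a point. -/
noncomputable def U1 (L : PeriodPair) (F : ℂ → ℂ) (u z : ℂ) : ℂ := eta L (F z) * u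

variable {W : WeierstrassCurve ℚ} {N : ℕ}

/-- A companion of the parametrization (zero when the form is new). -/
structure Cp (P : Par W N) (F₂ : ℂ → ℂ) (p : ℕ) : Prop where
  ci : Ci N F₂
  per : PerL N P.L F₂
  eig : Eig N P.a F₂
  al : ∃ (w : MZ) (s : ℤ) (c c₂ : ℂ), ALm N p w ∧ (s = 1 ∨ s = -1) ∧ ∀ z : ℂ, 0 < z.im →
    P.F (act w z) = s * P.F z + c ∧ F₂ (act w z) = -s * F₂ z + c₂
  prj : ∀ M : ℕ, M ≠ 0 → ∃ t ∈ HA (N * M), he P.a t ≠ 0 ∧ Prj N P.F F₂ t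

/-- Existence of Green functions. -/
def EXStmt : Prop := ∀ (N : ℕ) (ν : ℂ → ℤ) (s : Finset ℂ), N ≠ 0 → Rp N ν s →
  ∑ z ∈ s, ν z = 0 → ∃ (k : ℕ) (Θ : ℂ → ℂ), 0 < k ∧ Grn N ((k : ℤ) • ν) Θ

/-- The projector produces a function whose multiplier comes from the elliptic curve. -/
def THStmt : Prop := ∀ (N : ℕ) (L : PeriodPair) (F F₂ Θ : ℂ → ℂ) (ν : ℂ → ℤ) (t : HW), N ≠ 0 →
  Ci N F → Ci N F₂ → Grn N ν Θ → t ∈ HA N → Prj N F F₂ t → ∃ (n : ℕ) (u u₂ : ℂ) (V : ℂ → ℂ), 0 < n ∧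
    Th N ((n : ℤ) • hf ℤ t ν) (fun z => U1 L F u z + U1 L F₂ u₂ z) V

/-- The easy half of the theorem of Abel. -/
def A0Stmt : Prop := ∀ (N : ℕ) (L : PeriodPair) (h G : ℂ → ℂ) (ν : ℂ → ℤ) (s : Finset ℂ), N ≠ 0 →
  Dv h ν → Inv0 N h → Cn h → Rp N ν s → Ci N G → PerL N L G →
  ∑ z ∈ s, ν z = 0 ∧ ∑ z ∈ s, ν z * G z ∈ L.lattice

/-- The point of the multiplier is the image of the divisor, and the companion can be removed. -/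
def ABStmt : Prop := ∀ (N p : ℕ) (L : PeriodPair) (F F₂ V : ℂ → ℂ) (u u₂ : ℂ) (ν : ℂ → ℤ)
  (s : Finset ℂ) (w : MZ) (e : ℤ) (c c₂ : ℂ), Squarefree N → p ∣ N → Ci N F → Ci N F₂ →
  PerL N L F → PerL N L F₂ → (∃ z z' : ℂ, 0 < z.im ∧ 0 < z'.im ∧ F z ≠ F z') → ALm N p w →
  (e = 1 ∨ e = -1) →
  (∀ z : ℂ, 0 < z.im → F (act w z) = e * F z + c ∧ F₂ (act w z) = -e * F₂ z + c₂) → Rp N ν s →
  Th N ν (fun z => U1 L F u z + U1 L F₂ u₂ z) V →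
  (∃ k : ℕ, 0 < k ∧ k * ∑ z ∈ s, ν z * F₂ z ∈ L.lattice) →
  ∃ (k δ : ℕ) (V' : ℂ → ℂ), 0 < k ∧ 0 < δ ∧ Th N ((k : ℤ) • ν) (U1 L F (k * u)) V' ∧
    2 * (δ * u - ∑ z ∈ s, ν z * F z) ∈ L.lattice

/-- The Hecke operators are self-adjoint. -/
def ADStmt : Prop := ∀ (N n : ℕ) (ν : ℂ → ℤ) (s : Finset ℂ) (t : HW), N ≠ 0 → Squarefree n →
  3 < n → Rp N ν s → (∀ z ∈ s, CM n z) → t ∈ HA N → ∃ s', Rp N (hf ℤ t ν) s' ∧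
    (∀ z ∈ s', CM n z) ∧ ∀ (V : Type) [AddCommGroup V] (S : ℂ → V) (a : ℕ → ℤ), Inv0 N S → Eig N a S →
      ∑ z ∈ s', hf ℤ t ν z • S z = he a t • ∑ z ∈ s, ν z • S z

/-- Hecke operators on Green functions, and uniqueness. -/
def GRStmt : Prop := ∀ (N : ℕ) (ν : ℂ → ℤ), N ≠ 0 →
  (∀ (Θ : ℂ → ℂ) (E : ℂ → Prop) (t : HW), Grn N ν Θ → (∀ z, E z → 0 < z.im ∧ ν z = 0) →
    (∀ z, E z → ∀ l : ℕ, l.Prime → ¬ l ∣ N → ∀ i, E (act (rP l i) z)) → t ∈ HA N →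
    ∃ Θ', Grn N (hf ℤ t ν) Θ' ∧
      ∀ z, E z → Real.log ‖Θ' z‖ = hf ℝ t (fun x => Real.log ‖Θ x‖) z) ∧
  (∀ (L : PeriodPair) (F V : ℂ → ℂ) (u : ℂ), Ci N F → Th N ν (U1 L F u) V →
    ∃ Θ, Grn N ν Θ ∧ ∀ z : ℂ, 0 < z.im → ν z = 0 → Real.log ‖Θ z‖ = gT (U1 L F u) V z) ∧
  (∀ Θ Θ' : ℂ → ℂ, Grn N ν Θ → Grn N ν Θ' → ∃ c : ℂ, ∀ z : ℂ, 0 < z.im → Θ' z = c * Θ z) ∧
  ∀ G : ℂ → ℂ, Ci N G → (Inv0 N fun z => (G z).re) → ∃ c, ∀ z : ℂ, 0 < z.im → G z = c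

/-- Points against points. -/
def PPStmt : Prop := ∀ (N : ℕ) (S : Finset Fm) (μ : Fm → ℤ) (D : ℤ) (w : ℕ → Fm → ℤ) (e : ℕ → ℤ)
  (a : ℕ →₀ ℤ) (Θ : ℂ → ℂ), N ≠ 0 → Pts S μ D →
  (∀ m ∈ a.support, e m < 0 ∧ Wt N (w m) (e m) ∧
    ∀ R, w m R ≠ 0 → 0 < R.1 ∧ ∀ Q ∈ S, μ Q ≠ 0 → froot R ≠ froot Q) →
  Grn N (cmb (fun m => nuW (w m)) a) Θ →
  Tendsto (fun ε : ℝ => a.sum fun m c => (c : ℝ) * ∑' t : ℕ,
    (cntP S μ (w m) (-t) : ℝ) * kerK ε (t / √(D * e m : ℝ))) (𝓝[>] 0)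
    (𝓝 (-∑ Q ∈ S, μ Q * Real.log ‖Θ (froot Q)‖))

/-- Lines against geodesics. -/
def GLStmt : Prop := ∀ (N B : ℕ) (w : ℕ → Fm → ℤ) (e : ℕ → ℤ) (a : ℕ →₀ ℤ) (G : ℂ → ℂ), N ≠ 0 →
  Squarefree B → Odd B → 1 < B → B.Coprime N →
  (∀ m ∈ a.support, 0 < e m ∧ Wt N (w m) (e m) ∧
    ∀ R, w m R ≠ 0 → R.1 ≠ 0 ∧ ∀ k : ℤ, fval R k B ≠ 0) →
  Ci N G → (Inv0 N fun z => (G z).re - cmb (fun m => Iw (w m)) a z) → LA G B 1 = 0 →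
  Tendsto (fun ε : ℝ => a.sum fun m c => (c : ℝ) * ∑' t : ℕ,
    (cL B (w m) t : ℝ) * kerK ε (t / (B * √(e m : ℝ)))) (𝓝[>] 0)
    (𝓝 ((deriv (LA G B) 1).re - a.sum fun m c => (c : ℝ) * Lg B (w m)))

/-- The series are entire and linear, and the sign of the functional equation. -/
def LAStmt : Prop := ∀ (N B : ℕ), N ≠ 0 → B ≠ 0 → (∀ G, Ci N G → Differentiable ℂ (LA G B)) ∧
  (∀ (G F F₂ : ℂ → ℂ) (κ κ₂ c : ℂ), Ci N F → Ci N F₂ →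
    (∀ z : ℂ, 0 < z.im → G z = κ * F z + κ₂ * F₂ z + c) →
    ∀ s, LA G B s = κ * LA F B s + κ₂ * LA F₂ B s) ∧
  ∀ (F : ℂ → ℂ) (c : ℂ), Squarefree B → Odd B → B.Coprime N → J(-N | B) = -1 → Ci N F →
    (∀ z : ℂ, 0 < z.im → F (-1 / (N * z)) = c - F z) → LA F B 1 = 0

/-- The split family has a class, and the class dies when the twisted period vanishes. -/
def SWStmt : Prop := ∀ (N p A B : ℕ) (ρ ρ' β : ℤ), Cx N p A B ρ ρ' β →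
  (∀ m : ℕ, m ≠ 0 → m.Coprime N → ∀ R, Cw N A β m R ≠ 0 → R.1 ≠ 0 ∧ ∀ k : ℤ, fval R k B ≠ 0) ∧
  ∃ G, Geo N (Cw N A β 1) G ∧ ∀ (F F₂ : ℂ → ℂ) (t : HW), Ci N F → Ci N F₂ → t ∈ HA N →
    Prj N F F₂ t → LA F A 1 = 0 → LA F₂ A 1 = 0 → ∃ c, ∀ z : ℂ, 0 < z.im → hf ℂ t G z = c

/-- Basic facts on the special divisors. -/
def NUStmt : Prop := (∀ (N : ℕ) (D β : ℤ), N ≠ 0 → D < 0 → ∃ T, FReps N D β T) ∧
  (∀ (N A : ℕ) (e β : ℤ), Odd A → (A : ℤ) ∣ e → 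
    Wt N (wG N A e β) e ∧ (e < 0 → Wt N (wZ N A e β) e)) ∧
  ∀ (N A B : ℕ) (ρ : ℤ) (T T' : Finset Fm), Good N (A * B) → 1 < A → 1 < B → J(-N | B) = -1 →
    4 * (N : ℤ) ∣ ρ ^ 2 + (A * B : ℕ) → FReps N (-(A * B : ℕ)) ρ T →
    FReps N (-(A * B : ℕ)) (-ρ) T' →
    Pts (T ∪ T') (wZ N B (-(A * B : ℕ)) ρ) (-(A * B : ℕ)) ∧
    Rp N (nuW (wZ N B (-(A * B : ℕ)) ρ)) ((T ∪ T').image froot) ∧
    (∀ (V : Type) [AddCommGroup V] (S : ℂ → V),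
      ∑ z ∈ (T ∪ T').image froot, nuW (wZ N B (-(A * B : ℕ)) ρ) z • S z = zs N A B ρ T T' S) ∧
    ∀ (V : Type) [AddCommGroup V] (S : ℂ → V) (c : V), Inv0 N S →
      (∀ z : ℂ, 0 < z.im → S (-1 / (N * z)) = c - S z) →
      ∃ k : ℤ, zs N A B ρ T T' S = 2 • ∑ Q ∈ T, gch B Q • S (froot Q) + k • c

/-- The involution moves one divisor to the other. -/
def WPStmt : Prop := ∀ (N p A B : ℕ) (ρ ρ' β : ℤ) (T T' R R' : Finset Fm) (w : MZ),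
  Cx N p A B ρ ρ' β → FReps N (-(A * B : ℕ)) ρ T → FReps N (-(A * B : ℕ)) (-ρ) T' →
  FReps N (-(A * B : ℕ)) ρ' R → FReps N (-(A * B : ℕ)) (-ρ') R' → ALm N p w →
  ∃ e : ℤ, (e = 1 ∨ e = -1) ∧ ∀ (V : Type) [AddCommGroup V] (S : ℂ → V), Inv0 N S →
    zs N A B ρ' R R' S = e • zs N A B ρ T T' fun z => S (act w z)

/-- Special points have algebraic images. -/
def AGStmt : Prop := ∀ (W : WeierstrassCurve ℚ) [W.IsElliptic] (N n : ℕ) (P : Par W N) (z : ℂ),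
  0 < n → CM n z → P.φ z ∈ Alg W

/-- The height pairing is the sum of the Green function and of logarithms. -/
def HTStmt : Prop := ∀ (W : WeierstrassCurve ℚ) [W.IsElliptic] (N : ℕ) (P : Par W N),
  (∃ W' : WeierstrassCurve ℤ, W = W'.map (Int.castRingHom ℚ)) → ∃ B₀ : ℕ,
  ∀ (p A B : ℕ) (ρ ρ' β : ℤ) (T T' : Finset Fm) (l l₀ : ℕ) (a : ℕ →₀ ℤ) (u : ℂ) (V : ℂ → ℂ),
  Cx N p A B ρ ρ' β → B₀ < A * B → FReps N (-(A * B : ℕ)) ρ T → FReps N (-(A * B : ℕ)) (-ρ) T' →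
  l.Prime → l₀.Prime → l ≠ l₀ → l₀ ≠ 2 → et (A * B) l₀ = -1 → Sup (N * l * l₀) a →
  Th N (cmb (fun m => nuW (Yw N A B ρ' m)) a) (U1 P.L P.F u) V → P.per.unif u ∈ Alg W →
  (et (A * B) l = 1 → hpair (zs N A B ρ T T' (hsum l₀ P.φ)) (P.per.unif u) -
    2 * zs N A B ρ T T' (hsum l₀ (gT (U1 P.L P.F u) V)) ∈ LogS l) ∧
  (et (A * B) l ≠ 1 → ∃ (C : ℚ) (k : ℕ), ∀ j : ℕ, ∃ r : ℚ, |r| ≤ C * (j + 1) ^ k ∧
    hpair (zs N A B ρ T T' (hsum (l₀ * l ^ j) P.φ)) (P.per.unif u) -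
      2 * zs N A B ρ T T' (hsum (l₀ * l ^ j) (gT (U1 P.L P.F u) V)) - r * Real.log l ∈ LogS l)

/-- The formula of Gross and Zagier, in qualitative form. -/
def GZStmt : Prop := ∀ (W : WeierstrassCurve ℚ) [W.IsElliptic] (N : ℕ) (P : Par W N),
  (∃ W' : WeierstrassCurve ℤ, W = W'.map (Int.castRingHom ℚ)) →
  IsOfFinAddOrder (P.per.unif P.t0) → ∃ B₀ : ℕ,
  ∀ (p A B : ℕ) (ρ ρ' β : ℤ) (T T' : Finset Fm) (F₂ : ℂ → ℂ), Cx N p A B ρ ρ' β → B₀ < A * B →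
  FReps N (-(A * B : ℕ)) ρ T → FReps N (-(A * B : ℕ)) (-ρ) T' → Cp P F₂ p →
  LA F₂ A 1 = 0 → LA F₂ B 1 = 0 → deriv (LA F₂ B) 1 = 0 →
  IsOfFinAddOrder (zs N A B ρ T T' fun z => P.per.unif (F₂ z)) →
  (∀ M : ℕ, M ≠ 0 → ∃ l : ℕ, l.Prime ∧ ¬ l ∣ M ∧ et (A * B) l = -1 ∧ P.a l ≠ 0) →
  ¬ IsOfFinAddOrder (∑ Q ∈ T, gch B Q • P.φ (froot Q)) →
  LA P.F A 1 ≠ 0 ∧ LA P.F B 1 = 0 ∧ deriv (LA P.F B) 1 ≠ 0

end Pool.Agent.G5
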