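import Pool.Agent.Lib.MP_696deb_nt.B5.PJ3
import Pool.Agent.Lib.MP_696deb_nt.B5.AM
import Pool.Agent.Lib.MP_696deb_nt.B5.Z1

/-! The projector onto the joint eigenspace of the Hecke operators. -/

set_option autoImplicit false

open PowerSeries Filter Topology
open scoped MatrixGroups UpperHalfPlane Real

namespace Pool.Agent.B5

open Pool.Agent.Lib.MP_696deb_nt Pool.Agent.B4.GE

variable {N S l : ℕ} {G u : ℂ → ℂ} {A : ℂ⟦X⟧} {w : List ℕ} {z : ℂ}

theorem ci_mk (hN : N ≠ 0) (hG : G5.Ci N G) (hD : Der G u) : Mk N 2 u ∧ Cu u := by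
  have o : IsOpen {z : ℂ | 0 < z.im} := isOpen_lt continuous_const Complex.continuous_im
  have hc : Cu u := fun g hg => by
    obtain ⟨A, hA⟩ := hG.cusp g hg
    obtain ⟨F₁, q, hF⟩ := hA.hasDerivAt
    have n0 : (0 : ℝ) < N := by exact_mod_cast Nat.pos_of_ne_zero hN
    have n1 : (N : ℂ) ≠ 0 := by exact_mod_cast hN
    have k1 := (q.tendsto.comp (tendsto_affine (inv_pos.2 n0) 0)).const_mul
      (2 * π * Complex.I / N)
    rw [coeff_zero_X_mul, mul_zero] at k1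
    refine k1.congr' (ev_pos.mono fun z hz => ?_)
    have k2 : 0 < (((N : ℝ)⁻¹ : ℝ) * z + 0 : ℂ).im := by simpa using mul_pos (inv_pos.2 n0) hz
    have k3 : (N : ℂ) * ((((N : ℝ)⁻¹ : ℝ) : ℂ) * z + 0) = z := by
      push_cast
      field_simp
      ring
    have k4 := HasDerivAt.comp_of_eq _ (hD.act (g := g) (hg ▸ one_pos) z hz)
      ((hasDerivAt_id _).const_mul (N : ℂ)) k3.symm
    have k5 := (hF _ k2).unique k4
    rw [hg] at k5
    dsimp only [Function.comp_apply]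
    rw [div_mul_eq_mul_div, k5]
    simp only [sk]
    field_simp
    simp
  refine ⟨⟨fun z hz => ?_, fun g hg z hz => ?_, fun g hg => .of_tendsto (hc g hg)⟩, hc⟩
  · exact (((DifferentiableOn.deriv (fun z hz => (hG.hol z hz).differentiableWithinAt) o) z
      hz).differentiableAt (o.mem_nhds hz)).congr_of_eventuallyEq
      ((o.eventually_mem hz).mono fun z hz => (hD z hz).deriv.symm)
  · obtain ⟨c, hc⟩ := hG.inv g hg
    have k2 := (hD.act (hg.1 ▸ one_pos) z hz).unique (((hD z hz).add_const c).congr_of_eventuallyEq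
      ((o.eventually_mem hz).mono hc))
    dsimp only at k2
    rw [hg.1, Int.cast_one, one_mul, sk, div_eq_iff (pow_ne_zero _ (mh_den hg.1 hz))] at k2
    rw [k2, mul_comm]

theorem ci_of_der (hN : N ≠ 0) (hD : Der G u) (hu : Mk N 2 u) (hc : Cu u) : G5.Ci N G := by
  refine ⟨fun z hz => (hD z hz).differentiableAt, fun g hg => ?_, fun g hg => ?_⟩
  · obtain ⟨c, hc⟩ := const_of_deriv (G := fun z => G (act g z) - G z) fun z hz => by
      convert! (hD.act (hg.1 ▸ one_pos) z hz).fun_sub (hD z hz) using 1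
      dsimp only
      rw [hg.1, hu.sk_eq hg hz, Int.cast_one, one_mul, sub_self]
    exact ⟨c, fun z hz => by rw [← hc z hz, add_sub_cancel]⟩
  · obtain ⟨A, q⟩ := hu.qe
    have h0 := hc.coeff0 q
    obtain ⟨B, hB⟩ := B4.gl_cusp hN q h0 (fun γ h h' => hu.inv γ ⟨h, h'⟩) hg (hc g hg)
    obtain ⟨c, hc⟩ := const_of_deriv (G := fun z => G z - (2 * π * Complex.I)⁻¹ * B4.prF A z)
      fun z hz => by
        convert! (hD z hz).fun_sub ((B4.gl_deriv q h0 hz).const_mul (2 * π * Complex.I)⁻¹) using 1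
        rw [inv_mul_cancel_left₀ Complex.two_pi_I_ne_zero, sub_self]
    refine ⟨_, ((QE.const c).add (hB.smul (2 * π * Complex.I)⁻¹)).congr fun z hz => ?_⟩
    rw [← hc _ (mh_pos hg (im_V hN hz)), sub_add_cancel]

theorem qe_bound (h : QE G A) {δ : ℝ} (hδ : 0 < δ) : ∃ C, ∀ z : ℂ, δ ≤ z.im → ‖G z‖ ≤ C := by
  obtain ⟨G₀, h1, h2⟩ := h
  have h3 : Real.exp (-2 * π * δ) < 1 := Real.exp_lt_one_iff.2 (by nlinarith [Real.pi_pos])
  obtain ⟨C, hC⟩ := (isCompact_closedBall (0 : ℂ) (Real.exp (-2 * π * δ))).exists_bound_of_continuousOn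
    (h1.differentiableOn.continuousOn.mono (Metric.closedBall_subset_ball h3))
  refine ⟨C, fun z hz => ?_⟩
  rw [h2 z (hδ.trans_le hz)]
  refine hC _ ?_
  rw [mem_closedBall_zero_iff, norm_q1, Real.exp_le_exp]
  nlinarith [Real.pi_pos]

/-- An integral of a cusp form with invariant real part is constant. -/
theorem ci_const (hN : N ≠ 0) (hG : G5.Ci N G) (h : Inv0 N fun z => (G z).re) :
    ∃ c, ∀ z : ℂ, 0 < z.im → G z = c := by
  have : NeZero N := ⟨hN⟩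
  have n0 : (0 : ℝ) < N := by exact_mod_cast Nat.pos_of_ne_zero hN
  have n1 : (N : ℂ) ≠ 0 := by exact_mod_cast hN
  have e : ∀ (γ : SL(2, ℤ)) (z : ℍ), ((γ • z : ℍ) : ℂ) = act γ.1 z := coe_smul_eq_mob
  have hi : ∀ γ ∈ CongruenceSubgroup.Gamma0 N, ∀ z : ℍ, (G (γ • z : ℍ)).re = (G z).re :=
    fun γ hγ z => by rw [e]; exact h _ (pj_gamma.1 hγ) z z.im_pos
  have hb : ∀ r : SL(2, ℤ), ∃ C, ∀ z : ℍ, 1 / 2 ≤ z.im → |(G (r • z : ℍ)).re| ≤ C := fun r => by
    obtain ⟨A, hA⟩ := hG.cusp r.1 r.2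
    obtain ⟨C, hC⟩ := qe_bound hA (δ := 1 / 2 / N) (by positivity)
    refine ⟨C, fun z hz => (Complex.abs_re_le_norm _).trans ?_⟩
    have := hC (z / N) (by
      rw [Complex.div_natCast_im]
      exact div_le_div_of_nonneg_right hz n0.le)
    rwa [mul_div_cancel₀ _ n1, ← e] at this
  choose C hC using hb
  obtain ⟨T, hT⟩ := exists_reps (CongruenceSubgroup.Gamma0 N)
  obtain ⟨C₀, h0⟩ := (T.finite_toSet.image C).bddAbove
  refine HA.hol_const hG.hol (c := (G UpperHalfPlane.I).re) fun z hz =>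
    liouville_sub (CongruenceSubgroup.Gamma0 N) (U := fun z => (G z).re) (C := C₀)
      (Complex.continuous_re.comp hG.hol.continuous_coe) (fun z => ?_) hi
      (fun g ρ hρ => (circ_hol_clm hG.hol Complex.reCLM g hρ).ge) ⟨z, hz⟩ UpperHalfPlane.I
  obtain ⟨g, z₀, -, h1, rfl⟩ := HA.exists_strip z
  obtain ⟨γ, hγ, r, hr, rfl⟩ := hT g
  rw [mul_smul, hi γ hγ]
  exact (hC r z₀ (h1 ▸ HA.half_le_ht _)).trans (h0 (Set.mem_image_of_mem _ hr))

theorem ci_coz (hN : N ≠ 0) (hG : G5.Ci N G) : Coz N {z : ℂ | 0 < z.im} G := by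
  refine ⟨hG.inv, fun g hg => ⟨N, hN, fun z hz => ?_⟩⟩
  obtain ⟨A, hA⟩ := hG.cusp g hg
  have n0 : (0 : ℝ) < N := by exact_mod_cast Nat.pos_of_ne_zero hN
  have n1 : (N : ℂ) ≠ 0 := by exact_mod_cast hN
  have := hA.periodic 1 (z := z / N) (by rw [Complex.div_natCast_im]; exact div_pos hz n0)
  rwa [Int.cast_one, mul_add, mul_one, mul_div_cancel₀ _ n1] at this

theorem hf_word {V : Type} [AddCommGroup V] (w : List ℕ) (J : ℂ → V) :
    G5.hf V (w.map G5.tl).prod J = Tzw w J := by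
  induction w with
  | nil => rw [List.map_nil, List.prod_nil, map_one]; rfl
  | cons l w ih =>
    rw [List.map_cons, List.prod_cons, map_mul, Module.End.mul_apply, ih, G5.hf,
      FreeAlgebra.lift_ι_apply]
    rfl

theorem he_word (a : ℕ → ℤ) (w : List ℕ) : G5.he a (w.map G5.tl).prod = (w.map a).prod := by
  rw [map_list_prod, List.map_map]
  congr 2
  funext l
  exact FreeAlgebra.lift_ι_apply a l

theorem word_mem (hw : ∀ l ∈ w, l.Prime ∧ ¬ l ∣ S) : (w.map G5.tl).prod ∈ G5.HA S :=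
  list_prod_mem fun _ hx => by
    obtain ⟨l, hl, rfl⟩ := List.mem_map.1 hx
    exact Algebra.subset_adjoin ⟨l, hw l hl, rfl⟩

theorem tw_mk (hu : Mk N 2 u) (hc : Cu u) (hw : ∀ l ∈ w, l.Prime) :
    Mk N 2 (Tw N w u) ∧ Cu (Tw N w u) := by
  induction w with
  | nil => exact ⟨hu, hc⟩
  | cons l w ih =>
    have h := ih fun l hl => hw l (List.mem_cons_of_mem _ hl)
    exact ⟨h.1.Tl (hw l List.mem_cons_self), h.2.Tl (hw l List.mem_cons_self)⟩

theorem mk_zero : Mk N 2 (fun _ => 0) ∧ Cu fun _ => 0 :=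
  ⟨⟨fun _ _ => differentiableAt_const _, fun _ _ _ _ => by simp,
    fun _ _ => by simpa using Bdd.const 0⟩, fun _ _ => by simp⟩

theorem mk_sum {ι : Type*} (s : Finset ι) {v : ι → ℂ → ℂ} (h : ∀ i, Mk N 2 (v i) ∧ Cu (v i)) :
    Mk N 2 (fun z => ∑ i ∈ s, v i z) ∧ Cu fun z => ∑ i ∈ s, v i z := by
  classical
  induction s using Finset.induction_on with
  | empty => simpa only [Finset.sum_empty] using mk_zero
  | insert i s hi ih =>
    simp only [Finset.sum_insert hi]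
    exact ⟨(h i).1.add ih.1, (h i).2.add ih.2⟩

/-- The space of expansions of cusp forms. -/
def CV0 (N : ℕ) : Submodule ℂ ℂ⟦X⟧ where
  carrier := {A | ∃ G, (Mk N 2 G ∧ Cu G) ∧ QE G A}
  add_mem' := fun ⟨_, h, q⟩ ⟨_, h', q'⟩ => ⟨_, ⟨h.1.add h'.1, h.2.add h'.2⟩, q.add q'⟩
  zero_mem' := ⟨fun _ => 0, mk_zero, by simpa using QE.const 0⟩
  smul_mem' := fun c A ⟨G, h, q⟩ => ⟨fun z => c * G z, ⟨h.1.smul c, h.2.smul c⟩, by
    rw [smul_eq_C_mul]
    exact q.smul c⟩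

theorem CV0_fin (hN : N ≠ 0) : FiniteDimensional ℂ (CV0 N) := by
  obtain ⟨μ, hμ⟩ := idx_sq hN
  refine FiniteDimensional.of_injective
    (LinearMap.pi fun i : Fin (μ + 1) => coeff (i : ℕ) ∘ₗ (CV0 N).subtype)
    ((injective_iff_map_eq_zero _).2 fun ⟨A, G, h, q⟩ h0 => Subtype.ext ?_)
  refine q.unique (by simpa using QE.const 0) (F' := fun _ => 0) fun z hz => ?_
  exact h.1.sturm (m := μ + 1) hμ q (by omega) (fun n hn => congrFun h0 ⟨n, hn⟩) hz

/-- The projector with real coefficients. -/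
theorem prj_real (hN : N ≠ 0) (hNS : N ∣ S) (a : ℕ → ℝ) :
    ∃ (n : ℕ) (r : Fin n → ℝ) (w : Fin n → List ℕ), (∀ k, ∀ l ∈ w k, l.Prime ∧ ¬ l ∣ S) ∧
      ∑ k, r k * ((w k).map a).prod ≠ 0 ∧ ∀ u, Mk N 2 u → Cu u → ∀ l : ℕ, l.Prime → ¬ l ∣ S →
        ∀ z : ℂ, 0 < z.im → ∑ k, r k * (Tw N (l :: w k) u z - a l * Tw N (w k) u z) = 0 := by
  have := CV0_fin hN
  let ι := {l : ℕ // l.Prime ∧ ¬ l ∣ S}
  have hι : ∀ l : ι, ¬ l.1 ∣ N := fun l h => l.2.2 (h.trans hNS)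
  let T : ι → Module.End ℂ (CV0 N) := fun l => (tL N l).restrict fun _ ⟨_, h, q⟩ =>
    ⟨_, ⟨h.1.Tl l.2.1, h.2.Tl l.2.1⟩, qe_Tl l.2.1 q⟩
  have hT : ∀ (l : ι) (v : CV0 N), (T l v).1 = tS N l v.1 := fun _ _ => rfl
  have hTa : ∀ (l : ι) (v : CV0 N) (G : ℂ → ℂ), QE G v.1 →
      QE (fun z => Tl N l G z - a l * G z) (T l v - (a l : ℂ) • v).1 := fun l v G q => by
    convert (qe_Tl (N := N) l.2.1 q).sub (q.smul (a l)) using 1
    rw [Submodule.coe_sub, hT, ← smul_eq_C_mul]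
    rfl
  obtain ⟨n, r, w, h1, h2⟩ := pj_lin' T (fun l => a l)
    (fun i j => LinearMap.ext fun v => Subtype.ext (tS_comm i.2.1 j.2.1 (hι i) (hι j) v.1))
    fun l v h => by
      obtain ⟨G, hG, q⟩ := v.2
      have q1 := hTa l v G q
      have q2 := hTa l _ _ q1
      rw [h, sub_self] at q2
      refine sub_eq_zero.1 (Subtype.ext
        (q1.unique (by simpa using QE.const 0) (F' := fun _ => 0) fun z hz => ?_))
      exact sub_eq_zero.2 (pj_semi hN l.2.1 (hι l) hG.1 hG.2 (a l)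
        (fun z hz => by have := QE.zero q2 hz; exact sub_eq_zero.1 this) hz)
  refine ⟨n, r, fun k => (w k).map Subtype.val, fun k l hl => ?_, ?_, fun G hG hc l hl hS z hz => ?_⟩
  · obtain ⟨l', -, rfl⟩ := List.mem_map.1 hl
    exact l'.2
  · simpa only [List.map_map, Function.comp_def] using h1
  obtain ⟨B, q⟩ := hG.qe
  let v : CV0 N := ⟨B, G, ⟨hG, hc⟩, q⟩
  have h3 : ∀ u : List ι, QE (Tw N (u.map Subtype.val) G) ((u.map T).prod v).1 := fun u => by
    induction u with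
    | nil => exact q
    | cons l u ih => exact qe_Tl l.2.1 ih
  have h4 := qe_sum Finset.univ fun k => (hTa ⟨l, hl, hS⟩ _ _ (h3 (w k))).smul (r k)
  have h5 := sub_eq_zero.2 (h2 ⟨l, hl, hS⟩ v)
  rw [map_sum, Finset.smul_sum, ← Finset.sum_sub_distrib] at h5
  have h6 := congrArg Subtype.val h5
  rw [Submodule.coe_sum] at h6
  refine QE.zero (K := fun z => ∑ k, (r k : ℂ) * (Tw N (l :: (w k).map Subtype.val) G z -
    a l * Tw N ((w k).map Subtype.val) G z)) ?_ hz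
  convert! h4 using 1
  rw [← Submodule.coe_zero (p := CV0 N), ← h6]
  refine Finset.sum_congr rfl fun k _ => ?_
  rw [map_smul, smul_comm, ← smul_eq_C_mul, ← Submodule.coe_smul]
  exact congrArg Subtype.val (smul_sub _ _ _).symm

/-- The same on real parabolic classes. -/
theorem prj_coc (hN : N ≠ 0) (hNS : N ∣ S) (a : ℕ → ℤ) :
    ∃ (n : ℕ) (r : Fin n → ℝ) (w : Fin n → List ℕ), (∀ k, ∀ l ∈ w k, l.Prime ∧ ¬ l ∣ S) ∧
      ∑ k, r k * (((w k).map a).prod : ℤ) ≠ 0 ∧ ∀ U, Stab U → ∀ J : ℂ → ℝ, Coz N U J →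
        ∀ l : ℕ, l.Prime → ¬ l ∣ S →
          InvU N U fun z => ∑ k, r k * (Tzw (l :: w k) J z - a l • Tzw (w k) J z) := by
  obtain ⟨n, r, w, h1, h2, h3⟩ := prj_real hN hNS fun l => (a l : ℝ)
  have h1' : ∀ k, ∀ l ∈ w k, l.Prime ∧ ¬ l ∣ N := fun k l hl =>
    ⟨(h1 k l hl).1, fun e => (h1 k l hl).2 (e.trans hNS)⟩
  refine ⟨n, r, w, h1, by simpa only [Int.cast_list_prod, List.map_map, Function.comp_def] using h2,
    fun U hU J hJ l hl hS => ?_⟩
  have h4 : ∀ k, ∀ l' ∈ l :: w k, l'.Prime ∧ ¬ l' ∣ N := fun k =>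
    List.forall_mem_cons.2 ⟨⟨hl, fun e => hS (e.trans hNS)⟩, h1' k⟩
  obtain ⟨G, u, k1, k2, k3, k4⟩ := hJ.exists_der hN hU
  obtain ⟨d, hd⟩ := const_of_deriv
    (G := fun z => ∑ k, r k * (Tzw (l :: w k) G z - (a l : ℝ) * Tzw (w k) G z)) fun z hz => by
      convert! HasDerivAt.fun_sum (u := Finset.univ) fun k _ =>
        ((k1.Tzw (h4 k) z hz).fun_sub
          ((k1.Tzw (h1' k) z hz).const_mul ((a l : ℝ) : ℂ))).const_mul (r k : ℂ) using 1
      exact (h3 u k2 k3 l hl hS z hz).symm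
  have e : ∀ z ∈ U, ∑ k, r k * (Tzw (l :: w k) J z - a l • Tzw (w k) J z) =
      d.re - ∑ k, r k * (Tzw (l :: w k) (fun z => (G z).re - J z) z -
        a l * Tzw (w k) (fun z => (G z).re - J z) z) := fun z hz => by
    have e1 : ∀ w, Tzw w (fun z => (G z).re) z = (Tzw w G z).re := fun w =>
      congrFun (Tzw_map Complex.reAddGroupHom w G) z
    simp only [← hd z (hU.pos z hz), Tzw_sub, e1, Complex.sub_re, Complex.re_sum,
      Complex.re_ofReal_mul, zsmul_eq_mul, ← Finset.sum_sub_distrib]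
    exact Finset.sum_congr rfl fun k _ => by ring
  intro g hg z hz
  dsimp only
  rw [e z hz, e _ (hU.act z hz g (hg.1 ▸ one_pos))]
  congr 1
  exact Finset.sum_congr rfl fun k _ => by
    rw [k4.Tzw hU (h1' k) g hg z hz, k4.Tzw hU (h4 k) g hg z hz]

/-- The same with integral coefficients. -/
theorem prj_int (hN : N ≠ 0) (hNS : N ∣ S) (a : ℕ → ℤ) :
    ∃ (n : ℕ) (m : Fin n → ℤ) (w : Fin n → List ℕ), (∀ k, ∀ l ∈ w k, l.Prime ∧ ¬ l ∣ S) ∧
      ∑ k, m k * ((w k).map a).prod ≠ 0 ∧ ∀ U, Stab U → ∀ J : ℂ → ℝ, Coz N U J →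
        ∀ l : ℕ, l.Prime → ¬ l ∣ S →
          InvU N U fun z => ∑ k, m k • (Tzw (l :: w k) J z - a l • Tzw (w k) J z) := by
  obtain ⟨n, r, w, h1, h2, h3⟩ := prj_coc hN hNS a
  obtain ⟨ρ, hρ⟩ := pj_fun h2
  obtain ⟨d, d0, m, hm⟩ : ∃ d : ℕ, d ≠ 0 ∧ ∃ m : Fin n → ℤ, ∀ k, (m k : ℚ) = d * ρ (r k) := by
    refine ⟨∏ k, (ρ (r k)).den, Finset.prod_ne_zero_iff.2 fun k _ => (ρ (r k)).den_nz, ?_⟩
    have : ∀ k, ∃ m : ℤ, (m : ℚ) = (∏ k, (ρ (r k)).den : ℕ) * ρ (r k) := fun k => by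
      obtain ⟨t, ht⟩ := Finset.dvd_prod_of_mem (fun k => (ρ (r k)).den) (Finset.mem_univ k)
      refine ⟨t * (ρ (r k)).num, ?_⟩
      rw [ht, Int.cast_mul, ← Rat.mul_den_eq_num]
      push_cast
      ring
    choose m hm using this
    exact ⟨m, hm⟩
  have hq : ∀ (x : ℝ) (y : ℚ), ρ (x * y) = ρ x * y := fun x y => by
    rw [mul_comm, ← Rat.smul_def, map_smul, smul_eq_mul, mul_comm]
  refine ⟨n, m, w, h1, fun e => d0 ?_, fun U hU J hJ l hl hS g hg z hz => ?_⟩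
  · have e1 : ((∑ k, m k * ((w k).map a).prod : ℤ) : ℚ) = d := by
      rw [← mul_one (d : ℚ), ← hρ, map_sum, Finset.mul_sum, Int.cast_sum]
      refine Finset.sum_congr rfl fun k _ => ?_
      rw [Int.cast_mul, hm, ← Rat.cast_intCast (α := ℝ), hq, mul_assoc]
    rw [e] at e1
    exact_mod_cast e1.symm
  refine sub_eq_zero.1 ((Module.forall_dual_apply_eq_zero_iff ℚ _).1 fun σ => ?_)
  let σ' : ℝ →+ ℝ := (Rat.castHom ℝ).toAddMonoidHom.comp σ.toAddMonoidHom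
  have e1 := h3 U hU _ (hJ.map σ') l hl hS g hg z hz
  simp only [Tzw_map, ← map_zsmul, ← map_sub] at e1
  have e2 : ∀ x y : Fin n → ℝ, ∑ k, r k * σ' (x k) = ∑ k, r k * σ' (y k) →
      σ (∑ k, m k • x k - ∑ k, m k • y k) = 0 := fun x y h => by
    have e3 := congrArg ρ h
    have e4 : ∀ x : Fin n → ℝ, σ (∑ k, m k • x k) = d * ρ (∑ k, r k * σ' (x k)) := fun x => by
      rw [map_sum, map_sum, Finset.mul_sum]
      refine Finset.sum_congr rfl fun k _ => ?_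
      rw [map_zsmul, zsmul_eq_mul, hm, mul_assoc, ← hq]
      rfl
    rw [map_sub, e4, e4, e3, sub_self]
  exact e2 _ _ e1

/-- The projector. -/
theorem prj_eig (hN : N ≠ 0) (hNS : N ∣ S) (a : ℕ → ℤ) : ∃ t ∈ G5.HA S, G5.he a t ≠ 0 ∧
    ∀ G u : ℂ → ℂ, G5.Ci N G → Der G u →
      ∃ v, Eg N S (fun l => a l) v ∧ Der (G5.hf ℂ t G) v := by
  obtain ⟨n, m, w, h1, h2, h3⟩ := prj_int hN hNS a
  have h1' : ∀ k, ∀ l ∈ w k, l.Prime ∧ ¬ l ∣ N := fun k l hl =>
    ⟨(h1 k l hl).1, fun e => (h1 k l hl).2 (e.trans hNS)⟩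
  refine ⟨∑ k, m k • ((w k).map G5.tl).prod,
    sum_mem fun k _ => zsmul_mem (word_mem (h1 k)) _, ?_, fun G u hG hD => ?_⟩
  · simpa only [map_sum, map_zsmul, he_word, smul_eq_mul] using h2
  obtain ⟨k1, k2⟩ := ci_mk hN hG hD
  have k3 := fun k => tw_mk k1 k2 fun l hl => (h1 k l hl).1
  have k4 := mk_sum Finset.univ (v := fun k z => m k * Tw N (w k) u z)
    fun k => ⟨(k3 k).1.smul _, (k3 k).2.smul _⟩
  have k5 : G5.hf ℂ (∑ k, m k • ((w k).map G5.tl).prod) G = fun z => ∑ k, m k * Tzw (w k) G z := by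
    funext z
    rw [map_sum, LinearMap.sum_apply, Finset.sum_apply]
    refine Finset.sum_congr rfl fun k _ => ?_
    rw [map_zsmul, LinearMap.smul_apply, hf_word, Pi.smul_apply, zsmul_eq_mul]
  have k6 : Der (fun z => ∑ k, m k * Tzw (w k) G z) fun z => ∑ k, m k * Tw N (w k) u z :=
    fun z hz => HasDerivAt.fun_sum fun k _ => (hD.Tzw (h1' k) z hz).const_mul (m k : ℂ)
  refine ⟨_, ⟨k4.1, k4.2, fun l hl hS z hz => ?_⟩, k5 ▸ k6⟩
  have k7 : Der (fun z => Tz l (fun z => ∑ k, m k * Tzw (w k) G z) z +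
      (-a l : ℂ) * ∑ k, m k * Tzw (w k) G z) fun z =>
      Tl N l (fun z => ∑ k, m k * Tw N (w k) u z) z + (-a l : ℂ) * ∑ k, m k * Tw N (w k) u z :=
    fun z hz => (k6.Tz hl (fun e => hS (e.trans hNS)) z hz).fun_add ((k6 z hz).const_mul _)
  obtain ⟨c, hc⟩ := ci_const hN (ci_of_der hN k7 ((k4.1.Tl hl).add (k4.1.smul _))
    ((k4.2.Tl hl).add (k4.2.smul _))) fun g hg z hz => by
      have e1 := h3 _ stab_top _ ((ci_coz hN hG).map Complex.reAddGroupHom) l hl hS g hg z hz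
      simp only [Tzw_map, ← map_zsmul, ← map_sub, ← map_sum] at e1
      have e2 : ∀ z, Tz l (fun z => ∑ k, m k * Tzw (w k) G z) z +
          (-a l : ℂ) * ∑ k, m k * Tzw (w k) G z =
          ∑ k, m k • (Tzw (l :: w k) G z - a l • Tzw (w k) G z) := fun z => by
        rw [Tz, Finset.sum_comm, Finset.mul_sum, ← Finset.sum_add_distrib]
        refine Finset.sum_congr rfl fun k _ => ?_
        rw [Tzw_cons, Tz, ← Finset.mul_sum, zsmul_eq_mul, zsmul_eq_mul]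
        ring
      dsimp only
      rw [e2, e2]
      exact e1
  have k8 := (k7 z hz).unique ((hasDerivAt_const z c).congr_of_eventuallyEq
    (((isOpen_lt continuous_const Complex.continuous_im).eventually_mem hz).mono hc))
  linear_combination k8

end Pool.Agent.B5
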