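import Pool.Agent.Lib.MP_696deb_nt.B5.Z3
import Pool.Agent.Lib.MP_696deb_nt.B5.ZHa
import Pool.Agent.Lib.MP_696deb_nt.B5.PJ6

/-! The Eisenstein operator makes every class parabolic. -/

set_option autoImplicit false

open Finset
open scoped Classical

namespace Pool.Agent.G5

open Pool.Agent.Lib.MP_696deb_nt Pool.Agent.B4.GE Pool.Agent.Shared.Weier

namespace ES

variable {N l : ℕ} {I : ℂ → ℝ} {g g' : MZ} {z : ℂ} {τ : ℝ}

/-- `τ` is the value of the class of `I` on the parabolic element at the cusp of `g`. -/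
def Pa (N : ℕ) (I : ℂ → ℝ) (g : MZ) (τ : ℝ) : Prop :=
  ∀ z : ℂ, 0 < z.im → I (act g (z + N)) = I (act g z) + τ

theorem exists_pa (hI : ∀ g, G0 N g → ∃ c, ∀ z : ℂ, 0 < z.im → I (act g z) = I z + c)
    (hg : g.det = 1) : ∃ τ, Pa N I g τ := by
  obtain ⟨k1, k2⟩ := conj_mem (N := N) hg
  obtain ⟨c, hc⟩ := hI _ k1
  exact ⟨c, fun z hz => by rw [← k2 z hz, hc _ (act_pos (by omega) hz)]⟩

theorem Pa.iter (h : Pa N I g τ) (j : ℕ) (hz : 0 < z.im) :
    I (act g (z + j * N)) = I (act g z) + j * τ := by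
  induction j with
  | zero => simp
  | succ j ih =>
    rw [Nat.cast_succ, add_mul, one_mul, ← add_assoc, h _ (by simpa using hz), ih, Nat.cast_succ]
    ring

theorem exists_shift (hN : Squarefree N) {c c' x y : ℤ} (hx : IsCoprime (N : ℤ) x)
    (hy : IsCoprime (N : ℤ) y) (e : x * c = c' * y) (d d' : ℤ) :
    ∃ j : ℤ, (N : ℤ) ∣ c' * d - (c' * j + d') * c := by
  have h1 := Int.gcd_dvd_left (N : ℤ) (c * c')
  have h2 := Int.gcd_dvd_right (N : ℤ) (c * c')
  have h3 := Int.gcd_eq_gcd_ab (N : ℤ) (c * c')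
  generalize (Int.gcd (N : ℤ) (c * c') : ℤ) = G at h1 h2 h3
  have s : Squarefree G := (Int.squarefree_natCast.2 hN).squarefree_of_dvd h1
  have h4 : G ∣ c := (s.dvd_pow_iff_dvd two_ne_zero).1
    ((hx.of_isCoprime_of_dvd_left h1).dvd_of_dvd_mul_left (by
      rw [show x * c ^ 2 = c * c' * y by linear_combination c * e]
      exact h2.mul_right _))
  have h5 : G ∣ c' := (s.dvd_pow_iff_dvd two_ne_zero).1
    ((hy.of_isCoprime_of_dvd_left h1).dvd_of_dvd_mul_left (by
      rw [show y * c' ^ 2 = c * c' * x by linear_combination -c' * e]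
      exact h2.mul_right _))
  obtain ⟨k, hk⟩ := (h5.mul_right d).sub (h4.mul_left d')
  exact ⟨Int.gcdB N (c * c') * k, Int.gcdA N (c * c') * k, by linear_combination hk + k * h3⟩

/-- Equivalent cusps have the same value. -/
theorem Pa.of_cusp (hI : ∀ g, G0 N g → ∃ c, ∀ z : ℂ, 0 < z.im → I (act g z) = I z + c)
    (h : Pa N I g τ) (hg : g.det = 1) (hg' : g'.det = 1) {j : ℤ}
    (e : (N : ℤ) ∣ g' 1 0 * g 1 1 - (g' 1 0 * j + g' 1 1) * g 1 0) : Pa N I g' τ := fun z hz => by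
  obtain ⟨c, hc⟩ := hI (g' * !![1, j; 0, 1] * g.adjugate)
    ⟨by simp [hg, hg', det_adjugate_two], by
      convert e using 1
      simp [Matrix.mul_apply, Matrix.adjugate_fin_two]
      ring⟩
  have k : ∀ w : ℂ, 0 < w.im → I (act g' (w + j)) = I (act g w) + c := fun w hw => by
    rw [← hc _ (act_pos (by omega) hw), ← act_mul _ (by omega) hw, mul_assoc _ _ g,
      Matrix.adjugate_mul, hg, one_smul, mul_one, act_mul _ (by simp) hw]
    simp [act_of, mob]
  have p : 0 < (z - j).im := by simpa using hz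
  have k1 := k _ p
  have k2 := k (z - j + N) (by simpa using hz)
  rw [h _ p, show z - j + N + j = z + N by ring] at k2
  rw [sub_add_cancel] at k1
  rw [k1, k2]
  ring

theorem coz (hN : Squarefree N) (hl : l.Prime) (h : ¬ l ∣ N)
    (hI : ∀ g, G0 N g → ∃ c, ∀ z : ℂ, 0 < z.im → I (act g z) = I z + c) :
    B5.Coz N {z : ℂ | 0 < z.im} fun z => Tf ℝ l I z - (l + 1) * I z := by
  refine ⟨fun g hg => ?_, fun g hg => ⟨l * N, mul_ne_zero hl.ne_zero hN.ne_zero, fun z hz => ?_⟩⟩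
  · obtain ⟨t, -, ht⟩ := B5.CocH.Tz (H := ⊤) (fun g hg => (hI g hg).imp fun c hc => ⟨trivial, hc⟩)
      B5.stab_top hl h g hg
    obtain ⟨c, hc⟩ := hI g hg
    refine ⟨t - (l + 1) * c, fun z hz => ?_⟩
    rw [show Tf ℝ l I (act g z) = Tf ℝ l I z + t from ht z hz, hc z hz]
    ring
  replace hz : 0 < z.im := hz
  obtain ⟨τ, hτ⟩ := exists_pa hI hg
  obtain ⟨σ, hσ⟩ := (isReps_rP hl).perm hg
  have l0 : (l : ℂ) ≠ 0 := Nat.cast_ne_zero.2 hl.ne_zero
  have key : ∀ i, I (act (rP l i) (act g (z + l * N))) = I (act (rP l i) (act g z)) +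
      (σ i).elim ((l : ℝ) ^ 2) (fun _ => 1) * τ := fun i => by
    obtain ⟨k, h1, h2⟩ := hσ i
    obtain ⟨j, hj⟩ := exists_shift hN (B5.rP_cop hl h i).2 (B5.rP_cop hl h (σ i)).1
      (B5.rP_entry h2) (g 1 1) (k 1 1)
    have h3 := hτ.of_cusp hI hg h1 hj
    have h4 : ∀ w : ℂ, 0 < w.im → act (rP l i) (act g w) = act k (act (rP l (σ i)) w) :=
      fun w hw => by
        rw [← act_mul _ (by omega) hw, h2, act_mul _ (rP_det_pos hl _).ne' hw]
    rw [h4 _ hz, h4 _ (by simpa using hz)]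
    have h5 := rP_pos hl (σ i) hz
    generalize σ i = s at h5 ⊢
    rcases s with _ | s
    · have := h3.iter (l ^ 2) h5
      push_cast at this
      rw [Option.elim_none, ← this, act_none, act_none]
      congr 2
      ring
    · rw [Option.elim_some, one_mul, ← h3 _ h5, act_rP_some, act_rP_some]
      congr 2
      field_simp
      ring
  rw [Nat.cast_mul, hτ.iter l hz, Tf_apply, Tf_apply, sum_congr rfl fun i _ => key i,
    sum_add_distrib, ← sum_mul, Equiv.sum_comp σ fun s => s.elim ((l : ℝ) ^ 2) fun _ => 1]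
  simp only [Fintype.sum_option, Option.elim_none, Option.elim_some, sum_const, card_univ,
    Fintype.card_fin, nsmul_eq_mul]
  ring

end ES

theorem es_stmt : ESStmt := fun N l I hN hl h hI => by
  obtain ⟨G, u, h1, h2, h3, h4⟩ := (ES.coz hN hl h hI).exists_der hN.ne_zero B5.stab_top
  exact ⟨G, B5.ci_of_der hN.ne_zero h1 h2 h3, h4⟩

end Pool.Agent.G5
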