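import Pool.Agent.Lib.MP_696deb_nt.B5.HA4

/-! The multiplicative function with unitary character attached to a divisor of degree zero. -/

set_option autoImplicit false

open Filter Topology Set MeasureTheory UpperHalfPlane Metric ModularGroup
open scoped Real MatrixGroups ENNReal NNReal ComplexConjugate Pointwise

namespace Pool.Agent.B5.HA

open Pool.Agent.Lib.MP_696deb_nt

theorem norm_cayInv (z : ℍ) : ‖cayInv z‖ = Real.tanh (dist z I / 2) := by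
  rw [← norm_bl, bl, cayInv, coe_I, Complex.conj_I, sub_neg_eq_add]

theorem exists_hol_ball {H : ℍ → ℝ} (hH : Continuous H) {R : ℝ} (hR : 0 < R)
    (h : ∀ z ∈ ball I R, ∀ r ∈ Ioo (0 : ℝ) 1, Df r H z = 0) :
    ∃ G : ℂ → ℂ, ∀ z ∈ ball I R, DifferentiableAt ℂ G z ∧ (G z).re = H z := by
  have e : ∀ z : ℍ, ‖cayInv z‖ < Real.tanh (R / 2) ↔ z ∈ ball I R := fun z => by
    rw [norm_cayInv, tanh_lt_iff, mem_ball, div_lt_div_iff_of_pos_right two_pos]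
  obtain ⟨G, h1, h2⟩ := exists_hol_disc hH ⟨tanh_pos (half_pos hR), Real.tanh_lt_one _⟩
    fun z hz => h z ((e z).mp hz)
  refine ⟨fun z => G ((z - Complex.I) / (z + Complex.I)), fun z hz => ?_⟩
  have h3 : cayInv z ∈ ball (0 : ℂ) (Real.tanh (R / 2)) := mem_ball_zero_iff.mpr ((e z).mpr hz)
  exact ⟨(h1 _ h3).differentiableAt.comp (z : ℂ) (hol_cayInv z z.im_pos),
    (h2 _ h3).trans (by rw [cay_cayInv])⟩

theorem const_of_norm {U : Set ℍ} (ho : IsOpen U) (hc : IsPreconnected U) {Q : ℂ → ℂ}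
    (hd : ∀ z ∈ U, DifferentiableAt ℂ Q z) (h : ∀ z ∈ U, ‖Q z‖ = 1) {z z' : ℍ} (hz : z ∈ U)
    (hz' : z' ∈ U) : Q z = Q z' :=
  Complex.eqOn_of_isPreconnected_of_isMaxOn_norm (hc.image _ continuous_coe.continuousOn)
    (isOpenEmbedding_coe.isOpenMap _ ho)
    (by rintro _ ⟨u, hu, rfl⟩; exact (hd u hu).differentiableWithinAt) (mem_image_of_mem _ hz')
    (by rintro _ ⟨u, hu, rfl⟩; exact ((h u hu).trans (h z' hz').symm).le) (mem_image_of_mem _ hz)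

theorem preconnected_ball (z : ℍ) (r : ℝ) : IsPreconnected (ball z r) := by
  rw [← isOpenEmbedding_coe.isInducing.isPreconnected_image, image_coe_ball]
  exact (convex_ball _ _).isPreconnected

theorem preconnected_compl {S : Set ℍ} (hS : S.Countable) : IsPreconnected Sᶜ := by
  let φ : ℂ → ℍ := fun z => ⟨⟨z.re, Real.exp z.im⟩, Real.exp_pos _⟩
  have h1 : Function.Injective φ := fun a b h => by
    have := congrArg (fun z : ℍ => (z : ℂ)) h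
    simp only [φ, Complex.mk.injEq, Real.exp_eq_exp] at this
    exact Complex.ext this.1 this.2
  have h2 : Function.Surjective φ := fun z => ⟨⟨z.re, Real.log z.im⟩, by
    ext1
    apply Complex.ext <;> simp [φ, Real.exp_log z.im_pos]⟩
  have h3 : Continuous φ := by
    rw [isOpenEmbedding_coe.isInducing.continuous_iff]
    exact Complex.equivRealProdCLM.symm.continuous.comp
      (Complex.continuous_re.prodMk (Real.continuous_exp.comp Complex.continuous_im))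
  rw [← image_preimage_eq Sᶜ h2, preimage_compl]
  exact ((hS.preimage h1).isConnected_compl_of_one_lt_rank (by simp)).2.image _ h3.continuousOn

/-- Functions with the same absolute value are proportional. -/
theorem prop_of_norm {S : Set ℍ} (hS : S.Countable) (hc : IsClosed S) {F G : ℂ → ℂ}
    (hF : ∀ z ∉ S, DifferentiableAt ℂ F z) (hG : ∀ z ∉ S, DifferentiableAt ℂ G z)
    (h0 : ∀ z ∉ S, G z ≠ 0) (h : ∀ z ∉ S, ‖F z‖ = ‖G z‖) :
    ∃ c : ℂ, ‖c‖ = 1 ∧ ∀ z ∉ S, F z = c * G z := by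
  rcases (Sᶜ).eq_empty_or_nonempty with e | ⟨u, hu⟩
  · exact ⟨1, norm_one, fun z hz => absurd (e ▸ hz : z ∈ (∅ : Set ℍ)) (notMem_empty z)⟩
  have h1 : ∀ z ∈ Sᶜ, ‖F z / G z‖ = 1 := fun z hz => by
    rw [norm_div, h z hz, div_self (norm_ne_zero_iff.mpr (h0 z hz))]
  refine ⟨F u / G u, h1 u hu, fun z hz => ?_⟩
  rw [← const_of_norm hc.isOpen_compl (preconnected_compl hS) (Q := fun z => F z / G z)
    (fun z hz => (hF z hz).div (hG z hz) (h0 z hz)) h1 hz hu, div_mul_cancel₀ _ (h0 z hz)]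

variable {ι : Type*} {Γ : Subgroup SL(2, ℤ)} {s : Finset ι} {m : ι → ℤ} {w : ι → ℍ}

/-- A finite product of Blaschke factors. -/
noncomputable def pb (s : Finset ι) (m : ι → ℤ) (w : ι → ℍ) (A : Finset Γ) (z : ℂ) : ℂ :=
  ∏ γ ∈ A, ∏ i ∈ s, bl (γ.1 • w i) z ^ m i

/-- The union of the orbits. -/
def Sp (Γ : Subgroup SL(2, ℤ)) (s : Finset ι) (w : ι → ℍ) : Set ℍ :=
  {z | ∃ i ∈ s, ∃ γ ∈ Γ, z = γ • w i}

theorem pb_ne {A : Finset Γ} {z : ℍ} (h : ∀ γ ∈ A, ∀ i ∈ s, z ≠ γ.1 • w i) :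
    pb s m w A z ≠ 0 ∧ DifferentiableAt ℂ (pb s m w A) z ∧
      Real.log ‖pb s m w A z‖ = ∑ γ ∈ A, ∑ i ∈ s, m i * Real.log ‖bl (γ.1 • w i) z‖ := by
  have h1 : ∀ γ ∈ A, ∀ i ∈ s, bl (γ.1 • w i) z ^ m i ≠ 0 := fun γ hγ i hi =>
    zpow_ne_zero _ (bl_ne (h γ hγ i hi))
  refine ⟨Finset.prod_ne_zero_iff.mpr fun γ hγ => Finset.prod_ne_zero_iff.mpr (h1 γ hγ),
    .fun_finsetProd fun γ hγ => .fun_finsetProd fun i hi => (hol_bl _ _ z.im_pos).zpow
      (Or.inl (bl_ne (h γ hγ i hi))), ?_⟩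
  rw [pb, norm_prod, Real.log_prod fun γ hγ =>
    norm_ne_zero_iff.mpr (Finset.prod_ne_zero_iff.mpr (h1 γ hγ))]
  refine Finset.sum_congr rfl fun γ hγ => ?_
  rw [norm_prod, Real.log_prod fun i hi => norm_ne_zero_iff.mpr (h1 γ hγ i hi)]
  exact Finset.sum_congr rfl fun i _ => by rw [norm_zpow, Real.log_zpow]

theorem finite_near' (Γ : Subgroup SL(2, ℤ)) (s : Finset ι) (w : ι → ℍ) (z : ℍ) (R : ℝ) :
    {γ : Γ | ∃ i ∈ s, dist z (γ.1 • w i) ≤ R}.Finite :=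
  (s.finite_toSet.biUnion fun i _ => (finite_near z (w i) R).preimage
    Subtype.val_injective.injOn).subset fun _ ⟨_, hi, h⟩ => mem_biUnion hi h

/-- The local description of the function. -/
structure Th (Γ : Subgroup SL(2, ℤ)) (s : Finset ι) (m : ι → ℤ) (w : ι → ℍ) (Θ : ℂ → ℂ)
    (v : ℍ → ℝ) : Prop where
  cont : Continuous v
  mod : Mod Γ v
  loc : ∀ R : ℝ, ∃ (A : Finset Γ) (G : ℂ → ℂ), (∀ γ ∉ A, ∀ i ∈ s, R + 1 ≤ dist I (γ.1 • w i)) ∧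
    ∀ z ∈ ball I R, DifferentiableAt ℂ G z ∧ Θ z = pb s m w A z * Complex.exp (G z) ∧
      (G z).re = v z - ∑ γ ∈ A, ∑ i ∈ s, m i * bb z (γ.1 • w i)

theorem exists_th [Γ.FiniteIndex] (s : Finset ι) (m : ι → ℤ) (w : ι → ℍ)
    (h0 : ∑ i ∈ s, m i = 0) : ∃ Θ v, Th Γ s m w Θ v := by
  classical
  obtain ⟨v, hc, hv, hD⟩ := exists_regular (Γ := Γ) s (fun i => (m i : ℝ)) w (by exact_mod_cast h0)
  obtain ⟨A, hA⟩ : ∃ A : ℕ → Finset Γ, ∀ n γ, γ ∈ A n ↔ ∃ i ∈ s, dist I (γ.1 • w i) ≤ n + 3 :=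
    ⟨fun n => (finite_near' Γ s w I (n + 3)).toFinset, fun n γ => Finite.mem_toFinset _⟩
  have hA1 : ∀ n : ℕ, ∀ γ ∉ A n, ∀ i ∈ s, n + 3 < dist I (γ.1 • w i) := fun n γ hγ i hi =>
    not_le.mp fun h => hγ ((hA n γ).mpr ⟨i, hi, h⟩)
  have hA2 : ∀ n : ℕ, ∀ γ ∉ A n, ∀ i ∈ s, ∀ z ∈ ball I (n + 1 : ℝ), 2 < dist z (γ.1 • w i) :=
    fun n γ hγ i hi z hz => by
      linarith [hA1 n γ hγ i hi, dist_triangle I z (γ.1 • w i), mem_ball'.mp hz]
  have hA3 : ∀ n k : ℕ, n ≤ k → A n ⊆ A k := fun n k h γ hγ => by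
    obtain ⟨i, hi, h1⟩ := (hA n γ).mp hγ
    exact (hA k γ).mpr ⟨i, hi, h1.trans (by gcongr)⟩
  have hs : ∀ (γ : Γ) i, Slow fun z => m i * bb z (γ.1 • w i) := fun γ i => (slow_bb _).const_mul _
  have hG : ∀ n : ℕ, ∃ G : ℂ → ℂ, ∀ z ∈ ball I (n + 1 : ℝ), DifferentiableAt ℂ G z ∧
      (G z).re = v z - ∑ γ ∈ A n, ∑ i ∈ s, m i * bb z (γ.1 • w i) := fun n => by
    refine exists_hol_ball (H := fun z => v z - ∑ γ ∈ A n, ∑ i ∈ s, m i * bb z (γ.1 • w i))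
      (hc.sub (continuous_finsetSum _ fun γ _ => continuous_finsetSum _
      fun i _ => continuous_const.mul (continuous_bb _))) (by positivity) fun z hz r hr => ?_
    rw [Df_sub (hv.slow.integrableOn z r) ((Slow.sum _ fun γ _ =>
      Slow.sum _ fun i _ => hs γ i).integrableOn z r), hD r hr.1, Df_sum _ fun γ _ =>
      (Slow.sum _ fun i _ => hs γ i).integrableOn z r, sub_eq_zero,
      Finset.sum_congr rfl fun γ _ => Df_sum _ fun i _ => (hs γ i).integrableOn z r,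
      Finset.sum_comm]
    refine Finset.sum_congr rfl fun i hi => ?_
    rw [tsum_eq_sum (s := A n) fun γ hγ => Df_bb (by linarith [hA2 n γ hγ i hi z hz, hr.2]),
      Finset.mul_sum]
    exact Finset.sum_congr rfl fun γ _ => (Df_const_mul _ _ _ _).symm
  choose G hG using hG
  let E : ℕ → ℂ → ℂ := fun n z => pb s m w (A n \ A 0) z * Complex.exp (G n z)
  have hI : ∀ n : ℕ, I ∈ ball I (n + 1 : ℝ) := fun n => mem_ball_self (by positivity)
  have key : ∀ n k : ℕ, n ≤ k → ∃ c : ℂ, ‖c‖ = 1 ∧ ∀ z ∈ ball I (n + 1 : ℝ), E k z = c * E n z := by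
    intro n k h
    have h1 : ball I (n + 1 : ℝ) ⊆ ball I (k + 1 : ℝ) := ball_subset_ball (by gcongr)
    have h2 := fun z hz => pb_ne (s := s) (m := m) (w := w) (A := A k \ A n) (z := z)
      fun γ hγ i hi e => by
        linarith [hA2 n γ (Finset.mem_sdiff.mp hγ).2 i hi z hz, dist_eq_zero.mpr e]
    have h3 : ∀ z ∈ ball I (n + 1 : ℝ),
        ‖pb s m w (A k \ A n) z * Complex.exp (G k z - G n z)‖ = 1 := fun z hz => by
      rw [norm_mul, Complex.norm_exp, ← Real.exp_log (norm_pos_iff.mpr (h2 z hz).1), (h2 z hz).2.2,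
        ← Real.exp_add, Real.exp_eq_one_iff, Complex.sub_re, (hG k z (h1 hz)).2, (hG n z hz).2,
        ← Finset.sum_sdiff (hA3 n k h), Finset.sum_congr rfl fun γ hγ => Finset.sum_congr rfl
        fun i hi => by rw [← bb_eq (by
          linarith [hA2 n γ (Finset.mem_sdiff.mp hγ).2 i hi z hz])]]
      ring
    refine ⟨_, h3 I (hI n), fun z hz => ?_⟩
    rw [← const_of_norm isOpen_ball (preconnected_ball _ _)
      (Q := fun z => pb s m w (A k \ A n) z * Complex.exp (G k z - G n z)) (fun z hz =>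
      (h2 z hz).2.1.mul ((hG k z (h1 hz)).1.sub (hG n z hz).1).cexp) h3 hz (hI n)]
    simp only [E, pb]
    rw [← Finset.prod_sdiff (Finset.sdiff_subset_sdiff (hA3 n k h) subset_rfl : A n \ A 0 ⊆ _),
      sdiff_sdiff_sdiff_cancel_right (hA3 0 n n.zero_le), Complex.exp_sub]
    field_simp
  have hE : ∀ n, E n I ≠ 0 := fun n => mul_ne_zero (pb_ne fun γ hγ i hi e => by
    linarith [hA2 0 γ (Finset.mem_sdiff.mp hγ).2 i hi I (hI 0), dist_eq_zero.mpr e]).1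
    (Complex.exp_ne_zero _)
  refine ⟨fun z => pb s m w (A 0) z * (E ⌊dist (ofComplex z) I⌋₊ z * E 0 I /
    E ⌊dist (ofComplex z) I⌋₊ I), v, hc, hv, fun R => ?_⟩
  obtain ⟨n, hn⟩ := exists_nat_ge R
  obtain ⟨c, hc1, hc2⟩ := key 0 n n.zero_le
  have hc0 : c⁻¹ ≠ 0 := inv_ne_zero (norm_ne_zero_iff.mp (hc1 ▸ one_ne_zero))
  refine ⟨A n, fun z => G n z + Complex.log c⁻¹, fun γ hγ i hi => by linarith [hA1 n γ hγ i hi],
    fun z hz => ?_⟩
  have hz' : z ∈ ball I (n + 1 : ℝ) := ball_subset_ball (by linarith) hz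
  refine ⟨(hG n z hz').1.add_const _, ?_, by
    rw [Complex.add_re, Complex.log_re, norm_inv, hc1, inv_one, Real.log_one, add_zero,
      (hG n z hz').2]⟩
  obtain ⟨d, hd1, hd2⟩ := key ⌊dist z I⌋₊ n (Nat.floor_le_of_le ((mem_ball.mp hz).le.trans hn))
  have hd0 : d ≠ 0 := norm_ne_zero_iff.mp (hd1 ▸ one_ne_zero)
  have e1 := hd2 z (mem_ball.mpr (Nat.lt_floor_add_one _))
  have e2 := hd2 I (hI _)
  have e3 := hc2 I (hI _)
  have e4 : pb s m w (A n) z = pb s m w (A 0) z * pb s m w (A n \ A 0) z := by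
    rw [pb, ← Finset.prod_sdiff (hA3 0 n n.zero_le), mul_comm]
    rfl
  simp only [ofComplex_apply]
  rw [Complex.exp_add, Complex.exp_log hc0, e4, mul_assoc (pb s m w (A 0) z),
    ← mul_assoc (pb s m w (A n \ A 0) z)]
  congr 1
  change _ = E n z * c⁻¹
  have := hE ⌊dist z I⌋₊
  have := inv_ne_zero hc0
  rw [inv_inv] at this
  rw [e1]
  field_simp
  linear_combination (E ⌊dist z I⌋₊ z) * (e2 - e3)

theorem countable_Sp : (Sp Γ s w).Countable :=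
  (s.countable_toSet.biUnion fun i _ => countable_range fun γ : SL(2, ℤ) => γ • w i).mono
    fun _ ⟨_, hi, γ, _, h⟩ => mem_biUnion hi (mem_range.mpr ⟨γ, h.symm⟩)

theorem isClosed_Sp : IsClosed (Sp Γ s w) := by
  have h : LocallyFinite fun γ : Γ => (fun i => γ.1 • w i) '' s := fun z =>
    ⟨closedBall z 1, closedBall_mem_nhds z one_pos, (finite_near' Γ s w z 1).subset
      fun γ ⟨_, ⟨i, hi, e⟩, h⟩ => ⟨i, hi, mem_closedBall'.mp (e.symm ▸ h :)⟩⟩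
  convert h.isClosed_iUnion fun γ => (s.finite_toSet.image _).isClosed using 1
  ext z
  simp only [Sp, mem_ofPred_eq, mem_iUnion, mem_image, Finset.mem_coe, Subtype.exists]
  exact ⟨fun ⟨i, hi, γ, hγ, e⟩ => ⟨γ, hγ, i, hi, e.symm⟩,
    fun ⟨γ, hγ, i, hi, e⟩ => ⟨i, hi, γ, hγ, e.symm⟩⟩

theorem smul_mem_Sp {γ : SL(2, ℤ)} (hγ : γ ∈ Γ) {z : ℍ} : γ • z ∈ Sp Γ s w ↔ z ∈ Sp Γ s w :=
  ⟨fun ⟨i, hi, δ, hδ, e⟩ => ⟨i, hi, γ⁻¹ * δ, mul_mem (inv_mem hγ) hδ, by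
    rw [mul_smul, ← e, inv_smul_smul]⟩,
    fun ⟨i, hi, δ, hδ, e⟩ => ⟨i, hi, γ * δ, mul_mem hγ hδ, by rw [mul_smul, e]⟩⟩

/-- The singular part of the kernel. -/
noncomputable def sg (z w : ℍ) : ℝ := Real.log ‖bl w z‖ - bb z w

theorem sg_eq_zero {z w : ℍ} (h : 1 ≤ dist z w) : sg z w = 0 := by rw [sg, bb_eq h, sub_self]

theorem sg_smul (g : SL(2, ℤ)) (z w : ℍ) : sg (g • z) (g • w) = sg z w := by
  simp only [sg, norm_bl, bb, dist_smul_int]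

/-- The Green function. -/
noncomputable def Lg (Γ : Subgroup SL(2, ℤ)) (s : Finset ι) (m : ι → ℤ) (w : ι → ℍ) (v : ℍ → ℝ)
    (z : ℍ) : ℝ := v z + ∑' γ : Γ, ∑ i ∈ s, m i * sg z (γ.1 • w i)

variable {Θ : ℂ → ℂ} {v : ℍ → ℝ}

theorem ev_of_ball {p : ℂ → Prop} {z : ℍ} {R : ℝ} (hz : z ∈ ball I R)
    (h : ∀ z ∈ ball I R, p z) : ∀ᶠ u in 𝓝 (z : ℂ), p u :=
  mem_of_superset ((isOpenEmbedding_coe.isOpenMap _ isOpen_ball).mem_nhds (mem_image_of_mem _ hz))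
    (by rintro _ ⟨u, hu, rfl⟩; exact h u hu)

theorem Th.at (h : Th Γ s m w Θ v) (z : ℍ) : ∃ (A : Finset Γ) (G : ℂ → ℂ),
    (∀ γ ∉ A, ∀ i ∈ s, 1 ≤ dist z (γ.1 • w i)) ∧ AnalyticAt ℂ G z ∧
      (Θ =ᶠ[𝓝 (z : ℂ)] fun u => pb s m w A u * Complex.exp (G u)) ∧
      (G z).re = v z - ∑ γ ∈ A, ∑ i ∈ s, m i * bb z (γ.1 • w i) := by
  obtain ⟨A, G, h1, h2⟩ := h.loc (dist z I + 1)
  have hz : z ∈ ball I (dist z I + 1) := mem_ball.mpr (lt_add_one _)
  exact ⟨A, G, fun γ hγ i hi => by linarith [h1 γ hγ i hi, dist_triangle_left I (γ.1 • w i) z],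
    Complex.analyticAt_iff_eventually_differentiableAt.mpr (ev_of_ball hz fun u hu => (h2 u hu).1),
    ev_of_ball (p := fun u => Θ u = pb s m w A u * Complex.exp (G u)) hz fun u hu => (h2 u hu).2.1,
    (h2 z hz).2.2⟩

theorem analyticAt_bl (w z : ℍ) : AnalyticAt ℂ (bl w) z :=
  (analyticAt_id.sub analyticAt_const).div (analyticAt_id.sub analyticAt_const)
    (sub_conj_ne w z.im_pos)

theorem order_bl (w z : ℍ) [Decidable (w = z)] :
    meromorphicOrderAt (bl w) z = ((if w = z then 1 else 0 : ℤ) : WithTop ℤ) := by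
  rw [meromorphicOrderAt_eq_int_iff (analyticAt_bl w z).meromorphicAt]
  split_ifs with h
  · exact ⟨fun u => (u - conj (w : ℂ))⁻¹, (analyticAt_id.sub analyticAt_const).inv
      (sub_conj_ne w z.im_pos), inv_ne_zero (sub_conj_ne w z.im_pos), .of_forall fun u => by
        rw [zpow_one, ← h, bl, div_eq_mul_inv, smul_eq_mul]⟩
  · exact ⟨bl w, analyticAt_bl w z, bl_ne (Ne.symm h), .of_forall fun u => by simp⟩

theorem mero_pb (A : Finset Γ) (z : ℍ) : MeromorphicAt (pb s m w A) z :=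
  .fun_prod fun _ _ => .fun_prod fun _ _ => (analyticAt_bl _ z).meromorphicAt.zpow _

theorem Th.mero (h : Th Γ s m w Θ v) (z : ℍ) : MeromorphicAt Θ z := by
  obtain ⟨A, G, -, h1, h2, -⟩ := h.at z
  exact ((mero_pb A z).mul h1.cexp.meromorphicAt).congr (h2.symm.filter_mono nhdsWithin_le_nhds)

/-- The divisor. -/
theorem Th.order (h : Th Γ s m w Θ v) (z : ℍ) : meromorphicOrderAt Θ z =
    ((∑ i ∈ s, m i * {γ : Γ | γ.1 • w i = z}.ncard : ℤ) : WithTop ℤ) := by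
  classical
  obtain ⟨A, G, h0, h1, h2, -⟩ := h.at z
  replace h1 : AnalyticAt ℂ (fun u => Complex.exp (G u)) z := h1.cexp
  have e : ∀ i ∈ s, {γ : Γ | γ.1 • w i = z} = (A.filter fun γ => γ.1 • w i = z) := fun i hi => by
    ext γ
    simp only [mem_ofPred_eq, Finset.coe_filter, iff_and_self]
    exact fun e => of_not_not fun hγ => by linarith [h0 γ hγ i hi, dist_eq_zero.mpr e.symm]
  rw [meromorphicOrderAt_congr (h2.filter_mono nhdsWithin_le_nhds),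
    fun_meromorphicOrderAt_mul (mero_pb A z) h1.meromorphicAt,
    h1.meromorphicOrderAt_eq, h1.analyticOrderAt_eq_zero.mpr (Complex.exp_ne_zero _),
    Finset.sum_congr rfl fun i hi => by rw [e i hi, ncard_coe_finset, Finset.card_filter]]
  have h3 : ∀ (γ : Γ) i, MeromorphicAt (fun u => bl (γ.1 • w i) u ^ m i) z := fun _ _ =>
    (analyticAt_bl _ z).meromorphicAt.zpow _
  unfold pb
  rw [meromorphicOrderAt_fun_prod fun γ _ => .fun_prod fun i _ => h3 γ i,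
    Finset.sum_congr rfl fun γ _ => (meromorphicOrderAt_fun_prod fun i _ => h3 γ i).trans
    (Finset.sum_congr rfl fun i _ => by
      rw [fun_meromorphicOrderAt_zpow (analyticAt_bl _ z).meromorphicAt, order_bl,
        ← WithTop.coe_mul]), Finset.sum_comm]
  simp only [← WithTop.coe_sum, Finset.mul_sum, Nat.cast_sum, Nat.cast_ite, Nat.cast_one,
    Nat.cast_zero, ENat.map_zero, WithTop.coe_zero, add_zero]

theorem Th.off (h : Th Γ s m w Θ v) {z : ℍ} (hz : z ∉ Sp Γ s w) :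
    DifferentiableAt ℂ Θ z ∧ Θ z ≠ 0 ∧ Real.log ‖Θ z‖ = Lg Γ s m w v z := by
  obtain ⟨A, G, h0, h1, h2, h3⟩ := h.at z
  obtain ⟨h4, h5, h6⟩ := pb_ne (m := m) (A := A) fun γ _ i hi e => hz ⟨i, hi, γ.1, γ.2, e⟩
  refine ⟨(h5.mul h1.differentiableAt.cexp).congr_of_eventuallyEq h2, ?_⟩
  rw [h2.eq_of_nhds]
  refine ⟨mul_ne_zero h4 (Complex.exp_ne_zero _), ?_⟩
  rw [norm_mul, Complex.norm_exp, Real.log_mul (norm_ne_zero_iff.mpr h4) (Real.exp_ne_zero _),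
    Real.log_exp, h3, h6, Lg, tsum_eq_sum (s := A) fun γ hγ => Finset.sum_eq_zero fun i hi => by
      rw [sg_eq_zero (h0 γ hγ i hi), mul_zero]]
  simp only [sg, mul_sub, Finset.sum_sub_distrib]
  ring

theorem Lg_smul (hv : Mod Γ v) {γ : SL(2, ℤ)} (hγ : γ ∈ Γ) (z : ℍ) :
    Lg Γ s m w v (γ • z) = Lg Γ s m w v z := by
  rw [Lg, Lg, hv.inv γ hγ, ← (Equiv.mulLeft (⟨γ, hγ⟩ : Γ)).tsum_eq]
  simp only [Equiv.coe_mulLeft, Subgroup.coe_mul, mul_smul, sg_smul]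

/-- The multiplier. -/
theorem Th.mult (h : Th Γ s m w Θ v) {γ : SL(2, ℤ)} (hγ : γ ∈ Γ) :
    ∃ c : ℂ, ‖c‖ = 1 ∧ ∀ z ∉ Sp Γ s w, Θ (γ • z : ℍ) = c * Θ z := by
  simp only [coe_smul_eq_mob]
  refine prop_of_norm countable_Sp isClosed_Sp
    (F := fun z => Θ (mob (γ 0 0) (γ 0 1) (γ 1 0) (γ 1 1) z)) (fun z hz => ?_)
    (fun z hz => (h.off hz).1) (fun z hz => (h.off hz).2.1) fun z hz => ?_
  · refine DifferentiableAt.comp (g := Θ) _ ?_ (hol_mob (by rw [det_SL]; exact one_ne_zero) _ z.im_pos)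
    rw [← coe_smul_eq_mob]
    exact (h.off (mt (smul_mem_Sp hγ).mp hz)).1
  · obtain ⟨-, h1, h2⟩ := h.off (mt (smul_mem_Sp hγ).mp hz)
    obtain ⟨-, h3, h4⟩ := h.off hz
    rw [← coe_smul_eq_mob]
    exact Real.log_injOn_pos (norm_pos_iff.mpr h1) (norm_pos_iff.mpr h3)
      (by rw [h2, h4, Lg_smul h.mod hγ])

theorem exists_far (s : Finset ι) (w : ι → ℍ) : ∃ Y : ℝ, 0 ≤ Y ∧ ∀ z : ℍ, Y ≤ z.im →
    ∀ g γ : SL(2, ℤ), ∀ i ∈ s, 1 ≤ dist (g • z) (γ • w i) := by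
  have h0 : ∀ i ∈ s, 0 ≤ ht (w i) := fun i _ => by linarith [half_le_ht (w i)]
  refine ⟨(∑ i ∈ s, ht (w i)) * Real.exp 1, mul_nonneg (Finset.sum_nonneg h0) (Real.exp_pos _).le,
    fun z hz g γ i hi => ?_⟩
  rw [← dist_smul_int g⁻¹, inv_smul_smul, smul_smul, ← Real.exp_le_exp]
  have h1 := im_le_im_mul_exp_dist z ((g⁻¹ * γ) • w i)
  have h2 := (le_ht (g⁻¹ * γ) (w i)).trans (Finset.single_le_sum h0 hi)
  refine le_of_mul_le_mul_left (le_trans ?_ (hz.trans h1)) (im_pos _)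
  gcongr

theorem exists_high (Γ : Subgroup SL(2, ℤ)) (s : Finset ι) (m : ι → ℤ) (w : ι → ℍ) (v : ℍ → ℝ) : ∃ Y : ℝ, 0 ≤ Y ∧ ∀ z : ℍ, Y ≤ z.im → ∀ g : SL(2, ℤ),
    g • z ∉ Sp Γ s w ∧ Lg Γ s m w v (g • z) = v (g • z) := by
  obtain ⟨Y, h0, hY⟩ := exists_far s w
  refine ⟨Y, h0, fun z hz g => ⟨fun ⟨i, hi, γ, _, e⟩ => by
    linarith [hY z hz g γ i hi, dist_eq_zero.mpr e], ?_⟩⟩
  rw [Lg, tsum_congr fun γ => Finset.sum_eq_zero fun i hi => by
    rw [sg_eq_zero (hY z hz g γ i hi), mul_zero], tsum_zero, add_zero]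

/-- The behaviour at the cusps. -/
theorem Th.cusp (h : Th Γ s m w Θ v) : ∃ Y : ℝ, 0 ≤ Y ∧ ∀ (g : SL(2, ℤ)) (k : ℕ), k ≠ 0 →
    g * T ^ k * g⁻¹ ∈ Γ → (∀ z ∉ Sp Γ s w, Θ ((g * T ^ k * g⁻¹) • z : ℍ) = Θ z) ∧
    ∃ A, QE (fun z => Θ (mob (g 0 0) (g 0 1) (g 1 0) (g 1 1) (k * (z + Y * Complex.I)))) A ∧
      PowerSeries.coeff 0 A ≠ 0 := by
  obtain ⟨Y, h0, hY⟩ := exists_high Γ s m w v
  obtain ⟨C, hC⟩ := h.mod.le
  have hC0 : 0 ≤ C := nonneg_of_mul_nonneg_left ((abs_nonneg _).trans (hC I))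
    (by linarith [Vf_nonneg I])
  refine ⟨Y, h0, fun g k hk hg => ?_⟩
  obtain ⟨c, hc, h1⟩ := h.mult hg
  have h2 : ∀ z : ℂ, 0 < z.im → ∃ u : ℍ, Y ≤ u.im ∧ u.im = k * (z.im + Y) ∧
      mob (g 0 0) (g 0 1) (g 1 0) (g 1 1) (k * (z + Y * Complex.I)) = (g • u : ℍ) ∧
      mob (g 0 0) (g 0 1) (g 1 0) (g 1 1) (k * (z + 1 + Y * Complex.I)) = (g • T ^ k • u : ℍ) :=
    fun z hz => by
    have e : (z + Y * Complex.I).im = z.im + Y := by simp
    obtain ⟨u, -, h3, h4, h5⟩ := qe_cusp_aux g hk (z := z + Y * Complex.I) (by linarith)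
    have h6 : (1 : ℝ) ≤ k := by exact_mod_cast Nat.one_le_iff_ne_zero.mpr hk
    exact ⟨u, by nlinarith, by rw [h3, e], h4, by rw [add_right_comm, h5]⟩
  obtain ⟨h3, h4⟩ := cusp_unit
    (Φ := fun z => Θ (mob (g 0 0) (g 0 1) (g 1 0) (g 1 1) (k * (z + Y * Complex.I))))
    (fun z hz => by
      obtain ⟨u, h3, -, h4, -⟩ := h2 z hz
      refine DifferentiableAt.comp (g := Θ) _ ?_ (DifferentiableAt.comp
        (g := fun z => mob (g 0 0) (g 0 1) (g 1 0) (g 1 1) (k * z)) z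
        (hol_cusp (G := id) (fun _ _ => differentiableAt_id) g hk _ (by simp; linarith))
        (differentiableAt_id.add_const _))
      rw [h4]
      exact (h.off (hY u h3 g).1).1)
    (fun z hz => by
      obtain ⟨u, h3, -, h4, -⟩ := h2 z hz
      rw [h4]
      exact (h.off (hY u h3 g).1).2.1) hc
    (fun z hz => by
      obtain ⟨u, h3, -, h4, h5⟩ := h2 z hz
      rw [h4, h5, ← h1 _ (hY u h3 g).1, mul_smul, mul_smul, inv_smul_smul])
    (C := C * (4 + √k) * (1 + √Y)) fun z hz => by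
      obtain ⟨u, h3, h5, h4, -⟩ := h2 z (by linarith)
      rw [h4, (h.off (hY u h3 g).1).2.2, (hY u h3 g).2]
      refine (hC _).trans ?_
      rw [Vf_smul, mul_assoc, mul_assoc]
      refine mul_le_mul_of_nonneg_left ((one_add_Vf_le hk (by linarith) h5).2.trans
        (mul_le_mul_of_nonneg_left ?_ (by positivity))) hC0
      have : √(z.im + Y) ≤ √z.im + √Y := Real.sqrt_le_iff.mpr ⟨by positivity, by
        nlinarith [Real.sq_sqrt h0, Real.sq_sqrt (zero_le_one.trans hz),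
          mul_nonneg (Real.sqrt_nonneg Y) (Real.sqrt_nonneg z.im)]⟩
      nlinarith [Real.sqrt_nonneg Y, Real.sqrt_nonneg z.im,
        mul_nonneg (Real.sqrt_nonneg Y) (Real.sqrt_nonneg z.im)]
  exact ⟨fun z hz => by rw [h1 z hz, h3, one_mul], h4⟩

theorem exists_width (Γ : Subgroup SL(2, ℤ)) [Γ.FiniteIndex] (g : SL(2, ℤ)) :
    ∃ k : ℕ, k ≠ 0 ∧ g * T ^ k * g⁻¹ ∈ Γ := by
  obtain ⟨k, h1, -, h2⟩ := Γ.exists_pow_mem_of_index_ne_zero Subgroup.FiniteIndex.index_ne_zero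
    (g * T * g⁻¹)
  exact ⟨k, h1.ne', conj_pow (a := g) ▸ h2⟩

/-- The values at the cusps. -/
theorem Th.lim [Γ.FiniteIndex] (h : Th Γ s m w Θ v) (g : SL(2, ℤ)) : ∃ a : ℂ, a ≠ 0 ∧
    Tendsto (fun z => Θ (mob (g 0 0) (g 0 1) (g 1 0) (g 1 1) z)) atI (𝓝 a) := by
  obtain ⟨Y, -, hY⟩ := h.cusp
  obtain ⟨k, hk, h1⟩ := exists_width Γ g
  obtain ⟨-, A, h2, h3⟩ := hY g k hk h1
  refine ⟨_, h3, (h2.tendsto.comp (tendsto_affine (r := (k : ℝ)⁻¹) (by positivity)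
    (-(Y * Complex.I)))).congr fun z => ?_⟩
  simp [hk]

end Pool.Agent.B5.HA
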