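import Pool.Agent.Lib.MP_696deb_nt.B5.Z1
import Pool.Agent.Lib.MP_696deb_nt.B5.HA5

/-! Normal forms of meromorphic functions and the multiplicative action of Hecke operators. -/

set_option autoImplicit false

open Filter Topology Complex
open scoped Classical Real MatrixGroups UpperHalfPlane

namespace Pool.Agent.G5

open Pool.Agent.Lib.MP_696deb_nt Pool.Agent.B4.GE

variable {W W' V U : ℂ → ℂ} {ν ν' : ℂ → ℤ} {z : ℂ} {g : MZ} {N l : ℕ}

/-- `W` is meromorphic with orders `ν`. -/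
def Mo (W : ℂ → ℂ) (ν : ℂ → ℤ) : Prop :=
  ∀ z : ℂ, 0 < z.im → MeromorphicAt W z ∧ meromorphicOrderAt W z = ν z

theorem ev_im (hz : 0 < z.im) : ∀ᶠ u in 𝓝 z, 0 < u.im :=
  (isOpen_lt continuous_const continuous_im).mem_nhds hz

theorem hol_an (h : Hol W) (hz : 0 < z.im) : AnalyticAt ℂ W z :=
  analyticAt_iff_eventually_differentiableAt.mpr ((ev_im hz).mono h)

theorem Dv.nf (h : Dv W ν) (hz : 0 < z.im) : MeromorphicNFAt W z := by
  obtain ⟨g, h1, h2, h3⟩ := h z hz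
  exact Or.inr ⟨ν z, g, h1, h2, h3⟩

theorem Dv.mo (h : Dv W ν) : Mo W ν := fun z hz => by
  obtain ⟨g, h1, h2, h3⟩ := h z hz
  exact ⟨(h.nf hz).meromorphicAt, (meromorphicOrderAt_eq_int_iff (h.nf hz).meromorphicAt).mpr
    ⟨g, h1, h2, h3.filter_mono nhdsWithin_le_nhds⟩⟩

theorem Mo.dv (h : Mo W ν) (h' : ∀ z : ℂ, 0 < z.im → MeromorphicNFAt W z) : Dv W ν := fun z hz => by
  obtain ⟨g, h1, h2, h3⟩ := (meromorphicOrderAt_eq_int_iff (h z hz).1).mp (h z hz).2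
  exact ⟨g, h1, h2, ((h' z hz).eventuallyEq_nhdsNE_iff_eventuallyEq_nhds
    (g := (· - z) ^ ν z • g) (Or.inr ⟨ν z, g, h1, h2, .rfl⟩)).mp h3⟩

theorem Mo.congr (h : Mo W ν) (e : ∀ z : ℂ, 0 < z.im → ν' z = ν z) : Mo W ν' := fun z hz =>
  e z hz ▸ h z hz

theorem Dv.congr (h : Dv W ν) (e : ∀ z : ℂ, 0 < z.im → ν' z = ν z) : Dv W ν' := fun z hz =>
  e z hz ▸ h z hz

theorem Mo.mul (h : Mo W ν) (h' : Mo W' ν') : Mo (fun z => W z * W' z) fun z => ν z + ν' z :=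
  fun z hz => ⟨(h z hz).1.mul (h' z hz).1, by
    rw [fun_meromorphicOrderAt_mul (h z hz).1 (h' z hz).1, (h z hz).2, (h' z hz).2,
      WithTop.coe_add]⟩

theorem Mo.zpow (h : Mo W ν) (n : ℤ) : Mo (fun z => W z ^ n) fun z => n * ν z :=
  fun z hz => ⟨(h z hz).1.zpow n, by
    rw [fun_meromorphicOrderAt_zpow (h z hz).1, (h z hz).2, WithTop.coe_mul]⟩

theorem Mo.prod {ι : Type*} (s : Finset ι) {W : ι → ℂ → ℂ} {ν : ι → ℂ → ℤ}
    (h : ∀ i ∈ s, Mo (W i) (ν i)) : Mo (fun z => ∏ i ∈ s, W i z) fun z => ∑ i ∈ s, ν i z :=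
  fun z hz => ⟨.fun_prod fun i hi => (h i hi z hz).1, by
    rw [meromorphicOrderAt_fun_prod fun i hi => (h i hi z hz).1, WithTop.coe_sum]
    exact Finset.sum_congr rfl fun i hi => (h i hi z hz).2⟩

theorem deriv_act_ne (hg : g.det ≠ 0) (hz : 0 < z.im) : deriv (act g) z ≠ 0 := by
  rw [Matrix.det_fin_two] at hg
  rw [show act g = mob (g 0 0) (g 0 1) (g 1 0) (g 1 1) from rfl, (hasDerivAt_mob hg hz).deriv]
  exact div_ne_zero (Int.cast_ne_zero.mpr hg) (pow_ne_zero _ (den_ne hg hz))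

theorem Mo.act (h : Mo W ν) (hg : 0 < g.det) : Mo (fun z => W (act g z)) fun z => ν (act g z) :=
  fun _ hz => ⟨(h _ (act_pos hg hz)).1.comp_analyticAt (hol_an (hol_act hg.ne') hz),
    (meromorphicOrderAt_comp_of_deriv_ne_zero (hol_an (hol_act hg.ne') hz)
      (deriv_act_ne hg.ne' hz)).trans (h _ (act_pos hg hz)).2⟩

theorem Dv.act (h : Dv W ν) (hg : 0 < g.det) : Dv (fun z => W (act g z)) fun z => ν (act g z) :=
  (h.mo.act hg).dv fun _ hz => (h.nf (act_pos hg hz)).comp_analyticAt (hol_an (hol_act hg.ne') hz)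

theorem Dv.zpow (h : Dv W ν) (n : ℤ) : Dv (fun z => W z ^ n) fun z => n * ν z :=
  (h.mo.zpow n).dv fun _ hz => (h.nf hz).zpow

theorem Dv.mul_hol (h : Dv W ν) (hV : Hol V) (h0 : ∀ z : ℂ, 0 < z.im → V z ≠ 0) :
    Dv (fun z => W z * V z) ν := fun z hz => by
  obtain ⟨g, h1, h2, h3⟩ := h z hz
  exact ⟨fun u => g u * V u, h1.mul (hol_an hV hz), mul_ne_zero h2 (h0 z hz),
    h3.mono fun u hu => by simp only [hu, mul_assoc]⟩

theorem dv_zero (hV : Hol V) (h0 : ∀ z : ℂ, 0 < z.im → V z ≠ 0) : Dv V 0 := fun z hz =>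
  ⟨V, hol_an hV hz, h0 z hz, .of_forall fun u => by simp⟩

theorem Dv.an (h : Dv W ν) (hz : 0 < z.im) (h0 : ν z = 0) : AnalyticAt ℂ W z :=
  (h.nf hz).meromorphicOrderAt_nonneg_iff_analyticAt.mp (by rw [(h.mo z hz).2, h0]; rfl)

theorem Dv.ne_iff (h : Dv W ν) (hz : 0 < z.im) : W z ≠ 0 ↔ ν z = 0 := by
  rw [← (h.nf hz).meromorphicOrderAt_eq_zero_iff, (h.mo z hz).2, WithTop.coe_eq_zero]

theorem Dv.ev (h : Dv W ν) (hz : 0 < z.im) : ∀ᶠ u in 𝓝[≠] z, 0 < u.im ∧ ν u = 0 := by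
  filter_upwards [(meromorphicOrderAt_ne_top_iff_eventually_ne_zero (h.mo z hz).1).mp
    (by rw [(h.mo z hz).2]; exact WithTop.coe_ne_top), nhdsWithin_le_nhds (ev_im hz)] with u h1 h2
  exact ⟨h2, (h.ne_iff h2).mp h1⟩

theorem Dv.ext (h : Dv W ν) (h' : Dv W' ν') (hz : 0 < z.im) (e : W =ᶠ[𝓝[≠] z] W') : W z = W' z :=
  (((h.nf hz).eventuallyEq_nhdsNE_iff_eventuallyEq_nhds (h'.nf hz)).mp e).eq_of_nhds

/-- The normal form. -/
theorem Mo.exists_dv (h : Mo W ν) : ∃ V, Dv V ν ∧ ∀ z : ℂ, 0 < z.im →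
    V =ᶠ[𝓝[≠] z] W ∧ (ContinuousAt W z → V z = W z) := by
  have h1 : MeromorphicOn W {z | 0 < z.im} := fun z hz => (h z hz).1
  have h2 := fun z hz => h1.toMeromorphicNFOn_eq_self_on_nhdsNE (x := z) hz
  have h3 := meromorphicNFOn_toMeromorphicNFOn W {z | 0 < z.im}
  exact ⟨_, Mo.dv (fun z hz => ⟨(h3 hz).meromorphicAt,
    (meromorphicOrderAt_congr (h2 z hz)).trans (h z hz).2⟩) fun z hz => h3 hz, fun z hz =>
    ⟨h2 z hz, fun hc => (((h3 hz).eventuallyEq_nhdsNE_iff_eventuallyEq_nhds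
      ((h z hz).1.analyticAt hc).meromorphicNFAt).mp (h2 z hz)).eq_of_nhds⟩⟩

theorem tendsto_act_ne (hg : 0 < g.det) (hz : 0 < z.im) :
    Tendsto (act g) (𝓝[≠] z) (𝓝[≠] act g z) :=
  (hol_act hg.ne' z hz).hasDerivAt.tendsto_nhdsNE (deriv_act_ne hg.ne' hz)

/-- A multiplier passes to the normal form. -/
theorem Dv.mult_of (h : Dv V ν) (e : ∀ z : ℂ, 0 < z.im → V =ᶠ[𝓝[≠] z] W) (hg : 0 < g.det) {c : ℂ}
    (hc : c ≠ 0) (hz : 0 < z.im) (hW : ∀ᶠ u in 𝓝[≠] z, W (Lib.MP_696deb_nt.act g u) = c * W u) :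
    V (Lib.MP_696deb_nt.act g z) = c * V z := by
  rw [mul_comm]
  refine (h.act hg).ext (h.mul_hol (V := fun _ => c) (fun _ _ => differentiableAt_const _)
    fun _ _ => hc) hz ?_
  filter_upwards [(tendsto_act_ne hg hz).eventually (e _ (act_pos hg hz)), e z hz, hW]
    with u h1 h2 h3
  rw [h1, h2, h3, mul_comm]

theorem Dv.closed (h : Dv W ν) : IsClosed {τ : ℍ | ν τ ≠ 0} ∧ {τ : ℍ | ν τ ≠ 0}.Countable := by
  have h1 : ∀ τ : ℍ, ∀ᶠ u : ℍ in 𝓝[≠] τ, ν u = 0 := fun τ =>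
    (UpperHalfPlane.continuous_coe.continuousWithinAt.tendsto_nhdsWithin (s := {τ}ᶜ)
      (t := {(τ : ℂ)}ᶜ) fun u hu e => hu (UpperHalfPlane.ext e)).eventually ((h.ev τ.im_pos).mono fun _ h => h.2)
  have h2 := isClosed_and_discrete_iff.mpr fun τ => disjoint_principal_right.mpr
    (show {τ : ℍ | ν τ ≠ 0}ᶜ ∈ _ from (h1 τ).mono fun u hu e => e hu)
  exact ⟨h2.1, h2.1.isLindelof.countable_of_isDiscrete h2.2⟩

theorem g0_iff (γ : SL(2, ℤ)) : γ ∈ CongruenceSubgroup.Gamma0 N ↔ G0 N γ.1 := by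
  rw [CongruenceSubgroup.Gamma0_mem, ZMod.intCast_zmod_eq_zero_iff_dvd]
  exact ⟨fun h => ⟨γ.2, h⟩, fun h => h.2⟩

theorem coe_act (γ : SL(2, ℤ)) (τ : ℍ) : ((γ • τ : ℍ) : ℂ) = act γ.1 τ := coe_smul_eq_mob γ τ

theorem pos_of_det (hg : g.det = 1) : 0 < g.det := hg ▸ one_pos

theorem rP_pos' (hl : l.Prime) (i : Option (Fin l)) : 0 < (rP l i).det := by
  rw [(isReps_rP hl).det]
  exact_mod_cast hl.pos

theorem rP_perm' (hl : l.Prime) (hN : ¬ l ∣ N) (hg : G0 N g) :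
    ∃ σ : Equiv.Perm (Option (Fin l)), ∀ i, ∃ h, G0 N h ∧ rP l i * g = h * rP l (σ i) := by
  obtain ⟨σ, hσ⟩ := (isReps_rP hl).perm hg.1
  refine ⟨σ, fun i => ?_⟩
  obtain ⟨h, h1, h2⟩ := hσ i
  have c : IsCoprime (N : ℤ) l :=
    Nat.isCoprime_iff_coprime.2 ((Nat.Prime.coprime_iff_not_dvd hl).2 hN).symm
  have e : rP l i 1 1 * g 1 0 = h 1 0 * rP l (σ i) 0 0 := by
    have := congrFun (congrFun h2 1) 0
    generalize σ i = j at this
    rcases i with _ | i <;> rcases j with _ | j <;>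
      simpa [rP, ut, Matrix.mul_apply, Fin.sum_univ_two] using this
  refine ⟨h, ⟨h1, IsCoprime.dvd_of_dvd_mul_right (z := rP l (σ i) 0 0) ?_ (e ▸ hg.2.mul_left _)⟩, h2⟩
  rcases σ i with _ | j <;> simp [rP, ut, c, isCoprime_one_right]

theorem Cn.act (h : Cn W) (hg : 0 < g.det) : Cn fun z => W (act g z) := fun k hk => by
  obtain ⟨a, b, d, k', h1, h2, h3⟩ := exists_ut (M := g * k) (by rwa [Matrix.det_mul, hk, mul_one])
  obtain ⟨c, hc, h4⟩ := h k' h2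
  have h5 : 0 < (ut a b d).det := by
    have := congrArg Matrix.det h3
    rwa [Matrix.det_mul, Matrix.det_mul, hk, h2, mul_one, one_mul, eq_comm, ← sub_eq_zero,
      sub_eq_zero, eq_comm] at this ▸ hg
  have h6 : (0 : ℝ) < a / d := by
    rw [det_ut] at h5
    have : 0 < a := Nat.pos_of_ne_zero fun e => by simp [e] at h5
    have : 0 < d := by omega
    positivity
  refine ⟨c, hc, (h4.comp (tendsto_affine h6 (b / d))).congr' (ev_pos.mono fun z hz => ?_)⟩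
  simp only [Function.comp]
  rw [← act_mul g (pos_of_det hk).ne' hz, h3, act_mul k' h5.ne' hz]
  simp [ut, act_of, mob, add_div, div_mul_eq_mul_div]

theorem Cn.zpow (h : Cn W) (n : ℤ) : Cn fun z => W z ^ n := fun k hk => by
  obtain ⟨c, hc, h1⟩ := h k hk
  exact ⟨c ^ n, zpow_ne_zero _ hc, h1.zpow₀ n (Or.inl hc)⟩

theorem Cn.mul (h : Cn W) (h' : Cn W') : Cn fun z => W z * W' z := fun k hk => by
  obtain ⟨c, hc, h1⟩ := h k hk
  obtain ⟨c', hc', h2⟩ := h' k hk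
  exact ⟨_, mul_ne_zero hc hc', h1.mul h2⟩

/-- The normal form of a product. -/
theorem exists_prod {ι : Type*} (s : Finset ι) {W : ι → ℂ → ℂ} {ν : ι → ℂ → ℤ}
    (h : ∀ i ∈ s, Dv (W i) (ν i)) (h' : ∀ i ∈ s, Cn (W i)) :
    ∃ V, Dv V (fun z => ∑ i ∈ s, ν i z) ∧ Cn V ∧ ∀ z : ℂ, 0 < z.im →
      (V =ᶠ[𝓝[≠] z] fun z => ∏ i ∈ s, W i z) ∧ ((∀ i ∈ s, ν i z = 0) → V z = ∏ i ∈ s, W i z) := by
  obtain ⟨V, h1, h2⟩ := (Mo.prod s fun i hi => (h i hi).mo).exists_dv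
  have h3 : ∀ z : ℂ, 0 < z.im → (∀ i ∈ s, ν i z = 0) → V z = ∏ i ∈ s, W i z := fun z hz h0 =>
    (h2 z hz).2 (tendsto_finsetProd s fun i hi => ((h i hi).an hz (h0 i hi)).continuousAt)
  refine ⟨V, h1, fun k hk => ?_, fun z hz => ⟨(h2 z hz).1, h3 z hz⟩⟩
  choose! c hc h4 using fun i hi => h' i hi k hk
  refine ⟨_, Finset.prod_ne_zero_iff.mpr hc, (tendsto_finsetProd s h4).congr' ?_⟩
  filter_upwards [ev_pos, (Finset.eventually_all s).mpr fun i hi =>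
    (h4 i hi).eventually_ne (hc i hi)] with z hz h5
  have h6 := act_pos (pos_of_det hk) hz
  exact (h3 _ h6 fun i hi => ((h i hi).ne_iff h6).mp (h5 i hi)).symm

section
variable {A B : Type} [AddCommGroup A] [AddCommGroup B]

theorem hf_tl' (l : ℕ) (S : ℂ → A) (z : ℂ) : hf A (tl l) S z = ∑ i, S (act (rP l i) z) := by
  rw [hf, FreeAlgebra.lift_ι_apply]
  rfl

theorem hf_int' (n : ℤ) (S : ℂ → A) (z : ℂ) : hf A (algebraMap ℤ HW n) S z = n • S z := by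
  rw [AlgHom.commutes, Module.algebraMap_end_apply, Pi.smul_apply]

theorem hf_add' (t t' : HW) (S : ℂ → A) (z : ℂ) :
    hf A (t + t') S z = hf A t S z + hf A t' S z := by
  rw [map_add, LinearMap.add_apply, Pi.add_apply]

theorem hf_mul' (t t' : HW) (S : ℂ → A) : hf A (t * t') S = hf A t (hf A t' S) := by
  rw [map_mul, Module.End.mul_apply]

theorem hf_map' (φ : A →+ B) (t : HW) (S : ℂ → A) :
    hf B t (fun z => φ (S z)) = fun z => φ (hf A t S z) := by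
  induction t using FreeAlgebra.induction generalizing S with
  | grade0 n => funext z; rw [hf_int', hf_int', map_zsmul]
  | grade1 l => funext z; rw [hf_tl', hf_tl', map_sum]
  | mul a b ha hb => rw [hf_mul', hf_mul', hb, ha]
  | add a b ha hb => funext z; rw [hf_add', hf_add', ha, hb, map_add]

theorem hf_congr' {t : HW} (ht : t ∈ HA N) {E : ℂ → Prop}
    (hE : ∀ z, E z → ∀ l : ℕ, l.Prime → ¬ l ∣ N → ∀ i, E (act (rP l i) z)) {S S' : ℂ → A}
    (h : ∀ z, E z → S z = S' z) : ∀ z, E z → hf A t S z = hf A t S' z := by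
  induction ht using Algebra.adjoin_induction generalizing S S' with
  | mem t ht =>
    obtain ⟨l, ⟨h1, h2⟩, rfl⟩ := ht
    exact fun z hz => by
      rw [hf_tl', hf_tl']
      exact Finset.sum_congr rfl fun i _ => h _ (hE z hz l h1 h2 i)
  | algebraMap n => exact fun z hz => by rw [hf_int', hf_int', h z hz]
  | add a b _ _ ha hb => exact fun z hz => by rw [hf_add', hf_add', ha h z hz, hb h z hz]
  | mul a b _ _ ha hb => rw [hf_mul', hf_mul']; exact ha (hb h)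

end

/-- Functions with a multiplier that is given by `U` up to elements of `C`. -/
structure Mu (N : ℕ) (C : Subgroup ℂˣ) (ν : ℂ → ℤ) (U W : ℂ → ℂ) : Prop where
  dv : Dv W ν
  cn : Cn W
  inv : ∀ g, G0 N g → ∃ (c : ℂˣ) (k : ℂ), c ∈ C ∧ ∀ z : ℂ, 0 < z.im →
    U (act g z) = U z + k ∧ W (act g z) = c * cexp (-k) * W z

variable {C : Subgroup ℂˣ}

/-- The multiplicative action. -/
theorem Mu.hecke {t : HW} (ht : t ∈ HA N) {E : ℂ → Prop} (hE0 : ∀ z, E z → 0 < z.im)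
    (hE : ∀ z, E z → ∀ l : ℕ, l.Prime → ¬ l ∣ N → ∀ i, E (act (rP l i) z))
    (h : Mu N C ν U W) (h0 : ∀ z, E z → ν z = 0) : ∃ V, Mu N C (hf ℤ t ν) (hf ℂ t U) V ∧
      ∀ z, E z → Real.log ‖V z‖ = hf ℝ t (fun x => Real.log ‖W x‖) z := by
  have hz0 : ∀ {t : HW}, t ∈ HA N → ∀ {ν : ℂ → ℤ}, (∀ z, E z → ν z = 0) →
      ∀ z, E z → hf ℤ t ν z = 0 := fun ht ν h0 z hz => by
    rw [hf_congr' ht hE (S' := 0) h0 z hz, map_zero, Pi.zero_apply]
  induction ht using Algebra.adjoin_induction generalizing ν U W with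
  | mem t ht =>
    obtain ⟨l, ⟨h1, h2⟩, rfl⟩ := ht
    obtain ⟨V, h3, h4, h5⟩ := exists_prod Finset.univ (fun i _ => h.dv.act (rP_pos' h1 i))
      fun i _ => h.cn.act (rP_pos' h1 i)
    refine ⟨V, ⟨h3.congr fun z _ => hf_tl' _ _ _, h4, fun g hg => ?_⟩, fun z hz => ?_⟩
    · obtain ⟨σ, hσ⟩ := rP_perm' h1 h2 hg
      choose γ h6 h7 using hσ
      choose c k h8 h9 using fun i => h.inv _ (h6 i)
      have e : ∀ i (u : ℂ), 0 < u.im → act (rP l i) (act g u) = act (γ i) (act (rP l (σ i)) u) :=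
        fun i u hu => by
          rw [← act_mul _ (pos_of_det hg.1).ne' hu, h7, act_mul _ (rP_pos' h1 _).ne' hu]
      refine ⟨∏ i, c i, ∑ i, k i, prod_mem fun i _ => h8 i, fun z hz => ⟨?_, h3.mult_of
        (fun z hz => (h5 z hz).1) (pos_of_det hg.1) (mul_ne_zero (Units.ne_zero _) (exp_ne_zero _))
        hz ((nhdsWithin_le_nhds (ev_im hz) : _ ∈ _) |> mem_of_superset <| fun u hu => ?_)⟩⟩
      · rw [hf_tl', hf_tl', ← Equiv.sum_comp σ fun i => U (act (rP l i) z), ← Finset.sum_add_distrib]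
        exact Finset.sum_congr rfl fun i _ => by
          rw [e i z hz, (h9 i _ (act_pos (rP_pos' h1 _) hz)).1]
      · change _ = _
        rw [← Equiv.prod_comp σ fun i => W (act (rP l i) u), ← Finset.sum_neg_distrib, exp_sum,
          Units.coe_prod, ← Finset.prod_mul_distrib, ← Finset.prod_mul_distrib]
        exact Finset.prod_congr rfl fun i _ => by
          rw [e i u hu, (h9 i _ (act_pos (rP_pos' h1 _) hu)).2]
    · have h6 := fun i => h0 _ (hE z hz l h1 h2 i)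
      rw [(h5 z (hE0 z hz)).2 fun i _ => h6 i, hf_tl', norm_prod, Real.log_prod fun i _ =>
        norm_ne_zero_iff.mpr ((h.dv.ne_iff (act_pos (rP_pos' h1 i) (hE0 z hz))).mpr (h6 i))]
  | algebraMap n =>
    refine ⟨fun z => W z ^ n, ⟨(h.dv.zpow n).congr fun z _ => hf_int' _ _ _, h.cn.zpow n,
      fun g hg => ?_⟩, fun z _ => by rw [hf_int', norm_zpow, Real.log_zpow, zsmul_eq_mul]⟩
    obtain ⟨c, k, h1, h2⟩ := h.inv g hg
    refine ⟨c ^ n, n * k, zpow_mem h1 n, fun z hz => ⟨?_, ?_⟩⟩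
    · rw [hf_int', hf_int', (h2 z hz).1, smul_add, zsmul_eq_mul k]
    · rw [(h2 z hz).2, mul_zpow, mul_zpow, ← exp_int_mul, mul_neg, Units.val_zpow_eq_zpow_val]
  | add a b ha hb iha ihb =>
    obtain ⟨V₁, h1, e1⟩ := iha h h0
    obtain ⟨V₂, h2, e2⟩ := ihb h h0
    obtain ⟨V, h3, h4, h5⟩ := exists_prod Finset.univ (W := fun i => bif i then V₁ else V₂)
      (ν := fun i => bif i then hf ℤ a ν else hf ℤ b ν) (by rintro (_ | _) -; exacts [h2.dv, h1.dv])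
      (by rintro (_ | _) -; exacts [h2.cn, h1.cn])
    simp only [Fintype.sum_bool, Fintype.prod_bool, cond_true, cond_false, Finset.mem_univ,
      forall_const, Bool.forall_bool] at h3 h5
    refine ⟨V, ⟨h3.congr fun z _ => hf_add' _ _ _ _, h4, fun g hg => ?_⟩, fun z hz => ?_⟩
    · obtain ⟨c, k, h6, h7⟩ := h1.inv g hg
      obtain ⟨c', k', h8, h9⟩ := h2.inv g hg
      refine ⟨c * c', k + k', mul_mem h6 h8, fun z hz => ⟨?_, h3.mult_of
        (fun z hz => (h5 z hz).1) (pos_of_det hg.1) (mul_ne_zero (Units.ne_zero _) (exp_ne_zero _))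
        hz ((nhdsWithin_le_nhds (ev_im hz) : _ ∈ _) |> mem_of_superset <| fun u hu => ?_)⟩⟩
      · rw [hf_add', hf_add', (h7 z hz).1, (h9 z hz).1]
        ring
      · change _ = _
        rw [(h7 u hu).2, (h9 u hu).2, neg_add, exp_add, Units.val_mul]
        ring
    · have h6 := hz0 ha h0 z hz
      have h7 := hz0 hb h0 z hz
      rw [(h5 z (hE0 z hz)).2 ⟨h7, h6⟩, hf_add', norm_mul, Real.log_mul
        (norm_ne_zero_iff.mpr ((h1.dv.ne_iff (hE0 z hz)).mpr h6))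
        (norm_ne_zero_iff.mpr ((h2.dv.ne_iff (hE0 z hz)).mpr h7)), e1 z hz, e2 z hz]
  | mul a b ha hb iha ihb =>
    obtain ⟨V₂, h2, e2⟩ := ihb h h0
    obtain ⟨V, h1, e1⟩ := iha h2 (hz0 hb h0)
    simp only [hf_mul']
    exact ⟨V, h1, fun z hz => (e1 z hz).trans (hf_congr' ha hE e2 z hz)⟩

end Pool.Agent.G5
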