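import Pool.Agent.Lib.MP_696deb_nt.B5.LAa
import Pool.Agent.Lib.MP_696deb_nt.Glue1

/-! The derivative of the twisted series as an integral along vertical lines. -/

set_option autoImplicit false

open Filter Topology Complex MeasureTheory Asymptotics Set
open scoped Real

namespace Pool.Agent.G5

open Pool.Agent.Lib.MP_696deb_nt Pool.Agent.B4.GE

variable {N : ℕ} {G : ℂ → ℂ}

theorem Ci.integral_line (hG : Ci N G) (hN : N ≠ 0) {A : ℤ} (hA : A ≠ 0) {S : Finset ℤ}
    {χ : ℤ → ℤ} (hL : ∑ k ∈ S, χ k * Ld G k A 1 = 0) :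
    IntegrableOn (fun y : ℝ => (∑ k ∈ S, χ k * (G (k / A + y * I) - cI G)) / y) (Ioi 0) ∧
    ∫ y in Ioi (0 : ℝ), (∑ k ∈ S, χ k * (G (k / A + y * I) - cI G)) / y =
      deriv (fun s => ∑ k ∈ S, χ k * Ld G k A s) 1 := by
  set φ : ℝ → ℂ := fun y => ∑ k ∈ S, χ k * dF G (k / A + y * I) with hφ
  have hmel : ∀ s, mellin φ s = ∑ k ∈ S, χ k * mellin (fun y : ℝ => dF G (k / A + y * I)) s := by
    intro s
    simp only [mellin, hφ, Finset.smul_sum, ← integral_const_mul]
    rw [integral_finsetSum]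
    · exact Finset.sum_congr rfl fun k _ => by simp only [smul_eq_mul, mul_left_comm]
    · intro k _
      have := (hG.mellinConvergent hN k hA s).const_mul (χ k : ℂ)
      simpa only [smul_eq_mul, mul_left_comm] using this
  have hdiff : Differentiable ℂ (mellin φ) := by
    rw [funext hmel]
    exact Differentiable.fun_sum fun k _ => (hG.mellin_differentiable hN k hA).const_mul _
  have hL' : mellin φ 1 = 0 := by
    have h1 : (2 * π : ℂ) * mellin φ 1 = 0 := by
      rw [hmel, Finset.mul_sum, ← hL]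
      refine Finset.sum_congr rfl fun k _ => ?_
      rw [Ld_eq]
      simp [mul_left_comm]
    exact (mul_eq_zero.mp h1).resolve_left (by simp)
  have hsum : (fun s => ∑ k ∈ S, χ k * Ld G k A s) =
      fun s => ((2 * π) ^ s * (Gamma s)⁻¹) * mellin φ s := by
    funext s
    rw [hmel, Finset.mul_sum]
    exact Finset.sum_congr rfl fun k _ => by rw [Ld_eq]; ring
  have hΓ : Differentiable ℂ fun s : ℂ => (2 * π : ℂ) ^ s * (Gamma s)⁻¹ :=
    (differentiable_id.const_cpow (Or.inl (by simp))).mul differentiable_one_div_Gamma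
  have hder : deriv (fun s => ∑ k ∈ S, χ k * Ld G k A s) 1 =
      - -(2 * π) * deriv (mellin φ) 1 := by
    rw [hsum, deriv_fun_mul (hΓ 1) (hdiff 1), hL']
    simp
  rw [hder]
  refine mellin_ibp (Φ := fun y : ℝ => ∑ k ∈ S, χ k * (G (k / A + y * I) - cI G)) (φ := φ)
    (c := 2 * π / N) (K := -(2 * π)) (by positivity) (fun y hy => ?_) ?_ ?_ ?_ ?_ ?_
  · simp only [hφ, Finset.mul_sum]
    refine HasDerivAt.fun_sum fun k _ => ?_
    refine (((hasDerivAt_vert hG.hol k A hy).sub_const _).const_mul (χ k : ℂ)).congr_deriv ?_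
    ring
  · exact ContinuousOn.locallyIntegrableOn (continuousOn_finsetSum _ fun k _ =>
      continuousOn_const.mul (dF_contOn hG.hol k A)) measurableSet_Ioi
  · exact IsBigO.fun_sum fun k _ => (hG.dF_top hN k A).const_mul_left _
  · exact IsBigO.fun_sum fun k _ => (hG.dF_zero hN k hA _).const_mul_left _
  · exact IsBigO.fun_sum fun k _ => (hG.sub_top hN k A).const_mul_left _
  · rw [← hL]
    refine tendsto_finsetSum _ fun k _ => Tendsto.const_mul _ ?_
    simpa using (hG.tendsto_zero hN k hA).sub_const (cI G)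

/-- The same when the weights have sum zero. -/
theorem Ci.integral_line' (hG : Ci N G) (hN : N ≠ 0) {A : ℤ} (hA : A ≠ 0) {S : Finset ℤ}
    {χ : ℤ → ℤ} (h0 : ∑ k ∈ S, χ k = 0) (hL : ∑ k ∈ S, χ k * Ld G k A 1 = 0) :
    IntegrableOn (fun y : ℝ => (∑ k ∈ S, χ k * G (k / A + y * I)) / y) (Ioi 0) ∧
    ∫ y in Ioi (0 : ℝ), (∑ k ∈ S, χ k * G (k / A + y * I)) / y =
      deriv (fun s => ∑ k ∈ S, χ k * Ld G k A s) 1 := by
  have h1 : ∑ k ∈ S, (χ k : ℂ) = 0 := by exact_mod_cast h0
  simpa only [mul_sub, Finset.sum_sub_distrib, ← Finset.sum_mul, h1, zero_mul, sub_zero]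
    using hG.integral_line hN hA hL

theorem LA_eq_Ico (G : ℂ → ℂ) (B : ℕ) :
    LA G B = fun s => ∑ k ∈ Finset.Ico (0 : ℤ) B, (jacobiSym k B : ℂ) * Ld G k B s := by
  funext s
  rw [Int.Ico_eq_finset_map]
  simp [LA]

end Pool.Agent.G5
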