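import Pool.Agent.Lib.MP_696deb_nt.B5.GLa
import Pool.Agent.Lib.MP_696deb_nt.B5.LAc

/-! The invariant function of a combination of families of geodesics, and crossing numbers. -/

set_option autoImplicit false

open Filter Topology Set MeasureTheory UpperHalfPlane Metric CongruenceSubgroup
open scoped Real MatrixGroups

namespace Pool.Agent.G5.GL

open Pool.Agent.Lib.MP_696deb_nt Pool.Agent.B4.GE

/-- The invariant function. -/
noncomputable def ps {ι : Type} (J : Finset ι) (c : ι → ℤ) (w : ι → Fm → ℤ) (G : ℂ → ℂ) (z : ℂ) :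
    ℝ := (G z).re - ∑ m ∈ J, (c m : ℝ) * Iw (w m) z

/-- `G` belongs to the combination of the families `w m` with coefficients `c m`. -/
structure Gs (N : ℕ) {ι : Type} (J : Finset ι) (c : ι → ℤ) (w : ι → Fm → ℤ) (e : ι → ℤ)
    (G : ℂ → ℂ) : Prop where
  N0 : N ≠ 0
  gw : ∀ m ∈ J, Gw N (w m) (e m)
  ci : Ci N G
  inv : Inv0 N (ps J c w G)

variable {N : ℕ} {ι : Type} {J : Finset ι} {c : ι → ℤ} {w : ι → Fm → ℤ} {e : ι → ℤ} {G : ℂ → ℂ}

theorem G0_of_mem {γ : SL(2, ℤ)} (hγ : γ ∈ Gamma0 N) : G0 N (γ : MZ) :=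
  ⟨γ.det_coe, (ZMod.intCast_zmod_eq_zero_iff_dvd _ N).mp (Gamma0_mem.mp hγ)⟩

theorem Gs.tame (h : Gs N J c w e G) : Tame (Gamma0 N) fun z : ℍ => ps J c w G z := by
  have hc : Continuous fun z : ℍ => (G z).re := Complex.continuous_re.comp h.ci.hol.continuous_coe
  refine ⟨hc.measurable.sub (Finset.measurable_fun_sum _ fun m hm =>
    (h.gw m hm).measurable_Iw.const_mul _), fun γ hγ z => ?_,
    hc.locallyIntegrable.sub ?_, fun g => ?_⟩
  · rw [coe_smul_eq_mob]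
    exact h.inv _ (G0_of_mem hγ) _ z.im_pos
  · exact locallyIntegrable_finsetSum J fun m hm => (h.gw m hm).locInt.smul (c m : ℝ)
  · obtain ⟨L, hL⟩ := h.ci.exists_lim h.N0 g.det_coe
    have h1 : ∀ᶠ z in atI, ‖G (act g z)‖ < ‖L‖ + 1 :=
      hL.norm.eventually (gt_mem_nhds (lt_add_one _))
    rw [eventually_comap, eventually_atTop] at h1
    obtain ⟨Y, hY⟩ := h1
    choose! C hC using fun m hm => (h.gw m hm).Iw_cusp (det_SL g)
    refine ⟨max Y 1, ‖L‖ + 1 + ∑ m ∈ J, |(c m : ℝ)| * C m, fun z h1 h2 => ?_⟩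
    rw [coe_smul_eq_mob]
    refine (abs_sub _ _).trans (add_le_add ((Complex.abs_re_le_norm _).trans
      (hY _ ((le_max_left _ _).trans h2) z rfl).le)
      ((Finset.abs_sum_le_sum_abs _ _).trans (Finset.sum_le_sum fun m hm => ?_)))
    rw [abs_mul]
    exact mul_le_mul_of_nonneg_left (hC m hm z h1 ((le_max_right _ _).trans h2)) (abs_nonneg _)

/-- The defect of the invariant function against its average. -/
theorem Gs.defect (h : Gs N J c w e G) {ε : ℝ} (hε : 0 < ε) (z : ℍ) :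
    ps J c w G z - avg ε (fun v => ps J c w G v) z = ∑ m ∈ J, (c m : ℝ) * Df (w m) ε z := by
  have : NeZero N := ⟨h.N0⟩
  have h1 := fun m hm => ((h.gw m hm).hasSum_Df hε z).1.const_mul (c m : ℝ)
  have h2 := integrable_finsetSum J h1
  have h3 := h.tame.integrable hε z
  have h0 := (integrable_akr hε z).mul_const (∑ m ∈ J, (c m : ℝ) * Iw (w m) z)
  have key : ∀ v : ℍ, akr ε z v * (G v).re - akr ε z v * ∑ m ∈ J, (c m : ℝ) * Iw (w m) z =
      akr ε z v * ps J c w G v + ∑ m ∈ J, (c m : ℝ) * (akr ε z v * (Iw (w m) v - Iw (w m) z)) :=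
    fun v => by
    simp only [ps, mul_sub, Finset.mul_sum, Finset.sum_sub_distrib, mul_left_comm (akr ε z v)]
    ring
  have h4 : Integrable fun v : ℍ => akr ε z v * (G v).re :=
    ((h3.add h2).add h0).congr (.of_forall fun v => by
      simp only [Pi.add_apply]
      rw [← key]
      ring)
  have h5 := avg_hol h.ci.hol Complex.reCLM hε z h4
  have h7 := integral_sub h4 h0
  rw [integral_mul_const, integral_akr hε, one_mul] at h7
  simp only [avg, Complex.reCLM_apply] at h5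
  simp only [key] at h7
  rw [integral_add h3 h2, integral_finsetSum J h1, h5] at h7
  simp only [integral_const_mul] at h7
  rw [avg, sub_eq_iff_eq_add', ps, ← h7]
  rfl

/-- The periods are given by crossing numbers. -/
theorem Gs.per (h : Gs N J c w e G) {a b c' d : ℤ} (hd : a * d - b * (N * c') = 1) {z : ℂ}
    (hz : 0 < z.im) : 2 * (G (mob a b (N * c') d z) - G z).re =
      ∑ m ∈ J, (c m : ℝ) * thw (w m) a (N * c') := by
  have h1 := h.inv !![a, b; N * c', d] ⟨by rw [Matrix.det_fin_two_of]; exact hd, by simp⟩ z hz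
  rw [act_of, ps, ps, Finset.sum_congr rfl fun m hm => by rw [(h.gw m hm).Iw_mob hd hz]] at h1
  simp only [mul_add, Finset.sum_add_distrib, ← mul_div_assoc, ← Finset.sum_div] at h1
  rw [Complex.sub_re]
  linarith

/-- The limit of the invariant function at a cusp equivalent to zero. -/
theorem Gs.cusp_val (h : Gs N J c w e G) {A : ℤ} (hA : A ≠ 0) (hN : IsCoprime A N) {k : ℤ}
    (hk : ∀ m ∈ J, ∀ R, w m R ≠ 0 → fval R k A ≠ 0) :
    2 * (Ld G k A 1).re - ∑ m ∈ J, (c m : ℝ) * thw (w m) k A =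
      2 * (Ld G 0 1 1).re - ∑ m ∈ J, (c m : ℝ) * thw (w m) 0 1 := by
  obtain ⟨g, k, b, A, d, hg, rfl, rfl, hd⟩ := exists_SL (a := k) (Or.inr hA)
  replace hA := left_ne_zero_of_mul hA
  have h1 : IsCoprime A k := ⟨-b, d, by linear_combination hd⟩
  obtain ⟨u, v, huv⟩ := hN.of_mul_left_left.mul_right h1
  have h2 : u * A - k * (N * -v) = 1 := by linear_combination huv
  have h5 : ∀ m ∈ J, thw (w m) (k * g) (A * g) = thw (w m) u (N * -v) + thw (w m) 0 1 := by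
    intro m hm
    have h3 : ∀ R, w m R ≠ 0 → fval R 0 1 ≠ 0 := by
      intro R hR
      obtain ⟨R, rfl⟩ := (fequiv h2).surjective R
      change w m (fmap R u k (N * -v) A) ≠ 0 at hR
      change fval (fmap R u k (N * -v) A) 0 1 ≠ 0
      rw [(h.gw m hm).fmap h2] at hR
      have h4 := hk m hm R hR
      rw [show fval R (k * g) (A * g) = g ^ 2 * fval R k A by simp only [fval]; ring] at h4
      simpa [fval_fmap] using right_ne_zero_of_mul h4
    simpa [thw_scale hg.ne'] using (h.gw m hm).thw_add h2 h3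
  obtain ⟨L, hL⟩ := h.ci.inv !![u, k; N * -v, A]
    ⟨by rw [Matrix.det_fin_two_of]; exact h2, by simp⟩
  have h6 := (h.ci.tendsto_mob h.N0 (a := k) (b := -u) (c := A) (d := N * v)
    (by linear_combination h2) hA).1
  have h7 := (h.ci.tendsto_mob h.N0 (a := 0) (b := -1) (c := 1) (d := 0) (by norm_num)
    one_ne_zero).1.add_const L
  have h8 : Ld G k A 1 = Ld G 0 1 1 + L := by
    have := atI_neBot
    have h9 := tendsto_nhds_unique_of_eventuallyEq h6 h7 (ev_pos.mono fun z hz => by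
      have hS : (!![0, -1; 1, 0] : MZ).det = 1 := by simp [Matrix.det_fin_two_of]
      have := hL _ (act_pos (M := !![0, -1; 1, 0]) (by rw [hS]; exact one_pos) hz)
      rw [← act_mul _ (by rw [hS]; exact one_ne_zero) hz] at this
      simpa [act_of] using this)
    linear_combination h9
  have h9 := h.per h2 (z := Complex.I) (by simp)
  rw [← act_of, hL _ (by simp), add_sub_cancel_left] at h9
  rw [Ld_scale G hg.ne', h8, Finset.sum_congr rfl fun m hm => by rw [h5 m hm], Complex.add_re]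
  simp only [Int.cast_add, mul_add, Finset.sum_add_distrib]
  linarith

/-- The class is read off from crossing numbers. -/
theorem Gs.cross_thw (h : Gs N J c w e G) {A : ℤ} (hA : A ≠ 0) (hN : IsCoprime A N)
    {S : Finset ℤ} {χ : ℤ → ℤ} (hχ : ∑ k ∈ S, χ k = 0)
    (hS : ∀ k ∈ S, ∀ m ∈ J, ∀ R, w m R ≠ 0 → fval R k A ≠ 0) :
    2 * (∑ k ∈ S, χ k * Ld G k A 1).re =
      ∑ m ∈ J, (c m : ℝ) * ∑ k ∈ S, (χ k : ℝ) * thw (w m) k A := by
  have h5 : (∑ k ∈ S, (χ k : ℝ)) = 0 := by exact_mod_cast hχ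
  simp only [Finset.mul_sum]
  rw [Finset.sum_comm, Complex.re_sum, Finset.mul_sum, ← sub_eq_zero, ← Finset.sum_sub_distrib,
    Finset.sum_congr rfl (g := fun k => (χ k : ℝ) *
      (2 * (Ld G 0 1 1).re - ∑ m ∈ J, (c m : ℝ) * thw (w m) 0 1))
      fun k hk => ?_, ← Finset.sum_mul, h5, zero_mul]
  rw [← h.cusp_val hA hN (hS k hk), mul_sub, Finset.mul_sum]
  simp only [Complex.mul_re, Complex.intCast_re, Complex.intCast_im, zero_mul, sub_zero,
    mul_left_comm (χ k : ℝ)]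

theorem Gs.cross (h : Gs N J c w e G) {A : ℤ} (hA : A ≠ 0) (hN : IsCoprime A N)
    {S : Finset ℤ} {χ : ℤ → ℤ} (hχ : ∑ k ∈ S, χ k = 0)
    (hS : ∀ k ∈ S, ∀ m ∈ J, ∀ R, w m R ≠ 0 → fval R k A ≠ 0) :
    (∑ k ∈ S, χ k * Ld G k A 1).re = ((∑ m ∈ J, c m *
      ∑ᶠ t : ℤ, if t ^ 2 < A ^ 2 * e m then cntL A S χ (w m) t else 0 : ℤ) : ℝ) := by
  apply mul_left_cancel₀ (two_ne_zero (α := ℝ))
  rw [h.cross_thw hA hN hχ hS, Int.cast_sum, Finset.mul_sum]
  refine Finset.sum_congr rfl fun m hm => ?_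
  have h1 := congrArg (Int.cast : ℤ → ℝ) ((h.gw m hm).cross χ fun k hk => hS k hk m hm)
  push_cast at h1 ⊢
  rw [← h1]
  ring

theorem Gs.of_geo {w : Fm → ℤ} {e : ℤ} (hN : N ≠ 0) (hw : Gw N w e) (hG : Geo N w G) :
    Gs N ({()} : Finset Unit) (fun _ => 1) (fun _ => w) (fun _ => e) G :=
  ⟨hN, fun _ _ => hw, hG.ci, fun g hg z hz => by simpa [ps] using hG.inv g hg z hz⟩

theorem cmb_Iw (w : ℕ → Fm → ℤ) (a : ℕ →₀ ℤ) (z : ℂ) :
    cmb (fun m => Iw (w m)) a z = ∑ m ∈ a.support, (a m : ℝ) * Iw (w m) z := by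
  simp [Finsupp.linearCombination_apply, Finsupp.sum, Finset.sum_apply]

theorem Gs.of_cmb {w : ℕ → Fm → ℤ} {e : ℕ → ℤ} {a : ℕ →₀ ℤ} (hN : N ≠ 0)
    (hw : ∀ m ∈ a.support, Gw N (w m) (e m)) (hG : Ci N G)
    (hi : Inv0 N fun z => (G z).re - cmb (fun m => Iw (w m)) a z) : Gs N a.support a w e G :=
  ⟨hN, hw, hG, fun g hg z hz => by simpa only [ps, cmb_Iw] using hi g hg z hz⟩

/-- Crossing numbers for one family. -/
theorem geo_cross_thw {w : Fm → ℤ} {e : ℤ} (hN : N ≠ 0) (hw : Gw N w e) (hG : Geo N w G) {A : ℤ}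
    (hA : A ≠ 0) (hAN : IsCoprime A N) {S : Finset ℤ} {χ : ℤ → ℤ} (hχ : ∑ k ∈ S, χ k = 0)
    (hS : ∀ k ∈ S, ∀ R, w R ≠ 0 → fval R k A ≠ 0) :
    2 * (∑ k ∈ S, χ k * Ld G k A 1).re = ∑ k ∈ S, (χ k : ℝ) * thw w k A := by
  simpa using (Gs.of_geo hN hw hG).cross_thw hA hAN hχ fun k hk _ _ => hS k hk

theorem geo_cross {w : Fm → ℤ} {e : ℤ} (hN : N ≠ 0) (hw : Gw N w e) (hG : Geo N w G) {A : ℤ}
    (hA : A ≠ 0) (hAN : IsCoprime A N) {S : Finset ℤ} {χ : ℤ → ℤ} (hχ : ∑ k ∈ S, χ k = 0)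
    (hS : ∀ k ∈ S, ∀ R, w R ≠ 0 → fval R k A ≠ 0) :
    (∑ k ∈ S, χ k * Ld G k A 1).re =
      ((∑ᶠ t : ℤ, if t ^ 2 < A ^ 2 * e then cntL A S χ w t else 0 : ℤ) : ℝ) := by
  simpa using (Gs.of_geo hN hw hG).cross hA hAN hχ fun k hk _ _ => hS k hk

end Pool.Agent.G5.GL
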