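import Pool.Agent.Lib.MP_696deb_nt.B5.Z3
import Pool.Agent.Lib.MP_696deb_nt.B5.GLb
import Pool.Agent.Lib.MP_696deb_nt.B5.ZHb
import Pool.Agent.Lib.MP_696deb_nt.B5.ZFb

/-! Points against geodesics, for combinations of families. -/

set_option autoImplicit false

open Filter Topology MeasureTheory UpperHalfPlane Finset NumberTheorySymbols
open scoped Real ComplexConjugate

namespace Pool.Agent.G5

open Pool.Agent.Lib.MP_696deb_nt Pool.Agent.B4.GE Pool.Agent.G5.GL

section par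

variable {W : WeierstrassCurve ℚ} {N : ℕ} (P : Par W N) {z : ℂ}

theorem im_neg_conj (hz : 0 < z.im) : 0 < (-conj z).im := by simpa using hz

/-- The parametrization has real coefficients. -/
theorem par_conj (hz : 0 < z.im) : P.F (-conj z) = conj (P.F z) := by
  refine (P.qe.hasSum (im_neg_conj hz)).unique ?_
  convert (Complex.hasSum_conj'.2 (P.qe.hasSum hz)) using 2 with n
  rw [map_mul, map_pow, PowerSeries.coeff_map, eq_ratCast, map_ratCast, q1, q1, ← Complex.exp_conj]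
  simp [map_ofNat]

theorem par_lim : Tendsto P.F atI (𝓝 0) := by
  simpa [P.A0] using P.qe.tendsto

/-- The untwisted value is the value at the cusp zero. -/
theorem la_one : LA P.F 1 1 = P.t0 := by
  have n0 : (0 : ℝ) < N := by exact_mod_cast Nat.pos_of_ne_zero P.N0
  have h0 : cI P.F = 0 := tendsto_nhds_unique ((par_ci P).tendsto P.N0) (par_lim P)
  have h1 : Tendsto (fun y : ℝ => (((N * y)⁻¹ : ℝ) : ℂ) * Complex.I) (𝓝[>] 0) atI := by
    refine tendsto_comap_iff.2 ((tendsto_inv_nhdsGT_zero.comp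
      (tendsto_nhdsWithin_iff.2 ⟨?_, ?_⟩ : Tendsto (fun y : ℝ => N * y) (𝓝[>] 0) (𝓝[>] 0))).congr
      fun y => by simp only [Function.comp, Complex.mul_im, Complex.ofReal_re, Complex.I_im,
        Complex.ofReal_im, Complex.I_re, mul_one, mul_zero, add_zero])
    · simpa using ((continuous_const_mul (N : ℝ)).tendsto 0).mono_left nhdsWithin_le_nhds
    · filter_upwards [self_mem_nhdsWithin] with y hy using mul_pos n0 hy
  have h2 := (par_ci P).Ld_one_eq P.N0 0 one_ne_zero (L := P.t0) (by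
    have h3 := ((par_lim P).comp h1).const_sub P.t0
    rw [sub_zero] at h3
    refine h3.congr' ?_
    filter_upwards [self_mem_nhdsWithin] with y hy
    have y0 : (0 : ℝ) < y := hy
    have k1 : (N : ℂ) ≠ 0 := by exact_mod_cast P.N0
    have k2 : (y : ℂ) ≠ 0 := by exact_mod_cast y0.ne'
    rw [Function.comp, ← P.al _ (by
      simpa only [Complex.mul_im, Complex.ofReal_re, Complex.I_im, Complex.ofReal_im, Complex.I_re,
        mul_one, mul_zero, add_zero] using inv_pos.2 (mul_pos n0 y0))]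
    congr 1
    push_cast
    field_simp
    rw [zero_add, mul_left_comm, Complex.I_mul_I, mul_neg_one])
  simpa [LA, h0] using h2

end par

variable {N K : ℕ} {ε : ℝ} {z : ℂ} {g : MZ} {I : ℂ → ℝ} {w w' : Fm → ℤ} {e e' : ℤ}

theorem coe_of (hz : 0 < z.im) : ((ofComplex z : ℍ) : ℂ) = z := by
  rw [ofComplex_apply_of_im_pos hz]

theorem exists_SLR (hg : 0 < g.det) : ∃ γ : Matrix.SpecialLinearGroup (Fin 2) ℝ,
    ∀ v : ℍ, ((γ • v : ℍ) : ℂ) = act g v := by
  have h0 : (0 : ℝ) < g.det := by exact_mod_cast hg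
  have h1 := Real.sqrt_pos.2 h0
  have h2 := Real.sq_sqrt h0.le
  generalize √(g.det : ℝ) = s at h1 h2
  rw [Matrix.det_fin_two] at h2
  rw [show act g = mob (g 0 0) (g 0 1) (g 1 0) (g 1 1) from rfl]
  generalize g 0 0 = a, g 0 1 = b, g 1 0 = c, g 1 1 = d at h2
  let γ : Matrix.SpecialLinearGroup (Fin 2) ℝ := ⟨!![a / s, b / s; c / s, d / s], by
    rw [Matrix.det_fin_two_of]
    field_simp
    rw [h2]
    push_cast
    ring⟩
  refine ⟨γ, fun v => ?_⟩
  have h3 : (s : ℂ) ≠ 0 := by exact_mod_cast h1.ne'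
  rw [coe_specialLinearGroup_apply, mob, ← mul_div_mul_left _ _ h3]
  simp only [γ, Matrix.of_apply, Matrix.cons_val', Matrix.cons_val_zero,
    Matrix.cons_val_one, Matrix.cons_val_fin_one, Algebra.algebraMap_self, RingHom.id_apply]
  push_cast
  congr 1 <;> field_simp

/-- The defect of a function against its average. -/
noncomputable def DI (I : ℂ → ℝ) (ε : ℝ) (z : ℂ) : ℝ :=
  ∫ v : ℍ, akr ε (ofComplex z) v * (I v - I (ofComplex z))

/-- The defect is given by a convergent integral. -/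
def IntI (I : ℂ → ℝ) (ε : ℝ) : Prop := ∀ z : ℍ, Integrable fun v : ℍ => akr ε z v * (I v - I z)

theorem DI_act (hg : 0 < g.det) (hz : 0 < z.im) :
    DI I ε (act g z) = DI (fun z => I (act g z)) ε z := by
  obtain ⟨γ, h⟩ := exists_SLR hg
  have h1 : ofComplex (act g z) = γ • ofComplex z :=
    UpperHalfPlane.ext (by rw [h, coe_of hz, coe_of (act_pos hg hz)])
  have h2 := avg_smul ε (fun v => I v - I (γ • ofComplex z : ℍ)) γ (ofComplex z)
  simp only [avg, h] at h2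
  rw [DI, h1, h, h2, DI]

theorem IntI.act (h : IntI I ε) (hg : 0 < g.det) : IntI (fun z => I (act g z)) ε := fun z => by
  obtain ⟨γ, k⟩ := exists_SLR hg
  simpa only [k] using integrable_akr_smul (u := fun v => I v - I (γ • z : ℍ)) γ (h (γ • z))

theorem DI_congr {I' : ℂ → ℝ} (c : ℝ) (h : ∀ z : ℂ, 0 < z.im → I z = c + I' z) :
    DI I ε z = DI I' ε z := by
  simp only [DI, h _ (im_pos _), add_sub_add_left_eq_sub]

theorem DI_add {I' : ℂ → ℝ} (h : IntI I ε) (h' : IntI I' ε) :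
    DI (fun z => I z + I' z) ε z = DI I ε z + DI I' ε z := by
  rw [DI, DI, DI, ← integral_add (h _) (h' _)]
  congr 1
  funext v
  ring

theorem DI_smul (c : ℤ) : DI (fun z => c • I z) ε z = c • DI I ε z := by
  simp only [DI, zsmul_eq_mul, ← integral_const_mul]
  congr 1
  funext v
  ring

theorem IntI.smul (h : IntI I ε) (c : ℤ) : IntI (fun z => c • I z) ε := fun z =>
  ((h z).const_mul c).congr (.of_forall fun v => by simp only [zsmul_eq_mul]; ring)

theorem DI_Tf {l : ℕ} (hl : l.Prime) (h : IntI I ε) (hz : 0 < z.im) :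
    Tf ℝ l (DI I ε) z = DI (Tf ℝ l I) ε z := by
  simp only [Tf_apply, DI_act (rP_det_pos hl _) hz]
  simp only [DI, Tf_apply, ← sum_sub_distrib, mul_sum]
  exact (integral_finsetSum _ fun i _ => h.act (rP_det_pos hl i) _).symm

theorem HFm.di {η : ℕ → ℤ} {Φ : ℕ → ℂ → ℝ} (h : HFm K η Φ)
    (hi : ∀ m : ℕ, m ≠ 0 → m.Coprime K → IntI (Φ m) ε) : HFm K η fun m => DI (Φ m) ε :=
  fun l hl hK m m0 hm z hz => by
  have h1 := hi (l * m) (mul_ne_zero hl.ne_zero m0)
    (Nat.Coprime.mul_left ((Nat.Prime.coprime_iff_not_dvd hl).2 hK) hm)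
  rw [DI_Tf hl (hi m m0 hm) hz, DI_congr 0 fun z hz => (h l hl hK m m0 hm z hz).trans (zero_add _).symm]
  split_ifs with k
  · rw [DI_add h1 ((hi _ (Nat.div_pos (Nat.le_of_dvd (Nat.pos_of_ne_zero m0) k) hl.pos).ne'
      (hm.coprime_dvd_left (Nat.div_dvd_of_dvd k))).smul _), DI_smul]
  · rw [DI_add h1 ((hi m m0 hm).smul _), DI_smul]

theorem GL.Gw.intI (hw : Gw N w e) (hε : 0 < ε) : IntI (Iw w) ε := fun z => (hw.hasSum_Df hε z).1

theorem GL.Gw.di_inv (hw : Gw N w e) : Inv0 N (DI (Iw w) ε) := fun g hg z hz => by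
  rw [DI_act (hg.1 ▸ one_pos) hz]
  exact DI_congr _ fun z hz => Iw_act hw.toWt hw.ne hg hz

variable {S S' : Finset Fm} {μ μ' : Fm → ℤ} {D D' : ℤ}

theorem GL.Gw.hasSum_pts (hw : Gw N w e) (hD : D < 0) (hS : ∀ Q ∈ S, fdisc Q = D ∧ 0 < Q.1)
    (μ : Fm → ℤ) (hε : 0 < ε) :
    HasSum (fun t : ℤ => (cntP S μ w t : ℝ) * kerE ε (t / √(-(D * e : ℤ) : ℝ)))
      (-∑ Q ∈ S, μ Q • DI (Iw w) ε (froot Q)) := by
  have hD' : (0 : ℝ) < -D := by exact_mod_cast neg_pos.mpr hD
  rw [Int.cast_mul, ← neg_mul]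
  simp only [cntP, Int.cast_sum, Int.cast_mul, sum_mul, mul_assoc, zsmul_eq_mul, ← sum_neg_distrib,
    ← mul_neg]
  refine hasSum_sum fun Q hQ => HasSum.mul_left _ (hasSum_fiber
    (g := fun t => kerE ε (t / √(-D * e : ℝ))) ?_ fun t => ?_)
  · obtain ⟨k1, k2⟩ := hS Q hQ
    have h1 := (hw.hasSum_Df hε (ofComplex (froot Q))).2.neg
    rw [← coe_im, coe_of (im_froot_pos (k1 ▸ hD) k2)] at h1
    convert! h1 using 2 with R
    rw [fside_froot (k1 ▸ hD) k2, k1, Real.sqrt_mul hD'.le, div_div, neg_div, kerE_neg,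
      mul_neg, neg_neg]
  · obtain ⟨k1, k2⟩ := hS Q hQ
    have h1 := im_froot_pos (k1 ▸ hD) k2
    refine (finite_side e h1 |-t / √(-fdisc Q : ℝ) * (froot Q).im|).subset fun R hR =>
      ⟨hw.disc R hR.1, hw.ne R hR.1, ?_⟩
    rw [← hR.2, ← fside_froot (k1 ▸ hD) k2, div_mul_cancel₀ _ h1.ne']

/-- Equal counts give equal defects. -/
theorem di_eq (hw : Gw N w e) (hw' : Gw N w' e') (hD : D < 0) (hD' : D' < 0)
    (hS : ∀ Q ∈ S, fdisc Q = D ∧ 0 < Q.1) (hS' : ∀ Q ∈ S', fdisc Q = D' ∧ 0 < Q.1)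
    (hr : D * e = D' * e') {σ : ℤ} (hc : ∀ t, cntP S μ w t = σ * cntP S' μ' w' t) (hε : 0 < ε) :
    ∑ Q ∈ S, μ Q • DI (Iw w) ε (froot Q) = σ * ∑ Q ∈ S', μ' Q • DI (Iw w') ε (froot Q) := by
  have h1 := hw.hasSum_pts hD hS μ hε
  have h2 := (hw'.hasSum_pts hD' hS' μ' hε).mul_left (σ : ℝ)
  simp only [hc, hr, Int.cast_mul σ, mul_assoc] at h1
  linear_combination -h1.unique h2

/-- The limit of the defects of a combination at a divisor of degree zero. -/
theorem tendsto_pts {w : ℕ → Fm → ℤ} {e : ℕ → ℤ} {a : ℕ →₀ ℤ} {G : ℂ → ℂ} (hN : N ≠ 0)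
    (hw : ∀ m ∈ a.support, Gw N (w m) (e m)) (hG : Ci N G)
    (hi : Inv0 N fun z => (G z).re - cmb (fun m => Iw (w m)) a z) (hS : Pts S μ D) :
    Tendsto (fun ε => ∑ Q ∈ S, μ Q • cmb (fun m => DI (Iw (w m)) ε) a (froot Q)) (𝓝[>] 0)
      (𝓝 (∑ Q ∈ S, μ Q • ((G (froot Q)).re - cmb (fun m => Iw (w m)) a (froot Q)))) := by
  have : NeZero N := ⟨hN⟩
  have h := Gs.of_cmb hN hw hG hi
  have hz : ∀ Q ∈ S, ((ofComplex (froot Q) : ℍ) : ℂ) = froot Q := fun Q hQ =>
    coe_of (im_froot_pos (hS.disc Q hQ ▸ hS.neg) (hS.pos Q hQ))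
  have h1 := (h.tame.tendsto_sum S (fun Q => (μ Q : ℝ)) (fun Q => ofComplex (froot Q))
    (by exact_mod_cast hS.deg)).const_sub (∑ Q ∈ S, μ Q * ps a.support a w G (froot Q))
  rw [sub_zero] at h1
  convert h1.congr' ?_ using 2
  · simp only [ps, cmb_Iw, zsmul_eq_mul]
  · filter_upwards [self_mem_nhdsWithin] with ε hε
    rw [← sum_sub_distrib]
    refine sum_congr rfl fun Q hQ => ?_
    have h2 := h.defect hε (ofComplex (froot Q))
    rw [hz Q hQ] at h2
    rw [← mul_sub, h2, zsmul_eq_mul, Finsupp.linearCombination_apply, Finsupp.sum, Finset.sum_apply]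
    simp only [Pi.smul_apply, zsmul_eq_mul]
    rfl

end Pool.Agent.G5
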