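import Pool.Agent.Lib.MP_696deb_nt.B5.GKa
import Pool.Agent.Lib.MP_696deb_nt.B5.HWd
import Pool.Agent.Lib.MP_696deb_nt.B5.AJa
import Pool.Agent.Lib.MP_696deb_nt.B5.WPa

/-! Symmetrized special divisors of arbitrary discriminant, and the basic relation. -/

set_option autoImplicit false

open Filter Topology Finset NumberTheorySymbols
open scoped ComplexConjugate

namespace Pool.Agent.G5

open Pool.Agent.Lib.MP_696deb_nt Pool.Agent.B4.GE Pool.Agent.G5.GL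

/-- The data of a symmetrized special divisor. -/
structure Sd (N B : ℕ) (D ρ : ℤ) : Prop where
  l1 : 1 < N
  neg : D < 0
  sqf : Squarefree B
  odd : Odd B
  cop : B.Coprime N
  dvd : (B : ℤ) ∣ D
  jac : J(-N | B) = -1
  cr : IsCoprime (N : ℤ) ρ

/-- The sum of a function over the symmetrized divisor. -/
noncomputable def zz {V : Type} [AddCommGroup V] (N B : ℕ) (D ρ : ℤ) (T T' : Finset Fm)
    (S : ℂ → V) : V := ∑ Q ∈ T ∪ T', wZ N B D ρ Q • S (froot Q)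

variable {V : Type} [AddCommGroup V] {N K A B C p m : ℕ} {D ρ e β γ u : ℤ} {T T' U U' : Finset Fm}
  {S : ℂ → V} {η : ℕ → ℤ}

theorem Sd.n0 (h : Sd N B D ρ) : N ≠ 0 := by have := h.l1; omega

theorem Sd.ne (h : Sd N B D ρ) : ¬ (N : ℤ) ∣ ρ := fun k => by
  have := Int.isUnit_iff.1 (h.cr.isUnit_of_dvd k)
  have := h.l1
  omega

theorem Sd.mul (h : Sd N B D ρ) (h0 : m ≠ 0) (hm : m.Coprime N) : Sd N B (D * m ^ 2) (ρ * m) :=
  ⟨h.l1, mul_neg_of_neg_of_pos h.neg (by positivity), h.sqf, h.odd, h.cop, h.dvd.mul_right _, h.jac,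
    h.cr.mul_right (Nat.isCoprime_iff_coprime.2 hm.symm)⟩

theorem Sd.sum_fV (k : Sd N B D ρ) (h : FReps N D ρ T) (h' : FReps N D (-ρ) T') (f : Fm → V)
    (hf : ∀ Q R, Fam N D (-ρ) Q → 0 < Q.1 → FEq N Q R → f R = f Q) :
    ∑ Q ∈ T ∪ T', wZ N B D ρ Q • f Q = ∑ Q ∈ T, gch B Q • f Q - ∑ Q ∈ T, gch B Q • f (fV N Q) := by
  rw [sum_wZ h h' k.ne, h'.sum_eq (h.fV k.n0 k.neg).1 _
    fun Q R h1 h2 h3 => by rw [h3.gch k.odd (h1.2.1 ▸ k.dvd), hf Q R h1 h2 h3],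
    (h.fV k.n0 k.neg).2, sub_eq_add_neg, smul_sum, ← sum_neg_distrib]
  refine congrArg _ (sum_congr rfl fun Q hQ => ?_)
  rw [gch_fV k.n0 k.sqf k.odd k.cop ((h.fam Q hQ).2.1 ▸ k.dvd) (h.fam Q hQ).1, smul_smul,
    ← mul_assoc, ← jacobiSym.mul_left, neg_one_mul, k.jac, neg_one_mul, neg_smul]

theorem mem_reps (h : FReps N D ρ T) (h' : FReps N D (-ρ) T') :
    ∀ Q ∈ T ∪ T', fdisc Q = D ∧ 0 < Q.1 := fun Q hQ => (mem_union.1 hQ).elim
  (fun k => ⟨(h.fam Q k).2.1, h.pos Q k⟩) fun k => ⟨(h'.fam Q k).2.1, h'.pos Q k⟩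

theorem Sd.im (k : Sd N B D ρ) (h : FReps N D ρ T) (h' : FReps N D (-ρ) T') :
    ∀ Q ∈ T ∪ T', 0 < (froot Q).im := fun Q hQ =>
  im_froot_pos ((mem_reps h h' Q hQ).1 ▸ k.neg) (mem_reps h h' Q hQ).2

theorem Sd.pts (k : Sd N B D ρ) (h : FReps N D ρ T) (h' : FReps N D (-ρ) T') :
    Pts (T ∪ T') (wZ N B D ρ) D :=
  ⟨k.neg, fun Q hQ => (mem_reps h h' Q hQ).1, fun Q hQ => (mem_reps h h' Q hQ).2, by
    simpa using k.sum_fV h h' (fun _ => (1 : ℤ)) fun _ _ _ _ _ => rfl⟩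

theorem Sd.zz_al (k : Sd N B D ρ) (h : FReps N D ρ T) (h' : FReps N D (-ρ) T') (hS : Inv0 N S)
    {c : V} (hc : ∀ z : ℂ, 0 < z.im → S (-1 / (N * z)) = c - S z) :
    ∃ j : ℤ, zz N B D ρ T T' S = 2 • ∑ Q ∈ T, gch B Q • S (froot Q) + j • c := by
  refine ⟨-∑ Q ∈ T, gch B Q, ?_⟩
  rw [zz, k.sum_fV h h' _ fun Q R k1 k2 k3 => k3.inv0 hS (k1.2.1 ▸ k.neg) k2,
    sum_congr (f := fun Q => gch B Q • S (froot (fV N Q))) rfl fun Q hQ => by
      rw [froot_fV k.n0 ((h.fam Q hQ).2.1 ▸ k.neg) (h.pos Q hQ) (h.fam Q hQ).1,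
        hc _ (im_froot_pos ((h.fam Q hQ).2.1 ▸ k.neg) (h.pos Q hQ)), smul_sub],
    sum_sub_distrib, ← sum_smul, two_smul, neg_smul]
  abel

theorem Sd.flip (k : Sd N B D ρ) (k' : Sd N B D (u * ρ)) {w : MZ} (hw : ALm N p w) (hp : p.Prime)
    (h2 : p ≠ 2) (hN : p ∣ N) (u1 : (p : ℤ) ∣ u + 1) (u2 : 2 * ((N / p : ℕ) : ℤ) ∣ u - 1)
    (h : FReps N D ρ T) (h' : FReps N D (-ρ) T') (g : FReps N D (u * ρ) U)
    (g' : FReps N D (-(u * ρ)) U') (hS : Inv0 N S) :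
    zz N B D (u * ρ) U U' S = J((p : ℤ) | B) • zz N B D ρ T T' fun z => S (act w z) := by
  rw [zz, zz, sum_wZ g g' k'.ne, sum_wZ h h' k.ne,
    hw.sum hp h2 hN k.neg (β := ρ) (by simpa [add_mul] using u1.mul_right ρ)
      (by simpa [sub_mul] using u2.mul_right ρ) h g k.sqf k.odd k.cop k.dvd hS,
    hw.sum hp h2 hN k.neg (β := -ρ) ((u1.mul_right (-ρ)).trans (dvd_of_eq (by ring)))
      ((u2.mul_right (-ρ)).trans (dvd_of_eq (by ring))) h' g' k.sqf k.odd k.cop k.dvd hS,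
    smul_add, smul_comm]

theorem Sd.cnt (k : Sd N B D ρ) (h : FReps N D ρ T) (h' : FReps N D (-ρ) T') (w : Fm → ℤ) (t : ℤ) :
    cntP (T ∪ T') (wZ N B D ρ) w t = cntP T (gch B) w t + J(-1 | B) * cntP T' (gch B) w t :=
  sum_wZ h h' k.ne fun Q => ∑ᶠ R : Fm, if fbil Q R = t then w R else 0

theorem Sd.conj (k : Sd N B D ρ) (h : FReps N D ρ T) {G : ℂ → ℂ}
    (hG : ∀ z : ℂ, 0 < z.im → G (-conj z) = conj (G z)) :
    conj (zz N B D ρ T (T.image cj) G) = J(-1 | B) * zz N B D ρ T (T.image cj) G := by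
  rw [zz, sum_wZ h h.cj.1 k.ne, h.cj.2,
    sum_congr (f := fun Q => gch B (cj Q) • G (froot (cj Q))) rfl fun Q hQ => by
      rw [froot_cj, hG _ (im_froot_pos ((h.fam Q hQ).2.1 ▸ k.neg) (h.pos Q hQ)), gch_cj,
        ← map_zsmul], ← map_sum, jac_m1 k.odd]
  split_ifs <;> simp [add_comm]

theorem hg_I (hC : Squarefree C) (ho : Odd C) (hd : (C : ℤ) ∣ e) (hK : N ∣ K)
    (h4 : 4 ∣ β ^ 2 - e) (hη : ∀ l : ℕ, l.Prime → ¬ l ∣ K →
      l ≠ 2 ∧ ¬ (l : ℤ) ∣ e ∧ η l = J((l : ℤ) | C) * J(e | l))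
    (hf : ∀ m : ℕ, m ≠ 0 → m.Coprime N → ∀ R, Fam N (e * m ^ 2) (β * m) R → R.1 ≠ 0) :
    HFm K η fun m => Iw (wG N C (e * m ^ 2) (β * m)) := fun l hl k m m0 hm z hz => by
  obtain ⟨k1, k2, k3⟩ := hη l hl k
  refine Hw.Iw_rec hl (fun j => k (j.trans hK)) h4 hC ho hd hf (fun j R hR => ?_) m0
    (hm.coprime_dvd_right hK) hz
  rw [Hw.eta_cop hl hC ho hd (fun j => k2 ((Int.natCast_dvd_natCast.2 j).trans hd))
    (fun j => k2 ((dvd_pow_self _ two_ne_zero).trans j)) j R hR, k3, Hw.kr, if_neg k1,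
    mul_comm J(e | l)]

theorem hg_N (hC : Squarefree C) (ho : Odd C) (hd : (C : ℤ) ∣ e) (hK : N ∣ K) (he : e < 0)
    (h4 : 4 ∣ β ^ 2 - e) (hη : ∀ l : ℕ, l.Prime → ¬ l ∣ K →
      l ≠ 2 ∧ ¬ (l : ℤ) ∣ e ∧ η l = J((l : ℤ) | C) * J(e | l)) :
    HFm K η fun m => nuW (wZ N C (e * m ^ 2) (β * m)) := fun l hl k m m0 hm z hz => by
  obtain ⟨k1, k2, k3⟩ := hη l hl k
  refine Hw.nuW_rec hl (fun j => k (j.trans hK)) h4 he hC ho hd (fun j R hR => ?_) m0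
    (hm.coprime_dvd_right hK) hz
  rw [Hw.eta_cop hl hC ho hd (fun j => k2 ((Int.natCast_dvd_natCast.2 j).trans hd))
    (fun j => k2 ((dvd_pow_self _ two_ne_zero).trans j)) j R hR, k3, Hw.kr, if_neg k1,
    mul_comm J(e | l)]

/-- A family of geodesics with all its multiples. -/
structure Fg (N K C : ℕ) (e β : ℤ) (η : ℕ → ℤ) : Prop where
  gw : ∀ m : ℕ, m ≠ 0 → m.Coprime K → Gw N (wG N C (e * m ^ 2) (β * m)) (e * m ^ 2)
  hf : HFm K η fun m => Iw (wG N C (e * m ^ 2) (β * m))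

theorem fg_of (hC : Squarefree C) (ho : Odd C) (hd : (C : ℤ) ∣ e) (hK : N ∣ K) (he : 0 < e)
    (h4 : 4 ∣ β ^ 2 - e) (hη : ∀ l : ℕ, l.Prime → ¬ l ∣ K →
      l ≠ 2 ∧ ¬ (l : ℤ) ∣ e ∧ η l = J((l : ℤ) | C) * J(e | l))
    (hf : ∀ m : ℕ, m ≠ 0 → m.Coprime N → ∀ R, Fam N (e * m ^ 2) (β * m) R → R.1 ≠ 0) :
    Fg N K C e β η :=
  ⟨fun m m0 hm => ⟨wt_wG ho (hd.mul_right _) _, by positivity, fun R hR =>
    hf m m0 (hm.coprime_dvd_right hK) R (fam_of_wG hR)⟩, hg_I hC ho hd hK h4 hη hf⟩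

theorem sup_one (K : ℕ) : Sup K (Finsupp.single 1 1) := .single one_ne_zero (Nat.coprime_one_left K) 1

variable {t : HW} {G : ℂ → ℂ}

theorem Fg.one (h : Fg N K C e β η) : Gw N (wG N C e β) e := by
  simpa using h.gw 1 one_ne_zero (Nat.coprime_one_left K)

theorem Fg.hf_eq (h : Fg N K C e β η) (ht : t ∈ HA K) {z : ℂ} (hz : 0 < z.im) :
    G5.hf ℝ t (Iw (wG N C e β)) z =
      cmb (fun m : ℕ => Iw (wG N C (e * m ^ 2) (β * m))) (ha η t (Finsupp.single 1 1)) z := by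
  simpa [cmb_single] using h.hf.hf ht (sup_one K) hz

theorem Fg.di_eq (h : Fg N K C e β η) (ht : t ∈ HA K) {ε : ℝ} (hε : 0 < ε) {z : ℂ} (hz : 0 < z.im) :
    G5.hf ℝ t (DI (Iw (wG N C e β)) ε) z = cmb (fun m : ℕ => DI (Iw (wG N C (e * m ^ 2) (β * m))) ε)
      (ha η t (Finsupp.single 1 1)) z := by
  simpa [cmb_single] using (h.hf.di fun m m0 hm => (h.gw m m0 hm).intI hε).hf ht (sup_one K) hz

theorem Fg.tendsto (h : Fg N K C e β η) (ht : t ∈ HA K) (hG : Ci N G)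
    (hi : Inv0 N fun z => (G z).re - G5.hf ℝ t (Iw (wG N C e β)) z) (k : Sd N B D ρ)
    (g : FReps N D ρ T) (g' : FReps N D (-ρ) T') :
    Tendsto (fun ε => zz N B D ρ T T' (G5.hf ℝ t (DI (Iw (wG N C e β)) ε))) (𝓝[>] 0)
      (𝓝 (zz N B D ρ T T' fun z => (G z).re - G5.hf ℝ t (Iw (wG N C e β)) z)) := by
  have hs := (sup_one K).ha (η := η) ht
  have h1 := tendsto_pts k.n0 (fun m hm => h.gw m (hs m hm).1 (hs m hm).2) hG
    (fun g hg z hz => by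
      have := hi g hg z hz
      dsimp only at this ⊢
      rwa [h.hf_eq ht hz, h.hf_eq ht (act_pos (hg.1 ▸ one_pos) hz)] at this) (k.pts g g')
  rw [zz, sum_congr rfl fun Q hQ => by rw [h.hf_eq ht (k.im g g' Q hQ)]]
  refine h1.congr' ?_
  filter_upwards [self_mem_nhdsWithin] with ε hε
  exact sum_congr rfl fun Q hQ => by rw [h.di_eq ht hε (k.im g g' Q hQ)]

/-- The basic relation between two invariant functions. -/
theorem gk_rel {η' : ℕ → ℤ} {e' β' D' ρ' σ : ℤ} {G' : ℂ → ℂ} {n g : ℕ} (h : Fg N K C e β η)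
    (h' : Fg N K C e' β' η') (hK : N ∣ K) (ht : t ∈ HA K) (hG : Ci N G) (hG' : Ci N G')
    (hi : Inv0 N fun z => (G z).re - hf ℝ t (Iw (wG N C e β)) z)
    (hi' : Inv0 N fun z => (G' z).re - hf ℝ t (Iw (wG N C e' β')) z)
    (k : Sd N B D ρ) (k' : Sd N B D' ρ') (hn : Squarefree n) (h3 : 3 < n) (g0 : g ≠ 0)
    (hD : D' = -(n * g ^ 2)) (hr : D * e = D' * e')
    (hν : HFm K η fun m => nuW (wZ N B (D' * m ^ 2) (ρ' * m)))
    (hc : ∀ (m : ℕ) (s : ℤ) (T U : Finset Fm), m ≠ 0 → s = 1 ∨ s = -1 → FReps N D (s * ρ) T →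
      FReps N (D' * m ^ 2) (s * (ρ' * m)) U → ∀ j, cntP T (gch B) (wG N C (e * m ^ 2) (β * m)) j =
        σ * cntP U (gch B) (wG N C e' β') j)
    (f : FReps N D ρ T) (f' : FReps N D (-ρ) T') (r : FReps N D' ρ' U) (r' : FReps N D' (-ρ') U') :
    zz N B D ρ T T' (fun z => (G z).re - hf ℝ t (Iw (wG N C e β)) z) =
      σ * zz N B D' ρ' U U' fun z => (G' z).re - hf ℝ t (Iw (wG N C e' β')) z := by
  have ex : ∀ m : ℕ, ∃ X X', (m = 1 → X = U ∧ X' = U') ∧ (m ≠ 0 →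
      FReps N (D' * m ^ 2) (ρ' * m) X ∧ FReps N (D' * m ^ 2) (-(ρ' * m)) X') := fun m => by
    rcases eq_or_ne m 1 with rfl | h1
    · exact ⟨U, U', fun _ => ⟨rfl, rfl⟩, fun _ => by simpa using ⟨r, r'⟩⟩
    rcases eq_or_ne m 0 with rfl | h0
    · exact ⟨U, U', fun _ => ⟨rfl, rfl⟩, fun j => absurd rfl j⟩
    have j : D' * m ^ 2 < 0 := mul_neg_of_neg_of_pos k'.neg (by positivity)
    obtain ⟨X, hX⟩ := exists_freps k.n0 j (ρ' * m)
    obtain ⟨X', hX'⟩ := exists_freps k.n0 j (-(ρ' * m))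
    exact ⟨X, X', fun j => absurd j h1, fun _ => ⟨hX, hX'⟩⟩
  choose X X' e1 e2 using ex
  have hs := (sup_one K).ha (η := η) ht
  refine tendsto_nhds_unique (h.tendsto ht hG hi k f f')
    (((h'.tendsto ht hG' hi' k' r r').const_mul (σ : ℝ)).congr' ?_)
  filter_upwards [self_mem_nhdsWithin] with ε hε
  have h1 := aj_stmt N K B n g D' ρ' η X X' t k.l1 hK k.odd k'.dvd hn h3 g0 hD k'.cr ht e2 hν ℝ _
    (h'.one.di_inv (ε := ε))
  rw [(e1 1 rfl).1, (e1 1 rfl).2] at h1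
  rw [zz, ← h1, zz, sum_congr rfl fun Q hQ => by rw [h.di_eq ht hε (k.im f f' Q hQ)]]
  simp only [Finsupp.linearCombination_apply, Finsupp.sum, Finset.sum_apply, Pi.smul_apply, smul_sum,
    mul_sum]
  rw [sum_comm]
  refine sum_congr rfl fun m hm => ?_
  obtain ⟨m0, m1⟩ := hs m hm
  have km := k'.mul m0 (m1.coprime_dvd_right hK)
  have h2 := di_eq (μ := wZ N B D ρ) (μ' := wZ N B (D' * m ^ 2) (ρ' * m)) (h.gw m m0 m1) h'.one k.neg
    km.neg (mem_reps f f') (mem_reps (e2 m m0).1 (e2 m m0).2) (by linear_combination m ^ 2 * hr)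
    (σ := σ) (fun j => by
      rw [k.cnt f f', km.cnt (e2 m m0).1 (e2 m m0).2,
        hc m 1 _ _ m0 (.inl rfl) (by rwa [one_mul]) (by simpa using (e2 m m0).1),
        hc m (-1) _ _ m0 (.inr rfl) (by rwa [neg_one_mul]) (by simpa using (e2 m m0).2)]
      ring) hε
  simp only [smul_comm (wZ N B D ρ _) (ha η t _ m), ← smul_sum, ← mul_sum]
  rw [h2, mul_smul_comm]

end Pool.Agent.G5
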