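import Pool.Agent.Lib.MP_696deb_nt.B5.GKb
import Pool.Agent.Lib.MP_696deb_nt.B5.ESa

/-! The component of a class along the newform. -/

set_option autoImplicit false

open Finset NumberTheorySymbols
open scoped ComplexConjugate

namespace Pool.Agent.G5

open Pool.Agent.Lib.MP_696deb_nt Pool.Agent.B4.GE Pool.Agent.G5.GL

variable {N K A B p l : ℕ} {F F₂ G : ℂ → ℂ} {I : ℂ → ℝ} {κ κ₂ c c₂ c₃ z : ℂ} {w g : MZ}
  {s e β D ρ ε : ℤ} {t : HW} {T T' : Finset Fm}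

/-- `G` belongs to the class of `I` and lies in the span of `F` and `F₂`. -/
structure Kc (N : ℕ) (F F₂ : ℂ → ℂ) (I : ℂ → ℝ) (G : ℂ → ℂ) (κ κ₂ c₃ : ℂ) : Prop where
  ci : Ci N G
  eq : ∀ z : ℂ, 0 < z.im → G z = κ * F z + κ₂ * F₂ z + c₃
  inv : Inv0 N fun z => (G z).re - I z
  half : ∀ z, ∃ k : ℤ, 2 * I z = k

/-- The signs of `F` and `F₂` under the involution. -/
structure Sg (N p : ℕ) (F F₂ : ℂ → ℂ) (w : MZ) (s : ℤ) (c c₂ : ℂ) : Prop where
  al : ALm N p w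
  p0 : p ≠ 0
  dvd : p ∣ N
  sg : s = 1 ∨ s = -1
  eq : ∀ z : ℂ, 0 < z.im → F (act w z) = s * F z + c ∧ F₂ (act w z) = -s * F₂ z + c₂

theorem exists_kc {ω : Fm → ℤ} (hN : Squarefree N) (hl : l.Prime) (h : ¬ l ∣ N) (ht : t ∈ HA N)
    (hp : Prj N F F₂ t) (hw : Gw N ω e) : ∃ G κ κ₂ c₃,
    Kc N F F₂ (hf ℝ (t * (tl l - algebraMap ℤ HW (l + 1))) (Iw ω)) G κ κ₂ c₃ := by
  obtain ⟨G, h1, h2⟩ := es_stmt N l (Iw ω) hN hl h fun g hg =>
    ⟨_, fun z hz => (Iw_act hw.toWt hw.ne hg hz).trans (add_comm _ _)⟩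
  obtain ⟨κ, κ₂, c, h3⟩ := hp G h1
  refine ⟨_, κ, κ₂, c, h1.hf hN.ne_zero ht, h3, ?_, fun z => ?_⟩
  · convert inv0_hf h2 ht using 1
    have h4 := hf_map Complex.reAddGroupHom t G
    simp only [Complex.coe_reAddGroupHom] at h4
    rw [show (fun z => (G z).re - (Tf ℝ l (Iw ω) z - (l + 1) * Iw ω z)) = (fun z => (G z).re) -
      hf ℝ (tl l - algebraMap ℤ HW (l + 1)) (Iw ω) from funext fun z => by
        rw [map_sub, Pi.sub_apply, LinearMap.sub_apply, Pi.sub_apply, hf_tl, hf_int, zsmul_eq_mul]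
        push_cast
        rfl, map_sub (hf ℝ t), h4, hf_mul]
    rfl
  · choose k hk using two_mul_Iw ω
    have h4 := hf_map ((AddMonoidHom.mulRight (2⁻¹ : ℝ)).comp (Int.castAddHom ℝ))
      (t * (tl l - algebraMap ℤ HW (l + 1))) k
    simp only [AddMonoidHom.comp_apply, AddMonoidHom.coe_mulRight, Int.coe_castAddHom, ← hk] at h4
    refine ⟨hf ℤ (t * (tl l - algebraMap ℤ HW (l + 1))) k z, ?_⟩
    rw [show Iw ω = fun z => 2 * Iw ω z * 2⁻¹ from funext fun z => by ring, h4]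
    ring

theorem Sg.pos (h : Sg N p F F₂ w s c c₂) (hz : 0 < z.im) : 0 < (act w z).im :=
  act_pos (h.al.pos h.p0) hz

theorem Sg.inv {α : Type*} {S : ℂ → α} (h : Sg N p F F₂ w s c c₂) (hS : Inv0 N S) :
    Inv0 N fun z => S (act w z) := fun g hg z hz => by
  obtain ⟨k, h1, h2⟩ := h.al.act_norm h.p0 h.dvd hg
  dsimp only
  rw [h2 z hz, hS k h1 _ (h.pos hz)]

theorem Sg.plus (h : Sg N p F F₂ w s c c₂) (κ κ₂ c₃ : ℂ) : ∃ C : ℝ, ∀ z : ℂ, 0 < z.im →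
    (κ * F z + κ₂ * F₂ z + c₃).re + s * (κ * F (act w z) + κ₂ * F₂ (act w z) + c₃).re =
      2 * (κ * F z).re + C := by
  refine ⟨(c₃ + s * (κ * c + κ₂ * c₂ + c₃)).re, fun z hz => ?_⟩
  rw [(h.eq z hz).1, (h.eq z hz).2]
  rcases h.sg with rfl | rfl <;> simp <;> ring

theorem eq_zero_of_inv (hN : N ≠ 0) (hF : Ci N F)
    (h0 : ∃ z z' : ℂ, 0 < z.im ∧ 0 < z'.im ∧ F z ≠ F z') (h : Inv0 N fun z => (κ * F z).re) :
    κ = 0 := by
  obtain ⟨c, hc⟩ := B5.ci_const hN (hF.smul κ) h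
  obtain ⟨z, z', h1, h2, h3⟩ := h0
  by_contra k
  exact h3 (mul_left_cancel₀ k ((hc z h1).trans (hc z' h2).symm))

theorem Sg.split (h : Sg N p F F₂ w s c c₂) (hN : N ≠ 0) (hF : Ci N F)
    (h0 : ∃ z z' : ℂ, 0 < z.im ∧ 0 < z'.im ∧ F z ≠ F z')
    (hi : Inv0 N fun z => (κ * F z + κ₂ * F₂ z + c₃).re) : κ = 0 := by
  obtain ⟨C, hC⟩ := h.plus κ κ₂ c₃
  refine eq_zero_of_inv hN hF h0 fun g hg z hz => ?_
  have h1 := hi g hg z hz
  have h2 := h.inv hi g hg z hz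
  have h3 := hC _ (act_pos (hg.1 ▸ one_pos) hz)
  have h4 := hC z hz
  dsimp only at h1 h2 ⊢
  rw [h1, h2] at h3
  linarith

theorem Kc.plus (k : Kc N F F₂ I G κ κ₂ c₃) (h : Sg N p F F₂ w s c c₂) : ∃ C : ℝ, ∀ z : ℂ,
    0 < z.im → ∃ j : ℤ, 2 * ((G z).re - I z + s * ((G (act w z)).re - I (act w z))) =
      4 * (κ * F z).re + C + j := by
  obtain ⟨C, hC⟩ := h.plus κ κ₂ c₃
  refine ⟨2 * C, fun z hz => ?_⟩
  obtain ⟨i, hi⟩ := k.half z
  obtain ⟨j, hj⟩ := k.half (act w z)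
  refine ⟨-(i + s * j), ?_⟩
  rw [k.eq z hz, k.eq _ (h.pos hz)]
  push_cast
  linear_combination 2 * hC z hz - hi - s * hj

theorem Kc.per (k : Kc N F F₂ I G κ κ₂ c₃) (h : Sg N p F F₂ w s c c₂) (hg : G0 N g)
    (hz : 0 < z.im) : ∃ j : ℤ, 4 * (κ * (F (act g z) - F z)).re = j := by
  obtain ⟨C, hC⟩ := k.plus h
  obtain ⟨i, hi⟩ := hC z hz
  obtain ⟨j, hj⟩ := hC _ (act_pos (hg.1 ▸ one_pos) hz : 0 < (act g z).im)
  have h1 := k.inv g hg z hz
  have h2 := h.inv k.inv g hg z hz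
  dsimp only at h1 h2
  rw [h1, h2, hi] at hj
  exact ⟨i - j, by rw [mul_sub, Complex.sub_re, Int.cast_sub]; linarith⟩

theorem Kc.zz_plus (k : Kc N F F₂ I G κ κ₂ c₃) (h : Sg N p F F₂ w s c c₂) (d : Sd N B D ρ)
    (f : FReps N D ρ T) (f' : FReps N D (-ρ) T') : ∃ j : ℤ,
    2 * (zz N B D ρ T T' (fun z => (G z).re - I z) +
      s * zz N B D ρ T T' fun z => (G (act w z)).re - I (act w z)) =
      4 * (κ * zz N B D ρ T T' F).re + j := by
  obtain ⟨C, hC⟩ := k.plus h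
  choose! j hj using fun Q hQ => hC _ (d.im f f' Q hQ)
  have h1 : ∑ Q ∈ T ∪ T', (wZ N B D ρ Q : ℝ) * C = 0 := by
    rw [← sum_mul, ← Int.cast_sum, (d.pts f f').deg, Int.cast_zero, zero_mul]
  refine ⟨∑ Q ∈ T ∪ T', wZ N B D ρ Q * j Q, ?_⟩
  rw [← add_zero (4 * _), ← h1]
  simp only [zz, zsmul_eq_mul, mul_sum, Complex.re_sum, Int.cast_sum, ← sum_add_distrib]
  refine sum_congr rfl fun Q hQ => ?_
  rw [mul_left_comm κ, ← Complex.ofReal_intCast, Complex.re_ofReal_mul, Int.cast_mul]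
  linear_combination wZ N B D ρ Q * hj Q hQ

theorem exists_cj (hg : G0 N g) : ∃ k, G0 N k ∧ ∀ z : ℂ, act k (-conj z) = -conj (act g z) := by
  obtain ⟨a, b, c, d, h, rfl⟩ := g0_ex hg
  refine ⟨_, g0_of (a := a) (b := -b) (c := -c) (d := d) (by linear_combination h), fun z => ?_⟩
  simp only [act_of, mob, map_div₀, map_add, map_mul, map_intCast, ← neg_div]
  push_cast
  congr 1 <;> ring

theorem inv_cj {α : Type*} {S : ℂ → α} (hS : Inv0 N S) : Inv0 N fun z => S (-conj z) :=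
  fun g hg z hz => by
  obtain ⟨k, h1, h2⟩ := exists_cj hg
  dsimp only
  rw [← h2, hS k h1 _ (im_neg_conj hz)]

theorem Kc.conj (k : Kc N F F₂ I G κ κ₂ c₃) (h : Sg N p F F₂ w s c c₂) (hN : N ≠ 0) (hF : Ci N F)
    (h0 : ∃ z z' : ℂ, 0 < z.im ∧ 0 < z'.im ∧ F z ≠ F z')
    (h1 : ∀ z : ℂ, 0 < z.im → F (-conj z) = conj (F z))
    (h2 : ∀ z : ℂ, 0 < z.im → F₂ (-conj z) = conj (F₂ z))
    (h3 : ∀ z : ℂ, 0 < z.im → I (-conj z) = ε * I z) : conj κ = ε * κ := by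
  have key : ∀ z : ℂ, 0 < z.im → ((conj κ - ε * κ) * F z + (conj κ₂ - ε * κ₂) * F₂ z +
      (conj c₃ - ε * c₃)).re = (G (-conj z)).re - I (-conj z) - ε * ((G z).re - I z) :=
    fun z hz => by
      rw [h3 z hz, k.eq z hz, k.eq _ (im_neg_conj hz), h1 z hz, h2 z hz]
      simp
      ring
  refine sub_eq_zero.1 (h.split hN hF h0 (κ₂ := conj κ₂ - ε * κ₂) (c₃ := conj c₃ - ε * c₃)
    fun g hg z hz => ?_)
  have h4 := k.inv g hg z hz
  have h5 := inv_cj k.inv g hg z hz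
  dsimp only at h4 h5 ⊢
  rw [key z hz, key _ (act_pos (hg.1 ▸ one_pos) hz), h4, h5]

theorem Iw_cj (hA : Squarefree A) (e β : ℤ) (z : ℂ) :
    Iw (wG N A e β) (-conj z) = (-J(-1 | A) : ℤ) * Iw (wG N A e β) z := by
  have h : Function.Involutive fun R : Fm => ((-R.1, R.2.1, -R.2.2) : Fm) := fun R => by simp
  rw [Iw, Iw, ← mul_div_assoc, mul_finsum, ← finsum_comp_equiv h.toPerm]
  refine congrArg (· / 2) (finsum_congr fun R => ?_)
  have h1 : wG N A e β (-R.1, R.2.1, -R.2.2) = J(-1 | A) * wG N A e β R := by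
    have : Fam N e β (-R.1, R.2.1, -R.2.2) ↔ Fam N e β R := by simp [Fam, fdisc]
    by_cases k : Fam N e β R
    · rw [wG_of_fam k, wG_of_fam (this.2 k), jac_eq_prod _ hA, gch, gch, ← prod_mul_distrib]
      refine prod_congr rfl fun p _ => ?_
      simp only [dvd_neg]
      split_ifs <;> rw [← jacobiSym.mul_left, neg_one_mul]
    · rw [wG, wG, if_neg k, if_neg fun j => k (this.1 j), mul_zero]
  have h2 : fside (-R.1, R.2.1, -R.2.2) (-conj z) = -fside R z := by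
    simp [fside]
    ring
  simp only [Function.Involutive.coe_toPerm, h1, h2, Int.cast_neg, Real.sign_neg, Int.cast_mul]
  ring

theorem Fg.cj {η : ℕ → ℤ} (h : Fg N K A e β η) (hA : Squarefree A) (ht : t ∈ HA K) (hz : 0 < z.im) :
    G5.hf ℝ t (Iw (wG N A e β)) (-conj z) = (-J(-1 | A) : ℤ) * G5.hf ℝ t (Iw (wG N A e β)) z := by
  rw [h.hf_eq ht hz, h.hf_eq ht (im_neg_conj hz), cmb_Iw, cmb_Iw, mul_sum]
  exact sum_congr rfl fun m _ => by rw [Iw_cj hA, mul_left_comm]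

variable {W : WeierstrassCurve ℚ} (P : Par W N)

/-- A period on the real or on the imaginary line. -/
theorem exists_om (hε : ε = 1 ∨ ε = -1) : ∃ ω : ℂ, ω ≠ 0 ∧ conj ω = ε * ω ∧ ω ∈ P.L.lattice ∧
    ∀ κ : ℂ, (∀ g, G0 N g → ∀ z : ℂ, 0 < z.im → ∃ j : ℤ, 4 * (κ * (P.F (act g z) - P.F z)).re = j) →
      ∃ j : ℤ, 4 * (κ * ω).re = j := by
  obtain ⟨g, hg, z, hz, h⟩ : ∃ g, G0 N g ∧ ∃ z : ℂ, 0 < z.im ∧
      P.F (act g z) - P.F z + ε * conj (P.F (act g z) - P.F z) ≠ 0 := by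
    by_contra! h
    rcases hε with rfl | rfl
    · refine one_ne_zero (eq_zero_of_inv (κ := 1) P.N0 (par_ci P) (par_ne P) fun g hg z hz => ?_)
      have := congrArg Complex.re (h g hg z hz)
      simp at this ⊢
      linarith
    · refine Complex.I_ne_zero (eq_zero_of_inv P.N0 (par_ci P) (par_ne P) fun g hg z hz => ?_)
      have := congrArg Complex.im (h g hg z hz)
      simp at this ⊢
      linarith
  obtain ⟨k, h1, h2⟩ := exists_cj hg
  have h3 : conj (P.F (act g z) - P.F z) = P.F (act k (-conj z)) - P.F (-conj z) := by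
    rw [h2, par_conj P hz, par_conj P (act_pos (hg.1 ▸ one_pos) hz), map_sub]
  refine ⟨_, h, ?_, ?_, fun κ hκ => ?_⟩
  · rcases hε with rfl | rfl
    · simp [add_comm]
    · simp
  · rw [h3, ← zsmul_eq_mul]
    exact add_mem (P.inv g hg z hz) (zsmul_mem (P.inv k h1 _ (im_neg_conj hz)) _)
  · obtain ⟨i, hi⟩ := hκ g hg z hz
    obtain ⟨j, hj⟩ := hκ k h1 _ (im_neg_conj hz)
    refine ⟨i + ε * j, ?_⟩
    rw [h3, mul_add, Complex.add_re, mul_left_comm κ, ← Complex.ofReal_intCast,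
      Complex.re_ofReal_mul]
    push_cast
    linear_combination hi + ε * hj

theorem re_line {Z ω : ℂ} (hε : ε = 1 ∨ ε = -1) (h : conj Z = ε * Z) (h' : conj ω = ε * ω) (κ : ℂ) :
    ((κ * ω).re : ℂ) * Z = (κ * Z).re * ω := by
  have h1 := congrArg Complex.re h
  have h2 := congrArg Complex.im h
  have h3 := congrArg Complex.re h'
  have h4 := congrArg Complex.im h'
  rcases hε with rfl | rfl
  · have k1 : Z.im = 0 := by simp at h2; linarith
    have k2 : ω.im = 0 := by simp at h4; linarith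
    apply Complex.ext <;> simp [k1, k2]
    ring
  · have k1 : Z.re = 0 := by simp at h1; linarith
    have k2 : ω.re = 0 := by simp at h3; linarith
    apply Complex.ext <;> simp [k1, k2]
    ring

theorem Sd.unif (d : Sd N B D ρ) (f : FReps N D ρ T) (f' : FReps N D (-ρ) T') : ∃ j : ℤ,
    P.per.unif (zz N B D ρ T T' P.F) = 2 • yP P B T + j • P.per.unif P.t0 := by
  obtain ⟨j, hj⟩ := d.zz_al f f' P.inv0 fun z hz => P.φ_al hz
  refine ⟨j, Eq.trans ?_ hj⟩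
  simp only [zz, map_sum, map_zsmul, Par.φ]

end Pool.Agent.G5
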