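import Pool.Agent.Lib.MP_696deb_nt.B5.LAa

/-! The twisted series are entire and linear, and the sign of the functional equation. -/

set_option autoImplicit false

open Filter Topology Complex Finset NumberTheorySymbols
open scoped Real

namespace Pool.Agent.G5

open Pool.Agent.Lib.MP_696deb_nt Pool.Agent.B4.GE

variable {N : ℕ} {F : ℂ → ℂ} {c : ℂ}

theorem Ld_swap (hN : N ≠ 0) (hF : Ci N F) {r : ℝ} (hr : 0 < r) {j k B : ℤ} (hB : B ≠ 0)
    (h : ∀ y : ℝ, 0 < y → F (j / B + ((r * y)⁻¹ : ℝ) * I) = c - F (k / B + y * I)) :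
    Ld F j B 1 = Ld F k B 1 := by
  have t1 : Tendsto (fun y : ℝ => (r * y)⁻¹) (𝓝[>] 0) atTop :=
    (tendsto_inv_nhdsGT_zero.const_mul_atTop (inv_pos.2 hr)).congr fun y => (mul_inv r y).symm
  have t2 : Tendsto (fun y : ℝ => (r * y)⁻¹) atTop (𝓝[>] 0) :=
    tendsto_inv_atTop_nhdsGT_zero.comp (tendsto_id.const_mul_atTop hr)
  have e1 := tendsto_nhds_unique (((hF.tendsto hN).comp (tendsto_vert' j B)).comp t1)
    (((hF.tendsto_zero hN k hB).const_sub c).congr'
      (eventually_mem_nhdsWithin.mono fun y hy => (h y hy).symm))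
  have e2 := tendsto_nhds_unique ((hF.tendsto_zero hN j hB).comp t2)
    ((((hF.tendsto hN).comp (tendsto_vert' k B)).const_sub c).congr'
      ((eventually_gt_atTop 0).mono fun y hy => (h y hy).symm))
  linear_combination e2 - e1

theorem Ld_fricke (hN : N ≠ 0) (hF : Ci N F)
    (hW : ∀ z : ℂ, 0 < z.im → F (-1 / (N * z)) = c - F z) {j k b B : ℤ} (hB : B ≠ 0)
    (h : N * k * j + 1 = B * b) : Ld F j B 1 = Ld F k B 1 := by
  have n0 : (0 : ℝ) < N := by exact_mod_cast Nat.pos_of_ne_zero hN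
  have n1 : (N : ℂ) ≠ 0 := by exact_mod_cast hN
  have b1 : (B : ℂ) ≠ 0 := by exact_mod_cast hB
  obtain ⟨c', hc⟩ := hF.inv !![b, j; N * k, B] ⟨by simp; linarith, by simp⟩
  refine Ld_swap (c := c + c') (r := N * B ^ 2) hN hF (by positivity) hB fun y hy => ?_
  have p : 0 < ((k : ℂ) / B + y * I).im := by rwa [im_vert]
  have y1 : (y : ℂ) ≠ 0 := by exact_mod_cast hy.ne'
  have d : Matrix.det !![0, -1; (N : ℤ), 0] = N := by simp
  have q := act_pos (M := !![0, -1; (N : ℤ), 0]) (by rw [d]; exact_mod_cast n0) p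
  have e : ∀ z : ℂ, act !![0, -1; (N : ℤ), 0] z = -1 / (N * z) := fun z => by simp [act_of, mob]
  have h1 := hc _ q
  rw [← act_mul _ (by rw [d]; exact_mod_cast hN) p, e, hW _ p] at h1
  rw [add_sub_right_comm, ← h1]
  congr 1
  have h2 : (N : ℂ) * k * j + 1 = B * b := by exact_mod_cast h
  have h3 : (B : ℂ) * N * (k / B + y * I) + -(N * k) = B * N * y * I := by field_simp; ring
  simp only [act, mob, Matrix.mul_apply, Fin.sum_univ_two]
  simp only [Matrix.of_apply, Matrix.cons_val', Matrix.cons_val_zero, Matrix.cons_val_one,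
    Matrix.cons_val_fin_one, mul_zero, zero_add, add_zero, mul_neg, mul_one]
  push_cast
  rw [h3]
  field_simp
  linear_combination I_sq - h2

theorem LA_eq_zero {B : ℕ} (hN : N ≠ 0) (hB : B ≠ 0) (hc : B.Coprime N) (h : J(-N | B) = -1)
    (hF : Ci N F) (hW : ∀ z : ℂ, 0 < z.im → F (-1 / (N * z)) = c - F z) : LA F B 1 = 0 := by
  classical
  have h0 : (0 : ℤ) < B := mod_cast hB.bot_lt
  have h15 : IsCoprime (N : ℤ) B := Nat.isCoprime_iff_coprime.mpr hc.symm
  have ex : ∀ k : ℤ, IsCoprime k B → ∃ j ∈ Ico (0 : ℤ) B, (B : ℤ) ∣ N * k * j + 1 := fun k hk => by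
    obtain ⟨u, v, e⟩ := h15.mul_left hk
    refine ⟨-u % B, mem_Ico.mpr ⟨Int.emod_nonneg _ h0.ne', Int.emod_lt_of_pos _ h0⟩,
      v - N * k * (-u / B), ?_⟩
    rw [Int.emod_def]; linear_combination -e
  choose! g g1 g2 using ex
  have c : ∀ {k j : ℤ}, (B : ℤ) ∣ N * k * j + 1 → IsCoprime j B := fun {k j} ⟨b, hb⟩ =>
    ⟨-N * k, b, by linear_combination -hb⟩
  have key : ∀ k : ℤ, IsCoprime k B →
      (J(k | B) : ℂ) * Ld F k B 1 + J(g k | B) * Ld F (g k) B 1 = 0 := by
    intro k hk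
    obtain ⟨b, hb⟩ := g2 k hk
    have h2 : J(-N | B) * (J(k | B) * J(g k | B)) = 1 := by
      rw [← jacobiSym.mul_left, ← jacobiSym.mul_left, ← jacobiSym.one_left B]
      exact jacobiSym.mod_left' (Int.modEq_iff_dvd.mpr ⟨b, by linear_combination hb⟩)
    have h3 := jacobiSym.sq_one (Int.isCoprime_iff_gcd_eq_one.mp hk)
    rw [Ld_fricke hN hF hW h0.ne' hb, ← add_mul, ← Int.cast_add, show J(k | B) + J(g k | B) = 0 by
      rw [h] at h2; linear_combination -J(k | B) * h2 - J(g k | B) * h3, Int.cast_zero, zero_mul]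
  have e : LA F B 1 = ∑ k ∈ Ico (0 : ℤ) B, (J(k | B) : ℂ) * Ld F k B 1 := by
    rw [Int.Ico_eq_finset_map]; simp [LA]
  rw [e, ← sum_filter_of_ne
    (p := fun k : ℤ => IsCoprime k B) fun k _ hk => by_contra fun h1 => hk (by
      have : NeZero B := ⟨hB⟩
      rw [jacobiSym.eq_zero_iff_not_coprime.mpr (mt Int.isCoprime_iff_gcd_eq_one.mpr h1),
        Int.cast_zero, zero_mul])]
  refine sum_involution (fun k _ => g k) (fun k hk => key k (mem_filter.mp hk).2)
    (fun k hk h1 h2 => h1 ?_) (fun k hk => mem_filter.mpr ⟨g1 k (mem_filter.mp hk).2,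
      c (g2 k (mem_filter.mp hk).2)⟩) fun k hk => ?_
  · have := key k (mem_filter.mp hk).2
    rwa [h2, add_self_eq_zero] at this
  · obtain ⟨h1, h2⟩ := mem_filter.mp hk
    have h3 := c (g2 k h2)
    have h4 := (h15.mul_left h3).symm.dvd_of_dvd_mul_left (z := g (g k) - k) (by
      convert dvd_sub (g2 _ h3) (g2 k h2) using 1; ring)
    have h5 := g1 _ h3
    rw [mem_Ico] at h1 h5
    exact sub_eq_zero.mp (Int.eq_zero_of_abs_lt_dvd h4 (abs_lt.mpr ⟨by omega, by omega⟩))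

theorem la_stmt : LAStmt := fun N B hN hB =>
  ⟨fun _ hG => hG.LA_differentiable hN hB, fun G F F₂ κ κ₂ c hF hF₂ h s => by
    simp only [LA, mul_sum, ← sum_add_distrib]
    exact sum_congr rfl fun k _ => by
      rw [Ld_lin hN hF hF₂ h k (by exact_mod_cast hB)]
      ring, fun _ _ _ _ hc h hF hW => LA_eq_zero hN hB hc h hF hW⟩

end Pool.Agent.G5
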