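import Pool.Agent.Lib.MP_696deb_nt.B5.Z1
import Pool.Agent.Lib.MP_696deb_nt.ThV2

/-! Forms of arbitrary level: equivalence, weights, crossing numbers. -/

set_option autoImplicit false

open Finset NumberTheorySymbols
open scoped Classical

namespace Pool.Agent.G5

open Pool.Agent.Lib.MP_696deb_nt Pool.Agent.B4.GE

variable {N A B : ℕ} {a b c d e β D ρ : ℤ} {z : ℂ} {Q R : Fm} {w : Fm → ℤ}

theorem FEq.refl (Q : Fm) : FEq N Q Q := ⟨1, 0, 0, 1, by norm_num, by simp [fmap_one]⟩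

theorem FEq.symm (h : FEq N Q R) : FEq N R Q := by
  obtain ⟨a, b, c, d, h, rfl⟩ := h
  exact ⟨d, -b, -c, a, by linear_combination h, by rw [mul_neg, fmap_inv h]⟩

theorem FEq.trans {P : Fm} (h : FEq N P Q) (h' : FEq N Q R) : FEq N P R := by
  obtain ⟨a, b, c, d, h, rfl⟩ := h
  obtain ⟨a', b', c', d', h', rfl⟩ := h'
  refine ⟨a * a' + b * (N * c'), a * b' + b * d', c * a' + d * c', N * c * b' + d * d', ?_, ?_⟩
  · linear_combination (a' * d' - b' * (N * c')) * h + h'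
  · rw [fmap_fmap]
    congr 1
    ring

theorem FEq.pos (h : FEq N Q R) (hD : fdisc Q < 0) (hQ : 0 < Q.1) : 0 < R.1 := by
  obtain ⟨a, b, c, d, h, rfl⟩ := h
  exact fmap_pos h hD hQ

theorem FEq.disc (h : FEq N Q R) : fdisc R = fdisc Q := by
  obtain ⟨a, b, c, d, h, rfl⟩ := h
  exact fdisc_fmap h Q

theorem g0_of (h : a * d - b * (N * c) = 1) : G0 N !![a, b; N * c, d] :=
  ⟨by rw [Matrix.det_fin_two_of, h], dvd_mul_right _ _⟩

theorem g0_ex {g : MZ} (h : G0 N g) : ∃ a b c d : ℤ, a * d - b * (N * c) = 1 ∧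
    g = !![a, b; N * c, d] := by
  obtain ⟨h1, c, h2⟩ := h
  rw [Matrix.det_fin_two, h2] at h1
  exact ⟨g 0 0, g 0 1, c, g 1 1, h1, by rw [← h2]; exact Matrix.eta_fin_two g⟩

theorem g0_one : G0 N 1 := ⟨Matrix.det_one, by simp⟩

theorem g0_mul {g g' : MZ} (h : G0 N g) (h' : G0 N g') : G0 N (g * g') :=
  ⟨by rw [Matrix.det_mul, h.1, h'.1, one_mul], by
    rw [Matrix.mul_apply, Fin.sum_univ_two]
    exact (h.2.mul_right _).add (h'.2.mul_left _)⟩

theorem g0_adj {g : MZ} (h : G0 N g) : G0 N g.adjugate :=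
  ⟨by rw [Matrix.det_adjugate, h.1, one_pow], by
    rw [Matrix.adjugate_fin_two]
    exact dvd_neg.2 h.2⟩

theorem act_adj {g : MZ} (h : g.det = 1) (hz : 0 < z.im) : act g.adjugate (act g z) = z := by
  rw [← act_mul _ (by omega) hz, Matrix.adjugate_mul, h, one_smul, act_one]

theorem act_adj' {g : MZ} (h : g.det = 1) (hz : 0 < z.im) : act g (act g.adjugate z) = z := by
  rw [← act_mul _ (by rw [Matrix.det_adjugate, h]; simp) hz, Matrix.mul_adjugate, h, one_smul,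
    act_one]

/-- The form moved by a matrix. -/
def fm (Q : Fm) (g : MZ) : Fm := fmap Q (g 0 0) (g 0 1) (g 1 0) (g 1 1)

theorem det_eq {g : MZ} (h : g.det = 1) : g 0 0 * g 1 1 - g 0 1 * g 1 0 = 1 := by
  rwa [Matrix.det_fin_two] at h

theorem feq_fm {g : MZ} (h : G0 N g) (Q : Fm) : FEq N Q (fm Q g) := by
  obtain ⟨a, b, c, d, e, rfl⟩ := g0_ex h
  exact ⟨a, b, c, d, e, rfl⟩

theorem feq_iff : FEq N Q R ↔ ∃ g, G0 N g ∧ R = fm Q g :=
  ⟨fun ⟨_, _, _, _, e, h⟩ => ⟨_, g0_of e, h⟩, fun ⟨_, h, e⟩ => e ▸ feq_fm h Q⟩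

theorem act_froot {g : MZ} (h : g.det = 1) (hD : fdisc Q < 0) (hQ : 0 < Q.1) :
    act g (froot (fm Q g)) = froot Q := mob_froot (det_eq h) hD hQ

theorem fside_act {g : MZ} (h : g.det = 1) (hz : 0 < z.im) (R : Fm) :
    fside R (act g z) = fside (fm R g) z / Complex.normSq (den g z) := fside_mob (det_eq h) hz R

/-- Equivalent forms have equivalent roots. -/
theorem FEq.root (h : FEq N Q R) (hD : fdisc Q < 0) (hQ : 0 < Q.1) :
    ∃ g, G0 N g ∧ froot Q = act g (froot R) := by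
  obtain ⟨g, hg, rfl⟩ := feq_iff.1 h
  exact ⟨g, hg, (act_froot hg.1 hD hQ).symm⟩

theorem feq_of_root {g : MZ} (hg : G0 N g) (hD : fdisc Q < 0) (hQ : 0 < Q.1) (hR : 0 < R.1)
    (h : fdisc R = fdisc Q) (e : froot Q = act g (froot R)) : R = fm Q g ∧ FEq N Q R := by
  have h1 := feq_fm hg Q
  have h2 : R = fm Q g := froot_inj (h1.disc ▸ hD) (h1.pos hD hQ) hR (h.trans h1.disc.symm) (by
    rw [← act_adj hg.1 (im_froot_pos (h ▸ hD) hR), ← e, ← act_froot hg.1 hD hQ,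
      act_adj hg.1 (im_froot_pos (h1.disc ▸ hD) (h1.pos hD hQ))])
  exact ⟨h2, h2 ▸ h1⟩

theorem FEq.inv0 {V : Type*} {S : ℂ → V} (h : FEq N Q R) (hS : Inv0 N S) (hD : fdisc Q < 0)
    (hQ : 0 < Q.1) : S (froot R) = S (froot Q) := by
  obtain ⟨g, hg, e⟩ := h.root hD hQ
  rw [e, hS g hg _ (im_froot_pos (h.disc ▸ hD) (h.pos hD hQ))]

theorem FEq.fam (h : FEq N Q R) (hQ : Fam N e β Q) : Fam N e β R := by
  obtain ⟨a, b, c, d, h, rfl⟩ := h
  obtain ⟨⟨k, h1⟩, h2, ⟨l, h3⟩⟩ := hQ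
  refine ⟨⟨k * a ^ 2 + Q.2.1 * a * c + N * Q.2.2 * c ^ 2, ?_⟩, by rw [fdisc_fmap h, h2],
    ⟨l + k * a * b + Q.2.1 * b * c + Q.2.2 * c * d, ?_⟩⟩
  · simp only [fmap, fval, h1]; ring
  · simp only [fmap, h1]; linear_combination h3 + Q.2.1 * h

theorem FEq.gch (h : FEq N Q R) (hA : Odd A) (hd : (A : ℤ) ∣ fdisc Q) : gch A R = gch A Q := by
  obtain ⟨a, b, c, d, h, rfl⟩ := h
  exact gch_fmap hA hd h

theorem fam_of_wG (h : wG N A e β R ≠ 0) : Fam N e β R := by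
  by_contra h1
  exact h (if_neg h1)

theorem wt_wG (hA : Odd A) (hd : (A : ℤ) ∣ e) (β : ℤ) : Wt N (wG N A e β) e where
  disc R h := (fam_of_wG h).2.1
  inv Q R h := by
    by_cases h1 : Fam N e β Q
    · rw [wG, wG, if_pos h1, if_pos (h.fam h1), h.gch hA (h1.2.1 ▸ hd)]
    · rw [wG, wG, if_neg h1, if_neg fun h2 => h1 (h.symm.fam h2)]
  bdd := ⟨1, fun R => by
    unfold wG
    split_ifs
    · exact abs_gch_le A R
    · simp⟩

theorem wt_wZ (hB : Odd B) (hd : (B : ℤ) ∣ D) (hD : D < 0) : Wt N (wZ N B D ρ) D := by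
  have h1 := wt_wG (N := N) (β := ρ) hB hd
  have h2 := wt_wG (N := N) (β := -ρ) hB hd
  have h3 : ∀ R, wZ N B D ρ R ≠ 0 → fdisc R = D := fun R h => by
    by_contra h4
    simp [wZ, of_not_not (mt (h1.disc R) h4), of_not_not (mt (h2.disc R) h4)] at h
  refine ⟨h3, fun Q R h => ?_, ?_⟩
  · by_cases h4 : fdisc Q = D
    · have h5 : fdisc R = D := by obtain ⟨a, b, c, d, e, rfl⟩ := h; rwa [fdisc_fmap e]
      rw [wZ, wZ, h1.inv Q R h, h2.inv Q R h, if_congr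
        ⟨fun k => h.symm.pos (h5 ▸ hD) k, fun k => h.pos (h4 ▸ hD) k⟩ rfl rfl]
    · rw [of_not_not (mt (h3 Q) h4), of_not_not (mt (h3 R) fun h5 => h4 ?_)]
      obtain ⟨a, b, c, d, e, rfl⟩ := h
      rwa [fdisc_fmap e] at h5
  · obtain ⟨C, hC⟩ := h1.bdd
    obtain ⟨C', hC'⟩ := h2.bdd
    refine ⟨C + C', fun R => ?_⟩
    have := hC R
    have := hC' R
    unfold wZ
    rcases jacobiSym.trichotomy (-1) B with h | h | h <;> rw [h] <;> split_ifs <;>
      rw [abs_le] at * <;> omega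

theorem Fam.fbil {D ρ e β : ℤ} {Q R : Fm} (hQ : Fam N D ρ Q) (hR : Fam N e β R) :
    2 * (N : ℤ) ∣ fbil Q R - ρ * β ∧ 4 * (N : ℤ) ∣ fbil Q R ^ 2 - D * e := by
  obtain ⟨⟨a, ha⟩, rfl, k, hk⟩ := hQ
  obtain ⟨⟨a', ha'⟩, rfl, k', hk'⟩ := hR
  refine ⟨⟨k * β + Q.2.1 * k' - a * R.2.2 - Q.2.2 * a', ?_⟩,
    ⟨N * (a * R.2.2 + Q.2.2 * a') ^ 2 - Q.2.1 * R.2.1 * (a * R.2.2 + Q.2.2 * a') +
      Q.2.1 ^ 2 * a' * R.2.2 + R.2.1 ^ 2 * a * Q.2.2 - 4 * N * a * Q.2.2 * a' * R.2.2, ?_⟩⟩ <;>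
    simp only [Lib.MP_696deb_nt.fbil, fdisc, ha, ha']
  · linear_combination β * hk + Q.2.1 * hk'
  · ring

theorem gch_prime {p : ℕ} (hp : p.Prime) (R : Fm) : gch p R = gl p R := by
  rw [gch_eq, hp.primeFactors, prod_singleton]

theorem gch_prime_val {p : ℕ} (hp : p.Prime) (h2 : p ≠ 2) {R : Fm} (hd : (p : ℤ) ∣ fdisc R)
    {x y : ℤ} (h : ¬ (p : ℤ) ∣ fval R x y) : gch p R = J(fval R x y | p) :=
  (gch_prime hp R).trans (gl_fval hp h2 hd h)

theorem gch_mul {A B : ℕ} (h : A.Coprime B) (R : Fm) : gch (A * B) R = gch A R * gch B R := by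
  rw [gch_eq, h.primeFactors_mul, prod_union h.disjoint_primeFactors, gch_eq, gch_eq]

theorem exists_val_coprime {m : ℕ} (hm : m ≠ 0) {R : Fm} (h : ∀ p : ℕ, p.Prime → p ∣ m →
    ¬ ((p : ℤ) ∣ R.1 ∧ (p : ℤ) ∣ R.2.1 ∧ (p : ℤ) ∣ R.2.2)) :
    ∃ x y : ℤ, IsCoprime x y ∧ ∀ p : ℕ, p.Prime → p ∣ m → ¬ (p : ℤ) ∣ fval R x y := by
  have key : ∀ (P : ℕ → Prop) [DecidablePred P] {p : ℕ}, p.Prime →
      ((p : ℤ) ∣ ∏ q ∈ m.primeFactors.filter P, (q : ℤ) ↔ p ∣ m ∧ P p) := fun P _ p hp => by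
    rw [Prime.dvd_finsetProd_iff (Nat.prime_iff_prime_int.mp hp)]
    refine ⟨fun ⟨q, h1, h2⟩ => ?_, fun h => ⟨p, by simp [h, hp, hm], dvd_rfl⟩⟩
    obtain ⟨h3, h4⟩ := mem_filter.mp h1
    obtain rfl := (Nat.prime_dvd_prime_iff_eq hp (Nat.prime_of_mem_primeFactors h3)).mp
      (Int.natCast_dvd_natCast.mp h2)
    exact ⟨Nat.dvd_of_mem_primeFactors h3, h4⟩
  refine ⟨∏ q ∈ m.primeFactors.filter fun q : ℕ => (q : ℤ) ∣ R.1 ∧ ¬ (q : ℤ) ∣ R.2.2, (q : ℤ),
    ∏ q ∈ m.primeFactors.filter fun q : ℕ => ¬ (q : ℤ) ∣ R.1, (q : ℤ), ?_, fun p hp hpm => ?_⟩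
  · refine Int.isCoprime_iff_gcd_eq_one.mpr (Nat.eq_one_iff_not_exists_prime_dvd.mpr fun p hp k => ?_)
    replace k := Int.natCast_dvd_natCast.mpr k
    exact ((key _ hp).mp (k.trans (Int.gcd_dvd_right _ _))).2
      ((key _ hp).mp (k.trans (Int.gcd_dvd_left _ _))).2.1
  have h1 := key (fun q : ℕ => (q : ℤ) ∣ R.1 ∧ ¬ (q : ℤ) ∣ R.2.2) hp
  have h2 := key (fun q : ℕ => ¬ (q : ℤ) ∣ R.1) hp
  have h3 := h p hp hpm
  have := Fact.mk hp
  simp only [← ZMod.intCast_zmod_eq_zero_iff_dvd, fval, hpm, true_and] at h1 h2 h3 ⊢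
  push_cast at h1 h2 ⊢
  by_cases ha : (R.1 : ZMod p) = 0 <;> by_cases hc : (R.2.2 : ZMod p) = 0 <;> simp_all

theorem jac_neg_swap {n l : ℕ} (hn : n % 4 = 3) (hl : Odd l) :
    jacobiSym (-(n : ℤ)) l = jacobiSym l n := by
  have hn' : Odd n := by rw [Nat.odd_iff]; omega
  rw [jacobiSym.neg _ hl]
  rcases Nat.odd_mod_four_iff.mp (Nat.odd_iff.mp hl) with h | h
  · rw [ZMod.χ₄_nat_one_mod_four h, one_mul, jacobiSym.quadratic_reciprocity_one_mod_four h hn']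
  · rw [ZMod.χ₄_nat_three_mod_four h, jacobiSym.quadratic_reciprocity_three_mod_four h hn]
    ring

theorem gch_full {A : ℕ} (hA : Squarefree A) {R : Fm}
    (h : fdisc R = A ∨ (fdisc R = -A ∧ 0 < R.1)) (h2 : Odd A) : gch A R = 1 := by
  have hd : (A : ℤ) ∣ fdisc R := by rcases h with h | h <;> simp [h]
  have hd' : fdisc R ∣ A := by rcases h with h | h <;> simp [h]
  have ho := Nat.odd_iff.mp h2
  obtain ⟨x, y, ⟨z, w, e⟩, hv⟩ := exists_val_coprime (m := 2 * A) (R := R)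
    (by omega) fun p hp hm ⟨h1, h3, h4⟩ => by
      have h5 : (p : ℤ) * p ∣ A := Dvd.dvd.trans (dvd_sub (by rw [sq]; exact mul_dvd_mul h3 h3)
        (by rw [mul_assoc]; exact (mul_dvd_mul h1 h4).mul_left _)) hd'
      exact hp.not_isUnit (hA p (by exact_mod_cast h5))
  have e' : x * z - -w * y = 1 := by linear_combination e
  have h3 := fdisc_fmap e' R
  have h4 : fdisc R = -A ∧ 0 < R.1 → 0 < (fmap R x (-w) y z).1 := fun k =>
    fmap_pos e' (by omega) k.2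
  change ∀ p : ℕ, _ → _ → ¬ _ ∣ (fmap R x (-w) y z).1 at hv
  rw [← gch_fmap h2 hd e', gch, prod_congr rfl fun p hp => if_neg (hv p
    (Nat.prime_of_mem_primeFactors hp) ((Nat.dvd_of_mem_primeFactors hp).mul_left 2)),
    ← jac_eq_prod _ hA]
  generalize fmap R x (-w) y z = P at *
  have h5 : Odd P.1.natAbs := by have := hv 2 Nat.prime_two (by simp); rw [Nat.odd_iff]; omega
  have h6 : J(fdisc R | P.1.natAbs) = 1 := by
    rw [← h3, jacobiSym.mod_left' (a₂ := P.2.1 ^ 2) (Int.modEq_iff_dvd.mpr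
      (Int.natAbs_dvd.mpr ⟨4 * P.2.2, by rw [fdisc]; ring⟩))]
    refine jacobiSym.sq_one' (Nat.eq_one_iff_not_exists_prime_dvd.mpr fun p hp k => ?_)
    replace k := Int.natCast_dvd_natCast.mpr k
    have k1 := (k.trans (Int.gcd_dvd_right _ _)).trans (Int.natAbs_dvd.mpr dvd_rfl)
    refine hv p hp (Dvd.dvd.mul_left (Int.natCast_dvd_natCast.mp (Dvd.dvd.trans ?_ hd')) 2) k1
    exact h3 ▸ dvd_sub (dvd_pow (k.trans (Int.gcd_dvd_left _ _)) two_ne_zero)
      ((k1.mul_left _).mul_right _)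
  have h7 : fdisc R % 4 = 0 ∨ fdisc R % 4 = 1 := by
    rw [fdisc, mul_assoc, Int.sub_mul_emod_self_left, sq, Int.mul_emod]
    have : R.2.1 % 4 = 0 ∨ R.2.1 % 4 = 1 ∨ R.2.1 % 4 = 2 ∨ R.2.1 % 4 = 3 := by omega
    rcases this with k | k | k | k <;> simp [k]
  rcases h with h | h
  · have h8 : A % 4 = 1 := by omega
    rw [h, jacobiSym.quadratic_reciprocity_one_mod_four h8 h5] at h6
    rcases Int.natAbs_eq P.1 with k | k
    · rwa [k]
    · rw [k, jacobiSym.neg _ h2, ZMod.χ₄_nat_one_mod_four h8, one_mul, h6]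
  · rwa [h.1, jac_neg_swap (by omega) h5, Int.natAbs_of_nonneg (h4 h).le] at h6

theorem gch_swap {A B : ℕ} (hn : Squarefree (A * B)) (h2 : Odd (A * B)) {R : Fm}
    (h : fdisc R = (A * B : ℕ) ∨ (fdisc R = -(A * B : ℕ) ∧ 0 < R.1)) : gch A R = gch B R := by
  have := gch_full hn h h2
  rw [gch_mul (Nat.coprime_of_squarefree_mul hn)] at this
  rcases Int.eq_one_or_neg_one_of_mul_eq_one' this with k | k <;> rw [k.1, k.2]

theorem aut_eqs {Q : Fm} {a b c d : ℤ} (h : a * d - b * c = 1) (e : fmap Q a b c d = Q) :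
    Q.1 * (a - d) = -(Q.2.1 * c) ∧ Q.1 * b = -(Q.2.2 * c) ∧ Q.2.2 * (a - d) = Q.2.1 * b ∧
      Q.1 ^ 2 * ((a + d) ^ 2 - 4) = fdisc Q * c ^ 2 := by
  obtain ⟨A, B, C⟩ := Q
  simp only [fmap, fval, Prod.mk.injEq] at e
  obtain ⟨e1, e2, e3⟩ := e
  have h1 : 2 * (A * (a - d)) = 2 * -(B * c) := by
    linear_combination 2 * d * e1 - c * e2 - (2 * A * a + B * c) * h
  have h2 : 2 * (A * b) = 2 * -(C * c) := by
    linear_combination d * e2 - 2 * c * e3 - (2 * A * b + B * d) * h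
  have h3 : 2 * (C * (a - d)) = 2 * (B * b) := by
    linear_combination b * e2 - 2 * a * e3 + (B * b + 2 * C * d) * h
  have h4 : A * (a - d) = -(B * c) := by omega
  have h5 : A * b = -(C * c) := by omega
  refine ⟨h4, h5, by dsimp only; omega, ?_⟩
  simp only [fdisc]
  linear_combination (A * (a - d) - B * c) * h4 + 4 * A * c * h5 + 4 * A ^ 2 * h

theorem free_of_sq {Q : Fm} {A : ℤ} (hA : A ≠ 0) (hD : fdisc Q = A ^ 2) {a b c d : ℤ}
    (h : a * d - b * c = 1) (e : fmap Q a b c d = Q) : b = 0 ∧ c = 0 := by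
  obtain ⟨h1, h2, h3, h4⟩ := aut_eqs h e
  have h0 : Q.1 = 0 → Q.2.1 ≠ 0 := fun k k' => hA (by simpa [fdisc, k, k'] using hD.symm)
  obtain rfl : c = 0 := by
    by_cases k : Q.1 = 0
    · simpa [k, h0 k] using h1
    rw [hD, ← mul_pow] at h4
    obtain ⟨s, hs⟩ := (Int.pow_dvd_pow_iff two_ne_zero).mp ⟨_, h4.symm⟩
    rw [hs, mul_pow] at h4
    have h5 := mul_left_cancel₀ (pow_ne_zero 2 k) h4
    rw [← sq_abs (a + d), ← sq_abs s] at h5
    have h6 := abs_nonneg s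
    have h7 : |s| < |a + d| := by nlinarith [abs_nonneg (a + d)]
    have h8 : |s| ≤ 1 := by nlinarith
    have h9 : |a + d| ≤ 2 := by nlinarith
    obtain rfl : s = 0 := abs_eq_zero.mp (by nlinarith)
    simpa [hA] using hs
  refine ⟨?_, rfl⟩
  by_contra hb
  have h5 : a = d := by
    rcases Int.eq_one_or_neg_one_of_mul_eq_one' (show a * d = 1 by simpa using h) with k | k <;> omega
  exact h0 (by simpa [hb] using h2) (by simpa [h5, hb] using h3)

theorem sum_finsum_eq {α β V : Type*} [AddCommMonoid V] {S : Finset α} {F : α → β → V}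
    {X : Finset (α × β)} (hX : ∀ p ∈ X, p.1 ∈ S) (h : ∀ a ∈ S, ∀ b, F a b ≠ 0 → (a, b) ∈ X) :
    ∑ a ∈ S, ∑ᶠ b, F a b = ∑ p ∈ X, F p.1 p.2 := by
  classical
  rw [sum_congr rfl fun a ha => finsum_eq_sum_of_support_subset (s := X.image Prod.snd) _
    fun b hb => mem_coe.mpr (mem_image_of_mem Prod.snd (h a ha b hb)), ← sum_product']
  exact (sum_subset (fun p hp => mem_product.mpr ⟨hX p hp, mem_image_of_mem _ hp⟩)
    fun p hp k => not_not.mp (mt (h _ (mem_product.mp hp).1 _) k)).symm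

theorem finite_fbil (hD : fdisc Q < 0) (hQ : 0 < Q.1) (he : e < 0) (t : ℤ) :
    {R : Fm | fdisc R = e ∧ fbil Q R = t}.Finite := by
  have h1 := im_froot_pos hD hQ
  refine (finite_side e h1 |-t / √(-fdisc Q : ℝ) * (froot Q).im|).subset fun R ⟨h2, h3⟩ =>
    ⟨h2, fun h4 => ?_, ?_⟩
  · simp only [fdisc, h4] at h2
    nlinarith [sq_nonneg R.2.1]
  · rw [← h3, ← fside_froot hD hQ, div_mul_cancel₀ _ h1.ne']

theorem pos_of_fbil (hD : fdisc Q < 0) (hQ : 0 < Q.1) (he : fdisc R < 0) (h : fbil Q R ≤ 0) :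
    0 < R.1 := by
  by_contra! h1
  have h2 := fside_froot hD hQ R
  have h3 := four_mul_fside R (froot Q)
  have h4 := im_froot_pos hD hQ
  have h5 : 0 ≤ fside R (froot Q) := by
    rw [div_eq_iff h4.ne'] at h2
    have : (0 : ℝ) ≤ -fbil Q R := by exact_mod_cast neg_nonneg.mpr h
    rw [h2]
    positivity
  have h6 : (R.1 : ℝ) < 0 := by
    refine mod_cast h1.lt_of_ne fun h7 => ?_
    simp only [fdisc, h7] at he
    nlinarith [sq_nonneg R.2.1]
  have h7 : (fdisc R : ℝ) < 0 := mod_cast he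
  nlinarith [sq_nonneg (2 * R.1 * (froot Q).re + R.2.1), mul_pos_of_neg_of_neg h6 h6, mul_pos h4 h4,
    mul_pos (mul_pos_of_neg_of_neg h6 h6) (mul_pos h4 h4)]

theorem Iw_finite (hw : Wt N w e) (hne : ∀ R, w R ≠ 0 → R.1 ≠ 0) (hz : 0 < z.im) :
    (Function.support fun R : Fm =>
      (w R : ℝ) * (Real.sign R.1 - Real.sign (fside R z))).Finite := by
  refine (finite_above e |z.re| hz).subset fun R hR => ?_
  have h1 : w R ≠ 0 := by exact_mod_cast left_ne_zero_of_mul hR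
  exact ⟨hw.disc R h1, hne R h1, z, le_rfl, le_rfl, sub_ne_zero.1 (right_ne_zero_of_mul hR)⟩

/-- Finitely many geodesics separate infinity from a cusp at which no geodesic ends. -/
theorem finite_cross (hw : Wt N w e) {x y : ℤ} :
    {R : Fm | w R ≠ 0 ∧ R.1 * fval R x y < 0}.Finite := by
  rcases eq_or_ne y 0 with rfl | hy
  · convert Set.finite_empty
    ext R
    simp only [fval, Set.mem_ofPred_eq, Set.mem_empty_iff_false, iff_false, not_and, not_lt]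
    intro _
    nlinarith [mul_nonneg (sq_nonneg R.1) (sq_nonneg x)]
  refine (finite_line e hy x (y ^ 2 * e)).subset ?_
  rintro R ⟨h1, h2⟩
  have h3 := fbil_line y x R
  rw [hw.disc R h1] at h3
  refine ⟨hw.disc R h1, left_ne_zero_of_mul h2.ne, right_ne_zero_of_mul h2.ne, ?_⟩
  have h4 := Int.le_self_sq |fbil (0, y, -x) R|
  rw [sq_abs] at h4
  linarith

theorem thw_finite (hw : Wt N w e) (hne : ∀ R, w R ≠ 0 → R.1 ≠ 0) {x y : ℤ}
    (h : ∀ R, w R ≠ 0 → fval R x y ≠ 0) :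
    (Function.support fun R : Fm => w R * (R.1.sign - (fval R x y).sign)).Finite :=
  (finite_cross hw).subset (thw_support hne h)

theorem Wt.fmap (hw : Wt N w e) (h : a * d - b * (N * c) = 1) (R : Fm) :
    w (fmap R a b (N * c) d) = w R := hw.inv _ _ ⟨a, b, c, d, h, rfl⟩

theorem col_ne (hw : Wt N w e) (hne : ∀ R, w R ≠ 0 → R.1 ≠ 0) (h : a * d - b * (N * c) = 1) :
    ∀ R, w R ≠ 0 → fval R a (N * c) ≠ 0 := fun R hR =>
  hne (fmap R a b (N * c) d) (by rwa [hw.fmap h])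

/-- The cocycle relation. -/
theorem thw_add (hw : Wt N w e) (hne : ∀ R, w R ≠ 0 → R.1 ≠ 0) (h : a * d - b * (N * c) = 1)
    {x y : ℤ} (hxy : ∀ R, w R ≠ 0 → fval R x y ≠ 0) :
    thw w (a * x + b * y) (N * c * x + d * y) = thw w a (N * c) + thw w x y := by
  have h1 := thw_finite hw hne (col_ne hw hne h)
  have h2 := (thw_finite hw hne hxy).preimage (fequiv h).injective.injOn
  rw [thw, thw, thw, ← finsum_comp_equiv (fequiv h)
    (f := fun R : Fm => w R * (R.1.sign - (fval R x y).sign)), ← finsum_add_distrib h1 h2]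
  refine finsum_congr fun R => ?_
  change _ = _ + w (fmap R a b (N * c) d) *
    ((fval R a (N * c)).sign - (fval (fmap R a b (N * c) d) x y).sign)
  rw [hw.fmap h, fval_fmap]
  ring

theorem Iw_mob (hw : Wt N w e) (hne : ∀ R, w R ≠ 0 → R.1 ≠ 0) (h : a * d - b * (N * c) = 1)
    (hz : 0 < z.im) : Iw w (mob a b (N * c) d z) = thw w a (N * c) / 2 + Iw w z := by
  have h1 := thw_finite hw hne (col_ne hw hne h)
  have h1' : (Function.support fun R : Fm =>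
      ((w R * (R.1.sign - (fval R a (N * c)).sign) : ℤ) : ℝ)).Finite :=
    h1.subset fun R hR => Int.cast_ne_zero.1 hR
  have h2 := (Iw_finite hw hne hz).preimage (fequiv h).injective.injOn
  have h3 : (thw w a (N * c) : ℝ) =
      ∑ᶠ R : Fm, ((w R * (R.1.sign - (fval R a (N * c)).sign) : ℤ) : ℝ) :=
    (Int.castRingHom ℝ).toAddMonoidHom.map_finsum h1
  have h0 : 0 < Complex.normSq (((N * c : ℤ) : ℂ) * z + d) :=
    Complex.normSq_pos.2 (den_ne (a := a) (b := b) (by omega) hz)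
  rw [Iw, Iw, ← add_div, h3, ← finsum_comp_equiv (fequiv h)
    (f := fun R : Fm => (w R : ℝ) * (Real.sign R.1 - Real.sign (fside R z))),
    ← finsum_add_distrib h1' h2]
  congr 1
  refine finsum_congr fun R => ?_
  change _ = _ + (w (fmap R a b (N * c) d) : ℝ) *
    (Real.sign (fval R a (N * c)) - Real.sign (fside (fmap R a b (N * c) d) z))
  have h4 : ∀ t : ℝ, Real.sign (t / Complex.normSq (((N * c : ℤ) : ℂ) * z + d)) = Real.sign t := by
    intro t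
    rcases eq_or_ne t 0 with rfl | ht
    · simp
    · refine sign_eq_of_mul_pos ?_
      rw [div_mul_eq_mul_div]
      exact div_pos (mul_self_pos.2 ht) h0
  rw [hw.fmap h, fside_mob h hz, h4, Real.sign_intCast, Real.sign_intCast]
  push_cast
  ring

theorem Wt.summable_side (hw : Wt N w e) (hne : ∀ R, w R ≠ 0 → R.1 ≠ 0) {z : ℂ} (hz : 0 < z.im)
    {ε : ℝ} (hε : 0 < ε) {s : ℝ} (hs : 0 < s) :
    Summable fun R => |(w R : ℝ)| * (1 + |fside R z / s|) ^ (-1 - ε) := by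
  obtain ⟨B, hB⟩ := hw.bdd
  refine ((Lib.MP_696deb_nt.summable_side e hz hε).mul_left (B * (1 + s) ^ (1 + ε))).of_nonneg_of_le
    (fun R => by positivity) fun R => ?_
  by_cases h : w R = 0
  · have : (0 : ℝ) ≤ B := by exact_mod_cast (abs_nonneg _).trans (hB R)
    simp only [h, Int.cast_zero, abs_zero, zero_mul]
    split_ifs <;> positivity
  rw [if_pos ⟨hw.disc R h, hne R h⟩, mul_assoc]
  refine mul_le_mul (by exact_mod_cast hB R) ?_ (by positivity)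
    (by exact_mod_cast (abs_nonneg _).trans (hB R))
  have := rpow_le_of_le (K := 1 + s) (u := 1 + |fside R z|) (v := 1 + |fside R z / s|)
    (s := -1 - ε) (by positivity) (by positivity) (by positivity) (by
      rw [abs_div, abs_of_pos hs, add_mul, one_mul, mul_add, mul_div_cancel₀ _ hs.ne']
      linarith [div_nonneg (abs_nonneg (fside R z)) hs.le]) (by linarith)
  rwa [show -(-1 - ε) = 1 + ε by ring] at this

theorem Iw_act (hw : Wt N w e) (hne : ∀ R, w R ≠ 0 → R.1 ≠ 0) {g : MZ} (hg : G0 N g)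
    (hz : 0 < z.im) : Iw w (act g z) = thw w (g 0 0) (g 1 0) / 2 + Iw w z := by
  obtain ⟨a, b, c, d, h, rfl⟩ := g0_ex hg
  exact Iw_mob hw hne h hz

theorem wG_of_fam (h : Fam N e β R) : wG N A e β R = gch A R := if_pos h

theorem pos_of_wZ (h : wZ N B D ρ R ≠ 0) : 0 < R.1 ∧ (Fam N D ρ R ∨ Fam N D (-ρ) R) := by
  have h1 : 0 < R.1 := by_contra fun k => h (if_neg k)
  rw [wZ, if_pos h1] at h
  refine ⟨h1, by_contra fun k => h ?_⟩
  rw [not_or] at k
  rw [wG, wG, if_neg k.1, if_neg k.2, mul_zero, add_zero]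

end Pool.Agent.G5
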