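import Pool.Agent.Lib.MP_696deb_nt.B5.Z4
import Pool.Agent.Lib.MP_696deb_nt.B5.ZFa
import Pool.Agent.Lib.MP_696deb_nt.B5.ZHb
import Pool.Agent.Lib.MP_696deb_nt.B5.LAa

/-! The parametrization of the raised level and its companion. -/

set_option autoImplicit false

open Finset Filter Topology Complex
open scoped Classical

namespace Pool.Agent.G5

open Pool.Agent.Lib.MP_696deb_nt Pool.Agent.B4.GE Pool.Agent.Shared.Weier

variable {N r : ℕ} {g : MZ} {G : ℂ → ℂ} {z : ℂ}

theorem lr_pos (hr : r ≠ 0) (hz : 0 < z.im) : 0 < ((r : ℂ) * z).im := by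
  simpa using mul_pos (Nat.cast_pos.2 (Nat.pos_of_ne_zero hr) : (0 : ℝ) < r) hz

theorem g0_raise (hg : G0 (N * r) g) : G0 N g :=
  ⟨hg.1, Dvd.dvd.trans ⟨r, by push_cast; rfl⟩ hg.2⟩

theorem g0_conj (hg : G0 (N * r) g) : ∃ k, G0 N k ∧ ∀ z : ℂ, r * act g z = act k (r * z) := by
  obtain ⟨a, b, c, d, e, rfl⟩ := g0_ex hg
  refine ⟨_, g0_of (a := a) (b := r * b) (c := c) (d := d) (by rw [← e]; push_cast; ring),
    fun z => ?_⟩
  simp only [act_of, mob, ← mul_div_assoc]
  push_cast
  congr 1 <;> ring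

theorem Ci.raise (hG : Ci N G) (hN : N ≠ 0) (hr : r ≠ 0) : Ci (N * r) G :=
  .of_lim (mul_ne_zero hN hr) hG.hol (fun g hg => hG.inv g (g0_raise hg)) fun _ hg => hG.lim hN hg

theorem Ci.raise_mul (hG : Ci N G) (hN : N ≠ 0) (hr : r ≠ 0) : Ci (N * r) fun z => G (r * z) := by
  refine .of_lim (mul_ne_zero hN hr) (fun z hz => ?_) (fun g hg => ?_) fun g hg => ?_
  · exact (hG.hol _ (lr_pos hr hz)).comp z (differentiableAt_id.const_mul _)
  · obtain ⟨k, h1, h2⟩ := g0_conj hg
    exact (hG.inv k h1).imp fun c hc z hz => by rw [h2, hc _ (lr_pos hr hz)]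
  · have d : 0 < (ut r 0 1 * g).det := by
      simpa [hg, det_ut] using Nat.pos_of_ne_zero hr
    have e : ∀ z : ℂ, 0 < z.im → G (act (ut r 0 1 * g) z) = G (r * act g z) := fun z hz => by
      rw [act_mul _ (hg ▸ one_ne_zero) hz]
      simp [ut, act_of, mob]
    by_cases h : (ut r 0 1 * g) 1 0 = 0
    · exact ⟨_, (hG.tendsto_upper hN d h).congr' (ev_pos.mono e)⟩
    · exact ⟨_, (hG.tendsto_act hN d h).congr' (ev_pos.mono e)⟩

theorem PerL.raise {L : PeriodPair} (h : PerL N L G) : PerL (N * r) L G :=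
  fun g hg => h g (g0_raise hg)

theorem PerL.raise_mul {L : PeriodPair} (h : PerL N L G) (hr : r ≠ 0) :
    PerL (N * r) L fun z => G (r * z) := fun g hg z hz => by
  obtain ⟨k, h1, h2⟩ := g0_conj hg
  beta_reduce
  rw [h2]
  exact h k h1 _ (lr_pos hr hz)

section
variable {V : Type} [AddCommGroup V] {a : ℕ → ℤ} {S : ℂ → V}

theorem Eig.raise (h : Eig N a S) : Eig (N * r) a S :=
  fun l hl e => h l hl fun k => e (k.mul_right r)

theorem Tf_mul {l : ℕ} (hl : l.Prime) (e : ¬ l ∣ r) (hp : ∀ z : ℂ, 0 < z.im → S (z + 1) = S z)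
    (hz : 0 < z.im) : Tf V l (fun z => S (r * z)) z = Tf V l S (r * z) := by
  have hr : r ≠ 0 := fun k => e (k ▸ dvd_zero l)
  rw [Tf_apply, Tf_apply, Fintype.sum_option, Fintype.sum_option, act_none, act_none, mul_left_comm]
  congr 1
  have := fpa_per hl.ne_zero (fpa_periodic hp hr hl.ne_zero hz) (univ : Finset (Fin l))
    (fun k => r * k) (by simp) fun s _ t _ k => Fin.ext ((Nat.ModEq.cancel_left_of_coprime
      ((Nat.Prime.coprime_iff_not_dvd hl).2 e) k).eq_of_lt_of_lt s.2 t.2)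
  rw [sum_range] at this
  simp only [act_rP_some, ← this, ← mul_div_assoc, mul_add, Nat.cast_mul]

theorem Eig.raise_mul (h : Eig N a S) (hp : ∀ z : ℂ, 0 < z.im → S (z + 1) = S z) :
    Eig (N * r) a fun z => S (r * z) := fun l hl e z hz => by
  have e1 : ¬ l ∣ r := fun k => e (k.mul_left N)
  rw [Tf_mul hl e1 hp hz]
  exact h.raise l hl e _ (lr_pos (fun k => e1 (k ▸ dvd_zero l)) hz)

theorem Eig.add {S' : ℂ → V} (h : Eig N a S) (h' : Eig N a S') : Eig N a fun z => S z + S' z :=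
  fun l hl e z hz => by
    rw [smul_add, ← h l hl e z hz, ← h' l hl e z hz, Tf_apply, Tf_apply, Tf_apply, sum_add_distrib]

theorem Eig.sub {S' : ℂ → V} (h : Eig N a S) (h' : Eig N a S') : Eig N a fun z => S z - S' z :=
  fun l hl e z hz => by
    rw [smul_sub, ← h l hl e z hz, ← h' l hl e z hz, Tf_apply, Tf_apply, Tf_apply, sum_sub_distrib]

end

variable {W : WeierstrassCurve ℚ}

theorem par_per (P : Par W N) (z : ℂ) (hz : 0 < z.im) : P.F (z + 1) = P.F z := by
  simpa using P.qe.periodic 1 hz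

open PowerSeries in
/-- The parametrization of the raised level. -/
noncomputable def parUp (P : Par W N) (hr : 1 < r) : Par W (N * r) where
  N0 := mul_ne_zero P.N0 (by omega)
  L := P.L
  per := P.per
  F z := P.F z + P.F (r * z)
  A := P.A + PowerSeries.expand r (by omega) P.A
  qe := by
    convert P.qe.add (P.qe.expand r (by omega)) using 1
    ext n
    simp only [map_add, coeff_map, coeff_expand]
    split_ifs <;> simp
  A0 := by simp [coeff_expand, P.A0, -coeff_zero_eq_constantCoeff]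
  A1 h := by
    refine P.A1 (PowerSeries.ext fun n => ?_)
    induction n using Nat.strong_induction_on with
    | _ n ih =>
      have k := congrArg (coeff n) h
      rw [map_add, coeff_expand] at k
      rcases eq_or_ne n 0 with rfl | n0
      · simpa using P.A0
      · rw [ih _ (Nat.div_lt_self n0.bot_lt hr)] at k
        simpa using k
  inv g hg z hz := by
    have := add_mem (PerL.raise (r := r) P.inv g hg z hz)
      (PerL.raise_mul (r := r) P.inv (by omega) g hg z hz)
    convert this using 1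
    ring
  cusp := (((par_ci P).raise P.N0 (by omega)).add ((par_ci P).raise_mul P.N0 (by omega))).cusp
  a := P.a
  hecke l hl e z hz := by
    simpa only [Tf_apply, zsmul_eq_mul] using
      ((par_eig P).raise.add ((par_eig P).raise_mul (par_per P))) l hl e z hz
  t0 := P.t0 + P.t0
  al z hz := by
    have r1 : (r : ℂ) ≠ 0 := by exact_mod_cast (by omega : r ≠ 0)
    have e1 : (-1 / ((N * r : ℕ) * z) : ℂ) = -1 / (N * (r * z)) := by push_cast; rw [mul_assoc]
    have e2 : (r * (-1 / (N * (r * z))) : ℂ) = -1 / (N * z) := by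
      rw [mul_left_comm, ← mul_div_assoc, mul_div_mul_left _ _ r1]
    rw [e1, e2, P.al z hz, P.al _ (lr_pos (by omega) hz)]
    ring

theorem exists_alm (hG : Ci N G) (hr : r.Prime) (h : ¬ r ∣ N) : ∃ (w : MZ) (c c' : ℂ),
    ALm (N * r) r w ∧ ∀ z : ℂ, 0 < z.im →
      G (act w z) = G (r * z) + c ∧ G (r * act w z) = G z + c' := by
  obtain ⟨d, b, e⟩ : IsCoprime (r : ℤ) N :=
    Nat.isCoprime_iff_coprime.2 ((Nat.Prime.coprime_iff_not_dvd hr).2 h)
  obtain ⟨c, hc⟩ := hG.inv _ (g0_of (N := N) (a := 1) (b := -b) (c := 1) (d := r * d)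
    (by linear_combination e))
  obtain ⟨c', hc'⟩ := hG.inv _ (g0_of (N := N) (a := r) (b := -b) (c := 1) (d := d)
    (by linear_combination e))
  have r1 : (r : ℂ) ≠ 0 := by exact_mod_cast hr.ne_zero
  refine ⟨!![r, -b; N * r, r * d], c, c', ⟨?_, by simp, by simp, by simp⟩, fun z hz => ⟨?_, ?_⟩⟩
  · rw [Matrix.det_fin_two_of]
    linear_combination r * e
  · rw [← hc _ (lr_pos hr.ne_zero hz)]
    simp only [act_of, mob]
    push_cast
    congr 2 <;> ring
  · rw [← hc' _ hz]
    simp only [act_of, mob]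
    push_cast
    rw [← mul_div_assoc, ← mul_div_mul_left (r * z + -b) _ r1]
    congr 2
    ring

/-- The projector at the raised level. -/
def PJRStmt : Prop := ∀ (W : WeierstrassCurve ℚ) (N r : ℕ) (D : MD W N), Squarefree N → Nw D →
  r.Prime → ¬ r ∣ N → ∀ M : ℕ, M ≠ 0 → ∃ t ∈ HA (N * r * M), he D.c t ≠ 0 ∧
    Prj (N * r) D.par.F (fun z => D.par.F (r * z)) t

theorem lr_stmt (pr : PRStmt) (pj : PJRStmt) : LRStmt := by
  intro W N r D hN hD hr h
  have c := par_ci D.par
  refine ⟨parUp D.par hr.one_lt, rfl, rfl, fun _ => rfl, ?_, ?_, ?_, ?_, ?_, fun M hM => ?_⟩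
  · have := (pr W N D hN hD).1
    exact map_add D.par.per.unif _ _ ▸ this.add this
  · exact ((c.raise D.N0 hr.ne_zero).add ((c.raise_mul D.N0 hr.ne_zero).smul (-1))).congr
      (mul_ne_zero D.N0 hr.ne_zero) fun z _ => by ring
  · intro g hg z hz
    have := sub_mem (PerL.raise (r := r) D.par.inv g hg z hz)
      (PerL.raise_mul D.par.inv hr.ne_zero g hg z hz)
    rw [sub_sub_sub_comm] at this
    exact this
  · exact (par_eig D.par).raise.sub ((par_eig D.par).raise_mul (par_per D.par))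
  · obtain ⟨w, c₁, c₂, hw, e⟩ := exists_alm c hr h
    refine ⟨w, 1, c₁ + c₂, c₁ - c₂, hw, Or.inl rfl, fun z hz => ?_⟩
    simp only [parUp, (e z hz).1, (e z hz).2]
    constructor <;> push_cast <;> ring
  · obtain ⟨t, h1, h2, h3⟩ := pj W N r D hN hD hr h M hM
    refine ⟨t, h1, h2, fun G hG => ?_⟩
    obtain ⟨κ, κ₂, c, e⟩ := h3 G hG
    refine ⟨(κ + κ₂) / 2, (κ - κ₂) / 2, c, fun z hz => ?_⟩
    simp only [parUp, e z hz]
    ring

end Pool.Agent.G5
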