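import Pool.Agent.Lib.MP_696deb_nt.B5.Z3
import Pool.Agent.Lib.MP_696deb_nt.B5.ZLa
import Pool.Agent.Lib.MP_696deb_nt.B5.LQa
import Pool.Agent.Lib.MP_696deb_nt.B5.LRa
import Pool.Agent.Lib.MP_696deb_nt.B5.LAb
import Pool.Agent.Lib.MP_696deb_nt.B5.PRa

/-! The relation of Gross, Kohnen and Zagier at the level of the newform. -/

set_option autoImplicit false

open Finset Complex NumberTheorySymbols
open scoped Classical ComplexConjugate

namespace Pool.Agent.G5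

open Pool.Agent.Lib.MP_696deb_nt Pool.Agent.B4.GE Pool.Agent.Shared.Weier

variable {N r B K : ℕ} {e ρ ρ₁ : ℤ} {T T₁ : Finset Fm}

theorem gkz_pjr : PJRStmt := fun W N r D hN h hr k M hM => by
  obtain ⟨t, h1, h2, h3⟩ := prj_raise h hN hr k (mul_ne_zero (mul_ne_zero D.N0 hr.ne_zero) hM)
    (dvd_mul_right _ _) (fun _ => rfl) fun _ => rfl
  refine ⟨t, h1, h2, fun G hG => ?_⟩
  obtain ⟨κ, κ₂, c, e⟩ := h3 G hG
  exact ⟨κ + κ₂, κ - κ₂, c, fun z hz => by rw [e z hz]; ring⟩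

theorem gkz_lr : LRStmt := lr_stmt pr_stmt gkz_pjr

/-- The second degeneracy map on a twisted divisor of arbitrary discriminant. -/
theorem gkz_lq (n0 : N ≠ 0) (hr : r.Prime) (h2 : ¬ (r : ℤ) ∣ 2 * N) (hρ : ¬ (r : ℤ) ∣ ρ₁)
    (hD : (r : ℤ) ∣ ρ₁ ^ 2 - e) (h0 : e < 0) (hB : Squarefree B) (ho : Odd B)
    (c1 : B.Coprime (N * r)) (hd : (B : ℤ) ∣ e) (h₁ : FReps (N * r) e ρ₁ T) {V : Type}
    [AddCommGroup V] {S : ℂ → V} (hS : Inv0 N S) :
    ∑ Q ∈ T, gch B Q • S (r * froot Q) = J((r : ℤ) | B) • ∑ Q ∈ T, gch B Q • S (froot Q) := by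
  have n1 : N * r ≠ 0 := mul_ne_zero n0 hr.ne_zero
  have pr : Prime (r : ℤ) := Nat.prime_iff_prime_int.1 hr
  have c0 : B.Coprime N := c1.coprime_mul_right_right
  have h : FReps N e ρ₁ T := lq_freps pr h2 hρ hD h0 (by simp) h₁
  have k := lq_sum ho hd h0 (h.fV n0 h0).1 (lq_freps (ρ := -ρ₁) pr h2 (by rwa [dvd_neg])
    (by rwa [neg_sq]) h0 (by simp) (h₁.fV n1 h0).1) (inv0_fricke n0 hS)
  rw [(h.fV n0 h0).2, (h₁.fV n1 h0).2] at k
  have n2 : (N : ℂ) ≠ 0 := by exact_mod_cast n0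
  have k1 : ∀ Q ∈ T, gch B (fV (N * r) Q) • S (-1 / (N * froot (fV (N * r) Q))) =
      (J(N | B) * J(r | B)) • gch B Q • S (r * froot Q) := fun Q hQ => by
    have f := h₁.fam Q hQ
    rw [gch_fV n1 hB ho c1 (f.2.1 ▸ hd) f.1, froot_fV n1 (f.2.1 ▸ h0) (h₁.pos Q hQ) f.1, mul_smul,
      Nat.cast_mul, jacobiSym.mul_left]
    congr 3
    push_cast
    field_simp
  have k2 : ∀ Q ∈ T, gch B (fV N Q) • S (-1 / (N * froot (fV N Q))) =
      J(N | B) • gch B Q • S (froot Q) := fun Q hQ => by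
    have f := h.fam Q hQ
    rw [gch_fV n0 hB ho c0 (f.2.1 ▸ hd) f.1, froot_fV n0 (f.2.1 ▸ h0) (h.pos Q hQ) f.1, mul_smul]
    congr 3
    field_simp
  rw [sum_congr rfl k1, sum_congr rfl k2, ← smul_sum, ← smul_sum] at k
  have j1 : J(N | B) ^ 2 = 1 := jacobiSym.sq_one (by simpa using c0.symm)
  have j2 : J(r | B) ^ 2 = 1 := jacobiSym.sq_one (by simpa using c1.coprime_mul_left_right.symm)
  have k3 := congrArg (fun x => (J(N | B) * J(r | B)) • x) k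
  simp only [smul_smul] at k3
  rwa [show J(N | B) * J(r | B) * (J(N | B) * J(r | B)) = 1 by
      linear_combination J(r | B) ^ 2 * j1 + j2,
    show J(N | B) * J(r | B) * J(N | B) = J(r | B) by linear_combination J(r | B) * j1,
    one_smul] at k3

theorem gkz_sq {m u v : ℤ} (h : 2 * m ∣ u - v) : 4 * m ∣ u ^ 2 - v ^ 2 := by
  obtain ⟨k, hk⟩ := h
  exact ⟨k * (m * k + v), by linear_combination (u + v + 2 * m * k) * hk⟩

theorem gkz_jac (h : r ≡ 1 [MOD K]) (hB : B ∣ K) : J((r : ℤ) | B) = 1 := by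
  rw [jacobiSym.mod_left' (a₂ := 1) (by exact_mod_cast h.of_dvd hB), jacobiSym.one_left]

theorem gkz_jac' (h : r ≡ 1 [MOD K]) (r4 : r % 4 = 1) (hB : B ∣ K) (ho : Odd B) :
    J((B : ℤ) | r) = 1 := by
  rw [← jacobiSym.quadratic_reciprocity_one_mod_four r4 ho, gkz_jac h hB]

theorem gkz_lift (hr : r.Prime) (c : IsCoprime (4 * N : ℤ) r) (j : J(e | r) = 1)
    (h : 4 * (N : ℤ) ∣ ρ ^ 2 - e) :
    ∃ ρ₁, 4 * ((N * r : ℕ) : ℤ) ∣ ρ₁ ^ 2 - e ∧ 2 * (N : ℤ) ∣ ρ₁ - ρ := by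
  have := Fact.mk hr
  obtain ⟨x, hx⟩ : IsSquare (e : ZMod r) := ZMod.isSquare_of_jacobiSym_eq_one j
  obtain ⟨ρ₁, k1, k2⟩ := exists_crt c ρ x.val
  refine ⟨ρ₁, ?_, Dvd.dvd.trans ⟨2, by ring⟩ k1⟩
  rw [Nat.cast_mul N, ← mul_assoc]
  refine c.mul_dvd (by convert dvd_add (k1.mul_right (ρ₁ + ρ)) h using 1; ring) ?_
  rw [← ZMod.intCast_zmod_eq_zero_iff_dvd] at k2 ⊢
  push_cast [ZMod.natCast_zmod_val] at k2 ⊢
  linear_combination (ρ₁ + x) * k2 - hx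

theorem gkz_cop {a : ℕ} (ho : Odd a) (h : a.Coprime N) : IsCoprime (a : ℤ) (4 * N) := by
  exact_mod_cast Nat.isCoprime_iff_coprime.2
    (((Nat.coprime_two_right.2 ho).pow_right 2).mul_right h)

theorem gk6 (gk : GKStmt) (ot : ORStmt) : GK6Stmt := by
  intro W N D hN oN N1 h A x M sA oA cA sx ox cx ne M0
  by_cases hβ : ∃ β₀ : ℤ, 4 * (N : ℤ) ∣ β₀ ^ 2 - (A * x : ℕ)
  swap
  · refine ⟨0, 1, fun _ => one_ne_zero, fun B ρ ρ₂ T T₂ _ g _ _ _ h1 h2 _ _ => (hβ ?_).elim⟩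
    obtain ⟨u, v, k⟩ := gkz_cop (Nat.odd_mul.1 g.odd).2 g.cop.coprime_mul_left
    obtain ⟨a, ha⟩ := h1
    obtain ⟨b, hb⟩ := h2
    push_cast at ha hb
    refine ⟨u * ρ * ρ₂, u ^ 2 * (a * ρ₂ ^ 2 - A * B * b) - v * (u * B + 1) * (A * x), ?_⟩
    push_cast
    linear_combination u ^ 2 * ρ₂ ^ 2 * ha - u ^ 2 * A * B * hb + (u * B + 1) * (A * x) * k
  obtain ⟨β₀, hβ₀⟩ := hβ
  have K0 : 4 * (A * x * M * N) ≠ 0 := by
    have := sA.ne_zero
    have := sx.ne_zero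
    positivity
  obtain ⟨r, hr, -, rm⟩ := Nat.exists_prime_gt_modEq_one 0 K0
  have r4 : r % 4 = 1 := rm.of_mul_right _
  have ro : Odd r := Nat.odd_iff.2 (by omega)
  have cr : ∀ {X : ℕ}, X ∣ A * x * M * N → X.Coprime r := fun d =>
    (Nat.coprime_of_mul_modEq_one 1 (by simpa using rm)).symm.of_dvd_left (d.mul_left 4)
  have dA : A ∣ A * x * M * N := ⟨x * M * N, by ring⟩
  have dx : x ∣ A * x * M * N := ⟨A * M * N, by ring⟩
  have dM : M ∣ A * x * M * N := ⟨A * x * N, by ring⟩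
  have cN : N.Coprime r := cr (dvd_mul_left _ _)
  have rN : ¬ r ∣ N := (Nat.Prime.coprime_iff_not_dvd hr).1 cN.symm
  have c4 := (gkz_cop ro cN.symm).symm
  have jA := gkz_jac' rm r4 (dA.mul_left 4) oA
  have jx := gkz_jac' rm r4 (dx.mul_left 4) ox
  have j1 : J(-1 | r) = 1 := by rw [jacobiSym.at_neg_one ro, ZMod.χ₄_nat_one_mod_four r4]
  obtain ⟨β, hβ, -⟩ := gkz_lift hr c4 (by rw [Nat.cast_mul, jacobiSym.mul_left, jA, jx, mul_one]) hβ₀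
  have c2 : IsCoprime (2 * N : ℤ) r := c4.of_isCoprime_of_dvd_left ⟨2, by ring⟩
  obtain ⟨γ, g1, g2⟩ := exists_crt c2.symm (-A) A
  obtain ⟨P, e1, e2, e3, h0, cp⟩ := gkz_lr W N r D hN h hr rN
  have n1 : N * r ≠ 0 := mul_ne_zero D.N0 hr.ne_zero
  have sN : Squarefree (N * r) := (Nat.squarefree_mul cN).2 ⟨hN, hr.squarefree⟩
  have cA' : A.Coprime (N * r) := cA.mul_right (cr dA)
  obtain ⟨al, nu, k1, k2⟩ := gk W _ r P _ A x M β γ sN (oN.mul ro) hr (dvd_mul_left r N)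
    (fun e => N1.ne' (by simpa [hr.ne_zero] using e)) cp (fun z hz => by
      rw [map_sub, ← D.par.F_conj hz, ← D.par.F_conj (lr_pos hr.ne_zero hz)]
      simp) h0 (fun l hl k => by
      rw [e2]
      exact (lt_of_abs_lt (B5.md_abs_lt D hl fun d => k (d.mul_right r))).ne) sA oA cA' sx ox
    (cx.mul_right (cr dx)) ne M0 (by simpa using g1) (by rwa [Nat.mul_div_cancel _ hr.pos])
  have ci := par_ci D.par
  refine ⟨al, nu, fun k => k1 ?_, fun B ρ ρ₂ T T₂ d g h3 hJ n3 h1 h2 hT hT₂ => ?_⟩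
  · rw [(la_stmt _ A n1 sA.ne_zero).2.1 P.F _ _ 1 1 0 (ci.raise D.N0 hr.ne_zero)
      (ci.raise_mul D.N0 hr.ne_zero) fun z _ => by rw [e3]; ring,
      lq_series N r A _ hr.ne_zero sA.ne_zero (cr dA).symm ci, gkz_jac rm (dA.mul_left 4)]
    simpa [← two_mul] using k
  have oB := (Nat.odd_mul.1 g.odd).2
  have sB : Squarefree B := g.sqf.of_mul_right
  have cB : B.Coprime N := g.cop.coprime_mul_left
  have jB := gkz_jac' rm r4 ((d.trans dM).mul_left 4) oB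
  have jB' := gkz_jac rm ((d.trans dM).mul_left 4)
  have g' : Good (N * r) (A * B) := ⟨g.sqf, g.mod4,
    g.cop.mul_right ((cr dA).mul_left (cr (d.trans dM))), sN, oN.mul ro, one_lt_mul'' N1 hr.one_lt⟩
  obtain ⟨ρ₁, p1, p2⟩ := gkz_lift (e := -(A * B : ℕ)) hr c4 (by
    rw [← neg_one_mul, Nat.cast_mul, jacobiSym.mul_left, jacobiSym.mul_left, j1, jA, jB]
    rfl) (by rwa [sub_neg_eq_add])
  have g3 : 4 * ((N * r : ℕ) : ℤ) ∣ γ ^ 2 - A ^ 2 := by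
    rw [Nat.cast_mul, ← mul_assoc]
    exact c4.mul_dvd (gkz_sq g2) (by convert g1.mul_right (γ - A) using 1; ring)
  have c5 := gkz_cop oA cA'
  have c6 : IsCoprime γ (4 * ((N * r : ℕ) : ℤ)) := by
    obtain ⟨y, hy⟩ := g3
    have := (c5.pow_left (m := 2)).add_mul_left_left y
    rw [← hy, add_sub_cancel] at this
    exact this.of_isCoprime_of_dvd_left (dvd_pow_self γ two_ne_zero)
  obtain ⟨u, v, uv⟩ := c6
  have p3 : 2 * ((N * r : ℕ) : ℤ) ∣ ρ₁ * β - γ * (u * ρ₁ * β) :=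
    ⟨2 * v * ρ₁ * β, by linear_combination -(ρ₁ * β) * uv⟩
  have p4 : 4 * ((N * r : ℕ) : ℤ) ∣ (u * ρ₁ * β) ^ 2 + (B * x : ℕ) := by
    refine (c5.symm.pow_right (n := 2)).dvd_of_dvd_mul_left ?_
    convert (((p1.mul_right (β ^ 2)).sub (hβ.mul_left (A * B : ℕ))).sub (gkz_sq p3)).sub
      (g3.mul_right ((u * ρ₁ * β) ^ 2)) using 1
    push_cast
    ring
  generalize u * ρ₁ * β = ρ₃ at p3 p4
  have x0 : -((B * x : ℕ) : ℤ) < 0 := by
    have := Nat.pos_of_ne_zero (mul_ne_zero sB.ne_zero sx.ne_zero)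
    omega
  obtain ⟨S, hS⟩ := exists_freps n1 g.neg ρ₁
  obtain ⟨S₃, hS₃⟩ := exists_freps n1 x0 ρ₃
  obtain ⟨s, hs, t1⟩ := k2 B ρ₁ ρ₃ S S₃ d g' h3 (by
    rw [Nat.cast_mul, ← neg_mul, jacobiSym.mul_left, hJ, jB', mul_one]) n3
    (by rwa [sub_neg_eq_add] at p1) p4 p3 hS hS₃
  have u : P.per.unif = D.par.per.unif := by
    have : ∀ (L : PeriodPair) (k : IsPer L (W.baseChange ℂ)), L = D.L → k.unif = D.per.unif := by
      rintro _ _ rfl
      rfl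
    exact this _ _ e1
  have pr : Prime (r : ℤ) := Nat.prime_iff_prime_int.1 hr
  have q0 : ¬ (r : ℤ) ∣ 2 * N := (Prime.coprime_iff_not_dvd pr).1 c2.symm
  have q1 : (r : ℤ) ∣ ρ₃ ^ 2 - -(B * x : ℕ) := by
    rw [sub_neg_eq_add]
    exact Dvd.dvd.trans ⟨4 * N, by push_cast; ring⟩ p4
  have q2 : ¬ (r : ℤ) ∣ ρ₃ := fun k => by
    have k1 := (dvd_pow k two_ne_zero).sub q1
    rw [sub_sub_cancel, dvd_neg, Int.natCast_dvd_natCast] at k1
    exact (Nat.Prime.coprime_iff_not_dvd hr).1 ((cr (d.trans dM)).mul_left (cr dx)).symm k1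
  have dB : (B : ℤ) ∣ -(B * x : ℕ) := ⟨-x, by push_cast; ring⟩
  have q3 := gkz_lq D.N0 hr q0 q2 q1 x0 sB oB g'.cop.coprime_mul_left dB hS₃ D.par.inv0
  obtain ⟨q4, q5⟩ := lq_points N r A B ρ ρ₁ T S g' hr (by rwa [sub_neg_eq_add] at p1) p2 hT hS _ _
    D.par.inv0
  obtain ⟨s', hs', t2⟩ := ot W N D B _ ρ₂ ρ₃ T₂ S₃ hN oN (pr_stmt W N D hN h).2 sB oB cB dB x0
    (by rwa [sub_neg_eq_add]) (by
      rw [sub_neg_eq_add]
      exact Dvd.dvd.trans ⟨r, by push_cast; ring⟩ p4) hT₂ (lq_freps pr q0 q2 q1 x0 (by simp) hS₃)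
  have y1 : yP P B S = 2 • yG D B T := by
    simp only [Par.φ, jB', one_smul] at q4 q5
    simp only [yP, Par.φ, u, e3, map_add, zsmul_add, sum_add_distrib, q4, q5, two_nsmul]
  have y2 : yP P B S₃ = 2 • yG D B S₃ := by
    simp only [Par.φ, jB', one_smul] at q3
    simp only [yP, Par.φ, u, e3, map_add, zsmul_add, sum_add_distrib, q3, two_nsmul]
  rw [y1, y2, smul_comm al, smul_comm (s * nu), ← smul_sub] at t1
  refine ⟨s * s', by rcases hs with rfl | rfl <;> rcases hs' with rfl | rfl <;> simp, ?_⟩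
  have t3 := (t1.of_nsmul two_ne_zero).add (t2.zsmul (i := s * nu))
  rwa [smul_sub, smul_smul, sub_add_sub_cancel, mul_right_comm] at t3

end Pool.Agent.G5
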