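import Pool.Agent.Lib.MP_696deb_nt.B5.MAa
import Pool.Agent.Lib.MP_696deb_nt.B5.CNf
import Pool.Agent.Lib.MP_696deb_nt.B5.Z3

/-! The counts of pairs of a point and a geodesic agree for a twisted and a split family. -/

set_option autoImplicit false

open Finset NumberTheorySymbols
open scoped Classical

namespace Pool.Agent.G5

open Pool.Agent.Lib.MP_696deb_nt Pool.Agent.B4.GE

/-- The involution at `p` on forms of level `p q`. -/
def fW (p q a b c d : ℤ) (R : Fm) : Fm :=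
  (R.1 * p * a ^ 2 + p * q * (R.2.1 * a * c + R.2.2 * q * c ^ 2),
    2 * R.1 * a * b + R.2.1 * (p * a * d + b * q * c) + 2 * (p * q) * R.2.2 * c * d,
    R.1 / p * b ^ 2 + R.2.1 * b * d + R.2.2 * p * d ^ 2)

/-- The entries of a matrix of Atkin and Lehner. -/
structure AW (N p : ℕ) (q a b c d : ℤ) : Prop where
  hp : p.Prime
  h2 : p ≠ 2
  lev : (N : ℤ) = p * q
  det : p * a * d - b * q * c = 1

variable {N p A B : ℕ} {q a b c d D e β β' γ γ' t : ℤ} {Q R : Fm} {T : Finset Fm}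

theorem exists_aw (hN : Squarefree N) (ho : Odd N) (hp : p.Prime) (h : p ∣ N) :
    ∃ a b c d, AW N p (N / p : ℕ) a b c d := by
  obtain ⟨q, rfl⟩ := h
  obtain ⟨u, v, k⟩ := Nat.isCoprime_iff_coprime.2 (Nat.coprime_of_squarefree_mul hN)
  rw [Nat.mul_div_cancel_left _ hp.pos]
  refine ⟨u, -v, 1, 1, hp, ?_, Nat.cast_mul _ _, by linear_combination k⟩
  rintro rfl
  exact Nat.not_even_iff_odd.2 ho (even_two_mul q)

namespace AW

theorem p0 (h : AW N p q a b c d) : (p : ℤ) ≠ 0 := Nat.cast_ne_zero.2 h.hp.ne_zero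

theorem adj (h : AW N p q a b c d) : AW N p q d (-b) (-c) a :=
  ⟨h.hp, h.h2, h.lev, by linear_combination h.det⟩

theorem eq (h : AW N p q a b c d) (a b c d α y x : ℤ) : fW p q a b c d (N * α, y, x) =
    (N * (α * p * a ^ 2 + y * a * c + x * q * c ^ 2),
      y * (p * a * d + b * q * c) + 2 * N * (α * a * b + x * c * d),
      q * α * b ^ 2 + y * b * d + x * p * d ^ 2) := by
  have : (N : ℤ) * α / p = q * α := by rw [h.lev, mul_assoc, Int.mul_ediv_cancel_left _ h.p0]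
  refine Prod.ext ?_ (Prod.ext ?_ ?_) <;> simp only [fW, this]
  all_goals simp only [h.lev]; ring

theorem dvd (h : AW N p q a b c d) (hR : (N : ℤ) ∣ R.1) : (N : ℤ) ∣ (fW p q a b c d R).1 := by
  obtain ⟨_, y, x⟩ := R
  obtain ⟨α, rfl⟩ := hR
  rw [h.eq]
  exact dvd_mul_right _ _

theorem smul (h : AW N p q a b c d) (hR : (N : ℤ) ∣ R.1) :
    (p : ℤ) • fW p q a b c d R = fmap R (p * a) b (N * c) (p * d) := by
  obtain ⟨_, y, x⟩ := R
  obtain ⟨α, rfl⟩ := hR
  rw [h.eq]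
  simp only [fmap, fval, Prod.smul_mk, smul_eq_mul, Prod.mk.injEq, h.lev]
  refine ⟨?_, ?_, ?_⟩ <;> ring

theorem inv (h : AW N p q a b c d) (hR : (N : ℤ) ∣ R.1) :
    fW p q d (-b) (-c) a (fW p q a b c d R) = R := by
  obtain ⟨_, y, x⟩ := R
  obtain ⟨α, rfl⟩ := hR
  rw [h.eq, h.eq]
  simp only [Prod.mk.injEq, h.lev]
  refine ⟨?_, ?_, ?_⟩
  · linear_combination p * q * α * (p * a * d - b * q * c + 1) * h.det
  · linear_combination y * (p * a * d - b * q * c + 1) * h.det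
  · linear_combination x * (p * a * d - b * q * c + 1) * h.det

theorem inv' (h : AW N p q a b c d) (hR : (N : ℤ) ∣ R.1) :
    fW p q a b c d (fW p q d (-b) (-c) a R) = R := by
  simpa using h.adj.inv hR

theorem bil (h : AW N p q a b c d) (hQ : (N : ℤ) ∣ Q.1) (hR : (N : ℤ) ∣ R.1) :
    fbil (fW p q a b c d Q) (fW p q a b c d R) = fbil Q R := by
  obtain ⟨_, y, x⟩ := Q
  obtain ⟨α, rfl⟩ := hQ
  obtain ⟨_, y', x'⟩ := R
  obtain ⟨α', rfl⟩ := hR
  rw [h.eq, h.eq]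
  simp only [fbil, h.lev]
  linear_combination (y * y' - 2 * (p * q * α) * x' - 2 * x * (p * q * α')) *
    (p * a * d - b * q * c + 1) * h.det

theorem disc (h : AW N p q a b c d) (hR : (N : ℤ) ∣ R.1) :
    fdisc (fW p q a b c d R) = fdisc R := by
  rw [← Ind.fbil_self, h.bil hR hR, Ind.fbil_self]

theorem ori (h : AW N p q a b c d) (k1 : (p : ℤ) ∣ β' + β) (k2 : 2 * q ∣ β' - β) :
    2 * (N : ℤ) ∣ β' - (p * a * d + b * q * c) * β := by
  obtain ⟨s, hs⟩ := k1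
  obtain ⟨r, hr⟩ := k2
  obtain ⟨k, hk⟩ := (IsCoprime.mul_right (Nat.isCoprime_iff_coprime.2
    ((Nat.coprime_primes h.hp Nat.prime_two).2 h.h2)) (z := q) ⟨a * d, -(b * c), by
      linear_combination h.det⟩).dvd_of_dvd_mul_left (z := β * b * c - r)
    ⟨2 * β * a * d - s, by push_cast; linear_combination hr - hs - 2 * β * h.det⟩
  refine ⟨-k, ?_⟩
  rw [h.lev]
  linear_combination hr - 2 * q * hk - β * h.det

theorem fam (h : AW N p q a b c d) (k1 : (p : ℤ) ∣ β' + β) (k2 : 2 * q ∣ β' - β)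
    (hR : Fam N e β R) : Fam N e β' (fW p q a b c d R) := by
  refine ⟨h.dvd hR.1, (h.disc hR.1).trans hR.2.1, ?_⟩
  obtain ⟨k, hk⟩ := h.ori k1 k2
  obtain ⟨_, y, x⟩ := R
  obtain ⟨⟨α, rfl⟩, -, l, hl⟩ := hR
  rw [h.eq]
  refine ⟨(p * a * d + b * q * c) * l + (α * a * b + x * c * d) - k, ?_⟩
  dsimp only at hl ⊢
  linear_combination (p * a * d + b * q * c) * hl - hk

theorem fam_iff (h : AW N p q a b c d) (k1 : (p : ℤ) ∣ β' + β) (k2 : 2 * q ∣ β' - β)
    (hR : (N : ℤ) ∣ R.1) : Fam N e β' (fW p q a b c d R) ↔ Fam N e β R :=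
  ⟨fun k => h.inv hR ▸ h.adj.fam (add_comm β β' ▸ k1) (dvd_sub_comm.1 k2) k, h.fam k1 k2⟩

theorem val (h : AW N p q a b c d) (hR : (N : ℤ) ∣ R.1) (x y : ℤ) :
    p * fval (fW p q a b c d R) x y = fval R (p * a * x + b * y) (N * c * x + p * d * y) := by
  obtain ⟨_, y, x⟩ := R
  obtain ⟨α, rfl⟩ := hR
  rw [h.eq]
  simp only [fval, h.lev]
  ring

theorem gch (h : AW N p q a b c d) (hA : Squarefree A) (ho : Odd A) (hc : A.Coprime N)
    (hR : (N : ℤ) ∣ R.1) (hd : (A : ℤ) ∣ fdisc R) :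
    gch A (fW p q a b c d R) = J(p | A) * gch A R := by
  rw [gch_eq, gch_eq, jac_eq_prod _ hA, ← prod_mul_distrib]
  refine prod_congr rfl fun l hl => ?_
  have l1 := Nat.prime_of_mem_primeFactors hl
  have l2 : ¬ (l : ℤ) ∣ p := fun k => l1.one_lt.ne' (Nat.eq_one_of_dvd_coprimes hc
    (Nat.dvd_of_mem_primeFactors hl) (Int.natCast_dvd_natCast.1 (h.lev ▸ k.mul_right q)))
  exact gl_of_vals l1 (prime_ne_two ho hl) (dvd_of_mem hd hl) (h.disc hR ▸ dvd_of_mem hd hl) l2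
    (fun x y => ⟨_, _, by rw [← h.adj.val (h.dvd hR), h.inv hR, sub_self]; exact dvd_zero _⟩)
    fun k x y => ((Nat.prime_iff_prime_int.1 l1).dvd_or_dvd (h.val hR x y ▸ k _ _)).resolve_left l2

theorem pos (h : AW N p q a b c d) (hD : fdisc Q < 0) (hQ : (N : ℤ) ∣ Q.1) (h0 : 0 < Q.1) :
    0 < (fW p q a b c d Q).1 := by
  have h1 := h.val hQ 1 0
  have h2 := four_mul_fval Q (p * a * 1 + b * 0) (N * c * 1 + p * d * 0)
  have h3 := h.disc hQ
  rw [← h1] at h2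
  generalize fW p q a b c d Q = R at h2 h3
  have h4 : R.1 ≠ 0 := fun k => by
    rw [← h3, fdisc, k] at hD
    nlinarith [sq_nonneg R.2.1]
  have h5 : 0 < 4 * Q.1 * p := by have := h.hp.pos; positivity
  refine lt_of_le_of_ne (nonneg_of_mul_nonneg_right (a := 4 * Q.1 * p) ?_ h5) h4.symm
  simp only [fval] at h2
  nlinarith [sq_nonneg (2 * Q.1 * (p * a * 1 + b * 0) + Q.2.1 * (N * c * 1 + p * d * 0)),
    mul_nonneg (sq_nonneg ((N : ℤ) * c * 1 + p * d * 0)) (neg_nonneg.2 hD.le)]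

theorem feq (h : AW N p q a b c d) (hQ : (N : ℤ) ∣ Q.1) (k : FEq N Q R) :
    FEq N (fW p q a b c d Q) (fW p q a b c d R) := by
  have hR : (N : ℤ) ∣ R.1 := (k.fam (β := Q.2.1) ⟨hQ, rfl, by simp⟩).1
  obtain ⟨x, y, z, u, k, rfl⟩ := k
  refine ⟨d * (p * a * x + N * c * y) - b * q * (p * a * z + c * u),
    d * (x * b + y * p * d) - b * (q * z * b + u * d),
    a * (p * z * a + u * c) - c * (x * a + y * q * c),
    a * (N * z * b + u * p * d) - q * c * (x * b + y * p * d), ?_,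
    smul_right_injective Fm h.p0 ?_⟩
  · rw [h.lev] at k ⊢
    linear_combination (p * a * d - b * q * c) ^ 2 * k + (p * a * d - b * q * c + 1) * h.det
  have h1 : ∀ (S : Fm) (x y z u : ℤ), (p : ℤ) • fmap S x y z u = fmap ((p : ℤ) • S) x y z u :=
    fun S x y z u => by
      simp only [fmap, fval, Prod.smul_mk, Prod.smul_fst, Prod.smul_snd, smul_eq_mul, Prod.mk.injEq]
      refine ⟨?_, ?_, ?_⟩ <;> ring
  dsimp only
  rw [h1, h.smul hR, h.smul hQ, fmap_fmap, fmap_fmap, h.lev]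
  congr 1
  · linear_combination -(x * (p * a) + y * (p * q * c)) * h.det
  · linear_combination -(x * b + y * (p * d)) * h.det
  · linear_combination -(p * q * z * (p * a) + u * (p * q * c)) * h.det
  · linear_combination -(p * q * z * b + u * (p * d)) * h.det

theorem freps (h : AW N p q a b c d) (k1 : (p : ℤ) ∣ β' + β) (k2 : 2 * q ∣ β' - β) (hD : D < 0)
    (hT : FReps N D β T) : FReps N D β' (T.image (fW p q a b c d)) := by
  refine ⟨forall_mem_image.mpr fun Q hQ => h.fam k1 k2 (hT.fam Q hQ), forall_mem_image.mpr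
    fun Q hQ => h.pos ((hT.fam Q hQ).2.1 ▸ hD) (hT.fam Q hQ).1 (hT.pos Q hQ), fun Q h1 h2 => ?_, ?_⟩
  · obtain ⟨R, hR, k⟩ := hT.ex _ (h.adj.fam (add_comm β β' ▸ k1) (dvd_sub_comm.1 k2) h1)
      (h.adj.pos (h1.2.1 ▸ hD) h1.1 h2)
    exact ⟨_, mem_image_of_mem _ hR, h.inv' h1.1 ▸ h.feq (hT.fam R hR).1 k⟩
  · simp only [forall_mem_image]
    intro Q hQ R hR k
    have := h.adj.feq (h.dvd (hT.fam Q hQ).1) k
    rw [h.inv (hT.fam Q hQ).1, h.inv (hT.fam R hR).1] at this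
    rw [hT.uniq Q hQ R hR this]

theorem finsum_eq (h : AW N p q a b c d) {V : Type*} [AddCommMonoid V] {f g : Fm → V}
    (h0 : ∀ R : Fm, ¬ (N : ℤ) ∣ R.1 → f R = g R)
    (h1 : ∀ R : Fm, (N : ℤ) ∣ R.1 → f (fW p q a b c d R) = g R) : ∑ᶠ R, f R = ∑ᶠ R, g R := by
  let φ : Fm ≃ Fm := ⟨fun R => if (N : ℤ) ∣ R.1 then fW p q a b c d R else R,
    fun R => if (N : ℤ) ∣ R.1 then fW p q d (-b) (-c) a R else R, fun R => by
      by_cases k : (N : ℤ) ∣ R.1
      · simp only [k, h.dvd k, if_true, h.inv k]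
      · simp only [k, if_false], fun R => by
      by_cases k : (N : ℤ) ∣ R.1
      · simp only [k, h.adj.dvd k, if_true, h.inv' k]
      · simp only [k, if_false]⟩
  rw [← finsum_comp_equiv φ]
  refine finsum_congr fun R => ?_
  change f (if _ then _ else _) = _
  split_ifs with k
  exacts [h1 R k, h0 R k]

theorem cnt (h : AW N p q a b c d) (k1 : (p : ℤ) ∣ γ' + γ) (k2 : 2 * q ∣ γ' - γ)
    (hT : FReps N D β T) (hn : Good N (A * B)) (he : (A : ℤ) ∣ e) (hD : (B : ℤ) ∣ D) :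
    cntP (T.image (fW p q a b c d)) (Lib.MP_696deb_nt.gch B) (wG N A e γ') t =
      J(p | A) * J(p | B) * cntP T (Lib.MP_696deb_nt.gch B) (wG N A e γ) t := by
  have ho := Nat.odd_mul.mp hn.oddn
  rw [cntP, cntP, sum_image fun Q hQ R hR k => by
    rw [← h.inv (hT.fam Q hQ).1, k, h.inv (hT.fam R hR).1], mul_sum]
  refine sum_congr rfl fun Q hQ => ?_
  have h1 := hT.fam Q hQ
  rw [h.gch hn.sqf.of_mul_right ho.2 hn.cop.coprime_mul_left h1.1 (h1.2.1 ▸ hD),
    mul_comm J(p | A), mul_assoc, mul_assoc, mul_left_comm J(p | A), mul_finsum _ J(p | A)]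
  refine congr_arg _ (congr_arg _ (h.finsum_eq (fun R k => by simp [wG, Fam, k]) fun R k => ?_))
  rw [h.bil h1.1 k, wG, wG, mul_ite, mul_ite, mul_zero]
  refine if_congr Iff.rfl ?_ rfl
  by_cases k3 : Fam N e γ R
  · rw [if_pos k3, if_pos (h.fam k1 k2 k3)]
    exact h.gch hn.sqf.of_mul_left ho.1 hn.cop.coprime_mul_right k (k3.2.1 ▸ he)
  · rw [if_neg k3, if_neg (mt (h.fam_iff k1 k2 k).1 k3)]

end AW

theorem cntP_lnA (hn : Good N (A * B)) {n : ℕ} {m : ℤ} (n1 : Squarefree n) (n3 : 3 < n)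
    (m0 : m ≠ 0) (h0 : D = -(n * m ^ 2)) (hD : (B : ℤ) ∣ D) (hT : FReps N D β T) {M : ℕ}
    (hM : 4 * N * (M : ℤ) = t ^ 2 - A ^ 2 * D) (h1 : 0 < M) :
    cntP T (gch B) (wG N A (A ^ 2) A) t = if 2 * (N : ℤ) ∣ t - A * β then
      J((N : ℤ) | A) * J((N : ℤ) | B) * CF N (A * B) A t M else 0 := by
  have ho := Nat.odd_mul.mp hn.oddn
  have A0 : 0 < A := ho.1.pos
  have N0 : (0 : ℤ) < N := by have := hn.l1; omega
  have hw := wt_wG (N := N) ho.1 (dvd_pow_self (A : ℤ) two_ne_zero) A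
  have := cnt_swap (sys_lines hn.l1 A0 hn.cop.coprime_mul_right hw.inv fun R => fam_of_wG)
    (hT.sys n1 n3 m0 h0 ho.2 hD) (fun L Q => if fbil L Q = t then (1 : ℤ) else 0)
    (fun L Q a b c d e => by rw [fbil_fmap e]) fun L hL _ => by
      obtain ⟨k, -, rfl⟩ := mem_image.mp hL
      refine (finite_line D (A := A) (by omega) k |t|).subset fun R ⟨h2, h3⟩ => ?_
      obtain ⟨h4, h5⟩ := ite_ne_right_iff.mp h2
      have h6 := (fam_of_wG h5).2.1
      have h7 := (ite_ne_right_iff.mp h3).1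
      refine ⟨h6, h4.ne', fun h8 => ?_, h7 ▸ le_rfl⟩
      have := fbil_line A k R
      rw [h8, h7, h6, mul_zero, ← hM] at this
      exact absurd this (by positivity)
  rw [sum_image fun k _ l _ h => by simpa using h] at this
  trans J(-1 | A) * ∑ k ∈ range A, J((k : ℤ) | A) * ∑ᶠ R : Fm, if fbil (0, A, -(k : ℤ)) R = t then
    wG N B D β R * (if 0 < R.1 / N then 1 else 0) else 0
  · rw [← CN.sum_Ico0 A fun k => J(k | A) * ∑ᶠ R : Fm, if fbil (0, A, -k) R = t then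
      wG N B D β R * (if 0 < R.1 / N then 1 else 0) else 0, mul_sum]
    refine Eq.trans (sum_congr rfl fun Q hQ => ?_) (this.symm.trans (sum_congr rfl fun k _ => ?_))
    · rw [mul_finsum]
      refine finsum_congr fun L => ?_
      rw [if_pos (hT.pos Q hQ), wG.eq_1 N B, if_pos (hT.fam Q hQ),
        show fbil L Q = fbil Q L by simp only [fbil]; ring]
      simp [mul_comm]
    · rw [← mul_assoc, mul_finsum, wG.eq_1 N A, if_pos ⟨by simp, by simp [fdisc], by simp⟩,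
        ← jacobiSym.mul_left, jac_eq_prod _ hn.sqf.of_mul_left]
      refine finsum_congr fun R => ?_
      by_cases h2 : (N : ℤ) ∣ R.1
      · have h3 : 0 < R.1 / N ↔ 0 < R.1 := by
          obtain ⟨α, k⟩ := h2
          rw [k, Int.mul_ediv_cancel_left _ N0.ne', mul_pos_iff_of_pos_left N0]
        simp [gch, h3, ← ite_and, and_comm]
      · simp [wG, Fam, h2]
  split_ifs with h
  swap
  · exact mul_eq_zero_of_right _ (sum_eq_zero fun k _ => mul_eq_zero_of_right _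
      (finsum_eq_zero_of_forall_eq_zero fun R => ite_eq_right_iff.mpr fun h3 => by
        rw [wG_eq_zero h h3, zero_mul]))
  have h2 := sum_lines (K := ℤ) hn hD hM (by omega) h fun a _ => if 0 < a then 1 else 0
  rw [Int.divisorsAntidiag_natCast, sum_disjUnion, sum_map, sum_map, ← sum_add_distrib,
    sum_congr rfl (g := fun x : ℕ × ℕ => muW N A B t x.1 x.2) fun x hx => by
      simp [Nat.pos_of_mem_divisors (Nat.fst_mem_divisors_of_mem_antidiagonal hx)],
    sum_muW hn ⟨D, by linarith⟩] at h2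
  simp only [Int.cast_id] at h2
  rw [h2, ← mul_assoc, ← mul_assoc, ← jacobiSym.mul_left, neg_mul_neg, one_mul]

theorem ma_stmt : MAStmt := by
  intro N p A B γ hn n3 hp hpN g1 g2
  obtain ⟨a, b, c, d, h⟩ := exists_aw hn.lsq hn.lodd hp hpN
  generalize ((N / p : ℕ) : ℤ) = q at h g2
  have ho := Nat.odd_mul.mp hn.oddn
  have A0 := ho.1.pos
  have B0 := ho.2.pos
  have h5 : J((N : ℤ) | A * B) ^ 2 = 1 := jacobiSym.sq_one hn.cop.symm
  have h6 : J((p : ℤ) | A * B) ^ 2 = 1 :=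
    jacobiSym.sq_one (hn.cop.coprime_dvd_right hpN).symm
  refine ⟨J((p : ℤ) | A * B) * J((N : ℤ) | A * B), mul_self_eq_one_iff.1
    (by linear_combination J((N : ℤ) | A * B) ^ 2 * h6 + h5), ?_⟩
  intro x ρ ρ₂ β t n m T T₂ n1 n4 m0 hx hρ hβ hT hT₂
  have hD : (0 : ℤ) < B * x := by rw [hx]; positivity
  by_cases h2 : 4 * (N : ℤ) ∣ t ^ 2 + A ^ 2 * (B * x)
  swap
  · have k : ∀ {D e ρ β : ℤ} {T : Finset Fm}, FReps N D ρ T → D * e = -(A ^ 2 * (B * x)) →
        cntP T (gch B) (wG N A e β) t = 0 := fun hT k => sum_eq_zero fun Q hQ =>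
      mul_eq_zero_of_right _ (finsum_eq_zero_of_forall_eq_zero fun R => ite_eq_right_iff.mpr
        fun h3 => if_neg fun h4 => h2 (by simpa [h3, k] using ((hT.fam Q hQ).fbil h4).2))
    rw [k hT (by push_cast; ring), k hT₂ (by ring), mul_zero]
  obtain ⟨M, hM⟩ := h2
  have h3 : 0 < t ^ 2 + A ^ 2 * (B * x) := by positivity
  have M0 : 0 < M := by
    rw [hM] at h3
    exact (pos_iff_pos_of_mul_pos h3).1 (by have := hn.l1; positivity)
  lift M to ℕ using M0.le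
  have k1 : (p : ℤ) ∣ (p * a * d + b * q * c) * ρ₂ + ρ₂ :=
    ⟨2 * a * d * ρ₂, by linear_combination -ρ₂ * h.det⟩
  have k2 : 2 * q ∣ (p * a * d + b * q * c) * ρ₂ - ρ₂ :=
    ⟨b * c * ρ₂, by linear_combination ρ₂ * h.det⟩
  have h4 := cntP_lnA hn n1 n4 (Nat.cast_ne_zero.2 m0) (congr_arg _ hx) (by simp)
    (h.freps k1 k2 (neg_neg_of_pos hD) hT₂) (t := t) (M := M) (by linarith) (by omega)
  rw [h.cnt (add_comm γ A ▸ g1) (dvd_sub_comm.1 g2) hT₂ hn (dvd_pow_self _ two_ne_zero) (by simp),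
    ← jacobiSym.mul_right' _ A0.ne' B0.ne', ← jacobiSym.mul_right' _ A0.ne' B0.ne', sq] at h4
  have h7 : cntP T (gch B) (wG N A (A * x) β) t = cntP T (gch A) (wG N A (A * x) β) t :=
    sum_congr rfl fun Q hQ => by
      rw [gch_swap hn.sqf hn.oddn (Or.inr ⟨(hT.fam Q hQ).2.1, hT.pos Q hQ⟩)]
  have h8 : 2 * (N : ℤ) ∣ ρ * β - A * ((p * a * d + b * q * c) * ρ₂) := by
    rw [show ρ * β - A * ((p * a * d + b * q * c) * ρ₂) =
      ρ * β - γ * ρ₂ + (γ - (p * a * d + b * q * c) * A) * ρ₂ by ring]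
    exact hβ.add ((h.ori g1 g2).mul_right ρ₂)
  rw [h7, CN.cntP_eq hn n3.ne' (dvd_mul_right _ _) hρ hT (dvd_mul_right _ _) (M := M) (by omega)
    (by push_cast; linarith), if_congr (Q := 2 * (N : ℤ) ∣ t - A * ((p * a * d + b * q * c) * ρ₂))
      ⟨fun k => by simpa using k.add h8, fun k => by simpa using k.sub h8⟩ rfl rfl]
  split_ifs at h4 ⊢
  · linear_combination -J((N : ℤ) | A * B) * h4 - CF N (A * B) A t M * h5
  · linear_combination -J((N : ℤ) | A * B) * h4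

end Pool.Agent.G5
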