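import Pool.Agent.Lib.MP_696deb_nt.B5.LAa
import Pool.Agent.Lib.MP_696deb_nt.B5.ZHb
import Pool.Agent.Lib.MP_696deb_nt.SymArith

/-! The Hecke recursion for twisted sums of values at the cusps. -/

set_option autoImplicit false

open Finset Filter Topology Complex NumberTheorySymbols
open scoped Classical

namespace Pool.Agent.G5.PD

open Pool.Agent.Lib.MP_696deb_nt Pool.Agent.B4.GE

variable {N A l m : ℕ} {F : ℂ → ℂ} {a : ℕ → ℤ} {M : ℤ} {t : HW} {b : ℕ →₀ ℤ}

/-- The twisted sum of the values at the cusps with denominator `A * m`. -/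
noncomputable def Lam (F : ℂ → ℂ) (A m : ℕ) : ℂ :=
  ∑ k ∈ range (A * m), (J((k : ℤ) | A) : ℂ) * Ld F k ((A * m : ℕ) : ℤ) 1

theorem Lam_one : Lam F A 1 = LA F A 1 := by rw [Lam, mul_one, LA]

theorem Ld_per (_hN : N ≠ 0) (hF : Ci N F) (hM : M ≠ 0) (k j : ℤ) :
    Ld F (k + M * j) M 1 = Ld F k M 1 := by
  obtain ⟨c, hc⟩ := hF.inv !![1, j; 0, 1] ⟨by simp, by simp⟩
  have h0 : (M : ℂ) ≠ 0 := Int.cast_ne_zero.mpr hM
  rw [← Ld_congr (G := fun z => F (z + j)) (c := c) (fun z hz => by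
    simpa [act, mob] using hc z hz) k M]
  simp only [Ld, deriv_comp_add_const]
  congr 3
  funext y
  congr 2
  push_cast
  field_simp
  ring

theorem Ld_hecke (hN : N ≠ 0) (hF : Ci N F) (hE : Eig N a F) (hl : l.Prime) (h : ¬ l ∣ N)
    (hM : M ≠ 0) (k : ℤ) :
    ∑ j ∈ range l, Ld F (k + M * j) (M * l) 1 = a l * Ld F k M 1 - Ld F (k * l) M 1 := by
  have key : ∀ {g : MZ}, 0 < g.det → ∀ {c : Option (Fin l) → ℂ} {d : ℂ},
      (∀ i, Tendsto (fun z => F (act (rP l i * g) z)) atI (𝓝 (c i))) →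
      Tendsto (fun z => F (act g z)) atI (𝓝 d) → ∑ i, c i = a l * d := fun hg _ _ h1 h2 =>
    haveI := atI_neBot
    tendsto_nhds_unique_of_eventuallyEq (tendsto_finsetSum _ fun i _ => h1 i) (h2.const_mul _)
      (ev_pos.mono fun z hz => by
        simp only [act_mul _ hg.ne' hz]
        rw [← Tf_apply, hE l hl h _ (act_pos hg hz), zsmul_eq_mul])
  have hg : 0 < (!![k, -M; M, k] : MZ).det := by
    rw [Matrix.det_fin_two_of]
    nlinarith [mul_self_nonneg k, mul_self_pos.mpr hM]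
  have h1 := key (g := 1) (by simp) (fun i => hF.tendsto_upper hN
    (by simpa using rP_det_pos hl i) (by rcases i with _ | i <;> simp [rP, ut]))
    (hF.tendsto_upper hN (by simp) (by simp))
  have h2 := key hg (fun i => hF.tendsto_act hN
    (by rw [Matrix.det_mul]; exact mul_pos (rP_det_pos hl i) hg)
    (by rcases i with _ | i <;> simp [rP, ut, hM, hl.ne_zero])) (hF.tendsto_act hN hg hM)
  rw [sum_add_distrib, h1, Fintype.sum_option] at h2
  rw [← Fin.sum_univ_eq_sum_range fun j => Ld F (k + M * j) (M * l) 1]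
  simp [rP, ut, mul_comm] at h2
  linear_combination h2

theorem sum_range_per {E : Type*} [AddCommMonoid E] (h : ℕ → E) (n l : ℕ) :
    ∑ k ∈ range (n * l), h k = ∑ k ∈ range n, ∑ j ∈ range l, h (k + n * j) := by
  induction l with
  | zero => simp
  | succ l ih =>
    rw [mul_add_one, sum_range_add, ih, ← sum_add_distrib]
    exact sum_congr rfl fun k _ => by rw [sum_range_succ, add_comm k]

theorem jac_per (A : ℕ) (k j : ℤ) : J(k + A * j | A) = J(k | A) :=
  jacobiSym.mod_left' (by simp)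

theorem Lam_rec (hN : N ≠ 0) (hF : Ci N F) (hE : Eig N a F) (hA : Squarefree A) (ho : Odd A)
    (hl : l.Prime) (h : ¬ l ∣ N) (hm : m ≠ 0) :
    Lam F A (l * m) + (if l ∣ m then l * Lam F A (m / l) else et A l * Lam F A m) =
      a l * Lam F A m := by
  have h0 : ∀ {n : ℕ}, n ≠ 0 → (n : ℤ) ≠ 0 := fun h => Nat.cast_ne_zero.mpr h
  have hM := mul_ne_zero hA.ne_zero hm
  have h1 : Lam F A (l * m) = a l * Lam F A m -
      ∑ k ∈ range (A * m), (J((k : ℤ) | A) : ℂ) * Ld F (k * l) ((A * m : ℕ) : ℤ) 1 := by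
    rw [Lam, Lam, mul_sum, ← sum_sub_distrib, mul_comm l, ← mul_assoc, sum_range_per]
    refine sum_congr rfl fun k _ => ?_
    rw [mul_left_comm, ← mul_sub, ← Ld_hecke hN hF hE hl h (h0 hM), mul_sum]
    refine sum_congr rfl fun j _ => ?_
    push_cast
    rw [mul_assoc (A : ℤ), jac_per]
  rw [h1, sub_add, sub_eq_self, sub_eq_zero]
  split_ifs with h2
  · obtain ⟨m, rfl⟩ := h2
    have h3 := mul_ne_zero hA.ne_zero (right_ne_zero_of_mul hm)
    rw [Nat.mul_div_cancel_left _ hl.pos, mul_comm l, ← mul_assoc, sum_range_per, Lam, mul_sum]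
    refine sum_congr rfl fun k _ => ?_
    rw [← nsmul_eq_mul, ← card_range l, ← sum_const, card_range]
    refine sum_congr rfl fun j _ => ?_
    rw [Nat.cast_mul (A * m), Ld_scale _ (h0 hl.ne_zero), Nat.cast_add, Nat.cast_mul,
      Ld_per hN hF (h0 h3), Nat.cast_mul, mul_assoc (A : ℤ), jac_per]
  by_cases h3 : l ∣ A
  · obtain ⟨A, rfl⟩ := h3
    have h4 : l.Coprime (A * m) := (Nat.coprime_of_squarefree_mul hA).mul_right
      (hl.coprime_iff_not_dvd.mpr h2)
    have h5 := mul_ne_zero (right_ne_zero_of_mul hA.ne_zero) hm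
    have := NeZero.mk hl.ne_zero
    have := NeZero.mk (right_ne_zero_of_mul hA.ne_zero)
    have h6 : et (l * A) l = 0 := by
      rw [et, jacobiSym.mul_right, jacobiSym.mod_left, Int.emod_self,
        jacobiSym.zero_left hl.one_lt, zero_mul]
    rw [h6, Int.cast_zero, zero_mul, mul_assoc, mul_comm l (A * m), sum_range_per]
    refine sum_eq_zero fun k _ => ?_
    have h7 := fpa_per (h := fun k : ℕ => J((k : ℤ) | l)) hl.ne_zero
      (fun k => by simpa using jac_per l k 1) (range l) (fun j => k + A * m * j) (card_range l)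
      fun s hs t ht e => Nat.ModEq.eq_of_lt_of_lt (Nat.ModEq.cancel_left_of_coprime h4
        (Nat.ModEq.add_left_cancel' _ e)) (mem_range.mp hs) (mem_range.mp ht)
    rw [sum_jac_eq_zero hl.squarefree (Odd.of_dvd_nat ho (dvd_mul_right _ _)) hl.one_lt] at h7
    rw [sum_congr rfl (g := fun j : ℕ => (J(((k + A * m * j : ℕ) : ℤ) | l) : ℂ) *
      (J((k : ℤ) | A) * Ld F k ((A * m : ℕ) : ℤ) 1)) fun j _ => ?_, ← sum_mul, ← Int.cast_sum, h7,
      Int.cast_zero, zero_mul]
    rw [Nat.cast_mul (A * m), Ld_scale _ (h0 hl.ne_zero), jacobiSym.mul_right, Nat.cast_add,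
      Nat.cast_mul, Ld_per hN hF (h0 h5), Int.cast_mul, mul_assoc]
    rw [Nat.cast_mul, mul_assoc (A : ℤ), jac_per]
  · have h4 : l.Coprime A := hl.coprime_iff_not_dvd.mpr h3
    have h5 : (J((l : ℤ) | A) : ℂ) ^ 2 = 1 := by
      exact_mod_cast jacobiSym.sq_one (a := l) (b := A) h4
    rw [Lam, ← fpa_per (h := fun k : ℕ => (J((k : ℤ) | A) : ℂ) * Ld F k ((A * m : ℕ) : ℤ) 1) hM
      (fun k => by
        have := Ld_per hN hF (h0 hM) k 1
        rw [mul_one] at this
        simp only [Nat.cast_add]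
        rw [this, Nat.cast_mul, jac_per]) (range (A * m)) (· * l) (card_range _)
      fun s hs t ht e => Nat.ModEq.eq_of_lt_of_lt (Nat.ModEq.cancel_right_of_coprime
        (h4.mul_right (hl.coprime_iff_not_dvd.mpr h2)).symm e) (mem_range.mp hs) (mem_range.mp ht),
      mul_sum]
    refine sum_congr rfl fun k _ => ?_
    rw [Nat.cast_mul k, jacobiSym.mul_left, et, Int.cast_mul]
    linear_combination (-J((k : ℤ) | A) * Ld F (k * l) ((A * m : ℕ) : ℤ) 1) * h5

theorem cmb_Lam (hN : N ≠ 0) (hF : Ci N F) (hE : Eig N a F) (hA : Squarefree A) (ho : Odd A)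
    (ht : t ∈ HA N) (hb : Sup N b) :
    cmb (Lam F A) (ha (et A) t b) = (he a t : ℂ) * cmb (Lam F A) b := by
  refine HA_ind (p := fun t => ∀ b, Sup N b →
    cmb (Lam F A) (ha (et A) t b) = (he a t : ℂ) * cmb (Lam F A) b) ht (fun l hl h b hb => ?_)
    (fun c b _ => ?_) (fun s t _ _ h1 h2 b hb => ?_) (fun s t _ ht h1 h2 b hb => ?_) b hb
  · rw [ha_tl, he_tl]
    refine hb.ind (p := fun b => cmb (Lam F A) (Ta (et A) l b) = (a l : ℂ) * cmb (Lam F A) b)
      (by simp) (fun m c hm _ => ?_) fun b b' h1 h2 => by rw [map_add, map_add, map_add, h1, h2, mul_add]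
    rw [Ta_single, map_zsmul, map_add, cmb_single, cmb_single, apply_ite (cmb (Lam F A)),
      cmb_single, cmb_single, one_smul, mul_smul_comm, ← Lam_rec hN hF hE hA ho hl h hm]
    simp
  · rw [ha_int, map_zsmul, AlgHom.commutes, zsmul_eq_mul]
    rfl
  · rw [ha_add, map_add, map_add, h1 b hb, h2 b hb, Int.cast_add, add_mul]
  · rw [ha_mul, map_mul, h1 _ (hb.ha ht), h2 b hb, Int.cast_mul, mul_assoc]

end Pool.Agent.G5.PD
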