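import Pool.Agent.Lib.MP_696deb_nt.B5.PDb
import Pool.Agent.Lib.MP_696deb_nt.B5.PDl
import Pool.Agent.Lib.MP_696deb_nt.B5.WPa
import Pool.Agent.Lib.MP_696deb_nt.B5.Z3

/-! The class of a split family does not vanish when the twisted period does not vanish. -/

set_option autoImplicit false

open Finset Matrix NumberTheorySymbols Filter Topology
open scoped Classical

namespace Pool.Agent.G5.PD

open Pool.Agent.Lib.MP_696deb_nt Pool.Agent.B4.GE

variable {N p A : ℕ} {n e k β β' : ℤ} {g h w : MZ} {Q R Q' R' : Fm} {v : Fin 2 → ℤ}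
  {C : (Fin 2 → ℤ) → ℂ} {F : ℂ → ℂ} {z : ℂ} {ι : Type} {r : ι → MZ}

/-- The involution on forms of any discriminant. -/
theorem al_form (h : ALm N p w) (hp : p.Prime) (h2 : p ≠ 2) (hN : p ∣ N) (k1 : (p : ℤ) ∣ β' + β)
    (k2 : 2 * ((N / p : ℕ) : ℤ) ∣ β' - β) (hQ : Fam N e β Q) : ∃ R, Fam N e β' R ∧
      fm R w = (p : ℤ) • Q ∧ ∀ B : ℕ, Squarefree B → Odd B → B.Coprime N → (B : ℤ) ∣ e →
        gch B R = J(p | B) * gch B Q := by
  obtain ⟨q, a, b, c, d, h1, e, rfl⟩ := h.shape hp.ne_zero hN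
  have p0 : (0 : ℤ) < p := by exact_mod_cast hp.pos
  rw [Int.natCast_div, h1, Int.mul_ediv_cancel_left _ p0.ne'] at k2
  obtain ⟨_, y, x⟩ := Q
  obtain ⟨⟨α, rfl⟩, h3, t, h4⟩ := hQ
  obtain ⟨R, hR⟩ : ∃ R : Fm, R = (N * (α * p * d ^ 2 - y * d * c + x * q * c ^ 2),
    y * (p * a * d + b * q * c) - 2 * N * (α * d * b + x * c * a),
    q * α * b ^ 2 - y * b * a + x * p * a ^ 2) := ⟨_, rfl⟩
  have v1 : ∀ s t, p * fval R s t =
      fval (N * α, y, x) (p * d * s - b * t) (p * a * t - p * q * c * s) := fun s t => by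
    simp only [hR, fval, h1]; ring
  have v2 : ∀ s t, fval R (p * a * s + b * t) (p * q * c * s + p * d * t) =
      p * fval (N * α, y, x) s t := fun s t => by
    simp only [hR, fval, h1]
    linear_combination p * (p * q * α * s ^ 2 + y * s * t + x * t ^ 2) *
      (p * a * d - b * q * c + 1) * e
  have hd : fdisc R = fdisc (N * α, y, x) := by
    simp only [hR, fdisc, h1]
    linear_combination (y ^ 2 - 4 * (p * q * α) * x) * (p * a * d - b * q * c + 1) * e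
  refine ⟨R, ⟨hR ▸ dvd_mul_right _ _, hd.trans h3, ?_⟩, ?_, fun B hB ho hc hBD => ?_⟩
  · obtain ⟨s, hs⟩ := k1
    obtain ⟨r, hr⟩ := k2
    obtain ⟨k, hk⟩ := (IsCoprime.mul_right (Nat.isCoprime_iff_coprime.2
      ((Nat.coprime_primes hp Nat.prime_two).2 h2)) (z := q) ⟨a * d, -(b * c), by
        linear_combination e⟩).dvd_of_dvd_mul_left (z := β * b * c - r)
      ⟨2 * β * a * d - s, by push_cast; linear_combination hr - hs - 2 * β * e⟩
    refine ⟨t * (p * a * d + b * q * c) - (α * d * b + x * c * a) + k, ?_⟩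
    simp only [hR, h1] at h4 ⊢
    linear_combination (p * a * d + b * q * c) * h4 + 2 * q * hk - hr + β * e
  · have a1 := v2 1 0
    have a2 := v2 0 1
    have a3 := v2 1 1
    simp only [fm, fmap, fval, of_apply, cons_val', cons_val_zero, cons_val_one, cons_val_fin_one,
      Prod.smul_mk, smul_eq_mul, Prod.mk.injEq] at a1 a2 a3 ⊢
    exact ⟨by linear_combination a1, by linear_combination a3 - a1 - a2, by linear_combination a2⟩
  · rw [gch_eq, gch_eq, jac_eq_prod _ hB, ← prod_mul_distrib]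
    refine prod_congr rfl fun l hl => ?_
    have l1 := Nat.prime_of_mem_primeFactors hl
    have l2 : ¬ (l : ℤ) ∣ p := fun k => l1.one_lt.ne' (Nat.eq_one_of_dvd_coprimes hc
      (Nat.dvd_of_mem_primeFactors hl) ((Int.natCast_dvd_natCast.1 k).trans hN))
    exact gl_of_vals l1 (prime_ne_two ho hl) (h3 ▸ dvd_of_mem hBD hl)
      ((hd.trans h3) ▸ dvd_of_mem hBD hl) l2
      (fun s t => ⟨_, _, by rw [v2, sub_self]; exact dvd_zero _⟩) fun k s t =>
      ((Nat.prime_iff_prime_int.1 l1).dvd_or_dvd (v1 s t ▸ k _ _)).resolve_left l2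

theorem fm_swap (hk : k ≠ 0) (e : g * h = k • 1) (h1 : fm R g = k • Q) : fm Q h = k • R :=
  smul_right_injective Fm hk (by
    simp only
    rw [← fm_smul, ← h1, ← fm_mul, e, fm_scal, sq, mul_smul])

theorem al_swap (h : ALm N p w) (hp : p ≠ 0) : (fm R w = (p : ℤ) • Q ↔
    fm Q w.adjugate = (p : ℤ) • R) :=
  ⟨fm_swap (Nat.cast_ne_zero.2 hp) (by rw [mul_adjugate, h.det]),
    fm_swap (Nat.cast_ne_zero.2 hp) (by rw [adjugate_mul, h.det])⟩

theorem al_inj (h : ALm N p w) (hp : p ≠ 0) (e : fm R w = fm R' w) : R = R' :=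
  smul_right_injective Fm (pow_ne_zero 2 (Nat.cast_ne_zero.2 hp : (p : ℤ) ≠ 0)) (by
    simp only
    rw [← fm_scal, ← fm_scal, ← h.det, ← mul_adjugate, fm_mul, fm_mul, e])

theorem al_feq (h : ALm N p w) (hp : p ≠ 0) (hN : p ∣ N) (h1 : fm R w = (p : ℤ) • Q)
    (h2 : fm R' w = (p : ℤ) • Q') (e : FEq N Q Q') : FEq N R R' := by
  obtain ⟨g, hg, rfl⟩ := feq_iff.1 e
  obtain ⟨g', g1, g2⟩ := h.norm hp hN hg
  exact feq_iff.2 ⟨g', g1, al_inj h hp (by rw [h2, ← fm_mul, ← g2, fm_mul, h1, fm_smul])⟩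

theorem fam_line (N : ℕ) (n c : ℤ) : Fam N (n ^ 2) n (0, n, c) :=
  ⟨dvd_zero _, by simp [fdisc], by simp⟩

theorem Xw_wG (g : MZ) : Xw (wG N A e β) g =
    ∑ᶠ R ∈ {R | Fam N e β R}, (dl (fm R g) : ℂ) * gch A R := by
  rw [finsum_mem_def]
  refine finsum_congr fun R => ?_
  by_cases k : Fam N e β R <;> simp [wG, k]

theorem gch_line (hA : Squarefree A) (n c : ℤ) : gch A (0, n, c) = J(c | A) := by
  rw [jac_eq_prod _ hA, gch]
  simp

/-- The two families give the same sum. -/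
theorem two [Fintype ι] (hr : Cs N r) (hC : Cu N C) (h : ALm N p w) (hp : p.Prime) (h2 : p ≠ 2)
    (hN : p ∣ N) (hA : Squarefree A) (ho : Odd A) (hc : A.Coprime N) (n0 : n ≠ 0)
    (hc' : IsCoprime (N : ℤ) n) (hd : (A : ℤ) ∣ n ^ 2) (k1 : (p : ℤ) ∣ β + n)
    (k2 : 2 * ((N / p : ℕ) : ℤ) ∣ β - n) {s : ℤ} {c : ℂ}
    (hs : ∀ v, v ≠ 0 → C (w *ᵥ v) = s * C v + c) {T : Finset ℕ} {ξ : ℕ → ℤ} (hT : Rs n T ξ) :
    ∑ i, (Xw (wG N A (n ^ 2) β) (r i) + s * Xw (wG N A (n ^ 2) β) (w * r i)) * sy C (r i) =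
      -8 * s * J(p | A) * n.sign * ∑ x ∈ T, J(ξ x | A) * De C n (0, n, ξ x) := by
  have p0 := hp.ne_zero
  choose! φ f1 f2 f3 using fun Q (hQ : Fam N (n ^ 2) n Q) => al_form h hp h2 hN k1 k2 hQ
  have sur : ∀ R, Fam N (n ^ 2) β R → ∃ Q, Fam N (n ^ 2) n Q ∧ φ Q = R := fun R hR => by
    obtain ⟨Q, a1, a2, -⟩ := al_form h.adj hp h2 hN (add_comm β n ▸ k1) (dvd_sub_comm.1 k2) hR
    exact ⟨Q, a1, al_inj h p0 ((f2 Q a1).trans ((al_swap h p0).2 a2).symm)⟩
  have s1 := sy_line n0 hc' hT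
  have s2 : Sy N T (fun x => φ (0, n, ξ x)) (Fam N (n ^ 2) β) := by
    refine ⟨fun R hR => ?_, fun x hx y hy e => s1.uniq x hx y hy ?_⟩
    · obtain ⟨Q, a1, rfl⟩ := sur R hR
      obtain ⟨x, hx, e⟩ := s1.ex Q a1
      exact ⟨x, hx, al_feq h p0 hN (f2 _ (fam_line N n _)) (f2 Q a1) e⟩
    · exact al_feq h.adj p0 hN ((al_swap h p0).1 (f2 _ (fam_line N n _)))
        ((al_swap h p0).1 (f2 _ (fam_line N n _))) e
  have x1 : ∀ i, Xw (wG N A (n ^ 2) β) (w * r i) = J(p | A) * Xw (wG N A (n ^ 2) n) (r i) := by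
    intro i
    rw [Xw_wG, Xw, mul_finsum' _ _ ((fi_dl n0).supp (hr.det i) fun R k =>
      (fam_of_wG (Int.cast_ne_zero.1 k)).2.1), ← finsum_mem_eq_of_bijOn
      (s := {R | Fam N (n ^ 2) n R}) (t := {R | Fam N (n ^ 2) β R}) (f := fun Q => (J(p | A) : ℂ) * (dl (fm Q (r i)) * gch A Q)) φ ⟨f1, fun Q a R b e =>
        smul_right_injective Fm (Nat.cast_ne_zero.2 p0 : (p : ℤ) ≠ 0)
          ((f2 Q a).symm.trans (e ▸ f2 R b)), sur⟩ fun Q a => ?_, finsum_mem_def]
    · refine finsum_congr fun R => ?_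
      by_cases k : Fam N (n ^ 2) n R <;> simp [wG, k]
    · rw [fm_mul, f2 Q a, fm_smul, dl_smul (by exact_mod_cast hp.pos), f3 Q a A hA ho hc hd]
      push_cast
      ring
  simp only [x1, add_mul, sum_add_distrib, mul_assoc, ← mul_sum]
  rw [core hr hC n0 (wt_wG ho hd β) s2 fun _ => fam_of_wG,
    core hr hC n0 (wt_wG ho hd n) s1 fun _ => fam_of_wG]
  rw [sum_congr rfl fun x _ => show (wG N A (n ^ 2) β (φ (0, n, ξ x)) : ℂ) *
      De C n (φ (0, n, ξ x)) = s * J(p | A) * (J(ξ x | A) * De C n (0, n, ξ x)) by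
    have a := fam_line N n (ξ x)
    rw [wG_of_fam (f1 _ a), f3 _ a A hA ho hc hd, gch_line hA, hC.De_map n0 (h.pos p0).ne'
      (h.det ▸ f2 _ a) a.2.1 hs]
    push_cast
    ring, ← mul_sum]
  simp only [wG_of_fam (fam_line N n _), gch_line hA]
  ring

/-- The values of an integral at the cusps. -/
noncomputable def Cv (F : ℂ → ℂ) (v : Fin 2 → ℤ) : ℂ :=
  if v 1 = 0 then cI F else cI F + Ld F (v 0) (v 1) 1

theorem tendsto_Cv (hF : Ci N F) (hN : N ≠ 0) (hg : 0 < g.det) :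
    Tendsto (fun z => F (act g z)) atI (𝓝 (Cv F (g *ᵥ e1))) := by
  simp only [Cv, mv0, mv1, e1, cons_val_zero, cons_val_one, mul_one, mul_zero, add_zero]
  split_ifs with k
  exacts [hF.tendsto_upper hN hg k, hF.tendsto_act hN hg k]

theorem Cv_map (hF : Ci N F) (hN : N ≠ 0) (hh : 0 < h.det) {s c : ℂ}
    (e : ∀ z : ℂ, 0 < z.im → F (act h z) = s * F z + c) (v : Fin 2 → ℤ) (hv : v ≠ 0) :
    Cv F (h *ᵥ v) = s * Cv F v + c := by
  have hg : 0 < det !![v 0, -v 1; v 1, v 0] := by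
    rw [det_fin_two_of]
    by_contra k
    exact hv (funext fun i => by fin_cases i <;> simp <;> nlinarith [sq_nonneg (v 0), sq_nonneg (v 1)])
  have e1 : !![v 0, -v 1; v 1, v 0] *ᵥ e1 = v := funext fun i => by fin_cases i <;> simp [PD.e1]
  have t1 := tendsto_Cv hF hN (g := h * !![v 0, -v 1; v 1, v 0]) (by rw [det_mul]; positivity)
  have t2 := ((tendsto_Cv hF hN hg).const_mul s).add_const c
  rw [← mulVec_mulVec, e1] at t1
  rw [e1] at t2
  have := atI_neBot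
  exact tendsto_nhds_unique (t1.congr' (ev_pos.mono fun z hz => by
    rw [act_mul _ hg.ne' hz, e _ (act_pos hg hz)])) t2

theorem cu_Cv (hF : Ci N F) (hN : N ≠ 0) : Cu N (Cv F) where
  hom v v' hv hv' e := by
    have key : ∀ v v' : Fin 2 → ℤ, v ≠ 0 → v 0 * v' 1 = v 1 * v' 0 → v 1 = 0 → v' 1 = 0 :=
      fun v v' hv e k => by
        rw [k, zero_mul, mul_eq_zero] at e
        exact e.resolve_left fun l => hv (funext fun i => by fin_cases i; exacts [l, k])
    by_cases k : v 1 = 0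
    · rw [Cv, Cv, if_pos k, if_pos (key v v' hv e k)]
    · have k' : v' 1 ≠ 0 := fun l => k (key v' v hv' (by linear_combination -e) l)
      rw [Cv, Cv, if_neg k, if_neg k', ← Ld_scale F k', ← Ld_scale F k (v' 0), e, mul_comm (v 1),
        mul_comm (v 1)]
  inv h hh := (hF.inv h hh).imp fun c hc v hv => by
    rw [Cv_map hF hN (hh.1 ▸ one_pos) (s := 1) (c := c) (by simpa using hc) v hv, one_mul]

theorem sum_De (hF : Ci N F) (hN : N ≠ 0) {m : ℕ} (M0 : ((A * m : ℕ) : ℤ) ≠ 0) {η : ℤ}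
    (η2 : η * η = 1) : ∑ x ∈ range (A * m), J(-η * x | A) *
      De (Cv F) (η * (A * m : ℕ)) (0, η * (A * m : ℕ), -η * x) = -J(-η | A) * Lam F A m := by
  have η0 : η ≠ 0 := left_ne_zero_of_mul_eq_one η2
  have n0 := mul_ne_zero η0 M0
  rw [Lam, mul_sum]
  refine sum_congr rfl fun x _ => ?_
  rw [De, (cu_Cv hF hN).rv (neg_ne_zero.2 n0) (rt_e1 _ _), (cu_Cv hF hN).rv n0 (rt_line n0 _),
    Cv, Cv, if_pos (show e1 1 = 0 from rfl), if_neg (by simpa using n0), ← Ld_scale F η0 x,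
    jacobiSym.mul_left]
  simp only [cons_val_zero, cons_val_one, neg_mul, neg_neg, mul_comm η]
  push_cast
  ring

theorem sign_act (hg : 0 < g.det) (R : Fm) : Real.sign (fside R (act g ro)) = sg (fm R g) := by
  have h0 : 0 < Complex.normSq (den g ro) := Complex.normSq_pos.2 (den_ne' hg.ne' ro_pos)
  have h1 : fside R (act g ro) = fside (fm R g) ro / Complex.normSq (den g ro) := by
    have h1 : Complex.normSq (den g ro) = (g 1 0 * ro.re + g 1 1) ^ 2 + (g 1 0 * ro.im) ^ 2 := by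
      simp [Complex.normSq_apply, sq, den]
    simp only [fside, act, mob, map_div₀, Complex.div_re, fm, fmap, fval, den] at h0 h1 ⊢
    generalize Complex.normSq ((g 1 0 : ℂ) * ro + g 1 1) = M at h0 h1
    simp only [Complex.normSq_apply, Complex.add_re, Complex.add_im, Complex.mul_re,
      Complex.mul_im, Complex.intCast_re, Complex.intCast_im]
    push_cast
    field_simp
    rw [h1]
    ring
  rw [h1, ← sign_ro]
  rcases lt_trichotomy (fside (fm R g) ro) 0 with k | k | k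
  · rw [Real.sign_of_neg k, Real.sign_of_neg (div_neg_of_neg_of_pos k h0)]
  · rw [k, zero_div]
  · rw [Real.sign_of_pos k, Real.sign_of_pos (div_pos k h0)]

theorem Iw_sub {u : Fm → ℤ} (hu : Wt N u e) (hne : ∀ R, u R ≠ 0 → R.1 ≠ 0) (hg : 0 < g.det) :
    ((Iw u (act g ro) : ℝ) : ℂ) - (Iw u (act (g * mS) ro) : ℝ) = -Xw u g / 2 := by
  have hg' : 0 < (g * mS).det := by rwa [det_mul, det_S, mul_one]
  rw [← Complex.ofReal_sub, Iw, Iw, ← sub_div, ← finsum_sub_distrib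
    (Iw_finite hu hne (act_pos hg ro_pos)) (Iw_finite hu hne (act_pos hg' ro_pos)),
    Complex.ofReal_div, Xw, ← finsum_neg_distrib]
  congr 1
  refine (Complex.ofRealHom.toAddMonoidHom.map_finsum_of_injective Complex.ofReal_injective
    _).trans (finsum_congr fun R => ?_)
  rw [sign_act hg, sign_act hg', dl, fm_mul]
  simp
  ring

theorem cmb_eval (Φ : ℕ → ℂ → ℝ) (b : ℕ →₀ ℤ) (z : ℂ) :
    ((cmb Φ b z : ℝ) : ℂ) = ∑ m ∈ b.support, (b m : ℂ) * (Φ m z : ℝ) := by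
  simp [Finsupp.linearCombination_apply, Finsupp.sum]

end PD

open Pool.Agent.Lib.MP_696deb_nt Pool.Agent.B4.GE PD in
theorem pd_stmt : PDStmt := by
  intro N p A β ε F F₂ G a t w s c c₂ κ κ₂ c₃ hN oN hp hpN hne hA oA hc hε k1 k2 hF hF₂ hE hw hs
    hal ht hI hG h0 hL hκ
  have N0 := hN.ne_zero
  have p0 := hp.ne_zero
  have p2 : p ≠ 2 := fun k => Nat.not_even_iff_odd.2 oN (even_iff_two_dvd.2 (k ▸ hpN))
  have ε2 : ε * ε = 1 := by rcases hε with rfl | rfl <;> rfl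
  have s2 : (s : ℝ) * s = 1 := by rcases hs with rfl | rfl <;> simp
  have hL' := cmb_Lam N0 hF hE hA oA ht (Sup.single one_ne_zero (Nat.coprime_one_left N) 1)
  have hb := (Sup.single one_ne_zero (Nat.coprime_one_left N) 1).ha (η := et A) ht
  rw [cmb_single, one_smul, Lam_one] at hL'
  generalize ha (et A) t (Finsupp.single 1 1) = b at hI hL' hb
  obtain ⟨ι, _, r, hr⟩ := exists_cs N0
  obtain ⟨Ψ, hΨ⟩ : ∃ Ψ, Ψ = cmb (fun m => Iw (Cw N A β m)) b := ⟨_, rfl⟩
  rw [← hΨ] at hI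
  have i1 : Inv0 N fun z => Ψ z + s * Ψ (act w z) := fun g hg z hz => by
    obtain ⟨g', g1, g2⟩ := hw.act_norm p0 hpN hg
    have z1 := act_pos (hg.1 ▸ one_pos) hz
    have z2 := act_pos (hw.pos p0) hz
    have a1 := hI g hg z hz
    have a2 := hI g' g1 _ z2
    simp only [← g2 z hz, hG _ hz, hG _ z1, hG _ z2, hG _ (act_pos (hw.pos p0) z1), hκ,
      (hal _ hz).2, (hal _ z1).2, zero_mul, zero_add, mul_add, Complex.add_re,
      mul_left_comm κ₂, neg_mul, mul_neg, Complex.neg_re, ← Complex.ofReal_intCast,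
      Complex.re_ofReal_mul] at a1 a2 ⊢
    linear_combination -a1 - s * a2 - ((κ₂ * F₂ (act g z)).re - (κ₂ * F₂ z).re) * s2
  have key := three hr (cu_Cv hF N0)
    (ψ := fun g => ((Ψ (act g ro) + s * Ψ (act w (act g ro)) : ℝ) : ℂ)) (fun h g hh hg => ?_)
    (fun g hg => ?_) fun g hg => ?_
  rotate_left
  · have := i1 h hh _ (act_pos (hg ▸ one_pos) ro_pos)
    simp only [act_mul h (by omega : g.det ≠ 0) ro_pos] at this ⊢
    rw [this]
  · rw [act_mul g (by decide) ro_pos, act_U_ro]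
  · rw [mul_assoc, show mS * mS = (-1 : ℤ) • 1 by decide, mul_smul_comm, mul_one,
      act_smul (by decide)]
  have step : ∀ m ∈ b.support, ∑ i, (Xw (Cw N A β m) (r i) + s * Xw (Cw N A β m) (w * r i)) *
      sy (Cv F) (r i) = 8 * s * J(p | A) * ε * J(-ε | A) * Lam F A m ∧ ∀ g : MZ, 0 < g.det →
      ((Iw (Cw N A β m) (act g ro) : ℝ) : ℂ) - (Iw (Cw N A β m) (act (g * mS) ro) : ℝ) =
        -Xw (Cw N A β m) g / 2 := fun m hm => by
    obtain ⟨m0, m1⟩ := hb m hm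
    have M0 : 0 < ((A * m : ℕ) : ℤ) := by
      exact_mod_cast Nat.pos_of_ne_zero (mul_ne_zero hA.ne_zero m0)
    have e : (A : ℤ) * (A * m ^ 2) = (ε * (A * m : ℕ)) ^ 2 := by
      push_cast
      linear_combination -(A * m) ^ 2 * ε2
    have c0 : IsCoprime (N : ℤ) (A * m : ℕ) := Nat.isCoprime_iff_coprime.2 (hc.mul_left m1).symm
    have l1 : (p : ℤ) ∣ β * m + ε * (A * m : ℕ) :=
      (k1.mul_right m).trans (dvd_of_eq (by push_cast; ring))
    have l2 : 2 * ((N / p : ℕ) : ℤ) ∣ β * m - ε * (A * m : ℕ) :=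
      (k2.mul_right m).trans (dvd_of_eq (by push_cast; ring))
    have c1 : IsCoprime (N : ℤ) (ε * (A * m : ℕ)) :=
      IsCoprime.mul_right ⟨0, ε, by linear_combination ε2⟩ c0
    rw [Cw, e]
    generalize hn : ε * ((A * m : ℕ) : ℤ) = n at e l1 l2 c1
    have hd : (A : ℤ) ∣ n ^ 2 := ⟨_, e.symm⟩
    refine ⟨?_, fun g hg => Iw_sub (wt_wG oA hd _) (fun R hR k => ?_) hg⟩
    · subst hn
      rw [two hr (cu_Cv hF N0) hw hp p2 hpN hA oA hc (mul_ne_zero (by omega) M0.ne') c1 hd l1 l2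
        (Cv_map hF N0 (hw.pos p0) fun z hz => (hal z hz).1)
        ((rs_range (Nat.cast_ne_zero.1 M0.ne')).mul (η := -ε) (by linear_combination ε2) ε2),
        sum_De hF N0 M0.ne' ε2, Int.sign_mul, Int.sign_eq_one_of_pos M0,
        show ε.sign = ε by rcases hε with rfl | rfl <;> rfl]
      push_cast
      ring
    · obtain ⟨-, h2, h3⟩ := fam_of_wG hR
      obtain ⟨q, rfl⟩ := hpN
      rw [Nat.mul_div_cancel_left _ hp.pos] at l2
      push_cast at h3 c1
      rcases sq_eq_sq_iff_eq_or_eq_neg.1 (show R.2.1 ^ 2 = n ^ 2 by simpa [fdisc, k] using h2) with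
        h4 | h4 <;> rw [h4] at h3
      · have h5 : (p : ℤ) ∣ 2 * n :=
          (l1.add (((dvd_mul_right (p : ℤ) q).mul_left 2).trans h3)).trans (dvd_of_eq (by ring))
        have h6 := c1.of_mul_left_left.dvd_of_dvd_mul_right h5
        exact p2 ((Nat.prime_dvd_prime_iff_eq hp Nat.prime_two).1 (by exact_mod_cast h6))
      · have h5 : 2 * (q : ℤ) ∣ 2 * -n :=
          (l2.add ((mul_dvd_mul_left 2 (dvd_mul_left (q : ℤ) p)).trans h3)).trans
            (dvd_of_eq (by ring))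
        have h6 := c1.of_mul_left_right.isUnit_of_dvd
          (dvd_neg.1 ((mul_dvd_mul_iff_left two_ne_zero).1 h5))
        rw [Int.isUnit_iff_natAbs_eq, Int.natAbs_natCast] at h6
        exact hne (by rw [h6, mul_one])
  have fin : ∑ m ∈ b.support, (b m : ℂ) * (8 * s * J(p | A) * ε * J(-ε | A) * Lam F A m) = 0 := by
    rw [sum_congr rfl fun m hm => by rw [← (step m hm).1, mul_sum], sum_comm, ← mul_zero (-2),
      ← key, mul_sum]
    refine sum_congr rfl fun i _ => ?_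
    have d := hr.det i
    have d' := det_mul1 d det_S
    simp only [Complex.ofReal_add, Complex.ofReal_mul, Complex.ofReal_intCast, hΨ, cmb_eval,
      ← act_mul w (by omega : (r i).det ≠ 0) ro_pos, ← mul_assoc w,
      ← act_mul w (by omega : (r i * mS).det ≠ 0) ro_pos, mul_sum, ← sum_add_distrib,
      ← sum_sub_distrib, sum_mul]
    refine sum_congr rfl fun m hm => ?_
    have a1 := (step m hm).2 (r i) (by omega)
    have a2 := (step m hm).2 (w * r i) (by rw [det_mul, d, mul_one]; exact hw.pos p0)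
    linear_combination 2 * b m * sy (Cv F) (r i) * (a1 + s * a2)
  simp only [mul_left_comm _ (8 * s * J(p | A) * ε * J(-ε | A) : ℂ), ← mul_sum] at fin
  rw [Finsupp.linearCombination_apply, Finsupp.sum] at hL'
  simp only [zsmul_eq_mul] at hL'
  rw [hL'] at fin
  have j1 : J(p | A) ≠ 0 := jacobiSym.ne_zero (by simpa using (hc.coprime_dvd_right hpN).symm)
  have j2 : J(-ε | A) ≠ 0 := jacobiSym.ne_zero (by rcases hε with rfl | rfl <;> simp)
  have j3 : s ≠ 0 := by omega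
  have j4 : ε ≠ 0 := by omega
  simp [j1, j2, j3, j4, h0, hL] at fin

end Pool.Agent.G5
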