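import Pool.Agent.Lib.MP_696deb_nt.B5.GKc
import Pool.Agent.Lib.MP_696deb_nt.B5.MAb
import Pool.Agent.Lib.MP_696deb_nt.B5.PDc
import Pool.Agent.Lib.MP_696deb_nt.B5.GKz
import Pool.Agent.Lib.MP_696deb_nt.B5.ORa

/-! The relation between special points of different fields. -/

set_option autoImplicit false

open Finset NumberTheorySymbols
open scoped ComplexConjugate

namespace Pool.Agent.G5

open Pool.Agent.Lib.MP_696deb_nt Pool.Agent.B4.GE Pool.Agent.G5.GL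

variable {N A B x p l m : ℕ} {β γ ρ : ℤ} {R : Fm}

theorem gk_ne (hA : Squarefree A) (hx : Squarefree x) (h : A ≠ x) (h0 : m ≠ 0)
    (hR : fdisc R = A * x * m ^ 2) : R.1 ≠ 0 := fun k => by
  rw [fdisc, k] at hR
  refine h (AD.sqf_eq hx hA (x := A * m) (y := R.2.1.natAbs) (mul_ne_zero hA.ne_zero h0) ?_).symm
  zify
  rw [sq_abs]
  linear_combination -A * hR

theorem gk_ne' (hN : Odd N) (hp : p.Prime) (hd : p ∣ N) (hne : N ≠ p) (hA : A.Coprime N)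
    (h1 : (p : ℤ) ∣ γ + A) (h2 : 2 * ((N / p : ℕ) : ℤ) ∣ γ - A) (hm : m.Coprime N)
    (hR : Fam N (A * A * m ^ 2) (γ * m) R) : R.1 ≠ 0 := fun k => by
  have h3 : R.2.1 ^ 2 = (A * m) ^ 2 := by
    have := hR.2.1
    rw [fdisc, k] at this
    linear_combination this
  have h4 : (N : ℤ) ∣ R.2.1 - γ * m := (dvd_mul_left _ _).trans hR.2.2
  have h5 : ∀ q : ℕ, q ∣ N → (q : ℤ) ∣ 2 * (A * m) → q = 1 := fun q hq j =>
    Nat.eq_one_of_dvd_coprimes (Nat.Coprime.mul_left hA hm) (by exact_mod_cast hw_half hq hN j) hq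
  rcases sq_eq_sq_iff_eq_or_eq_neg.1 h3 with e | e <;> rw [e] at h4
  · refine hp.one_lt.ne' (h5 p hd ?_)
    exact (((Int.natCast_dvd_natCast.2 hd).trans h4).add (h1.mul_right m)).trans (dvd_of_eq (by ring))
  · have h6 := Nat.div_dvd_of_dvd hd
    have h7 := h5 _ h6 ((((Int.natCast_dvd_natCast.2 h6).trans h4).add
      (((dvd_mul_left _ _).trans h2).mul_right m)).neg_right.trans (dvd_of_eq (by ring)))
    exact hne (by rw [← Nat.mul_div_cancel' hd, h7, mul_one])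

theorem gk_eta (h4 : A * B % 4 = 3) (hl : l.Prime) (h2 : l ≠ 2) (hA : ¬ l ∣ A) (hB : ¬ l ∣ B)
    (x : ℤ) : J((l : ℤ) | A) * J(A * x | l) = J((l : ℤ) | B) * J(-(B * x) | l) := by
  have A0 : A ≠ 0 := by rintro rfl; simp at hA
  have B0 : B ≠ 0 := by rintro rfl; simp at hB
  have h1 := jac_neg_swap h4 (hl.odd_of_ne_two h2)
  have h3 : J((l : ℤ) | A) ^ 2 = 1 := jacobiSym.sq_one (by
    rw [Int.gcd_natCast_natCast]; exact (Nat.Prime.coprime_iff_not_dvd hl).2 hA)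
  have h5 := jac_sq hl (k := -B) (by rwa [dvd_neg, Int.natCast_dvd_natCast])
  rw [jacobiSym.mul_right' _ A0 B0, Nat.cast_mul, ← mul_neg, jacobiSym.mul_left] at h1
  rw [← neg_mul, jacobiSym.mul_left, jacobiSym.mul_left]
  linear_combination J(x | l) * (J((l : ℤ) | A) * J(-B | l) * h1 -
    J((l : ℤ) | A) * J(A | l) * h5 + J((l : ℤ) | B) * J(-B | l) * h3)

theorem gk_cop {n : ℕ} (hn : n.Coprime N) (h : 4 * (N : ℤ) ∣ ρ ^ 2 + n) : IsCoprime (N : ℤ) ρ := by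
  obtain ⟨k, hk⟩ := h
  obtain ⟨a, b, e⟩ := Nat.isCoprime_iff_coprime.2 hn
  exact ⟨b + 4 * k * a, -(a * ρ), by linear_combination e - a * hk⟩

theorem gk_stmt : GKStmt := by
  intro W N p P F₂ A x M β γ hN oN hp hd hne cp hc ht0 hal hA oA cA hx ox cx hAx M0 g1 g2
  obtain ⟨w, s, c, c₂, hw, hs, hF⟩ := cp.al
  have sg : Sg N p P.F F₂ w s c c₂ := ⟨hw, hp.ne_zero, hd, hs, hF⟩
  have A0 := oA.pos
  have x0 := ox.pos
  have K0 : 2 * A * x * M ≠ 0 := by positivity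
  obtain ⟨t₀, t1, t2, t3⟩ := cp.prj _ K0
  set K := N * (2 * A * x * M) with hK
  have NK : N ∣ K := dvd_mul_right _ _
  obtain ⟨l, l1, hl⟩ := Nat.exists_infinite_primes (K + 1)
  have lK : ¬ l ∣ K := fun k => by
    have := Nat.le_of_dvd (Nat.pos_of_ne_zero (mul_ne_zero P.N0 K0)) k
    omega
  have lN : ¬ l ∣ N := fun k => lK (k.trans NK)
  have pr : ∀ q : ℕ, q.Prime → ¬ q ∣ K → q ≠ 2 ∧ ¬ q ∣ A ∧ ¬ q ∣ x ∧ ¬ q ∣ M := fun q _ k =>
    ⟨fun j => k ⟨N * A * x * M, by rw [j, hK]; ring⟩, fun j => k (j.trans ⟨N * 2 * x * M, by rw [hK]; ring⟩),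
      fun j => k (j.trans ⟨N * 2 * A * M, by rw [hK]; ring⟩),
      fun j => k (j.trans ⟨N * 2 * A * x, by rw [hK]; ring⟩)⟩
  have nd : ∀ {q a b : ℕ}, q.Prime → ¬ q ∣ a → ¬ q ∣ b → ¬ (q : ℤ) ∣ a * b := fun hq h1 h2 k =>
    (hq.dvd_mul.1 (by exact_mod_cast k)).elim h1 h2
  have oγ : Odd γ := by
    obtain ⟨k, hk⟩ := (dvd_mul_right _ _).trans g2
    have := Int.odd_coe_nat A |>.2 oA
    rw [Int.odd_iff] at this ⊢
    omega
  have fV : Fg N K A (A * A) γ (et A) := fg_of hA oA (dvd_mul_right _ _) NK (by positivity)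
    (by rw [← sq]; exact hw_four oγ (Int.odd_coe_nat A |>.2 oA))
    (fun q hq k => ⟨(pr q hq k).1, nd hq (pr q hq k).2.1 (pr q hq k).2.1, by
      rw [← sq, jacobiSym.pow_left, jac_sq hq (by exact_mod_cast (pr q hq k).2.1), mul_one, et]⟩)
    fun m _ hm R => gk_ne' oN hp hd hne cA g1 g2 hm
  have gx : Gw N (wG N A (A * x) β) (A * x) := ⟨wt_wG oA (dvd_mul_right _ _) β, by positivity,
    fun R hR => gk_ne hA hx hAx one_ne_zero (by simpa using (fam_of_wG hR).2.1)⟩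
  obtain ⟨Gx, κx, κx₂, cx₃, kx⟩ := exists_kc hN hl lN (HA_mono NK t1) t3 gx
  obtain ⟨GV, κV, κV₂, cV₃, kV⟩ := exists_kc hN hl lN (HA_mono NK t1) t3 fV.one
  have ht : t₀ * (tl l - algebraMap ℤ HW (l + 1)) ∈ HA K :=
    mul_mem t1 (sub_mem (tl_mem hl lK) (Subalgebra.algebraMap_mem _ _))
  have he0 : he P.a (t₀ * (tl l - algebraMap ℤ HW (l + 1))) ≠ 0 := by
    rw [map_mul, map_sub, he_tl, AlgHom.commutes]
    exact mul_ne_zero t2 (sub_ne_zero.2 (hal l hl lN))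
  generalize t₀ * (tl l - algebraMap ℤ HW (l + 1)) = t at kx kV ht he0
  have hε : -J(-1 | A) = 1 ∨ -J(-1 | A) = -1 := by
    rw [jac_m1 oA]
    split_ifs <;> simp
  obtain ⟨ω, ω0, ω1, ω2, ω3⟩ := exists_om P hε
  obtain ⟨al, hbl⟩ := ω3 κx fun g hg z hz => kx.per sg hg hz
  obtain ⟨nu, hnu⟩ := ω3 κV fun g hg z hz => kV.per sg hg hz
  refine ⟨al, nu, fun hL k => ?_, fun B ρ ρ₂ T T₂ BM hn h3 hB n3 r1 r2 r3 hT hT₂ => ?_⟩
  · have h1 := pd_stmt N p A γ 1 P.F F₂ GV P.a t w s c c₂ κV κV₂ cV₃ hN oN hp hd hne hA oA cA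
      (.inl rfl) (by rwa [one_mul]) (by rwa [one_mul]) (par_ci P) cp.ci (par_eig P) hw hs hF
      (HA_mono NK ht) (fun g hg z hz => by
        have := kV.inv g hg z hz
        dsimp only at this ⊢
        rw [fV.hf_eq ht hz, fV.hf_eq ht (act_pos (hg.1 ▸ one_pos) hz)] at this
        simpa only [Cw, mul_assoc] using this) kV.eq he0 hL
    have h2 := kV.conj sg P.N0 (par_ci P) (par_ne P) (fun z => par_conj P) hc fun z => fV.cj hA ht
    have h4 := re_line hε h2 ω1 κV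
    have h5 : conj (κV * ω) = κV * ω := by
      rw [map_mul, h2, ω1]
      rcases hε with j | j <;> rw [j] <;> simp
    rw [k, Int.cast_zero, mul_eq_zero_iff_left four_ne_zero] at hnu
    exact mul_ne_zero h1 ω0 (by rw [← Complex.conj_eq_iff_re.1 h5, hnu, Complex.ofReal_zero])
  have oB := hn.odd.of_dvd_nat (dvd_mul_left B A)
  have B0 := oB.pos
  have cB := hn.cop.coprime_mul_left
  have n4 := hn.mod4
  have hJ : J(-1 | B) = -J(-1 | A) := by
    have := jacobiSym.mul_right' (-1) A0.ne' B0.ne'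
    rw [jac_m1 hn.odd, if_neg (by omega)] at this
    rcases hε with j | j <;> rw [neg_eq_iff_eq_neg] at j <;> rw [j] at this ⊢ <;> omega
  have sd : ∀ {n : ℕ} {r : ℤ}, 0 < n → B ∣ n → n.Coprime N → 4 * (N : ℤ) ∣ r ^ 2 + n →
      Sd N B (-n) r := fun h1 h2 h3 h4 => ⟨hn.l1, by omega, hn.sqf.of_mul_right, oB, cB,
    dvd_neg.2 (Int.natCast_dvd_natCast.2 h2), hB, gk_cop h3 h4⟩
  have o4 : ∀ {n : ℕ} {r : ℤ}, Odd n → 4 * (N : ℤ) ∣ r ^ 2 + n → Odd r ∧ n % 4 = 3 :=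
    fun {n r} h1 h2 => by
      have h4 := (dvd_mul_right _ _).trans h2
      rw [Nat.odd_iff] at h1
      rcases Int.even_or_odd r with ⟨k, rfl⟩ | ⟨k, rfl⟩
      · rw [show (k + k) ^ 2 = 4 * k ^ 2 by ring] at h4
        omega
      · rw [show (2 * k + 1) ^ 2 = 4 * (k ^ 2 + k) + 1 by ring] at h4
        exact ⟨⟨k, rfl⟩, by omega⟩
  obtain ⟨oρ₂, x4⟩ := o4 (oB.mul ox) r2
  have oβ : Odd β := by
    have h1 := Int.even_sub.1 (even_iff_two_dvd.2 ((dvd_mul_right _ _).trans r3))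
    rw [← Int.not_odd_iff_even, ← Int.not_odd_iff_even, not_iff_not] at h1
    exact (Int.odd_mul.1 (h1.2 (oγ.mul oρ₂))).2
  have b4 : 4 ∣ β ^ 2 - A * x := by
    have h1 : A * x % 4 = 1 := by
      rw [Nat.mul_mod] at n4 x4 ⊢
      have := Nat.mod_lt A four_pos
      have := Nat.mod_lt B four_pos
      have := Nat.mod_lt x four_pos
      generalize A % 4 = a at *
      generalize B % 4 = b at *
      generalize x % 4 = y at *
      interval_cases a <;> interval_cases b <;> interval_cases y <;> omega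
    have h2 := hw_four oβ odd_one
    rw [← Nat.cast_mul]
    omega
  have fx : Fg N K A (A * x) β fun q => J((q : ℤ) | A) * J(A * x | q) :=
    fg_of hA oA (dvd_mul_right _ _) NK (by positivity) b4
      (fun q hq k => ⟨(pr q hq k).1, nd hq (pr q hq k).2.1 (pr q hq k).2.2.1, rfl⟩)
      fun m m0 _ R hR => gk_ne hA hx hAx m0 hR.2.1
  obtain ⟨n, g, ng, hsq⟩ := Nat.sq_mul_squarefree (B * x)
  have g0 : g ≠ 0 := by
    rintro rfl
    omega
  have n0 : 3 < n := by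
    have h1 : n ≠ 3 := fun k => n3 g (by rw [← ng, k, mul_comm])
    rw [← ng] at x4
    obtain ⟨k, rfl⟩ : Odd g := by
      by_contra h
      obtain ⟨k, rfl⟩ := Nat.not_odd_iff_even.1 h
      rw [show (k + k) ^ 2 * n = 4 * (k ^ 2 * n) by ring] at x4
      omega
    rw [show (2 * k + 1) ^ 2 * n = 4 * ((k ^ 2 + k) * n) + n by ring] at x4
    omega
  have ng' : (B * x : ℤ) = n * g ^ 2 := by exact_mod_cast ng.symm.trans (mul_comm _ _)
  obtain ⟨σ, hσ, ma⟩ := ma_stmt N p A B γ hn h3 hp hd g1 g2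
  have sq : ∀ {v r : ℤ} {k : ℕ}, 4 * (N : ℤ) ∣ v ^ 2 - 1 → 4 * (N : ℤ) ∣ r ^ 2 + k →
      4 * (N : ℤ) ∣ (v * r) ^ 2 + k := fun {v r k} h1 h2 =>
    ((h1.mul_right (r ^ 2)).add h2).trans (dvd_of_eq (by ring))
  have d1 := fun {v : ℤ} (hv : 4 * (N : ℤ) ∣ v ^ 2 - 1) =>
    sd (by omega) (dvd_mul_left B A) hn.cop (sq hv r1)
  have d2 := fun {v : ℤ} (hv : 4 * (N : ℤ) ∣ v ^ 2 - 1) =>
    sd (by omega) (dvd_mul_right B x) (cB.mul_left cx) (sq hv r2)
  have key : ∀ (v : ℤ) (X X' Y Y' : Finset Fm), 4 * (N : ℤ) ∣ v ^ 2 - 1 →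
      FReps N (-(A * B : ℕ)) (v * ρ) X → FReps N (-(A * B : ℕ)) (-(v * ρ)) X' →
      FReps N (-(B * x : ℕ)) (v * ρ₂) Y → FReps N (-(B * x : ℕ)) (-(v * ρ₂)) Y' →
      zz N B (-(A * B : ℕ)) (v * ρ) X X' (fun z => (Gx z).re - hf ℝ t (Iw (wG N A (A * x) β)) z) =
      σ * zz N B (-(B * x : ℕ)) (v * ρ₂) Y Y' fun z =>
        (GV z).re - hf ℝ t (Iw (wG N A (A * A) γ)) z := fun v X X' Y Y' hv =>
    gk_rel fx fV NK ht kx.ci kV.ci kx.inv kV.inv (d1 hv) (d2 hv) hsq n0 g0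
      (by rw [Nat.cast_mul, ng']) (by push_cast; ring)
      (hg_N hn.sqf.of_mul_right oB (d2 hv).dvd NK (d2 hv).neg
        (by simpa using (dvd_mul_right _ _).trans (sq hv r2)) fun q hq k => by
          obtain ⟨k1, k2, k3, k4⟩ := pr q hq k
          have k5 : ¬ q ∣ B := fun j => k4 (j.trans BM)
          rw [Nat.cast_mul, dvd_neg]
          exact ⟨k1, nd hq k5 k3, gk_eta n4 hq k1 k2 k5 x⟩)
      fun m j U U' m0 hj hU hU' i => by
        rw [mul_assoc]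
        refine ma (x * m ^ 2) _ (j * (v * ρ₂ * m)) _ i n (g * m) U U' hsq n0 (mul_ne_zero g0 m0)
          (by push_cast; linear_combination m ^ 2 * ng') (sq ?_ (sq hv r1))
          ((r3.mul_left (j * v * m)).trans (dvd_of_eq (by ring))) hU (by
            convert hU' using 1
            push_cast
            ring)
        rcases hj with rfl | rfl <;> simp
  have p2 : p ≠ 2 := by
    rintro rfl
    exact Nat.not_even_iff_odd.2 oN (even_iff_two_dvd.2 hd)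
  obtain ⟨q, rfl⟩ := hd
  obtain ⟨a, b, ab⟩ := Nat.isCoprime_iff_coprime.2 (show p.Coprime (2 * q) from
    Nat.Coprime.mul_right ((Nat.coprime_primes hp Nat.prime_two).2 p2)
      (Nat.coprime_of_squarefree_mul hN))
  have u1 : (p : ℤ) ∣ 2 * a * p - 1 + 1 := ⟨2 * a, by ring⟩
  have u2 : 2 * ((p * q / p : ℕ) : ℤ) ∣ 2 * a * p - 1 - 1 := by
    rw [Nat.mul_div_cancel_left _ hp.pos]
    exact ⟨-2 * b, by push_cast at ab; linear_combination 2 * ab⟩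
  have u3 : 4 * ((p * q : ℕ) : ℤ) ∣ (2 * a * p - 1) ^ 2 - 1 :=
    ⟨-2 * a * b, by push_cast at ab ⊢; linear_combination 4 * a * p * ab⟩
  generalize 2 * a * (p : ℤ) - 1 = u at u1 u2 u3
  have e1 := d1 (v := 1) (by simp)
  have e2 := d2 (v := 1) (by simp)
  have E1 := key 1 T (T.image cj) T₂ (T₂.image cj) (by simp)
  simp only [one_mul] at e1 e2 E1
  obtain ⟨X, hX⟩ := exists_freps P.N0 e1.neg (u * ρ)
  obtain ⟨Y, hY⟩ := exists_freps P.N0 e2.neg (u * ρ₂)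
  have E2 := key u _ _ _ _ u3 hX hX.cj.1 hY hY.cj.1
  rw [e1.flip (d1 u3) hw hp p2 sg.dvd u1 u2 hT hT.cj.1 hX hX.cj.1 kx.inv,
    e2.flip (d2 u3) hw hp p2 sg.dvd u1 u2 hT₂ hT₂.cj.1 hY hY.cj.1 kV.inv, mul_smul_comm] at E2
  replace E2 := smul_right_injective ℝ (jacobiSym.ne_zero (a := p) (b := B) (by
    rw [Int.gcd_natCast_natCast]; exact (cB.coprime_dvd_right sg.dvd).symm)) E2
  obtain ⟨j1, k1⟩ := kx.zz_plus sg e1 hT hT.cj.1
  obtain ⟨j2, k2⟩ := kV.zz_plus sg e2 hT₂ hT₂.cj.1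
  have c1 := re_line hε ω1 (hJ ▸ e1.conj hT fun z => par_conj P) κx
  have c2 := re_line hε ω1 (hJ ▸ e2.conj hT₂ fun z => par_conj P) κV
  obtain ⟨i1, q1⟩ := e1.unif P hT hT.cj.1
  obtain ⟨i2, q2⟩ := e2.unif P hT₂ hT₂.cj.1
  rw [E1 hT hT.cj.1 hT₂ hT₂.cj.1, E2] at k1
  generalize zz (p * q) B (-(A * B : ℕ)) ρ T (T.image cj) P.F = Z₁ at *
  generalize zz (p * q) B (-(B * x : ℕ)) ρ₂ T₂ (T₂.image cj) P.F = Z₂ at *
  have h1 : (4 * (κx * Z₁).re - σ * (4 * (κV * Z₂).re) : ℝ) = (σ * j2 - j1 : ℤ) := by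
    push_cast
    linear_combination σ * k2 - k1
  have h2 : al • Z₁ - (σ * nu) • Z₂ = (σ * j2 - j1) • ω := by
    have h4 := congrArg (fun r : ℝ => (r : ℂ)) h1
    have h5 := congrArg (fun r : ℝ => (r : ℂ)) hbl
    have h6 := congrArg (fun r : ℝ => (r : ℂ)) hnu
    simp only [zsmul_eq_mul]
    push_cast at h4 h5 h6 ⊢
    linear_combination ω * h4 - Z₁ * h5 + σ * Z₂ * h6 - 4 * c1 + 4 * σ * c2
  have h4 := P.per.unif_eq_zero_iff.2 (h2 ▸ zsmul_mem ω2 _)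
  rw [map_sub, map_zsmul, map_zsmul, q1, q2] at h4
  refine ⟨σ, hσ, IsOfFinAddOrder.of_nsmul (n := 2) ?_ two_ne_zero⟩
  convert ht0.zsmul (i := σ * nu * i2 - al * i1) using 1
  rw [← sub_eq_zero, ← h4]
  module

/-- The relation of Gross, Kohnen and Zagier at the level of the newform. -/
theorem gk6_stmt : GK6Stmt := gk6 gk_stmt or_stmt

end Pool.Agent.G5
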