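import Pool.Agent.Lib.MP_696deb_nt.B5.Z1
import Pool.Agent.Lib.MP_696deb_nt.AnLine

/-! Weighted families of geodesics of arbitrary level: the counting function. -/

set_option autoImplicit false

open Filter Topology Set MeasureTheory UpperHalfPlane Metric
open scoped Real MatrixGroups

namespace Pool.Agent.G5.GL

open Pool.Agent.Lib.MP_696deb_nt

/-- Weighted families of geodesics that avoid the cusp at infinity. -/
structure Gw (N : ℕ) (w : Fm → ℤ) (e : ℤ) : Prop extends Wt N w e where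
  pos : 0 < e
  ne : ∀ R, w R ≠ 0 → R.1 ≠ 0

variable {N : ℕ} {a b c d e : ℤ} {z : ℂ} {w : Fm → ℤ}

lemma Gw.Iw_finite (hw : Gw N w e) (hz : 0 < z.im) :
    (Function.support fun R : Fm =>
      (w R : ℝ) * (Real.sign R.1 - Real.sign (fside R z))).Finite := by
  refine (finite_above e |z.re| hz).subset fun R hR => ?_
  have h1 : w R ≠ 0 := by exact_mod_cast left_ne_zero_of_mul hR
  exact ⟨hw.disc R h1, hw.ne R h1, z, le_rfl, le_rfl, sub_ne_zero.1 (right_ne_zero_of_mul hR)⟩

theorem Gw.measurable_Iw (hw : Gw N w e) : Measurable fun z : ℍ => Iw w z := by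
  refine Measurable.div_const ?_ 2
  refine measurable_of_tendsto_metrizable' (atTop : Filter (Finset Fm))
    (f := fun s (z : ℍ) =>
      ∑ R ∈ s, (w R : ℝ) * (Real.sign R.1 - Real.sign (fside R z))) (fun s => ?_) ?_
  · exact Finset.measurable_fun_sum s fun R _ =>
      measurable_const.mul (measurable_const.sub (measurable_side R))
  · rw [tendsto_pi_nhds]
    intro z
    have hf := hw.Iw_finite z.im_pos
    refine tendsto_const_nhds.congr' ?_
    filter_upwards [eventually_ge_atTop hf.toFinset] with s hs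
    exact finsum_eq_sum_of_support_subset _ fun R hR => hs (hf.mem_toFinset.2 hR)

theorem Gw.Iw_bdd (hw : Gw N w e) (C : ℝ) {δ : ℝ} (hδ : 0 < δ) :
    ∃ B : ℝ, ∀ z : ℂ, |z.re| ≤ C → δ ≤ z.im → |Iw w z| ≤ B :=
  ⟨_, fun z h1 h2 => Iw_le (finite_above e C hδ) fun R h3 h4 =>
    ⟨hw.disc R h3, hw.ne R h3, z, h1, h2, h4⟩⟩

theorem Gw.locInt (hw : Gw N w e) : LocallyIntegrable (fun z : ℍ => Iw w z) volume := fun z => by
  obtain ⟨B, hB⟩ := hw.Iw_bdd (|z.re| + 1) (half_pos z.im_pos)
  have h1 : ∀ᶠ v in 𝓝 z, |v.re| ≤ |z.re| + 1 :=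
    (continuous_re.abs.tendsto z).eventually (eventually_le_nhds (lt_add_one _))
  have h2 : ∀ᶠ v in 𝓝 z, z.im / 2 ≤ v.im :=
    (continuous_im.tendsto z).eventually (eventually_ge_nhds (half_lt_self z.im_pos))
  obtain ⟨r, hr, h3⟩ := Metric.eventually_nhds_iff_ball.mp (h1.and h2)
  exact ⟨ball z r, ball_mem_nhds z hr, Measure.integrableOn_of_bounded measure_ball_lt_top.ne
    hw.measurable_Iw.aestronglyMeasurable (M := B) (ae_restrict_of_forall_mem measurableSet_ball
      fun v hv => hB v (h3 v hv).1 (h3 v hv).2)⟩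

/-- Finitely many geodesics separate infinity from a cusp at which no geodesic ends. -/
lemma Gw.finite_cross (hw : Gw N w e) {x y : ℤ} :
    {R : Fm | w R ≠ 0 ∧ R.1 * fval R x y < 0}.Finite := by
  rcases eq_or_ne y 0 with rfl | hy
  · refine Set.finite_empty.subset ?_
    rintro R ⟨-, h⟩
    simp only [fval] at h
    nlinarith [mul_nonneg (sq_nonneg R.1) (sq_nonneg x)]
  refine (finite_line e hy x (y ^ 2 * e)).subset ?_
  rintro R ⟨h1, h2⟩
  have h3 := fbil_line y x R
  rw [hw.disc R h1] at h3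
  refine ⟨hw.disc R h1, left_ne_zero_of_mul h2.ne, right_ne_zero_of_mul h2.ne, ?_⟩
  have h4 := Int.le_self_sq |fbil (0, y, -x) R|
  rw [sq_abs] at h4
  linarith

lemma Gw.thw_finite (hw : Gw N w e) {x y : ℤ} (h : ∀ R, w R ≠ 0 → fval R x y ≠ 0) :
    (Function.support fun R : Fm => w R * (R.1.sign - (fval R x y).sign)).Finite :=
  hw.finite_cross.subset (thw_support hw.ne h)

lemma Gw.fmap (hw : Gw N w e) (h : a * d - b * (N * c) = 1) (R : Fm) :
    w (fmap R a b (N * c) d) = w R := hw.inv _ _ ⟨a, b, c, d, h, rfl⟩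

lemma Gw.col_ne (hw : Gw N w e) (h : a * d - b * (N * c) = 1) :
    ∀ R, w R ≠ 0 → fval R a (N * c) ≠ 0 := fun R hR =>
  hw.ne (Lib.MP_696deb_nt.fmap R a b (N * c) d) (by rwa [hw.fmap h])

/-- The cocycle relation. -/
lemma Gw.thw_add (hw : Gw N w e) (h : a * d - b * (N * c) = 1)
    {x y : ℤ} (hxy : ∀ R, w R ≠ 0 → fval R x y ≠ 0) :
    thw w (a * x + b * y) (N * c * x + d * y) = thw w a (N * c) + thw w x y := by
  have h1 := hw.thw_finite (hw.col_ne h)
  have h2 := (hw.thw_finite hxy).preimage (fequiv h).injective.injOn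
  rw [thw, thw, thw, ← finsum_comp_equiv (fequiv h)
    (f := fun R : Fm => w R * (R.1.sign - (fval R x y).sign)), ← finsum_add_distrib h1 h2]
  refine finsum_congr fun R => ?_
  change _ = _ + w (Lib.MP_696deb_nt.fmap R a b (N * c) d) *
    ((fval R a (N * c)).sign - (fval (Lib.MP_696deb_nt.fmap R a b (N * c) d) x y).sign)
  rw [hw.fmap h, fval_fmap]
  ring

lemma sign_side_mob (h : a * d - b * c = 1) (hz : 0 < z.im) (R : Fm) :
    Real.sign (fside R (mob a b c d z)) = Real.sign (fside (fmap R a b c d) z) := by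
  have h0 : 0 < Complex.normSq ((c : ℂ) * z + d) :=
    Complex.normSq_pos.2 (den_ne (a := a) (b := b) (by omega) hz)
  rw [fside_mob h hz]
  rcases eq_or_ne (fside (fmap R a b c d) z) 0 with ht | ht
  · simp [ht]
  · refine sign_eq_of_mul_pos ?_
    rw [div_mul_eq_mul_div]
    exact div_pos (mul_self_pos.2 ht) h0

lemma Gw.Iw_mob (hw : Gw N w e) (h : a * d - b * (N * c) = 1) (hz : 0 < z.im) :
    Iw w (mob a b (N * c) d z) = thw w a (N * c) / 2 + Iw w z := by
  have h1 := hw.thw_finite (hw.col_ne h)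
  have h1' : (Function.support fun R : Fm =>
      ((w R * (R.1.sign - (fval R a (N * c)).sign) : ℤ) : ℝ)).Finite :=
    h1.subset fun R hR => Int.cast_ne_zero.1 hR
  have h2 := (hw.Iw_finite hz).preimage (fequiv h).injective.injOn
  have h3 : (thw w a (N * c) : ℝ) =
      ∑ᶠ R : Fm, ((w R * (R.1.sign - (fval R a (N * c)).sign) : ℤ) : ℝ) :=
    (Int.castRingHom ℝ).toAddMonoidHom.map_finsum h1
  rw [Iw, Iw, ← add_div, h3, ← finsum_comp_equiv (fequiv h)
    (f := fun R : Fm => (w R : ℝ) * (Real.sign R.1 - Real.sign (fside R z))),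
    ← finsum_add_distrib h1' h2]
  congr 1
  refine finsum_congr fun R => ?_
  change _ = _ + (w (Lib.MP_696deb_nt.fmap R a b (N * c) d) : ℝ) *
    (Real.sign (fval R a (N * c)) - Real.sign (fside (Lib.MP_696deb_nt.fmap R a b (N * c) d) z))
  rw [hw.fmap h, sign_side_mob h hz, Real.sign_intCast, Real.sign_intCast]
  push_cast
  ring

/-- The counting function is bounded near every cusp. -/
theorem Gw.Iw_cusp (hw : Gw N w e) (h : a * d - b * c = 1) :
    ∃ C : ℝ, ∀ z : ℂ, |z.re| ≤ 1 → 1 ≤ z.im → |Iw w (mob a b c d z)| ≤ C := by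
  have hI : 0 < Complex.I.im := by simp
  have f1 := hw.Iw_finite (im_mob_pos (a := a) (b := b) (c := c) (d := d) (by omega) hI)
  have f2 := (finite_above e 1 one_pos).preimage (fequiv h).injective.injOn
  have f3 := ((Set.finite_singleton (0 : ℤ)).prod ((Set.finite_Icc (-e) e).prod
    (Set.finite_Icc (-e) e))).preimage (fequiv h).injective.injOn
  refine ⟨_, fun z h2 h6 => Iw_le ((f1.union f2).union f3) fun R h4 h5 => ?_⟩
  by_cases h7 : Real.sign R.1 = Real.sign (fside R (mob a b c d Complex.I))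
  swap
  · exact Or.inl (Or.inl (mul_ne_zero (by exact_mod_cast h4) (sub_ne_zero.2 h7)))
  rw [h7, sign_side_mob h hI, sign_side_mob h (show 0 < z.im by linarith)] at h5
  have h8 : fdisc (Lib.MP_696deb_nt.fmap R a b c d) = e := by rw [fdisc_fmap h, hw.disc R h4]
  by_cases h9 : (Lib.MP_696deb_nt.fmap R a b c d).1 = 0
  · refine Or.inr ?_
    change Lib.MP_696deb_nt.fmap R a b c d ∈ ({0} : Set ℤ) ×ˢ (Set.Icc (-e) e ×ˢ Set.Icc (-e) e)
    generalize Lib.MP_696deb_nt.fmap R a b c d = P at h5 h8 h9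
    obtain ⟨p, q, r⟩ := P
    simp only at h9
    subst h9
    simp only [fdisc, mul_zero, zero_mul, sub_zero] at h8
    simp only [fside, Int.cast_zero, zero_mul, zero_add, Complex.I_re, mul_zero] at h5
    have h10 : (r : ℝ) * (q * z.re + r) ≤ 0 := not_lt.1 fun h => h5 (sign_eq_of_mul_pos h)
    have h11 : |q| ≤ e := by
      have := Int.le_self_sq |q|
      rwa [sq_abs, h8] at this
    have h12 : |(r : ℝ)| ≤ |(q : ℝ)| := by
      by_contra! h13
      have h14 : |(r : ℝ) * (q * z.re)| ≤ |(r : ℝ)| * |(q : ℝ)| := by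
        rw [abs_mul, abs_mul]
        exact mul_le_mul_of_nonneg_left (mul_le_of_le_one_right (abs_nonneg _) h2) (abs_nonneg _)
      nlinarith [neg_abs_le ((r : ℝ) * (q * z.re)), abs_mul_abs_self (r : ℝ), abs_nonneg (q : ℝ)]
    have h15 : |r| ≤ |q| := by exact_mod_cast h12
    exact ⟨rfl, abs_le.1 h11, abs_le.1 (h15.trans h11)⟩
  · refine Or.inl (Or.inr ⟨h8, h9, ?_⟩)
    change ∃ z : ℂ, |z.re| ≤ 1 ∧ 1 ≤ z.im ∧ Real.sign (Lib.MP_696deb_nt.fmap R a b c d).1 ≠
      Real.sign (fside (Lib.MP_696deb_nt.fmap R a b c d) z)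
    by_cases h10 : Real.sign (Lib.MP_696deb_nt.fmap R a b c d).1 =
      Real.sign (fside (Lib.MP_696deb_nt.fmap R a b c d) Complex.I)
    · exact ⟨z, h2, h6, h10 ▸ h5⟩
    · exact ⟨Complex.I, by simp, by simp, h10⟩

/-- On a vertical line only the crossing geodesics count. -/
theorem Gw.Iw_line (hw : Gw N w e) {A : ℤ} (hA : 0 < A) (k : ℤ)
    (hk : ∀ R, w R ≠ 0 → fval R k A ≠ 0) : ∃ s : Finset Fm,
    (∀ R, R ∈ s ↔ w R ≠ 0 ∧ R.1 * fval R k A < 0) ∧ ∀ y : ℝ, 0 < y →
      Iw w (k / A + y * Complex.I) = ∑ R ∈ s, (w R * R.1.sign : ℝ) *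
        (1 - Real.sign (y ^ 2 - |(fval R k A : ℝ)| / (|(R.1 : ℝ)| * A ^ 2))) / 2 := by
  have hf := hw.finite_cross (x := k) (y := A)
  have hA' : (0 : ℝ) < A := by exact_mod_cast hA
  refine ⟨hf.toFinset, fun R => hf.mem_toFinset, fun y hy => ?_⟩
  rw [Iw, finsum_eq_sum_of_support_subset (s := hf.toFinset) _ fun R hR => ?_, Finset.sum_div]
  · refine Finset.sum_congr rfl fun R hR => ?_
    obtain ⟨h1, h2⟩ := hf.mem_toFinset.1 hR
    have h3 : (R.1 : ℝ) * fval R k A < 0 := by exact_mod_cast h2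
    have h4 : fside R (k / A + y * Complex.I) =
        R.1 * (y ^ 2 - |(fval R k A : ℝ)| / (|(R.1 : ℝ)| * A ^ 2)) := by
      rw [fside_line hA.ne']
      rcases mul_neg_iff.1 h3 with h | h
      · rw [abs_of_pos h.1, abs_of_neg h.2]
        have := h.1.ne'
        field_simp
        ring
      · rw [abs_of_neg h.1, abs_of_pos h.2]
        have := h.1.ne
        field_simp
        ring
    rw [h4, rsign_mul, Real.sign_intCast]
    ring
  · have h1 : w R ≠ 0 := by exact_mod_cast left_ne_zero_of_mul hR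
    refine hf.mem_toFinset.2 ⟨h1, lt_of_le_of_ne (not_lt.1 fun h2 => ?_)
      (mul_ne_zero (hw.ne R h1) (hk R h1))⟩
    refine right_ne_zero_of_mul hR (sub_eq_zero.2 (sign_eq_of_mul_pos ?_))
    have h3 : (0 : ℝ) < R.1 * fval R k A := by exact_mod_cast h2
    rw [fside_line hA.ne', mul_add, ← mul_div_assoc, ← mul_assoc]
    exact add_pos_of_nonneg_of_pos (mul_nonneg (mul_self_nonneg _) (sq_nonneg _)) (by positivity)

/-- The crossing number of a family of lines. -/
theorem Gw.cross (hw : Gw N w e) {A : ℤ} {S : Finset ℤ} (χ : ℤ → ℤ)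
    (hS : ∀ k ∈ S, ∀ R, w R ≠ 0 → fval R k A ≠ 0) :
    2 * (∑ᶠ t : ℤ, if t ^ 2 < A ^ 2 * e then cntL A S χ w t else 0) =
      ∑ k ∈ S, χ k * thw w k A := by
  classical
  set T : Finset ℤ := (Finset.Icc (-(A ^ 2 * e)) (A ^ 2 * e)).filter fun t => t ^ 2 < A ^ 2 * e
    with hT
  have hTm : ∀ t, t ∈ T ↔ t ^ 2 < A ^ 2 * e := fun t => by
    rw [hT, Finset.mem_filter, Finset.mem_Icc, and_iff_right_iff_imp, ← abs_le]
    intro h
    have := Int.le_self_sq |t|
    rw [sq_abs] at this
    linarith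
  have h1 : ∀ k ∈ S, 2 * ∑ t ∈ T, ∑ᶠ R : Fm,
      (if fbil (0, A, -k) R = t then w R * R.1.sign else 0) = thw w k A := by
    intro k hk
    have hf := hw.finite_cross (x := k) (y := A)
    have h2 : ∀ R, w R ≠ 0 → (fbil (0, A, -k) R ∈ T ↔ R.1 * fval R k A < 0) := fun R hR => by
      have := fbil_line A k R
      rw [hw.disc R hR] at this
      rw [hTm]
      constructor <;> intro h <;> linarith
    rw [thw, finsum_eq_sum_of_support_subset (s := hf.toFinset) _
      (by rw [hf.coe_toFinset]; exact thw_support hw.ne (hS k hk)),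
      Finset.sum_congr rfl (g := fun t => ∑ R ∈ hf.toFinset,
        if fbil (0, A, -k) R = t then w R * R.1.sign else 0) fun t ht => ?_, Finset.sum_comm,
      Finset.mul_sum]
    · refine Finset.sum_congr rfl fun R hR => ?_
      obtain ⟨h3, h4⟩ := hf.mem_toFinset.1 hR
      rw [Finset.sum_ite_eq, if_pos ((h2 R h3).2 h4), isign_of_mul_neg h4]
      ring
    · refine finsum_eq_sum_of_support_subset _ fun R hR => ?_
      have h3 : fbil (0, A, -k) R = t := by by_contra h'; exact hR (if_neg h')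
      have h4 : w R ≠ 0 := by
        intro h'
        apply hR
        simp [h']
      exact hf.mem_toFinset.2 ⟨h4, (h2 R h4).1 (h3 ▸ ht)⟩
  rw [finsum_eq_sum_of_support_subset (s := T) _ fun t ht => by
    rw [Finset.mem_coe, hTm]; by_contra h'; exact ht (if_neg h'),
    Finset.sum_congr rfl (g := fun t => cntL A S χ w t) fun t ht => if_pos ((hTm t).1 ht)]
  simp only [cntL]
  rw [Finset.sum_comm, Finset.mul_sum]
  refine Finset.sum_congr rfl fun k hk => ?_
  rw [← Finset.mul_sum, ← h1 k hk]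
  ring

theorem Gw.summable_side (hw : Gw N w e) (hz : 0 < z.im) {ε : ℝ} (hε : 0 < ε) {s : ℝ}
    (hs : 0 < s) : Summable fun R => |(w R : ℝ)| * (1 + |fside R z / s|) ^ (-1 - ε) := by
  obtain ⟨B, hB⟩ := hw.bdd
  refine ((Lib.MP_696deb_nt.summable_side e hz hε).mul_left
    (B * (1 + s) ^ (1 + ε))).of_nonneg_of_le (fun R => by positivity) fun R => ?_
  by_cases h : w R = 0
  · have : (0 : ℝ) ≤ B := by exact_mod_cast (abs_nonneg _).trans (hB R)
    simp only [h, Int.cast_zero, abs_zero, zero_mul]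
    split_ifs <;> positivity
  rw [if_pos ⟨hw.disc R h, hw.ne R h⟩, mul_assoc]
  refine mul_le_mul (by exact_mod_cast hB R) ?_ (by positivity)
    (by exact_mod_cast (abs_nonneg _).trans (hB R))
  have := rpow_le_of_le (K := 1 + s) (u := 1 + |fside R z|) (v := 1 + |fside R z / s|)
    (s := -1 - ε) (by positivity) (by positivity) (by positivity) (by
      rw [abs_div, abs_of_pos hs, add_mul, one_mul, mul_add, mul_div_cancel₀ _ hs.ne']
      linarith [div_nonneg (abs_nonneg (fside R z)) hs.le]) (by linarith)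
  rwa [show -(-1 - ε) = 1 + ε by ring] at this

theorem Gw.hasSum_Iw (hw : Gw N w e) (z : ℍ) :
    HasSum (fun R => (w R : ℝ) * (Real.sign R.1 - Real.sign (fside R z)) / 2) (Iw w z) := by
  have h := hw.Iw_finite z.im_pos
  rw [Iw, ← tsum_eq_finsum (L := .unconditional _) h]
  exact (summable_of_hasFiniteSupport h).hasSum.div_const 2

/-- The defect of the counting function against its average. -/
noncomputable def Df (w : Fm → ℤ) (ε : ℝ) (z : ℍ) : ℝ := ∫ v : ℍ, akr ε z v * (Iw w v - Iw w z)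

theorem Gw.hasSum_Df (hw : Gw N w e) {ε : ℝ} (hε : 0 < ε) (z : ℍ) :
    Integrable (fun v : ℍ => akr ε z v * (Iw w v - Iw w z)) ∧
    HasSum (fun R => (w R : ℝ) * kerE ε (fside R z / z.im / √(e : ℝ))) (Df w ε z) := by
  have he : 0 < √(e : ℝ) := Real.sqrt_pos.mpr (by exact_mod_cast hw.pos)
  have hK := integral_wK_pos hε
  have hb : ∀ (R : Fm) (v : ℍ), |Real.sign (fside R z) - Real.sign (fside R v)| ≤ 2 := fun R v =>
    (abs_sub _ _).trans (by linarith [abs_sign_le (fside R z), abs_sign_le (fside R v)])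
  have hi : ∀ R : Fm, Integrable fun v : ℍ =>
      akr ε z v * (Real.sign (fside R z) - Real.sign (fside R v)) := fun R =>
    integrable_akr_mul hε z ((measurable_side R).const_sub _).aestronglyMeasurable (hb R)
  obtain ⟨C, hC⟩ := integral_abs_sign_sub_le hε
  obtain ⟨h1, h2⟩ := integrable_of_hasSum (μ := volume) (F := fun (R : Fm) (v : ℍ) =>
      (w R : ℝ) / 2 * (akr ε z v * (Real.sign (fside R z) - Real.sign (fside R v))))
    (fun R => (hi R).const_mul _) (by
      refine ((hw.summable_side z.im_pos hε (mul_pos z.im_pos he)).mul_left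
        (C / 2 / ∫ y : ℝ, (1 + y ^ 2) ^ (-1 - ε / 2))).of_nonneg_of_le
        (fun R => integral_nonneg fun v => norm_nonneg _) fun R => ?_
      by_cases h : w R = 0
      · simp [h]
      have h3 := avg_side (hw.disc R h ▸ hw.pos) (hw.ne R h) z hε continuous_abs
      simp only [Real.norm_eq_abs, abs_mul, abs_of_nonneg (akr_nonneg hε z _), integral_const_mul]
      rw [avg, hw.disc R h] at h3
      rw [h3, abs_div, abs_two, ← div_div]
      have h4 := div_le_div_of_nonneg_right (hC (fside R z / z.im / √(e : ℝ))) hK.le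
      refine (mul_le_mul_of_nonneg_left h4 (by positivity)).trans_eq ?_
      ring) (G := fun v => akr ε z v * (Iw w v - Iw w z))
    ((continuous_akr_right ε z).measurable.mul
      (hw.measurable_Iw.sub_const _)).aestronglyMeasurable (.of_forall fun v => by
      convert! (((hw.hasSum_Iw v).sub (hw.hasSum_Iw z)).mul_left (akr ε z v)) using 2 with R
      ring)
  refine ⟨h1, ?_⟩
  convert! h2 using 2 with R
  by_cases h : w R = 0
  · simp [h]
  have h7 := avg_side (hw.disc R h ▸ hw.pos) (hw.ne R h) z hε continuous_id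
  simp only [avg, id, hw.disc R h, integral_sign_sub hε] at h7
  rw [integral_const_mul, h7, mul_div_cancel_right₀ _ hK.ne']
  ring

lemma aesm_of_hasSum {ι α : Type*} [Countable ι] [MeasurableSpace α] {μ : Measure α}
    {F : ι → α → ℝ} (hF : ∀ i, Integrable (F i) μ) {G : α → ℝ}
    (h : ∀ x, HasSum (fun i => F i x) (G x)) : AEStronglyMeasurable G μ := by
  classical
  exact aestronglyMeasurable_of_tendsto_ae (atTop : Filter (Finset ι))
    (f := fun s x => ∑ i ∈ s, F i x) (fun s => (integrable_finsetSum s fun i _ => hF i).1)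
    (.of_forall fun x => h x)

theorem Gw.hasSum_line (hw : Gw N w e) {A : ℤ} (hA : 0 < A) {k : ℤ}
    (hk : ∀ R, w R ≠ 0 → fval R k A ≠ 0) {ε : ℝ} (hε : 0 < ε) :
    IntegrableOn (fun y : ℝ => Df w ε (vpt (k / A) y) / y) (Ioi 0) ∧
    HasSum (fun t : ℤ => ((∑ᶠ R : Fm, if fbil (0, A, -k) R = t then w R * R.1.sign else 0 : ℤ) : ℝ) *
      kerK ε (|(t : ℝ)| / (A * √(e : ℝ)))) (∫ y in Ioi (0 : ℝ), Df w ε (vpt (k / A) y) / y) := by
  have hs : 0 < (A : ℝ) * √(e : ℝ) :=
    mul_pos (by exact_mod_cast hA) (Real.sqrt_pos.mpr (by exact_mod_cast hw.pos))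
  have h1 := fun R (h : w R ≠ 0) =>
    line_term hε (hw.disc R h ▸ hw.pos) (hw.ne R h) hA (hk R h) rfl
  have hF : ∀ R : Fm, Integrable (fun y : ℝ => (w R : ℝ) *
      (kerE ε (fside R (vpt (k / A) y) / (vpt (k / A) y).im / √(e : ℝ)) / y))
      (volume.restrict (Ioi (0 : ℝ))) := fun R => by
    by_cases h : w R = 0
    · simp [h]
    · exact (hw.disc R h ▸ (h1 R h).1).const_mul _
  have hG : ∀ y : ℝ, HasSum (fun R : Fm => (w R : ℝ) *
      (kerE ε (fside R (vpt (k / A) y) / (vpt (k / A) y).im / √(e : ℝ)) / y))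
      (Df w ε (vpt (k / A) y) / y) := fun y => by
    simpa only [mul_div_assoc] using (hw.hasSum_Df hε (vpt (k / A) y)).2.div_const y
  obtain ⟨h2, h3⟩ := integrable_of_hasSum hF (by
      obtain ⟨B, hB⟩ := hw.bdd
      obtain ⟨C, hC⟩ := kerK_le hε
      obtain ⟨M, hM⟩ := exists_int_gt (2 * (A * √(e : ℝ)))
      refine ((summable_line e hA.ne' k hε).mul_left
        (B * (|C| * (1 + A * √(e : ℝ)) ^ (1 + ε)))).of_norm_bounded_eventually ?_
      filter_upwards [(finite_line e hA.ne' k M).compl_mem_cofinite] with R hR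
      have hB0 : (0 : ℝ) ≤ B := by exact_mod_cast (abs_nonneg _).trans (hB R)
      by_cases h : w R = 0
      · simp only [h, Int.cast_zero, zero_mul, norm_zero, integral_zero]
        split_ifs <;> positivity
      have h4 : M < |fbil (0, A, -k) R| := not_le.mp fun h5 => hR ⟨hw.disc R h, hw.ne R h, hk R h, h5⟩
      have h5 : 2 * (A * √(e : ℝ)) < |(fbil (0, A, -k) R : ℝ)| := hM.trans (by exact_mod_cast h4)
      have h6 : 0 < R.1 * fval R k A := by
        have h7 : (fbil (0, A, -k) R : ℝ) ^ 2 - A ^ 2 * e = 4 * (R.1 * fval R k A : ℤ) := by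
          rw [← hw.disc R h]
          exact_mod_cast (fbil_line A k R).trans (mul_assoc _ _ _)
        have h8 : √(e : ℝ) ^ 2 = e := Real.sq_sqrt (by exact_mod_cast hw.pos.le)
        have h9 : (0 : ℝ) < (R.1 * fval R k A : ℤ) := by
          rw [← sq_abs] at h7
          nlinarith
        exact_mod_cast h9
      have h7 := (h1 R h).2.2 h6
      rw [hw.disc R h] at h7
      simp only [Real.norm_eq_abs, abs_mul, integral_const_mul]
      rw [h7, abs_abs, abs_of_nonneg (kerK_nonneg _ _), if_pos ⟨hw.disc R h, hw.ne R h, hk R h⟩,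
        mul_assoc]
      refine mul_le_mul (by exact_mod_cast hB R) ((hC _ ((le_div_iff₀ hs).mpr h5.le)).trans ?_)
        (kerK_nonneg _ _) hB0
      rw [mul_assoc]
      refine mul_le_mul (le_abs_self C) ?_ (by positivity) (abs_nonneg C)
      have := rpow_le_of_le (K := 1 + A * √(e : ℝ)) (u := 1 + |(fbil (0, A, -k) R : ℝ)|)
        (v := 1 + |(fbil (0, A, -k) R : ℝ)| / (A * √(e : ℝ))) (s := -1 - ε) (by positivity)
        (by positivity) (by positivity) (by
          rw [add_mul, one_mul, mul_add, mul_div_cancel₀ _ hs.ne']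
          linarith [div_nonneg (abs_nonneg (fbil (0, A, -k) R : ℝ)) hs.le]) (by linarith)
      rwa [show -(-1 - ε) = 1 + ε by ring] at this)
    (aesm_of_hasSum hF hG) (.of_forall hG)
  refine ⟨h2, hasSum_fiber (w := fun R => w R * R.1.sign) (φ := fun R => fbil (0, A, -k) R)
    (g := fun t => kerK ε (|(t : ℝ)| / (A * √(e : ℝ)))) ?_ fun t => ?_⟩
  · convert! h3 using 2 with R
    by_cases h : w R = 0
    · simp [h]
    have h4 := (h1 R h).2.1
    rw [hw.disc R h] at h4
    rw [integral_const_mul, h4, Int.cast_mul, mul_assoc]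
  · refine (finite_line e hA.ne' k |t|).subset fun R hR => ?_
    have h := left_ne_zero_of_mul hR.1
    exact ⟨hw.disc R h, hw.ne R h, hk R h, by rw [hR.2]⟩

end Pool.Agent.G5.GL
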