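import Pool.Agent.Lib.MP_696deb_nt.B5.GLb

/-! Vertical lines against geodesics. -/

set_option autoImplicit false

open Filter Topology Set MeasureTheory UpperHalfPlane Metric CongruenceSubgroup NumberTheorySymbols
open scoped Real MatrixGroups

namespace Pool.Agent.G5.GL

open Pool.Agent.Lib.MP_696deb_nt Pool.Agent.B4.GE

variable {N : ℕ} {ι : Type} {J : Finset ι} {c : ι → ℤ} {w : ι → Fm → ℤ} {e : ι → ℤ} {G : ℂ → ℂ}

theorem line_small {k A : ℤ} (hA : 0 < A) (hN : IsCoprime A N) (hk : IsCoprime k A) :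
    ∃ x : ℝ, ∃ γ ∈ Gamma0 N, ∀ y : ℝ, 0 < y →
      vpt (k / A) y = γ • ModularGroup.S • vpt x ((A : ℝ) ^ 2 * y)⁻¹ := by
  obtain ⟨u, v, h⟩ := hN.mul_right hk.symm
  let g : SL(2, ℤ) := ⟨!![u, k; -(N * v), A], by rw [Matrix.det_fin_two_of]; linear_combination h⟩
  refine ⟨-((N : ℤ) * v : ℤ) / A, g, ?_, fun y hy => ?_⟩
  · rw [Gamma0_mem, ZMod.intCast_zmod_eq_zero_iff_dvd]
    simp [g]
  · ext1
    rw [smul_smul, coe_smul_eq_mob, coe_vpt _ hy, coe_vpt _ (by positivity), cast_div,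
      ← mob_pth (a := k) (b := -u) (c := A) (d := N * v) (by linear_combination h) hA.ne' hy.ne']
    simp [g, ModularGroup.S, Matrix.mul_apply, Fin.sum_univ_two, pth]

theorem tendsto_line [NeZero N] {u : ℍ → ℝ} (hu : Tame (Gamma0 N) u) {A : ℤ} (hA : 0 < A)
    (hN : IsCoprime A N) {S : Finset ℤ} {χ : ℤ → ℤ} (hχ : ∑ k ∈ S, χ k = 0)
    (hcop : ∀ k ∈ S, χ k ≠ 0 → IsCoprime k A) :
    Tendsto (fun ε => ∫ y in Ioi (0 : ℝ), (∑ k ∈ S, χ k * avg ε u (vpt (k / A) y)) / y)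
      (𝓝[>] 0) (𝓝 0) := by
  obtain ⟨C, hC0, hC⟩ := hu.lip'
  have hχ' : ∑ k ∈ S, (χ k : ℝ) = 0 := by exact_mod_cast hχ
  have h1 : ∀ k ∈ S, ∃ B : ℝ, ∀ ε ∈ Ioc (0 : ℝ) 1, ∀ y : ℝ, 0 < y →
      |χ k * (avg ε u (vpt (k / A) y) - avg ε u (if y ≤ 1 then
        ModularGroup.S • vpt 0 ((A : ℝ) ^ 2 * y)⁻¹ else vpt 0 y)) / y| ≤ B * (1 + y ^ 2)⁻¹ := by
    intro k hk
    by_cases h0 : χ k = 0
    · exact ⟨0, by simp [h0]⟩
    obtain ⟨x, γ, hγ, h⟩ := line_small hA hN (hcop k hk h0)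
    refine ⟨|(χ k : ℝ)| * (2 * C * (|x| * A ^ 2 + |(k / A : ℝ)|)), fun ε hε y hy => ?_⟩
    rw [mul_div_assoc, abs_mul, mul_assoc, abs_div, abs_of_pos hy]
    refine mul_le_mul_of_nonneg_left ?_ (abs_nonneg _)
    rw [← div_eq_mul_inv, div_le_div_iff₀ hy (by positivity)]
    have h2 := abs_nonneg (k / A : ℝ)
    have h3 : 0 ≤ |x| * (A : ℝ) ^ 2 := by positivity
    split_ifs with h4
    · have h5 := hC ε hε (ModularGroup.S • vpt x ((A : ℝ) ^ 2 * y)⁻¹)
        (ModularGroup.S • vpt 0 ((A : ℝ) ^ 2 * y)⁻¹)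
      have h6 := mul_le_mul_of_nonneg_left
        (dist_vpt x (y := ((A : ℝ) ^ 2 * y)⁻¹) (by positivity)) hC0
      rw [div_inv_eq_mul, ← mul_assoc |x|] at h6
      rw [dist_smul_int] at h5
      rw [h y hy, avg_inv hu.inv _ hγ]
      refine (mul_le_mul (h5.trans h6) (show 1 + y ^ 2 ≤ 2 by nlinarith) (by positivity)
        (by positivity)).trans ?_
      nlinarith [mul_nonneg (mul_nonneg hC0 h2) hy.le]
    · have h5 := (hC ε hε _ _).trans (mul_le_mul_of_nonneg_left (dist_vpt (k / A) hy) hC0)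
      refine (mul_le_mul h5 (show 1 + y ^ 2 ≤ 2 * y * y by nlinarith) (by positivity)
        (by positivity)).trans ?_
      rw [show C * (|(k / A : ℝ)| / y) * (2 * y * y) = 2 * C * |(k / A : ℝ)| * y by field_simp]
      nlinarith [mul_nonneg (mul_nonneg hC0 h3) hy.le]
  choose! B hB using h1
  have h2 := tendsto_integral_filter_of_dominated_convergence (μ := volume.restrict (Ioi (0 : ℝ)))
    (l := 𝓝[>] (0 : ℝ)) (F := fun ε y => (∑ k ∈ S, χ k * avg ε u (vpt (k / A) y)) / y)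
    (f := fun _ => 0) (fun y => (∑ k ∈ S, B k) * (1 + y ^ 2)⁻¹) (by
      filter_upwards [self_mem_nhdsWithin] with ε hε
      exact ((Finset.measurable_fun_sum _ fun k _ => ((hu.continuous_avg hε).measurable.comp
        (measurable_vpt _)).const_mul _).div measurable_id).aestronglyMeasurable) (by
      filter_upwards [Ioc_mem_nhdsGT one_pos] with ε hε
      refine ae_restrict_of_forall_mem measurableSet_Ioi fun y hy => ?_
      rw [Finset.sum_mul]
      refine le_trans (le_of_eq ?_) ((Finset.abs_sum_le_sum_abs _ _).trans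
        (Finset.sum_le_sum fun k hk => hB k hk ε hε y hy))
      simp only [mul_sub, ← Finset.sum_div, Finset.sum_sub_distrib, ← Finset.sum_mul, hχ',
        zero_mul, sub_zero, Real.norm_eq_abs])
    (integrable_inv_one_add_sq.const_mul _).integrableOn (.of_forall fun y => by
      simpa using (hu.tendsto_sum S (fun k => (χ k : ℝ)) (fun k => vpt (k / A) y) hχ').div_const y)
  simpa using h2

/-- The logarithmic terms of a family of lines. -/
noncomputable def lgL (A : ℤ) (S : Finset ℤ) (χ : ℤ → ℤ) (w : Fm → ℤ) : ℝ :=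
  ∑ k ∈ S, χ k * ∑ᶠ R : Fm, if R.1 * fval R k A < 0 then
    (w R * R.1.sign : ℝ) * (Real.log |(fval R k A : ℝ)| - Real.log |(R.1 : ℝ)|) / 2 else 0

theorem Gs.integral_ps (h : Gs N J c w e G) {A : ℤ} (hA : 0 < A) (hN : IsCoprime A N)
    {S : Finset ℤ} {χ : ℤ → ℤ} (hχ : ∑ k ∈ S, χ k = 0)
    (hS : ∀ k ∈ S, ∀ m ∈ J, ∀ R, w m R ≠ 0 → fval R k A ≠ 0)
    (hL : ∑ k ∈ S, χ k * Ld G k A 1 = 0) :
    IntegrableOn (fun y : ℝ => (∑ k ∈ S, χ k * ps J c w G (vpt (k / A) y)) / y) (Ioi 0) ∧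
    ∫ y in Ioi (0 : ℝ), (∑ k ∈ S, χ k * ps J c w G (vpt (k / A) y)) / y =
      (deriv (fun s => ∑ k ∈ S, χ k * Ld G k A s) 1).re - ∑ m ∈ J, c m * lgL A S χ (w m) := by
  have hA' : (0 : ℝ) < A := by exact_mod_cast hA
  choose! s hs hI using fun m (hm : m ∈ J) k (hk : k ∈ S) =>
    (h.gw m hm).Iw_line hA k (hS k hk m hm)
  let T : Finset (Σ _ : ι, Σ _ : ℤ, Fm) := J.sigma fun m => S.sigma (s m)
  have hT : ∀ f : ι → ℤ → Fm → ℝ, ∑ i ∈ T, f i.1 i.2.1 i.2.2 =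
      ∑ m ∈ J, ∑ k ∈ S, ∑ R ∈ s m k, f m k R := fun f => by
    rw [Finset.sum_sigma]
    exact Finset.sum_congr rfl fun m _ => by rw [Finset.sum_sigma]
  have h0 : ∑ i ∈ T, (c i.1 * (χ i.2.1 * (w i.1 i.2.2 * i.2.2.1.sign)) : ℝ) = 0 := by
    have h1 : ∀ m ∈ J, ∀ k ∈ S, (thw (w m) k A : ℝ) =
        2 * ∑ R ∈ s m k, (w m R * R.1.sign : ℝ) := fun m hm k hk => by
      rw [thw, finsum_eq_sum_of_support_subset (s := s m k) _ fun R hR =>
        (hs m hm k hk R).mpr (thw_support (h.gw m hm).ne (hS k hk m hm) hR), Int.cast_sum,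
        Finset.mul_sum]
      refine Finset.sum_congr rfl fun R hR => ?_
      rw [isign_of_mul_neg ((hs m hm k hk R).mp hR).2]
      push_cast
      ring
    have h2 := h.cross_thw hA.ne' hN hχ hS
    rw [hL, Complex.zero_re, mul_zero] at h2
    apply mul_left_cancel₀ (two_ne_zero (α := ℝ))
    rw [hT fun m k R => (c m * (χ k * (w m R * R.1.sign)) : ℝ), mul_zero, h2, Finset.mul_sum]
    refine Finset.sum_congr rfl fun m hm => ?_
    rw [Finset.mul_sum, Finset.mul_sum]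
    refine Finset.sum_congr rfl fun k hk => ?_
    rw [h1 m hm k hk]
    simp only [← Finset.mul_sum]
    ring
  have hp : ∀ i ∈ T, (fval i.2.2 i.2.1 A : ℝ) ≠ 0 ∧ (i.2.2.1 : ℝ) ≠ 0 := fun i hi => by
    obtain ⟨h1, h2⟩ := Finset.mem_sigma.mp hi
    obtain ⟨h2, h3⟩ := Finset.mem_sigma.mp h2
    have h3 := ((hs _ h1 _ h2 _).mp h3).2.ne
    exact ⟨by exact_mod_cast right_ne_zero_of_mul h3, by exact_mod_cast left_ne_zero_of_mul h3⟩
  obtain ⟨h1, h2⟩ := integral_steps T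
    (fun i => (c i.1 * (χ i.2.1 * (w i.1 i.2.2 * i.2.2.1.sign)) : ℝ))
    (fun i => |(fval i.2.2 i.2.1 A : ℝ)| / (|(i.2.2.1 : ℝ)| * A ^ 2)) (fun i hi => by
      have := abs_pos.mpr (hp i hi).1
      have := abs_pos.mpr (hp i hi).2
      positivity) h0
  obtain ⟨h3, h4⟩ := h.ci.integral_line' h.N0 hA.ne' hχ hL
  have h5 := h3.re
  have h6 : EqOn (fun y : ℝ => (∑ k ∈ S, χ k * ps J c w G (vpt (k / A) y)) / y)
      (fun y : ℝ => RCLike.re ((∑ k ∈ S, χ k * G (k / A + y * Complex.I)) / y) -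
        (∑ i ∈ T, (c i.1 * (χ i.2.1 * (w i.1 i.2.2 * i.2.2.1.sign)) : ℝ) * (1 - Real.sign (y ^ 2 -
          |(fval i.2.2 i.2.1 A : ℝ)| / (|(i.2.2.1 : ℝ)| * A ^ 2))) / 2) / y) (Ioi 0) :=
    fun y hy => by
    simp only [RCLike.re_to_complex]
    rw [Complex.div_ofReal_re, ← sub_div, hT fun m k R => (c m * (χ k * (w m R * R.1.sign)) : ℝ) *
      (1 - Real.sign (y ^ 2 - |(fval R k A : ℝ)| / (|(R.1 : ℝ)| * A ^ 2))) / 2, Finset.sum_comm,
      Complex.re_sum, ← Finset.sum_sub_distrib]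
    congr 1
    refine Finset.sum_congr rfl fun k hk => ?_
    rw [coe_vpt _ hy, cast_div, ps, ← Complex.ofReal_intCast (χ k), Complex.re_ofReal_mul, mul_sub,
      Finset.mul_sum]
    congr 1
    refine Finset.sum_congr rfl fun m hm => ?_
    rw [hI m hm k hk y hy, Finset.mul_sum, Finset.mul_sum]
    exact Finset.sum_congr rfl fun R _ => by ring
  refine ⟨(integrableOn_congr_fun h6 measurableSet_Ioi).mpr (h5.sub h1), ?_⟩
  rw [setIntegral_congr_fun measurableSet_Ioi h6, integral_sub h5 h1, h2,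
    integral_re h3, h4, RCLike.re_to_complex,
    Finset.sum_congr rfl (g := fun i => (c i.1 * (χ i.2.1 * (w i.1 i.2.2 * i.2.2.1.sign)) : ℝ) *
      (Real.log |(fval i.2.2 i.2.1 A : ℝ)| - Real.log |(i.2.2.1 : ℝ)|) / 2 -
      (c i.1 * (χ i.2.1 * (w i.1 i.2.2 * i.2.2.1.sign)) : ℝ) * (Real.log (A ^ 2) / 2))
      fun i hi => ?_,
    Finset.sum_sub_distrib, ← Finset.sum_mul, h0, zero_mul, sub_zero,
    hT fun m k R => (c m * (χ k * (w m R * R.1.sign)) : ℝ) *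
      (Real.log |(fval R k A : ℝ)| - Real.log |(R.1 : ℝ)|) / 2]
  · congr 1
    refine Finset.sum_congr rfl fun m hm => ?_
    rw [lgL, Finset.mul_sum]
    refine Finset.sum_congr rfl fun k hk => ?_
    rw [finsum_eq_sum_of_support_subset (s := s m k) _ fun R hR => ?_, Finset.mul_sum,
      Finset.mul_sum]
    · refine Finset.sum_congr rfl fun R hR => ?_
      rw [if_pos ((hs m hm k hk R).mp hR).2]
      ring
    · rw [Function.mem_support, ne_eq, ite_eq_right_iff, Classical.not_imp] at hR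
      exact (hs m hm k hk R).mpr ⟨fun h => hR.2 (by simp [h]), hR.1⟩
  · have h7 := abs_ne_zero.mpr (hp i hi).1
    have h8 := abs_ne_zero.mpr (hp i hi).2
    rw [Real.log_div h7 (by positivity), Real.log_mul h8 (by positivity)]
    ring

theorem Gw.hasSum_lines {w : Fm → ℤ} {e : ℤ} (hw : Gw N w e) {A : ℤ} (hA : 0 < A) {S : Finset ℤ}
    (χ : ℤ → ℤ) (hS : ∀ k ∈ S, ∀ R, w R ≠ 0 → fval R k A ≠ 0) {ε : ℝ} (hε : 0 < ε) :
    IntegrableOn (fun y : ℝ => ∑ k ∈ S, χ k * (Df w ε (vpt (k / A) y) / y)) (Ioi 0) ∧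
    HasSum (fun t : ℕ => ((cntL A S χ w t + cntL A S χ w (-t) : ℤ) : ℝ) *
      kerK ε (t / (A * √(e : ℝ))))
      (∫ y in Ioi (0 : ℝ), ∑ k ∈ S, χ k * (Df w ε (vpt (k / A) y) / y)) := by
  have h3 := fun k (hk : k ∈ S) => hw.hasSum_line hA (hS k hk) hε
  have h4 := (hasSum_sum fun k hk => (h3 k hk).2.mul_left (χ k : ℝ)).nat_add_neg
  refine ⟨integrable_finsetSum S fun k hk => (h3 k hk).1.const_mul (χ k : ℝ), ?_⟩
  rw [integral_finsetSum S fun k hk => (h3 k hk).1.const_mul (χ k : ℝ)]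
  convert! h4 using 1
  · funext t
    simp only [cntL, Int.cast_add, Int.cast_sum, Int.cast_mul, add_mul, Finset.sum_mul, mul_assoc,
      Int.cast_neg, Int.cast_natCast, abs_neg, Nat.abs_cast]
  · simp [integral_const_mul, kerK]

/-- Vertical lines against geodesics. -/
theorem Gs.line (h : Gs N J c w e G) {A : ℤ} (hA : 0 < A) (hN : IsCoprime A N)
    {S : Finset ℤ} {χ : ℤ → ℤ} (hχ : ∑ k ∈ S, χ k = 0) (hcop : ∀ k ∈ S, χ k ≠ 0 → IsCoprime k A)
    (hS : ∀ k ∈ S, ∀ m ∈ J, ∀ R, w m R ≠ 0 → fval R k A ≠ 0)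
    (hL : ∑ k ∈ S, χ k * Ld G k A 1 = 0) :
    Tendsto (fun ε : ℝ => ∑ m ∈ J, (c m : ℝ) * ∑' t : ℕ,
      ((cntL A S χ (w m) t + cntL A S χ (w m) (-t) : ℤ) : ℝ) * kerK ε (t / (A * √(e m : ℝ))))
      (𝓝[>] 0) (𝓝 ((deriv (fun s => ∑ k ∈ S, χ k * Ld G k A s) 1).re -
        ∑ m ∈ J, c m * lgL A S χ (w m))) := by
  have : NeZero N := ⟨h.N0⟩
  obtain ⟨h1, h2⟩ := h.integral_ps hA hN hχ hS hL
  have h3 := (tendsto_line h.tame hA hN hχ hcop).const_sub
    (∫ y in Ioi (0 : ℝ), (∑ k ∈ S, χ k * ps J c w G (vpt (k / A) y)) / y)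
  rw [sub_zero] at h3
  rw [← h2]
  refine h3.congr' ?_
  filter_upwards [self_mem_nhdsWithin] with ε hε
  have h4 := fun m (hm : m ∈ J) => (h.gw m hm).hasSum_lines hA χ (fun k hk => hS k hk m hm) hε
  have h5 := fun m (hm : m ∈ J) => (h4 m hm).1.const_mul (c m : ℝ)
  have h6 : ∀ y : ℝ, (∑ k ∈ S, χ k * avg ε (fun v => ps J c w G v) (vpt (k / A) y)) / y =
      (∑ k ∈ S, χ k * ps J c w G (vpt (k / A) y)) / y -
        ∑ m ∈ J, (c m : ℝ) * ∑ k ∈ S, χ k * (Df (w m) ε (vpt (k / A) y) / y) := fun y => by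
    simp only [Finset.mul_sum]
    rw [Finset.sum_comm, Finset.sum_div, Finset.sum_div, ← Finset.sum_sub_distrib]
    refine Finset.sum_congr rfl fun k _ => ?_
    rw [sub_eq_iff_eq_add'.mp (h.defect hε (vpt (k / A) y)), mul_add, add_div, Finset.mul_sum,
      Finset.sum_div, add_sub_assoc, ← Finset.sum_sub_distrib,
      Finset.sum_eq_zero fun m _ => by ring, add_zero]
  simp only [h6]
  rw [integral_sub h1 (integrable_finsetSum J h5), sub_sub_cancel, integral_finsetSum J h5]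
  refine Finset.sum_congr rfl fun m hm => ?_
  rw [integral_const_mul, (h4 m hm).2.tsum_eq]

end Pool.Agent.G5.GL

namespace Pool.Agent.G5

open Pool.Agent.Lib.MP_696deb_nt

theorem gl_stmt : GLStmt := fun N B w e a G hN hB h2 h1 hc hw hG hi hL => by
  have h := GL.Gs.of_cmb hN (fun m hm => ⟨(hw m hm).2.1, (hw m hm).1,
    fun R hR => ((hw m hm).2.2 R hR).1⟩) hG hi
  rw [LA_eq_Ico] at hL ⊢
  exact h.line (A := B) (S := Finset.Ico (0 : ℤ) B) (χ := fun k => J(k | B))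
    (by exact_mod_cast one_pos.trans h1) (Nat.isCoprime_iff_coprime.mpr hc)
    (by
      rw [Int.Ico_eq_finset_map]
      simpa using sum_jac_eq_zero hB h2 h1) (fun k _ hk => by
      have : NeZero B := ⟨by omega⟩
      by_contra h3
      exact hk (jacobiSym.eq_zero_iff_not_coprime.mpr
        (mt Int.isCoprime_iff_gcd_eq_one.mpr h3)))
    (fun k _ m hm R hR => ((hw m hm).2.2 R hR).2 k) hL

end Pool.Agent.G5
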