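import Pool.Agent.Lib.MP_696deb_nt.ErgTame

/-! Averaging operators on functions of slow growth. -/

set_option autoImplicit false

open Filter Topology Set MeasureTheory UpperHalfPlane Metric
open scoped Real MatrixGroups ENNReal NNReal

namespace Pool.Agent.B5.HA

open Pool.Agent.Lib.MP_696deb_nt

/-- Measurable functions of slow growth. -/
structure Slow (u : ℍ → ℝ) : Prop where
  meas : Measurable u
  le : ∃ C : ℝ, ∀ w, |u w| ≤ C * Real.cosh (dist I w)

/-- The averaging operator that is iterated. -/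
noncomputable def Av (u : ℍ → ℝ) : ℍ → ℝ := avg 3 u

/-- The volume of balls. -/
noncomputable def vb (r : ℝ) : ℝ := (volume (ball I r)).toReal

/-- The defect of the mean value property on balls. -/
noncomputable def Df (r : ℝ) (u : ℍ → ℝ) (z : ℍ) : ℝ := (∫ w in ball z r, u w) - vb r * u z

theorem exists_swap (z w : ℍ) : ∃ g : SL(2, ℝ), g • z = w ∧ g • w = z := by
  have hz := z.im_pos
  have hw := w.im_pos
  obtain ⟨a, ha⟩ : ∃ a, a = z.re * w.im + z.im * w.re := ⟨_, rfl⟩
  obtain ⟨c, hc⟩ : ∃ c, c = z.im + w.im := ⟨_, rfl⟩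
  obtain ⟨b, hb⟩ : ∃ b, b = c * (z.re * w.re - z.im * w.im) - a * (z.re + w.re) := ⟨_, rfl⟩
  have hd : 0 < -a ^ 2 - b * c := by
    have : -a ^ 2 - b * c = z.im * w.im * ((z.re - w.re) ^ 2 + (z.im + w.im) ^ 2) := by
      rw [hb, ha, hc]; ring
    rw [this]; positivity
  obtain ⟨s, hs, hs2⟩ : ∃ s : ℝ, 0 < s ∧ s ^ 2 = -a ^ 2 - b * c :=
    ⟨_, Real.sqrt_pos.mpr hd, Real.sq_sqrt hd.le⟩
  let g : SL(2, ℝ) := ⟨!![a / s, b / s; c / s, -a / s], by
    rw [Matrix.det_fin_two_of]
    field_simp
    linarith⟩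
  have key : ∀ u v : ℍ, (a : ℂ) * (u + v) + b - c * (u * v) = 0 → g • u = v := fun u v h => by
    apply UpperHalfPlane.ext
    have hc0 : 0 < c := by rw [hc]; positivity
    have h0 : (c : ℂ) / s * u + -a / s ≠ 0 := fun h0 => by
      have := congrArg Complex.im h0
      norm_cast at this
      simp [hc0.ne', hs.ne', u.im_pos.ne'] at this
    rw [specialLinearGroup_apply]
    have hs' : (s : ℂ) ≠ 0 := by exact_mod_cast hs.ne'
    simp only [g]
    simp
    rw [div_eq_iff h0]
    field_simp
    linear_combination h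
  have h : (a : ℂ) * (z + w) + b - c * (z * w) = 0 := by
    apply Complex.ext <;> simp
    · rw [hb]; ring
    · rw [ha, hc]; ring
  exact ⟨g, key z w h, key w z (by linear_combination h)⟩

theorem one_le_ch (z w : ℍ) : 1 ≤ Real.cosh (dist z w) := Real.one_le_cosh _

theorem exp_le_ch (z w : ℍ) : Real.exp (dist z w) ≤ 2 * Real.cosh (dist z w) := by
  rw [Real.cosh_eq]
  linarith [Real.exp_pos (-dist z w)]

theorem akr_ch {ε : ℝ} (hε : 0 < ε) (z w : ℍ) :
    akr (ε + 1) z w * Real.cosh (dist z w) = (ε + 1) / ε * akr ε z w := by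
  have h := akr_div ε hε z w
  have h1 := (Real.cosh_pos (dist z w)).ne'
  field_simp at h ⊢
  linarith

theorem akr3_ch (z w : ℍ) : akr 3 z w * Real.cosh (dist z w) = 3 / 2 * akr 2 z w := by
  have := akr_ch two_pos z w
  norm_num at this
  exact this

theorem akr_pos {ε : ℝ} (hε : 0 < ε) (z w : ℍ) : 0 < akr ε z w := by
  have := Real.cosh_pos (dist z w)
  unfold akr
  positivity

variable {u v : ℍ → ℝ}

theorem Slow.le_at (hu : Slow u) : ∃ C : ℝ, 0 ≤ C ∧ ∀ z w,
    |u w| ≤ C * Real.cosh (dist I z) * Real.cosh (dist z w) := by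
  obtain ⟨C, hC⟩ := hu.le
  have h0 : 0 ≤ C := by simpa using (abs_nonneg _).trans (hC I)
  refine ⟨2 * C, by positivity, fun z w => (hC w).trans ?_⟩
  have h1 := cosh_dist_le z I w
  have h2 := exp_le_ch z I
  rw [dist_comm z I] at h1 h2
  have h3 := mul_le_mul_of_nonneg_right h2 (Real.cosh_pos (dist z w)).le
  nlinarith [mul_le_mul_of_nonneg_left (h1.trans h3) h0]

theorem Slow.of_bdd (hu : Measurable u) {C : ℝ} (h : ∀ w, |u w| ≤ C) : Slow u :=
  ⟨hu, C, fun w => (h w).trans (le_mul_of_one_le_right ((abs_nonneg _).trans (h w)) (one_le_ch _ _))⟩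

theorem Slow.const (c : ℝ) : Slow fun _ => c := .of_bdd measurable_const fun _ => le_rfl

theorem Slow.add (hu : Slow u) (hv : Slow v) : Slow fun w => u w + v w := by
  obtain ⟨C, hC⟩ := hu.le
  obtain ⟨D, hD⟩ := hv.le
  exact ⟨hu.meas.add hv.meas, C + D, fun w => (abs_add_le _ _).trans (by linarith [hC w, hD w])⟩

theorem Slow.const_mul (hu : Slow u) (c : ℝ) : Slow fun w => c * u w := by
  obtain ⟨C, hC⟩ := hu.le
  refine ⟨hu.meas.const_mul c, |c| * C, fun w => ?_⟩
  rw [abs_mul, mul_assoc]
  exact mul_le_mul_of_nonneg_left (hC w) (abs_nonneg _)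

theorem Slow.sub (hu : Slow u) (hv : Slow v) : Slow fun w => u w - v w := by
  simpa [sub_eq_add_neg] using hu.add (hv.const_mul (-1))

theorem Slow.abs (hu : Slow u) : Slow fun w => |u w| :=
  ⟨hu.meas.abs, by simpa using hu.le⟩

theorem Slow.sum {ι : Type*} (s : Finset ι) {f : ι → ℍ → ℝ} (h : ∀ i ∈ s, Slow (f i)) :
    Slow fun w => ∑ i ∈ s, f i w := by
  classical
  induction s using Finset.induction_on with
  | empty => simpa using Slow.const 0
  | insert a s ha ih =>
    simp only [Finset.sum_insert ha]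
    exact (h a (by simp)).add (ih fun i hi => h i (by simp [hi]))

theorem Slow.smul (hu : Slow u) (g : SL(2, ℝ)) : Slow fun w => u (g • w) := by
  obtain ⟨C, -, hC⟩ := hu.le_at
  exact ⟨hu.meas.comp (continuous_const_smul g).measurable, _, fun w => by
    simpa only [dist_smul] using hC (g • I) (g • w)⟩

theorem Slow.smul_int (hu : Slow u) (g : SL(2, ℤ)) : Slow fun w => u (g • w) :=
  hu.smul (toR g)

theorem Slow.integrable (hu : Slow u) (z : ℍ) : Integrable fun w => akr 3 z w * u w := by
  obtain ⟨C, h0, hC⟩ := hu.le_at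
  refine ((integrable_akr two_pos z).const_mul (C * Real.cosh (dist I z) * (3 / 2))).mono'
    ((continuous_akr_right 3 z).aestronglyMeasurable.mul hu.meas.aestronglyMeasurable)
    (.of_forall fun w => ?_)
  rw [Real.norm_eq_abs, abs_mul, abs_of_nonneg (akr_nonneg three_pos _ _), mul_assoc, ← akr3_ch]
  nlinarith [mul_le_mul_of_nonneg_left (hC z w) (akr_nonneg three_pos z w)]

theorem Av_const (c : ℝ) (z : ℍ) : Av (fun _ => c) z = c := by
  simp only [Av, avg, integral_mul_const, integral_akr three_pos, one_mul]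

theorem Av_add (hu : Slow u) (hv : Slow v) (z : ℍ) :
    Av (fun w => u w + v w) z = Av u z + Av v z := by
  simp only [Av, avg, mul_add]
  exact integral_add (hu.integrable z) (hv.integrable z)

theorem Av_sub (hu : Slow u) (hv : Slow v) (z : ℍ) :
    Av (fun w => u w - v w) z = Av u z - Av v z := by
  simp only [Av, avg, mul_sub]
  exact integral_sub (hu.integrable z) (hv.integrable z)

theorem Av_const_mul (c : ℝ) (u : ℍ → ℝ) (z : ℍ) : Av (fun w => c * u w) z = c * Av u z := by
  simp only [Av, avg, mul_left_comm _ c, integral_const_mul]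

theorem Av_smul (u : ℍ → ℝ) (g : SL(2, ℝ)) (z : ℍ) : Av u (g • z) = Av (fun w => u (g • w)) z :=
  avg_smul 3 u g z

theorem Av_smul_int (u : ℍ → ℝ) (g : SL(2, ℤ)) (z : ℍ) :
    Av u (g • z) = Av (fun w => u (g • w)) z := avg_smul 3 u (toR g) z

theorem Av_mono (hu : Slow u) (hv : Slow v) (h : ∀ w, u w ≤ v w) (z : ℍ) : Av u z ≤ Av v z :=
  integral_mono (hu.integrable z) (hv.integrable z) fun w =>
    mul_le_mul_of_nonneg_left (h w) (akr_nonneg three_pos z w)

theorem abs_Av_le (hv : Slow v) (h : ∀ w, |u w| ≤ v w) (z : ℍ) : |Av u z| ≤ Av v z :=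
  (abs_avg_le three_pos u z).trans (integral_mono_of_nonneg (.of_forall fun w =>
    mul_nonneg (akr_nonneg three_pos z w) (abs_nonneg _)) (hv.integrable z) (.of_forall fun w =>
      mul_le_mul_of_nonneg_left (h w) (akr_nonneg three_pos z w)))

theorem slow_ch (z : ℍ) : Slow fun w => Real.cosh (dist z w) :=
  ⟨(Real.continuous_cosh.comp (continuous_const.dist continuous_id)).measurable, _, fun w => by
    rw [abs_of_pos (Real.cosh_pos _)]
    exact cosh_dist_le I z w⟩

theorem Av_ch (z : ℍ) : Av (fun w => Real.cosh (dist z w)) z = 3 / 2 := by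
  simp only [Av, avg, akr3_ch, integral_const_mul, integral_akr two_pos, mul_one]

theorem Slow.continuous_Av (hu : Slow u) : Continuous (Av u) := by
  refine continuous_iff_continuousAt.mpr fun z => ?_
  rw [ContinuousAt, tendsto_iff_dist_tendsto_zero]
  have h : Tendsto (fun z' : ℍ => (Real.exp ((1 + 3) * dist z z') - 1) *
      avg 3 (fun w => |u w|) z) (𝓝 z) (𝓝 0) := by
    have : Continuous fun z' : ℍ => (Real.exp ((1 + 3) * dist z z') - 1) *
      avg 3 (fun w => |u w|) z := by fun_prop
    simpa using this.tendsto z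
  refine squeeze_zero (fun _ => dist_nonneg) (fun z' => ?_) h
  rw [dist_comm, Real.dist_eq]
  exact abs_avg_sub_le three_pos hu.meas.aestronglyMeasurable (hu.integrable z) z'

theorem Slow.av (hu : Slow u) : Slow (Av u) := by
  obtain ⟨C, h0, hC⟩ := hu.le_at
  refine ⟨hu.continuous_Av.measurable, C * (3 / 2), fun z => ?_⟩
  have := abs_Av_le ((slow_ch z).const_mul _) (hC z) z
  rw [Av_const_mul, Av_ch] at this
  linarith

theorem Slow.iter (hu : Slow u) (n : ℕ) : Slow (Av^[n] u) := by
  induction n with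
  | zero => exact hu
  | succ n ih => rw [Function.iterate_succ_apply']; exact ih.av

theorem iter_const (c : ℝ) (n : ℕ) : (Av^[n] fun _ => c) = fun _ => c :=
  Function.iterate_fixed (funext (Av_const c)) n

theorem iter_add (hu : Slow u) (hv : Slow v) (n : ℕ) :
    (Av^[n] fun w => u w + v w) = fun w => Av^[n] u w + Av^[n] v w := by
  induction n with
  | zero => rfl
  | succ n ih =>
    simp only [Function.iterate_succ_apply', ih]
    exact funext (Av_add (hu.iter n) (hv.iter n))

theorem iter_sub (hu : Slow u) (hv : Slow v) (n : ℕ) :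
    (Av^[n] fun w => u w - v w) = fun w => Av^[n] u w - Av^[n] v w := by
  induction n with
  | zero => rfl
  | succ n ih =>
    simp only [Function.iterate_succ_apply', ih]
    exact funext (Av_sub (hu.iter n) (hv.iter n))

theorem iter_const_mul (c : ℝ) (u : ℍ → ℝ) (n : ℕ) :
    (Av^[n] fun w => c * u w) = fun w => c * Av^[n] u w := by
  induction n with
  | zero => rfl
  | succ n ih =>
    simp only [Function.iterate_succ_apply', ih]
    exact funext (Av_const_mul c _)

theorem iter_smul (u : ℍ → ℝ) (g : SL(2, ℝ)) (n : ℕ) :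
    (Av^[n] fun w => u (g • w)) = fun w => Av^[n] u (g • w) := by
  induction n with
  | zero => rfl
  | succ n ih =>
    simp only [Function.iterate_succ_apply', ih]
    exact funext fun z => (Av_smul _ g z).symm

theorem iter_sum {ι : Type*} (s : Finset ι) {f : ι → ℍ → ℝ} (h : ∀ i ∈ s, Slow (f i)) (n : ℕ) :
    (Av^[n] fun w => ∑ i ∈ s, f i w) = fun w => ∑ i ∈ s, Av^[n] (f i) w := by
  classical
  induction s using Finset.induction_on with
  | empty => simpa using iter_const 0 n
  | insert a s ha ih =>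
    simp only [Finset.sum_insert ha]
    rw [iter_add (h a (by simp)) (.sum s fun i hi => h i (by simp [hi])),
      ih fun i hi => h i (by simp [hi])]

theorem volume_ball (z : ℍ) (r : ℝ) : volume (ball z r) = volume (ball I r) := by
  rw [← measure_preimage_smul (μ := volume) z.toSL2R (ball z r)]
  congr 1
  ext w
  rw [mem_preimage, mem_ball, mem_ball, ← dist_smul z.toSL2R w I, toSL2R_smul_I]

theorem volume_ball_lt (z : ℍ) (r : ℝ) : volume (ball z r) < ⊤ :=
  (measure_mono ball_subset_closedBall).trans_lt (isCompact_closedBall z r).measure_lt_top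

theorem real_ball (z : ℍ) (r : ℝ) : volume.real (ball z r) = vb r := by
  rw [Measure.real, volume_ball, vb]

theorem vb_nonneg (r : ℝ) : 0 ≤ vb r := ENNReal.toReal_nonneg

theorem ch_le_of_ball {z w : ℍ} {r : ℝ} (h : w ∈ ball z r) :
    Real.cosh (dist z w) ≤ Real.cosh r := by
  rw [mem_ball, dist_comm] at h
  rw [Real.cosh_le_cosh, abs_of_nonneg dist_nonneg, abs_of_nonneg (dist_nonneg.trans h.le)]
  exact h.le

theorem Slow.ball_le (hu : Slow u) (r : ℝ) : ∃ C : ℝ, ∀ z, ∀ w ∈ ball z r,
    ‖u w‖ ≤ C * Real.cosh (dist I z) := by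
  obtain ⟨C, h0, hC⟩ := hu.le_at
  refine ⟨C * Real.cosh r, fun z w hw => (hC z w).trans ?_⟩
  have := mul_le_mul_of_nonneg_left (ch_le_of_ball hw)
    (mul_nonneg h0 (Real.cosh_pos (dist I z)).le)
  linarith

theorem Slow.integrableOn (hu : Slow u) (z : ℍ) (r : ℝ) : IntegrableOn u (ball z r) := by
  obtain ⟨C, hC⟩ := hu.ball_le r
  exact Measure.integrableOn_of_bounded (volume_ball_lt z r).ne hu.meas.aestronglyMeasurable
    ((ae_restrict_mem measurableSet_ball).mono (hC z))

theorem bint_eq (u : ℍ → ℝ) (z : ℍ) (r : ℝ) :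
    ∫ w in ball z r, u w = ∫ w, (if dist z w < r then 1 else 0) * u w := by
  rw [← integral_indicator measurableSet_ball]
  refine integral_congr_ae (.of_forall fun w => ?_)
  simp [indicator, dist_comm]

theorem measurable_ind (r : ℝ) :
    Measurable fun p : ℍ × ℍ => if dist p.1 p.2 < r then (1 : ℝ) else 0 :=
  Measurable.ite (measurableSet_lt continuous_dist.measurable measurable_const) measurable_const
    measurable_const

theorem Slow.bint (hu : Slow u) (r : ℝ) : Slow fun z => ∫ w in ball z r, u w := by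
  obtain ⟨C, hC⟩ := hu.ball_le r
  refine ⟨?_, C * vb r, fun z => ?_⟩
  · simp only [bint_eq]
    exact (((measurable_ind r).mul
      (hu.meas.comp measurable_snd)).stronglyMeasurable.integral_prod_right').measurable
  · have := norm_setIntegral_le_of_norm_le_const (volume_ball_lt z r) (hC z)
    rw [real_ball, Real.norm_eq_abs] at this
    linarith

theorem Slow.df (hu : Slow u) (r : ℝ) : Slow (Df r u) := (hu.bint r).sub (hu.const_mul _)

theorem bint_smul (u : ℍ → ℝ) (g : SL(2, ℝ)) (z : ℍ) (r : ℝ) :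
    ∫ w in ball (g • z) r, u w = ∫ w in ball z r, u (g • w) := by
  rw [bint_eq, bint_eq, ← integral_smul_eq_self (μ := volume)
    (fun w => (if dist (g • z) w < r then 1 else 0) * u w) (g := g)]
  simp only [dist_smul]

theorem Df_smul (r : ℝ) (u : ℍ → ℝ) (g : SL(2, ℝ)) (z : ℍ) :
    Df r u (g • z) = Df r (fun w => u (g • w)) z := by
  rw [Df, Df, bint_smul]

theorem Df_smul_int (r : ℝ) (u : ℍ → ℝ) (g : SL(2, ℤ)) (z : ℍ) :
    Df r u (g • z) = Df r (fun w => u (g • w)) z := Df_smul r u (toR g) z

theorem Df_const (r c : ℝ) (z : ℍ) : Df r (fun _ => c) z = 0 := by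
  simp [Df, real_ball]

theorem Df_add {r : ℝ} {z : ℍ} (hu : IntegrableOn u (ball z r)) (hv : IntegrableOn v (ball z r)) :
    Df r (fun w => u w + v w) z = Df r u z + Df r v z := by
  rw [Df, Df, Df, integral_add hu hv]; ring

theorem Df_sub {r : ℝ} {z : ℍ} (hu : IntegrableOn u (ball z r)) (hv : IntegrableOn v (ball z r)) :
    Df r (fun w => u w - v w) z = Df r u z - Df r v z := by
  rw [Df, Df, Df, integral_sub hu hv]; ring

theorem Df_const_mul (r c : ℝ) (u : ℍ → ℝ) (z : ℍ) :
    Df r (fun w => c * u w) z = c * Df r u z := by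
  rw [Df, Df, integral_const_mul]; ring

theorem Df_sum {ι : Type*} (s : Finset ι) {f : ι → ℍ → ℝ} {r : ℝ} {z : ℍ}
    (h : ∀ i ∈ s, IntegrableOn (f i) (ball z r)) :
    Df r (fun w => ∑ i ∈ s, f i w) z = ∑ i ∈ s, Df r (f i) z := by
  simp only [Df, Finset.sum_sub_distrib, Finset.mul_sum]
  rw [integral_finsetSum s h]

theorem Df_congr {r : ℝ} {z : ℍ} (hr : 0 < r) (h : ∀ w ∈ ball z r, u w = v w) :
    Df r u z = Df r v z := by
  rw [Df, Df, setIntegral_congr_fun measurableSet_ball h, h z (mem_ball_self hr)]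

theorem abs_Df_le {r C : ℝ} {z : ℍ} (hr : 0 < r) (h : ∀ w ∈ ball z r, |u w| ≤ C) :
    |Df r u z| ≤ 2 * vb r * C := by
  have h1 := norm_setIntegral_le_of_norm_le_const (f := u) (volume_ball_lt z r) h
  rw [real_ball, Real.norm_eq_abs] at h1
  have h2 := mul_le_mul_of_nonneg_left (h z (mem_ball_self hr)) (vb_nonneg r)
  refine (abs_sub _ _).trans ?_
  rw [abs_mul, abs_of_nonneg (vb_nonneg r)]
  linarith

/-- Radial kernels commute. -/
theorem conv_comm (k k' : ℝ → ℝ) (z w : ℍ) :
    ∫ v, k (dist z v) * k' (dist v w) = ∫ v, k' (dist z v) * k (dist v w) := by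
  obtain ⟨g, h1, h2⟩ := exists_swap z w
  rw [← integral_smul_eq_self (μ := volume) (fun v => k (dist z v) * k' (dist v w)) (g := g)]
  refine integral_congr_ae (.of_forall fun v => ?_)
  simp only
  have h3 : dist z (g • v) = dist v w := by rw [← h2, dist_smul, dist_comm]
  have h4 : dist (g • v) w = dist z v := by rw [← h1, dist_smul, dist_comm]
  rw [h3, h4, mul_comm]

theorem akr_symm (ε : ℝ) (z w : ℍ) : akr ε z w = akr ε w z := by
  rw [akr, akr, dist_comm]

theorem Av_bint (hu : Slow u) (r : ℝ) (z : ℍ) :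
    Av (fun v => ∫ w in ball v r, u w) z = ∫ w in ball z r, Av u w := by
  have hi : ∀ x : ℍ, Integrable fun v : ℍ => if dist x v < r then (1 : ℝ) else 0 := fun x => by
    have := (integrable_indicator_iff measurableSet_ball).mpr ((Slow.const 1).integrableOn x r)
    exact this.congr (.of_forall fun v => by simp [indicator, dist_comm])
  have hE : ∀ {x y : ℍ}, dist x y < r → Real.exp ((1 + 3) * dist x y) ≤ Real.exp (4 * r) :=
    fun h => Real.exp_le_exp.mpr (by linarith)
  have m1 : Measurable fun p : ℍ × ℍ =>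
      akr 3 z p.1 * ((if dist p.1 p.2 < r then 1 else 0) * u p.2) :=
    ((continuous_akr_right 3 z).measurable.comp measurable_fst).mul ((measurable_ind r).mul
      (hu.meas.comp measurable_snd))
  have h1 : Integrable (fun p : ℍ × ℍ =>
      akr 3 z p.1 * ((if dist p.1 p.2 < r then 1 else 0) * u p.2)) (volume.prod volume) := by
    rw [integrable_prod_iff m1.aestronglyMeasurable]
    constructor
    · refine .of_forall fun v => Integrable.const_mul (c := akr 3 z v) ?_
      have := (integrable_indicator_iff measurableSet_ball).mpr (hu.integrableOn v r)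
      exact this.congr (.of_forall fun v => by simp [indicator, dist_comm])
    · refine ((hu.abs.bint r).integrable z).congr (.of_forall fun v => ?_)
      simp only [bint_eq, norm_mul, integral_const_mul, Real.norm_eq_abs,
        abs_of_nonneg (akr_nonneg three_pos z v)]
      congr 2
      funext w
      split_ifs <;> simp
  have h2 : Integrable (fun p : ℍ × ℍ =>
      (if dist z p.1 < r then 1 else 0) * (akr 3 p.1 p.2 * u p.2)) (volume.prod volume) := by
    refine (((hi z).mul_prod (hu.integrable z).norm).const_mul (Real.exp (4 * r))).mono'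
      (Measurable.aestronglyMeasurable ?_) (.of_forall fun p => ?_)
    · exact ((measurable_ind r).comp (measurable_const.prodMk measurable_fst)).mul
        ((continuous_akr 3).measurable.mul (hu.meas.comp measurable_snd))
    · split_ifs with h
      · simp only [one_mul, norm_mul, Real.norm_of_nonneg (akr_nonneg three_pos _ _), ← mul_assoc]
        refine mul_le_mul_of_nonneg_right ((akr_le three_pos p.1 z p.2).trans ?_) (norm_nonneg _)
        exact mul_le_mul_of_nonneg_right (hE (by rwa [dist_comm])) (akr_nonneg three_pos _ _)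
      · simp
  simp only [Av, avg, bint_eq, ← integral_const_mul]
  rw [integral_integral_swap h1]
  refine Eq.trans ?_ (integral_integral_swap h2).symm
  refine integral_congr_ae (.of_forall fun w => ?_)
  simp only [← mul_assoc, integral_mul_const]
  congr 1
  exact conv_comm (fun t => 3 / (2 * π) * Real.cosh t ^ (-1 - 3 : ℝ))
    (fun t => if t < r then 1 else 0) z w

theorem Av_Df (hu : Slow u) (r : ℝ) : Av (Df r u) = Df r (Av u) := by
  funext z
  rw [Df, ← Av_bint hu, ← Av_const_mul, ← Av_sub (hu.bint r) (hu.const_mul _)]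
  rfl

theorem iter_Df (hu : Slow u) (r : ℝ) (n : ℕ) : Av^[n] (Df r u) = Df r (Av^[n] u) := by
  induction n with
  | zero => rfl
  | succ n ih => simp only [Function.iterate_succ_apply', ih, Av_Df (hu.iter n)]

/-- Radial kernels in polar coordinates. -/
theorem rad_polar (k : ℝ → ℝ) (hi : Integrable fun w => k (dist I w) * u w)
    (h : ∀ ζ : ℂ, ‖ζ‖ ∈ Ioo (0 : ℝ) 1 → k (dist I (cay ζ)) ≠ 0 →
      Real.circleAverage (fun ζ => u (cay ζ)) 0 ‖ζ‖ = 0) : ∫ w, k (dist I w) * u w = 0 := by
  have h0 : ∀ᵐ p : ℝ × ℝ ∂((volume.restrict (Ioo (0 : ℝ) 1)).prod (volume.restrict (Ioo (-π) π))),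
      p.1 ∈ Ioo (0 : ℝ) 1 := by
    rw [Measure.prod_restrict]
    filter_upwards [ae_restrict_mem (measurableSet_Ioo.prod measurableSet_Ioo)] with p hp
    exact hp.1
  have h1 := integral_of_lintegral (ρ := fun p : ℝ × ℝ => 4 * p.1 / (1 - p.1 ^ 2) ^ 2)
    (P := fun p : ℝ × ℝ => cay (circleMap 0 p.1 p.2)) (by fun_prop)
    (h0.mono fun p hp => by have := hp.1; positivity)
    (measurable_cay.comp (by unfold circleMap; fun_prop)) (fun f hf => lintegral_polar hf)
    (F := fun w => k (dist I w) * u w) hi.aestronglyMeasurable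
  rw [h1.2, integral_prod _ (h1.1.mp hi)]
  refine (setIntegral_congr_fun measurableSet_Ioo fun r hr => ?_).trans (integral_zero _ _)
  have h2 : ‖(r : ℂ)‖ = r := by simp [abs_of_pos hr.1]
  have h3 : ∀ θ, dist I (cay (circleMap 0 r θ)) = dist I (cay r) := fun θ =>
    dist_cay_eq (by rw [cayInv_cay (by rw [h2]; exact hr.2), h2]; simp [abs_of_pos hr.1])
  simp only [h3, ← mul_assoc, integral_const_mul]
  by_cases h4 : k (dist I (cay r)) = 0
  · simp [h4]
  · have := h r (by rwa [h2]) h4
    rw [circleAverage_eq_Ioo fun ζ => u (cay ζ), ← h2, this]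
    simp

theorem Df_of_circ {r : ℝ} (g : SL(2, ℝ)) (hu : IntegrableOn u (ball (g • I) r))
    (h : ∀ ζ : ℂ, ‖ζ‖ ∈ Ioo (0 : ℝ) 1 → dist I (cay ζ) < r →
      Real.circleAverage (fun ζ => u (g • cay ζ) - u (g • I)) 0 ‖ζ‖ = 0) : Df r u (g • I) = 0 := by
  have h1 : Df r u (g • I) = ∫ w in ball (g • I) r, (u w - u (g • I)) := by
    rw [integral_sub hu ((Slow.const _).integrableOn _ r)]
    simp [Df, real_ball]
  rw [h1, bint_smul, bint_eq]
  refine rad_polar (fun t => if t < r then 1 else 0) ?_ fun ζ hζ hk => h ζ hζ (by simpa using hk)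
  have h2 := (integrable_indicator_iff measurableSet_ball).mpr
    (hu.sub ((Slow.const (u (g • I))).integrableOn _ r))
  have h3 := (measurePreserving_smul g (volume : Measure ℍ)).integrable_comp_of_integrable h2
  exact h3.congr (.of_forall fun w => by simp [indicator, dist_comm])

theorem Av_of_circ (hu : Slow u)
    (h : ∀ ρ ∈ Ioo (0 : ℝ) 1, Real.circleAverage (fun ζ => u (cay ζ)) 0 ρ = u I) :
    Av u I = u I := by
  rw [Av, avg_polar hu.meas.aestronglyMeasurable (hu.integrable I),
    setIntegral_congr_fun measurableSet_Ioo fun r hr => by rw [h r hr], integral_mul_const,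
    (integral_nuK three_pos).2, one_mul]

end Pool.Agent.B5.HA
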