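import Pool.Agent.Lib.MP_696deb_nt.B5.HA0

/-! The averaging operator contracts on invariant functions. -/

set_option autoImplicit false

open Filter Topology Set MeasureTheory UpperHalfPlane Metric
open scoped Real MatrixGroups ENNReal NNReal

namespace Pool.Agent.B5.HA

open Pool.Agent.Lib.MP_696deb_nt

theorem volume_ball_ne {r : ℝ} (hr : 0 < r) (z : ℍ) : volume (ball z r) ≠ 0 := fun h => by
  have h1 : (volume : Measure ℍ) univ = 0 := measure_null_of_locally_null _ fun w _ =>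
    ⟨ball w r, mem_nhdsWithin_of_mem_nhds (ball_mem_nhds w hr),
      (volume_ball w r).trans ((volume_ball z r).symm.trans h)⟩
  have h2 := integral_akr one_pos I
  rw [Measure.measure_univ_eq_zero.mp h1] at h2
  simp at h2

instance openPos : (volume : Measure ℍ).IsOpenPosMeasure :=
  ⟨fun U hU ⟨z, hz⟩ h => by
    obtain ⟨r, hr, h1⟩ := Metric.isOpen_iff.mp hU z hz
    exact volume_ball_ne hr z (measure_mono_null h1 h)⟩

theorem vb_pos {r : ℝ} (hr : 0 < r) : 0 < vb r :=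
  ENNReal.toReal_pos (volume_ball_ne hr I) (volume_ball_lt I r).ne

/-- A matrix that moves the point as high as possible. -/
noncomputable def gm (z : ℍ) : SL(2, ℤ) := (ModularGroup.exists_max_im z).choose

/-- The invariant height. -/
noncomputable def ht (z : ℍ) : ℝ := (gm z • z).im

/-- The weight. -/
noncomputable def Vf (z : ℍ) : ℝ := √(ht z)

theorem le_ht (g : SL(2, ℤ)) (z : ℍ) : (g • z).im ≤ ht z :=
  (ModularGroup.exists_max_im z).choose_spec g

theorem ht_smul (g : SL(2, ℤ)) (z : ℍ) : ht (g • z) = ht z := by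
  refine le_antisymm ?_ ?_
  · rw [ht, smul_smul]
    exact le_ht _ _
  · have := le_ht (gm z * g⁻¹) (g • z)
    rwa [mul_smul, inv_smul_smul] at this

theorem half_le_ht (z : ℍ) : 1 / 2 ≤ ht z := by
  obtain ⟨g, hg⟩ := ModularGroup.exists_one_half_le_im_smul z
  exact hg.trans (le_ht g z)

theorem ht_le (z : ℍ) : ht z ≤ z.im ∨ ht z ≤ z.im⁻¹ := by
  have hz := z.im_pos
  have h1 := ModularGroup.im_smul_eq_div_normSq (gm z) z
  rw [ModularGroup.denom_apply] at h1
  rw [ht, h1]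
  have h2 := det_SL (gm z)
  generalize gm z 1 0 = c at *
  generalize gm z 1 1 = d at *
  have h3 : Complex.normSq ((c : ℂ) * z + d) = (c * z.re + d) ^ 2 + (c * z.im) ^ 2 := by
    simp [Complex.normSq_apply, sq]
  rw [h3]
  rcases eq_or_ne c 0 with rfl | hc
  · left
    have hd : d ≠ 0 := by
      rintro rfl
      simp at h2
    have : (1 : ℝ) ≤ (d : ℝ) ^ 2 := by exact_mod_cast (one_le_sq_iff_one_le_abs d).mpr (Int.one_le_abs hd)
    simp only [Int.cast_zero, zero_mul, zero_add, ne_eq, OfNat.ofNat_ne_zero, not_false_eq_true,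
      zero_pow, add_zero]
    exact div_le_self hz.le this
  · right
    have : (1 : ℝ) ≤ (c : ℝ) ^ 2 := by exact_mod_cast (one_le_sq_iff_one_le_abs c).mpr (Int.one_le_abs hc)
    have h4 : z.im ^ 2 ≤ (c * z.re + d) ^ 2 + (c * z.im) ^ 2 := by
      nlinarith [sq_nonneg (c * z.re + d), sq_nonneg z.im]
    refine (div_le_div_of_nonneg_left hz.le (by positivity) h4).trans_eq ?_
    field_simp

theorem measurable_ht : Measurable ht := by
  refine measurable_of_Ioi fun a => IsOpen.measurableSet ?_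
  have : ht ⁻¹' Ioi a = ⋃ g : SL(2, ℤ), {z : ℍ | a < (g • z).im} := by
    ext z
    simp only [mem_preimage, mem_Ioi, mem_iUnion, mem_ofPred_eq]
    exact ⟨fun h => ⟨_, h⟩, fun ⟨g, h⟩ => h.trans_le (le_ht g z)⟩
  rw [this]
  exact isOpen_iUnion fun g => isOpen_lt continuous_const
    (continuous_im.comp (continuous_smul_int g))

theorem Vf_nonneg (z : ℍ) : 0 ≤ Vf z := Real.sqrt_nonneg _

theorem Vf_smul (g : SL(2, ℤ)) (z : ℍ) : Vf (g • z) = Vf z := by rw [Vf, ht_smul, Vf]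

theorem sqrt_le_half {y : ℝ} (hy : 0 ≤ y) : √y ≤ (1 + y) / 2 := by
  nlinarith [Real.sq_sqrt hy, sq_nonneg (√y - 1)]

theorem Vf_le (z : ℍ) : Vf z ≤ √z.im + (1 + z.im⁻¹) := by
  have hz := inv_pos.mpr z.im_pos
  rcases ht_le z with h | h
  · linarith [Real.sqrt_le_sqrt h, show Vf z = √(ht z) from rfl]
  · linarith [Real.sqrt_le_sqrt h, show Vf z = √(ht z) from rfl, Real.sqrt_nonneg z.im,
      sqrt_le_half hz.le]

theorem Vf_le_of_half {z : ℍ} (h : 1 / 2 ≤ z.im) : Vf z ≤ √z.im + 3 := by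
  have : z.im⁻¹ ≤ 2 := by
    rw [inv_le_comm₀ z.im_pos two_pos]
    linarith
  linarith [Vf_le z]

theorem im_le_ch (w : ℍ) : w.im + w.im⁻¹ ≤ 2 * Real.cosh (dist I w) := by
  have hw := w.im_pos
  rw [cosh_dist']
  simp only [I_re, I_im]
  field_simp
  nlinarith [sq_nonneg w.re]

theorem slow_im : Slow fun w => w.im :=
  ⟨continuous_im.measurable, 2, fun w => by
    rw [abs_of_pos w.im_pos]
    linarith [im_le_ch w, inv_pos.mpr w.im_pos]⟩

theorem slow_inv : Slow fun w => w.im⁻¹ :=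
  ⟨continuous_im.measurable.inv, 2, fun w => by
    rw [abs_of_pos (inv_pos.mpr w.im_pos)]
    linarith [im_le_ch w, w.im_pos]⟩

theorem slow_sqrt : Slow fun w => √w.im :=
  ⟨continuous_im.measurable.sqrt, 2, fun w => by
    rw [abs_of_nonneg (Real.sqrt_nonneg _)]
    linarith [im_le_ch w, inv_pos.mpr w.im_pos, sqrt_le_half w.im_pos.le, one_le_ch I w]⟩

theorem Slow.of_le {u v : ℍ → ℝ} (hu : Measurable u) (hv : Slow v) (h : ∀ w, |u w| ≤ v w) :
    Slow u := by
  obtain ⟨C, hC⟩ := hv.le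
  exact ⟨hu, C, fun w => (h w).trans ((le_abs_self _).trans (hC w))⟩

theorem slow_Vf : Slow Vf :=
  .of_le measurable_ht.sqrt (slow_sqrt.add ((Slow.const 1).add slow_inv)) fun w => by
    rw [abs_of_nonneg (Vf_nonneg w)]
    exact Vf_le w

theorem im_toSL2R (z w : ℍ) : (z.toSL2R • w).im = z.im * w.im := by
  have h := Real.sqrt_pos.mpr z.im_pos
  have h1 : ((z.toSL2R • w : ℍ) : ℂ) = z.im * w + z.re := by
    have h2 : ((√z.im : ℝ) : ℂ) ≠ 0 := by exact_mod_cast h.ne'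
    have h3 : ((√z.im : ℝ) : ℂ) ^ 2 = z.im := by exact_mod_cast Real.sq_sqrt z.im_pos.le
    rw [coe_specialLinearGroup_apply]
    simp
    field_simp
    rw [h3]
    ring
  rw [← coe_im, h1]
  simp

theorem Av_sqrt (z : ℍ) : Av (fun w => √w.im) z = √z.im * Av (fun w => √w.im) I := by
  conv_lhs => rw [← toSL2R_smul_I z, Av_smul]
  simp only [im_toSL2R, Real.sqrt_mul z.im_pos.le, Av_const_mul]

theorem Av_inv (z : ℍ) : Av (fun w => w.im⁻¹) z = z.im⁻¹ * Av (fun w => w.im⁻¹) I := by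
  conv_lhs => rw [← toSL2R_smul_I z, Av_smul]
  simp only [im_toSL2R, mul_inv, Av_const_mul]

theorem Av_nonneg {u : ℍ → ℝ} (h : ∀ w, 0 ≤ u w) (z : ℍ) : 0 ≤ Av u z :=
  integral_nonneg fun w => mul_nonneg (akr_nonneg three_pos z w) (h w)

theorem Av_inv_le : ∃ K : ℝ, ∀ z : ℍ, 1 / 2 ≤ z.im → Av (fun w => w.im⁻¹) z ≤ K := by
  refine ⟨2 * Av (fun w => w.im⁻¹) I, fun z h => ?_⟩
  have : z.im⁻¹ ≤ 2 := by
    rw [inv_le_comm₀ z.im_pos two_pos]
    linarith
  rw [Av_inv]
  exact mul_le_mul_of_nonneg_right this (Av_nonneg (fun w => (inv_pos.mpr w.im_pos).le) _)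

theorem Av_sqrt_lt : Av (fun w => √w.im) I < 1 := by
  have h1 : Av (fun w => w.im) I = 1 := by
    refine (Av_of_circ slow_im fun ρ hρ => ?_).trans I_im
    simpa using circ_hol_clm (F := id) (fun _ _ => differentiableAt_id) Complex.imCLM 1 hρ
  have h2 : Slow fun w : ℍ => 1 / 2 + 1 / 2 * w.im := (Slow.const _).add (slow_im.const_mul _)
  have h3 : 0 < Av (fun w => 1 / 2 + 1 / 2 * w.im - √w.im) I := by
    refine integral_pos_of_integrable_nonneg_nonzero (x := ⟨⟨0, 4⟩, by norm_num⟩)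
      ((continuous_akr_right 3 I).mul (by fun_prop)) ((h2.sub slow_sqrt).integrable I)
      (fun w => mul_nonneg (akr_nonneg three_pos _ _) (by linarith [sqrt_le_half w.im_pos.le]))
      (mul_ne_zero (akr_pos three_pos _ _).ne' ?_)
    have : √(4 : ℝ) = 2 := by
      rw [show (4 : ℝ) = 2 ^ 2 by norm_num, Real.sqrt_sq two_pos.le]
    change 1 / 2 + 1 / 2 * (4 : ℝ) - √4 ≠ 0
    rw [this]
    norm_num
  rw [Av_sub h2 slow_sqrt, Av_add (Slow.const _) (slow_im.const_mul _), Av_const, Av_const_mul,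
    h1] at h3
  linarith

/-- The drift condition. -/
theorem drift : ∃ α K : ℝ, 0 ≤ α ∧ α < 1 ∧ 0 < K ∧ ∀ z, Av Vf z ≤ α * Vf z + K := by
  obtain ⟨K, hK⟩ := Av_inv_le
  refine ⟨_, 1 + |K|, Av_nonneg (fun w => Real.sqrt_nonneg _) I, Av_sqrt_lt, by positivity,
    fun z => ?_⟩
  have h1 : Av Vf z = Av Vf (gm z • z) := by simp only [Av_smul_int, Vf_smul]
  have h2 := Av_mono slow_Vf (slow_sqrt.add ((Slow.const 1).add slow_inv)) Vf_le (gm z • z)
  rw [Av_add slow_sqrt ((Slow.const 1).add slow_inv), Av_add (Slow.const 1) slow_inv, Av_const,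
    Av_sqrt] at h2
  have h3 := hK (gm z • z) (half_le_ht z)
  rw [h1, mul_comm]
  change _ ≤ √(gm z • z).im * _ + _
  linarith [le_abs_self K]

variable {Γ : Subgroup SL(2, ℤ)} {u v : ℍ → ℝ}

/-- Every point is equivalent to a point in the standard strip. -/
theorem exists_strip (z : ℍ) : ∃ (g : SL(2, ℤ)) (z₀ : ℍ), |z₀.re| ≤ 1 / 2 ∧ z₀.im = ht z ∧
    z = g • z₀ := by
  obtain ⟨n, z₀, h1, h2, h3⟩ := exists_T_smul (gm z • z)
  exact ⟨(gm z)⁻¹ * ModularGroup.T ^ n, z₀, h1, h2, by rw [mul_smul, ← h3, inv_smul_smul]⟩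

theorem exists_near (Γ : Subgroup SL(2, ℤ)) [Γ.FiniteIndex] (R : ℝ) : ∃ D : ℝ, ∀ z, Vf z ≤ R →
    ∃ γ ∈ Γ, ∃ z', z = γ • z' ∧ dist I z' ≤ D := by
  obtain ⟨G, hG⟩ := exists_reps Γ
  have h1 : IsCompact (⋃ r ∈ G, (fun z : ℍ => r • z) ''
      {z : ℍ | |z.re| ≤ 1 / 2 ∧ 1 / 2 ≤ z.im ∧ z.im ≤ R ^ 2}) :=
    G.isCompact_biUnion fun r _ => (isCompact_box _ _ one_half_pos).image (continuous_smul_int r)
  obtain ⟨D, hD⟩ := h1.isBounded.subset_closedBall I
  refine ⟨D, fun z hz => ?_⟩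
  obtain ⟨g, z₀, h2, h3, rfl⟩ := exists_strip z
  obtain ⟨γ, hγ, r, hr, rfl⟩ := hG g
  refine ⟨γ, hγ, r • z₀, mul_smul _ _ _, ?_⟩
  rw [dist_comm]
  refine hD (mem_biUnion hr ⟨z₀, ⟨h2, h3 ▸ half_le_ht _, ?_⟩, rfl⟩)
  rw [h3]
  exact (Real.sqrt_le_left ((Vf_nonneg _).trans hz)).mp hz

/-- One step of the contraction. -/
theorem step (Γ : Subgroup SL(2, ℤ)) [Γ.FiniteIndex] : ∃ β t : ℝ, 0 < β ∧ 0 ≤ t ∧ t < 1 ∧
    ∀ u : ℍ → ℝ, Measurable u → (∀ γ ∈ Γ, ∀ z, u (γ • z) = u z) → (∀ z, |u z| ≤ 1 + β * Vf z) →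
      ∃ c, ∀ z, |Av u z - c| ≤ t * (1 + β * Vf z) := by
  obtain ⟨α, K, hα0, hα, hK, hV⟩ := drift
  obtain ⟨R, hR⟩ : ∃ R, R = 4 * K / (1 - α) := ⟨_, rfl⟩
  have hR0 : 0 < R := by rw [hR]; exact div_pos (by positivity) (by linarith)
  have hR1 : R * (1 - α) = 4 * K := by rw [hR, div_mul_cancel₀ _ (by linarith)]
  obtain ⟨D, hD⟩ := exists_near Γ R
  obtain ⟨η, hη0, hη1, hη⟩ : ∃ η : ℝ, 0 < η ∧ η ≤ 1 ∧ ∀ z w, dist I z ≤ D →
      η * akr 3 I w ≤ akr 3 z w := by
    refine ⟨Real.exp (-(4 * |D|)), Real.exp_pos _, Real.exp_le_one_iff.mpr (by simp), fun z w h => ?_⟩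
    rw [Real.exp_neg, inv_mul_le_iff₀ (Real.exp_pos _)]
    exact (akr_le three_pos I z w).trans (mul_le_mul_of_nonneg_right
      (Real.exp_le_exp.mpr (by linarith [le_abs_self D])) (akr_nonneg three_pos _ _))
  obtain ⟨β, hβ0, hβ⟩ : ∃ β : ℝ, 0 < β ∧ β * (2 * K) = η :=
    ⟨η / (2 * K), by positivity, div_mul_cancel₀ _ (by positivity)⟩
  obtain ⟨t, ht1, h1, h2, h3⟩ : ∃ t : ℝ, t < 1 ∧ (1 + α) / 2 ≤ t ∧ 1 - η / 2 ≤ t ∧
      2 + β * ((1 + α) / 2) * R ≤ t * (2 + β * R) := by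
    have h0 : 0 < 2 + β * R := by positivity
    refine ⟨max (max ((1 + α) / 2) (1 - η / 2)) ((2 + β * ((1 + α) / 2) * R) / (2 + β * R)),
      max_lt (max_lt (by linarith) (by linarith)) ((div_lt_one h0).mpr ?_),
      le_max_of_le_left (le_max_left _ _), le_max_of_le_left (le_max_right _ _),
      (div_le_iff₀ h0).mp (le_max_right _ _)⟩
    nlinarith [mul_pos hβ0 hR0]
  refine ⟨β, t, hβ0, by linarith, ht1, fun u hu hi hb => ?_⟩
  have hM : Slow fun z => 1 + β * Vf z := (Slow.const 1).add (slow_Vf.const_mul β)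
  have hs : Slow u := .of_le hu hM hb
  have hA : ∀ z, Av (fun z => 1 + β * Vf z) z ≤ 1 + β * (α * Vf z + K) := fun z => by
    rw [Av_add (Slow.const 1) (slow_Vf.const_mul β), Av_const, Av_const_mul]
    linarith [mul_le_mul_of_nonneg_left (hV z) hβ0.le]
  have hB : ∀ z, Vf z ≤ R → |Av u z - η * Av u I| ≤ 1 - η + β * (α * Vf z + K) := fun z hz => by
    obtain ⟨γ, hγ, z', rfl, h⟩ := hD z hz
    rw [Vf_smul, Av_smul_int]
    simp only [hi γ hγ]
    have e1 : ∀ {f : ℍ → ℝ}, Slow f → Av f z' - η * Av f I =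
        ∫ w, (akr 3 z' w - η * akr 3 I w) * f w := fun hf => by
      simp only [sub_mul, mul_assoc]
      rw [integral_sub (hf.integrable _) ((hf.integrable _).const_mul _), integral_const_mul]
      rfl
    have e2 : |Av u z' - η * Av u I| ≤
        Av (fun z => 1 + β * Vf z) z' - η * Av (fun z => 1 + β * Vf z) I := by
      rw [e1 hs, e1 hM]
      refine abs_integral_le_integral_abs.trans (integral_mono_of_nonneg
        (.of_forall fun _ => abs_nonneg _) ?_ (.of_forall fun w => ?_))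
      · simp only [sub_mul, mul_assoc]
        exact (hM.integrable _).sub ((hM.integrable _).const_mul _)
      · have := sub_nonneg.mpr (hη z' w h)
        simp only [abs_mul, abs_of_nonneg this]
        exact mul_le_mul_of_nonneg_left (hb w) this
    have e3 := Av_mono (Slow.const 1) hM
      (fun w => le_add_of_nonneg_right (mul_nonneg hβ0.le (Vf_nonneg w))) I
    rw [Av_const] at e3
    nlinarith [hA z']
  have hP : ∀ x y, Av u x - t * (1 + β * Vf x) ≤ Av u y + t * (1 + β * Vf y) := fun x y => by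
    have hx := Vf_nonneg x
    have hy := Vf_nonneg y
    rcases le_total (Vf x + Vf y) R with h | h
    · have e1 := (abs_le.mp (hB x (by linarith))).2
      have e2 := (abs_le.mp (hB y (by linarith))).1
      have e3 : α * (β * (Vf x + Vf y)) ≤ t * (β * (Vf x + Vf y)) :=
        mul_le_mul_of_nonneg_right (by linarith) (by positivity)
      nlinarith
    · have e1 := (abs_le.mp ((abs_Av_le hM hb x).trans (hA x))).2
      have e2 := (abs_le.mp ((abs_Av_le hM hb y).trans (hA y))).1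
      have e3 : (1 + α) / 2 * (β * (Vf x + Vf y - R)) ≤ t * (β * (Vf x + Vf y - R)) :=
        mul_le_mul_of_nonneg_right h1 (mul_nonneg hβ0.le (by linarith))
      have e4 : 0 ≤ β * ((1 - α) * (Vf x + Vf y - R)) :=
        mul_nonneg hβ0.le (mul_nonneg (by linarith) (by linarith))
      have e5 : β * (R * (1 - α)) = β * (4 * K) := by rw [hR1]
      nlinarith
  have hbd : BddAbove (range fun x => Av u x - t * (1 + β * Vf x)) :=
    ⟨_, by rintro _ ⟨x, rfl⟩; exact hP x I⟩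
  refine ⟨⨆ x, (Av u x - t * (1 + β * Vf x)), fun z => abs_le.mpr ⟨?_, ?_⟩⟩
  · linarith [ciSup_le fun x => hP x z]
  · linarith [le_ciSup hbd z]

/-- Invariant functions of moderate growth. -/
structure Mod (Γ : Subgroup SL(2, ℤ)) (u : ℍ → ℝ) : Prop where
  meas : Measurable u
  inv : ∀ γ ∈ Γ, ∀ z, u (γ • z) = u z
  le : ∃ C : ℝ, ∀ z, |u z| ≤ C * (1 + Vf z)

/-- The iterated averages tend to the constant `c`. -/
def Conv (u : ℍ → ℝ) (c : ℝ) : Prop :=
  ∃ C t : ℝ, 0 ≤ C ∧ 0 ≤ t ∧ t < 1 ∧ ∀ n z, |Av^[n] u z - c| ≤ C * t ^ n * (1 + Vf z)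

theorem slow_one_add : Slow fun z => 1 + Vf z := (Slow.const 1).add slow_Vf

theorem Mod.slow (hu : Mod Γ u) : Slow u := by
  obtain ⟨C, hC⟩ := hu.le
  exact .of_le hu.meas (slow_one_add.const_mul C) hC

theorem Mod.of_bdd (hu : Measurable u) (hi : ∀ γ ∈ Γ, ∀ z, u (γ • z) = u z) {C : ℝ}
    (h : ∀ z, |u z| ≤ C) : Mod Γ u :=
  ⟨hu, hi, C, fun z => (h z).trans (le_mul_of_one_le_right ((abs_nonneg _).trans (h z))
    (le_add_of_nonneg_right (Vf_nonneg z)))⟩

theorem Mod.add (hu : Mod Γ u) (hv : Mod Γ v) : Mod Γ fun w => u w + v w := by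
  obtain ⟨C, hC⟩ := hu.le
  obtain ⟨D, hD⟩ := hv.le
  exact ⟨hu.meas.add hv.meas, fun γ h z => by rw [hu.inv γ h, hv.inv γ h], C + D,
    fun w => (abs_add_le _ _).trans (by linarith [hC w, hD w])⟩

theorem Mod.const_mul (hu : Mod Γ u) (c : ℝ) : Mod Γ fun w => c * u w := by
  obtain ⟨C, hC⟩ := hu.le
  refine ⟨hu.meas.const_mul c, fun γ h z => by rw [hu.inv γ h], |c| * C, fun w => ?_⟩
  rw [abs_mul, mul_assoc]
  exact mul_le_mul_of_nonneg_left (hC w) (abs_nonneg _)

theorem Mod.sum {ι : Type*} (s : Finset ι) {f : ι → ℍ → ℝ} (h : ∀ i ∈ s, Mod Γ (f i)) :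
    Mod Γ fun w => ∑ i ∈ s, f i w := by
  classical
  induction s using Finset.induction_on with
  | empty => exact .of_bdd (by simp) (by simp) (C := 0) (by simp)
  | insert a s ha ih =>
    simp only [Finset.sum_insert ha]
    exact (h a (by simp)).add (ih fun i hi => h i (by simp [hi]))

theorem iter_inv (hi : ∀ γ ∈ Γ, ∀ z, u (γ • z) = u z) (n : ℕ) :
    ∀ γ ∈ Γ, ∀ z, Av^[n] u (γ • z) = Av^[n] u z := by
  induction n with
  | zero => exact hi
  | succ n ih =>
    intro γ h z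
    simp only [Function.iterate_succ_apply', Av_smul_int, ih γ h]

/-- The iterated averages converge geometrically. -/
theorem Mod.conv [Γ.FiniteIndex] (hu : Mod Γ u) : ∃ c, Conv u c := by
  obtain ⟨β, t, hβ, ht0, ht1, H⟩ := step Γ
  obtain ⟨s, hs, h0⟩ : ∃ s : ℝ, 0 < s ∧ ∀ z, |u z| ≤ s * (1 + β * Vf z) := by
    obtain ⟨C, hC⟩ := hu.le
    refine ⟨(|C| + 1) * (1 + β⁻¹), by positivity, fun z => (hC z).trans ?_⟩
    have h1 := Vf_nonneg z
    have h2 : 1 + Vf z ≤ (1 + β⁻¹) * (1 + β * Vf z) := by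
      have : β⁻¹ * (β * Vf z) = Vf z := by field_simp
      nlinarith [inv_pos.mpr hβ, mul_nonneg hβ.le h1]
    rw [mul_assoc]
    exact mul_le_mul (by linarith [le_abs_self C]) h2 (by positivity) (by positivity)
  obtain ⟨τ, hτ0, hτ1, hτ⟩ : ∃ τ : ℝ, 0 < τ ∧ τ < 1 ∧ t ≤ τ := ⟨(t + 1) / 2, by linarith,
    by linarith, by linarith⟩
  have hM : Slow fun z => 1 + β * Vf z := (Slow.const 1).add (slow_Vf.const_mul β)
  have hM0 : ∀ z, 0 < 1 + β * Vf z := fun z => by have := Vf_nonneg z; positivity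
  have h1 : ∀ n : ℕ, ∃ c, ∀ z, |Av^[n] u z - c| ≤ s * τ ^ n * (1 + β * Vf z) := fun n => by
    induction n with
    | zero => exact ⟨0, by simpa using h0⟩
    | succ n ih =>
      obtain ⟨c, hc⟩ := ih
      have e0 : 0 < s * τ ^ n := by positivity
      obtain ⟨c', hc'⟩ := H (fun z => (s * τ ^ n)⁻¹ * (Av^[n] u z - c))
        (((hu.slow.iter n).meas.sub_const c).const_mul _)
        (fun γ h z => by rw [iter_inv hu.inv n γ h]) fun z => by
          rw [abs_mul, abs_of_pos (inv_pos.mpr e0), inv_mul_le_iff₀ e0]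
          exact hc z
      refine ⟨c + s * τ ^ n * c', fun z => ?_⟩
      have e1 := hc' z
      rw [Av_const_mul, Av_sub (hu.slow.iter n) (Slow.const c), Av_const] at e1
      have e2 : Av (Av^[n] u) z - (c + s * τ ^ n * c') =
          s * τ ^ n * ((s * τ ^ n)⁻¹ * (Av (Av^[n] u) z - c) - c') := by
        field_simp
        ring
      rw [Function.iterate_succ_apply', e2, abs_mul, abs_of_pos e0, pow_succ, ← mul_assoc,
        mul_assoc (s * τ ^ n)]
      exact mul_le_mul_of_nonneg_left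
        (e1.trans (mul_le_mul_of_nonneg_right hτ (hM0 z).le)) e0.le
  choose c hc using h1
  obtain ⟨M, hM1, h2⟩ : ∃ M : ℝ, 0 ≤ M ∧ ∀ n, dist (c n) (c (n + 1)) ≤ M * τ ^ n := by
    have e0 := Av_nonneg (fun z => (hM0 z).le) I
    have e4 := hM0 I
    refine ⟨s * (Av (fun z => 1 + β * Vf z) I + τ * (1 + β * Vf I)), by positivity, fun n => ?_⟩
    have e1 := abs_Av_le (hM.const_mul _) (hc n) I
    rw [Av_const_mul, Av_sub (hu.slow.iter n) (Slow.const _), Av_const] at e1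
    have e2 := hc (n + 1) I
    rw [Function.iterate_succ_apply', pow_succ] at e2
    refine (dist_triangle_left _ _ (Av (Av^[n] u) I)).trans ?_
    rw [Real.dist_eq, Real.dist_eq]
    linarith
  obtain ⟨c₀, h3⟩ := cauchySeq_tendsto_of_complete (cauchySeq_of_le_geometric τ M hτ1 h2)
  have h4 := dist_le_of_le_geometric_of_tendsto τ M hτ1 h2 h3
  have h5 : 0 ≤ M / (1 - τ) := div_nonneg hM1 (by linarith)
  refine ⟨c₀, s * (1 + β) + M / (1 - τ), τ, by positivity, hτ0.le, hτ1, fun n z => ?_⟩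
  have e1 := h4 n
  rw [Real.dist_eq, mul_div_right_comm] at e1
  have e2 := Vf_nonneg z
  have e3 : s * τ ^ n * (1 + β * Vf z) ≤ s * τ ^ n * ((1 + β) * (1 + Vf z)) :=
    mul_le_mul_of_nonneg_left (by nlinarith) (by positivity)
  have e4 : 0 ≤ M / (1 - τ) * τ ^ n * Vf z := by positivity
  refine (abs_sub_le _ (c n) _).trans ?_
  linarith [hc n z]

theorem Conv.tendsto {c : ℝ} (h : Conv u c) (z : ℍ) :
    Tendsto (fun n => Av^[n] u z) atTop (𝓝 c) := by
  obtain ⟨C, t, -, h0, h1, h2⟩ := h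
  rw [tendsto_iff_dist_tendsto_zero]
  refine squeeze_zero (fun _ => dist_nonneg) (fun n => h2 n z) ?_
  simpa using ((tendsto_pow_atTop_nhds_zero_of_lt_one h0 h1).const_mul C).mul_const (1 + Vf z)

theorem Conv.df {c r : ℝ} (h : Conv u c) (hu : Slow u) (hr : 0 < r) (z : ℍ) :
    Tendsto (fun n => Av^[n] (Df r u) z) atTop (𝓝 0) := by
  obtain ⟨C, t, hC, h0, h1, h2⟩ := h
  obtain ⟨B, hB⟩ := slow_one_add.ball_le r
  refine squeeze_zero_norm (a := fun n => 2 * vb r * (C * t ^ n * (B * Real.cosh (dist I z))))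
    (fun n => ?_) ?_
  · have := Df_sub ((hu.iter n).integrableOn z r) ((Slow.const c).integrableOn z r)
    rw [Df_const, sub_zero] at this
    rw [iter_Df hu, ← this]
    exact abs_Df_le hr fun w hw => (h2 n w).trans
      (mul_le_mul_of_nonneg_left ((le_abs_self _).trans (hB z w hw)) (by positivity))
  · simpa using (((tendsto_pow_atTop_nhds_zero_of_lt_one h0 h1).const_mul C).mul_const
      (B * Real.cosh (dist I z))).const_mul (2 * vb r)

theorem hasSum_int {X ι : Type*} [MeasurableSpace X] [Countable ι] {μ : Measure X}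
    {F : ι → X → ℝ} (hm : ∀ i, AEStronglyMeasurable (F i) μ) {M : X → ℝ} (hM : Integrable M μ)
    (h : ∀ w (s : Finset ι), ∑ i ∈ s, |F i w| ≤ M w) :
    HasSum (fun i => ∫ w, F i w ∂μ) (∫ w, ∑' i, F i w ∂μ) := by
  have hi : ∀ i, Integrable (F i) μ := fun i =>
    hM.mono' (hm i) (.of_forall fun w => by simpa using h w {i})
  refine hasSum_integral_of_summable_integral_norm hi (summable_of_sum_le (c := ∫ w, M w ∂μ)
    (fun i => integral_nonneg fun _ => norm_nonneg _) fun s => ?_)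
  rw [← integral_finsetSum s fun i _ => (hi i).norm]
  exact integral_mono (integrable_finsetSum s fun i _ => (hi i).norm) hM fun w => h w s

theorem hasSum_Av {ι : Type*} [Countable ι] {F : ι → ℍ → ℝ} (hm : ∀ i, Measurable (F i))
    {M : ℍ → ℝ} (hM : Slow M) (h : ∀ w (s : Finset ι), ∑ i ∈ s, |F i w| ≤ M w) (z : ℍ) :
    HasSum (fun i => Av (F i) z) (Av (fun w => ∑' i, F i w) z) := by
  have := hasSum_int (F := fun i w => akr 3 z w * F i w) (fun i =>
    ((continuous_akr_right 3 z).measurable.mul (hm i)).aestronglyMeasurable) (hM.integrable z)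
    fun w s => by
      simp only [abs_mul, abs_of_nonneg (akr_nonneg three_pos z w), ← Finset.mul_sum]
      exact mul_le_mul_of_nonneg_left (h w s) (akr_nonneg three_pos z w)
  simpa only [tsum_mul_left, Av, avg] using this

theorem hasSum_Df {ι : Type*} [Countable ι] {F : ι → ℍ → ℝ} (hm : ∀ i, Measurable (F i))
    {M : ℍ → ℝ} (hM : Slow M) (h : ∀ w (s : Finset ι), ∑ i ∈ s, |F i w| ≤ M w) (r : ℝ) (z : ℍ) :
    HasSum (fun i => Df r (F i) z) (Df r (fun w => ∑' i, F i w) z) :=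
  (hasSum_int (fun i => (hm i).aestronglyMeasurable) (hM.integrableOn z r) h).sub
    ((summable_of_sum_le (fun _ => abs_nonneg _) (h z)).of_abs.hasSum.mul_left _)

/-- The Poisson equation. -/
theorem Mod.solve [Γ.FiniteIndex] (hu : Mod Γ u) :
    ∃ (c : ℝ) (v : ℍ → ℝ), Mod Γ v ∧ ∀ z, v z - Av v z = u z - c := by
  obtain ⟨c, hc⟩ := hu.conv
  obtain ⟨C, t, hC, h0, h1, h2⟩ := id hc
  have hm : ∀ n : ℕ, Measurable fun z => Av^[n] u z - c := fun n =>
    (hu.slow.iter n).meas.sub_const c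
  have h3 : ∀ z (s : Finset ℕ), ∑ n ∈ s, |Av^[n] u z - c| ≤ C * (1 - t)⁻¹ * (1 + Vf z) :=
    fun z s => (Finset.sum_le_sum fun n _ => h2 n z).trans (sum_le_hasSum s (fun n _ => by
      have := Vf_nonneg z
      positivity) (((hasSum_geometric_of_lt_one h0 h1).mul_left C).mul_right _))
  have h4 : ∀ z, Summable fun n => |Av^[n] u z - c| := fun z =>
    summable_of_sum_le (fun _ => abs_nonneg _) (h3 z)
  refine ⟨c, fun z => ∑' n, (Av^[n] u z - c), ⟨Measurable.tsum hm, fun γ h z => by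
    simp only [iter_inv hu.inv _ γ h], C * (1 - t)⁻¹, fun z => ?_⟩, fun z => ?_⟩
  · exact (norm_tsum_le_tsum_norm (f := fun n => Av^[n] u z - c) (h4 z)).trans
      ((h4 z).tsum_le_of_sum_le (h3 z))
  · rw [← (hasSum_Av hm (slow_one_add.const_mul _) h3 z).tsum_eq]
    beta_reduce
    rw [(h4 z).of_abs.tsum_eq_zero_add]
    simp only [Av_sub (hu.slow.iter _) (Slow.const c), Av_const, Function.iterate_succ_apply']
    simp

end Pool.Agent.B5.HA
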