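import Pool.Agent.Lib.MP_696deb_nt.B5.HA1

/-! Functions with the mean value property on small balls are harmonic; behaviour at cusps. -/

set_option autoImplicit false

open Filter Topology Set MeasureTheory UpperHalfPlane Metric
open scoped Real MatrixGroups ENNReal NNReal ComplexConjugate

namespace Pool.Agent.B5.HA

open Pool.Agent.Lib.MP_696deb_nt

theorem integrableOn_ball {u : ℍ → ℝ} (hu : Continuous u) (z : ℍ) (r : ℝ) :
    IntegrableOn u (ball z r) :=
  (hu.continuousOn.integrableOn_compact (isCompact_closedBall z r)).mono_set ball_subset_closedBall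

theorem Df_hol {F : ℂ → ℂ} (hF : Hol F) (L : ℂ →L[ℝ] ℝ) (r : ℝ) (z : ℍ) :
    Df r (fun w => L (F w)) z = 0 := by
  have hc : Continuous fun w : ℍ => L (F w) := L.continuous.comp hF.continuous_coe
  rw [← toSL2R_smul_I z]
  refine Df_of_circ _ (integrableOn_ball hc _ r) fun ζ hζ _ => ?_
  rw [Real.circleAverage_fun_sub
    (circleIntegrable_cay (f := fun w => L (F (z.toSL2R • w : ℍ)))
      (hc.comp (continuous_const_smul z.toSL2R)) hζ)
    (circleIntegrable_const _ _ _), circ_hol_clm hF L _ hζ, Real.circleAverage_const, sub_self]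

theorem dist_cay_le {ζ ξ : ℂ} (h : ‖ξ‖ ≤ ‖ζ‖) (h1 : ‖ζ‖ < 1) : dist I (cay ξ) ≤ dist I (cay ζ) := by
  have h2 : Real.cosh (dist I (cay ξ)) ≤ Real.cosh (dist I (cay ζ)) := by
    have h3 : ‖ξ‖ ^ 2 ≤ ‖ζ‖ ^ 2 := by gcongr
    have h4 : ‖ζ‖ ^ 2 < 1 := by nlinarith [norm_nonneg ζ]
    rw [cosh_dist_cay h1, cosh_dist_cay (h.trans_lt h1)]
    gcongr
  rwa [Real.cosh_le_cosh, abs_of_nonneg dist_nonneg, abs_of_nonneg dist_nonneg] at h2

theorem Df_log {F : ℂ → ℂ} (hF : Hol F) {r : ℝ} {z : ℍ} (h : ∀ w ∈ ball z r, F w ≠ 0)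
    (hi : IntegrableOn (fun w : ℍ => Real.log ‖F w‖) (ball z r)) :
    Df r (fun w => Real.log ‖F w‖) z = 0 := by
  rw [← toSL2R_smul_I z] at h hi ⊢
  refine Df_of_circ _ hi fun ζ hζ hr => ?_
  have h1 : AnalyticOnNhd ℂ (fun ξ => F (z.toSL2R • cay ξ : ℍ)) (closedBall 0 |‖ζ‖|) :=
    (DifferentiableOn.analyticOnNhd (fun ξ hξ => ((hF _ (im_pos _)).comp ξ
      (differentiableAt_smul_cay _ (by simpa using hξ))).differentiableWithinAt)
      isOpen_ball).mono (closedBall_subset_ball (by simpa using hζ.2))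
  have h2 : ∀ ξ ∈ closedBall (0 : ℂ) |‖ζ‖|, F (z.toSL2R • cay ξ : ℍ) ≠ 0 := fun ξ hξ => h _ (by
    rw [mem_ball, dist_smul, dist_comm]
    exact (dist_cay_le (by simpa using hξ) hζ.2).trans_lt hr)
  rw [Real.circleAverage_fun_sub (ContinuousOn.circleIntegrable' ((h1.continuousOn.norm.log
      fun ξ hξ => norm_ne_zero_iff.mpr (h2 ξ hξ)).mono sphere_subset_closedBall))
    (circleIntegrable_const _ _ _), h1.circleAverage_log_norm_of_ne_zero h2, cay_zero,
    Real.circleAverage_const, sub_self]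

/-- The maximum principle. -/
theorem max_principle {H : ℍ → ℝ} (hH : Continuous H) {K U : Set ℍ} (hK : IsCompact K)
    (hU : IsOpen U) (hUK : U ⊆ K) (h : ∀ z ∈ U, ∀ r ∈ Ioo (0 : ℝ) 1, 0 ≤ Df r H z) {M : ℝ}
    (hM : ∀ z ∈ K, z ∉ U → H z ≤ M) : ∀ z ∈ K, H z ≤ M := by
  intro z hz
  obtain ⟨p, hp, h1⟩ := hK.exists_isMaxOn ⟨z, hz⟩ hH.continuousOn
  obtain ⟨q, ⟨hq, hq'⟩, h2⟩ := (hK.inter_right
    (isClosed_eq hH (continuous_const (y := H p)))).exists_isMaxOn ⟨p, hp, rfl⟩
    continuous_re.continuousOn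
  refine (h1 hz).trans (hq'.symm.trans_le (hM q hq fun hqU => ?_))
  obtain ⟨r₀, hr₀, h3⟩ := Metric.isOpen_iff.mp hU q hqU
  obtain ⟨r, hr, h4⟩ : ∃ r ∈ Ioo (0 : ℝ) 1, ball q r ⊆ K :=
    ⟨min r₀ (1 / 2), ⟨by positivity, (min_le_right _ _).trans_lt (by norm_num)⟩,
      ((ball_subset_ball (min_le_left _ _)).trans h3).trans hUK⟩
  have h5 : ∀ w ∈ ball q r, 0 ≤ H q - H w := fun w hw =>
    sub_nonneg.mpr ((h1 (h4 hw)).trans_eq hq'.symm)
  have h6 : IntegrableOn (fun w => H q - H w) (ball q r) :=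
    integrableOn_ball (continuous_const.sub hH) q r
  have h7 : ∫ w in ball q r, (H q - H w) = 0 := by
    refine le_antisymm ?_ (setIntegral_nonneg measurableSet_ball h5)
    have := h q hqU r hr
    rw [integral_sub ((Slow.const _).integrableOn q r) (integrableOn_ball hH q r)]
    simp only [integral_const, MeasurableSet.univ, measureReal_restrict_apply, univ_inter,
      real_ball, smul_eq_mul]
    rw [Df] at this
    linarith
  rw [setIntegral_eq_zero_iff_of_nonneg_ae ((ae_restrict_mem measurableSet_ball).mono h5) h6] at h7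
  have h8 := Measure.eqOn_open_of_ae_eq h7 isOpen_ball (continuous_const.sub hH).continuousOn
    continuousOn_const
  have h9 : Continuous fun t : ℝ => t +ᵥ q := by
    rw [isEmbedding_coe.continuous_iff]
    simp only [Function.comp_def, coe_vadd]
    fun_prop
  have h10 : ∀ᶠ t : ℝ in 𝓝[>] 0, t +ᵥ q ∈ ball q r := nhdsWithin_le_nhds
    (h9.continuousAt.eventually_mem (by simpa using ball_mem_nhds q hr.1))
  obtain ⟨t, ht, ht0⟩ := (h10.and self_mem_nhdsWithin).exists
  have h11 := h2 (a := t +ᵥ q) ⟨h4 ht, (sub_eq_zero.mp (h8 ht)).symm.trans hq'⟩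
  simp only [mem_ofPred_eq, vadd_re] at h11
  linarith [show 0 < t from ht0]

theorem approx_circle {h : ℂ → ℝ} {ρ : ℝ} (hρ : 0 < ρ) (hc : ContinuousOn h (sphere 0 ρ)) {δ : ℝ}
    (hδ : 0 < δ) : ∃ P : ℂ → ℂ, Differentiable ℂ P ∧ ∀ ζ ∈ sphere 0 ρ, |h ζ - (P ζ).re| ≤ δ := by
  have : Fact (0 < 2 * π) := ⟨Real.two_pi_pos⟩
  have hρ' : (ρ : ℂ) ≠ 0 := by exact_mod_cast hρ.ne'
  let f : C(AddCircle (2 * π), ℂ) := ⟨fun x => h (ρ * AddCircle.toCircle x),
    Complex.continuous_ofReal.comp (hc.comp_continuous (continuous_const.mul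
      (continuous_subtype_val.comp AddCircle.continuous_toCircle)) fun x => by
        simp [abs_of_pos hρ, Circle.norm_coe])⟩
  have h1 : f ∈ (Submodule.span ℂ (range (@fourier (2 * π)))).topologicalClosure := by
    rw [span_fourier_closure_eq_top]
    trivial
  obtain ⟨g, hg, h2⟩ := Metric.mem_closure_iff.mp h1 δ hδ
  have h3 : ∃ P Q : ℂ → ℂ, Differentiable ℂ P ∧ Differentiable ℂ Q ∧ ∀ x,
      g x = P (ρ * AddCircle.toCircle x) + conj (Q (ρ * AddCircle.toCircle x)) := by
    clear h2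
    induction hg using Submodule.span_induction with
    | mem g hg =>
      obtain ⟨n, rfl⟩ := hg
      have e : ∀ (k : ℕ) (x : AddCircle (2 * π)),
          fourier k x = (ρ * (AddCircle.toCircle x : ℂ) / ρ) ^ k := fun k x => by
        rw [fourier_apply, AddCircle.toCircle_zsmul, mul_div_cancel_left₀ _ hρ']
        simp
      obtain ⟨k, rfl | rfl⟩ := n.eq_nat_or_neg
      · exact ⟨fun ζ => (ζ / ρ) ^ k, 0, by fun_prop, by fun_prop, fun x => by simp only [e]; simp⟩
      · exact ⟨0, fun ζ => (ζ / ρ) ^ k, by fun_prop, by fun_prop, fun x => by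
          simp only [fourier_neg, e]; simp⟩
    | zero => exact ⟨0, 0, by fun_prop, by fun_prop, by simp⟩
    | add g g' _ _ ih ih' =>
      obtain ⟨P, Q, a1, a2, a3⟩ := ih
      obtain ⟨P', Q', b1, b2, b3⟩ := ih'
      exact ⟨P + P', Q + Q', a1.add b1, a2.add b2, fun x => by
        simp only [ContinuousMap.add_apply, a3, b3, Pi.add_apply, map_add]; ring⟩
    | smul c g _ ih =>
      obtain ⟨P, Q, a1, a2, a3⟩ := ih
      exact ⟨fun ζ => c * P ζ, fun ζ => conj c * Q ζ, a1.const_mul _, a2.const_mul _, fun x => by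
        simp only [ContinuousMap.smul_apply, a3, smul_eq_mul, map_mul, Complex.conj_conj]; ring⟩
  obtain ⟨P, Q, a1, a2, a3⟩ := h3
  refine ⟨P + Q, a1.add a2, fun ζ hζ => ?_⟩
  have h4 : ρ * (AddCircle.toCircle ((ζ.arg : ℝ) : AddCircle (2 * π)) : ℂ) = ζ := by
    rw [AddCircle.toCircle_apply_mk, div_self Real.two_pi_pos.ne', one_mul, Circle.coe_exp,
      ← mem_sphere_zero_iff_norm.mp hζ, Complex.norm_mul_exp_arg_mul_I]
  have h5 := (ContinuousMap.dist_apply_le_dist (f := f) (g := g) ζ.arg).trans h2.le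
  rw [dist_eq_norm] at h5
  simpa [f, a3, h4] using (Complex.abs_re_le_norm _).trans h5

theorem continuous_cayInv : Continuous cayInv :=
  (continuous_coe.sub continuous_const).div (continuous_coe.add continuous_const) add_I_ne

theorem hol_cayInv : Hol fun z => (z - Complex.I) / (z + Complex.I) := fun z hz =>
  (differentiableAt_id.sub_const _).div (differentiableAt_id.add_const _) (add_I_ne ⟨z, hz⟩)

/-- The converse of the mean value property on a disc. -/
theorem exists_hol_disc {H : ℍ → ℝ} (hH : Continuous H) {ρ : ℝ} (hρ : ρ ∈ Ioo (0 : ℝ) 1)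
    (h : ∀ z, ‖cayInv z‖ < ρ → ∀ r ∈ Ioo (0 : ℝ) 1, Df r H z = 0) :
    ∃ G : ℂ → ℂ, AnalyticOnNhd ℂ G (ball 0 ρ) ∧ ∀ ζ ∈ ball (0 : ℂ) ρ, (G ζ).re = H (cay ζ) := by
  have hc : ContinuousOn cay (closedBall 0 ρ) := fun ζ hζ =>
    (continuousAt_cay ((mem_closedBall_zero_iff.mp hζ).trans_lt hρ.2)).continuousWithinAt
  have hK : IsCompact {z | ‖cayInv z‖ ≤ ρ} := by
    convert (isCompact_closedBall (0 : ℂ) ρ).image_of_continuousOn hc
    ext z
    constructor
    · exact fun hz => ⟨cayInv z, by simpa using hz, cay_cayInv z⟩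
    · rintro ⟨ζ, hζ, rfl⟩
      have := mem_closedBall_zero_iff.mp hζ
      rwa [mem_ofPred_eq, cayInv_cay (this.trans_lt hρ.2)]
  have hs : ContinuousOn (fun ζ => H (cay ζ)) (sphere 0 ρ) :=
    hH.comp_continuousOn (hc.mono sphere_subset_closedBall)
  have hi : CircleIntegrable (fun ζ => H (cay ζ)) 0 ρ := circleIntegrable_cay hH hρ
  refine ⟨_, analyticOnNhd_circleAverage_herglotzRieszKernel_smul
    (circleIntegrable_cay (Complex.continuous_ofReal.comp hH) hρ), fun w hw => ?_⟩
  refine (re_circleAverage_herglotzRieszKernel_smul hi hw).trans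
    (eq_of_forall_dist_le fun δ hδ => ?_)
  obtain ⟨P, hP, h1⟩ := approx_circle hρ.1 hs (half_pos hδ)
  have hw1 : ‖w‖ < ρ := by simpa using hw
  have hP' : Hol fun z => P ((z - Complex.I) / (z + Complex.I)) := fun z hz =>
    (hP _).comp z (hol_cayInv z hz)
  have hc' : Continuous fun z : ℍ => (P (cayInv z)).re :=
    Complex.continuous_re.comp (hP.continuous.comp continuous_cayInv)
  have h2 : ∀ s : ℝ, |s| = 1 → s * (H (cay w) - (P w).re) ≤ δ / 2 := fun s hs1 => by
    have := max_principle (H := fun z => s * (H z - (P (cayInv z)).re))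
      (continuous_const.mul (hH.sub hc')) hK
      (isOpen_lt continuous_cayInv.norm (continuous_const (y := ρ))) (fun z hz => le_of_lt (a := ‖cayInv z‖) hz)
      (fun z hz r hr => by
        rw [Df_const_mul, Df_sub (integrableOn_ball hH z r) (integrableOn_ball hc' z r), h z hz r hr,
          show Df r (fun z => (P (cayInv z)).re) z = 0 from Df_hol hP' Complex.reCLM r z]
        simp) (M := δ / 2) (fun z hz hz' => by
        have := h1 (cayInv z) (by simpa using le_antisymm hz (not_lt.mp hz'))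
        rw [cay_cayInv] at this
        refine (le_abs_self _).trans ?_
        rwa [abs_mul, hs1, one_mul]) (cay w) (by
        rw [mem_ofPred_eq, cayInv_cay (hw1.trans hρ.2)]
        exact hw1.le)
    rwa [cayInv_cay (hw1.trans hρ.2)] at this
  have hk : ContinuousOn (Complex.re ∘ herglotzRieszKernel 0 w) (sphere 0 |ρ|) :=
    Complex.continuous_re.comp_continuousOn (continuousOn_herglotzRieszKernel_sphere hw)
  have hk0 : ∀ ζ ∈ sphere (0 : ℂ) |ρ|, 0 ≤ (Complex.re ∘ herglotzRieszKernel 0 w) ζ := fun ζ hζ =>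
    le_trans (div_nonneg (by simpa using hw1.le) (by have := hρ.1; positivity))
      (le_re_herglotzRieszKernel (by rwa [abs_of_pos hρ.1] at hζ) hw)
  have h3 : ∀ {Q : ℂ → ℂ}, Differentiable ℂ Q →
      CircleIntegrable ((Complex.re ∘ herglotzRieszKernel 0 w) • fun ζ => (Q ζ).re) 0 ρ ∧
      Real.circleAverage ((Complex.re ∘ herglotzRieszKernel 0 w) • fun ζ => (Q ζ).re) 0 ρ =
        (Q w).re := fun {Q} hQ =>
    ⟨(hk.smul (Complex.continuous_re.comp hQ.continuous).continuousOn).circleIntegrable',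
      InnerProductSpace.HarmonicOnNhd.circleAverage_re_herglotzRieszKernel_smul
        (fun x _ => (hQ.analyticAt x).harmonicAt_re) hw⟩
  have h4 := h3 (hP.add_const ((δ / 2 : ℝ) : ℂ))
  have h5 := h3 (hP.sub_const ((δ / 2 : ℝ) : ℂ))
  have h6 := Real.circleAverage_mono (hi.continuousOn_smul hk) h4.1 fun ζ hζ =>
    mul_le_mul_of_nonneg_left (by
      have := (abs_le.mp (h1 ζ (by rwa [abs_of_pos hρ.1] at hζ))).2
      simp only [Complex.add_re, Complex.ofReal_re]
      linarith) (hk0 ζ hζ)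
  have h7 := Real.circleAverage_mono h5.1 (hi.continuousOn_smul hk) fun ζ hζ =>
    mul_le_mul_of_nonneg_left (by
      have := (abs_le.mp (h1 ζ (by rwa [abs_of_pos hρ.1] at hζ))).1
      simp only [Complex.sub_re, Complex.ofReal_re]
      linarith) (hk0 ζ hζ)
  rw [h4.2, Complex.add_re, Complex.ofReal_re] at h6
  rw [h5.2, Complex.sub_re, Complex.ofReal_re] at h7
  rw [Real.dist_eq, abs_le]
  constructor <;> linarith [h2 1 abs_one, h2 (-1) (by simp)]

/-- The converse of the mean value property. -/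
theorem exists_hol {H : ℍ → ℝ} (hH : Continuous H) (h : ∀ z, ∀ r ∈ Ioo (0 : ℝ) 1, Df r H z = 0) :
    ∃ G : ℂ → ℂ, Hol G ∧ ∀ z : ℍ, (G z).re = H z := by
  have h1 : InnerProductSpace.HarmonicOnNhd (fun ζ => H (cay ζ)) (ball 0 1) := fun ζ hζ => by
    have h0 : ‖ζ‖ < 1 := by simpa using hζ
    obtain ⟨G, h2, h3⟩ := exists_hol_disc hH (ρ := (1 + ‖ζ‖) / 2)
      ⟨by positivity, by linarith⟩ fun z _ => h z
    have h4 : ζ ∈ ball (0 : ℂ) ((1 + ‖ζ‖) / 2) := by
      rw [mem_ball_zero_iff]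
      linarith
    rw [← InnerProductSpace.harmonicAt_congr_nhds (f₁ := fun ζ => (G ζ).re)
      (eventually_of_mem (isOpen_ball.mem_nhds h4) h3)]
    exact (h2 ζ h4).harmonicAt_re
  obtain ⟨G, h2, h3⟩ := h1.exists_analyticOnNhd_ball_re_eq
  refine ⟨fun z => G ((z - Complex.I) / (z + Complex.I)), fun z hz => DifferentiableAt.comp z
    (h2 _ (mem_ball_zero_iff.mpr (norm_cayInv_lt ⟨z, hz⟩))).differentiableAt (hol_cayInv z hz),
    fun z => ?_⟩
  have := h3 (mem_ball_zero_iff.mpr (norm_cayInv_lt z))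
  simp only [cay_cayInv] at this
  exact this

theorem eq_zero_of_sqrt {s C : ℝ} {e : ℂ → ℝ} {c : ℝ} (he : Tendsto e atI (𝓝 c))
    (h : ∀ z : ℂ, 1 ≤ z.im → |e z + s * z.im| ≤ C * (1 + √z.im)) : s = 0 := by
  by_contra hs
  have h0 := abs_pos.mpr hs
  have h1 : Tendsto (fun t : ℝ => ((t ^ 2 : ℝ) : ℂ) * Complex.I) atTop atI := by
    rw [tendsto_comap_iff]
    exact (tendsto_pow_atTop two_ne_zero).congr fun t => by simp [-Complex.ofReal_pow]
  obtain ⟨t, ⟨h2, h3⟩, h4⟩ := ((((he.comp h1).eventually (ball_mem_nhds c one_pos)).and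
    (eventually_ge_atTop 1)).and (eventually_gt_atTop ((2 * |C| + |c| + 1) / |s|))).exists
  have h5 : (((t ^ 2 : ℝ) : ℂ) * Complex.I).im = t ^ 2 := by simp [-Complex.ofReal_pow]
  have h6 := h _ (by rw [h5]; nlinarith)
  rw [h5, Real.sqrt_sq (by linarith)] at h6
  rw [div_lt_iff₀ h0] at h4
  rw [Function.comp_apply, Real.dist_eq] at h2
  generalize e (((t ^ 2 : ℝ) : ℂ) * Complex.I) = x at *
  have h7 : |s| * t ^ 2 ≤ |x + s * t ^ 2| + (|x - c| + |c|) := by
    rw [← abs_of_nonneg (sq_nonneg t), ← abs_mul, abs_of_nonneg (sq_nonneg t)]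
    have := abs_sub (x + s * t ^ 2) x
    rw [add_sub_cancel_left] at this
    linarith [abs_add_le (x - c) c, show x - c + c = x by ring, congrArg abs (sub_add_cancel x c)]
  have h8 : C * (1 + t) ≤ |C| * (2 * t) :=
    mul_le_mul (le_abs_self C) (by linarith) (by linarith) (abs_nonneg C)
  nlinarith [abs_nonneg c]

/-- Functions with a unitary multiplier and slow growth have a nonzero limit at the cusp. -/
theorem cusp_unit {Φ : ℂ → ℂ} (hΦ : Hol Φ) (h0 : ∀ z : ℂ, 0 < z.im → Φ z ≠ 0) {χ : ℂ}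
    (hχ : ‖χ‖ = 1) (hp : ∀ z : ℂ, 0 < z.im → Φ (z + 1) = χ * Φ z) {C : ℝ}
    (hb : ∀ z : ℂ, 1 ≤ z.im → |Real.log ‖Φ z‖| ≤ C * (1 + √z.im)) :
    χ = 1 ∧ ∃ A, QE Φ A ∧ PowerSeries.coeff 0 A ≠ 0 := by
  have h1 : Complex.exp (χ.arg * Complex.I) = χ := by
    simpa [hχ] using Complex.norm_mul_exp_arg_mul_I χ
  have h2 := Complex.neg_pi_lt_arg χ
  have h3 := Complex.arg_le_pi χ
  generalize χ.arg = t at *
  have hn : ∀ z : ℂ, ‖Complex.exp (-(t * Complex.I * z))‖ = Real.exp (t * z.im) := fun z => by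
    simp [Complex.norm_exp]
  obtain ⟨A, hA⟩ : ∃ A, QE (fun z => q1 z ^ 2 * (Φ z * Complex.exp (-(t * Complex.I * z)))) A := by
    refine QE.exists_of_periodic (fun z hz => ((hasDerivAt_q1 z).differentiableAt.pow 2).mul
      ((hΦ z hz).mul (by fun_prop))) (fun z hz => ?_) ?_
    · have := q1_int 1
      rw [Int.cast_one] at this
      rw [q1_add, this, hp z hz, ← h1, mul_add, neg_add, Complex.exp_add, mul_one, mul_one,
        Complex.exp_neg (t * Complex.I)]
      field_simp
    · refine Asymptotics.IsBigO.of_bound (Real.exp (C + C ^ 2)) ?_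
      filter_upwards [(tendsto_comap.eventually (eventually_ge_atTop 1) :
        ∀ᶠ z in atI, 1 ≤ z.im)] with z hz
      rw [norm_mul, norm_mul, norm_pow, norm_q1, hn, ← Real.exp_log
        (norm_pos_iff.mpr (h0 z (by linarith))), ← Real.exp_nat_mul, ← Real.exp_add, ← Real.exp_add,
        norm_one, mul_one, Real.exp_le_exp]
      have h4 := (le_abs_self _).trans (hb z hz)
      have h5 := Real.sq_sqrt (show 0 ≤ z.im by linarith)
      push_cast
      nlinarith [sq_nonneg (C - √z.im), Real.pi_gt_three, mul_le_mul_of_nonneg_right h3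
        (show 0 ≤ z.im by linarith), sq_nonneg C]
  have hA0 : A ≠ 0 := by
    rintro rfl
    have := (hA.hasSum (z := Complex.I) (by simp)).tsum_eq
    simp [q1_ne, h0 Complex.I (by simp)] at this
  rw [← PowerSeries.X_pow_order_mul_divXPowOrder (f := A)] at hA
  have hB := hA.of_X_pow_mul
  have hB0 : PowerSeries.coeff 0 A.divXPowOrder ≠ 0 := by
    rwa [PowerSeries.coeff_zero_eq_constantCoeff_apply, Ne,
      PowerSeries.constantCoeff_divXPowOrder_eq_zero_iff]
  generalize A.order.toNat = k at *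
  have h4 : 4 * π - t - 2 * π * k = 0 := eq_zero_of_sqrt (C := C)
    (hB.tendsto.norm.log (norm_ne_zero_iff.mpr hB0)) fun z hz => by
      refine le_of_eq_of_le (congrArg abs ?_) (hb z hz)
      rw [norm_div, norm_mul, norm_mul, norm_pow, norm_pow, norm_q1, hn,
        Real.log_div (by have := h0 z (by linarith); positivity) (by positivity),
        Real.log_mul (by positivity) (by have := h0 z (by linarith); positivity),
        Real.log_mul (by have := h0 z (by linarith); positivity) (by positivity)]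
      simp only [Real.log_pow, Real.log_exp]
      push_cast
      ring
  have h5 : (t : ℂ) = 4 * π - 2 * π * k := by exact_mod_cast (by linarith : t = 4 * π - 2 * π * k)
  refine ⟨?_, _, hB.congr fun z _ => ?_, hB0⟩
  · rw [← h1, h5, ← Complex.exp_int_mul_two_pi_mul_I (2 - k)]
    congr 1
    push_cast
    ring
  · rw [eq_div_iff (pow_ne_zero _ (q1_ne z)), mul_left_comm, q1, ← Complex.exp_nat_mul,
      ← Complex.exp_nat_mul, ← Complex.exp_add, h5]
    congr 2
    push_cast
    ring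

theorem hol_const {G : ℂ → ℂ} (hG : Hol G) {c : ℝ} (h : ∀ z : ℂ, 0 < z.im → (G z).re = c) :
    ∃ a, ∀ z : ℂ, 0 < z.im → G z = a := by
  have ho : IsOpen {z : ℂ | 0 < z.im} := isOpen_lt continuous_const Complex.continuous_im
  exact (DifferentiableOn.analyticOnNhd (fun z hz => (hG z hz).differentiableWithinAt)
    ho).eq_const_of_re_eq_const h ho 
      ⟨⟨Complex.I, show 0 < Complex.I.im by simp⟩, (convex_halfSpace_im_gt 0).isPreconnected⟩

/-- Functions with periodic real part of slow growth have an expansion at the cusp. -/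
theorem cusp_re {G : ℂ → ℂ} (hG : Hol G) (hp : ∀ z : ℂ, 0 < z.im → (G (z + 1)).re = (G z).re)
    {C : ℝ} (hb : ∀ z : ℂ, 1 ≤ z.im → |(G z).re| ≤ C * (1 + √z.im)) : ∃ A, QE G A := by
  obtain ⟨a, ha⟩ := hol_const (G := fun z => G (z + 1) - G z) (c := 0) (fun z hz =>
    ((hG (z + 1) (by simpa using hz)).comp z (differentiableAt_id.add_const 1)).sub (hG z hz))
    fun z hz => by rw [Complex.sub_re, hp z hz, sub_self]
  have ha0 : a.re = 0 := by
    rw [← ha Complex.I (by simp), Complex.sub_re, hp _ (by simp), sub_self]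
  have key : ∀ δ : ℝ, Complex.exp (δ * a) = 1 ∧ ∃ A, QE (fun z => Complex.exp (δ * G z)) A ∧
      PowerSeries.coeff 0 A ≠ 0 := fun δ =>
    cusp_unit (C := |δ| * C) (fun z hz => ((hG z hz).const_mul _).cexp)
      (fun _ _ => Complex.exp_ne_zero _) (by simp [Complex.norm_exp, ha0])
      (fun z hz => by rw [← Complex.exp_add, ← ha z hz]; congr 1; ring) fun z hz => by
        rw [Complex.norm_exp, Real.log_exp, Complex.re_ofReal_mul, abs_mul, mul_assoc]
        exact mul_le_mul_of_nonneg_left (hb z hz) (abs_nonneg _)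
  have ha1 : a = 0 := by
    by_contra h
    have h1 : a.im ≠ 0 := fun h1 => h (Complex.ext ha0 h1)
    have h2 := (key (π / a.im)).1
    have h3 : ((π / a.im : ℝ) : ℂ) * a = π * Complex.I := by
      apply Complex.ext <;> simp [ha0, -Complex.ofReal_div, h1]
    rw [h3, Complex.exp_pi_mul_I] at h2
    norm_num at h2
  obtain ⟨A, hA, hA0⟩ := (key 1).2
  simp only [Complex.ofReal_one, one_mul] at hA
  refine QE.exists_of_periodic hG (fun z hz => sub_eq_zero.mp ((ha z hz).trans ha1)) ?_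
  have h1 : Tendsto (fun z => Complex.exp (G z) / PowerSeries.coeff 0 A) atI (𝓝 1) := by
    simpa only [div_self hA0] using hA.tendsto.div_const (PowerSeries.coeff 0 A)
  obtain ⟨Y, hY⟩ : ∃ Y : ℝ, ∀ z : ℂ, Y < z.im → 0 < z.im ∧
      Complex.exp (G z) / PowerSeries.coeff 0 A ∈ Complex.slitPlane := by
    have := ev_pos.and (h1.eventually (Complex.isOpen_slitPlane.mem_nhds Complex.one_mem_slitPlane))
    rw [eventually_comap, eventually_atTop] at this
    obtain ⟨Y, hY⟩ := this
    exact ⟨Y, fun z hz => hY _ hz.le z rfl⟩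
  have h2 : ∀ z : ℂ, Y < z.im → HasDerivAt
      (fun z => G z - Complex.log (Complex.exp (G z) / PowerSeries.coeff 0 A)) 0 z := fun z hz => by
    have e := (hG z (hY z hz).1).hasDerivAt
    refine (e.sub ((e.cexp.div_const _).clog (hY z hz).2)).congr_deriv ?_
    have := Complex.exp_ne_zero (G z)
    field_simp
    ring
  obtain ⟨b, h3⟩ := (isOpen_lt continuous_const
    Complex.continuous_im).exists_is_const_of_deriv_eq_zero
    (convex_halfSpace_im_gt Y).isPreconnected
    (fun z hz => (h2 z hz).differentiableAt.differentiableWithinAt) fun z hz => (h2 z hz).deriv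
  refine Bdd.of_tendsto (((h1.clog Complex.one_mem_slitPlane).const_add b).congr' ?_)
  filter_upwards [(tendsto_comap.eventually (eventually_gt_atTop Y) : ∀ᶠ z in atI, Y < z.im)]
    with z hz
  rw [← h3 z hz]
  ring

end Pool.Agent.B5.HA
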