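import Pool.Agent.Lib.MP_696deb_nt.B5.HA2

/-! Every real parabolic class is the real part of the period class of a cusp form. -/

set_option autoImplicit false

open Filter Topology Set MeasureTheory UpperHalfPlane Metric ModularGroup
open scoped Real MatrixGroups ENNReal NNReal Modular

namespace Pool.Agent.B5.HA

open Pool.Agent.Lib.MP_696deb_nt

variable {Γ : Subgroup SL(2, ℤ)} {J : ℍ → ℝ}

/-- Functions that change by constants under the group and are bounded on the horoballs. -/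
structure Coc (Γ : Subgroup SL(2, ℤ)) (J : ℍ → ℝ) : Prop where
  meas : Measurable J
  coc : ∀ γ ∈ Γ, ∃ t, ∀ z, J (γ • z) = J z + t
  bdd : ∀ g : SL(2, ℤ), ∃ C, ∀ z : ℍ, 1 / 2 ≤ z.im → |J (g • z)| ≤ C

instance countable_SL : Countable SL(2, ℤ) :=
  Function.Injective.countable (f := fun g : SL(2, ℤ) => (g 0 0, g 0 1, g 1 0, g 1 1))
    fun g h e => by
      simp only [Prod.mk.injEq] at e
      ext i j
      fin_cases i <;> fin_cases j <;> simp [e]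

theorem half_le_I : 1 / 2 ≤ I.im := by
  rw [I_im]
  norm_num

theorem S_smul_I : S • I = I := stabilizer_I.mpr (by simp)

theorem eq_zero_of_mul_le {t C : ℝ} (h : ∀ n : ℕ, |n * t| ≤ C) : t = 0 := by
  by_contra ht
  obtain ⟨n, hn⟩ := exists_nat_gt (C / |t|)
  have := h n
  rw [abs_mul, Nat.abs_cast] at this
  rw [div_lt_iff₀ (abs_pos.mpr ht)] at hn
  linarith

/-- The constants vanish for parabolic elements. -/
theorem par_zero {u : ℍ → ℝ} {C t : ℝ} (k : ℕ) (hb : ∀ z : ℍ, 1 / 2 ≤ z.im → |u z| ≤ C)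
    (h : ∀ z, u (T ^ k • z) = u z + t) : t = 0 := by
  have h1 : ∀ n : ℕ, u ((T ^ k) ^ n • I) = u I + n * t := fun n => by
    induction n with
    | zero => simp
    | succ n ih =>
      rw [pow_succ', mul_smul, h, ih]
      push_cast
      ring
  refine eq_zero_of_mul_le (C := C + C) fun n => ?_
  have h2 := hb ((T ^ k) ^ n • I) (by
    rw [← pow_mul, ← zpow_natCast, im_T_zpow_smul]
    exact half_le_I)
  rw [← add_sub_cancel_left (u I) (n * t), ← h1]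
  exact (abs_sub _ _).trans (add_le_add h2 (hb I half_le_I))

theorem Coc.growth [Γ.FiniteIndex] (hJ : Coc Γ J) : ∃ C : ℝ, 0 ≤ C ∧ ∀ (g : SL(2, ℤ)) (w : ℍ),
    |J (g • w) - J (g • I)| ≤ C * (1 + w.im⁻¹) := by
  obtain ⟨C, hC0, hC⟩ : ∃ C : ℝ, 0 ≤ C ∧ ∀ (g : SL(2, ℤ)) (w : ℍ), 1 / 2 ≤ w.im →
      |J (g • w) - J (g • I)| ≤ C := by
    obtain ⟨G, hG⟩ := exists_reps Γ
    choose B hB using hJ.bdd
    have h0 : ∀ g, 0 ≤ B g := fun g => (abs_nonneg _).trans (hB g I half_le_I)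
    refine ⟨2 * ∑ r ∈ G, B r, mul_nonneg two_pos.le (Finset.sum_nonneg fun r _ => h0 r),
      fun g w hw => ?_⟩
    obtain ⟨γ, hγ, r, hr, rfl⟩ := hG g
    obtain ⟨t, ht⟩ := hJ.coc γ hγ
    rw [mul_smul, mul_smul, ht, ht, add_sub_add_right_eq_sub]
    linarith [abs_sub (J (r • w)) (J (r • I)), hB r w hw, hB r I half_le_I,
      Finset.single_le_sum (fun r _ => h0 r) hr]
  refine ⟨C, hC0, fun g w => ?_⟩
  obtain ⟨k, hk⟩ := exists_nat_ge w.im⁻¹
  induction k generalizing g w with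
  | zero => exact absurd (inv_pos.mpr w.im_pos) (by simpa using hk)
  | succ k ih =>
    have h0 := inv_pos.mpr w.im_pos
    rcases le_or_gt (1 / 2) w.im with h | h
    · exact (hC g w h).trans (le_mul_of_one_le_right hC0 (by linarith))
    obtain ⟨n, v, h1, h2, rfl⟩ := exists_T_smul w
    rw [← h2] at h h0 hk ⊢
    have hv := v.im_pos
    have h3 : (S • v).im⁻¹ ≤ v.im⁻¹ - 1 := by
      have e : (S • v).im⁻¹ = (v.re ^ 2 + v.im ^ 2) * v.im⁻¹ := by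
        rw [ModularGroup.im_smul_eq_div_normSq, denom_S, inv_div, Complex.normSq_apply, sq, sq]
        rfl
      have e1 : v.re ^ 2 ≤ 1 / 4 := by nlinarith [abs_le.mp h1]
      have e2 : 2 ≤ v.im⁻¹ := by
        rw [le_inv_comm₀ two_pos hv]
        linarith
      rw [e]
      nlinarith [mul_le_mul_of_nonneg_right (show v.re ^ 2 + v.im ^ 2 ≤ 1 / 2 by nlinarith) h0.le]
    have h4 := ih (g * T ^ n * S⁻¹) (S • v) (by push_cast at hk; linarith)
    have h5 := hC g (T ^ n • I) (by rw [im_T_zpow_smul]; exact half_le_I)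
    rw [mul_smul _ S⁻¹, mul_smul _ S⁻¹, inv_smul_smul, inv_smul_eq_iff.mpr S_smul_I.symm, mul_smul,
      mul_smul] at h4
    nlinarith [abs_sub_le (J (g • T ^ n • v)) (J (g • T ^ n • I)) (J (g • I)),
      mul_le_mul_of_nonneg_left h3 hC0]

theorem Coc.slow [Γ.FiniteIndex] (hJ : Coc Γ J) : Slow J := by
  obtain ⟨C, -, hC⟩ := hJ.growth
  refine .of_le hJ.meas ((Slow.const |J I|).add (((Slow.const 1).add slow_inv).const_mul C))
    fun w => ?_
  have := hC 1 w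
  rw [one_smul, one_smul] at this
  linarith [abs_sub_abs_le_abs_sub (J w) (J I)]

theorem inv_le_two {z : ℍ} (h : 1 / 2 ≤ z.im) : z.im⁻¹ ≤ 2 := by
  rw [inv_le_comm₀ z.im_pos two_pos]
  linarith

theorem Coc.mod_Av [Γ.FiniteIndex] (hJ : Coc Γ J) : Mod Γ fun z => Av J z - J z := by
  obtain ⟨C, h0, hC⟩ := hJ.growth
  obtain ⟨K, hK⟩ := Av_inv_le
  refine .of_bdd (hJ.slow.av.meas.sub hJ.meas) (fun γ hγ z => ?_) (C := C * (1 + K) + C * (1 + 2))
    fun z => ?_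
  · obtain ⟨t, ht⟩ := hJ.coc γ hγ
    simp only [Av_smul_int, ht, Av_add hJ.slow (Slow.const t), Av_const, add_sub_add_right_eq_sub]
  · obtain ⟨g, z, -, h1, rfl⟩ := exists_strip z
    have h2 : 1 / 2 ≤ z.im := h1 ▸ half_le_ht _
    have h3 := abs_Av_le (((Slow.const 1).add slow_inv).const_mul C) (hC g) z
    rw [Av_sub (hJ.slow.smul_int g) (Slow.const _), Av_const, Av_const_mul,
      Av_add (Slow.const 1) slow_inv, Av_const, ← Av_smul_int] at h3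
    have h4 := hC g z
    rw [abs_sub_comm] at h4
    nlinarith [abs_sub_le (Av J (g • z)) (J (g • I)) (J (g • z)),
      mul_le_mul_of_nonneg_left (hK z h2) h0, mul_le_mul_of_nonneg_left (inv_le_two h2) h0]

theorem Coc.mod_Df [Γ.FiniteIndex] (hJ : Coc Γ J) {r : ℝ} (hr : 0 < r) : Mod Γ (Df r J) := by
  obtain ⟨C, h0, hC⟩ := hJ.growth
  refine .of_bdd (hJ.slow.df r).meas (fun γ hγ z => ?_)
    (C := 2 * vb r * (C * (1 + 2 * Real.exp r))) fun z => ?_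
  · obtain ⟨t, ht⟩ := hJ.coc γ hγ
    simp only [Df_smul_int, ht, Df_add (hJ.slow.integrableOn z r) ((Slow.const t).integrableOn z r),
      Df_const, add_zero]
  · obtain ⟨g, z, -, h1, rfl⟩ := exists_strip z
    have h2 : 1 / 2 ≤ z.im := h1 ▸ half_le_ht _
    have h3 := Df_sub ((hJ.slow.smul_int g).integrableOn z r)
      ((Slow.const (J (g • I))).integrableOn z r)
    rw [Df_const, sub_zero] at h3
    rw [Df_smul_int, ← h3]
    refine abs_Df_le hr fun w hw => (hC g w).trans (mul_le_mul_of_nonneg_left ?_ h0)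
    have h4 := im_le_im_mul_exp_dist z w
    have h5 : Real.exp (dist z w) ≤ Real.exp r := Real.exp_le_exp.mpr (mem_ball'.mp hw).le
    have h6 := w.im_pos
    rw [add_le_add_iff_left, inv_le_iff_one_le_mul₀ h6]
    nlinarith [mul_le_mul_of_nonneg_left h5 h6.le]

/-- The trace to the full modular group is invariant. -/
theorem Coc.trace (hJ : Coc Γ J) [Fintype (SL(2, ℤ) ⧸ Γ)] :
    Mod ⊤ fun z => ∑ q : SL(2, ℤ) ⧸ Γ, J (q.out⁻¹ • z) := by
  obtain ⟨u, hu⟩ : ∃ u : ℍ → ℝ, u = fun z => ∑ q : SL(2, ℤ) ⧸ Γ, J (q.out⁻¹ • z) := ⟨_, rfl⟩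
  have h1 : ∀ g : SL(2, ℤ), ∃ t, ∀ z, u (g • z) = u z + t := fun g => by
    have e : ∀ q : SL(2, ℤ) ⧸ Γ, q.out⁻¹ * g * (g⁻¹ • q).out ∈ Γ := fun q => by
      have := QuotientGroup.eq.mp ((MulAction.Quotient.mk_smul_out Γ g⁻¹ q).trans
        (QuotientGroup.out_eq' _).symm)
      simpa using this
    choose t ht using fun q => hJ.coc _ (e q)
    refine ⟨∑ q, t q, fun z => ?_⟩
    rw [hu]
    simp only
    rw [← Equiv.sum_comp (MulAction.toPerm g⁻¹) fun q : SL(2, ℤ) ⧸ Γ => J (q.out⁻¹ • z),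
      ← Finset.sum_add_distrib]
    refine Finset.sum_congr rfl fun q _ => ?_
    rw [MulAction.toPerm_apply, ← ht, smul_smul, smul_smul, mul_inv_cancel_right]
  choose B hB using hJ.bdd
  have h2 : ∀ z : ℍ, 1 / 2 ≤ z.im → |u z| ≤ ∑ q : SL(2, ℤ) ⧸ Γ, B q.out⁻¹ := fun z hz =>
    hu ▸ (Finset.abs_sum_le_sum_abs _ _).trans (Finset.sum_le_sum fun q _ => hB _ z hz)
  have h3 : ∀ g : SL(2, ℤ), ∀ z, u (g • z) = u z := fun g => by
    have hg : g ∈ Subgroup.closure {S, T} := by simp [SpecialLinearGroup.SL2Z_generators]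
    induction hg using Subgroup.closure_induction with
    | mem g hg =>
      obtain ⟨t, ht⟩ := h1 g
      have : t = 0 := by
        rcases hg with rfl | rfl
        · exact left_eq_add.mp ((congrArg u S_smul_I).symm.trans (ht I))
        · exact par_zero 1 h2 (by simpa using ht)
      simpa [this] using ht
    | one => simp
    | mul g g' _ _ ih ih' => exact fun z => by rw [mul_smul, ih, ih']
    | inv g _ ih => exact fun z => by rw [← ih, smul_inv_smul]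
  rw [← hu]
  refine .of_bdd (hu ▸ Finset.measurable_sum _ fun q _ =>
    hJ.meas.comp (continuous_smul_int _).measurable) (fun g _ => h3 g)
    (C := ∑ q : SL(2, ℤ) ⧸ Γ, B q.out⁻¹) fun z => ?_
  obtain ⟨g, z, -, h4, rfl⟩ := exists_strip z
  rw [h3]
  exact h2 z (h4 ▸ half_le_ht _)

theorem Coc.tendsto_Df [Γ.FiniteIndex] (hJ : Coc Γ J) {r : ℝ} (hr : 0 < r) (z : ℍ) :
    Tendsto (fun n => Av^[n] (Df r J) z) atTop (𝓝 0) := by
  obtain ⟨c, hc⟩ := (hJ.mod_Df hr).conv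
  have := Fintype.ofFinite (SL(2, ℤ) ⧸ Γ)
  obtain ⟨c', hc'⟩ := hJ.trace.conv
  have h1 := hc'.df hJ.trace.slow hr I
  have h2 : Df r (fun z => ∑ q : SL(2, ℤ) ⧸ Γ, J (q.out⁻¹ • z)) =
      fun z => ∑ q : SL(2, ℤ) ⧸ Γ, Df r J (toR q.out⁻¹ • z) := funext fun z => by
    rw [Df_sum _ fun q _ => (hJ.slow.smul_int _).integrableOn z r]
    exact Finset.sum_congr rfl fun q _ => (Df_smul_int _ _ _ _).symm
  simp only [h2, iter_sum _ fun q _ => (hJ.slow.df r).smul _, iter_smul] at h1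
  have h3 := tendsto_nhds_unique h1 (tendsto_finsetSum _ fun q _ => hc.tendsto _)
  have h4 : c = 0 := by simpa using h3
  exact h4 ▸ hc.tendsto z

/-- A function whose defect is fixed by averaging. -/
theorem Df_eq {H : ℍ → ℝ} (hH : Slow H) {r : ℝ} {s : ℍ → ℝ} (hs : Slow s)
    (h : ∀ z, Df r (Av H) z - Av s z = Df r H z - s z) (z : ℍ)
    (ht : Tendsto (fun n => Av^[n] (Df r H) z - Av^[n] s z) atTop (𝓝 0)) : Df r H z = s z := by
  have h1 : ∀ n, (Av^[n] fun z => Df r H z - s z) = fun z => Df r H z - s z := fun n =>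
    Function.iterate_fixed (funext fun z => by
      rw [Av_sub (hH.df r) hs, Av_Df hH, h]) n
  have h2 : ∀ n, Av^[n] (Df r H) z - Av^[n] s z = Df r H z - s z := fun n => by
    rw [← congrFun (h1 n) z, iter_sub (hH.df r) hs]
  simp only [h2] at ht
  exact sub_eq_zero.mp (tendsto_nhds_unique tendsto_const_nhds ht)

theorem qe_cusp_aux (g : SL(2, ℤ)) {h : ℕ} (h0 : h ≠ 0) {z : ℂ} (hz : 0 < z.im) :
    ∃ w : ℍ, (w : ℂ) = h * z ∧ w.im = h * z.im ∧
      mob (g 0 0) (g 0 1) (g 1 0) (g 1 1) (h * z) = (g • w : ℍ) ∧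
      mob (g 0 0) (g 0 1) (g 1 0) (g 1 1) (h * (z + 1)) = (g • T ^ h • w : ℍ) := by
  have : (0 : ℝ) < h := by positivity
  refine ⟨⟨h * z, by simpa using mul_pos this hz⟩, rfl, by simp [UpperHalfPlane.im], ?_, ?_⟩
  · rw [coe_smul_eq_mob]
  · rw [coe_smul_eq_mob, ← zpow_natCast, coe_T_zpow_smul_eq, mul_add, mul_one, Int.cast_natCast]

theorem hol_cusp {G : ℂ → ℂ} (hG : Hol G) (g : SL(2, ℤ)) {h : ℕ} (h0 : h ≠ 0) :
    Hol fun z => G (mob (g 0 0) (g 0 1) (g 1 0) (g 1 1) (h * z)) := fun z hz => by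
  have : (0 : ℝ) < h := by positivity
  exact (hG.comp_mob (by rw [det_SL]; exact one_pos) (h * z) (by simpa using mul_pos this hz)).comp z
    (differentiableAt_id.const_mul _)

theorem one_add_Vf_le {w : ℍ} {h : ℕ} (h0 : h ≠ 0) {y : ℝ} (hy : 1 ≤ y) (hw : w.im = h * y) :
    1 / 2 ≤ w.im ∧ 1 + Vf w ≤ (4 + √h) * (1 + √y) := by
  have h1 : (1 : ℝ) ≤ h := by exact_mod_cast Nat.one_le_iff_ne_zero.mpr h0
  have h2 : 1 / 2 ≤ w.im := by nlinarith
  have h3 := Vf_le_of_half h2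
  rw [hw, Real.sqrt_mul (by linarith)] at h3
  exact ⟨h2, by nlinarith [Real.sqrt_nonneg y, Real.sqrt_nonneg (h : ℝ)]⟩

/-- The harmonic representative. -/
theorem Coc.exists_hol [Γ.FiniteIndex] (hJ : Coc Γ J) : ∃ G : ℂ → ℂ, Hol G ∧
    (∀ γ ∈ Γ, ∀ z : ℍ, (G (γ • z : ℍ)).re - J (γ • z) = (G z).re - J z) ∧
    ∀ (g : SL(2, ℤ)) (h : ℕ), h ≠ 0 → g * T ^ h * g⁻¹ ∈ Γ →
      ∃ A, QE (fun z => G (mob (g 0 0) (g 0 1) (g 1 0) (g 1 1) (h * z))) A := by
  obtain ⟨c, v, hv, h1⟩ := hJ.mod_Av.solve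
  have hH : Slow fun z => J z + v z := hJ.slow.add hv.slow
  have h2 : ∀ z, Av (fun z => J z + v z) z = J z + v z + c := fun z => by
    rw [Av_add hJ.slow hv.slow]
    linarith [h1 z]
  obtain ⟨c', hc'⟩ := hv.conv
  obtain ⟨G, hG, h3⟩ := HA.exists_hol (H := fun z => J z + v z)
    ((hH.continuous_Av.sub (continuous_const (y := c))).congr fun z => by simp [h2])
    fun z r hr => Df_eq hH (Slow.const 0) (fun z => by
      rw [funext h2, Df_add (hH.integrableOn z r) ((Slow.const c).integrableOn z r), Df_const,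
        Av_const]
      ring) z (by
      rw [show Df r (fun z => J z + v z) = fun z => Df r J z + Df r v z from funext fun z =>
        Df_add (hJ.slow.integrableOn z r) (hv.slow.integrableOn z r)]
      simp only [iter_add (hJ.slow.df r) (hv.slow.df r), iter_const]
      simpa using (hJ.tendsto_Df hr.1 z).add (hc'.df hv.slow hr.1 z))
  refine ⟨G, hG, fun γ hγ z => by rw [h3, h3, hv.inv γ hγ]; ring, fun g h h0 hg => ?_⟩
  obtain ⟨t, ht⟩ := hJ.coc _ hg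
  obtain ⟨B, hB⟩ := hJ.bdd g
  have h4 : ∀ w : ℍ, g • T ^ h • w = (g * T ^ h * g⁻¹) • g • w := fun w => by
    simp only [mul_smul, inv_smul_smul]
  have h5 : t = 0 := par_zero h hB fun z => by rw [h4, ht]
  obtain ⟨C, hC⟩ := hv.le
  refine cusp_re (hol_cusp hG g h0) (fun z hz => ?_) (C := (|B| + |C|) * (4 + √h)) fun z hz => ?_
  · obtain ⟨w, -, -, e1, e2⟩ := qe_cusp_aux g h0 hz
    rw [e1, e2, h3, h3, h4, ht, hv.inv _ hg, h5, add_zero]
  · obtain ⟨w, -, e0, e1, -⟩ := qe_cusp_aux g h0 (one_pos.trans_le hz)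
    obtain ⟨e2, e3⟩ := one_add_Vf_le h0 hz e0
    have e4 := hC (g • w)
    have e5 := Vf_nonneg w
    rw [Vf_smul] at e4
    rw [e1, h3, mul_assoc]
    refine (abs_add_le _ _).trans (le_trans ?_ (mul_le_mul_of_nonneg_left e3 (by positivity)))
    nlinarith [hB w e2, le_abs_self B, le_abs_self C, abs_nonneg B]

section hom

variable {θ : SL(2, ℤ) → ℝ}

/-- An extension of a homomorphism to the full modular group. -/
noncomputable def ext (Γ : Subgroup SL(2, ℤ)) (θ : SL(2, ℤ) → ℝ) (g : SL(2, ℤ)) : ℝ :=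
  θ (g * (QuotientGroup.mk g⁻¹ : SL(2, ℤ) ⧸ Γ).out)

theorem ext_mul (hθ : ∀ γ ∈ Γ, ∀ δ ∈ Γ, θ (γ * δ) = θ γ + θ δ) {γ : SL(2, ℤ)} (hγ : γ ∈ Γ)
    (g : SL(2, ℤ)) : ext Γ θ (γ * g) = θ γ + ext Γ θ g := by
  have h1 : (QuotientGroup.mk (γ * g)⁻¹ : SL(2, ℤ) ⧸ Γ) = QuotientGroup.mk g⁻¹ :=
    QuotientGroup.eq.mpr (by simpa using hγ)
  rw [ext, h1, mul_assoc, hθ γ hγ, ext]
  simpa using QuotientGroup.eq.mp (QuotientGroup.out_eq' (QuotientGroup.mk g⁻¹ : SL(2, ℤ) ⧸ Γ)).symm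

theorem ext_bdd [Γ.FiniteIndex] (hθ : ∀ γ ∈ Γ, ∀ δ ∈ Γ, θ (γ * δ) = θ γ + θ δ)
    (hp : ∀ g : SL(2, ℤ), ∃ h : ℕ, h ≠ 0 ∧ g * T ^ h * g⁻¹ ∈ Γ ∧ θ (g * T ^ h * g⁻¹) = 0) :
    ∃ C : ℝ, ∀ g M : SL(2, ℤ), |M 1 0| ≤ 1 → |ext Γ θ (g * M) - ext Γ θ g| ≤ C := by
  obtain ⟨G, hG⟩ := exists_reps Γ
  obtain ⟨C, hC⟩ : ∃ C : ℝ, ∀ M ∈ range (fun a : ℤ => T ^ a) ∪ {S, S⁻¹, -1}, ∀ g,
      |ext Γ θ (g * M) - ext Γ θ g| ≤ C := by
    have h1 : ∀ r : SL(2, ℤ), ((fun M => |ext Γ θ (r * M) - ext Γ θ r|) ''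
        (range (fun a : ℤ => T ^ a) ∪ {S, S⁻¹, -1})).Finite := fun r => by
      obtain ⟨h, h0, h1, h2⟩ := hp r
      rw [image_union, ← range_comp]
      refine Finite.union ?_ ((toFinite _).image _)
      have : Function.Periodic ((fun M => |ext Γ θ (r * M) - ext Γ θ r|) ∘ fun a : ℤ => T ^ a)
          (h : ℤ) := fun a => by
        have := ext_mul hθ h1 (r * T ^ a)
        rw [h2, zero_add, mul_assoc, inv_mul_cancel_left, mul_assoc, ← zpow_natCast, ← zpow_add,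
          add_comm] at this
        simp only [Function.comp_apply, this]
      rw [← this.image_Ioc (by positivity) 0]
      exact (finite_Ioc _ _).image _
    obtain ⟨C, hC⟩ := (G.finite_toSet.biUnion fun r _ => h1 r).bddAbove
    refine ⟨C, fun M hM g => ?_⟩
    obtain ⟨γ, hγ, r, hr, rfl⟩ := hG g
    rw [mul_assoc, ext_mul hθ hγ, ext_mul hθ hγ, add_sub_add_left_eq_sub]
    exact hC (mem_biUnion hr ⟨M, hM, rfl⟩)
  have h0 : 0 ≤ C := (abs_nonneg _).trans (hC S (by simp) 1)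
  have hm : ∀ {M N : SL(2, ℤ)} {a b : ℝ}, (∀ g, |ext Γ θ (g * M) - ext Γ θ g| ≤ a) →
      (∀ g, |ext Γ θ (g * N) - ext Γ θ g| ≤ b) → ∀ g, |ext Γ θ (g * (M * N)) - ext Γ θ g| ≤ b + a :=
    fun h1 h2 g => by
      rw [← mul_assoc]
      exact (abs_sub_le _ _ _).trans (add_le_add (h2 _) (h1 _))
  have h1 : ∀ M : SL(2, ℤ), M 1 0 = 1 → ∀ g, |ext Γ θ (g * M) - ext Γ θ g| ≤ C + (C + C) :=
    fun M h => by
      rw [g_eq_of_c_eq_one h]
      exact hm (hm (hC _ (by simp)) (hC S (by simp))) (hC _ (by simp))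
  have h2 : ∀ M : SL(2, ℤ), |M 1 0| = 1 → ∀ g, |ext Γ θ (g * M) - ext Γ θ g| ≤ 4 * C :=
    fun M h g => by
      rcases eq_or_eq_neg_of_abs_eq h with h | h
      · linarith [h1 M h g]
      · have := hm (h1 (-M) (by simp [h])) (hC (-1) (by simp)) g
        rw [neg_mul_neg, mul_one] at this
        linarith
  refine ⟨5 * C, fun g M h => ?_⟩
  rcases h.eq_or_lt with h | h
  · linarith [h2 M h g]
  · have h3 : M 1 0 = 0 := Int.abs_lt_one_iff.mp h
    have h4 := det_SL M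
    rw [h3, mul_zero, sub_zero] at h4
    have := hm (h2 (M * S) (by
      simpa [Matrix.SpecialLinearGroup.coe_mul, coe_S, Matrix.mul_apply, Fin.sum_univ_two] using
        Int.isUnit_iff_abs_eq.mp (IsUnit.of_mul_eq_one_right _ h4))) (hC S⁻¹ (by simp)) g
    rw [mul_inv_cancel_right] at this
    linarith

theorem abs_c_le {M : SL(2, ℤ)} {z : ℍ} (hz : 1 / 2 ≤ z.im) (h : M⁻¹ • z ∈ 𝒟) : |M 1 0| ≤ 1 := by
  have h1 := three_le_four_mul_im_sq_of_mem_fd h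
  obtain ⟨w, rfl⟩ : ∃ w, z = M • w := ⟨M⁻¹ • z, (smul_inv_smul M z).symm⟩
  rw [inv_smul_smul] at h1
  have h2 : Complex.normSq ((M 1 0 : ℂ) * w + M 1 1) =
      (M 1 0 * w.re + M 1 1) ^ 2 + (M 1 0 * w.im) ^ 2 := by
    simp [Complex.normSq_apply, sq]
  rw [ModularGroup.im_smul_eq_div_normSq, le_div_iff₀ (normSq_denom_pos _ w.im_ne_zero),
    ModularGroup.denom_apply, h2] at hz
  by_contra h3
  have h4 : (4 : ℝ) ≤ (M 1 0 : ℝ) ^ 2 := by
    have : (2 : ℤ) ≤ |M 1 0| := by omega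
    exact_mod_cast (by nlinarith [sq_abs (M 1 0)] : (4 : ℤ) ≤ M 1 0 ^ 2)
  have h5 := w.im_pos
  have h6 : 1 / 2 < w.im := by nlinarith
  nlinarith [sq_nonneg (M 1 0 * w.re + M 1 1), mul_le_mul_of_nonneg_right h4 (sq_nonneg w.im)]

/-- The theorem of Eichler and Shimura: real parabolic classes come from cusp forms. -/
theorem eichler_shimura [Γ.FiniteIndex] (hθ : ∀ γ ∈ Γ, ∀ δ ∈ Γ, θ (γ * δ) = θ γ + θ δ)
    (hp : ∀ g : SL(2, ℤ), ∃ h : ℕ, h ≠ 0 ∧ g * T ^ h * g⁻¹ ∈ Γ ∧ θ (g * T ^ h * g⁻¹) = 0) :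
    ∃ G : ℂ → ℂ, Hol G ∧ (∀ γ ∈ Γ, ∀ z : ℍ, (G (γ • z : ℍ)).re = (G z).re + θ γ) ∧
    ∀ (g : SL(2, ℤ)) (h : ℕ), h ≠ 0 → g * T ^ h * g⁻¹ ∈ Γ →
      ∃ A, QE (fun z => G (mob (g 0 0) (g 0 1) (g 1 0) (g 1 1) (h * z))) A := by
  obtain ⟨C, hC⟩ := ext_bdd hθ hp
  let E : ℍ → Set ℝ := fun z => ext Γ θ '' {g | g⁻¹ • z ∈ 𝒟}
  have h1 : ∀ z, (E z).Nonempty := fun z => by
    obtain ⟨g, hg⟩ := exists_smul_mem_fd z
    exact ⟨_, g⁻¹, by simpa using hg, rfl⟩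
  have h2 : ∀ (g : SL(2, ℤ)) (z : ℍ), 1 / 2 ≤ z.im → ∀ x ∈ E (g • z), |x - ext Γ θ g| ≤ C := by
    rintro g z hz _ ⟨k, hk, rfl⟩
    simpa using hC g (g⁻¹ * k) (abs_c_le hz (by simpa [mul_smul] using hk))
  have h3 : ∀ z, BddAbove (E z) := fun z => by
    obtain ⟨g, z, -, h4, rfl⟩ := exists_strip z
    exact ⟨C + ext Γ θ g, fun x hx =>
      sub_le_iff_le_add.mp (abs_le.mp (h2 g z (h4 ▸ half_le_ht _) x hx)).2⟩
  have h4 : ∀ γ ∈ Γ, ∀ z, sSup (E (γ • z)) = sSup (E z) + θ γ := fun γ hγ z => by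
    refine le_antisymm (csSup_le (h1 _) ?_) (le_sub_iff_add_le.mp (csSup_le (h1 _) ?_))
    · rintro _ ⟨k, hk, rfl⟩
      have := ext_mul hθ hγ (γ⁻¹ * k)
      rw [mul_inv_cancel_left] at this
      linarith [le_csSup (h3 z) ⟨γ⁻¹ * k, by simpa [mul_smul] using hk, rfl⟩]
    · rintro _ ⟨k, hk, rfl⟩
      linarith [le_csSup (h3 (γ • z)) ⟨γ * k, by simpa [mul_smul] using hk, rfl⟩,
        ext_mul hθ hγ k]
  obtain ⟨G, hG, h5, h6⟩ := Coc.exists_hol (Γ := Γ) (J := fun z => sSup (E z))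
    ⟨measurable_of_Ioi fun a => by
      have : (fun z => sSup (E z)) ⁻¹' Ioi a =
          ⋃ g ∈ {g | a < ext Γ θ g}, (fun z : ℍ => g⁻¹ • z) ⁻¹' 𝒟 := by
        ext z
        simp only [mem_preimage, mem_Ioi, lt_csSup_iff (h3 z) (h1 z), mem_iUnion, mem_ofPred_eq]
        exact ⟨fun ⟨_, ⟨g, h, e⟩, h'⟩ => ⟨g, e ▸ h', h⟩, fun ⟨g, h, h'⟩ => ⟨_, ⟨g, h', rfl⟩, h⟩⟩
      rw [this]
      exact .biUnion (to_countable _) fun g _ =>
        (isClosed_fd.preimage (continuous_smul_int _)).measurableSet,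
    fun γ hγ => ⟨_, h4 γ hγ⟩, fun g => ⟨C + |ext Γ θ g|, fun z hz => by
      obtain ⟨x, hx⟩ := h1 (g • z)
      have e1 := csSup_le (h1 _) fun x hx =>
        sub_le_iff_le_add.mp (abs_le.mp (h2 g z hz x hx)).2
      rw [abs_le]
      constructor <;> linarith [le_csSup (h3 _) hx, (abs_le.mp (h2 g z hz x hx)).1,
        le_abs_self (ext Γ θ g), neg_abs_le (ext Γ θ g)]⟩⟩
  exact ⟨G, hG, fun γ hγ z => by linarith [h5 γ hγ z, h4 γ hγ z], h6⟩

end hom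

end Pool.Agent.B5.HA
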