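import Pool.Agent.Lib.MP_696deb_nt.B5.HA3

/-! Sums of invariant kernels over the group and the regular part of the Green function. -/

set_option autoImplicit false

open Filter Topology Set MeasureTheory UpperHalfPlane Metric
open scoped Real MatrixGroups ENNReal NNReal ComplexConjugate Pointwise

namespace Pool.Agent.B5.HA

open Pool.Agent.Lib.MP_696deb_nt

theorem finite_near (z w : ℍ) (R : ℝ) : {γ : SL(2, ℤ) | dist z (γ • w) ≤ R}.Finite := by
  have h := (Subgroup.properlyDiscontinuousSMul_iff _).mp properlyDiscontinuousSL2ZRange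
    (isCompact_singleton (x := w)) (isCompact_closedBall z R)
  refine (h.preimage (f := Matrix.SpecialLinearGroup.mapGL ℝ)
    Matrix.SpecialLinearGroup.mapGL_injective.injOn).subset fun γ hγ => ⟨⟨γ, rfl⟩, γ • w, ?_, ?_⟩
  · rw [smul_set_singleton]
    rfl
  · exact mem_closedBall'.mpr hγ

theorem akr_one (z w : ℍ) : akr 1 z w = (2 * π)⁻¹ * (Real.cosh (dist z w) ^ 2)⁻¹ := by
  rw [akr, show (-1 - 1 : ℝ) = -(2 : ℕ) by norm_num, Real.rpow_neg (Real.cosh_pos _).le,
    Real.rpow_natCast, one_div]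

theorem akr3_ch2 (z w : ℍ) : akr 3 z w * Real.cosh (dist z w) ^ 2 = 3 * akr 1 z w := by
  have := akr_ch one_pos z w
  rw [one_add_one_eq_two] at this
  rw [sq, ← mul_assoc, akr3_ch, mul_assoc, this]
  ring

theorem sum_akr_le' {ε : ℝ} (hε : 0 < ε) (w : ℍ) : ∃ C : ℝ, ∀ (z : ℍ) (s : Finset SL(2, ℤ)),
    ∑ γ ∈ s, akr ε z (γ • w) ≤ C := by
  classical
  obtain ⟨n, hn⟩ : ∃ n : ℕ, ∀ (v : ℍ) (s : Finset SL(2, ℤ)),
      (s.filter fun γ => dist (γ • w) v < 1).card ≤ n := by
    refine ⟨(finite_near w w 2).toFinset.card, fun v s => ?_⟩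
    rcases (s.filter fun γ => dist (γ • w) v < 1).eq_empty_or_nonempty with h | ⟨g, hg⟩
    · rw [h]
      exact Nat.zero_le _
    refine Finset.card_le_card_of_injOn (fun γ => g⁻¹ * γ) (fun γ hγ => ?_)
      (mul_right_injective _).injOn
    simp only [Finset.coe_filter, mem_ofPred_eq, Finite.coe_toFinset, Finset.mem_filter] at *
    rw [← dist_smul_int g, smul_smul g (g⁻¹ * γ), mul_inv_cancel_left]
    linarith [dist_triangle_right (g • w) (γ • w) v]
  refine ⟨Real.exp (1 + ε) * n / vb 1, fun z s => ?_⟩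
  have hi : ∀ x : ℍ, Integrable fun v => (if dist x v < 1 then 1 else 0) * akr ε z v := fun x =>
    (integrable_akr hε z).bdd_mul ((measurable_ind 1).comp
      (measurable_const.prodMk measurable_id)).aestronglyMeasurable
      (c := 1) (.of_forall fun v => by split_ifs <;> simp)
  have h1 : ∀ x : ℍ, akr ε z x * vb 1 ≤
      Real.exp (1 + ε) * ∫ v, (if dist x v < 1 then 1 else 0) * akr ε z v := fun x => by
    rw [← bint_eq, ← integral_const_mul, ← real_ball x, mul_comm, ← smul_eq_mul,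
      ← setIntegral_const]
    refine setIntegral_mono_on ((Slow.const _).integrableOn x 1)
      ((integrable_akr hε z).const_mul _).integrableOn measurableSet_ball fun v hv => ?_
    rw [akr_symm ε z x, akr_symm ε z v]
    exact (akr_le hε x v z).trans (mul_le_mul_of_nonneg_right
      (Real.exp_le_exp.mpr (by nlinarith [mem_ball'.mp hv])) (akr_nonneg hε _ _))
  rw [le_div_iff₀ (vb_pos one_pos), Finset.sum_mul]
  refine (Finset.sum_le_sum fun γ _ => h1 _).trans ?_
  rw [← Finset.mul_sum, ← integral_finsetSum _ fun γ _ => hi _]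
  refine mul_le_mul_of_nonneg_left ((integral_mono (integrable_finsetSum _ fun γ _ => hi _)
    ((integrable_akr hε z).const_mul n) fun v => ?_).trans_eq ?_) (Real.exp_pos _).le
  · simp only [← Finset.sum_mul, Finset.sum_boole]
    exact mul_le_mul_of_nonneg_right (by exact_mod_cast hn v s) (akr_nonneg hε _ _)
  · rw [integral_const_mul, integral_akr hε, mul_one]

theorem sum_akr_le (w : ℍ) : ∃ C : ℝ, ∀ (z : ℍ) (s : Finset SL(2, ℤ)),
    ∑ γ ∈ s, akr 1 z (γ • w) ≤ C := sum_akr_le' one_pos w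

/-- Invariant kernels with enough decay. -/
structure GK (K : ℍ → ℍ → ℝ) : Prop where
  meas : ∀ w, Measurable fun z => K z w
  inv : ∀ (g : SL(2, ℝ)) z w, K (g • z) (g • w) = K z w
  le : ∃ C : ℝ, 0 ≤ C ∧ ∀ z w, |K z w| ≤ C * akr 1 z w

/-- The sum over the group. -/
noncomputable def ps (Γ : Subgroup SL(2, ℤ)) (K : ℍ → ℍ → ℝ) (w z : ℍ) : ℝ :=
  ∑' γ : Γ, K z (γ.1 • w)

variable {Γ : Subgroup SL(2, ℤ)} {K : ℍ → ℍ → ℝ}

theorem GK.symm (hK : GK K) (z w : ℍ) : K z w = K w z := by
  obtain ⟨g, h1, h2⟩ := exists_swap z w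
  rw [← hK.inv g z w, h1, h2]

theorem GK.slow (hK : GK K) (w : ℍ) : Slow fun z => K z w := by
  obtain ⟨C, h0, hC⟩ := hK.le
  refine .of_bdd (hK.meas w) (C := C * (2 * π)⁻¹) fun z => (hC z w).trans
    (mul_le_mul_of_nonneg_left ?_ h0)
  rw [akr_one]
  exact mul_le_of_le_one_right (by positivity) (inv_le_one_of_one_le₀ (one_le_pow₀ (one_le_ch z w)))

theorem GK.av (hK : GK K) : GK fun z w => Av (fun v => K v w) z := by
  obtain ⟨C, h0, hC⟩ := hK.le
  refine ⟨fun w => (hK.slow w).av.meas, fun g z w => by simp only [Av_smul, hK.inv],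
    12 * C, by positivity, fun z w => ?_⟩
  refine (abs_integral_le_integral_abs.trans (integral_mono_of_nonneg
    (.of_forall fun _ => abs_nonneg _) ((integrable_akr one_pos z).const_mul
    (12 * C * akr 1 z w)) (.of_forall fun v => ?_))).trans_eq ?_
  · have h1 := akr_le one_pos v z w
    have h2 := exp_le_ch z v
    have h3 : Real.exp ((1 + 1) * dist v z) ≤ 4 * Real.cosh (dist z v) ^ 2 := by
      rw [add_mul, one_mul, Real.exp_add, dist_comm]
      nlinarith [Real.exp_pos (dist z v)]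
    have h4 := akr_nonneg three_pos z v
    have h5 := akr_nonneg one_pos z w
    have h6 := (hC v w).trans (mul_le_mul_of_nonneg_left
      (h1.trans (mul_le_mul_of_nonneg_right h3 h5)) h0)
    simp only [abs_mul, abs_of_nonneg h4]
    refine (mul_le_mul_of_nonneg_left h6 h4).trans_eq ?_
    linear_combination 4 * C * akr 1 z w * akr3_ch2 z v
  · rw [integral_const_mul, integral_akr one_pos, mul_one]

theorem GK.sum_le (hK : GK K) (Γ : Subgroup SL(2, ℤ)) (w : ℍ) :
    ∃ C : ℝ, ∀ (z : ℍ) (s : Finset Γ), ∑ γ ∈ s, |K z (γ.1 • w)| ≤ C := by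
  obtain ⟨C, h0, hC⟩ := hK.le
  obtain ⟨D, hD⟩ := sum_akr_le w
  refine ⟨C * D, fun z s => (Finset.sum_le_sum fun γ _ => hC _ _).trans ?_⟩
  rw [← Finset.mul_sum]
  refine mul_le_mul_of_nonneg_left (le_of_eq_of_le ?_ (hD z (s.map (.subtype _)))) h0
  rw [Finset.sum_map]
  rfl

theorem GK.summable (hK : GK K) (Γ : Subgroup SL(2, ℤ)) (w z : ℍ) :
    Summable fun γ : Γ => K z (γ.1 • w) := by
  obtain ⟨C, hC⟩ := hK.sum_le Γ w
  exact (summable_of_sum_le (fun _ => abs_nonneg _) (hC z)).of_abs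

theorem GK.inv_int (hK : GK K) (g : SL(2, ℤ)) (z w : ℍ) : K (g • z) (g • w) = K z w :=
  hK.inv (toR g) z w

theorem GK.mod (hK : GK K) (Γ : Subgroup SL(2, ℤ)) (w : ℍ) : Mod Γ (ps Γ K w) := by
  obtain ⟨C, hC⟩ := hK.sum_le Γ w
  refine .of_bdd (Measurable.tsum fun γ => hK.meas _) (fun γ hγ z => ?_) (C := C) fun z => ?_
  · rw [ps, ps, ← (Equiv.mulLeft (⟨γ, hγ⟩ : Γ)).tsum_eq]
    simp only [Equiv.coe_mulLeft, Subgroup.coe_mul, mul_smul, hK.inv_int]
  · exact (norm_tsum_le_tsum_norm (f := fun γ : Γ => K z (γ.1 • w)) (hK.summable Γ w z).abs).trans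
      ((hK.summable Γ w z).abs.tsum_le_of_sum_le (hC z))

theorem GK.continuous_ps (hK : GK K) (hc : ∀ w, Continuous fun z => K z w) (w : ℍ) :
    Continuous (ps Γ K w) := by
  obtain ⟨C, h0, hC⟩ := hK.le
  obtain ⟨D, hD⟩ := sum_akr_le w
  refine continuous_iff_continuousAt.mpr fun z => (continuousOn_tsum
    (fun γ : Γ => (hc (γ.1 • w)).continuousOn)
    (u := fun γ => C * (Real.exp 2 * akr 1 z (γ.1 • w))) (s := ball z 1)
    (((summable_of_sum_le (fun _ => akr_nonneg one_pos _ _) fun s => le_of_eq_of_le ?_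
      (hD z (s.map (.subtype _)))).mul_left _).mul_left _) fun γ v hv => (hC _ _).trans
      (mul_le_mul_of_nonneg_left ((akr_le one_pos v z _).trans (mul_le_mul_of_nonneg_right
      (Real.exp_le_exp.mpr (by linarith [mem_ball.mp hv])) (akr_nonneg one_pos _ _))) h0)).continuousAt
      (ball_mem_nhds z one_pos)
  rw [Finset.sum_map]
  rfl

theorem GK.ps_symm (hK : GK K) (w z : ℍ) : ps Γ K w z = ps Γ K z w := by
  rw [ps, ps, ← (Equiv.inv Γ).tsum_eq]
  refine tsum_congr fun γ => ?_
  rw [hK.symm w, ← hK.inv_int γ.1 z, Equiv.inv_apply, Subgroup.coe_inv, smul_inv_smul]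

theorem GK.Av_ps (hK : GK K) (w : ℍ) :
    Av (ps Γ K w) = ps Γ (fun z w => Av (fun v => K v w) z) w := by
  obtain ⟨C, hC⟩ := hK.sum_le Γ w
  exact funext fun z => (hasSum_Av (fun γ => hK.meas _) (Slow.const C) hC z).tsum_eq.symm

theorem GK.Df_ps (hK : GK K) (w : ℍ) (r : ℝ) :
    Df r (ps Γ K w) = ps Γ (fun z w => Df r (fun v => K v w) z) w := by
  obtain ⟨C, hC⟩ := hK.sum_le Γ w
  exact funext fun z => (hasSum_Df (fun γ => hK.meas _) (Slow.const C) hC r z).tsum_eq.symm

theorem GK.iter_symm (hK : GK K) (n : ℕ) (w z : ℍ) :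
    Av^[n] (ps Γ K w) z = Av^[n] (ps Γ K z) w := by
  induction n generalizing K with
  | zero => exact hK.ps_symm w z
  | succ n ih => simp only [Function.iterate_succ_apply, hK.Av_ps, ih hK.av]

/-- The mean value does not depend on the base point. -/
theorem GK.exists_mean [Γ.FiniteIndex] (hK : GK K) : ∃ c, ∀ w z,
    Tendsto (fun n => Av^[n] (ps Γ K w) z) atTop (𝓝 c) := by
  choose c hc using fun w => (hK.mod Γ w).conv
  refine ⟨c I, fun w z => ?_⟩
  rw [← tendsto_nhds_unique ((hc w).tendsto I)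
    (((hc I).tendsto w).congr fun n => hK.iter_symm n _ _)]
  exact (hc w).tendsto z

/-- The Blaschke factor. -/
noncomputable def bl (w : ℍ) (z : ℂ) : ℂ := (z - w) / (z - conj (w : ℂ))

theorem sub_conj_ne (w : ℍ) {z : ℂ} (hz : 0 < z.im) : z - conj (w : ℂ) ≠ 0 := fun h => by
  have := congrArg Complex.im h
  simp at this
  linarith [w.im_pos]

theorem hol_bl (w : ℍ) : Hol (bl w) := fun _ hz =>
  (differentiableAt_id.sub_const _).div (differentiableAt_id.sub_const _) (sub_conj_ne w hz)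

theorem norm_bl (w z : ℍ) : ‖bl w z‖ = Real.tanh (dist z w / 2) := by
  rw [tanh_half_dist, bl, norm_div, dist_eq_norm, dist_eq_norm]

theorem bl_ne {w z : ℍ} (h : z ≠ w) : bl w z ≠ 0 :=
  div_ne_zero (sub_ne_zero.mpr fun e => h (UpperHalfPlane.ext e)) (sub_conj_ne w z.im_pos)

theorem tanh_lt_iff {x y : ℝ} : Real.tanh x < Real.tanh y ↔ x < y := by
  rw [← Real.artanh_lt_artanh_iff ⟨Real.neg_one_lt_tanh x, Real.tanh_lt_one x⟩
    ⟨Real.neg_one_lt_tanh y, Real.tanh_lt_one y⟩, Real.artanh_tanh, Real.artanh_tanh]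

theorem tanh_pos {x : ℝ} (h : 0 < x) : 0 < Real.tanh x := by
  rwa [← Real.tanh_zero, tanh_lt_iff]

/-- The truncated logarithm of the Blaschke factor. -/
noncomputable def bb (z w : ℍ) : ℝ := Real.log (Real.tanh (max (dist z w) 1 / 2))

theorem bb_eq {z w : ℍ} (h : 1 ≤ dist z w) : bb z w = Real.log ‖bl w z‖ := by
  rw [bb, max_eq_left h, norm_bl]

theorem bb_smul (g : SL(2, ℝ)) (z w : ℍ) : bb (g • z) (g • w) = bb z w := by
  rw [bb, dist_smul, bb]

theorem continuous_bb (w : ℍ) : Continuous fun z => bb z w := by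
  refine Continuous.log ?_ fun z => (tanh_pos (half_pos (lt_max_of_lt_right one_pos))).ne'
  simp only [Real.tanh_eq_sinh_div_cosh]
  exact Continuous.div (by fun_prop) (by fun_prop) fun _ => (Real.cosh_pos _).ne'

theorem abs_bb_le (z w : ℍ) : |bb z w| ≤ -Real.log (Real.tanh (1 / 2)) := by
  rw [bb, abs_of_nonpos (Real.log_nonpos (tanh_pos (half_pos (lt_max_of_lt_right one_pos))).le
    (Real.tanh_lt_one _).le), neg_le_neg_iff]
  exact Real.log_le_log (tanh_pos one_half_pos) (not_lt.mp fun h => by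
    linarith [tanh_lt_iff.mp h, le_max_right (dist z w) 1])

theorem slow_bb (w : ℍ) : Slow fun z => bb z w :=
  .of_bdd (continuous_bb w).measurable fun z => abs_bb_le z w

theorem circ_bb (g : SL(2, ℝ)) {w : ℍ} {ζ : ℂ} (hζ : ‖ζ‖ ∈ Ioo (0 : ℝ) 1)
    (h : dist I (cay ζ) + 1 ≤ dist (g • I) w) :
    Real.circleAverage (fun ξ => bb (g • cay ξ) w - bb (g • I) w) 0 ‖ζ‖ = 0 := by
  have h0 : ∀ ξ ∈ closedBall (0 : ℂ) |‖ζ‖|, 1 ≤ dist (g • cay ξ) w := fun ξ hξ => by
    have := dist_triangle (g • I) (g • cay ξ) w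
    rw [dist_smul] at this
    linarith [dist_cay_le (ξ := ξ) (by simpa using hξ) hζ.2]
  have h1 : AnalyticOnNhd ℂ (fun ξ => bl w (g • cay ξ : ℍ)) (closedBall 0 |‖ζ‖|) :=
    (DifferentiableOn.analyticOnNhd (s := ball 0 1) (fun ξ hξ => (DifferentiableAt.comp (g := bl w)
      ξ (hol_bl w _ (im_pos _)) (differentiableAt_smul_cay g
      (by simpa using hξ))).differentiableWithinAt)
      isOpen_ball).mono (closedBall_subset_ball (by simpa using hζ.2))
  rw [Real.circleAverage_fun_sub (circleIntegrable_cay (f := fun z => bb (g • z) w)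
    ((continuous_bb w).comp (continuous_const_smul g)) hζ) (circleIntegrable_const _ _ _),
    Real.circleAverage_congr_sphere fun ξ hξ => bb_eq (h0 ξ (sphere_subset_closedBall hξ)),
    h1.circleAverage_log_norm_of_ne_zero fun ξ hξ => bl_ne fun e => by
      linarith [h0 ξ hξ, dist_eq_zero.mpr e], cay_zero, Real.circleAverage_const,
    bb_eq (by linarith [dist_nonneg (x := I) (y := cay ζ)]), sub_self]

theorem Df_bb {r : ℝ} {z w : ℍ} (h : r + 1 ≤ dist z w) : Df r (fun v => bb v w) z = 0 := by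
  rw [← toSL2R_smul_I z] at h ⊢
  exact Df_of_circ _ ((slow_bb w).integrableOn _ r) fun ζ hζ h1 => circ_bb _ hζ (by linarith)

theorem gk_Df {r : ℝ} (hr : 0 < r) : GK fun z w => Df r (fun v => bb v w) z := by
  have h0 := mul_nonneg (mul_nonneg two_pos.le (vb_nonneg r)) ((abs_nonneg _).trans (abs_bb_le I I))
  refine ⟨fun w => ((slow_bb w).df r).meas, fun g z w => by simp only [Df_smul, bb_smul],
    2 * vb r * -Real.log (Real.tanh (1 / 2)) * (2 * π * Real.cosh (r + 1) ^ 2), by positivity,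
    fun z w => ?_⟩
  have h1 := akr_pos one_pos z w
  rcases le_or_gt (r + 1) (dist z w) with h | h
  · rw [Df_bb h, abs_zero]
    positivity
  · rw [mul_assoc]
    refine (abs_Df_le hr fun v _ => abs_bb_le v w).trans (le_mul_of_one_le_right h0 ?_)
    have h2 := ch_le_of_ball (mem_ball'.mpr h)
    have h3 := Real.cosh_pos (dist z w)
    rw [akr_one]
    field_simp
    gcongr

theorem gk_Av : GK fun z w => Av (fun v => bb v w) z - bb z w := by
  obtain ⟨B, hB⟩ : ∃ B, ∀ z w, |bb z w| ≤ B := ⟨_, abs_bb_le⟩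
  have h0 : 0 ≤ B := (abs_nonneg _).trans (hB I I)
  refine ⟨fun w => ((slow_bb w).av.sub (slow_bb w)).meas, fun g z w => by
    simp only [Av_smul, bb_smul], 2 * B * (6 * π * Real.exp 1 ^ 2), by positivity, fun z w => ?_⟩
  obtain ⟨g, rfl⟩ : ∃ g : SL(2, ℝ), g • I = z := ⟨_, toSL2R_smul_I z⟩
  obtain ⟨w, rfl⟩ : ∃ w', g • w' = w := ⟨g⁻¹ • w, smul_inv_smul _ _⟩
  simp only [Av_smul, bb_smul, akr_smul]
  have hs : Slow fun v => bb v w - bb I w := (slow_bb w).sub (Slow.const _)
  have hm : MeasurableSet {v : ℍ | dist I v + 1 ≤ dist I w} :=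
    (isClosed_le (by fun_prop) continuous_const).measurableSet
  have h1 : Av (fun v => bb v w) I - bb I w = Av (fun v => bb v w - bb I w) I := by
    rw [Av_sub (slow_bb w) (Slow.const _), Av_const]
  have h2 : ∫ v in {v : ℍ | dist I v + 1 ≤ dist I w}, akr 3 I v * (bb v w - bb I w) = 0 := by
    have e : ∀ v, indicator {v : ℍ | dist I v + 1 ≤ dist I w}
        (fun v => akr 3 I v * (bb v w - bb I w)) v = (if dist I v + 1 ≤ dist I w then
          3 / (2 * π) * Real.cosh (dist I v) ^ (-1 - 3 : ℝ) else 0) * (bb v w - bb I w) :=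
      fun v => by simp [indicator, akr]
    rw [← integral_indicator hm, funext e]
    refine rad_polar (fun t => if t + 1 ≤ dist I w then
      3 / (2 * π) * Real.cosh t ^ (-1 - 3 : ℝ) else 0) ?_ fun ζ hζ h => ?_
    · rw [← funext e]
      exact (hs.integrable I).indicator hm
    · simpa using circ_bb 1 hζ (w := w) (by
        rw [one_smul]
        exact of_not_not fun h' => h (if_neg h'))
  rw [h1, Av, avg, ← integral_add_compl hm (hs.integrable I), h2, zero_add,
    ← integral_indicator hm.compl]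
  refine (abs_integral_le_integral_abs.trans (integral_mono_of_nonneg
    (.of_forall fun _ => abs_nonneg _) ((integrable_akr one_pos I).const_mul
    (2 * B * (6 * π * Real.exp 1 ^ 2) * akr 1 I w)) (.of_forall fun v => ?_))).trans_eq ?_
  · have h3 := akr_pos one_pos I v
    have h4 := akr_pos one_pos I w
    have h5 := akr_nonneg three_pos I v
    by_cases hv : v ∈ {v : ℍ | dist I v + 1 ≤ dist I w}ᶜ
    · have h6 : Real.cosh (dist I w) ≤ Real.exp 1 * Real.cosh (dist I v) := by
        have e : Real.cosh (dist I w) ≤ Real.cosh (1 + dist I v) := by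
          rw [Real.cosh_le_cosh, abs_of_nonneg dist_nonneg, abs_of_nonneg (by positivity)]
          linarith [not_le.mp (show ¬ dist I v + 1 ≤ dist I w from hv)]
        rw [Real.cosh_add] at e
        rw [← Real.cosh_add_sinh]
        nlinarith [mul_le_mul_of_nonneg_left (Real.sinh_lt_cosh (dist I v)).le
          (Real.sinh_nonneg_iff.mpr zero_le_one)]
      have h7 : akr 3 I v ≤ 6 * π * Real.exp 1 ^ 2 * akr 1 I w * akr 1 I v := by
        have e1 := Real.cosh_pos (dist I v)
        have e2 := Real.cosh_pos (dist I w)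
        rw [(eq_div_iff (by positivity)).mpr (akr3_ch2 I v), akr_one I w, div_le_iff₀ (by positivity)]
        field_simp
        nlinarith [pow_le_pow_left₀ e2.le h6 2]
      simp only [indicator_of_mem hv, abs_mul, abs_of_nonneg h5]
      refine (mul_le_mul h7 ((abs_sub _ _).trans (add_le_add (hB _ _) (hB _ _))) (abs_nonneg _)
        (by positivity)).trans_eq (by ring)
    · simp only [indicator_of_notMem hv, abs_zero]
      positivity
  · rw [integral_const_mul, integral_akr one_pos, mul_one]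

/-- The regular part of the Green function of a divisor of degree zero. -/
theorem exists_regular [Γ.FiniteIndex] {ι : Type*} (s : Finset ι) (m : ι → ℝ) (w : ι → ℍ)
    (h0 : ∑ i ∈ s, m i = 0) : ∃ v : ℍ → ℝ, Continuous v ∧ Mod Γ v ∧ ∀ r, 0 < r → ∀ z,
      Df r v z = ∑ i ∈ s, m i * ∑' γ : Γ, Df r (fun x => bb x (γ.1 • w i)) z := by
  have h1 : ∀ {K}, GK K → Mod Γ fun z => ∑ i ∈ s, m i * ps Γ K (w i) z := fun hK =>
    .sum s fun i _ => (hK.mod Γ _).const_mul _
  obtain ⟨c, v, hv, h2⟩ := ((h1 gk_Av).const_mul (-1)).solve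
  obtain ⟨c', hc'⟩ := hv.conv
  have h3 : Av v = fun z => v z + (∑ i ∈ s, m i *
      ps Γ (fun z w => Av (fun v => bb v w) z - bb z w) (w i) z + c) := funext fun z => by
    linarith [h2 z]
  have h4 : ∀ r, 0 < r → ∀ z, Df r v z =
      ∑ i ∈ s, m i * ps Γ (fun z w => Df r (fun v => bb v w) z) (w i) z := fun r hr z => by
    refine Df_eq hv.slow (h1 (gk_Df hr)).slow (fun z => ?_) z ?_
    · have e := congrFun (iter_sum s (fun i _ =>
        (((gk_Df hr).mod Γ (w i)).const_mul (m i)).slow) 1) z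
      simp only [Function.iterate_one, Av_const_mul, (gk_Df hr).Av_ps] at e
      rw [h3, Df_add (hv.slow.integrableOn z r)
        (((h1 gk_Av).slow.add (Slow.const c)).integrableOn z r), Df_add
        ((h1 gk_Av).slow.integrableOn z r) ((Slow.const c).integrableOn z r), Df_const, add_zero,
        Df_sum _ fun i _ => ((gk_Av.mod Γ _).const_mul _).slow.integrableOn z r, e, add_sub_assoc,
        ← Finset.sum_sub_distrib, sub_eq_add_neg _ (Finset.sum _ _), ← Finset.sum_neg_distrib]
      congr 1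
      refine Finset.sum_congr rfl fun i _ => ?_
      rw [Df_const_mul, gk_Av.Df_ps, ← mul_sub, ← mul_neg, ps, ps, ps, ← tsum_neg,
        ← Summable.tsum_sub ?_ ((gk_Df hr).av.summable Γ _ z)]
      · congr 1
        refine tsum_congr fun γ => ?_
        rw [Df_sub ((slow_bb _).av.integrableOn z r) ((slow_bb _).integrableOn z r),
          ← Av_Df (slow_bb _)]
        exact sub_sub_cancel_left _ _
      · refine (((gk_Df hr).av.summable Γ (w i) z).sub ((gk_Df hr).summable Γ (w i) z)).congr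
          fun γ => ?_
        rw [Df_sub ((slow_bb _).av.integrableOn z r) ((slow_bb _).integrableOn z r),
          ← Av_Df (slow_bb _)]
    · obtain ⟨a, ha⟩ := (gk_Df hr).exists_mean (Γ := Γ)
      have e := tendsto_finsetSum s fun i _ => (ha (w i) z).const_mul (m i)
      rw [← Finset.sum_mul, h0, zero_mul] at e
      simp only [iter_sum s fun i _ => (((gk_Df hr).mod Γ (w i)).const_mul (m i)).slow,
        iter_const_mul]
      simpa using (hc'.df hv.slow hr z).sub e
  refine ⟨v, ?_, hv, h4⟩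
  have h5 : v = fun z => Av v z - (∑ i ∈ s, m i *
      ps Γ (fun z w => Av (fun v => bb v w) z - bb z w) (w i) z + c) := funext fun z => by
    linarith [h2 z]
  rw [h5]
  exact hv.slow.continuous_Av.sub ((continuous_finsetSum s fun i _ => continuous_const.mul
    (gk_Av.continuous_ps (fun w => (slow_bb w).continuous_Av.sub (continuous_bb w)) _)).add
    continuous_const)

end Pool.Agent.B5.HA
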