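import Pool.Agent.Lib.MP_696deb_nt.B5.HA5

/-! The Green function as a limit of sums over the group. -/

set_option autoImplicit false

open Filter Topology Set MeasureTheory UpperHalfPlane Metric ModularGroup
open scoped Real MatrixGroups ENNReal NNReal ComplexConjugate Pointwise

namespace Pool.Agent.B5.HA

open Pool.Agent.Lib.MP_696deb_nt

theorem norm_bl_smul (g : SL(2, ℝ)) (w z : ℍ) : ‖bl (g • w) (g • z : ℍ)‖ = ‖bl w z‖ := by
  rw [norm_bl, norm_bl, dist_smul]

theorem norm_bl_cay {ζ : ℂ} (h : ‖ζ‖ < 1) : ‖bl I (cay ζ)‖ = ‖ζ‖ := by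
  rw [norm_bl, ← norm_cayInv, cayInv_cay h]

theorem measurable_log_bl (w : ℍ) : Measurable fun z : ℍ => Real.log ‖bl w z‖ :=
  (hol_bl w).continuous_coe.norm.measurable.log

theorem loc_log_bl (w : ℍ) : LocallyIntegrable fun z : ℍ => Real.log ‖bl w z‖ := by
  have h1 : Integrable fun z : ℍ => akr 1 I z * Real.log ‖bl I z‖ := by
    have h2 : IntegrableOn (fun r : ℝ => nuK 1 r / (2 * π) * Real.log r) (Ioo 0 1) := by
      refine Measure.integrableOn_of_bounded (M := 4 / (2 * π)) measure_Ioo_lt_top.ne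
        (Measurable.aestronglyMeasurable (by unfold nuK; fun_prop))
        (ae_restrict_of_forall_mem measurableSet_Ioo fun r hr => ?_)
      have h3 : 0 < 1 - r ^ 2 := by nlinarith [hr.1, hr.2]
      have h4 : nuK 1 r = 4 * r / (1 + r ^ 2) ^ 2 := by
        rw [nuK, show (-1 - 1 : ℝ) = -(2 : ℕ) by norm_num, Real.rpow_neg (by positivity),
          Real.rpow_natCast]
        field_simp
      have h5 := Real.abs_log_mul_self_lt r hr.1 hr.2.le
      have h6 := hr.1
      rw [abs_mul, abs_of_pos hr.1] at h5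
      rw [h4, Real.norm_eq_abs, abs_mul, abs_of_pos (by positivity), div_mul_eq_mul_div,
        div_le_div_iff_of_pos_right (by positivity), div_mul_eq_mul_div,
        div_le_iff₀ (by positivity)]
      nlinarith [sq_nonneg r, sq_nonneg (r ^ 2)]
    rw [(polar_aux (measurable_log_bl I).aestronglyMeasurable).1]
    refine (h2.mul_prod (integrable_const (1 : ℝ))).congr ?_
    rw [Measure.prod_restrict]
    refine ae_restrict_of_forall_mem (measurableSet_Ioo.prod measurableSet_Ioo) fun p hp => ?_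
    have e : ‖circleMap 0 p.1 p.2‖ = p.1 := by rw [norm_circleMap_zero, abs_of_pos hp.1.1]
    simp only [mul_one]
    rw [norm_bl_cay (e.trans_lt hp.1.2), e]
  obtain ⟨g, rfl⟩ : ∃ g : SL(2, ℝ), g • I = w := ⟨_, toSL2R_smul_I w⟩
  have h2 := integrable_akr_smul (ε := 1) (u := fun z : ℍ => Real.log ‖bl I z‖) g⁻¹ (z := g • I)
    (by rwa [inv_smul_smul])
  have h3 := h2.locallyIntegrable.continuous_mul
    ((continuous_akr_right 1 (g • I)).inv₀ fun z => (akr_pos one_pos _ z).ne')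
  refine h3.congr (.of_forall fun z => ?_)
  simp only
  rw [Pi.inv_apply, inv_mul_cancel_left₀ (akr_pos one_pos _ z).ne', ← norm_bl_smul g I,
    smul_inv_smul]

variable {ι : Type*} {Γ : Subgroup SL(2, ℤ)} {s : Finset ι} {m : ι → ℤ} {w : ι → ℍ}
  {Θ : ℂ → ℂ} {v : ℍ → ℝ}

theorem Lg_eq {A : Finset Γ} {R : ℝ} (h : ∀ γ ∉ A, ∀ i ∈ s, R + 1 ≤ dist I (γ.1 • w i)) {z : ℍ}
    (hz : z ∈ ball I R) : Lg Γ s m w v z = v z - ∑ γ ∈ A, ∑ i ∈ s, m i * bb z (γ.1 • w i) +
      ∑ γ ∈ A, ∑ i ∈ s, m i * Real.log ‖bl (γ.1 • w i) z‖ := by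
  rw [Lg, tsum_eq_sum (s := A) fun γ hγ => Finset.sum_eq_zero fun i hi => by
    rw [sg_eq_zero (by linarith [h γ hγ i hi, dist_triangle I z (γ.1 • w i), mem_ball'.mp hz]),
      mul_zero]]
  simp only [sg, mul_sub, Finset.sum_sub_distrib]
  ring

theorem Th.tame [Γ.FiniteIndex] (h : Th Γ s m w Θ v) : Tame Γ (Lg Γ s m w v) := by
  have hm : Measurable (Lg Γ s m w v) := h.mod.meas.add (Measurable.tsum fun γ =>
    Finset.measurable_fun_sum _ fun i _ =>
      ((measurable_log_bl _).sub (continuous_bb _).measurable).const_mul _)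
  refine ⟨hm, fun γ hγ => Lg_smul h.mod hγ, fun z => ?_, fun g => ?_⟩
  · obtain ⟨A, G, h1, -⟩ := h.loc (dist z I + 1)
    have h2 : LocallyIntegrable fun z => v z - ∑ γ ∈ A, ∑ i ∈ s, m i * bb z (γ.1 • w i) +
        ∑ γ ∈ A, ∑ i ∈ s, m i * Real.log ‖bl (γ.1 • w i) z‖ :=
      (h.cont.sub (continuous_finsetSum _ fun γ _ => continuous_finsetSum _ fun i _ =>
        continuous_const.mul (continuous_bb _))).locallyIntegrable.add
        (locallyIntegrable_finsetSum _ fun γ _ => locallyIntegrable_finsetSum _ fun i _ =>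
          (loc_log_bl _).smul (m i : ℝ))
    exact ⟨ball I (dist z I + 1), isOpen_ball.mem_nhds (mem_ball.mpr (lt_add_one _)),
      ((h2.integrableOn_isCompact (isCompact_closedBall I _)).mono_set
        ball_subset_closedBall).congr_fun (fun u hu => (Lg_eq h1 hu).symm) measurableSet_ball⟩
  · obtain ⟨a, ha, h1⟩ := h.lim g
    obtain ⟨Y, -, hY⟩ := exists_high Γ s m w v
    obtain ⟨Y', hY'⟩ := eventually_atTop.mp (eventually_comap.mp
      ((h1.norm.log (norm_ne_zero_iff.mpr ha)).abs.eventually (eventually_le_nhds (lt_add_one _))))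
    refine ⟨max Y Y', |Real.log ‖a‖| + 1, fun z _ hz => ?_⟩
    · rw [← (h.off (hY z (le_of_max_le_left hz) g).1).2.2, coe_smul_eq_mob]
      exact hY' _ (le_of_max_le_right hz) z rfl

theorem analyticAt_smul_cay (g : SL(2, ℝ)) {ζ : ℂ} (h : ‖ζ‖ < 1) :
    AnalyticAt ℂ (fun ζ => ((g • cay ζ : ℍ) : ℂ)) ζ :=
  DifferentiableOn.analyticAt (s := ball 0 1) (fun ξ hξ =>
    (differentiableAt_smul_cay g (by simpa using hξ)).differentiableWithinAt)
    (isOpen_ball.mem_nhds (by simpa using h))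

/-- The formula of Jensen for one factor. -/
theorem jensen_bl (g : SL(2, ℝ)) {w : ℍ} (hw : g • I ≠ w) {ρ : ℝ} (hρ : ρ ∈ Ioo (0 : ℝ) 1) :
    CircleIntegrable (fun ζ => Real.log ‖bl w (g • cay ζ : ℍ)‖) 0 ρ ∧
    Real.circleAverage (fun ζ => Real.log ‖bl w (g • cay ζ : ℍ)‖) 0 ρ =
      Real.log ‖bl w (g • I : ℍ)‖ + Real.posLog (ρ / Real.tanh (dist (g • I) w / 2)) := by
  have hb : ∀ ζ ∈ closedBall (0 : ℂ) |ρ|, ‖ζ‖ < 1 := fun ζ hζ => by
    rw [mem_closedBall_zero_iff, abs_of_pos hρ.1] at hζ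
    exact hζ.trans_lt hρ.2
  refine ⟨MeromorphicOn.circleIntegrable_log_norm fun ζ hζ => (AnalyticAt.comp (g := bl w)
    (f := fun ζ => ((g • cay ζ : ℍ) : ℂ)) (analyticAt_bl w _) (analyticAt_smul_cay g (hb ζ (sphere_subset_closedBall hζ)))).meromorphicAt,
    ?_⟩
  obtain ⟨w, rfl⟩ : ∃ w', g • w' = w := ⟨g⁻¹ • w, smul_inv_smul _ _⟩
  obtain ⟨u, hu, rfl⟩ : ∃ u, ‖u‖ < 1 ∧ cay u = w := ⟨_, norm_cayInv_lt w, cay_cayInv w⟩
  have hu0 : 0 < ‖u‖ := norm_pos_iff.mpr fun e => hw (by rw [e, cay_zero])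
  have h1 : ∀ ζ : ℂ, ‖ζ‖ < 1 → 1 - ζ * conj u ≠ 0 := fun ζ hζ => one_sub_ne (by
    rw [norm_mul, Complex.norm_conj]
    nlinarith [norm_nonneg ζ])
  have h2 : ∀ ζ : ℂ, ‖ζ‖ < 1 → ‖bl (cay u) (cay ζ)‖ = ‖ζ - u‖ / ‖1 - ζ * conj u‖ := fun ζ hζ => by
    have e1 := one_sub_ne hζ
    have e2 := one_sub_ne hu
    have e3 : 1 - conj u ≠ 0 := one_sub_ne (by rwa [Complex.norm_conj])
    have e4 := h1 ζ hζ
    have e5 : bl (cay u) (cay ζ) = (ζ - u) / (1 - ζ * conj u) * (conj (1 - u) / (1 - u)) := by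
      rw [bl, div_eq_iff (sub_conj_ne _ (im_pos _)), coe_cay hζ, coe_cay hu]
      simp only [cayC, map_div₀, map_mul, map_add, map_sub, map_one, Complex.conj_I]
      field_simp
      ring
    rw [e5, norm_mul, norm_div, norm_div, Complex.norm_conj, div_self (norm_ne_zero_iff.mpr e2),
      mul_one]
  have h3 : AnalyticOnNhd ℂ (fun ζ => 1 - ζ * conj u) (closedBall 0 |ρ|) := fun ζ _ => by fun_prop
  simp only [norm_bl_smul, dist_smul]
  rw [← norm_bl, ← cay_zero, h2 0 (by simp), Real.circleAverage_congr_codiscreteWithin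
    (f₂ := fun ζ => Real.log ‖ζ - u‖ - Real.log ‖1 - ζ * conj u‖) ?_ hρ.1.ne',
    Real.circleAverage_fun_sub (circleIntegrable_log_norm_sub_const _)
    (h3.mono sphere_subset_closedBall).meromorphicOn.circleIntegrable_log_norm,
    h3.circleAverage_log_norm_of_ne_zero fun ζ hζ => h1 ζ (hb ζ hζ),
    circleAverage_log_norm_sub_const_eq_log_radius_add_posLog hρ.1.ne']
  · have e := Real.posLog_sub_posLog_inv (x := ρ / ‖u‖)
    rw [Real.log_div hρ.1.ne' hu0.ne', inv_div, div_eq_inv_mul ‖u‖] at e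
    simp only [zero_sub, norm_neg, zero_mul, sub_zero, norm_one, div_one, Real.log_one]
    linarith
  · filter_upwards [compl_singleton_mem_codiscreteWithin u, self_mem_codiscreteWithin _]
      with ζ h4 h5
    have h6 := hb ζ (sphere_subset_closedBall h5)
    rw [h2 ζ h6, Real.log_div (norm_ne_zero_iff.mpr (sub_ne_zero.mpr h4))
      (norm_ne_zero_iff.mpr (h1 ζ h6))]

theorem summable_kerK (Γ : Subgroup SL(2, ℤ)) {ε : ℝ} (hε : 0 < ε) (z w : ℍ) :
    Summable fun γ : Γ => kerK ε (Real.cosh (dist z (γ.1 • w))) := by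
  obtain ⟨C, hC⟩ := kerK_le hε
  obtain ⟨D, hD⟩ := sum_akr_le' hε w
  have h1 : Summable fun γ : Γ => akr ε z (γ.1 • w) :=
    summable_of_sum_le (fun _ => akr_nonneg hε _ _) fun s => le_of_eq_of_le
      (by rw [Finset.sum_map]; rfl) (hD z (s.map (.subtype _)))
  refine (h1.mul_left (|C| * (2 * π / ε))).of_norm_bounded_eventually ?_
  filter_upwards [((finite_near z w 2).preimage
    (Subtype.val_injective (p := (· ∈ Γ))).injOn).compl_mem_cofinite] with γ hγ
  have h2 : 2 ≤ Real.cosh (dist z (γ.1 • w)) := by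
    have h3 : 2 < dist z (γ.1 • w) := not_le.mp hγ
    have h4 := exp_le_ch z (γ.1 • w)
    have h5 := Real.add_one_le_exp (dist z (γ.1 • w) / 2)
    have h6 := Real.exp_add (dist z (γ.1 • w) / 2) (dist z (γ.1 • w) / 2)
    rw [add_halves] at h6
    nlinarith
  rw [Real.norm_of_nonneg (kerK_nonneg _ _), akr, mul_assoc, ← mul_assoc (2 * π / ε),
    show 2 * π / ε * (ε / (2 * π)) = 1 by field_simp, one_mul]
  exact (hC _ h2).trans (mul_le_mul (le_abs_self C) (Real.rpow_le_rpow_of_nonpos (by linarith)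
    (by linarith) (by linarith)) (by positivity) (abs_nonneg C))

theorem ch_eq_tanh (t : ℝ) :
    (1 + Real.tanh (t / 2) ^ 2) / (1 - Real.tanh (t / 2) ^ 2) = Real.cosh t := by
  have h1 := Real.cosh_two_mul (t / 2)
  have h2 := Real.cosh_sq' (t / 2)
  have h3 := Real.cosh_pos (t / 2)
  rw [mul_div_cancel₀ _ two_ne_zero] at h1
  rw [Real.tanh_eq_sinh_div_cosh, div_pow, one_add_div (by positivity), one_sub_div (by positivity),
    div_div_div_cancel_right₀ (by positivity), h1, h2, add_sub_cancel_right, div_one]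

/-- The defect of the averaging operator. -/
theorem Th.hasSum [Γ.FiniteIndex] (h : Th Γ s m w Θ v) {z : ℍ} (hz : z ∉ Sp Γ s w) {ε : ℝ}
    (hε : 0 < ε) : HasSum (fun γ : Γ => ∑ i ∈ s, m i * kerK ε (Real.cosh (dist z (γ.1 • w i))))
      (avg ε (Lg Γ s m w v) z - Lg Γ s m w v z) := by
  obtain ⟨g, rfl⟩ : ∃ g : SL(2, ℝ), g • I = z := ⟨_, toSL2R_smul_I z⟩
  have hne : ∀ γ : Γ, ∀ i ∈ s, g • I ≠ γ.1 • w i := fun γ i hi e => hz ⟨i, hi, γ.1, γ.2, e⟩
  have hr : ∀ γ : Γ, ∀ i ∈ s, Real.tanh (dist (g • I) (γ.1 • w i) / 2) ∈ Ioo (0 : ℝ) 1 :=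
    fun γ i hi => ⟨tanh_pos (half_pos (dist_pos.mpr (hne γ i hi))), Real.tanh_lt_one _⟩
  have h1 : ∀ ρ ∈ Ioo (0 : ℝ) 1, HasSum (fun γ : Γ => ∑ i ∈ s, m i *
      (nuK ε ρ * Real.posLog (ρ / Real.tanh (dist (g • I) (γ.1 • w i) / 2))))
      (nuK ε ρ * Real.circleAverage
        (fun ζ => Lg Γ s m w v (g • cay ζ) - Lg Γ s m w v (g • I)) 0 ρ) := by
    intro ρ hρ
    have hρ1 : ‖(ρ : ℂ)‖ = ρ := by rw [Complex.norm_real, Real.norm_of_nonneg hρ.1.le]
    obtain ⟨A, G, h2, h3⟩ := h.loc (dist I (g • I) + dist I (cay ρ) + 1)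
    have hb : ∀ ζ ∈ closedBall (0 : ℂ) |ρ|, ‖ζ‖ < 1 ∧
        g • cay ζ ∈ ball I (dist I (g • I) + dist I (cay ρ) + 1) := fun ζ hζ => by
      rw [mem_closedBall_zero_iff, abs_of_pos hρ.1] at hζ
      have e := dist_triangle I (g • I) (g • cay ζ)
      rw [dist_smul] at e
      exact ⟨hζ.trans_lt hρ.2, mem_ball'.mpr (by
        linarith [dist_cay_le (ξ := ζ) (ζ := ρ) (hρ1.symm ▸ hζ) (hρ1.trans_lt hρ.2)])⟩
    have h4 : AnalyticOnNhd ℂ (fun ζ => G (g • cay ζ : ℍ)) (closedBall 0 |ρ|) := fun ζ hζ =>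
      AnalyticAt.comp (g := G) (Complex.analyticAt_iff_eventually_differentiableAt.mpr
        (ev_of_ball (hb ζ hζ).2 fun u hu => (h3 u hu).1)) (analyticAt_smul_cay g (hb ζ hζ).1)
    have h5 : ∀ ζ ∈ closedBall (0 : ℂ) |ρ|, Lg Γ s m w v (g • cay ζ) = (G (g • cay ζ : ℍ)).re +
        ∑ γ ∈ A, ∑ i ∈ s, m i * Real.log ‖bl (γ.1 • w i) (g • cay ζ : ℍ)‖ := fun ζ hζ => by
      rw [Lg_eq h2 (hb ζ hζ).2, (h3 _ (hb ζ hζ).2).2.2]
    have h6 : ∀ γ : Γ, ∀ i ∈ s, CircleIntegrable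
        (fun ζ => m i * Real.log ‖bl (γ.1 • w i) (g • cay ζ : ℍ)‖) 0 ρ := fun γ i hi =>
      IntervalIntegrable.const_mul (jensen_bl g (hne γ i hi) hρ).1 _
    have h7 : CircleIntegrable (fun ζ => (G (g • cay ζ : ℍ)).re) 0 ρ :=
      ContinuousOn.circleIntegrable' (Complex.continuous_re.comp_continuousOn
        (h4.continuousOn.mono sphere_subset_closedBall))
    have h8 := CircleIntegrable.fun_sum A fun γ _ => CircleIntegrable.fun_sum s (h6 γ)
    have h9 := h5 0 (mem_closedBall_self (abs_nonneg _))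
    rw [cay_zero] at h9
    rw [Real.circleAverage_congr_sphere fun ζ hζ => by
        rw [h5 ζ (sphere_subset_closedBall hζ)],
      Real.circleAverage_fun_sub (h7.fun_add h8) (circleIntegrable_const _ _ _),
      Real.circleAverage_fun_add h7 h8, Real.circleAverage_const, h9,
      InnerProductSpace.HarmonicOnNhd.circleAverage_eq fun ζ hζ => (h4 ζ hζ).harmonicAt_re,
      cay_zero, add_sub_add_left_eq_sub,
      Real.circleAverage_fun_sum fun γ _ => CircleIntegrable.fun_sum s (h6 γ),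
      ← Finset.sum_sub_distrib, Finset.mul_sum]
    refine (fun h1 h2 => h2 ▸ h1 : ∀ {f : Γ → ℝ} {a b : ℝ}, HasSum f a → b = a → HasSum f b) (hasSum_sum_of_ne_finset_zero (s := A) fun γ hγ =>
      Finset.sum_eq_zero fun i hi => ?_) (Finset.sum_congr rfl fun γ hγ => ?_)
    swap
    · rw [Real.circleAverage_fun_sum (h6 γ), ← Finset.sum_sub_distrib, Finset.mul_sum]
      refine Finset.sum_congr rfl fun i hi => ?_
      simp only [← smul_eq_mul (a := (m i : ℝ))]
      rw [Real.circleAverage_fun_smul, (jensen_bl g (hne γ i hi) hρ).2]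
      simp only [smul_eq_mul]
      ring
    · have e : ρ < Real.tanh (dist (g • I) (γ.1 • w i) / 2) := by
        rw [← hρ1, ← norm_bl_cay (hρ1.trans_lt hρ.2), norm_bl, tanh_lt_iff, dist_comm]
        linarith [h2 γ hγ i hi, dist_triangle I (g • I) (γ.1 • w i)]
      rw [(Real.posLog_eq_zero_iff _).mpr (by
        rw [abs_of_pos (div_pos hρ.1 (hr γ i hi).1), div_le_one (hr γ i hi).1]
        exact e.le), mul_zero, mul_zero]
  have h2 := fun (γ : Γ) i hi => integral_nuK_posLog hε (hr γ i hi)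
  simp only [ch_eq_tanh] at h2
  have h3 := hasSum_integral_of_summable_integral_norm (μ := volume.restrict (Ioo (0 : ℝ) 1))
    (F := fun (γ : Γ) ρ => ∑ i ∈ s, m i *
      (nuK ε ρ * Real.posLog (ρ / Real.tanh (dist (g • I) (γ.1 • w i) / 2))))
    (fun γ => integrable_finsetSum _ fun i hi => (h2 γ i hi).1.const_mul _)
    (.of_nonneg_of_le (fun _ => integral_nonneg fun _ => norm_nonneg _) (fun γ => by
      rw [← Finset.sum_congr rfl fun i hi => by rw [← (h2 γ i hi).2, ← integral_const_mul],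
        ← integral_finsetSum _ fun i hi => (h2 γ i hi).1.const_mul _]
      refine setIntegral_mono_on (integrable_finsetSum _ fun i hi =>
        (h2 γ i hi).1.const_mul _).norm (integrable_finsetSum _ fun i hi =>
        (h2 γ i hi).1.const_mul _) measurableSet_Ioo fun ρ hρ => (norm_sum_le _ _).trans_eq
        (Finset.sum_congr rfl fun i _ => ?_)
      rw [norm_mul, Real.norm_of_nonneg (mul_nonneg (nuK_nonneg hε hρ) Real.posLog_nonneg)])
      (summable_sum (s := s) fun i _ => (summable_kerK Γ hε (g • I) (w i)).mul_left ‖(m i : ℝ)‖))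
  have h4 := h.tame.integrable hε (g • I)
  have h5 : avg ε (Lg Γ s m w v) (g • I) - Lg Γ s m w v (g • I) =
      avg ε (fun u => Lg Γ s m w v u - Lg Γ s m w v (g • I)) (g • I) := by
    simp only [avg, mul_sub]
    rw [integral_sub h4 ((integrable_akr hε _).mul_const _), integral_mul_const, integral_akr hε,
      one_mul]
  rw [h5, avg_smul, avg_polar (u := fun u => Lg Γ s m w v (g • u) - Lg Γ s m w v (g • I))
    ((h.tame.meas.comp (continuous_const_smul g).measurable).sub_const _).aestronglyMeasurable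
    (integrable_akr_smul (u := fun u => Lg Γ s m w v u - Lg Γ s m w v (g • I)) g
      (by simp only [mul_sub]; exact h4.sub ((integrable_akr hε _).mul_const _))),
    setIntegral_congr_fun measurableSet_Ioo fun ρ hρ => (h1 ρ hρ).tsum_eq.symm]
  convert! h3 using 2 with γ
  rw [integral_finsetSum _ fun i hi => (h2 γ i hi).1.const_mul _]
  exact Finset.sum_congr rfl fun i hi => by rw [integral_const_mul, (h2 γ i hi).2]

/-- Points against points. -/
theorem Th.point_point [Γ.FiniteIndex] (h : Th Γ s m w Θ v) {κ : Type*} (t : Finset κ) (n : κ → ℝ)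
    (z : κ → ℍ) (h0 : ∑ j ∈ t, n j = 0) (hz : ∀ j ∈ t, z j ∉ Sp Γ s w) :
    Tendsto (fun ε => ∑ j ∈ t, n j * ∑ i ∈ s, m i *
      ∑' γ : Γ, kerK ε (Real.cosh (dist (z j) (γ.1 • w i)))) (𝓝[>] 0)
      (𝓝 (-∑ j ∈ t, n j * Real.log ‖Θ (z j)‖)) := by
  have h1 := (h.tame.tendsto_sum t n z h0).sub_const (∑ j ∈ t, n j * Real.log ‖Θ (z j)‖)
  rw [zero_sub] at h1
  refine h1.congr' ?_
  filter_upwards [self_mem_nhdsWithin] with ε hε
  rw [← Finset.sum_sub_distrib]
  refine Finset.sum_congr rfl fun j hj => ?_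
  rw [← mul_sub, (h.off (hz j hj)).2.2, ← (h.hasSum (hz j hj) hε).tsum_eq,
    Summable.tsum_finsetSum fun i _ => (summable_kerK Γ hε _ _).mul_left _]
  simp only [tsum_mul_left]

end Pool.Agent.B5.HA
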