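import Pool.Agent.Lib.MP_696deb_nt.B5.NLa

/-! Rationality of local heights, and multiples of a point which stay away from a finite set. -/

set_option autoImplicit false

open WeierstrassCurve WeierstrassCurve.Affine NumberField

namespace Pool.Agent.B5

open Pool.Agent.Lib.MP_696deb_nt

theorem logQ_add {p : ℕ} {a b : ℝ} (h : LogQ p a) (h' : LogQ p b) : LogQ p (a + b) := by
  obtain ⟨r, rfl⟩ := h
  obtain ⟨s, rfl⟩ := h'
  exact ⟨r + s, by push_cast; ring⟩

theorem logQ_mul {p : ℕ} (r : ℚ) {a : ℝ} (h : LogQ p a) : LogQ p (r * a) := by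
  obtain ⟨s, rfl⟩ := h
  exact ⟨r * s, by push_cast; ring⟩

theorem logQ_zero (p : ℕ) : LogQ p 0 := ⟨0, by simp⟩

theorem logQ_sum {p : ℕ} {ι : Type*} {s : Finset ι} {a : ι → ℝ} (h : ∀ i ∈ s, LogQ p (a i)) :
    LogQ p (∑ i ∈ s, a i) :=
  Finset.sum_induction _ _ (fun _ _ => logQ_add) (logQ_zero p) h

section
variable {K : Type*} [Field K] [DecidableEq K] {v : AbsoluteValue K ℝ} {W : WeierstrassCurve K}
  [W.IsElliptic] (h : IntW v W)
include h

theorem IntW.logQ {p : ℕ} (hq : ∀ x : K, x ≠ 0 → LogQ p (Real.log (v x))) {P : W.toAffine.Point}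
    {m : ℕ} (hm : m ≠ 0) (hP : Big v 1 (m • P)) : LogQ p (lamV v P) := by
  have a : ∀ k : ℕ, LogQ p (lamV v (k • P) - k ^ 2 * lamV v P) ∧
      LogQ p (lamV v ((k + 1) • P) - (k + 1) ^ 2 * lamV v P) := fun k => by
    induction k with
    | zero => simpa [h.lam_zero] using logQ_zero p
    | succ k ih =>
      refine ⟨by exact_mod_cast ih.2, ?_⟩
      obtain ⟨c, c0, c1⟩ := addSubMap_sym2x ((k + 1) • P) P
      have e := h.par c1
      rw [← succ_nsmul, succ_nsmul P k, add_sub_cancel_right, ← succ_nsmul] at e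
      convert logQ_add (logQ_add (logQ_mul 2 ih.2) (logQ_mul (-1) ih.1)) (logQ_mul (-1) (hq c c0))
        using 1
      push_cast
      linarith
  have b : LogQ p (lamV v (m • P)) := by
    rw [h.lam_big hP, hx]
    rcases le_or_gt (v (xco (m • P))) 1 with e | e
    · simpa [max_eq_left e] using logQ_zero p
    · rw [max_eq_right e.le]
      exact hq _ fun k => by simp [k] at e; linarith
  have m0 : (m : ℝ) ≠ 0 := by exact_mod_cast hm
  convert logQ_mul (1 / m ^ 2) (logQ_add b (logQ_mul (-1) (a m).1)) using 1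
  push_cast
  field_simp
  ring

theorem IntW.big_of_near {P Q : W.toAffine.Point} (hP : ¬ Big v 1 P) (hQ : ¬ Big v 1 Q)
    (e : v (xco P - xco Q) < v W.Δ) : Big v 1 (P + Q) ∨ Big v 1 (P - Q) := by
  rw [Big, not_or, not_lt] at hP hQ
  by_cases k : xco P = xco Q
  · rcases P with _ | ⟨x₁, y₁, h₁⟩
    · exact absurd rfl hP.1
    rcases Q with _ | ⟨x₂, y₂, h₂⟩
    · exact absurd rfl hQ.1
    exact ((Point.X_eq_iff (h₁ := h₁) (h₂ := h₂)).1 k).symm.imp
      (fun k => .inl (by rw [k, neg_add_cancel])) fun k => .inl (sub_eq_zero.2 k)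
  by_contra! a
  simp only [Big, not_or, not_lt] at a
  have b1 := h.par' hP.1 hQ.1 k
  have b2 := h.lam_le (P + Q)
  have b3 := h.lam_le (P - Q)
  have b4 := h.third P
  have b5 := h.third Q
  have b6 := Real.log_lt_log (v.pos (sub_ne_zero.2 k)) e
  have b7 := Real.log_nonpos (v.nonneg _) h.disc_le
  rw [hx, max_eq_left a.1.2, Real.log_one] at b2
  rw [hx, max_eq_left a.2.2, Real.log_one] at b3
  rw [hx, max_eq_left hP.2, Real.log_one] at b4
  rw [hx, max_eq_left hQ.2, Real.log_one] at b5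
  linarith

theorem IntW.exists_big (hf : ∀ ε : ℝ, 0 < ε → ∃ S : Set K, S.Finite ∧
    ∀ x, v x ≤ 1 → ∃ s ∈ S, v (x - s) < ε) (P : W.toAffine.Point) :
    ∃ m : ℕ, m ≠ 0 ∧ Big v 1 (m • P) := by
  by_contra! a
  obtain ⟨S, s1, s2⟩ := hf _ (IntW.disc_pos (v := v) (W := W))
  choose s s3 s4 using fun n : ℕ => s2 (xco ((n + 1) • P))
    (not_lt.1 fun e => a _ n.succ_ne_zero (.inr e))
  obtain ⟨i, j, e1, e2⟩ := Set.Finite.exists_lt_map_eq_of_forall_mem s3 s1
  obtain ⟨k, rfl⟩ := Nat.exists_eq_add_of_lt e1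
  have e3 := na_sub_lt h.na (s4 (i + k + 1)) (s4 i)
  rw [e2, sub_sub_sub_cancel_right] at e3
  rcases h.big_of_near (a (i + k + 1 + 1) (by omega)) (a (i + 1) (by omega)) e3 with e | e
  · rw [← add_nsmul] at e
    exact a _ (by omega) e
  · exact a (k + 1) k.succ_ne_zero (by
      rwa [show i + k + 1 + 1 = k + 1 + (i + 1) by ring, add_nsmul, add_sub_cancel_right] at e)

omit [W.IsElliptic] in
/-- Multiples of a point of infinite order which are not close to a finite set of points. -/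
theorem IntW.exists_far {b : W.toAffine.Point} (hb : ¬ IsOfFinAddOrder b)
    (S : Finset W.toAffine.Point) :
    ∃ c : ℝ, 1 ≤ c ∧ ∀ T : ℕ, ∃ n : ℕ, T ≤ n ∧ ∀ R ∈ S, ¬ Big v c (n • b - R) := by
  obtain ⟨c, hc⟩ := Finset.exists_le ((Finset.range (S.card + 1)).image fun k => v (xco (k • b)))
  refine ⟨max 1 c, le_max_left _ _, fun T => ?_⟩
  by_contra! a
  choose R r1 r2 using fun k : ℕ => a (T + k) (Nat.le_add_right _ _)
  obtain ⟨i, i1, j, j1, e1, e2⟩ := Finset.exists_ne_map_eq_of_card_lt_of_maps_to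
    (s := Finset.range (S.card + 1)) (t := S) (by simp) (f := R) fun k _ => r1 k
  wlog e3 : i < j generalizing i j
  · exact this j j1 i i1 e1.symm e2.symm (by omega)
  obtain ⟨k, rfl⟩ := Nat.exists_eq_add_of_lt e3
  have e4 := h.big_sub (le_max_left _ _) (r2 (i + k + 1)) (r2 i)
  rw [e2, sub_sub_sub_cancel_right, show T + (i + k + 1) = k + 1 + (T + i) by ring, add_nsmul,
    add_sub_cancel_right] at e4
  rcases e4 with e4 | e4
  · exact hb (isOfFinAddOrder_iff_nsmul_eq_zero.2 ⟨k + 1, k.succ_pos, e4⟩)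
  · exact e4.not_ge ((hc _ (Finset.mem_image_of_mem _ (by simp at j1 ⊢; omega))).trans
      (le_max_right _ _))

end

variable {K : Type*} [Field K] [NumberField K]

theorem place_net (w : FinitePlace K) (ε : ℝ) (hε : 0 < ε) : ∃ S : Set K, S.Finite ∧
    ∀ x, w.1 x ≤ 1 → ∃ s ∈ S, w.1 (x - s) < ε := by
  obtain ⟨p, hp, p1, -⟩ := exists_prime_below w
  obtain ⟨n, hn⟩ := exists_pow_lt_of_lt_one hε p1
  have p0 : ((p : 𝓞 K) ^ n) ≠ 0 := pow_ne_zero _ (by exact_mod_cast hp.ne_zero)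
  have := Ideal.finiteQuotientOfFreeOfNeBot (Ideal.span {(p : 𝓞 K) ^ n}) (by simpa using p0)
  have m := WithZeroMulInt.toNNReal_strictMono
    (HeightOneSpectrum.one_lt_absNorm_nnreal w.maximalIdeal)
  have e : ∀ x : K, w.1 x = _ := fun x =>
    (w.norm_embedding_eq x).symm.trans (FinitePlace.norm_embedding' w.maximalIdeal x)
  have i : ∀ a : 𝓞 K, w.1 a ≤ 1 := fun a =>
    (w.norm_embedding_eq a).symm.trans_le (FinitePlace.norm_le_one K w.maximalIdeal a)
  have q : w.1 ((p : K) ^ n) < ε := by rwa [map_pow]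
  refine ⟨Set.range fun c : 𝓞 K ⧸ Ideal.span {(p : 𝓞 K) ^ n} => (c.out : K), Set.finite_range _,
    fun x hx => ?_⟩
  obtain ⟨a, ha⟩ := w.maximalIdeal.exists_valuation_sub_lt_of_integer (K := K) (x := x)
    (m.le_iff_le.1 (by rw [e] at hx; rw [map_one]; exact_mod_cast hx))
    (Units.mk0 (w.maximalIdeal.valuation K ((p : K) ^ n))
      ((Valuation.ne_zero_iff _).2 (pow_ne_zero _ (by exact_mod_cast hp.ne_zero))))
  obtain ⟨c, hc⟩ := Ideal.mem_span_singleton'.1 (Ideal.Quotient.eq.1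
    (Ideal.Quotient.mk_out (Ideal.Quotient.mk (Ideal.span {(p : 𝓞 K) ^ n}) a)))
  refine ⟨_, ⟨Ideal.Quotient.mk _ a, rfl⟩, ?_⟩
  have h1 : w.1 ((a : K) - x) < ε := lt_trans (by rw [e, e]; exact_mod_cast m ha) q
  have h2 := congrArg (algebraMap (𝓞 K) K) hc
  rw [map_mul, map_pow, map_natCast, map_sub, eq_sub_iff_add_eq] at h2
  have h3 : w.1 ((c : K) * (p : K) ^ n) < ε := by
    rw [map_mul]
    exact (mul_le_of_le_one_left (w.1.nonneg _) (i c)).trans_lt q
  have h4 := na_add_lt (v := w.1) w.add_le h1 h3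
  rw [← w.1.map_neg] at h4
  convert h4 using 2
  linear_combination h2

variable [DecidableEq K] {W : WeierstrassCurve ℚ} [W.IsElliptic]

/-- Curves with integral coefficients. -/
def ZW (W : WeierstrassCurve ℚ) : Prop := ∃ W' : WeierstrassCurve ℤ, W = W'.map (Int.castRingHom ℚ)

omit [W.IsElliptic] in
theorem ZW.int (h : ZW W) {L : Type*} [Field L] [CharZero L] {v : AbsoluteValue L ℝ}
    (hv : IsNonarchimedean v) : IntW v (W.baseChange L) := by
  obtain ⟨W', rfl⟩ := h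
  refine ⟨hv, ?_, ?_, ?_, ?_⟩ <;> 
    simpa [WeierstrassCurve.baseChange] using hv.apply_intCast_le_one

theorem logQ_lamV (h : ZW W) (w : FinitePlace K) {p : ℕ}
    (hq : ∀ x : K, x ≠ 0 → LogQ p (Real.log (w x))) (P : Pt W K) : LogQ p (lamV w.1 P) := by
  obtain ⟨m, m0, m1⟩ := (h.int (v := w.1) w.add_le).exists_big (place_net w) P
  exact (h.int w.add_le).logQ hq m0 m1

/-- The canonical height is the sum of the local heights. -/
theorem hrel_eq (h : ZW W) {Λ₀ : Pt W ℂ → ℝ} (h₀ : NeronLocal (fun z : ℂ => ‖z‖) Λ₀)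
    (P : Pt W K) : (Function.support fun w : FinitePlace K => lamV w.1 P).Finite ∧
      hrel W K P = ∑ φ : K →+* ℂ, Λ₀ (pmap φ P) + ∑ᶠ w : FinitePlace K, lamV w.1 P := by
  have f := FinitePlace.hasFiniteMulSupport (W.baseChange K).isUnit_Δ.ne_zero
  have hS : ∀ w ∉ f.toFinset, ∀ P : Pt W K, lamV w.1 P = Real.log (max 1 (w (xco P))) :=
    fun w hw => (h.int w.add_le).lam_good (not_not.1 (mt f.mem_toFinset.2 hw))
  refine ⟨(f.union (finite_log_max (xco P))).subset fun w hw => ?_,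
    hrel_eq_sum h₀ (fun w => (h.int w.add_le).neron) hS P⟩
  by_cases hw' : w ∈ f.toFinset
  · exact .inl (f.mem_toFinset.1 hw')
  · exact .inr (by rwa [Function.mem_support, ← hS w hw'])

end Pool.Agent.B5
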