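import Pool.Agent.Lib.MP_60ff09_nt.Dih.FPd
import Pool.Agent.Lib.MP_696deb_nt.B5.NLb
import Pool.Agent.Lib.MP_696deb_nt.B5.RVa

/-! Decomposition of heights into local terms. -/

set_option autoImplicit false

open Finset NumberField
open scoped Classical

namespace Pool.Agent.G5

open Pool.Agent.Lib.MP_696deb_nt Pool.Agent.Shared.Weier
open Pool.Agent.B5 (IntW ZW lamV)

variable {W : WeierstrassCurve ℚ} [W.IsElliptic] {ι : Type} {s : Finset ι} {n : ι → ℤ}
  {R : ι → Pt W ℂ} {Λ : Pt W ℂ → ℝ} {H : ℂ} {G B : ℝ} {p : ℕ}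

theorem htd_field (hR : ∀ i ∈ s, R i ∈ Alg W) {x : ℂ} (hx : IsAlgebraic ℚ x) :
    ∃ (K : IntermediateField ℚ ℂ) (_ : NumberField K) (P : ι → Pt W K), Countable K ∧ x ∈ K ∧
      ∀ i ∈ s, pmap K.val.toRingHom (P i) = R i := by
  obtain ⟨K, hK, h0, h1⟩ := exists_field (S := R '' s) (Set.toFinite _)
    (by rintro _ ⟨i, hi, rfl⟩; exact hR i hi) (Set.finite_singleton x) (by simpa using hx)
  have : NumberField K := {}
  choose! P hP using fun i (hi : i ∈ s) => h1 (R i) ⟨i, hi, rfl⟩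
  exact ⟨K, this, P, (Module.finBasis ℚ K).equivFun.toEquiv.countable_iff.mpr inferInstance,
    h0 x rfl, hP⟩

theorem htd_alg (hR : ∀ i ∈ s, R i ∈ Alg W) (H0 : H ≠ 0) (hG : ∀ σ : ℂ ≃+* ℂ,
    Real.log ‖σ H‖ + ∑ i ∈ s, n i * Λ (pmap (σ : ℂ →+* ℂ) (R i)) = G) : IsAlgebraic ℚ H := by
  obtain ⟨K, _, P, _, -, hP⟩ := htd_field hR isAlgebraic_zero
  refine IsAlgebraic.restrictScalars ℚ (S := K) (of_not_not fun h => ?_)
  have k : ∀ x : ℂ, Transcendental K x → ∀ y : ℂ, Transcendental K y → x = H →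
      Real.log ‖y‖ + ∑ i ∈ s, n i * Λ (R i) = G := fun x hx y hy e => by
    obtain ⟨σ, h1, h2⟩ := Gal.exists_aut_transc hx hy
    rw [← hG σ, ← e, h1]
    refine congrArg _ (sum_congr rfl fun i hi => ?_)
    rw [← hP i hi, pmap_pmap,
      show (σ : ℂ →+* ℂ).comp K.val.toRingHom = K.val.toRingHom from RingHom.ext h2]
  have h1 := k H h (H * 2) (fun e => h (by
    simpa [map_ofNat] using e.mul (isAlgebraic_algebraMap (2 : K)⁻¹))) rfl
  rw [← k H h H h rfl, add_left_inj, norm_mul, Real.log_mul (norm_ne_zero_iff.2 H0) (by simp),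
    add_eq_left, Complex.norm_ofNat] at h1
  exact (Real.log_pos one_lt_two).ne' h1

theorem htd_dec (hW : ZW W) (hΛ : NeronLocal (fun z : ℂ => ‖z‖) Λ) (hR : ∀ i ∈ s, R i ∈ Alg W)
    (H0 : H ≠ 0) (hG : ∀ σ : ℂ ≃+* ℂ,
      Real.log ‖σ H‖ + ∑ i ∈ s, n i * Λ (pmap (σ : ℂ →+* ℂ) (R i)) = G) (hp : p.Prime)
    (hB0 : 0 ≤ B) (hB : ∀ v : AbsoluteValue ℂ ℝ, IntW v (W.baseChange ℂ) → v p < 1 →
      |Real.log (v H) + ∑ i ∈ s, n i * lamV v (R i)| ≤ B * -Real.log (v p)) :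
    ∃ ρ : ℚ, |(ρ : ℝ)| ≤ B ∧ ∑ i ∈ s, n i * hhat (R i) - G - ρ * Real.log p ∈ LogS p := by
  obtain ⟨K, _, P, _, hx, hP⟩ := htd_field hR (htd_alg hR H0 hG)
  obtain ⟨x, rfl⟩ : ∃ x, K.val.toRingHom x = H := ⟨⟨H, hx⟩, rfl⟩
  have x0 : x ≠ 0 := fun e => H0 (by rw [e, map_zero])
  have hF : ((Function.support fun w : FinitePlace K => Real.log (w x)) ∪
      ⋃ i ∈ s, Function.support fun w : FinitePlace K => lamV w.1 (P i)).Finite :=
    (finite_log x0).union (s.finite_toSet.biUnion fun i _ => (B5.hrel_eq hW hΛ (P i)).1)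
  choose pr p1 p2 p3 using exists_prime_below (K := K)
  have hd : (0 : ℝ) < Module.finrank ℚ K := by exact_mod_cast Module.finrank_pos
  have h3 : ∀ φ : K →+* ℂ, Real.log ‖φ x‖ + ∑ i ∈ s, n i * Λ (pmap φ (P i)) = G := fun φ => by
    obtain ⟨σ, hs⟩ := Gal.exists_aut K.val.toRingHom φ (RingHom.injective _) φ.injective
    rw [← hG σ, hs, show φ = (σ : ℂ →+* ℂ).comp K.val.toRingHom from
      RingHom.ext fun x => (hs x).symm]
    exact congrArg _ (sum_congr rfl fun i hi => by rw [← pmap_pmap, hP i hi])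
  have h6 : ∀ w : FinitePlace K, ∃ q : ℚ,
      Real.log (w x) + ∑ i ∈ s, n i * lamV w.1 (P i) = q * Real.log (pr w) := fun w =>
    B5.logQ_add (p3 w x x0) (B5.logQ_sum fun i _ => by
      simpa using B5.logQ_mul (n i) (B5.logQ_lamV hW w (p3 w) (P i)))
  choose q hq using h6
  have h2 : (∑ i ∈ s, n i * hhat (R i)) * Module.finrank ℚ K = Module.finrank ℚ K * G +
      ∑ w ∈ hF.toFinset, q w * Real.log (pr w) := by
    have h4 : ∀ i ∈ s, n i * hhat (R i) * Module.finrank ℚ K = ∑ φ : K →+* ℂ,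
        n i * Λ (pmap φ (P i)) + ∑ w ∈ hF.toFinset, n i * lamV w.1 (P i) := fun i hi => by
      rw [← hP i hi, hhat_pmap, (B5.hrel_eq hW hΛ _).2, finsum_eq_sum_of_support_subset _
        (s := hF.toFinset) fun w hw => by simpa using .inr ⟨i, hi, hw⟩, mul_assoc,
        div_mul_cancel₀ _ hd.ne', mul_add, mul_sum, mul_sum]
    have h5 := sum_log_eq_zero x0
    rw [finsum_eq_sum_of_support_subset _ (s := hF.toFinset) fun w hw => by
      rw [Set.Finite.coe_toFinset]; exact .inl hw] at h5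
    have h8 := sum_congr rfl fun φ (_ : φ ∈ univ) => h3 φ
    rw [sum_const, card_univ, Embeddings.card K ℂ, nsmul_eq_mul] at h8
    rw [sum_mul, sum_congr rfl h4, sum_add_distrib, sum_comm, sum_comm (s := s), ← h8]
    simp only [← hq, sum_add_distrib]
    linarith
  have lp : 0 < Real.log p := Real.log_pos (by exact_mod_cast hp.one_lt)
  have h7 : ∀ w, pr w = p → |(q w : ℝ)| * Real.log p ≤ B * -Real.log (w p) := fun w e => by
    obtain ⟨v, hv, e'⟩ := B5.exists_abv_place K.val.toRingHom w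
    have e2 : v p = w p := by rw [← e' p, map_natCast K.val.toRingHom]
    have k := hB v (hW.int hv) (by rw [e2, ← e]; exact p2 w)
    rwa [e2, e', sum_congr rfl fun i hi => by rw [← hP i hi, B5.lamV_pmap (w := w.1) _ e'], hq, e,
      abs_mul, abs_of_pos lp] at k
  refine ⟨(∑ w ∈ hF.toFinset with pr w = p, q w) / Module.finrank ℚ K, ?_, ?_⟩
  · push_cast
    rw [abs_div, abs_of_pos hd, div_le_iff₀ hd, ← mul_le_mul_iff_left₀ lp]
    refine (mul_le_mul_of_nonneg_right (abs_sum_le_sum_abs _ _) lp.le).trans ?_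
    rw [sum_mul, mul_assoc]
    refine (sum_le_sum fun w hw => h7 w (mem_filter.1 hw).2).trans ?_
    rw [← mul_sum]
    exact mul_le_mul_of_nonneg_left (Dih.fpd_sum hp _) hB0
  · refine LogS.of_mul (r := Module.finrank ℚ K) (by exact_mod_cast hd.ne') ?_
    have e : ∑ w ∈ hF.toFinset with pr w = p, (q w : ℝ) * Real.log (pr w) =
        (∑ w ∈ hF.toFinset with pr w = p, (q w : ℝ)) * Real.log p := by
      rw [sum_mul]
      exact sum_congr rfl fun w hw => by rw [(mem_filter.1 hw).2]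
    rw [← sum_filter_add_sum_filter_not _ (pr · = p), e] at h2
    have k := (LogS p).sum_mem (t := hF.toFinset.filter (¬ pr · = p)) fun w hw =>
      LogS.rat_mul (q w) (log_prime_mem (p1 w) (mem_filter.1 hw).2)
    refine (congrArg (· ∈ LogS p) ?_).mp k
    push_cast
    field_simp
    linear_combination -h2

theorem htd_log (f : ℂ →*₀ ℝ) {h : ι → ℂ} (hh : ∀ i ∈ s, h i ≠ 0) (a b : ι → ℝ) :
    Real.log (f (∏ i ∈ s, h i ^ (2 * n i))) + ∑ i ∈ s.disjSum s,
      (Sum.elim n (-n) i : ℤ) * Sum.elim a b i =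
      2 * ∑ i ∈ s, n i • (Real.log (f (h i)) + (a i - b i) / 2) := by
  rw [map_prod, Real.log_prod fun i hi => (map_ne_zero f).2 (zpow_ne_zero _ (hh i hi)),
    sum_disjSum, mul_sum, ← sum_add_distrib, ← sum_add_distrib]
  refine sum_congr rfl fun i _ => ?_
  rw [map_zpow₀, Real.log_zpow]
  simp
  ring

/-- The pairing of a divisor of degree zero with a point. -/
theorem htd_pair (hW : ZW W) (hΛ : NeronLocal (fun z : ℂ => ‖z‖) Λ) (hR : ∀ i ∈ s, R i ∈ Alg W)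
    {c u : Pt W ℂ} (hc : c ∈ Alg W) (hu : u ∈ Alg W) (hn : ∑ i ∈ s, n i = 0) {h : ι → ℂ}
    (h0 : ∀ i ∈ s, h i ≠ 0) (hG : ∀ σ : ℂ ≃+* ℂ, ∑ i ∈ s, n i • (Real.log ‖σ (h i)‖ +
      (Λ (pmap (σ : ℂ →+* ℂ) (R i - c)) - Λ (pmap (σ : ℂ →+* ℂ) (R i - c - u))) / 2) = G)
    (hp : p.Prime) (hB0 : 0 ≤ B) (hB : ∀ v : AbsoluteValue ℂ ℝ, IntW v (W.baseChange ℂ) →
      v p < 1 → |∑ i ∈ s, n i • (Real.log (v (h i)) +
        (lamV v (R i - c) - lamV v (R i - c - u)) / 2)| ≤ B * -Real.log (v p)) :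
    ∃ ρ : ℚ, |(ρ : ℝ)| ≤ 2 * B ∧
      hpair (∑ i ∈ s, n i • R i) u - 2 * G - ρ * Real.log p ∈ LogS p := by
  have a1 : ∀ i ∈ s, R i - c ∈ Alg W := fun i hi => sub_mem (hR i hi) hc
  obtain ⟨ρ, h1, h2⟩ := htd_dec (s := s.disjSum s) (n := Sum.elim n (-n))
    (R := Sum.elim (fun i => R i - c) fun i => R i - c - u) (H := ∏ i ∈ s, h i ^ (2 * n i))
    (G := 2 * G) (B := 2 * B) hW hΛ (by
      rintro (i | i) hi
      exacts [a1 i (by simpa using hi), sub_mem (a1 i (by simpa using hi)) hu])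
    (prod_ne_zero_iff.2 fun i hi => zpow_ne_zero _ (h0 i hi)) (fun σ => by
      rw [← hG σ]
      refine .trans ?_ (htd_log (normHom.comp σ.toRingHom.toMonoidWithZeroHom) h0 _ _)
      exact congrArg _ (sum_congr rfl fun i _ => by cases i <;> rfl)) hp (by positivity)
    fun v I hv => by
      have := htd_log (n := n) v.toMonoidWithZeroHom h0 (fun i => lamV v (R i - c))
        fun i => lamV v (R i - c - u)
      rw [sum_congr rfl fun i _ => show _ = (Sum.elim n (-n) i : ℤ) * lamV v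
        (Sum.elim (fun i => R i - c) (fun i => R i - c - u) i) by cases i <;> rfl] at this
      refine (congrArg abs this).trans_le ?_
      rw [abs_mul, abs_two, mul_assoc]
      exact mul_le_mul_of_nonneg_left (hB v I hv) two_pos.le
  refine ⟨ρ, h1, ?_⟩
  convert h2 using 3
  choose! S hS using fun i (hi : i ∈ s) => show ∃ X : Alg W, X.1 = R i from ⟨⟨_, hR i hi⟩, rfl⟩
  have e : ∑ i ∈ s, n i • R i = (∑ i ∈ s, n i • S i : Alg W) := by
    rw [AddSubmonoidClass.coe_finsetSum]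
    exact sum_congr rfl fun i hi => by rw [AddSubgroupClass.coe_zsmul, hS i hi]
  have e1 : ∀ i ∈ s, (n i : ℝ) * hhat (R i - c) + -n i * hhat (R i - c - u) =
      n i • hbil ⟨u, hu⟩ (S i) - n i * (hbil ⟨u, hu⟩ ⟨c, hc⟩ + hhat u) := fun i hi => by
    have := map_sub (hbil ⟨u, hu⟩) (S i) ⟨c, hc⟩
    rw [hbil_apply, AddSubgroupClass.coe_sub, hS i hi, hpair_comm] at this
    rw [hhat_sub (a1 i hi) hu, this, zsmul_eq_mul]
    ring
  rw [e, hpair_comm, ← hbil_apply ⟨u, hu⟩, map_sum, sum_disjSum, ← sum_add_distrib]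
  simp only [Sum.elim_inl, Sum.elim_inr, Pi.neg_apply, Int.cast_neg, map_zsmul]
  rw [sum_congr rfl e1, sum_sub_distrib, ← sum_mul, ← Int.cast_sum, hn, Int.cast_zero, zero_mul,
    sub_zero]

end Pool.Agent.G5
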