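import Pool.Agent.Lib.MP_696deb_nt.B5.LCd
import Pool.Agent.Lib.MP_696deb_nt.B5.HT0

/-! The statement on the places above a split prime. -/

set_option autoImplicit false

namespace Pool.Agent.G5

theorem lc_stmt : LCStmt :=
  fun _ _ _ _ _ _ _ _ _ _ _ _ _ _ _ _ _ _ cx hT hT' hl hl₀ hne _ h2 ha h I hv h1 =>
    lc_split I hv cx hT hT' hl hl₀ hne h2 ha h h1

end Pool.Agent.G5
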