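import Pool.Agent.Lib.MP_696deb_nt.B5.NSb
import Pool.Agent.Lib.MP_696deb_nt.B5.LCc
import Pool.Agent.Lib.MP_696deb_nt.B5.HT0

/-! The statements on the primes that are not split. -/

set_option autoImplicit false

open Finset NumberTheorySymbols
open scoped Classical
open Pool.Agent.Lib.MP_696deb_nt

namespace Pool.Agent.G5

open Pool.Agent.Dih (mem_HI)

theorem Cx.ns_deg {N p A B : ℕ} {ρ ρ' β : ℤ} {T T' : Finset Fm} (h : Cx N p A B ρ ρ' β)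
    (hT : FReps N (-(A * B : ℕ)) ρ T) (hT' : FReps N (-(A * B : ℕ)) (-ρ) T') :
    ∑ Q ∈ T ∪ T', wZ N B (-(A * B : ℕ)) ρ Q = 0 := by
  have := sum_wZ (B := B) hT hT' (h.toGood.not_dvd h.root h.l1 dvd_rfl) fun _ => (1 : ℤ)
  simp only [smul_eq_mul, mul_one] at this
  rw [this, hT.sum_gch h.toGood h.A1 h.B1, hT'.sum_gch h.toGood h.A1 h.B1, mul_zero, add_zero]

theorem ns_stmt : NSStmt := by
  intro W _ N P p A B ρ ρ' β T T' l l₀ a u V h hT hT' hl hl₀ hne h2 hJ₀ ha hV hJ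
  obtain ⟨C, hC⟩ := lc_nonsplit' h hT hT' (h.ns_deg hT hT') hl hl₀ hne h2 hJ₀ ha hV hJ
  exact ⟨C, 2, fun v j I hv => hC v I hv j⟩

theorem dj_stmt : DJStmt := by
  rintro n M l₀ m Q R _ - h4 - hQ hD M0 hl - hJ hM ⟨a, d, b, h1, h2, rfl⟩ - hm hR hd
  exact (ns_jf_ne (t := ⟨(a, d), b⟩) h4 hQ hD hl hJ (hl.coprime_iff_not_dvd.1 hM.symm)
    (mem_HI.2 ⟨h1, mul_ne_zero hl.ne_zero M0, h2⟩) hR (hl.coprime_iff_not_dvd.1 hm.symm)
    (hd.trans (neg_mul _ _).symm)).symm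

end Pool.Agent.G5
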