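import Pool.Agent.Lib.MP_696deb_nt.B5.HTd
import Pool.Agent.Lib.MP_696deb_nt.B5.HT1
import Pool.Agent.Lib.MP_696deb_nt.B5.NSc
import Pool.Agent.Lib.MP_696deb_nt.B5.LCe
import Pool.Agent.Lib.MP_696deb_nt.B5.AG

/-! The height pairing as a sum of local terms. -/

set_option autoImplicit false

open Finset
open scoped Classical

namespace Pool.Agent.G5

open Pool.Agent.Lib.MP_696deb_nt Pool.Agent.B4.GE Pool.Agent.Shared.Weier
open Pool.Agent.B5 (IntW ZW)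
open Pool.Agent.Dih (HI hpt mem_HI)

variable {W : WeierstrassCurve ℚ} [W.IsElliptic] {N p A B l l₀ M : ℕ} {P : Par W N} {ρ ρ' β : ℤ}
  {T T' : Finset Fm} {a : ℕ →₀ ℤ} {u : ℂ} {V : ℂ → ℂ} {b : ℕ → ℕ}

theorem zs_hsum {E : Type} [AddCommGroup E] (g : ℂ → E) : zs N A B ρ T T' (hsum M g) =
    ∑ x ∈ (T ∪ T') ×ˢ HI M, wZ N B (-(A * B : ℕ)) ρ x.1 • g (hpt x.2 (froot x.1)) := by
  simp only [zs, hsum_eq, sum_product, smul_sum]

theorem ht_one (ar : ARStmt b) (hW : ZW W) (h : Cx N p A B ρ ρ' β) (hb : b N < A * B)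
    (hT : FReps N (-(A * B : ℕ)) ρ T) (hT' : FReps N (-(A * B : ℕ)) (-ρ) T') (hl : l.Prime)
    (hl₀ : l₀.Prime) (hJ₀ : et (A * B) l₀ = -1) (M0 : M ≠ 0) (hM : M.Coprime (N * l₀))
    (ha : Sup (N * l * l₀) a)
    (hV : Th N (cmb (fun m => nuW (Yw N A B ρ' m)) a) (U1 P.L P.F u) V)
    (hu : P.per.unif u ∈ Alg W) {C : ℝ} (C0 : 0 ≤ C) (hC : ∀ v : AbsoluteValue ℂ ℝ,
      IntW v (W.baseChange ℂ) → v l < 1 →
        |zs N A B ρ T T' (hsum (l₀ * M) (gv v P u V))| ≤ C * -Real.log (v l)) :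
    ∃ r : ℚ, |(r : ℝ)| ≤ 2 * C ∧ hpair (zs N A B ρ T T' (hsum (l₀ * M) P.φ)) (P.per.unif u) -
      2 * zs N A B ρ T T' (hsum (l₀ * M) (gT (U1 P.L P.F u) V)) - r * Real.log l ∈ LogS l := by
  obtain ⟨c, c1, c2, c3⟩ := ar W N P p A B ρ ρ' β T T' l l₀ M a u V h hb hT hT' hl₀ hJ₀ M0 hM ha
    hV hu
  have hS : ∀ Q ∈ T ∪ T', 0 < Q.1 ∧ fdisc Q = -(A * B : ℕ) := fun Q hQ =>
    (mem_union.1 hQ).elim (fun k => ⟨hT.pos _ k, (hT.fam _ k).2.1⟩)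
      fun k => ⟨hT'.pos _ k, (hT'.fam _ k).2.1⟩
  have n0 : 0 < A * B := by have := h.mod4; omega
  have d0 : ∀ Q ∈ T ∪ T', fdisc Q < 0 := fun Q hQ => by rw [(hS Q hQ).2]; omega
  have v0 : ∀ x ∈ (T ∪ T') ×ˢ HI (l₀ * M), V (hpt x.2 (froot x.1)) ≠ 0 := fun x hx =>
    have ⟨k1, k2⟩ := mem_product.1 hx
    hV.dv.ne (hpt_im k2 (im_froot_pos (d0 _ k1) (hS _ k1).1)) (h.nu_hpt hl₀ hJ₀ ha (hS _ k1).1
      (hS _ k1).2 (hl₀.coprime_iff_not_dvd.1 hM.coprime_mul_left_right.symm) k2)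
  have deg : ∑ x ∈ (T ∪ T') ×ˢ HI (l₀ * M), wZ N B (-(A * B : ℕ)) ρ x.1 = 0 := by
    rw [sum_product, sum_comm]
    exact sum_eq_zero fun _ _ => h.ns_deg hT hT'
  rw [zs_hsum P.φ]
  refine htd_pair (h := fun x => hq P u V c (hpt x.2 (froot x.1))) hW (neron_lamA P.per)
    (fun x hx => ?_) c1 hu deg (fun x hx => ?_) (fun σ => by rw [← c3 σ, zs_hsum]) hl C0
    fun v I hv => le_trans (le_of_eq (congrArg abs ?_)) (hC v I hv)
  · obtain ⟨k1, k2⟩ := mem_product.1 hx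
    obtain ⟨f1, f2, f3, -⟩ := fpi_form (d0 _ k1) (hS _ k1).1 k2
    exact ag_stmt W N _ P _ n0 ⟨_, l₀ * M, mul_ne_zero hl₀.ne_zero M0, f1,
      by rw [f3, (hS _ k1).2, neg_mul], f2.symm⟩
  · obtain ⟨k1, k2⟩ := mem_product.1 hx
    exact mul_ne_zero (v0 x hx)
      (div_ne_zero (sig_ne (c2 _ k1 _ k2).1) (sig_ne (c2 _ k1 _ k2).2))
  · rw [zs_hsum, ← add_zero (∑ x ∈ _, _ • (_ + _)),
      ← zero_smul ℤ (bv v P.per c u + Qv v P.per u / 2), ← deg, sum_smul, ← sum_add_distrib]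
    refine sum_congr rfl fun x hx => ?_
    obtain ⟨k1, k2⟩ := mem_product.1 hx
    rw [gv_eq I (v0 x hx) (c2 _ k1 _ k2).1 (c2 _ k1 _ k2).2, smul_add _ _ (_ + _ / 2), hq]

theorem htb_of_ar (b : ℕ → ℕ) (ar : ARStmt b) : HTB b := by
  intro W _ N P hW p A B ρ ρ' β T T' l l₀ a u V h hb hT hT' hl hl₀ hne h2 hJ₀ ha hV hu
  refine ⟨fun hJ => ?_, fun hJ => ?_⟩
  · obtain ⟨r, h1, h3⟩ := ht_one (M := 1) ar hW h hb hT hT' hl hl₀ hJ₀ one_ne_zero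
      (Nat.coprime_one_left _) ha hV hu le_rfl fun v I hv => by
        rw [mul_one, lc_stmt W N P p A B ρ ρ' β T T' l l₀ a u V v h hT hT' hl hl₀ hne h2 hJ₀ ha hV
          I hv hJ, abs_zero, zero_mul]
    rw [mul_zero, abs_nonpos_iff] at h1
    rwa [h1, zero_mul, sub_zero, mul_one] at h3
  · obtain ⟨C, k, hC⟩ := ns_stmt W N P p A B ρ ρ' β T T' l l₀ a u V h hT hT' hl hl₀ hne h2 hJ₀ ha
      hV hJ
    obtain ⟨C', hC'⟩ := exists_rat_gt (2 * |C|)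
    refine ⟨C', k, fun j => ?_⟩
    obtain ⟨r, h1, h3⟩ := ht_one (C := |C| * (j + 1) ^ k) ar hW h hb hT hT' hl hl₀ hJ₀
      (pow_ne_zero j hl.ne_zero) (((hl.coprime_iff_not_dvd.2 (h.ns_not_dvd hl hJ)).mul_right
        ((Nat.coprime_primes hl hl₀).2 hne)).pow_left j) ha hV hu (by positivity) fun v I hv =>
      (hC v j I hv).trans (mul_le_mul_of_nonneg_right
        (mul_le_mul_of_nonneg_right (le_abs_self C) (by positivity))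
        (neg_nonneg.2 (Real.log_nonpos (v.nonneg _) hv.le)))
    refine ⟨r, ?_, h3⟩
    rw [← mul_assoc] at h1
    exact_mod_cast h1.trans (mul_le_mul_of_nonneg_right hC'.le (by positivity))

end Pool.Agent.G5
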