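import Pool.Agent.Lib.MP_696deb_nt.B5.ARa
import Pool.Agent.Lib.MP_696deb_nt.B5.ARb

/-! The height block. -/

set_option autoImplicit false

namespace Pool.Agent.G5

theorem ht_all : HTB fun _ => 3 := htb_of_ac ac_stmt

theorem htb_stmt : HTB fun _ => 3 := ht_all

theorem ht_stmt : HTStmt := ht_all.ht

end Pool.Agent.G5
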