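import Pool.Agent.Lib.MP_696deb_nt.B5.HWa

/-! The Hecke recursion for genus characters on forms. -/

set_option autoImplicit false

open Finset NumberTheorySymbols
open scoped Classical

namespace Pool.Agent.G5.Hw

open Pool.Agent.Lib.MP_696deb_nt

variable {N C l p : ℕ} {e t β η : ℤ} {Q R : Fm} {i : Option (Fin l)}

/-- The form composed with a representative of the Hecke correspondence. -/
def hm (l : ℕ) : Option (Fin l) → Fm → Fm
  | none, R => (R.1 * l ^ 2, R.2.1 * l, R.2.2)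
  | some k, R => (R.1, 2 * R.1 * (k : ℕ) + R.2.1 * l,
      R.1 * (k : ℕ) ^ 2 + R.2.1 * (k : ℕ) * l + R.2.2 * l ^ 2)

/-- The neighbours of a form. -/
def nb (l : ℕ) : Option (Fin l) → Fm → Fm
  | none, R => (R.1 / l, R.2.1, l * R.2.2)
  | some k, R => (l * R.1, R.2.1 - 2 * R.1 * (k : ℕ), vl l (some k) R / l)

theorem hm_eq (i : Option (Fin l)) : ∃ a b d : ℤ, a * d = l ∧ 0 ≤ a ∧ ∀ R, hm l i R = fmap R a b 0 d := by
  rcases i with _ | k
  · exact ⟨l, 0, 1, mul_one _, by positivity, fun R => by simp [hm, fmap, fval]⟩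
  · exact ⟨1, (k : ℕ), l, one_mul _, by positivity, fun R => by simp [hm, fmap, fval]⟩

theorem disc_hm (i : Option (Fin l)) (R : Fm) : fdisc (hm l i R) = fdisc R * l ^ 2 := by
  rcases i with _ | k <;> simp only [hm, fdisc] <;> ring

theorem hm_inj (hl : l ≠ 0) (i : Option (Fin l)) : Function.Injective (hm l i) := by
  have h0 : (l : ℤ) ≠ 0 := Nat.cast_ne_zero.2 hl
  rintro ⟨a, b, c⟩ ⟨a', b', c'⟩ h
  rcases i with _ | k <;> simp only [hm, Prod.mk.injEq] at h ⊢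
  · exact ⟨mul_right_cancel₀ (pow_ne_zero 2 h0) h.1, mul_right_cancel₀ h0 h.2.1, h.2.2⟩
  · obtain ⟨rfl, h1, h2⟩ := h
    obtain rfl : b = b' := mul_right_cancel₀ h0 (by linear_combination h1)
    exact ⟨rfl, rfl, mul_right_cancel₀ (pow_ne_zero 2 h0) (by linear_combination h2)⟩

theorem hm_sc (i : Option (Fin l)) (t : ℤ) (R : Fm) : hm l i (sc t R) = sc t (hm l i R) := by
  rcases i with _ | k <;> simp only [hm, sc, Prod.mk.injEq] <;> refine ⟨?_, ?_, ?_⟩ <;>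
    first | trivial | ring

theorem vl_sc (i : Option (Fin l)) (t : ℤ) (R : Fm) : vl l i (sc t R) = t * vl l i R := by
  rcases i with _ | k <;> simp only [vl, sc]
  ring

theorem vl_hm (i : Option (Fin l)) (R : Fm) : (l : ℤ) ^ 2 ∣ vl l i (hm l i R) := by
  rcases i with _ | k
  · exact dvd_mul_left _ _
  · exact ⟨R.2.2, by simp only [vl, hm]; ring⟩

theorem hm_nb (h : (l : ℤ) ∣ vl l i R) : hm l i (nb l i R) = sc l R := by
  have h1 := Int.mul_ediv_cancel' h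
  rcases i with _ | k <;> simp only [hm, nb, sc, Prod.mk.injEq]
  · exact ⟨by simp only [vl] at h1; linear_combination l * h1, by ring, trivial⟩
  · generalize vl l (some k) R / l = v at h1
    simp only [vl] at h1
    exact ⟨trivial, by ring, by linear_combination l * h1⟩

theorem disc_nb (hl : l ≠ 0) (h : (l : ℤ) ∣ vl l i R) : fdisc (nb l i R) = fdisc R :=
  mul_right_cancel₀ (pow_ne_zero 2 (Nat.cast_ne_zero.2 hl : (l : ℤ) ≠ 0))
    (by rw [← disc_hm i, hm_nb h, disc_sc])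

theorem exists_hm (hl : l.Prime) (h4 : l = 2 → ∃ β, 4 ∣ β ^ 2 - e) (hd : fdisc R = e * l ^ 2)
    (h : Pr l R) (hv : (l : ℤ) ∣ vl l i R) : ∃ Q, hm l i Q = R := by
  obtain ⟨a, b, c⟩ := R
  rcases i with _ | k
  · obtain ⟨⟨a', h1⟩, b', h2⟩ := key hl h4 hd h hv
    exact ⟨(a', b', c), Prod.ext ((mul_comm _ _).trans h1.symm)
      (Prod.ext ((mul_comm _ _).trans h2.symm) rfl)⟩
  · simp only [vl, fdisc] at hv hd
    obtain ⟨⟨c', h1⟩, b', h2⟩ := key (b := b - 2 * a * (k : ℕ)) (c := a) hl h4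
      (by linear_combination hd) (fun ⟨k1, k2, k3⟩ => h ⟨k3, by
        simpa using k2.add ((k3.mul_left 2).mul_right (k : ℕ)), by
        have := (k1.add (k2.mul_right (k : ℕ))).add (k3.mul_right ((k : ℕ) ^ 2))
        rwa [show a * ((k : ℕ) : ℤ) ^ 2 - b * (k : ℕ) + c + (b - 2 * a * (k : ℕ)) * (k : ℕ) +
          a * ((k : ℕ) : ℤ) ^ 2 = c by ring] at this⟩) hv
    refine ⟨(a, b', c'), ?_⟩
    simp only [hm, Prod.mk.injEq]
    exact ⟨trivial, by linear_combination -h2, by linear_combination -h1 - (k : ℕ) * h2⟩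

theorem gl_hm (hl : l.Prime) (hp : p.Prime) (h2 : p ≠ 2) (hd : (p : ℤ) ∣ fdisc R)
    (h : p = l → Pr l (hm l i R)) : gl p (hm l i R) = gl p R := by
  have hd' : (p : ℤ) ∣ fdisc (hm l i R) := disc_hm i R ▸ hd.mul_right _
  obtain ⟨a, b, d, h1, -, h3⟩ := hm_eq i
  by_cases k : ∀ x y, (p : ℤ) ∣ fval (hm l i R) x y
  · rw [(gl_zero hp h2 hd').2 k, (gl_zero hp h2 hd).2 fun x y => ?_]
    have hne : p ≠ l := fun e => h e ⟨by simpa [fval, e] using k 1 0, by
      have := ((k 1 1).sub (k 1 0)).sub (k 0 1)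
      simpa [fval, e, add_sub_right_comm] using this, by simpa [fval, e] using k 0 1⟩
    have h4 := k (d * x - b * y) (a * y)
    rw [h3, fval_fmap, show fval R (a * (d * x - b * y) + b * (a * y))
      (0 * (d * x - b * y) + d * (a * y)) = l ^ 2 * fval R x y by
        rw [← h1]; simp only [fval]; ring] at h4
    have hP := Nat.prime_iff_prime_int.mp hp
    exact (hP.dvd_or_dvd h4).resolve_left fun j =>
      not_dvd_of_prime_ne hp hl hne (hP.dvd_of_dvd_pow j)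
  · push Not at k
    obtain ⟨x, y, k⟩ := k
    rw [gl_fval hp h2 hd' k]
    rw [h3, fval_fmap] at k ⊢
    rw [gl_fval hp h2 hd k]

theorem cop (hl : l.Prime) (hN : ¬ l ∣ N) : IsCoprime (N : ℤ) l :=
  Nat.isCoprime_iff_coprime.2 (hl.coprime_iff_not_dvd.2 hN).symm

theorem fam_aux (hl : l.Prime) (hN : ¬ l ∣ N) (h4 : 4 ∣ β ^ 2 - e) (hd : fdisc R = e) :
    2 * (N : ℤ) ∣ (R.2.1 - β) * l ↔ 2 * (N : ℤ) ∣ R.2.1 - β := by
  obtain ⟨s, hs⟩ : 2 ∣ R.2.1 - β := by
    obtain ⟨k, hk⟩ := h4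
    have : (2 : ℤ) ∣ (R.2.1 - β) ^ 2 := ⟨2 * (R.1 * R.2.2 - k) + β ^ 2 - R.2.1 * β, by
      simp only [fdisc] at hd; linear_combination hd - hk⟩
    exact Int.prime_two.dvd_of_dvd_pow this
  rw [hs, mul_assoc, mul_dvd_mul_iff_left two_ne_zero, mul_dvd_mul_iff_left two_ne_zero]
  exact ⟨(cop hl hN).dvd_of_dvd_mul_right, fun k => k.mul_right _⟩

theorem fam_hm (hl : l.Prime) (hN : ¬ l ∣ N) (h4 : 4 ∣ β ^ 2 - e) :
    Fam N (e * l ^ 2) (β * l) (hm l i R) ↔ Fam N e β R := by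
  have h0 : (l : ℤ) ≠ 0 := Nat.cast_ne_zero.2 hl.ne_zero
  rw [Fam, Fam, disc_hm, mul_left_inj' (pow_ne_zero 2 h0)]
  rcases i with _ | k <;> simp only [hm]
  · refine and_congr ⟨(cop hl hN).pow_right.dvd_of_dvd_mul_right, fun k => k.mul_right _⟩
      (and_congr_right fun h => ?_)
    rw [← sub_mul, fam_aux hl hN h4 h]
  · refine and_congr_right fun ⟨s, hs⟩ => and_congr_right fun h => ?_
    rw [← fam_aux hl hN h4 h, show 2 * R.1 * (k : ℕ) + R.2.1 * l - β * l =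
      2 * N * (s * (k : ℕ)) + (R.2.1 - β) * l by rw [hs]; ring, dvd_add_right (dvd_mul_right _ _)]

theorem fam_sc (hl : l.Prime) (hN : ¬ l ∣ N) (h4 : 4 ∣ β ^ 2 - e) :
    Fam N (e * l ^ 2) (β * l) (sc l R) ↔ Fam N e β R := by
  have h0 : (l : ℤ) ≠ 0 := Nat.cast_ne_zero.2 hl.ne_zero
  rw [Fam, Fam, disc_sc, mul_left_inj' (pow_ne_zero 2 h0)]
  refine and_congr ⟨(cop hl hN).dvd_of_dvd_mul_left, fun k => k.mul_left _⟩
    (and_congr_right fun h => ?_)
  rw [← fam_aux hl hN h4 h, sub_mul, mul_comm R.2.1]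
  rfl

theorem gch_sc (hC : Squarefree C) (t : ℤ) (R : Fm) : gch C (sc t R) = J(t | C) * gch C R := by
  rw [jac_eq_prod t hC, gch_eq, gch_eq, ← prod_mul_distrib]
  exact prod_congr rfl fun p hp => gl_sc (Nat.prime_of_mem_primeFactors hp) t R

theorem wG_sc (hl : l.Prime) (hN : ¬ l ∣ N) (h4 : 4 ∣ β ^ 2 - e) (hC : Squarefree C) :
    wG N C (e * l ^ 2) (β * l) (sc l R) = J((l : ℤ) | C) * wG N C e β R := by
  rw [wG, wG, fam_sc hl hN h4, gch_sc hC, mul_ite, mul_zero]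

/-- The push forward of a weight. -/
noncomputable def ex (f : Fm → Fm) (w : Fm → ℤ) : Fm → ℤ := Function.extend f w 0

theorem ex_of {f : Fm → Fm} (hf : Function.Injective f) (w : Fm → ℤ) (R : Fm) :
    ex f w (f R) = w R := hf.extend_apply _ _ _

theorem ex_not {f : Fm → Fm} (w : Fm → ℤ) (h : ¬ ∃ Q, f Q = R) : ex f w R = 0 :=
  Function.extend_apply' _ _ _ h

theorem sum_prim (hl : l.Prime) (hN : ¬ l ∣ N) (h4 : 4 ∣ β ^ 2 - e) (ho : Odd C)
    (hd : (C : ℤ) ∣ e) (h : Pr l R) :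
    ∑ i, ex (hm l i) (wG N C e β) R = wG N C (e * l ^ 2) (β * l) R := by
  by_cases hF : Fam N (e * l ^ 2) (β * l) R
  · have h1 := cnt hl h
    rw [kr_zero hl (hF.2.1 ▸ (dvd_pow_self _ two_ne_zero).mul_left _), add_zero] at h1
    rw [wG_of_fam hF, ← one_mul (gch C R), ← h1, sum_mul]
    refine sum_congr rfl fun i _ => ?_
    split_ifs with k
    · obtain ⟨Q, rfl⟩ := exists_hm hl (fun _ => ⟨β, h4⟩) hF.2.1 h k
      have hQ := (fam_hm hl hN h4).1 hF
      rw [ex_of (hm_inj hl.ne_zero i), wG_of_fam hQ, one_mul]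
      exact prod_congr rfl fun p hp => (gl_hm hl (Nat.prime_of_mem_primeFactors hp)
        (prime_ne_two ho hp) (hQ.2.1 ▸ dvd_of_mem hd hp) fun _ => h).symm
    · rw [zero_mul, ex_not]
      rintro ⟨Q, rfl⟩
      exact k ((dvd_pow_self _ two_ne_zero).trans (vl_hm i Q))
  · rw [wG, if_neg hF]
    refine sum_eq_zero fun i _ => ?_
    by_cases k : ∃ Q, hm l i Q = R
    · obtain ⟨Q, rfl⟩ := k
      rw [ex_of (hm_inj hl.ne_zero i), wG, if_neg (mt (fam_hm hl hN h4).2 hF)]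
    · exact ex_not _ k

/-- The sum of the genus character over the neighbours. -/
def NS (l C : ℕ) (R : Fm) : ℤ := ∑ i, if (l : ℤ) ∣ vl l i R then gch C (nb l i R) else 0

theorem sum_sc (hl : l.Prime) (hN : ¬ l ∣ N) (h4 : 4 ∣ β ^ 2 - e) :
    ∑ i, ex (hm l i) (wG N C e β) (sc l R) = if Fam N e β R then NS l C R else 0 := by
  have h0 : (l : ℤ) ≠ 0 := Nat.cast_ne_zero.2 hl.ne_zero
  rw [NS, ← sum_const_zero (s := (univ : Finset (Option (Fin l)))), ← sum_ite_irrel]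
  simp only [sum_const_zero]
  refine sum_congr rfl fun i _ => ?_
  by_cases k : (l : ℤ) ∣ vl l i R
  · rw [if_pos k, ← hm_nb k, ex_of (hm_inj hl.ne_zero i), wG, ← fam_hm (i := i) hl hN h4, hm_nb k,
      fam_sc hl hN h4]
  · rw [if_neg k, ite_self, ex_not]
    rintro ⟨Q, e⟩
    have := vl_hm i Q
    rw [e, vl_sc, sq, mul_dvd_mul_iff_left h0] at this
    exact k this

theorem gl_nb (hl : l.Prime) (hp : p.Prime) (h2 : p ≠ 2) (hne : p ≠ l) (hd : (p : ℤ) ∣ fdisc R)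
    (h : (l : ℤ) ∣ vl l i R) : gl p (nb l i R) = J((l : ℤ) | p) * gl p R := by
  rw [← gl_sc hp, ← hm_nb h, gl_hm hl hp h2 (disc_nb hl.ne_zero h ▸ hd) fun e => absurd e hne]

theorem ns_cop (hl : l.Prime) (hC : Squarefree C) (ho : Odd C) (hd : (C : ℤ) ∣ fdisc R)
    (h : ¬ l ∣ C) : NS l C R =
      (∑ i, if (l : ℤ) ∣ vl l i R then (1 : ℤ) else 0) * (J((l : ℤ) | C) * gch C R) := by
  rw [NS, sum_mul]
  refine sum_congr rfl fun i _ => ?_
  split_ifs with k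
  · rw [one_mul, jac_eq_prod _ hC, gch_eq, gch_eq, ← prod_mul_distrib]
    exact prod_congr rfl fun p hp => gl_nb hl (Nat.prime_of_mem_primeFactors hp)
      (prime_ne_two ho hp) (fun e => h (e ▸ Nat.dvd_of_mem_primeFactors hp)) (dvd_of_mem hd hp) k
  · rw [zero_mul]

theorem split (hl : l.Prime) (hC : Squarefree (l * C)) :
    Squarefree C ∧ l.Coprime C ∧ ¬ l ∣ C :=
  ⟨hC.of_mul_right, Nat.coprime_of_squarefree_mul hC,
    hl.coprime_iff_not_dvd.1 (Nat.coprime_of_squarefree_mul hC)⟩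

theorem ns_dvd (hl : l.Prime) (hC : Squarefree (l * C)) (ho : Odd C) (hd : (C : ℤ) ∣ fdisc R) :
    NS l (l * C) R =
      (∑ i, if (l : ℤ) ∣ vl l i R then gl l (nb l i R) else 0) * (J((l : ℤ) | C) * gch C R) := by
  obtain ⟨h1, h2, h3⟩ := split hl hC
  rw [NS, sum_mul]
  refine sum_congr rfl fun i _ => ?_
  split_ifs with k
  · rw [G5.gch_mul h2, G5.gch_prime hl, jac_eq_prod _ h1, gch_eq, gch_eq, ← prod_mul_distrib]
    congr 1
    exact prod_congr rfl fun p hp => gl_nb hl (Nat.prime_of_mem_primeFactors hp)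
      (prime_ne_two ho hp) (fun e => h3 (e ▸ Nat.dvd_of_mem_primeFactors hp)) (dvd_of_mem hd hp) k
  · rw [zero_mul]

theorem jac_self (hl : l.Prime) (hC : Squarefree C) (h : l ∣ C) : J((l : ℤ) | C) = 0 := by
  rw [jac_eq_prod _ hC]
  exact prod_eq_zero (Nat.mem_primeFactors.2 ⟨hl, h, hC.ne_zero⟩) (jac_zero_of_dvd hl dvd_rfl)

theorem gl_nb_sc (hl : l.Prime) (i : Option (Fin l)) (R : Fm) :
    gl l (nb l i (sc l R)) = J(vl l i R | l) := by
  have h0 : (l : ℤ) ≠ 0 := Nat.cast_ne_zero.2 hl.ne_zero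
  rcases i with _ | k
  · simp only [gl, nb, sc, vl, Int.mul_ediv_cancel_left _ h0]
    split_ifs with h
    · rw [jac_zero_of_dvd hl h, jac_zero_of_dvd hl (dvd_mul_right _ _)]
    · rfl
  · simp only [gl, nb, vl_sc, Int.mul_ediv_cancel_left _ h0, dvd_mul_right, if_true]

theorem ns_prim (hl : l.Prime) (hC : Squarefree C) (ho : Odd C) (hd : (C : ℤ) ∣ fdisc R)
    (h : ¬ l ∣ C) (hR : Pr l R) :
    NS l C R = (1 + kr (fdisc R) l) * (J((l : ℤ) | C) * gch C R) := by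
  rw [ns_cop hl hC ho hd h, cnt hl hR]

theorem ns_sq (hl : l.Prime) (hC : Squarefree C) (ho : Odd C) (hd : (C : ℤ) ∣ fdisc R)
    (h2 : (l : ℤ) ^ 2 ∣ fdisc R) (hR : Pr l R) : NS l C R = J((l : ℤ) | C) * gch C R := by
  by_cases h : l ∣ C
  · rw [jac_self hl hC h, zero_mul]
    obtain ⟨C, rfl⟩ := h
    obtain ⟨e, he⟩ := h2
    rw [ns_dvd hl hC (Nat.Odd.of_mul_right ho) ((by simp : (C : ℤ) ∣ (l * C : ℕ)).trans hd),
      sum_eq_zero fun i _ => ?_, zero_mul]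
    split_ifs with k
    · obtain ⟨Q, rfl⟩ := exists_hm (e := e) hl (fun j => absurd (Nat.Odd.of_mul_left ho)
        (by rw [j]; decide)) (by rw [he, mul_comm]) hR k
      rw [hm_inj hl.ne_zero i ((hm_nb k).trans (hm_sc i l Q).symm), gl_sc hl,
        jac_zero_of_dvd hl dvd_rfl, zero_mul]
    · rfl
  · rw [ns_prim hl hC ho hd h hR, kr_zero hl ((dvd_pow_self _ two_ne_zero).trans h2), add_zero,
      one_mul]

theorem ns_sc (hl : l.Prime) (hC : Squarefree C) (ho : Odd C) (hd : (C : ℤ) ∣ fdisc R) :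
    NS l C (sc l R) = J((l : ℤ) | C) * gch C (sc l R) + l * gch C R := by
  have hv : ∀ i, (l : ℤ) ∣ vl l i (sc l R) := fun i => vl_sc i l R ▸ dvd_mul_right _ _
  have hd' : (C : ℤ) ∣ fdisc (sc l R) := disc_sc l R ▸ hd.mul_right _
  by_cases h : l ∣ C
  · rw [jac_self hl hC h, zero_mul, zero_add]
    obtain ⟨C, rfl⟩ := h
    obtain ⟨h1, h2, h3⟩ := split hl hC
    have h4 : J((l : ℤ) | C) ^ 2 = 1 := jacobiSym.sq_one (by simpa using h2)
    rw [ns_dvd hl hC (Nat.Odd.of_mul_right ho) ((by simp : (C : ℤ) ∣ (l * C : ℕ)).trans hd'),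
      sum_congr rfl fun i _ => (if_pos (hv i)).trans (gl_nb_sc hl i R),
      sum_jac' hl (fun j => absurd (Nat.Odd.of_mul_left ho) (by rw [j]; decide))
        ((by simp : (l : ℤ) ∣ (l * C : ℕ)).trans hd), gch_sc h1, G5.gch_mul h2, G5.gch_prime hl]
    linear_combination l * gl l R * gch C R * h4
  · have h4 : J((l : ℤ) | C) ^ 2 = 1 :=
      jacobiSym.sq_one (by simpa using hl.coprime_iff_not_dvd.2 h)
    rw [ns_cop hl hC ho hd' h, sum_congr rfl fun i _ => if_pos (hv i), gch_sc hC]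
    simp only [sum_const, card_univ, Fintype.card_option, Fintype.card_fin, nsmul_eq_mul]
    push_cast
    linear_combination l * gch C R * h4

theorem ns_zero (hl : l.Prime) (hC : Squarefree (l * C)) (ho : Odd (l * C))
    (hd : (C : ℤ) ∣ fdisc R) (h : ¬ (l : ℤ) ∣ fdisc R) : NS l (l * C) (sc l R) = 0 := by
  have hv : ∀ i, (l : ℤ) ∣ vl l i (sc l R) := fun i => vl_sc i l R ▸ dvd_mul_right _ _
  rw [ns_dvd hl hC (Nat.Odd.of_mul_right ho) (disc_sc l R ▸ hd.mul_right _),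
    sum_congr rfl fun i _ => (if_pos (hv i)).trans (gl_nb_sc hl i R),
    sum_jac hl (fun j => absurd (Nat.Odd.of_mul_left ho) (by rw [j]; decide)) h, zero_mul]

theorem pr_of (h : ¬ (l : ℤ) ^ 2 ∣ fdisc R) : Pr l R := by
  by_contra k
  obtain ⟨Q, rfl⟩ := exists_sc k
  exact h (disc_sc l Q ▸ dvd_mul_left _ _)

theorem ns_ram (hl : l.Prime) (hC : Squarefree (l * C)) (ho : Odd (l * C))
    (hd : (C : ℤ) ∣ fdisc R) (h : fdisc R = l * e) (he : ¬ (l : ℤ) ∣ e) :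
    NS l (l * C) R = J(-e | l) * J((l : ℤ) | C) * gch (l * C) R := by
  have h0 : (l : ℤ) ≠ 0 := Nat.cast_ne_zero.2 hl.ne_zero
  have h2 : l ≠ 2 := fun j => absurd (Nat.Odd.of_mul_left ho) (by rw [j]; decide)
  have h1 := cnt hl (pr_of (R := R) (by rwa [h, sq, mul_dvd_mul_iff_left h0]))
  rw [kr_zero hl ⟨e, h⟩, add_zero] at h1
  rw [ns_dvd hl hC (Nat.Odd.of_mul_right ho) hd, G5.gch_mul (split hl hC).2.1, G5.gch_prime hl,
    sum_congr rfl (g := fun i => (if (l : ℤ) ∣ vl l i R then 1 else 0) * (J(-e | l) * gl l R))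
      fun i _ => ?_, ← sum_mul, h1]
  · ring
  split_ifs with k
  · have h3 := (disc_nb hl.ne_zero k).trans h
    obtain ⟨v, hv⟩ := k
    obtain ⟨a, b, c⟩ := R
    rcases i with _ | k
    · obtain rfl : a = l * v := hv
      obtain ⟨k1, -, k3, -⟩ := ram hl h2 h he
      simp only [gl, nb, Int.mul_ediv_cancel_left _ h0, if_neg k1, dvd_mul_right, if_true, one_mul,
        k3]
    · simp only [nb, hv, Int.mul_ediv_cancel_left _ h0] at h3
      obtain ⟨k1, -, -, k3⟩ := ram hl h2 h3 he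
      simp only [gl, nb, hv, Int.mul_ediv_cancel_left _ h0, if_neg k1, dvd_mul_right, if_true,
        one_mul, k3]
  · rw [zero_mul]

theorem four (h4 : 4 ∣ β ^ 2 - e) (m : ℤ) : 4 ∣ (β * m) ^ 2 - e * m ^ 2 := by
  rw [mul_pow, ← sub_mul]; exact h4.mul_right _

/-- The recursion on weights. -/
theorem w_rec (hl : l.Prime) (hN : ¬ l ∣ N) (h4 : 4 ∣ β ^ 2 - e) (hC : Squarefree C) (ho : Odd C)
    (hd : (C : ℤ) ∣ e) {m : ℕ} (hη : ¬ l ∣ m → ∀ R, fdisc R = e * m ^ 2 →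
      NS l C R = (J((l : ℤ) | C) + η) * gch C R) (R : Fm) :
    ∑ i, ex (hm l i) (wG N C (e * m ^ 2) (β * m)) R =
      wG N C (e * (l * m : ℕ) ^ 2) (β * (l * m : ℕ)) R + if l ∣ m then
        l * ex (sc (l * l)) (wG N C (e * (m / l : ℕ) ^ 2) (β * (m / l : ℕ))) R
      else η * ex (sc l) (wG N C (e * m ^ 2) (β * m)) R := by
  have h0 : (l : ℤ) ≠ 0 := Nat.cast_ne_zero.2 hl.ne_zero
  rw [show e * ((l * m : ℕ) : ℤ) ^ 2 = e * m ^ 2 * l ^ 2 by push_cast; ring,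
    show β * ((l * m : ℕ) : ℤ) = β * m * l by push_cast; ring]
  by_cases hR : Pr l R
  · rw [sum_prim hl hN (four h4 m) ho (hd.mul_right _) hR, ex_not, ex_not]
    · simp
    · rintro ⟨Q, rfl⟩
      exact not_pr 1 Q (by rwa [mul_one])
    · rintro ⟨Q, rfl⟩
      exact not_pr l Q hR
  obtain ⟨R, rfl⟩ := exists_sc hR
  rw [sum_sc hl hN (four h4 m), wG_sc hl hN (four h4 m) hC]
  by_cases hm : l ∣ m
  · obtain ⟨m, rfl⟩ := hm
    rw [if_pos (dvd_mul_right _ _), Nat.mul_div_cancel_left _ hl.pos,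
      show e * ((l * m : ℕ) : ℤ) ^ 2 = e * m ^ 2 * l ^ 2 by push_cast; ring,
      show β * ((l * m : ℕ) : ℤ) = β * m * l by push_cast; ring]
    by_cases k : Pr l R
    · rw [ex_not, mul_zero, add_zero, wG]
      · split_ifs with j
        · exact ns_sq hl hC ho (j.2.1 ▸ (hd.mul_right _).mul_right _)
            (j.2.1 ▸ dvd_mul_left _ _) k
        · rw [mul_zero]
      · rintro ⟨Q, j⟩
        rw [← sc_sc] at j
        exact not_pr 1 Q (by rwa [mul_one, sc_inj h0 j])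
    · obtain ⟨Q, rfl⟩ := exists_sc k
      rw [sc_sc, ex_of (sc_inj (mul_ne_zero h0 h0)), wG, wG, fam_sc hl hN (four h4 m)]
      split_ifs with j
      · exact ns_sc hl hC ho (j.2.1 ▸ hd.mul_right _)
      · simp
  · rw [if_neg hm, ex_of (sc_inj h0), wG]
    split_ifs with j
    · rw [hη hm R j.2.1, add_mul]
    · simp

end Pool.Agent.G5.Hw
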