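import Pool.Agent.Lib.MP_696deb_nt.B5.HWb

/-! The Hecke recursion for divisors and for families of geodesics. -/

set_option autoImplicit false

open Finset NumberTheorySymbols Function
open scoped Classical

namespace Pool.Agent.G5.Hw

open Pool.Agent.Lib.MP_696deb_nt

variable {N A B C l p m : ℕ} {e t β η ρ ρ' : ℤ} {Q R : Fm} {z : ℂ} {V : Type} [AddCommGroup V]

theorem ex_sum {f : Fm → Fm} (hf : Injective f) (w : Fm → ℤ) (Ψ : Fm → V) :
    ∑ᶠ R, ex f w R • Ψ R = ∑ᶠ R, w R • Ψ (f R) := by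
  have h := finsum_mem_range (f := fun R => ex f w R • Ψ R) hf
  simp only [ex_of hf] at h
  rw [← h, finsum_mem_def]
  refine finsum_congr fun R => ?_
  by_cases k : R ∈ Set.range f
  · rw [Set.indicator_of_mem k]
  · rw [Set.indicator_of_notMem k, ex_not w k, zero_smul]

theorem ex_fin {f : Fm → Fm} (hf : Injective f) {w : Fm → ℤ} {Ψ : Fm → V}
    (h : (support fun R => w R • Ψ (f R)).Finite) : (support fun R => ex f w R • Ψ R).Finite := by
  refine (h.image f).subset fun R hR => ?_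
  by_cases k : ∃ Q, f Q = R
  · obtain ⟨Q, rfl⟩ := k
    exact ⟨Q, by simpa only [mem_support, ex_of hf] using hR, rfl⟩
  · exact absurd (show ex f w R • Ψ R = 0 by rw [ex_not w k, zero_smul]) hR

theorem fin_mul (c : ℤ) {w : Fm → ℤ} {Ψ : Fm → V} (h : (support fun R => w R • Ψ R).Finite) :
    (support fun R => (c * w R) • Ψ R).Finite :=
  h.subset fun R hR (k : w R • Ψ R = 0) => hR (show (c * w R) • Ψ R = 0 by
    rw [mul_smul, k, smul_zero])

theorem sum_mul' (c : ℤ) {w : Fm → ℤ} {Ψ : Fm → V} (h : (support fun R => w R • Ψ R).Finite) :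
    ∑ᶠ R, (c * w R) • Ψ R = c • ∑ᶠ R, w R • Ψ R := by
  rw [smul_finsum' c h]
  exact finsum_congr fun R => mul_smul _ _ _

/-- Functions of a form and a point that are compatible with the Hecke correspondences. -/
structure Kn (Ψ : Fm → ℂ → V) : Prop where
  sc : ∀ (t : ℤ) (R : Fm) (z : ℂ), 0 < t → Ψ (sc t R) z = Ψ R z
  hm : ∀ (l : ℕ) (i : Option (Fin l)) (R : Fm) (z : ℂ), l ≠ 0 → Ψ (hm l i R) z = Ψ R (act (rP l i) z)

/-- The sum over a family. -/
noncomputable def Ph (N C : ℕ) (e β : ℤ) (Ψ : Fm → ℂ → V) (m : ℕ) (z : ℂ) : V :=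
  ∑ᶠ R, wG N C (e * m ^ 2) (β * m) R • Ψ R z

theorem act_none (z : ℂ) : act (rP l none) z = l * z := by simp [rP, ut, act, mob]

theorem act_some (k : Fin l) (z : ℂ) : act (rP l (some k)) z = (z + (k : ℕ)) / l := by
  simp [rP, ut, act, mob]

theorem im_pos (hl : l ≠ 0) (i : Option (Fin l)) (hz : 0 < z.im) : 0 < (act (rP l i) z).im := by
  have : (0 : ℝ) < l := by positivity
  rcases i with _ | k
  · rw [act_none]; simp; positivity
  · rw [act_some, Complex.div_natCast_im]; simp; positivity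

/-- The recursion at one prime. -/
theorem ph_rec {Ψ : Fm → ℂ → V} (hΨ : Kn Ψ) (hl : l.Prime) (hN : ¬ l ∣ N) (h4 : 4 ∣ β ^ 2 - e)
    (hC : Squarefree C) (ho : Odd C) (hd : (C : ℤ) ∣ e)
    (hf : ∀ m : ℕ, m ≠ 0 → m.Coprime N → ∀ z : ℂ, 0 < z.im →
      (support fun R => wG N C (e * m ^ 2) (β * m) R • Ψ R z).Finite)
    (hη : ¬ l ∣ m → ∀ R, fdisc R = e * m ^ 2 → NS l C R = (J((l : ℤ) | C) + η) * gch C R)
    (h0 : m ≠ 0) (hm : m.Coprime N) (hz : 0 < z.im) :
    Tf V l (Ph N C e β Ψ m) z = Ph N C e β Ψ (l * m) z +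
      if l ∣ m then (l : ℤ) • Ph N C e β Ψ (m / l) z else η • Ph N C e β Ψ m z := by
  have l0 : (0 : ℤ) < l := by exact_mod_cast hl.pos
  have f1 := hf (l * m) (mul_ne_zero hl.ne_zero h0)
    (Nat.Coprime.mul_left (hl.coprime_iff_not_dvd.2 hN) hm) z hz
  have h1 : Tf V l (Ph N C e β Ψ m) z =
      ∑ᶠ R, (∑ i, ex (Hw.hm l i) (wG N C (e * m ^ 2) (β * m)) R) • Ψ R z := by
    simp only [sum_smul]
    rw [finsum_sum_comm _ _ fun i _ => ex_fin (Ψ := fun R => Ψ R z) (hm_inj hl.ne_zero i) (by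
      simpa only [hΨ.hm _ _ _ _ hl.ne_zero] using hf m h0 hm _ (im_pos hl.ne_zero i hz))]
    change ∑ i, Ph N C e β Ψ m (act (rP l i) z) = _
    refine sum_congr rfl fun i _ => ?_
    rw [ex_sum (hm_inj hl.ne_zero i) _ fun R => Ψ R z]
    simp only [hΨ.hm _ _ _ _ hl.ne_zero, Ph]
  rw [h1]
  simp only [w_rec hl hN h4 hC ho hd hη, add_smul]
  split_ifs with k
  · have f2 := ex_fin (Ψ := fun R => Ψ R z) (sc_inj (mul_pos l0 l0).ne') (by
      simpa only [hΨ.sc _ _ _ (mul_pos l0 l0)] using hf (m / l)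
        (Nat.div_pos (Nat.le_of_dvd (Nat.pos_of_ne_zero h0) k) hl.pos).ne'
        (hm.coprime_dvd_left (Nat.div_dvd_of_dvd k)) z hz)
    rw [finsum_add_distrib f1 (fin_mul _ f2), sum_mul' _ f2, ex_sum (sc_inj (mul_pos l0 l0).ne')]
    simp only [hΨ.sc _ _ _ (mul_pos l0 l0), Ph]
  · have f2 := ex_fin (Ψ := fun R => Ψ R z) (sc_inj l0.ne') (by
      simpa only [hΨ.sc _ _ _ l0] using hf m h0 hm z hz)
    rw [finsum_add_distrib f1 (fin_mul _ f2), sum_mul' _ f2, ex_sum (sc_inj l0.ne')]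
    simp only [hΨ.sc _ _ _ l0, Ph]

/-- The kernel of the crossing number. -/
noncomputable def kI (R : Fm) (z : ℂ) : ℝ := (Real.sign R.1 - Real.sign (fside R z)) / 2

/-- The kernel of the divisor. -/
noncomputable def kN (R : Fm) (z : ℂ) : ℤ := if 0 < R.1 ∧ froot R = z then 1 else 0

theorem sign_mul {x : ℝ} (hx : 0 < x) (y : ℝ) : Real.sign (x * y) = Real.sign y := by
  rcases lt_trichotomy y 0 with h | rfl | h
  · rw [Real.sign_of_neg h, Real.sign_of_neg (mul_neg_of_pos_of_neg hx h)]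
  · rw [mul_zero]
  · rw [Real.sign_of_pos h, Real.sign_of_pos (mul_pos hx h)]

theorem kn_kI : Kn kI where
  sc t R z ht := by
    have h : (0 : ℝ) < t := by exact_mod_cast ht
    rw [kI, kI, show fside (sc t R) z = t * fside R z by simp only [fside, sc]; push_cast; ring,
      show (((sc t R).1 : ℤ) : ℝ) = t * R.1 by simp [sc], sign_mul h, sign_mul h]
  hm l i R z hl := by
    have h : (0 : ℝ) < l := by positivity
    rcases i with _ | k
    · rw [kI, kI, act_none, show fside (hm l none R) z = fside R (l * z) by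
        simp [fside, hm]; ring, show (((hm l none R).1 : ℤ) : ℝ) = l ^ 2 * R.1 by
        simp [hm, mul_comm], sign_mul (pow_pos h 2)]
    · rw [kI, kI, act_some, show fside (hm l (some k) R) z = l ^ 2 * fside R ((z + (k : ℕ)) / l) by
        simp only [fside, hm, map_div₀, Complex.div_natCast_re,
          Complex.normSq_apply, Complex.add_re, Complex.add_im, Complex.natCast_re,
          Complex.natCast_im]
        push_cast
        field_simp
        ring, sign_mul (pow_pos h 2)]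
      rfl

theorem sqrt_mul {t : ℤ} (ht : 0 ≤ t) (e : ℤ) :
    √(-((e * t ^ 2 : ℤ) : ℝ)) = t * √(-(e : ℝ)) := by
  have h : (0 : ℝ) ≤ t := by exact_mod_cast ht
  rw [show -((e * t ^ 2 : ℤ) : ℝ) = t ^ 2 * -e by push_cast; ring, Real.sqrt_mul (sq_nonneg _),
    Real.sqrt_sq h]

theorem froot_sc (ht : 0 < t) (R : Fm) : froot (sc t R) = froot R := by
  have h : (t : ℂ) ≠ 0 := by exact_mod_cast ht.ne'
  rw [froot, froot, disc_sc, sqrt_mul ht.le, ← mul_div_mul_left (-(R.2.1 : ℂ) + _) _ h]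
  simp only [sc]
  push_cast
  ring

theorem froot_hm (hl : l ≠ 0) (i : Option (Fin l)) (h : R.1 ≠ 0) :
    act (rP l i) (froot (hm l i R)) = froot R := by
  have h1 : (l : ℂ) ≠ 0 := by exact_mod_cast hl
  have h2 : (R.1 : ℂ) ≠ 0 := by exact_mod_cast h
  rw [froot, froot, disc_hm, sqrt_mul (by positivity)]
  rcases i with _ | k
  · rw [act_none]; simp only [hm]; push_cast; field_simp
  · rw [act_some]; simp only [hm]; push_cast; field_simp; ring

theorem act_inj (hl : l ≠ 0) (i : Option (Fin l)) : Injective (act (rP l i)) := fun x y h => by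
  have h1 : (l : ℂ) ≠ 0 := by exact_mod_cast hl
  rcases i with _ | k
  · rwa [act_none, act_none, mul_right_inj' h1] at h
  · rwa [act_some, act_some, div_left_inj' h1, add_left_inj] at h

theorem pos_hm (hl : l ≠ 0) (i : Option (Fin l)) : 0 < (hm l i R).1 ↔ 0 < R.1 := by
  rcases i with _ | k
  · exact mul_pos_iff_of_pos_right (by positivity)
  · rfl

theorem kn_kN : Kn kN where
  sc t R z ht := by
    rw [kN, kN, froot_sc ht]
    exact if_congr (and_congr_left' (mul_pos_iff_of_pos_left ht)) rfl rfl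
  hm l i R z hl := by
    rw [kN, kN]
    refine if_congr ((and_congr_left' (pos_hm hl i)).trans (and_congr_right fun h => ?_)) rfl rfl
    rw [← froot_hm hl i h.ne', (act_inj hl i).eq_iff]

theorem Iw_eq (w : Fm → ℤ) (z : ℂ) : Iw w z = ∑ᶠ R, w R • kI R z := by
  rw [Iw, div_eq_mul_inv, finsum_mul]
  exact finsum_congr fun R => by rw [kI, zsmul_eq_mul]; ring

theorem fin_kI {w : Fm → ℤ} (hw : Wt N w e) (hne : ∀ R, w R ≠ 0 → R.1 ≠ 0) (hz : 0 < z.im) :
    (support fun R => w R • kI R z).Finite :=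
  (G5.Iw_finite hw hne hz).subset fun R hR (k : (w R : ℝ) * _ = 0) => hR (show w R • kI R z = 0 by
    rw [kI, zsmul_eq_mul, ← mul_div_assoc, k, zero_div])

theorem fin_kN (he : e < 0) (z : ℂ) : (support fun R => wG N C e β R • kN R z).Finite := by
  refine Set.Subsingleton.finite fun Q hQ R hR => ?_
  have h : ∀ R ∈ support fun R => wG N C e β R • kN R z, fdisc R = e ∧ 0 < R.1 ∧ froot R = z :=
    fun R k => ⟨(fam_of_wG (left_ne_zero_of_mul k)).2.1,
      by_contra fun j => right_ne_zero_of_mul k (if_neg j)⟩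
  obtain ⟨a1, a2, a3⟩ := h Q hQ
  obtain ⟨b1, b2, b3⟩ := h R hR
  exact froot_inj (b1 ▸ he) b2 a2 (a1.trans b1.symm) (a3.trans b3.symm)

theorem nuW_eq (he : e < 0) (z : ℂ) : nuW (wZ N B e ρ) z =
    ∑ᶠ R, wG N B e ρ R • kN R z + J(-1 | B) • ∑ᶠ R, wG N B e (-ρ) R • kN R z := by
  rw [← sum_mul' _ (fin_kN he z), ← finsum_add_distrib (fin_kN he z) (fin_mul _ (fin_kN he z)),
    nuW]
  refine finsum_congr fun R => ?_
  rw [wZ, kN]
  by_cases h1 : 0 < R.1 <;> by_cases h2 : froot R = z <;> simp [h1, h2]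

/-- The recursion for geodesics at a prime that does not divide the discriminant. -/
theorem eta_cop (hl : l.Prime) (hC : Squarefree C) (ho : Odd C) (hd : (C : ℤ) ∣ e) (h : ¬ l ∣ C)
    (h2 : ¬ (l : ℤ) ^ 2 ∣ e) (hm : ¬ l ∣ m) (R : Fm) (hR : fdisc R = e * m ^ 2) :
    NS l C R = (J((l : ℤ) | C) + kr e l * J((l : ℤ) | C)) * gch C R := by
  have h3 : ¬ (l : ℤ) ∣ m := by rwa [Int.natCast_dvd_natCast]
  rw [ns_prim hl hC ho (hR ▸ hd.mul_right _) h (pr_of fun k => h2 ?_), hR, kr_sq hl h3]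
  · ring
  · exact (((Nat.prime_iff_prime_int.mp hl).coprime_iff_not_dvd.2 h3).pow_left.pow_right
      (n := 2)).dvd_of_dvd_mul_right (hR ▸ k)

theorem Iw_rec (hl : l.Prime) (hN : ¬ l ∣ N) (h4 : 4 ∣ β ^ 2 - e)
    (hC : Squarefree C) (ho : Odd C) (hd : (C : ℤ) ∣ e)
    (hf : ∀ m : ℕ, m ≠ 0 → m.Coprime N → ∀ R, Fam N (e * m ^ 2) (β * m) R → R.1 ≠ 0)
    (hη : ¬ l ∣ m → ∀ R, fdisc R = e * m ^ 2 → NS l C R = (J((l : ℤ) | C) + η) * gch C R)
    (h0 : m ≠ 0) (hm : m.Coprime N) (hz : 0 < z.im) :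
    Tf ℝ l (Iw (wG N C (e * m ^ 2) (β * m))) z =
      Iw (wG N C (e * (l * m : ℕ) ^ 2) (β * (l * m : ℕ))) z +
      if l ∣ m then (l : ℤ) • Iw (wG N C (e * (m / l : ℕ) ^ 2) (β * (m / l : ℕ))) z
      else η • Iw (wG N C (e * m ^ 2) (β * m)) z := by
  rw [funext (Iw_eq _), Iw_eq, Iw_eq]
  exact ph_rec kn_kI hl hN h4 hC ho hd (fun m a b z c =>
    fin_kI (wt_wG ho (hd.mul_right _) _) (fun R k => hf m a b R (fam_of_wG k)) c) hη h0 hm hz

theorem nuW_rec (hl : l.Prime) (hN : ¬ l ∣ N) (h4 : 4 ∣ ρ ^ 2 - e) (he : e < 0)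
    (hC : Squarefree C) (ho : Odd C) (hd : (C : ℤ) ∣ e)
    (hη : ¬ l ∣ m → ∀ R, fdisc R = e * m ^ 2 → NS l C R = (J((l : ℤ) | C) + η) * gch C R)
    (h0 : m ≠ 0) (hm : m.Coprime N) (hz : 0 < z.im) :
    Tf ℤ l (nuW (wZ N C (e * m ^ 2) (ρ * m))) z =
      nuW (wZ N C (e * (l * m : ℕ) ^ 2) (ρ * (l * m : ℕ))) z +
      if l ∣ m then (l : ℤ) • nuW (wZ N C (e * (m / l : ℕ) ^ 2) (ρ * (m / l : ℕ))) z
      else η • nuW (wZ N C (e * m ^ 2) (ρ * m)) z := by
  have hn : ∀ m : ℕ, m ≠ 0 → e * m ^ 2 < 0 := fun m k => mul_neg_of_neg_of_pos he (by positivity)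
  have h1 : ∀ m : ℕ, m ≠ 0 → nuW (wZ N C (e * m ^ 2) (ρ * m)) =
      Ph N C e ρ kN m + J(-1 | C) • Ph N C e (-ρ) kN m := fun m k => funext fun z => by
    rw [nuW_eq (hn m k), ← neg_mul]; rfl
  have h2 := fun (β : ℤ) (h4 : 4 ∣ β ^ 2 - e) => ph_rec (z := z) kn_kN hl hN h4 hC ho hd
    (fun m a _ z _ => fin_kN (hn m a) z) hη h0 hm hz
  rw [h1 m h0, h1 _ (mul_ne_zero hl.ne_zero h0), map_add, map_smul, Pi.add_apply, Pi.smul_apply,
    h2 ρ h4, h2 (-ρ) (by rwa [neg_sq])]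
  split_ifs with k
  · rw [h1 _ (Nat.div_pos (Nat.le_of_dvd (Nat.pos_of_ne_zero h0) k) hl.pos).ne']
    simp only [Pi.add_apply, Pi.smul_apply, smul_eq_mul]
    ring
  · simp only [Pi.add_apply, Pi.smul_apply, smul_eq_mul]
    ring

end Pool.Agent.G5.Hw
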