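import Mathlib

/-! A checker for congruences of integral power series by substitution of a power of two. -/

set_option autoImplicit false

open PowerSeries Finset

namespace Pool.Agent.B5

/-- Expressions. -/
inductive E where
  | v : ℕ → E
  | c : ℤ → E
  | x : ℕ → E
  | add : E → E → E
  | mul : E → E → E
  | pw : E → ℕ → E
  | lt : ℕ → E → E → E

/-- Evaluation of the argument before the call. -/
def st {α : Type} (x : ℕ) (f : ℕ → α) : α := Nat.casesOn x (f 0) fun k => f k.succ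

theorem st_eq {α : Type} (x : ℕ) (f : ℕ → α) : st x f = f x := by cases x <;> rfl

/-- Powers modulo `m`. -/
def kp (m a : ℕ) : ℕ → ℕ → ℕ
  | 0, _ => 1
  | f + 1, k => if k = 0 then 1 else if k = 1 then a else
      st (kp m a f (k / 2)) fun y => if k % 2 = 0 then y * y % m else y * y % m * a % m

theorem kp_eq (m a : ℕ) : ∀ f k, k ≤ f → kp m a f k ≡ a ^ k [MOD m]
  | 0, k, h => by obtain rfl : k = 0 := by omega
                  rfl
  | f + 1, k, h => by
    rw [kp]
    split_ifs with h0 h1 h2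
    · rw [h0]; rfl
    · rw [h1, pow_one]
    · have := kp_eq m a f (k / 2) (by omega)
      rw [st_eq, show a ^ k = a ^ (k / 2) * a ^ (k / 2) by rw [← pow_add]; congr 1; omega]
      exact (Nat.mod_modEq _ _).trans (this.mul this)
    · have := kp_eq m a f (k / 2) (by omega)
      rw [st_eq, show a ^ k = a ^ (k / 2) * a ^ (k / 2) * a by
        rw [← pow_add, ← pow_succ]; congr 1; omega]
      exact (Nat.mod_modEq _ _).trans (((Nat.mod_modEq _ _).trans (this.mul this)).mul_right _)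

/-- Change of one value. -/
def upd {α : Type} (σ : ℕ → α) (i : ℕ) (a : α) (j : ℕ) : α := if j = i then a else σ j

/-- The series of an expression. -/
noncomputable def E.ser : E → (ℕ → ℤ⟦X⟧) → ℤ⟦X⟧
  | v i, σ => σ i
  | c z, _ => C z
  | x j, _ => X ^ j
  | add a b, σ => a.ser σ + b.ser σ
  | mul a b, σ => a.ser σ * b.ser σ
  | pw a k, σ => a.ser σ ^ k
  | lt i a b, σ => b.ser (upd σ i (a.ser σ))

/-- The value at `t` modulo `m`. -/
def E.val (n t m : ℕ) : E → (ℕ → ℕ) → ℕ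
  | v i, ρ => ρ i
  | c z, _ => (z % m).toNat
  | x j, _ => if j < n then t ^ j else 0
  | add a b, ρ => (a.val n t m ρ + b.val n t m ρ) % m
  | mul a b, ρ => a.val n t m ρ * b.val n t m ρ % m
  | pw a k, ρ => if k = 0 then 1 else st (a.val n t m ρ) fun y => kp m y k k
  | lt i a b, ρ => st (a.val n t m ρ) fun y => b.val n t m (upd ρ i y)

/-- A bound for the weighted norm. -/
def E.bd : E → (ℕ → ℕ) → ℕ
  | v i, β => β i
  | c z, _ => z.natAbs
  | x _, _ => 1
  | add a b, β => a.bd β + b.bd β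
  | mul a b, β => a.bd β * b.bd β
  | pw a k, β => a.bd β ^ k
  | lt i a b, β => st (a.bd β) fun y => b.bd (upd β i y)

/-- The number `v` is the value of the series at `t` modulo `t ^ n`. -/
def Rv (n t : ℕ) (F : ℤ⟦X⟧) (v : ℕ) : Prop :=
  ∃ P : Polynomial ℤ, X ^ n ∣ F - (P : ℤ⟦X⟧) ∧ (t : ℤ) ^ n ∣ P.eval (t : ℤ) - v

/-- The weighted norm of the first coefficients. -/
noncomputable def wn (n : ℕ) (F : ℤ⟦X⟧) : ℝ := ∑ i ∈ range n, |((coeff i F : ℤ) : ℝ)| / 4 ^ i

variable {n t u v : ℕ} {F G : ℤ⟦X⟧}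

theorem Rv.mod (h : Rv n t F v) (e : u ≡ v [MOD t ^ n]) : Rv n t F u := by
  obtain ⟨P, h1, h2⟩ := h
  refine ⟨P, h1, ?_⟩
  have := e.dvd
  push_cast at this
  simpa using dvd_add h2 this

theorem Rv.add (h : Rv n t F u) (h' : Rv n t G v) : Rv n t (F + G) (u + v) := by
  obtain ⟨P, h1, h2⟩ := h
  obtain ⟨Q, k1, k2⟩ := h'
  refine ⟨P + Q, ?_, ?_⟩
  · convert dvd_add h1 k1 using 1; push_cast; ring
  · convert! dvd_add h2 k2 using 1; rw [Polynomial.eval_add]; push_cast; ring

theorem Rv.mul (h : Rv n t F u) (h' : Rv n t G v) : Rv n t (F * G) (u * v) := by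
  obtain ⟨P, h1, h2⟩ := h
  obtain ⟨Q, k1, k2⟩ := h'
  refine ⟨P * Q, ?_, ?_⟩
  · convert dvd_add (h1.mul_right G) (k1.mul_left P) using 1; push_cast; ring
  · convert! dvd_add (h2.mul_right (Q.eval (t : ℤ))) (k2.mul_left u) using 1
    rw [Polynomial.eval_mul]; push_cast; ring

theorem Rv.one : Rv n t 1 1 := ⟨1, by simp, by simp⟩

theorem Rv.zero : Rv n t 0 0 := ⟨0, by simp, by simp⟩

theorem Rv.pow (h : Rv n t F u) (k : ℕ) : Rv n t (F ^ k) (u ^ k) := by
  induction k with
  | zero => simpa using Rv.one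
  | succ k ih => simpa [pow_succ] using ih.mul h

theorem Rv.congr (h : Rv n t F u) (e : X ^ n ∣ G - F) : Rv n t G u := by
  obtain ⟨P, h1, h2⟩ := h
  exact ⟨P, by simpa using dvd_add e h1, h2⟩

theorem dvd_eval {P : Polynomial ℤ} (h : (X : ℤ⟦X⟧) ^ n ∣ (P : ℤ⟦X⟧)) (s : ℤ) : s ^ n ∣ P.eval s := by
  obtain ⟨Q, rfl⟩ : Polynomial.X ^ n ∣ P := Polynomial.X_pow_dvd_iff.2 fun d hd => by
    simpa using X_pow_dvd_iff.1 h d hd
  simp

theorem dvd_trunc (F : ℤ⟦X⟧) : X ^ n ∣ F - ((trunc n F : Polynomial ℤ) : ℤ⟦X⟧) :=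
  X_pow_dvd_iff.2 fun m hm => by simp [coeff_trunc, hm]

theorem Rv.inv (h : Rv n t F u) (e : F * G = 1) (h1 : u * v ≡ 1 [MOD t ^ n]) : Rv n t G v := by
  obtain ⟨P, k1, k2⟩ := h
  refine ⟨trunc n G, dvd_trunc G, ?_⟩
  have h2 : (X : ℤ⟦X⟧) ^ n ∣ ((P * trunc n G - 1 : Polynomial ℤ) : ℤ⟦X⟧) := by
    convert dvd_neg.2 (dvd_add (k1.mul_right G) ((dvd_trunc G).mul_left P)) using 1
    push_cast
    linear_combination e
  have h3 := dvd_eval h2 t
  have h4 := h1.dvd
  push_cast at h4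
  convert! dvd_add (dvd_sub (h3.mul_left v) (k2.mul_right (v * (trunc n G).eval (t : ℤ))))
    (h4.mul_right ((trunc n G).eval (t : ℤ))) using 1
  rw [Polynomial.eval_sub, Polynomial.eval_mul, Polynomial.eval_one]
  ring

theorem rv_val (ht : t ≠ 0) (e : E) : ∀ (σ : ℕ → ℤ⟦X⟧) (ρ : ℕ → ℕ),
    (∀ i, Rv n t (σ i) (ρ i)) → Rv n t (e.ser σ) (e.val n t (t ^ n) ρ) := by
  induction e with
  | v i => exact fun σ ρ h => h i
  | c z =>
    refine fun σ ρ _ => ⟨Polynomial.C z, by rw [E.ser, Polynomial.coe_C, sub_self]; exact dvd_zero _, ?_⟩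
    rw [E.val, Int.toNat_of_nonneg (Int.emod_nonneg _ (by positivity)), Polynomial.eval_C]
    push_cast
    exact Int.dvd_self_sub_emod
  | x j =>
    intro σ ρ _
    rw [E.val, E.ser]
    split_ifs with h
    · exact ⟨Polynomial.X ^ j, by simp, by simp⟩
    · exact ⟨0, by simpa using pow_dvd_pow _ (by omega), by simp⟩
  | add a b ia ib => exact fun σ ρ h => ((ia σ ρ h).add (ib σ ρ h)).mod (Nat.mod_modEq _ _)
  | mul a b ia ib => exact fun σ ρ h => ((ia σ ρ h).mul (ib σ ρ h)).mod (Nat.mod_modEq _ _)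
  | pw a k ia =>
    intro σ ρ h
    rw [E.val, E.ser, st_eq]
    split_ifs with h0
    · simpa [h0] using Rv.one
    · exact ((ia σ ρ h).pow k).mod (kp_eq _ _ _ _ le_rfl)
  | lt j a b ia ib =>
    intro σ ρ h
    rw [E.val, E.ser, st_eq]
    refine ib _ _ fun i => ?_
    rw [upd, upd]
    split_ifs
    exacts [ia σ ρ h, h _]

theorem wn_nonneg : 0 ≤ wn n F := sum_nonneg fun _ _ => by positivity

theorem wn_add : wn n (F + G) ≤ wn n F + wn n G := by
  rw [wn, wn, wn, ← sum_add_distrib]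
  refine sum_le_sum fun i _ => ?_
  rw [← add_div, map_add, Int.cast_add]
  gcongr
  exact abs_add_le _ _

theorem wn_mul : wn n (F * G) ≤ wn n F * wn n G := by
  rw [wn, wn, wn, sum_mul_sum, ← sum_product']
  calc _ ≤ ∑ i ∈ range n, ∑ x ∈ antidiagonal i,
        |((coeff x.1 F : ℤ) : ℝ)| / 4 ^ x.1 * (|((coeff x.2 G : ℤ) : ℝ)| / 4 ^ x.2) := by
        refine sum_le_sum fun i _ => ?_
        rw [coeff_mul, Int.cast_sum]
        refine (div_le_div_of_nonneg_right (abs_sum_le_sum_abs _ _) (by positivity)).trans ?_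
        rw [sum_div]
        refine le_of_eq (sum_congr rfl fun x hx => ?_)
        rw [← mem_antidiagonal.1 hx, Int.cast_mul, abs_mul, pow_add, mul_div_mul_comm]
    _ ≤ _ := by
        rw [← sum_biUnion fun i _ j _ h => by
          simp only [Function.onFun, disjoint_left, HasAntidiagonal.mem_antidiagonal]; omega]
        refine sum_le_sum_of_subset_of_nonneg (fun x hx => ?_) fun _ _ _ => by positivity
        simp only [mem_biUnion, mem_range, HasAntidiagonal.mem_antidiagonal, mem_product] at hx ⊢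
        omega

theorem wn_mono (j : ℕ) (z : ℤ) : wn n (monomial j z) ≤ |(z : ℝ)| := by
  by_cases h : j < n
  · rw [wn, sum_eq_single_of_mem j (mem_range.2 h) fun i _ h => by simp [coeff_monomial, h],
      coeff_monomial_same]
    exact div_le_self (abs_nonneg _) (one_le_pow₀ (by norm_num))
  · rw [wn, sum_eq_zero fun i hi => by
      simp [coeff_monomial, show i ≠ j by have := mem_range.1 hi; omega]]
    exact abs_nonneg _

theorem wn_bd (e : E) : ∀ (σ : ℕ → ℤ⟦X⟧) (β : ℕ → ℕ),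
    (∀ i, wn n (σ i) ≤ β i) → wn n (e.ser σ) ≤ e.bd β := by
  induction e with
  | v i => exact fun σ β h => h i
  | c z => exact fun σ β _ => by simpa [E.ser, E.bd] using wn_mono (n := n) 0 z
  | x j => exact fun σ β _ => by simpa [E.ser, E.bd, X_pow_eq] using wn_mono (n := n) j 1
  | add a b ia ib =>
    exact fun σ β h => wn_add.trans (by rw [E.bd, Nat.cast_add]; exact add_le_add (ia σ β h) (ib σ β h))
  | mul a b ia ib =>
    exact fun σ β h => wn_mul.trans (by
      rw [E.bd, Nat.cast_mul]; exact mul_le_mul (ia σ β h) (ib σ β h) wn_nonneg (by positivity))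
  | pw a k ia =>
    intro σ β h
    rw [E.bd, E.ser]
    induction k with
    | zero => simpa using wn_mono (n := n) 0 1
    | succ k ih =>
      rw [pow_succ, pow_succ, Nat.cast_mul]
      exact wn_mul.trans (mul_le_mul ih (ia σ β h) wn_nonneg (by positivity))
  | lt j a b ia ib =>
    intro σ β h
    rw [E.bd, E.ser, st_eq]
    refine ib _ _ fun i => ?_
    rw [upd, upd]
    split_ifs
    exacts [ia σ β h, h _]

theorem digits_zero (s : ℤ) : ∀ (n : ℕ) (c : ℕ → ℤ), (∀ i < n, |c i| < s) →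
    s ^ n ∣ ∑ i ∈ range n, c i * s ^ i → ∀ i < n, c i = 0
  | 0, _, _, _ => fun _ h => absurd h (by omega)
  | n + 1, c, h, e => by
    have s0 : s ≠ 0 := ((abs_nonneg _).trans_lt (h 0 (by omega))).ne'
    have e1 : ∑ i ∈ range (n + 1), c i * s ^ i = (∑ i ∈ range n, c (i + 1) * s ^ i) * s + c 0 := by
      rw [sum_range_succ', sum_mul]; simp [pow_succ, mul_assoc]
    rw [e1] at e
    have h0 : c 0 = 0 := Int.eq_zero_of_abs_lt_dvd
      ((dvd_add_right (dvd_mul_left _ _)).1 ((dvd_pow_self s (by omega)).trans e)) (h 0 (by omega))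
    rw [h0, add_zero, pow_succ, mul_dvd_mul_iff_right s0] at e
    intro i hi
    cases i with
    | zero => exact h0
    | succ i => exact digits_zero s n (fun i => c (i + 1)) (fun i hi => h _ (by omega)) e i (by omega)

theorem Rv.dvd (h : Rv n t F 0) {b : ℕ} (hb : wn n F ≤ b) (ht : b * 4 ^ n < t) : X ^ n ∣ F := by
  obtain ⟨P, h1, h2⟩ := h
  have h3 : (X : ℤ⟦X⟧) ^ n ∣ ((trunc n F - P : Polynomial ℤ) : ℤ⟦X⟧) := by
    convert dvd_sub h1 (dvd_trunc F) using 1; push_cast; ring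
  have h4 := dvd_add (dvd_eval h3 t) h2
  rw [Polynomial.eval_sub, Nat.cast_zero, sub_zero, sub_add_cancel, trunc_apply] at h4
  refine X_pow_dvd_iff.2 (digits_zero t n (fun i => coeff i F) (fun i hi => ?_) ?_)
  · have h5 : |((coeff i F : ℤ) : ℝ)| / 4 ^ i ≤ b := (single_le_sum (f := fun i => |((coeff i F : ℤ) : ℝ)| / 4 ^ i)
      (fun _ _ => by positivity) (mem_range.2 hi)).trans hb
    rw [div_le_iff₀ (by positivity)] at h5
    have h6 : (b : ℝ) * 4 ^ i ≤ b * 4 ^ n := by gcongr; norm_num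
    have h7 : (b : ℝ) * 4 ^ n < t := by exact_mod_cast ht
    exact_mod_cast (h5.trans h6).trans_lt h7
  · simpa [Polynomial.eval_finsetSum] using h4

end Pool.Agent.B5
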