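import Pool.Agent.Lib.MP_696deb_nt.B5.MH1

/-! Integrality of eigenforms, and the four cusps of level `p q`. -/

set_option autoImplicit false

open PowerSeries Filter Topology

namespace Pool.Agent.B5

open Pool.Agent.Lib.MP_696deb_nt Pool.Agent.B4.GE Pool.Agent.Lib.MP_696deb_nt.B4

variable {N k l μ m p q : ℕ} {G : ℂ → ℂ} {A : ℂ⟦X⟧} {g h W : MZ} {z : ℂ}

/-- Multiplicity one for complex coefficients. -/
theorem mult_oneC (hN : Idx N μ) (hm : 2 * μ < 12 * m) (hG : Mk N 2 G) (hq : QE G A)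
    (c0 : coeff 0 A = 0) (c1 : coeff 1 A = 1)
    (chk : ∀ l < m, l.Prime → ∀ n < m, coeff n (tS N l A) = coeff l A * coeff n A)
    (hl : l.Prime) (n : ℕ) : coeff n (tS N l A) = coeff l A * coeff n A := by
  have key : ∀ l : ℕ, l.Prime → (∀ n < m, coeff n (tS N l A) = coeff l A * coeff n A) →
      ∀ n, coeff n (tS N l A) = coeff l A * coeff n A := fun l hl h n => by
    rw [Mk.eq_of_coeff hN (hG.Tl hl) (hG.smul _) (qe_Tl hl hq) (hq.smul (coeff l A)) hm
      fun n hn => by rw [h n hn, coeff_C_mul], coeff_C_mul]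
  by_cases hlm : l < m
  · exact key l hl (chk l hlm hl) n
  refine key l hl (fun n hn => ?_) n
  have h1 : ∀ n, n < m → coeff (l * n) A = coeff l A * coeff n A := fun n => by
    induction n using Nat.strong_induction_on with
    | _ n ih =>
      intro hn
      rcases eq_or_ne n 0 with rfl | n0
      · simp only [mul_zero, c0]
      rcases eq_or_ne n 1 with rfl | n1
      · simp only [mul_one, c1]
      obtain ⟨r, hr, j, rfl⟩ := Nat.exists_prime_and_dvd n1
      have j0 : 0 < j := Nat.pos_of_mul_pos_left (Nat.pos_of_ne_zero n0)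
      have j1 : j < r * j := (Nat.lt_mul_iff_one_lt_left j0).2 hr.one_lt
      have r1 : r < m := (Nat.le_mul_of_pos_right r j0).trans_lt hn
      have cop : r.Coprime l := (Nat.coprime_primes hr hl).2 (by omega)
      have e1 := key r hr (chk r r1 hr) (l * j)
      have e2 := key r hr (chk r r1 hr) j
      rw [coeff_tS] at e1 e2
      rw [ih j j1 (j1.trans hn), mul_left_comm] at e1
      simp only [cop.dvd_mul_left] at e1
      split_ifs at e1 e2 with d
      · have j2 : j / r < r * j := (Nat.div_le_self j r).trans_lt j1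
        rw [Nat.mul_div_assoc l d.1, ih _ j2 (j2.trans hn)] at e1
        linear_combination e1 - coeff l A * e2
      · linear_combination e1 - coeff l A * e2
  rw [coeff_tS, h1 n hn]
  split_ifs with d
  · obtain rfl : n = 0 := Nat.eq_zero_of_dvd_of_lt d.1 (by omega)
    simp [c0]
  · rw [add_zero]

theorem mh_int {x : ℂ} {D : ℤ} (hD : D ≠ 0) (h : ∀ j : ℕ, ∃ y : ℤ, D * x ^ j = y) :
    ∃ y : ℤ, x = y := by
  have D0 : (D : ℂ) ≠ 0 := Int.cast_ne_zero.2 hD
  obtain ⟨y, hy⟩ := h 1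
  obtain ⟨r, rfl⟩ : ∃ r : ℚ, x = r := ⟨y / D, by
    push_cast
    rw [← hy, pow_one, mul_div_cancel_left₀ _ D0]⟩
  have h1 : r.den = 1 := by
    by_contra k
    obtain ⟨w, hw⟩ := h D.natAbs
    have h2 : D * r.num ^ D.natAbs = r.den ^ D.natAbs * w := by
      have h3 : (D : ℚ) * r ^ D.natAbs = w := by exact_mod_cast hw
      have h4 : (D : ℚ) * r.num ^ D.natAbs = r.den ^ D.natAbs * w := by
        rw [← h3, ← Rat.mul_den_eq_num r]
        ring
      exact_mod_cast h4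
    have h5 : IsCoprime ((r.den : ℤ) ^ D.natAbs) (r.num ^ D.natAbs) :=
      (Int.isCoprime_iff_gcd_eq_one.2 (by rw [Int.gcd_comm]; exact r.reduced)).pow
    have h6 := Int.natAbs_dvd_natAbs.2 (h5.dvd_of_dvd_mul_right ⟨w, h2⟩)
    rw [Int.natAbs_pow, Int.natAbs_natCast] at h6
    exact absurd (Nat.le_of_dvd (Int.natAbs_pos.2 hD) h6)
      (not_le.2 (Nat.lt_pow_self (by have := r.den_nz; omega)))
  exact ⟨r.num, by exact_mod_cast congrArg (Rat.cast : ℚ → ℂ) (r.coe_int_num_of_den_eq_one h1).symm⟩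

/-- Normalised eigenforms with bounded denominators have integral coefficients. -/
theorem exists_toC {D : ℤ} (hD : D ≠ 0) {ds : ℤ⟦X⟧} (e : C (D : ℂ) * A = toC ds)
    (c0 : coeff 0 A = 0) (c1 : coeff 1 A = 1)
    (hT : ∀ l : ℕ, l.Prime → ∀ n, coeff n (tS N l A) = coeff l A * coeff n A) :
    ∃ cs : ℤ⟦X⟧, A = toC cs := by
  have h1 : ∀ l : ℕ, l.Prime → ∃ y : ℤ, coeff l A = y := fun l hl => mh_int hD fun j => by
    have : ∃ es : ℤ⟦X⟧, ∀ n, D * coeff l A ^ j * coeff n A = (coeff n es : ℤ) := by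
      induction j with
      | zero => exact ⟨ds, fun n => by
          rw [pow_zero, mul_one, ← coeff_C_mul, e, coeff_map, eq_intCast]⟩
      | succ j ih =>
        obtain ⟨es, ih⟩ := ih
        refine ⟨tS N l es, fun n => ?_⟩
        rw [pow_succ, ← mul_assoc, mul_assoc, ← hT l hl n, coeff_tS, coeff_tS, mul_add, ih]
        split_ifs
        · rw [mul_left_comm, ih]
          push_cast
          rfl
        · simp
    obtain ⟨es, h⟩ := this
    exact ⟨_, by rw [← h 1, c1, mul_one]⟩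
  have h2 : ∀ n, ∃ y : ℤ, coeff n A = y := fun n => by
    induction n using Nat.strong_induction_on with
    | _ n ih =>
      rcases eq_or_ne n 0 with rfl | n0
      · exact ⟨0, by simpa using c0⟩
      rcases eq_or_ne n 1 with rfl | n1
      · exact ⟨1, by simpa using c1⟩
      obtain ⟨r, hr, j, rfl⟩ := Nat.exists_prime_and_dvd n1
      have j0 : 0 < j := Nat.pos_of_mul_pos_left (Nat.pos_of_ne_zero n0)
      have j1 : j < r * j := (Nat.lt_mul_iff_one_lt_left j0).2 hr.one_lt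
      obtain ⟨a, ha⟩ := h1 r hr
      obtain ⟨b, hb⟩ := ih j j1
      obtain ⟨c, hc⟩ := ih (j / r) ((Nat.div_le_self j r).trans_lt j1)
      have e1 := hT r hr j
      rw [coeff_tS, ha, hb, hc] at e1
      split_ifs at e1
      · exact ⟨a * b - r * c, by push_cast; linear_combination e1⟩
      · exact ⟨a * b, by push_cast; linear_combination e1⟩
  choose c hc using h2
  exact ⟨PowerSeries.mk c, by ext n; simp [hc]⟩

/-- The complete check: a form `G` with expansion `ds`, first coefficient `D`. -/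
theorem mult_one_den (hN : Idx N μ) (hm : 2 * μ < 12 * m) (hG : Mk N 2 G) {ds : ℤ⟦X⟧}
    (hq : QE G (toC ds)) {D : ℤ} (hD : D ≠ 0) (c0 : coeff 0 ds = 0) (c1 : coeff 1 ds = D)
    (chk : ∀ l < m, l.Prime → ∀ n < m, D * coeff n (tS N l ds) = coeff l ds * coeff n ds) :
    ∃ cs : ℤ⟦X⟧, ds = C D * cs ∧ QE (fun z => (D : ℂ)⁻¹ * G z) (toC cs) ∧ coeff 0 cs = 0 ∧
      coeff 1 cs = 1 ∧ ∀ l : ℕ, l.Prime → ∀ n, coeff n (tS N l cs) = coeff l cs * coeff n cs := by
  have D0 : (D : ℂ) ≠ 0 := Int.cast_ne_zero.2 hD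
  have h1 := hq.smul (D : ℂ)⁻¹
  have h2 : ∀ n, coeff n (C (D : ℂ)⁻¹ * toC ds) = (D : ℂ)⁻¹ * (coeff n ds : ℤ) := fun n => by
    simp
  have a0 : coeff 0 (C (D : ℂ)⁻¹ * toC ds) = 0 := by rw [h2, c0]; simp
  have a1 : coeff 1 (C (D : ℂ)⁻¹ * toC ds) = 1 := by rw [h2, c1, inv_mul_cancel₀ D0]
  have h3 := fun (l : ℕ) (hl : l.Prime) => mult_oneC hN hm (hG.smul (D : ℂ)⁻¹) h1 a0 a1
    (fun l h hl n hn => by
      have := congrArg (Int.cast : ℤ → ℂ) (chk l h hl n hn)
      rw [coeff_tS] at this ⊢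
      simp only [h2]
      split_ifs at this ⊢ <;>
      · push_cast at this
        field_simp
        linear_combination this) hl
  have h4 : C (D : ℂ) * (C (D : ℂ)⁻¹ * toC ds) = toC ds := by
    rw [← mul_assoc, ← map_mul, mul_inv_cancel₀ D0, map_one, one_mul]
  obtain ⟨cs, e⟩ := exists_toC hD h4 a0 a1 h3
  rw [e] at h1 a0 a1 h3 h4
  refine ⟨cs, toC_inj (by rw [← h4]; simp), h1, by simpa using a0, by simpa using a1,
    fun l hl n => ?_⟩
  have := h3 l hl n
  rw [← toC_tS] at this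
  simp only [coeff_map, eq_intCast] at this
  exact_mod_cast this

/-- The check with the first coefficients given by a function. -/
theorem mult_one_int (hN : Idx N μ) (hm : 2 * μ < 12 * m) (hG : Mk N 2 G) (hq : QE G A) {D : ℤ}
    (hD : D ≠ 0) {ds : ℤ⟦X⟧} (e : C (D : ℂ) * A = toC ds) {a : ℕ → ℤ} {L : ℕ}
    (ha : ∀ n < L, coeff n A = a n) (hL : 1 < L) (c0 : a 0 = 0) (c1 : a 1 = 1)
    (chk : ∀ l < m, l.Prime → ∀ n < m, l * n < L ∧ l < L ∧
      a (l * n) + (if l ∣ n ∧ ¬ l ∣ N then l * a (n / l) else 0) = a l * a n) :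
    ∃ cs : ℤ⟦X⟧, A = toC cs ∧
      ∀ l : ℕ, l.Prime → ∀ n, coeff n (tS N l cs) = coeff l cs * coeff n cs := by
  have a0 : coeff 0 A = 0 := by rw [ha 0 (by omega), c0, Int.cast_zero]
  have a1 : coeff 1 A = 1 := by rw [ha 1 hL, c1, Int.cast_one]
  have h3 := fun (l : ℕ) (hl : l.Prime) => mult_oneC hN hm hG hq a0 a1
    (fun l h1 hl n h2 => by
      obtain ⟨h3, h4, h5⟩ := chk l h1 hl n h2
      have h6 : n < L := (Nat.le_mul_of_pos_left n hl.pos).trans_lt h3
      rw [coeff_tS, ha _ h3, ha _ h4, ha _ h6, ha _ ((Nat.div_le_self n l).trans_lt h6)]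
      exact_mod_cast h5) hl
  obtain ⟨cs, rfl⟩ := exists_toC hD e a0 a1 h3
  refine ⟨cs, rfl, fun l hl n => ?_⟩
  have := h3 l hl n
  rw [← toC_tS] at this
  simp only [coeff_map, eq_intCast] at this
  exact_mod_cast this

/-- Invariance of weight `k`. -/
def Iw (N k : ℕ) (G : ℂ → ℂ) : Prop :=
  ∀ g, G0 N g → ∀ z : ℂ, 0 < z.im → G (act g z) = den g z ^ k * G z

theorem Iw.shift (hG : Iw N k G) (hg : g.det = 1) (hh : h.det = 1) {t : ℤ}
    (e : (N : ℤ) ∣ h 1 0 * g 1 1 - (h 1 0 * t + h 1 1) * g 1 0) (hz : 0 < z.im) :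
    sk k h G (z + t) = sk k g G z := by
  have h1 : (!![1, t; 0, 1] : MZ).det = 1 := by simp
  have h2 : G0 N (h * !![1, t; 0, 1] * g.adjugate) := by
    refine ⟨by rw [Matrix.det_mul, Matrix.det_mul, det_adjugate_two, hh, h1, hg]; rfl, ?_⟩
    convert e using 1
    simp [Matrix.mul_apply, Fin.sum_univ_two, Matrix.adjugate_fin_two]
    ring
  have h3 := sk_mul (k := k) (G := G) (h * !![1, t; 0, 1] * g.adjugate)
    (hg.trans_ne one_ne_zero) hz
  rw [sk.eq_1 k g, sk.eq_1 k _ G (act g z), hG _ h2 _ (mh_pos hg hz),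
    mul_div_cancel_left₀ _ (pow_ne_zero _ (mh_den h2.1 (mh_pos hg hz)))] at h3
  rw [sk.eq_1 k g, ← h3, mul_assoc, Matrix.adjugate_mul, hg, one_smul, mul_one,
    sk_mul _ (h1.trans_ne one_ne_zero) hz, sk.eq_1 k !![1, t; 0, 1]]
  simp [act_of, mob, den]

theorem Iw.same (hp : p.Prime) (hq : q.Prime) (hne : p ≠ q) (hG : Iw (p * q) k G)
    (hg : g.det = 1) (hh : h.det = 1) (e1 : (p : ℤ) ∣ g 1 0 ↔ (p : ℤ) ∣ h 1 0)
    (e2 : (q : ℤ) ∣ g 1 0 ↔ (q : ℤ) ∣ h 1 0) :
    ∃ t : ℤ, ∀ z : ℂ, 0 < z.im → sk k g G z = sk k h G (z + t) := by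
  have s : ∀ r : ℕ, r.Prime → ((r : ℤ) ∣ g 1 0 ↔ (r : ℤ) ∣ h 1 0) → ∃ t : ℤ,
      (r : ℤ) ∣ h 1 0 * g 1 1 - h 1 1 * g 1 0 - t * (h 1 0 * g 1 0) := fun r hr e =>
    mh_solve hr fun d => by
      have : (r : ℤ) ∣ g 1 0 := ((Nat.prime_iff_prime_int.1 hr).dvd_or_dvd d).elim e.2 id
      exact ((e.1 this).mul_right _).sub (this.mul_left _)
  obtain ⟨t1, a, h1⟩ := s p hp e1
  obtain ⟨t2, b, h2⟩ := s q hq e2
  obtain ⟨u, v, e⟩ := Nat.isCoprime_iff_coprime.2 ((Nat.coprime_primes hp hq).2 hne)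
  refine ⟨t1 * (v * q) + t2 * (u * p), fun z hz => (hG.shift hg hh ⟨a * v + b * u, ?_⟩ hz).symm⟩
  push_cast
  linear_combination (v * q) * h1 + (u * p) * h2 - (h 1 0 * g 1 1 - h 1 1 * g 1 0) * e

theorem sk_ut (h : MZ) {r : ℕ} (hr : r ≠ 0) (hz : 0 < z.im) :
    sk k (h * ut r 0 1) G ((r : ℝ)⁻¹ * z) = sk k h G z := by
  have r0 : (0 : ℝ) < r := by exact_mod_cast Nat.pos_of_ne_zero hr
  have r1 : (r : ℂ) ≠ 0 := by exact_mod_cast hr
  rw [sk_mul h (by simpa [det_ut] using hr) (by simpa using mul_pos (inv_pos.2 r0) hz),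
    sk.eq_1 k (ut r 0 1)]
  simp [ut, act_of, mob, den, r1]

/-- The behaviour at any cusp is read off from four functions. -/
theorem Iw.four (hp : p.Prime) (hq : q.Prime) (hne : p ≠ q) (hG : Iw (p * q) k G) {a b c d : ℤ}
    (hW : W = !![q * a, b; p * q * c, q * d]) (hd : W.det = q) (hg : g.det = 1) :
    ∃ F ∈ [G, sk k W G, sk k !![0, -1; (p * q : ℕ), 0] G,
      sk k W (sk k !![0, -1; (p * q : ℕ), 0] G)], ∃ (r : ℝ) (t u : ℂ), 0 < r ∧
        ∀ z : ℂ, 0 < z.im → sk k g G z = u * F (r * z + t) := by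
  have q0 : (q : ℤ) ≠ 0 := by exact_mod_cast hq.ne_zero
  have pp := Nat.prime_iff_prime_int.1 hp
  have qq := Nat.prime_iff_prime_int.1 hq
  have e : a * (q * d) - b * (p * c) = 1 := mul_left_cancel₀ q0 (by
    rw [hW, Matrix.det_fin_two_of] at hd
    linear_combination hd)
  have inv : ∀ r : ℕ, r ≠ 0 → (0 : ℝ) < (r : ℝ)⁻¹ := fun r hr =>
    inv_pos.2 (by exact_mod_cast Nat.pos_of_ne_zero hr)
  have im : ∀ (t : ℤ) (z : ℂ), 0 < z.im → 0 < (z + t).im := fun t z hz => by simpa using hz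
  by_cases h1 : (p : ℤ) ∣ g 1 0 <;> by_cases h2 : (q : ℤ) ∣ g 1 0
  · obtain ⟨t, ht⟩ := hG.same hp hq hne hg Matrix.det_one (by simpa using h1) (by simpa using h2)
    exact ⟨G, by simp, 1, t, 1, one_pos, fun z hz => by
      rw [ht z hz]
      simp [sk, act_one, den_one]⟩
  · obtain ⟨t, ht⟩ := hG.same hp hq hne (h := !![a, b; p * c, q * d]) hg (by simpa using e)
      (by simpa using h1) (iff_of_false h2 fun k => qq.not_dvd_one (e ▸
        ((dvd_mul_right _ _).mul_left _).sub (Dvd.dvd.mul_left (by simpa using k) _)))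
    refine ⟨sk k W G, by simp, (q : ℝ)⁻¹, (q : ℝ)⁻¹ * t, 1, inv q hq.ne_zero, fun z hz => ?_⟩
    rw [ht z hz, ← sk_ut _ hq.ne_zero (im t z hz), hW, one_mul, Complex.ofReal_inv, mul_add]
    congr 1
    simp [ut]
    constructor <;> ring
  · obtain ⟨t, ht⟩ := hG.same hp hq hne (h := !![-c, -d; q * a, p * b]) hg
      (by simp; linear_combination e) (iff_of_false h1 fun k => pp.not_dvd_one (by
        have k' : (p : ℤ) ∣ q * a := by simpa using k
        rw [← e, show a * (q * d) = q * a * d by ring]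
        exact (k'.mul_right _).sub ((dvd_mul_right _ _).mul_left _))) (by simpa using h2)
    refine ⟨sk k W (sk k !![0, -1; (p * q : ℕ), 0] G), by simp, (p : ℝ)⁻¹, (p : ℝ)⁻¹ * t, (q : ℂ) ^ k, inv p hp.ne_zero, fun z hz => ?_⟩
    have e1 : !![0, -1; ((p * q : ℕ) : ℤ), 0] * W =
        (q : ℤ) • (!![-c, -d; q * a, p * b] * ut p 0 1) := by
      rw [hW]
      simp [ut]
      refine ⟨?_, ?_, ?_⟩ <;> ring
    have q1 : (q : ℂ) ≠ 0 := by exact_mod_cast hq.ne_zero
    rw [ht z hz, ← sk_ut _ hp.ne_zero (im t z hz), Complex.ofReal_inv, ← mul_add,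
      ← sk_mul _ (hd.trans_ne q0) (by simpa using mul_pos (inv p hp.ne_zero) hz), e1, sk, sk,
      act_smul q0, den_smul, mul_pow]
    push_cast
    rw [mul_div_assoc', mul_div_mul_left _ _ (pow_ne_zero _ q1)]
  · obtain ⟨t, ht⟩ := hG.same hp hq hne (h := !![0, -1; 1, 0]) hg (by simp)
      (iff_of_false h1 (by simpa using pp.not_dvd_one))
      (iff_of_false h2 (by simpa using qq.not_dvd_one))
    have n0 := mul_ne_zero hp.ne_zero hq.ne_zero
    refine ⟨sk k !![0, -1; (p * q : ℕ), 0] G, by simp, ((p * q : ℕ) : ℝ)⁻¹,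
      ((p * q : ℕ) : ℝ)⁻¹ * t, 1, inv _ n0, fun z hz => ?_⟩
    rw [ht z hz, ← sk_ut _ n0 (im t z hz), one_mul, Complex.ofReal_inv, mul_add]
    congr 1
    simp [ut]

theorem Iw.cu (hp : p.Prime) (hq : q.Prime) (hne : p ≠ q) (hG : Iw (p * q) 2 G) {a b c d : ℤ}
    (hW : W = !![q * a, b; p * q * c, q * d]) (hd : W.det = q) (h1 : Tendsto G atI (𝓝 0))
    (h2 : Tendsto (sk 2 W G) atI (𝓝 0))
    (h3 : Tendsto (sk 2 !![0, -1; (p * q : ℕ), 0] G) atI (𝓝 0))
    (h4 : Tendsto (sk 2 W (sk 2 !![0, -1; (p * q : ℕ), 0] G)) atI (𝓝 0)) : Cu G := fun g hg => by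
  obtain ⟨F, hF, r, t, u, hr, e⟩ := hG.four hp hq hne hW hd hg
  have : Tendsto F atI (𝓝 0) := by
    simp only [List.mem_cons, List.not_mem_nil, or_false] at hF
    rcases hF with rfl | rfl | rfl | rfl <;> assumption
  have := (this.comp (tendsto_affine hr t)).const_mul u
  rw [mul_zero] at this
  exact this.congr' (ev_pos.mono fun z hz => (e z hz).symm)

theorem Iw.mk (hp : p.Prime) (hq : q.Prime) (hne : p ≠ q) (hG : Iw (p * q) k G) (h0 : Hol G)
    {a b c d : ℤ} (hW : W = !![q * a, b; p * q * c, q * d]) (hd : W.det = q) (h1 : Bdd G)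
    (h2 : Bdd (sk k W G)) (h3 : Bdd (sk k !![0, -1; (p * q : ℕ), 0] G))
    (h4 : Bdd (sk k W (sk k !![0, -1; (p * q : ℕ), 0] G))) : Mk (p * q) k G :=
  ⟨h0, hG, fun g hg => by
    obtain ⟨F, hF, r, t, u, hr, e⟩ := hG.four hp hq hne hW hd hg
    have : Bdd F := by
      simp only [List.mem_cons, List.not_mem_nil, or_false] at hF
      rcases hF with rfl | rfl | rfl | rfl <;> assumption
    exact ((Bdd.const u).mul (this.comp_affine hr t)).congr e⟩

end Pool.Agent.B5
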