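import Pool.Agent.Lib.MP_696deb_nt.B5.Q3
import Pool.Agent.Lib.MP_696deb_nt.B5.MH2

/-! Expansions of even eta quotients, and the four cusps. -/

set_option autoImplicit false

open PowerSeries Filter Topology Complex
open scoped Real

namespace Pool.Agent.B5

open Pool.Agent.Lib.MP_696deb_nt Pool.Agent.B4.GE

variable {p q k : ℕ} {s r : V4} {z : ℂ} {g : MZ} {a b c d : ℤ} {G : ℂ → ℂ}

/-- Every cusp is equivalent to one of four. -/
theorem cusp_four (hp : p.Prime) (hq : q.Prime) (hne : p ≠ q) (h : q * a * d - p * b * c = 1)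
    (hG : ∀ g, G0 (p * q) g → ∀ z : ℂ, 0 < z.im → G (act g z) = den g z ^ k * G z)
    (hg : g.det = 1) : ∃ W : MZ, (W = 1 ∨ W = Wq p q a b c d ∨ W = WN (p * q) ∨
      W = Wq p q a b c d * WN (p * q)) ∧ ∃ (ρ : ℝ) (t u : ℂ), 0 < ρ ∧
      ∀ z : ℂ, 0 < z.im → sk k g G z = u * sk k W G (ρ * z + t) := by
  replace hG : Iw (p * q) k G := hG
  have q0 : (q : ℤ) ≠ 0 := by exact_mod_cast hq.ne_zero
  have pp := Nat.prime_iff_prime_int.1 hp
  have qq := Nat.prime_iff_prime_int.1 hq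
  have inv : ∀ r : ℕ, r ≠ 0 → (0 : ℝ) < (r : ℝ)⁻¹ := fun r hr =>
    inv_pos.2 (by exact_mod_cast Nat.pos_of_ne_zero hr)
  have im : ∀ (t : ℤ) (z : ℂ), 0 < z.im → 0 < (z + t).im := fun t z hz => by simpa using hz
  by_cases h1 : (p : ℤ) ∣ g 1 0 <;> by_cases h2 : (q : ℤ) ∣ g 1 0
  · obtain ⟨t, ht⟩ := hG.same hp hq hne hg Matrix.det_one (by simpa using h1) (by simpa using h2)
    exact ⟨1, by simp, 1, t, 1, one_pos, fun z hz => by simp [ht z hz]⟩
  · obtain ⟨t, ht⟩ := hG.same hp hq hne (h := !![a, b; p * c, q * d]) hg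
      (by simp; linear_combination h) (by simpa using h1)
      (iff_of_false h2 fun k => qq.not_dvd_one (by
        have k' : (q : ℤ) ∣ p * c := by simpa using k
        rw [← h, mul_assoc, show p * b * c = p * c * b by ring]
        exact (dvd_mul_right _ _).sub (k'.mul_right _)))
    refine ⟨Wq p q a b c d, by simp, (q : ℝ)⁻¹, (q : ℝ)⁻¹ * t, 1, inv q hq.ne_zero, fun z hz => ?_⟩
    rw [ht z hz, ← sk_ut _ hq.ne_zero (im t z hz), one_mul, Complex.ofReal_inv, mul_add]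
    congr 1
    simp [ut, Wq]
    constructor <;> ring
  · obtain ⟨t, ht⟩ := hG.same hp hq hne (h := !![b, -a; q * d, -(p * c)]) hg
      (by simp; linear_combination h) (iff_of_false h1 fun k => pp.not_dvd_one (by
        have k' : (p : ℤ) ∣ q * d := by simpa using k
        rw [← h, show q * a * d = q * d * a by ring, mul_assoc (p : ℤ)]
        exact (k'.mul_right _).sub (dvd_mul_right _ _))) (by simpa using h2)
    refine ⟨Wq p q a b c d * WN (p * q), by simp, (p : ℝ)⁻¹, (p : ℝ)⁻¹ * t, (q : ℂ) ^ k,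
      inv p hp.ne_zero, fun z hz => ?_⟩
    have e1 : Wq p q a b c d * WN (p * q) =
        (q : ℤ) • (!![b, -a; q * d, -(p * c)] * ut p 0 1) := by
      simp [ut, Wq, WN]
      refine ⟨?_, ?_, ?_⟩ <;> ring
    have q1 : (q : ℂ) ≠ 0 := by exact_mod_cast hq.ne_zero
    rw [ht z hz, ← sk_ut _ hp.ne_zero (im t z hz), Complex.ofReal_inv, ← mul_add, e1, sk, sk,
      act_smul q0, den_smul, mul_pow]
    push_cast
    rw [mul_div_assoc', mul_div_mul_left _ _ (pow_ne_zero _ q1)]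
  · obtain ⟨t, ht⟩ := hG.same hp hq hne (h := !![0, -1; 1, 0]) hg (by simp)
      (iff_of_false h1 (by simpa using pp.not_dvd_one))
      (iff_of_false h2 (by simpa using qq.not_dvd_one))
    have n0 := mul_ne_zero hp.ne_zero hq.ne_zero
    refine ⟨WN (p * q), by simp, ((p * q : ℕ) : ℝ)⁻¹, ((p * q : ℕ) : ℝ)⁻¹ * t, 1, inv _ n0,
      fun z hz => ?_⟩
    rw [ht z hz, ← sk_ut _ n0 (im t z hz), one_mul, Complex.ofReal_inv, mul_add]
    congr 1
    simp [ut, WN]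

theorem q2_ne (hz : 0 < z.im) : z ≠ 0 := fun e => by simp [e] at hz

theorem den_WN (N : ℕ) (z : ℂ) : den (WN N) z = N * z := by simp [den, WN]

theorem det_WN (N : ℕ) : (WN N).det = N := by simp [WN]

theorem q2_bez (hp : p.Prime) (hq : q.Prime) (hne : p ≠ q) :
    ∃ a b : ℤ, q * a * 1 - p * b * 1 = 1 := by
  obtain ⟨u, v, e⟩ := Nat.isCoprime_iff_coprime.2 ((Nat.coprime_primes hp hq).2 hne)
  exact ⟨v, -u, by linear_combination e⟩

/-- A family of functions that is stable under the two involutions. -/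
theorem q2_mk (hp : p.Prime) (hq : q.Prime) (hne : p ≠ q) (h : q * a * d - p * b * c = 1)
    (h0 : Hol G) (hG : Iw (p * q) k G) {G₁ G₂ G₃ : ℂ → ℂ} {u₁ u₂ u₃ : ℂ}
    (e₁ : ∀ z : ℂ, 0 < z.im → sk k (Wq p q a b c d) G z = u₁ * G₁ z)
    (e₂ : ∀ z : ℂ, 0 < z.im → sk k (WN (p * q)) G z = u₂ * G₂ z)
    (e₃ : ∀ z : ℂ, 0 < z.im → sk k (WN (p * q)) G₁ z = u₃ * G₃ z)
    (b₀ : Bdd G) (b₁ : Bdd G₁) (b₂ : Bdd G₂) (b₃ : Bdd G₃) : Mk (p * q) k G := by
  refine ⟨h0, hG, fun g hg => ?_⟩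
  obtain ⟨W, hW, r, t, u, hr, e⟩ := cusp_four hp hq hne h hG hg
  refine ((Bdd.const u).mul (Bdd.comp_affine ?_ hr t)).congr e
  have d0 : 0 < (WN (p * q)).det := by
    rw [det_WN]
    exact_mod_cast Nat.mul_pos hp.pos hq.pos
  rcases hW with rfl | rfl | rfl | rfl
  · exact b₀.congr fun z _ => by simp [sk, act_one, den_one]
  · exact ((Bdd.const u₁).mul b₁).congr e₁
  · exact ((Bdd.const u₂).mul b₂).congr e₂
  · refine ((Bdd.const u₁).mul ((Bdd.const u₃).mul b₃)).congr fun z hz => ?_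
    rw [sk_mul _ d0.ne' hz, sk, e₁ _ (act_pos d0 hz), mul_div_assoc, ← e₃ z hz, sk]

theorem bdd_uq (hp : p ≠ 0) (hq : q ≠ 0) (h : 0 ≤ s.o1 p q) : Bdd (uq p q s) := by
  have h1 := (qe_uq hp hq (s := s.sm 12) (M := 0) (j := (s.o1 p q).toNat) (by
    rw [Int.toNat_of_nonneg h]
    simp only [V4.o1, V4.sm]
    push_cast
    ring)).bdd
  refine Asymptotics.IsBigO.of_pow (n := 12) (by norm_num)
    (Asymptotics.IsBigO.congr h1 (fun z => ?_) fun z => ?_)
  · simp only [uq, V4.sm, pow_zero, one_mul, Pi.pow_apply, mul_pow, mul_comm (12 : ℤ), zpow_mul,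
      zpow_ofNat]
  · simp

theorem sk_WN_uq (hp : p ≠ 0) (hq : q ≠ 0) (hs : s.wt = k) (hz : 0 < z.im) :
    sk k (WN (p * q)) (uq p q s) z = (-I / (p * q)) ^ k *
      ((p : ℂ) ^ (s.x + s.z) * (q : ℂ) ^ (s.x + s.y)) * uq p q s.sN z := by
  have := q2_ne hz
  have p0 : (p : ℂ) ≠ 0 := by exact_mod_cast hp
  have q0 : (q : ℂ) ≠ 0 := by exact_mod_cast hq
  rw [sk, uq_WN hp hq hs hz, den_WN, mul_assoc, mul_div_right_comm, ← div_pow,
    mul_assoc (_ ^ k)]
  congr 2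
  push_cast
  field_simp

theorem sk_WN_El (hp : p ≠ 0) (hq : q ≠ 0) (hr : r.wt = 0) (hz : 0 < z.im) :
    sk 2 (WN (p * q)) (El p q r) z = ((p : ℂ) * q)⁻¹ * El p q r.sN z := by
  have := q2_ne hz
  have p0 : (p : ℂ) ≠ 0 := by exact_mod_cast hp
  have q0 : (q : ℂ) ≠ 0 := by exact_mod_cast hq
  rw [sk, El_WN hp hq hr hz, den_WN]
  push_cast
  field_simp

theorem den_Wq_ne (hq : q ≠ 0) (h : q * a * d - p * b * c = 1) (hz : 0 < z.im) :
    den (Wq p q a b c d) z ≠ 0 :=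
  den_ne' (by rw [det_Wq h]; exact_mod_cast hq) hz

theorem wt_sq (s : V4) : s.sq.wt = s.wt := by
  simp only [V4.sq, V4.wt]
  ring

theorem mk_uq (hp : p.Prime) (hq : q.Prime) (hne : p ≠ q) (hk : Even k) (hs : s.Adm p q k)
    (h0 : s.Pos p q) : Mk (p * q) k (uq p q s) := by
  obtain ⟨a, b, h⟩ := q2_bez hp hq hne
  have p0 := hp.ne_zero
  have q0 := hq.ne_zero
  refine q2_mk hp hq hne h (fun z hz => (hasDerivAt_uq p0 q0 s hz).differentiableAt)
    (fun g hg z hz => uq_act p0 q0 hk hs hg hz)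
    (u₁ := e12 (s.eps p q a b 1 1) * (q : ℂ) ^ (-(s.z + s.w))) (fun z hz => ?_)
    (fun z hz => sk_WN_uq p0 q0 hs.1 hz) (fun z hz => sk_WN_uq p0 q0 ((wt_sq s).trans hs.1) hz)
    (bdd_uq p0 q0 h0.1) (bdd_uq p0 q0 h0.2.2.1) (bdd_uq p0 q0 h0.2.1) (bdd_uq p0 q0 h0.2.2.2)
  have := den_Wq_ne q0 h hz
  rw [sk, uq_Wq p0 q0 h hs.1 hz]
  field_simp

theorem mk_El (hp : p.Prime) (hq : q.Prime) (hne : p ≠ q) (hr : r.wt = 0) :
    Mk (p * q) 2 (El p q r) := by
  obtain ⟨a, b, h⟩ := q2_bez hp hq hne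
  have p0 := hp.ne_zero
  have q0 := hq.ne_zero
  refine q2_mk hp hq hne h (qe_El p0 q0 r).hol (fun g hg z hz => El_act p0 q0 hr hg hz)
    (u₁ := (q : ℂ)⁻¹) (fun z hz => ?_)
    (fun z hz => sk_WN_El p0 q0 hr hz) (fun z hz => sk_WN_El p0 q0 ((wt_sq r).trans hr) hz)
    (qe_El p0 q0 _).bdd (qe_El p0 q0 _).bdd (qe_El p0 q0 _).bdd (qe_El p0 q0 _).bdd
  have := den_Wq_ne q0 h hz
  have q1 : (q : ℂ) ≠ 0 := by exact_mod_cast q0
  rw [sk, div_eq_iff (pow_ne_zero _ this), mul_assoc, mul_comm (El p q r.sq z),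
    ← El_Wq p0 q0 h hr hz, inv_mul_cancel_left₀ q1]

/-- An invariant function of weight two that changes sign under the involution of Fricke and
vanishes at two cusps vanishes at all cusps. -/
theorem cusp_zero (hp : p.Prime) (hq : q.Prime) (hne : p ≠ q) (h : q * a * d - p * b * c = 1)
    (hG : ∀ g, G0 (p * q) g → ∀ z : ℂ, 0 < z.im → G (act g z) = den g z ^ 2 * G z)
    (hW : ∀ z : ℂ, 0 < z.im → G (act (WN (p * q)) z) = -(p * q * z ^ 2 * G z))
    (h1 : Tendsto G atI (𝓝 0)) (h2 : Tendsto (sk 2 (Wq p q a b c d) G) atI (𝓝 0))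
    (hg : g.det = 1) : Tendsto (fun z => G (act g z) / den g z ^ 2) atI (𝓝 0) := by
  have p0 : (p : ℂ) ≠ 0 := by exact_mod_cast hp.ne_zero
  have q0 : (q : ℂ) ≠ 0 := by exact_mod_cast hq.ne_zero
  have d0 : 0 < (Wq p q a b c d).det := by
    rw [det_Wq h]
    exact_mod_cast hq.pos
  have e : ∀ z : ℂ, 0 < z.im → sk 2 (WN (p * q)) G z = -((p : ℂ) * q)⁻¹ * G z := fun z hz => by
    have := q2_ne hz
    rw [sk, hW z hz, den_WN]
    push_cast
    field_simp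
  refine Iw.cu hp hq hne hG (W := Wq p q a b c d) rfl (det_Wq h) h1 h2 ?_ ?_ g hg
  · have := h1.const_mul (-((p : ℂ) * q)⁻¹)
    rw [mul_zero] at this
    exact this.congr' (ev_pos.mono fun z hz => (e z hz).symm)
  · have := h2.const_mul (-((p : ℂ) * q)⁻¹)
    rw [mul_zero] at this
    refine this.congr' (ev_pos.mono fun z hz => ?_)
    have h3 := e _ (act_pos d0 hz)
    rw [WN] at h3
    simp only [sk.eq_1 2 (Wq p q a b c d), h3, mul_div_assoc]

end Pool.Agent.B5
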