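import Pool.Agent.Lib.MP_696deb_nt.B5.MH0

/-! Hecke operators in weight two and arbitrary level; multiplicity one from a finite check. -/

set_option autoImplicit false

open PowerSeries Filter Topology

namespace Pool.Agent.B5

open Pool.Agent.Lib.MP_696deb_nt Pool.Agent.B4.GE Pool.Agent.Lib.MP_696deb_nt.B4

/-- The weights in the Hecke operator. -/
def tw (N l : ℕ) (i : Option (Fin l)) : ℕ := if i = none ∧ l ∣ N then 0 else l

/-- The Hecke operator on functions. -/
noncomputable def Tl (N l : ℕ) (G : ℂ → ℂ) (z : ℂ) : ℂ :=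
  ∑ i : Option (Fin l), tw N l i * sk 2 (rP l i) G z

/-- The Hecke operator on power series. -/
noncomputable def tS {R : Type*} [Semiring R] (N l : ℕ) (A : R⟦X⟧) : R⟦X⟧ :=
  PowerSeries.mk fun n => coeff (l * n) A + if l ∣ n ∧ ¬ l ∣ N then l * coeff (n / l) A else 0

/-- Vanishing at all cusps. -/
def Cu (G : ℂ → ℂ) : Prop :=
  ∀ g : MZ, g.det = 1 → Tendsto (fun z => G (act g z) / den g z ^ 2) atI (𝓝 0)

/-- The matrix normalises the matrices of level `N`. -/
structure Nrm (N : ℕ) (W : MZ) : Prop where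
  pos : 0 < W.det
  left : ∀ M : MZ, (N : ℤ) ∣ M 1 0 → ∃ M' : MZ, (N : ℤ) ∣ M' 1 0 ∧ W * M = M' * W
  right : ∀ M : MZ, (N : ℤ) ∣ M 1 0 → ∃ M' : MZ, (N : ℤ) ∣ M' 1 0 ∧ M * W = W * M'

variable {N k l μ m p q : ℕ} {G G' : ℂ → ℂ} {A : ℂ⟦X⟧} {g h W : MZ} {z c : ℂ}

theorem coeff_tS {R : Type*} [Semiring R] (N l n : ℕ) (A : R⟦X⟧) : coeff n (tS N l A) =
    coeff (l * n) A + if l ∣ n ∧ ¬ l ∣ N then l * coeff (n / l) A else 0 := coeff_mk _ _

theorem toC_tS (N l : ℕ) (A : ℤ⟦X⟧) : toC (tS N l A) = tS N l (toC A) := by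
  ext n
  simp only [coeff_map, coeff_tS]
  split_ifs <;> simp

theorem det_rP (hl : l.Prime) (i : Option (Fin l)) : (rP l i).det = l := (isReps_rP hl).det i

theorem det_rP_pos (hl : l.Prime) (i : Option (Fin l)) : 0 < (rP l i).det := by
  rw [det_rP hl]
  exact_mod_cast hl.pos

theorem sk_none (G : ℂ → ℂ) (z : ℂ) : sk 2 (rP l none) G z = G (l * z) := by
  rw [sk, act_none]
  simp [den, rP, ut]

theorem sk_some (j : Fin l) (G : ℂ → ℂ) (z : ℂ) :
    sk 2 (rP l (some j)) G z = G ((z + (j : ℕ)) / l) / l ^ 2 := by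
  rw [sk, act_rP_some]
  simp [den, rP, ut]

theorem Tl_eq (hl : l.Prime) (G : ℂ → ℂ) (z : ℂ) : Tl N l G z =
    (if l ∣ N then 0 else l * G (l * z)) + (∑ j ∈ Finset.range l, G ((z + j) / l)) / l := by
  have l0 : (l : ℂ) ≠ 0 := by exact_mod_cast hl.ne_zero
  rw [Tl, Fintype.sum_option, sk_none, Finset.sum_range, Finset.sum_div]
  congr 1
  · by_cases h : l ∣ N <;> simp [tw, h]
  · refine Finset.sum_congr rfl fun j _ => ?_
    rw [sk_some]
    simp only [tw, reduceCtorEq, false_and, if_false]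
    field_simp

theorem qe_Tl (hl : l.Prime) (hA : QE G A) : QE (Tl N l G) (tS N l A) := by
  have := Fact.mk hl
  have l0 : (l : ℂ) ≠ 0 := by exact_mod_cast hl.ne_zero
  have h1 := ((hA.expand l hl.ne_zero).smul (if l ∣ N then 0 else (l : ℂ))).add (hA.Up (p := l))
  convert h1.congr (F' := Tl N l G) fun z _ => ?_ using 1
  · ext n
    simp only [coeff_tS, coeff_mk, map_add, coeff_C_mul, coeff_expand, add_comm]
    by_cases h : l ∣ N <;> by_cases h' : l ∣ n <;> simp [h, h']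
  · rw [Tl_eq hl, Finset.sum_div, ite_mul, zero_mul]
    congr 1
    refine (Finset.sum_nbij' (fun j : ZMod l => j.val) (fun j : ℕ => (j : ZMod l)) (by
      simp [ZMod.val_lt]) (by simp) (by simp)
      (fun j hj => ZMod.val_cast_of_lt (by simpa using hj)) fun j _ => ?_).symm
    simp only [sl, mob]
    simp only [Int.cast_one, one_mul, Int.cast_zero, zero_mul, zero_add, Int.cast_natCast,
      sub_zero, mul_zero]
    field_simp

theorem Tl_congr (hl : l.Prime) (e : ∀ z : ℂ, 0 < z.im → G z = G' z) (hz : 0 < z.im) :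
    Tl N l G z = Tl N l G' z :=
  Finset.sum_congr rfl fun i _ => by rw [sk, sk, e _ (act_pos (det_rP_pos hl i) hz)]

theorem Tl_smul (c : ℂ) (G : ℂ → ℂ) (z : ℂ) :
    Tl N l (fun z => c * G z) z = c * Tl N l G z := by
  simp only [Tl, sk, Finset.mul_sum]
  exact Finset.sum_congr rfl fun i _ => by ring

theorem sk_Tl (hg : g.det ≠ 0) (hz : 0 < z.im) :
    sk 2 g (Tl N l G) z = ∑ i, tw N l i * sk 2 (rP l i * g) G z := by
  rw [sk, Tl, Finset.sum_div]
  exact Finset.sum_congr rfl fun i _ => by rw [sk_mul _ hg hz, mul_div_assoc, sk.eq_1 2 g]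

theorem tendsto_rP (hl : l.Prime) (i : Option (Fin l)) : Tendsto (act (rP l i)) atI atI := by
  have l0 : (0 : ℝ) < l := by exact_mod_cast hl.pos
  rcases i with _ | j
  · simpa [← act_none] using tendsto_affine l0 0
  · convert tendsto_affine (inv_pos.2 l0) ((j : ℕ) / l) using 2 with z
    rw [act_rP_some]
    push_cast
    ring

theorem den_rP (i : Option (Fin l)) (z : ℂ) : den (rP l i) z = rP l i 1 1 := by
  rcases i with _ | j <;> simp [den, rP, ut]

theorem tendsto_sk_rP (hl : l.Prime) (i : Option (Fin l)) (h : Tendsto G atI (𝓝 c)) :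
    Tendsto (sk 2 (rP l i) G) atI (𝓝 (c / (rP l i 1 1 : ℤ) ^ 2)) := by
  refine ((h.comp (tendsto_rP hl i)).div_const _).congr fun z => ?_
  rw [sk, den_rP]
  rfl

/-- The lower left entries of the two sides. -/
theorem rP_entry {i j : Option (Fin l)} (e : rP l i * g = h * rP l j) :
    rP l i 1 1 * g 1 0 = h 1 0 * rP l j 0 0 := by
  have := congrFun (congrFun e 1) 0
  rcases i with _ | i <;> rcases j with _ | j <;>
    simpa [rP, ut, Matrix.mul_apply, Fin.sum_univ_two] using this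

theorem rP_cop (hl : l.Prime) {r : ℕ} (h : ¬ l ∣ r) (i : Option (Fin l)) :
    IsCoprime (r : ℤ) (rP l i 0 0) ∧ IsCoprime (r : ℤ) (rP l i 1 1) := by
  have : IsCoprime (r : ℤ) l :=
    Nat.isCoprime_iff_coprime.2 ((Nat.Prime.coprime_iff_not_dvd hl).2 h).symm
  rcases i with _ | i <;> simp [rP, ut, this, isCoprime_one_right]

theorem bdd_sum {ι : Type*} (s : Finset ι) {F : ι → ℂ → ℂ} (hF : ∀ i, Bdd (F i)) :
    Bdd fun z => ∑ i ∈ s, F i z := by
  classical
  induction s using Finset.induction_on with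
  | empty => simpa using Bdd.const 0
  | insert a s ha ih => simpa only [Finset.sum_insert ha] using (hF a).add ih

theorem Mk.Tl (hl : l.Prime) (hG : Mk N 2 G) : Mk N 2 (Tl N l G) where
  hol z hz := DifferentiableAt.fun_sum fun i _ =>
    (hol_sk hG.hol (det_rP_pos hl i) z hz).const_mul _
  inv g hg z hz := by
    obtain ⟨σ, hσ⟩ := (isReps_rP hl).perm hg.1
    choose h h1 h2 using hσ
    have key : ∀ i, tw N l i * sk 2 (rP l i * g) G z = tw N l (σ i) * sk 2 (rP l (σ i)) G z := by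
      by_cases hN : l ∣ N
      · have s : ∀ j, σ (some j) ≠ none := fun j e => by
          have e0 := congrFun (congrFun (h2 (some j)) 0) 0
          have hc := (Int.natCast_dvd_natCast.2 hN).trans hg.2
          have hd := hg.1
          rw [e] at e0
          simp only [rP, ut, Matrix.mul_apply, Fin.sum_univ_two, Matrix.of_apply, Matrix.cons_val',
            Matrix.cons_val_zero, Matrix.cons_val_one, Matrix.cons_val_fin_one] at e0
          rw [Matrix.det_fin_two] at hd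
          have ha : (l : ℤ) ∣ g 0 0 := by
            have : g 0 0 = h (some j) 0 0 * l - (j : ℕ) * g 1 0 := by
              push_cast at e0
              linear_combination e0
            rw [this]
            exact (dvd_mul_left _ _).sub (hc.mul_left _)
          exact hl.one_lt.ne' (by
            exact_mod_cast Int.eq_one_of_dvd_one (by positivity)
              (hd ▸ (ha.mul_right _).sub (hc.mul_left _)))
        rintro (_ | j)
        · have : σ none = none := by
            rcases e : σ.symm none with _ | j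
            · exact σ.symm_apply_eq.1 e |>.symm
            · exact absurd (σ.symm_apply_eq.1 e).symm (s j)
          simp [tw, this, hN]
        · obtain ⟨j', e⟩ := Option.ne_none_iff_exists'.1 (s j)
          have e1 := rP_entry (h2 (some j))
          rw [e] at e1
          rw [h2, hG.sk_mul_eq ⟨h1 _, ?_⟩ (det_rP_pos hl _) hz, e]
          · simp [tw]
          · have : h (some j) 1 0 = l * g 1 0 := by simpa [rP, ut] using e1.symm
            exact this ▸ hg.2.mul_left _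
      · intro i
        rw [h2, hG.sk_mul_eq ⟨h1 _, (rP_cop hl hN (σ i)).1.dvd_of_dvd_mul_right
          (rP_entry (h2 i) ▸ hg.2.mul_left _)⟩ (det_rP_pos hl _) hz]
        simp [tw, hN]
    have := sk_Tl (N := N) (l := l) (G := G) (hg.1 ▸ one_ne_zero) hz
    simp only [key] at this
    rw [Equiv.sum_comp σ fun i => tw N l i * sk 2 (rP l i) G z, sk,
      div_eq_iff (pow_ne_zero _ (mh_den hg.1 hz))] at this
    rw [this, mul_comm]
    rfl
  bd g hg := by
    obtain ⟨σ, hσ⟩ := (isReps_rP hl).perm hg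
    choose h h1 h2 using hσ
    refine Bdd.congr (F := fun z => ∑ i, tw N l i * sk 2 (rP l (σ i)) (sk 2 (h i) G) z)
      (bdd_sum _ fun i => (Bdd.const _).mul ?_) fun z hz => ?_
    · have := (Bdd.const (((rP l (σ i) 1 1 : ℤ) : ℂ) ^ 2)⁻¹).mul
        ((hG.bd _ (h1 i)).comp_tendsto (tendsto_rP hl (σ i)))
      exact this.congr fun z _ => by rw [sk, den_rP, div_eq_inv_mul]; rfl
    · refine (sk_Tl (hg ▸ one_ne_zero) hz).trans (Finset.sum_congr rfl fun i _ => ?_)
      rw [h2, sk_mul _ (det_rP_pos hl _).ne' hz]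

theorem Cu.Tl (hl : l.Prime) (hG : Cu G) : Cu (Tl N l G) := fun g hg => by
  obtain ⟨σ, hσ⟩ := (isReps_rP hl).perm hg
  choose h h1 h2 using hσ
  have := tendsto_finsetSum Finset.univ fun i _ =>
    (tendsto_sk_rP hl (σ i) (G := sk 2 (h i) G) (hG _ (h1 i))).const_mul (tw N l i : ℂ)
  simp only [zero_div, mul_zero, Finset.sum_const_zero] at this
  refine this.congr' (ev_pos.mono fun z hz => ?_)
  refine ((sk_Tl (hg ▸ one_ne_zero) hz).trans (Finset.sum_congr rfl fun i _ => ?_)).symm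
  rw [h2, sk_mul _ (det_rP_pos hl _).ne' hz]

theorem Cu.congr (hG : Cu G) (e : ∀ z : ℂ, 0 < z.im → G' z = G z) : Cu G' := fun g hg =>
  (hG g hg).congr' (ev_pos.mono fun z hz => by simp only [e _ (mh_pos hg hz)])

theorem Cu.add (hG : Cu G) (hG' : Cu G') : Cu fun z => G z + G' z := fun g hg => by
  simpa only [add_div, add_zero] using (hG g hg).add (hG' g hg)

theorem Cu.smul (hG : Cu G) (c : ℂ) : Cu fun z => c * G z := fun g hg => by
  simpa only [mul_div_assoc, mul_zero] using (hG g hg).const_mul c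

/-- Matrices that define the same cusp. -/
theorem Mk.shift (hG : Mk N k G) (hg : g.det = 1) (hh : h.det = 1) {t : ℤ}
    (e : (N : ℤ) ∣ h 1 0 * g 1 1 - (h 1 0 * t + h 1 1) * g 1 0) (hz : 0 < z.im) :
    sk k h G (z + t) = sk k g G z := by
  have h1 : (!![1, t; 0, 1] : MZ).det = 1 := by simp
  have h2 : G0 N (h * !![1, t; 0, 1] * g.adjugate) := by
    refine ⟨by rw [Matrix.det_mul, Matrix.det_mul, det_adjugate_two, hh, h1, hg]; rfl, ?_⟩
    convert e using 1
    simp [Matrix.mul_apply, Fin.sum_univ_two, Matrix.adjugate_fin_two]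
    ring
  rw [← hG.sk_mul_eq h2 (hg ▸ one_pos) hz, mul_assoc, Matrix.adjugate_mul, hg, one_smul, mul_one,
    sk_mul _ (h1.trans_ne one_ne_zero) hz, sk.eq_1 k !![1, t; 0, 1]]
  simp [act_of, mob, den]

theorem Mk.qe_cusp (hN : N ≠ 0) (hG : Mk N k G) (hg : g.det = 1) :
    ∃ B, QE (fun z => sk k g G (N * z)) B := by
  have N0 : (0 : ℝ) < N := by exact_mod_cast Nat.pos_of_ne_zero hN
  have p : ∀ z : ℂ, 0 < z.im → 0 < ((N : ℂ) * z).im := fun z hz => by simpa using mul_pos N0 hz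
  refine QE.exists_of_periodic (fun z hz => ?_) (fun z hz => ?_) ?_
  · exact (hol_sk hG.hol (hg ▸ one_pos) _ (p z hz)).comp z (by fun_prop)
  · have := hG.shift (t := N) hg hg ⟨-(g 1 0 * g 1 0), by ring⟩ (p z hz)
    rw [mul_add, mul_one]
    exact_mod_cast this
  · simpa [sk] using (hG.bd g hg).comp_affine N0 0

theorem Mk.lim (hN : N ≠ 0) (hG : Mk N k G) (hg : g.det = 1) :
    ∃ c, Tendsto (sk k g G) atI (𝓝 c) := by
  have N0 : (0 : ℝ) < N := by exact_mod_cast Nat.pos_of_ne_zero hN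
  have N1 : (N : ℂ) ≠ 0 := by exact_mod_cast hN
  obtain ⟨B, hB⟩ := hG.qe_cusp hN hg
  refine ⟨_, (hB.tendsto.comp (tendsto_affine (inv_pos.2 N0) 0)).congr fun z => ?_⟩
  simp [N1]

theorem mh_solve (hp : p.Prime) {x y : ℤ} (h : (p : ℤ) ∣ y → (p : ℤ) ∣ x) :
    ∃ t : ℤ, (p : ℤ) ∣ x - t * y := by
  by_cases k : (p : ℤ) ∣ y
  · exact ⟨0, by simpa using h k⟩
  · obtain ⟨u, v, e⟩ := ((Nat.prime_iff_prime_int.1 hp).irreducible.coprime_iff_not_dvd).2 k
    exact ⟨x * v, x * u, by linear_combination -x * e⟩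

theorem Mk.lim_eq (hp : p.Prime) (hq : q.Prime) (hne : p ≠ q) (hG : Mk (p * q) k G)
    (hg : g.det = 1) (hh : h.det = 1) (e1 : (p : ℤ) ∣ g 1 0 ↔ (p : ℤ) ∣ h 1 0)
    (e2 : (q : ℤ) ∣ g 1 0 ↔ (q : ℤ) ∣ h 1 0) (hc : Tendsto (sk k h G) atI (𝓝 c)) :
    Tendsto (sk k g G) atI (𝓝 c) := by
  have s : ∀ r : ℕ, r.Prime → ((r : ℤ) ∣ g 1 0 ↔ (r : ℤ) ∣ h 1 0) → ∃ t : ℤ,
      (r : ℤ) ∣ h 1 0 * g 1 1 - h 1 1 * g 1 0 - t * (h 1 0 * g 1 0) := fun r hr e =>
    mh_solve hr fun d => by
      have : (r : ℤ) ∣ g 1 0 := ((Nat.prime_iff_prime_int.1 hr).dvd_or_dvd d).elim e.2 id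
      exact ((e.1 this).mul_right _).sub (this.mul_left _)
  obtain ⟨t1, a, h1⟩ := s p hp e1
  obtain ⟨t2, b, h2⟩ := s q hq e2
  obtain ⟨u, v, e⟩ := Nat.isCoprime_iff_coprime.2 ((Nat.coprime_primes hp hq).2 hne)
  have := tendsto_affine one_pos ((t1 * (v * q) + t2 * (u * p) : ℤ) : ℂ)
  refine (hc.comp this).congr' (ev_pos.mono fun z hz => ?_)
  rw [← hG.shift (t := t1 * (v * q) + t2 * (u * p)) hg hh ⟨a * v + b * u, ?_⟩ hz]
  · simp
  · push_cast
    linear_combination (v * q) * h1 + (u * p) * h2 -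
      (h 1 0 * g 1 1 - h 1 1 * g 1 0) * e

/-- The operator `T_l - l - 1` kills the constant terms. -/
theorem Mk.cu_Tl (hp : p.Prime) (hq : q.Prime) (hne : p ≠ q) (hl : l.Prime) (hN : ¬ l ∣ p * q)
    (hG : Mk (p * q) 2 G) : Cu fun z => B5.Tl (p * q) l G z - (l + 1) * G z := fun g hg => by
  have l0 : (l : ℂ) ≠ 0 := by exact_mod_cast hl.ne_zero
  obtain ⟨σ, hσ⟩ := (isReps_rP hl).perm hg
  choose h h1 h2 using hσ
  obtain ⟨c, hc⟩ := hG.lim (mul_ne_zero hp.ne_zero hq.ne_zero) hg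
  have s : ∀ r : ℕ, ¬ l ∣ r → ∀ i, ((r : ℤ) ∣ h i 1 0 ↔ (r : ℤ) ∣ g 1 0) := fun r hr i =>
    ⟨fun d => (rP_cop hl hr i).2.dvd_of_dvd_mul_left (rP_entry (h2 i) ▸ d.mul_right _),
      fun d => (rP_cop hl hr (σ i)).1.dvd_of_dvd_mul_right (rP_entry (h2 i) ▸ d.mul_left _)⟩
  have := (tendsto_finsetSum Finset.univ fun i _ => (tendsto_sk_rP hl (σ i) (hG.lim_eq hp hq hne
    (h1 i) hg (s p (fun d => hN (d.mul_right _)) i) (s q (fun d => hN (d.mul_left _)) i)
      hc)).const_mul (l : ℂ)).sub (hc.const_mul (l + 1 : ℂ))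
  rw [Equiv.sum_comp σ fun i => (l : ℂ) * (c / (rP l i 1 1 : ℤ) ^ 2)] at this
  convert this.congr' (ev_pos.mono fun z hz => ?_) using 2
  · simp [rP, ut]
    field_simp
    ring
  · rw [sub_div, mul_div_assoc]
    refine congrArg₂ _ ((sk_Tl (hg ▸ one_ne_zero) hz).trans
      (Finset.sum_congr rfl fun i _ => ?_)).symm rfl
    rw [h2, sk_mul _ (det_rP_pos hl _).ne' hz]
    simp [tw, hN]

theorem Nrm.g0 (hW : Nrm N W) (hg : G0 N g) : ∃ h, G0 N h ∧ W * g = h * W := by
  obtain ⟨h, h1, e⟩ := hW.left g hg.2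
  refine ⟨h, ⟨mul_right_cancel₀ hW.pos.ne' ?_, h1⟩, e⟩
  rw [← Matrix.det_mul, ← e, Matrix.det_mul, hg.1, mul_one, one_mul]

/-- Hecke operators commute with the involutions. -/
theorem Nrm.sk_Tl (hW : Nrm N W) (hl : l.Prime) (hN : ¬ l ∣ N) (hG : Mk N 2 G) (hz : 0 < z.im) :
    sk 2 W (Tl N l G) z = Tl N l (sk 2 W G) z := by
  have key : ∀ i, ∃ j h, G0 N h ∧ rP l i * W = h * (W * rP l j) := fun i => by
    obtain ⟨M, h1, e⟩ := hW.right (rP l i) (by rcases i with _ | i <;> simp [rP, ut])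
    have h2 : M.det = l := mul_left_cancel₀ hW.pos.ne' (by
      rw [← Matrix.det_mul, ← e, Matrix.det_mul, det_rP hl, mul_comm])
    obtain ⟨j, g, h3, rfl⟩ := (isReps_rP hl).surj M h2
    have h4 : (g * rP l j) 1 0 = g 1 0 * rP l j 0 0 := by
      rcases j with _ | j <;> simp [rP, ut, Matrix.mul_apply, Fin.sum_univ_two]
    obtain ⟨h, h5, e'⟩ := hW.g0 ⟨h3, (rP_cop hl hN j).1.dvd_of_dvd_mul_right (h4 ▸ h1)⟩
    exact ⟨j, h, h5, by rw [e, ← mul_assoc, e', mul_assoc]⟩
  choose σ h h1 h2 using key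
  have inj : Function.Injective σ := fun i j e => by
    refine (isReps_rP hl).inj i j (h i * (h j).adjugate)
      (by rw [Matrix.det_mul, det_adjugate_two, (h1 i).1, (h1 j).1]; rfl) ?_
    have : rP l i * W = h i * (h j).adjugate * rP l j * W := by
      rw [mul_assoc, h2 j, ← mul_assoc, mul_assoc (h i), Matrix.adjugate_mul, (h1 j).1, one_smul,
        mul_one, h2, e]
    have h3 := congrArg (· * W.adjugate) this
    simp only [mul_assoc _ W, Matrix.mul_adjugate, Matrix.mul_smul, mul_one] at h3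
    exact smul_right_injective _ hW.pos.ne' h3
  rw [B5.sk_Tl hW.pos.ne' hz, Tl,
    ← (Finite.injective_iff_bijective.1 inj).sum_comp fun i => tw N l i * sk 2 (rP l i) _ z]
  refine Finset.sum_congr rfl fun i _ => ?_
  rw [h2, hG.sk_mul_eq (h1 i) (by
    rw [Matrix.det_mul]; exact mul_pos hW.pos (det_rP_pos hl _)) hz,
    sk_mul _ (det_rP_pos hl _).ne' hz]
  simp [tw, hN]

theorem nrm_fricke (hN : N ≠ 0) : Nrm N !![0, -1; N, 0] := by
  refine ⟨by simpa using Nat.pos_of_ne_zero hN, fun M ⟨t, e⟩ => ?_, fun M ⟨t, e⟩ => ?_⟩ <;>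
  · refine ⟨!![M 1 1, -t; -(N * M 0 1), M 0 0], by simp, ?_⟩
    ext i j
    fin_cases i <;> fin_cases j <;> simp [Matrix.mul_apply, Fin.sum_univ_two, e, mul_comm]

/-- Hecke operators keep the sign under the involution of Fricke. -/
theorem Mk.fricke_Tl (hN0 : N ≠ 0) (hl : l.Prime) (hN : ¬ l ∣ N) (hG : Mk N 2 G)
    (h : ∀ z : ℂ, 0 < z.im → G (-1 / (N * z)) = c * z ^ 2 * G z) (hz : 0 < z.im) :
    B5.Tl N l G (-1 / (N * z)) = c * z ^ 2 * B5.Tl N l G z := by
  have N1 : (N : ℂ) ≠ 0 := by exact_mod_cast hN0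
  have s : ∀ (F : ℂ → ℂ) (z : ℂ), sk 2 !![0, -1; N, 0] F z = F (-1 / (N * z)) / (N * z) ^ 2 :=
    fun F z => by simp [sk, act_of, mob, den]
  have z0 : ∀ z : ℂ, 0 < z.im → z ≠ 0 := fun z hz e => by simp [e] at hz
  have := (nrm_fricke hN0).sk_Tl hl hN hG hz
  rw [Tl_congr (G' := fun z => c / N ^ 2 * G z) hl (fun z hz => by
    have := z0 z hz
    rw [s, h z hz]
    field_simp) hz, Tl_smul, s, div_eq_iff (pow_ne_zero _ (mul_ne_zero N1 (z0 z hz)))] at this
  rw [this]
  field_simp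

/-- Multiplicity one: finitely many Hecke relations give all of them. -/
theorem mult_one (hN : Idx N μ) (hm : 2 * μ < 12 * m) (hG : Mk N 2 G) {cs : ℤ⟦X⟧}
    (hq : QE G (toC cs)) (c0 : coeff 0 cs = 0) (c1 : coeff 1 cs = 1)
    (chk : ∀ l < m, l.Prime → ∀ n < m, coeff n (tS N l cs) = coeff l cs * coeff n cs)
    (hl : l.Prime) (n : ℕ) : coeff n (tS N l cs) = coeff l cs * coeff n cs := by
  have key : ∀ l : ℕ, l.Prime → (∀ n < m, coeff n (tS N l cs) = coeff l cs * coeff n cs) →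
      ∀ n, coeff n (tS N l cs) = coeff l cs * coeff n cs := fun l hl h n => by
    have e : toC (tS N l cs) = toC (C (coeff l cs) * cs) := by
      have h1 : QE (fun z => ((coeff l cs : ℤ) : ℂ) * G z) (toC (C (coeff l cs) * cs)) := by
        simpa using hq.smul ((coeff l cs : ℤ) : ℂ)
      refine Mk.eq_of_coeff hN (hG.Tl hl) (hG.smul _) (toC_tS N l cs ▸ qe_Tl hl hq) h1 hm
        fun n hn => ?_
      rw [coeff_map, coeff_map, h n hn, coeff_C_mul]
    rw [toC_inj e, coeff_C_mul]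
  by_cases hlm : l < m
  · exact key l hl (chk l hlm hl) n
  refine key l hl (fun n hn => ?_) n
  have h1 : ∀ n, n < m → coeff (l * n) cs = coeff l cs * coeff n cs := fun n => by
    induction n using Nat.strong_induction_on with
    | _ n ih =>
      intro hn
      rcases eq_or_ne n 0 with rfl | n0
      · simp only [mul_zero, c0]
      rcases eq_or_ne n 1 with rfl | n1
      · simp only [mul_one, c1]
      obtain ⟨r, hr, j, rfl⟩ := Nat.exists_prime_and_dvd n1
      have j0 : 0 < j := Nat.pos_of_mul_pos_left (Nat.pos_of_ne_zero n0)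
      have j1 : j < r * j := (Nat.lt_mul_iff_one_lt_left j0).2 hr.one_lt
      have r1 : r < m := (Nat.le_mul_of_pos_right r j0).trans_lt hn
      have cop : r.Coprime l := (Nat.coprime_primes hr hl).2 (by omega)
      have e1 := key r hr (chk r r1 hr) (l * j)
      have e2 := key r hr (chk r r1 hr) j
      rw [coeff_tS] at e1 e2
      rw [ih j j1 (j1.trans hn), mul_left_comm] at e1
      simp only [cop.dvd_mul_left] at e1
      split_ifs at e1 e2 with d
      · have j2 : j / r < r * j := (Nat.div_le_self j r).trans_lt j1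
        rw [Nat.mul_div_assoc l d.1, ih _ j2 (j2.trans hn)] at e1
        linear_combination e1 - coeff l cs * e2
      · linear_combination e1 - coeff l cs * e2
  rw [coeff_tS, h1 n hn]
  split_ifs with d
  · obtain rfl : n = 0 := Nat.eq_zero_of_dvd_of_lt d.1 (by omega)
    simp [c0]
  · rw [add_zero]

/-- The same with the first coefficients given by a function. -/
theorem mult_one' (hN : Idx N μ) (hm : 2 * μ < 12 * m) (hG : Mk N 2 G) {cs : ℤ⟦X⟧}
    (hq : QE G (toC cs)) {a : ℕ → ℤ} {L : ℕ} (ha : ∀ n < L, coeff n cs = a n) (hL : 1 < L)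
    (c0 : a 0 = 0) (c1 : a 1 = 1)
    (chk : ∀ l < m, l.Prime → ∀ n < m, l * n < L ∧ l < L ∧
      a (l * n) + (if l ∣ n ∧ ¬ l ∣ N then l * a (n / l) else 0) = a l * a n)
    (hl : l.Prime) (n : ℕ) : coeff n (tS N l cs) = coeff l cs * coeff n cs := by
  refine mult_one hN hm hG hq ((ha 0 (by omega)).trans c0) ((ha 1 hL).trans c1)
    (fun l h1 hl n h2 => ?_) hl n
  obtain ⟨h3, h4, h5⟩ := chk l h1 hl n h2
  have h6 : n < L := (Nat.le_mul_of_pos_left n hl.pos).trans_lt h3
  rw [coeff_tS, ha _ h3, ha _ h4, ha _ h6, ha _ ((Nat.div_le_self n l).trans_lt h6), h5]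

/-- The form of the relation in the interface. -/
theorem hT_of_tS {cs : ℤ⟦X⟧} (hN : ¬ l ∣ N) {n : ℕ}
    (h : coeff n (tS N l cs) = coeff l cs * coeff n cs) :
    coeff (l * n) cs + (if l ∣ n then l * coeff (n / l) cs else 0) = coeff l cs * coeff n cs := by
  simpa only [coeff_tS, hN, not_false_eq_true, and_true] using h

end Pool.Agent.B5
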