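import Pool.Agent.Lib.MP_696deb_nt.B5.Q0
import Pool.Agent.Lib.MP_696deb_nt.B5.MH1

/-! Certificates of modularity: definitions. -/

set_option autoImplicit false

open PowerSeries

namespace Pool.Agent.B5

open Pool.Agent.Lib.MP_696deb_nt Pool.Agent.B4.GE

/-- Combinations of eta quotients. -/
noncomputable def e0 (p q : ℕ) (L : List (ℤ × V4)) (z : ℂ) : ℂ :=
  (L.map fun t => (t.1 : ℂ) * uq p q t.2 z).sum

/-- Sums of products of an eta quotient and an Eisenstein series. -/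
noncomputable def e2 (p q : ℕ) (T : List (V4 × V4)) (z : ℂ) : ℂ :=
  (T.map fun t => uq p q t.1 z * El p q t.2 z).sum

/-- The shifted order at infinity. -/
def jj (p q M : ℕ) (s : V4) : ℕ := (M + s.o1 p q / 12).toNat

/-- The expansion of `e0`. -/
noncomputable def S0 (p q : ℕ) (L : List (ℤ × V4)) : ℤ⟦X⟧ :=
  (L.map fun t => C t.1 * (X ^ jj p q 0 t.2 * uS p q t.2)).sum

/-- The expansion of `e2`, shifted by `M`. -/
noncomputable def S2 (p q M : ℕ) (T : List (V4 × V4)) : ℤ⟦X⟧ :=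
  (T.map fun t => X ^ jj p q M t.1 * uS p q t.1 * ES p q t.2).sum

/-- The modular derivative relative to `s0`, times twelve. -/
def dd (s0 : V4) (L : List (ℤ × V4)) : List (V4 × V4) := L.map fun t => (t.2, (t.2.sb s0).sm t.1)

/-- The constant in the involution of Fricke, times `(p q) ^ K`. -/
def kN (p q K : ℕ) (s : V4) : ℤ := p ^ (K + s.x + s.z).toNat * q ^ (K + s.x + s.y).toNat

/-- The constant in the involution at `q`, times `q ^ K`. -/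
def kq (p q K : ℕ) (a b c d : ℤ) (s : V4) : ℤ :=
  (if s.eps p q a b c d = 0 then 1 else -1) * q ^ (K - s.z - s.w).toNat

/-- The involution of Fricke on combinations of eta quotients. -/
def tN0 (p q K : ℕ) (L : List (ℤ × V4)) : List (ℤ × V4) :=
  L.map fun t => (t.1 * kN p q K t.2, t.2.sN)

/-- The involution of Fricke in weight two. -/
def tN2 (p q K : ℕ) (T : List (V4 × V4)) : List (V4 × V4) :=
  T.map fun t => (t.1.sN, t.2.sN.sm (kN p q K t.1))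

/-- The involution at `q` in weight two. -/
def tq2 (p q K : ℕ) (a b c d : ℤ) (T : List (V4 × V4)) : List (V4 × V4) :=
  T.map fun t => (t.1.sq, t.2.sq.sm (kq p q K a b c d t.1))

/-- Conditions on holomorphic eta quotients of weight `k`. -/
def Ok0 (p q k K : ℕ) (L : List (ℤ × V4)) : Prop :=
  ∀ t ∈ L, t.2.Adm p q k ∧ t.2.Pos p q ∧ 0 ≤ K + t.2.x + t.2.z ∧ 0 ≤ K + t.2.x + t.2.y

/-- Conditions on the terms of the newform. -/
def Ok2 (p q M K : ℕ) (a b c d : ℤ) (T : List (V4 × V4)) : Prop :=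
  ∀ t ∈ T, t.1.Adm p q 0 ∧ t.2.wt = 0 ∧ 0 ≤ 12 * M + t.1.o1 p q ∧ 0 ≤ 12 * M + t.1.sq.o1 p q ∧
    12 ∣ t.1.sq.o1 p q ∧ (t.1.eps p q a b c d = 0 ∨ t.1.eps p q a b c d = 6) ∧
    0 ≤ K + t.1.x + t.1.z ∧ 0 ≤ K + t.1.x + t.1.y ∧ 0 ≤ K - t.1.z - t.1.w

instance (p q k K : ℕ) (L : List (ℤ × V4)) : Decidable (Ok0 p q k K L) := by
  unfold Ok0; infer_instance

instance (p q M K : ℕ) (a b c d : ℤ) (T : List (V4 × V4)) : Decidable (Ok2 p q M K a b c d T) := by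
  unfold Ok2; infer_instance

/-- The data of a certificate. -/
structure Cert where
  p : ℕ
  q : ℕ
  a : ℤ
  b : ℤ
  c : ℤ
  d : ℤ
  ea : ℤ
  eb : ℤ
  D : ℤ
  β : ℤ
  γ : ℤ
  M : ℕ
  K : ℕ
  k : ℕ
  m : ℕ
  n : ℕ
  L : ℕ
  j : ℕ
  s0 : V4
  cl : List ℤ
  T : List (V4 × V4)
  LA : List (ℤ × V4)
  LB : List (ℤ × V4)

namespace Cert

variable (c : Cert)

/-- The first coefficients of the newform. -/
def co (i : ℕ) : ℤ := c.cl.getD i 0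

/-- The finite conditions. -/
def Fin : Prop :=
  c.q * c.a * c.d - c.p * c.b * c.c = 1 ∧ c.eb ≠ 0 ∧ c.D ≠ 0 ∧ c.β ≠ 0 ∧ c.γ ≠ 0 ∧ Even c.k ∧
  c.s0.wt = c.k ∧ Ok2 c.p c.q c.M c.K c.a c.b c.c c.d c.T ∧ Ok0 c.p c.q c.k c.K c.LA ∧
  Ok0 c.p c.q c.k c.K c.LB ∧
  (tN2 c.p c.q c.K c.T).Perm (c.T.map fun t => (t.1, t.2.sm (-(c.p * c.q) ^ c.K))) ∧
  2 * ((c.p + 1) * (c.q + 1)) < 12 * c.m ∧ (4 * c.k + 4) * ((c.p + 1) * (c.q + 1)) < 12 * c.n ∧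
  c.n ≤ c.L ∧ 1 < c.L ∧ c.co 0 = 0 ∧ c.co 1 = 1 ∧
  ∀ l < c.m, l.Prime → ∀ n < c.m, l * n < c.L ∧ l < c.L ∧
    c.co (l * n) + (if l ∣ n ∧ ¬ l ∣ c.p * c.q then l * c.co (n / l) else 0) = c.co l * c.co n

instance : Decidable c.Fin := by unfold Fin; infer_instance

/-- The congruences of power series. -/
structure Ser : Prop where
  f : X ^ (c.L + c.M) ∣ S2 c.p c.q c.M c.T - C c.D * X ^ c.M * PowerSeries.mk c.co
  fq : X ^ (c.M + 1) ∣ S2 c.p c.q c.M (tq2 c.p c.q c.K c.a c.b c.c c.d c.T)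
  A : X ^ 1 ∣ S0 c.p c.q c.LA - C (-2 * c.β)
  B : X ^ 2 ∣ S0 c.p c.q c.LB - C c.β * X ^ 1
  AW : X ^ (c.j + 1) ∣ S0 c.p c.q (tN0 c.p c.q c.K c.LA)
  BW : X ^ (c.j + 1) ∣ S0 c.p c.q (tN0 c.p c.q c.K c.LB) - C c.γ * X ^ c.j
  ode : X ^ c.n ∣ C 4 * (S2 c.p c.q 0 (dd c.s0 c.LA) * S0 c.p c.q c.LB -
      S0 c.p c.q c.LA * S2 c.p c.q 0 (dd c.s0 c.LB)) ^ 2 - C 144 * PowerSeries.mk c.co ^ 2 *
      ((S0 c.p c.q c.LA ^ 2 - C c.ea * S0 c.p c.q c.LB ^ 2) ^ 2 - C (4 * c.eb) * S0 c.p c.q c.LB ^ 4)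

end Cert

end Pool.Agent.B5
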