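import Pool.Agent.Lib.MP_696deb_nt.B5.K0
import Pool.Agent.Lib.MP_696deb_nt.B5.Q2
import Pool.Agent.Lib.MP_696deb_nt.B5.Q4

/-! The checker for congruences between eta quotients and Eisenstein series. -/

set_option autoImplicit false

open PowerSeries Finset

namespace Pool.Agent.B5

open Pool.Agent.Lib.MP_696deb_nt

variable {n t d K p q : ℕ} {F : ℤ⟦X⟧}

/-- The first terms of the series of Euler in `X ^ d`. -/
def pE (d : ℕ) : ℕ → E
  | 0 => .c 0
  | k + 1 => .add (pE d k) (.mul (.c (if k % 2 = 0 then 1 else -1))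
      (.add (.x (d * (k * (3 * k + 1) / 2))) (.mul (.c (-1)) (.x (d * ((k + 1) * (3 * k + 2) / 2))))))

/-- The first terms of a series in `X ^ d` with given coefficients. -/
def cE (a : ℕ → ℤ) (d : ℕ) : ℕ → E
  | 0 => .c 0
  | k + 1 => .add (cE a d k) (.mul (.c (a k)) (.x (d * k)))

/-- Partial sums of divisors. -/
def sgA (i : ℕ) : ℕ → ℕ
  | 0 => 0
  | k + 1 => if i % (k + 1) = 0 then sgA i k + (k + 1) else sgA i k

/-- The iteration of Newton for the inverse. -/
def nw (m a : ℕ) : ℕ → ℕ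
  | 0 => 1
  | k + 1 => st (nw m a k) fun y => y * (2 + m - a * y % m) % m

theorem sgA_eq (i k : ℕ) : sgA i k = ∑ j ∈ Ico 1 (k + 1) with j ∣ i, j := by
  induction k with
  | zero => simp [sgA]
  | succ k ih =>
    rw [sgA, ih, sum_filter, sum_filter, sum_Ico_succ_top (by omega : 1 ≤ k + 1)]
    simp only [Nat.dvd_iff_mod_eq_zero]
    split_ifs <;> simp

theorem coeff_Sg (i : ℕ) : coeff i Sg = sgA i i := by
  rw [Sg, coeff_mk, ArithmeticFunction.sigma_one_apply, sgA_eq, Nat.divisors, Ico_add_one_right_eq_Icc]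

theorem sgA_le (i k : ℕ) : sgA i k ≤ k * k := by
  induction k with
  | zero => simp [sgA]
  | succ k ih => rw [sgA]; split_ifs <;> nlinarith

theorem ser_cE (a : ℕ → ℤ) (σ : ℕ → ℤ⟦X⟧) (K : ℕ) :
    (cE a d K).ser σ = ∑ k ∈ range K, C (a k) * X ^ (d * k) := by
  induction K with
  | zero => simp [cE, E.ser]
  | succ k ih => simp only [cE, E.ser, ih, sum_range_succ]

theorem dvd_cE (hd : d ≠ 0) {a : ℕ → ℤ} (ha : ∀ i, coeff i F = a i) (h : n ≤ d * K)
    (σ : ℕ → ℤ⟦X⟧) : X ^ n ∣ ex d F - (cE a d K).ser σ := X_pow_dvd_iff.2 fun j hj => by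
  rw [ser_cE, map_sub, map_sum, ex, coeff_mk, sub_eq_zero]
  simp only [coeff_C_mul, coeff_X_pow]
  split_ifs with h1
  · obtain ⟨k, rfl⟩ := h1
    rw [Nat.mul_div_cancel_left _ (by omega), ha, sum_eq_single_of_mem k
      (mem_range.2 (lt_of_mul_lt_mul_left (hj.trans_le h) d.zero_le)) fun i _ hi => by
        rw [if_neg fun e => hi (Nat.eq_of_mul_eq_mul_left (by omega) e).symm, mul_zero]]
    simp
  · exact (sum_eq_zero fun i _ => by rw [if_neg fun e => h1 ⟨i, e⟩, mul_zero]).symm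

theorem pent_neg (k : ℕ) : pentagonal (-k) = k * (3 * k + 1) / 2 := by
  have := two_mul_natCast_pentagonal_neg k
  have h : 2 * pentagonal (-k) = k * (3 * k + 1) := by exact_mod_cast this
  omega

theorem pent_succ (k : ℕ) : pentagonal (k + 1) = (k + 1) * (3 * k + 2) / 2 := by
  have := two_mul_natCast_pentagonal (k + 1)
  have h : 2 * pentagonal (k + 1) = (k + 1) * (3 * k + 2) := by
    zify; linear_combination this
  omega

theorem dvd_P1 (h : 2 * n ≤ K * (3 * K + 1)) : X ^ n ∣ P1 - ∑ k ∈ range K,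
    (-1) ^ k * (X ^ pentagonal (-k) - X ^ pentagonal (k + 1)) := X_pow_dvd_iff.2 fun j hj => by
  open scoped PowerSeries.WithPiTopology in
  have h1 := (WithPiTopology.hasSum_pow_pentagonal_sub_pentagonalSeries ℤ).map (coeff j)
    (WithPiTopology.continuous_coeff ℤ j)
  rw [map_sub, map_sum, sub_eq_zero]
  refine h1.unique (hasSum_sum_of_ne_finset_zero fun k hk => ?_)
  have h2 : K ≤ k := by simpa using hk
  have h3 : K * (3 * K + 1) ≤ k * (3 * k + 1) := by gcongr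
  have h4 : k * (3 * k + 1) ≤ (k + 1) * (3 * k + 2) := by gcongr <;> omega
  have h5 : X ^ n ∣ ((-1) ^ k * (X ^ pentagonal (-k) - X ^ pentagonal (k + 1)) : ℤ⟦X⟧) :=
    (dvd_sub (pow_dvd_pow _ (by rw [pent_neg]; omega))
      (pow_dvd_pow _ (by rw [pent_succ]; omega))).mul_left _
  exact X_pow_dvd_iff.1 h5 j hj

theorem dvd_pE (hd : d ≠ 0) (h : 2 * n ≤ K * (3 * K + 1)) (σ : ℕ → ℤ⟦X⟧) :
    X ^ n ∣ ex d P1 - (pE d K).ser σ := by
  have h1 : (pE d K).ser σ = expand d hd (∑ k ∈ range K,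
      (-1) ^ k * (X ^ pentagonal (-k) - X ^ pentagonal (k + 1))) := by
    clear h
    induction K with
    | zero => simp [pE, E.ser]
    | succ k ih =>
      simp only [pE, E.ser, ih, sum_range_succ, map_add, map_mul, map_pow, map_sub, map_neg,
        map_one, expand_X, pent_neg, pent_succ, ← pow_mul]
      rcases Nat.even_or_odd k with e | e
      · rw [if_pos (Nat.even_iff.1 e), e.neg_one_pow, map_one]; ring
      · rw [if_neg (by have := Nat.odd_iff.1 e; omega), e.neg_one_pow, map_neg, map_one]; ring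
  obtain ⟨R, hR⟩ := dvd_P1 h
  rw [h1, ex_eq hd, ← map_sub, hR, map_mul, map_pow, expand_X, ← pow_mul]
  exact (pow_dvd_pow _ (Nat.le_mul_of_pos_left _ (by omega))).mul_right _

theorem wn_le {c : ℝ} (hc : 0 ≤ c) (h : ∀ j, |((coeff (j + 1) F : ℤ) : ℝ)| ≤ c * 2 ^ (j + 1)) :
    wn n F ≤ |((coeff 0 F : ℤ) : ℝ)| + c := by
  have h1 : ∀ n, wn (n + 1) F ≤ |((coeff 0 F : ℤ) : ℝ)| + c - c / 2 ^ n := fun n => by
    induction n with
    | zero => simp [wn]
    | succ n ih =>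
      have h2 : |((coeff (n + 1) F : ℤ) : ℝ)| / 4 ^ (n + 1) ≤ c / 2 ^ (n + 1) := by
        rw [div_le_div_iff₀ (by positivity) (by positivity), show (4 : ℝ) = 2 * 2 by norm_num,
          mul_pow, ← mul_assoc]
        gcongr
        exact h n
      have h3 : c / 2 ^ n = c / 2 ^ (n + 1) + c / 2 ^ (n + 1) := by field_simp; ring
      rw [wn, sum_range_succ, ← wn]
      linarith
  cases n with
  | zero => simp only [wn, range_zero, sum_empty]; positivity
  | succ n => exact (h1 n).trans (sub_le_self _ (by positivity))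

theorem abs_P1 (d j : ℕ) : |((coeff j (ex d P1) : ℤ) : ℝ)| ≤ 1 := by
  rw [ex, coeff_mk, P1, pentagonalSeries, coeff_mk]
  split_ifs with h1 h2
  · rcases Int.units_eq_one_or h2.choose.negOnePow with e | e <;> rw [e] <;> simp
  · simp
  · simp

theorem half_le (j : ℕ) : (1 : ℝ) ≤ 1 / 2 * 2 ^ (j + 1) := by
  have : (1 : ℝ) ≤ 2 ^ j := one_le_pow₀ (by norm_num)
  rw [pow_succ]; linarith

theorem wn_P1 : wn n (ex d P1) ≤ 2 := by
  have := wn_le (n := n) (by norm_num) fun j => (abs_P1 d (j + 1)).trans (half_le j)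
  linarith [abs_P1 d 0]

theorem ex_inv (hd : d ≠ 0) : ex d P1 * ex d PI = 1 := by
  rw [ex_eq hd, ex_eq hd, ← map_mul, P1_mul_PI, map_one]

theorem wn_PI (hd : d ≠ 0) : wn n (ex d PI) ≤ 2 := by
  have h1 : wn n (1 - ex d P1) ≤ |((coeff 0 (1 - ex d P1) : ℤ) : ℝ)| + 1 / 2 :=
    wn_le (by norm_num) fun j => by
      simpa [coeff_one] using (abs_P1 d (j + 1)).trans (half_le j)
  have h0 : coeff 0 (1 - ex d P1) = 0 := by simp [ex, cc_P1]
  have h2 : ex d PI = monomial 0 1 + (1 - ex d P1) * ex d PI := by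
    rw [monomial_zero_eq_C_apply, map_one]; linear_combination ex_inv hd
  have h3 := wn_add (n := n) (F := monomial 0 1) (G := (1 - ex d P1) * ex d PI)
  have h4 := wn_mul (n := n) (F := 1 - ex d P1) (G := ex d PI)
  have h5 := wn_mono (n := n) 0 1
  have h6 := wn_nonneg (n := n) (F := ex d PI)
  rw [← h2] at h3
  simp only [h0, Int.cast_zero, abs_zero, Int.cast_one, abs_one] at h1 h5
  nlinarith

theorem wn_Sg : wn n (ex d Sg) ≤ 2 := by
  have h1 : ∀ j : ℕ, j * j ≤ 2 * 2 ^ j := fun j => by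
    induction j with
    | zero => simp
    | succ j ih =>
      rcases Nat.lt_or_ge j 3 with h | h
      · interval_cases j <;> simp
      · rw [pow_succ]; nlinarith
  have := wn_le (n := n) (F := ex d Sg) (c := 2) (by norm_num) fun j => by
    rw [ex, coeff_mk]
    split_ifs
    · have h2 := Nat.div_le_self (j + 1) d
      rw [coeff_Sg, Int.cast_natCast, Nat.abs_cast]
      exact_mod_cast (sgA_le _ _).trans ((Nat.mul_le_mul h2 h2).trans (h1 _))
    · simp
  simpa [ex, coeff_Sg, sgA] using this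

theorem wn_sq (h : wn n F ≤ 2) : wn n (F ^ 2) ≤ 4 := by
  rw [sq]
  exact wn_mul.trans (by nlinarith [wn_nonneg (n := n) (F := F)])

/-- The values of the three basic series in `X ^ d`. -/
def base (n t m d : ℕ) (f : ℕ → ℕ → ℕ → Bool) : Bool :=
  st ((pE d 30).val n t m fun _ => 0) fun a => st (nw m a 10) fun b => a * b % m == 1 &&
    st (a * a % m) fun a2 => st (b * b % m) fun b2 =>
      st ((cE (fun i => sgA i i) d (n / d + 1)).val n t m fun _ => 0) fun s => f a2 b2 s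

theorem base_spec (ht : t ≠ 0) (hd : d ≠ 0) (hn : n ≤ 1000) {f : ℕ → ℕ → ℕ → Bool}
    (h : base n t (t ^ n) d f = true) : ∃ a b s, Rv n t (ex d P1 ^ 2) a ∧ Rv n t (ex d PI ^ 2) b ∧
      Rv n t (ex d Sg) s ∧ f a b s = true := by
  simp only [base, st_eq, Bool.and_eq_true, beq_iff_eq] at h
  have h1 := (rv_val ht (pE d 30) (fun _ => 0) _ fun _ => Rv.zero).congr
    (dvd_pE (n := n) hd (by omega) _)
  have h2 := h1.inv (ex_inv hd) (show _ % _ = _ by rw [← h.1, Nat.mod_mod])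
  refine ⟨_, _, _, ?_, ?_, (rv_val ht _ (fun _ => 0) _ fun _ => Rv.zero).congr
    (dvd_cE hd coeff_Sg (Nat.lt_mul_div_succ n (by omega)).le _), h.2⟩
  · rw [sq]; exact (h1.mul h1).mod (Nat.mod_modEq _ _)
  · rw [sq]; exact (h2.mul h2).mod (Nat.mod_modEq _ _)

/-- The basic series. -/
noncomputable def env (p q i : ℕ) : ℤ⟦X⟧ :=
  [ex 1 P1 ^ 2, ex p P1 ^ 2, ex q P1 ^ 2, ex (p * q) P1 ^ 2, ex 1 PI ^ 2, ex p PI ^ 2,
    ex q PI ^ 2, ex (p * q) PI ^ 2, ex 1 Sg, ex p Sg, ex q Sg, ex (p * q) Sg].getD i 0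

/-- The check of a congruence. -/
def chk (p q n B : ℕ) (e : E) : Bool :=
  st (2 ^ B) fun t => st (t ^ n) fun m => decide (n ≤ 1000) &&
    decide (e.bd (fun _ => 4) * 4 ^ n < t) &&
    base n t m 1 fun a1 b1 s1 => base n t m p fun a2 b2 s2 => base n t m q fun a3 b3 s3 =>
      base n t m (p * q) fun a4 b4 s4 => e.val n t m
        (fun i => [a1, a2, a3, a4, b1, b2, b3, b4, s1, s2, s3, s4].getD i 0) == 0

theorem chk_dvd (hp : p ≠ 0) (hq : q ≠ 0) {B : ℕ} {e : E} (h : chk p q n B e = true) :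
    X ^ n ∣ e.ser (env p q) := by
  simp only [chk, st_eq, Bool.and_eq_true, decide_eq_true_eq] at h
  have ht : 2 ^ B ≠ 0 := by positivity
  have hN := mul_ne_zero hp hq
  obtain ⟨⟨hn, hb⟩, h⟩ := h
  obtain ⟨a1, b1, s1, u1, v1, w1, h⟩ := base_spec ht one_ne_zero hn h
  obtain ⟨a2, b2, s2, u2, v2, w2, h⟩ := base_spec ht hp hn h
  obtain ⟨a3, b3, s3, u3, v3, w3, h⟩ := base_spec ht hq hn h
  obtain ⟨a4, b4, s4, u4, v4, w4, h⟩ := base_spec ht hN hn h
  refine Rv.dvd ?_ (wn_bd e _ _ fun i => ?_) hb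
  · rw [← beq_iff_eq.1 h]
    refine rv_val ht e _ _ fun i => ?_
    rcases i with _ | _ | _ | _ | _ | _ | _ | _ | _ | _ | _ | _ | i
    exacts [u1, u2, u3, u4, v1, v2, v3, v4, w1, w2, w3, w4, Rv.zero]
  · have k : ∀ d, wn n (ex d Sg) ≤ 4 := fun d => wn_Sg.trans (by norm_num)
    rw [Nat.cast_ofNat]
    rcases i with _ | _ | _ | _ | _ | _ | _ | _ | _ | _ | _ | _ | i
    exacts [wn_sq wn_P1, wn_sq wn_P1, wn_sq wn_P1, wn_sq wn_P1, wn_sq (wn_PI one_ne_zero),
      wn_sq (wn_PI hp), wn_sq (wn_PI hq), wn_sq (wn_PI hN), k _, k _, k _, k _,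
      by simp [env, wn]]

end Pool.Agent.B5
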