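import Pool.Agent.Lib.MP_696deb_nt.B5.K1

/-! The congruences of a certificate follow from a computation. -/

set_option autoImplicit false

open PowerSeries

namespace Pool.Agent.B5

open Pool.Agent.Lib.MP_696deb_nt

/-- The expression for `zp`. -/
def zE (i : ℕ) (k : ℤ) : E := .mul (.pw (.v i) k.toNat) (.pw (.v (4 + i)) (-k).toNat)

/-- The expression for `uS`. -/
def uE (s : V4) : E := .mul (.mul (.mul (zE 0 s.x) (zE 1 s.y)) (zE 2 s.z)) (zE 3 s.w)

/-- The expression for `ES`. -/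
def sE (p q : ℕ) (r : V4) : E := .add (.c (r.o1 p q)) (.mul (.c (-24)) (.add (.add (.add
  (.mul (.c r.x) (.v 8)) (.mul (.c (r.y * p)) (.v 9))) (.mul (.c (r.z * q)) (.v 10)))
  (.mul (.c (r.w * (p * q))) (.v 11))))

/-- The expression for `S0`. -/
def E0 (p q : ℕ) : List (ℤ × V4) → E
  | [] => .c 0
  | t :: L => .add (.mul (.c t.1) (.mul (.x (jj p q 0 t.2)) (uE t.2))) (E0 p q L)

/-- The expression for `S2`. -/
def E2 (p q M : ℕ) : List (V4 × V4) → E
  | [] => .c 0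
  | t :: T => .add (.mul (.mul (.x (jj p q M t.1)) (uE t.1)) (sE p q t.2)) (E2 p q M T)

/-- Differences. -/
def E.sub (a b : E) : E := .add a (.mul (.c (-1)) b)

variable {p q : ℕ} {σ : ℕ → ℤ⟦X⟧}

theorem E.ser_sub (a b : E) : (a.sub b).ser σ = a.ser σ - b.ser σ := by
  simp only [E.sub, E.ser, map_neg, map_one]; ring

theorem ex_one (A : ℤ⟦X⟧) : ex 1 A = A := by ext n; simp [ex]

theorem ser_uE (h : ∀ i < 12, σ i = env p q i) (s : V4) : (uE s).ser σ = uS p q s := by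
  simp only [uE, zE, E.ser, Nat.reduceAdd, h, Nat.reduceLT]
  rfl

theorem ser_sE (h : ∀ i < 12, σ i = env p q i) (r : V4) : (sE p q r).ser σ = ES p q r := by
  simp only [sE, E.ser, h, Nat.reduceLT, ES, env, List.getD_cons_succ, List.getD_cons_zero, ex_one,
    map_neg]
  ring

theorem ser_E0 (h : ∀ i < 12, σ i = env p q i) (L : List (ℤ × V4)) :
    (E0 p q L).ser σ = S0 p q L := by
  induction L with
  | nil => simp [E0, E.ser, S0]
  | cons t L ih => simp only [E0, E.ser, ih, ser_uE h, S0, List.map_cons, List.sum_cons]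

theorem ser_E2 (h : ∀ i < 12, σ i = env p q i) (M : ℕ) (T : List (V4 × V4)) :
    (E2 p q M T).ser σ = S2 p q M T := by
  induction T with
  | nil => simp [E2, E.ser, S2]
  | cons t L ih => simp only [E2, E.ser, ih, ser_uE h, ser_sE h, S2, List.map_cons, List.sum_cons]

theorem upd_env (h : ∀ i < 12, σ i = env p q i) {j : ℕ} (hj : 12 ≤ j) (A : ℤ⟦X⟧) :
    ∀ i < 12, upd σ j A i = env p q i := fun i hi => by rw [upd, if_neg (by omega), h i hi]

namespace Cert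

variable (c : Cert)

/-- The expression for the differential equation. -/
def odeE : E := .lt 12 (E0 c.p c.q c.LA) (.lt 13 (E0 c.p c.q c.LB) (E.sub
  (.mul (.c 4) (.pw (E.sub (.mul (E2 c.p c.q 0 (dd c.s0 c.LA)) (.v 13))
    (.mul (.v 12) (E2 c.p c.q 0 (dd c.s0 c.LB)))) 2))
  (.mul (.mul (.c 144) (.pw (cE c.co 1 c.n) 2)) (E.sub (.pw (E.sub (.pw (.v 12) 2)
    (.mul (.c c.ea) (.pw (.v 13) 2))) 2) (.mul (.c (4 * c.eb)) (.pw (.v 13) 4))))))

/-- The check of the expansion of the newform. -/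
def c1 (B : ℕ) : Bool := chk c.p c.q (c.L + c.M) B
  (E.sub (E2 c.p c.q c.M c.T) (.mul (.mul (.c c.D) (.x c.M)) (cE c.co 1 (c.L + c.M))))

/-- The checks of leading terms. -/
def c2 (B : ℕ) : Bool :=
  chk c.p c.q (c.M + 1) B (E2 c.p c.q c.M (tq2 c.p c.q c.K c.a c.b c.c c.d c.T)) &&
  chk c.p c.q 1 B (E.sub (E0 c.p c.q c.LA) (.c (-2 * c.β))) &&
  chk c.p c.q 2 B (E.sub (E0 c.p c.q c.LB) (.mul (.c c.β) (.x 1))) &&
  chk c.p c.q (c.j + 1) B (E0 c.p c.q (tN0 c.p c.q c.K c.LA)) &&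
  chk c.p c.q (c.j + 1) B (E.sub (E0 c.p c.q (tN0 c.p c.q c.K c.LB)) (.mul (.c c.γ) (.x c.j)))

/-- The check of the differential equation. -/
def c3 (B : ℕ) : Bool := chk c.p c.q c.n B c.odeE

theorem dvd_co (n : ℕ) (σ : ℕ → ℤ⟦X⟧) : X ^ n ∣ PowerSeries.mk c.co - (cE c.co 1 n).ser σ := by
  simpa only [ex_one] using dvd_cE (F := PowerSeries.mk c.co) one_ne_zero (coeff_mk · _)
    (one_mul n).ge σ

theorem ser_of (hp : c.p ≠ 0) (hq : c.q ≠ 0) {B1 B2 B3 : ℕ} (h1 : c.c1 B1 = true)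
    (h2 : c.c2 B2 = true) (h3 : c.c3 B3 = true) : c.Ser := by
  have h : ∀ i < 12, env c.p c.q i = env c.p c.q i := fun _ _ => rfl
  simp only [c2, Bool.and_eq_true] at h2
  obtain ⟨⟨⟨⟨k1, k2⟩, k3⟩, k4⟩, k5⟩ := h2
  refine ⟨?_, ?_, ?_, ?_, ?_, ?_, ?_⟩
  · have := chk_dvd hp hq h1
    simp only [E.ser_sub, E.ser, ser_E2 h] at this
    convert dvd_sub this ((c.dvd_co _ (env c.p c.q)).mul_left (C c.D * X ^ c.M)) using 1
    ring
  · simpa only [ser_E2 h] using chk_dvd hp hq k1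
  · simpa only [E.ser_sub, E.ser, ser_E0 h] using chk_dvd hp hq k2
  · simpa only [E.ser_sub, E.ser, ser_E0 h] using chk_dvd hp hq k3
  · simpa only [ser_E0 h] using chk_dvd hp hq k4
  · simpa only [E.ser_sub, E.ser, ser_E0 h] using chk_dvd hp hq k5
  · have := chk_dvd hp hq h3
    have g1 := fun A => upd_env h (le_refl 12) A
    have g2 := fun A B => upd_env (g1 A) (by norm_num : 12 ≤ 13) B
    simp only [odeE, E.ser_sub, E.ser, ser_E0 h, ser_E0 (g1 _), ser_E2 (g2 _ _), upd,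
      Nat.reduceEqDiff, if_true, if_false] at this
    obtain ⟨R, hR⟩ := c.dvd_co c.n (upd (upd (env c.p c.q) 12 (S0 c.p c.q c.LA)) 13
      (S0 c.p c.q c.LB))
    rw [sub_eq_iff_eq_add'] at hR
    rw [hR]
    convert dvd_sub this (dvd_mul_right _ (C 144 * R * (2 * PowerSeries.mk c.co - X ^ c.n * R) *
      ((S0 c.p c.q c.LA ^ 2 - C c.ea * S0 c.p c.q c.LB ^ 2) ^ 2 -
        C (4 * c.eb) * S0 c.p c.q c.LB ^ 4))) using 1
    rw [hR]
    ring

end Cert

end Pool.Agent.B5
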