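import Pool.Agent.Lib.MP_696deb_nt.B5.LTb
import Pool.Agent.Lib.MP_696deb_nt.B5.Z1

/-! The local pairing and the local Green function at a finite place. -/

set_option autoImplicit false

open Polynomial Filter Topology Complex
open scoped Classical PeriodPair NNReal

namespace Pool.Agent.G5

open Pool.Agent.Lib.MP_696deb_nt Pool.Agent.B4.GE Pool.Agent.Shared.Weier
open Pool.Agent.B5 (IntW lamV lg_mul lg_pow th_par th_mem th_neg valOf Aff Mult gl Gen)

variable {v : AbsoluteValue ℂ ℝ}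

section
variable {L : PeriodPair} {E : WeierstrassCurve ℂ}

theorem exp_eta_comm {x y : ℂ} (hx : x ∈ L.lattice) (hy : y ∈ L.lattice) :
    cexp (eta L x * y) = cexp (eta L y * x) := by
  obtain ⟨a, b, rfl⟩ := L.mem_lattice.1 hx
  obtain ⟨c, d, rfl⟩ := L.mem_lattice.1 hy
  rw [exp_eq_exp_iff_exp_sub_eq_one, eta_lattice, eta_lattice,
    show (a * eta L L.ω₁ + b * eta L L.ω₂) * (c * L.ω₁ + d * L.ω₂) -
      (c * eta L L.ω₁ + d * eta L L.ω₂) * (a * L.ω₁ + b * L.ω₂) = (a * d - b * c : ℤ) * leg L by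
        rw [leg]; push_cast; ring, Complex.exp_int_mul, exp_leg, one_zpow]

variable (v) in
/-- The logarithm of the absolute value of an exponential. -/
noncomputable def lx (x : ℂ) : ℝ := Real.log (v (cexp x))

theorem lx_add (x y : ℂ) : lx v (x + y) = lx v x + lx v y := by
  rw [lx, Complex.exp_add, lg_mul (Complex.exp_ne_zero _) (Complex.exp_ne_zero _), lx, lx]

theorem lx_zero : lx v 0 = 0 := by simp [lx]

theorem lx_neg (x : ℂ) : lx v (-x) = -lx v x := by
  have := lx_add (v := v) x (-x)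
  rw [add_neg_cancel, lx_zero] at this
  linarith

variable (v) in
/-- The quadratic form that extends the corrected local height. -/
noncomputable def Qv (h : IsPer L E) (x : ℂ) : ℝ :=
  if x ∈ L.lattice then lx v (eta L x * x) else B5.Th v h x

variable (v) in
/-- The local pairing. -/
noncomputable def bv (h : IsPer L E) (x y : ℂ) : ℝ := polar (Qv v h) x y / 2

variable (I : IntW v E) (h : IsPer L E)

theorem qv_of_notMem {x : ℂ} (hx : x ∉ L.lattice) : Qv v h x = B5.Th v h x := if_neg hx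

theorem qv_of_mem {x : ℂ} (hx : x ∈ L.lattice) : Qv v h x = lx v (eta L x * x) := if_pos hx

theorem bv_comm (x y : ℂ) : bv v h x y = bv v h y x := by rw [bv, bv, polar_comm]

include I

theorem qv_neg (x : ℂ) : Qv v h (-x) = Qv v h x := by
  by_cases hx : x ∈ L.lattice
  · rw [qv_of_mem h hx, qv_of_mem h (neg_mem hx), map_neg, neg_mul_neg]
  · rw [qv_of_notMem h hx, qv_of_notMem h (mt neg_mem_iff.1 hx), th_neg I]

theorem qv_shift {w : ℂ} (hw : w ∈ L.lattice) (t : ℂ) :
    Qv v h (w + t) = Qv v h w + Qv v h t + 2 * lx v (eta L w * t) := by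
  by_cases ht : t ∈ L.lattice
  · have e : lx v (eta L t * w) = lx v (eta L w * t) := by rw [lx, exp_eta_comm ht hw, lx]
    rw [qv_of_mem h hw, qv_of_mem h ht, qv_of_mem h (add_mem hw ht), map_add, add_mul, mul_add,
      mul_add, lx_add, lx_add, lx_add, e]
    ring
  · have e := lx_add (v := v) (eta L w * (w / 2)) (eta L w * (w / 2))
    rw [← mul_add, add_halves] at e
    rw [qv_of_mem h hw, qv_of_notMem h ht, qv_of_notMem h (add_comm t w ▸ add_notMem ht hw),
      th_mem I h hw ht, ← lx, mul_add, lx_add, e]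
    ring

theorem qv_par_mem {x : ℂ} (hx : x ∈ L.lattice) (y : ℂ) :
    Qv v h (x + y) + Qv v h (x - y) = 2 * (Qv v h x + Qv v h y) := by
  rw [sub_eq_add_neg, qv_shift I h hx, qv_shift I h hx, qv_neg I, mul_neg, lx_neg]
  ring

variable [E.IsElliptic]

theorem qv_par_gen {x y : ℂ} (h1 : x + y ∉ L.lattice) (h2 : x - y ∉ L.lattice) :
    Qv v h (x + y) + Qv v h (x - y) = 2 * (Qv v h x + Qv v h y) := by
  by_cases hx : x ∈ L.lattice
  · exact qv_par_mem I h hx y
  by_cases hy : y ∈ L.lattice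
  · rw [add_comm x, ← neg_sub, qv_neg I, qv_par_mem I h hy, add_comm]
  rw [qv_of_notMem h hx, qv_of_notMem h hy, qv_of_notMem h h1, qv_of_notMem h h2,
    th_par I h hx hy h1 h2]
  ring

theorem qv_two (y : ℂ) : Qv v h (y + y) = 4 * Qv v h y := by
  have c : ∀ a : ℂ, {t : ℂ | t + a ∈ L.lattice}.Countable := fun a =>
    (countable_lattice (L := L)).preimage_of_injOn (add_left_injective a).injOn
  obtain ⟨t, ht⟩ : ∃ t : ℂ, t ∉ ⋃ k : ℤ, {t : ℂ | t + k * y ∈ L.lattice} := by
    by_contra! H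
    exact not_countable_complex
      (Set.eq_univ_of_forall H ▸ Set.countable_iUnion fun k : ℤ => c (k * y))
  simp only [Set.mem_iUnion, not_exists, Set.mem_ofPred_eq] at ht
  have a0 : t ∉ L.lattice := by simpa using ht 0
  have a1 : t + y ∉ L.lattice := by simpa using ht 1
  have a2 : t - y ∉ L.lattice := by simpa [sub_eq_add_neg] using ht (-1)
  have a3 : t + (y + y) ∉ L.lattice := by simpa [two_mul] using ht 2
  have a4 : t - (y + y) ∉ L.lattice := by simpa [two_mul, sub_eq_add_neg] using ht (-2)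
  have b1 := qv_par_gen I h a3 a4
  have b2 := qv_par_gen I h (x := t + y) (y := y) (by rwa [add_assoc]) (by simpa using a0)
  have b3 := qv_par_gen I h (x := t - y) (y := y) (by simpa using a0) (by rwa [sub_sub])
  have b4 := qv_par_gen I h a1 a2
  rw [add_assoc, add_sub_cancel_right] at b2
  rw [sub_sub, sub_add_cancel] at b3
  linarith

theorem qv_par (x y : ℂ) : Qv v h (x + y) + Qv v h (x - y) = 2 * (Qv v h x + Qv v h y) := by
  have k : ∀ x y : ℂ, x + y ∈ L.lattice →
      Qv v h (x + y) + Qv v h (x - y) = 2 * (Qv v h x + Qv v h y) := fun x y e => by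
    have a := qv_shift I h e (-y)
    have b := qv_shift I h e (-(y + y))
    rw [add_neg_cancel_right] at a
    rw [show x + y + -(y + y) = x - y by ring, qv_neg I, qv_two I, mul_neg, mul_add, lx_neg,
      lx_add] at b
    rw [qv_neg I, mul_neg, lx_neg] at a
    linarith
  by_cases h1 : x + y ∈ L.lattice
  · exact k x y h1
  by_cases h2 : x - y ∈ L.lattice
  · have := k x (-y) (by rwa [← sub_eq_add_neg])
    rwa [sub_neg_eq_add, ← sub_eq_add_neg, qv_neg I, add_comm] at this
  exact qv_par_gen I h h1 h2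

theorem bv_add_left (x x' y : ℂ) : bv v h (x + x') y = bv v h x y + bv v h x' y := by
  rw [bv, polar_add_left (qv_par I h), add_div, bv, bv]

/-- The local pairing as a homomorphism in the first variable. -/
noncomputable def bvL (y : ℂ) : ℂ →+ ℝ :=
  AddMonoidHom.mk' (fun x => bv v h x y) fun x x' => bv_add_left I h x x' y

theorem bv_add_right (x y y' : ℂ) : bv v h x (y + y') = bv v h x y + bv v h x y' := by
  rw [bv_comm, bv_add_left I, bv_comm h y, bv_comm h y']

theorem bv_neg_left (x y : ℂ) : bv v h (-x) y = -bv v h x y := (bvL I h y).map_neg x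

theorem bv_sub_left (x x' y : ℂ) : bv v h (x - x') y = bv v h x y - bv v h x' y :=
  (bvL I h y).map_sub x x'

theorem bv_neg_right (x y : ℂ) : bv v h x (-y) = -bv v h x y := by
  rw [bv_comm, bv_neg_left I, bv_comm]

theorem bv_nat_right (x y : ℂ) (k : ℕ) : bv v h x (k * y) = k * bv v h x y := by
  rw [bv_comm, ← nsmul_eq_mul, ← nsmul_eq_mul, bv_comm h x]
  exact (bvL I h x).map_nsmul k y

theorem bv_self (x : ℂ) : bv v h x x = Qv v h x := by
  rw [bv, polar, qv_two I]
  ring

omit I [E.IsElliptic] in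
theorem qv_add (x y : ℂ) : Qv v h (x + y) = Qv v h x + Qv v h y + 2 * bv v h x y := by
  rw [bv, polar]
  ring

theorem qv_sub (x y : ℂ) : Qv v h (x - y) = Qv v h x + Qv v h y - 2 * bv v h x y := by
  rw [sub_eq_add_neg, qv_add, qv_neg I, bv_neg_right I]
  ring

omit [E.IsElliptic] in
theorem bv_mem {w : ℂ} (hw : w ∈ L.lattice) (x : ℂ) : bv v h x w = lx v (eta L w * x) := by
  rw [bv_comm, bv, polar, qv_shift I h hw]
  ring

end

variable {W : WeierstrassCurve ℚ} {N : ℕ} {P : Par W N} {β u : ℂ} {A A' V : ℂ → ℂ} {R : ℂ[X]}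
  {τ τ' : ℂ}

variable (v P) in
/-- The local Green function. -/
noncomputable def gv (u : ℂ) (V : ℂ → ℂ) (z : ℂ) : ℝ := Real.log (v (V z)) + bv v P.per (P.F z) u

variable [W.IsElliptic] (I : IntW v (W.baseChange ℂ))
include I

/-- The Green function in terms of local heights. -/
theorem gv_eq {z a : ℂ} (h0 : V z ≠ 0) (h1 : P.F z - a ∉ P.L.lattice)
    (h2 : P.F z - a - u ∉ P.L.lattice) : gv v P u V z =
    Real.log (v (V z * (sig P.L (P.F z - a) / sig P.L (P.F z - a - u)))) +
      (lamV v (P.φ z - P.per.unif a) - lamV v (P.φ z - P.per.unif a - P.per.unif u)) / 2 +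
      (bv v P.per a u + Qv v P.per u / 2) := by
  have a1 := sig_ne h1
  have a2 := sig_ne h2
  have e := qv_sub I P.per (P.F z - a) u
  rw [qv_of_notMem _ h1, qv_of_notMem _ h2, B5.Th, B5.Th, bv_sub_left I, map_sub, map_sub] at e
  rw [lg_mul h0 (div_ne_zero a1 a2), map_div₀, Real.log_div (v.pos a1).ne' (v.pos a2).ne', gv,
    Par.φ]
  linarith

theorem gl_eq_gv (g : Gen P β τ) : gl v P β A τ = gv v P (β + β) A τ := by
  have a1 : P.F τ + β ∉ P.L.lattice := fun e => one_ne_zero (g 1 (by simpa using e))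
  have a2 : P.F τ - β ∉ P.L.lattice := fun e => neg_ne_zero.2 one_ne_zero
    (g (-1) (by simpa [sub_eq_add_neg] using e))
  rw [gl, gv, ← qv_of_notMem _ a1, ← qv_of_notMem _ a2, qv_add, qv_sub I, bv_add_right I]
  ring

theorem gv_pow (k : ℕ) (z : ℂ) : gv v P (k * u) (fun z => V z ^ k) z = k * gv v P u V z := by
  rw [gv, gv, lg_pow, bv_nat_right I]
  ring

/-- The maximum principle, without any condition of general position. -/
theorem gv_le_mult (hA : Mult P β A) (hA' : Mult P (-β) A') (hR : ∀ n, v (R.coeff n) ≤ 1)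
    (e : ∀ z : ℂ, 0 < z.im → A z * A' z = R.eval (jf z)) (hτ : Aff N (valOf I.na) τ)
    (hτ' : Aff N (valOf I.na) τ') (h0 : R.eval (jf τ) ≠ 0) (h0' : A τ' ≠ 0) :
    gv v P (β + β) A τ' + Real.log (v (R.eval (jf τ))) ≤ gv v P (β + β) A τ := by
  have hz : A τ ≠ 0 := left_ne_zero_of_mul (e τ hτ.pos ▸ h0)
  have ek : ∀ k : ℕ, ∀ z : ℂ, 0 < z.im → A z ^ k * A' z ^ k = (R ^ k).eval (jf z) :=
    fun k z hz => by rw [← mul_pow, e z hz, eval_pow]
  suffices H : ∃ k : ℕ, 0 < k ∧ gv v P (k * (β + β)) (fun z => A z ^ k) τ' +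
      Real.log (v (R.eval (jf τ) ^ k)) ≤ gv v P (k * (β + β)) (fun z => A z ^ k) τ by
    obtain ⟨k, k0, H⟩ := H
    rw [gv_pow I, gv_pow I, lg_pow, ← mul_add] at H
    exact le_of_mul_le_mul_left H (by exact_mod_cast k0)
  by_cases hβ : IsOfFinAddOrder (P.per.unif β)
  · obtain ⟨k, k0, hk⟩ := isOfFinAddOrder_iff_nsmul_eq_zero.1 hβ
    rw [← map_nsmul, nsmul_eq_mul, P.per.unif_eq_zero_iff] at hk
    have m : ∀ {γ : ℂ} {B : ℂ → ℂ}, γ ∈ P.L.lattice → Mult P γ B →
        MF N fun z => B z * cexp (eta P.L (γ + γ) * P.F z) := fun {γ B} hγ hB =>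
      ⟨fun g hg z hz => by
        simp only
        rw [hB.inv g hg z hz, show eta P.L (γ + γ) * P.F (act g z) = eta P.L (γ + γ) *
          (P.F (act g z) - P.F z) + eta P.L (γ + γ) * P.F z by ring, Complex.exp_add,
          exp_eta_comm (add_mem hγ hγ) (P.inv g hg z hz), Complex.exp_neg, mul_comm _ (γ + γ),
          ← two_mul γ]
        field_simp, fun g hg => B5.le_top_mul (hB.le g hg)
          (B5.le_comp P (U := fun x => cexp (eta P.L (γ + γ) * x)) (by fun_prop) hg)⟩
    have H := B5.local_le0 P.N0 (m hk (hA.pow k)) (m (neg_mem hk) (mul_neg (k : ℂ) β ▸ hA'.pow k))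
      (B5.int_pow (V := valOf I.na) hR k) (fun z hz => by
        rw [mul_mul_mul_comm, ek k z hz, ← Complex.exp_add, ← neg_add, map_neg, neg_mul,
          add_neg_cancel, Complex.exp_zero, mul_one]) hτ hτ'
    have H' : v (A τ' ^ k * cexp (eta P.L (k * β + k * β) * P.F τ')) * v ((R ^ k).eval (jf τ)) ≤
      v (A τ ^ k * cexp (eta P.L (k * β + k * β) * P.F τ)) := by exact_mod_cast H
    have n1 := mul_ne_zero (pow_ne_zero k h0') (Complex.exp_ne_zero
      (eta P.L (k * β + k * β) * P.F τ'))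
    rw [eval_pow, ← map_mul] at H'
    have := Real.log_le_log (v.pos (mul_ne_zero n1 (pow_ne_zero k h0))) H'
    rw [lg_mul n1 (pow_ne_zero k h0), lg_mul (pow_ne_zero k h0') (Complex.exp_ne_zero _),
      lg_mul (pow_ne_zero k hz) (Complex.exp_ne_zero _)] at this
    refine ⟨k, k0, ?_⟩
    rw [gv, gv, mul_add, bv_mem I _ (add_mem hk hk), bv_mem I _ (add_mem hk hk)]
    exact this
  have m : ∀ k : ℤ, k * β ∈ P.L.lattice → k = 0 := fun k e => by_contra fun hk => hβ
    (isOfFinAddOrder_iff_zsmul_eq_zero.2 ⟨k, hk, by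
      rw [← map_zsmul, zsmul_eq_mul, P.per.unif_eq_zero_iff.2 e]⟩)
  have G : ∀ z : ℂ, ∃ k₀ : ℕ, ∀ k : ℕ, k₀ < k → Gen P (k * β) z := fun z => by
    by_cases H : ∃ j : ℤ, P.F z + j * β ∈ P.L.lattice
    · obtain ⟨j, hj⟩ := H
      refine ⟨j.natAbs, fun k hk i hi => by_contra fun i0 => ?_⟩
      have := m (i * k - j) (by convert sub_mem hi hj using 1; push_cast; ring)
      have h1 : j.natAbs = i.natAbs * k := by
        rw [← sub_eq_zero.1 this, Int.natAbs_mul, Int.natAbs_natCast]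
      have := Nat.le_mul_of_pos_left k (Int.natAbs_pos.2 i0)
      omega
    · exact ⟨0, fun k _ i hi => absurd ⟨i * k, by convert hi using 2; push_cast; ring⟩ H⟩
  obtain ⟨k₁, g₁⟩ := G τ
  obtain ⟨k₂, g₂⟩ := G τ'
  have g := g₁ (k₁ + k₂ + 1) (by omega)
  have g' := g₂ (k₁ + k₂ + 1) (by omega)
  generalize hk : k₁ + k₂ + 1 = k at g g'
  have k0 : 0 < k := by omega
  have H := B5.local_le I (β := k * β) (fun e => hβ (by
    rwa [← nsmul_eq_mul, map_nsmul, isOfFinAddOrder_nsmul, or_iff_left k0.ne'] at e)) (hA.pow k)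
    (mul_neg (k : ℂ) β ▸ hA'.pow k) (B5.int_pow (V := valOf I.na) hR k) (ek k) hτ hτ' g g'
    (by rw [eval_pow]; exact pow_ne_zero _ h0) (pow_ne_zero _ h0')
  rw [gl_eq_gv I g, gl_eq_gv I g', eval_pow, ← mul_add] at H
  exact ⟨k, k0, H⟩

end Pool.Agent.G5
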