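import Pool.Agent.Lib.MP_696deb_nt.B5.CNb
import Pool.Agent.Lib.MP_696deb_nt.B5.ZFa

/-! The logarithmic terms at a prime, at level `N`. -/

set_option autoImplicit false

open Finset NumberTheorySymbols

namespace Pool.Agent.G5

open Pool.Agent.Lib.MP_696deb_nt Tern

namespace LG

variable {N A B n p l : ℕ} {t a e M D β ρ : ℤ}

/-- The local weight at a prime of the genus character. -/
def wA (N p : ℕ) (a e : ℤ) : ℤ := if (p : ℤ) ∣ a then J(e | p) else J(N * a | p)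

theorem muW_eq (N A B : ℕ) (t a e : ℤ) : muW N B A t a e =
    (∏ p ∈ B.primeFactors, muP N p t a e) * ∏ p ∈ A.primeFactors, wA N p a e := rfl

theorem jsq (hp : p.Prime) {c : ℤ} (hc : ¬ (p : ℤ) ∣ c) : J(c | p) ^ 2 = 1 :=
  jacobiSym.sq_one (Int.isCoprime_iff_gcd_eq_one.mp
    ((Nat.prime_iff_prime_int.mp hp).irreducible.coprime_iff_not_dvd.mpr hc).symm)

theorem wA_scale (hp : p.Prime) {c : ℤ} (hc : ¬ (p : ℤ) ∣ c) (a e : ℤ) :
    wA N p (c * a) e = J(c | p) * wA N p a (c * e) := by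
  simp only [wA, (Nat.prime_iff_prime_int.mp hp).dvd_mul, hc, false_or]
  split_ifs
  · rw [jacobiSym.mul_left, ← mul_assoc, ← sq, jsq hp hc, one_mul]
  · rw [← jacobiSym.mul_left, mul_left_comm]

theorem two_N (h : n.Coprime (2 * N)) (hp : p ∈ n.primeFactors) :
    ¬ (p : ℤ) ∣ 2 ∧ ¬ (p : ℤ) ∣ N :=
  ⟨fun k => CN.not_dvd h hp (k.mul_right _), fun k => CN.not_dvd h hp (k.mul_left _)⟩

theorem wA_swap (h : n.Coprime (2 * N)) (hp : p ∈ n.primeFactors)
    (hd : (p : ℤ) ∣ t ^ 2 - 4 * N * (a * e)) : wA N p e a = J((N : ℤ) | p) * wA N p a e := by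
  have hp' := Nat.prime_of_mem_primeFactors hp
  obtain ⟨h2, hN⟩ := two_N h hp
  unfold wA
  split_ifs with k1 k2 k2
  · rw [jac_zero_of_dvd hp' k1, jac_zero_of_dvd hp' k2, mul_zero]
  · rw [jacobiSym.mul_left, ← mul_assoc, ← sq, jsq hp' hN, one_mul]
  · rw [jacobiSym.mul_left]
  · rw [jacobiSym.mul_left N a, ← mul_assoc, ← sq, jsq hp' hN, one_mul]
    refine CN.jac_of_sq hp' (k := 2) (l := t) (fun h3 =>
      ((Nat.prime_iff_prime_int.mp hp').dvd_or_dvd h3).elim hN k1) k2 h2 ?_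
    exact (dvd_neg.2 hd).trans (dvd_of_eq (by ring))

theorem scale (hn : Good N (A * B)) {c : ℤ} (hc : J(c | A * B) = 1) (t a e : ℤ) :
    muW N B A t (c * a) e = muW N B A t a (c * e) := by
  have hA := hn.sqf.of_mul_left
  have hB := hn.sqf.of_mul_right
  have h0 : ∀ p : ℕ, p.Prime → p ∣ A * B → ¬ (p : ℤ) ∣ c := fun p hp h1 h2 => by
    rw [jac_eq_prod _ hn.sqf, prod_eq_zero (Nat.mem_primeFactors.mpr ⟨hp, h1, hn.sqf.ne_zero⟩)
      (jac_zero_of_dvd hp h2)] at hc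
    exact zero_ne_one hc
  rw [jacobiSym.mul_right' c hA.ne_zero hB.ne_zero, jac_eq_prod _ hA, jac_eq_prod _ hB] at hc
  rw [muW_eq, muW_eq, ← one_mul ((∏ p ∈ _, muP N p t a _) * _), ← hc,
    mul_comm (∏ p ∈ A.primeFactors, J(c | p)), mul_mul_mul_comm, ← prod_mul_distrib,
    ← prod_mul_distrib]
  congr 1
  · exact prod_congr rfl fun p hp => muP_scale (Nat.prime_of_mem_primeFactors hp)
      (h0 p (Nat.prime_of_mem_primeFactors hp) ((Nat.dvd_of_mem_primeFactors hp).mul_left _)) ..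
  · exact prod_congr rfl fun p hp => wA_scale (Nat.prime_of_mem_primeFactors hp)
      (h0 p (Nat.prime_of_mem_primeFactors hp) ((Nat.dvd_of_mem_primeFactors hp).mul_right _)) ..

theorem swap (hn : Good N (A * B)) (hJ : J((N : ℤ) | A * B) = 1) (hD : (A : ℤ) ∣ D)
    (h : 4 * N * (a * e) = t ^ 2 - B ^ 2 * D) : muW N B A t e a = muW N B A t a e := by
  have kA := hn.sqf.of_mul_left
  have kB := hn.sqf.of_mul_right
  rw [jacobiSym.mul_right' _ kA.ne_zero kB.ne_zero, jac_eq_prod _ kA, jac_eq_prod _ kB] at hJ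
  rw [muW_eq, muW_eq, ← one_mul ((∏ p ∈ _, muP N p t a _) * _), ← hJ,
    mul_comm (∏ p ∈ A.primeFactors, J((N : ℤ) | p)), mul_mul_mul_comm, ← prod_mul_distrib,
    ← prod_mul_distrib]
  congr 1
  · exact prod_congr rfl fun p hp => muP_swap hn.cop2.coprime_mul_left hp
      (dvd_of_mem ⟨B * D, by linear_combination -h⟩ hp)
  · exact prod_congr rfl fun p hp => wA_swap (t := t) hn.cop2.coprime_mul_right hp
      (dvd_of_mem ((hD.mul_left (B ^ 2)).trans (dvd_of_eq (by linear_combination h))) hp)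

theorem sign (hn : Good N (A * B)) (hJ : J((N : ℤ) | A * B) = 1) (hD : (A : ℤ) ∣ D) (hM : M < 0)
    (h : 4 * N * M = t ^ 2 - B ^ 2 * D) :
    ∑ z ∈ M.divisorsAntidiag, muW N B A t z.1 z.2 * z.1.sign = 0 := by
  have key : ∀ z ∈ M.divisorsAntidiag,
      muW N B A t z.1 z.2 * z.1.sign + muW N B A t z.swap.1 z.swap.2 * z.swap.1.sign = 0 := by
    rintro ⟨a, e⟩ hx
    obtain ⟨rfl, -⟩ := Int.mem_divisorsAntidiag.mp hx
    simp only [Prod.swap]
    rw [swap hn hJ hD h, ← mul_add]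
    rcases mul_neg_iff.mp hM with ⟨h1, h2⟩ | ⟨h1, h2⟩ <;>
      simp [Int.sign_eq_one_of_pos, Int.sign_eq_neg_one_of_neg, h1, h2]
  exact sum_involution (fun z _ => z.swap) key (fun z hz h1 h2 => h1 (by
    simpa only [h2, add_self_eq_zero] using key z hz))
    (fun z hz => Int.swap_mem_divisorsAntidiag.mpr hz) fun z _ => rfl

theorem val (hl : l.Prime) (h : ¬ (l : ℤ) ∣ a) (i : ℕ) : padicValInt l (l ^ i * a) = i := by
  have := Fact.mk hl
  rw [padicValInt.mul (pow_ne_zero _ (mod_cast hl.ne_zero)) (by rintro rfl; simp at h),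
    padicValInt.eq_zero_of_not_dvd h, ← Nat.cast_pow, padicValInt.of_nat, padicValNat.prime_pow,
    add_zero]

theorem ex (hl : l.Prime) {x : ℤ × ℤ} (hx : x ∈ M.divisorsAntidiag) :
    ∃ (i j : ℕ) (a e : ℤ), ¬ (l : ℤ) ∣ a ∧ ¬ (l : ℤ) ∣ e ∧ x = (l ^ i * a, l ^ j * e) := by
  obtain ⟨a, e⟩ := x
  obtain ⟨rfl, h⟩ := Int.mem_divisorsAntidiag.mp hx
  obtain ⟨i, a, ha, rfl⟩ := exists_pow_mul hl (left_ne_zero_of_mul h)
  obtain ⟨j, e, he, rfl⟩ := exists_pow_mul hl (right_ne_zero_of_mul h)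
  exact ⟨i, j, a, e, ha, he, rfl⟩

/-- Twice the exponent of `l` in the contribution of `t`. -/
def vS (N A B l : ℕ) (t M : ℤ) : ℤ := ∑ z ∈ M.divisorsAntidiag,
  muW N B A t z.1 z.2 * z.1.sign * (padicValInt l z.2 - padicValInt l z.1)

theorem vS_zero (hl : l.Prime) (h : ∀ (r s : ℕ) (a e : ℤ), ¬ (l : ℤ) ∣ a → ¬ (l : ℤ) ∣ e →
    l ^ r * a * (l ^ s * e) = M →
    muW N B A t (l ^ s * a) (l ^ r * e) = muW N B A t (l ^ r * a) (l ^ s * e)) :
    vS N A B l t M = 0 := by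
  have h0 : (0 : ℤ) < l := mod_cast hl.pos
  let g : ℤ × ℤ → ℤ × ℤ := fun x => (l ^ padicValInt l x.2 * (x.1 / l ^ padicValInt l x.1),
    l ^ padicValInt l x.1 * (x.2 / l ^ padicValInt l x.2))
  have hg : ∀ {a e : ℤ} (i j : ℕ), ¬ (l : ℤ) ∣ a → ¬ (l : ℤ) ∣ e →
      g (l ^ i * a, l ^ j * e) = (l ^ j * a, l ^ i * e) := fun i j ha he => by
    simp only [g, val hl ha, val hl he, Int.mul_ediv_cancel_left _ (pow_ne_zero _ h0.ne')]
  have key : ∀ x ∈ M.divisorsAntidiag, muW N B A t x.1 x.2 * x.1.sign *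
      (padicValInt l x.2 - padicValInt l x.1) + muW N B A t (g x).1 (g x).2 * (g x).1.sign *
      (padicValInt l (g x).2 - padicValInt l (g x).1) = 0 := fun x hx => by
    obtain ⟨i, j, a, e, ha, he, rfl⟩ := ex hl hx
    simp only [hg i j ha he, val hl ha, val hl he, Int.sign_mul,
      h i j a e ha he (Int.mem_divisorsAntidiag.mp hx).1, Int.sign_eq_one_of_pos (pow_pos h0 _)]
    ring
  refine sum_involution (fun x _ => g x) key (fun x hx h1 h2 => h1 (by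
    simpa only [h2, add_self_eq_zero] using key x hx)) (fun x hx => ?_) fun x hx => ?_ <;>
    obtain ⟨i, j, a, e, ha, he, rfl⟩ := ex hl hx
  · rw [hg i j ha he]
    rw [Int.mem_divisorsAntidiag] at hx ⊢
    exact ⟨by rw [← hx.1]; ring, hx.2⟩
  · rw [hg i j ha he, hg j i ha he]

theorem vS_split (hn : Good N (A * B)) (hl : l.Prime) (hc : J((l : ℤ) | A * B) = 1) (t M : ℤ) :
    vS N A B l t M = 0 := by
  have h1 : ∀ i : ℕ, J((l : ℤ) ^ i | A * B) = 1 := fun i => by rw [jacobiSym.pow_left, hc, one_pow]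
  exact vS_zero hl fun r s a e _ _ _ => by rw [scale hn (h1 _), scale hn (h1 _), mul_left_comm]

theorem muP_zero (h : n.Coprime (2 * N)) (hp : l ∈ n.primeFactors) {r s v : ℕ} (hrs : r ≠ s)
    (hv : r + s = 2 * v) (ha : ¬ (l : ℤ) ∣ a) (he : ¬ (l : ℤ) ∣ e) (u : ℤ) :
    muP N l (l ^ v * u) (l ^ r * a) (l ^ s * e) = 0 := by
  have hl := Nat.prime_of_mem_primeFactors hp
  have := Fact.mk hl
  obtain ⟨v, rfl⟩ : ∃ w, v = w + 1 := ⟨v - 1, by omega⟩
  have ht : (l : ℤ) ∣ l ^ (v + 1) * u := (dvd_pow_self _ v.succ_ne_zero).mul_right _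
  rcases r with _ | r
  · rw [muP, if_pos ht, if_neg fun k => ha (by simpa using k.1)]
  rcases s with _ | s
  · rw [muP, if_pos ht, if_neg fun k => he (by simpa using k.2)]
  obtain ⟨h2, hN⟩ := CN.ne_zero h hl (Nat.dvd_of_mem_primeFactors hp)
  obtain ⟨v, rfl⟩ : ∃ w, v = w + 1 := ⟨v - 1, by omega⟩
  rw [← ZMod.intCast_zmod_eq_zero_iff_dvd] at ha he
  rw [pow_succ' _ (v + 1), pow_succ' _ r, pow_succ' _ s, mul_assoc, mul_assoc, mul_assoc, muP_mul]
  rcases r with _ | r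
  · obtain ⟨s, rfl⟩ : ∃ w, s = w + 1 := ⟨s - 1, by omega⟩
    refine sum_eq_zero fun k _ => ite_eq_right_iff.mpr fun hk => ?_
    obtain rfl : k = 0 := by simpa [hN, ha] using hk
    simp
  rcases s with _ | s
  · exact sum_eq_zero fun k _ => if_neg (by simpa using he)
  simpa using quadraticChar_sum_zero (F := ZMod l) fun k =>
    h2 (by simpa [k] using ringChar.Nat.cast_ringChar (R := ZMod l))

theorem wA_sym (h : n.Coprime (2 * N)) (hp : l ∈ n.primeFactors) (r s : ℕ) (ha : ¬ (l : ℤ) ∣ a)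
    (he : ¬ (l : ℤ) ∣ e) {u : ℤ} (hu : (l : ℤ) ∣ u ^ 2 - 4 * N * (a * e)) :
    wA N l (l ^ s * a) (l ^ r * e) = wA N l (l ^ r * a) (l ^ s * e) := by
  have hl := Nat.prime_of_mem_primeFactors hp
  obtain ⟨h2, hN⟩ := two_N h hp
  have k : J(N * a | l) = J(e | l) := CN.jac_of_sq hl (k := 2) (l := u) (fun h3 =>
    ((Nat.prime_iff_prime_int.mp hl).dvd_or_dvd h3).elim hN ha) he h2
    ((dvd_neg.2 hu).trans (dvd_of_eq (by ring)))
  have d : ∀ (i : ℕ) (x : ℤ), (l : ℤ) ∣ l ^ (i + 1) * x := fun i x =>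
    (dvd_pow_self _ i.succ_ne_zero).mul_right _
  rcases r with _ | r <;> rcases s with _ | s
  · rfl
  · rw [wA, wA, if_pos (d _ _), pow_zero, one_mul, one_mul, if_neg ha, k]
  · rw [wA, wA, if_pos (d _ _), pow_zero, one_mul, one_mul, if_neg ha, k]
  · rw [wA, wA, if_pos (d _ _), if_pos (d _ _), jac_zero_of_dvd hl (d _ _),
      jac_zero_of_dvd hl (d _ _)]

theorem sym (hn : Good N (A * B)) (hl : l.Prime) {r s : ℕ} (ha : ¬ (l : ℤ) ∣ a)
    (he : ¬ (l : ℤ) ∣ e) (hp : Even (r + s)) (hram : l ∣ A * B → ∃ (v : ℕ) (u : ℤ),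
      r + s = 2 * v ∧ t = l ^ v * u ∧ (l : ℤ) ∣ u ^ 2 - 4 * N * (a * e)) :
    muW N B A t (l ^ s * a) (l ^ r * e) = muW N B A t (l ^ r * a) (l ^ s * e) := by
  have k1 : ∀ {p : ℕ}, p.Prime → p ≠ l → ∀ i : ℕ, ¬ (p : ℤ) ∣ (l : ℤ) ^ i := fun hp h i k =>
    h ((Nat.prime_dvd_prime_iff_eq hp hl).mp (Int.natCast_dvd_natCast.mp
      ((Nat.prime_iff_prime_int.mp hp).dvd_of_dvd_pow k)))
  have k2 : ∀ {p : ℕ}, p.Prime → p ≠ l → J((l : ℤ) ^ s | p) = J((l : ℤ) ^ r | p) :=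
    fun {p} hp' h => by
      obtain ⟨v, hv⟩ := hp
      refine CN.jac_of_sq hp' (k := 1) (l := l ^ v) (k1 hp' h s) (k1 hp' h r)
        (by simpa using k1 hp' h 0) ⟨0, ?_⟩
      rw [← pow_add, add_comm s, hv]
      ring
  rw [muW_eq, muW_eq]
  congr 1 <;> refine prod_congr rfl fun p hp => ?_ <;>
    have hp' := Nat.prime_of_mem_primeFactors hp <;> by_cases h : p = l
  · subst h
    obtain ⟨v, u, h1, rfl, -⟩ := hram ((Nat.dvd_of_mem_primeFactors hp).mul_left _)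
    by_cases hrs : r = s
    · rw [hrs]
    · rw [muP_zero hn.cop2.coprime_mul_left hp hrs h1 ha he,
        muP_zero hn.cop2.coprime_mul_left hp (Ne.symm hrs) (by omega) ha he]
  · rw [muP_scale hp' (k1 hp' h s), muP_scale hp' (k1 hp' h r), k2 hp' h, mul_left_comm (_ ^ s)]
  · subst h
    obtain ⟨v, u, -, -, h1⟩ := hram ((Nat.dvd_of_mem_primeFactors hp).mul_right _)
    exact wA_sym hn.cop2.coprime_mul_right hp r s ha he h1
  · rw [wA_scale hp' (k1 hp' h s), wA_scale hp' (k1 hp' h r), k2 hp' h, mul_left_comm (_ ^ s)]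

theorem vS_far (hn : Good N (A * B)) (hl : l.Prime) (hN : ¬ l ∣ N) {i : ℕ} {y : ℤ}
    (ht : ¬ (l : ℤ) ^ i ∣ t) (h : 4 * N * M = t ^ 2 - (y * l ^ i) ^ 2) : vS N A B l t M = 0 := by
  have hP := Nat.prime_iff_prime_int.mp hl
  have hN' : ¬ (l : ℤ) ∣ N := fun k => hN (Int.natCast_dvd_natCast.mp k)
  obtain ⟨v, u, hu, rfl⟩ := exists_pow_mul hl (k := t) fun k => ht (k ▸ dvd_zero _)
  obtain ⟨j, rfl⟩ : ∃ j, i = v + 1 + j := Nat.exists_eq_add_of_le
    (not_le.1 fun k => ht ((pow_dvd_pow _ k).mul_right _))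
  have hw : ¬ (l : ℤ) ∣ u ^ 2 - l * (l * (y * l ^ j) ^ 2) := fun k =>
    hu (hP.dvd_of_dvd_pow ((dvd_sub_left (dvd_mul_right _ _)).mp k))
  refine vS_zero hl fun r s a e ha he hM => ?_
  have hae : ¬ (l : ℤ) ∣ N * (a * e) := fun k =>
    (hP.dvd_or_dvd k).elim hN' fun k => (hP.dvd_or_dvd k).elim ha he
  by_cases h2 : l = 2
  · have e1 : (l : ℤ) ^ (r + s + 2) * (N * (a * e)) =
        l ^ (2 * v) * (u ^ 2 - l * (l * (y * l ^ j) ^ 2)) := by
      rw [← hM] at h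
      have : (l : ℤ) ^ 2 = 4 := by rw [h2]; norm_num
      linear_combination h + l ^ r * l ^ s * (N * (a * e)) * this
    have e2 := congrArg (padicValInt l) e1
    rw [val hl hae, val hl hw] at e2
    refine sym hn hl ha he ⟨v - 1, by omega⟩ fun k => ?_
    exact absurd (h2 ▸ k) hn.oddn.not_two_dvd_nat
  · have h4 : ¬ (l : ℤ) ∣ 2 ^ 2 * (N * (a * e)) := fun k => (hP.dvd_or_dvd k).elim (fun k =>
      h2 ((Nat.prime_dvd_prime_iff_eq hl Nat.prime_two).mp
        (Int.natCast_dvd_natCast.mp (hP.dvd_of_dvd_pow k)))) hae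
    have e1 : (l : ℤ) ^ (r + s) * (2 ^ 2 * (N * (a * e))) =
        l ^ (2 * v) * (u ^ 2 - l * (l * (y * l ^ j) ^ 2)) := by
      rw [← hM] at h
      linear_combination h
    have e2 := congrArg (padicValInt l) e1
    rw [val hl h4, val hl hw] at e2
    rw [e2, mul_right_inj' (pow_ne_zero _ hP.ne_zero)] at e1
    exact sym hn hl ha he ⟨v, by omega⟩ fun _ =>
      ⟨v, u, e2, rfl, l * (y * l ^ j) ^ 2, by linear_combination -e1⟩

theorem abs_jac (a : ℤ) (b : ℕ) : |J(a | b)| ≤ 1 := by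
  rcases jacobiSym.trichotomy a b with h | h | h <;> simp [h]

theorem abs_muW (hB : Squarefree B) (t a e : ℤ) : |muW N B A t a e| ≤ B := by
  have h1 : |∏ p ∈ B.primeFactors, muP N p t a e| ≤ B := by
    rw [abs_prod]
    refine (prod_le_prod (fun _ _ => abs_nonneg _) fun p hp => ?_).trans
      (le_of_eq (by rw [← Nat.cast_prod, Nat.prod_primeFactors_of_squarefree hB]))
    unfold muP
    split_ifs
    · refine (abs_sum_le_sum_abs _ _).trans ((sum_le_card_nsmul _ _ 1 fun k _ => ?_).trans (by simp))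
      split_ifs
      · exact abs_jac _ _
      · simp
    · simp
    · exact (abs_jac _ _).trans (by exact_mod_cast (Nat.prime_of_mem_primeFactors hp).pos)
  have h2 : |∏ p ∈ A.primeFactors, wA N p a e| ≤ 1 := by
    rw [abs_prod]
    refine prod_le_one (fun _ _ => abs_nonneg _) fun p _ => ?_
    unfold wA
    split_ifs <;> exact abs_jac _ _
  rw [muW_eq, abs_mul]
  exact (mul_le_of_le_one_right (abs_nonneg _) h2).trans h1

theorem vS_le (hB : Squarefree B) (hl : l.Prime) {i k : ℕ} {K : ℤ} (h0 : K ≠ 0) (hk : |K| ≤ k)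
    (h : M ∣ l ^ (2 * i) * K) :
    |vS N A B l t M| ≤ B * (2 * k + 1) * ((k + 2) * (i + 1)) ^ 2 := by
  have hP := Nat.prime_iff_prime_int.mp hl
  have h1 : ∀ {r s : ℕ} {a e : ℤ}, ((l : ℤ) ^ r * a, (l : ℤ) ^ s * e) ∈ M.divisorsAntidiag →
      r + s ≤ 2 * i + k := fun {r s a e} hx => by
    by_contra k1
    have k2 : (l : ℤ) ^ (2 * i + k) ∣ l ^ (2 * i) * K := (pow_dvd_pow _ (not_le.1 k1).le).trans
      (Dvd.dvd.trans ⟨a * e, by rw [← (Int.mem_divisorsAntidiag.mp hx).1]; ring⟩ h)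
    rw [pow_add, mul_dvd_mul_iff_left (pow_ne_zero _ hP.ne_zero)] at k2
    have k3 := (Int.le_of_dvd (abs_pos.2 h0) ((dvd_abs _ _).2 k2)).trans hk
    exact absurd (Nat.lt_pow_self hl.one_lt (n := k)) (not_lt.2 (by exact_mod_cast k3))
  have h2 : M.divisorsAntidiag ⊆ (range (2 * i + k + 1) ×ˢ Icc (-(k : ℤ)) k).image
      fun y => ((l : ℤ) ^ y.1 * y.2, M / (l ^ y.1 * y.2)) := fun x hx => by
    obtain ⟨r, s, a, e, ha, he, rfl⟩ := ex hl hx
    obtain ⟨k1, k2⟩ := Int.mem_divisorsAntidiag.mp hx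
    have k3 : a ∣ K := (hP.irreducible.coprime_iff_not_dvd.mpr ha).symm.pow_right.dvd_of_dvd_mul_left
      (Dvd.dvd.trans ⟨l ^ r * (l ^ s * e), by rw [← k1]; ring⟩ h)
    refine mem_image.2 ⟨(r, a), mem_product.2 ⟨mem_range.2 (by have := h1 hx; omega),
      mem_Icc.2 (abs_le.1 ((Int.le_of_dvd (abs_pos.2 h0) ((abs_dvd_abs _ _).2 k3)).trans hk))⟩, ?_⟩
    rw [← k1, Int.mul_ediv_cancel_left _ (left_ne_zero_of_mul (k1 ▸ k2))]
  have h3 : (M.divisorsAntidiag.card : ℤ) ≤ (2 * i + k + 1) * (2 * k + 1) := by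
    have k1 := (card_le_card h2).trans card_image_le
    rw [card_product, card_range, Int.card_Icc, show (k + 1 - -(k : ℤ)).toNat = 2 * k + 1 by
      omega] at k1
    exact_mod_cast k1
  have h4 : ∀ x ∈ M.divisorsAntidiag, |muW N B A t x.1 x.2 * x.1.sign *
      (padicValInt l x.2 - padicValInt l x.1)| ≤ B * (2 * i + k + 1) := fun x hx => by
    obtain ⟨r, s, a, e, ha, he, rfl⟩ := ex hl hx
    have k1 := h1 hx
    rw [abs_mul, abs_mul, val hl ha, val hl he]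
    refine mul_le_mul ((mul_le_of_le_one_right (abs_nonneg _) ?_).trans (abs_muW hB _ _ _))
      (abs_le.2 ⟨by omega, by omega⟩) (abs_nonneg _) (Nat.cast_nonneg _)
    rcases Int.sign_trichotomy ((l : ℤ) ^ r * a) with k | k | k <;> simp only [k] <;> simp
  have h5 : (2 * i + k + 1 : ℤ) ≤ (k + 2) * (i + 1) := by
    have : (0 : ℤ) ≤ k * i := by positivity
    linarith
  refine (abs_sum_le_sum_abs _ _).trans ((sum_le_card_nsmul _ _ _ h4).trans ?_)
  rw [nsmul_eq_mul]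
  refine (mul_le_mul_of_nonneg_right h3 (by positivity)).trans (le_trans (le_of_eq (by ring))
    (mul_le_mul_of_nonneg_left (pow_le_pow_left₀ (by positivity) h5 2) (by positivity)))

end LG

end Pool.Agent.G5
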