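import Pool.Agent.Lib.MP_696deb_nt.B5.LGa

/-! The logarithmic terms at a prime: the statement. -/

set_option autoImplicit false

open Finset NumberTheorySymbols

namespace Pool.Agent.G5

open Pool.Agent.Lib.MP_696deb_nt Tern

namespace LG

variable {N A B n l : ℕ} {t D ρ : ℤ}

/-- The contribution of `t`. -/
def cS (N A B l : ℕ) (D β t : ℤ) : ℤ :=
  if 2 * (N : ℤ) ∣ t - B * β ∧ 4 * (N : ℤ) ∣ t ^ 2 - B ^ 2 * D then
    vS N A B l t ((t ^ 2 - B ^ 2 * D) / (4 * N)) else 0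

/-- The integers with square less than `X`. -/
noncomputable def TS (X : ℤ) : Finset ℤ := (Icc (-X) X).filter fun t => t ^ 2 < X

theorem mem_TS {X : ℤ} : t ∈ TS X ↔ t ^ 2 < X := by
  rw [TS, mem_filter, mem_Icc, and_iff_right_iff_imp, ← abs_le]
  intro h
  have := Int.le_self_sq |t|
  rw [sq_abs] at this
  linarith

theorem main (hn : Good N (A * B)) (hJ : J((N : ℤ) | A * B) = 1) (hD : (A : ℤ) ∣ D) (β : ℤ)
    (hl : l.Prime) : Lg B (wG N A D β) -
      ((∑ t ∈ TS (B ^ 2 * D), cS N A B l D β t : ℤ) / 2 : ℚ) * Real.log l ∈ LogS l := by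
  have hw := wt_wG (N := N) (Nat.odd_mul.mp hn.oddn).1 hD β
  have hN : (0 : ℤ) < N := by have := hn.l1; omega
  let φ : ℤ → ℤ → ℝ := fun a e => a.sign * (Real.log e - Real.log a - Real.log N) / 2
  have h1 : ∀ k : ℤ, (∑ᶠ R : Fm, if R.1 * fval R k B < 0 then (wG N A D β R * R.1.sign : ℝ) *
      (Real.log |(fval R k B : ℝ)| - Real.log |(R.1 : ℝ)|) / 2 else 0) =
      ∑ t ∈ TS (B ^ 2 * D), ∑ᶠ R : Fm,
      if fbil (0, B, -k) R = t then (wG N A D β R : ℝ) * φ (R.1 / N) (fval R k B) else 0 := by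
    intro k
    have h2 : ∀ R, wG N A D β R ≠ 0 →
        (fbil (0, B, -k) R ∈ TS (B ^ 2 * D) ↔ R.1 * fval R k B < 0) := fun R hR => by
      have := fbil_line B k R
      rw [hw.disc R hR] at this
      rw [mem_TS]
      constructor <;> intro h <;> linarith
    rw [← finsum_sum_comm _ _ fun t ht => (finite_cross (x := k) (y := B) hw).subset fun R hR => by
      have h3 : fbil (0, B, -k) R = t := by_contra fun h => hR (if_neg h)
      have h4 : wG N A D β R ≠ 0 := fun h => hR (by simp [h])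
      exact ⟨h4, (h2 R h4).mp (h3 ▸ ht)⟩]
    refine finsum_congr fun R => ?_
    rw [sum_ite_eq]
    by_cases h3 : wG N A D β R = 0
    · simp [h3]
    refine if_ctx_congr (h2 R h3).symm (fun h4 => ?_) fun _ => rfl
    obtain ⟨a, ha⟩ := (fam_of_wG h3).1
    have h5 : a ≠ 0 := by rintro rfl; simpa [ha] using (h2 R h3).mp h4
    simp only [φ, ha, Int.mul_ediv_cancel_left _ hN.ne', Real.log_abs, Int.sign_mul, Int.cast_mul,
      Int.cast_natCast]
    rw [Real.log_mul (mod_cast hN.ne') (mod_cast h5), Int.sign_eq_one_of_pos hN]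
    push_cast
    ring
  have e0 : Lg B (wG N A D β) = ∑ t ∈ TS (B ^ 2 * D), ∑ k ∈ Ico (0 : ℤ) B, (J(k | B) : ℝ) *
      ∑ᶠ R : Fm, if fbil (0, B, -k) R = t then (wG N A D β R : ℝ) * φ (R.1 / N) (fval R k B)
        else 0 := by
    rw [sum_comm]
    exact sum_congr rfl fun k _ => by rw [← mul_sum, ← h1]
  rw [e0, Int.cast_sum, sum_div, Rat.cast_sum, sum_mul, ← sum_sub_distrib]
  refine Submodule.sum_mem _ fun t ht => ?_
  by_cases h2 : 2 * (N : ℤ) ∣ t - B * β ∧ 4 * (N : ℤ) ∣ t ^ 2 - B ^ 2 * D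
  swap
  · rw [cS, if_neg h2, Int.cast_zero, zero_div, Rat.cast_zero, zero_mul, sub_zero]
    refine (congrArg (· ∈ LogS l) (Eq.symm ?_)).mp (LogS l).zero_mem
    refine sum_eq_zero fun k _ => mul_eq_zero_of_right _
      (finsum_eq_zero_of_forall_eq_zero fun R => ite_eq_right_iff.mpr fun h3 =>
        mul_eq_zero_of_left (Int.cast_eq_zero.mpr (by_contra fun h4 =>
          h2 ⟨by_contra fun h5 => h4 (wG_eq_zero h5 h3), ?_⟩)) _)
    obtain ⟨⟨a, ha⟩, h5, -⟩ := fam_of_wG h4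
    exact ⟨a * fval R k B, by rw [← h3, ← h5, fbil_line, ha]; ring⟩
  rw [cS, if_pos h2]
  obtain ⟨h2, M, hM⟩ := h2
  have h3 : M < 0 := by_contra fun k => by
    have := mul_nonneg (show 0 ≤ 4 * (N : ℤ) by omega) (not_lt.1 k)
    linarith [mem_TS.mp ht]
  rw [CN.sum_Ico0, sum_lines (B := A) hn.comm hD hM.symm h3.ne h2, hM,
    Int.mul_ediv_cancel_left _ (by omega)]
  have h4 := congr_arg (fun z : ℤ => (z : ℝ) * (Real.log N / 2)) (sign hn hJ hD h3 hM.symm)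
  simp only [Int.cast_sum, sum_mul, Int.cast_zero, zero_mul] at h4
  have h5 := Submodule.sum_mem (LogS l) (t := M.divisorsAntidiag) fun z _ => LogS.rat_mul
    ((muW N B A t z.1 z.2 * z.1.sign : ℤ) / 2) (sub_mem (log_int_sub_mem hl z.2)
      (log_int_sub_mem hl z.1))
  refine (congrArg (· ∈ LogS l) ?_).mp h5
  rw [vS, Int.cast_sum, sum_div, Rat.cast_sum, sum_mul, ← sum_sub_distrib,
    ← sub_zero (∑ _ ∈ _, ((_ : ℚ) : ℝ) * _), ← h4, ← sum_sub_distrib]
  refine sum_congr rfl fun z _ => ?_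
  simp only [φ]
  push_cast
  ring

theorem jac_lev (hn : Good N n) (hρ : 4 * (N : ℤ) ∣ ρ ^ 2 + n) {d : ℕ} (hd : d ∣ N) :
    J((d : ℤ) | n) = 1 := by
  obtain ⟨u, v, e⟩ := Nat.isCoprime_iff_coprime.mpr (hn.cop.coprime_dvd_right hd)
  obtain ⟨k, hk⟩ := ((Int.natCast_dvd_natCast.mpr hd).mul_left 4).trans hρ
  rw [← jac_neg_swap hn.mod4 (hn.lodd.of_dvd_nat hd), jacobiSym.mod_left' (a₂ := ρ ^ 2)
    (Int.modEq_iff_dvd.mpr ⟨k, by linear_combination hk⟩)]
  exact jacobiSym.sq_one' (Int.isCoprime_iff_gcd_eq_one.mp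
    ⟨-(u * ρ), u * k + v, by linear_combination e - u * hk⟩)

end LG

open LG in
/-- The logarithmic terms at a prime. -/
theorem lt_stmt : LTStmt := by
  intro N p A B ρ ρ' β h l m hl hm _
  have hn := h.toGood
  have hJ := jac_lev hn h.root dvd_rfl
  have hN : (N : ℤ) ≠ 0 := by have := hn.l1; omega
  refine ⟨fun hc => ?_, fun hc => ?_⟩
  · have k := main hn hJ (dvd_mul_right _ (A * m ^ 2 : ℤ)) (β * m) hl
    rw [sum_eq_zero (f := cS N A B l _ _) fun t _ =>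
      ite_eq_right_iff.mpr fun _ => vS_split hn hl hc _ _] at k
    simpa [Cw] using k
  have hlN : ¬ l ∣ N := fun k => hc (jac_lev hn h.root k)
  have hl0 : (l : ℤ) ≠ 0 := mod_cast hl.ne_zero
  set k : ℕ := (A * B * m) ^ 2 with hk
  refine ⟨(2 * k + 1) * (B * (2 * k + 1) * (k + 2) ^ 2), fun i =>
    ⟨_, ?_, main hn hJ (dvd_mul_right _ _) _ hl⟩⟩
  set D : ℤ := A * (A * (m * l ^ i : ℕ) ^ 2) with hD
  have e1 : B ^ 2 * D = (A * B * m * l ^ i) ^ 2 := by rw [hD]; push_cast; ring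
  have e2 : (k : ℤ) = (A * B * m) ^ 2 := by rw [hk]; push_cast; ring
  have h1 : ∀ t ∈ TS (B ^ 2 * D), cS N A B l D (β * (m * l ^ i : ℕ)) t ≠ 0 →
      t ∈ (TS k).image fun u => (l : ℤ) ^ i * u := fun t ht h0 => by
    obtain ⟨h2, h3⟩ := ite_ne_right_iff.mp h0
    obtain ⟨u, rfl⟩ : (l : ℤ) ^ i ∣ t := by_contra fun h4 =>
      h3 (vS_far hn hl hlN h4 (y := A * B * m) (by rw [Int.mul_ediv_cancel' h2.2, e1]))
    refine mem_image.2 ⟨u, mem_TS.2 ?_, rfl⟩
    have h4 := mem_TS.1 ht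
    rw [e1, mul_pow, mul_comm (_ * _ * _ : ℤ), mul_pow] at h4
    exact e2 ▸ lt_of_mul_lt_mul_left h4 (sq_nonneg _)
  have h2 : ∀ t ∈ (TS k).image fun u => (l : ℤ) ^ i * u,
      |cS N A B l D (β * (m * l ^ i : ℕ)) t| ≤ B * (2 * k + 1) * ((k + 2) * (i + 1)) ^ 2 := by
    intro t ht
    obtain ⟨u, hu, rfl⟩ := mem_image.1 ht
    have h3 := mem_TS.1 hu
    unfold cS
    split_ifs with h4
    · refine vS_le hn.sqf.of_mul_right hl (K := u ^ 2 - k) (by omega)
        (abs_le.2 ⟨by linarith [sq_nonneg u], by omega⟩) ⟨4 * N, ?_⟩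
      rw [Int.ediv_mul_cancel h4.2, e1, e2]
      ring
    · rw [abs_zero]
      positivity
  have h3 : (((TS k).image fun u => (l : ℤ) ^ i * u).card : ℤ) ≤ 2 * k + 1 := by
    have k1 := (card_image_le (s := TS k) (f := fun u => (l : ℤ) ^ i * u)).trans
      (card_filter_le _ _)
    rw [Int.card_Icc, show (k + 1 - -(k : ℤ)).toNat = 2 * k + 1 by omega] at k1
    exact_mod_cast k1
  have h4 : |∑ t ∈ TS (B ^ 2 * D), cS N A B l D (β * (m * l ^ i : ℕ)) t| ≤
      (2 * k + 1) * (B * (2 * k + 1) * ((k + 2) * (i + 1)) ^ 2) := by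
    rw [← sum_filter_ne_zero]
    refine (abs_sum_le_sum_abs _ _).trans (le_trans (sum_le_sum_of_subset_of_nonneg (fun t ht =>
      h1 t (mem_filter.1 ht).1 (mem_filter.1 ht).2) fun _ _ _ => abs_nonneg _)
      ((sum_le_card_nsmul _ _ _ h2).trans ?_))
    rw [nsmul_eq_mul]
    exact mul_le_mul_of_nonneg_right h3 (by positivity)
  have h5 := (Int.cast_le (R := ℚ)).2 h4
  rw [Int.cast_abs] at h5
  rw [abs_div, abs_two]
  refine (half_le_self (abs_nonneg _)).trans (h5.trans (le_of_eq ?_))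
  push_cast
  ring

end Pool.Agent.G5
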