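import Pool.Agent.Lib.MP_696deb_nt.B5.QPc
import Pool.Agent.Lib.MP_696deb_nt.B5.RVa

/-! Functions with a multiplier, and the clearing of poles. -/

set_option autoImplicit false

open Polynomial Filter Topology Complex
open scoped Classical PeriodPair

namespace Pool.Agent.B5

open Pool.Agent.Lib.MP_696deb_nt Pool.Agent.B4.GE Pool.Agent.Shared.Weier
open Pool.Agent.Lib.MP_696deb_nt.B4

variable {W : WeierstrassCurve ℚ} {N : ℕ} {P : Par W N} {β γ a : ℂ} {A B : ℂ → ℂ}

variable (P) in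
/-- Functions which change like `sig (F - β) / sig (F + β)`. -/
structure Mult (β : ℂ) (A : ℂ → ℂ) : Prop where
  inv : ∀ g, G0 N g → ∀ z : ℂ, 0 < z.im →
    A (act g z) = cexp (-(2 * β * eta P.L (P.F (act g z) - P.F z))) * A z
  le : ∀ g : MZ, g.det = 1 → LE ⊤ fun z => A (act g (N * z))

theorem Mult.mul (h : Mult P β A) (h' : Mult P γ B) : Mult P (β + γ) fun z => A z * B z :=
  ⟨fun g hg z hz => by
    rw [h.inv g hg z hz, h'.inv g hg z hz, mul_mul_mul_comm, ← Complex.exp_add]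
    congr 2
    ring, fun g hg => le_top_mul (h.le g hg) (h'.le g hg)⟩

theorem mult_zero : Mult P 0 A ↔ MF N A :=
  ⟨fun h => ⟨fun g hg z hz => by simpa using h.inv g hg z hz, h.le⟩,
    fun h => ⟨fun g hg z hz => by simpa using h.1 g hg z hz, h.2⟩⟩

theorem Mult.pow (h : Mult P β A) (n : ℕ) : Mult P (n * β) fun z => A z ^ n := by
  induction n with
  | zero => simpa using mult_zero.2 (mf_const 1)
  | succ n ih => simpa only [pow_succ, Nat.cast_succ, add_one_mul] using ih.mul h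

theorem le_comp (P : Par W N) {U : ℂ → ℂ} (hU : Differentiable ℂ U) {g : MZ} (hg : g.det = 1) :
    LE ⊤ fun z => U (P.F (act g (N * z))) := by
  obtain ⟨B, hB⟩ := P.cusp g hg
  obtain ⟨D, hD⟩ := QE.exists_of_periodic (F := fun z => U (P.F (act g (N * z))))
    (fun z hz => (hU _).comp z (hB.hol z hz))
    (fun z hz => congrArg U (by simpa using hB.periodic 1 hz))
    (Bdd.of_tendsto ((hU.continuous.tendsto _).comp hB.tendsto))
  exact ⟨0, D, hD.congr fun z _ => by simp, fun _ => trivial⟩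

theorem le_of_ev {H G w : ℂ → ℂ} {c : ℂ} (hH : Hol H) (hp : ∀ z : ℂ, 0 < z.im → H (z + 1) = H z)
    (hG : LE ⊤ G) (hw : Tendsto w atI (𝓝 c)) (e : ∀ᶠ z in atI, H z = G z * w z) : LE ⊤ H := by
  obtain ⟨n, D, hD, -⟩ := hG
  obtain ⟨E, hE⟩ := QE.exists_of_periodic (F := fun z => q1 z ^ n * H z)
    (fun z hz => ((hol_q1 z hz).pow n).mul (hH z hz))
    (fun z hz => by rw [hp z hz, q1_add, ← Int.cast_one, q1_int, mul_one])
    (Bdd.of_tendsto ((hD.tendsto.mul hw).congr' (e.mono fun z hz => by simp only [hz]; ring)))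
  exact ⟨n, E, hE, fun _ => trivial⟩

variable (P) in
/-- A chart whose poles are cleared. -/
structure Clear (a : ℂ) (b : ℂ[X]) (k S : ℂ → ℂ) : Prop where
  nm : a ∉ P.L.lattice
  mf : MF N k
  eq : ∀ z : ℂ, 0 < z.im → ¬ Po P.L a (P.F z) → k z = b.eval (jf z) * cU P.L a (P.F z)
  root : ∀ z : ℂ, 0 < z.im →
    (b.eval (jf z) = 0 ↔ ∃ t : ℂ, 0 < t.im ∧ jf t = jf z ∧ Po P.L a (P.F t))
  inv : ∀ g, G0 N g → ∀ z : ℂ, 0 < z.im → S (act g z) *
    cexp (eta P.L (P.F (act g z) - P.F z) * (P.F (act g z) + P.F z)) = S z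
  le : ∀ g : MZ, g.det = 1 → LE ⊤ fun z => S (act g (N * z))
  rel : ∀ β ∉ P.L.lattice, ∀ z : ℂ, 0 < z.im →
    sig P.L a ^ 2 * (sig P.L (P.F z + β) * sig P.L (P.F z - β) * S z) =
      sig P.L β ^ 2 * (b.eval (jf z) + (℘[P.L] a - ℘[P.L] β) * k z)

theorem sig_shift {L : PeriodPair} {u u' : ℂ} (h : u' - u ∈ L.lattice) (s t : ℂ) :
    sig L (u' + s) * sig L (u' + t) =
      cexp (eta L (u' - u) * (u' + u + s + t)) * (sig L (u + s) * sig L (u + t)) := by
  have := sig_add_sq h (u + s) (u + t)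
  rwa [show u + s + (u' - u) = u' + s by ring, show u + t + (u' - u) = u' + t by ring,
    show u + s + (u + t) + (u' - u) = u' + u + s + t by ring] at this

theorem exists_clear (ha : Avo P.L P.F a) : ∃ b k S, Clear P a b k S := by
  obtain ⟨m, hm⟩ := P.ig.clear ha (U := cU P.L a) (fun z l hl => cU_add ha.1 hl) mero_cU
    fun _ => an_cU
  let b : ℂ[X] := (∏ x ∈ (P.ig.finite_poles ha).toFinset, (X - C x)) ^ (m + 1)
  obtain ⟨k, k1, k2, k3, k4⟩ := hm b fun z hz hp =>
    (pow_dvd_pow _ m.le_succ).trans (pow_dvd_pow_of_dvd (Finset.dvd_prod_of_mem _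
      ((P.ig.finite_poles ha).mem_toFinset.2 (Set.mem_image_of_mem jf ⟨hz, hp⟩))) _)
  have r : ∀ z : ℂ, 0 < z.im →
      (b.eval (jf z) = 0 ↔ ∃ t : ℂ, 0 < t.im ∧ jf t = jf z ∧ Po P.L a (P.F t)) := fun z hz => by
    simp only [b, eval_pow, eval_prod, pow_eq_zero_iff m.succ_ne_zero, Finset.prod_eq_zero_iff,
      Set.Finite.mem_toFinset, eval_sub, eval_X, eval_C, sub_eq_zero]
    exact ⟨fun ⟨x, ⟨t, t1, t2⟩, e⟩ => ⟨t, t1.1, t2.trans e.symm, t1.2⟩,
      fun ⟨t, t1, t2, t3⟩ => ⟨_, ⟨t, ⟨t1, t3⟩, t2⟩, rfl⟩⟩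
  have a0 := sig_ne ha.1
  obtain ⟨S, hS⟩ : ∃ S : ℂ → ℂ, ∀ z, S z = if P.F z ∈ P.L.lattice then
      b.eval (jf z) / (sig P.L (P.F z + a) * sig P.L (P.F z - a)) else
      -k z / (sig P.L a ^ 2 * sig P.L (P.F z) ^ 2) := ⟨_, fun _ => rfl⟩
  have s1 : ∀ z : ℂ, 0 < z.im → ¬ Po P.L a (P.F z) →
      S z = b.eval (jf z) * (sig P.L (P.F z + a) * sig P.L (P.F z - a))⁻¹ := fun z hz hp => by
    rw [hS]
    split_ifs with h
    · exact div_eq_mul_inv _ _
    · have := sig_ne h
      rw [k4 z hz hp, cU]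
      field_simp
  have hb : Hol fun z => b.eval (jf z) := LE.hol (gb_poly b)
  have s2 : Hol S := fun z hz => by
    have f := P.qe.hol z hz
    by_cases h : P.F z ∈ P.L.lattice
    · have p := not_po_of_mem ha.1 h
      refine ((hb z hz).mul (((an_den _).differentiableAt.comp z f).inv
        (mul_ne_zero (sig_ne (not_or.1 p).1) (sig_ne (not_or.1 p).2)))).congr_of_eventuallyEq ?_
      filter_upwards [f.continuousAt.eventually (ev_not_po' p), gb_ev hz] with t t1 t2
      exact s1 t t2 t1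
    · refine ((k3 z hz).neg.div ((((differentiable_sig _ _).comp z f).pow 2).const_mul
        (sig P.L a ^ 2)) (mul_ne_zero (pow_ne_zero 2 a0)
          (pow_ne_zero 2 (sig_ne h)))).congr_of_eventuallyEq ?_
      filter_upwards [f.continuousAt.eventually (isOpen_compl.mem_nhds h)] with t t1
      rw [hS, if_neg (show P.F t ∉ P.L.lattice from t1)]
      rfl
  refine ⟨b, k, S, ha.1, ⟨fun g hg => k1 g hg.1 hg.2, k2⟩, k4, r, fun g hg z hz => ?_,
    fun g hg => ?_, fun β hβ z hz => ?_⟩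
  · have l := P.inv g hg z hz
    have e := Complex.exp_ne_zero (eta P.L (P.F (act g z) - P.F z) * (P.F (act g z) + P.F z))
    have m : P.F (act g z) ∈ P.L.lattice ↔ P.F z ∈ P.L.lattice :=
      ⟨fun h => by simpa using sub_mem h l, fun h => by simpa using add_mem l h⟩
    rw [hS, hS, jf_act hg.1 hz, k1 g hg.1 hg.2 z hz]
    simp only [m]
    split_ifs with h
    · have := sig_shift l a (-a)
      rw [add_neg_cancel_right, ← sub_eq_add_neg, ← sub_eq_add_neg] at this
      rw [this]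
      field_simp
    · have := sig_shift l 0 0
      simp only [add_zero, ← sq] at this
      rw [this]
      field_simp
  · obtain ⟨B, hB⟩ := P.cusp g hg
    have p := ha.2 g hg _ (geb_lim (G := fun z => P.F (act g z)) P.N0 hB.tendsto)
    have q : ∀ {z : ℂ}, 0 < z.im → 0 < (act g (N * z)).im := fun hz =>
      act_pos (by omega) (ga_pos P.N0 hz)
    refine le_of_ev (fun z hz => (s2 _ (q hz)).comp z
      ((hol_act (by omega) _ (ga_pos P.N0 hz)).comp z (by fun_prop))) (fun z hz => ?_)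
      ((mf_eval P.N0 b).2 g hg) (((an_den _).continuousAt.tendsto.comp hB.tendsto).inv₀
        (mul_ne_zero (sig_ne (not_or.1 p).1) (sig_ne (not_or.1 p).2))) ?_
    · have e1 : P.F (act g (N * (z + 1))) = P.F (act g (N * z)) := by
        simpa using hB.periodic 1 hz
      rw [hS, hS, e1, le_periodic (k2 g hg) z hz, le_periodic ((mf_jf P.N0).2 g hg) z hz]
    · filter_upwards [hB.tendsto.eventually (ev_not_po' p), ev_pos] with z z1 z2
      exact s1 _ (q z2) z1
  · rw [hS]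
    split_ifs with h
    · have p := not_po_of_mem ha.1 h
      have h' : P.F z - 0 ∈ P.L.lattice := by simpa using h
      have e1 := sig_shift h' a (-a)
      have e2 := sig_shift h' β (-β)
      rw [add_neg_cancel_right, ← sub_eq_add_neg, zero_add, zero_add, sig_neg] at e1 e2
      have e := Complex.exp_ne_zero (eta P.L (P.F z - 0) * (P.F z + 0))
      rw [k4 z hz p, cU_of_mem h, e1, e2]
      field_simp
      ring
    · have e1 : b.eval (jf z) = (℘[P.L] (P.F z) - ℘[P.L] a) * k z := by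
        by_cases p : Po P.L a (P.F z)
        · rw [(r z hz).2 ⟨z, hz, rfl, p⟩, ((po_iff ha.1).1 p).2, sub_self, zero_mul]
        · have : ℘[P.L] (P.F z) - ℘[P.L] a ≠ 0 := fun e => p ((po_iff ha.1).2 ⟨h, sub_eq_zero.1 e⟩)
          rw [k4 z hz p, cU_eq ha.1 h]
          field_simp
      have := sig_ne h
      rw [wp_sub' h hβ, e1]
      field_simp
      ring

theorem Clear.mf_mul {b : ℂ[X]} {k S : ℂ → ℂ} (h : Clear P a b k S) (hA : Mult P β A) :
    MF N fun z => A z * sig P.L (P.F z + β) ^ 2 * S z := by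
  refine ⟨fun g hg z hz => ?_, fun g hg => le_top_mul (le_top_mul (hA.le g hg)
    (le_comp P (U := fun u => sig P.L (u + β) ^ 2)
      (((differentiable_sig _).comp (by fun_prop)).pow 2) hg)) (h.le g hg)⟩
  simp only
  rw [hA.inv g hg z hz, ← h.inv g hg z hz, sq, sig_shift (P.inv g hg z hz), ← sq,
    show eta P.L (P.F (act g z) - P.F z) * (P.F (act g z) + P.F z + β + β) =
      eta P.L (P.F (act g z) - P.F z) * (P.F (act g z) + P.F z) +
        2 * β * eta P.L (P.F (act g z) - P.F z) by ring, Complex.exp_add, Complex.exp_neg]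
  field_simp

variable {Γ : Type*} [LinearOrderedCommGroupWithZero Γ] {V : Valuation ℂ Γ}

/-- The norm of a modular function and its cofactor. -/
theorem exists_cof (hN : N ≠ 0) [Fintype (CI N)] {K : ℂ → ℂ} (hK : MF N K) {z₀ : ℂ}
    (z0 : 0 < z₀.im) (h0 : K z₀ ≠ 0)
    (hi : ∀ g : MZ, g.det = 1 → (fun z => K (act g (N * z))) ∈ LR V.integer) :
    ∃ (K' : ℂ → ℂ) (R : ℂ[X]), MF N K' ∧ (∀ n, V (R.coeff n) ≤ 1) ∧ ∀ z : ℂ, 0 < z.im →
      K z * K' z = R.eval (jf z) ∧ R.eval (jf z) = ∏ i : CI N, K (act (cr i) z) := by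
  have hI : Inv1 fun z => ∏ i : CI N, K (act (cr i) z) :=
    (hK.1.permF hN).inv1 (fun _ a => ∏ i, a i) fun _ a σ => Equiv.prod_comp σ a
  have m : (∏ i : CI N, fun z => K (act (cr i) (N * z))) ∈ LR V.integer :=
    prod_mem fun i _ => hi _ (cr_det i)
  obtain ⟨R, r1, r2⟩ := (LE.of_comp hN hI.periodic (LE.congr m fun z _ => by simp)).exists_poly hI
  obtain ⟨i, e⟩ := hK.1.exists_cr hN Matrix.det_one
  have e1 : ∀ z : ℂ, 0 < z.im → K z * ∏ j ∈ Finset.univ.erase i, K (act (cr j) z) =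
      R.eval (jf z) := fun z hz => by
    rw [← r2 z hz, ← Finset.mul_prod_erase _ _ (Finset.mem_univ i), ← e z hz, act_one]
  have hK0 := (mf_le hN hK).hol
  have c : ∀ z : ℂ, 0 < z.im →
      ContinuousAt (fun z => ∏ j ∈ Finset.univ.erase i, K (act (cr j) z)) z := fun z hz =>
    tendsto_finsetProd _ fun j _ => ((hK0 _ (act_pos (by rw [cr_det]; exact one_pos) hz)).comp z
      (hol_act (by rw [cr_det]; exact one_ne_zero) z hz)).continuousAt
  refine ⟨_, R, ⟨fun g hg z hz => ?_, fun g hg => ?_⟩, r1, fun z hz => ⟨e1 z hz, (r2 z hz).symm⟩⟩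
  · have g1 := hg.1
    refine geb_eq (f := fun z => ∏ j ∈ Finset.univ.erase i, K (act (cr j) (act g z)))
      ((c _ (act_pos (by omega) hz)).comp (hol_act (by omega) z hz).continuousAt) (c z hz) ?_
    filter_upwards [((gb_an hK0 hz).eventually_eq_zero_or_eventually_ne_zero).resolve_left
      fun k => h0 (AnalyticOnNhd.eqOn_zero_of_preconnected_of_eventuallyEq_zero
        (U := {z : ℂ | 0 < z.im}) (fun _ => gb_an hK0) (convex_halfSpace_im_gt 0).isPreconnected
        hz k z0), mem_nhdsWithin_of_mem_nhds (gb_ev hz)] with t t1 t2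
    refine mul_left_cancel₀ t1 ?_
    rw [e1 t t2, ← jf_act g1 t2, ← e1 _ (act_pos (by omega) t2), hK.1 g hg t t2]
  · refine LE.congr (LE.mono (prod_mem fun j (_ : j ∈ Finset.univ.erase i) =>
      hi (cr j * g) (by simp [hg, cr_det])) le_top) fun z hz => ?_
    simp [act_mul _ (show g.det ≠ 0 by omega) (ga_pos hN hz)]

variable (V) in
/-- The expansions at all cusps are bounded. -/
theorem exists_bd (hN : N ≠ 0) {K : ℂ → ℂ} (hK : MF N K) : ∃ c : ℂ,
    ∀ g : MZ, g.det = 1 → LE (V.leAddSubgroup (V c)) fun z => K (act g (N * z)) := by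
  obtain ⟨S, s1, s2⟩ := exists_fg hN hK
  have : Nonempty {g : MZ // g.det = 1} := ⟨⟨1, Matrix.det_one⟩⟩
  obtain ⟨c, c1, -⟩ := exists_top (V := V) s1 fun g : {g : MZ // g.det = 1} => s2 g.1 g.2
  exact ⟨c, fun g hg => c1 ⟨g, hg⟩⟩

end Pool.Agent.B5
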