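import Pool.Agent.Lib.MP_696deb_nt.B5.LTa

/-! The maximum principle for local Green functions at the finite places. -/

set_option autoImplicit false

open Polynomial Filter Topology Complex
open scoped Classical PeriodPair NNReal

namespace Pool.Agent.B5

open Pool.Agent.Lib.MP_696deb_nt Pool.Agent.B4.GE Pool.Agent.Shared.Weier
open Pool.Agent.Lib.MP_696deb_nt.B4

variable {v : AbsoluteValue ℂ ℝ}

theorem lg_mul {a b : ℂ} (ha : a ≠ 0) (hb : b ≠ 0) :
    Real.log (v (a * b)) = Real.log (v a) + Real.log (v b) := by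
  rw [map_mul, Real.log_mul (v.pos ha).ne' (v.pos hb).ne']

theorem lg_pow (a : ℂ) (n : ℕ) : Real.log (v (a ^ n)) = n * Real.log (v a) := by
  rw [map_pow, Real.log_pow]

section
variable {L : PeriodPair} {E : WeierstrassCurve ℂ}

variable (v) in
/-- The local height corrected by the sigma function. -/
noncomputable def Th (h : IsPer L E) (u : ℂ) : ℝ :=
  2 * Real.log (v (sig L u)) + lamV v (h.unif u)

variable [E.IsElliptic] (I : IntW v E) (h : IsPer L E)
include I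

theorem th_par {u w : ℂ} (hu : u ∉ L.lattice) (hw : w ∉ L.lattice) (h1 : u + w ∉ L.lattice)
    (h2 : u - w ∉ L.lattice) : Th v h (u + w) + Th v h (u - w) = 2 * Th v h u + 2 * Th v h w := by
  have e : xco (h.unif u) - xco (h.unif w) = ℘[L] u - ℘[L] w := by
    rw [h.unif_of_notMem hu, h.unif_of_notMem hw, xco_some, xco_some, ux, ux]
    ring
  have n := wp_ne hu hw h1 h2
  have a := I.par' (mt h.unif_eq_zero_iff.1 hu) (mt h.unif_eq_zero_iff.1 hw)
    (sub_ne_zero.1 (e ▸ n))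
  have b := congrArg (fun x => Real.log (v x)) (wp_sub' hu hw)
  simp only [v.map_neg] at b
  rw [lg_mul (sig_ne h1) (sig_ne h2), lg_mul (mul_ne_zero n (pow_ne_zero _ (sig_ne hu)))
    (pow_ne_zero _ (sig_ne hw)), lg_mul n (pow_ne_zero _ (sig_ne hu)), lg_pow, lg_pow] at b
  rw [e, ← map_add, ← map_sub] at a
  simp only [Th]
  push_cast at b
  linarith

omit [E.IsElliptic] in
theorem th_mem {u t : ℂ} (hu : u ∈ L.lattice) (ht : t ∉ L.lattice) :
    Th v h (u + t) = Th v h t + 2 * Real.log (v (cexp (eta L u * (t + u / 2)))) := by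
  have := I.na
  obtain ⟨e, e1, -, e2⟩ := sig_add hu
  have e3 : v e = 1 := by rcases e1 with rfl | rfl <;> simp
  rw [Th, Th, map_add, h.unif_eq_zero_iff.2 hu, zero_add, add_comm u, e2, mul_assoc, map_mul, e3,
    one_mul, lg_mul (Complex.exp_ne_zero _) (sig_ne ht)]
  ring

omit [E.IsElliptic] in
theorem th_neg (t : ℂ) : Th v h (-t) = Th v h t := by
  rw [Th, Th, sig_neg, v.map_neg, map_neg, I.lam_neg]

theorem th_sum (x : ℂ) : ∃ c : ℝ, ∀ t ∉ L.lattice, x + t ∉ L.lattice → x - t ∉ L.lattice →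
    Th v h (x + t) + Th v h (x - t) = c + 2 * Th v h t := by
  by_cases hx : x ∈ L.lattice
  · refine ⟨2 * Real.log (v (cexp (eta L x * x))), fun t ht _ _ => ?_⟩
    rw [sub_eq_add_neg, th_mem I h hx ht, th_mem I h hx (mt neg_mem_iff.1 ht), th_neg I,
      show eta L x * x = eta L x * (t + x / 2) + eta L x * (-t + x / 2) by ring, Complex.exp_add,
      lg_mul (Complex.exp_ne_zero _) (Complex.exp_ne_zero _)]
    ring
  · exact ⟨_, fun t ht h1 h2 => th_par I h hx ht h1 h2⟩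

theorem th_lin {u β : ℂ} (hβ : ∀ k : ℕ, k ≠ 0 → k * β ∉ L.lattice)
    (hu : ∀ k : ℤ, u + k * β ∈ L.lattice → k = 0) (n : ℕ) :
    Th v h (u + n * β) - Th v h (u - n * β) = n * (Th v h (u + β) - Th v h (u - β)) := by
  have b : β ∉ L.lattice := by simpa using hβ 1 one_ne_zero
  by_cases hx : u ∈ L.lattice
  · have a : ∀ t ∉ L.lattice, Th v h (u + t) - Th v h (u - t) =
        2 * Real.log (v (cexp (2 * eta L u * t))) := fun t ht => by
      rw [sub_eq_add_neg u, th_mem I h hx ht, th_mem I h hx (mt neg_mem_iff.1 ht), th_neg I,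
        show eta L u * (t + u / 2) = 2 * eta L u * t + eta L u * (-t + u / 2) by ring,
        Complex.exp_add, lg_mul (Complex.exp_ne_zero _) (Complex.exp_ne_zero _)]
      ring
    rcases eq_or_ne n 0 with rfl | hn
    · simp
    rw [a _ (hβ n hn), a _ b, mul_left_comm (2 * eta L u), Complex.exp_nat_mul, lg_pow]
    ring
  have a : ∀ k : ℤ, u + k * β ∉ L.lattice := fun k e => hx (by simpa [hu k e] using e)
  have c : ∀ k : ℤ, Th v h (u + (k + 1) * β) + Th v h (u + (k - 1) * β) =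
      2 * Th v h (u + k * β) + 2 * Th v h β := fun k => by
    have := th_par I h (a k) b (by simpa [add_mul, add_assoc] using a (k + 1))
      (by simpa [sub_mul, add_sub_assoc] using a (k - 1))
    rwa [add_assoc, add_sub_assoc, ← add_one_mul, ← sub_one_mul] at this
  induction n using Nat.twoStepInduction with
  | zero => simp
  | one => simp
  | more n i j =>
    have c1 := c (n + 1)
    have c2 := c (-(n + 1))
    push_cast at c1 c2 j ⊢
    rw [add_sub_cancel_right] at c1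
    rw [show u + (-(n + 1) + 1) * β = u - n * β by ring,
      show u + (-(n + 1) - 1) * β = u - (n + 2) * β by ring,
      show u + -(n + 1) * β = u - (n + 1) * β by ring] at c2
    rw [show (n + 2 : ℂ) = n + 1 + 1 by ring] at c2 ⊢
    linarith

omit I [E.IsElliptic] in
theorem wp_bd {u w : ℂ} (hu : u ∉ L.lattice) (hw : w ∉ L.lattice) :
    v (℘[L] u - ℘[L] w) ≤ v (xco (h.unif u)) + v (xco (h.unif w)) := by
  have e : xco (h.unif u) - xco (h.unif w) = ℘[L] u - ℘[L] w := by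
    rw [h.unif_of_notMem hu, h.unif_of_notMem hw, xco_some, xco_some, ux, ux]
    ring
  exact e ▸ v.sub_le_add _ _

omit h in
theorem lam_bd {c : ℝ} (hc : 1 ≤ c) {Q : E.toAffine.Point} (hQ : ¬ Big v c Q) :
    Real.log (v E.Δ) ≤ lamV v Q ∧ lamV v Q ≤ Real.log c :=
  ⟨le_trans (le_add_of_nonneg_left (Real.log_nonneg (one_le_hx Q))) (I.le_lam Q),
    (I.lam_le Q).trans (Real.log_le_log (hx_pos Q) (max_le hc (not_lt.1 (not_or.1 hQ).2)))⟩

/-- Infinitely many multiples of a point of infinite order stay away from a finite set. -/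
theorem exists_far {β : ℂ} (hβ : ¬ IsOfFinAddOrder (h.unif β)) (U : Finset ℂ) :
    ∃ c : ℝ, ∀ T : ℕ, ∃ n : ℕ, T ≤ n ∧ ∀ x ∈ U, ∀ y, y = x + n * β ∨ y = x - n * β →
      y ∉ L.lattice ∧ v (xco (h.unif y)) ≤ c ∧ Real.log (v E.Δ) ≤ lamV v (h.unif y) ∧
        lamV v (h.unif y) ≤ Real.log c := by
  obtain ⟨c, c1, c2⟩ := I.exists_far hβ (U.image h.unif ∪ U.image fun x => -h.unif x)
  refine ⟨c, fun T => (c2 T).imp fun n hn => ⟨hn.1, fun x hx y hy => ?_⟩⟩
  have : ¬ Big v c (h.unif y) := by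
    rcases hy with rfl | rfl
    · have := hn.2 _ (Finset.mem_union_right _ (Finset.mem_image_of_mem _ hx))
      rwa [sub_neg_eq_add, ← map_nsmul, ← map_add, nsmul_eq_mul, add_comm] at this
    · have := hn.2 _ (Finset.mem_union_left _ (Finset.mem_image_of_mem _ hx))
      rw [← map_nsmul, ← map_sub, nsmul_eq_mul, ← neg_sub, map_neg] at this
      exact fun e => this e.neg
  exact ⟨mt h.unif_eq_zero_iff.2 (not_or.1 this).1, not_lt.1 (not_or.1 this).2, lam_bd I c1 this⟩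

end

theorem exists_dom (v : AbsoluteValue ℂ ℝ) (x y : ℂ) :
    ∃ c : ℂ, c ≠ 0 ∧ v x ≤ v c ∧ v y ≤ v c ∧ v c ≤ 1 + v x + v y := by
  have a := v.nonneg x
  have b := v.nonneg y
  by_cases h : v x ≤ 1 ∧ v y ≤ 1
  · exact ⟨1, one_ne_zero, by simpa using h.1, by simpa using h.2, by simp; linarith⟩
  rcases le_total (v x) (v y) with e | e
  · exact ⟨y, fun k => h (by subst k; simp at e ⊢; simp [e]), e, le_rfl, by linarith⟩
  · exact ⟨x, fun k => h (by subst k; simp at e ⊢; simp [e]), le_rfl, e, by linarith⟩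

theorem int_mul {Γ : Type*} [LinearOrderedCommGroupWithZero Γ] {V : Valuation ℂ Γ} {R M : ℂ[X]}
    (h : ∀ n, V (R.coeff n) ≤ 1) (h' : ∀ n, V (M.coeff n) ≤ 1) (n : ℕ) :
    V ((R * M).coeff n) ≤ 1 := by
  rw [coeff_mul]
  exact Valuation.map_sum_le _ fun x _ => by rw [map_mul]; exact mul_le_one' (h _) (h' _)

theorem int_pow {Γ : Type*} [LinearOrderedCommGroupWithZero Γ] {V : Valuation ℂ Γ} {R : ℂ[X]}
    (h : ∀ n, V (R.coeff n) ≤ 1) (k : ℕ) : ∀ n, V ((R ^ k).coeff n) ≤ 1 := by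
  induction k with
  | zero => intro n; rw [pow_zero, coeff_one]; split_ifs <;> simp
  | succ k ih => rw [pow_succ]; exact int_mul ih h

theorem nonpos_of_mul_le {D C : ℝ} (h : ∀ T : ℕ, ∃ n : ℕ, T ≤ n ∧ n * D ≤ C) : D ≤ 0 := by
  by_contra e
  obtain ⟨T, hT⟩ := exists_nat_gt (C / D)
  obtain ⟨n, n1, n2⟩ := h T
  rw [div_lt_iff₀ (not_le.1 e)] at hT
  have : (T : ℝ) ≤ n := by exact_mod_cast n1
  nlinarith

variable {W : WeierstrassCurve ℚ} {N : ℕ} {P : Par W N} {β a : ℂ} {A A' k S : ℂ → ℂ} {b R : ℂ[X]}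
  {τ τ' : ℂ}

theorem Clear.ne (h : Clear P a b k S) {z : ℂ} (hz : 0 < z.im) (h0 : b.eval (jf z) ≠ 0) :
    S z ≠ 0 := fun e => by
  have := h.rel a h.nm z hz
  rw [e, sub_self] at this
  exact mul_ne_zero (pow_ne_zero 2 (sig_ne h.nm)) h0 (by simpa using this.symm)

/-- One step of the maximum principle. -/
theorem clear_step (h : Clear P a b k S) [Fintype (CI N)] (hv : IsNonarchimedean v)
    (hβ : β ∉ P.L.lattice) (hA : Mult P β A) (hA' : Mult P (-β) A')
    (hR : ∀ n, v (R.coeff n) ≤ 1) (e : ∀ z : ℂ, 0 < z.im → A z * A' z = R.eval (jf z))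
    (hτ : Aff N (valOf hv) τ) (hτ' : Aff N (valOf hv) τ') {c : ℂ} (hc : c ≠ 0)
    (hi : ∀ g : MZ, g.det = 1 → (fun z => c⁻¹ * (b.eval (jf (act g (N * z))) +
      (℘[P.L] a - ℘[P.L] β) * k (act g (N * z)))) ∈ LR (valOf hv).integer)
    (h0 : b.eval (jf τ) + (℘[P.L] a - ℘[P.L] β) * k τ ≠ 0) :
    v (A τ' * sig P.L (P.F τ' + β) ^ 2 * S τ') * (v (R.eval (jf τ)) *
      v (∏ i : CI N, c⁻¹ * (b.eval (jf (act (cr i) τ)) +
        (℘[P.L] a - ℘[P.L] β) * k (act (cr i) τ))) ^ 2) ≤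
      v (A τ * sig P.L (P.F τ + β) ^ 2 * S τ) := by
  by_cases g0 : A τ' * sig P.L (P.F τ' + β) ^ 2 * S τ' = 0
  · rw [g0, map_zero, zero_mul]
    exact v.nonneg _
  obtain ⟨K, M, k1, k2, k3⟩ := exists_cof P.N0 (mf_mul (mf_const c⁻¹) (mf_add (mf_eval P.N0 b)
    (mf_mul (mf_const (℘[P.L] a - ℘[P.L] β)) h.mf))) hτ.pos (mul_ne_zero (inv_ne_zero hc) h0) hi
  obtain ⟨d, hd⟩ := exists_gn (valOf hv) P.N0 (h.mf_mul hA) hτ'.pos g0
  have a1 := hd.val_le P.N0 (h.mf_mul hA) hτ'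
  have a2 := hd.val_ge P.N0 (mf_mul (mf_mul (h.mf_mul hA')
    (mf_const ((sig P.L a ^ 2 / sig P.L β ^ 2 * c⁻¹) ^ 2))) (mf_pow k1 2)) (R := R * M ^ 2)
    (int_mul (V := valOf hv) hR (int_pow k2 2)) (fun z hz => by
      have s := sig_ne hβ
      have r := h.rel β hβ z hz
      rw [mul_comm (sig P.L β ^ 2), ← div_eq_iff (pow_ne_zero 2 s)] at r
      rw [eval_mul, eval_pow, ← e z hz, ← (k3 z hz).1, ← r, ← sub_eq_add_neg]
      field_simp) hτ
  have a3 := (mul_le_mul_left a1 _).trans a2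
  rw [eval_mul, eval_pow, (k3 τ hτ.pos).2, map_mul (valOf hv) (R.eval (jf τ)), map_pow] at a3
  exact_mod_cast a3

variable (v P) in
/-- The local Green function. -/
noncomputable def gl (β : ℂ) (A : ℂ → ℂ) (z : ℂ) : ℝ :=
  Real.log (v (A z)) + (Th v P.per (P.F z + β) - Th v P.per (P.F z - β)) / 2

variable (P) in
/-- The image of `z` is not a nonzero multiple of the point `β`. -/
def Gen (β z : ℂ) : Prop := ∀ k : ℤ, P.F z + k * β ∈ P.L.lattice → k = 0

variable [W.IsElliptic] (I : IntW v (W.baseChange ℂ))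
include I

theorem clear_K (h : Clear P a b k S) {z : ℂ} (hz : 0 < z.im) (h0 : b.eval (jf z) ≠ 0) :
    ∃ c : ℝ, ∀ t ∉ P.L.lattice, P.F z + t ∉ P.L.lattice → P.F z - t ∉ P.L.lattice →
      b.eval (jf z) + (℘[P.L] a - ℘[P.L] t) * k z ≠ 0 ∧
      Real.log (v (b.eval (jf z) + (℘[P.L] a - ℘[P.L] t) * k z)) = c + lamV v (P.per.unif t) -
        (lamV v (P.per.unif (P.F z + t)) + lamV v (P.per.unif (P.F z - t))) / 2 := by
  obtain ⟨c, hc⟩ := th_sum I P.per (P.F z)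
  refine ⟨c / 2 + 2 * Real.log (v (sig P.L a)) + Real.log (v (S z)), fun t ht h1 h2 => ?_⟩
  have r := h.rel t ht z hz
  have n := mul_ne_zero (sig_ne h1) (sig_ne h2)
  have m := mul_ne_zero n (h.ne hz h0)
  have e := right_ne_zero_of_mul (r ▸ mul_ne_zero (pow_ne_zero 2 (sig_ne h.nm)) m)
  have r' := congrArg (fun x => Real.log (v x)) r
  rw [lg_mul (pow_ne_zero 2 (sig_ne h.nm)) m, lg_mul n (h.ne hz h0), lg_mul (sig_ne h1) (sig_ne h2),
    lg_mul (pow_ne_zero 2 (sig_ne ht)) e, lg_pow, lg_pow] at r'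
  have := hc t ht h1 h2
  simp only [Th] at this
  push_cast at r'
  exact ⟨e, by linarith⟩

theorem clear_G (hβ : ∀ k : ℕ, k ≠ 0 → k * β ∉ P.L.lattice) {z : ℂ} (hg : Gen P β z)
    (h0 : A z ≠ 0) (h1 : S z ≠ 0) : ∃ c : ℝ, ∀ n : ℕ, n ≠ 0 →
      A z ^ n * sig P.L (P.F z + n * β) ^ 2 * S z ≠ 0 ∧
      Real.log (v (A z ^ n * sig P.L (P.F z + n * β) ^ 2 * S z)) = n * gl v P β A z + c +
        Th v P.per (n * β) - lamV v (P.per.unif (P.F z + n * β)) := by
  obtain ⟨c, hc⟩ := th_sum I P.per (P.F z)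
  refine ⟨c / 2 + Real.log (v (S z)), fun n hn => ?_⟩
  have a1 : P.F z + n * β ∉ P.L.lattice := fun e => hn (by simpa using hg n (by simpa using e))
  have a2 : P.F z - n * β ∉ P.L.lattice := fun e => hn (by
    simpa using hg (-n) (by simpa [sub_eq_add_neg] using e))
  have m := mul_ne_zero (pow_ne_zero n h0) (pow_ne_zero 2 (sig_ne a1))
  have e1 := hc _ (hβ n hn) a1 a2
  have e2 := th_lin I P.per hβ hg n
  refine ⟨mul_ne_zero m h1, ?_⟩
  rw [lg_mul m h1, lg_mul (pow_ne_zero n h0) (pow_ne_zero 2 (sig_ne a1)), lg_pow, lg_pow, gl]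
  rw [Th.eq_1 v P.per (P.F z + n * β)] at e1 e2
  push_cast
  linarith

/-- The maximum principle for the local Green function. -/
theorem local_le (hβ : ¬ IsOfFinAddOrder (P.per.unif β)) (hA : Mult P β A)
    (hA' : Mult P (-β) A') (hR : ∀ n, v (R.coeff n) ≤ 1)
    (e : ∀ z : ℂ, 0 < z.im → A z * A' z = R.eval (jf z)) (hτ : Aff N (valOf I.na) τ)
    (hτ' : Aff N (valOf I.na) τ') (g : Gen P β τ) (g' : Gen P β τ') (h0 : R.eval (jf τ) ≠ 0)
    (h0' : A τ' ≠ 0) : gl v P β A τ' + Real.log (v (R.eval (jf τ))) ≤ gl v P β A τ := by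
  have := finite_CI P.N0
  have := Fintype.ofFinite (CI N)
  have m : ∀ k : ℕ, k ≠ 0 → k * β ∉ P.L.lattice := fun k hk e => hβ
    (isOfFinAddOrder_iff_nsmul_eq_zero.2 ⟨k, Nat.pos_of_ne_zero hk, by
      rw [← map_nsmul, nsmul_eq_mul, P.per.unif_eq_zero_iff.2 e]⟩)
  obtain ⟨S₁, s1, s2⟩ := P.ig.exists_avo
  have s3 := P.ig.finite_fibre (b := (X - C (jf τ)) * (X - C (jf τ')))
    (mul_ne_zero (X_sub_C_ne_zero _) (X_sub_C_ne_zero _))
  obtain ⟨x, hx⟩ := (s1.union s3).exists_notMem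
  obtain ⟨a, a1, rfl⟩ := wp_surjective (L := P.L) x
  obtain ⟨b, k, S, h⟩ := exists_clear (s2 a a1 fun e => hx (Or.inl e))
  have b0 : ∀ z : ℂ, 0 < z.im → jf z = jf τ ∨ jf z = jf τ' → b.eval (jf z) ≠ 0 := fun z hz e e' => by
    obtain ⟨t, t1, t2, t3⟩ := (h.root z hz).1 e'
    refine hx (Or.inr ⟨t, ⟨t1, ?_⟩, ((po_iff a1).1 t3).2⟩)
    rcases e with e | e <;> simp [t2, e]
  have p : ∀ i : CI N, 0 < (act (cr i) τ).im := fun i =>
    act_pos (by rw [cr_det]; exact one_pos) hτ.pos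
  choose κ hκ using fun i : CI N => clear_K I h (p i) (b0 _ (p i) (Or.inl (jf_act (cr_det i) hτ.pos)))
  obtain ⟨_, k0⟩ := clear_K I h hτ.pos (b0 _ hτ.pos (Or.inl rfl))
  obtain ⟨c₁, h1⟩ := clear_G I m g (left_ne_zero_of_mul (e τ hτ.pos ▸ h0))
    (h.ne hτ.pos (b0 _ hτ.pos (Or.inl rfl)))
  obtain ⟨c₂, h2⟩ := clear_G I m g' h0' (h.ne hτ'.pos (b0 _ hτ'.pos (Or.inr rfl)))
  obtain ⟨cb, hb⟩ := exists_bd (valOf I.na) P.N0 (mf_eval P.N0 b)
  obtain ⟨ck, hk⟩ := exists_bd (valOf I.na) P.N0 h.mf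
  obtain ⟨c, hc⟩ := exists_far I P.per hβ
    ({0, P.F τ, P.F τ'} ∪ Finset.univ.image fun i : CI N => P.F (act (cr i) τ))
  refine sub_nonpos.1 (nonpos_of_mul_le (C := c₁ - c₂ - Real.log (v (W.baseChange ℂ).Δ) +
    Real.log c - 2 * ∑ i : CI N, (κ i + Real.log (v (W.baseChange ℂ).Δ) - Real.log c -
      Real.log (1 + v cb + (v (xco (P.per.unif a)) + c) * v ck))) fun T => ?_)
  obtain ⟨n, n1, n2⟩ := hc (T + 1)
  refine ⟨n, by omega, ?_⟩
  have n0 : n ≠ 0 := by omega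
  have t0 := n2 0 (by simp) _ (Or.inl (zero_add _).symm)
  have t1 := n2 (P.F τ) (by simp) _ (Or.inl rfl)
  have t2 := n2 (P.F τ') (by simp) _ (Or.inl rfl)
  obtain ⟨d, d0, d1, d2, d3⟩ := exists_dom v cb ((℘[P.L] a - ℘[P.L] (n * β)) * ck)
  have st := clear_step (R := R ^ n) h I.na t0.1 (hA.pow n) (mul_neg (n : ℂ) β ▸ hA'.pow n)
    (int_pow (V := valOf I.na) hR n) (fun z hz => by rw [← mul_pow, e z hz, eval_pow]) hτ hτ' d0
    (fun g hg => le_norm d0 (LE.add ((hb g hg).mono fun x hx => le_trans hx d1)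
      (le_smul (hk g hg) _ fun x hx => le_trans ?_ d2)))
    (k0 _ t0.1 t1.1 (n2 (P.F τ) (by simp) _ (Or.inr rfl)).1).1
  · have q : ∀ i : CI N, _ := fun i => by
      have w := n2 _ (Finset.mem_union_right _ (Finset.mem_image_of_mem _ (Finset.mem_univ i)))
      exact And.intro (hκ i _ t0.1 (w _ (Or.inl rfl)).1 (w _ (Or.inr rfl)).1)
        (And.intro (w _ (Or.inl rfl)).2.2.2 (w _ (Or.inr rfl)).2.2.2)
    have q0 : ∀ i : CI N, _ := fun i => mul_ne_zero (inv_ne_zero d0) (q i).1.1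
    have d4 : Real.log (v d) ≤ Real.log (1 + v cb + (v (xco (P.per.unif a)) + c) * v ck) :=
      Real.log_le_log (v.pos d0) (d3.trans (by
        rw [map_mul]
        gcongr
        exact (wp_bd P.per a1 t0.1).trans (by gcongr; exact t0.2.1)))
    have r0 := pow_ne_zero n h0
    have r1 := pow_ne_zero 2 (Finset.prod_ne_zero_iff.2 fun i (_ : i ∈ Finset.univ) => q0 i)
    rw [eval_pow, ← map_pow, ← map_mul, ← map_mul] at st
    have := Real.log_le_log (v.pos (mul_ne_zero (h2 n n0).1 (mul_ne_zero r0 r1))) st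
    rw [lg_mul (h2 n n0).1 (mul_ne_zero r0 r1), lg_mul r0 r1, lg_pow, lg_pow, (h1 n n0).2,
      (h2 n n0).2, map_prod, Real.log_prod fun i _ => (v.pos (q0 i)).ne'] at this
    have u := Finset.sum_le_sum fun i (_ : i ∈ Finset.univ) =>
      show κ i + Real.log (v (W.baseChange ℂ).Δ) - Real.log c -
        Real.log (1 + v cb + (v (xco (P.per.unif a)) + c) * v ck) ≤ Real.log (v (d⁻¹ *
          (b.eval (jf (act (cr i) τ)) + (℘[P.L] a - ℘[P.L] (n * β)) * k (act (cr i) τ)))) by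
        rw [lg_mul (inv_ne_zero d0) (q i).1.1, (q i).1.2, map_inv₀, Real.log_inv]
        linarith [(q i).2.1, (q i).2.2, t0.2.2.1]
    push_cast at this
    linarith [t1.2.2.1, t2.2.2.2]
  · rw [map_mul, map_mul]
    exact mul_le_mul_of_nonneg_left hx (v.nonneg _)

/-- The Green function takes the same value at points away from the divisor. -/
theorem local_eq (hβ : ¬ IsOfFinAddOrder (P.per.unif β)) (hA : Mult P β A)
    (hA' : Mult P (-β) A') (hR : ∀ n, v (R.coeff n) ≤ 1)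
    (e : ∀ z : ℂ, 0 < z.im → A z * A' z = R.eval (jf z)) (hτ : Aff N (valOf I.na) τ)
    (hτ' : Aff N (valOf I.na) τ') (g : Gen P β τ) (g' : Gen P β τ') (h0 : v (R.eval (jf τ)) = 1)
    (h0' : v (R.eval (jf τ')) = 1) : gl v P β A τ = gl v P β A τ' := by
  have n : R.eval (jf τ) ≠ 0 := fun k => by simp [k] at h0
  have n' : R.eval (jf τ') ≠ 0 := fun k => by simp [k] at h0'
  have a := local_le I hβ hA hA' hR e hτ hτ' g g' n (left_ne_zero_of_mul (e _ hτ'.pos ▸ n'))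
  have a' := local_le I hβ hA hA' hR e hτ' hτ g' g n' (left_ne_zero_of_mul (e _ hτ.pos ▸ n))
  rw [h0, Real.log_one] at a
  rw [h0', Real.log_one] at a'
  linarith

omit I [W.IsElliptic]

theorem gl_eq {z : ℂ} (g : Gen P β z) (h0 : A z ≠ 0) : gl v P β A z =
    Real.log (v (A z * (sig P.L (P.F z + β) / sig P.L (P.F z - β)))) +
      (lamV v (P.φ z + P.per.unif β) - lamV v (P.φ z - P.per.unif β)) / 2 := by
  have a1 := sig_ne fun e => one_ne_zero (g 1 (by simpa using e))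
  have a2 := sig_ne fun e => neg_ne_zero.2 one_ne_zero
    (g (-1) (by simpa [sub_eq_add_neg] using (e : P.F z - β ∈ P.L.lattice)))
  rw [lg_mul h0 (div_ne_zero a1 a2), map_div₀, Real.log_div (v.pos a1).ne' (v.pos a2).ne', gl, Th,
    Th, map_add, map_sub, Par.φ]
  ring

/-- The case of modular functions. -/
theorem local_le0 {Γ : Type*} [LinearOrderedCommGroupWithZero Γ] {V : Valuation ℂ Γ} (hN : N ≠ 0)
    (hA : MF N A) (hA' : MF N A') (hR : ∀ n, V (R.coeff n) ≤ 1)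
    (e : ∀ z : ℂ, 0 < z.im → A z * A' z = R.eval (jf z)) (hτ : Aff N V τ) (hτ' : Aff N V τ') :
    V (A τ') * V (R.eval (jf τ)) ≤ V (A τ) := by
  by_cases h : A τ' = 0
  · simp [h]
  obtain ⟨c, hc⟩ := exists_gn V hN hA hτ'.pos h
  exact (mul_le_mul_left (hc.val_le hN hA hτ') _).trans (hc.val_ge hN hA' hR e hτ)

end Pool.Agent.B5
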