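import Pool.Agent.Lib.MP_696deb_nt.B5.ZFb

/-! Systems of representatives at level `N`: unfolding of counts of pairs, and the lines. -/

set_option autoImplicit false

open Finset NumberTheorySymbols
open scoped Classical

namespace Pool.Agent.G5

open Pool.Agent.Lib.MP_696deb_nt Pool.Agent.B4.GE

/-- Complete systems of representatives, with trivial stabilizers, for the support of a weight. -/
structure Sys (N : ℕ) (S : Finset Fm) (m : Fm → ℤ) : Prop where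
  inv : ∀ Q R, FEq N Q R → m R = m Q
  ex : ∀ R, m R ≠ 0 → ∃ Q ∈ S, FEq N Q R
  uniq : ∀ Q ∈ S, ∀ R ∈ S, FEq N Q R → Q = R
  free : ∀ Q ∈ S, m Q ≠ 0 → ∀ a b c d : ℤ, a * d - b * (N * c) = 1 →
    fmap Q a b (N * c) d = Q → b = 0 ∧ N * c = 0

/-- Simultaneous equivalence of pairs of forms. -/
def PEq (N : ℕ) (p q : Fm × Fm) : Prop := ∃ a b c d : ℤ, a * d - b * (N * c) = 1 ∧
  q.1 = fmap p.1 a b (N * c) d ∧ q.2 = fmap p.2 a b (N * c) d

variable {N : ℕ}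

theorem PEq.symm {p q : Fm × Fm} (h : PEq N p q) : PEq N q p := by
  obtain ⟨a, b, c, d, h, h1, h2⟩ := h
  exact ⟨d, -b, -c, a, by linear_combination h, by rw [h1, mul_neg, fmap_inv h],
    by rw [h2, mul_neg, fmap_inv h]⟩

theorem PEq.trans {p q r : Fm × Fm} (h : PEq N p q) (h' : PEq N q r) : PEq N p r := by
  obtain ⟨a, b, c, d, h, h1, h2⟩ := h
  obtain ⟨a', b', c', d', h', h1', h2'⟩ := h'
  refine ⟨a * a' + b * (N * c'), a * b' + b * d', c * a' + d * c', N * c * b' + d * d',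
    by linear_combination (a' * d' - b' * (N * c')) * h + h', ?_, ?_⟩
  · rw [h1', h1, fmap_fmap]; congr 1; ring
  · rw [h2', h2, fmap_fmap]; congr 1; ring

theorem PEq.swap {p q : Fm × Fm} (h : PEq N p q) : PEq N p.swap q.swap := by
  obtain ⟨a, b, c, d, h, h1, h2⟩ := h
  exact ⟨a, b, c, d, h, h2, h1⟩

theorem Sys.ex_pair {S : Finset Fm} {m : Fm → ℤ} (hS : Sys N S m) {p : Fm × Fm}
    (h : m p.1 ≠ 0) : ∃ q : Fm × Fm, q.1 ∈ S ∧ PEq N q p := by
  obtain ⟨Q, hQ, a, b, c, d, e, k⟩ := hS.ex _ h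
  exact ⟨(Q, fmap p.2 d (-b) (-(N * c)) a), hQ, a, b, c, d, e, k, (fmap_inv' e _).symm⟩

theorem Sys.uniq_pair {S : Finset Fm} {m : Fm → ℤ} (hS : Sys N S m) {p q : Fm × Fm}
    (h : m p.1 ≠ 0) (hp : p.1 ∈ S) (hq : q.1 ∈ S) (e : PEq N p q) : p = q := by
  obtain ⟨a, b, c, d, e, h1, h2⟩ := e
  have h3 := hS.uniq _ hp _ hq ⟨a, b, c, d, e, h1⟩
  obtain ⟨rfl, h4⟩ := hS.free _ hp h a b c d e (h1.symm.trans h3.symm)
  refine Prod.ext h3 ?_
  rw [h4] at h2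
  rcases Int.eq_one_or_neg_one_of_mul_eq_one' (show a * d = 1 by simpa using e) with k | k <;>
    simp [h2, k, fmap, fval]

/-- The count of pairs can be unfolded on either side. -/
theorem cnt_swap {V : Type*} [AddCommGroup V] {S T : Finset Fm} {m w : Fm → ℤ} (hS : Sys N S m)
    (hT : Sys N T w) (g : Fm → Fm → V)
    (hg : ∀ (Q R : Fm) (a b c d : ℤ), a * d - b * (N * c) = 1 →
      g (fmap Q a b (N * c) d) (fmap R a b (N * c) d) = g Q R)
    (h1 : ∀ Q ∈ S, m Q ≠ 0 → {R | w R ≠ 0 ∧ g Q R ≠ 0}.Finite) :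
    ∑ Q ∈ S, ∑ᶠ R : Fm, (m Q * w R) • g Q R = ∑ R ∈ T, ∑ᶠ Q : Fm, (m Q * w R) • g Q R := by
  let P : Fm × Fm → Prop := fun p => m p.1 ≠ 0 ∧ w p.2 ≠ 0 ∧ g p.1 p.2 ≠ 0
  have hP : ∀ {p q}, PEq N p q → m q.1 = m p.1 ∧ w q.2 = w p.2 ∧ g q.1 q.2 = g p.1 p.2 := by
    rintro p q ⟨a, b, c, d, e, k1, k2⟩
    exact ⟨hS.inv _ _ ⟨a, b, c, d, e, k1⟩, hT.inv _ _ ⟨a, b, c, d, e, k2⟩,
      by rw [k1, k2, hg _ _ _ _ _ _ e]⟩
  have hP' : ∀ {p q}, PEq N p q → P p → P q := fun e h => by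
    simp only [P, (hP e).1, (hP e).2.1, (hP e).2.2]; exact h
  have h0 : ∀ Q R, (m Q * w R) • g Q R ≠ 0 → P (Q, R) := fun Q R h =>
    ⟨fun k => h (by simp [show m Q = 0 from k]), fun k => h (by simp [show w R = 0 from k]),
      fun k => h (by simp [show g Q R = 0 from k])⟩
  have hX : {p : Fm × Fm | p.1 ∈ S ∧ P p}.Finite := by
    refine ((S.filter fun Q => m Q ≠ 0).finite_toSet.biUnion fun Q hQ => (h1 Q (mem_filter.mp hQ).1
      (mem_filter.mp hQ).2).image (Prod.mk Q)).subset fun p hp => ?_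
    exact Set.mem_biUnion (x := p.1) (mem_filter.mpr ⟨hp.1, hp.2.1⟩) ⟨p.2, hp.2.2, rfl⟩
  choose! φ φ1 φ2 using fun (p : Fm × Fm) (hp : P p) => hT.ex_pair (p := p.swap) hp.2.1
  have hb : Set.BijOn φ {p | p.1 ∈ S ∧ P p} {q | q.1 ∈ T ∧ P q.swap} := by
    refine ⟨fun p hp => ⟨φ1 p hp.2, hP' (φ2 p hp.2).swap.symm hp.2⟩, fun p hp q hq e =>
      hS.uniq_pair hp.2.1 hp.1 hq.1 ((φ2 p hp.2).swap.symm.trans (e ▸ (φ2 q hq.2).swap)),
      fun q hq => ?_⟩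
    obtain ⟨p, k1, k2⟩ := hS.ex_pair (p := q.swap) hq.2.1
    have k3 := hP' k2.symm hq.2
    exact ⟨p, ⟨k1, k3⟩, (hT.uniq_pair hq.2.2.1 hq.1 (φ1 p k3)
      (k2.swap.symm.trans (φ2 p k3).symm)).symm⟩
  have hY := hb.image_eq ▸ hX.image φ
  rw [sum_finsum_eq (X := hX.toFinset) (fun p hp => (hX.mem_toFinset.mp hp).1)
      fun Q hQ R h => hX.mem_toFinset.mpr ⟨hQ, h0 Q R h⟩,
    sum_finsum_eq (X := hY.toFinset) (fun p hp => (hY.mem_toFinset.mp hp).1)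
      fun R hR Q h => hY.mem_toFinset.mpr ⟨hR, h0 Q R h⟩]
  refine sum_nbij φ (fun p hp => hY.mem_toFinset.mpr (hb.mapsTo (hX.mem_toFinset.mp hp)))
    (by simpa using hb.injOn) (by simpa using hb.surjOn) fun p hp => ?_
  obtain ⟨k1, k2, k3⟩ := hP (φ2 p (hX.mem_toFinset.mp hp).2).swap
  exact congr_arg₂ _ (congr_arg₂ _ k1 k2) k3

/-- The lines `k / A` represent the split family. -/
theorem sys_lines {A : ℕ} (hN : 1 < N) (hA : 0 < A) (hc : A.Coprime N) {m : Fm → ℤ}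
    (hm : ∀ Q R, FEq N Q R → m R = m Q) (hs : ∀ R, m R ≠ 0 → Fam N (A ^ 2) A R) :
    Sys N ((Ico (0 : ℤ) A).image fun k => ((0, A, -k) : Fm)) m := by
  have A0 : (0 : ℤ) < A := by exact_mod_cast hA
  have hc' : IsCoprime (N : ℤ) A := Nat.isCoprime_iff_coprime.mpr hc.symm
  refine ⟨hm, fun R hR => ?_, ?_, fun Q hQ h a b c d e k => free_of_sq A0.ne' (hs Q h).2.1 e k⟩
  · obtain ⟨⟨a, ha⟩, h2, l, hl⟩ := hs R hR
    rw [fdisc] at h2
    have h3 : R.2.1 + A ≠ 0 := fun k => by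
      have := Int.isUnit_iff.1 (hc'.isUnit_of_dvd ⟨-l, by linarith⟩)
      omega
    obtain ⟨g, x, y, g0, hxy, hx, hy⟩ := Int.exists_gcd_one' (m := R.2.1 + A) (n := -(2 * R.1))
      (Int.gcd_pos_of_ne_zero_left _ h3)
    obtain ⟨z, w, e⟩ := Int.isCoprime_iff_gcd_eq_one.mpr hxy
    have g0' : (g : ℤ) ≠ 0 := by exact_mod_cast g0.ne'
    have k1 : 2 * R.1 * x + (R.2.1 + A) * y = 0 :=
      mul_right_cancel₀ g0' (by linear_combination -2 * R.1 * hx - (R.2.1 + A) * hy)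
    have k2 : (R.2.1 - A) * x + 2 * R.2.2 * y = 0 :=
      mul_right_cancel₀ g0' (by linear_combination -(R.2.1 - A) * hx - 2 * R.2.2 * hy + h2)
    obtain ⟨y, rfl⟩ : (N : ℤ) ∣ y := hc'.dvd_of_dvd_mul_left ⟨-(a * x + l * y),
      mul_left_cancel₀ two_ne_zero (by linear_combination k1 - 2 * x * ha - y * hl)⟩
    have e' : x * z - -w * (N * y) = 1 := by linear_combination e
    obtain ⟨C, hC⟩ : ∃ C, C = fval R (-w) z := ⟨_, rfl⟩
    have k3 : fmap R x (-w) (N * y) z = (0, (A : ℤ), C) := by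
      refine Prod.ext (mul_left_cancel₀ two_ne_zero ?_) (Prod.ext ?_ hC.symm) <;>
        simp only [fmap, fval]
      · linear_combination x * k1 + N * y * k2
      · linear_combination (-w) * k1 + z * k2 + A * e'
    refine ⟨(0, A, -(-C % A)), mem_image.mpr ⟨_, mem_Ico.mpr
      ⟨Int.emod_nonneg _ A0.ne', Int.emod_lt_of_pos _ A0⟩, rfl⟩, FEq.symm
      (FEq.trans ⟨x, -w, y, z, e', k3.symm⟩ ⟨1, -C / A, 0, 1, by simp, ?_⟩)⟩
    simp only [fmap, fval, Prod.mk.injEq, Int.emod_def]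
    refine ⟨?_, ?_, ?_⟩ <;> ring
  · simp only [forall_mem_image, mem_Ico]
    rintro k hk k' hk' ⟨x, w, y, z, e, h⟩
    generalize (N : ℤ) * y = y at e h
    simp only [fmap, fval, Prod.mk.injEq] at h
    obtain ⟨h1, h2, h3⟩ := h
    obtain rfl : y = 0 := by
      by_contra hy
      have k1 : A * x = k * y := mul_left_cancel₀ hy (by linarith)
      have k2 : A * w = k * z := mul_left_cancel₀ (mul_ne_zero two_ne_zero hy)
        (by linear_combination -h2 - A * e)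
      exact A0.ne' (by linear_combination -A * e + z * k1 - y * k2)
    have h4 : z ^ 2 = 1 := by
      rcases Int.eq_one_or_neg_one_of_mul_eq_one' (show x * z = 1 by simpa using e) with k | k <;>
        simp [k.2]
    have h5 : (A : ℤ) ∣ k - k' := ⟨w * z, by linear_combination h3 - k * h4⟩
    rw [sub_eq_zero.mp (Int.eq_zero_of_abs_lt_dvd h5 (abs_lt.mpr ⟨by omega, by omega⟩))]

/-- The representatives of the special points form a system. -/
theorem FReps.sys {B n : ℕ} {D β M : ℤ} {T : Finset Fm} (hT : FReps N D β T) (hn : Squarefree n)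
    (h3 : 3 < n) (hM : M ≠ 0) (h0 : D = -(n * M ^ 2)) (hB : Odd B) (hD : (B : ℤ) ∣ D) :
    Sys N T fun Q => if 0 < Q.1 then wG N B D β Q else 0 := by
  have D0 : D < 0 := by rw [h0, neg_lt_zero]; positivity
  refine ⟨fun Q R h => ?_, fun R h => hT.ex R (fam_of_wG (ite_ne_right_iff.mp h).2)
    (ite_ne_right_iff.mp h).1, hT.uniq, fun Q hQ _ a b c d e k => ?_⟩
  · rw [(wt_wG hB hD β).inv Q R h]
    by_cases k : Fam N D β Q
    · exact if_congr ⟨h.symm.pos ((h.fam k).2.1 ▸ D0), h.pos (k.2.1 ▸ D0)⟩ rfl rfl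
    · simp [wG, k]
  · rcases free_of_cm (g := !![a, b; N * c, d]) hn h3 hM (g0_of e).1
      ((hT.fam Q hQ).2.1.trans h0) k with h | h
    · exact ⟨congr_fun₂ h 0 1, congr_fun₂ h 1 0⟩
    · exact ⟨congr_fun₂ h 0 1, congr_fun₂ h 1 0⟩

end Pool.Agent.G5
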