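import Pool.Agent.Lib.MP_696deb_nt.B4.GEm

/-! Explicit modular data for a curve `y ^ 2 = x (x ^ 2 + a x + b)`: the interface. -/

set_option autoImplicit false

open PowerSeries Filter Topology

namespace Pool.Agent.B5

open Pool.Agent.Lib.MP_696deb_nt Pool.Agent.B4.GE

/-- The two functions change by a common nonzero factor between `z` and `w`. -/
def Prop2 (A B : ℂ → ℂ) (w z : ℂ) : Prop := ∃ j : ℂ, j ≠ 0 ∧ A w = j * A z ∧ B w = j * B z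

/-- A form `f` of weight two and a function `S = A / B`, which will be `y / x`. -/
structure Raw (N : ℕ) (a b : ℤ) where
  N0 : N ≠ 0
  b0 : b ≠ 0
  f : ℂ → ℂ
  A : ℂ → ℂ
  B : ℂ → ℂ
  cs : ℤ⟦X⟧
  As : ℤ⟦X⟧
  Bs : ℤ⟦X⟧
  qf : QE f (toC cs)
  c0 : coeff 0 cs = 0
  c1 : coeff 1 cs = 1
  inv : ∀ g, G0 N g → ∀ z : ℂ, 0 < z.im → f (act g z) = den g z ^ 2 * f z
  cusp : ∀ g : MZ, g.det = 1 → Tendsto (fun z => f (act g z) / den g z ^ 2) atI (𝓝 0)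
  hW : ∀ z : ℂ, 0 < z.im → f (-1 / (N * z)) = -(N * z ^ 2 * f z)
  hT : ∀ l : ℕ, l.Prime → ¬ l ∣ N → ∀ n : ℕ,
    coeff (l * n) cs + (if l ∣ n then l * coeff (n / l) cs else 0) = coeff l cs * coeff n cs
  qA : QE A (toC As)
  qB : QE B (toC (X * Bs))
  B0 : coeff 0 Bs ≠ 0
  A0 : coeff 0 As = -2 * coeff 0 Bs
  invS : ∀ g, G0 N g → ∀ z : ℂ, 0 < z.im → Prop2 A B (act g z) z
  zero : (∀ z : ℂ, 0 < z.im → Prop2 A B (-1 / (N * z)) z) ∨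
    ((∀ᶠ z in atI, B (-1 / (N * z)) ≠ 0) ∧
      Tendsto (fun z => A (-1 / (N * z)) / B (-1 / (N * z))) atI (𝓝 0))
  ode : 4 * (X * (d⁄dX ℤ As * (X * Bs) - As * d⁄dX ℤ (X * Bs))) ^ 2 =
    cs ^ 2 * ((As ^ 2 - C a * (X * Bs) ^ 2) ^ 2 - 4 * C b * (X * Bs) ^ 4)

end Pool.Agent.B5
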