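import Pool.Agent.Lib.MP_696deb_nt.B5.MD0
import Pool.Agent.Lib.MP_696deb_nt.UnifP

/-! The differential equation of the parametrization. -/

set_option autoImplicit false

open PowerSeries Filter Topology Complex
open scoped Real

namespace Pool.Agent.B5

open Pool.Agent.Lib.MP_696deb_nt Pool.Agent.Lib.MP_696deb_nt.B4 Pool.Agent.B4.GE
open Pool.Agent.Lib.MP_696deb_nt.Unif

theorem toC_der (A : ℤ⟦X⟧) : toC (d⁄dX ℤ A) = d⁄dX ℂ (toC A) := by
  ext n
  simp [coeff_derivative]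

theorem md_an {G : ℂ → ℂ} (h : Hol G) {z : ℂ} (hz : 0 < z.im) : AnalyticAt ℂ G z :=
  DifferentiableOn.analyticAt (s := {w : ℂ | 0 < w.im})
    (fun w hw => (h w hw).differentiableWithinAt)
    ((isOpen_lt continuous_const continuous_im).mem_nhds hz)

theorem md_nolim {G : ℂ → ℂ} {m : ℕ} {c e : ℂ} (hm : m ≠ 0) (hc : c ≠ 0)
    (h : Tendsto (fun z => q1 z ^ m * G z) atI (𝓝 c)) (h' : Tendsto G atI (𝓝 e)) : False := by
  have := (tendsto_q1.pow m).mul h'
  rw [zero_pow hm, zero_mul] at this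
  exact hc (tendsto_nhds_unique h this)

theorem md_act {g : MZ} (hg : 0 < g.det) {z : ℂ} (hz : 0 < z.im) :
    HasDerivAt (act g) (g.det / den g z ^ 2) z := by
  have := hasDerivAt_mob (a := g 0 0) (b := g 0 1) (c := g 1 0) (d := g 1 1)
    (by rw [← Matrix.det_fin_two]; exact hg.ne') hz
  rwa [← Matrix.det_fin_two] at this

variable {N : ℕ} {a b : ℤ} (R : Raw N a b) {z : ℂ}

/-- The primitive. -/
noncomputable def Raw.F : ℂ → ℂ := prF (toC R.cs)

/-- The function `y / x`. -/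
noncomputable def Raw.S (z : ℂ) : ℂ := R.A z / R.B z

/-- The function `x - b / x`. -/
noncomputable def Raw.D (z : ℂ) : ℂ := deriv R.S z / (π * I * R.f z)

/-- The function `x`. -/
noncomputable def Raw.x (z : ℂ) : ℂ := (R.S z ^ 2 - a + R.D z) / 2

/-- Points where all denominators are nonzero. -/
def Raw.Ok (z : ℂ) : Prop := 0 < z.im ∧ R.B z ≠ 0 ∧ R.f z ≠ 0

theorem Raw.c0' : coeff 0 (toC R.cs) = 0 := by rw [coeff_map, R.c0, map_zero]

theorem Raw.dF (hz : 0 < z.im) : HasDerivAt R.F (2 * π * I * R.f z) z := gl_deriv R.qf R.c0' hz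

theorem Raw.br : ∃ G : ℂ → ℂ,
    QE G (toC (X * (d⁄dX ℤ R.As * (X * R.Bs) - R.As * d⁄dX ℤ (X * R.Bs)))) ∧
    ∀ z : ℂ, 0 < z.im → R.B z ≠ 0 → deriv R.S z = 2 * π * I * G z / R.B z ^ 2 := by
  obtain ⟨A₁, a1, a2⟩ := R.qA.hasDerivAt
  obtain ⟨B₁, b1, b2⟩ := R.qB.hasDerivAt
  refine ⟨fun z => A₁ z * R.B z - R.A z * B₁ z, ?_, fun z hz h => ?_⟩
  · convert (a1.mul R.qB).sub (R.qA.mul b1) using 1
    simp only [map_mul toC X (_ - _), map_sub, map_mul toC (d⁄dX ℤ _), map_mul toC R.As, toC_der,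
      map_X]
    ring
  · rw [show R.S = R.A / R.B from rfl, ((a2 z hz).div (b2 z hz) h).deriv]
    ring

variable {R}

theorem Raw.Ok.ev (h : R.Ok z) : ∀ᶠ w in 𝓝 z, R.Ok w :=
  ((isOpen_lt continuous_const continuous_im).eventually_mem h.1).and
    (((R.qB.hol z h.1).continuousAt.eventually_ne h.2.1).and
      ((R.qf.hol z h.1).continuousAt.eventually_ne h.2.2))

theorem Raw.Ok.pi (h : R.Ok z) : π * I * R.f z ≠ 0 :=
  mul_ne_zero (mul_ne_zero (ofReal_ne_zero.2 Real.pi_ne_zero) I_ne_zero) h.2.2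

theorem Raw.Ok.anS (h : R.Ok z) : AnalyticAt ℂ R.S z :=
  (md_an R.qA.hol h.1).div (md_an R.qB.hol h.1) h.2.1

theorem Raw.Ok.anD (h : R.Ok z) : AnalyticAt ℂ R.D z :=
  h.anS.deriv.div (analyticAt_const.mul (md_an R.qf.hol h.1)) h.pi

theorem Raw.Ok.anx (h : R.Ok z) : AnalyticAt ℂ R.x z :=
  (((h.anS.pow 2).sub analyticAt_const).add h.anD).div analyticAt_const two_ne_zero

theorem Raw.Ok.dS (h : R.Ok z) : HasDerivAt R.S (π * I * R.f z * R.D z) z := by
  rw [Raw.D, mul_div_cancel₀ _ h.pi]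
  exact h.anS.differentiableAt.hasDerivAt

theorem Raw.Ok.quad (h : R.Ok z) : R.D z ^ 2 = (R.S z ^ 2 - a) ^ 2 - 4 * b := by
  obtain ⟨G, g1, g2⟩ := R.br
  have e := congrArg toC R.ode
  have qB := R.qB
  generalize X * (d⁄dX ℤ R.As * (X * R.Bs) - R.As * d⁄dX ℤ (X * R.Bs)) = T at e g1
  generalize X * R.Bs = U at e qB
  have k1 := (QE.ofNat 4).mul (g1.pow 2)
  have k2 := (R.qf.pow 2).mul ((((R.qA.pow 2).sub ((qB.pow 2).smul a)).pow 2).sub
    (((QE.ofNat 4).mul (QE.const b)).mul (qB.pow 4)))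
  simp only [map_mul, map_pow, map_sub, map_ofNat, map_C] at e
  simp only [eq_intCast (Int.castRingHom ℂ)] at e
  rw [e] at k1
  have k3 := k1.eq_of_eq k2 h.1
  have := h.2.1
  have := h.2.2
  have := ofReal_ne_zero.2 Real.pi_ne_zero
  rw [Raw.D, g2 z h.1 h.2.1, Raw.S]
  field_simp
  linear_combination k3

theorem Raw.Ok.rel (h : R.Ok z) : R.S z ^ 2 * R.x z = R.x z ^ 2 + a * R.x z + b := by
  rw [Raw.x]
  linear_combination -h.quad / 4

theorem Raw.Ok.dx (h : R.Ok z) (hD : R.D z ≠ 0) :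
    HasDerivAt R.x (2 * π * I * R.f z * (R.S z * R.x z)) z := by
  have k1 := h.anD.differentiableAt.hasDerivAt
  have k2 := ((k1.pow 2).congr_of_eventuallyEq (h.ev.mono fun w hw => hw.quad.symm)).unique
    (((((h.dS.pow 2).sub_const (a : ℂ)).pow 2)).sub_const (4 * b : ℂ))
  simp only [Nat.cast_ofNat, Nat.add_one_sub_one, pow_one, Pi.pow_apply] at k2
  convert! (((h.dS.pow 2).sub_const (a : ℂ)).add k1).div_const 2 using 1
  apply mul_left_cancel₀ hD
  simp only [Nat.cast_ofNat, Nat.add_one_sub_one, pow_one, Raw.x]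
  linear_combination -k2 / 4

theorem Raw.Ok.tr (h : R.Ok z) {g : MZ} (hg : 0 < g.det) {ε : ℂ} (he : ε ≠ 0)
    (hp : ∀ z : ℂ, 0 < z.im → Prop2 R.A R.B (act g z) z)
    (hf : g.det * R.f (act g z) = ε * (den g z ^ 2 * R.f z)) :
    R.Ok (act g z) ∧ R.S (act g z) = R.S z ∧ ε * R.D (act g z) = R.D z := by
  have d0 := den_ne' hg.ne' h.1
  have k : ∀ w, R.Ok w → R.B (act g w) ≠ 0 ∧ R.S (act g w) = R.S w := fun w hw => by
    obtain ⟨j, j0, j1, j2⟩ := hp w hw.1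
    exact ⟨j2 ▸ mul_ne_zero j0 hw.2.1, by rw [Raw.S, j1, j2, mul_div_mul_left _ _ j0, Raw.S]⟩
  have o : R.Ok (act g z) := ⟨act_pos hg h.1, (k z h).1, fun e =>
    mul_ne_zero he (mul_ne_zero (pow_ne_zero 2 d0) h.2.2) (by rw [← hf, e, mul_zero])⟩
  refine ⟨o, (k z h).2, mul_left_cancel₀ h.pi ?_⟩
  rw [h.dS.unique ((o.dS.comp z (md_act hg h.1)).congr_of_eventuallyEq
    (h.ev.mono fun w hw => (k w hw).2.symm))]
  field_simp
  linear_combination -R.D (act g z) * hf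

variable (R)

theorem Raw.lim : Tendsto (fun z => R.B z / q1 z) atI (𝓝 (coeff 0 R.Bs : ℤ)) ∧
    Tendsto (fun z => R.f z / q1 z) atI (𝓝 1) ∧
    Tendsto (fun z => q1 z ^ 1 * R.S z) atI (𝓝 (-2)) := by
  have b0 : ((coeff 0 R.Bs : ℤ) : ℂ) ≠ 0 := Int.cast_ne_zero.2 R.B0
  have h1 : Tendsto (fun z => R.B z / q1 z) atI (𝓝 (coeff 0 R.Bs : ℤ)) := by
    have := R.qB
    rw [map_mul, map_X, ← pow_one X] at this
    simpa using this.of_X_pow_mul.tendsto
  refine ⟨h1, ?_, ?_⟩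
  · obtain ⟨U, hU⟩ := X_dvd_iff.2 ((coeff_zero_eq_constantCoeff_apply R.cs).symm.trans R.c0)
    have k := R.qf
    have k1 := R.c1
    rw [hU] at k k1
    rw [map_mul, map_X, ← pow_one X] at k
    rw [coeff_succ_X_mul] at k1
    simpa [-coeff_zero_eq_constantCoeff, k1] using k.of_X_pow_mul.tendsto
  · have := R.qA.tendsto.div h1 b0
    rw [coeff_map, R.A0, eq_intCast, Int.cast_mul, mul_div_cancel_right₀ _ b0] at this
    refine (by simpa using this : Tendsto _ atI (𝓝 (-2 : ℂ))).congr fun z => ?_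
    simp only [Raw.S, Pi.div_apply]
    field

theorem Raw.ev_ok : ∀ᶠ z in atI, R.Ok z := by
  filter_upwards [ev_pos, R.lim.1.eventually_ne (Int.cast_ne_zero.2 R.B0),
    R.lim.2.1.eventually_ne one_ne_zero] with z h0 h1 h2
  exact ⟨h0, fun e => h1 (by rw [e, zero_div]), fun e => h2 (by rw [e, zero_div])⟩

theorem Raw.limD : Tendsto (fun z => q1 z ^ 2 * R.D z) atI (𝓝 4) := by
  obtain ⟨G, g1, g2⟩ := R.br
  have b0 : ((coeff 0 R.Bs : ℤ) : ℂ) ≠ 0 := Int.cast_ne_zero.2 R.B0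
  rw [map_mul, map_X, ← pow_one X] at g1
  have k := (g1.of_X_pow_mul.tendsto.const_mul 2).div ((R.lim.1.pow 2).mul R.lim.2.1)
    (by simpa using b0)
  have e : coeff 0 (d⁄dX ℤ R.As * (X * R.Bs) - R.As * d⁄dX ℤ (X * R.Bs)) =
      2 * coeff 0 R.Bs ^ 2 := by
    rw [map_sub, mul_left_comm, coeff_zero_X_mul, coeff_mul, Finset.Nat.antidiagonal_zero,
      Finset.sum_singleton, coeff_derivative, coeff_succ_X_mul, R.A0]
    push_cast
    ring
  rw [coeff_map, e, eq_intCast] at k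
  convert k.congr' (R.ev_ok.mono fun z hz => ?_) using 2
  · push_cast
    field_simp
    norm_num
  · have := hz.2.1
    have := hz.2.2
    have := q1_ne z
    have := ofReal_ne_zero.2 Real.pi_ne_zero
    simp only [Pi.div_apply, Raw.D, g2 z hz.1 hz.2.1]
    field_simp

theorem Raw.limx : Tendsto (fun z => q1 z ^ 2 * R.x z) atI (𝓝 4) := by
  convert (((R.lim.2.2.pow 2).sub ((tendsto_q1.pow 2).mul_const (a : ℂ))).add R.limD).div_const 2
    using 2
  · rw [Raw.x]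
    ring
  · norm_num

end Pool.Agent.B5
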