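import Pool.Agent.Lib.MP_696deb_nt.B5.MDa

/-! The periods of the form lie in the lattice of the curve. -/

set_option autoImplicit false

open PowerSeries Filter Topology Complex
open scoped Real MatrixGroups

namespace Pool.Agent.B5

open Pool.Agent.Lib.MP_696deb_nt Pool.Agent.Lib.MP_696deb_nt.B4 Pool.Agent.B4.GE
open Pool.Agent.Lib.MP_696deb_nt.Unif Pool.Agent.Shared.Weier

variable {N : ℕ} {a b : ℤ} (R : Raw N a b) {z k : ℂ} {L : PeriodPair}

/-- The lattice belongs to the curve, up to the scaling `2 k`. -/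
structure Sc (a b : ℤ) (k : ℂ) (L : PeriodPair) : Prop where
  k0 : k ≠ 0
  h4 : (2 * k) ^ 4 * (12 * L.g₂) = 16 * a ^ 2 - 48 * b
  h6 : (2 * k) ^ 6 * (216 * L.g₃) = -64 * a ^ 3 + 288 * a * b

theorem md_four : (4 : ℂ) ≠ 0 := by norm_num

theorem md_limP {G : ℂ → ℂ} {c : ℂ} (hc : c ∉ L.lattice) (h : Tendsto G atI (𝓝 c)) (u v : ℂ) :
    Tendsto (fun z => u * L.weierstrassP (G z) - v) atI (𝓝 (u * L.weierstrassP c - v)) :=
  (((hasDerivAt_P L hc).continuousAt.tendsto.comp h).const_mul u).sub_const v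

theorem Raw.limF (k c : ℂ) : Tendsto (fun z => k * R.F z + c) atI (𝓝 c) := by
  simpa [Raw.F] using ((gl_zero R.qf).const_mul k).add_const c

theorem Raw.loc (h : Sc a b k L) : ∃ Y : ℝ, 0 ≤ Y ∧ ∀ z : ℂ, Y < z.im →
    R.x z = (2 * k) ^ 2 * L.weierstrassP (k * R.F z) - a / 3 := by
  have k0 := h.k0
  obtain ⟨Y, hY⟩ := eventually_atTop.1 (eventually_comap.1 (R.ev_ok.and
    ((R.limD.eventually_ne md_four).and ((R.limx.eventually_ne md_four).and
      (R.lim.2.2.eventually_ne (neg_ne_zero.2 two_ne_zero))))))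
  replace hY := fun (z : ℂ) (hz : Y < z.im) => hY _ hz.le z rfl
  have z0 : Y < ((Y + 1 : ℝ) * I : ℂ).im := by simp
  obtain ⟨c, hc⟩ := P_comp L (U := {z | Y < z.im}) (isOpen_lt continuous_const continuous_im)
    (convex_halfSpace_im_gt Y).isPreconnected (F := fun z => k * R.F z)
    (A := fun z => (R.x z + a / 3) / (2 * k) ^ 2)
    (A₁ := fun z => 2 * (R.S z * R.x z) / (2 * k) ^ 3) (g := fun z => k * (2 * π * I * R.f z))
    (fun z hz => (R.dF (hY z hz).1.1).const_mul k)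
    (fun z hz => mul_ne_zero k0 (mul_ne_zero two_pi_I_ne_zero (hY z hz).1.2.2))
    (fun z hz => by
      convert! (((hY z hz).1.dx (right_ne_zero_of_mul (hY z hz).2.1)).add_const
        (a / 3 : ℂ)).div_const ((2 * k) ^ 2) using 1
      field_simp)
    (fun z hz => (((hY z hz).1.anS.mul (hY z hz).1.anx).differentiableAt.const_mul 2).div_const _)
    (fun z hz => by
      have h4 : L.g₂ = (16 * a ^ 2 - 48 * b) / ((2 * k) ^ 4 * 12) := by
        rw [← h.h4]
        field_simp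
      have h6 : L.g₃ = (-64 * a ^ 3 + 288 * a * b) / ((2 * k) ^ 6 * 216) := by
        rw [← h.h6]
        field_simp
      rw [h4, h6]
      field_simp
      linear_combination 279936 * R.x z * (hY z hz).1.rel) z0
    (div_ne_zero (mul_ne_zero two_ne_zero (mul_ne_zero (right_ne_zero_of_mul (hY _ z0).2.2.2)
      (right_ne_zero_of_mul (hY _ z0).2.2.1))) (pow_ne_zero _ (mul_ne_zero two_ne_zero k0)))
  have e : ∀ z : ℂ, Y < z.im →
      R.x z = (2 * k) ^ 2 * L.weierstrassP (k * R.F z + c) - a / 3 := fun z hz => by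
    rw [← (hc z hz).2.1]
    field_simp
    ring
  have c0 : c ∈ L.lattice := by
    by_contra c0
    exact md_nolim two_ne_zero md_four R.limx ((md_limP c0 (R.limF k c) _ _).congr'
      ((tendsto_comap.eventually (eventually_gt_atTop Y)).mono fun z hz => (e z hz).symm))
  exact ⟨max Y 0, le_max_right _ _, fun z hz => by
    rw [e z ((le_max_left _ _).trans_lt hz), L.weierstrassP_add_coe _ ⟨c, c0⟩]⟩

variable {R} in
theorem Raw.Ok.glob (o : R.Ok z) (h : Sc a b k L) : k * R.F z ∉ L.lattice ∧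
    R.x z = (2 * k) ^ 2 * L.weierstrassP (k * R.F z) - a / 3 := by
  obtain ⟨Y, Y0, hY⟩ := R.loc h
  have k2 : (2 * k) ^ 2 ≠ 0 := pow_ne_zero _ (mul_ne_zero two_ne_zero h.k0)
  have aF : ∀ w : ℂ, 0 < w.im → AnalyticAt ℂ (fun w => k * R.F w) w := fun w hw =>
    analyticAt_const.mul (md_an (gl_qe R.qf).hol hw)
  have mS : ∀ w : ℂ, 0 < w.im → MeromorphicAt R.S w := fun w hw =>
    (md_an R.qA.hol hw).meromorphicAt.div (md_an R.qB.hol hw).meromorphicAt
  have z0 : Y < ((Y + 1 : ℝ) * I : ℂ).im := by simp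
  have h3 : (fun w => (R.x w + a / 3) / (2 * k) ^ 2) =ᶠ[𝓝[≠] z]
      L.weierstrassP ∘ fun w => k * R.F w :=
    mero_ext (U := {w | 0 < w.im}) (A := fun w => (R.x w + a / 3) / (2 * k) ^ 2)
      (convex_halfSpace_im_gt 0).isPreconnected
      (fun w hw => (((((((mS w hw).pow 2).sub (.const _ _)).add ((mS w hw).deriv.div
        ((MeromorphicAt.const _ _).mul (md_an R.qf.hol hw).meromorphicAt))).div (.const _ _)).add
        (.const _ _)).div (.const _ _)))
      (fun w hw => (L.meromorphic_weierstrassP _).comp_analyticAt (aF w hw)) (Y0.trans_lt z0) o.1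
      (mem_nhdsWithin_of_mem_nhds (mem_of_superset
        ((isOpen_lt continuous_const continuous_im).mem_nhds z0) fun w hw => by
          simp only [Set.mem_ofPred_eq, hY w hw, Function.comp, sub_add_cancel,
            mul_div_cancel_left₀ _ k2]))
  have aA : AnalyticAt ℂ (fun w => (R.x w + a / 3) / (2 * k) ^ 2) z :=
    (o.anx.add analyticAt_const).div analyticAt_const k2
  have dF := (R.dF o.1).const_mul k
  have h4 : k * R.F z ∉ L.lattice := fun m => by
    have := aA.meromorphicOrderAt_nonneg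
    rw [meromorphicOrderAt_congr h3, meromorphicOrderAt_comp_of_deriv_ne_zero (aF z o.1)
      (by rw [dF.deriv]; exact mul_ne_zero h.k0 (mul_ne_zero two_pi_I_ne_zero o.2.2)),
      L.order_weierstrassP _ m] at this
    exact absurd this (by decide)
  have h6 := ((aA.continuousAt.eventuallyEq_nhds_iff_eventuallyEq_nhdsNE
    ((hasDerivAt_P L h4).comp z dF).continuousAt).mp h3).eq_of_nhds
  refine ⟨h4, ?_⟩
  rw [Function.comp_apply] at h6
  rw [← h6, mul_div_cancel₀ _ k2, add_sub_cancel_right]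

theorem Raw.per (h : Sc a b k L) {g : MZ} (hg : G0 N g) (hz : 0 < z.im) :
    k * (R.F (act g z) - R.F z) ∈ L.lattice := by
  have g0 : 0 < g.det := by rw [hg.1]; exact one_pos
  obtain ⟨c, hc⟩ := const_of_deriv (G := fun z => R.F (act g z) - R.F z) fun z hz => by
    convert! (gl_act g0 R.qf R.c0' hz).sub (R.dF hz) using 1
    have := den_ne' g0.ne' hz
    rw [R.inv g hg z hz, hg.1]
    field_simp
    simp
  rw [hc z hz]
  by_contra c0
  refine md_nolim two_ne_zero md_four R.limx ((md_limP c0 (R.limF k (k * c)) ((2 * k) ^ 2)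
    (a / 3)).congr' (R.ev_ok.mono fun w hw => ?_))
  obtain ⟨o, e1, e2⟩ := hw.tr g0 one_ne_zero (R.invS g hg)
    (by rw [R.inv g hg w hw.1, hg.1, Int.cast_one])
  rw [one_mul] at e2
  rw [← mul_add, ← hc w hw.1, add_sub_cancel, ← (o.glob h).2, Raw.x, e1, e2, Raw.x]

theorem md_two (h : Sc a b k L) {c : ℂ} (c0 : c ∉ L.lattice) {x : ℂ}
    (hx : x = (2 * k) ^ 2 * L.weierstrassP c - a / 3) (e : x * (x ^ 2 + a * x + b) = 0)
    (m : ℤ) (hm : Odd m) : m * c ∉ L.lattice := fun hc => by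
  have h1 : L.derivWeierstrassP c = 0 := by
    refine pow_eq_zero_iff two_ne_zero |>.1 (mul_left_cancel₀
      (pow_ne_zero 6 (mul_ne_zero two_ne_zero h.k0)) ?_)
    rw [L.derivWeierstrassP_sq c c0]
    rw [hx] at e
    linear_combination 4 * e - (2 * k) ^ 2 * L.weierstrassP c / 12 * h.h4 - h.h6 / 216
  have h2 := sub_mem_of_P_eq L c0 (v := -c) (by simpa using c0) (by simp) (by simp [h1])
  obtain ⟨n, rfl⟩ := hm
  refine c0 ?_
  convert sub_mem hc (L.lattice.smul_mem n h2) using 1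
  rw [zsmul_eq_mul]
  push_cast
  ring

theorem Raw.odd (h : Sc a b k L) {Ω : ℂ}
    (hΩ : ∀ z : ℂ, 0 < z.im → R.F (-1 / (N * z)) + R.F z = Ω) (m : ℤ) (hm : Odd m) :
    m * (k * Ω) ∉ L.lattice := by
  have n1 : (N : ℂ) ≠ 0 := by exact_mod_cast R.N0
  have e : ∀ z : ℂ, act !![0, -1; (N : ℤ), 0] z = -1 / (N * z) := fun z => by simp [act_of, mob]
  have g0 : 0 < Matrix.det !![0, -1; (N : ℤ), 0] := by simpa using Nat.pos_of_ne_zero R.N0
  have o : ∀ z, R.Ok z → R.B (-1 / (N * z)) ≠ 0 → R.Ok (-1 / (N * z)) := fun z hz hB =>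
    ⟨e z ▸ act_pos g0 hz.1, hB, by
      rw [R.hW z hz.1]
      exact neg_ne_zero.2 (mul_ne_zero (mul_ne_zero n1 (pow_ne_zero 2 fun k => by
        simpa [k] using hz.1)) hz.2.2)⟩
  have x1 : ∀ z, R.Ok z → R.B (-1 / (N * z)) ≠ 0 → R.x (-1 / (N * z)) =
      (2 * k) ^ 2 * L.weierstrassP (-k * R.F z + k * Ω) - a / 3 := fun z hz hB => by
    rw [((o z hz hB).glob h).2, ← hΩ z hz.1]
    congr 3
    ring
  have x2 : k * Ω ∈ L.lattice → ∀ z, R.Ok z → R.B (-1 / (N * z)) ≠ 0 →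
      R.x (-1 / (N * z)) = R.x z := fun m z hz hB => by
    rw [x1 z hz hB, L.weierstrassP_add_coe _ ⟨_, m⟩, neg_mul, L.weierstrassP_neg, (hz.glob h).2]
  rcases R.zero with hp | ⟨hB, hS⟩
  · have t : ∀ z, R.Ok z → R.B (-1 / (N * z)) ≠ 0 ∧ R.x z * R.x (-1 / (N * z)) = b := fun z hz => by
      obtain ⟨o, e1, e2⟩ := hz.tr g0 (ε := -1) (by simp) (fun z hz => e z ▸ hp z hz)
        (by rw [e, R.hW z hz.1]; simp [den]; ring)
      rw [e] at o e1 e2
      refine ⟨o.2.1, ?_⟩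
      rw [Raw.x, Raw.x, e1, ← e2]
      linear_combination -o.quad / 4 - (R.S z ^ 2 + R.S (-1 / (N * z)) ^ 2 - 2 * a) *
        (R.S z + R.S (-1 / (N * z))) / 4 * e1
    have t1 : Tendsto (fun z => R.x (-1 / (N * z))) atI (𝓝 0) := by
      have := ((tendsto_q1.pow 2).mul_const (b : ℂ)).div R.limx md_four
      rw [zero_pow two_ne_zero, zero_mul, zero_div] at this
      refine this.congr' ((R.ev_ok.and (R.limx.eventually_ne md_four)).mono fun z hz => ?_)
      rw [Pi.div_apply, ← (t z hz.1).2, ← mul_assoc, mul_div_cancel_left₀ _ hz.2]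
    have c0 : k * Ω ∉ L.lattice := fun m => md_nolim two_ne_zero md_four R.limx
      (t1.congr' (R.ev_ok.mono fun z hz => x2 m z hz (t z hz).1))
    exact md_two h c0 (tendsto_nhds_unique t1 ((md_limP c0 (R.limF (-k) _) _ _).congr'
      (R.ev_ok.mono fun z hz => (x1 z hz (t z hz).1).symm))) (zero_mul _) m hm
  · have c0 : k * Ω ∉ L.lattice := fun m => by
      refine md_nolim (G := fun z => R.S z ^ 2) (c := (-2) ^ 2) two_ne_zero (by norm_num)
        ((R.lim.2.2.pow 2).congr fun z => by ring) ((hS.pow 2).congr'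
          ((hB.and (R.ev_ok.and (R.limx.eventually_ne md_four))).mono fun z hz => ?_))
      have := (o z hz.2.1 hz.1).rel
      rw [x2 m z hz.2.1 hz.1, ← hz.2.1.rel] at this
      exact mul_right_cancel₀ (right_ne_zero_of_mul hz.2.2) this
    have t1 := (md_limP c0 (R.limF (-k) _) ((2 * k) ^ 2) (a / 3)).congr'
      ((hB.and R.ev_ok).mono fun z hz => (x1 z hz.2 hz.1).symm)
    refine md_two h c0 rfl (mul_eq_zero_of_right _ ?_) m hm
    have t2 := tendsto_nhds_unique (((t1.pow 2).add (t1.const_mul (a : ℂ))).add_const (b : ℂ))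
      (((hS.pow 2).mul t1).congr' ((hB.and R.ev_ok).mono fun z hz => (o z hz.2 hz.1).rel))
    rw [t2, zero_pow two_ne_zero, zero_mul]

/-- The cusp form. -/
noncomputable def Raw.form : CuspForm (CongruenceSubgroup.Gamma0 N) 2 where
  toFun τ := R.f τ
  slash_action_eq' := by
    rintro _ ⟨γ, hγ, rfl⟩
    ext τ
    have h2 := ModularForm.SL_slash_apply (f := fun τ : UpperHalfPlane => R.f τ) (k := 2) γ τ
    have h3 := R.inv γ.1 ⟨γ.2, (ZMod.intCast_zmod_eq_zero_iff_dvd _ _).mp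
      (CongruenceSubgroup.Gamma0_mem.mp hγ)⟩ τ τ.im_pos
    have h4 := den_ne' (M := γ.1) (by rw [γ.2]; exact one_ne_zero) τ.im_pos
    rw [coe_smul_eq_mob, ← act, h3] at h2
    refine h2.trans ?_
    change _ * den γ.1 τ ^ (-(2 : ℤ)) = _
    rw [zpow_neg, zpow_ofNat]
    field_simp
  holo' := R.qf.hol.mdiff
  zero_at_cusps' := by
    intro c hc
    have : NeZero N := ⟨R.N0⟩
    rw [Subgroup.IsArithmetic.isCusp_iff_isCusp_SL2Z] at hc
    rw [OnePoint.isZeroAt_iff_forall_SL2Z hc]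
    intro γ _
    refine ((R.cusp γ.1 γ.2).comp UpperHalfPlane.tendsto_coe_atImInfty).congr fun τ => ?_
    rw [ModularForm.SL_slash_apply, coe_smul_eq_mob, zpow_neg, Function.comp_apply, div_eq_mul_inv]
    rfl

theorem Raw.form_apply (τ : UpperHalfPlane) : R.form τ = R.f τ := rfl

/-- The modular data with an image of even order of the cusp zero. -/
theorem Raw.md {W : WeierstrassCurve ℚ} (per : IsPer L (W.baseChange ℂ)) (k : ℚ) (k0 : k ≠ 0)
    (h4 : (2 * k) ^ 4 * W.c₄ = 16 * a ^ 2 - 48 * b)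
    (h6 : (2 * k) ^ 6 * W.c₆ = -64 * a ^ 3 + 288 * a * b) :
    ∃ D : MD W N, D.c = (fun n => coeff n R.cs) ∧ D.f = R.form ∧ D.L = L ∧ D.k = k ∧
      ∀ m : ℤ, Odd m → m * (D.k * D.Ω) ∉ D.L.lattice := by
  have h : Sc a b k L := ⟨by exact_mod_cast k0, by
      rw [← per.h4, WeierstrassCurve.baseChange, WeierstrassCurve.map_c₄, eq_ratCast]
      exact_mod_cast h4, by
      rw [← per.h6, WeierstrassCurve.baseChange, WeierstrassCurve.map_c₆, eq_ratCast]
      exact_mod_cast h6⟩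
  obtain ⟨Ω, o1, o2⟩ := gl_fricke R.N0 R.qf R.c0' R.hW
  refine ⟨⟨R.N0, R.form, fun n => coeff n R.cs, R.c1, fun τ => ?_, R.hT, fun τ τ' e => ?_, R.F,
    fun z => ?_, L, per, k, k0, fun γ hγ τ => ?_, Ω, ?_⟩, rfl, rfl, rfl, rfl, R.odd h o1⟩
  · simpa only [coeff_map, eq_intCast, q1, R.form_apply] using R.qf.hasSum τ.im_pos
  · rw [R.form_apply, R.form_apply, e, R.hW _ τ.im_pos, neg_mul]
  · simp only [Raw.F, prF, coeff_map, eq_intCast, q1]
  · rw [coe_smul_eq_mob]
    exact R.per h (g := γ.1) ⟨γ.2, (ZMod.intCast_zmod_eq_zero_iff_dvd _ _).mp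
      (CongruenceSubgroup.Gamma0_mem.mp hγ)⟩ τ.im_pos
  · simpa only [mul_comm I, Raw.F] using o2

end Pool.Agent.B5
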