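import Pool.Agent.Lib.MP_696deb_nt.B5.MDb
import Pool.Agent.Lib.MP_696deb_nt.B4.FIa
import Pool.Agent.Lib.MP_696deb_nt.Bound
import Pool.Agent.Lib.MP_696deb_nt.Cartier

/-! The coefficients of the form are the traces of Frobenius of the curve. -/

set_option autoImplicit false

open PowerSeries Finset
open scoped Real

namespace Pool.Agent.B5

open Pool.Agent.Lib.MP_696deb_nt Pool.Agent.Lib.MP_696deb_nt.B4 Pool.Agent.B4.GE

variable {W : WeierstrassCurve ℚ} {N l : ℕ}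

theorem md_bd (D : MD W N) : ∃ C : ℝ, ∀ z : ℂ, 0 < z.im → ‖cf D.f z‖ * z.im ≤ C := by
  have : NeZero N := ⟨D.N0⟩
  obtain ⟨C, hC⟩ := CuspFormClass.exists_bound D.f
  refine ⟨C, fun z hz => (le_div_iff₀ hz).1 ?_⟩
  simpa [← cf_coe] using hC ⟨z, hz⟩

theorem md_le (D : MD W N) : ∃ C : ℝ, ∀ n : ℕ, 0 < n → |(D.c n : ℝ)| ≤ C * n := by
  obtain ⟨C, hC⟩ := md_bd D
  refine ⟨|Real.exp (2 * π) * C|, fun n hn => ?_⟩
  have h1 := (Finset.single_le_sum (f := fun k => ‖coeff k D.S‖ ^ 2)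
    (fun _ _ => sq_nonneg _) (Finset.mem_Icc.mpr ⟨hn, le_rfl⟩)).trans (D.qe.sum_sq_le hC hn)
  simpa [MD.S, abs_mul] using sq_le_sq.mp h1

theorem md_abs (D : MD W N) (hl : l.Prime) (h : ¬ l ∣ N) : |D.c l| ≤ l + 1 := by
  obtain ⟨C, hC⟩ := md_le D
  refine abs_le_of_rec l hl.one_lt D.c D.hc (fun k => ?_) C hC
  rw [← D.hT l hl h, if_pos (dvd_pow_self l k.succ_ne_zero), ← pow_succ', pow_succ' l k,
    Nat.mul_div_cancel_left _ hl.pos, add_sub_cancel_right]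

theorem md_even (D : MD W N) (hH : ∀ m : ℤ, Odd m → m * (D.k * D.Ω) ∉ D.L.lattice)
    (hl : l.Prime) (h : ¬ l ∣ N) : Even ((l : ℤ) + 1 - D.c l) := by
  by_contra e
  have := D.par.t0_kill hl h
  rw [← map_zsmul, D.par.per.unif_eq_zero_iff, zsmul_eq_mul] at this
  exact hH _ (Int.not_even_iff_odd.1 e) this

theorem md_formal {K : Type*} [Field K] (h2 : (2 : K) ≠ 0) {a b : K} {A B f : K⟦X⟧}
    (c0 : coeff 0 f = 0) (c1 : coeff 1 f = 1) (B0 : coeff 0 B ≠ 0)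
    (A0 : coeff 0 A = -2 * coeff 0 B)
    (ode : 4 * (X * (d⁄dX K A * (X * B) - A * d⁄dX K (X * B))) ^ 2 =
      f ^ 2 * ((A ^ 2 - C a * (X * B) ^ 2) ^ 2 - 4 * C b * (X * B) ^ 4)) :
    ∃ u v : K⟦X⟧, constantCoeff v ≠ 0 ∧ v ^ 2 = u * (u ^ 2 + C a * u * X ^ 2 + C b * X ^ 4) ∧
      X * (X * d⁄dX K u - 2 * u) = v * f := by
  rw [coeff_zero_eq_constantCoeff_apply] at c0 B0
  rw [coeff_zero_eq_constantCoeff_apply, coeff_zero_eq_constantCoeff_apply] at A0
  obtain ⟨g, rfl⟩ := X_dvd_iff.2 c0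
  rw [coeff_succ_X_mul, coeff_zero_eq_constantCoeff_apply] at c1
  obtain ⟨s, rfl⟩ : ∃ s, A = s * B := ⟨A * B⁻¹, by
    rw [mul_assoc, PowerSeries.inv_mul_cancel _ B0, mul_one]⟩
  have s0 : constantCoeff s = -2 := mul_right_cancel₀ B0 (by rwa [map_mul] at A0)
  have g1 := PowerSeries.mul_inv_cancel g (by rw [c1]; exact one_ne_zero)
  have t : (2 : K⟦X⟧) * C 2⁻¹ = 1 := by
    rw [← map_ofNat C 2, ← map_mul, mul_inv_cancel₀ h2, map_one]
  have B1 : B ≠ 0 := fun e => B0 (by rw [e, map_zero])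
  obtain ⟨E, hE⟩ : ∃ E, E = 2 * (X * d⁄dX K s - s) * g⁻¹ := ⟨_, rfl⟩
  have E0 : constantCoeff E = 4 := by
    simp [hE, s0, c1, map_ofNat]
    norm_num
  have E1 : E * g = 2 * (X * d⁄dX K s - s) := by
    rw [hE]
    linear_combination 2 * (X * d⁄dX K s - s) * g1
  have E2 : E ^ 2 = (s ^ 2 - C a * X ^ 2) ^ 2 - 4 * C b * X ^ 4 := by
    simp only [Derivation.leibniz, derivative_X, smul_eq_mul] at ode
    refine mul_left_cancel₀ (pow_ne_zero 2 (mul_ne_zero (mul_ne_zero X_ne_zero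
      (left_ne_zero_of_mul_eq_one g1)) (pow_ne_zero 2 B1))) ?_
    linear_combination ode + X ^ 2 * B ^ 4 * (E * g + 2 * (X * d⁄dX K s - s)) * E1
  obtain ⟨u, hu⟩ : ∃ u, u = C 2⁻¹ * (s ^ 2 - C a * X ^ 2 + E) := ⟨_, rfl⟩
  have u1 : 2 * u = s ^ 2 - C a * X ^ 2 + E := by rw [hu, ← mul_assoc, t, one_mul]
  have h4 : (4 : K) ≠ 0 := by rw [show (4 : K) = 2 * 2 by norm_num]; exact mul_ne_zero h2 h2
  have u0 : constantCoeff u = 4 := mul_left_cancel₀ h2 (by
    have := congrArg constantCoeff u1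
    simp only [map_mul, map_add, map_sub, map_pow, map_ofNat, s0, E0, constantCoeff_X] at this
    linear_combination this)
  have u2 : s ^ 2 * u = u ^ 2 + C a * u * X ^ 2 + C b * X ^ 4 := by
    linear_combination -(C 2⁻¹) ^ 2 * E2 - (C 2⁻¹) ^ 2 * (2 * u - (s ^ 2 - C a * X ^ 2) + E) * u1 +
      (2 * C 2⁻¹ + 1) * (u ^ 2 + C a * u * X ^ 2 + C b * X ^ 4 - s ^ 2 * u) * t
  refine ⟨u, s * u, ?_, by linear_combination u * u2, ?_⟩
  · rw [map_mul, s0, u0]
    exact mul_ne_zero (neg_ne_zero.2 h2) h4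
  · have u3 := congrArg (d⁄dX K) u2
    simp only [map_add, Derivation.leibniz, Derivation.leibniz_pow, derivative_X, derivative_C,
      smul_eq_mul, nsmul_eq_mul, Nat.cast_ofNat, Nat.add_one_sub_one] at u3
    refine mul_left_cancel₀ (a := E) (fun e => h4 (by rw [← E0, e, map_zero])) ?_
    linear_combination -X ^ 2 * u3 + 4 * X * u2 - X * s * u * E1 -
      X * (X * d⁄dX K u - 2 * u) * u1

variable {a b r s : ℤ} (R : Raw N a b)

theorem Raw.cong [Fact l.Prime] (h2 : l ≠ 2) (hB : ((coeff 0 R.Bs : ℤ) : ZMod l) ≠ 0) :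
    ((tr l fun x => x * (x ^ 2 + a * x + b) : ℤ) : ZMod l) = (coeff l R.cs : ℤ) := by
  obtain ⟨m, hm⟩ := (Fact.out : l.Prime).odd_of_ne_two h2
  let φ : ℤ →+* ZMod l := Int.castRingHom (ZMod l)
  let Q : Cubic (ZMod l) := ⟨1, a, b, 0⟩
  have hg : Q.toPoly.natDegree ≤ 3 := (Cubic.natDegree_of_a_ne_zero (P := Q) one_ne_zero).le
  have hder : ∀ w : ℤ⟦X⟧, map φ (d⁄dX ℤ w) = d⁄dX (ZMod l) (map φ w) := fun w => by
    ext n
    simp [coeff_derivative]
  have c0 : coeff 0 (map φ R.cs) = 0 := by rw [coeff_map, R.c0, map_zero]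
  have c1 : coeff 1 (map φ R.cs) = 1 := by rw [coeff_map, R.c1, map_one]
  obtain ⟨u, v, v0, h1, h3⟩ := md_formal (K := ZMod l) (a := a) (b := b) (A := map φ R.As)
    (fun e => h2 ((Nat.prime_dvd_prime_iff_eq Fact.out Nat.prime_two).1
      ((ZMod.natCast_eq_zero_iff 2 l).1 e))) c0 c1 (B := map φ R.Bs) hB
    (by rw [coeff_map, coeff_map, R.A0, map_mul, map_neg, map_ofNat]) (by
      have := congrArg (map φ) R.ode
      simp only [map_mul, map_pow, map_sub, map_ofNat, map_C, map_X, hder] at this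
      exact this)
  have := cartier l m hm Q.toPoly hg u v (map φ R.cs) 1 one_ne_zero v0
    ((coeff_zero_eq_constantCoeff_apply _).symm.trans c0) (by
      rw [h1]
      simp only [sum_range_succ, sum_range_zero, Cubic.coeff_eq_a, Cubic.coeff_eq_b,
        Cubic.coeff_eq_c, Cubic.coeff_eq_d, Q, map_one, map_zero]
      ring) (by rw [h3, map_one, one_mul])
  rw [← tr_cast l m hm _ hg, c1, mul_one, coeff_map] at this
  rw [← eq_intCast φ (coeff l R.cs), this]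
  congr 2 with x
  simp [Q, Cubic.toPoly]
  ring

/-- The coefficient at a good odd prime is the trace of Frobenius. -/
theorem Raw.eq_tr [hl : Fact l.Prime] (D : MD W N) (hc : D.c = fun n => coeff n R.cs)
    (hH : ∀ m : ℤ, Odd m → m * (D.k * D.Ω) ∉ D.L.lattice) (ha : a = -(r + s)) (hb : b = r * s)
    (h2 : l ≠ 2) (hN : ¬ l ∣ N) (hB : ¬ (l : ℤ) ∣ coeff 0 R.Bs) (hr : ¬ (l : ℤ) ∣ r * s * (r - s)) :
    D.c l = tr l fun x => x * (x - r) * (x - s) := by
  have z := fun n : ℤ => ZMod.intCast_zmod_eq_zero_iff_dvd n l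
  have h1 := R.cong h2 (mt (z _).1 hB)
  have e : (fun x : ZMod l => x * (x ^ 2 + a * x + b)) =
      fun x : ZMod l => (x - 0) * (x - r) * (x - s) := by
    funext x
    rw [ha, hb]
    push_cast
    ring
  obtain ⟨he, hb⟩ := tr_even_bound l h2 0 r s
    (fun k => hr ((((z r).1 k.symm).mul_right s).mul_right _))
    (fun k => hr ((((z s).1 k.symm).mul_left r).mul_right _))
    (fun k => hr (((z (r - s)).1 (by rw [Int.cast_sub, k, sub_self])).mul_left _))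
  have h3 := md_even D hH hl.out hN
  have h4 := md_abs D hl.out hN
  rw [e, ← congrFun hc l, ZMod.intCast_eq_intCast_iff_dvd_sub] at h1
  simp only [sub_zero] at h1 he hb
  generalize (tr l fun x => x * (x - r) * (x - s)) = T at h1 he hb ⊢
  obtain ⟨c, hc⟩ := h1
  obtain ⟨m, hm⟩ := hl.out.odd_of_ne_two h2
  have h5 : Even ((l : ℤ) * c) := by
    rw [← hc, Int.even_iff] at *
    omega
  obtain ⟨d, rfl⟩ := (Int.even_mul.1 h5).resolve_left (by rw [Int.even_iff]; omega)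
  rw [abs_le] at hb h4
  have d0 : d = 0 := by
    by_contra hd
    rcases lt_or_gt_of_ne hd with h | h <;> nlinarith
  rw [d0] at hc
  linarith

end Pool.Agent.B5
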