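import Pool.Agent.Lib.MP_696deb_nt.B5.MD0

/-! Modular forms of arbitrary level, and the bound of Sturm. -/

set_option autoImplicit false

open PowerSeries Filter Topology CongruenceSubgroup
open scoped MatrixGroups

namespace Pool.Agent.B5

open Pool.Agent.Lib.MP_696deb_nt Pool.Agent.B4.GE Pool.Agent.Lib.MP_696deb_nt.B4

/-- The action of weight `k` of a matrix of determinant one. -/
noncomputable def sk (k : ℕ) (g : MZ) (G : ℂ → ℂ) (z : ℂ) : ℂ := G (act g z) / den g z ^ k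

/-- Modular forms of weight `k` and level `N`. -/
structure Mk (N k : ℕ) (G : ℂ → ℂ) : Prop where
  hol : Hol G
  inv : ∀ g, G0 N g → ∀ z : ℂ, 0 < z.im → G (act g z) = den g z ^ k * G z
  bd : ∀ g : MZ, g.det = 1 → Bdd fun z => G (act g z) / den g z ^ k

/-- The index of the congruence subgroup is at most `μ`. -/
def Idx (N μ : ℕ) : Prop := ∃ κ : MZ → Fin μ, ∀ g h : MZ, κ g = κ h →
  (N : ℤ) ∣ g 1 0 * h 1 1 - h 1 0 * g 1 1

variable {N k k' μ m : ℕ} {G G' : ℂ → ℂ} {A A' : ℂ⟦X⟧} {g h : MZ} {z : ℂ}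

theorem idx_pq {p q : ℕ} (hp : p.Prime) (hq : q.Prime) (hne : p ≠ q) :
    Idx (p * q) ((p + 1) * (q + 1)) := by
  have := Fact.mk hp
  have := Fact.mk hq
  have e : Option (ZMod p) × Option (ZMod q) ≃ Fin ((p + 1) * (q + 1)) :=
    Fintype.equivFinOfCardEq (by simp)
  refine ⟨fun g => e (idx (g 1 0) (g 1 1), idx (g 1 0) (g 1 1)), fun g h k => ?_⟩
  obtain ⟨k1, k2⟩ := Prod.ext_iff.1 (e.injective k)
  rw [Nat.cast_mul]
  refine (Nat.isCoprime_iff_coprime.2 ((Nat.coprime_primes hp hq).2 hne)).mul_dvd ?_ ?_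
  · rw [← ZMod.intCast_zmod_eq_zero_iff_dvd]
    push_cast
    exact sub_eq_zero.2 (idx_eq k1)
  · rw [← ZMod.intCast_zmod_eq_zero_iff_dvd]
    push_cast
    exact sub_eq_zero.2 (idx_eq k2)

theorem mh_pos (hg : g.det = 1) (hz : 0 < z.im) : 0 < (act g z).im := act_pos (hg ▸ one_pos) hz

theorem mh_den (hg : g.det = 1) (hz : 0 < z.im) : den g z ≠ 0 := den_ne' (hg ▸ one_ne_zero) hz

theorem sk_mul (g : MZ) (hh : h.det ≠ 0) (hz : 0 < z.im) :
    sk k (g * h) G z = sk k h (sk k g G) z := by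
  simp only [sk]
  rw [act_mul g hh hz, den_mul g hh hz, mul_pow, div_div]

theorem hol_den (g : MZ) : Hol (den g) := fun z _ => by
  unfold den
  fun_prop

theorem hol_sk (hG : Hol G) (hg : 0 < g.det) : Hol (sk k g G) := fun z hz =>
  ((hG _ (act_pos hg hz)).comp z (hol_act hg.ne' z hz)).div ((hol_den g z hz).pow k)
    (pow_ne_zero _ (den_ne' hg.ne' hz))

namespace Mk

theorem sk_eq (hG : Mk N k G) (hg : G0 N g) (hz : 0 < z.im) : sk k g G z = G z := by
  rw [sk, hG.inv g hg z hz, mul_div_cancel_left₀ _ (pow_ne_zero _ (mh_den hg.1 hz))]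

theorem sk_mul_eq (hG : Mk N k G) (hg : G0 N g) (hh : 0 < h.det) (hz : 0 < z.im) :
    sk k (g * h) G z = sk k h G z := by
  rw [sk_mul g hh.ne' hz, sk, hG.sk_eq hg (act_pos hh hz), sk]

theorem congr (hG : Mk N k G) (e : ∀ z : ℂ, 0 < z.im → G' z = G z) : Mk N k G' where
  hol z hz := (hG.hol z hz).congr_of_eventuallyEq ((gb_ev hz).mono e)
  inv g hg z hz := by rw [e _ (mh_pos hg.1 hz), e z hz, hG.inv g hg z hz]
  bd g hg := (hG.bd g hg).congr fun z hz => by rw [e _ (mh_pos hg hz)]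

theorem add (hG : Mk N k G) (hG' : Mk N k G') : Mk N k fun z => G z + G' z where
  hol z hz := (hG.hol z hz).add (hG'.hol z hz)
  inv g hg z hz := by rw [hG.inv g hg z hz, hG'.inv g hg z hz, mul_add]
  bd g hg := ((hG.bd g hg).add (hG'.bd g hg)).congr fun z _ => add_div _ _ _

theorem sub (hG : Mk N k G) (hG' : Mk N k G') : Mk N k fun z => G z - G' z where
  hol z hz := (hG.hol z hz).sub (hG'.hol z hz)
  inv g hg z hz := by rw [hG.inv g hg z hz, hG'.inv g hg z hz, mul_sub]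
  bd g hg := ((hG.bd g hg).sub (hG'.bd g hg)).congr fun z _ => sub_div _ _ _

theorem mul (hG : Mk N k G) (hG' : Mk N k' G') : Mk N (k + k') fun z => G z * G' z where
  hol z hz := (hG.hol z hz).mul (hG'.hol z hz)
  inv g hg z hz := by rw [hG.inv g hg z hz, hG'.inv g hg z hz]; ring
  bd g hg := ((hG.bd g hg).mul (hG'.bd g hg)).congr fun z _ => by
    rw [pow_add, mul_div_mul_comm]

theorem const (N : ℕ) (c : ℂ) : Mk N 0 fun _ => c where
  hol _ _ := differentiableAt_const c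
  inv _ _ _ _ := by simp
  bd _ _ := by simpa using Bdd.const c

theorem smul (hG : Mk N k G) (c : ℂ) : Mk N k fun z => c * G z := by
  simpa using (const N c).mul hG

theorem pow (hG : Mk N k G) (j : ℕ) : Mk N (k * j) fun z => G z ^ j := by
  induction j with
  | zero => simpa using const N 1
  | succ j ih => simpa only [pow_succ, mul_add, mul_one] using ih.mul hG

theorem of_dvd {M : ℕ} (hG : Mk N k G) (h : N ∣ M) : Mk M k G :=
  ⟨hG.hol, fun g hg => hG.inv g ⟨hg.1, (Int.natCast_dvd_natCast.2 h).trans hg.2⟩, hG.bd⟩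

theorem bdd (hG : Mk N k G) : Bdd G := by
  simpa [act_one, den_one] using hG.bd 1 Matrix.det_one

theorem qe (hG : Mk N k G) : ∃ A, QE G A := by
  refine QE.exists_of_periodic hG.hol (fun z hz => ?_) hG.bdd
  simpa [act_of, mob, den] using hG.inv !![1, 1; 0, 1] ⟨by simp, by simp⟩ z hz

end Mk

theorem Idx.reps (hN : Idx N μ) : ∃ (ι : Type) (_ : Fintype ι) (r : ι → MZ) (i₀ : ι),
    Fintype.card ι ≤ μ ∧ (∀ i, (r i).det = 1) ∧ G0 N (r i₀) ∧ ∀ g : MZ, g.det = 1 →
      ∃ σ : Equiv.Perm ι, ∀ i, ∃ h, G0 N h ∧ r i * g = h * r (σ i) := by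
  classical
  obtain ⟨κ, hκ⟩ := hN
  have mem : ∀ γ : SL(2, ℤ), γ ∈ Gamma0 N ↔ G0 N γ.1 := fun γ => by
    rw [Gamma0_mem, ZMod.intCast_zmod_eq_zero_iff_dvd]
    exact ⟨fun h => ⟨γ.2, h⟩, fun h => h.2⟩
  have inj : Function.Injective fun q : SL(2, ℤ) ⧸ Gamma0 N => κ (q.out⁻¹).1 := fun q q' e => by
    rw [← q.out_eq', ← q'.out_eq', QuotientGroup.eq, mem]
    refine ⟨(q.out⁻¹ * q'.out).2, ?_⟩
    have := hκ _ _ e
    simp only [Matrix.SpecialLinearGroup.coe_inv, Matrix.SpecialLinearGroup.coe_mul,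
      Matrix.adjugate_fin_two, Matrix.mul_apply, Fin.sum_univ_two] at this ⊢
    simp at this ⊢
    convert this using 1
    ring
  have := Finite.of_injective _ inj
  have := Fintype.ofFinite (SL(2, ℤ) ⧸ Gamma0 N)
  refine ⟨SL(2, ℤ) ⧸ Gamma0 N, this, fun q => (q.out⁻¹).1, ((1 : SL(2, ℤ)) : _ ⧸ _),
    by simpa using Fintype.card_le_of_injective _ inj, fun q => (q.out⁻¹).2, ?_, fun g hg => ?_⟩
  · obtain ⟨h, e⟩ := QuotientGroup.mk_out_eq_mul (Gamma0 N) 1
    rw [← mem, e, one_mul]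
    exact inv_mem h.2
  · obtain ⟨γ, rfl⟩ : ∃ γ : SL(2, ℤ), γ.1 = g := ⟨⟨g, hg⟩, rfl⟩
    refine ⟨MulAction.toPerm γ⁻¹, fun q => ?_⟩
    obtain ⟨h, e⟩ := QuotientGroup.mk_out_eq_mul (Gamma0 N) (γ⁻¹ * q.out)
    refine ⟨(h : SL(2, ℤ)).1, (mem _).1 h.2, ?_⟩
    rw [MulAction.toPerm_apply, ← MulAction.Quotient.mk_smul_out, smul_eq_mul]
    refine congrArg Subtype.val (show q.out⁻¹ * γ = h * (Quotient.out _)⁻¹ from ?_)
    rw [e]
    group

theorem hol_prod_eq_zero {ι : Type*} (s : Finset ι) {F : ι → ℂ → ℂ} (hF : ∀ i, Hol (F i))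
    (h : ∀ z : ℂ, 0 < z.im → ∏ i ∈ s, F i z = 0) : ∃ i, ∀ z : ℂ, 0 < z.im → F i z = 0 := by
  classical
  induction s using Finset.induction_on with
  | empty => simpa using h Complex.I (by simp)
  | insert a s ha ih =>
    have h1 : Hol fun z => ∏ i ∈ s, F i z := fun z hz =>
      DifferentiableAt.fun_finsetProd fun i _ => hF i z hz
    rcases AnalyticOnNhd.eq_zero_or_eq_zero_of_mul_eq_zero (U := {z : ℂ | 0 < z.im})
      (fun z hz => gb_an (hF a) hz) (fun z hz => gb_an h1 hz)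
      (fun z hz => by rw [← h z hz, Finset.prod_insert ha])
      (convex_halfSpace_im_gt 0).isPreconnected with k | k
    · exact ⟨a, k⟩
    · exact ih k

theorem bdd_prod {ι : Type*} (s : Finset ι) {F : ι → ℂ → ℂ} (hF : ∀ i, Bdd (F i)) :
    Bdd fun z => ∏ i ∈ s, F i z := by
  classical
  induction s using Finset.induction_on with
  | empty => simpa using Bdd.const 1
  | insert a s ha ih => simpa only [Finset.prod_insert ha] using (hF a).mul ih

/-- The bound of Sturm. -/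
theorem Mk.sturm (hN : Idx N μ) (hG : Mk N k G) (hA : QE G A) (hm : k * μ < 12 * m)
    (h0 : ∀ n < m, coeff n A = 0) (hz : 0 < z.im) : G z = 0 := by
  classical
  obtain ⟨ι, _, r, i₀, hc, h1, h2, h3⟩ := hN.reps
  obtain ⟨B, rfl⟩ := X_pow_dvd_iff.2 h0
  obtain ⟨j, hj⟩ : ∃ j, 12 * m = k * Fintype.card ι + (j + 1) :=
    ⟨12 * m - k * Fintype.card ι - 1, by have := Nat.mul_le_mul_left k hc; omega⟩
  have hF : ∀ i, Hol (sk k (r i) G) := fun i => hol_sk hG.hol (h1 i ▸ one_pos)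
  set H : ℂ → ℂ := fun z => (∏ i, sk k (r i) G z) ^ 12 / Dl z ^ (k * Fintype.card ι) with hH
  have i1 : Inv1 H := fun g hg z hz => by
    obtain ⟨σ, hσ⟩ := h3 g hg
    have e : ∀ i, sk k (r i) G (act g z) = den g z ^ k * sk k (r (σ i)) G z := fun i => by
      obtain ⟨h, hh, e⟩ := hσ i
      rw [← hG.sk_mul_eq hh (h1 _ ▸ one_pos) hz, ← e, sk_mul _ (hg ▸ one_ne_zero) hz,
        sk.eq_1 k g, mul_div_cancel₀ _ (pow_ne_zero _ (mh_den hg hz))]
    have := mh_den hg hz
    simp only [hH, e]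
    rw [Finset.prod_mul_distrib, Finset.prod_const, Finset.card_univ,
      Equiv.prod_comp σ fun i => sk k (r i) G z, Dl_act hg hz, mul_pow, mul_pow, ← pow_mul,
      ← pow_mul, ← pow_mul, mul_comm 12, mul_assoc k,
      mul_div_mul_left _ _ (pow_ne_zero _ this)]
  have i2 : Hol H := fun z hz =>
    ((DifferentiableAt.fun_finsetProd fun i _ => hF i z hz).pow 12).div
      ((qe_Dl.hol z hz).pow _) (pow_ne_zero _ (Dl_ne hz))
  have b1 : Bdd fun z => (∏ i ∈ Finset.univ.erase i₀, sk k (r i) G z) ^ 12 := by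
    simpa only [Finset.prod_const, Finset.card_range, sk] using
      bdd_prod (Finset.range 12) fun _ => bdd_prod (Finset.univ.erase i₀) fun i => hG.bd _ (h1 i)
  have t1 := ((((hA.of_X_pow_mul.pow 12).mul (qe_Dl_inv.pow (k * Fintype.card ι))).mul
    (QE.q.pow (j + 1))).tendsto)
  rw [coeff_zero_eq_constantCoeff_apply, map_mul, map_pow, constantCoeff_X, zero_pow j.succ_ne_zero,
    mul_zero] at t1
  have i3 : Tendsto H atI (𝓝 0) := by
    refine (Asymptotics.isLittleO_one_iff ℝ).1 ?_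
    have := ((Asymptotics.isLittleO_one_iff ℝ).2 t1).mul_isBigO b1
    rw [show (fun _ : ℂ => (1 : ℝ) * 1) = fun _ => 1 by simp] at this
    refine this.congr' (ev_pos.mono fun z hz => ?_) EventuallyEq.rfl
    have := q1_ne z
    have := Dl_ne hz
    simp only [hH]
    rw [← Finset.mul_prod_erase _ _ (Finset.mem_univ i₀), hG.sk_eq h2 hz, div_pow, ← pow_mul,
      mul_comm m, hj, pow_add (q1 z), mul_pow, mul_pow, pow_one, inv_pow]
    field_simp
  obtain ⟨C, hC⟩ := QE.exists_of_periodic i2 i1.periodic (Bdd.of_tendsto i3)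
  have h4 := tendsto_nhds_unique hC.tendsto i3
  obtain ⟨i, hi⟩ := hol_prod_eq_zero Finset.univ hF fun z hz => by
    have := (i1.const hC z hz).trans h4
    exact pow_eq_zero_iff (by norm_num) |>.1
      ((div_eq_zero_iff.1 this).resolve_right (pow_ne_zero _ (Dl_ne hz)))
  have d1 : (r i).adjugate.det = 1 := by rw [det_adjugate_two, h1]
  have := hi _ (mh_pos d1 hz)
  rw [sk, ← act_mul _ (d1 ▸ one_ne_zero) hz, Matrix.mul_adjugate, h1, one_smul, act_one] at this
  exact (div_eq_zero_iff.1 this).resolve_right (pow_ne_zero _ (mh_den (h1 i) (mh_pos d1 hz)))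

/-- Two forms with the same first coefficients are equal. -/
theorem Mk.eq_of_coeff (hN : Idx N μ) (hG : Mk N k G) (hG' : Mk N k G') (hA : QE G A)
    (hA' : QE G' A') (hm : k * μ < 12 * m) (h0 : ∀ n < m, coeff n A = coeff n A') : A = A' :=
  hA.unique hA' fun z hz => sub_eq_zero.1 (Mk.sturm (z := z) hN (hG.sub hG') (hA.sub hA') hm
    (fun n hn => by rw [map_sub, h0 n hn, sub_self]) hz)

end Pool.Agent.B5
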