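import Pool.Agent.Lib.MP_696deb_nt.B5.HT0

/-! The archimedean local height in terms of the sigma function. -/

set_option autoImplicit false

open Complex WeierstrassCurve
open scoped Classical PeriodPair

namespace Pool.Agent.G5

open Pool.Agent.Lib.MP_696deb_nt Pool.Agent.Shared.Weier

variable {L : PeriodPair} {E : WeierstrassCurve ℂ} {z : ℂ}

variable (L) in
/-- The Neron function of a lattice. -/
noncomputable def lamL (z : ℂ) : ℝ := (eta L z * z).re - 2 * Real.log ‖sig L z‖

theorem lamL_add {l : ℂ} (hl : l ∈ L.lattice) (hz : z ∉ L.lattice) : lamL L (z + l) = lamL L z := by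
  obtain ⟨e, he, -, h⟩ := sig_add hl
  have h1 : ‖e‖ = 1 := by rcases he with rfl | rfl <;> simp
  have h2 := re_eta_form (L := L) z l
  rw [lamL, lamL, h, norm_mul, norm_mul, h1, one_mul, Real.log_mul
    (norm_ne_zero_iff.mpr (exp_ne_zero _)) (norm_ne_zero_iff.mpr (sig_ne hz)), norm_exp,
    Real.log_exp, map_add]
  simp only [add_re, sub_re, mul_add, add_mul, ← mul_div_assoc, div_ofNat_re] at h2 ⊢
  linarith

/-- The archimedean local height. -/
noncomputable def lamA (h : IsPer L E) (R : E.toAffine.Point) : ℝ :=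
  if R = 0 then 0 else lamL L (Function.surjInv h.unif_surjective R)

variable (h : IsPer L E)

theorem lamA_zero : lamA h 0 = 0 := if_pos rfl

theorem lamA_unif (hz : z ∉ L.lattice) : lamA h (h.unif z) = lamL L z := by
  have e := h.unif_eq_iff.mp (Function.surjInv_eq h.unif_surjective (h.unif z))
  rw [lamA, if_neg (mt h.unif_eq_zero_iff.mp hz), ← lamL_add e hz, add_sub_cancel]

theorem lamA_bdd : ∃ C : ℝ, ∀ R, |lamA h R - Real.log (max 1 ‖xco R‖)| ≤ C := by
  obtain ⟨v, hv⟩ : ∃ v, v ∉ L.lattice := ⟨_, L.ω₁_div_two_notMem_lattice⟩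
  have hs := (differentiable_sig L).continuous
  let f : ℂ → ℝ := fun z => Real.log (max (‖sig L z‖ ^ 2) ‖sig L z ^ 2 * ux L E v -
    sig L (z + v) * sig L (z - v) / sig L v ^ 2‖) - (eta L z * z).re
  have h1 : Continuous f := by
    refine (Continuous.log (by fun_prop) fun z => (lt_max_iff.mpr ?_).ne').sub (by fun_prop)
    by_cases hz : z ∈ L.lattice
    · right
      have h2 : sig L (z + v) ≠ 0 := sig_ne (by rw [add_comm]; exact add_notMem hv hz)
      have h3 : sig L (z - v) ≠ 0 := sig_ne fun h => hv (by simpa using L.lattice.sub_mem hz h)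
      have h4 : sig L v ≠ 0 := sig_ne hv
      simp [show sig L z = 0 from sig_eq_zero_iff.mpr hz, h2, h3, h4]
    · exact Or.inl (pow_pos (norm_pos_iff.mpr (sig_ne hz)) 2)
  have h2 : ∀ z ∉ L.lattice, f z = Real.log (max 1 ‖ux L E z‖) - lamL L z := fun z hz => by
    have h3 : sig L v ≠ 0 := sig_ne hv
    have h4 : 0 < ‖sig L z‖ := norm_pos_iff.mpr (sig_ne hz)
    have h5 : sig L z ^ 2 * ux L E v - sig L (z + v) * sig L (z - v) / sig L v ^ 2 =
        sig L z ^ 2 * ux L E z := by
      rw [wp_sub' hz hv, ux, ux]; field_simp; ring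
    simp only [f, h5, norm_mul, norm_pow, lamL]
    nth_rw 1 [← mul_one (‖sig L z‖ ^ 2)]
    rw [← mul_max_of_nonneg _ _ (by positivity), Real.log_mul (by positivity) (by positivity),
      Real.log_pow]
    push_cast
    ring
  obtain ⟨C, hC⟩ := (IsZLattice.isCompact_range_of_periodic L.lattice f h1 fun z l hl =>
    ofReal_injective (eq_of_eq_off (L := L) (f := fun z => f (z + l)) (g := fun z => f z)
      (by fun_prop) (by fun_prop) (fun z hz => by
        rw [h2 z hz, h2 _ (add_notMem hz hl), lamL_add hl hz, ux, ux,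
          L.weierstrassP_add_coe z ⟨l, hl⟩]) z)).isBounded.exists_norm_le
  refine ⟨max 0 C, fun R => ?_⟩
  obtain ⟨z, rfl⟩ := h.unif_surjective R
  by_cases hz : z ∈ L.lattice
  · simp [h.unif_eq_zero_iff.mpr hz, lamA_zero]
  · have := hC _ ⟨z, rfl⟩
    rw [lamA_unif h hz, h.unif_of_notMem hz, xco_some, abs_sub_comm, ← h2 z hz]
    exact this.trans (le_max_right _ _)

theorem lamL_two_mul (hz : z ∉ L.lattice) (h : 2 * z ∉ L.lattice) :
    lamL L (2 * z) = 4 * lamL L z - 2 * Real.log ‖℘'[L] z‖ := by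
  have h1 : eta L (2 * z) = 2 * eta L z := by rw [two_mul, map_add, two_mul]
  rw [lamL, lamL, sig_two_mul hz, h1, norm_mul, norm_neg, norm_pow, Real.log_mul
    (norm_ne_zero_iff.mpr (mt (wp'_eq_zero_iff hz).mp h))
    (pow_ne_zero _ (norm_ne_zero_iff.mpr (sig_ne hz))), Real.log_pow,
    show 2 * eta L z * (2 * z) = (4 : ℝ) * (eta L z * z) by push_cast; ring, re_ofReal_mul]
  push_cast
  ring

theorem lamL_half (hz : z ∉ L.lattice) (h : 2 * z ∈ L.lattice) :
    2 * lamL L z = Real.log ‖3 * ℘[L] z ^ 2 - L.g₂ / 4‖ := by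
  obtain ⟨e, he, -, h1⟩ := sig_add h
  have h2 := ((((hasDerivAt_id (0 : ℂ)).add_const (2 * z / 2)).const_mul
    (eta L (2 * z))).cexp.const_mul e).mul (hasDerivAt_sig_zero L)
  have h2' : HasDerivAt (sig L) (e * cexp (eta L (2 * z) * z)) (2 * z) := by
    have h3 : HasDerivAt (fun w => sig L (w + 2 * z)) (deriv (sig L) (2 * z)) 0 :=
      HasDerivAt.comp_add_const 0 _ (by simpa using (differentiable_sig L _).hasDerivAt)
    rw [funext h1] at h3
    have h4 := h3.unique h2
    rw [sig_zero] at h4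
    simpa [h4] using (differentiable_sig L (2 * z)).hasDerivAt
  have h3 := h2'.comp z ((hasDerivAt_id z).const_mul 2)
  have h4 := h3.unique ((((hasDerivAt_wp' hz).neg).mul ((hasDerivAt_sig hz).pow 4)
    ).congr_of_eventuallyEq ((isOpen_compl.eventually_mem hz).mono fun w hw => sig_two_mul hw))
  have h5 : ‖e‖ = 1 := by rcases he with rfl | rfl <;> simp
  have h6 : e * cexp (2 * (eta L z * z)) = -((3 * ℘[L] z ^ 2 - L.g₂ / 4) * sig L z ^ 4) := by
    simp only [Pi.neg_apply, (wp'_eq_zero_iff hz).mpr h, Pi.pow_apply] at h4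
    rw [show 2 * (eta L z * z) = eta L (2 * z) * z by rw [two_mul z, map_add]; ring]
    linear_combination h4 / 2
  have h7 := congr_arg (fun w => Real.log ‖w‖) h6
  have h8 : 3 * ℘[L] z ^ 2 - L.g₂ / 4 ≠ 0 := fun h0 => by
    rw [h0] at h6
    rcases he with rfl | rfl <;> simp at h6
  simp only [norm_mul, norm_neg, h5, one_mul, norm_exp, Real.log_exp, norm_pow] at h7
  rw [Real.log_mul (norm_ne_zero_iff.mpr h8) (pow_ne_zero _ (norm_ne_zero_iff.mpr (sig_ne hz))),
    Real.log_pow, two_mul, add_re] at h7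
  rw [lamL]
  push_cast at h7
  linarith

theorem neron_lamA : NeronLocal (fun z : ℂ => ‖z‖) (lamA h) where
  bdd := lamA_bdd h
  dup R := by
    obtain ⟨z, rfl⟩ := h.unif_surjective R
    by_cases hz : z ∈ L.lattice
    · simp [h.unif_eq_zero_iff.mpr hz, lamA_zero]
    have h1 : dup2 E (ux L E z) = ℘'[L] z ^ 2 := by
      rw [dup2_eq (h.nonsingular hz), uy]; ring
    rw [← map_nsmul, nsmul_eq_mul, Nat.cast_ofNat, lamA_unif h hz, h.unif_of_notMem hz, dupc_some,
      h1]
    by_cases h2 : 2 * z ∈ L.lattice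
    · have h3 := (wp'_eq_zero_iff hz).mpr h2
      have h4 : dup1 E (ux L E z) = (3 * ℘[L] z ^ 2 - L.g₂ / 4) ^ 2 := by
        have g : L.g₂ = (E.b₂ ^ 2 - 24 * E.b₄) / 12 := by rw [← c₄, h.h4]; ring
        rw [show ℘[L] z = ux L E z + E.b₂ / 12 by rw [ux]; ring, g, dup1]
        rw [h3, dup2] at h1
        linear_combination (-(2 * ux L E z + E.b₂ / 4)) * h1 - E.b_relation / 4
      rw [h.unif_eq_zero_iff.mpr h2, lamA_zero, if_pos (by simp [h3]), h4, norm_pow, Real.log_pow]
      push_cast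
      linarith [lamL_half hz h2]
    · rw [lamA_unif h h2, if_neg (pow_ne_zero _ (mt (wp'_eq_zero_iff hz).mp h2)),
        lamL_two_mul hz h2, norm_pow, Real.log_pow]
      push_cast
      ring

theorem na_stmt : NAStmt := fun _ _ _ h => ⟨lamA h, neron_lamA h, fun _ hu => lamA_unif h hu⟩

end Pool.Agent.G5
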