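import Pool.Agent.Lib.MP_696deb_nt.HeightMain

/-! Local heights at nonarchimedean places, for any integral model. -/

set_option autoImplicit false

open WeierstrassCurve WeierstrassCurve.Affine

namespace Pool.Agent.B5

open Pool.Agent.Lib.MP_696deb_nt

variable {K : Type*} [Field K] {v : AbsoluteValue K ℝ} {W : WeierstrassCurve K}

variable (v W) in
/-- An integral model at a nonarchimedean place. -/
structure IntW : Prop where
  na : IsNonarchimedean v
  b2 : v W.b₂ ≤ 1
  b4 : v W.b₄ ≤ 1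
  b6 : v W.b₆ ≤ 1
  b8 : v W.b₈ ≤ 1

/-- The ring of integers of a nonarchimedean place. -/
def intR (hv : IsNonarchimedean v) : Subring K where
  carrier := {x | v x ≤ 1}
  mul_mem' ha hb := by
    rw [Set.mem_ofPred_eq, map_mul]
    exact mul_le_one₀ ha (v.nonneg _) hb
  one_mem' := v.map_one.le
  add_mem' := na_add hv
  zero_mem' := by simp
  neg_mem' ha := by rwa [Set.mem_ofPred_eq, v.map_neg]

variable (v) in
/-- The naive local height, multiplicatively. -/
noncomputable def hx (P : W.toAffine.Point) : ℝ := max 1 (v (xco P))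

theorem one_le_hx (P : W.toAffine.Point) : 1 ≤ hx v P := le_max_left _ _

theorem hx_pos (P : W.toAffine.Point) : 0 < hx v P := one_pos.trans_le (one_le_hx P)

variable (v) in
/-- The size of a vector. -/
noncomputable def nv (x : Fin 3 → K) : ℝ := max (v (x 0)) (max (v (x 1)) (v (x 2)))

theorem nv_smul (c : K) (x : Fin 3 → K) : nv v (c • x) = v c * nv v x := by
  simp only [nv, Pi.smul_apply, smul_eq_mul, map_mul, mul_max_of_nonneg _ _ (v.nonneg c)]

theorem nv_sym (hv : IsNonarchimedean v) (P Q : W.toAffine.Point) :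
    nv v (P.sym2x Q) = hx v P * hx v Q := by
  rcases P with _ | ⟨x, y, h⟩ <;> rcases Q with _ | ⟨x', y', h'⟩
  · simp [← Point.zero_def, nv, hx]
  · simp [← Point.zero_def, nv, hx, max_comm]
  · simp [← Point.zero_def, nv, hx, max_comm]
  simp only [Point.sym2x_some_some, nv, hx, xco_some, Matrix.cons_val_zero, Matrix.cons_val_one,
    Matrix.cons_val, map_one, map_mul]
  have a := v.nonneg x
  have b := v.nonneg x'
  rcases le_or_gt (v x) 1 with h1 | h1 <;> rcases le_or_gt (v x') 1 with h2 | h2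
  · rw [max_eq_left h1, max_eq_left h2, max_eq_right (na_add hv h1 h2),
      max_eq_right (mul_le_one₀ h1 b h2), one_mul]
  · rw [max_eq_left h1, max_eq_right h2.le, add_comm, na_add_eq hv (h1.trans_lt h2),
      max_eq_left h2.le, max_eq_right (by nlinarith), one_mul]
  · rw [max_eq_left h2, max_eq_right h1.le, na_add_eq hv (h2.trans_lt h1),
      max_eq_left h1.le, max_eq_right (by nlinarith), mul_one]
  · rw [max_eq_right h1.le, max_eq_right h2.le, max_eq_left
      (max_le (na_add hv (by nlinarith) (by nlinarith)) (by nlinarith))]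

theorem bez (W : WeierstrassCurve K) (x : K) : W.Δ =
    (-48 * x ^ 2 - 8 * W.b₂ * x + (W.b₂ ^ 2 - 32 * W.b₄)) * dup1 W x +
      (12 * x ^ 3 - W.b₂ * x ^ 2 - 10 * W.b₄ * x + (W.b₂ * W.b₄ - 27 * W.b₆)) * dup2 W x := by
  simp only [dup1, dup2, Δ]
  grind only [b_relation]

namespace IntW

variable (h : IntW v W)
include h

theorem mul {a b : K} {r s : ℝ} (ha : v a ≤ r) (hb : v b ≤ s) : v (a * b) ≤ r * s := by
  have := h.na
  rw [map_mul]
  exact mul_le_mul ha hb (v.nonneg _) ((v.nonneg _).trans ha)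

theorem nv_le (x : Fin 3 → K) : nv v (fun i => (addSubMap W i).eval x) ≤ nv v x ^ 2 := by
  have a0 : v (x 0) ≤ nv v x := le_max_left _ _
  have a1 : v (x 1) ≤ nv v x := (le_max_left _ _).trans (le_max_right _ _)
  have a2 : v (x 2) ≤ nv v x := (le_max_right _ _).trans (le_max_right _ _)
  have k : ∀ {c s t : K}, v c ≤ 1 → v s ≤ nv v x → v t ≤ nv v x → v (c * s * t) ≤ nv v x ^ 2 :=
    fun hc hs ht => (h.mul (h.mul hc hs) ht).trans_eq (by ring)
  have o := v.map_one.le
  have e0 : (addSubMap W 0).eval x =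
      1 * x 0 * x 0 - W.b₄ * x 0 * x 2 - W.b₆ * x 1 * x 2 - W.b₈ * x 2 * x 2 := by
    simp [addSubMap]
    ring
  have e1 : (addSubMap W 1).eval x =
      2 * x 1 * x 0 + W.b₂ * x 0 * x 2 + W.b₄ * x 1 * x 2 + W.b₆ * x 2 * x 2 := by
    simp [addSubMap]
    ring
  have e2 : (addSubMap W 2).eval x = 1 * x 1 * x 1 - 4 * x 0 * x 2 := by
    simp [addSubMap]
    ring
  rw [nv, e0, e1, e2]
  exact max_le (na_sub h.na (na_sub h.na (na_sub h.na (k o a0 a0) (k h.b4 a0 a2)) (k h.b6 a1 a2))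
    (k h.b8 a2 a2)) (max_le (na_add h.na (na_add h.na (na_add h.na (k (na_nat h.na 2) a1 a0)
      (k h.b2 a0 a2)) (k h.b4 a1 a2)) (k h.b6 a2 a2))
      (na_sub h.na (k o a1 a1) (k (na_nat h.na 4) a0 a2)))

theorem big {x : K} (h1 : 1 < v x) : v (dup1 W x) = v x ^ 4 ∧ v (dup2 W x) ≤ v x ^ 3 := by
  have p : ∀ {c : K} (i j : ℕ), v c ≤ 1 → i ≤ j → v (c * x ^ i) ≤ v x ^ j := fun i j hc hij =>
    (h.mul hc (v.map_pow x i).le).trans (by rw [one_mul]; exact pow_le_pow_right₀ h1.le hij)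
  have t2 := na_nat h.na 2
  have q : v x ^ 3 < v x ^ 4 := pow_lt_pow_right₀ h1 (by norm_num)
  constructor
  · rw [show dup1 W x = x ^ 4 - (W.b₄ * x ^ 2 + 2 * W.b₆ * x ^ 1 + W.b₈ * x ^ 0) by
      rw [dup1]; ring, na_sub_eq h.na, map_pow]
    rw [map_pow]
    exact (na_add h.na (na_add h.na (p 2 3 h.b4 (by norm_num))
      (p 1 3 (by simpa using h.mul t2 h.b6) (by norm_num))) (p 0 3 h.b8 (by norm_num))).trans_lt q
  · rw [show dup2 W x = 4 * x ^ 3 + W.b₂ * x ^ 2 + 2 * W.b₄ * x ^ 1 + W.b₆ * x ^ 0 by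
      rw [dup2]; ring]
    exact na_add h.na (na_add h.na (na_add h.na (p 3 3 (na_nat h.na 4) le_rfl)
      (p 2 3 h.b2 (by norm_num))) (p 1 3 (by simpa using h.mul t2 h.b4) (by norm_num)))
      (p 0 3 h.b6 (by norm_num))

theorem small {x : K} (h1 : v x ≤ 1) : v (dup1 W x) ≤ 1 ∧ v (dup2 W x) ≤ 1 ∧
    v W.Δ ≤ max (v (dup1 W x)) (v (dup2 W x)) := by
  have a : x ∈ intR h.na := h1
  have a2 : W.b₂ ∈ intR h.na := h.b2
  have a4 : W.b₄ ∈ intR h.na := h.b4
  have a6 : W.b₆ ∈ intR h.na := h.b6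
  have a8 : W.b₈ ∈ intR h.na := h.b8
  have c1 : dup1 W x ∈ intR h.na := by rw [dup1]; aesop
  have c2 : dup2 W x ∈ intR h.na := by rw [dup2]; aesop
  have c3 : -48 * x ^ 2 - 8 * W.b₂ * x + (W.b₂ ^ 2 - 32 * W.b₄) ∈ intR h.na := by aesop
  have c4 : 12 * x ^ 3 - W.b₂ * x ^ 2 - 10 * W.b₄ * x + (W.b₂ * W.b₄ - 27 * W.b₆) ∈ intR h.na := by
    aesop
  refine ⟨c1, c2, ?_⟩
  rw [bez W x]
  exact na_add h.na (by simpa using h.mul c3 (le_max_left _ _))
    (by simpa using h.mul c4 (le_max_right _ _))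

theorem disc_le : v W.Δ ≤ 1 := by
  obtain ⟨a, b, c⟩ := h.small (x := 0) (by simp)
  exact c.trans (max_le a b)

variable [DecidableEq K]

theorem dup_bd (P : W.toAffine.Point) : v W.Δ * hx v P ^ 4 ≤ v (dupc P) * hx v (2 • P) ∧
    v (dupc P) * hx v (2 • P) ≤ hx v P ^ 4 := by
  rcases P with _ | ⟨x, y, k⟩
  · simpa [← Point.zero_def, hx] using h.disc_le
  rw [hx, hx, abv_dupc, xco_some]
  rcases le_or_gt (v x) 1 with h1 | h1
  · obtain ⟨a, b, c⟩ := h.small h1
    rw [max_eq_left h1, one_pow, mul_one]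
    exact ⟨c, max_le a b⟩
  · obtain ⟨a, b⟩ := h.big h1
    rw [max_eq_right h1.le, a, max_eq_left (b.trans (pow_le_pow_right₀ h1.le (by norm_num)))]
    exact ⟨mul_le_of_le_one_left (by positivity) h.disc_le, le_rfl⟩

end IntW

variable [DecidableEq K]

variable (v) in
/-- The defect of the duplication formula. -/
noncomputable def dfc (P : W.toAffine.Point) : ℝ :=
  Real.log (v (dupc P)) + Real.log (hx v (2 • P)) - 4 * Real.log (hx v P)

variable (v) in
/-- The local height. -/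
noncomputable def lamV (P : W.toAffine.Point) : ℝ :=
  Real.log (hx v P) + ∑' n : ℕ, dfc v (2 ^ n • P) * (1 / 4) ^ (n + 1)

variable (v) in
/-- Points close to the origin. -/
def Big (c : ℝ) (P : W.toAffine.Point) : Prop := P = 0 ∨ c < v (xco P)

theorem dbl_sym (P Q : W.toAffine.Point) [W.IsElliptic] :
    (fun i => (addSubMap W i).eval fun j => (addSubMap W j).eval (P.sym2x Q)) =
      (dupc P * dupc Q) • (2 • P).sym2x (2 • Q) := by
  have k : ∀ {x y : K} (h : W.toAffine.Nonsingular x y),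
      dupc (.some x y h) * (2 • (Point.some x y h : W.toAffine.Point)).xRep 0 = dup1 W x ∧
      dupc (.some x y h) * (2 • (Point.some x y h : W.toAffine.Point)).xRep 1 = dup2 W x := by
    intro x y h
    by_cases h2 : dup2 W x = 0
    · rw [two_nsmul_eq_zero h h2, dupc_some, if_pos h2, h2]
      simp
    · obtain ⟨y', h', e⟩ := two_nsmul_some h h2
      rw [e, dupc_some, if_neg h2]
      simp [mul_div_cancel₀ _ h2]
  have e : ∀ (a b : K) (R S : W.toAffine.Point), (a * b) • R.sym2x S =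
      ![a * R.xRep 0 * (b * S.xRep 0), a * R.xRep 0 * (b * S.xRep 1) + a * R.xRep 1 * (b * S.xRep 0),
        a * R.xRep 1 * (b * S.xRep 1)] := fun a b R S => by
    ext i
    fin_cases i <;> simp [Point.sym2x] <;> ring
  rw [e]
  have r := W.b_relation
  rcases P with _ | ⟨x, y, h⟩ <;> rcases Q with _ | ⟨x', y', h'⟩
  · ext i
    fin_cases i <;> simp [← Point.zero_def, addSubMap]
  · rw [(k h').1, (k h').2]
    ext i
    fin_cases i <;> simp [← Point.zero_def, addSubMap, dup1, dup2] <;> grind only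
  · rw [(k h).1, (k h).2]
    ext i
    fin_cases i <;> simp [← Point.zero_def, addSubMap, dup1, dup2] <;> grind only
  · rw [(k h).1, (k h).2, (k h').1, (k h').2]
    ext i
    fin_cases i <;> simp [addSubMap, dup1, dup2] <;> grind only

omit [DecidableEq K] in
theorem eval_smul (c : K) (x : Fin 3 → K) :
    (fun i => (addSubMap W i).eval (c • x)) = c ^ 2 • fun i => (addSubMap W i).eval x := by
  ext i
  fin_cases i <;> simp [addSubMap] <;> ring

omit [DecidableEq K] in
theorem sym_cancel {a b : K} {P Q : W.toAffine.Point} (h : a • P.sym2x Q = b • P.sym2x Q) :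
    a = b := smul_left_injective K (P.sym2x_ne_zero Q) h

omit [DecidableEq K] in
theorem Big.mono {c d : ℝ} {P : W.toAffine.Point} (h : Big v c P) (e : d ≤ c) : Big v d P :=
  h.imp_right e.trans_lt

theorem Big.neg {c : ℝ} {P : W.toAffine.Point} (h : Big v c P) : Big v c (-P) :=
  h.imp neg_eq_zero.2 fun e => by rwa [xco_neg]

namespace IntW

variable [W.IsElliptic] (h : IntW v W)
include h

omit [DecidableEq K] h in
theorem disc_pos : 0 < v W.Δ := v.pos W.isUnit_Δ.ne_zero

theorem dfc_bd (P : W.toAffine.Point) : Real.log (v W.Δ) ≤ dfc v P ∧ dfc v P ≤ 0 := by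
  obtain ⟨a, b⟩ := h.dup_bd P
  have p1 := v.pos (dupc_ne P)
  have p2 := hx_pos (v := v) P
  have p3 := hx_pos (v := v) (2 • P)
  have p4 := disc_pos (v := v) (W := W)
  have c := Real.log_le_log (by positivity) a
  have d := Real.log_le_log (by positivity) b
  rw [Real.log_mul p1.ne' p3.ne', Real.log_pow] at d
  rw [Real.log_mul p1.ne' p3.ne', Real.log_mul p4.ne' (by positivity), Real.log_pow] at c
  push_cast at c d
  rw [dfc]
  constructor <;> linarith

omit h [W.IsElliptic] [DecidableEq K] in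
theorem geo (c : ℝ) : HasSum (fun n : ℕ => c * (1 / 4) ^ (n + 1)) (c / 3) := by
  have := (hasSum_geometric_of_lt_one (r := 1 / 4) (by norm_num) (by norm_num)).mul_left (c / 4)
  rw [show c / 4 * (1 - 1 / 4)⁻¹ = c / 3 by norm_num; ring] at this
  exact this.congr_fun fun n => by ring

theorem summ (P : W.toAffine.Point) :
    Summable fun n : ℕ => dfc v (2 ^ n • P) * (1 / 4) ^ (n + 1) :=
  .of_norm_bounded (geo (-Real.log (v W.Δ))).summable fun n => by
    rw [Real.norm_eq_abs, abs_mul, abs_of_nonpos (h.dfc_bd _).2, abs_of_pos (by positivity)]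
    exact mul_le_mul_of_nonneg_right (neg_le_neg (h.dfc_bd _).1) (by positivity)

theorem lam_le (P : W.toAffine.Point) : lamV v P ≤ Real.log (hx v P) :=
  add_le_of_nonpos_right (tsum_nonpos fun _ =>
    mul_nonpos_of_nonpos_of_nonneg (h.dfc_bd _).2 (by positivity))

theorem third (P : W.toAffine.Point) : Real.log (hx v P) + Real.log (v W.Δ) / 3 ≤ lamV v P :=
  add_le_add_right (hasSum_le (fun n => mul_le_mul_of_nonneg_right (h.dfc_bd (2 ^ n • P)).1
    (by positivity)) (geo (Real.log (v W.Δ))) (h.summ P).hasSum) _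

theorem le_lam (P : W.toAffine.Point) : Real.log (hx v P) + Real.log (v W.Δ) ≤ lamV v P := by
  have a := h.third P
  have b := Real.log_nonpos (v.nonneg _) h.disc_le
  linarith

theorem neron : NeronLocal (W := W) v (lamV v) := by
  refine ⟨⟨-Real.log (v W.Δ), fun P => abs_le.2 ⟨?_, ?_⟩⟩, fun P => ?_⟩
  · have := h.le_lam P
    rw [hx] at this
    linarith
  · have := h.lam_le P
    have b := Real.log_nonpos (v.nonneg _) h.disc_le
    rw [hx] at this
    linarith
  · have e : ∑' n : ℕ, dfc v (2 ^ n • 2 • P) * (1 / 4) ^ (n + 1) =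
        4 * ∑' n : ℕ, dfc v (2 ^ (n + 1) • P) * (1 / 4) ^ (n + 1 + 1) := by
      rw [← tsum_mul_left]
      refine tsum_congr fun n => ?_
      rw [← mul_smul, ← pow_succ]
      ring
    rw [lamV, lamV, (h.summ P).tsum_eq_zero_add, e, pow_zero, one_smul, dfc]
    ring

theorem lam_good (e : v W.Δ = 1) (P : W.toAffine.Point) :
    lamV v P = Real.log (max 1 (v (xco P))) :=
  le_antisymm (h.lam_le P) (by simpa [e, hx] using h.le_lam P)

theorem lam_zero : lamV v (0 : W.toAffine.Point) = 0 := by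
  have := h.neron.dup 0
  simp only [smul_zero, dupc_zero, map_one, Real.log_one] at this
  linarith

omit [W.IsElliptic] in
theorem lam_neg (P : W.toAffine.Point) : lamV v (-P) = lamV v P := by
  have := h.na
  have e : ∀ P : W.toAffine.Point, dupc (-P) = dupc P := by rintro (_ | ⟨x, y, k⟩) <;> rfl
  simp only [lamV, dfc, hx, smul_neg, xco_neg, e]

/-- The parallelogram law for the local height. -/
theorem par {P Q : W.toAffine.Point} {c : K}
    (e : (fun i => (addSubMap W i).eval (P.sym2x Q)) = c • (P + Q).sym2x (P - Q)) :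
    lamV v (P + Q) + lamV v (P - Q) = 2 * lamV v P + 2 * lamV v Q - Real.log (v c) := by
  choose γ γ0 γ1 using fun P Q : W.toAffine.Point => addSubMap_sym2x P Q
  obtain rfl : c = γ P Q := sym_cancel (e.symm.trans (γ1 P Q))
  have a1 : ∀ P Q, γ P Q ^ 2 * γ (P + Q) (P - Q) = dupc P * dupc Q := fun P Q => by
    have := dbl_sym P Q
    rw [γ1, eval_smul, γ1, smul_smul, add_add_sub_cancel, add_sub_sub_cancel, ← two_nsmul,
      ← two_nsmul] at this
    exact sym_cancel this
  obtain ⟨Ψ, hΨ⟩ : ∃ Ψ : W.toAffine.Point → W.toAffine.Point → ℝ, ∀ P Q, Ψ P Q =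
      lamV v (P + Q) + lamV v (P - Q) - 2 * lamV v P - 2 * lamV v Q + Real.log (v (γ P Q)) :=
    ⟨_, fun _ _ => rfl⟩
  have a2 : ∀ P Q, Ψ (P + Q) (P - Q) = -2 * Ψ P Q := fun P Q => by
    have := congrArg (fun x => Real.log (v x)) (a1 P Q)
    simp only [map_mul, map_pow] at this
    rw [Real.log_mul (pow_pos (v.pos (γ0 _ _)) _).ne' (v.pos (γ0 _ _)).ne', Real.log_pow,
      Real.log_mul (v.pos (dupc_ne _)).ne' (v.pos (dupc_ne _)).ne'] at this
    rw [hΨ, hΨ, add_add_sub_cancel, add_sub_sub_cancel, ← two_nsmul, ← two_nsmul, h.neron.dup,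
      h.neron.dup]
    push_cast at this
    linarith
  have b := Real.log_nonpos (v.nonneg _) h.disc_le
  have a3 : ∀ P Q, Ψ P Q ≤ -4 * Real.log (v W.Δ) := fun P Q => by
    have := h.nv_le (P.sym2x Q)
    rw [γ1, nv_smul, nv_sym h.na, nv_sym h.na] at this
    have p1 := hx_pos (v := v) P
    have p2 := hx_pos (v := v) Q
    have p3 := hx_pos (v := v) (P + Q)
    have p4 := hx_pos (v := v) (P - Q)
    have p5 := v.pos (γ0 P Q)
    have c := Real.log_le_log (by positivity) this
    rw [Real.log_mul p5.ne' (by positivity), Real.log_mul p3.ne' p4.ne', Real.log_pow,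
      Real.log_mul p1.ne' p2.ne'] at c
    push_cast at c
    rw [hΨ]
    linarith [h.lam_le (P + Q), h.lam_le (P - Q), h.le_lam P, h.le_lam Q]
  have a4 : ∀ (n : ℕ) P Q, Ψ (2 ^ n • P) (2 ^ n • Q) = 4 ^ n * Ψ P Q := fun n P Q => by
    induction n with
    | zero => simp
    | succ n ih =>
      have := a2 (2 ^ n • P + 2 ^ n • Q) (2 ^ n • P - 2 ^ n • Q)
      rw [a2 (2 ^ n • P), ih, add_add_sub_cancel, add_sub_sub_cancel, ← two_nsmul, ← two_nsmul,
        smul_smul, smul_smul, ← pow_succ'] at this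
      rw [this]
      ring
  have a5 := eq_zero_of_four_pow (a := Ψ P Q) (C := -4 * Real.log (v W.Δ)) fun n => by
    have a6 := a3 (2 ^ n • P + 2 ^ n • Q) (2 ^ n • P - 2 ^ n • Q)
    rw [a2] at a6
    rw [← a4, abs_le]
    exact ⟨by linarith, a3 _ _⟩
  rw [hΨ] at a5
  linarith

theorem par' {P Q : W.toAffine.Point} (hP : P ≠ 0) (hQ : Q ≠ 0) (e : xco P ≠ xco Q) :
    lamV v (P + Q) + lamV v (P - Q) =
      2 * lamV v P + 2 * lamV v Q - 2 * Real.log (v (xco P - xco Q)) := by
  rcases P with _ | ⟨x₁, y₁, h₁⟩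
  · exact absurd rfl hP
  rcases Q with _ | ⟨x₂, y₂, h₂⟩
  · exact absurd rfl hQ
  obtain ⟨u, w, u', w', k, k', e1, e2, k1, k2⟩ := add_sub_some h₁ h₂ e
  rw [h.par (c := (x₁ - x₂) ^ 2), map_pow, Real.log_pow]
  · rfl
  rw [e1, e2]
  ext i
  fin_cases i <;> simp [addSubMap]
  · linear_combination -k1
  · linear_combination -k2
  · ring

omit [W.IsElliptic] in
theorem big_two {c : ℝ} (hc : 1 ≤ c) {P : W.toAffine.Point} (hP : Big v c P) :
    Big v c (2 • P) := by
  rcases P with _ | ⟨x, y, k⟩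
  · exact .inl (by simp [← Point.zero_def])
  have h1 : c < v x := hP.resolve_left (Point.some_ne_zero k)
  obtain ⟨a, b⟩ := h.big (hc.trans_lt h1)
  by_cases h2 : dup2 W x = 0
  · exact .inl (two_nsmul_eq_zero k h2)
  refine .inr (h1.trans_le ?_)
  rw [xco_two_nsmul, map_div₀, le_div_iff₀ (v.pos h2), a, pow_succ']
  exact mul_le_mul_of_nonneg_left b (v.nonneg _)

theorem lam_big {P : W.toAffine.Point} (hP : Big v 1 P) : lamV v P = Real.log (hx v P) := by
  have a : ∀ P : W.toAffine.Point, Big v 1 P → dfc v P = 0 := by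
    rintro (_ | ⟨x, y, k⟩) hP
    · simp [← Point.zero_def, dfc, hx]
    have h1 : 1 < v x := hP.resolve_left (Point.some_ne_zero k)
    obtain ⟨a, b⟩ := h.big h1
    rw [dfc, ← Real.log_mul (v.pos (dupc_ne _)).ne' (hx_pos _).ne', hx, hx, abv_dupc, xco_some,
      max_eq_right h1.le, a, max_eq_left (b.trans (pow_le_pow_right₀ h1.le (by norm_num))),
      Real.log_pow]
    simp
  have b : ∀ n : ℕ, Big v 1 (2 ^ n • P) := fun n => by
    induction n with
    | zero => simpa using hP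
    | succ n ih => simpa only [smul_smul, ← pow_succ'] using h.big_two le_rfl ih
  simp [lamV, a _ (b _)]

omit [W.IsElliptic] in
theorem big_sub {c : ℝ} (hc : 1 ≤ c) {P Q : W.toAffine.Point} (hP : Big v c P) (hQ : Big v c Q) :
    Big v c (P - Q) := by
  rcases P with _ | ⟨x₁, y₁, h₁⟩
  · simpa [← Point.zero_def] using hQ.neg
  rcases Q with _ | ⟨x₂, y₂, h₂⟩
  · simpa [← Point.zero_def] using hP
  by_cases e : x₁ = x₂
  · rcases (Point.X_eq_iff (h₁ := h₁) (h₂ := h₂)).1 e with k | k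
    · exact .inl (sub_eq_zero.2 k)
    · rw [k, show ∀ R : W.toAffine.Point, -R - R = -(2 • R) from fun R => by abel]
      exact (h.big_two hc hQ).neg
  obtain ⟨u', w', u, w, k, k', -, e2, k1, k2⟩ := add_sub_some h₁ h₂ e
  rw [e2]
  rw [mul_comm u'] at k1
  have a1 : c < v x₁ := hP.resolve_left (Point.some_ne_zero _)
  have a2 : c < v x₂ := hQ.resolve_left (Point.some_ne_zero _)
  refine .inr (lt_of_lt_of_le (lt_min a1 a2) ?_)
  rw [xco_some]
  have b1 := hc.trans_lt a1
  have b2 := hc.trans_lt a2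
  have s : v (x₁ + x₂) ≤ max (v x₁) (v x₂) := h.na _ _
  have d : v (x₁ - x₂) ≤ max (v x₁) (v x₂) := na_sub h.na (le_max_left _ _) (le_max_right _ _)
  have d0 := v.pos (sub_ne_zero.2 e)
  have m := min_mul_max (v x₁) (v x₂)
  have m1 : 1 < min (v x₁) (v x₂) := lt_min b1 b2
  have m2 : 1 < max (v x₁) (v x₂) := lt_max_of_lt_left b1
  have p := (v.map_mul x₁ x₂).trans m.symm
  generalize min (v x₁) (v x₂) = μ at *
  generalize max (v x₁) (v x₂) = M at *
  have q1 : 1 < μ * M := by nlinarith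
  have q2 : M ≤ μ * M := by nlinarith
  have c1 : v u * v u' * v (x₁ - x₂) ^ 2 = (μ * M) ^ 2 := by
    rw [← map_mul, ← map_pow, ← map_mul, k1, sub_sub, sub_sub, na_sub_eq h.na, map_pow, p]
    rw [map_pow, p]
    exact (na_add h.na (by simpa using h.mul h.b4 p.le) (na_add h.na
      (by simpa using h.mul h.b6 (s.trans q2)) (h.b8.trans q1.le))).trans_lt (by nlinarith)
  have c2 : v (u' + u) * v (x₁ - x₂) ^ 2 ≤ M * (μ * M) := by
    rw [← map_pow, ← map_mul, k2]
    exact na_add h.na (na_add h.na (na_add h.na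
      (by simpa using h.mul (h.mul (na_nat h.na 2) s) p.le)
      ((h.mul h.b2 p.le).trans (by nlinarith))) ((h.mul h.b4 s).trans (by nlinarith)))
      (h.b6.trans (by nlinarith))
  by_contra! k3
  have c3 : v (x₁ - x₂) ^ 2 ≤ M ^ 2 := pow_le_pow_left₀ d0.le d 2
  have n1 := v.nonneg u
  have n2 := v.nonneg u'
  have c4 : v u < v u' := by
    by_contra! k4
    have : v u * v u' < μ ^ 2 := by nlinarith
    have c5 := mul_lt_mul_of_pos_right this (pow_pos (zero_lt_one.trans m2) 2)
    have c6 := mul_le_mul_of_nonneg_left c3 (mul_nonneg n1 n2)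
    rw [c1, mul_pow] at c6
    exact c5.not_ge c6
  rw [na_add_eq h.na c4] at c2
  nlinarith [mul_le_mul_of_nonneg_left c2 n2, mul_pos (zero_lt_one.trans m2) (zero_lt_one.trans q1)]

end IntW

end Pool.Agent.B5
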