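import Pool.Agent.Lib.MP_696deb_nt.B5.NSa
import Pool.Agent.Lib.MP_696deb_nt.B5.LCb
import Pool.Agent.Lib.MP_696deb_nt.B5.ZFb

/-! The local Green function at a prime that is not split. -/

set_option autoImplicit false

open Complex Finset NumberTheorySymbols
open scoped Real Classical NNReal
open Pool.Agent.Lib.MP_696deb_nt Pool.Agent.Lib.MP_696deb_nt.B2.CM Pool.Agent.Lib.MP_696deb_nt.Unif

namespace Pool.Agent.G5

open Pool.Agent.B4.GE Pool.Agent.Shared.Weier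
open Pool.Agent.B5 (IntW valOf Aff coe_valOf)
open Pool.Agent.Dih (HI hpt hgc mem_HI Dp NS Yv Zv Prm rt_froot finite_jf_cm)

variable {n l l₀ m M N p A B : ℕ} {ρ ρ' β : ℤ} {Q R : Fm} {t : (_ : ℕ × ℕ) × ℕ} {a : ℕ →₀ ℤ}
  {v : AbsoluteValue ℂ ℝ} {T T' : Finset Fm}

theorem ns_abs_sum {ι κ : Type} (S : Finset ι) (H : Finset κ) (w : ι → ℤ) (g : ι → κ → ℝ)
    (e : κ → ℝ) (c : ℝ) (hw : ∑ Q ∈ S, w Q = 0) (h : ∀ Q ∈ S, ∀ t ∈ H, |g Q t - c| ≤ e t) :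
    |∑ Q ∈ S, w Q • ∑ t ∈ H, g Q t| ≤ (∑ Q ∈ S, |(w Q : ℝ)|) * ∑ t ∈ H, e t := by
  have h1 : ∑ Q ∈ S, w Q • ∑ t ∈ H, g Q t = ∑ Q ∈ S, (w Q : ℝ) * ∑ t ∈ H, (g Q t - c) := by
    have h2 : ∑ Q ∈ S, (w Q : ℝ) = 0 := by exact_mod_cast hw
    simp only [sum_sub_distrib, mul_sub, zsmul_eq_mul]
    rw [← sum_mul, h2, zero_mul, sub_zero]
  rw [h1, sum_mul]
  refine (abs_sum_le_sum_abs _ _).trans (sum_le_sum fun Q hQ => ?_)
  rw [abs_mul]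
  exact mul_le_mul_of_nonneg_left ((abs_sum_le_sum_abs _ _).trans (sum_le_sum (h Q hQ)))
    (abs_nonneg _)

theorem ns_cmb_bdd (Φ : ℕ → ℂ → ℤ) (a : ℕ →₀ ℤ) (h : ∀ m ∈ a.support, ∃ C, ∀ z, |Φ m z| ≤ C) :
    ∃ C : ℕ, ∀ z, |cmb Φ a z| < C := by
  choose! C hC using h
  refine ⟨(∑ m ∈ a.support, |a m| * C m).toNat + 1, fun z => ?_⟩
  have : |cmb Φ a z| ≤ ∑ m ∈ a.support, |a m| * C m := by
    rw [Finsupp.linearCombination_apply, Finsupp.sum, Finset.sum_apply]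
    refine (abs_sum_le_sum_abs _ _).trans (sum_le_sum fun m hm => ?_)
    rw [Pi.smul_apply, smul_eq_mul, abs_mul]
    exact mul_le_mul_of_nonneg_left (hC m hm z) (abs_nonneg _)
  have := Int.self_le_toNat (∑ m ∈ a.support, |a m| * C m)
  push_cast
  omega

theorem ns_cmb_ne {Φ : ℕ → ℂ → ℤ} {z : ℂ} (h : cmb Φ a z ≠ 0) : ∃ m ∈ a.support, Φ m z ≠ 0 := by
  rw [Finsupp.linearCombination_apply, Finsupp.sum, Finset.sum_apply] at h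
  obtain ⟨m, hm, k⟩ := exists_ne_zero_of_sum_ne_zero h
  exact ⟨m, hm, fun e => k (by rw [Pi.smul_apply, e, smul_zero])⟩

theorem Cx.ns_wt (h : Cx N p A B ρ ρ' β) (hm : m ≠ 0) :
    -((A * B : ℕ) : ℤ) * m ^ 2 < 0 ∧ Wt N (Yw N A B ρ' m) (-(A * B : ℕ) * m ^ 2) := by
  have h4 := h.mod4
  have h0 : -((A * B : ℕ) : ℤ) * m ^ 2 < 0 :=
    mul_neg_of_neg_of_pos (by omega) (by positivity)
  have e : -((A * B : ℕ) : ℤ) * m ^ 2 = -(B * (A * m ^ 2)) := by push_cast; ring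
  refine ⟨h0, ?_⟩
  rw [e] at h0 ⊢
  exact wt_wZ (Nat.Odd.of_mul_right (m := A) (Nat.odd_iff.2 (by omega)))
    (Dvd.intro _ rfl).neg_right h0

/-- The invariants of the points in the support of the divisor. -/
theorem Cx.ns_JM (h : Cx N p A B ρ ρ' β) (ha : Sup M a) : ∃ (J : Finset ℂ) (c : ℕ),
    (∀ z : ℂ, cmb (fun m => nuW (Yw N A B ρ' m)) a z ≠ 0 → jf z ∈ J) ∧
    (∀ z : ℂ, |cmb (fun m => nuW (Yw N A B ρ' m)) a z| < c) ∧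
    ∀ k ∈ J, ∃ (m : ℕ) (R : Fm), m ≠ 0 ∧ m.Coprime M ∧ 0 < R.1 ∧
      fdisc R = -(A * B : ℕ) * m ^ 2 ∧ k = jf (froot R) := by
  have f : {k | ∃ m ∈ a.support, ∃ R : Fm, 0 < R.1 ∧ fdisc R = -(A * B : ℕ) * m ^ 2 ∧
      k = jf (froot R)}.Finite := by
    refine (a.support.finite_toSet.biUnion fun m _ =>
      finite_jf_cm (-(A * B : ℕ) * m ^ 2)).subset ?_
    rintro _ ⟨m, hm, R, r1, r2, rfl⟩
    have d : fdisc R < 0 := r2 ▸ (h.ns_wt (ha m hm).1).1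
    exact Set.mem_biUnion hm ⟨_, r2 ▸ (rt_froot d r1).isCM (im_froot_pos d r1) d, rfl⟩
  obtain ⟨c, hc⟩ := ns_cmb_bdd (fun m => nuW (Yw N A B ρ' m)) a fun m hm => by
    obtain ⟨d, w⟩ := h.ns_wt (ha m hm).1
    obtain ⟨C, hC⟩ := w.bdd
    refine ⟨C, fun z => ?_⟩
    by_cases k : nuW (Yw N A B ρ' m) z = 0
    · rw [k]
      exact (abs_nonneg _).trans (hC (0, 0, 0))
    obtain ⟨R, r1, rfl⟩ := exists_of_nuW k
    rw [nuW_froot (fun R' r => ⟨(w.disc _ r).trans (w.disc _ r1).symm, (pos_of_wZ r).1⟩)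
      (w.disc _ r1 ▸ d) (pos_of_wZ r1).1]
    exact hC R
  refine ⟨f.toFinset, c, fun z hz => ?_, hc, fun k hk => ?_⟩
  · obtain ⟨m, hm, k⟩ := ns_cmb_ne hz
    obtain ⟨R, r1, rfl⟩ := exists_of_nuW k
    exact f.mem_toFinset.2 ⟨m, hm, R, (pos_of_wZ r1).1, (h.ns_wt (ha m hm).1).2.disc _ r1, rfl⟩
  · obtain ⟨m, hm, R, r⟩ := f.mem_toFinset.1 hk
    exact ⟨m, R, (ha m hm).1, (ha m hm).2, r⟩

/-- Points of different conductors have different invariants. -/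
theorem ns_jf_ne (h4 : n % 4 = 3) (hQ : 0 < Q.1) (hD : fdisc Q = -n) (hl : l₀.Prime)
    (hJ : J((l₀ : ℤ) | n) = -1) (hM : ¬ l₀ ∣ M) (ht : t ∈ HI (l₀ * M)) (hR : 0 < R.1)
    (hm : ¬ l₀ ∣ m) (hd : fdisc R = -n * m ^ 2) : jf (froot R) ≠ jf (hpt t (froot Q)) :=
  have n0 : -(n : ℤ) < 0 := by omega
  (yv_froot n0 hR hm hd).jf_ne (zv_hpt h4 hQ hD hl hJ hM ht) hl n0

/-- The divisor vanishes at the points of the Hecke correspondence. -/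
theorem Cx.nu_hpt (h : Cx N p A B ρ ρ' β) (hl : l₀.Prime) (hJ : et (A * B) l₀ = -1)
    (ha : Sup (N * l * l₀) a) (hQ : 0 < Q.1) (hD : fdisc Q = -(A * B : ℕ)) (hM : ¬ l₀ ∣ M)
    (ht : t ∈ HI (l₀ * M)) :
    cmb (fun m => nuW (Yw N A B ρ' m)) a (hpt t (froot Q)) = 0 := by
  obtain ⟨J, c, h1, -, h2⟩ := h.ns_JM ha
  by_contra k
  obtain ⟨m, R, -, r1, r2, r3, r4⟩ := h2 _ (h1 _ k)
  exact ns_jf_ne h.mod4 hQ hD hl hJ hM ht r2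
    (hl.coprime_iff_not_dvd.1 (Nat.Coprime.coprime_mul_left_right r1).symm) r3 r4.symm

theorem ns_log (hv : IsNonarchimedean v) (hl : l.Prime) {x : ℂ} {c i : ℕ}
    (h : (valOf hv).valuationSubring.valuation l ^ c ≤
      (valOf hv).valuationSubring.valuation x ^ i) :
    i * -Real.log (v x) ≤ c * -Real.log (v l) := by
  rw [← map_pow, ← map_pow, ← (valOf hv).isEquiv_valuation_valuationSubring.le_iff_le,
    ← NNReal.coe_le_coe, coe_valOf, coe_valOf, map_pow, map_pow] at h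
  have := Real.log_le_log (pow_pos (v.pos (by exact_mod_cast hl.ne_zero)) c) h
  rw [Real.log_pow, Real.log_pow] at this
  linarith

theorem ns_near (hn : Squarefree n) (h4 : n % 4 = 3) (hl : l.Prime) (hl₀ : l₀.Prime) (hne : l ≠ l₀)
    (h2 : l₀ ≠ 2) (hJ₀ : J((l₀ : ℤ) | n) = -1) (hJ : J((l : ℤ) | n) ≠ 1) (hR : 0 < R.1)
    (hm : ¬ l ∣ m) (hm₀ : ¬ l₀ ∣ m) (hd : fdisc R = -n * m ^ 2) : ∃ c : ℕ,
    ∀ v : AbsoluteValue ℂ ℝ, IsNonarchimedean v → v l < 1 → ∀ (j : ℕ) (Q : Fm) (t), 0 < Q.1 →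
      fdisc Q = -n → t ∈ HI (l₀ * l ^ j) → -Real.log (v (jf (hpt t (froot Q)) - jf (froot R))) ≤
        c * ((hgc t : ℝ) ^ 2 / l ^ j * -Real.log (v l)) := by
  have a1 : NS l (-n) := by simpa using ns_of_jac hn h4 hl hJ hl.not_dvd_one odd_one
  have a2 : ¬ l ∣ l₀ := mt (Nat.prime_dvd_prime_iff_eq hl hl₀).1 hne
  have a3 := ns0_of_jac hn h4 hl hJ hm
  obtain ⟨c, hc⟩ := a3.near (ns_of_jac hn h4 hl hJ a2 (hl₀.odd_of_ne_two h2)) hl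
  refine ⟨c * l, fun v hv hvl j Q t hQ hD ht => ?_⟩
  obtain ⟨i, b1, b2⟩ := dp_hpt a1 hl hD hQ a2 ht
  have d : fdisc R < 0 := hd ▸ a3.1
  have hp := Nat.prime_iff_prime_int.1 hl
  have pr : Prm l R := fun ⟨e1, e2, e3⟩ => ns_not_sq a1 (hp.pow_dvd_of_dvd_mul_right 2
    (b := (m : ℤ) ^ 2) (fun k => hm (Int.natCast_dvd_natCast.1 (hp.dvd_of_dvd_pow k)))
    (hd ▸ dvd_sub (pow_dvd_pow_of_dvd e2 2) (sq (l : ℤ) ▸ mul_dvd_mul (e1.mul_left 4) e3)))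
  have k := ns_log hv hl (hc (valOf hv).valuationSubring
    ((valOf hv).isEquiv_valuation_valuationSubring.lt_one_iff_lt_one.1 (by
      rwa [← NNReal.coe_lt_coe, coe_valOf])) i _ _
    ⟨im_froot_pos d hR, R, rt_froot d hR, hd, pr⟩ b1 (ns_jf_ne h4 hQ hD hl₀ hJ₀ (fun k => hne
      ((Nat.prime_dvd_prime_iff_eq hl₀ hl).1 (hl₀.dvd_of_dvd_pow k)).symm) ht hR hm₀ hd))
  rw [v.map_sub] at k
  have L : 0 ≤ -Real.log (v l) := neg_nonneg.2 (Real.log_nonpos (v.nonneg _) hvl.le)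
  have p0 : (0 : ℝ) < l := by exact_mod_cast hl.pos
  have b3 : (l : ℝ) ^ j ≤ l * (hgc t : ℝ) ^ 2 * l ^ i := by exact_mod_cast b2
  push_cast at k ⊢
  refine le_of_mul_le_mul_left (k.trans ?_) (pow_pos p0 i)
  rw [show (l : ℝ) ^ i * (c * l * ((hgc t : ℝ) ^ 2 / l ^ j * -Real.log (v l))) =
    c * -Real.log (v l) * (l * (hgc t : ℝ) ^ 2 * l ^ i / l ^ j) by ring]
  exact le_mul_of_one_le_right (by positivity) ((one_le_div (by positivity)).2 b3)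

theorem Cx.ns_not_dvd (h : Cx N p A B ρ ρ' β) (hl : l.Prime) (hJ : et (A * B) l ≠ 1) : ¬ l ∣ N := by
  rintro ⟨c, rfl⟩
  rcases jac_cases hl hJ with k | k
  · obtain ⟨d, hd⟩ := h.root
    exact inert_of_jac h.mod4 hl k ρ (c * d) (by rw [hd]; push_cast; ring)
  · exact hl.one_lt.ne' (Nat.eq_one_of_dvd_coprimes h.cop k (Dvd.intro _ rfl))

theorem ns_unit (hv : IsNonarchimedean v) (hl : l.Prime) (h : v l < 1) (hN : ¬ l ∣ N) :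
    valOf hv N = 1 := by
  have h1 : ∀ k : ℤ, v k ≤ 1 := fun k => hv.apply_intCast_le_one
  obtain ⟨x, y, e⟩ := Nat.isCoprime_iff_coprime.2 (hl.coprime_iff_not_dvd.2 hN)
  have e' : (x : ℂ) * l + y * N = 1 := by exact_mod_cast e
  have h2 := hv ((x : ℂ) * l) (y * N)
  rw [e', map_one, map_mul, map_mul, le_max_iff] at h2
  refine NNReal.eq (le_antisymm (show v N ≤ 1 by simpa using h1 N) ?_)
  rcases h2 with k | k
  · exact absurd k (not_le.2 (mul_lt_one_of_nonneg_of_lt_one_right (h1 x) (v.nonneg _) h))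
  · exact k.trans (mul_le_of_le_one_left (v.nonneg _) (h1 y))

theorem ns_card (hl : l.Prime) (hl₀ : l₀.Prime) (j : ℕ) :
    (l₀ * l ^ j).divisors.card ≤ 2 * (j + 1) := by
  rw [Nat.divisors_mul]
  refine card_mul_le.trans (le_of_eq ?_)
  rw [hl₀.divisors, card_pair hl₀.one_lt.ne, Nat.divisors_prime_pow hl, card_map, card_range]

variable {W : WeierstrassCurve ℚ} [W.IsElliptic] {P : Par W N} {u : ℂ} {V : ℂ → ℂ}

/-- The contribution of a place above a prime that is not split grows slowly. -/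
theorem lc_nonsplit' (h : Cx N p A B ρ ρ' β) (hT : FReps N (-(A * B : ℕ)) ρ T)
    (hT' : FReps N (-(A * B : ℕ)) (-ρ) T')
    (deg : ∑ Q ∈ T ∪ T', wZ N B (-(A * B : ℕ)) ρ Q = 0) (hl : l.Prime) (hl₀ : l₀.Prime)
    (hne : l ≠ l₀) (h2 : l₀ ≠ 2) (hJ₀ : et (A * B) l₀ = -1) (ha : Sup (N * l * l₀) a)
    (hV : Th N (cmb (fun m => nuW (Yw N A B ρ' m)) a) (U1 P.L P.F u) V)
    (hJ : et (A * B) l ≠ 1) : ∃ C : ℝ, ∀ v : AbsoluteValue ℂ ℝ, IntW v (W.baseChange ℂ) →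
    v l < 1 → ∀ j : ℕ, |zs N A B ρ T T' (hsum (l₀ * l ^ j) (gv v P u V))| ≤
      C * (j + 1) ^ 2 * -Real.log (v l) := by
  obtain ⟨J, c, h1, h3, h4⟩ := h.ns_JM ha
  have h5 : ∀ k ∈ J, (∃ τ D, IsCM D τ ∧ k = jf τ) ∧ (∀ (j : ℕ) (Q : Fm) (t), 0 < Q.1 →
      fdisc Q = -(A * B : ℕ) → t ∈ HI (l₀ * l ^ j) → k ≠ jf (hpt t (froot Q))) ∧ ∃ b : ℕ,
      ∀ v : AbsoluteValue ℂ ℝ, IsNonarchimedean v → v l < 1 → ∀ (j : ℕ) (Q : Fm) (t), 0 < Q.1 →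
      fdisc Q = -(A * B : ℕ) → t ∈ HI (l₀ * l ^ j) → -Real.log (v (jf (hpt t (froot Q)) - k)) ≤
        b * ((hgc t : ℝ) ^ 2 / l ^ j * -Real.log (v l)) := by
    intro k hk
    obtain ⟨m, R, r0, r1, r2, r3, rfl⟩ := h4 k hk
    have d : fdisc R < 0 := r3 ▸ (h.ns_wt r0).1
    have m0 := hl₀.coprime_iff_not_dvd.1 (Nat.Coprime.coprime_mul_left_right r1).symm
    exact ⟨⟨_, _, (rt_froot d r2).isCM (im_froot_pos d r2) d, rfl⟩, fun j Q t hQ hD ht =>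
      ns_jf_ne h.mod4 hQ hD hl₀ hJ₀ (fun k => hne ((Nat.prime_dvd_prime_iff_eq hl₀ hl).1
        (hl₀.dvd_of_dvd_pow k)).symm) ht r2 m0 r3,
      ns_near h.sqf h.mod4 hl hl₀ hne h2 hJ₀ hJ r2 (hl.coprime_iff_not_dvd.1
        (Nat.Coprime.coprime_mul_left_right (Nat.Coprime.coprime_mul_right_right r1)).symm) m0 r3⟩
  choose! h6 h7 b hb using h5
  have hS : ∀ Q ∈ T ∪ T', 0 < Q.1 ∧ fdisc Q = -(A * B : ℕ) := fun Q hQ =>
    (mem_union.1 hQ).elim (fun k => ⟨hT.pos _ k, (hT.fam _ k).2.1⟩)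
      fun k => ⟨hT'.pos _ k, (hT'.fam _ k).2.1⟩
  refine ⟨(∑ Q ∈ T ∪ T', |(wZ N B (-(A * B : ℕ)) ρ Q : ℝ)|) *
    (8 * l₀ * (c * ∑ k ∈ J, (b k : ℝ))), fun v I hv j => ?_⟩
  have L : 0 ≤ -Real.log (v l) := neg_nonneg.2 (Real.log_nonpos (v.nonneg _) hv.le)
  have p0 : (0 : ℝ) < l := by exact_mod_cast hl.pos
  rcases (T ∪ T').eq_empty_or_nonempty with e | ⟨Q₀, hQ₀⟩
  · simp [zs, e]
  have M0 : l₀ * l ^ j ≠ 0 := mul_ne_zero hl₀.ne_zero (pow_ne_zero _ hl.ne_zero)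
  have t0 : (⟨(l₀ * l ^ j, 1), 0⟩ : (_ : ℕ × ℕ) × ℕ) ∈ HI (l₀ * l ^ j) :=
    mem_HI.2 ⟨mul_one _, M0, one_pos⟩
  have af : ∀ Q ∈ T ∪ T', ∀ t ∈ HI (l₀ * l ^ j), Aff N (valOf I.na) (hpt t (froot Q)) := by
    intro Q hQ t ht
    have d : fdisc Q < 0 := by simpa [(hS Q hQ).2] using (h.ns_wt one_ne_zero).1
    obtain ⟨-, -, f3, f4⟩ := fpi_form d (hS Q hQ).1 ht
    have i := hpt_im ht (im_froot_pos d (hS Q hQ).1)
    exact .of_unit P.N0 (ns_unit I.na hl hv (h.ns_not_dvd hl hJ)) i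
      ((f4.isCM i (f3 ▸ mul_neg_of_neg_of_pos d (by positivity))).val_jf _)
  have hi : ∀ k ∈ J, v k ≤ 1 := fun k hk => by
    obtain ⟨τ, D, k1, rfl⟩ := h6 k hk
    exact k1.val_jf (valOf I.na)
  have nj : ∀ Q ∈ T ∪ T', ∀ t ∈ HI (l₀ * l ^ j), jf (hpt t (froot Q)) ∉ J := fun Q hQ t ht k =>
    h7 _ k j Q t (hS Q hQ).1 (hS Q hQ).2 ht rfl
  simp only [zs, hsum_eq]
  refine (ns_abs_sum _ _ _ _ (fun t => 2 * (c * ∑ k ∈ J, (b k : ℝ)) *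
    ((hgc t : ℝ) ^ 2 / l ^ j * -Real.log (v l)))
    (gv v P u V (hpt ⟨(l₀ * l ^ j, 1), 0⟩ (froot Q₀))) deg fun Q hQ t ht => ?_).trans ?_
  · have g1 := gv_le I hV (fun z _ => h1 z) (fun z _ => h3 z) hi (af Q hQ t ht) (af Q₀ hQ₀ _ t0)
      (nj Q hQ t ht) (nj Q₀ hQ₀ _ t0)
    have g2 := gv_le I hV (fun z _ => h1 z) (fun z _ => h3 z) hi (af Q₀ hQ₀ _ t0) (af Q hQ t ht)
      (nj Q₀ hQ₀ _ t0) (nj Q hQ t ht)
    have g0 : (1 : ℝ) ≤ hgc t := by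
      exact_mod_cast Nat.gcd_pos_of_pos_left _
        (Nat.pos_of_mul_pos_right ((mem_HI.1 ht).1 ▸ M0.bot_lt))
    have g3 : -∑ k ∈ J, (Real.log (v (jf (hpt t (froot Q)) - k)) +
        Real.log (v (jf (hpt ⟨(l₀ * l ^ j, 1), 0⟩ (froot Q₀)) - k))) ≤
        2 * (∑ k ∈ J, (b k : ℝ)) * ((hgc t : ℝ) ^ 2 / l ^ j * -Real.log (v l)) := by
      rw [← sum_neg_distrib, mul_assoc, sum_mul, mul_sum]
      refine sum_le_sum fun k hk => ?_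
      have k1 := hb k hk v I.na hv j Q t (hS Q hQ).1 (hS Q hQ).2 ht
      have k2 := hb k hk v I.na hv j Q₀ _ (hS _ hQ₀).1 (hS _ hQ₀).2 t0
      have k3 : (b k : ℝ) * ((hgc ⟨(l₀ * l ^ j, 1), 0⟩ : ℝ) ^ 2 / l ^ j * -Real.log (v l)) ≤
          b k * ((hgc t : ℝ) ^ 2 / l ^ j * -Real.log (v l)) := by
        gcongr
        simpa [hgc] using g0
      linarith
    have g4 := mul_le_mul_of_nonneg_left g3 (Nat.cast_nonneg (α := ℝ) c)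
    rw [sum_add_distrib] at g1 g2 g4
    rw [abs_le]
    constructor <;> linarith
  · rw [mul_assoc, mul_assoc (∑ Q ∈ T ∪ T', _)]
    refine mul_le_mul_of_nonneg_left ?_ (by positivity)
    have s1 : ∑ t ∈ HI (l₀ * l ^ j), (hgc t : ℝ) ^ 2 ≤ (2 * (j + 1)) ^ 2 * (l₀ * l ^ j) := by
      exact_mod_cast (sum_hgc_le _).trans
        (Nat.mul_le_mul_right _ (Nat.pow_le_pow_left (ns_card hl hl₀ j) 2))
    rw [← mul_sum, ← sum_mul, ← sum_div]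
    calc _ ≤ 2 * (c * ∑ k ∈ J, (b k : ℝ)) *
          ((2 * (j + 1)) ^ 2 * (l₀ * l ^ j) / l ^ j * -Real.log (v l)) := by gcongr
      _ = _ := by field_simp; ring

theorem lc_nonsplit (nu : NUStmt) (h : Cx N p A B ρ ρ' β) (hT : FReps N (-(A * B : ℕ)) ρ T)
    (hT' : FReps N (-(A * B : ℕ)) (-ρ) T') (hl : l.Prime) (hl₀ : l₀.Prime)
    (hne : l ≠ l₀) (h2 : l₀ ≠ 2) (hJ₀ : et (A * B) l₀ = -1) (ha : Sup (N * l * l₀) a)
    (hV : Th N (cmb (fun m => nuW (Yw N A B ρ' m)) a) (U1 P.L P.F u) V)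
    (hJ : et (A * B) l ≠ 1) : ∃ C : ℝ, ∀ v : AbsoluteValue ℂ ℝ, IntW v (W.baseChange ℂ) →
    v l < 1 → ∀ j : ℕ, |zs N A B ρ T T' (hsum (l₀ * l ^ j) (gv v P u V))| ≤
      C * (j + 1) ^ 2 * -Real.log (v l) :=
  lc_nonsplit' h hT hT' (nu.2.2 N A B ρ T T' h.toGood h.A1 h.B1 h.jac h.root hT hT').1.deg
    hl hl₀ hne h2 hJ₀ ha hV hJ

end Pool.Agent.G5
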