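import Pool.Agent.Lib.MP_696deb_nt.B5.PL3

/-! The certificate in level 11. -/

set_option autoImplicit false

namespace Pool.Agent.B5

open Pool.Agent.Lib.MP_696deb_nt

/-- The certificate. -/
def p11 : PC where
  p := 11
  a := -4
  b := -40
  c := -79
  K := 1
  D := 40320
  x0 := 16
  ef := pl (1, 33, 0, 0, 0) []
  jf := 0
  eA := pl (72358, 0, 0, 0, 1) [(262, 0, 0, 1, 0), (-323, 0, 2, 0, 0), (1152, 33, 1, 0, 0)]
  jA := 0
  L := 46
  m := 3
  n := 45
  B := 700
  cl := [0, 1, -2, -1, 2, 1, 2, -2, 0, -2, -2, 1, -2, 4, 4, -1, -4, -2, 4, 0, 2, 2, -2, -1, 0, -4, -8,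
    5, -4, 0, 2, 7, 8, -1, 4, -2, -4, 3, 0, -4, 0, -8, -4, -6, 2, -2]
  al := [1, -2, -2, 1, 7, -3, 21, -26, 1, -55, -67, 240, 8, -118, -46, 133, -73, 44, -199, -176, -242,
    -238, 1984, -107, -514, -391, -282, -153, -280, -550, -271, -451, -505, 6093, -680, -530,
    -825, -885, -1428, -1424, -728, -1662, -1282, -1246, 15837, -1964]

theorem p11_fin : p11.Fin := by decide +kernel

theorem p11_chk : p11.chk = true := by decide +kernel

theorem p11_x {R : RW _ _ _ _} (h : p11.Gd R) {L : PeriodPair} (hs : Sw p11.a p11.b p11.c L)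
    {z ω : ℂ}
    (hz : 0 < z.im) (e : 11 * z ^ 2 + 5 * z + 1 = 0) (k : ω * z = -1) : R.F z ∉ L.lattice ∧
      L.weierstrassP (R.F z) - p11.a / 12 = -17 + 4 * ω := by
  have hω : ω ^ 2 - 5 * ω + 11 = 0 := by
    linear_combination ω ^ 2 * e - (11 * (ω * z - 1) + 5 * ω) * k
  have e1 : ((11 : ℕ) : ℂ) * z ^ 2 + (5 : ℤ) * z + 1 = 0 := by exact_mod_cast e
  obtain ⟨o, g⟩ := h.seed (by norm_num [p11]) hs (i := 198) (j := 384) (m := 66) (n := 384)
    (t := 5) (t' := 4) (r₀ := [1048576, -327680, 40960, -2560, 80, -1])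
    (r₁ := [-1823, 485, 34]) (r₂ := [1]) (s := [-105, -1])
    (q₀ := [-44109824, 7279360, -331056, -847, 242]) (q₁ := [32321, -1121, 1])
    (q₂ := [126976, -32000, 3024, -127, 2]) (q₃ := [-79, 79, 1])
    (U := 869 + -560 * ω) (V := -154 + 15 * ω) rfl rfl rfl
    (by decide +kernel) (by decide +kernel) (by decide +kernel) hz
    ((Et_tau hz e1 k (r := 6) (by decide) (by decide) 6 0).trans (congrArg (· * _)
      (by linear_combination (-79 * ω ^ 0) * hω + (15 * ω ^ 1) * hω + (14 * ω ^ 2) * hω + (5 * ω ^ 3) * hω + (1 * ω ^ 4) * hω)))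
    ((E4_tau hz e1 k).trans (congrArg (· * _)
      (by linear_combination (14 * ω ^ 0) * hω + (5 * ω ^ 1) * hω + (1 * ω ^ 2) * hω)))
    (by decide) rfl rfl
  obtain ⟨g1, g2⟩ := g _ rfl
  refine ⟨o, ?_⟩
  generalize L.weierstrassP (R.F z) - p11.a / 12 = x at g1 g2
  simp only [pv, Finset.sum_range_succ, Finset.sum_range_zero, List.getD_cons_zero,
    List.getD_cons_succ, List.getD_nil] at g1 g2
  push_cast at g1 g2
  refine mul_left_cancel₀ (a := (16558991493397223805000000 : ℂ))
    (by norm_num) ?_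
  linear_combination
    ((3134426999786898860 + x * (-267342118312338245 + x * (10331899615779610))) +
    (-5468802574381194070 + x * (-26805953652428060 + x * (2023975412655680))) * ω) * g1 +
    ((-2818423907992834780 + x * (19191003694933834 + x * (-927066416480546 + x *
    (15071109004504)))) + (1146178498487576860 + x * (7535190630684892 + x * (-444740714102423 + x
    * (6190271706977)))) * ω) * g2 +
    ((23724605675268721827308500 + x * (4557954778328333211206400 + x * (29550824168023102399155 +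
    x * (-2326391707053105702080 + x * (31610402394615589060 + x * (1585494552449320490 + x *
    (-25134689024863875 + x * (185708151209310)))))))) + (2475620538922298464648000 + x *
    (-747197352028432070348800 + x * (-15558100517105329106000 + x * (235942200885364747200 + x *
    (-372042306289584000 + x * (-51998282338606800)))))) * ω) * hω

end Pool.Agent.B5
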