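import Pool.Agent.Lib.MP_696deb_nt.B5.ZFa

/-! Split forms against the triangulation of the upper half plane: cosets, roots and signs. -/

set_option autoImplicit false

open Finset Matrix
open scoped Classical MatrixGroups

namespace Pool.Agent.G5.PD

open Pool.Agent.Lib.MP_696deb_nt Pool.Agent.B4.GE

variable {N : ℕ} {n e k : ℤ} {g h : MZ} {Q R : Fm} {v v' : Fin 2 → ℤ}

/-- Representatives of the cosets. -/
structure Cs (N : ℕ) {ι : Type} (r : ι → MZ) : Prop where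
  det : ∀ i, (r i).det = 1
  ex : ∀ g : MZ, g.det = 1 → ∃ i h, G0 N h ∧ g = h * r i
  uniq : ∀ i j h, G0 N h → r i = h * r j → i = j

theorem exists_cs (hN : N ≠ 0) : ∃ (ι : Type) (_ : Fintype ι) (r : ι → MZ), Cs N r := by
  have : NeZero N := ⟨hN⟩
  have mem : ∀ γ : SL(2, ℤ), γ ∈ CongruenceSubgroup.Gamma0 N ↔ G0 N γ.1 := fun γ => by
    rw [CongruenceSubgroup.Gamma0_mem, ZMod.intCast_zmod_eq_zero_iff_dvd]
    exact ⟨fun h => ⟨γ.2, h⟩, fun h => h.2⟩
  refine ⟨SL(2, ℤ) ⧸ CongruenceSubgroup.Gamma0 N, Fintype.ofFinite _, fun q => (q.out⁻¹).1,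
    fun q => (q.out⁻¹).2, fun g hg => ?_, fun i j h hh e => ?_⟩
  · obtain ⟨γ, rfl⟩ : ∃ γ : SL(2, ℤ), γ.1 = g := ⟨⟨g, hg⟩, rfl⟩
    obtain ⟨h, e⟩ := QuotientGroup.mk_out_eq_mul (CongruenceSubgroup.Gamma0 N) γ⁻¹
    refine ⟨QuotientGroup.mk γ⁻¹, (h : SL(2, ℤ)).1, (mem _).1 h.2, ?_⟩
    refine congrArg Subtype.val (show γ = h * (Quotient.out _)⁻¹ from ?_)
    rw [e]
    group
  · obtain ⟨γ, rfl⟩ : ∃ γ : SL(2, ℤ), γ.1 = h := ⟨⟨h, hh.1⟩, rfl⟩
    have e' : i.out⁻¹ = γ * j.out⁻¹ := Subtype.ext e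
    rw [← i.out_eq', ← j.out_eq', QuotientGroup.eq, e', inv_mul_cancel_right]
    exact (mem _).2 hh

theorem mul_adj (hg : g.det = 1) : g * g.adjugate = 1 := by rw [mul_adjugate, hg, one_smul]

theorem adj_mul (hg : g.det = 1) : g.adjugate * g = 1 := by rw [adjugate_mul, hg, one_smul]

theorem det_adj (hg : g.det = 1) : g.adjugate.det = 1 := by rw [det_adjugate, hg, one_pow]

theorem det_mul1 (hg : g.det = 1) (hh : h.det = 1) : (g * h).det = 1 := by
  rw [det_mul, hg, hh, one_mul]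

/-- Left invariant functions. -/
def Li (N : ℕ) {V : Type} (f : MZ → V) : Prop := ∀ h g, G0 N h → g.det = 1 → f (h * g) = f g

theorem Cs.sum_mul {ι : Type} [Fintype ι] {r : ι → MZ} (hr : Cs N r) {f : MZ → ℂ} (hf : Li N f)
    (hg : g.det = 1) : ∑ i, f (r i * g) = ∑ i, f (r i) := by
  choose σ k k1 k2 using fun i => hr.ex _ (det_mul1 (hr.det i) hg)
  have inj : Function.Injective σ := fun i j e => hr.uniq i j (k i * (k j).adjugate)
    (g0_mul (k1 i) (g0_adj (k1 j))) (by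
      rw [← mul_one (r i), ← mul_one (r j), ← mul_adj hg, ← mul_assoc (r i), ← mul_assoc (r j),
        k2 i, k2 j, e, ← mul_assoc, ← mul_assoc, mul_assoc (k i) _ (k j), adj_mul (k1 j).1,
        mul_one])
  rw [← (Equiv.ofBijective σ (Finite.injective_iff_bijective.1 inj)).sum_comp fun i => f (r i)]
  exact sum_congr rfl fun i _ => by rw [k2 i, hf _ _ (k1 i) (hr.det _), Equiv.ofBijective_apply]

/-- The three matrices. -/
def mS : MZ := !![0, -1; 1, 0]

/-- The inverse translation. -/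
def mT : MZ := !![1, -1; 0, 1]

/-- The rotation of order three. -/
def mU : MZ := !![0, -1; 1, -1]

theorem det_S : mS.det = 1 := by decide
theorem det_T : mT.det = 1 := by decide
theorem det_U : mU.det = 1 := by decide

theorem fm_mul (Q : Fm) (g h : MZ) : fm Q (g * h) = fm (fm Q g) h := by
  simp only [fm, fmap_fmap, mul_apply, Fin.sum_univ_two]

theorem fm_one (Q : Fm) : fm Q 1 = Q := by simpa [fm] using fmap_one Q

theorem fm_disc (hg : g.det = 1) (Q : Fm) : fdisc (fm Q g) = fdisc Q := fdisc_fmap (det_eq hg) Q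

theorem fm_smul (k : ℤ) (Q : Fm) (g : MZ) : fm (k • Q) g = k • fm Q g := by
  simp only [fm, fmap, fval, Prod.smul_mk, Prod.smul_fst, Prod.smul_snd, smul_eq_mul, Prod.mk.injEq]
  refine ⟨?_, ?_, ?_⟩ <;> ring

theorem fm_scal (k : ℤ) (Q : Fm) : fm Q (k • 1) = k ^ 2 • Q := by
  obtain ⟨a, b, c⟩ := Q
  simp only [fm, fmap, fval, Prod.smul_mk, smul_eq_mul, Prod.mk.injEq, Matrix.smul_apply,
    one_apply_eq, one_apply_ne zero_ne_one, one_apply_ne one_ne_zero]
  refine ⟨?_, ?_, ?_⟩ <;> ring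

/-- The action on forms as a bijection. -/
def fe (hg : g.det = 1) : Fm ≃ Fm := fequiv (det_eq hg)

theorem fe_apply (hg : g.det = 1) (Q : Fm) : fe hg Q = fm Q g := rfl

/-- The side of the geodesic on which the centre of the basic triangle lies. -/
def sg (Q : Fm) : ℤ := (2 * Q.1 + Q.2.1 + 2 * Q.2.2).sign

/-- The crossing with the basic edge. -/
def dl (Q : Fm) : ℤ := sg Q - sg (fm Q mS)

/-- The crossing with the vertical ray. -/
def zt (Q : Fm) : ℤ := if Q.1 = 0 then 0 else sg Q - Q.1.sign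

/-- The contribution of the vertical lines. -/
def d0 (Q : Fm) : ℤ := if Q.1 = 0 then dl Q else 0

theorem fm_S (Q : Fm) : fm Q mS = (Q.2.2, -Q.2.1, Q.1) := by simp [fm, fmap, fval, mS]

theorem fm_T (Q : Fm) : fm Q mT = (Q.1, Q.2.1 - 2 * Q.1, Q.1 - Q.2.1 + Q.2.2) := by
  simp only [fm, fmap, fval, mT, of_apply, cons_val', cons_val_zero, cons_val_one, cons_val_fin_one,
    Prod.mk.injEq]
  refine ⟨?_, ?_, ?_⟩ <;> ring

theorem dl_S (Q : Fm) : dl (fm Q mS) = -dl Q := by simp [dl, fm_S]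

theorem dl_eq (Q : Fm) : dl Q = zt Q - zt (fm Q mT) + d0 Q := by
  have : sg (fm Q mT) = sg (fm Q mS) := by
    rw [sg, sg, fm_T, fm_S]
    congr 1
    ring
  rw [zt, zt, d0, this, fm_T]
  split_ifs
  · ring
  · rw [dl]; ring

theorem dl_smul (hk : 0 < k) (Q : Fm) : dl (k • Q) = dl Q := by
  have : ∀ Q : Fm, sg (k • Q) = sg Q := fun Q => by
    rw [sg, sg, ← one_mul (2 * Q.1 + _ + _).sign, ← Int.sign_eq_one_of_pos hk, ← Int.sign_mul]
    congr 1
    simp only [Prod.smul_fst, Prod.smul_snd, smul_eq_mul]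
    ring
  rw [dl, dl, fm_smul, this, this]

/-- The centre of the basic triangle. -/
noncomputable def ro : ℂ := froot (1, -1, 1)

theorem ro_pos : 0 < ro.im := im_froot_pos (by decide) one_pos

theorem act_U_ro : act mU ro = ro := by
  have := act_froot (Q := (1, -1, 1)) det_U (by decide) one_pos
  rwa [show fm (1, -1, 1) mU = (1, -1, 1) by decide] at this

theorem sign_ro (Q : Fm) : Real.sign (fside Q ro) = sg Q := by
  have : fside Q ro = ((2 * Q.1 + Q.2.1 + 2 * Q.2.2 : ℤ) : ℝ) / 2 := by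
    rw [fside, ro, normSq_froot (by decide) one_pos, re_froot]
    push_cast
    ring
  rw [this, sg, ← Real.sign_intCast]
  generalize ((2 * Q.1 + Q.2.1 + 2 * Q.2.2 : ℤ) : ℝ) = x
  rcases lt_trichotomy x 0 with h | rfl | h
  · rw [Real.sign_of_neg h, Real.sign_of_neg (by linarith)]
  · rw [zero_div]
  · rw [Real.sign_of_pos h, Real.sign_of_pos (by linarith)]

/-- Finite support on each discriminant. -/
def Fi (e : ℤ) (f : Fm → ℤ) : Prop := {Q | fdisc Q = e ∧ f Q ≠ 0}.Finite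

theorem fi_zt (e : ℤ) : Fi e zt := by
  refine (finite_above e |ro.re| ro_pos).subset fun Q ⟨h1, h2⟩ => ?_
  have h3 : Q.1 ≠ 0 := fun k => h2 (if_pos k)
  rw [zt, if_neg h3] at h2
  refine ⟨h1, h3, ro, le_rfl, le_rfl, fun k => h2 ?_⟩
  rw [sign_ro, Real.sign_intCast, Int.cast_inj] at k
  rw [k, sub_self]

theorem Fi.fm {f : Fm → ℤ} (hf : Fi e f) (hg : g.det = 1) : Fi e fun Q => f (fm Q g) :=
  (hf.preimage (fe hg).injective.injOn).subset fun Q hQ => ⟨(fm_disc hg Q).trans hQ.1, hQ.2⟩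

/-- A system of residues near zero. -/
noncomputable def Cn (n : ℤ) : Finset ℤ :=
  (Icc (-|n|) |n|).filter fun c => -|n| < 2 * c ∧ 2 * c ≤ |n|

theorem mem_Cn {c : ℤ} : c ∈ Cn n ↔ -|n| < 2 * c ∧ 2 * c ≤ |n| := by
  rw [Cn, mem_filter, mem_Icc]
  omega

theorem d0_line (hn : n ≠ 0) (c : ℤ) : d0 (0, n, c) =
    n.sign * ((if c ∈ Cn n then 1 else 0) + if -c ∈ Cn n then 1 else 0) := by
  simp only [d0, dl, sg, fm_S, if_true, mem_Cn, mul_zero, zero_add, add_zero]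
  have p : ∀ a : ℤ, (a < 0 ∧ a.sign = -1) ∨ (a = 0 ∧ a.sign = 0) ∨ (0 < a ∧ a.sign = 1) := fun a =>
    (lt_trichotomy a 0).imp (fun h => ⟨h, Int.sign_eq_neg_one_of_neg h⟩) (Or.imp
      (fun h => ⟨h, by rw [h]; rfl⟩) fun h => ⟨h, Int.sign_eq_one_of_pos h⟩)
  have p1 := p (n + 2 * c)
  have p2 := p (2 * c + -n)
  have p3 := abs_cases n
  rcases p n with h | h | h <;> rw [h.2] <;> omega

theorem d0_supp (hn : n ≠ 0) (h1 : fdisc Q = n ^ 2) (h2 : d0 Q ≠ 0) :
    ∃ c ∈ Icc (-|n|) |n|, Q = (0, n, c) ∨ Q = (0, -n, c) := by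
  obtain ⟨a, b, c⟩ := Q
  obtain rfl : a = 0 := by_contra fun k => h2 (if_neg k)
  have h3 : b = n ∨ b = -n := sq_eq_sq_iff_eq_or_eq_neg.1 (by simpa [fdisc] using h1)
  refine ⟨c, by_contra fun k => h2 ?_, by simpa using h3⟩
  have h4 : |b| = |n| := by rcases h3 with rfl | rfl <;> simp
  rw [mem_Icc] at k
  rw [d0_line (by omega), if_neg (by rw [mem_Cn]; omega), if_neg (by rw [mem_Cn]; omega), add_zero,
    mul_zero]

theorem fi_d0 (hn : n ≠ 0) : Fi (n ^ 2) d0 :=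
  (((Icc (-|n|) |n|).finite_toSet.image fun c => (0, n, c)).union
    ((Icc (-|n|) |n|).finite_toSet.image fun c => (0, -n, c))).subset fun Q ⟨h1, h2⟩ => by
      obtain ⟨c, hc, h | h⟩ := d0_supp hn h1 h2
      exacts [Or.inl ⟨c, hc, h.symm⟩, Or.inr ⟨c, hc, h.symm⟩]

theorem fi_dl (hn : n ≠ 0) : Fi (n ^ 2) dl :=
  (((fi_zt _).union ((fi_zt _).fm det_T)).union (fi_d0 hn)).subset fun Q ⟨h1, h2⟩ => by
    by_contra k
    refine h2 ?_
    rw [dl_eq, of_not_not fun l => k (Or.inl (Or.inl ⟨h1, l⟩)),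
      show zt (fm Q mT) = 0 from of_not_not fun l => k (Or.inl (Or.inr ⟨h1, l⟩)),
      of_not_not fun l => k (Or.inr ⟨h1, l⟩)]
    rfl

/-- Complete systems of residues. -/
structure Rs (n : ℤ) {κ : Type} (s : Finset κ) (φ : κ → ℤ) : Prop where
  ex : ∀ x, ∃ y ∈ s, n ∣ φ y - x
  uniq : ∀ y ∈ s, ∀ y' ∈ s, n ∣ φ y' - φ y → y = y'

theorem Rs.mul {κ : Type} {s : Finset κ} {φ : κ → ℤ} (h : Rs n s φ) {η η' : ℤ} (e : η * η = 1)
    (e' : η' * η' = 1) : Rs (η' * n) s fun y => η * φ y where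
  ex x := by
    obtain ⟨y, hy, k, hk⟩ := h.ex (η * x)
    exact ⟨y, hy, η' * η * k, by linear_combination η * hk + x * e - η * n * k * e'⟩
  uniq y hy y' hy' := fun ⟨k, hk⟩ =>
    h.uniq y hy y' hy' ⟨η' * η * k, by linear_combination η * hk - (φ y' - φ y) * e⟩

theorem rs_Cn (hn : n ≠ 0) : Rs n (Cn n) id where
  ex x := by
    have k1 := Int.emod_nonneg ((|n| / 2) - x) hn
    have k2 := Int.emod_lt_abs ((|n| / 2) - x) hn
    refine ⟨|n| / 2 - (|n| / 2 - x) % n, mem_Cn.2 (by omega), (|n| / 2 - x) / n, ?_⟩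
    rw [id]
    linear_combination -Int.emod_add_mul_ediv (|n| / 2 - x) n
  uniq y hy y' hy' e := by
    rw [mem_Cn] at hy hy'
    have := Int.eq_zero_of_abs_lt_dvd ((abs_dvd _ _).2 e) (abs_lt.2 (by simp only [id]; omega))
    simp only [id] at this
    omega

theorem rs_range {M : ℕ} (hM : M ≠ 0) : Rs M (range M) fun k => (k : ℤ) where
  ex x := by
    have h : (M : ℤ) ≠ 0 := Nat.cast_ne_zero.2 hM
    have k1 := Int.emod_nonneg x h
    have k2 := Int.emod_lt_of_pos x (show (0 : ℤ) < M by omega)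
    refine ⟨(x % M).toNat, mem_range.2 (by omega), -(x / M), ?_⟩
    rw [Int.toNat_of_nonneg k1]
    linear_combination Int.emod_add_mul_ediv x M
  uniq y hy y' hy' e := by
    rw [mem_range] at hy hy'
    have := Int.eq_zero_of_abs_lt_dvd e (abs_lt.2 (by omega))
    omega

/-- One of the two roots of a split form. -/
def Rt (n : ℤ) (Q : Fm) (v : Fin 2 → ℤ) : Prop :=
  v ≠ 0 ∧ 2 * Q.1 * v 0 + (Q.2.1 - n) * v 1 = 0 ∧ (Q.2.1 + n) * v 0 + 2 * Q.2.2 * v 1 = 0

theorem Rt.prop (hn : n ≠ 0) (h : Rt n Q v) (h' : Rt n Q v') : v 0 * v' 1 = v 1 * v' 0 :=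
  mul_left_cancel₀ (mul_ne_zero two_ne_zero hn) (by
    linear_combination v' 1 * h.2.2 - v 1 * h'.2.2 - v 0 * h'.2.1 + v' 0 * h.2.1)

theorem exists_rt (hn : n ≠ 0) (h : fdisc Q = n ^ 2) : ∃ v, Rt n Q v := by
  rw [fdisc] at h
  by_cases k : Q.2.1 = n
  · refine ⟨![2 * Q.2.2, -(Q.2.1 + n)], fun e => hn ?_, ?_, ?_⟩
    · have := congrFun e 1
      simp only [cons_val_one, cons_val_zero, Pi.zero_apply] at this
      omega
    · simp only [cons_val_one, cons_val_zero]; linear_combination -h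
    · simp only [cons_val_one, cons_val_zero]; ring
  · refine ⟨![n - Q.2.1, 2 * Q.1], fun e => k ?_, ?_, ?_⟩
    · have := congrFun e 0
      simp only [cons_val_zero, Pi.zero_apply] at this
      omega
    · simp only [cons_val_one, cons_val_zero]; ring
    · simp only [cons_val_one, cons_val_zero]; linear_combination -h

theorem mv0 (g : MZ) (v : Fin 2 → ℤ) : (g *ᵥ v) 0 = g 0 0 * v 0 + g 0 1 * v 1 := by
  simp [mulVec, dotProduct]

theorem mv1 (g : MZ) (v : Fin 2 → ℤ) : (g *ᵥ v) 1 = g 1 0 * v 0 + g 1 1 * v 1 := by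
  simp [mulVec, dotProduct]

theorem mv_ne (hg : g.det ≠ 0) (hv : v ≠ 0) : g *ᵥ v ≠ 0 := fun e =>
  hv (eq_zero_of_mulVec_eq_zero hg e)

theorem Rt.map (hg : g.det ≠ 0) (h : Rt (n * g.det) (fm Q g) v) : Rt n Q (g *ᵥ v) := by
  obtain ⟨h0, h1, h2⟩ := h
  refine ⟨mv_ne hg h0, mul_left_cancel₀ hg ?_, mul_left_cancel₀ hg ?_⟩ <;>
  simp only [fm, fmap, fval, det_fin_two, mv0, mv1] at h1 h2 ⊢
  · linear_combination g 1 1 * h1 - g 1 0 * h2
  · linear_combination g 0 0 * h2 - g 0 1 * h1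

theorem Rt.map1 (hg : g.det = 1) (h : Rt n (fm Q g) v) : Rt n Q (g *ᵥ v) :=
  Rt.map (by omega) (by rwa [hg, mul_one])

theorem Rt.smul (k : ℤ) (h : Rt n Q v) : Rt (n * k) (k • Q) v := by
  refine ⟨h.1, ?_, ?_⟩ <;> simp only [Prod.smul_fst, Prod.smul_snd, smul_eq_mul]
  · linear_combination k * h.2.1
  · linear_combination k * h.2.2

/-- The cusp at infinity. -/
def e1 : Fin 2 → ℤ := ![1, 0]

theorem e1_ne : e1 ≠ 0 := by decide

theorem rt_e1 (n c : ℤ) : Rt (-n) (0, n, c) e1 := ⟨e1_ne, by simp [e1], by simp [e1]⟩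

theorem rt_line (hn : n ≠ 0) (c : ℤ) : Rt n (0, n, c) ![-c, n] :=
  ⟨fun e => hn (congrFun e 1), by simp, by simp; ring⟩

/-- Reduction of split forms. -/
theorem Rs.line {κ : Type} {s : Finset κ} {φ : κ → ℤ} (hs : Rs n s φ) (n0 : n ≠ 0)
    (h : fdisc R = n ^ 2) : ∃ g : MZ, g.det = 1 ∧ ∃ y ∈ s, fm R g = (0, n, φ y) := by
  obtain ⟨v, h0, h1, h2⟩ := exists_rt (neg_ne_zero.2 n0) (h.trans (neg_sq n).symm)
  obtain ⟨k, a, b, c, d, hk, e0, e1, hd⟩ := exists_SL (a := v 0) (c := v 1) (by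
    by_contra! k
    exact h0 (funext fun i => by fin_cases i; exacts [k.1, k.2]))
  rw [e0, e1] at h1 h2
  replace h1 : 2 * R.1 * a + (R.2.1 + n) * c = 0 :=
    mul_left_cancel₀ hk.ne' (by linear_combination h1)
  replace h2 : (R.2.1 - n) * a + 2 * R.2.2 * c = 0 :=
    mul_left_cancel₀ hk.ne' (by linear_combination h2)
  obtain ⟨y, hy, j, e⟩ := hs.ex (fval R b d)
  have f1 : R.1 * a ^ 2 + R.2.1 * a * c + R.2.2 * c ^ 2 = 0 :=
    mul_left_cancel₀ two_ne_zero (by linear_combination a * h1 + c * h2)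
  have f2 : 2 * R.1 * a * b + R.2.1 * (a * d + b * c) + 2 * R.2.2 * c * d = n := by
    linear_combination b * h1 + d * h2 + n * hd
  refine ⟨!![a, a * j + b; c, c * j + d], by rw [det_fin_two_of]; linear_combination hd, y, hy, ?_⟩
  simp only [fm, fmap, fval, of_apply, cons_val', cons_val_zero, cons_val_one, cons_val_fin_one,
    Prod.mk.injEq] at e ⊢
  exact ⟨f1, by linear_combination f2 + 2 * j * f1, by linear_combination j * f2 + j ^ 2 * f1 - e⟩

theorem line_uniq {c c' : ℤ} (n0 : n ≠ 0) (hg : g.det = 1) (h : fm (0, n, c) g = (0, n, c')) :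
    n ∣ c' - c ∧ (c = c' → ∃ u : ℤ, g = u • 1) := by
  replace hg := det_eq hg
  rw [eta_fin_two g]
  simp only [fm, fmap, fval, Prod.mk.injEq] at h
  generalize g 0 0 = x, g 0 1 = y, g 1 0 = z, g 1 1 = u at *
  obtain ⟨h1, h2, h3⟩ := h
  obtain rfl : z = 0 := mul_left_cancel₀ (mul_ne_zero two_ne_zero n0) (by
    linear_combination 2 * u * h1 - z * h2 - n * z * hg)
  have h4 : x = u ∧ u ^ 2 = 1 := by
    rcases Int.eq_one_or_neg_one_of_mul_eq_one' (show x * u = 1 by linear_combination hg) with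
      ⟨rfl, rfl⟩ | ⟨rfl, rfl⟩ <;> exact ⟨rfl, rfl⟩
  have h5 : c' - c = n * (y * u) := by linear_combination -h3 + c * h4.2
  refine ⟨⟨_, h5⟩, fun h6 => ⟨u, ?_⟩⟩
  have h7 : y = 0 := mul_left_cancel₀ n0 (by
    linear_combination -u * h6 - u * h5 - n * y * h4.2)
  rw [h4.1, h7]
  ext i j
  fin_cases i <;> fin_cases j <;> simp

end Pool.Agent.G5.PD
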