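import Pool.Agent.Lib.MP_696deb_nt.B5.PDa

/-! Crossing numbers against modular symbols. -/

set_option autoImplicit false

open Finset Matrix
open scoped Classical

namespace Pool.Agent.G5.PD

open Pool.Agent.Lib.MP_696deb_nt Pool.Agent.B4.GE

variable {N : ℕ} {n e k : ℤ} {g h : MZ} {Q R : Fm} {v : Fin 2 → ℤ} {C : (Fin 2 → ℤ) → ℂ}
  {w : Fm → ℤ} {ι : Type} {r : ι → MZ}

/-- Values at the cusps. -/
structure Cu (N : ℕ) (C : (Fin 2 → ℤ) → ℂ) : Prop where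
  hom : ∀ v v', v ≠ 0 → v' ≠ 0 → v 0 * v' 1 = v 1 * v' 0 → C v = C v'
  inv : ∀ h, G0 N h → ∃ k, ∀ v, v ≠ 0 → C (h *ᵥ v) = C v + k

/-- A chosen root. -/
noncomputable def rv (n : ℤ) (Q : Fm) : Fin 2 → ℤ := Classical.epsilon (Rt n Q)

theorem rt_rv (hn : n ≠ 0) (h : fdisc Q = n ^ 2) : Rt n Q (rv n Q) :=
  Classical.epsilon_spec (exists_rt hn h)

theorem Cu.rv (hC : Cu N C) (hn : n ≠ 0) (h : Rt n Q v) : C (rv n Q) = C v :=
  have k : Rt n Q (PD.rv n Q) := Classical.epsilon_spec ⟨v, h⟩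
  hC.hom _ _ k.1 h.1 (k.prop hn h)

theorem Cu.rv_map (hC : Cu N C) (hn : n ≠ 0) (hd : h.det ≠ 0) (e : fm R h = h.det • Q)
    (hQ : fdisc Q = n ^ 2) : C (PD.rv n R) = C (h *ᵥ PD.rv n Q) :=
  hC.rv hn (Rt.map hd (e ▸ (rt_rv hn hQ).smul _))

/-- The modular symbol of an edge. -/
noncomputable def sy (C : (Fin 2 → ℤ) → ℂ) (g : MZ) : ℂ := C ((g * mS) *ᵥ e1) - C (g *ᵥ e1)

/-- The modular symbol of a split form. -/
noncomputable def De (C : (Fin 2 → ℤ) → ℂ) (n : ℤ) (R : Fm) : ℂ := C (rv (-n) R) - C (rv n R)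

theorem col_ne (hg : g.det = 1) : g *ᵥ e1 ≠ 0 := mv_ne (by omega) e1_ne

theorem Cu.li_sy (hC : Cu N C) : Li N (sy C) := fun h g hh hg => by
  obtain ⟨k, hk⟩ := hC.inv h hh
  rw [sy, sy, mul_assoc, ← mulVec_mulVec _ h, ← mulVec_mulVec _ h, hk _ (col_ne hg),
    hk _ (col_ne (det_mul1 hg det_S)), add_sub_add_right_eq_sub]

theorem Cu.sy_S (hC : Cu N C) (hg : g.det = 1) : sy C (g * mS) = -sy C g := by
  rw [sy, sy, neg_sub, hC.hom _ _ (col_ne (det_mul1 (det_mul1 hg det_S) det_S)) (col_ne hg)]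
  rw [mul_assoc, show mS * mS = -1 by decide, mul_neg_one, neg_mulVec, Pi.neg_apply, Pi.neg_apply]
  ring

theorem sy_U (C : (Fin 2 → ℤ) → ℂ) (g : MZ) :
    sy C g + sy C (g * mU) + sy C (g * mU * mU) = 0 := by
  simp only [sy, mul_assoc, ← mulVec_mulVec _ g]
  rw [show mS *ᵥ e1 = mU *ᵥ e1 by decide, show (mU * mS) *ᵥ e1 = (mU * mU) *ᵥ e1 by decide,
    show (mU * (mU * mS)) *ᵥ e1 = e1 by decide]
  ring

/-- A coboundary is orthogonal to the modular symbols. -/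
theorem three [Fintype ι] (hr : Cs N r) (hC : Cu N C) {ψ : MZ → ℂ} (h1 : Li N ψ)
    (h2 : ∀ g : MZ, g.det = 1 → ψ (g * mU) = ψ g)
    (h3 : ∀ g : MZ, g.det = 1 → ψ (g * mS * mS) = ψ g) :
    ∑ i, (ψ (r i) - ψ (r i * mS)) * sy C (r i) = 0 := by
  have l1 : Li N fun g => ψ g * sy C g := fun h g hh hg => by
    simp only [h1 h g hh hg, hC.li_sy h g hh hg]
  have l2 : Li N fun g => ψ (g * mS) * sy C g := fun h g hh hg => by
    simp only [mul_assoc h, h1 h _ hh (det_mul1 hg det_S), hC.li_sy h g hh hg]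
  have a1 := hr.sum_mul l2 det_S
  have a2 := hr.sum_mul l1 det_U
  have a3 := hr.sum_mul l1 (det_mul1 det_U det_U)
  have a4 : ∑ i, ψ (r i) * (sy C (r i) + sy C (r i * mU) + sy C (r i * mU * mU)) = 0 := by
    simp only [sy_U, mul_zero, sum_const_zero]
  simp only [h3 _ (hr.det _), hC.sy_S (hr.det _), mul_neg, sum_neg_distrib] at a1
  simp only [← mul_assoc, h2 _ (det_mul1 (hr.det _) det_U), h2 _ (hr.det _)] at a2 a3
  simp only [mul_add, sum_add_distrib, a2, a3] at a4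
  simp only [sub_mul, sum_sub_distrib, ← a1]
  linear_combination 2 / 3 * a4

/-- The weighted number of crossings with an edge. -/
noncomputable def Xw (w : Fm → ℤ) (g : MZ) : ℂ := ∑ᶠ R : Fm, (dl (fm R g) : ℂ) * w R

theorem Fi.supp {f : Fm → ℤ} (hf : Fi e f) (hg : g.det = 1) {u : Fm → ℂ}
    (hu : ∀ R, u R ≠ 0 → fdisc R = e) :
    (Function.support fun R : Fm => (f (G5.fm R g) : ℂ) * u R).Finite :=
  (hf.fm hg).subset fun R hR =>
    ⟨hu R (right_ne_zero_of_mul hR), Int.cast_ne_zero.1 (left_ne_zero_of_mul hR)⟩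

/-- The value at a vertex, normalized by a root. -/
noncomputable def Pv (C : (Fin 2 → ℤ) → ℂ) (n : ℤ) (w : Fm → ℤ) (g : MZ) (R : Fm) : ℂ :=
  w R * (C (g *ᵥ e1) - C (rv n R))

/-- The sums collected at the vertices. -/
noncomputable def fk (C : (Fin 2 → ℤ) → ℂ) (n : ℤ) (w f : Fm → ℤ) (g : MZ) : ℂ :=
  ∑ᶠ R : Fm, (f (fm R g) : ℂ) * Pv C n w g R

theorem Pv_disc (hw : Wt N w e) (R : Fm) (h : Pv C n w g R ≠ 0) : fdisc R = e :=
  hw.disc R (Int.cast_ne_zero.1 (left_ne_zero_of_mul h))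

theorem li_fk (hC : Cu N C) (hn : n ≠ 0) (hw : Wt N w (n ^ 2)) (f : Fm → ℤ) :
    Li N (fk C n w f) := fun h g hh hg => by
  obtain ⟨k, hk⟩ := hC.inv h hh
  rw [fk, fk, ← finsum_comp_equiv (fe hh.1) (f := fun R => (f (fm R g) : ℂ) * Pv C n w g R)]
  refine finsum_congr fun R => ?_
  rw [fe_apply, fm_mul, Pv, Pv, hw.inv _ _ (feq_fm hh R)]
  by_cases k0 : w R = 0
  · simp [k0]
  · have k1 := (fm_disc hh.1 R).trans (hw.disc R k0)
    rw [hC.rv_map hn (h := h) (by rw [hh.1]; omega) (by rw [hh.1, one_smul]) k1,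
      ← mulVec_mulVec, hk _ (col_ne hg), hk _ (rt_rv hn k1).1, add_sub_add_right_eq_sub]

theorem Xw_mul (hn : n ≠ 0) (hw : Wt N w (n ^ 2)) (hg : g.det = 1) :
    Xw w g * sy C g = -fk C n w dl (g * mS) - fk C n w dl g := by
  have f1 := (fi_dl hn).supp hg (Pv_disc (C := C) (n := n) (g := g) hw)
  have f2 := (fi_dl hn).supp hg (Pv_disc (C := C) (n := n) (g := g * mS) hw)
  have f3 := (fi_dl hn).supp hg (u := fun R => w R) fun R h => hw.disc R (Int.cast_ne_zero.1 h)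
  simp only [fk, fm_mul, dl_S, Int.cast_neg, neg_mul, finsum_neg_distrib, neg_neg]
  rw [← finsum_sub_distrib f2 f1, Xw, finsum_mul' _ _ f3]
  exact finsum_congr fun R => by rw [Pv, Pv, sy]; ring

theorem fk_dl (hn : n ≠ 0) (hw : Wt N w (n ^ 2)) (hg : g.det = 1) :
    fk C n w dl g = fk C n w zt g - fk C n w zt (g * mT) + fk C n w d0 g := by
  have p := Pv_disc (C := C) (n := n) (g := g) hw
  have f1 := (fi_zt _).supp hg p
  have f2 := ((fi_zt _).fm det_T).supp hg p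
  have f3 := (fi_d0 hn).supp hg p
  have e : Pv C n w (g * mT) = Pv C n w g := funext fun R => by
    rw [Pv, Pv, ← mulVec_mulVec, show mT *ᵥ e1 = e1 by decide]
  simp only [fk, fm_mul, e]
  rw [← finsum_sub_distrib f1 f2, ← finsum_add_distrib
    ((f1.union f2).subset (Function.support_sub _ _)) f3]
  exact finsum_congr fun R => by rw [dl_eq]; push_cast; ring

theorem fm_adj (hg : g.det = 1) (Q : Fm) : fm (fm Q g.adjugate) g = Q := by
  rw [← fm_mul, adj_mul hg, fm_one]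

theorem fm_adj' (hg : g.det = 1) (Q : Fm) : fm (fm Q g) g.adjugate = Q := by
  rw [← fm_mul, mul_adj hg, fm_one]

theorem fk_d0 (hC : Cu N C) (n0 : n ≠ 0) (hw : Wt N w (n ^ 2)) (hg : g.det = 1) {u : Fm → ℂ}
    (hu : ∀ R, u R = w R * De C n R) : fk C n w d0 g = n.sign *
      (∑ c ∈ Cn n, u (fm (0, n, c) g.adjugate) + ∑ c ∈ Cn n, u (fm (0, n, -1 * c) g.adjugate)) := by
  have rt : ∀ b c : ℤ, Rt (-b) (fm (0, b, c) g.adjugate) (g *ᵥ e1) := fun b c =>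
    Rt.map1 hg (by rw [fm_adj hg]; exact rt_e1 b c)
  have s1 : ∀ f : ℤ → ℂ, ∑ c ∈ Cn n, f c = ∑ c ∈ Icc (-|n|) |n|, if c ∈ Cn n then f c else 0 :=
    fun f => by rw [sum_ite_mem, show Icc (-|n|) |n| ∩ Cn n = Cn n from
      inter_eq_right.2 (filter_subset _ _)]
  have s2 : ∀ f : ℤ → ℂ, ∑ c ∈ Icc (-|n|) |n|, f c = ∑ c ∈ Icc (-|n|) |n|, f (-c) := fun f =>
    sum_nbij' (fun c => -c) (fun c => -c) (fun c => by simp only [mem_Icc]; omega)
      (fun c => by simp only [mem_Icc]; omega) (by simp) (by simp) (by simp)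
  rw [fk, ← finsum_comp_equiv (fe (det_adj hg)), finsum_eq_sum_of_support_subset
    (s := (Icc (-|n|) |n|).image fun c => (0, n, c)) _ fun Q hQ => ?_, sum_image fun c _ c' _ e => by
      simpa using e, s1, s1 fun c => u (fm (0, n, -1 * c) g.adjugate),
      s2 fun c => if c ∈ Cn n then u (fm (0, n, -1 * c) g.adjugate) else 0, ← sum_add_distrib,
      mul_sum]
  · refine sum_congr rfl fun c hc => ?_
    rw [fe_apply, fm_adj hg, d0_line n0, Pv, neg_one_mul, neg_neg, hu, De,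
      hC.rv (neg_ne_zero.2 n0) (rt n c)]
    split_ifs <;> push_cast <;> ring
  · rw [Function.mem_support, fe_apply, fm_adj hg] at hQ
    have h1 := right_ne_zero_of_mul hQ
    obtain ⟨c, hc, rfl | rfl⟩ := d0_supp n0 ((fm_disc (det_adj hg) Q).symm.trans (Pv_disc hw _ h1))
      (Int.cast_ne_zero.1 (left_ne_zero_of_mul hQ))
    · exact mem_coe.2 (mem_image_of_mem _ hc)
    · refine absurd ?_ h1
      rw [Pv, hC.rv n0 (by simpa only [neg_neg] using rt (-n) c), sub_self, mul_zero]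

/-- Systems of representatives. -/
structure Sy (N : ℕ) {κ : Type} (s : Finset κ) (φ : κ → Fm) (p : Fm → Prop) : Prop where
  ex : ∀ R, p R → ∃ y ∈ s, FEq N (φ y) R
  uniq : ∀ y ∈ s, ∀ y' ∈ s, FEq N (φ y) (φ y') → y = y'

theorem Sy.sum_eq {κ κ' : Type} {s : Finset κ} {s' : Finset κ'} {φ : κ → Fm} {φ' : κ' → Fm}
    {p p' : Fm → Prop} (h : Sy N s φ p) (h' : Sy N s' φ' p') {u : Fm → ℂ}
    (hu : ∀ Q R, FEq N Q R → u R = u Q) (hp : ∀ R, u R ≠ 0 → p R ∧ p' R) :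
    ∑ y ∈ s, u (φ y) = ∑ y ∈ s', u (φ' y) := by
  choose f f1 f2 using fun y (_ : y ∈ s) (hy : u (φ y) ≠ 0) => h'.ex _ (hp _ hy).2
  refine sum_bij_ne_zero f f1 (fun y a b y' a' b' e => h.uniq y a y' a' ?_) (fun y a b => ?_)
    fun y a b => hu _ _ (f2 y a b)
  · exact (f2 y a b).symm.trans (e ▸ f2 y' a' b')
  · obtain ⟨x, hx, e⟩ := h.ex _ (hp _ b).1
    have k : u (φ x) ≠ 0 := hu _ _ e ▸ b
    exact ⟨x, hx, k, h'.uniq _ (f1 x hx k) _ a ((f2 x hx k).trans e)⟩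

theorem sy_all [Fintype ι] (hr : Cs N r) (hn : n ≠ 0) {κ : Type} {s : Finset κ} {φ : κ → ℤ}
    (hs : Rs n s φ) : Sy N (univ ×ˢ s) (fun y : ι × κ => fm (0, n, φ y.2) (r y.1).adjugate)
      fun R => fdisc R = n ^ 2 where
  ex R hR := by
    obtain ⟨g, hg, c, hc, e⟩ := hs.line hn hR
    obtain ⟨i, h, hh, rfl⟩ := hr.ex g hg
    refine ⟨(i, c), mem_product.2 ⟨mem_univ _, hc⟩, FEq.symm ?_⟩
    rw [← e, fm_mul, fm_adj' (hr.det i)]
    exact feq_fm hh R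
  uniq y hy y' hy' e := by
    obtain ⟨h, hh, e⟩ := feq_iff.1 e
    obtain ⟨k, k'⟩ := line_uniq (c := φ y.2) (c' := φ y'.2) hn
      (det_mul1 (det_mul1 (det_adj (hr.det y.1)) hh.1) (hr.det y'.1))
      (by rw [fm_mul, fm_mul, ← e, fm_adj (hr.det _)])
    replace k := hs.uniq _ (mem_product.1 hy).2 _ (mem_product.1 hy').2 k
    obtain ⟨u, hu⟩ := k' (congrArg φ k)
    have d : u ^ 2 = 1 := by
      have := congrArg det hu
      rw [det_mul1 (det_mul1 (det_adj (hr.det y.1)) hh.1) (hr.det y'.1), det_smul, det_one,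
        mul_one, Fintype.card_fin] at this
      exact this.symm
    refine Prod.ext (hr.uniq _ _ (u • h) ⟨by rw [det_smul, Fintype.card_fin, hh.1, d, one_mul],
      hh.2.mul_left u⟩ ?_) k
    rw [smul_mul_assoc, ← one_mul (h * _), ← mul_adj (hr.det y.1), mul_assoc, ← mul_assoc _ h, hu,
      mul_smul_comm, smul_smul, ← sq, d, one_smul, mul_one]

theorem sy_line (hn : n ≠ 0) (hc : IsCoprime (N : ℤ) n) {κ : Type} {s : Finset κ} {φ : κ → ℤ}
    (hs : Rs n s φ) : Sy N s (fun c => (0, n, φ c)) (Fam N (n ^ 2) n) where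
  ex R hR := by
    obtain ⟨g, hg, c, hc', e⟩ := hs.line hn hR.2.1
    have e' : R = fm (0, n, φ c) g.adjugate := by rw [← e, fm_adj' hg]
    refine ⟨c, hc', feq_iff.2 ⟨_, ⟨det_adj hg, ?_⟩, e'⟩⟩
    have d := det_eq (det_adj hg)
    obtain ⟨⟨x, h1⟩, -, y, h2⟩ := hR
    simp only [e', fm, fmap, fval] at h1 h2
    generalize g.adjugate 0 0 = a, g.adjugate 0 1 = b, g.adjugate 1 0 = z, g.adjugate 1 1 = u at *
    refine hc.dvd_of_dvd_mul_left ⟨u * x - z * y, mul_left_cancel₀ two_ne_zero ?_⟩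
    linear_combination 2 * u * h1 - z * h2 - n * z * d
  uniq c hc c' hc' e := by
    obtain ⟨h, hh, e⟩ := feq_iff.1 e
    exact hs.uniq c hc c' hc' (line_uniq hn hh.1 e.symm).1

theorem Cu.De_map (hC : Cu N C) (hn : n ≠ 0) (hd : h.det ≠ 0) (e : fm R h = h.det • Q)
    (hQ : fdisc Q = n ^ 2) {s k : ℂ} (hk : ∀ v, v ≠ 0 → C (h *ᵥ v) = s * C v + k) :
    De C n R = s * De C n Q := by
  have hQ' : fdisc Q = (-n) ^ 2 := hQ.trans (neg_sq n).symm
  rw [De, De, hC.rv_map hn hd e hQ, hC.rv_map (neg_ne_zero.2 hn) hd e hQ', hk _ (rt_rv hn hQ).1,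
    hk _ (rt_rv (neg_ne_zero.2 hn) hQ').1]
  ring

/-- The crossing numbers of a split family against the modular symbols. -/
theorem core [Fintype ι] (hr : Cs N r) (hC : Cu N C) (n0 : n ≠ 0) (hw : Wt N w (n ^ 2))
    {κ : Type} {s : Finset κ} {φ : κ → Fm} {p : Fm → Prop} (hs : Sy N s φ p)
    (hp : ∀ R, w R ≠ 0 → p R) :
    ∑ i, Xw w (r i) * sy C (r i) = -4 * n.sign * ∑ y ∈ s, w (φ y) * De C n (φ y) := by
  obtain ⟨u, hu⟩ : ∃ u : Fm → ℂ, ∀ R, u R = w R * De C n R := ⟨_, fun _ => rfl⟩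
  have u1 : ∀ Q R, FEq N Q R → u R = u Q := fun Q R e => by
    rw [hu, hu, hw.inv Q R e]
    by_cases k0 : w Q = 0
    · simp [k0]
    · obtain ⟨h, hh, rfl⟩ := feq_iff.1 e
      obtain ⟨k, hk⟩ := hC.inv h hh
      rw [hC.De_map n0 (R := Q) (h := h) (s := 1) (k := k) (by rw [hh.1]; omega)
        (by rw [hh.1, one_smul]) ((fm_disc hh.1 Q).trans (hw.disc Q k0)) (by simpa using hk),
        one_mul]
  have u2 : ∀ R, u R ≠ 0 → fdisc R = n ^ 2 ∧ p R := fun R h =>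
    have := Int.cast_ne_zero.1 (left_ne_zero_of_mul (hu R ▸ h))
    ⟨hw.disc R this, hp R this⟩
  have a1 := (sy_all hr n0 (rs_Cn n0)).sum_eq hs u1 u2
  have a2 := (sy_all hr n0 (one_mul n ▸ (rs_Cn n0).mul (η := -1) (η' := 1) rfl rfl)).sum_eq hs u1 u2
  simp only [sum_product, id] at a1 a2
  simp only [Xw_mul (C := C) n0 hw (hr.det _), sum_sub_distrib, sum_neg_distrib]
  rw [hr.sum_mul (li_fk hC n0 hw dl) det_S]
  simp only [fk_dl n0 hw (hr.det _), sum_sub_distrib, sum_add_distrib]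
  rw [hr.sum_mul (li_fk hC n0 hw zt) det_T]
  simp only [fk_d0 hC n0 hw (hr.det _) hu, ← mul_sum, sum_add_distrib, a1, a2, ← hu]
  ring

end Pool.Agent.G5.PD
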