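import Pool.Agent.Lib.MP_696deb_nt.B5.MH1
import Pool.Agent.Lib.MP_60ff09_nt.Cut.MAPet

/-! The Hecke operators on cusp forms of weight two are semisimple. -/

set_option autoImplicit false

open PowerSeries Filter Topology
open scoped MatrixGroups UpperHalfPlane

namespace Pool.Agent.B5

open Pool.Agent.Lib.MP_696deb_nt Pool.Agent.B4.GE Pool.Agent.Lib.MP_0d42ed_ag

variable {N l : ℕ} {G G' : ℂ → ℂ} {A : ℂ⟦X⟧} {g : MZ} {z : ℂ}

/-- The restriction to the upper half plane. -/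
def pjUp (G : ℂ → ℂ) : ℍ → ℂ := fun τ => G τ

theorem pj_sl (hg : 0 < g.det) (G : ℂ → ℂ) (τ : ℍ) :
    FM.C9.sl (pjUp G) g τ = g.det * sk 2 g G τ := by
  rw [FM.C9.sl_apply hg, FM.C9.gm_det hg.ne', FM.C9.denom_gm hg.ne', pjUp, FM.C9.coe_gm_smul hg, sk]
  simp only [act, mob, den, Complex.ofReal_intCast]
  ring

theorem pj_inv (hG : Mk N 2 G) (hg : G0 N g) : FM.C9.sl (pjUp G) g = pjUp G := funext fun τ => by
  rw [pj_sl (hg.1 ▸ one_pos), hg.1, hG.sk_eq hg τ.im_pos, pjUp]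
  simp

theorem pj_g0 {γ : SL(2, ℤ)} (h : FM.C9.rd N γ 1 0 = 0) : G0 N γ.1 :=
  ⟨γ.2, (ZMod.intCast_zmod_eq_zero_iff_dvd _ _).1 h⟩

theorem pj_mem (hG : Mk N 2 G) (hc : Cu G) : pjUp G ∈ FM.C9.Cf (FM.C9.Gsc N) := by
  refine ⟨hG.hol.mdiff, fun γ hγ => pj_inv hG (pj_g0 hγ.2.1), fun γ => ?_⟩
  have h1 := (hc γ.1 γ.2).comp UpperHalfPlane.tendsto_coe_atImInfty
  refine h1.congr fun τ => ?_
  rw [pj_sl (by rw [γ.2]; exact one_pos), γ.2, sk]
  simp

theorem pj_hk (hl : l.Prime) (hN : ¬ l ∣ N) (hG : Mk N 2 G) :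
    FM.C9.hk N l (pjUp G) = pjUp (Tl N l G) := by
  have hσ := FM.C9.isDia_diaH hl hN
  have l0 : (0 : ℤ) < l := by exact_mod_cast hl.pos
  have htw : ∀ i, tw N l i = l := fun i => if_neg fun h => hN h.2
  let e : Fin l → Fin l := fun b => ⟨N * b % l, Nat.mod_lt _ hl.pos⟩
  have he : Function.Bijective e := Finite.injective_iff_bijective.1 fun b b' h => by
    have h1 : N * b ≡ N * b' [MOD l] := congrArg Fin.val h
    have h2 := Nat.ModEq.cancel_left_of_coprime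
      ((Nat.Prime.coprime_iff_not_dvd hl).2 hN) h1
    exact Fin.ext (Nat.ModEq.eq_of_lt_of_lt h2 b.2 b'.2)
  funext τ
  rw [FM.C9.hk, Finset.sum_apply, pjUp, Tl, Fintype.sum_option, Fintype.sum_option,
    ← he.sum_comp fun b => (tw N l (some b) : ℂ) * sk 2 (rP l (some b)) G τ]
  congr 1
  · have h1 : FM.C9.du l = rP l none := by simp [FM.C9.du, rP, ut]
    rw [FM.C9.std, FM.C9.sl_mul (by simp) (by rw [FM.C9.det_du]; exact l0.ne'),
      pj_inv hG (pj_g0 hσ.2.1), h1, pj_sl (det_rP_pos hl _), det_rP hl, htw]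
    simp
  · refine Finset.sum_congr rfl fun b _ => ?_
    have h1 : FM.C9.std N l (FM.C9.diaH N l) (some b) =
        !![1, ((N * b / l : ℕ) : ℤ); 0, 1] * rP l (some (e b)) := by
      have h2 : ((N * b % l : ℕ) : ℤ) + l * ((N * b / l : ℕ) : ℤ) = N * (b : ℕ) := by
        exact_mod_cast Nat.mod_add_div (N * b) l
      ext i j
      fin_cases i <;> fin_cases j <;>
        simp [FM.C9.std, rP, ut, e, Matrix.mul_apply, Fin.sum_univ_two, -Nat.cast_div,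
          -Int.natCast_ediv, -Int.natCast_emod, -Int.natCast_mod]
      linear_combination -h2
    rw [h1, FM.C9.sl_mul (by simp) (det_rP_pos hl _).ne', pj_inv hG ⟨by simp, by simp⟩,
      pj_sl (det_rP_pos hl _), det_rP hl, htw]
    simp

/-- The scalar product. -/
noncomputable def pjP (N : ℕ) (G G' : ℂ → ℂ) : ℂ := FM.C9.pet (FM.C9.Gsc N) (pjUp G) (pjUp G')

theorem pjP_Tl (h0 : N ≠ 0) (hl : l.Prime) (hN : ¬ l ∣ N) (hG : Mk N 2 G) (hc : Cu G)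
    (hG' : Mk N 2 G') (hc' : Cu G') : pjP N (Tl N l G) G' = pjP N G (Tl N l G') := by
  have : NeZero N := ⟨h0⟩
  have hσ := FM.C9.isDia_diaH hl hN
  have h1 := FM.C9.pet_hk hl hN hσ (pj_mem hG hc) (pj_mem hG' hc')
  have h2 : FM.C9.rd N (FM.C9.diaH N l)⁻¹ 1 0 = 0 := by
    rw [FM.C9.rd_inv]
    simp [hσ.2.1]
  rwa [pj_inv hG' (pj_g0 h2), pj_hk hl hN hG, pj_hk hl hN hG'] at h1

theorem pjP_zero (h0 : N ≠ 0) (hG : Mk N 2 G) (hc : Cu G) (h : pjP N G G = 0) (hz : 0 < z.im) :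
    G z = 0 := by
  have : NeZero N := ⟨h0⟩
  by_contra h1
  have h2 := FM.C9.pet_pos (pj_mem hG hc) fun e => h1 (congrFun e ⟨z, hz⟩)
  rw [← pjP, h] at h2
  exact lt_irrefl _ h2

/-- Generalized eigenforms are eigenforms. -/
theorem pj_semi (h0 : N ≠ 0) (hl : l.Prime) (hN : ¬ l ∣ N) (hG : Mk N 2 G) (hc : Cu G) (a : ℝ)
    (h : ∀ z : ℂ, 0 < z.im →
      Tl N l (fun w => Tl N l G w - a * G w) z = a * (Tl N l G z - a * G z)) (hz : 0 < z.im) :
    Tl N l G z = a * G z := by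
  have : NeZero N := ⟨h0⟩
  obtain ⟨H, hH⟩ : ∃ H : ℂ → ℂ, H = fun w => Tl N l G w - a * G w := ⟨_, rfl⟩
  have e0 : H = fun w => Tl N l G w + (-a : ℂ) * G w := by
    rw [hH]
    funext w
    ring
  have m1 : Mk N 2 H := e0 ▸ (hG.Tl hl).add (hG.smul _)
  have c1 : Cu H := e0 ▸ (hc.Tl hl).add (hc.smul _)
  have e1 : pjUp H = pjUp (Tl N l G) + (-a : ℂ) • pjUp G := by
    rw [e0]
    rfl
  have e2 : pjUp (Tl N l H) = (a : ℂ) • pjUp H := funext fun τ => by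
    rw [hH]
    exact h τ τ.im_pos
  have e3 := pjP_Tl h0 hl hN m1 c1 hG hc
  have e4 : pjP N (Tl N l H) G = a * pjP N H G := by
    rw [pjP, e2, ← FM.C9.pet_symm, FM.C9.pet_smul, map_mul, FM.C9.pet_symm, Complex.conj_ofReal, pjP]
  have e5 : pjP N H H = 0 := by
    have e6 : pjP N H H = FM.C9.pet (FM.C9.Gsc N) (pjUp H) (pjUp (Tl N l G) + (-a : ℂ) • pjUp G) := by
      rw [← e1, pjP]
    rw [e6, FM.C9.pet_add (pj_mem (hG.Tl hl) (hc.Tl hl)) (Submodule.smul_mem _ _ (pj_mem hG hc))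
      (pj_mem m1 c1), FM.C9.pet_smul, ← pjP, ← pjP, ← e3, e4]
    ring
  have := pjP_zero h0 m1 c1 e5 hz
  rw [hH] at this
  exact sub_eq_zero.1 this

end Pool.Agent.B5
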