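import Mathlib

/-! Linear algebra for the Hecke projector. -/

set_option autoImplicit false

open Polynomial

namespace Pool.Agent.B5

section lin

variable {V : Type*} [AddCommGroup V] [Module ℂ V] [FiniteDimensional ℂ V] {ι : Type*}

theorem pj_poly (T : Module.End ℂ V) (a : ℝ)
    (hs : ∀ v, (T - algebraMap ℝ _ a) ((T - algebraMap ℝ _ a) v) = 0 →
      (T - algebraMap ℝ _ a) v = 0) :
    ∃ q : ℝ[X], q.eval a ≠ 0 ∧ (T - algebraMap ℝ _ a) * aeval T q = 0 := by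
  have h1 : IsIntegral ℝ T := Algebra.IsIntegral.isIntegral T
  obtain ⟨q, h2, h3⟩ := exists_eq_pow_rootMultiplicity_mul_and_not_dvd (minpoly ℝ T)
    (minpoly.ne_zero h1) a
  refine ⟨q, fun h => h3 (dvd_iff_isRoot.2 h), ?_⟩
  have h4 := minpoly.aeval ℝ T
  rw [h2, map_mul, map_pow, map_sub, aeval_X, aeval_C] at h4
  generalize rootMultiplicity a (minpoly ℝ T) = k at h4
  have h5 : ∀ (k : ℕ) (v : V), ((T - algebraMap ℝ _ a) ^ k) v = 0 →
      (T - algebraMap ℝ _ a) v = 0 := fun k => by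
    induction k with
    | zero => intro v h; rw [pow_zero, Module.End.one_apply] at h; rw [h, map_zero]
    | succ k ih => intro v h; rw [pow_succ, Module.End.mul_apply] at h; exact hs v (ih _ h)
  ext v
  exact h5 k _ (LinearMap.congr_fun h4 v)

/-- A real combination of words which maps the space into the joint eigenspace. -/
theorem pj_lin (T : ι → Module.End ℂ V) (a : ι → ℝ) (hc : ∀ i j, Commute (T i) (T j))
    (hs : ∀ i v, (T i - algebraMap ℝ _ (a i)) ((T i - algebraMap ℝ _ (a i)) v) = 0 →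
      (T i - algebraMap ℝ _ (a i)) v = 0) :
    ∃ (n : ℕ) (r : Fin n → ℝ) (w : Fin n → List ι), ∑ k, r k * ((w k).map a).prod ≠ 0 ∧
      ∀ i, (T i - algebraMap ℝ _ (a i)) * ∑ k, r k • ((w k).map T).prod = 0 := by
  classical
  let g : ι → Module.End ℂ V × ℝ := fun i => (T i, a i)
  let B := Algebra.adjoin ℝ (Set.range g)
  have hB : ∀ x ∈ B, ∀ y ∈ B, Commute x y := fun x hx y hy =>
    Algebra.commute_of_mem_adjoin_of_forall_mem_commute hy fun _ ⟨j, hj⟩ =>
      (Algebra.commute_of_mem_adjoin_of_forall_mem_commute hx fun _ ⟨i, hi⟩ => by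
        rw [← hi, ← hj]
        exact Prod.ext (hc j i) (mul_comm _ _)).symm
  have hex : ∃ m, ∃ x ∈ B, x.2 ≠ 0 ∧ Module.finrank ℂ (LinearMap.range x.1) = m :=
    ⟨_, 1, one_mem _, one_ne_zero, rfl⟩
  obtain ⟨x, hx, hx0, hm⟩ := Nat.find_spec hex
  have hker : ∀ i, (T i - algebraMap ℝ _ (a i)) * x.1 = 0 := fun i => by
    obtain ⟨q, hq, hq0⟩ := pj_poly (T i) (a i) (hs i)
    have h1 : aeval (g i) q ∈ B :=
      Algebra.adjoin_mono (Set.singleton_subset_iff.2 (Set.mem_range_self i))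
        (aeval_mem_adjoin_singleton ℝ (g i))
    have h2 : (aeval (g i) q).1 = aeval (T i) q :=
      (aeval_algHom_apply (AlgHom.fst ℝ (Module.End ℂ V) ℝ) (g i) q).symm
    have h3 : (aeval (g i) q).2 = q.eval (a i) :=
      ((aeval_algHom_apply (AlgHom.snd ℝ (Module.End ℂ V) ℝ) (g i) q).symm).trans
        (congrFun (coe_aeval_eq_eval (a i)) q)
    have h4 : LinearMap.range (x * aeval (g i) q).1 ≤ LinearMap.range x.1 :=
      LinearMap.range_comp_le_range _ _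
    have h5 := Nat.find_min' hex ⟨_, mul_mem hx h1, mul_ne_zero hx0 (h3 ▸ hq), rfl⟩
    have h6 := Submodule.eq_of_le_of_finrank_le h4 (hm ▸ h5)
    ext v
    obtain ⟨u, hu⟩ : x.1 v ∈ LinearMap.range (x * aeval (g i) q).1 := h6 ▸ ⟨v, rfl⟩
    rw [hB x hx _ h1, Prod.fst_mul, h2, Module.End.mul_apply] at hu
    rw [Module.End.mul_apply, ← hu]
    exact LinearMap.congr_fun hq0 _
  have h1 : x ∈ Submodule.span ℝ (Submonoid.closure (Set.range g) : Set (Module.End ℂ V × ℝ)) := by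
    rw [← Algebra.adjoin_eq_span]
    exact hx
  obtain ⟨n, r, y, hy⟩ := Submodule.mem_span_set'.1 h1
  have h2 : ∀ y ∈ Submonoid.closure (Set.range g), ∃ w : List ι,
      y = ((w.map T).prod, (w.map a).prod) := fun y hy => by
    induction hy using Submonoid.closure_induction with
    | mem y h => obtain ⟨i, rfl⟩ := h; exact ⟨[i], by simp [g]⟩
    | one => exact ⟨[], rfl⟩
    | mul y y' _ _ h h' =>
      obtain ⟨w, rfl⟩ := h
      obtain ⟨w', rfl⟩ := h'
      exact ⟨w ++ w', by simp⟩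
  choose w hw using fun k => h2 (y k) (y k).2
  simp only [hw] at hy
  refine ⟨n, r, w, ?_, fun i => ?_⟩
  · rw [← hy, Prod.snd_sum] at hx0
    exact hx0
  · have h3 := hker i
    rw [← hy, Prod.fst_sum] at h3
    exact h3

theorem pj_lin' (T : ι → Module.End ℂ V) (a : ι → ℝ) (hc : ∀ i j, Commute (T i) (T j))
    (hs : ∀ i v, T i (T i v - (a i : ℂ) • v) = (a i : ℂ) • (T i v - (a i : ℂ) • v) →
      T i v = (a i : ℂ) • v) :
    ∃ (n : ℕ) (r : Fin n → ℝ) (w : Fin n → List ι), ∑ k, r k * ((w k).map a).prod ≠ 0 ∧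
      ∀ i v, T i (∑ k, (r k : ℂ) • ((w k).map T).prod v) =
        (a i : ℂ) • ∑ k, (r k : ℂ) • ((w k).map T).prod v := by
  obtain ⟨n, r, w, h1, h2⟩ := pj_lin T a hc fun i v h =>
    sub_eq_zero.2 (hs i v (sub_eq_zero.1 h))
  refine ⟨n, r, w, h1, fun i v => ?_⟩
  have h3 := LinearMap.congr_fun (h2 i) v
  rw [Module.End.mul_apply, LinearMap.sum_apply] at h3
  exact sub_eq_zero.1 h3

end lin

theorem pj_fun {x : ℝ} (h : x ≠ 0) : ∃ ρ : ℝ →ₗ[ℚ] ℚ, ρ x = 1 := by
  obtain ⟨ρ, hρ⟩ := (Module.forall_dual_apply_eq_zero_iff ℚ x).not.2 h |> not_forall.1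
  exact ⟨(ρ x)⁻¹ • ρ, by simp [inv_mul_cancel₀ hρ]⟩

/-- Descent of a linear dependence. -/
theorem pj_desc {α : Type*} (e : α → ℝ) (a b : α → ℚ)
    (h : ∀ π : ℝ →ₗ[ℚ] ℚ, ∃ s t : ℚ, ∀ x, π (e x) = s * a x + t * b x) :
    ∃ s t : ℝ, ∀ x, e x = s * a x + t * b x := by
  let Φ : (α →₀ ℚ) →ₗ[ℚ] ℚ × ℚ := Finsupp.linearCombination ℚ fun x => (a x, b x)
  let E : (α →₀ ℚ) →ₗ[ℚ] ℝ := Finsupp.linearCombination ℚ e
  have h1 : LinearMap.ker Φ ≤ LinearMap.ker E := fun v hv => by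
    refine (Module.forall_dual_apply_eq_zero_iff ℚ (E v)).1 fun π => ?_
    obtain ⟨s, t, hst⟩ := h π
    have h2 : π ∘ₗ E = (s • LinearMap.fst ℚ ℚ ℚ + t • LinearMap.snd ℚ ℚ ℚ) ∘ₗ Φ := by
      ext x
      simp [E, Φ, hst]
    have h3 := LinearMap.congr_fun h2 v
    rw [LinearMap.comp_apply, LinearMap.comp_apply, LinearMap.mem_ker.1 hv, map_zero] at h3
    exact h3
  obtain ⟨ψ, hψ⟩ := LinearMap.exists_extend
    (((LinearMap.ker Φ).liftQ E h1) ∘ₗ Φ.quotKerEquivRange.symm.toLinearMap)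
  refine ⟨ψ (1, 0), ψ (0, 1), fun x => ?_⟩
  have h2 := LinearMap.congr_fun hψ ⟨Φ (Finsupp.single x 1), LinearMap.mem_range_self _ _⟩
  simp only [LinearMap.comp_apply, Submodule.subtype_apply, LinearEquiv.coe_coe,
    LinearMap.quotKerEquivRange_symm_apply_image, Submodule.mkQ_apply, Submodule.liftQ_apply] at h2
  have h3 : Φ (Finsupp.single x 1) = a x • (1, 0) + b x • (0, 1) := by simp [Φ]
  rw [h3, map_add, map_smul, map_smul] at h2
  simp only [E, Finsupp.linearCombination_single, one_smul, Rat.smul_def] at h2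
  rw [← h2]
  ring

end Pool.Agent.B5
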