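import Pool.Agent.Lib.MP_696deb_nt.B5.PJ0
import Pool.Agent.Lib.MP_696deb_nt.B5.PJ1
import Pool.Agent.Lib.MP_696deb_nt.B5.AL

/-! The Hecke projector on cusp forms, with real coefficients. -/

set_option autoImplicit false

open PowerSeries Filter Topology

namespace Pool.Agent.B5

open Pool.Agent.Lib.MP_696deb_nt Pool.Agent.B4.GE

variable {N S l l' : ℕ} {G G' f : ℂ → ℂ} {A : ℂ⟦X⟧} {g : MZ} {z : ℂ}

/-- Products of Hecke operators. -/
noncomputable def Tw (N : ℕ) (w : List ℕ) (G : ℂ → ℂ) : ℂ → ℂ := w.foldr (Tl N) G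

/-- The Hecke operator on power series as a linear map. -/
noncomputable def tL (N l : ℕ) : ℂ⟦X⟧ →ₗ[ℂ] ℂ⟦X⟧ where
  toFun := tS N l
  map_add' A B := by
    ext n
    simp only [coeff_tS, map_add]
    split_ifs <;> ring
  map_smul' c A := by
    ext n
    simp only [coeff_tS, map_smul, smul_eq_mul, RingHom.id_apply]
    split_ifs <;> ring

theorem tS_comm (hl : l.Prime) (hl' : l'.Prime) (h : ¬ l ∣ N) (h' : ¬ l' ∣ N) (A : ℂ⟦X⟧) :
    tS N l (tS N l' A) = tS N l' (tS N l A) := by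
  rcases eq_or_ne l l' with rfl | hne
  · rfl
  have c : l.Coprime l' := (Nat.coprime_primes hl hl').2 hne
  ext n
  simp only [coeff_tS, h, h', not_false_eq_true, and_true, c.dvd_mul_left, c.symm.dvd_mul_left]
  rw [mul_left_comm l' l n]
  by_cases d : l ∣ n <;> by_cases d' : l' ∣ n
  · obtain ⟨m, rfl⟩ := c.mul_dvd_of_dvd_of_dvd d d'
    have e1 : l * l' * m / l = l' * m := by rw [mul_assoc, Nat.mul_div_cancel_left _ hl.pos]
    have e2 : l * l' * m / l' = l * m := by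
      rw [mul_comm l l', mul_assoc, Nat.mul_div_cancel_left _ hl'.pos]
    have e3 : l * (l * l' * m) / l' = l * (l * m) := by rw [Nat.mul_div_assoc _ d', e2]
    have e4 : l' * (l * l' * m) / l = l' * (l' * m) := by rw [Nat.mul_div_assoc _ d, e1]
    simp only [d, d', if_true, e1, e2, e3, e4, dvd_mul_right, Nat.mul_div_cancel_left _ hl.pos,
      Nat.mul_div_cancel_left _ hl'.pos]
    ring
  · have d2 : ¬ l' ∣ n / l := fun k => d' (k.trans (Nat.div_dvd_of_dvd d))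
    simp only [d, d', d2, if_true, if_false, Nat.mul_div_assoc _ d, add_zero]
  · have d2 : ¬ l ∣ n / l' := fun k => d (k.trans (Nat.div_dvd_of_dvd d'))
    simp only [d, d', d2, if_true, if_false, Nat.mul_div_assoc _ d', add_zero]
  · simp only [d, d', if_false, add_zero]

/-- Cusp forms with given eigenvalues of the involutions. -/
structure CW (N : ℕ) (W : ℕ → MZ) (e : ℕ → ℂ) (G : ℂ → ℂ) : Prop where
  mk2 : Mk N 2 G
  cu : Cu G
  eig : ∀ r : ℕ, r.Prime → r ∣ N → ∀ z : ℂ, 0 < z.im → sk 2 (W r) G z = e r * G z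

variable {W : ℕ → MZ} {e : ℕ → ℂ}

theorem pj_nrm {r : ℕ} (h : AL N r g) (hr : r.Prime) (hN : r ∣ N) : Nrm N g := by
  obtain ⟨M, rfl⟩ := hN
  rw [mul_comm] at h ⊢
  exact h.nrm hr.ne_zero

theorem CW.Tl (h : CW N W e G) (hW : ∀ r : ℕ, r.Prime → r ∣ N → AL N r (W r)) (hl : l.Prime)
    (hN : ¬ l ∣ N) : CW N W e (Tl N l G) :=
  ⟨h.mk2.Tl hl, h.cu.Tl hl, fun r hr hrN z hz => by
    rw [(pj_nrm (hW r hr hrN) hr hrN).sk_Tl hl hN h.mk2 hz, Tl_congr hl (h.eig r hr hrN) hz,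
      Tl_smul]⟩

/-- The space of expansions. -/
def CV (N : ℕ) (W : ℕ → MZ) (e : ℕ → ℂ) : Submodule ℂ ℂ⟦X⟧ where
  carrier := {A | ∃ G, CW N W e G ∧ QE G A}
  add_mem' := fun ⟨G, h, q⟩ ⟨G', h', q'⟩ => ⟨fun z => G z + G' z,
    ⟨h.mk2.add h'.mk2, h.cu.add h'.cu, fun r hr hN z hz => by
      rw [mul_add, ← h.eig r hr hN z hz, ← h'.eig r hr hN z hz, sk, sk, sk, add_div]⟩, q.add q'⟩
  zero_mem' := ⟨fun _ => 0, ⟨⟨fun _ _ => differentiableAt_const _, fun _ _ _ _ => by simp,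
    fun _ _ => by simpa using Bdd.const 0⟩, fun _ _ => by simp, fun _ _ _ _ _ => by simp [sk]⟩,
    by simpa using QE.const 0⟩
  smul_mem' := fun c A ⟨G, h, q⟩ => ⟨fun z => c * G z,
    ⟨h.mk2.smul c, h.cu.smul c, fun r hr hN z hz => by
      rw [mul_left_comm, ← h.eig r hr hN z hz, sk, sk, mul_div_assoc]⟩, by
    rw [smul_eq_C_mul]
    exact q.smul c⟩

theorem CV_fin (hN : N ≠ 0) : FiniteDimensional ℂ (CV N W e) := by
  obtain ⟨μ, hμ⟩ := idx_sq hN
  refine FiniteDimensional.of_injective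
    (LinearMap.pi fun i : Fin (μ + 1) => coeff (i : ℕ) ∘ₗ (CV N W e).subtype)
    ((injective_iff_map_eq_zero _).2 fun ⟨A, G, h, q⟩ h0 => Subtype.ext ?_)
  refine q.unique (by simpa using QE.const 0) (F' := fun _ => 0) fun z hz => ?_
  exact h.mk2.sturm (m := μ + 1) hμ q (by omega) (fun n hn => congrFun h0 ⟨n, hn⟩) hz

theorem Cu.coeff0 (h : Cu G) (q : QE G A) : coeff 0 A = 0 := by
  refine tendsto_nhds_unique q.tendsto ?_
  simpa only [act_one, den_one, one_pow, div_one] using h 1 Matrix.det_one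

theorem qe_sum {ι : Type*} (s : Finset ι) {F : ι → ℂ → ℂ} {B : ι → ℂ⟦X⟧} (h : ∀ i, QE (F i) (B i)) :
    QE (fun z => ∑ i ∈ s, F i z) (∑ i ∈ s, B i) := by
  classical
  induction s using Finset.induction_on with
  | empty => simpa using QE.const 0
  | insert a s ha ih => simpa only [Finset.sum_insert ha] using (h a).add ih

/-- The projector with real coefficients. -/
theorem pj_cusp (hN : Squarefree N) (hS : S ≠ 0) (hNS : N ∣ S)
    (hW : ∀ r : ℕ, r.Prime → r ∣ N → AL N r (W r) ∧ e r ≠ 0) (hf : CW N W e f) (qf : QE f A)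
    (A1 : coeff 1 A = 1) (a : ℕ → ℝ)
    (Tf : ∀ l : ℕ, l.Prime → ¬ l ∣ S → ∀ z : ℂ, 0 < z.im → Tl N l f z = a l * f z) :
    ∃ (n : ℕ) (r : Fin n → ℝ) (w : Fin n → List ℕ), (∀ k, ∀ l ∈ w k, l.Prime ∧ ¬ l ∣ S) ∧
      ∑ k, r k * ((w k).map a).prod ≠ 0 ∧ ∀ G, CW N W e G →
        ∃ c : ℂ, ∀ z : ℂ, 0 < z.im → ∑ k, r k * Tw N (w k) G z = c * f z := by
  have N0 := hN.ne_zero
  have := CV_fin (W := W) (e := e) N0
  have hW' : ∀ r : ℕ, r.Prime → r ∣ N → AL N r (W r) := fun r h h' => (hW r h h').1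
  let ι := {l : ℕ // l.Prime ∧ ¬ l ∣ S}
  have hι : ∀ l : ι, ¬ l.1 ∣ N := fun l h => l.2.2 (h.trans hNS)
  let T : ι → Module.End ℂ (CV N W e) := fun l => (tL N l).restrict fun _ ⟨_, h, q⟩ =>
    ⟨_, h.Tl hW' l.2.1 (hι l), qe_Tl l.2.1 q⟩
  have hT : ∀ (l : ι) (v : CV N W e), (T l v).1 = tS N l v.1 := fun _ _ => rfl
  have hTa : ∀ (l : ι) (v : CV N W e) (G : ℂ → ℂ), QE G v.1 →
      QE (fun z => Tl N l G z - a l * G z) (T l v - (a l : ℂ) • v).1 := fun l v G q => by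
    convert (qe_Tl (N := N) l.2.1 q).sub (q.smul (a l)) using 1
    rw [Submodule.coe_sub, hT, ← smul_eq_C_mul]
    rfl
  obtain ⟨n, r, w, h1, h2⟩ := pj_lin' T (fun l => a l)
    (fun i j => LinearMap.ext fun v => Subtype.ext (tS_comm i.2.1 j.2.1 (hι i) (hι j) v.1))
    fun l v h => by
      obtain ⟨G, hG, q⟩ := v.2
      have q1 := hTa l v G q
      have q2 := hTa l _ _ q1
      rw [h, sub_self] at q2
      refine sub_eq_zero.1 (Subtype.ext
        (q1.unique (by simpa using QE.const 0) (F' := fun _ => 0) fun z hz => ?_))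
      exact sub_eq_zero.2 (pj_semi N0 l.2.1 (hι l) hG.mk2 hG.cu (a l)
        (fun z hz => by have := QE.zero q2 hz; exact sub_eq_zero.1 this) hz)
  refine ⟨n, r, fun k => (w k).map Subtype.val, fun k l hl => ?_, ?_, fun G hG => ?_⟩
  · obtain ⟨l', -, rfl⟩ := List.mem_map.1 hl
    exact l'.2
  · simpa only [List.map_map, Function.comp_def] using h1
  obtain ⟨B, q⟩ := hG.mk2.qe
  let v : CV N W e := ⟨B, G, hG, q⟩
  have h3 : ∀ u : List ι, QE (Tw N (u.map Subtype.val) G) ((u.map T).prod v).1 := fun u => by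
    induction u with
    | nil => exact q
    | cons l u ih => exact qe_Tl l.2.1 ih
  obtain ⟨x, hx⟩ : ∃ x, x = ∑ k, (r k : ℂ) • ((w k).map T).prod v := ⟨_, rfl⟩
  have h4 : QE (fun z => ∑ k, r k * Tw N ((w k).map Subtype.val) G z) x.1 := by
    convert qe_sum Finset.univ fun k => (h3 (w k)).smul (r k) using 1
    rw [hx, Submodule.coe_sum]
    exact Finset.sum_congr rfl fun k _ => by rw [← smul_eq_C_mul]; rfl
  obtain ⟨H, hH, qH⟩ := x.2
  refine ⟨coeff 1 x.1, fun z hz => (h4.eq_of_eq qH hz).trans ?_⟩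
  refine mult_one_S (e := fun l => a l) hN hS hf.mk2 hH.mk2 qf qH (hf.cu.coeff0 qf)
    (hH.cu.coeff0 qH) A1 Tf (fun l hl hlS z hz => ?_) (fun r hr hrN =>
      ⟨W r, e r, (hW r hr hrN).1, (hW r hr hrN).2, hf.eig r hr hrN, hH.eig r hr hrN⟩) hz
  have q1 := hTa ⟨l, hl, hlS⟩ x H qH
  rw [hx, h2, sub_self] at q1
  have := QE.zero q1 hz
  exact sub_eq_zero.1 this

end Pool.Agent.B5
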