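import Pool.Agent.Lib.MP_696deb_nt.B5.PJ2
import Pool.Agent.Lib.MP_696deb_nt.B5.HA3

/-! Hecke operators on cocycle functions, and their holomorphic representatives. -/

set_option autoImplicit false

open PowerSeries Filter Topology
open scoped MatrixGroups UpperHalfPlane Real

namespace Pool.Agent.B5

open Pool.Agent.Lib.MP_696deb_nt Pool.Agent.B4.GE

/-- The Hecke operator on functions with values in a commutative monoid. -/
noncomputable def Tz {α : Type*} [AddCommMonoid α] (l : ℕ) (J : ℂ → α) (z : ℂ) : α :=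
  ∑ i, J (act (rP l i) z)

/-- Products of these operators. -/
noncomputable def Tzw {α : Type*} [AddCommMonoid α] (w : List ℕ) (J : ℂ → α) : ℂ → α :=
  w.foldr Tz J

/-- Sets of points which are stable under integral matrices of positive determinant. -/
structure Stab (U : Set ℂ) : Prop where
  pos : ∀ z ∈ U, 0 < z.im
  act : ∀ z ∈ U, ∀ g : MZ, 0 < g.det → act g z ∈ U
  ne : U.Nonempty

/-- Functions which change by constants in a subgroup. -/
def CocH {α : Type*} [AddCommGroup α] (H : AddSubgroup α) (N : ℕ) (U : Set ℂ) (J : ℂ → α) : Prop :=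
  ∀ g, G0 N g → ∃ t ∈ H, ∀ z ∈ U, J (act g z) = J z + t

/-- Invariant functions on a set. -/
def InvU {α : Type*} (N : ℕ) (U : Set ℂ) (J : ℂ → α) : Prop :=
  ∀ g, G0 N g → ∀ z ∈ U, J (act g z) = J z

/-- Functions which define a parabolic class. -/
structure Coz {α : Type*} [AddCommGroup α] (N : ℕ) (U : Set ℂ) (J : ℂ → α) : Prop where
  coc : ∀ g, G0 N g → ∃ t, ∀ z ∈ U, J (act g z) = J z + t
  par : ∀ g : MZ, g.det = 1 → ∃ k : ℕ, k ≠ 0 ∧ ∀ z ∈ U, J (act g (z + k)) = J (act g z)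

variable {N l r : ℕ} {U : Set ℂ} {w : List ℕ} {g W : MZ} {z : ℂ}

theorem stab_top : Stab {z : ℂ | 0 < z.im} :=
  ⟨fun _ h => h, fun _ hz _ hg => act_pos hg hz, Complex.I, by simp⟩

theorem Stab.add (hU : Stab U) (hz : z ∈ U) (k : ℕ) : z + k ∈ U := by
  simpa [act_of, mob] using hU.act z hz !![1, (k : ℤ); 0, 1] (by simp)

theorem Stab.iter {α : Type*} (hU : Stab U) {J : ℂ → α} {k : ℕ} (h : ∀ z ∈ U, J (z + k) = J z)
    (j : ℕ) (hz : z ∈ U) : J (z + (j * k : ℕ)) = J z := by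
  induction j with
  | zero => simp
  | succ j ih => rw [Nat.succ_mul, Nat.cast_add, ← add_assoc, h _ (hU.add hz _), ih]

section alg

variable {α β : Type*}

theorem Tzw_cons [AddCommMonoid α] (l : ℕ) (w : List ℕ) (J : ℂ → α) :
    Tzw (l :: w) J = Tz l (Tzw w J) := rfl

theorem Tzw_map [AddCommMonoid α] [AddCommMonoid β] (ρ : α →+ β) (w : List ℕ) (J : ℂ → α) :
    Tzw w (fun z => ρ (J z)) = fun z => ρ (Tzw w J z) := by
  induction w with
  | nil => rfl
  | cons l w ih =>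
    funext z
    rw [Tzw_cons, Tzw_cons, ih, Tz, Tz, map_sum]

theorem Tzw_add [AddCommMonoid α] (w : List ℕ) (J J' : ℂ → α) :
    Tzw w (fun z => J z + J' z) = fun z => Tzw w J z + Tzw w J' z := by
  induction w with
  | nil => rfl
  | cons l w ih =>
    funext z
    rw [Tzw_cons, Tzw_cons, Tzw_cons, ih, Tz, Tz, Tz, Finset.sum_add_distrib]

theorem Tzw_sub [AddCommGroup α] (w : List ℕ) (J J' : ℂ → α) :
    Tzw w (fun z => J z - J' z) = fun z => Tzw w J z - Tzw w J' z := by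
  induction w with
  | nil => rfl
  | cons l w ih =>
    funext z
    rw [Tzw_cons, Tzw_cons, Tzw_cons, ih, Tz, Tz, Tz, Finset.sum_sub_distrib]

theorem Tzw_congr [AddCommMonoid α] (hU : Stab U) (hw : ∀ l ∈ w, l.Prime) {J J' : ℂ → α}
    (h : ∀ z ∈ U, J z = J' z) : ∀ z ∈ U, Tzw w J z = Tzw w J' z := by
  induction w with
  | nil => exact h
  | cons l w ih =>
    intro z hz
    rw [Tzw_cons, Tzw_cons, Tz, Tz]
    exact Finset.sum_congr rfl fun i _ => ih (fun l hl => hw l (List.mem_cons_of_mem _ hl)) _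
      (hU.act z hz _ (det_rP_pos (hw l List.mem_cons_self) i))

theorem g0_perm (hl : l.Prime) (hN : ¬ l ∣ N) (hg : G0 N g) :
    ∃ σ : Equiv.Perm (Option (Fin l)), ∀ i, ∃ h, G0 N h ∧ rP l i * g = h * rP l (σ i) := by
  obtain ⟨σ, hσ⟩ := (isReps_rP hl).perm hg.1
  refine ⟨σ, fun i => ?_⟩
  obtain ⟨h, h1, h2⟩ := hσ i
  exact ⟨h, ⟨h1, (rP_cop hl hN (σ i)).1.dvd_of_dvd_mul_right (rP_entry h2 ▸ hg.2.mul_left _)⟩, h2⟩

variable [AddCommGroup α] {H : AddSubgroup α} {J J' : ℂ → α}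

theorem CocH.Tz (h : CocH H N U J) (hU : Stab U) (hl : l.Prime) (hN : ¬ l ∣ N) :
    CocH H N U (Tz l J) := fun g hg => by
  obtain ⟨σ, hσ⟩ := g0_perm hl hN hg
  choose k h1 h2 using hσ
  choose t h3 h4 using fun i => h (k i) (h1 i)
  refine ⟨∑ i, t i, H.sum_mem fun i _ => h3 i, fun z hz => ?_⟩
  rw [B5.Tz, B5.Tz, ← Equiv.sum_comp σ fun i => J (act (rP l i) z), ← Finset.sum_add_distrib]
  refine Finset.sum_congr rfl fun i _ => ?_
  rw [← act_mul _ (hg.1 ▸ one_ne_zero) (hU.pos z hz), h2,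
    act_mul _ (det_rP_pos hl _).ne' (hU.pos z hz), h4 i _ (hU.act z hz _ (det_rP_pos hl _))]

theorem CocH.Tzw (h : CocH H N U J) (hU : Stab U) (hw : ∀ l ∈ w, l.Prime ∧ ¬ l ∣ N) :
    CocH H N U (Tzw w J) := by
  induction w with
  | nil => exact h
  | cons l w ih =>
    exact (ih fun l hl => hw l (List.mem_cons_of_mem _ hl)).Tz hU (hw l List.mem_cons_self).1
      (hw l List.mem_cons_self).2

theorem invU_iff : InvU N U J ↔ CocH ⊥ N U J :=
  ⟨fun h g hg => ⟨0, rfl, fun z hz => by rw [h g hg z hz, add_zero]⟩, fun h g hg z hz => by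
    obtain ⟨t, h1, h2⟩ := h g hg
    rw [h2 z hz, AddSubgroup.mem_bot.1 h1, add_zero]⟩

theorem InvU.Tzw (h : InvU N U J) (hU : Stab U) (hw : ∀ l ∈ w, l.Prime ∧ ¬ l ∣ N) :
    InvU N U (Tzw w J) := invU_iff.2 ((invU_iff.1 h).Tzw hU hw)

omit [AddCommGroup α] in
theorem InvU.nrm (h : InvU N U J) (hU : Stab U) (hW : Nrm N W) :
    InvU N U fun z => J (act W z) := fun g hg z hz => by
  obtain ⟨k, h1, h2⟩ := hW.g0 hg
  dsimp only
  rw [← act_mul _ (hg.1 ▸ one_ne_zero) (hU.pos z hz), h2, act_mul _ hW.pos.ne' (hU.pos z hz),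
    h k h1 _ (hU.act z hz _ hW.pos)]

theorem Coz.map [AddCommGroup β] (h : Coz N U J) (ρ : α →+ β) : Coz N U fun z => ρ (J z) :=
  ⟨fun g hg => let ⟨t, ht⟩ := h.coc g hg; ⟨ρ t, fun z hz => by rw [ht z hz, map_add]⟩,
    fun g hg => let ⟨k, h0, hk⟩ := h.par g hg; ⟨k, h0, fun z hz => by rw [hk z hz]⟩⟩

end alg

/-- Derivatives in the upper half plane. -/
def Der (G u : ℂ → ℂ) : Prop := ∀ z : ℂ, 0 < z.im → HasDerivAt G (u z) z

variable {G u : ℂ → ℂ}

theorem Der.act (h : Der G u) (hg : 0 < g.det) :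
    Der (fun z => G (act g z)) fun z => g.det * sk 2 g u z := fun z hz => by
  have := (h _ (act_pos hg hz)).comp z
    (hasDerivAt_mob (a := g 0 0) (b := g 0 1) (c := g 1 0) (d := g 1 1)
      (by rw [← Matrix.det_fin_two]; exact hg.ne') hz)
  rw [← Matrix.det_fin_two] at this
  convert! this using 1
  simp only [sk, den]
  ring

theorem Der.Tz (h : Der G u) (hl : l.Prime) (hN : ¬ l ∣ N) : Der (Tz l G) (Tl N l u) :=
  fun z hz => by
  have := HasDerivAt.fun_sum (u := Finset.univ) fun i _ => h.act (det_rP_pos hl i) z hz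
  convert! this using 1
  refine Finset.sum_congr rfl fun i _ => ?_
  rw [det_rP hl, tw, if_neg fun k => hN k.2, Int.cast_natCast]

theorem Der.Tzw (h : Der G u) (hw : ∀ l ∈ w, l.Prime ∧ ¬ l ∣ N) : Der (Tzw w G) (Tw N w u) := by
  induction w with
  | nil => exact h
  | cons l w ih =>
    exact (ih fun l hl => hw l (List.mem_cons_of_mem _ hl)).Tz (hw l List.mem_cons_self).1
      (hw l List.mem_cons_self).2

theorem Cu.tendsto_sk (hu : Cu u) (hg : 0 < g.det) : Tendsto (sk 2 g u) atI (𝓝 0) := by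
  obtain ⟨a, b, d, h, h1, h2, rfl⟩ := exists_ut hg
  rw [Matrix.det_mul, h2, one_mul, det_ut] at hg
  have a0 : (0 : ℝ) < a := by
    exact_mod_cast Nat.pos_of_ne_zero (by rintro rfl; simp at hg)
  have d0 : (0 : ℝ) < d := by exact_mod_cast (by omega : 0 < d)
  have h3 := ((hu h h2).comp (tendsto_affine (div_pos a0 d0) (b / d))).const_mul ((d : ℂ) ^ 2)⁻¹
  rw [mul_zero] at h3
  refine h3.congr' (ev_pos.mono fun z hz => ?_)
  have : act (ut a b d) z = ((a : ℝ) / d : ℝ) * z + b / d := by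
    simp [ut, act_of, mob]
    ring
  rw [sk_mul _ (by rw [det_ut]; exact hg.ne') hz, sk, this, div_eq_inv_mul (sk _ _ _ _)]
  simp [ut, den, sk]

theorem Cu.sk2 (hu : Cu u) (hW : 0 < W.det) : Cu (sk 2 W u) := fun g hg =>
  (hu.tendsto_sk (g := W * g) (by rwa [Matrix.det_mul, hg, mul_one])).congr'
    (ev_pos.mono fun _ hz => sk_mul W (hg ▸ one_ne_zero) hz)

theorem pj_T (n : ℕ) : (ModularGroup.T ^ n : SL(2, ℤ)).1 = !![1, (n : ℤ); 0, 1] := by
  rw [← zpow_natCast]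
  exact ModularGroup.coe_T_zpow n

theorem pj_gamma {γ : SL(2, ℤ)} : γ ∈ CongruenceSubgroup.Gamma0 N ↔ G0 N γ.1 := by
  rw [CongruenceSubgroup.Gamma0_mem, ZMod.intCast_zmod_eq_zero_iff_dvd]
  exact ⟨fun h => ⟨γ.2, h⟩, fun h => h.2⟩

theorem pj_par (N k : ℕ) (γ : SL(2, ℤ)) :
    γ * ModularGroup.T ^ (N * k) * γ⁻¹ ∈ CongruenceSubgroup.Gamma0 N := by
  rw [pj_gamma]
  refine ⟨Matrix.SpecialLinearGroup.det_coe _, -γ 1 0 ^ 2 * k, ?_⟩
  simp only [Matrix.SpecialLinearGroup.coe_mul, pj_T, Matrix.SpecialLinearGroup.coe_inv]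
  simp [Matrix.mul_apply, Matrix.adjugate_fin_two, Fin.sum_univ_two]
  ring

/-- The holomorphic representative of a parabolic class. -/
theorem Coz.exists_der (hN : N ≠ 0) (hU : Stab U) {J : ℂ → ℝ} (hJ : Coz N U J) :
    ∃ G u : ℂ → ℂ, Der G u ∧ Mk N 2 u ∧ Cu u ∧ InvU N U fun z => (G z).re - J z := by
  have : NeZero N := ⟨hN⟩
  obtain ⟨z₀, hz₀⟩ := hU.ne
  have h1 : ∀ g, G0 N g → ∀ z ∈ U, J (act g z) = J z + (J (act g z₀) - J z₀) := fun g hg z hz => by
    obtain ⟨t, ht⟩ := hJ.coc g hg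
    rw [ht z hz, ht z₀ hz₀, add_sub_cancel_left]
  obtain ⟨G, hG, h2, h3⟩ := HA.eichler_shimura (Γ := CongruenceSubgroup.Gamma0 N)
    (θ := fun γ => J (act γ.1 z₀) - J z₀)
    (fun γ hγ δ hδ => by
      have k : 0 < δ.1.det := by rw [δ.2]; exact one_pos
      rw [Matrix.SpecialLinearGroup.coe_mul, act_mul _ k.ne' (hU.pos _ hz₀),
        h1 _ (pj_gamma.1 hγ) _ (hU.act _ hz₀ _ k)]
      ring)
    fun γ => by
      obtain ⟨j, j0, hj⟩ := hJ.par γ.1 γ.2
      refine ⟨N * j, mul_ne_zero hN j0, pj_par N j γ, ?_⟩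
      have k0 : 0 < γ.1.det := by rw [γ.2]; exact one_pos
      have k1 := h1 _ (pj_gamma.1 (pj_par N j γ)) _ (hU.act _ hz₀ γ.1 k0)
      rw [← act_mul _ k0.ne' (hU.pos _ hz₀), ← Matrix.SpecialLinearGroup.coe_mul,
        inv_mul_cancel_right, Matrix.SpecialLinearGroup.coe_mul, pj_T,
        act_mul _ (by simp) (hU.pos _ hz₀),
        show act !![1, ((N * j : ℕ) : ℤ); 0, 1] z₀ = z₀ + (N * j : ℕ) by simp [act_of, mob],
        hU.iter (J := fun z => J (act γ.1 z)) hj N hz₀] at k1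
      linarith
  have h4 : ∀ g, G0 N g → ∀ z : ℂ, 0 < z.im →
      (G (act g z)).re = (G z).re + (J (act g z₀) - J z₀) := fun g hg z hz => by
    have := h2 ⟨g, hg.1⟩ (pj_gamma.2 hg) ⟨z, hz⟩
    exact (congrArg (fun x => (G x).re) (coe_smul_eq_mob ⟨g, hg.1⟩ ⟨z, hz⟩)).symm.trans this
  have o : IsOpen {z : ℂ | 0 < z.im} := isOpen_lt continuous_const Complex.continuous_im
  have hD : Der G (deriv G) := fun z hz => (hG z hz).hasDerivAt
  have hc : Cu (deriv G) := fun g hg => by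
    obtain ⟨A, hA⟩ := h3 ⟨g, hg⟩ N hN (by simpa only [mul_one] using pj_par N 1 ⟨g, hg⟩)
    obtain ⟨F₁, q, hF⟩ := hA.hasDerivAt
    have n0 : (0 : ℝ) < N := by exact_mod_cast Nat.pos_of_ne_zero hN
    have n1 : (N : ℂ) ≠ 0 := by exact_mod_cast hN
    have k1 := (q.tendsto.comp (tendsto_affine (inv_pos.2 n0) 0)).const_mul
      (2 * π * Complex.I / N)
    rw [coeff_zero_X_mul, mul_zero] at k1
    refine k1.congr' (ev_pos.mono fun z hz => ?_)
    have k2 : 0 < (((N : ℝ)⁻¹ : ℝ) * z + 0 : ℂ).im := by simpa using mul_pos (inv_pos.2 n0) hz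
    have k3 : (N : ℂ) * ((((N : ℝ)⁻¹ : ℝ) : ℂ) * z + 0) = z := by
      push_cast
      field_simp
      ring
    have k4 := HasDerivAt.comp_of_eq _ (hD.act (g := g) (hg ▸ one_pos) z hz)
      ((hasDerivAt_id _).const_mul (N : ℂ)) k3.symm
    have k5 := (hF _ k2).unique k4
    rw [hg] at k5
    dsimp only [Function.comp_apply]
    rw [div_mul_eq_mul_div, k5]
    simp only [sk]
    field_simp
    simp
  refine ⟨G, deriv G, hD, ⟨fun z hz => ?_, fun g hg z hz => ?_, fun g hg => .of_tendsto (hc g hg)⟩,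
    hc, fun g hg z hz => ?_⟩
  · exact ((DifferentiableOn.deriv (fun z hz => (hG z hz).differentiableWithinAt) o) z
      hz).differentiableAt (o.mem_nhds hz)
  · have k1 : Der (fun z => G (act g z) - G z) fun z => g.det * sk 2 g (deriv G) z - deriv G z :=
      fun z hz => (hD.act (hg.1 ▸ one_pos) z hz).fun_sub (hD z hz)
    obtain ⟨c, hc⟩ := AnalyticOnNhd.eq_const_of_re_eq_const (c₀ := J (act g z₀) - J z₀)
      (DifferentiableOn.analyticOnNhd
        (fun z hz => (k1 z hz).differentiableAt.differentiableWithinAt) o)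
      (fun z hz => by rw [Complex.sub_re, h4 g hg z hz, add_sub_cancel_left]) o
      ⟨stab_top.ne, (convex_halfSpace_im_gt 0).isPreconnected⟩
    have k2 := (k1 z hz).unique ((hasDerivAt_const z c).congr_of_eventuallyEq
      ((o.eventually_mem hz).mono hc))
    rw [hg.1, sub_eq_zero, Int.cast_one, one_mul, sk,
      div_eq_iff (pow_ne_zero _ (mh_den hg.1 hz))] at k2
    rw [k2, mul_comm]
  · dsimp only
    rw [h4 g hg z (hU.pos z hz), h1 g hg z hz]
    ring

/-- The representative can be chosen with the signs of the class. -/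
theorem Coz.exists_cw (hN : N ≠ 0) (hU : Stab U) {J : ℂ → ℝ} (hJ : Coz N U J) {W : ℕ → MZ}
    {ε : ℕ → ℤ} (hW : ∀ r : ℕ, r.Prime → r ∣ N → AL N r (W r) ∧ ε r ^ 2 = 1)
    (hε : ∀ r : ℕ, r.Prime → r ∣ N → InvU N U fun z => J (act (W r) z) - ε r * J z) :
    ∃ G u : ℂ → ℂ, Der G u ∧ CW N W (fun r => ε r / r) u ∧ InvU N U fun z => (G z).re - J z := by
  have key : ∀ s : Finset ℕ, (∀ r ∈ s, r.Prime ∧ r ∣ N) → ∃ G u : ℂ → ℂ, Der G u ∧ Mk N 2 u ∧
      Cu u ∧ (InvU N U fun z => (G z).re - J z) ∧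
      ∀ r ∈ s, ∀ z : ℂ, 0 < z.im → sk 2 (W r) u z = ε r / r * u z := fun s => by
    induction s using Finset.induction_on with
    | empty =>
      intro _
      obtain ⟨G, u, h1, h2, h3, h4⟩ := hJ.exists_der hN hU
      exact ⟨G, u, h1, h2, h3, h4, fun _ h => absurd h (Finset.notMem_empty _)⟩
    | insert r s hrs ih =>
      intro hs
      obtain ⟨G, u, h1, h2, h3, h4, h5⟩ := ih fun r h => hs r (Finset.mem_insert_of_mem h)
      obtain ⟨hr, hrN⟩ := hs r (Finset.mem_insert_self _ _)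
      obtain ⟨a1, a2⟩ := hW r hr hrN
      have n1 := pj_nrm a1 hr hrN
      have r0 : (r : ℂ) ≠ 0 := Nat.cast_ne_zero.2 hr.ne_zero
      have a3 : (ε r : ℂ) ^ 2 = 1 := by exact_mod_cast a2
      have lin : ∀ (g : MZ) (z : ℂ), sk 2 g (fun z => 2⁻¹ * u z + 2⁻¹ * ε r * r * sk 2 (W r) u z) z
          = 2⁻¹ * sk 2 g u z + 2⁻¹ * ε r * r * sk 2 g (sk 2 (W r) u) z := fun g z => by
        simp only [sk.eq_1 2 g]
        ring
      refine ⟨fun z => 2⁻¹ * G z + 2⁻¹ * ε r * G (act (W r) z),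
        fun z => 2⁻¹ * u z + 2⁻¹ * ε r * r * sk 2 (W r) u z, fun z hz => ?_,
        (h2.smul _).add ((h2.nrm n1).smul _), (h3.smul _).add ((h3.sk2 n1.pos).smul _),
        fun g hg z hz => ?_, fun t ht z hz => ?_⟩
      · convert! ((h1 z hz).const_mul 2⁻¹).fun_add ((h1.act n1.pos z hz).const_mul (2⁻¹ * ε r : ℂ))
          using 1
        rw [a1.det]
        push_cast
        ring
      · have e1 := h4 g hg z hz
        have e2 := h4.nrm hU n1 g hg z hz
        have e3 := hε r hr hrN g hg z hz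
        have e4 : (ε r : ℝ) ^ 2 = 1 := by exact_mod_cast a2
        have e5 : ∀ x y : ℂ, (2⁻¹ * x + 2⁻¹ * ε r * y).re = 2⁻¹ * x.re + 2⁻¹ * ε r * y.re :=
          fun x y => by simp
        dsimp only at e1 e2 e3 ⊢
        rw [e5, e5]
        linear_combination 2⁻¹ * e1 + 2⁻¹ * ε r * e2 + 2⁻¹ * ε r * e3 +
          2⁻¹ * (J (act g z) - J z) * e4
      · rw [lin]
        rcases Finset.mem_insert.1 ht with rfl | ht
        · obtain ⟨M, rfl⟩ := hrN
          rw [mul_comm t M] at a1 h2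
          rw [a1.sq hr.ne_zero h2 hz]
          field_simp
          linear_combination (-(t : ℂ) * sk 2 (W t) u z) * a3
        · obtain ⟨ht1, ht2⟩ := hs t (Finset.mem_insert_of_mem ht)
          have c : t.Coprime r := (Nat.coprime_primes ht1 hr).2 fun e => hrs (e ▸ ht)
          obtain ⟨M, rfl⟩ := c.mul_dvd_of_dvd_of_dvd ht2 hrN
          have b1 := (hW t ht1 ht2).1
          rw [mul_comm _ M] at a1 b1 h2
          rw [b1.comm a1 (mul_ne_zero ht1.ne_zero hr.ne_zero) h2 hz, h5 t ht z hz,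
            sk_congr n1.pos (h5 t ht) hz]
          simp only [sk]
          ring
  obtain ⟨G, u, h1, h2, h3, h4, h5⟩ := key N.primeFactors fun r h =>
    ⟨Nat.prime_of_mem_primeFactors h, Nat.dvd_of_mem_primeFactors h⟩
  exact ⟨G, u, h1, ⟨h2, h3, fun r hr h => h5 r (Nat.mem_primeFactors.2 ⟨hr, h, hN⟩)⟩, h4⟩

end Pool.Agent.B5
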