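import Pool.Agent.Lib.MP_696deb_nt.B5.K2
import Pool.Agent.Lib.MP_696deb_nt.B5.AL
import Pool.Agent.Lib.MP_696deb_nt.B5.RWb

/-! Expressions as modular forms, a checker, and the two cusps of prime level. -/

set_option autoImplicit false

open PowerSeries Filter Topology Complex Finset
open scoped Real

namespace Pool.Agent.B5

open Pool.Agent.Lib.MP_696deb_nt Pool.Agent.B4.GE

/-- The function of an expression. -/
noncomputable def E.fn : E → (ℕ → ℂ → ℂ) → ℂ → ℂ
  | v i, F => F i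
  | c a, _ => fun _ => a
  | x j, _ => fun z => q1 z ^ j
  | add a b, F => fun z => a.fn F z + b.fn F z
  | mul a b, F => fun z => a.fn F z * b.fn F z
  | pw a k, F => fun z => a.fn F z ^ k
  | lt i a b, F => b.fn (upd F i (a.fn F))

/-- The weight of an expression. -/
def E.wt (w : ℕ → ℕ) : E → ℕ
  | v i => w i
  | add a _ => a.wt w
  | mul a b => a.wt w + b.wt w
  | pw a k => a.wt w * k
  | _ => 0

/-- Homogeneous expressions. -/
def E.ok (w : ℕ → ℕ) : E → Bool
  | v _ => true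
  | c _ => true
  | add a b => a.ok w && b.ok w && a.wt w == b.wt w
  | mul a b => a.ok w && b.ok w
  | pw a _ => a.ok w
  | _ => false

variable {N p k n t μ : ℕ} {w : ℕ → ℕ} {F F' : ℕ → ℂ → ℂ} {S : ℕ → ℤ⟦X⟧} {G G' : ℂ → ℂ} {z : ℂ}
  {g : MZ}

theorem toC_C (a : ℤ) : toC (C a) = C (a : ℂ) := by simp

theorem E.qe (e : E) : ∀ (F : ℕ → ℂ → ℂ) (S : ℕ → ℤ⟦X⟧), (∀ i, QE (F i) (toC (S i))) →
    QE (e.fn F) (toC (e.ser S)) := by
  induction e with
  | v i => exact fun F S h => h i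
  | c a => exact fun F S _ => toC_C a ▸ QE.const _
  | x j => exact fun F S _ => by simpa [E.ser, E.fn] using QE.q.pow j
  | add a b ia ib => exact fun F S h => by simpa [E.ser, E.fn] using (ia F S h).add (ib F S h)
  | mul a b ia ib => exact fun F S h => by simpa [E.ser, E.fn] using (ia F S h).mul (ib F S h)
  | pw a k ia => exact fun F S h => by simpa [E.ser, E.fn] using (ia F S h).pow k
  | lt j a b ia ib =>
    refine fun F S h => ib _ _ fun i => ?_
    rw [upd, upd]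
    split_ifs
    exacts [ia F S h, h _]

theorem E.mk (h : ∀ i, Mk N (w i) (F i)) (e : E) (he : e.ok w = true) :
    Mk N (e.wt w) (e.fn F) := by
  induction e with
  | v i => exact h i
  | c a => exact Mk.const N a
  | x j => simp [E.ok] at he
  | add a b ia ib =>
    simp only [E.ok, Bool.and_eq_true, beq_iff_eq] at he
    exact (ia he.1.1).add (he.2 ▸ ib he.1.2)
  | mul a b ia ib =>
    simp only [E.ok, Bool.and_eq_true] at he
    exact (ia he.1).mul (ib he.2)
  | pw a k ia => exact (ia he).pow k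
  | lt j a b ia ib => simp [E.ok] at he

theorem E.hom {u y : ℂ} (h : ∀ i, F i u = y ^ w i * F' i z) (e : E) (he : e.ok w = true) :
    e.fn F u = y ^ e.wt w * e.fn F' z := by
  induction e with
  | v i => exact h i
  | c a => simp [E.fn, E.wt]
  | x j => simp [E.ok] at he
  | add a b ia ib =>
    simp only [E.ok, Bool.and_eq_true, beq_iff_eq] at he
    simp only [E.fn, E.wt, ia he.1.1, ib he.1.2, he.2, mul_add]
  | mul a b ia ib =>
    simp only [E.ok, Bool.and_eq_true] at he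
    simp only [E.fn, E.wt, ia he.1, ib he.2]
    ring
  | pw a k ia => simp only [E.fn, E.wt, ia he, mul_pow, pow_mul]
  | lt j a b ia ib => simp [E.ok] at he

/-- An identity between modular forms follows from the first coefficients. -/
theorem E.ident (hN : Idx N μ) (h : ∀ i, Mk N (w i) (F i)) (h' : ∀ i, QE (F i) (toC (S i))) (e : E)
    (he : e.ok w = true) (hn : e.wt w * μ < 12 * n) (h0 : X ^ n ∣ e.ser S) (hz : 0 < z.im) :
    e.fn F z = 0 :=
  (e.mk h he).sturm hN (e.qe F S h') hn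
    (fun i hi => by rw [coeff_map, X_pow_dvd_iff.1 h0 i hi, map_zero]) hz

/-- Evaluation of the first values before the call. -/
def memo (f : ℕ → ℕ) : ℕ → (ℕ → ℕ) → ((ℕ → ℕ) → Bool) → Bool
  | 0, ρ, k => k ρ
  | r + 1, ρ, k => st (f r) fun y => memo f r (upd ρ r y) k

theorem memo_eq (f : ℕ → ℕ) (r : ℕ) (k : (ℕ → ℕ) → Bool) : memo f r f k = k f := by
  induction r with
  | zero => rfl
  | succ r ih =>
    rw [memo, st_eq, show upd f r (f r) = f from funext fun j => by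
      rw [upd]; split_ifs with h <;> simp [h], ih]

/-- The check of a congruence, with given approximations of the series. -/
def chkF (n B r : ℕ) (d : ℕ → E) (e : E) : Bool :=
  st (2 ^ B) fun t => st (t ^ n) fun m =>
    memo (fun i => (d i).bd fun _ => 0) r (fun i => (d i).bd fun _ => 0) fun β =>
      decide (e.bd β * 4 ^ n < t) &&
        memo (fun i => (d i).val n t m fun _ => 0) r (fun i => (d i).val n t m fun _ => 0) fun ρ =>
          e.val n t m ρ == 0

theorem chkF_dvd {B r : ℕ} {d : ℕ → E} {e : E} (H : ∀ i, X ^ n ∣ S i - (d i).ser fun _ => 0)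
    (h : chkF n B r d e = true) : X ^ n ∣ e.ser S := by
  simp only [chkF, st_eq, memo_eq, Bool.and_eq_true, decide_eq_true_eq, beq_iff_eq] at h
  have ht : 2 ^ B ≠ 0 := by positivity
  refine Rv.dvd ?_ (wn_bd e _ _ fun i => ?_) h.1
  · rw [← h.2]
    exact rv_val ht e _ _ fun i => (rv_val ht _ _ _ fun _ => Rv.zero).congr (H i)
  · refine le_trans (le_of_eq (sum_congr rfl fun j hj => ?_))
      (wn_bd (n := n) (d i) (fun _ => 0) _ fun _ => by simp [wn])
    have := X_pow_dvd_iff.1 (H i) j (mem_range.1 hj)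
    rw [map_sub, sub_eq_zero] at this
    rw [this]

theorem idx_prime (hp : p.Prime) : Idx p (p + 1) := by
  have := Fact.mk hp
  have e : Option (ZMod p) ≃ Fin (p + 1) := Fintype.equivFinOfCardEq (by simp)
  refine ⟨fun g => e (idx (g 1 0) (g 1 1)), fun g h k => ?_⟩
  rw [← ZMod.intCast_zmod_eq_zero_iff_dvd]
  push_cast
  exact sub_eq_zero.2 (idx_eq (e.injective k))

theorem WN_pos (hN : N ≠ 0) (hz : 0 < z.im) : 0 < (-1 / (N * z)).im :=
  act_WN N z ▸ act_pos (by rw [det_WN]; exact_mod_cast Nat.pos_of_ne_zero hN) hz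

/-- Every cusp is equivalent to one of two. -/
theorem Iw.two (hp : p.Prime) (hG : Iw p k G)
    (hW : ∀ z : ℂ, 0 < z.im → G (-1 / (p * z)) = z ^ k * G' z) (hg : g.det = 1) :
    ∃ H, (H = G ∨ H = G') ∧ ∃ (r : ℝ) (t u : ℂ), 0 < r ∧
      ∀ z : ℂ, 0 < z.im → sk k g G z = u * H (r * z + t) := by
  by_cases h : (p : ℤ) ∣ g 1 0
  · refine ⟨G, .inl rfl, 1, 0, 1, one_pos, fun z hz => ?_⟩
    rw [sk, hG g ⟨hg, h⟩ z hz, mul_div_cancel_left₀ _ (pow_ne_zero _ (mh_den hg hz))]
    simp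
  obtain ⟨t, ht⟩ := mh_solve hp (x := g 1 1) (y := g 1 0) fun k => absurd k h
  have p0 : (p : ℂ) ≠ 0 := by exact_mod_cast hp.ne_zero
  have p1 : (0 : ℝ) < (p : ℝ)⁻¹ := inv_pos.2 (by exact_mod_cast hp.pos)
  refine ⟨G', .inr rfl, (p : ℝ)⁻¹, (p : ℝ)⁻¹ * t, (p : ℂ)⁻¹ ^ k, p1, fun z hz => ?_⟩
  have h1 : 0 < (z + t).im := by simpa using hz
  have h2 := hW ((p : ℝ)⁻¹ * (z + t)) (by simpa using mul_pos p1 hz)
  have h3 := q2_ne h1
  rw [← hG.shift (h := !![0, -1; 1, 0]) (t := t) hg (by simp) (by simpa using ht) hz, sk, ← mul_add,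
    ofReal_inv]
  rw [ofReal_inv, ofReal_natCast, mul_inv_cancel_left₀ p0] at h2
  simp only [act_of, mob, den, Int.cast_zero, Int.cast_one, Int.cast_neg, zero_mul, zero_add,
    one_mul, add_zero, Matrix.of_apply, Matrix.cons_val', Matrix.cons_val_zero, Matrix.cons_val_one,
    Matrix.cons_val_fin_one, h2, ofReal_natCast, mul_pow]
  field_simp

theorem Iw.mk2 (hp : p.Prime) (hG : Iw p k G) (h0 : Hol G)
    (hW : ∀ z : ℂ, 0 < z.im → G (-1 / (p * z)) = z ^ k * G' z) (h1 : Bdd G) (h2 : Bdd G') :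
    Mk p k G := ⟨h0, hG, fun g hg => by
  obtain ⟨H, hH, r, t, u, hr, e⟩ := hG.two hp hW hg
  have : Bdd H := by rcases hH with rfl | rfl <;> assumption
  exact ((Bdd.const u).mul (this.comp_affine hr t)).congr e⟩

theorem Iw.cu2 (hp : p.Prime) (hG : Iw p 2 G)
    (hW : ∀ z : ℂ, 0 < z.im → G (-1 / (p * z)) = z ^ 2 * G' z) (h1 : Tendsto G atI (𝓝 0))
    (h2 : Tendsto G' atI (𝓝 0)) : Cu G := fun g hg => by
  obtain ⟨H, hH, r, t, u, hr, e⟩ := hG.two hp hW hg
  have : Tendsto H atI (𝓝 0) := by rcases hH with rfl | rfl <;> assumption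
  have := (this.comp (tendsto_affine hr t)).const_mul u
  rw [mul_zero] at this
  exact this.congr' (ev_pos.mono fun z hz => (e z hz).symm)

theorem Mk.fricke (hN : N ≠ 0) (hG : Mk N k G)
    (hW : ∀ z : ℂ, 0 < z.im → G (-1 / (N * z)) = z ^ k * G' z) : Mk N k G' :=
  ((hG.nrm (nrm_fricke hN)).smul (N ^ k)).congr fun z hz => by
    have := q2_ne hz
    have n0 : (N : ℂ) ≠ 0 := by exact_mod_cast hN
    rw [sk, ← WN, act_WN, den_WN, hW z hz, mul_pow]
    field_simp

/-- The Wronskian. -/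
noncomputable def Wr (A B : ℂ → ℂ) (z : ℂ) : ℂ :=
  (deriv A z * B z - A z * deriv B z) / (2 * π * I)

variable {A B : ℂ → ℂ}

theorem qe_Wr {a b : ℂ⟦X⟧} (hA : QE A a) (hB : QE B b) :
    QE (Wr A B) (X * (d⁄dX ℂ a * b - a * d⁄dX ℂ b)) := by
  obtain ⟨A₁, a1, a2⟩ := hA.hasDerivAt
  obtain ⟨B₁, b1, b2⟩ := hB.hasDerivAt
  rw [mul_sub, ← mul_assoc, mul_left_comm X a]
  refine ((a1.mul hB).sub (hA.mul b1)).congr fun z hz => ?_
  have := ofReal_ne_zero.2 Real.pi_ne_zero
  rw [Wr, (a2 z hz).deriv, (b2 z hz).deriv]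
  field_simp

theorem Wr_sk (hA : Hol A) (hB : Hol B) (hg : 0 < g.det) (hz : 0 < z.im) :
    Wr (sk k g A) (sk k g B) z = g.det * sk (2 * k + 2) g (Wr A B) z := by
  have d0 := den_ne' hg.ne' hz
  have h1 := (hol_den g z hz).hasDerivAt.pow k
  have k1 := (((hA _ (act_pos hg hz)).hasDerivAt.comp z (md_act hg hz)).div h1
    (pow_ne_zero _ d0)).deriv
  have k2 := (((hB _ (act_pos hg hz)).hasDerivAt.comp z (md_act hg hz)).div h1
    (pow_ne_zero _ d0)).deriv
  have := ofReal_ne_zero.2 Real.pi_ne_zero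
  rw [Wr, show sk k g A = A ∘ act g / den g ^ k from rfl, show sk k g B = B ∘ act g / den g ^ k
    from rfl, k1, k2]
  simp only [sk, Wr, Pi.div_apply, Pi.pow_apply, Function.comp_apply]
  field_simp
  ring

theorem Wr_congr {A' B' : ℂ → ℂ} (hA : ∀ z : ℂ, 0 < z.im → A z = A' z)
    (hB : ∀ z : ℂ, 0 < z.im → B z = B' z) (hz : 0 < z.im) : Wr A B z = Wr A' B' z := by
  have := (isOpen_lt continuous_const continuous_im).mem_nhds hz
  rw [Wr, Wr, hA z hz, hB z hz, EventuallyEq.deriv_eq (mem_of_superset this hA),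
    EventuallyEq.deriv_eq (mem_of_superset this hB)]

theorem Mk.wr (hN : N ≠ 0) (hA : Mk N k A) (hB : Mk N k B) : Mk N (2 * k + 2) (Wr A B) := by
  obtain ⟨a, ha⟩ := hA.qe
  obtain ⟨b, hb⟩ := hB.qe
  refine ⟨(qe_Wr ha hb).hol, fun g hg z hz => ?_, fun g hg => ?_⟩
  · have := Wr_sk (k := k) hA.hol hB.hol (hg.1 ▸ one_pos) hz
    rw [Wr_congr (fun z => hA.sk_eq hg) (fun z => hB.sk_eq hg) hz, hg.1, Int.cast_one, one_mul, sk,
      eq_div_iff (pow_ne_zero _ (mh_den hg.1 hz))] at this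
    rw [← this, mul_comm]
  · obtain ⟨a, ha⟩ := hA.qe_cusp hN hg
    obtain ⟨b, hb⟩ := hB.qe_cusp hN hg
    have g0 : 0 < g.det := hg ▸ one_pos
    have n0 : (0 : ℝ) < N := by exact_mod_cast Nat.pos_of_ne_zero hN
    have n1 : (N : ℂ) ≠ 0 := by exact_mod_cast hN
    have u0 : 0 < (ut N 0 1).det := by simpa [det_ut] using Nat.pos_of_ne_zero hN
    refine ((Bdd.const (N : ℂ)⁻¹).mul ((qe_Wr ha hb).bdd.comp_affine (inv_pos.2 n0) 0)).congr
      fun z hz => ?_
    have h1 : 0 < (((N : ℝ)⁻¹ : ℝ) * z + 0 : ℂ).im := by simpa using mul_pos (inv_pos.2 n0) hz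
    have h2 := Wr_sk (k := k) (hol_sk (k := k) hA.hol g0) (hol_sk (k := k) hB.hol g0) u0 h1
    rw [funext (sk_V N _), funext (sk_V N _), sk_V, Wr_sk hA.hol hB.hol g0 (im_V hN h1), hg] at h2
    rw [h2, det_ut]
    simp [n1, sk]

end Pool.Agent.B5
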