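import Pool.Agent.Lib.MP_696deb_nt.B5.PL0

/-! The basic forms of prime level. -/

set_option autoImplicit false

open PowerSeries Filter Topology Complex Finset
open scoped Real

namespace Pool.Agent.B5

open Pool.Agent.Lib.MP_696deb_nt Pool.Agent.B4.GE

/-- Products of even powers of eta functions. -/
noncomputable def Et (p x y : ℕ) (z : ℂ) : ℂ := eta2 z ^ x * eta2 (p * z) ^ y

/-- The expansion without the leading power. -/
noncomputable def EtS (p x y : ℕ) : ℤ⟦X⟧ := ex 1 P1 ^ (2 * x) * ex p P1 ^ (2 * y)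

/-- The order at infinity. -/
def oj (p i : ℕ) : ℕ := (i / 32 + p * (i % 32)) / 12

/-- The number `i = 32 x + y` is the code of a product with trivial multiplier. -/
def ad (p i : ℕ) : Bool := i / 32 < 32 && (i / 32 + i % 32) % 2 == 0 &&
  (i / 32 + p * (i % 32)) % 12 == 0 && (i % 32 + p * (i / 32)) % 12 == 0

/-- The code with exchanged exponents. -/
def sw (i : ℕ) : ℕ := 32 * (i % 32) + i / 32

/-- The factor in the action of the involution. -/
def cw (p i : ℕ) : ℤ := (-1) ^ ((i / 32 + i % 32) / 2) * p ^ (i / 32)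

/-- The weights. -/
def bw (i : ℕ) : ℕ :=
  if i = 1 ∨ i = 4 then 2 else if i = 2 ∨ i = 3 ∨ i = 5 then 4 else if i = 6 then 10 else
    i / 32 + i % 32

/-- The basic forms. -/
noncomputable def bF (p : ℕ) (G : ℕ → ℂ → ℂ) (i : ℕ) : ℂ → ℂ :=
  if i = 1 then El p 1 ⟨-1, 1, 0, 0⟩ else if i = 2 then E4 else if i = 3 then fun z => E4 (p * z)
  else if ad p i then Et p (i / 32) (i % 32) else G i

/-- Their expansions. -/
noncomputable def bS (p : ℕ) (T : ℕ → ℤ⟦X⟧) (i : ℕ) : ℤ⟦X⟧ :=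
  if i = 1 then ES p 1 ⟨-1, 1, 0, 0⟩ else if i = 2 then E4s else if i = 3 then ex p E4s
  else if ad p i then X ^ oj p i * EtS p (i / 32) (i % 32) else T i

/-- Partial sums of cubes of divisors. -/
def s3 (i : ℕ) : ℕ → ℕ
  | 0 => 0
  | k + 1 => if i % (k + 1) = 0 then s3 i k + (k + 1) ^ 3 else s3 i k

/-- The coefficients of the Eisenstein series of weight four. -/
def e4 (i : ℕ) : ℤ := if i = 0 then 1 else 240 * s3 i i

/-- Approximations of the expansions. -/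
def bD (p n : ℕ) (d : ℕ → E) (i : ℕ) : E :=
  if i = 1 then .add (.c (p - 1)) (.add (.mul (.c 24) (cE (fun i => sgA i i) 1 n))
    (.mul (.c (-24 * p)) (cE (fun i => sgA i i) p (n / p + 1))))
  else if i = 2 then cE e4 1 n else if i = 3 then cE e4 p (n / p + 1)
  else if ad p i then .mul (.x (oj p i))
    (.mul (.pw (pE 1 9) (2 * (i / 32))) (.pw (pE p 9) (2 * (i % 32)))) else d i

/-- The images under the involution. -/
def bW (p i : ℕ) : E :=
  if i = 1 then .mul (.c (-p)) (.v 1) else if i = 2 then .mul (.c (p ^ 4)) (.v 3)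
  else if i = 3 then .v 2 else if ad p i then .mul (.c (cw p i)) (.v (sw i)) else .c 0

/-- Substitution. -/
def E.sb (σ : ℕ → E) : E → E
  | v i => σ i
  | add a b => add (a.sb σ) (b.sb σ)
  | mul a b => mul (a.sb σ) (b.sb σ)
  | pw a k => pw (a.sb σ) k
  | e => e

variable {p i n x y L : ℕ} {z : ℂ} {G : ℕ → ℂ → ℂ} {T : ℕ → ℤ⟦X⟧} {d : ℕ → E}

theorem E.fn_sb {w : ℕ → ℕ} (σ : ℕ → E) (e : E) (he : e.ok w = true) :
    (e.sb σ).fn G z = e.fn (fun i => (σ i).fn G) z := by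
  induction e with
  | v i => rfl
  | c a => rfl
  | x j => rfl
  | add a b ia ib =>
    simp only [E.ok, Bool.and_eq_true] at he
    simp only [E.sb, E.fn, ia he.1.1, ib he.1.2]
  | mul a b ia ib =>
    simp only [E.ok, Bool.and_eq_true] at he
    simp only [E.sb, E.fn, ia he.1, ib he.2]
  | pw a k ia => simp only [E.sb, E.fn, ia he]
  | lt j a b ia ib => simp [E.ok] at he

theorem Et_eq (z : ℂ) : Et p x y z = uq p 1 ⟨x, y, 0, 0⟩ z := by simp [Et, uq]

theorem Et_ne (hp : p ≠ 0) (hz : 0 < z.im) : Et p x y z ≠ 0 :=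
  Et_eq z ▸ uq_ne hp one_ne_zero _ hz

theorem ad_iff : ad p i = true ↔ i / 32 < 32 ∧ (i / 32 + i % 32) % 2 = 0 ∧
    (i / 32 + p * (i % 32)) % 12 = 0 ∧ (i % 32 + p * (i / 32)) % 12 = 0 := by
  simp [ad, and_assoc]

theorem ad_ne (h : ad p i = true) : i = 0 ∨ 11 < i := by
  obtain ⟨-, -, -, h⟩ := ad_iff.1 h
  rcases Nat.lt_or_ge i 12 with k | k
  · rw [Nat.div_eq_of_lt (by omega : i < 32), mul_zero, Nat.mod_eq_of_lt (by omega : i < 32)] at h
    omega
  · omega

theorem sw_div (h : ad p i = true) : sw i / 32 = i % 32 := by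
  have := (ad_iff.1 h).1
  rw [sw]; omega

theorem sw_mod (h : ad p i = true) : sw i % 32 = i / 32 := by
  have := (ad_iff.1 h).1
  rw [sw]; omega

theorem ad_sw (h : ad p i = true) : ad p (sw i) = true := by
  rw [ad_iff, sw_div h, sw_mod h]
  have := ad_iff.1 h
  omega

theorem bw_ad (h : ad p i = true) : bw i = i / 32 + i % 32 := by
  have := ad_ne h
  rw [bw, if_neg (by omega), if_neg (by omega), if_neg (by omega)]

theorem bF_ad (h : ad p i = true) : bF p G i = Et p (i / 32) (i % 32) := by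
  have := ad_ne h
  rw [bF, if_neg (by omega), if_neg (by omega), if_neg (by omega), if_pos h]

theorem bS_ad (h : ad p i = true) : bS p T i = X ^ oj p i * EtS p (i / 32) (i % 32) := by
  have := ad_ne h
  rw [bS, if_neg (by omega), if_neg (by omega), if_neg (by omega), if_pos h]

theorem bW_ad (h : ad p i = true) : bW p i = .mul (.c (cw p i)) (.v (sw i)) := by
  have := ad_ne h
  rw [bW, if_neg (by omega), if_neg (by omega), if_neg (by omega), if_pos h]

theorem oj_eq (h : ad p i = true) :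
    12 * (oj p i : ℤ) = (i / 32 : ℕ) + p * (i % 32 : ℕ) := by
  have := (ad_iff.1 h).2.2.1
  exact_mod_cast (by rw [oj]; omega : 12 * oj p i = i / 32 + p * (i % 32))

theorem qe_Et (hp : p ≠ 0) (h : ad p i = true) :
    QE (Et p (i / 32) (i % 32)) (toC (X ^ oj p i * EtS p (i / 32) (i % 32))) := by
  have := qe_uq hp one_ne_zero (s := ⟨(i / 32 : ℕ), (i % 32 : ℕ), 0, 0⟩) (M := 0) (j := oj p i)
    (by simp only [V4.o1, oj_eq h]; simp)
  simp only [uS, zp, Int.toNat_natCast, Int.toNat_neg_natCast, neg_zero, Int.toNat_zero, pow_zero,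
    mul_one, one_mul, ← pow_mul] at this
  exact this.congr fun z _ => Et_eq z

theorem Et_W (hp : p ≠ 0) (h : ad p i = true) (hz : 0 < z.im) :
    Et p (i / 32) (i % 32) (-1 / (p * z)) =
      z ^ (i / 32 + i % 32) * (cw p i * Et p (i % 32) (i / 32) z) := by
  obtain ⟨k, hk⟩ := Nat.even_iff.2 (ad_iff.1 h).2.1
  have p0 : (p : ℂ) ≠ 0 := Nat.cast_ne_zero.2 hp
  have := q2_ne hz
  rw [Et, Et, eta2_S (q1_pos hp hz), show p * (-1 / (p * z)) = -1 / z by field_simp, eta2_S hz, cw,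
    show (i / 32 + i % 32) / 2 = k by omega]
  push_cast
  rw [← I_sq, ← neg_sq, ← pow_mul, two_mul, ← hk]
  ring

theorem iw_Et (hp : p ≠ 0) (h : ad p i = true) :
    Iw p (i / 32 + i % 32) (Et p (i / 32) (i % 32)) := fun g hg z hz => by
  obtain ⟨-, h1, h2, h3⟩ := ad_iff.1 h
  rw [Et_eq, Et_eq]
  refine uq_act hp one_ne_zero (Nat.even_iff.2 h1) ⟨by simp [V4.wt], ?_, ?_⟩
    (by rwa [mul_one]) hz
  · simpa [V4.o1] using Int.natCast_dvd_natCast.2 (Nat.dvd_of_mod_eq_zero h2)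
  · simpa [V4.o1, V4.sN] using Int.natCast_dvd_natCast.2 (Nat.dvd_of_mod_eq_zero h3)

theorem El_W (hp : p ≠ 0) (hz : 0 < z.im) :
    El p 1 ⟨-1, 1, 0, 0⟩ (-1 / (p * z)) = z ^ 2 * (-p * El p 1 ⟨-1, 1, 0, 0⟩ z) := by
  have := El_WN hp one_ne_zero (r := ⟨-1, 1, 0, 0⟩) rfl hz
  rw [act_WN, mul_one] at this
  rw [this]
  simp only [El, V4.sN]
  push_cast
  ring_nf

theorem E4_S (hz : 0 < z.im) : E4 (-1 / z) = z ^ 4 * E4 z := by
  simpa [act_WN, den_WN] using E4_act (g := WN 1) (by simp [det_WN]) hz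

theorem mk_E4 : Mk 1 4 E4 := ⟨qe_E4.hol, fun _ hg _ hz => E4_act hg.1 hz, fun _ hg =>
  qe_E4.bdd.congr fun _ hz => by
    rw [E4_act hg hz, mul_div_cancel_left₀ _ (pow_ne_zero _ (mh_den hg hz))]⟩

theorem bF_qe (hp : p ≠ 0) (h : ∀ i, QE (G i) (toC (T i))) (i : ℕ) :
    QE (bF p G i) (toC (bS p T i)) := by
  rw [bF, bS]
  split_ifs with h1 h2 h3 h4
  exacts [qe_El hp one_ne_zero _, qe_E4, qe_ex qe_E4 hp, qe_Et hp h4, h i]

theorem bF_W (hp : p ≠ 0) (hz : 0 < z.im) (i : ℕ) : bF p (fun _ _ => 0) i (-1 / (p * z)) =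
    z ^ bw i * (bW p i).fn (bF p fun _ _ => 0) z := by
  have p0 : (p : ℂ) ≠ 0 := Nat.cast_ne_zero.2 hp
  have := q2_ne hz
  rw [bF, bW]
  split_ifs with h1 h2 h3 h4
  · simpa [h1, bw, E.fn, bF] using El_W hp hz
  · simp only [h2, bw, E.fn, bF, E4_S (q1_pos hp hz)]
    simp [mul_pow, mul_assoc, mul_left_comm]
  · simp only [h3, bw, E.fn, bF, show p * (-1 / (p * z)) = -1 / z by field_simp, E4_S hz]
    simp
  · simp only [E.fn, bF_ad (ad_sw h4), bw_ad h4, sw_div h4, sw_mod h4, Et_W hp h4 hz]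
  · simp [E.fn]

theorem bF_mk (hp : p.Prime) (h : ∀ i, Mk p (bw i) (G i)) (i : ℕ) : Mk p (bw i) (bF p G i) := by
  have p0 := hp.ne_zero
  rw [bF]
  split_ifs with h1 h2 h3 h4
  · have k := qe_El p0 one_ne_zero ⟨-1, 1, 0, 0⟩
    rw [h1]
    exact Iw.mk2 (k := 2) hp (fun g hg z hz => El_act p0 one_ne_zero rfl (by rwa [mul_one]) hz)
      k.hol (fun z hz => El_W p0 hz) k.bdd ((Bdd.const _).mul k.bdd)
  · rw [h2]
    exact mk_E4.of_dvd (one_dvd _)
  · rw [h3]
    simpa [bw] using mk_E4.V p0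
  · have k := qe_Et p0 (ad_sw h4)
    rw [sw_div h4, sw_mod h4] at k
    rw [bw_ad h4]
    exact (iw_Et p0 h4).mk2 hp (qe_Et p0 h4).hol (fun z hz => Et_W p0 h4 hz) (qe_Et p0 h4).bdd
      ((Bdd.const _).mul k.bdd)
  · exact h i

theorem s3_eq (i k : ℕ) : s3 i k = ∑ j ∈ Ico 1 (k + 1) with j ∣ i, j ^ 3 := by
  induction k with
  | zero => simp [s3]
  | succ k ih =>
    rw [s3, ih, sum_filter, sum_filter, sum_Ico_succ_top (by omega : 1 ≤ k + 1)]
    simp only [Nat.dvd_iff_mod_eq_zero]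
    split_ifs <;> simp

theorem coeff_E4s (i : ℕ) : coeff i E4s = e4 i := by
  rw [E4s, coeff_mk, ArithmeticFunction.sigma_apply, e4, s3_eq, Nat.divisors,
    Ico_add_one_right_eq_Icc]

theorem dvd_mul_sub {A A' B B' : ℤ⟦X⟧} (h : X ^ n ∣ A - A') (k : X ^ n ∣ B - B') :
    X ^ n ∣ A * B - A' * B' := by
  convert dvd_add (h.mul_right B) (k.mul_left A') using 1
  ring

theorem bD_dvd (hp : p ≠ 0) (hn : n ≤ 126) (h : ∀ i, X ^ n ∣ T i - (d i).ser fun _ => 0) (i : ℕ) :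
    X ^ n ∣ bS p T i - (bD p n d i).ser fun _ => 0 := by
  have k := (Nat.lt_mul_div_succ n (Nat.pos_of_ne_zero hp)).le
  rw [bS, bD]
  split_ifs with h1 h2 h3 h4
  · convert dvd_add ((dvd_cE one_ne_zero coeff_Sg (one_mul n).ge fun _ => 0).mul_left (C 24))
      ((dvd_cE hp coeff_Sg k fun _ => 0).mul_left (C (-24 * p : ℤ))) using 1
    simp only [ES, E.ser, V4.o1, ex_one, map_add, map_mul, map_neg, map_sub, map_one, map_zero,
      map_natCast]
    ring
  · simpa only [ex_one] using dvd_cE one_ne_zero coeff_E4s (one_mul n).ge _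
  · exact dvd_cE hp coeff_E4s k _
  · exact dvd_mul_sub (by simp [E.ser]) (dvd_mul_sub
      ((dvd_pE one_ne_zero (by omega) _).trans (sub_dvd_pow_sub_pow _ _ _))
      ((dvd_pE hp (by omega) _).trans (sub_dvd_pow_sub_pow _ _ _)))
  · exact h i

/-- The expansion of a quotient. -/
theorem quo (hp : p ≠ 0) (h : ad p i = true) {H : ℂ → ℂ} {A B : ℤ⟦X⟧} (hH : QE H (toC A))
    (e : X ^ (oj p i + L) ∣ A - bS p T i * B) :
    ∃ R, QE (fun z => H z / Et p (i / 32) (i % 32) z) (toC R) ∧ X ^ L ∣ R - B := by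
  obtain ⟨R, hR⟩ := e
  have k : EtS p (i / 32) (i % 32) * (ex 1 PI ^ (2 * (i / 32)) * ex p PI ^ (2 * (i % 32))) = 1 := by
    rw [EtS, mul_mul_mul_comm, ← mul_pow, ← mul_pow, ex_inv hp, ex_inv one_ne_zero]
    simp
  have k1 := qe_Et hp h
  rw [bS_ad h] at hR
  rw [show A = X ^ oj p i * (EtS p (i / 32) (i % 32) * B + X ^ L * R) by linear_combination hR]
    at hH
  rw [map_mul, map_pow, map_X] at hH k1
  have q0 := fun z => pow_ne_zero (oj p i) (q1_ne z)
  have k2 := hH.of_X_pow_mul.mul (k1.of_X_pow_mul.inv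
    (fun z hz => div_ne_zero (Et_ne hp hz) (q0 z)) (by rw [← map_mul, k, map_one]))
  rw [← map_mul] at k2
  refine ⟨_, k2.congr fun z hz => ?_, R * (ex 1 PI ^ (2 * (i / 32)) * ex p PI ^ (2 * (i % 32))),
    by linear_combination B * k⟩
  rw [← div_eq_mul_inv, div_div_div_cancel_right₀ (q0 z)]

end Pool.Agent.B5
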