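import Pool.Agent.Lib.MP_696deb_nt.B5.PL1

/-! Certificates of modularity in prime level and genus one. -/

set_option autoImplicit false

open PowerSeries Filter Topology Complex Finset
open scoped Real

namespace Pool.Agent.B5

open Pool.Agent.Lib.MP_696deb_nt Pool.Agent.B4.GE

/-- The check of a congruence between basic forms. -/
def ck (p n B : ℕ) (d : ℕ → E) (e : E) : Bool := decide (n ≤ 126) && chkF n B 7 (bD p n d) e

/-- The check of an identity between basic forms. -/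
def idc (p n B : ℕ) (d : ℕ → E) (e : E) : Bool :=
  e.ok bw && decide (e.wt bw * (p + 1) < 12 * n) && ck p n B d e

/-- The additional forms. -/
noncomputable def G2 (D : ℤ) (f A : ℂ → ℂ) (i : ℕ) : ℂ → ℂ :=
  if i = 4 then f else if i = 5 then A else if i = 6 then Wr A fun z => D * f z ^ 2 else fun _ => 0

/-- Their expansions. -/
noncomputable def T2 (D : ℤ) (f A : ℤ⟦X⟧) (i : ℕ) : ℤ⟦X⟧ :=
  if i = 4 then f else if i = 5 then A else if i = 6 then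
    X * (d⁄dX ℤ A * (C D * f ^ 2) - A * d⁄dX ℤ (C D * f ^ 2)) else 0

/-- Approximations. -/
def d2 (D : ℤ) (f A : ℕ → ℤ) (n i : ℕ) : E :=
  if i = 4 then cE f 1 n else if i = 5 then cE A 1 n else if i = 6 then
    .mul (.mul (.c D) (cE f 1 n)) (E.sub (.mul (cE (fun i => i * A i) 1 n) (cE f 1 n))
      (.mul (.mul (.c 2) (cE A 1 n)) (cE (fun i => i * f i) 1 n))) else .c 0

variable {p n B k w : ℕ} {z : ℂ} {G : ℕ → ℂ → ℂ} {T σ : ℕ → ℤ⟦X⟧} {d : ℕ → E} {e : E}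
  {D : ℤ} {f A : ℂ → ℂ} {cs As : ℤ⟦X⟧} {a b : ℕ → ℤ}

theorem ck_dvd (hp : p ≠ 0) (hd : ∀ i, X ^ n ∣ T i - (d i).ser fun _ => 0)
    (h : ck p n B d e = true) : X ^ n ∣ e.ser (bS p T) := by
  simp only [ck, Bool.and_eq_true, decide_eq_true_eq] at h
  exact chkF_dvd (bD_dvd hp h.1 hd) h.2

theorem idc_eq (hp : p.Prime) (hG : ∀ i, Mk p (bw i) (G i)) (hT : ∀ i, QE (G i) (toC (T i)))
    (hd : ∀ i, X ^ n ∣ T i - (d i).ser fun _ => 0) (h : idc p n B d e = true) :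
    (∀ z : ℂ, 0 < z.im → e.fn (bF p G) z = 0) ∧ e.ser (bS p T) = 0 := by
  simp only [idc, Bool.and_eq_true, decide_eq_true_eq] at h
  have k := bF_qe hp.ne_zero hT
  have e1 := fun (z : ℂ) (hz : 0 < z.im) => e.ident (idx_prime hp) (bF_mk hp hG) k h.1.1 h.1.2
    (ck_dvd hp.ne_zero hd h.2) hz
  exact ⟨e1, toC_inj (((e.qe _ _ k).unique (QE.const 0) e1).trans (by simp))⟩

theorem dvd_cE_iff : X ^ n ∣ cs - (cE a 1 n).ser σ ↔ ∀ i < n, coeff i cs = a i := by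
  have := dvd_cE (F := PowerSeries.mk a) one_ne_zero (coeff_mk · _) (one_mul n).ge σ
  rw [ex_one] at this
  rw [← dvd_sub_left this, sub_sub_sub_cancel_right, X_pow_dvd_iff]
  simp only [map_sub, coeff_mk, sub_eq_zero]

theorem dvd_ss (F : ℤ⟦X⟧) : X ^ n ∣ F - F := by simp

theorem mkp_zero : Mk p k fun _ => 0 :=
  ⟨fun _ _ => differentiableAt_const _, by simp, fun _ _ => by simpa using Bdd.const 0⟩

theorem coeff_th (h : ∀ i < n, coeff i cs = a i) : ∀ i < n, coeff i (X * d⁄dX ℤ cs) = i * a i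
  | 0, _ => by simp
  | i + 1, hi => by rw [coeff_succ_X_mul, coeff_derivative, h _ hi, mul_comm, Nat.cast_succ]

theorem G2_mk (hp : p ≠ 0) (hf : Mk p 2 f) (hA : Mk p 4 A) (i : ℕ) : Mk p (bw i) (G2 D f A i) := by
  rw [G2]
  split_ifs with h1 h2 h3
  · exact h1 ▸ hf
  · exact h2 ▸ hA
  · exact h3 ▸ hA.wr hp ((hf.pow 2).smul D)
  · exact mkp_zero

theorem G2_qe (hf : QE f (toC cs)) (hA : QE A (toC As)) (i : ℕ) :
    QE (G2 D f A i) (toC (T2 D cs As i)) := by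
  have hder : ∀ w : ℤ⟦X⟧, toC (d⁄dX ℤ w) = d⁄dX ℂ (toC w) := fun w => by
    ext n
    simp [coeff_derivative]
  rw [G2, T2]
  split_ifs
  · exact hf
  · exact hA
  · simpa only [map_mul toC, map_sub, map_X, hder, map_pow, toC_C] using
      qe_Wr hA ((hf.pow 2).smul D)
  · simpa using QE.const 0

theorem d2_dvd (hf : ∀ i < n, coeff i cs = a i) (hA : ∀ i < n, coeff i As = b i) (i : ℕ) :
    X ^ n ∣ T2 D cs As i - (d2 D a b n i).ser fun _ => 0 := by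
  have h1 := (dvd_cE_iff (σ := fun _ => 0)).2 hf
  have h2 := (dvd_cE_iff (σ := fun _ => 0)).2 hA
  rw [T2, d2]
  split_ifs
  · exact h1
  · exact h2
  · have h3 := (dvd_mul_sub ((dvd_cE_iff (σ := fun _ => 0)).2 (coeff_th hA)) h1).sub
      (dvd_mul_sub (dvd_mul_sub (dvd_ss (C 2)) h2) ((dvd_cE_iff (σ := fun _ => 0)).2 (coeff_th hf)))
    rw [sub_sub_sub_comm] at h3
    convert dvd_mul_sub (dvd_mul_sub (dvd_ss (C D)) h1) h3 using 2
    · simp only [Derivation.leibniz, Derivation.leibniz_pow, derivative_C, smul_eq_mul,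
        nsmul_eq_mul, Nat.cast_ofNat, map_ofNat]
      ring
    · simp only [E.ser, E.ser_sub]
  · simp [E.ser]

theorem Iw.quo (h : Iw p (k + w) f) (h' : Iw p w A) (h0 : ∀ z : ℂ, 0 < z.im → A z ≠ 0) :
    Iw p k fun z => f z / A z := fun g hg z hz => by
  have := mh_den hg.1 hz
  have := h0 z hz
  simp only [h g hg z hz, h' g hg z hz]
  field_simp
  ring

theorem cw_ne (hp : p ≠ 0) (i : ℕ) : (cw p i : ℂ) ≠ 0 := by simp [cw, hp]

/-- A quotient of an expression by an eta product. -/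
theorem quo_W (hp : p.Prime) {i : ℕ} (hi : ad p i = true) (he : e.ok bw = true)
    (hw : e.wt bw = k + bw i) :
    (Iw p k fun z => e.fn (bF p fun _ _ => 0) z / Et p (i / 32) (i % 32) z) ∧ ∀ z : ℂ, 0 < z.im →
      e.fn (bF p fun _ _ => 0) (-1 / (p * z)) / Et p (i / 32) (i % 32) (-1 / (p * z)) = z ^ k *
        ((cw p i : ℂ)⁻¹ * ((e.sb (bW p)).fn (bF p fun _ _ => 0) z / Et p (i % 32) (i / 32) z)) := by
  have p0 := hp.ne_zero
  rw [bw_ad hi] at hw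
  have h := (e.mk (bF_mk hp fun _ => mkp_zero) he).inv
  rw [hw] at h
  refine ⟨Iw.quo h (iw_Et p0 hi) fun _ => Et_ne p0, fun z hz => ?_⟩
  have := q2_ne hz
  have := cw_ne p0 i
  have := Et_ne (x := i % 32) (y := i / 32) p0 hz
  rw [E.hom (bF_W p0 hz) e he, Et_W p0 hi hz, E.fn_sb _ e he, hw, pow_add]
  field_simp

/-- A certificate. -/
structure PC where
  p : ℕ
  a : ℤ
  b : ℤ
  c : ℤ
  K : ℤ
  D : ℤ
  x0 : ℤ
  ef : E
  jf : ℕ
  eA : E
  jA : ℕ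
  L : ℕ
  m : ℕ
  n : ℕ
  B : ℕ
  cl : List ℤ
  al : List ℤ

namespace PC

variable (c : PC)

/-- The coefficients of the newform. -/
def co (i : ℕ) : ℤ := c.cl.getD i 0

/-- The coefficients of the numerator. -/
def ao (i : ℕ) : ℤ := c.D * c.al.getD i 0

/-- The denominator. -/
def eB : E := .mul (.c c.D) (.pw (.v 4) 2)

/-- The finite conditions. -/
def Fin : Prop :=
  c.K ≠ 0 ∧ c.D ≠ 0 ∧ ad c.p c.jf = true ∧ ad c.p c.jA = true ∧ c.ef.ok bw = true ∧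
  c.eA.ok bw = true ∧ c.ef.wt bw = 2 + bw c.jf ∧ c.eA.wt bw = 4 + bw c.jA ∧
  2 * (c.p + 1) < 12 * c.m ∧ 1 < c.L ∧ c.n ≤ c.L ∧ c.co 0 = 0 ∧ c.co 1 = 1 ∧ c.ao 0 = c.D ∧
  ∀ l < c.m, l.Prime → ∀ n < c.m, l * n < c.L ∧ l < c.L ∧
    c.co (l * n) + (if l ∣ n ∧ ¬ l ∣ c.p then l * c.co (n / l) else 0) = c.co l * c.co n

instance : Decidable c.Fin := by unfold Fin; infer_instance

/-- The check of an identity that involves the newform and the numerator. -/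
def id2 (e : E) : Bool := idc c.p c.n c.B (d2 c.D c.co c.ao c.n) e

/-- The checks. -/
def chk : Bool :=
  ck c.p (oj c.p c.jf + c.L) c.B (fun _ => .c 0)
    (c.ef.sub (.mul (.v c.jf) (.mul (.c c.K) (cE c.co 1 c.L)))) &&
  ck c.p (oj c.p c.jA + c.L) c.B (fun _ => .c 0) (c.eA.sub (.mul (.v c.jA) (cE c.ao 1 c.L))) &&
  ck c.p (oj c.p (sw c.jA) + 3) c.B (fun _ => .c 0) ((c.eA.sb (bW c.p)).sub
    (.mul (.v (sw c.jA)) (.mul (.c (cw c.p c.jA * c.D * c.p ^ 2 * c.x0)) (.x 2)))) &&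
  idc c.p c.n c.B (fun _ => .c 0) (.add (.mul (c.ef.sb (bW c.p)) (.v c.jf))
    (.mul (.c c.p) (.mul c.ef (bW c.p c.jf)))) &&
  c.id2 (E.sub (.pw (.v 6) 2) (.mul (.mul (.pw (.v 4) 2) c.eB) (.add (.add (.add
    (.mul (.c 4) (.pw (.v 5) 3)) (.mul (.mul (.c c.a) (.pw (.v 5) 2)) c.eB))
    (.mul (.mul (.c c.b) (.v 5)) (.pw c.eB 2))) (.mul (.c c.c) (.pw c.eB 3)))))

/-- The properties of the data given by a certificate. -/
structure Gd (R : RW c.p c.a c.b c.c) : Prop where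
  mf : Mk c.p 2 R.f
  mA : Mk c.p 4 R.A
  eB : ∀ z, R.B z = c.D * R.f z ^ 2
  hW : ∀ z : ℂ, 0 < z.im → R.f (-1 / (c.p * z)) = -(c.p * z ^ 2 * R.f z)
  cs : ∀ n < c.L, coeff n R.cs = c.co n
  As : ∀ n < c.L, coeff n R.As = c.ao n
  nL : c.n ≤ c.L
  hT : ∀ l : ℕ, l.Prime → ∀ n, coeff n (tS c.p l R.cs) = coeff l R.cs * coeff n R.cs
  D0 : c.D ≠ 0
  A0 : coeff 0 R.As = c.D
  ode : Ode c.a c.b c.c R.cs R.As (C c.D * R.cs ^ 2)
  lim : Tendsto (fun z => R.x (-1 / (c.p * z))) atI (𝓝 c.x0)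

theorem rw (hp : c.p.Prime) (h1 : c.Fin) (h2 : c.chk = true) : ∃ R, c.Gd R := by
  obtain ⟨K0, D0, af, aA, of, oA, wf, wA, hm, L1, nL, c0, c1, a0, hc⟩ := h1
  simp only [chk, Bool.and_eq_true] at h2
  obtain ⟨⟨⟨⟨k1, k2⟩, k3⟩, k4⟩, k5⟩ := h2
  have p0 := hp.ne_zero
  have p1 : (c.p : ℂ) ≠ 0 := Nat.cast_ne_zero.2 p0
  have K1 : (c.K : ℂ) ≠ 0 := Int.cast_ne_zero.2 K0
  have D1 : (c.D : ℂ) ≠ 0 := Int.cast_ne_zero.2 D0
  have z1 : ∀ n i : ℕ, X ^ n ∣ (fun _ => 0 : ℕ → ℤ⟦X⟧) i - ((fun _ => E.c 0) i).ser fun _ => 0 :=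
    fun n i => by simp [E.ser]
  have z2 : ∀ i : ℕ, QE ((fun _ _ => 0 : ℕ → ℂ → ℂ) i) (toC ((fun _ => 0 : ℕ → ℤ⟦X⟧) i)) :=
    fun i => by simpa using QE.const 0
  have z3 := fun e : E => e.qe _ _ (bF_qe p0 z2)
  replace k1 := ck_dvd p0 (z1 _) k1
  replace k2 := ck_dvd p0 (z1 _) k2
  replace k3 := ck_dvd p0 (z1 _) k3
  replace k4 := (idc_eq hp (fun _ => mkp_zero) z2 (z1 _) k4).1
  simp only [E.ser_sub, E.ser] at k1 k2 k3
  obtain ⟨S, q1, d1⟩ := quo p0 af (z3 _) k1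
  obtain ⟨As, qA, dA⟩ := quo p0 aA (z3 _) k2
  obtain ⟨V, qV, dV⟩ := quo p0 (ad_sw aA) (z3 _) k3
  obtain ⟨i1, w1⟩ := quo_W hp af of wf
  obtain ⟨iA, w2⟩ := quo_W hp aA oA wA
  rw [sw_div aA, sw_mod aA] at qV
  rw [dvd_cE_iff] at dA
  simp only [E.fn, bW_ad af, bF_ad af, bF_ad (ad_sw af), sw_div af, sw_mod af] at k4
  set g := fun z => c.ef.fn (bF c.p fun _ _ => 0) z / Et c.p (c.jf / 32) (c.jf % 32) z with hg
  set A := fun z => c.eA.fn (bF c.p fun _ _ => 0) z / Et c.p (c.jA / 32) (c.jA % 32) z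
  set f := fun z => (c.K : ℂ)⁻¹ * g z with hf
  have s2 : QE f _ := q1.smul (c.K : ℂ)⁻¹
  have s3 : ∀ n < c.L, coeff n (C (c.K : ℂ)⁻¹ * toC S) = c.co n := fun n hn => by
    have := X_pow_dvd_iff.1 d1 n hn
    rw [map_sub, coeff_C_mul, dvd_cE_iff.1 (dvd_ss _) n hn, sub_eq_zero] at this
    rw [coeff_C_mul, coeff_map, this, eq_intCast, Int.cast_mul, inv_mul_cancel_left₀ K1]
  have inv : Iw c.p 2 f := fun γ h z hz => by
    simp only [hf]
    rw [i1 γ h z hz, mul_left_comm]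
  have hW : ∀ z : ℂ, 0 < z.im → f (-1 / (c.p * z)) = z ^ 2 * (-c.p * f z) := fun z hz => by
    have := cw_ne p0 c.jf
    have := Et_ne (x := c.jf % 32) (y := c.jf / 32) p0 hz
    have := Et_ne (x := c.jf / 32) (y := c.jf % 32) p0 hz
    have := q2_ne hz
    simp only [hf, hg, w1 z hz]
    field_simp
    linear_combination (norm := (push_cast; ring1)) k4 z hz
  have t1 : Tendsto f atI (𝓝 0) := by
    have := s2.tendsto
    rwa [s3 0 (by omega), c0, Int.cast_zero] at this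
  have cu := inv.cu2 hp hW t1 (by simpa using t1.const_mul (-c.p : ℂ))
  have mf := inv.mk2 hp s2.hol hW s2.bdd ((Bdd.const _).mul s2.bdd)
  have mA : Mk c.p 4 A := iA.mk2 hp qA.hol w2 qA.bdd ((Bdd.const _).mul qV.bdd)
  obtain ⟨cs, e1, hT⟩ := mult_one_int (idx_prime hp) hm mf s2 K0 (ds := S)
    (by rw [← mul_assoc, ← map_mul, mul_inv_cancel₀ K1, map_one, one_mul]) s3 L1 c0 c1 hc
  rw [e1] at s2 s3
  have s4 : ∀ n < c.L, coeff n cs = c.co n := fun n hn => by simpa using s3 n hn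
  have ode := (idc_eq hp (G2_mk p0 mf mA) (G2_qe s2 qA) (d2_dvd (fun i hi => s4 i (hi.trans_le nL))
    fun i hi => dA i (hi.trans_le nL)) k5).2
  simp only [E.ser_sub, E.ser, eB, bS, T2, ad, sub_eq_zero, map_ofNat] at ode
  replace ode : Ode c.a c.b c.c cs As (C c.D * cs ^ 2) := by simpa [Ode] using ode
  have f0 := (s4 0 (by omega)).trans c0
  have f1 := (s4 1 L1).trans c1
  obtain ⟨u, rfl⟩ := X_dvd_iff.2 ((coeff_zero_eq_constantCoeff_apply cs).symm.trans f0)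
  have u0 := f1
  rw [coeff_succ_X_mul, coeff_zero_eq_constantCoeff_apply] at u0
  have e2 : coeff 0 (C c.D * u ^ 2) = c.D := by simp [u0]
  have e3 : X ^ 2 * (C c.D * u ^ 2) = C c.D * (X * u) ^ 2 := by ring
  have A0 := (dA 0 (by omega)).trans a0
  have qB := (s2.pow 2).smul c.D
  rw [← toC_C, ← map_pow, ← map_mul, ← e3] at qB
  refine ⟨⟨p0, f, A, fun z => c.D * f z ^ 2, X * u, As, C c.D * u ^ 2, s2, f0, f1, inv, cu,
    fun l hl h n => hT_of_tS h (hT l hl n), qA, qB, e2.trans_ne D0, A0.trans e2.symm,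
    fun γ h z hz => ⟨_, pow_ne_zero _ (mh_den h.1 hz), mA.inv γ h z hz, by
      simp only [inv γ h z hz]; ring⟩, e3 ▸ ode⟩, mf, mA, fun _ => rfl, fun z hz => by
      simp only [hW z hz]; ring, s4, dA, nL, hT, D0, A0, ode, ?_⟩
  obtain ⟨V', hV⟩ := dV
  rw [show V = X ^ 2 * (C (cw c.p c.jA * c.D * c.p ^ 2 * c.x0) + X * V') by linear_combination hV,
    map_mul, map_pow, map_X] at qV
  rw [map_mul, map_pow, map_X] at qB
  have := cw_ne p0 c.jA
  have k := (qV.tendsto_div qB (by rwa [coeff_map, e2])).const_mul ((cw c.p c.jA : ℂ) * c.p ^ 2)⁻¹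
  rw [coeff_map, coeff_map, e2, map_add, coeff_zero_X_mul, add_zero, coeff_zero_C] at k
  refine (k.congr' (ev_pos.mono fun z hz => ?_)).trans_eq (congrArg _ ?_)
  · have := q2_ne hz
    simp only [RW.x, hW z hz, A, w2 z hz]
    field_simp
  · simp only [eq_intCast]
    push_cast
    field_simp

end PC

end Pool.Agent.B5
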