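import Pool.Agent.Lib.MP_696deb_nt.B5.PL2

/-! The value of the parametrization at a root of a quadratic form. -/

set_option autoImplicit false

open PowerSeries Filter Topology Complex Finset
open scoped Real

namespace Pool.Agent.B5

open Pool.Agent.Lib.MP_696deb_nt Pool.Agent.B4.GE Pool.Agent.Lib.MP_696deb_nt.Unif
open Pool.Agent.Shared.Weier

variable {N t : ℕ} {a b c : ℤ} {z ω : ℂ} {L : PeriodPair}

/-- An equation for `x` holds on the whole upper half plane. -/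
theorem RW.ext2 (R : RW N a b c) (h : Sw a b c L) {p : ℕ → ℂ → ℂ} (hp : ∀ i, Hol (p i))
    (e : ∀ w, R.Ok w → ∑ i ∈ range (t + 1), p i w * R.x w ^ i = 0) (hz : 0 < z.im) :
    (p t z ≠ 0 → R.F z ∉ L.lattice) ∧ (R.F z ∉ L.lattice →
      ∑ i ∈ range (t + 1), p i z * (L.weierstrassP (R.F z) - a / 12) ^ i = 0) := by
  have cF : Tendsto R.F (𝓝[≠] z) (𝓝 (R.F z)) :=
    (R.dF hz).continuousAt.tendsto.mono_left nhdsWithin_le_nhds
  have cp : ∀ i, Tendsto (p i) (𝓝[≠] z) (𝓝 (p i z)) := fun i =>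
    (hp i z hz).continuousAt.tendsto.mono_left nhdsWithin_le_nhds
  refine ⟨fun h0 m => ?_, fun h1 => ?_⟩
  · have k1 := (tendsto_P L m).comp (tendsto_nhdsWithin_iff.2 ⟨cF, (R.ev_ne hz).mono fun w hw e =>
      (hw.glob h).1 (Set.mem_singleton_iff.1 e ▸ m)⟩)
    have k2 : Tendsto R.x (𝓝[≠] z) (Bornology.cobounded ℂ) :=
      ((tendsto_sub_const_cobounded (a / 12 : ℂ)).comp k1).congr'
        ((R.ev_ne hz).mono fun w hw => (hw.glob h).2.symm)
    have k3 := tendsto_inv₀_cobounded.comp k2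
    have k4 := tendsto_finsetSum (range (t + 1)) fun i _ => (cp i).mul (k3.pow (t - i))
    rw [sum_range_succ, sum_eq_zero fun i hi => by
      rw [zero_pow (by have := mem_range.1 hi; omega), mul_zero], zero_add, Nat.sub_self, pow_zero,
      mul_one] at k4
    refine h0 (tendsto_nhds_unique k4 (tendsto_const_nhds.congr' ?_))
    filter_upwards [R.ev_ne hz, k2.eventually (Bornology.eventually_ne_cobounded 0)] with w hw w0
    refine mul_left_cancel₀ (pow_ne_zero t w0) ?_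
    rw [mul_zero, ← e w hw, mul_sum]
    refine sum_congr rfl fun i hi => ?_
    rw [Function.comp_apply, inv_pow,
      ← pow_sub_mul_pow (R.x w) (Nat.lt_succ_iff.1 (mem_range.1 hi))]
    field_simp
  · have k := ((hasDerivAt_P L h1).continuousAt.tendsto.comp cF).sub_const (a / 12 : ℂ)
    refine tendsto_nhds_unique (tendsto_finsetSum (range (t + 1)) fun i _ =>
      (cp i).mul (k.pow i)) (tendsto_const_nhds.congr' ((R.ev_ne hz).mono fun w hw => ?_))
    simp only [Function.comp_apply, ← (hw.glob h).2, e w hw]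

/-- Homogeneous polynomials in two expressions. -/
def hE (P : ℕ → E) (u v : E) (t : ℕ) : ℕ → E
  | 0 => .mul (P 0) (.mul (.pw u 0) (.pw v t))
  | i + 1 => .add (hE P u v t i) (.mul (P (i + 1)) (.mul (.pw u (i + 1)) (.pw v (t - (i + 1)))))

theorem fn_hE (P : ℕ → E) (u v : E) (F : ℕ → ℂ → ℂ) (i : ℕ) : (hE P u v t i).fn F z =
    ∑ j ∈ range (i + 1), (P j).fn F z * (u.fn F z ^ j * v.fn F z ^ (t - j)) := by
  induction i with
  | zero => simp [hE, E.fn]
  | succ i ih => rw [sum_range_succ, ← ih]; rfl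

/-- Combinations of three expressions. -/
def P3 (u v w : E) (r s l : List ℤ) (i : ℕ) : E :=
  .add (.add (.mul (.c (r.getD i 0)) u) (.mul (.c (s.getD i 0)) v)) (.mul (.c (l.getD i 0)) w)

/-- The value of a polynomial. -/
noncomputable def pv (t : ℕ) (l : List ℤ) (x : ℂ) : ℂ := ∑ i ∈ range (t + 1), l.getD i 0 * x ^ i

/-- Monomials in the basic forms. -/
def mo (t : ℤ × ℕ × ℕ × ℕ × ℕ) : E := .mul (.c t.1) (.mul (.v t.2.1) (.mul (.pw (.v 1) t.2.2.1)
  (.mul (.pw (.v 2) t.2.2.2.1) (.pw (.v 3) t.2.2.2.2))))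

/-- Polynomials in the basic forms. -/
def pl (t : ℤ × ℕ × ℕ × ℕ × ℕ) : List (ℤ × ℕ × ℕ × ℕ × ℕ) → E
  | [] => mo t
  | s :: l => .add (mo s) (pl t l)

theorem eta2_tau (hz : 0 < z.im) (e : N * z ^ 2 + b * z + 1 = 0) :
    eta2 (N * z) = z * (e12 (-b - 3) * eta2 z) := by
  rw [q1_at (u := N * z) (j := z) (v := 1) (-b) (-1) 1 0 (by simp) hz
    (by push_cast; linear_combination e) (by simp), mul_one]
  simp [PsiE]

theorem E4_tau (hz : 0 < z.im) (e : N * z ^ 2 + b * z + 1 = 0) (h : ω * z = -1) :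
    E4 z = ω ^ 4 * E4 (N * z) := by
  have k := E4_act (g := !![-b, -1; 1, 0]) (by simp) hz
  have := q2_ne hz
  rw [show act !![-b, -1; 1, 0] z = N * z by
    simp only [act_of, mob, Int.cast_one, Int.cast_zero, one_mul, add_zero, Int.cast_neg]
    rw [div_eq_iff this]
    linear_combination -e] at k
  rw [k, ← mul_assoc, ← mul_pow, show den !![-b, -1; 1, 0] z = z by simp [den], h]
  ring

theorem Et_tau (hz : 0 < z.im) (e : N * z ^ 2 + b * z + 1 = 0) (h : ω * z = -1) {r : ℕ}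
    (hr : Even r) (h1 : (r : ZMod 12) * (-b - 3) = 0) (x y : ℕ) :
    Et N (x + r) y z = ω ^ r * Et N x (y + r) z := by
  have k : e12 (-b - 3) ^ r = 1 := by rw [← zpow_natCast, e12_zpow, Int.cast_natCast, h1, e12_zero]
  have k1 : ω ^ r * z ^ r = 1 := by rw [← mul_pow, h, hr.neg_one_pow]
  rw [Et, Et, pow_add, pow_add (eta2 (N * z))]
  generalize eta2 (N * z) ^ y = u
  rw [eta2_tau hz e, mul_pow, mul_pow, k]
  linear_combination -(eta2 z ^ x * eta2 z ^ r * u) * k1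

namespace PC

variable {c : PC} {R : RW c.p c.a c.b c.c} (h : c.Gd R) (hp : c.p.Prime) (hs : Sw c.a c.b c.c L)
include h hp hs

theorem Gd.rel {u v w : E} {r s l : List ℤ}
    (k : c.id2 (hE (P3 u v w r s l) (.v 5) c.eB t t) = true) (hz : 0 < z.im) {F : ℕ → ℂ → ℂ}
    (hF : F = bF c.p (G2 c.D R.f R.A)) :
    (r.getD t 0 * u.fn F z + s.getD t 0 * v.fn F z + l.getD t 0 * w.fn F z ≠ 0 →
      R.F z ∉ L.lattice) ∧ (R.F z ∉ L.lattice → ∀ x, x = L.weierstrassP (R.F z) - c.a / 12 →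
      u.fn F z * pv t r x + v.fn F z * pv t s x + w.fn F z * pv t l x = 0) := by
  have q := G2_qe (D := c.D) R.qf R.qA
  have e := (idc_eq hp (G2_mk hp.ne_zero h.mf h.mA) q (d2_dvd
    (fun i hi => h.cs i (hi.trans_le h.nL)) fun i hi => h.As i (hi.trans_le h.nL)) k).1
  have f4 : F 4 = R.f := by simp [hF, bF, G2, ad]
  have f5 : F 5 = R.A := by simp [hF, bF, G2, ad]
  obtain ⟨k1, k2⟩ := R.ext2 hs (t := t) (p := fun i => (P3 u v w r s l i).fn F)
    (fun i => hF ▸ (E.qe _ _ _ (bF_qe hp.ne_zero q)).hol) (fun y hy => by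
      have := e y hy.1
      rw [← hF, fn_hE] at this
      refine mul_left_cancel₀ (pow_ne_zero t hy.2.1) ?_
      rw [mul_zero, ← this, mul_sum]
      refine sum_congr rfl fun i hi => ?_
      have := hy.2.1
      simp only [PC.eB, E.fn, f4, f5, ← h.eB, RW.x, div_pow]
      rw [← pow_sub_mul_pow (R.B y) (Nat.lt_succ_iff.1 (mem_range.1 hi))]
      field_simp) hz
  refine ⟨k1, fun m x hx => ?_⟩
  rw [← k2 m, ← hx]
  simp only [pv, mul_sum, ← sum_add_distrib, P3, E.fn]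
  exact sum_congr rfl fun i _ => by ring

/-- Two equations for the coordinate of the image of a point. -/
theorem Gd.seed {i j m n t' : ℕ} {r₀ r₁ r₂ s q₀ q₁ q₂ q₃ : List ℤ} {U V : ℂ}
    (hi : ad c.p i = true) (hj : ad c.p j = true) (hm : ad c.p m = true)
    (k1 : c.id2 (hE (P3 (.pw (.v i) 2) (.mul (.v i) (.v j)) (.pw (.v j) 2) r₀ r₁ r₂) (.v 5) c.eB t t)
      = true)
    (k2 : c.id2 (hE (P3 (.mul (.v 2) (.v n)) (.mul (.v m) (.v i)) (.mul (.v m) (.v j)) s q₀ q₁) (.v 5)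
      c.eB t' t') = true)
    (k3 : c.id2 (hE (P3 (.mul (.v 3) (.v n)) (.mul (.v m) (.v i)) (.mul (.v m) (.v j)) s q₂ q₃) (.v 5)
      c.eB t' t') = true) (hz : 0 < z.im)
    (hU : Et c.p (j / 32) (j % 32) z = U * Et c.p (i / 32) (i % 32) z)
    (hV : E4 z = V * E4 (c.p * z)) (h0 : r₀.getD t 0 ≠ 0) (h1 : r₁.getD t 0 = 0)
    (h2 : r₂.getD t 0 = 0) : R.F z ∉ L.lattice ∧ ∀ x, x = L.weierstrassP (R.F z) - c.a / 12 →
      pv t r₀ x + U * pv t r₁ x + U ^ 2 * pv t r₂ x = 0 ∧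
      pv t' q₀ x + U * pv t' q₁ x = V * (pv t' q₂ x + U * pv t' q₃ x) := by
  have i0 := Et_ne (x := i / 32) (y := i % 32) hp.ne_zero hz
  have m0 := Et_ne (x := m / 32) (y := m % 32) hp.ne_zero hz
  obtain ⟨e0, e1⟩ := h.rel hp hs k1 hz rfl
  have e2 := (h.rel hp hs k2 hz rfl).2
  have e3 := (h.rel hp hs k3 hz rfl).2
  have f2 : bF c.p (G2 c.D R.f R.A) 2 z = V * bF c.p (G2 c.D R.f R.A) 3 z := by simpa [bF] using hV
  simp only [E.fn, bF_ad hi, bF_ad hj, bF_ad hm, hU, f2, h1, h2, Int.cast_zero, zero_mul,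
    add_zero] at e0 e1 e2 e3
  have o := e0 (mul_ne_zero (Int.cast_ne_zero.2 h0) (pow_ne_zero 2 i0))
  exact ⟨o, fun x hx => ⟨mul_left_cancel₀ (pow_ne_zero 2 i0) (by linear_combination e1 o x hx),
    mul_left_cancel₀ (mul_ne_zero m0 i0) (by linear_combination e2 o x hx - V * e3 o x hx)⟩⟩

end PC

end Pool.Agent.B5
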