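import Pool.Agent.Lib.MP_696deb_nt.B5.ZFb
import Pool.Agent.Lib.MP_696deb_nt.B5.EXa
import Pool.Agent.Lib.MP_696deb_nt.B5.HA6

/-! Points against points. -/

set_option autoImplicit false

open Filter Topology Set MeasureTheory UpperHalfPlane Metric CongruenceSubgroup
open scoped Classical Real MatrixGroups ComplexConjugate

namespace Pool.Agent.G5

open Pool.Agent.Lib.MP_696deb_nt Pool.Agent.B4.GE Pool.Agent.B5.HA

variable {N : ℕ} {Θ : ℂ → ℂ} {ν : ℂ → ℤ}

theorem Dv.measurable_log (h : Dv Θ ν) : Measurable fun z : ℍ => Real.log ‖Θ z‖ :=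
  (measurable_of_countable_not_continuousAt (f := fun z : ℍ => Θ z) (h.closed.2.mono
    fun z hz e => hz ((h.an z.im_pos e).continuousAt.comp
      UpperHalfPlane.continuous_coe.continuousAt))).norm.log

theorem Dv.locInt_log (h : Dv Θ ν) :
    LocallyIntegrable (fun z : ℍ => Real.log ‖Θ z‖) volume := fun z₀ => by
  obtain ⟨g, h1, h2, h3⟩ := h z₀ z₀.im_pos
  have hc := UpperHalfPlane.continuous_coe.continuousAt (x := z₀)
  have h4 : ContinuousAt (fun u : ℍ => ((u : ℂ) - conj (z₀ : ℂ)) ^ ν z₀ * g u) z₀ :=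
    ((hc.sub continuousAt_const).zpow₀ _ (.inl (sub_conj_ne z₀ z₀.im_pos))).mul
      (h1.continuousAt.comp hc)
  have h5 := mul_ne_zero (zpow_ne_zero (ν z₀) (sub_conj_ne z₀ z₀.im_pos)) h2
  obtain ⟨C, hC⟩ : ∃ C : ℝ, ∀ᶠ u : ℍ in 𝓝 z₀,
      |Real.log ‖((u : ℂ) - conj (z₀ : ℂ)) ^ ν z₀ * g u‖| ≤ C :=
    ⟨_, (h4.norm.log (norm_ne_zero_iff.mpr h5)).abs.eventually (eventually_le_nhds (lt_add_one _))⟩
  have h6 : ∀ᶠ u : ℍ in 𝓝 z₀,
      ‖Real.log ‖Θ u‖‖ ≤ |(ν z₀ : ℝ)| * ‖Real.log ‖bl z₀ u‖‖ + C := by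
    filter_upwards [hc.eventually h3, hC, h4.eventually_ne h5] with u e1 e2 e3
    have e4 : Θ u = bl z₀ u ^ ν z₀ * (((u : ℂ) - conj (z₀ : ℂ)) ^ ν z₀ * g u) := by
      rw [e1, ← mul_assoc, ← mul_zpow, bl, div_mul_cancel₀ _ (sub_conj_ne z₀ u.im_pos)]
    rw [e4, norm_mul]
    by_cases e5 : ‖bl z₀ u ^ ν z₀‖ = 0
    · rw [e5, zero_mul, Real.log_zero, norm_zero]
      exact add_nonneg (by positivity) ((abs_nonneg _).trans e2)
    · rw [Real.log_mul e5 (norm_ne_zero_iff.mpr e3), norm_zpow, Real.log_zpow]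
      exact (abs_add_le _ _).trans (add_le_add (abs_mul _ _).le e2)
  obtain ⟨s, hs, hi⟩ := ((loc_log_bl z₀ z₀).norm.smul |(ν z₀ : ℝ)|).add
    (locallyIntegrable_const (μ := volume) C z₀)
  obtain ⟨t, ht, ho, h0⟩ := _root_.mem_nhds_iff.mp (inter_mem hs h6)
  exact ⟨t, ho.mem_nhds h0, (hi.mono_set fun x hx => (ht hx).1).mono'
    h.measurable_log.aestronglyMeasurable
    (ae_restrict_of_forall_mem ho.measurableSet fun x hx => (ht hx).2)⟩

theorem Grn.tame (h : Grn N ν Θ) : Tame (Gamma0 N) fun z : ℍ => Real.log ‖Θ z‖ := by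
  refine ⟨h.dv.measurable_log, fun γ hγ z => ?_, h.dv.locInt_log, fun g => ?_⟩
  · rw [coe_act]
    exact congrArg Real.log (h.inv _ ((g0_iff γ).mp hγ) _ z.im_pos)
  · obtain ⟨a, ha, h1⟩ := h.cn g.1 g.2
    obtain ⟨Y, hY⟩ := eventually_atTop.mp (eventually_comap.mp
      ((h1.norm.log (norm_ne_zero_iff.mpr ha)).abs.eventually (eventually_le_nhds (lt_add_one _))))
    exact ⟨Y, _, fun z _ hz => by rw [coe_act]; exact hY _ hz z rfl⟩

variable {ι : Type*} {p : ι → ℍ} {c : ι → ℤ}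

/-- The formula of Jensen. -/
theorem Dv.jensen (h : Dv Θ ν) (hν : ∀ z : ℍ, ν z = ∑ᶠ i, if p i = z then c i else 0)
    (g : SL(2, ℝ)) (hz : ∀ i, c i ≠ 0 → p i ≠ g • I) {ρ : ℝ} (hρ : ρ ∈ Ioo (0 : ℝ) 1)
    (hf : {i | c i ≠ 0 ∧ ‖cayInv (g⁻¹ • p i)‖ ≤ ρ}.Finite) :
    HasSum (fun i => (c i : ℝ) * Real.posLog (ρ / ‖cayInv (g⁻¹ • p i)‖))
      (Real.circleAverage
        (fun ζ => Real.log ‖Θ (g • cay ζ : ℍ)‖ - Real.log ‖Θ (g • I : ℍ)‖) 0 ρ) := by
  have hb : ∀ ζ ∈ closedBall (0 : ℂ) |ρ|, ‖ζ‖ ≤ ρ := fun ζ hζ => by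
    rwa [mem_closedBall_zero_iff, abs_of_pos hρ.1] at hζ
  have hm : MeromorphicOn (fun ζ => Θ (g • cay ζ : ℍ)) (closedBall 0 |ρ|) := fun ζ hζ =>
    (h.mo _ (g • cay ζ).im_pos).1.comp_analyticAt (g := fun ζ => ((g • cay ζ : ℍ) : ℂ))
      (analyticAt_smul_cay g ((hb ζ hζ).trans_lt hρ.2))
  have hq : ∀ i, c i ≠ 0 → 0 < ‖cayInv (g⁻¹ • p i)‖ := fun i hi => norm_pos_iff.mpr fun e =>
    hz i hi (by rw [← smul_inv_smul g (p i), ← cay_cayInv (g⁻¹ • _), e, cay_zero])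
  have h0 : ν (g • I : ℍ) = 0 := by
    rw [hν]
    exact finsum_eq_zero_of_forall_eq_zero fun i =>
      ite_eq_right_iff.mpr fun e => of_not_not fun k => hz i k e
  have hd : ∀ u, MeromorphicOn.divisor (fun ζ => Θ (g • cay ζ : ℍ)) (closedBall 0 |ρ|) u =
      ∑ i ∈ hf.toFinset, if cayInv (g⁻¹ • p i) = u then c i else 0 := fun u => by
    by_cases hu : u ∈ closedBall (0 : ℂ) |ρ|
    · have h2 := (hb u hu).trans_lt hρ.2
      have h3 : ∀ i, p i = g • cay u ↔ cayInv (g⁻¹ • p i) = u := fun i =>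
        ⟨fun e => by rw [e, inv_smul_smul, cayInv_cay h2],
          fun e => by rw [← e, cay_cayInv, smul_inv_smul]⟩
      have h8 := (analyticAt_smul (g := (g : GL (Fin 2) ℝ)) (by simp)
        (cay u)).differentiableAt.hasDerivAt
      have h9 := deriv_smul_ne_zero (g := (g : GL (Fin 2) ℝ)) (by simp) (cay u)
      rw [coe_cay h2] at h8 h9
      have h10 : deriv (fun ζ => ((g • cay ζ : ℍ) : ℂ)) u ≠ 0 := by
        rw [show deriv (fun ζ => ((g • cay ζ : ℍ) : ℂ)) u = _ from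
          (h8.comp u (hasDerivAt_cayC h2)).deriv]
        exact mul_ne_zero h9 (div_ne_zero (by simp) (pow_ne_zero _ (one_sub_ne h2)))
      rw [MeromorphicOn.divisor_apply hm hu, show meromorphicOrderAt (fun ζ => Θ (g • cay ζ : ℍ)) u =
        _ from (meromorphicOrderAt_comp_of_deriv_ne_zero (f := Θ) (analyticAt_smul_cay g h2)
          h10).trans (h.mo _ (g • cay u).im_pos).2, WithTop.untop₀_coe, hν,
        finsum_eq_sum_of_support_subset (s := hf.toFinset) _ fun i hi => ?_]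
      · exact Finset.sum_congr rfl fun i _ => if_congr (h3 i) rfl rfl
      · rw [Function.mem_support, ne_eq, ite_eq_right_iff, Classical.not_imp, h3] at hi
        simpa using ⟨hi.2, hi.1 ▸ hb u hu⟩
    · rw [Function.locallyFinsuppWithin.apply_eq_zero_of_notMem _ hu]
      refine (Finset.sum_eq_zero fun i hi => if_neg fun e => hu ?_).symm
      rw [mem_closedBall_zero_iff, abs_of_pos hρ.1, ← e]
      exact (hf.mem_toFinset.mp hi).2
  have ha : AnalyticAt ℂ (fun ζ => Θ (g • cay ζ : ℍ)) 0 :=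
    AnalyticAt.comp (g := Θ) (by rw [cay_zero]; exact h.an (im_pos _) h0)
      (analyticAt_smul_cay g (by simp))
  rw [Real.circleAverage_fun_sub (hm.mono_set sphere_subset_closedBall).circleIntegrable_log_norm
    (circleIntegrable_const _ _ _), Real.circleAverage_const, hm.circleAverage_log_norm hρ.1.ne',
    ha.meromorphicTrailingCoeffAt_of_ne_zero (by rw [cay_zero]; exact (h.ne_iff (im_pos _)).mpr h0),
    cay_zero, add_sub_cancel_right, hd 0, Finset.sum_eq_zero fun i hi => if_neg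
      (norm_pos_iff.mp (hq i (hf.mem_toFinset.mp hi).1)), Int.cast_zero, zero_mul, add_zero]
  simp only [hd, Int.cast_sum, Finset.sum_mul]
  rw [finsum_sum_comm _ _ fun i _ => (finite_singleton (cayInv (g⁻¹ • p i))).subset fun u hu => by
    by_contra e
    exact hu (by simp only [if_neg fun k => e (Eq.symm k), Int.cast_zero, zero_mul])]
  refine (fun h1 h2 => h2 ▸ h1 : ∀ {f : ι → ℝ} {a b : ℝ}, HasSum f a → b = a → HasSum f b)
    (hasSum_sum_of_ne_finset_zero (s := hf.toFinset) fun i hi => ?_)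
    (Finset.sum_congr rfl fun i hi => ?_)
  swap
  · obtain ⟨h1, h2⟩ := hf.mem_toFinset.mp hi
    rw [finsum_eq_single _ (cayInv (g⁻¹ • p i)) fun u e => by
      rw [if_neg e.symm, Int.cast_zero, zero_mul], if_pos rfl, zero_sub, norm_neg,
      Real.posLog_eq_log (by
        rw [abs_of_pos (div_pos hρ.1 (hq i h1)), one_le_div (hq i h1)]; exact h2), div_eq_mul_inv]
  · by_cases h1 : c i = 0
    · rw [h1, Int.cast_zero, zero_mul]
    rw [(Real.posLog_eq_zero_iff _).mpr (by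
      rw [abs_of_pos (div_pos hρ.1 (hq i h1)), div_le_one (hq i h1)]
      exact (not_le.mp fun k => hi (hf.mem_toFinset.mpr ⟨h1, k⟩)).le), mul_zero]

/-- The defect of the averaging operator. -/
theorem Grn.hasSum [Countable ι] [NeZero N] (h : Grn N ν Θ)
    (hν : ∀ z : ℍ, ν z = ∑ᶠ i, if p i = z then c i else 0) {z : ℍ} (hz : ∀ i, c i ≠ 0 → p i ≠ z)
    (hf : ∀ C : ℝ, {i | c i ≠ 0 ∧ Real.cosh (dist z (p i)) ≤ C}.Finite) {ε : ℝ} (hε : 0 < ε)
    (hs : Summable fun i => |(c i : ℝ)| * kerK ε (Real.cosh (dist z (p i)))) :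
    HasSum (fun i => (c i : ℝ) * kerK ε (Real.cosh (dist z (p i))))
      (avg ε (fun v => Real.log ‖Θ v‖) z - Real.log ‖Θ z‖) := by
  obtain ⟨g, rfl⟩ : ∃ g : SL(2, ℝ), g • I = z := ⟨_, toSL2R_smul_I z⟩
  let r : ι → ℝ := fun i => ‖cayInv (g⁻¹ • p i)‖
  have hr : ∀ i, (1 + r i ^ 2) / (1 - r i ^ 2) = Real.cosh (dist (g • I) (p i)) := fun i => by
    rw [← cosh_dist_cay (norm_cayInv_lt _), cay_cayInv, ← dist_smul g, smul_inv_smul]
  have hq : ∀ i, c i ≠ 0 → r i ∈ Ioo (0 : ℝ) 1 := fun i hi => ⟨norm_pos_iff.mpr fun e =>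
    hz i hi (by rw [← smul_inv_smul g (p i), ← cay_cayInv (g⁻¹ • _), e, cay_zero]),
    norm_cayInv_lt _⟩
  have h1 : ∀ ρ ∈ Ioo (0 : ℝ) 1, HasSum (fun i => (c i : ℝ) * (nuK ε ρ * Real.posLog (ρ / r i)))
      (nuK ε ρ * Real.circleAverage
        (fun ζ => Real.log ‖Θ (g • cay ζ : ℍ)‖ - Real.log ‖Θ (g • I : ℍ)‖) 0 ρ) := fun ρ hρ => by
    simp only [mul_left_comm _ (nuK ε ρ)]
    refine (h.dv.jensen hν g hz hρ ((hf ((1 + ρ ^ 2) / (1 - ρ ^ 2))).subset fun i hi =>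
      ⟨hi.1, ?_⟩)).mul_left _
    have h10 : r i ^ 2 ≤ ρ ^ 2 := pow_le_pow_left₀ (norm_nonneg _) hi.2 2
    rw [← hr]
    gcongr
    nlinarith [hρ.1, hρ.2]
  have h2 := hasSum_integral_of_summable_integral_norm (μ := volume.restrict (Ioo (0 : ℝ) 1))
    (F := fun i ρ => (c i : ℝ) * (nuK ε ρ * Real.posLog (ρ / r i))) (fun i => by
      by_cases k : c i = 0
      · simp [k]
      · exact (integral_nuK_posLog hε (hq i k)).1.const_mul _) (hs.congr fun i => by
      by_cases k : c i = 0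
      · simp [k]
      simp only [Real.norm_eq_abs, abs_mul (c i : ℝ), integral_const_mul]
      rw [setIntegral_congr_fun measurableSet_Ioo fun ρ hρ =>
        abs_of_nonneg (mul_nonneg (nuK_nonneg hε hρ) Real.posLog_nonneg),
        (integral_nuK_posLog hε (hq i k)).2, hr])
  have h4 := h.tame.integrable hε (g • I)
  have h5 : avg ε (fun v => Real.log ‖Θ v‖) (g • I) - Real.log ‖Θ (g • I : ℍ)‖ =
      avg ε (fun v => Real.log ‖Θ v‖ - Real.log ‖Θ (g • I : ℍ)‖) (g • I) := by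
    simp only [avg, mul_sub]
    rw [integral_sub h4 ((integrable_akr hε _).mul_const _), integral_mul_const, integral_akr hε,
      one_mul]
  rw [h5, avg_smul, avg_polar (u := fun v => Real.log ‖Θ (g • v : ℍ)‖ - Real.log ‖Θ (g • I : ℍ)‖)
    ((h.tame.meas.comp (continuous_const_smul g).measurable).sub_const _).aestronglyMeasurable
    (integrable_akr_smul (u := fun v => Real.log ‖Θ v‖ - Real.log ‖Θ (g • I : ℍ)‖) g
      (by simp only [mul_sub]; exact h4.sub ((integrable_akr hε _).mul_const _))),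
    setIntegral_congr_fun measurableSet_Ioo fun ρ hρ => (h1 ρ hρ).tsum_eq.symm]
  convert! h2 using 2 with i
  by_cases k : c i = 0
  · simp [k]
  rw [integral_const_mul, (integral_nuK_posLog hε (hq i k)).2, hr]

variable {w : Fm → ℤ} {e : ℤ}

theorem pp_cosh {R : Fm} (hD : fdisc R < 0) (hR : 0 < R.1) (z : ℍ) :
    Real.cosh (dist z (ofComplex (froot R))) = fside R z / z.im / √(-fdisc R : ℝ) := by
  rw [cosh_dist, ← coe_im, ← cosh_froot hD hR (im_pos _), ← coe_im (ofComplex _),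
    ofComplex_apply_of_im_pos (im_froot_pos hD hR), dist_eq_norm, Complex.normSq_eq_norm_sq]

theorem Wt.pp_fin (hw : Wt N w e) (he : e < 0) (hp : ∀ R, w R ≠ 0 → 0 < R.1) (z : ℍ) (C : ℝ) :
    {R | w R ≠ 0 ∧ Real.cosh (dist z (ofComplex (froot R))) ≤ C}.Finite := by
  have hs : 0 < √(-e : ℝ) := Real.sqrt_pos.mpr (by exact_mod_cast neg_pos.mpr he)
  refine (finite_side e z.im_pos (C * √(-e : ℝ) * z.im)).subset fun R hR =>
    ⟨hw.disc R hR.1, (hp R hR.1).ne', ?_⟩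
  have h3 := Real.cosh_pos (dist z (ofComplex (froot R)))
  have h4 := hR.2
  rw [pp_cosh (hw.disc R hR.1 ▸ he) (hp R hR.1), hw.disc R hR.1] at h3 h4
  rw [div_le_iff₀ hs, div_le_iff₀ (im_pos _)] at h4
  rwa [abs_of_pos ((div_pos_iff_of_pos_right (im_pos _)).mp
    ((div_pos_iff_of_pos_right hs).mp h3))]

theorem Wt.pp_sum (hw : Wt N w e) (he : e < 0) (hp : ∀ R, w R ≠ 0 → 0 < R.1) (z : ℍ) {ε : ℝ}
    (hε : 0 < ε) :
    Summable fun R => |(w R : ℝ)| * kerK ε (Real.cosh (dist z (ofComplex (froot R)))) := by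
  have hs : 0 < √(-e : ℝ) := Real.sqrt_pos.mpr (by exact_mod_cast neg_pos.mpr he)
  obtain ⟨C, hC⟩ := kerK_le hε
  refine ((hw.summable_side (fun R h => (hp R h).ne') z.im_pos hε
    (mul_pos z.im_pos hs)).mul_left C).of_norm_bounded_eventually ?_
  filter_upwards [(hw.pp_fin he hp z 2).compl_mem_cofinite] with R hR
  by_cases h : w R = 0
  · simp [h]
  have h3 : 2 < Real.cosh (dist z (ofComplex (froot R))) := not_le.mp fun h4 => hR ⟨h, h4⟩
  rw [pp_cosh (hw.disc R h ▸ he) (hp R h), hw.disc R h] at h3 ⊢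
  rw [Real.norm_eq_abs, abs_mul, abs_abs, abs_of_nonneg (kerK_nonneg _ _), mul_left_comm,
    ← div_div, abs_of_pos (two_pos.trans h3)]
  exact mul_le_mul_of_nonneg_left (hC _ h3.le) (abs_nonneg _)

theorem Wt.pp_sum' (hw : Wt N w e) (he : e < 0) (hp : ∀ R, w R ≠ 0 → 0 < R.1) (z : ℍ) {ε : ℝ}
    (hε : 0 < ε) :
    Summable fun R => (w R : ℝ) * kerK ε (Real.cosh (dist z (ofComplex (froot R)))) :=
  (hw.pp_sum he hp z hε).of_norm_bounded fun R => by
    rw [Real.norm_eq_abs, abs_mul, abs_of_nonneg (kerK_nonneg _ _)]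

theorem Wt.pp_nu (hw : Wt N w e) (he : e < 0) (hp : ∀ R, w R ≠ 0 → 0 < R.1) (z : ℍ) :
    (Function.support fun R => if ofComplex (froot R) = z then w R else 0).Finite ∧
      nuW w z = ∑ᶠ R, if ofComplex (froot R) = z then w R else 0 := by
  refine ⟨(hw.pp_fin he hp z 1).subset fun R hR => ?_, finsum_congr fun R => ?_⟩
  · rw [Function.mem_support, ne_eq, ite_eq_right_iff, Classical.not_imp] at hR
    exact ⟨hR.2, by rw [hR.1, dist_self, Real.cosh_zero]⟩
  · by_cases h : w R = 0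
    · simp [h]
    rw [ofComplex_apply_of_im_pos (im_froot_pos (hw.disc R h ▸ he) (hp R h))]
    exact if_congr ⟨fun k => UpperHalfPlane.ext k, fun k => k ▸ rfl⟩ rfl rfl

theorem Wt.pp_cnt (hw : Wt N w e) (he : e < 0) (hp : ∀ R, w R ≠ 0 → 0 < R.1) {S : Finset Fm}
    {μ : Fm → ℤ} {D : ℤ} (hS : Pts S μ D) {ε : ℝ} (hε : 0 < ε) :
    HasSum (fun t : ℕ => (cntP S μ w (-t) : ℝ) * kerK ε (t / √(D * e : ℝ)))
      (∑ Q ∈ S, μ Q * ∑' R, (w R : ℝ) *
        kerK ε (Real.cosh (dist (ofComplex (froot Q)) (ofComplex (froot R))))) := by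
  have hD : (0 : ℝ) < -D := by exact_mod_cast neg_pos.mpr hS.neg
  have hD' : (0 : ℝ) < -e := by exact_mod_cast neg_pos.mpr he
  have hsq : √(D * e : ℝ) = √(-D : ℝ) * √(-e : ℝ) := by rw [← Real.sqrt_mul hD.le, neg_mul_neg]
  have hpos : 0 < √(D * e : ℝ) := hsq ▸ mul_pos (Real.sqrt_pos.mpr hD) (Real.sqrt_pos.mpr hD')
  have key : HasSum (fun t : ℤ => (cntP S μ w t : ℝ) * kerK ε (-t / √(D * e : ℝ)))
      (∑ Q ∈ S, μ Q * ∑' R, (w R : ℝ) *
        kerK ε (Real.cosh (dist (ofComplex (froot Q)) (ofComplex (froot R))))) := by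
    simp only [cntP, Int.cast_sum, Int.cast_mul, Finset.sum_mul, mul_assoc]
    refine hasSum_sum fun Q hQ => HasSum.mul_left _ (hasSum_fiber
      (g := fun t => kerK ε (-t / √(D * e : ℝ))) ?_ fun t =>
      (finite_fbil (hS.disc Q hQ ▸ hS.neg) (hS.pos Q hQ) he t).subset fun R hR =>
        ⟨hw.disc R hR.1, hR.2⟩)
    convert! (hw.pp_sum' he hp (ofComplex (froot Q)) hε).hasSum using 2 with R
    by_cases h : w R = 0
    · simp [h]
    rw [pp_cosh (hw.disc R h ▸ he) (hp R h), hw.disc R h, ← coe_im,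
      ofComplex_apply_of_im_pos (im_froot_pos (hS.disc Q hQ ▸ hS.neg) (hS.pos Q hQ)), coe_mk,
      fside_froot (hS.disc Q hQ ▸ hS.neg) (hS.pos Q hQ), hS.disc Q hQ, hsq, div_div]
  convert! key.nat_add_neg using 1
  · funext t
    have : kerK ε (-(t : ℝ) / √(D * e : ℝ)) = 0 := if_neg (not_lt.mpr
      ((div_nonpos_of_nonpos_of_nonneg (by simp) hpos.le).trans zero_le_one))
    simp [this]
  · simp [kerK]

theorem pp_stmt : PPStmt := fun N S μ D w e a Θ hN hS hw h => by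
  have : NeZero N := ⟨hN⟩
  have hp : ∀ m ∈ a.support, ∀ R, w m R ≠ 0 → 0 < R.1 := fun m hm R k => ((hw m hm).2.2 R k).1
  have hz : ∀ Q ∈ S, ((ofComplex (froot Q) : ℍ) : ℂ) = froot Q := fun Q hQ => by
    rw [ofComplex_apply_of_im_pos (im_froot_pos (hS.disc Q hQ ▸ hS.neg) (hS.pos Q hQ))]
  have hex : ∀ R, ∑ m ∈ a.support, a m * w m R ≠ 0 → ∃ m ∈ a.support, w m R ≠ 0 := fun R k =>
    (Finset.exists_ne_zero_of_sum_ne_zero k).imp fun m hm => ⟨hm.1, right_ne_zero_of_mul hm.2⟩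
  have key : ∀ Q ∈ S, μ Q ≠ 0 → ∀ ε : ℝ, 0 < ε → ∑ m ∈ a.support, (a m : ℝ) * ∑' R, (w m R : ℝ) *
      kerK ε (Real.cosh (dist (ofComplex (froot Q)) (ofComplex (froot R)))) =
      avg ε (fun v => Real.log ‖Θ v‖) (ofComplex (froot Q)) - Real.log ‖Θ (froot Q)‖ := by
    intro Q hQ h0 ε hε
    have h1 := h.hasSum (p := fun R => ofComplex (froot R))
      (c := fun R => ∑ m ∈ a.support, a m * w m R) (fun z => by
        simp only [Finsupp.linearCombination_apply, Finsupp.sum, Finset.sum_apply, Pi.smul_apply,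
          smul_eq_mul]
        rw [Finset.sum_congr rfl fun m hm => by
          rw [((hw m hm).2.1.pp_nu (hw m hm).1 (hp m hm) z).2, mul_finsum],
          sum_finsum_comm _ _ fun m hm => ((hw m hm).2.1.pp_nu (hw m hm).1 (hp m hm) z).1.subset
            fun R hR => right_ne_zero_of_mul hR]
        refine finsum_congr fun R => ?_
        split_ifs with k <;> simp [k]) (z := ofComplex (froot Q)) (fun R k e => by
        obtain ⟨m, hm, k⟩ := hex R k
        refine ((hw m hm).2.2 R k).2 Q hQ h0 ?_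
        rw [← hz Q hQ, ← e, ofComplex_apply_of_im_pos
          (im_froot_pos ((hw m hm).2.1.disc R k ▸ (hw m hm).1) (hp m hm R k))])
      (fun C => (a.support.finite_toSet.biUnion fun m hm =>
        (hw m hm).2.1.pp_fin (hw m hm).1 (hp m hm) _ C).subset fun R hR => by
          obtain ⟨m, hm, k⟩ := hex R hR.1
          exact mem_biUnion hm ⟨k, hR.2⟩) hε
      ((summable_sum (s := a.support) fun m hm => ((hw m hm).2.1.pp_sum (hw m hm).1 (hp m hm)
        (ofComplex (froot Q)) hε).mul_left |(a m : ℝ)|).of_nonneg_of_le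
        (fun R => mul_nonneg (abs_nonneg _) (kerK_nonneg _ _)) fun R => by
          simp only [← mul_assoc, ← Finset.sum_mul, ← abs_mul]
          refine mul_le_mul_of_nonneg_right ?_ (kerK_nonneg _ _)
          push_cast
          exact Finset.abs_sum_le_sum_abs _ _)
    rw [hz Q hQ] at h1
    refine HasSum.unique ?_ h1
    convert! hasSum_sum (s := a.support) fun m hm => ((hw m hm).2.1.pp_sum' (hw m hm).1 (hp m hm)
      (ofComplex (froot Q)) hε).hasSum.mul_left (a m : ℝ) using 2 with R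
    push_cast
    simp only [Finset.sum_mul, mul_assoc]
  have h1 := (h.tame.tendsto_sum S (fun Q => (μ Q : ℝ)) (fun Q => ofComplex (froot Q))
    (by exact_mod_cast hS.deg)).sub_const (∑ Q ∈ S, μ Q * Real.log ‖Θ (froot Q)‖)
  rw [zero_sub] at h1
  refine h1.congr' ?_
  filter_upwards [self_mem_nhdsWithin] with ε hε
  rw [Finsupp.sum, Finset.sum_congr (s₁ := a.support) rfl fun m hm => by
    rw [((hw m hm).2.1.pp_cnt (hw m hm).1 (hp m hm) hS hε).tsum_eq, Finset.mul_sum],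
    Finset.sum_comm, ← Finset.sum_sub_distrib]
  refine Finset.sum_congr rfl fun Q hQ => ?_
  by_cases h0 : μ Q = 0
  · simp [h0]
  rw [← mul_sub, ← key Q hQ h0 ε hε, Finset.mul_sum]
  exact Finset.sum_congr rfl fun m _ => mul_left_comm _ _ _

end Pool.Agent.G5
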