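import Pool.Agent.Lib.MP_696deb_nt.B5.MH0

/-! Even eta quotients and Eisenstein series of level `p q`: definitions. -/

set_option autoImplicit false

open PowerSeries Filter Topology

namespace Pool.Agent.B5

open Pool.Agent.Lib.MP_696deb_nt Pool.Agent.B4.GE

/-- Integers attached to the divisors `1, p, q, p q`. -/
structure V4 where
  x : ℤ
  y : ℤ
  z : ℤ
  w : ℤ
  deriving DecidableEq

namespace V4

/-- The weight. -/
def wt (s : V4) : ℤ := s.x + s.y + s.z + s.w

/-- Twelve times the order at infinity. -/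
def o1 (p q : ℕ) (s : V4) : ℤ := s.x + p * s.y + q * s.z + p * q * s.w

/-- The permutation induced by the involution of Fricke. -/
def sN (s : V4) : V4 := ⟨s.w, s.z, s.y, s.x⟩

/-- The permutation induced by the involution at `q`. -/
def sq (s : V4) : V4 := ⟨s.z, s.w, s.x, s.y⟩

/-- Multiples. -/
def sm (c : ℤ) (s : V4) : V4 := ⟨c * s.x, c * s.y, c * s.z, c * s.w⟩

/-- Differences. -/
def sb (s t : V4) : V4 := ⟨s.x - t.x, s.y - t.y, s.z - t.z, s.w - t.w⟩

/-- The conditions for trivial multiplier in weight `k`. -/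
def Adm (p q k : ℕ) (s : V4) : Prop := s.wt = k ∧ 12 ∣ s.o1 p q ∧ 12 ∣ s.sN.o1 p q

/-- The orders at the four cusps are not negative. -/
def Pos (p q : ℕ) (s : V4) : Prop :=
  0 ≤ s.o1 p q ∧ 0 ≤ s.sN.o1 p q ∧ 0 ≤ s.sq.o1 p q ∧ 0 ≤ s.sq.sN.o1 p q

/-- The exponent of the root of unity in the action of the involution at `q`. -/
def eps (p q : ℕ) (a b c d : ℤ) (s : V4) : ZMod 12 :=
  s.x * PsiE a b (p * c) (q * d) + s.y * PsiE a (p * b) c (q * d) +
    s.z * PsiE (q * a) b (p * c) d + s.w * PsiE (q * a) (p * b) c d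

instance (p q k : ℕ) (s : V4) : Decidable (Adm p q k s) := by unfold Adm; infer_instance

instance (p q : ℕ) (s : V4) : Decidable (Pos p q s) := by unfold Pos; infer_instance

end V4

/-- Even eta quotients. -/
noncomputable def uq (p q : ℕ) (s : V4) (z : ℂ) : ℂ :=
  eta2 z ^ s.x * eta2 (p * z) ^ s.y * eta2 (q * z) ^ s.z * eta2 (p * q * z) ^ s.w

/-- Combinations of Eisenstein series of weight two. -/
noncomputable def El (p q : ℕ) (r : V4) (z : ℂ) : ℂ :=
  24 * (r.x * Le z + r.y * (p * Le (p * z)) + r.z * (q * Le (q * z)) +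
    r.w * (p * q * Le (p * q * z)))

/-- The matrix of the involution at `q`. -/
def Wq (p q : ℕ) (a b c d : ℤ) : MZ := !![q * a, b; p * q * c, q * d]

/-- The matrix of the involution of Fricke. -/
def WN (N : ℕ) : MZ := !![0, -1; N, 0]

/-- Substitution of a power of the variable. -/
noncomputable def ex (d : ℕ) (A : ℤ⟦X⟧) : ℤ⟦X⟧ :=
  PowerSeries.mk fun n => if d ∣ n then coeff (n / d) A else 0

/-- The inverse of the series of Euler. -/
noncomputable def PI : ℤ⟦X⟧ := invOfUnit P1 1

/-- Even integral powers of the series of Euler in `X ^ d`. -/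
noncomputable def zp (d : ℕ) (k : ℤ) : ℤ⟦X⟧ :=
  (ex d P1 ^ 2) ^ k.toNat * (ex d PI ^ 2) ^ (-k).toNat

/-- The expansion of an eta quotient without the leading power. -/
noncomputable def uS (p q : ℕ) (s : V4) : ℤ⟦X⟧ :=
  zp 1 s.x * zp p s.y * zp q s.z * zp (p * q) s.w

/-- The expansion of an Eisenstein series. -/
noncomputable def ES (p q : ℕ) (r : V4) : ℤ⟦X⟧ :=
  C (r.o1 p q) - C 24 * (C r.x * Sg + C (r.y * p) * ex p Sg + C (r.z * q) * ex q Sg +
    C (r.w * (p * q)) * ex (p * q) Sg)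

end Pool.Agent.B5
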