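import Pool.Agent.Lib.MP_696deb_nt.B5.Q0

/-! Transformation laws of even eta quotients. -/

set_option autoImplicit false

open PowerSeries Filter Topology Complex
open scoped Real

namespace Pool.Agent.B5

open Pool.Agent.Lib.MP_696deb_nt Pool.Agent.B4.GE

variable {p q k : ℕ} {s r : V4} {z : ℂ} {g : MZ} {a b c d : ℤ}

theorem q1_pos {n : ℕ} (hn : n ≠ 0) (hz : 0 < z.im) : 0 < ((n : ℂ) * z).im := by
  simpa using mul_pos (Nat.cast_pos.2 (Nat.pos_of_ne_zero hn)) hz

theorem q1_pos2 (hp : p ≠ 0) (hq : q ≠ 0) (hz : 0 < z.im) : 0 < ((p : ℂ) * q * z).im := by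
  simpa only [Nat.cast_mul] using q1_pos (mul_ne_zero hp hq) hz

theorem uq_ne (hp : p ≠ 0) (hq : q ≠ 0) (s : V4) (hz : 0 < z.im) : uq p q s z ≠ 0 :=
  mul_ne_zero (mul_ne_zero (mul_ne_zero (zpow_ne_zero _ (eta2_ne hz))
    (zpow_ne_zero _ (eta2_ne (q1_pos hp hz)))) (zpow_ne_zero _ (eta2_ne (q1_pos hq hz))))
    (zpow_ne_zero _ (eta2_ne (q1_pos2 hp hq hz)))

theorem eta2_zpow (w : ℂ) (n : ℤ) : eta2 w ^ n = ModularForm.eta w ^ (2 * n) := by
  rw [eta2, zpow_mul, zpow_ofNat]

theorem hasDerivAt_uq (hp : p ≠ 0) (hq : q ≠ 0) (s : V4) (hz : 0 < z.im) :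
    HasDerivAt (uq p q s) (2 * π * I * (El p q s z / 12) * uq p q s z) z := by
  have h1 := hasDerivAt_eta_zpow 1 (2 * s.x) (z := z) (by simpa using hz)
  simp only [one_mul] at h1
  have h := ((h1.mul (hasDerivAt_eta_zpow p (2 * s.y) (q1_pos hp hz))).mul
    (hasDerivAt_eta_zpow q (2 * s.z) (q1_pos hq hz))).mul
    (hasDerivAt_eta_zpow (p * q) (2 * s.w) (q1_pos2 hp hq hz))
  convert! h using 1
  · ext w
    simp only [uq, eta2_zpow, Pi.mul_apply]
  · simp only [uq, eta2_zpow, El, Pi.mul_apply]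
    push_cast
    ring

theorem El_sm (c : ℤ) (r : V4) (z : ℂ) : El p q (r.sm c) z = c * El p q r z := by
  simp only [El, V4.sm]
  push_cast
  ring

theorem El_sb (r s : V4) (z : ℂ) : El p q (r.sb s) z = El p q r z - El p q s z := by
  simp only [El, V4.sb]
  push_cast
  ring

theorem e12_zpow (x : ZMod 12) (n : ℤ) : e12 x ^ n = e12 (n * x) := by
  rw [e12, e12, ← zsmul_eq_mul, AddChar.map_zsmul_eq_zpow]

theorem q1_four {j x₁ x₂ x₃ x₄ : ℂ} (hj : j ≠ 0) (hs : s.wt = k) :
    (j * x₁) ^ s.x * (j * x₂) ^ s.y * (j * x₃) ^ s.z * (j * x₄) ^ s.w =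
      j ^ k * (x₁ ^ s.x * x₂ ^ s.y * x₃ ^ s.z * x₄ ^ s.w) := by
  rw [← zpow_natCast, ← hs, V4.wt, zpow_add₀ hj, zpow_add₀ hj, zpow_add₀ hj]
  simp only [mul_zpow]
  ring

theorem q1_at {u w j v : ℂ} (a b c d : ℤ) (h : a * d - b * c = 1) (hw : 0 < w.im)
    (hu : u * (c * w + d) = a * w + b) (hj : c * w + d = j * v) :
    eta2 u = j * (e12 (PsiE a b c d) * v * eta2 w) := by
  rw [eq_div_of_mul_eq (den_ne (by rw [h]; exact one_ne_zero) hw) hu, ← mob, eta2_tr a b c d h w hw,
    hj]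
  ring

theorem q1_act (hg : g.det ≠ 0) (hz : 0 < z.im) : act g z * den g z = g 0 0 * z + g 0 1 :=
  div_mul_cancel₀ _ (den_ne' hg hz)

theorem uq_tr (hp : p ≠ 0) (hq : q ≠ 0) (hs : s.wt = k) (h : a * d - b * (p * q * c) = 1)
    (hz : 0 < z.im) : uq p q s (act !![a, b; p * q * c, d] z) =
      e12 (s.x * PsiE a b (p * q * c) d + s.y * PsiE a (p * b) (q * c) d +
        s.z * PsiE a (q * b) (p * c) d + s.w * PsiE a (p * q * b) c d) *
      den !![a, b; p * q * c, d] z ^ k * uq p q s z := by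
  have h0 : Matrix.det !![a, b; p * q * c, d] ≠ 0 := by
    rw [Matrix.det_fin_two_of, h]
    exact one_ne_zero
  have e := q1_act h0 hz
  have j0 := den_ne' h0 hz
  have e' : den !![a, b; p * q * c, d] z = p * q * c * z + d := by simp [den]
  generalize act !![a, b; p * q * c, d] z = u at e
  generalize den !![a, b; p * q * c, d] z = j at e e' j0
  simp only [Matrix.of_apply, Matrix.cons_val', Matrix.cons_val_zero, Matrix.cons_val_one,
    Matrix.cons_val_fin_one] at e
  rw [uq, q1_at (u := u) (j := j) (v := 1) a b (p * q * c) d h hz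
      (by push_cast; linear_combination e - u * e') (by push_cast; linear_combination -e'),
    q1_at (u := p * u) (j := j) (v := 1) a (p * b) (q * c) d (by linear_combination h)
      (q1_pos hp hz) (by push_cast; linear_combination p * e - p * u * e')
      (by push_cast; linear_combination -e'),
    q1_at (u := q * u) (j := j) (v := 1) a (q * b) (p * c) d (by linear_combination h)
      (q1_pos hq hz) (by push_cast; linear_combination q * e - q * u * e')
      (by push_cast; linear_combination -e'),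
    q1_at (u := p * q * u) (j := j) (v := 1) a (p * q * b) c d (by linear_combination h)
      (q1_pos2 hp hq hz) (by push_cast; linear_combination p * q * e - p * q * u * e')
      (by linear_combination -e'), q1_four j0 hs]
  simp only [mul_one, mul_zpow, e12_zpow, e12_add, uq]
  push_cast
  ring

theorem q1_G0 (hg : G0 (p * q) g) : ∃ a b c d : ℤ, a * d - b * (p * q * c) = 1 ∧
    g = !![a, b; p * q * c, d] := by
  obtain ⟨h, c, hc⟩ := hg
  rw [Nat.cast_mul] at hc
  exact ⟨g 0 0, g 0 1, c, g 1 1, by rw [← hc, ← h, Matrix.det_fin_two], by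
    rw [← hc]; exact Matrix.eta_fin_two g⟩

theorem psi_unit : ∀ d : ZMod 12, d * d = 1 → ∀ a b c : ZMod 12, a * d - b * c = 1 →
    PsiE a b c d = d * (b - c) + 3 * (d - 1) := by decide +kernel

theorem psi_shift : ∀ c d : ZMod 12, (∃ a b : ZMod 12, a * d - b * c = 1) →
    ∃ n : ZMod 12, (c * n + d) * (c * n + d) = 1 := by decide +kernel

theorem uq_unit (hp : p ≠ 0) (hq : q ≠ 0) (hk : Even k) (hs : s.Adm p q k)
    (h : a * d - b * (p * q * c) = 1) (hd : (d : ZMod 12) * d = 1) (hz : 0 < z.im) :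
    uq p q s (act !![a, b; p * q * c, d] z) = den !![a, b; p * q * c, d] z ^ k * uq p q s z := by
  have h' : (a : ZMod 12) * d - b * (p * q * c) = 1 := by
    exact_mod_cast congrArg (Int.cast : ℤ → ZMod 12) h
  have h1 := congrArg (Int.cast : ℤ → ZMod 12) hs.1
  have h2 := (ZMod.intCast_zmod_eq_zero_iff_dvd _ 12).2 hs.2.1
  have h3 := (ZMod.intCast_zmod_eq_zero_iff_dvd _ 12).2 hs.2.2
  have h4 : ∀ d : ZMod 12, d * d = 1 → 6 * (d - 1) = 0 := by decide
  obtain ⟨m, rfl⟩ := hk
  simp only [V4.wt, V4.o1, V4.sN] at h1 h2 h3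
  push_cast at h1 h2 h3
  rw [uq_tr hp hq hs.1 h hz, psi_unit _ hd _ _ _ h', psi_unit _ hd _ _ _ (by linear_combination h'),
    psi_unit _ hd _ _ _ (by linear_combination h'), psi_unit _ hd _ _ _ (by linear_combination h'),
    show ∀ x : ZMod 12, x = 0 → e12 x = 1 from fun x hx => hx ▸ e12_zero, one_mul]
  linear_combination (d * b : ZMod 12) * h2 - (d * c : ZMod 12) * h3 + (3 * (d - 1) : ZMod 12) * h1 +
    (m : ZMod 12) * h4 d hd

theorem uq_act (hp : p ≠ 0) (hq : q ≠ 0) (hk : Even k) (hs : s.Adm p q k) (hg : G0 (p * q) g)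
    (hz : 0 < z.im) : uq p q s (act g z) = den g z ^ k * uq p q s z := by
  obtain ⟨a, b, c, d, h, rfl⟩ := q1_G0 hg
  obtain ⟨n, hn⟩ := psi_shift (p * q * c) d ⟨a, b, by
    exact_mod_cast congrArg (Int.cast : ℤ → ZMod 12) h⟩
  obtain ⟨n, rfl⟩ := ZMod.intCast_surjective n
  have h1 := uq_unit hp hq hk hs (a := 1) (b := -n) (c := 0) (d := 1) (by simp) (by simp) hz
  have d1 : Matrix.det !![1, -n; p * q * 0, 1] = (1 : ℤ) := by simp
  have h2 := uq_unit hp hq hk hs (a := a) (b := a * n + b) (c := c) (d := p * q * c * n + d)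
    (by linear_combination h) (by exact_mod_cast hn) (mh_pos d1 hz)
  have e : !![a, a * n + b; p * q * c, p * q * c * n + d] * !![1, -n; p * q * 0, 1] =
      !![a, b; p * q * c, d] := by
    ext i j
    fin_cases i <;> fin_cases j <;> simp [Matrix.mul_apply, Fin.sum_univ_two]
  rw [← e, act_mul _ (d1.trans_ne one_ne_zero) hz, den_mul _ (d1.trans_ne one_ne_zero) hz, h2, h1]
  ring

theorem El_log (hp : p ≠ 0) (hq : q ≠ 0) (hg : 0 < g.det) {κ : ℂ}
    (h : ∀ z : ℂ, 0 < z.im → uq p q r (act g z) = κ * uq p q s z) (hz : 0 < z.im) :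
    g.det * El p q r (act g z) = den g z ^ 2 * El p q s z := by
  have := sl_logDeriv (a := g 0 0) (b := g 0 1) (c := g 1 0) (d := g 1 1)
    (by rwa [← Matrix.det_fin_two]) (fun e => uq_ne hp hq r (act_pos hg hz) (by
      rw [h z hz, e, zero_mul])) (fun _ => hasDerivAt_uq hp hq r) (fun _ => hasDerivAt_uq hp hq s)
    (fun _ => uq_ne hp hq s) h hz
  rw [sl, ← Matrix.det_fin_two, ← den, ← act,
    div_eq_iff (pow_ne_zero 2 (den_ne' hg.ne' hz))] at this
  linear_combination 12 * this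

theorem El_act (hp : p ≠ 0) (hq : q ≠ 0) (hr : r.wt = 0) (hg : G0 (p * q) g) (hz : 0 < z.im) :
    El p q r (act g z) = den g z ^ 2 * El p q r z := by
  have h1 := hg.1
  obtain ⟨a, b, c, d, h, rfl⟩ := q1_G0 hg
  have := El_log hp hq (h1 ▸ one_pos) (fun z hz => by
    rw [uq_tr (k := 0) hp hq hr h hz, pow_zero, mul_one]) hz
  rwa [h1, Int.cast_one, one_mul] at this

theorem act_WN (N : ℕ) (z : ℂ) : act (WN N) z = -1 / (N * z) := by simp [WN, act_of, mob]

theorem uq_WN (hp : p ≠ 0) (hq : q ≠ 0) (hs : s.wt = k) (hz : 0 < z.im) :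
    uq p q s (act (WN (p * q)) z) =
      (-I * z) ^ k * ((p : ℂ) ^ (s.x + s.z) * (q : ℂ) ^ (s.x + s.y)) * uq p q s.sN z := by
  have p0 : (p : ℂ) ≠ 0 := Nat.cast_ne_zero.2 hp
  have q0 : (q : ℂ) ≠ 0 := Nat.cast_ne_zero.2 hq
  have z0 : z ≠ 0 := fun e => by simp [e] at hz
  have e : ∀ {u m : ℂ}, 0 < (m * z).im → u = -1 / (m * z) →
      eta2 u = -I * z * (m * eta2 (m * z)) := fun h e => by rw [e, eta2_S h]; ring
  rw [act_WN, uq, Nat.cast_mul, e (u := -1 / _) (q1_pos2 hp hq hz) rfl,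
    e (u := p * (-1 / _)) (q1_pos hq hz) (by field_simp),
    e (u := q * (-1 / _)) (q1_pos hp hz) (by field_simp),
    e (u := p * q * (-1 / _)) (m := 1) (by simpa using hz) (by field_simp),
    q1_four (mul_ne_zero (neg_ne_zero.2 I_ne_zero) z0) hs]
  simp only [one_mul, mul_zpow, uq, V4.sN, zpow_add₀ p0, zpow_add₀ q0]
  ring

theorem El_WN (hp : p ≠ 0) (hq : q ≠ 0) (hr : r.wt = 0) (hz : 0 < z.im) :
    El p q r (act (WN (p * q)) z) = p * q * z ^ 2 * El p q r.sN z := by
  have d1 : (WN (p * q)).det = p * q := by simp [WN]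
  have := El_log hp hq (g := WN (p * q)) (by rw [d1]; positivity) (fun z hz => by
    rw [uq_WN (k := 0) hp hq hr hz, pow_zero, one_mul]) hz
  rw [d1, show den (WN (p * q)) z = p * q * z by simp [den, WN]] at this
  refine mul_left_cancel₀ (mul_ne_zero (Nat.cast_ne_zero.2 hp) (Nat.cast_ne_zero.2 hq) :
    (p : ℂ) * q ≠ 0) ?_
  push_cast at this
  linear_combination this

theorem det_Wq (h : q * a * d - p * b * c = 1) : (Wq p q a b c d).det = q := by
  rw [Wq, Matrix.det_fin_two_of]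
  linear_combination q * h

theorem uq_Wq (hp : p ≠ 0) (hq : q ≠ 0) (h : q * a * d - p * b * c = 1) (hs : s.wt = k)
    (hz : 0 < z.im) : uq p q s (act (Wq p q a b c d) z) = e12 (s.eps p q a b c d) *
      den (Wq p q a b c d) z ^ k * (q : ℂ) ^ (-(s.z + s.w)) * uq p q s.sq z := by
  have q0 : (q : ℂ) ≠ 0 := Nat.cast_ne_zero.2 hq
  have h0 : (Wq p q a b c d).det ≠ 0 := by
    rw [det_Wq h]
    exact_mod_cast hq
  have e := q1_act h0 hz
  have j0 := den_ne' h0 hz
  have e' : den (Wq p q a b c d) z = p * q * c * z + q * d := by simp [den, Wq]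
  have q1 := mul_inv_cancel₀ q0
  generalize act (Wq p q a b c d) z = u at e
  generalize den (Wq p q a b c d) z = j at e e' j0
  simp only [Wq, Matrix.of_apply, Matrix.cons_val', Matrix.cons_val_zero, Matrix.cons_val_one,
    Matrix.cons_val_fin_one] at e
  push_cast at e
  rw [uq, q1_at (u := u) (j := j) (v := 1) a b (p * c) (q * d) (by linear_combination h)
      (q1_pos hq hz) (by push_cast; linear_combination e - u * e')
      (by push_cast; linear_combination -e'),
    q1_at (u := p * u) (j := j) (v := 1) a (p * b) c (q * d) (by linear_combination h)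
      (q1_pos2 hp hq hz) (by push_cast; linear_combination p * e - p * u * e')
      (by push_cast; linear_combination -e'),
    q1_at (u := q * u) (j := j) (v := (q : ℂ)⁻¹) (q * a) b (p * c) d (by linear_combination h) hz
      (by push_cast; linear_combination e - u * e')
      (by push_cast; linear_combination -(q : ℂ)⁻¹ * e' - (p * c * z + d) * q1),
    q1_at (u := p * q * u) (j := j) (v := (q : ℂ)⁻¹) (q * a) (p * b) c d (by linear_combination h)
      (q1_pos hp hz) (by push_cast; linear_combination p * e - p * u * e')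
      (by linear_combination -(q : ℂ)⁻¹ * e' - (p * c * z + d) * q1), q1_four j0 hs]
  simp only [mul_one, mul_zpow, e12_zpow, e12_add, uq, V4.eps, V4.sq, neg_add, zpow_add₀ q0,
    zpow_neg, inv_zpow]
  push_cast
  ring

theorem El_Wq (hp : p ≠ 0) (hq : q ≠ 0) (h : q * a * d - p * b * c = 1) (hr : r.wt = 0)
    (hz : 0 < z.im) : q * El p q r (act (Wq p q a b c d) z) =
      den (Wq p q a b c d) z ^ 2 * El p q r.sq z := by
  have := El_log hp hq (g := Wq p q a b c d) (by rw [det_Wq h]; positivity) (fun z hz => by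
    rw [uq_Wq (k := 0) hp hq h hr hz, pow_zero, mul_one]) hz
  rwa [det_Wq h, Int.cast_natCast] at this

end Pool.Agent.B5
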