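import Pool.Agent.Lib.MP_696deb_nt.B5.Q1

/-! Expansions of even eta quotients. -/

set_option autoImplicit false

open PowerSeries Filter Topology Complex
open scoped Real

namespace Pool.Agent.B5

open Pool.Agent.Lib.MP_696deb_nt Pool.Agent.B4.GE

variable {p q k : ℕ} {s r : V4} {z : ℂ}

theorem ex_eq {d : ℕ} (hd : d ≠ 0) (A : ℤ⟦X⟧) : ex d A = expand d hd A := by
  ext n
  rw [ex, coeff_mk, coeff_expand]

theorem P1_mul_PI : P1 * PI = 1 := mul_invOfUnit _ _ (by simp [cc_P1])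

theorem qe_ex {F : ℂ → ℂ} {A : ℤ⟦X⟧} (h : QE F (toC A)) {d : ℕ} (hd : d ≠ 0) :
    QE (fun z => F (d * z)) (toC (ex d A)) := by
  rw [ex_eq hd, map_expand]
  exact h.expand d hd

theorem qe_zp {d : ℕ} (hd : d ≠ 0) (n : ℤ) :
    QE (fun z => (eul (q1 (d * z)) ^ 2) ^ n) (toC (zp d n)) := by
  have h1 := qe_P1.inv (B := toC PI) (fun _ => eul_ne) (by rw [← map_mul, P1_mul_PI, map_one])
  rw [zp, map_mul, map_pow, map_pow, map_pow, map_pow]
  refine ((((qe_ex qe_P1 hd).pow 2).pow _).mul (((qe_ex h1 hd).pow 2).pow _)).congr fun z hz => ?_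
  rw [inv_pow, inv_pow, ← zpow_natCast _ n.toNat, ← zpow_natCast _ (-n).toNat, ← div_eq_mul_inv,
    ← zpow_sub₀ (pow_ne_zero 2 (eul_ne (q1_pos hd hz))), Int.toNat_sub_toNat_neg]

theorem qe_uq (hp : p ≠ 0) (hq : q ≠ 0) {M j : ℕ} (h : 12 * (j : ℤ) = 12 * M + s.o1 p q) :
    QE (fun z => q1 z ^ M * uq p q s z) (toC (X ^ j * uS p q s)) := by
  rw [uS, map_mul, map_mul, map_mul, map_mul, map_pow, map_X]
  refine ((QE.q.pow j).mul ((((qe_zp one_ne_zero s.x).mul (qe_zp hp s.y)).mul (qe_zp hq s.z)).mul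
    (qe_zp (mul_ne_zero hp hq) s.w))).congr fun z _ => ?_
  have h' : (12 * j : ℂ) = 12 * M + (s.x + p * s.y + q * s.z + p * q * s.w) := by
    exact_mod_cast h
  have : q1 z ^ j = q1 z ^ M * ((cexp (2 * π * I * z / 24) ^ 2) ^ s.x *
      (cexp (2 * π * I * (p * z) / 24) ^ 2) ^ s.y * (cexp (2 * π * I * (q * z) / 24) ^ 2) ^ s.z *
      (cexp (2 * π * I * (p * q * z) / 24) ^ 2) ^ s.w) := by
    simp only [q1, ← Complex.exp_int_mul, ← Complex.exp_nat_mul, ← Complex.exp_add]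
    congr 1
    push_cast
    linear_combination (2 * π * I * z / 12) * h'
  simp only [this, uq, eta2, eta_eq, mul_pow, mul_zpow, Nat.cast_one, one_mul, Nat.cast_mul]
  ring

theorem qe_El (hp : p ≠ 0) (hq : q ≠ 0) (r : V4) : QE (El p q r) (toC (ES p q r)) := by
  have h1 := ((QE.const (r.o1 p q : ℤ)).sub (((((qe_Le.smul r.x).add
    ((qe_ex qe_Le hp).smul (r.y * p : ℤ))).add ((qe_ex qe_Le hq).smul (r.z * q : ℤ))).add
    ((qe_ex qe_Le (mul_ne_zero hp hq)).smul (r.w * (p * q) : ℤ))).smul (24 : ℤ))).congr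
    (F' := El p q r) fun z _ => by
      simp only [El, V4.o1]
      push_cast
      ring
  simpa only [ES, map_sub, map_add, map_mul toC, map_C, eq_intCast (Int.castRingHom ℂ)] using h1

end Pool.Agent.B5
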