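import Pool.Agent.Lib.MP_696deb_nt.B5.Q2
import Pool.Agent.Lib.MP_696deb_nt.B5.Q4
import Pool.Agent.Lib.MP_696deb_nt.B5.MH2

/-! Certificates of modularity give modular data. -/

set_option autoImplicit false

open PowerSeries Filter Topology

namespace Pool.Agent.B5

open Pool.Agent.Lib.MP_696deb_nt Pool.Agent.B4.GE

section
variable {p q k M K N : ℕ} {T : List (V4 × V4)} {L : List (ℤ × V4)} {z : ℂ} {g : MZ}
  {a b c d : ℤ} {s s0 : V4} {G : ℂ → ℂ}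

theorem q5_zero (N k : ℕ) : Mk N k fun _ => 0 :=
  ⟨fun _ _ => differentiableAt_const 0, fun _ _ _ _ => by simp,
    fun _ _ => by simpa using Bdd.const 0⟩

theorem Mk.cast {k' : ℕ} (h : Mk N k G) (e : k = k') : Mk N k' G := e ▸ h

theorem q5_C (x : ℤ) : toC (C x) = C (x : ℂ) := by rw [map_C, eq_intCast]

theorem e0_cons (t : ℤ × V4) (L : List (ℤ × V4)) (z : ℂ) :
    e0 p q (t :: L) z = t.1 * uq p q t.2 z + e0 p q L z := by simp [e0]

theorem e2_cons (t : V4 × V4) (T : List (V4 × V4)) (z : ℂ) :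
    e2 p q (t :: T) z = uq p q t.1 z * El p q t.2 z + e2 p q T z := by simp [e2]

theorem q5_jj (h : 12 ∣ s.o1 p q) (h0 : 0 ≤ 12 * M + s.o1 p q) :
    12 * (jj p q M s : ℤ) = 12 * M + s.o1 p q := by
  rw [jj]
  omega

theorem qe_e0 (hp : p ≠ 0) (hq : q ≠ 0) (h : ∀ t ∈ L, 12 ∣ t.2.o1 p q ∧ 0 ≤ t.2.o1 p q) :
    QE (e0 p q L) (toC (S0 p q L)) := by
  induction L with
  | nil => simpa [S0] using (QE.const 0).congr (F' := e0 p q []) fun z _ => by simp [e0]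
  | cons t L ih =>
    obtain ⟨h1, h2⟩ := List.forall_mem_cons.1 h
    have := ((qe_uq hp hq (q5_jj (M := 0) h1.1 (by simpa using h1.2))).smul t.1).add (ih h2)
    rw [← q5_C, ← map_mul, ← map_add] at this
    exact this.congr fun z _ => by rw [e0_cons, pow_zero, one_mul]

theorem qe_e2 (hp : p ≠ 0) (hq : q ≠ 0)
    (h : ∀ t ∈ T, 12 ∣ t.1.o1 p q ∧ 0 ≤ 12 * M + t.1.o1 p q) :
    QE (fun z => q1 z ^ M * e2 p q T z) (toC (S2 p q M T)) := by
  induction T with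
  | nil => simpa [S2, e2] using QE.const 0
  | cons t T ih =>
    obtain ⟨h1, h2⟩ := List.forall_mem_cons.1 h
    have := ((qe_uq hp hq (q5_jj h1.1 h1.2)).mul (qe_El hp hq t.2)).add (ih h2)
    rw [← map_mul, ← map_add] at this
    exact this.congr fun z _ => by rw [e2_cons, mul_add, mul_assoc]

theorem e2_act (hp : p ≠ 0) (hq : q ≠ 0) (h : ∀ t ∈ T, t.1.Adm p q 0 ∧ t.2.wt = 0)
    (hg : G0 (p * q) g) (hz : 0 < z.im) : e2 p q T (act g z) = den g z ^ 2 * e2 p q T z := by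
  induction T with
  | nil => simp [e2]
  | cons t T ih =>
    obtain ⟨h1, h2⟩ := List.forall_mem_cons.1 h
    rw [e2_cons, e2_cons, ih h2, uq_act hp hq Even.zero h1.1 hg hz, El_act hp hq h1.2 hg hz]
    ring

theorem q5_pow {r : ℕ} (hr : r ≠ 0) {x : ℤ} (h : 0 ≤ K + x) :
    (r : ℂ) ^ (K + x).toNat = r ^ K * (r : ℂ) ^ x := by
  rw [← zpow_natCast, Int.toNat_of_nonneg h, zpow_add₀ (by exact_mod_cast hr), zpow_natCast]

theorem q5_kN (hp : p ≠ 0) (hq : q ≠ 0) (h1 : 0 ≤ K + s.x + s.z) (h2 : 0 ≤ K + s.x + s.y) :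
    (kN p q K s : ℂ) = (p * q) ^ K * ((p : ℂ) ^ (s.x + s.z) * (q : ℂ) ^ (s.x + s.y)) := by
  rw [add_assoc] at h1 h2
  rw [kN, add_assoc, add_assoc]
  push_cast
  rw [q5_pow hp h1, q5_pow hq h2]
  ring

theorem e2_WN (hp : p ≠ 0) (hq : q ≠ 0) (h : ∀ t ∈ T, t.1.wt = 0 ∧ t.2.wt = 0 ∧
    0 ≤ K + t.1.x + t.1.z ∧ 0 ≤ K + t.1.x + t.1.y) (hz : 0 < z.im) :
    (p * q) ^ K * e2 p q T (act (WN (p * q)) z) = p * q * z ^ 2 * e2 p q (tN2 p q K T) z := by
  induction T with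
  | nil => simp [e2, tN2]
  | cons t T ih =>
    obtain ⟨h1, h2⟩ := List.forall_mem_cons.1 h
    rw [tN2, List.map_cons, e2_cons, e2_cons, mul_add, ih h2, uq_WN hp hq (k := 0) h1.1 hz,
      El_WN hp hq h1.2.1 hz, El_sm, q5_kN hp hq h1.2.2.1 h1.2.2.2, tN2]
    ring

theorem e0_WN (hp : p ≠ 0) (hq : q ≠ 0) (h : Ok0 p q k K L) (hz : 0 < z.im) :
    (p * q) ^ K * e0 p q L (act (WN (p * q)) z) =
      (-Complex.I * z) ^ k * e0 p q (tN0 p q K L) z := by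
  induction L with
  | nil => simp [e0, tN0]
  | cons t L ih =>
    obtain ⟨h1, h2⟩ := List.forall_mem_cons.1 h
    rw [tN0, List.map_cons, e0_cons, e0_cons, mul_add, ih h2, uq_WN hp hq h1.1.1 hz,
      Int.cast_mul, q5_kN hp hq h1.2.2.1 h1.2.2.2, tN0]
    ring

theorem e2_sm (x : ℤ) (T : List (V4 × V4)) (z : ℂ) :
    e2 p q (T.map fun t => (t.1, t.2.sm x)) z = x * e2 p q T z := by
  induction T with
  | nil => simp [e2]
  | cons t T ih =>
    rw [List.map_cons, e2_cons, e2_cons, ih, El_sm]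
    ring

theorem e2_Wq (hp : p ≠ 0) (hq : q ≠ 0) (e : q * a * d - p * b * c = 1)
    (h : Ok2 p q M K a b c d T) (hz : 0 < z.im) :
    q ^ (K + 1) * e2 p q T (act (Wq p q a b c d) z) =
      den (Wq p q a b c d) z ^ 2 * e2 p q (tq2 p q K a b c d T) z := by
  induction T with
  | nil => simp [e2, tq2]
  | cons t T ih =>
    obtain ⟨h1, h2⟩ := List.forall_mem_cons.1 h
    have h3 : (kq p q K a b c d t.1 : ℂ) =
        e12 (t.1.eps p q a b c d) * (q ^ K * (q : ℂ) ^ (-(t.1.z + t.1.w))) := by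
      have h4 : (K : ℤ) - t.1.z - t.1.w = K + -(t.1.z + t.1.w) := by ring
      rw [kq, h4, Int.cast_mul, Int.cast_pow, Int.cast_natCast,
        q5_pow hq (h4 ▸ h1.2.2.2.2.2.2.2.2)]
      rcases h1.2.2.2.2.2.1 with h5 | h5
      · rw [if_pos h5, h5, e12_zero, Int.cast_one]
      · rw [if_neg (by rw [h5]; decide), h5, e12_six, Int.cast_neg, Int.cast_one]
    rw [tq2, List.map_cons, e2_cons, e2_cons, mul_add, ih h2, uq_Wq hp hq e (k := 0) h1.1.1 hz,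
      El_sm, h3, tq2]
    linear_combination e12 (t.1.eps p q a b c d) * (q ^ K * (q : ℂ) ^ (-(t.1.z + t.1.w))) *
      uq p q t.1.sq z * El_Wq hp hq e h1.2.1 hz

theorem mk_e0 (hp : p.Prime) (hq : q.Prime) (hne : p ≠ q) (hk : Even k) (h : Ok0 p q k K L) :
    Mk (p * q) k (e0 p q L) := by
  induction L with
  | nil => exact (q5_zero _ _).congr fun z _ => by simp [e0]
  | cons t L ih =>
    obtain ⟨h1, h2⟩ := List.forall_mem_cons.1 h
    exact (((mk_uq hp hq hne hk h1.1 h1.2.1).smul t.1).add (ih h2)).congr fun z _ => e0_cons _ _ _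

theorem mk_dd (hp : p.Prime) (hq : q.Prime) (hne : p ≠ q) (hk : Even k) (h0 : s0.wt = k)
    (h : Ok0 p q k K L) : Mk (p * q) (k + 2) (e2 p q (dd s0 L)) := by
  induction L with
  | nil => exact (q5_zero _ _).congr fun z _ => by simp [e2, dd]
  | cons t L ih =>
    obtain ⟨h1, h2⟩ := List.forall_mem_cons.1 h
    have h3 : ((t.2.sb s0).sm t.1).wt = 0 := by
      have := h1.1.1
      simp only [V4.wt, V4.sb, V4.sm] at *
      linear_combination t.1 * this - t.1 * h0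
    exact (((mk_uq hp hq hne hk h1.1 h1.2.1).mul (mk_El hp hq hne h3)).add (ih h2)).congr
      fun z _ => e2_cons _ _ _

theorem deriv_e0 (hp : p ≠ 0) (hq : q ≠ 0) (s0 : V4) (L : List (ℤ × V4)) (hz : 0 < z.im) :
    HasDerivAt (e0 p q L) (2 * Real.pi * Complex.I *
      ((e2 p q (dd s0 L) z + El p q s0 z * e0 p q L z) / 12)) z := by
  induction L with
  | nil => exact (hasDerivAt_const z (0 : ℂ)).congr_deriv (by simp [e0, e2, dd])
  | cons t L ih =>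
    rw [funext (e0_cons t L)]
    refine (((hasDerivAt_uq hp hq t.2 hz).const_mul (t.1 : ℂ)).add ih).congr_deriv ?_
    rw [dd, dd, List.map_cons, e2_cons, El_sm, El_sb]
    ring

theorem q5_dd (hp : p ≠ 0) (hq : q ≠ 0) (s0 : V4) (h : Ok0 p q k K L) :
    S2 p q 0 (dd s0 L) = 12 * (X * d⁄dX ℤ (S0 p q L)) - ES p q s0 * S0 p q L := by
  have h1 := qe_e0 hp hq (L := L) fun t ht => ⟨(h t ht).1.2.1, (h t ht).2.1.1⟩
  have h2 := qe_e2 hp hq (M := 0) (T := dd s0 L) fun t ht => by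
    obtain ⟨u, hu, rfl⟩ := List.mem_map.1 ht
    exact ⟨(h u hu).1.2.1, by simpa using (h u hu).2.1.1⟩
  obtain ⟨F, h3, h4⟩ := h1.hasDerivAt
  refine toC_inj ((h2.unique (((QE.ofNat 12).mul h3).sub ((qe_El hp hq s0).mul h1))
    fun z hz => ?_).trans ?_)
  · have := mul_left_cancel₀ two_pi_I ((h4 z hz).unique (deriv_e0 hp hq s0 L hz))
    linear_combination -12 * this
  · rw [map_sub, map_mul, map_mul, map_mul, map_X, map_ofNat]
    congr 3
    ext n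
    simp [coeff_derivative]

theorem q5_lim {S : ℤ⟦X⟧} {j : ℕ} (h : QE G (toC (X ^ j * S))) :
    Tendsto (fun z => G z / q1 z ^ j) atI (𝓝 (coeff 0 S : ℤ)) := by
  rw [map_mul, map_pow, map_X] at h
  simpa using h.of_X_pow_mul.tendsto

end

theorem Cert.raw (c : Cert) (hp : c.p.Prime) (hq : c.q.Prime) (hne : c.p ≠ c.q) (h1 : c.Fin)
    (h2 : c.Ser) : ∃ R : Raw (c.p * c.q) c.ea c.eb, coeff 0 R.Bs = c.β ∧
      (∀ n < c.L, coeff n R.cs = c.co n) ∧ ∀ l : ℕ, l.Prime → ∀ n,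
        coeff n (tS (c.p * c.q) l R.cs) = coeff l R.cs * coeff n R.cs := by
  obtain ⟨e, b0, D0, β0, γ0, hk, w0, oT, oA, oB, pm, hm, hn, nL, L1, c0, c1, chk⟩ := h1
  have p0 := hp.ne_zero
  have q0 := hq.ne_zero
  have p1 : (c.p : ℂ) ≠ 0 := by exact_mod_cast p0
  have q1' : (c.q : ℂ) ≠ 0 := by exact_mod_cast q0
  have D1 : (c.D : ℂ) ≠ 0 := Int.cast_ne_zero.2 D0
  obtain ⟨R, hR⟩ := h2.f
  have s1 : QE (e2 c.p c.q c.T) (toC (C c.D * PowerSeries.mk c.co + X ^ c.L * R)) := by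
    have h := qe_e2 p0 q0 (M := c.M) (T := c.T) fun t ht => ⟨(oT t ht).1.2.1, (oT t ht).2.2.1⟩
    rw [show S2 c.p c.q c.M c.T = X ^ c.M * (C c.D * PowerSeries.mk c.co + X ^ c.L * R) by
      linear_combination hR, map_mul, map_pow, map_X] at h
    exact h.of_X_pow_mul.congr fun z _ =>
      (mul_div_cancel_left₀ _ (pow_ne_zero _ (q1_ne z))).symm
  have s2 := s1.smul (c.D : ℂ)⁻¹
  have s3 : ∀ n < c.L, coeff n (C (c.D : ℂ)⁻¹ * toC (C c.D * PowerSeries.mk c.co + X ^ c.L * R)) =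
      c.co n := fun n hn => by
    rw [coeff_C_mul, coeff_map, map_add, coeff_C_mul, coeff_mk, coeff_X_pow_mul', if_neg (by omega),
      add_zero, eq_intCast, Int.cast_mul, inv_mul_cancel_left₀ D1]
  set f : ℂ → ℂ := fun z => (c.D : ℂ)⁻¹ * e2 c.p c.q c.T z with hf
  have inv : ∀ g, G0 (c.p * c.q) g → ∀ z : ℂ, 0 < z.im → f (act g z) = den g z ^ 2 * f z :=
    fun g hg z hz => by
      simp only [hf]
      rw [e2_act p0 q0 (fun t ht => ⟨(oT t ht).1, (oT t ht).2.1⟩) hg hz, mul_left_comm]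
  have hW : ∀ z : ℂ, 0 < z.im → f (act (WN (c.p * c.q)) z) = -(c.p * c.q * z ^ 2 * f z) :=
    fun z hz => by
      have h := e2_WN p0 q0 (K := c.K) (T := c.T) (fun t ht => ⟨(oT t ht).1.1, (oT t ht).2.1,
        (oT t ht).2.2.2.2.2.2.1, (oT t ht).2.2.2.2.2.2.2.1⟩) hz
      rw [e2.eq_1 _ _ (tN2 _ _ _ _), (pm.map _).sum_eq, ← e2, e2_sm] at h
      refine mul_left_cancel₀ (pow_ne_zero c.K (mul_ne_zero p1 q1')) ?_
      push_cast at h
      simp only [hf]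
      linear_combination (c.D : ℂ)⁻¹ * h
  have t1 : Tendsto f atI (𝓝 0) := by
    have := s2.tendsto
    rwa [s3 0 (by omega), c0, Int.cast_zero] at this
  have t2 : Tendsto (sk 2 (Wq c.p c.q c.a c.b c.c c.d) f) atI (𝓝 0) := by
    obtain ⟨S, hS⟩ := h2.fq
    have h := qe_e2 p0 q0 (M := c.M) (T := tq2 c.p c.q c.K c.a c.b c.c c.d c.T) fun t ht => by
      obtain ⟨u, hu, rfl⟩ := List.mem_map.1 ht
      exact ⟨(oT u hu).2.2.2.2.1, (oT u hu).2.2.2.1⟩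
    rw [hS, pow_succ, mul_assoc] at h
    have h3 := (q5_lim h).const_mul ((c.D : ℂ)⁻¹ * ((c.q : ℂ) ^ (c.K + 1))⁻¹)
    rw [coeff_zero_X_mul, Int.cast_zero, mul_zero] at h3
    refine h3.congr' (ev_pos.mono fun z hz => ?_)
    have h4 := den_Wq_ne q0 e hz
    have h5 := e2_Wq p0 q0 e oT hz
    have h6 := q1_ne z
    simp only [sk, hf]
    rw [mul_div_cancel_left₀ _ (pow_ne_zero _ h6), mul_assoc, mul_div_assoc]
    congr 1
    field_simp
    linear_combination -h5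
  have cu := fun g hg => cusp_zero (g := g) hp hq hne e inv hW t1 t2 hg
  have mf : Mk (c.p * c.q) 2 f := ⟨s2.hol, inv, fun g hg => Bdd.of_tendsto (cu g hg)⟩
  obtain ⟨cs, e1, hT⟩ := mult_one_int (idx_pq hp hq hne) hm mf s2 D0
    (ds := C c.D * PowerSeries.mk c.co + X ^ c.L * R)
    (by rw [← mul_assoc, ← map_mul, mul_inv_cancel₀ D1, map_one, one_mul]) s3 L1 c0 c1 chk
  rw [e1] at s2 s3
  have s4 : ∀ n < c.L, coeff n cs = c.co n := fun n hn => by simpa using s3 n hn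
  have mA := mk_e0 hp hq hne hk oA
  have mB := mk_e0 hp hq hne hk oB
  have qA := qe_e0 p0 q0 (L := c.LA) fun t ht => ⟨(oA t ht).1.2.1, (oA t ht).2.1.1⟩
  have qB := qe_e0 p0 q0 (L := c.LB) fun t ht => ⟨(oB t ht).1.2.1, (oB t ht).2.1.1⟩
  obtain ⟨RB, hB⟩ := h2.B
  obtain ⟨RA, hA⟩ := h2.A
  have eB : S0 c.p c.q c.LB = X * (C c.β + X * RB) := by linear_combination hB
  have B0 : coeff 0 (C c.β + X * RB) = c.β := by simp
  have qW : ∀ L, Ok0 c.p c.q c.k c.K L →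
      QE (e0 c.p c.q (tN0 c.p c.q c.K L)) (toC (S0 c.p c.q (tN0 c.p c.q c.K L))) := fun L h =>
    qe_e0 p0 q0 fun t ht => by
      obtain ⟨u, hu, rfl⟩ := List.mem_map.1 ht
      exact ⟨(h u hu).1.2.2, (h u hu).2.1.2.1⟩
  have eW : ∀ L, Ok0 c.p c.q c.k c.K L → ∀ z : ℂ, 0 < z.im →
      e0 c.p c.q L (-1 / ((c.p * c.q : ℕ) * z)) = (-Complex.I * z) ^ c.k / (c.p * c.q) ^ c.K *
        q1 z ^ c.j * (e0 c.p c.q (tN0 c.p c.q c.K L) z / q1 z ^ c.j) := fun L h z hz => by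
    have := q1_ne z
    rw [← act_WN]
    field_simp
    linear_combination e0_WN p0 q0 h hz
  have u0 : ∀ z : ℂ, 0 < z.im →
      (-Complex.I * z) ^ c.k / (c.p * c.q) ^ c.K * q1 z ^ c.j ≠ 0 := fun z hz =>
    mul_ne_zero (div_ne_zero (pow_ne_zero _ (mul_ne_zero (neg_ne_zero.2 Complex.I_ne_zero)
      (q2_ne hz))) (pow_ne_zero _ (mul_ne_zero p1 q1'))) (pow_ne_zero _ (q1_ne z))
  obtain ⟨SA, hSA⟩ := h2.AW
  obtain ⟨SB, hSB⟩ := h2.BW
  have lA := qW _ oA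
  have lB := qW _ oB
  rw [hSA, pow_succ, mul_assoc] at lA
  rw [show S0 c.p c.q (tN0 c.p c.q c.K c.LB) = X ^ c.j * (C c.γ + X * SB) by
    linear_combination hSB] at lB
  replace lA := q5_lim lA
  replace lB := q5_lim lB
  rw [coeff_zero_X_mul, Int.cast_zero] at lA
  rw [map_add, coeff_zero_X_mul, add_zero, coeff_zero_C] at lB
  have γ1 : (c.γ : ℂ) ≠ 0 := Int.cast_ne_zero.2 γ0
  have ode : C 4 * (S2 c.p c.q 0 (dd c.s0 c.LA) * S0 c.p c.q c.LB -
      S0 c.p c.q c.LA * S2 c.p c.q 0 (dd c.s0 c.LB)) ^ 2 - C 144 * cs ^ 2 *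
      ((S0 c.p c.q c.LA ^ 2 - C c.ea * S0 c.p c.q c.LB ^ 2) ^ 2 -
        C (4 * c.eb) * S0 c.p c.q c.LB ^ 4) = 0 := by
    have qd : ∀ L, Ok0 c.p c.q c.k c.K L →
        QE (e2 c.p c.q (dd c.s0 L)) (toC (S2 c.p c.q 0 (dd c.s0 L))) := fun L h => by
      simpa using qe_e2 p0 q0 (M := 0) (T := dd c.s0 L) fun t ht => by
        obtain ⟨u, hu, rfl⟩ := List.mem_map.1 ht
        exact ⟨(h u hu).1.2.1, by simpa using (h u hu).2.1.1⟩
    have m1 := (((((mk_dd hp hq hne hk w0 oA).mul mB).sub ((mA.mul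
      (mk_dd hp hq hne hk w0 oB)).cast (by ring))).pow 2).smul ((4 : ℤ) : ℂ)).cast
        (k' := 4 * c.k + 4) (by ring)
    have m2 := (((mf.pow 2).smul ((144 : ℤ) : ℂ)).mul ((((mA.pow 2).sub ((mB.pow 2).smul c.ea)).pow
      2).sub (((mB.pow 4).smul (4 * c.eb : ℤ)).cast (by ring)))).cast (k' := 4 * c.k + 4) (by ring)
    have g1 := (((((qd _ oA).mul qB).sub (qA.mul (qd _ oB))).pow 2).smul ((4 : ℤ) : ℂ)).sub
      (((s2.pow 2).smul ((144 : ℤ) : ℂ)).mul ((((qA.pow 2).sub ((qB.pow 2).smul c.ea)).pow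
        2).sub ((qB.pow 4).smul (4 * c.eb : ℤ))))
    simp only [← q5_C, ← map_mul toC, ← map_sub toC, ← map_pow toC] at g1
    refine toC_inj ((Mk.eq_of_coeff (idx_pq hp hq hne) (m1.sub m2) (q5_zero _ _) g1 (QE.const 0) hn
      fun n hn => ?_).trans (by simp))
    have d1 : X ^ c.n ∣ cs - PowerSeries.mk c.co := X_pow_dvd_iff.2 fun i hi => by
      rw [map_sub, s4 i (by omega), coeff_mk, sub_self]
    have d2 := h2.ode.sub (d1.mul_right (C 144 * (cs + PowerSeries.mk c.co) *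
      ((S0 c.p c.q c.LA ^ 2 - C c.ea * S0 c.p c.q c.LB ^ 2) ^ 2 -
        C (4 * c.eb) * S0 c.p c.q c.LB ^ 4)))
    rw [coeff_map, map_zero, map_zero, ← map_zero (Int.castRingHom ℂ),
      ← X_pow_dvd_iff.1 d2 n hn]
    congr 2
    ring
  refine ⟨⟨mul_ne_zero p0 q0, b0, f, e0 c.p c.q c.LA, e0 c.p c.q c.LB, cs, S0 c.p c.q c.LA,
    C c.β + X * RB, s2, (s4 0 (by omega)).trans c0, (s4 1 L1).trans c1, inv, cu, fun z hz => ?_,
    fun l hl h n => hT_of_tS h (hT l hl n), qA, eB ▸ qB, B0.trans_ne β0, ?_, fun g hg z hz =>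
      ⟨_, pow_ne_zero _ (mh_den hg.1 hz), mA.inv g hg z hz, mB.inv g hg z hz⟩, Or.inr ⟨?_, ?_⟩,
    ?_⟩, B0, s4, hT⟩
  · rw [← act_WN, hW z hz, Nat.cast_mul]
  · rw [B0, show S0 c.p c.q c.LA = C (-2 * c.β) + X * RA by linear_combination hA, map_add,
      coeff_zero_X_mul, add_zero, coeff_zero_C]
  · filter_upwards [ev_pos, lB.eventually_ne γ1] with z hz h
    rw [eW _ oB z hz]
    exact mul_ne_zero (u0 z hz) h
  · have := lA.div lB γ1
    rw [zero_div] at this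
    refine this.congr' (ev_pos.mono fun z hz => ?_)
    simp only [Pi.div_apply]
    rw [eW _ oA z hz, eW _ oB z hz, mul_div_mul_left _ _ (u0 z hz)]
  · rw [← eB]
    rw [q5_dd p0 q0 c.s0 oA, q5_dd p0 q0 c.s0 oB, map_mul C 4, map_ofNat, map_ofNat] at ode
    refine mul_left_cancel₀ (a := (144 : ℤ⟦X⟧)) (fun h => ?_) (by linear_combination ode)
    have := congrArg (constantCoeff (R := ℤ)) h
    rw [map_ofNat, map_zero] at this
    norm_num at this

end Pool.Agent.B5
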