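import Pool.Agent.Lib.MP_696deb_nt.B4.GEa
import Pool.Agent.Lib.MP_696deb_nt.B4.GEd

/-! The coefficients of a modular function at all cusps lie in a finitely generated group. -/

set_option autoImplicit false

open Polynomial Filter Topology
open scoped Classical

namespace Pool.Agent.B5

open Pool.Agent.Lib.MP_696deb_nt Pool.Agent.B4.GE

variable {N : ℕ} {R : Subring ℂ} {F G : ℂ → ℂ}

/-- Expansion over a subring whose leading coefficient is a unit. -/
def LUR (R : Subring ℂ) (n : ℕ) (F : ℂ → ℂ) : Prop :=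
  ∃ B, QE (fun z => q1 z ^ n * F z) B ∧ Cf R.toAddSubgroup B ∧ PowerSeries.coeff 0 B ≠ 0 ∧
    (PowerSeries.coeff 0 B)⁻¹ ∈ R

theorem LUR.mul {n m : ℕ} (h : LUR R n F) (h' : LUR R m G) :
    LUR R (n + m) fun z => F z * G z := by
  obtain ⟨A, h1, h2, h3, h7⟩ := h
  obtain ⟨B, h4, h5, h6, h8⟩ := h'
  simp only [PowerSeries.coeff_zero_eq_constantCoeff] at h3 h6 h7 h8
  refine ⟨A * B, (h1.mul h4).congr fun z _ => by ring,
    h2.mul h5 fun _ hs _ ht => R.mul_mem hs ht, ?_, ?_⟩ <;>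
    simp only [PowerSeries.coeff_zero_eq_constantCoeff, map_mul]
  · exact mul_ne_zero h3 h6
  · rw [mul_inv]
    exact R.mul_mem h7 h8

theorem LUR.one : LUR R 0 fun _ => 1 :=
  ⟨PowerSeries.C 1, (QE.const 1).congr fun z _ => by simp, Cf.const R.one_mem, by simp,
    by simp⟩

theorem LUR.prod {ι : Type*} (s : Finset ι) {F : ι → ℂ → ℂ}
    (h : ∀ i ∈ s, ∃ κ : ℂ, κ ≠ 0 ∧ ∃ n, LUR R n fun z => κ * F i z) :
    ∃ κ : ℂ, κ ≠ 0 ∧ ∃ n, LUR R n fun z => κ * ∏ i ∈ s, F i z := by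
  induction s using Finset.induction_on with
  | empty => exact ⟨1, one_ne_zero, 0, by simpa using LUR.one⟩
  | insert a s ha ih =>
    obtain ⟨κ, hκ, n, hn⟩ := h a (by simp)
    obtain ⟨μ, hμ, m, hm⟩ := ih fun i hi => h i (by simp [hi])
    refine ⟨κ * μ, mul_ne_zero hκ hμ, n + m, ?_⟩
    have := hn.mul hm
    simp only [Finset.prod_insert ha]
    convert this using 2
    ring

theorem LUR.sub {n m : ℕ} (h : LUR R n F) (h' : LUR R m G) (hne : n ≠ m) :
    ∃ k, LUR R k fun z => F z - G z := by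
  obtain ⟨A, h1, h2, h3, h7⟩ := h
  obtain ⟨B, h4, h5, h6, h8⟩ := h'
  rcases hne.lt_or_gt with h | h
  · obtain ⟨k, rfl⟩ := Nat.exists_eq_add_of_lt h
    refine ⟨n + k + 1, _, ((h1.pow_mul (k + 1)).sub h4).congr fun z _ => by ring,
      (h2.X_pow_mul _).sub h5, by simpa [PowerSeries.coeff_X_pow_mul'] using h6, ?_⟩
    simpa [PowerSeries.coeff_X_pow_mul', inv_neg] using h8
  · obtain ⟨k, rfl⟩ := Nat.exists_eq_add_of_lt h
    exact ⟨m + k + 1, _, (h1.sub (h4.pow_mul (k + 1))).congr fun z _ => by ring,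
      h2.sub (h5.X_pow_mul _), by simpa [PowerSeries.coeff_X_pow_mul'] using h3,
      by simpa [PowerSeries.coeff_X_pow_mul'] using h7⟩

theorem qpa_cf {a : ℕ} (ha : a ≠ 0) {x : ℂ} (hx : x ∈ R) (hx' : x⁻¹ ∈ R) (n : ℕ)
    (A : PowerSeries ℤ) : Cf R.toAddSubgroup (PowerSeries.C ((x ^ n)⁻¹) *
      PowerSeries.expand a ha (PowerSeries.rescale x (toC A))) :=
  (Cf.const (S := R.toAddSubgroup) (by rw [← inv_pow]; exact R.pow_mem hx' n)).mul
    (Cf.expand (S := R.toAddSubgroup) (fun k => by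
      rw [PowerSeries.coeff_rescale, PowerSeries.coeff_map]
      exact R.mul_mem (R.pow_mem hx k) (intCast_mem R _)) a ha) fun _ hs _ ht => R.mul_mem hs ht

theorem lz_aff (h : LZ F) {a : ℕ} (ha : a ≠ 0) {c : ℝ} (hx : q1 c ∈ R) (hx' : (q1 c)⁻¹ ∈ R) :
    (fun z => F (a * z + c)) ∈ LR R := by
  obtain ⟨n, A, h⟩ := h
  exact ⟨_, _, qe_affine h ha c, qpa_cf ha hx hx' n A⟩

theorem lur_jf {a : ℕ} (ha : a ≠ 0) {c : ℝ} (hx : q1 c ∈ R) (hx' : (q1 c)⁻¹ ∈ R) :
    LUR R a fun z => jf (a * z + c) := by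
  have e : PowerSeries.coeff 0 (PowerSeries.C ((q1 c ^ 1)⁻¹) *
      PowerSeries.expand a ha (PowerSeries.rescale (q1 c) (toC Js))) = (q1 c)⁻¹ := by
    rw [PowerSeries.coeff_C_mul, PowerSeries.coeff_expand, if_pos (dvd_zero _), Nat.zero_div,
      PowerSeries.coeff_rescale, cc_toC, cc_Js]
    simp
  refine ⟨_, by simpa only [mul_one] using qe_affine qe_jf ha c, qpa_cf ha hx hx' 1 Js, ?_, ?_⟩ <;>
    rw [e]
  · exact inv_ne_zero (q1_ne _)
  · rwa [inv_inv]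

/-- Division by an expansion with unit leading coefficient. -/
theorem lur_div {S : AddSubgroup ℂ} (hS : ∀ s ∈ R, ∀ t ∈ S, s * t ∈ S) {E H : ℂ → ℂ} {n : ℕ}
    (hE : LUR R n E) (hH : LE ⊤ H) (h : LE S fun z => E z * H z) : LE S H := by
  obtain ⟨B, b1, b2, b0, b3⟩ := hE
  obtain ⟨m, G, g1, g2⟩ := h
  obtain ⟨r, D, hD, -⟩ := hH
  have h1 := g1.pow_mul (n + r)
  have h3 := (b1.mul (hD.pow_mul m)).unique h1 fun z _ => by ring
  refine ⟨m + r, _, (hD.pow_mul m).congr fun z _ => by ring, fun k => ?_⟩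
  induction k using Nat.strong_induction_on with
  | _ k ih =>
    have h4 := g2.X_pow_mul (n + r) k
    rw [← h3, PowerSeries.coeff_mul, ← Finset.add_sum_erase _ _
      (Finset.HasAntidiagonal.mem_antidiagonal.2 (zero_add k) : ((0, k) : ℕ × ℕ) ∈ _)] at h4
    have h5 := hS (PowerSeries.coeff 0 B)⁻¹ b3 _
      ((S.add_mem_cancel_right (S.sum_mem fun x hx => hS _ (b2 _) _ (ih _ ?_))).1 h4)
    · rwa [inv_mul_cancel_left₀ b0] at h5
    · have h6 := Finset.HasAntidiagonal.mem_antidiagonal.1 (Finset.mem_of_mem_erase hx)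
      have h7 := Finset.ne_of_mem_erase hx
      by_contra h8
      exact h7 (Prod.ext (by simp only; omega) (by simp only; omega))

theorem qpa_root (hR : ∀ x : ℂ, x ^ N = 1 → x ∈ R) {a d : ℕ} (h : a * d = N) (hd : d ≠ 0)
    (b : ℤ) : q1 ((b / d : ℝ) : ℂ) ∈ R ∧ (q1 ((b / d : ℝ) : ℂ))⁻¹ ∈ R := by
  have e : q1 ((b / d : ℝ) : ℂ) ^ N = 1 := by
    rw [← h, mul_comm, pow_mul, q1_div_pow_eq_one b hd, one_pow]
  exact ⟨hR _ e, hR _ (by rw [inv_pow, e, inv_one])⟩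

theorem qpa_lu (hN : N ≠ 0) (hR : ∀ x : ℂ, x ^ N = 1 → x ∈ R) {x y : RI N} (h : x ≠ y) :
    ∃ κ : ℂ, κ ≠ 0 ∧ ∃ n,
      LUR R n fun z => κ * (jf (act (rI x) (N * z)) - jf (act (rI y) (N * z))) := by
  obtain ⟨n0, B0, c1, -, c2⟩ := ga_lu hN h
  have ux := qpa_root hR x.2.1 (ga_ne hN x).2 x.1.2.1
  have uy := qpa_root hR y.2.1 (ga_ne hN y).2 y.1.2.1
  have a0 := mul_ne_zero (ga_ne hN x).1 (ga_ne hN x).1
  have a1 := mul_ne_zero (ga_ne hN y).1 (ga_ne hN y).1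
  simp only [ga_jB hN] at c1 ⊢
  generalize (((x.1.2.1 : ℤ) / x.1.2.2 : ℝ)) = s at *
  generalize (((y.1.2.1 : ℤ) / y.1.2.2 : ℝ)) = t at *
  generalize x.1.1 * x.1.1 = a at *
  generalize y.1.1 * y.1.1 = a' at *
  by_cases ha : a = a'
  swap
  · exact ⟨1, one_ne_zero, by simpa only [one_mul] using
      (lur_jf a0 ux.1 ux.2).sub (lur_jf a1 uy.1 uy.2) ha⟩
  subst ha
  have k1 := (qe_affine qe_jf a0 s).sub (qe_affine qe_jf a0 t)
  have s0 := q1_ne s
  have t0 := q1_ne t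
  have k2 : (q1 s)⁻¹ - (q1 t)⁻¹ ≠ 0 := fun k => by
    rw [sub_eq_zero, inv_inj] at k
    rw [k, sub_self] at k1
    rw [c1.unique (QE.const 0) fun z hz => by
      have := k1.eq_of_eq (F' := fun _ => 0) (by simpa using QE.const 0) hz
      rw [← mul_sub, mul_eq_zero] at this
      rw [this.resolve_left (pow_ne_zero _ (q1_ne _)), mul_zero]] at c2
    simp at c2
  have k3 : ∀ k, PowerSeries.coeff k (PowerSeries.C ((q1 s)⁻¹ - (q1 t)⁻¹)⁻¹ *
      (PowerSeries.C ((q1 s ^ 1)⁻¹) * PowerSeries.expand a a0 (PowerSeries.rescale (q1 s) (toC Js))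
      - PowerSeries.C ((q1 t ^ 1)⁻¹) * PowerSeries.expand a a0
        (PowerSeries.rescale (q1 t) (toC Js)))) = if a ∣ k then ((q1 s)⁻¹ - (q1 t)⁻¹)⁻¹ *
        ((q1 s)⁻¹ * q1 s ^ (k / a) - (q1 t)⁻¹ * q1 t ^ (k / a)) *
          (PowerSeries.coeff (k / a) Js : ℤ) else 0 := fun k => by
    simp only [map_sub, PowerSeries.coeff_C_mul, PowerSeries.coeff_expand,
      PowerSeries.coeff_rescale, PowerSeries.coeff_map, pow_one, eq_intCast]
    split_ifs <;> ring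
  have k4 := k3 0
  rw [if_pos (dvd_zero _), Nat.zero_div, pow_zero, pow_zero, mul_one, mul_one, inv_mul_cancel₀ k2,
    show PowerSeries.coeff 0 Js = 1 by simpa using cc_Js, Int.cast_one, mul_one] at k4
  refine ⟨_, inv_ne_zero k2, a * 1, _, (k1.smul ((q1 s)⁻¹ - (q1 t)⁻¹)⁻¹).congr fun z _ => by ring,
    fun k => ?_, by rw [k4]; exact one_ne_zero, by rw [k4, inv_one]; exact R.one_mem⟩
  rw [k3]
  split_ifs
  swap
  · exact R.zero_mem
  refine R.mul_mem ?_ (intCast_mem R _)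
  rcases k / a with _ | m
  · rw [pow_zero, pow_zero, mul_one, mul_one, inv_mul_cancel₀ k2]
    exact R.one_mem
  · have k5 : q1 s - q1 t ≠ 0 := fun k => k2 (by rw [sub_eq_zero.1 k, sub_self])
    have k6 : q1 t - q1 s ≠ 0 := fun k => k5 (by rw [sub_eq_zero.1 k, sub_self])
    rw [show ((q1 s)⁻¹ - (q1 t)⁻¹)⁻¹ * ((q1 s)⁻¹ * q1 s ^ (m + 1) - (q1 t)⁻¹ * q1 t ^ (m + 1)) =
      -(q1 s * q1 t) * ∑ i ∈ Finset.range m, q1 s ^ i * q1 t ^ (m - 1 - i) by
      rw [pow_succ', pow_succ', inv_mul_cancel_left₀ s0, inv_mul_cancel_left₀ t0,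
        ← (Commute.all (q1 s) (q1 t)).geom_sum₂_mul, inv_sub_inv s0 t0]
      field_simp
      ring]
    exact R.mul_mem (R.neg_mem (R.mul_mem ux.1 uy.1))
      (R.sum_mem fun i _ => R.mul_mem (R.pow_mem ux.1 _) (R.pow_mem uy.1 _))

theorem qpa_ev (R : Subalgebra ℤ ℂ) (A : ℂ[X][X]) : ∃ S : Submodule R ℂ, S.FG ∧
    ∀ x ∈ LR R.toSubring, ∀ y ∈ LR R.toSubring,
      LE S.toAddSubgroup fun z => A.evalEval (x z) (y z) := by
  induction A using Polynomial.induction_on' with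
  | add p q hp hq =>
    obtain ⟨S, s1, s2⟩ := hp
    obtain ⟨T, t1, t2⟩ := hq
    exact ⟨S ⊔ T, s1.sup t1, fun x hx y hy => (((s2 x hx y hy).mono fun _ k =>
      Submodule.mem_sup_left k).add ((t2 x hx y hy).mono fun _ k =>
        Submodule.mem_sup_right k)).congr fun z _ => by simp [evalEval_add]⟩
  | monomial n a =>
    induction a using Polynomial.induction_on' with
    | add p q hp hq =>
      obtain ⟨S, s1, s2⟩ := hp
      obtain ⟨T, t1, t2⟩ := hq
      exact ⟨S ⊔ T, s1.sup t1, fun x hx y hy => (((s2 x hx y hy).mono fun _ k =>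
        Submodule.mem_sup_left k).add ((t2 x hx y hy).mono fun _ k =>
          Submodule.mem_sup_right k)).congr fun z _ => by simp [evalEval_add]⟩
    | monomial m c =>
      refine ⟨Submodule.span R {c}, Submodule.fg_span_singleton c, fun x hx y hy => ?_⟩
      have k : x ^ m * y ^ n ∈ LR R.toSubring := mul_mem (pow_mem hx m) (pow_mem hy n)
      refine (LE.mul k (LE.const (S := (Submodule.span R {c}).toAddSubgroup)
        (Submodule.mem_span_singleton_self (R := R) c))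
        fun s hs t ht => Submodule.smul_mem _ (⟨s, hs⟩ : R) ht).congr fun z _ => ?_
      simp [← C_mul_X_pow_eq_monomial, evalEval_mul, evalEval_pow, evalEval_C]
      ring

/-- Finite generation of the coefficients at all cusps. -/
theorem exists_fg (hN : N ≠ 0) {h : ℂ → ℂ} (hh : MF N h) : ∃ S : Submodule ℤ ℂ, S.FG ∧
    ∀ g : MZ, g.det = 1 → LE S.toAddSubgroup fun z => h (act g (N * z)) := by
  have := finite_CI hN
  have := Fintype.ofFinite (CI N)
  have i0 : Inv0 N fun z => (h z, jN N z) := fun g hg z hz =>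
    Prod.ext (hh.1 g hg z hz) (inv0_jN hN g hg z hz)
  have p := i0.permF hN
  obtain ⟨J, hJ⟩ : ∃ J : CI N → LR V1.integer, ∀ i z, evz V1 z (J i) = jN N (act (cr i) (N * z)) :=
    ⟨fun i => ⟨_, ga_jN hN i⟩, fun _ _ => rfl⟩
  obtain ⟨F, hF⟩ : ∃ F : CI N → LR V1.integer, ∀ i z, evz V1 z (F i) = h (act (cr i) (N * z)) :=
    ⟨fun i => ⟨_, ga_mem (hh.2 _ (cr_det i))⟩, fun _ _ => rfl⟩
  obtain ⟨A, hA⟩ := ga_biv hN (T := fun z => gaI (fun i : CI N => h (act (cr i) z))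
    fun i => jN N (act (cr i) z)) (gaI F J) (fun z => by simp only [map_gaI, hJ, hF])
    fun k => p.inv1 (fun _ a => (gaI (fun x => (a x).1) fun x => (a x).2).coeff k)
      fun _ a σ => by rw [gaI_perm (fun x => (a x).1) fun x => (a x).2]
  let R := Algebra.adjoin ℤ {x : ℂ | x ^ N = 1}
  have hR : ∀ x : ℂ, x ^ N = 1 → x ∈ R.toSubring := fun x hx => Algebra.subset_adjoin hx
  have : Module.Finite ℤ R := Algebra.finite_adjoin_of_finite_of_isIntegral
    (((X ^ N - C 1 : ℂ[X]).finite_setOfPred_isRoot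
      (X_pow_sub_C_ne_zero (Nat.pos_of_ne_zero hN) 1)).subset fun x hx => by
        simpa [sub_eq_zero] using hx)
    fun x hx => IsIntegral.of_pow (Nat.pos_of_ne_zero hN) (by rw [hx]; exact isIntegral_one)
  obtain ⟨κ, hκ, n, hn⟩ := LUR.prod (R := R.toSubring) Finset.univ fun (x : CI N) _ =>
    LUR.prod (Finset.univ.erase x) fun y hy => qpa_lu hN hR (x := x.1) (y := y.1)
      fun e => (Finset.ne_of_mem_erase hy).symm (Subtype.ext e)
  obtain ⟨S, s1, s2⟩ := qpa_ev R (C (C κ) * A)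
  refine ⟨S.restrictScalars ℤ, s1.restrictScalars, fun g hg => ?_⟩
  obtain ⟨i, hi⟩ := hh.1.exists_cr hN hg
  refine LE.congr (lur_div (S := S.toAddSubgroup)
    (fun s hs t ht => Submodule.smul_mem _ (⟨s, hs⟩ : R) ht) hn (hh.2 _ (cr_det i)) ?_)
    fun z hz => hi _ (ga_pos hN hz)
  have u := qpa_root hR i.1.2.1 (ga_ne hN i.1).2 i.1.1.2.1
  have u0 : q1 ((0 : ℝ) : ℂ) = 1 := by simp [q1]
  refine (s2 _ (lz_aff lz_jf hN (c := 0) (u0 ▸ one_mem _) (by rw [u0, inv_one]; exact one_mem _)) _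
    (lz_aff lz_jf (mul_ne_zero (ga_ne hN i.1).1 (ga_ne hN i.1).1) u.1 u.2)).congr fun z hz => ?_
  have k := eval_gaI (fun i : CI N => h (act (cr i) (N * z))) (fun i => jN N (act (cr i) (N * z))) i
  rw [← hA _ (ga_pos hN hz), map_evalRingHom_eval] at k
  simp only [gaD, jN_cr hN _ (ga_pos hN hz)] at k
  rw [evalEval_mul, evalEval_CC, ← ga_jB hN, Complex.ofReal_zero, add_zero, k, mul_assoc]

variable {Γ : Type*} [LinearOrderedCommGroupWithZero Γ] (V : Valuation ℂ Γ)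

/-- A valuation attains its maximum on a subset of a finitely generated group. -/
theorem exists_max {S : Submodule ℤ ℂ} (hS : S.FG) {T : Set ℂ} (hT : T ⊆ S) (h : T.Nonempty) :
    ∃ c ∈ T, ∀ t ∈ T, V t ≤ V c := by
  obtain ⟨t0, h0⟩ := h
  have h1 : (Submodule.span ℤ T).FG := hS.of_le (Submodule.span_le.2 hT)
  obtain ⟨s, s1, s2⟩ := (Submodule.fg_span_iff_fg_span_finset_subset T).1 h1
  obtain ⟨c, c1, c2⟩ := Finset.exists_max_image (insert t0 s) V (Finset.insert_nonempty _ _)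
  refine ⟨c, (Finset.mem_insert.1 c1).elim (fun e => e ▸ h0) fun e => s1 e, fun t ht => ?_⟩
  have h2 : t ∈ Submodule.span ℤ (s : Set ℂ) := s2 ▸ Submodule.subset_span ht
  exact (Submodule.span_le (p := (V.leAddSubgroup (V c)).toIntSubmodule)).2
    (fun x hx => c2 x (Finset.mem_insert_of_mem hx)) h2

end Pool.Agent.B5
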