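import Pool.Agent.Lib.MP_696deb_nt.B5.QPa

/-! The expansion principle, given a function which vanishes at the finite cusps. -/

set_option autoImplicit false

open PowerSeries Filter Topology
open scoped Classical

namespace Pool.Agent.B5

open Pool.Agent.Lib.MP_696deb_nt Pool.Agent.B4.GE

variable {N n : ℕ} {S : AddSubgroup ℂ} {F G : ℂ → ℂ} {A : ℂ⟦X⟧}

theorem le_cf (h : LE S F) (hA : QE (fun z => q1 z ^ n * F z) A) : Cf S A := fun k => by
  obtain ⟨m, B, h1, h2⟩ := h
  have e := (hA.pow_mul m).unique (h1.pow_mul n) fun z _ => by ring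
  have := h2.X_pow_mul n (k + m)
  rwa [← e, coeff_X_pow_mul] at this

theorem inv1_cf (hF : Inv1 F) (hA : QE (fun z => q1 z ^ n * F z) A)
    (hS : ∀ i ≤ n, coeff i A ∈ S) : Cf S A := by
  induction n generalizing F A with
  | zero =>
    have h1 : QE F A := hA.congr fun z _ => by simp
    rw [h1.unique (QE.const (coeff 0 A)) (hF.const h1)]
    exact Cf.const (hS 0 le_rfl)
  | succ n ih =>
    obtain ⟨B, hB⟩ : X ∣ A - C (coeff 0 A) * toC (Js ^ (n + 1)) := by
      rw [X_dvd_iff, ← coeff_zero_eq_constantCoeff, map_sub, coeff_C_mul, cc_toC, map_pow, cc_Js]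
      simp
    have h1 := hA.sub ((qe_jf.pow (n + 1)).smul (coeff 0 A))
    rw [← map_pow, hB, ← pow_one X] at h1
    have h2 := Cf.const_mul_toC (hS 0 (Nat.zero_le _)) (Js ^ (n + 1))
    have h3 := ih (F := fun z => F z - coeff 0 A * jf z ^ (n + 1)) (A := B)
      (fun g hg z hz => by simp only [hF g hg z hz, jf_act hg hz])
      (h1.of_X_pow_mul.congr fun z _ => by have := q1_ne z; field_simp; ring) fun i hi => by
        rw [← coeff_succ_X_mul, ← hB, map_sub]
        exact S.sub_mem (hS _ (by omega)) (h2 _)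
    rw [eq_add_of_sub_eq hB, ← pow_one X]
    exact (h3.X_pow_mul 1).add h2

/-- An invariant function which is congruent to a multiple of the parameter. -/
theorem inv1_le (hN : N ≠ 0) (hF : Inv1 F) (h1 : LE ⊤ fun z => F (N * z)) (hG : QE G (X * A))
    (h2 : LE S fun z => F (N * z) - G z) : LE S fun z => F (N * z) := by
  obtain ⟨n, B, b1, -⟩ := LE.of_comp hN hF.periodic h1
  have b2 := le_cf h2 (((b1.expand N hN).sub (hG.pow_mul (N * n))).congr fun z _ => by
    rw [q1_nat_mul, ← pow_mul, mul_sub])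
  refine LE.expand ⟨n, B, b1, inv1_cf hF b1 fun i hi => ?_⟩ hN
  have b3 := b2 (N * i)
  rwa [map_sub, coeff_expand_mul, ← mul_assoc, ← pow_succ, coeff_X_pow_mul', if_neg (by
    have := Nat.mul_le_mul_left N hi
    omega), sub_zero] at b3

theorem qe_X_mul (h : LE ⊤ F) (h0 : Tendsto F atI (𝓝 0)) : ∃ B, QE F (X * B) := by
  obtain ⟨A, hA⟩ := QE.exists_of_periodic h.hol (le_periodic h) (Bdd.of_tendsto h0)
  obtain ⟨B, rfl⟩ : X ∣ A := by
    rw [X_dvd_iff, ← coeff_zero_eq_constantCoeff]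
    exact tendsto_nhds_unique hA.tendsto h0
  exact ⟨B, hA⟩

theorem le_top_mul (h : LE ⊤ F) (h' : LE ⊤ G) : LE ⊤ fun z => F z * G z :=
  h.mul h' fun _ _ _ _ => trivial

theorem mf_const (c : ℂ) : MF N fun _ => c := ⟨fun _ _ _ _ => rfl, fun _ _ => LE.const trivial⟩

theorem mf_mul (h : MF N F) (h' : MF N G) : MF N fun z => F z * G z :=
  ⟨fun g hg z hz => by simp only [h.1 g hg z hz, h'.1 g hg z hz],
    fun g hg => le_top_mul (h.2 g hg) (h'.2 g hg)⟩

theorem mf_add (h : MF N F) (h' : MF N G) : MF N fun z => F z + G z :=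
  ⟨fun g hg z hz => by simp only [h.1 g hg z hz, h'.1 g hg z hz],
    fun g hg => (h.2 g hg).add (h'.2 g hg)⟩

theorem mf_sub (h : MF N F) (h' : MF N G) : MF N fun z => F z - G z := by
  simpa [sub_eq_add_neg] using mf_add h (mf_mul (mf_const (-1)) h')

theorem mf_pow (h : MF N F) (k : ℕ) : MF N fun z => F z ^ k := by
  induction k with
  | zero => simpa using mf_const 1
  | succ k ih => simpa only [pow_succ] using mf_mul ih h

theorem mf_congr (hN : N ≠ 0) (h : MF N F) (e : ∀ z : ℂ, 0 < z.im → G z = F z) : MF N G :=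
  ⟨fun g hg z hz => by rw [e z hz, e _ (act_pos (by rw [hg.1]; exact one_pos) hz), h.1 g hg z hz],
    fun g hg => (h.2 g hg).congr fun z hz => e _ (act_pos (by omega) (ga_pos hN hz))⟩

theorem mf_jf (hN : N ≠ 0) : MF N jf :=
  ⟨inv0_jf, fun _ hg => (LE.expand ((lz_jf.mem ⊤).mono le_top) hN).congr fun _ hz =>
    jf_act hg (ga_pos hN hz)⟩

theorem mf_eval (hN : N ≠ 0) (P : Polynomial ℂ) : MF N fun z => P.eval (jf z) := by
  induction P using Polynomial.induction_on' with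
  | add p q hp hq => simpa only [Polynomial.eval_add] using mf_add hp hq
  | monomial n a =>
    simpa only [Polynomial.eval_monomial] using mf_mul (mf_const a) (mf_pow (mf_jf hN) n)

theorem mf_le (hN : N ≠ 0) (h : MF N F) : LE ⊤ F :=
  LE.of_comp hN (fun z hz => by
    have := h.1 (ut 1 1 1) ⟨by simp [det_ut], by simp [ut]⟩ z hz
    rwa [show act (ut 1 1 1) z = z + 1 by simp [ut, act_of, mob]] at this)
    (by simpa only [act_one] using h.2 1 Matrix.det_one)

variable {Γ : Type*} [LinearOrderedCommGroupWithZero Γ] {V : Valuation ℂ Γ} {τ : ℂ}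

theorem first_unit (h : Cf V.integer.toAddSubgroup A) (h' : ¬ Cf (V.ltAddSubgroup 1) A) :
    ∃ k, V (coeff k A) = 1 ∧ ∀ i < k, V (coeff i A) < 1 := by
  have h1 : ∃ k, V (coeff k A) = 1 := by
    by_contra! k
    exact h' fun i => lt_of_le_of_ne (α := Γ) (h i) (k i)
  exact ⟨Nat.find h1, Nat.find_spec h1, fun i hi => lt_of_le_of_ne (h i) (Nat.find_min h1 hi)⟩

/-- The lemma of Gauss for expansions. -/
theorem li_prime : (LI V).IsPrime := by
  refine ⟨(Ideal.ne_top_iff_one _).2 fun h => ?_, fun {F G} h => ?_⟩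
  · have := le_cf (n := 0) h ((QE.const 1).congr fun z _ => by simp) 0
    simp at this
  by_contra! k
  obtain ⟨n, A, a1, a2⟩ := F.2
  obtain ⟨m, B, b1, b2⟩ := G.2
  obtain ⟨i, i1, i2⟩ := first_unit a2 fun e => k.1 ⟨n, A, a1, e⟩
  obtain ⟨j, j1, j2⟩ := first_unit b2 fun e => k.2 ⟨m, B, b1, e⟩
  have h1 := le_cf (n := n + m) h ((a1.mul b1).congr fun z _ => by simp; ring) (i + j)
  rw [Valuation.mem_ltAddSubgroup_iff, coeff_mul, ← Finset.add_sum_erase _ _
    (Finset.HasAntidiagonal.mem_antidiagonal.2 rfl : ((i, j) : ℕ × ℕ) ∈ _),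
    V.map_add_eq_of_lt_left, map_mul, i1, j1, one_mul] at h1
  · exact h1.false
  · rw [map_mul, i1, j1, one_mul]
    refine V.map_sum_lt one_ne_zero fun x hx => ?_
    have h6 := Finset.HasAntidiagonal.mem_antidiagonal.1 (Finset.mem_of_mem_erase hx)
    have h7 := Finset.ne_of_mem_erase hx
    rw [map_mul]
    rcases lt_or_ge x.1 i with e | e
    · exact mul_lt_one_of_nonneg_of_lt_one_left zero_le (i2 _ e) (b2 _)
    · exact mul_lt_one_of_nonneg_of_lt_one_right (a2 _) zero_le (j2 _ (by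
        by_contra h8
        exact h7 (Prod.ext (by simp only; omega) (by simp only; omega))))

theorem le_smul {T : AddSubgroup ℂ} (h : LE S F) (c : ℂ) (hc : ∀ s ∈ S, c * s ∈ T) :
    LE T fun z => c * F z := by
  obtain ⟨n, A, h1, h2⟩ := h
  exact ⟨n, _, (h1.smul c).congr fun z _ => by ring, fun k => by
    rw [coeff_C_mul]; exact hc _ (h2 k)⟩

/-- The largest coefficient of a finite family of expansions. -/
theorem exists_top {ι : Type*} [Nonempty ι] {S : Submodule ℤ ℂ} (hS : S.FG) {F : ι → ℂ → ℂ}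
    (h : ∀ i, LE S.toAddSubgroup (F i)) : ∃ c : ℂ, (∀ i, LE (V.leAddSubgroup (V c)) (F i)) ∧
      ∃ i, ∀ T : AddSubgroup ℂ, LE T (F i) → c ∈ T := by
  choose n A h1 h2 using h
  obtain ⟨_, ⟨i, k, rfl⟩, c2⟩ := exists_max V hS (T := {x | ∃ i k, x = coeff k (A i)})
    (by rintro _ ⟨i, k, rfl⟩; exact h2 i k) ⟨_, Classical.arbitrary ι, 0, rfl⟩
  exact ⟨_, fun j => ⟨_, _, h1 j, fun l => c2 _ ⟨j, l, rfl⟩⟩, i, fun T hT => le_cf hT (h1 i) k⟩

theorem le_norm {c : ℂ} (hc : c ≠ 0) (h : LE (V.leAddSubgroup (V c)) F) :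
    (fun z => c⁻¹ * F z) ∈ LR V.integer :=
  le_smul h _ fun s hs => by
    change V _ ≤ 1
    rw [map_mul, map_inv₀, inv_mul_le_one₀ ((V.pos_iff).2 hc)]
    exact hs

theorem qp_core (hN : N ≠ 0) (hG : MF N G)
    (h0 : ∀ i : CI N, ¬ G0 N (cr i) → Tendsto (fun z => G (act (cr i) (N * z))) atI (𝓝 0))
    (hi : G ∈ LR V.integer) (i : CI N) : (fun z => G (act (cr i) (N * z))) ∈ LR V.integer := by
  have := finite_CI hN
  have := Fintype.ofFinite (CI N)
  have : Nonempty (CI N) := ⟨i⟩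
  have := li_prime (V := V)
  obtain ⟨S, s1, s2⟩ := exists_fg hN hG
  obtain ⟨c, c1, i0, c2⟩ := exists_top (V := V) s1 fun i : CI N => s2 _ (cr_det i)
  by_cases hc : V c ≤ 1
  · exact (c1 i).mono fun x hx => le_trans (α := Γ) hx hc
  exfalso
  have c0 : c ≠ 0 := fun e => hc (by simp [e])
  have c3 : V c⁻¹ < 1 := by rw [map_inv₀]; exact inv_lt_one_of_one_lt₀ (not_le.1 hc)
  let H : CI N → LR V.integer := fun i => ⟨_, le_norm c0 (c1 i)⟩
  obtain ⟨s, hs⟩ : ∃ s : Finset (CI N), ∀ i, i ∈ s ↔ H i ∉ LI V :=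
    ⟨Finset.univ.filter fun i => H i ∉ LI V, fun i => by simp⟩
  have m0 : i0 ∈ s := (hs _).2 fun e => by
    have := c2 _ ((le_smul (T := V.ltAddSubgroup (Units.mk0 (V c) ((V.ne_zero_iff).2 c0))) e c
      fun x hx => by
        rw [Valuation.mem_ltAddSubgroup_iff, map_mul]
        exact mul_lt_of_lt_one_right ((V.pos_iff).2 c0) hx).congr fun z _ =>
          (mul_inv_cancel_left₀ c0 _).symm)
    exact lt_irrefl (V c) this
  have t0 : ∀ i ∈ s, Tendsto (H i).1 atI (𝓝 0) := fun i hi' => by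
    simpa using (h0 i fun e => (hs i).1 hi' ((le_smul (LE.expand hi hN) c⁻¹ fun x hx => by
      rw [mul_comm]
      exact ged_lt _ hx _ c3).congr fun z hz => by
        change c⁻¹ * _ = _
        rw [hG.1 _ e _ (ga_pos hN hz)])).const_mul c⁻¹
  have t1 : Tendsto (∏ i ∈ s, H i).1 atI (𝓝 0) := by
    have := tendsto_finsetProd s t0
    rw [Finset.prod_eq_zero m0 rfl] at this
    exact this.congr fun z => by simp
  obtain ⟨B, hB⟩ := qe_X_mul (LE.mono (∏ i ∈ s, H i).2 le_top) t1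
  have hI := (hG.1.permF hN).inv1
    (fun _ a => ∑ t ∈ Finset.univ.powersetCard s.card, ∏ i ∈ t, c⁻¹ * a i) fun _ a σ => by
      rw [← Finset.esymm_map_val, ← Finset.esymm_map_val]
      conv_rhs => rw [← Multiset.map_univ_val_equiv σ, Multiset.map_map]
      rfl
  have e1 : red V (∑ t ∈ Finset.univ.powersetCard s.card, ∏ i ∈ t, H i - ∏ i ∈ s, H i) = 0 := by
    rw [map_sub, map_sum, Finset.sum_eq_single s (fun t ht e => ?_) (by simp), sub_self]
    obtain ⟨j, j1, j2⟩ : ∃ j ∈ t, j ∉ s := by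
      by_contra! k
      exact e (Finset.eq_of_subset_of_card_le k (Finset.mem_powersetCard.1 ht).2.ge)
    rw [map_prod]
    exact Finset.prod_eq_zero j1 (Ideal.Quotient.eq_zero_iff_mem.2 (by simpa [hs] using j2))
  have e2 := inv1_le hN hI (LE.congr (LE.mono
    (∑ t ∈ Finset.univ.powersetCard s.card, ∏ i ∈ t, H i).2 le_top) fun z _ => by simp [H]) hB
    (le_of_red e1 fun z => by simp [evz_apply, H])
  have e3 : red V (∑ t ∈ Finset.univ.powersetCard s.card, ∏ i ∈ t, H i) = 0 :=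
    Ideal.Quotient.eq_zero_iff_mem.2 (LE.congr e2 fun z _ => by simp [H])
  rw [map_sub, e3, zero_sub, neg_eq_zero, map_prod, Finset.prod_eq_zero_iff] at e1
  obtain ⟨j, j1, j2⟩ := e1
  exact (hs j).1 j1 (Ideal.Quotient.eq_zero_iff_mem.1 j2)

theorem tendsto_mul_pow (h : LE ⊤ F) (h' : LE ⊤ G) (h0 : Tendsto G atI (𝓝 0)) :
    ∀ᶠ k in atTop, Tendsto (fun z => F z * G z ^ k) atI (𝓝 0) := by
  obtain ⟨n, A, h1, -⟩ := h
  obtain ⟨B, hB⟩ := qe_X_mul h' h0
  rw [← pow_one X] at hB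
  filter_upwards [eventually_gt_atTop n] with k hk
  obtain ⟨r, rfl⟩ := Nat.exists_eq_add_of_lt hk
  have := (h1.tendsto.mul (hB.of_X_pow_mul.tendsto.pow n)).mul (h0.pow (r + 1))
  rw [zero_pow r.succ_ne_zero, mul_zero] at this
  exact this.congr fun z => by have := q1_ne z; rw [div_pow, pow_one]; field_simp; ring

/-- The expansion principle. -/
theorem qp_unit (hN : N ≠ 0) {u h : ℂ → ℂ} (hu : MF N u)
    (u0 : ∀ g : MZ, g.det = 1 → ¬ G0 N g → Tendsto (fun z => u (act g (N * z))) atI (𝓝 0))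
    (ui : u ∈ LR V.integer) (hh : MF N h) (hi : h ∈ LR V.integer) (hτ : 0 < τ.im)
    (hj : V (jf τ) ≤ 1) (hv : V (u τ) = 1) : V (h τ) ≤ 1 := by
  have := finite_CI hN
  obtain ⟨k, hk⟩ := (eventually_all.2 fun i : CI N => eventually_all.2 fun e : ¬ G0 N (cr i) =>
    tendsto_mul_pow (hh.2 _ (cr_det i)) (hu.2 _ (cr_det i)) (u0 _ (cr_det i) e)).exists
  have m := mf_mul hh (mf_pow hu k)
  have := m.1.val_le hN hN (fun g hg => by
    obtain ⟨i, e⟩ := m.1.exists_cr hN hg
    exact LE.congr (qp_core hN m hk (mul_mem hi (pow_mem ui k)) i) fun z hz => e _ (ga_pos hN hz))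
    hτ hj
  rwa [map_mul, map_pow, hv, one_pow, mul_one] at this

end Pool.Agent.B5
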