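import Pool.Agent.Lib.MP_696deb_nt.B5.MDc
import Pool.Agent.Lib.MP_696deb_nt.B5.Q2

/-! Explicit modular data for a curve `y ^ 2 = 4 x ^ 3 + a x ^ 2 + b x + c`. -/

set_option autoImplicit false

open PowerSeries Filter Topology Complex
open scoped Real MatrixGroups

namespace Pool.Agent.B5

open Pool.Agent.Lib.MP_696deb_nt Pool.Agent.Lib.MP_696deb_nt.B4 Pool.Agent.B4.GE
open Pool.Agent.Lib.MP_696deb_nt.Unif Pool.Agent.Shared.Weier

/-- The differential equation for `x = A / B`. -/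
def Ode {R : Type*} [CommRing R] (a b c : R) (f A B : R⟦X⟧) : Prop :=
  (X * (d⁄dX R A * B - A * d⁄dX R B)) ^ 2 =
    f ^ 2 * B * (4 * A ^ 3 + C a * A ^ 2 * B + C b * A * B ^ 2 + C c * B ^ 3)

/-- A form `f` of weight two and a function `x = A / B`. -/
structure RW (N : ℕ) (a b c : ℤ) where
  N0 : N ≠ 0
  f : ℂ → ℂ
  A : ℂ → ℂ
  B : ℂ → ℂ
  cs : ℤ⟦X⟧
  As : ℤ⟦X⟧
  Bs : ℤ⟦X⟧
  qf : QE f (toC cs)
  c0 : coeff 0 cs = 0
  c1 : coeff 1 cs = 1
  inv : ∀ g, G0 N g → ∀ z : ℂ, 0 < z.im → f (act g z) = den g z ^ 2 * f z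
  cusp : ∀ g : MZ, g.det = 1 → Tendsto (fun z => f (act g z) / den g z ^ 2) atI (𝓝 0)
  hT : ∀ l : ℕ, l.Prime → ¬ l ∣ N → ∀ n : ℕ,
    coeff (l * n) cs + (if l ∣ n then l * coeff (n / l) cs else 0) = coeff l cs * coeff n cs
  qA : QE A (toC As)
  qB : QE B (toC (X ^ 2 * Bs))
  B0 : coeff 0 Bs ≠ 0
  A0 : coeff 0 As = coeff 0 Bs
  invS : ∀ g, G0 N g → ∀ z : ℂ, 0 < z.im → Prop2 A B (act g z) z
  ode : Ode a b c cs As (X ^ 2 * Bs)

theorem Ode.map {R S : Type*} [CommRing R] [CommRing S] (φ : R →+* S) {a b c : R} {f A B : R⟦X⟧}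
    (h : Ode a b c f A B) : Ode (φ a) (φ b) (φ c) (map φ f) (map φ A) (map φ B) := by
  have hder : ∀ w : R⟦X⟧, PowerSeries.map φ (d⁄dX R w) = d⁄dX S (PowerSeries.map φ w) := fun w => by
    ext n
    simp [coeff_derivative]
  have := congrArg (PowerSeries.map φ) h
  simp only [map_mul, map_pow, map_sub, map_add, map_ofNat, map_C, map_X, hder] at this
  exact this

variable {N : ℕ} {a b c : ℤ} (R : RW N a b c) {z : ℂ} {L : PeriodPair}

/-- The primitive. -/
noncomputable def RW.F : ℂ → ℂ := prF (toC R.cs)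

/-- The function `x`. -/
noncomputable def RW.x (z : ℂ) : ℂ := R.A z / R.B z

/-- The function `y`. -/
noncomputable def RW.y (z : ℂ) : ℂ := deriv R.x z / (2 * π * I * R.f z)

/-- Points where all denominators are nonzero. -/
def RW.Ok (z : ℂ) : Prop := 0 < z.im ∧ R.B z ≠ 0 ∧ R.f z ≠ 0

theorem RW.c0' : coeff 0 (toC R.cs) = 0 := by rw [coeff_map, R.c0, map_zero]

theorem RW.dF (hz : 0 < z.im) : HasDerivAt R.F (2 * π * I * R.f z) z := gl_deriv R.qf R.c0' hz

variable {R}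

theorem RW.Ok.pi (h : R.Ok z) : 2 * π * I * R.f z ≠ 0 := mul_ne_zero two_pi_I_ne_zero h.2.2

theorem RW.Ok.anx (h : R.Ok z) : AnalyticAt ℂ R.x z :=
  (md_an R.qA.hol h.1).div (md_an R.qB.hol h.1) h.2.1

theorem RW.Ok.any (h : R.Ok z) : AnalyticAt ℂ R.y z :=
  h.anx.deriv.div (analyticAt_const.mul (md_an R.qf.hol h.1)) h.pi

theorem RW.Ok.dx (h : R.Ok z) : HasDerivAt R.x (2 * π * I * R.f z * R.y z) z := by
  rw [RW.y, mul_div_cancel₀ _ h.pi]
  exact h.anx.differentiableAt.hasDerivAt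

theorem RW.Ok.quad (h : R.Ok z) :
    R.y z ^ 2 = 4 * R.x z ^ 3 + a * R.x z ^ 2 + b * R.x z + c := by
  obtain ⟨A₁, a1, a2⟩ := R.qA.hasDerivAt
  obtain ⟨B₁, b1, b2⟩ := R.qB.hasDerivAt
  have e := R.ode.map (Int.castRingHom ℂ)
  have qA := R.qA
  have qB := R.qB
  have k1 := ((a1.mul qB).sub (qA.mul b1)).pow 2
  have k2 := ((R.qf.pow 2).mul qB).mul (((((QE.ofNat 4).mul (qA.pow 3)).add
    (((QE.const a).mul (qA.pow 2)).mul qB)).add (((QE.const b).mul qA).mul (qB.pow 2))).add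
    ((QE.const c).mul (qB.pow 3)))
  simp only [Ode, eq_intCast (Int.castRingHom ℂ)] at e
  rw [← e, mul_sub X, ← mul_assoc X, mul_left_comm X] at k2
  have k3 := k1.eq_of_eq k2 h.1
  have := h.2.1
  have := h.2.2
  have := ofReal_ne_zero.2 Real.pi_ne_zero
  rw [RW.y, show R.x = R.A / R.B from rfl, ((a2 z h.1).div (b2 z h.1) h.2.1).deriv, Pi.div_apply]
  field_simp
  linear_combination k3

variable (R)

theorem RW.lim : Tendsto (fun z => R.B z / q1 z ^ 2) atI (𝓝 (coeff 0 R.Bs : ℤ)) ∧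
    Tendsto (fun z => R.f z / q1 z) atI (𝓝 1) ∧
    Tendsto (fun z => q1 z ^ 2 * R.x z) atI (𝓝 1) := by
  have b0 : ((coeff 0 R.Bs : ℤ) : ℂ) ≠ 0 := Int.cast_ne_zero.2 R.B0
  have h1 : Tendsto (fun z => R.B z / q1 z ^ 2) atI (𝓝 (coeff 0 R.Bs : ℤ)) := by
    have := R.qB
    rw [map_mul, map_pow, map_X] at this
    simpa using this.of_X_pow_mul.tendsto
  refine ⟨h1, ?_, ?_⟩
  · obtain ⟨U, hU⟩ := X_dvd_iff.2 ((coeff_zero_eq_constantCoeff_apply R.cs).symm.trans R.c0)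
    have k := R.qf
    have k1 := R.c1
    rw [hU] at k k1
    rw [map_mul, map_X, ← pow_one X] at k
    rw [coeff_succ_X_mul] at k1
    simpa [-coeff_zero_eq_constantCoeff, k1] using k.of_X_pow_mul.tendsto
  · have := R.qA.tendsto.div h1 b0
    rw [coeff_map, R.A0, eq_intCast, div_self b0] at this
    refine this.congr fun z => ?_
    simp only [RW.x, Pi.div_apply]
    field

theorem RW.ev_ok : ∀ᶠ z in atI, R.Ok z := by
  filter_upwards [ev_pos, R.lim.1.eventually_ne (Int.cast_ne_zero.2 R.B0),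
    R.lim.2.1.eventually_ne one_ne_zero] with z h0 h1 h2
  exact ⟨h0, fun e => h1 (by rw [e, zero_div]), fun e => h2 (by rw [e, zero_div])⟩

theorem RW.ev_y : ∀ᶠ z in atI, R.y z ≠ 0 := by
  have h := R.lim.2.2
  have t := tendsto_q1.pow 2
  have k := ((((h.pow 3).const_mul 4).add (((h.pow 2).mul t).const_mul (a : ℂ))).add
    ((h.mul (t.pow 2)).const_mul (b : ℂ))).add ((t.pow 3).const_mul (c : ℂ))
  filter_upwards [R.ev_ok, k.eventually_ne (b₂ := 0) (by norm_num)] with z h0 h1 e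
  exact h1 (by have := h0.quad; rw [e] at this; linear_combination -(q1 z ^ 6) * this)

theorem RW.limF (u v : ℂ) : Tendsto (fun z => u * R.F z + v) atI (𝓝 v) := by
  simpa [RW.F] using ((gl_zero R.qf).const_mul u).add_const v

/-- The lattice belongs to the curve. -/
structure Sw (a b c : ℤ) (L : PeriodPair) : Prop where
  h4 : 12 * L.g₂ = a ^ 2 - 12 * b
  h6 : 216 * L.g₃ = -a ^ 3 + 18 * a * b - 216 * c

theorem RW.loc (h : Sw a b c L) : ∃ Y : ℝ, 0 ≤ Y ∧ ∀ z : ℂ, Y < z.im →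
    R.x z = L.weierstrassP (R.F z) - a / 12 := by
  obtain ⟨Y, hY⟩ := eventually_atTop.1 (eventually_comap.1 (R.ev_ok.and R.ev_y))
  replace hY := fun (z : ℂ) (hz : Y < z.im) => hY _ hz.le z rfl
  have z0 : Y < ((Y + 1 : ℝ) * I : ℂ).im := by simp
  obtain ⟨v, hv⟩ := P_comp L (U := {z | Y < z.im}) (isOpen_lt continuous_const continuous_im)
    (convex_halfSpace_im_gt Y).isPreconnected (F := R.F) (A := fun z => R.x z + a / 12)
    (A₁ := R.y) (g := fun z => 2 * π * I * R.f z) (fun z hz => R.dF (hY z hz).1.1)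
    (fun z hz => (hY z hz).1.pi) (fun z hz => (hY z hz).1.dx.add_const _)
    (fun z hz => (hY z hz).1.any.differentiableAt)
    (fun z hz => by
      linear_combination (hY z hz).1.quad + (R.x z + a / 12) / 12 * h.h4 + h.h6 / 216) z0 (hY _ z0).2
  have e : ∀ z : ℂ, Y < z.im → R.x z = 1 * L.weierstrassP (1 * R.F z + v) - a / 12 :=
    fun z hz => by rw [one_mul, one_mul, ← (hv z hz).2.1, add_sub_cancel_right]
  have c0 : v ∈ L.lattice := by
    by_contra c0
    exact md_nolim two_ne_zero one_ne_zero R.lim.2.2 ((md_limP c0 (R.limF 1 v) _ _).congr'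
      ((tendsto_comap.eventually (eventually_gt_atTop Y)).mono fun z hz => (e z hz).symm))
  exact ⟨max Y 0, le_max_right _ _, fun z hz => by
    rw [e z ((le_max_left _ _).trans_lt hz), L.weierstrassP_add_coe _ ⟨v, c0⟩, one_mul, one_mul]⟩

variable {R} in
theorem RW.Ok.glob (o : R.Ok z) (h : Sw a b c L) : R.F z ∉ L.lattice ∧
    R.x z = L.weierstrassP (R.F z) - a / 12 := by
  obtain ⟨Y, Y0, hY⟩ := R.loc h
  have aF : ∀ w : ℂ, 0 < w.im → AnalyticAt ℂ R.F w := fun w hw => md_an (gl_qe R.qf).hol hw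
  have z0 : Y < ((Y + 1 : ℝ) * I : ℂ).im := by simp
  have h3 : (fun w => R.x w + a / 12) =ᶠ[𝓝[≠] z] L.weierstrassP ∘ R.F :=
    mero_ext (U := {w | 0 < w.im}) (A := fun w => R.x w + a / 12)
      (convex_halfSpace_im_gt 0).isPreconnected
      (fun w hw => ((md_an R.qA.hol hw).meromorphicAt.div (md_an R.qB.hol hw).meromorphicAt).add
        (.const _ _))
      (fun w hw => (L.meromorphic_weierstrassP _).comp_analyticAt (aF w hw)) (Y0.trans_lt z0) o.1
      (mem_nhdsWithin_of_mem_nhds (mem_of_superset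
        ((isOpen_lt continuous_const continuous_im).mem_nhds z0) fun w hw => by
          simp only [Set.mem_ofPred_eq, hY w hw, Function.comp, sub_add_cancel]))
  have aA : AnalyticAt ℂ (fun w => R.x w + a / 12) z := o.anx.add analyticAt_const
  have dF := R.dF o.1
  have h4 : R.F z ∉ L.lattice := fun m => by
    have := aA.meromorphicOrderAt_nonneg
    rw [meromorphicOrderAt_congr h3, meromorphicOrderAt_comp_of_deriv_ne_zero (aF z o.1)
      (by rw [dF.deriv]; exact o.pi), L.order_weierstrassP _ m] at this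
    exact absurd this (by decide)
  have h6 := ((aA.continuousAt.eventuallyEq_nhds_iff_eventuallyEq_nhdsNE
    ((hasDerivAt_P L h4).comp z dF).continuousAt).mp h3).eq_of_nhds
  refine ⟨h4, ?_⟩
  rw [Function.comp_apply] at h6
  rw [← h6, add_sub_cancel_right]

theorem RW.per (h : Sw a b c L) {g : MZ} (hg : G0 N g) (hz : 0 < z.im) :
    R.F (act g z) - R.F z ∈ L.lattice := by
  have g0 : 0 < g.det := by rw [hg.1]; exact one_pos
  obtain ⟨v, hv⟩ := const_of_deriv (G := fun z => R.F (act g z) - R.F z) fun z hz => by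
    convert! (gl_act g0 R.qf R.c0' hz).sub (R.dF hz) using 1
    have := den_ne' g0.ne' hz
    rw [R.inv g hg z hz, hg.1]
    field_simp
    simp
  rw [hv z hz]
  by_contra c0
  refine md_nolim two_ne_zero one_ne_zero R.lim.2.2 ((md_limP c0 (R.limF 1 v) 1
    (a / 12)).congr' (R.ev_ok.mono fun w hw => ?_))
  obtain ⟨j, j0, j1, j2⟩ := R.invS g hg w hw.1
  have o : R.Ok (act g w) := ⟨act_pos g0 hw.1, j2 ▸ mul_ne_zero j0 hw.2.1, by
    rw [R.inv g hg w hw.1]
    exact mul_ne_zero (pow_ne_zero 2 (den_ne' g0.ne' hw.1)) hw.2.2⟩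
  rw [one_mul, one_mul, ← hv w hw.1, add_sub_cancel, ← (o.glob h).2, RW.x, j1, j2,
    mul_div_mul_left _ _ j0, RW.x]

theorem RW.ev_ne (hz : 0 < z.im) : ∀ᶠ w in 𝓝[≠] z, R.Ok w := by
  obtain ⟨u, hu⟩ := R.ev_ok.exists
  have k : ∀ {G : ℂ → ℂ}, Hol G → G u ≠ 0 → ∀ᶠ w in 𝓝[≠] z, G w ≠ 0 := fun {G} hG h =>
    (md_an hG hz).eventually_eq_zero_or_eventually_ne_zero.resolve_left fun e =>
      h (AnalyticOnNhd.eqOn_zero_of_preconnected_of_eventuallyEq_zero (U := {w : ℂ | 0 < w.im})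
        (fun w hw => md_an hG hw) (convex_halfSpace_im_gt 0).isPreconnected hz e hu.1)
  exact Eventually.and (mem_nhdsWithin_of_mem_nhds
    ((isOpen_lt continuous_const continuous_im).mem_nhds hz))
    ((k R.qB.hol hu.2.1).and (k R.qf.hol hu.2.2))

/-- A monic equation for `x` holds on the whole upper half plane. -/
theorem RW.ext (h : Sw a b c L) {t : ℕ} {p : ℕ → ℂ → ℂ} (hp : ∀ i, Hol (p i))
    (e : ∀ w, R.Ok w → R.x w ^ t + ∑ i ∈ Finset.range t, p i w * R.x w ^ i = 0) (hz : 0 < z.im) :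
    R.F z ∉ L.lattice ∧ (L.weierstrassP (R.F z) - a / 12) ^ t +
      ∑ i ∈ Finset.range t, p i z * (L.weierstrassP (R.F z) - a / 12) ^ i = 0 := by
  have cF : Tendsto R.F (𝓝[≠] z) (𝓝 (R.F z)) :=
    (R.dF hz).continuousAt.tendsto.mono_left nhdsWithin_le_nhds
  have cp : ∀ i, Tendsto (p i) (𝓝[≠] z) (𝓝 (p i z)) := fun i =>
    (hp i z hz).continuousAt.tendsto.mono_left nhdsWithin_le_nhds
  have h1 : R.F z ∉ L.lattice := fun m => by
    have k1 := (tendsto_P L m).comp (tendsto_nhdsWithin_iff.2 ⟨cF, (R.ev_ne hz).mono fun w hw e =>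
      (hw.glob h).1 (Set.mem_singleton_iff.1 e ▸ m)⟩)
    have k2 : Tendsto R.x (𝓝[≠] z) (Bornology.cobounded ℂ) :=
      ((tendsto_sub_const_cobounded (a / 12 : ℂ)).comp k1).congr'
        ((R.ev_ne hz).mono fun w hw => (hw.glob h).2.symm)
    have k3 := tendsto_inv₀_cobounded.comp k2
    have k4 := (tendsto_finsetSum (Finset.range t) fun i _ =>
      (cp i).mul (k3.pow (t - i))).const_add 1
    rw [Finset.sum_eq_zero fun i hi => by
      rw [zero_pow (by have := Finset.mem_range.1 hi; omega), mul_zero], add_zero] at k4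
    refine one_ne_zero (tendsto_nhds_unique k4 (tendsto_const_nhds.congr' ?_))
    filter_upwards [R.ev_ne hz, k2.eventually (Bornology.eventually_ne_cobounded 0)] with w hw w0
    refine mul_left_cancel₀ (pow_ne_zero t w0) ?_
    rw [mul_zero, ← e w hw, mul_add, mul_one, Finset.mul_sum]
    refine congrArg _ (Finset.sum_congr rfl fun i hi => ?_)
    rw [Function.comp_apply, inv_pow, ← pow_sub_mul_pow (R.x w) (Finset.mem_range.1 hi).le]
    field_simp
  have k := ((hasDerivAt_P L h1).continuousAt.tendsto.comp cF).sub_const (a / 12 : ℂ)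
  refine ⟨h1, tendsto_nhds_unique ((k.pow t).add (tendsto_finsetSum (Finset.range t) fun i _ =>
    (cp i).mul (k.pow i))) (tendsto_const_nhds.congr' ((R.ev_ne hz).mono fun w hw => ?_))⟩
  simp only [Function.comp_apply, ← (hw.glob h).2, e w hw]

/-- The image of the cusp zero. -/
theorem RW.zero (h : Sw a b c L) {Ω x₀ : ℂ}
    (hW : ∀ z : ℂ, 0 < z.im → R.f (-1 / (N * z)) = -(N * z ^ 2 * R.f z))
    (hΩ : ∀ z : ℂ, 0 < z.im → R.F (-1 / (N * z)) + R.F z = Ω)
    (hB : ∀ᶠ z in atI, R.B (-1 / (N * z)) ≠ 0)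
    (hx : Tendsto (fun z => R.x (-1 / (N * z))) atI (𝓝 x₀)) :
    Ω ∉ L.lattice ∧ L.weierstrassP Ω - a / 12 = x₀ := by
  have n1 : (N : ℂ) ≠ 0 := by exact_mod_cast R.N0
  have g0 : 0 < (WN N).det := by rw [det_WN]; exact_mod_cast Nat.pos_of_ne_zero R.N0
  have x1 : ∀ᶠ z in atI, R.x (-1 / (N * z)) = 1 * L.weierstrassP (-1 * R.F z + Ω) - a / 12 := by
    filter_upwards [R.ev_ok, hB] with z hz hB
    have o : R.Ok (-1 / (N * z)) := ⟨act_WN N z ▸ act_pos g0 hz.1, hB, by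
      rw [hW z hz.1]
      exact neg_ne_zero.2 (mul_ne_zero (mul_ne_zero n1 (pow_ne_zero 2 (q2_ne hz.1))) hz.2.2)⟩
    rw [(o.glob h).2, ← hΩ z hz.1, one_mul]
    congr 2
    ring
  have c0 : Ω ∉ L.lattice := fun m => md_nolim two_ne_zero one_ne_zero R.lim.2.2 (hx.congr' (by
    filter_upwards [R.ev_ok, x1] with z hz e
    rw [e, L.weierstrassP_add_coe _ ⟨_, m⟩, neg_one_mul, L.weierstrassP_neg, (hz.glob h).2, one_mul]))
  refine ⟨c0, tendsto_nhds_unique ?_ (hx.congr' x1)⟩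
  simpa only [one_mul] using md_limP c0 (R.limF (-1) Ω) 1 (a / 12)

end Pool.Agent.B5
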