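import Pool.Agent.Lib.MP_696deb_nt.B5.ZFa

/-! Crossing numbers of geodesics between cusps, summed over the matrices of Atkin and Lehner. -/

set_option autoImplicit false

namespace Pool.Agent.G5.SW

open Pool.Agent.Lib.MP_696deb_nt Pool.Agent.B4.GE

/-- Integral vectors. -/
abbrev V2 := ℤ × ℤ

/-- The determinant of two vectors. -/
def dt (u v : V2) : ℤ := u.1 * v.2 - u.2 * v.1

/-- The action of a matrix. -/
def mv (g : MZ) (v : V2) : V2 := (g 0 0 * v.1 + g 0 1 * v.2, g 1 0 * v.1 + g 1 1 * v.2)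

/-- The orientation of three cusps. -/
def so (a b c : V2) : ℤ := (dt a b * dt b c * dt c a).sign

/-- Twice the crossing number of two geodesics. -/
def cr (u u' v v' : V2) : ℤ := so v v' u - so v v' u'

/-- The matrices of Atkin and Lehner. -/
abbrev WW (N p : ℕ) := {w : MZ // ALm N p w}

/-- The sum of the crossing numbers. -/
noncomputable def II (N p : ℕ) (u u' v v' : V2) : ℤ :=
  ∑ᶠ w : WW N p, cr u u' (mv w.1 v) (mv w.1 v')

/-- Cusps that are never matched. -/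
def Ap (N p : ℕ) (u v : V2) : Prop := ∀ w, ALm N p w → dt (mv w v) u ≠ 0

variable {N p : ℕ} {g h w : MZ} {u u' u'' v v' x x' c : V2}

theorem dt_swap (u v : V2) : dt u v = -dt v u := by
  simp only [dt]
  ring

theorem mv_mul (g h : MZ) (v : V2) : mv (g * h) v = mv g (mv h v) := by
  simp only [mv, Matrix.mul_apply, Fin.sum_univ_two, Prod.mk.injEq]
  constructor <;> ring

theorem dt_mv (g : MZ) (u v : V2) : dt (mv g u) (mv g v) = g.det * dt u v := by
  simp only [mv, dt, Matrix.det_fin_two]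
  ring

theorem dt_adj (g : MZ) (u v : V2) : dt (mv g.adjugate u) v = dt u (mv g v) := by
  simp [mv, dt, Matrix.adjugate_fin_two]
  ring

theorem sign_key {E K a b c d : ℤ} (ha : a ≠ 0) (hb : b ≠ 0) (hc : c ≠ 0) (hd : d ≠ 0)
    (h : E * K = a * d - b * c) : E.sign * (d.sign * b.sign - c.sign * a.sign) =
      K.sign * (b.sign * a.sign - d.sign * c.sign) := by
  have h1 : a.sign * d.sign = -(b.sign * c.sign) → E.sign * K.sign = a.sign * d.sign := by
    rw [← Int.sign_mul, ← Int.sign_mul, ← Int.sign_mul, h]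
    intro e
    rcases lt_or_gt_of_ne (mul_ne_zero ha hd) with k | k
    · rw [Int.sign_eq_neg_one_of_neg k, neg_inj, eq_comm, Int.sign_eq_one_iff_pos] at e
      rw [Int.sign_eq_neg_one_of_neg k, Int.sign_eq_neg_one_of_neg (by omega)]
    · rw [Int.sign_eq_one_of_pos k, eq_comm, neg_eq_iff_eq_neg, Int.sign_eq_neg_one_iff_neg] at e
      rw [Int.sign_eq_one_of_pos k, Int.sign_eq_one_of_pos (by omega)]
  have s : ∀ {x : ℤ}, x ≠ 0 → x.sign = 1 ∨ x.sign = -1 := fun k =>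
    (lt_or_gt_of_ne k).symm.imp Int.sign_eq_one_of_pos Int.sign_eq_neg_one_of_neg
  have h2 := Int.sign_trichotomy E
  have h3 := Int.sign_trichotomy K
  generalize E.sign = e, K.sign = k at *
  rcases s ha with h4 | h4 <;> rcases s hb with h5 | h5 <;> rcases s hc with h6 | h6 <;>
    rcases s hd with h7 | h7 <;> rw [h4, h5, h6, h7] at h1 ⊢ <;>
    rcases h2 with rfl | rfl | rfl <;> omega

theorem cr_symm (h1 : dt v u ≠ 0) (h2 : dt v u' ≠ 0) (h3 : dt v' u ≠ 0) (h4 : dt v' u' ≠ 0) :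
    cr u u' v v' = -cr v v' u u' := by
  have := sign_key (E := dt v v') (K := dt u u') h1 h2 h3 h4 (by simp only [dt]; ring)
  simp only [cr, so, dt_swap u v, dt_swap u' v, dt_swap u' v', Int.sign_mul, Int.sign_neg]
  linear_combination this

theorem so_adj (hw : 0 < w.det) (u u' v : V2) :
    so (mv w.adjugate u) (mv w.adjugate u') v = so u u' (mv w v) := by
  rw [so, so, dt_mv, dt_adj, dt_swap v, dt_adj, ← dt_swap, det_adjugate_two, mul_assoc, mul_assoc,
    Int.sign_mul, Int.sign_eq_one_of_pos hw, one_mul, mul_assoc]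

theorem so_smul {k : ℤ} (hk : k ≠ 0) (v v' u : V2) : so v (k • v') u = so v v' u := by
  rw [so, so, show dt v (k • v') * dt (k • v') u * dt u v = k * k * (dt v v' * dt v' u * dt u v) by
    simp only [dt, Prod.smul_fst, Prod.smul_snd, smul_eq_mul]; ring, Int.sign_mul,
    Int.sign_eq_one_of_pos (mul_self_pos.2 hk), one_mul]

theorem alm_mul (hp : p ∣ N) (hw : ALm N p w) (hg : G0 N g) : ALm N p (w * g) := by
  have k : (p : ℤ) ∣ N := Int.natCast_dvd_natCast.2 hp
  refine ⟨by rw [Matrix.det_mul, hw.det, hg.1, mul_one], ?_, ?_, ?_⟩ <;>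
    rw [Matrix.mul_apply, Fin.sum_univ_two]
  exacts [(hw.a.mul_right _).add ((k.trans hg.2).mul_left _),
    (hw.c.mul_right _).add (hg.2.mul_left _), ((k.trans hw.c).mul_right _).add (hw.d.mul_right _)]

theorem alm_adj (hw : ALm N p w) : ALm N p w.adjugate := by
  refine ⟨by rw [det_adjugate_two, hw.det], ?_, ?_, ?_⟩ <;> rw [Matrix.adjugate_fin_two]
  exacts [hw.d, dvd_neg.2 hw.c, hw.a]

theorem adj_adj (w : MZ) : w.adjugate.adjugate = w := by
  rw [Matrix.adjugate_adjugate _ (by simp)]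
  simp

/-- Multiplication on the right. -/
def eR (hp : p ∣ N) (hg : G0 N g) : WW N p ≃ WW N p where
  toFun w := ⟨w.1 * g, alm_mul hp w.2 hg⟩
  invFun w := ⟨w.1 * g.adjugate, alm_mul hp w.2 (g0_adj hg)⟩
  left_inv w := Subtype.ext (by simp [mul_assoc, Matrix.mul_adjugate, hg.1])
  right_inv w := Subtype.ext (by simp [mul_assoc, Matrix.adjugate_mul, hg.1])

/-- The adjugate. -/
def eA (N p : ℕ) : WW N p ≃ WW N p where
  toFun w := ⟨w.1.adjugate, alm_adj w.2⟩
  invFun w := ⟨w.1.adjugate, alm_adj w.2⟩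
  left_inv _ := Subtype.ext (adj_adj _)
  right_inv _ := Subtype.ext (adj_adj _)

theorem Ap.symm (h : Ap N p u v) : Ap N p v u := fun w hw => by
  have := h _ (alm_adj hw)
  rwa [dt_adj, dt_swap, neg_ne_zero] at this

theorem Ap.right (hp : p ∣ N) (h : Ap N p u v) (hg : G0 N g) : Ap N p u (mv g v) := fun w hw =>
  mv_mul w g v ▸ h _ (alm_mul hp hw hg)

theorem Ap.left (hp : p ∣ N) (h : Ap N p u v) (hg : G0 N g) : Ap N p (mv g u) v :=
  (h.symm.right hp hg).symm

theorem Ap.smul (h : Ap N p u v) {k : ℤ} (hk : k ≠ 0) : Ap N p u (k • v) := fun w hw => by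
  rw [show dt (mv w (k • v)) u = k * dt (mv w v) u by
    simp only [dt, mv, Prod.smul_fst, Prod.smul_snd, smul_eq_mul]; ring]
  exact mul_ne_zero hk (h w hw)

theorem II_right (hp : p ∣ N) (hg : G0 N g) :
    II N p u u' (mv g v) (mv g v') = II N p u u' v v' := by
  rw [II, II, ← finsum_comp_equiv (eR hp hg)
    (f := fun w : WW N p => cr u u' (mv w.1 v) (mv w.1 v'))]
  exact finsum_congr fun w => by rw [← mv_mul, ← mv_mul]; rfl

theorem II_smul {k : ℤ} (hk : k ≠ 0) : II N p u u' v (k • v') = II N p u u' v v' :=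
  finsum_congr fun w => by
    rw [show mv w.1 (k • v') = k • mv w.1 v' by
      simp only [mv, Prod.smul_mk, Prod.smul_fst, Prod.smul_snd, smul_eq_mul, Prod.mk.injEq]
      constructor <;> ring, cr, cr, so_smul hk, so_smul hk]

theorem II_self : II N p u u v v' = 0 := by simp [II, cr]

/-- The cusp `u` is never matched with `v` or `v'`. -/
def Ap2 (N p : ℕ) (v v' u : V2) : Prop := Ap N p u v ∧ Ap N p u v'

theorem Ap2.left (hp : p ∣ N) (h : Ap2 N p v v' u) (hg : G0 N g) : Ap2 N p v v' (mv g u) :=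
  ⟨h.1.left hp hg, h.2.left hp hg⟩

theorem II_symm (p0 : p ≠ 0) (h : Ap2 N p v v' u) (h' : Ap2 N p v v' u') :
    II N p u u' v v' = -II N p v v' u u' := by
  rw [II, II, ← finsum_comp_equiv (eA N p)
    (f := fun w : WW N p => cr v v' (mv w.1 u) (mv w.1 u')), ← finsum_neg_distrib]
  refine finsum_congr fun w => ?_
  have k : 0 < w.1.det := by rw [w.2.det]; exact_mod_cast p0.bot_lt
  rw [cr_symm (h.1 _ w.2) (h'.1 _ w.2) (h.2 _ w.2) (h'.2 _ w.2), cr, cr, ← so_adj k, ← so_adj k]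
  rfl

theorem II_left (hp : p ∣ N) (p0 : p ≠ 0) (hg : G0 N g) (h : Ap2 N p v v' u)
    (h' : Ap2 N p v v' u') : II N p (mv g u) (mv g u') v v' = II N p u u' v v' := by
  rw [II_symm p0 (h.left hp hg) (h'.left hp hg), II_right hp hg, ← II_symm p0 h h']

theorem eq_of_dt (h : dt u u' ≠ 0) (h1 : dt x u = dt x' u) (h2 : dt x u' = dt x' u') : x = x' := by
  simp only [dt] at h1 h2
  refine Prod.ext (mul_left_cancel₀ h ?_) (mul_left_cancel₀ h ?_) <;> simp only [dt]
  · linear_combination u.1 * h2 - u'.1 * h1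
  · linear_combination u.2 * h2 - u'.2 * h1

theorem eq_of_mv (e : dt v v' ≠ 0) (h1 : mv g v = mv h v) (h2 : mv g v' = mv h v') : g = h := by
  simp only [mv, Prod.mk.injEq] at h1 h2
  ext i j
  refine mul_left_cancel₀ e ?_
  fin_cases i <;> fin_cases j <;> simp only [dt, Fin.zero_eta, Fin.mk_one, Fin.isValue]
  · linear_combination v'.2 * h1.1 - v.2 * h2.1
  · linear_combination v.1 * h2.1 - v'.1 * h1.1
  · linear_combination v'.2 * h1.2 - v.2 * h2.2
  · linear_combination v.1 * h2.2 - v'.1 * h1.2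

theorem box_key {a b c d : ℤ} (ha : a ≠ 0) (hb : b ≠ 0) (hc : c ≠ 0) (hd : d ≠ 0)
    (h : (c * a).sign ≠ (d * b).sign) : a * d - b * c ≠ 0 ∧ |a| ≤ |a * d - b * c| ∧
      |b| ≤ |a * d - b * c| ∧ |c| ≤ |a * d - b * c| ∧ |d| ≤ |a * d - b * c| := by
  have h1 : a * d * (b * c) < 0 := by
    refine lt_of_le_of_ne (not_lt.1 fun k => h (isign_eq_of_mul_pos ?_)) (by positivity)
    linarith
  have h2 : |a * d - b * c| = |a| * |d| + |b| * |c| := by
    rw [← abs_mul, ← abs_mul]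
    rcases mul_neg_iff.1 h1 with k | k
    · rw [abs_of_pos k.1, abs_of_neg k.2, abs_of_pos (by omega)]
      ring
    · rw [abs_of_neg k.1, abs_of_pos k.2, abs_of_neg (by omega)]
      ring
  have a1 := Int.one_le_abs ha
  have b1 := Int.one_le_abs hb
  have c1 := Int.one_le_abs hc
  have d1 := Int.one_le_abs hd
  rw [← abs_pos, h2]
  refine ⟨?_, ?_, ?_, ?_, ?_⟩ <;> nlinarith

theorem II_fin (h : Ap2 N p v v' u) (h' : Ap2 N p v v' u') :
    (Function.support fun w : WW N p => cr u u' (mv w.1 v) (mv w.1 v')).Finite := by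
  set K := |p * dt v v' * dt u u'| with hK
  have key : ∀ w : WW N p, cr u u' (mv w.1 v) (mv w.1 v') ≠ 0 → p * dt v v' * dt u u' ≠ 0 ∧
      |dt (mv w.1 v) u| ≤ K ∧ |dt (mv w.1 v) u'| ≤ K ∧ |dt (mv w.1 v') u| ≤ K ∧
      |dt (mv w.1 v') u'| ≤ K := fun w hw => by
    have e : p * dt v v' * dt u u' =
        dt (mv w.1 v) u * dt (mv w.1 v') u' - dt (mv w.1 v) u' * dt (mv w.1 v') u := by
      rw [← w.2.det, ← dt_mv]
      simp only [dt]
      ring
    rw [hK, e]
    refine box_key (h.1 _ w.2) (h'.1 _ w.2) (h.2 _ w.2) (h'.2 _ w.2) fun k => hw ?_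
    simp only [cr, so, dt_swap u, dt_swap u', Int.sign_mul, Int.sign_neg] at k ⊢
    linear_combination -(dt (mv w.1 v) (mv w.1 v')).sign * k
  refine Set.Finite.of_finite_image (f := fun w : WW N p =>
    (dt (mv w.1 v) u, dt (mv w.1 v) u', dt (mv w.1 v') u, dt (mv w.1 v') u'))
    (((Set.finite_Icc (-K) K).prod ((Set.finite_Icc (-K) K).prod
      ((Set.finite_Icc (-K) K).prod (Set.finite_Icc (-K) K)))).subset ?_) fun w hw w' _ e => ?_
  · rintro _ ⟨w, hw, rfl⟩
    obtain ⟨-, h1, h2, h3, h4⟩ := key w hw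
    exact ⟨abs_le.1 h1, abs_le.1 h2, abs_le.1 h3, abs_le.1 h4⟩
  · have h0 := (key w hw).1
    simp only [Prod.mk.injEq] at e
    exact Subtype.ext (eq_of_mv (right_ne_zero_of_mul (left_ne_zero_of_mul h0))
      (eq_of_dt (right_ne_zero_of_mul h0) e.1 e.2.1)
      (eq_of_dt (right_ne_zero_of_mul h0) e.2.2.1 e.2.2.2))

theorem II_add (h : Ap2 N p v v' u) (h' : Ap2 N p v v' u') (h'' : Ap2 N p v v' u'') :
    II N p u u' v v' + II N p u' u'' v v' = II N p u u'' v v' := by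
  rw [II, II, II, ← finsum_add_distrib (II_fin h h') (II_fin h' h'')]
  exact finsum_congr fun w => sub_add_sub_cancel _ _ _

/-- For a loop the base point does not matter. -/
theorem II_move (hp : p ∣ N) (p0 : p ≠ 0) (hg : G0 N g) (h : Ap2 N p v v' x)
    (h' : Ap2 N p v v' x') : II N p x (mv g x) v v' = II N p x' (mv g x') v v' := by
  have h1 := II_add h h' (h'.left hp hg)
  have h2 := II_add h (h.left hp hg) (h'.left hp hg)
  rw [II_left hp p0 hg h h'] at h2
  omega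

theorem II_mul (hp : p ∣ N) (p0 : p ≠ 0) (hg : G0 N g) (hh : G0 N h) (k : Ap2 N p v v' x) :
    II N p x (mv (g * h) x) v v' = II N p x (mv g x) v v' + II N p x (mv h x) v v' := by
  rw [mv_mul, ← II_add k (k.left hp hg) ((k.left hp hh).left hp hg),
    II_left hp p0 hg k (k.left hp hh)]

/-- The levels `N = p q`. -/
structure Lv (N p q : ℕ) : Prop where
  eq : N = p * q
  p1 : 1 < p
  q1 : 1 < q

variable {q : ℕ}

theorem Lv.dvd (H : Lv N p q) : p ∣ N := ⟨q, H.eq⟩

theorem Lv.p0 (H : Lv N p q) : p ≠ 0 := by have := H.p1; omega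

theorem Lv.ex (H : Lv N p q) (hw : ALm N p w) : ∃ a b c d : ℤ, p * a * d - b * (q * c) = 1 ∧
    w = !![p * a, b; p * (q * c), p * d] := by
  obtain ⟨h1, ⟨a, ha⟩, ⟨c, hc⟩, d, hd⟩ := hw
  rw [H.eq, Nat.cast_mul, mul_assoc] at hc
  rw [Matrix.det_fin_two, ha, hc, hd] at h1
  refine ⟨a, w 0 1, c, d, mul_left_cancel₀ (Nat.cast_ne_zero.2 H.p0) (by linear_combination h1), ?_⟩
  rw [← ha, ← hc, ← hd]
  exact Matrix.eta_fin_two w

theorem Lv.alm (H : Lv N p q) {a b c d : ℤ} (e : p * a * d - b * (q * c) = 1) :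
    ALm N p !![p * a, b; p * (q * c), p * d] :=
  ⟨by rw [Matrix.det_fin_two_of]; linear_combination p * e, ⟨a, rfl⟩,
    ⟨c, by rw [H.eq, Nat.cast_mul, mul_assoc]; rfl⟩, d, rfl⟩

theorem ne_of_one_lt {r : ℕ} (hr : 1 < r) (k : ℤ) : (r : ℤ) * k ≠ 1 := fun e => by
  have := Int.eq_one_of_mul_eq_one_right (by omega) e
  omega

theorem Lv.ap (H : Lv N p q) : Ap N p (1, 0) (1, 0) ∧ Ap N p (1, 0) (0, 1) ∧
    Ap N p (0, 1) (1, 0) ∧ Ap N p (0, 1) (0, 1) := by
  have p0 := H.p0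
  have q0 : q ≠ 0 := by have := H.q1; omega
  refine ⟨?_, ?_, ?_, ?_⟩ <;> intro w hw <;> obtain ⟨a, b, c, d, e, rfl⟩ := H.ex hw <;>
    simp [dt, mv, p0, q0] <;> rintro rfl
  · exact ne_of_one_lt H.p1 (a * d) (by linear_combination e)
  · exact ne_of_one_lt H.q1 (-b * c) (by linear_combination e)
  · exact ne_of_one_lt H.q1 (-b * c) (by linear_combination e)
  · exact ne_of_one_lt H.p1 (a * d) (by linear_combination e)

theorem Lv.ap_or (H : Lv N p q) (hc : IsCoprime c.1 c.2) :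
    Ap N p c (1, 0) ∨ Ap N p c (0, 1) := by
  by_contra! k
  obtain ⟨k1, k2⟩ := k
  refine k1 (Ap.symm fun w hw e1 => k2 (Ap.symm fun w' hw' e2 => ?_))
  obtain ⟨a, b, f, d, e, rfl⟩ := H.ex hw
  obtain ⟨a', b', f', d', e', rfl⟩ := H.ex hw'
  obtain ⟨s, t, hst⟩ := hc
  have e3 : q * f * c.1 + d * c.2 = 0 := mul_left_cancel₀ (Nat.cast_ne_zero.2 H.p0 : (p : ℤ) ≠ 0) (by
    simp [dt, mv] at e1
    linear_combination -e1)
  have e4 : p * a' * c.1 + b' * c.2 = 0 := by simpa [dt, mv] using e2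
  refine ne_of_one_lt H.q1 (-(s * (b' * f' * c.1 + d' * b' * -(p * a * f * c.1 + b * f * c.2)) +
    t * (p * a * f * c.1 + b * f * c.2))) ?_
  linear_combination hst + (s * d' * b' - t) * p * a * e3 - s * d' * e4 + s * c.1 * e' -
    (s * d' * b' - t) * c.2 * e

/-- Parabolic loops meet no loop. -/
theorem Lv.par (H : Lv N p q) (hg : G0 N g) (hh : G0 N h) (hc : IsCoprime c.1 c.2)
    (e : mv g c = c) (hx : Ap2 N p (1, 0) (0, 1) x) :
    II N p x (mv g x) (1, 0) (mv h (1, 0)) = 0 ∧ II N p x (mv g x) (0, 1) (mv h (0, 1)) = 0 := by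
  have k : ∀ {y z : V2}, Ap N p y z → Ap2 N p z (mv h z) y := fun k => ⟨k, k.right H.dvd hh⟩
  have k1 : II N p x (mv g x) (1, 0) (mv h (1, 0)) = II N p x (mv g x) (0, 1) (mv h (0, 1)) := by
    rw [II_symm H.p0 (k hx.1) ((k hx.1).left H.dvd hg), II_symm H.p0 (k hx.2) ((k hx.2).left H.dvd hg),
      II_move H.dvd H.p0 hh ⟨hx.1.symm, (hx.1.left H.dvd hg).symm⟩
        ⟨hx.2.symm, (hx.2.left H.dvd hg).symm⟩]
  rw [← k1, and_self]
  rcases H.ap_or hc with k2 | k2
  · rw [II_move H.dvd H.p0 hg (k hx.1) (k k2), e, II_self]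
  · rw [k1, II_move H.dvd H.p0 hg (k hx.2) (k k2), e, II_self]

/-- Cusps with denominator prime to the level are equivalent to zero. -/
theorem exists_col {D : ℤ} (hD : D ≠ 0) (hc : IsCoprime D N) (k : ℤ) :
    ∃ (s : ℤ) (g : MZ), s ≠ 0 ∧ G0 N g ∧ (k, D) = s • mv g (0, 1) := by
  obtain ⟨s, a, b, c, d, hs, rfl, rfl, e⟩ := exists_SL (a := k) (Or.inr hD)
  obtain ⟨x, y, h⟩ := (IsCoprime.mul_right (⟨-b, d, by linear_combination e⟩ : IsCoprime c a)
    hc.of_mul_left_left)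
  exact ⟨s, _, hs.ne', g0_of (a := x) (b := a) (c := -y) (d := c) (by linear_combination h), by
    simp [mv, mul_comm]⟩

end Pool.Agent.G5.SW
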