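import Pool.Agent.Lib.MP_696deb_nt.B5.SWa

/-! The split families of forms, parametrized by the matrices of Atkin and Lehner. -/

set_option autoImplicit false

open Finset NumberTheorySymbols

namespace Pool.Agent.G5.SW

open Pool.Agent.Lib.MP_696deb_nt hiding Fam wG
open Pool.Agent.B4.GE

/-- The form of the image of the line `k / D`. -/
def fo (p : ℕ) (D : ℤ) (x : ℤ × MZ) : Fm :=
  fmap (0, D, -(p * x.1)) (x.2 1 1) (-x.2 0 1) (-(x.2 1 0 / p)) (x.2 0 0 / p)

/-- The conditions on the denominator and on the orientation. -/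
structure Sp (N p q : ℕ) (D β : ℤ) : Prop extends Lv N p q where
  pos : 0 < D
  cop : IsCoprime D N
  bq : 2 * (q : ℤ) ∣ β - D
  bp : 2 * (p : ℤ) ∣ β + D

variable {N p q A : ℕ} {D β k k' a b c d : ℤ} {w w' : MZ} {R : Fm} {u : V2}

theorem fo_of (p0 : p ≠ 0) : fo p D (k, !![p * a, b; p * c, p * d]) =
    fmap (0, D, -(p * k)) (p * d) (-b) (-c) a := by
  have : (p : ℤ) ≠ 0 := Nat.cast_ne_zero.2 p0
  simp [fo, Int.mul_ediv_cancel_left _ this]

theorem Sp.sign (H : Sp N p q D β) (hw : ALm N p w) (k : ℤ) (u : V2) :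
    so (mv w (1, 0)) (mv w (k, D)) u = (fval (fo p D (k, w)) u.1 u.2).sign := by
  have h0 : (0 : ℤ) < p * p * D := by
    have := H.p0
    have := H.pos
    positivity
  rw [so, dt_mv, hw.det]
  obtain ⟨a, b, c, d, e, rfl⟩ := H.ex hw
  rw [fo_of H.p0, fval_fmap]
  have k1 : ∀ x : ℤ, (p * p * D * x).sign = x.sign := fun x => by
    rw [Int.sign_mul, Int.sign_eq_one_of_pos h0, one_mul]
  refine (congrArg _ ?_).trans (k1 _)
  simp [dt, mv, fval]
  ring

theorem Sp.fam (H : Sp N p q D β) (hw : ALm N p w) (k : ℤ) : Fam N (D ^ 2) β (fo p D (k, w)) := by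
  obtain ⟨a, b, c, d, e, rfl⟩ := H.ex hw
  obtain ⟨s, hs⟩ := H.bq
  obtain ⟨t, ht⟩ := H.bp
  rw [fo_of H.p0, H.eq]
  refine ⟨⟨-(c * (D * d + k * q * c)), ?_⟩, ?_, ⟨a * c * k + b * c * t - a * d * s, ?_⟩⟩
  · simp only [fmap, fval]
    push_cast
    ring
  · rw [fdisc_fmap (by linear_combination e)]
    simp [fdisc]
  · simp only [fmap]
    push_cast
    linear_combination β * e - p * a * d * hs + b * (q * c) * ht

theorem Sp.gch (H : Sp N p q D β) (hA : Squarefree A) (ho : Odd A) (hd : (A : ℤ) ∣ D)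
    (hw : ALm N p w) (k : ℤ) : gch A (fo p D (k, w)) = J(-(p * k) | A) := by
  obtain ⟨a, b, c, d, e, rfl⟩ := H.ex hw
  rw [fo_of H.p0, gch_fmap ho (by simpa [fdisc] using dvd_pow hd two_ne_zero)
    (by linear_combination e), jac_eq_prod _ hA]
  exact prod_congr rfl fun r _ => if_pos (dvd_zero _)

theorem Sp.ex0 (H : Sp N p q D β) (h : Fam N (D ^ 2) β R) : ∃ k a b c d : ℤ,
    p * a * d - b * (q * c) = 1 ∧ fmap R a b (q * c) (p * d) = (0, D, -(p * k)) := by
  obtain ⟨X, Y, Z⟩ := R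
  obtain ⟨⟨x, h1⟩, h2, j, h3⟩ := h
  obtain ⟨s, hs⟩ := H.bq
  obtain ⟨t, ht⟩ := H.bp
  have hc := H.cop
  rw [H.eq, Nat.cast_mul] at h1 h3 hc
  simp only [fdisc] at h1 h2 h3
  have e1 : p * (q * j + t) = D + q * (p * j + s) := by linarith
  have e2 : Y = D + 2 * (q * (p * j + s)) := by linarith
  have c1 : IsCoprime ((p : ℤ) * (q * j + t)) q :=
    e1 ▸ hc.of_mul_right_right.add_mul_left_left _
  have c2 : IsCoprime ((q : ℤ) * (p * j + s)) p := by
    rw [show (q : ℤ) * (p * j + s) = -D + p * (q * j + t) by linarith]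
    exact hc.of_mul_right_left.neg_left.add_mul_left_left _
  obtain ⟨g, a, b, c, d, hg, h4, h5, h6⟩ := exists_SL (a := p * (q * j + t)) (c := -X)
    (Or.inl fun k => by
      obtain ⟨y, z, k'⟩ := c1
      exact ne_of_one_lt H.q1 z (by linear_combination k' - y * k))
  generalize (q : ℤ) * (p * j + s) = T at *
  have e3 : T * a + Z * c = 0 := mul_left_cancel₀ (mul_ne_zero four_ne_zero hg.ne') (by
    rw [e2] at h2
    linear_combination h2 - 4 * T * h4 + 4 * T * e1 - 4 * Z * h5)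
  obtain ⟨c, rfl⟩ : (q : ℤ) ∣ c := (h4 ▸ c1).of_mul_left_right.symm.dvd_of_dvd_mul_right
    ⟨-(p * x), by linear_combination -h5 - h1⟩
  obtain ⟨d', b', h7⟩ := ((c2.of_isCoprime_of_dvd_left ⟨-(Z * d + T * b), by
    linear_combination d * e3 - T * h6⟩).symm.mul_left
      (⟨d, -b, by linear_combination h6⟩ : IsCoprime a (q * c)))
  refine ⟨-(q * x * b' ^ 2 - Y * b' * d' + Z * p * d' ^ 2), a, -b', c, d',
    by linear_combination h7, ?_⟩
  obtain rfl : X = -(q * c * g) := by linarith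
  have e4 : Y = a * g + T := by linarith
  simp only [fmap, fval, Prod.mk.injEq]
  refine ⟨?_, ?_, ?_⟩
  · linear_combination q * c * e3 + a * (q * c) * e4
  · linear_combination 2 * p * d' * e3 + (a * (p * d') - b' * (q * c)) * e4 + (a * g - T) * h7 -
      h4 + e1
  · linear_combination b' ^ 2 * h1

theorem Sp.exf (H : Sp N p q D β) (h : Fam N (D ^ 2) β R) :
    ∃ x : ℤ × WW N p, x.1 ∈ Ico 0 D ∧ fo p D (x.1, x.2.1) = R := by
  obtain ⟨k, a, b, c, d, e, h1⟩ := H.ex0 h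
  have e' : p * a * (d + q * c * (k / D)) - (b + p * a * (k / D)) * (q * c) = 1 := by
    linear_combination e
  refine ⟨(k % D, ⟨_, H.alm e'⟩),
    mem_Ico.2 ⟨Int.emod_nonneg _ H.pos.ne', Int.emod_lt_of_pos _ H.pos⟩, ?_⟩
  have h2 : fmap R a (b + p * a * (k / D)) (q * c) (p * (d + q * c * (k / D))) =
      (0, D, -(p * (k % D))) := by
    have := congrArg (fun Q => fmap Q 1 (p * (k / D)) 0 1) h1
    simp only [fmap_fmap] at this
    convert this using 2
    · ring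
    · ring
    · ring
    · ring
    · simp [fmap, fval]
    · simp only [fmap, fval, Int.emod_def, Prod.mk.injEq]
      constructor <;> ring
  rw [fo_of H.p0, ← h2, fmap_inv (by linear_combination e')]

theorem aut0 {e e' : ℤ} (hD : D ≠ 0) (h : a * d - b * c = 1)
    (k : fmap (0, D, e) a b c d = (0, D, e')) :
    c = 0 ∧ (a = 1 ∧ d = 1 ∨ a = -1 ∧ d = -1) ∧ e' = e + D * b * d := by
  simp only [fmap, fval, Prod.mk.injEq] at k
  obtain ⟨k1, k2, k3⟩ := k
  obtain rfl : c = 0 := by_contra fun hc => hD (by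
    have : D * a + e * c = 0 := mul_left_cancel₀ hc (by linear_combination k1)
    have : 2 * D = 0 := by linear_combination 2 * d * this - k2 - D * h
    omega)
  have h1 := Int.eq_one_or_neg_one_of_mul_eq_one' (show a * d = 1 by linarith)
  refine ⟨rfl, h1, ?_⟩
  rcases h1 with ⟨-, rfl⟩ | ⟨-, rfl⟩ <;> linarith

theorem Sp.uniq (H : Sp N p q D β) (hw : ALm N p w) (hw' : ALm N p w') (hk : k ∈ Ico 0 D)
    (hk' : k' ∈ Ico 0 D) (h : fo p D (k', w') = fo p D (k, w)) : k' = k ∧ (w' = w ∨ w' = -w) := by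
  obtain ⟨a, b, c, d, e, rfl⟩ := H.ex hw
  obtain ⟨a', b', c', d', e', rfl⟩ := H.ex hw'
  have p0 : (p : ℤ) ≠ 0 := Nat.cast_ne_zero.2 H.p0
  have h1 := congrArg (fun Q => fmap Q a' b' (q * c') (p * d')) h
  simp only [fo_of H.p0] at h1
  rw [fmap_inv' (by linear_combination e'), fmap_fmap] at h1
  obtain ⟨h2, h3, h4⟩ := aut0 H.pos.ne' (by
    linear_combination (p * a' * d' - b' * (q * c')) * e + e') h1.symm
  set y := -(q * c) * b' + a * (p * d') with hy
  have h5 : k - k' = D * ((d * b' - b * d') * y) := mul_left_cancel₀ p0 (by linear_combination h4)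
  rw [mem_Ico] at hk hk'
  have h6 : k - k' = 0 := Int.eq_zero_of_abs_lt_dvd ⟨_, h5⟩ (abs_lt.2 ⟨by omega, by omega⟩)
  have h7 : d * b' - b * d' = 0 := by
    rw [h6, eq_comm, mul_eq_zero, mul_eq_zero] at h5
    have := H.pos
    omega
  have k1 : a' = a * (p * d * a' + -b * (q * c')) := by linear_combination -a' * e + b * h2
  have k2 : b' = b * y := by linear_combination -b' * e + a * p * h7
  have k3 : q * c' = q * c * (p * d * a' + -b * (q * c')) := by
    linear_combination -(q * c') * e + p * d * h2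
  have k4 : p * d' = p * d * y := by linear_combination -(p * d') * e + q * c * p * h7
  refine ⟨by omega, h3.imp (fun k => ?_) fun k => ?_⟩ <;> rw [k.1] at k1 k3 <;>
    rw [k.2] at k2 k4 <;> rw [k1, k2, k3, k4] <;> simp

theorem two_one {α β : Type*} {φ : α → β} {n : α → α} {F : β → ℤ} {P : α → Prop}
    (hF : (Function.support F).Finite) (h1 : ∀ b, F b ≠ 0 → ∃ a, P a ∧ φ a = b)
    (h2 : ∀ a a', P a → P a' → φ a' = φ a → a' = a ∨ a' = n a)
    (h3 : ∀ a, P a → n a ≠ a ∧ P (n a) ∧ φ (n a) = φ a) : ∃ X : Finset α,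
      (∀ a, a ∈ X ↔ P a ∧ F (φ a) ≠ 0) ∧ ∑ a ∈ X, F (φ a) = 2 * ∑ᶠ b, F b := by
  classical
  have hX : {a | P a ∧ F (φ a) ≠ 0}.Finite := by
    refine (hF.biUnion (t := fun b => {a | P a ∧ φ a = b}) fun b hb => ?_).subset
      fun a ha => Set.mem_biUnion ha.2 ⟨ha.1, rfl⟩
    obtain ⟨a, k, rfl⟩ := h1 b hb
    exact (Set.toFinite {a, n a}).subset fun a' k' => h2 a a' k k'.1 k'.2
  refine ⟨hX.toFinset, fun a => hX.mem_toFinset, ?_⟩
  rw [finsum_eq_sum _ hF, mul_sum, ← sum_fiberwise_of_maps_to (g := φ) (t := hF.toFinset)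
    fun a ha => hF.mem_toFinset.2 (hX.mem_toFinset.1 ha).2]
  refine sum_congr rfl fun b hb => ?_
  rw [hF.mem_toFinset] at hb
  obtain ⟨a, k, rfl⟩ := h1 b hb
  obtain ⟨k1, k2, k3⟩ := h3 a k
  rw [show hX.toFinset.filter (fun x => φ x = φ a) = {a, n a} from ?_, sum_pair k1.symm, k3, two_mul]
  ext x
  rw [mem_filter, hX.mem_toFinset, mem_insert, mem_singleton]
  refine ⟨fun h => h2 a x k h.1.1 h.2, ?_⟩
  rintro (rfl | rfl)
  exacts [⟨⟨k, hb⟩, rfl⟩, ⟨⟨k2, k3 ▸ hb⟩, k3⟩]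

theorem Ap.col (hp : p ∣ N) (h : Ap N p u (0, 1)) (hD : D ≠ 0) (hc : IsCoprime D N) (k : ℤ) :
    Ap N p u (k, D) := by
  obtain ⟨s, g, hs, hg, e⟩ := exists_col hD hc k
  exact e ▸ (h.right hp hg).smul hs

theorem Sp.ne (H : Sp N p q D β) (h : Fam N (D ^ 2) β R) (hu : Ap2 N p (1, 0) (0, 1) u) :
    fval R u.1 u.2 ≠ 0 := by
  obtain ⟨⟨k, w, hw⟩, -, rfl⟩ := H.exf h
  rw [Ne, ← Int.sign_eq_zero_iff_zero, ← H.sign hw, so, Int.sign_eq_zero_iff_zero, dt_mv, hw.det,
    dt_swap u]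
  exact mul_ne_zero (mul_ne_zero (mul_ne_zero (Nat.cast_ne_zero.2 H.p0)
    (by simpa [dt] using H.pos.ne')) (hu.2.col H.dvd H.pos.ne' H.cop k w hw))
    (neg_ne_zero.2 (hu.1 w hw))

theorem Sp.ne1 (H : Sp N p q D β) (h : Fam N (D ^ 2) β R) : R.1 ≠ 0 := by
  simpa [fval] using H.ne h (u := (1, 0)) ⟨H.ap.1, H.ap.2.1⟩

/-- The period homomorphism of the family as a sum of crossing numbers. -/
theorem Sp.two_thw (H : Sp N p q D β) (hA : Squarefree A) (ho : Odd A) (hd : (A : ℤ) ∣ D)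
    (hu : Ap2 N p (1, 0) (0, 1) u) : 2 * thw (wG N A (D ^ 2) β) u.1 u.2 =
      ∑ k ∈ Ico 0 D, J(-(p * k) | A) * II N p (1, 0) u (1, 0) (k, D) := by
  obtain ⟨X, h1, h2⟩ := two_one (φ := fun x : ℤ × WW N p => fo p D (x.1, x.2.1))
    (n := fun x => (x.1, ⟨x.2.1 * -1, alm_mul H.dvd x.2.2 ⟨by simp [Matrix.det_fin_two], by simp⟩⟩))
    (P := fun x => x.1 ∈ Ico 0 D)
    (thw_finite (wt_wG (N := N) ho (dvd_pow hd two_ne_zero) β) (fun R h => H.ne1 (fam_of_wG h))
      fun R h => H.ne (fam_of_wG h) hu)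
    (fun R h => H.exf (fam_of_wG (left_ne_zero_of_mul h)))
    (fun x y hx hy h => by
      obtain ⟨k1, k2⟩ := H.uniq x.2.2 y.2.2 hx hy h
      exact k2.imp (fun k => Prod.ext k1 (Subtype.ext k)) fun k =>
        Prod.ext k1 (Subtype.ext (by simpa using k)))
    fun ⟨k, w, hw⟩ hk => by
      obtain ⟨a, b, c, d, e, rfl⟩ := H.ex hw
      refine ⟨fun h => ?_, hk, ?_⟩
      · have h1 := congrArg (fun x : ℤ × WW N p => x.2.1 0 1) h
        simp at h1
        obtain rfl : b = 0 := by omega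
        exact ne_of_one_lt H.p1 (a * d) (by linear_combination e)
      · dsimp only
        rw [show !![p * a, b; p * (q * c), p * d] * -1 = !![p * -a, -b; p * -(q * c), p * -d] by
          simp, fo_of H.p0, fo_of H.p0]
        simp [fmap, fval]
  rw [thw, ← h2, ← sum_finsum_eq (S := Ico 0 D) (F := fun k (w : WW N p) =>
    wG N A (D ^ 2) β (fo p D (k, w.1)) * ((fo p D (k, w.1)).1.sign -
      (fval (fo p D (k, w.1)) u.1 u.2).sign)) (fun x hx => ((h1 x).1 hx).1)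
    fun k hk w h => (h1 (k, w)).2 ⟨hk, h⟩]
  refine sum_congr rfl fun k _ => ?_
  rw [II, mul_finsum]
  refine finsum_congr fun w => ?_
  rw [wG_of_fam (H.fam w.2 k), H.gch hA ho hd w.2, cr, H.sign w.2, H.sign w.2]
  simp [fval]

end Pool.Agent.G5.SW
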