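import Pool.Agent.Lib.MP_696deb_nt.B5.SWa
import Pool.Agent.Lib.MP_696deb_nt.B5.ZHb
import Pool.Agent.Lib.MP_696deb_nt.B5.LAa

/-! Values at the cusps and the Hecke recursion for twisted sums of them. -/

set_option autoImplicit false

open Finset NumberTheorySymbols Filter Topology

namespace Pool.Agent.G5.SW

open Pool.Agent.Lib.MP_696deb_nt Pool.Agent.B4.GE

/-- The value at the cusp `k / D`. -/
noncomputable def cv (G : ℂ → ℂ) (k D : ℤ) : ℂ := cI G + Ld G k D 1

/-- The twisted sums of values at cusps. -/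
noncomputable def Lm (A : ℕ) (G : ℂ → ℂ) (m : ℕ) : ℂ :=
  ∑ k ∈ range (A * m), (J((k : ℤ) | A) : ℂ) * cv G k (A * m : ℕ)

variable {N A l l' m : ℕ} {G G' : ℂ → ℂ} {k D : ℤ} {g : MZ} {η : ℕ → ℤ} {s t : HW}
  {a : ℕ →₀ ℤ}

theorem cv_lim (hN : N ≠ 0) (hG : Ci N G) (hg : 0 < g.det) (hD : D ≠ 0)
    (h : (mv g (k, D)).2 ≠ 0) : Tendsto (fun z => G (act g (act !![k, -D; D, 0] z))) atI
      (𝓝 (cv G (mv g (k, D)).1 (mv g (k, D)).2)) := by
  have h0 : 0 < Matrix.det !![k, -D; D, 0] := by simpa using hD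
  have e1 : (g * !![k, -D; D, 0]) 0 0 = (mv g (k, D)).1 := by
    simp [mv, Matrix.mul_apply, Fin.sum_univ_two]
  have e2 : (g * !![k, -D; D, 0]) 1 0 = (mv g (k, D)).2 := by
    simp [mv, Matrix.mul_apply, Fin.sum_univ_two]
  have := hG.tendsto_act hN (g := g * !![k, -D; D, 0]) (by rw [Matrix.det_mul]; positivity)
    (e2 ▸ h)
  rw [e1, e2] at this
  exact this.congr' (ev_pos.mono fun z hz => by rw [act_mul _ h0.ne' hz])

theorem cv_lim1 (hN : N ≠ 0) (hG : Ci N G) (hD : D ≠ 0) (k : ℤ) :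
    Tendsto (fun z => G (act !![k, -D; D, 0] z)) atI (𝓝 (cv G k D)) :=
  hG.tendsto_act hN (g := !![k, -D; D, 0]) (by simpa using hD) hD

theorem cv_eq (hN : N ≠ 0) (hG : Ci N G) (hD : D ≠ 0) {L : ℂ}
    (h : Tendsto (fun z => G' (act !![k, -D; D, 0] z)) atI (𝓝 L))
    (e : ∀ z : ℂ, 0 < z.im → G' z = G z) : cv G k D = L :=
  have := atI_neBot
  tendsto_nhds_unique (cv_lim1 hN hG hD k)
    (h.congr' (ev_pos.mono fun _ hz => e _ (act_pos (by simpa using hD) hz)))

theorem cv_act (hN : N ≠ 0) (hG : Ci N G) (hg : 0 < g.det) {c : ℂ}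
    (e : ∀ z : ℂ, 0 < z.im → G (act g z) = G z + c) (hD : D ≠ 0) (h : (mv g (k, D)).2 ≠ 0) :
    cv G (mv g (k, D)).1 (mv g (k, D)).2 = cv G k D + c :=
  (sub_eq_iff_eq_add.1 (cv_eq hN hG hD (G' := fun z => G (act g z) - c)
    ((cv_lim hN hG hg hD h).sub_const c) fun z hz => by rw [e z hz, add_sub_cancel_right]).symm)

theorem cv_scale (G : ℂ → ℂ) {r : ℤ} (hr : r ≠ 0) (k D : ℤ) : cv G (r * k) (r * D) = cv G k D := by
  rw [cv, mul_comm r, mul_comm r, Ld_scale G hr, cv]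

theorem cv_per (hN : N ≠ 0) (hG : Ci N G) (hD : D ≠ 0) (k j : ℤ) :
    cv G (k + j * D) D = cv G k D := by
  have hg : G0 N !![1, j; 0, 1] := ⟨by simp, by simp⟩
  obtain ⟨c, hc⟩ := hG.inv _ hg
  have := atI_neBot
  obtain rfl : c = 0 := left_eq_add.1 (tendsto_nhds_unique
    (hG.tendsto_upper hN (g := !![1, j; 0, 1]) (by simp) rfl)
    (((hG.tendsto hN).add_const c).congr' (ev_pos.mono fun z hz => (hc z hz).symm)))
  simpa [mv] using cv_act hN hG (by simp) hc hD (k := k) (by simpa [mv] using hD)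

theorem cv_Tf (hN : N ≠ 0) (hG : Ci N G) (hl : l.Prime) (e : ¬ l ∣ N) (hD : D ≠ 0) (k : ℤ) :
    cv (Tf ℂ l G) k D = cv G (l * k) D + ∑ j ∈ range l, cv G (k + j * D) (l * D) := by
  rw [cv_eq hN (hG.Tf hN hl e) hD (G' := fun z => ∑ i, G (act (rP l i) z))
    (tendsto_finsetSum univ fun i _ => cv_lim hN hG (rP_det_pos hl i) hD (k := k) (by
      rcases i with _ | i <;> simp [mv, rP, ut, hD, hl.ne_zero])) fun _ _ => rfl, Fintype.sum_option,
    sum_range]
  simp [mv, rP, ut]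

theorem sum_range_mul {V : Type*} [AddCommMonoid V] (f : ℕ → V) (D l : ℕ) :
    ∑ k ∈ range (D * l), f k = ∑ j ∈ range l, ∑ k ∈ range D, f (k + j * D) := by
  induction l with
  | zero => simp
  | succ l ih =>
    rw [Nat.mul_succ, sum_range_add, ih, sum_range_succ]
    simp only [mul_comm D l, add_comm (l * D)]

theorem jac_shift (A k j m : ℕ) : J(((k + j * (A * m) : ℕ) : ℤ) | A) = J((k : ℤ) | A) :=
  jac_congr ⟨j * m, by push_cast; ring⟩

theorem sum_jac_mul (hA : Squarefree A) (ho : Odd A) (h1 : 1 < A) (m : ℕ) :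
    ∑ k ∈ range (A * m), J((k : ℤ) | A) = 0 := by
  rw [sum_range_mul]
  refine sum_eq_zero fun j _ => ?_
  rw [← sum_jac_eq_zero hA ho h1]
  exact sum_congr rfl fun k _ => by simpa using jac_shift A k j 1

theorem sum_affine {V : Type*} [AddCommMonoid V] {f : ℕ → V} {D r : ℕ} (hD : D ≠ 0)
    (hf : Function.Periodic f D) (hr : D.Coprime r) (c : ℕ) :
    ∑ j ∈ range D, f (c + j * r) = ∑ j ∈ range D, f j :=
  fpa_per hD hf _ _ (card_range D) fun _ hx _ hy h => Nat.ModEq.eq_of_lt_of_lt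
    ((Nat.ModEq.add_left_cancel' c h).cancel_right_of_coprime hr) (mem_range.1 hx) (mem_range.1 hy)

theorem Lm_Tf (hN : N ≠ 0) (hG : Ci N G) (hl : l.Prime) (e : ¬ l ∣ N) (hA : Squarefree A)
    (ho : Odd A) (hm : m ≠ 0) : Lm A (Tf ℂ l G) m = Lm A G (l * m) +
      if l ∣ m then (l : ℤ) • Lm A G (m / l) else et A l • Lm A G m := by
  have A0 := hA.ne_zero
  have l0 : (l : ℤ) ≠ 0 := Nat.cast_ne_zero.2 hl.ne_zero
  have per : ∀ {D : ℕ}, D ≠ 0 → ∀ k j : ℕ, cv G (k + j * D : ℕ) D = cv G k D := fun hD k j => by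
    rw [Nat.cast_add, Nat.cast_mul, cv_per hN hG (Nat.cast_ne_zero.2 hD)]
  have sc : ∀ (D : ℕ) (k : ℤ), cv G (l * k) (D * l : ℕ) = cv G k D := fun D k => by
    rw [Nat.cast_mul, mul_comm (D : ℤ), cv_scale G l0]
  simp only [Lm, cv_Tf hN hG hl e (Nat.cast_ne_zero.2 (mul_ne_zero A0 hm)), mul_add,
    sum_add_distrib]
  rw [add_comm]
  congr 1
  · rw [show A * (l * m) = A * m * l by ring, sum_range_mul _ (A * m) l, sum_comm]
    refine sum_congr rfl fun k _ => ?_
    rw [mul_sum]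
    refine sum_congr rfl fun j _ => ?_
    rw [jac_shift, Nat.cast_mul _ l, mul_comm _ (l : ℤ), Nat.cast_add, Nat.cast_mul j]
  split_ifs with h
  · obtain ⟨m, rfl⟩ := h
    rw [Nat.mul_div_cancel_left _ hl.pos, show A * (l * m) = A * m * l by ring, sum_range_mul]
    simp only [sc, jac_shift, per (mul_ne_zero A0 (right_ne_zero_of_mul hm))]
    rw [sum_const, card_range, natCast_zsmul]
  by_cases h' : l ∣ A
  · obtain ⟨A, rfl⟩ := h'
    have c : l.Coprime (A * m) :=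
      (Nat.coprime_of_squarefree_mul hA).mul_right ((Nat.Prime.coprime_iff_not_dvd hl).2 h)
    have A1 := right_ne_zero_of_mul A0
    have : NeZero l := ⟨hl.ne_zero⟩
    have : NeZero A := ⟨A1⟩
    rw [et, jacobiSym.mul_right, jacobiSym.mod_left l l, Int.emod_self,
      jacobiSym.zero_left hl.one_lt, zero_mul, zero_smul, show l * A * m = A * m * l by ring,
      sum_range_mul, sum_comm]
    refine sum_eq_zero fun k _ => ?_
    simp only [sc, jacobiSym.mul_right, jac_shift, per (mul_ne_zero A1 hm), Int.cast_mul]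
    rw [← sum_mul, ← sum_mul, ← Int.cast_sum, sum_affine (f := fun x : ℕ => J((x : ℤ) | l))
      hl.ne_zero (fun x => jac_congr (by simp)) c,
      sum_jac_eq_zero hl.squarefree (Odd.of_dvd_nat ho ⟨A, rfl⟩) hl.one_lt]
    simp
  · have c := (Nat.Prime.coprime_iff_not_dvd hl).2 h'
    have c1 : (J((l : ℤ) | A) : ℂ) ^ 2 = 1 := by
      exact_mod_cast jacobiSym.sq_one (a := l) (b := A) c
    rw [← sum_affine (f := fun x : ℕ => (J((x : ℤ) | A) : ℂ) * cv G x (A * m : ℕ)) (r := l)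
      (mul_ne_zero A0 hm) (fun x => by
        have h1 := jac_shift A x 1 m
        have h2 := per (mul_ne_zero A0 hm) x 1
        rw [one_mul] at h1 h2
        beta_reduce
        rw [h1, h2])
      (c.mul_right ((Nat.Prime.coprime_iff_not_dvd hl).2 h)).symm 0, smul_sum]
    refine sum_congr rfl fun k _ => ?_
    rw [zero_add, Nat.cast_mul k, jacobiSym.mul_left, mul_comm (k : ℤ), et, zsmul_eq_mul]
    push_cast
    linear_combination -(J((k : ℤ) | A) * cv G (l * k) (A * m)) * c1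

theorem Ta_comm (hl : l.Prime) (hl' : l'.Prime) : Commute (Ta η l) (Ta η l') := by
  rcases eq_or_ne l l' with rfl | h
  · exact .refl _
  have c := (Nat.coprime_primes hl hl').2 h
  refine Finsupp.lhom_ext fun m x => ?_
  simp only [Module.End.mul_apply, Ta_single, map_smul, map_add, c.dvd_mul_left,
    c.symm.dvd_mul_left, mul_left_comm l l']
  congr 1
  by_cases h1 : l ∣ m <;> by_cases h2 : l' ∣ m
  · obtain ⟨n, rfl⟩ := c.mul_dvd_of_dvd_of_dvd h1 h2
    have e1 : l * l' * n / l = l' * n := by rw [mul_assoc, Nat.mul_div_cancel_left _ hl.pos]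
    have e2 : l * l' * n / l' = l * n := by
      rw [mul_comm l, mul_assoc, Nat.mul_div_cancel_left _ hl'.pos]
    simp only [h1, h2, if_true, Ta_single, Nat.mul_div_assoc _ h1, Nat.mul_div_assoc _ h2, e1, e2,
      dvd_mul_right, Nat.mul_div_cancel_left _ hl.pos, Nat.mul_div_cancel_left _ hl'.pos,
      smul_add, Finsupp.smul_single, smul_eq_mul, mul_one, one_smul, mul_comm (l : ℤ) l']
    abel
  · have h3 : ¬ l' ∣ m / l := fun k => h2 (k.trans (Nat.div_dvd_of_dvd h1))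
    simp only [h1, h2, h3, if_true, if_false, Ta_single, Nat.mul_div_assoc _ h1, smul_add,
      Finsupp.smul_single, smul_eq_mul, mul_one, one_mul, one_smul, mul_comm (l : ℤ)]
    abel
  · have h3 : ¬ l ∣ m / l' := fun k => h1 (k.trans (Nat.div_dvd_of_dvd h2))
    simp only [h1, h2, h3, if_true, if_false, Ta_single, Nat.mul_div_assoc _ h2, smul_add,
      Finsupp.smul_single, smul_eq_mul, mul_one, one_mul, one_smul, mul_comm (l' : ℤ)]
    abel
  · simp only [h1, h2, if_false, Ta_single, smul_add, Finsupp.smul_single, smul_eq_mul, mul_one,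
      one_mul, one_smul, mul_comm (η l)]
    abel

theorem ha_comm (hs : s ∈ HA N) (ht : t ∈ HA N) : Commute (ha η s) (ha η t) := by
  have key : ∀ (x : Module.End ℤ (ℕ →₀ ℤ)) {t}, t ∈ HA N →
      (∀ l : ℕ, l.Prime → Commute x (Ta η l)) → Commute x (ha η t) := fun x t ht h =>
    HA_ind (p := fun t => Commute x (ha η t)) ht (fun l hl _ => ha_tl η l ▸ h l hl)
      (fun c => by
        rw [AlgHom.commutes]
        exact (Algebra.commutes c x).symm)
      (fun _ _ _ _ h1 h2 => map_add (ha η) _ _ ▸ h1.add_right h2)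
      fun _ _ _ _ h1 h2 => map_mul (ha η) _ _ ▸ h1.mul_right h2
  exact key _ ht fun l hl => (key _ hs fun _ hl' => Ta_comm hl hl').symm

theorem Lm_hf (hN : N ≠ 0) (hA : Squarefree A) (ho : Odd A) (ht : t ∈ HA N) (hG : Ci N G)
    (h : Sup N a) : cmb (Lm A (hf ℂ t G)) a = cmb (Lm A G) (ha (et A) t a) := by
  have d0 : ∀ {m : ℕ}, m ≠ 0 → ((A * m : ℕ) : ℤ) ≠ 0 := fun hm =>
    Nat.cast_ne_zero.2 (mul_ne_zero hA.ne_zero hm)
  have key : ∀ (t : HW) (G : ℂ → ℂ) {a : ℕ →₀ ℤ}, Sup N a → (∀ m : ℕ, m ≠ 0 → m.Coprime N →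
      Lm A (hf ℂ t G) m = cmb (Lm A G) (ha (et A) t (.single m 1))) →
      cmb (Lm A (hf ℂ t G)) a = cmb (Lm A G) (ha (et A) t a) := fun t G a h e =>
    h.ind (p := fun a => cmb (Lm A (hf ℂ t G)) a = cmb (Lm A G) (ha (et A) t a)) (by simp)
      (fun m c h0 h1 => by
        rw [cmb_single, e m h0 h1, ← map_smul, ← map_smul, Finsupp.smul_single_one])
      fun b b' h1 h2 => by simp only [map_add, h1, h2]
  revert G a
  refine HA_ind (p := fun t => ∀ {G : ℂ → ℂ} {a : ℕ →₀ ℤ}, Ci N G → Sup N a →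
    cmb (Lm A (hf ℂ t G)) a = cmb (Lm A G) (ha (et A) t a)) ht
    (fun l hl e G a hG h => key _ _ h fun m h0 _ => ?_) (fun c G a hG h => key _ _ h fun m h0 _ => ?_)
    (fun s t hs ht h1 h2 G a hG h => key _ _ h fun m h0 hm => ?_) fun s t hs ht h1 h2 G a hG h => ?_
  · rw [hf_tl, ha_tl, Lm_Tf hN hG hl e hA ho h0, Ta_single, one_smul, map_add, cmb_single, one_smul]
    split_ifs <;> rw [cmb_single]
  · rw [ha_int, map_smul, cmb_single, one_smul, Lm, Lm, smul_sum]
    refine sum_congr rfl fun k _ => ?_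
    rw [cv_eq hN (hG.hf hN (Subalgebra.algebraMap_mem _ c)) (d0 h0) (G' := fun z => c * G z)
      ((cv_lim1 hN hG (d0 h0) k).const_mul _) fun z _ => by rw [hf_int, zsmul_eq_mul],
      zsmul_eq_mul, mul_left_comm]
  · rw [ha_add, map_add (cmb _), ← h1 hG (.single h0 hm 1), ← h2 hG (.single h0 hm 1), cmb_single,
      cmb_single, one_smul, one_smul, Lm, Lm, Lm, ← sum_add_distrib]
    refine sum_congr rfl fun k _ => ?_
    rw [cv_eq hN (hG.hf hN (add_mem hs ht)) (d0 h0) (G' := fun z => hf ℂ s G z + hf ℂ t G z)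
      ((cv_lim1 hN (hG.hf hN hs) (d0 h0) k).add (cv_lim1 hN (hG.hf hN ht) (d0 h0) k))
      fun z _ => (hf_add _ _ _ _).symm, mul_add]
  · rw [hf_mul, h1 (hG.hf hN ht) h, h2 hG (h.ha hs), ← Module.End.mul_apply, ← (ha_comm hs ht).eq,
      map_mul]

end Pool.Agent.G5.SW
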