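import Pool.Agent.Lib.MP_696deb_nt.B5.SWb
import Pool.Agent.Lib.MP_696deb_nt.B5.SWc
import Pool.Agent.Lib.MP_696deb_nt.B5.PJ6

/-! The class of the split family, and its vanishing. -/

set_option autoImplicit false

open Finset NumberTheorySymbols Filter Topology
open scoped MatrixGroups

namespace Pool.Agent.G5

namespace SW

open Pool.Agent.Lib.MP_696deb_nt hiding Fam wG Geo
open Pool.Agent.B4.GE

variable {N p q A B m : ℕ} {g h : MZ} {u u' : V2} {k D s β ρ ρ' : ℤ}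

/-- A homomorphism that kills the parabolic elements is a real period homomorphism. -/
theorem exists_ci (hN : N ≠ 0) {θ : MZ → ℝ}
    (h1 : ∀ g h, G0 N g → G0 N h → θ (g * h) = θ g + θ h)
    (h2 : ∀ g (c : V2), G0 N g → IsCoprime c.1 c.2 → mv g c = c → θ g = 0) :
    ∃ G, Ci N G ∧ ∀ g, G0 N g → ∀ z : ℂ, 0 < z.im → (G (act g z)).re = (G z).re + θ g := by
  have : NeZero N := ⟨hN⟩
  obtain ⟨G, hG, h3, h4⟩ := B5.HA.eichler_shimura (Γ := CongruenceSubgroup.Gamma0 N)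
    (θ := fun γ => θ γ.1) (fun γ hγ δ hδ => h1 _ _ (B5.pj_gamma.1 hγ) (B5.pj_gamma.1 hδ))
    fun γ => ⟨N * 1, by omega, B5.pj_par N 1 γ, h2 _ (mv γ.1 (1, 0)) (B5.pj_gamma.1 (B5.pj_par N 1 γ))
      ⟨γ.1 1 1, -γ.1 0 1, by simpa [mv, mul_comm, sub_eq_add_neg] using det_eq γ.2⟩ (by
        rw [← mv_mul, ← Matrix.SpecialLinearGroup.coe_mul, inv_mul_cancel_right,
          Matrix.SpecialLinearGroup.coe_mul, B5.pj_T, mv_mul]
        simp [mv])⟩
  have h5 : ∀ g, G0 N g → ∀ z : ℂ, 0 < z.im → (G (act g z)).re = (G z).re + θ g :=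
    fun g hg z hz => (congrArg (fun x => (G x).re) (coe_smul_eq_mob ⟨g, hg.1⟩ ⟨z, hz⟩)).symm.trans
      (h3 ⟨g, hg.1⟩ (B5.pj_gamma.2 hg) ⟨z, hz⟩)
  refine ⟨G, ⟨hG, fun g hg => ?_, fun g hg =>
    h4 ⟨g, hg⟩ N hN (by simpa only [mul_one] using B5.pj_par N 1 ⟨g, hg⟩)⟩, h5⟩
  have o : IsOpen {z : ℂ | 0 < z.im} := isOpen_lt continuous_const Complex.continuous_im
  obtain ⟨c, hc⟩ := AnalyticOnNhd.eq_const_of_re_eq_const (f := fun z => G (act g z) - G z)
    (c₀ := θ g) (DifferentiableOn.analyticOnNhd (fun z hz =>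
      ((hol_act hG (hg.1 ▸ one_pos) z hz).sub (hG z hz)).differentiableWithinAt) o)
    (fun z hz => by rw [Complex.sub_re, h5 g hg z hz, add_sub_cancel_left]) o
    ⟨B5.stab_top.ne, (convex_halfSpace_im_gt 0).isPreconnected⟩
  exact ⟨c, fun z hz => sub_eq_iff_eq_add'.1 (hc z hz)⟩

theorem Lv.split (H : Lv N p q) (hu : Ap2 N p (1, 0) (0, 1) u) (hu' : Ap2 N p (1, 0) (0, 1) u')
    (hs : s ≠ 0) (hg : G0 N g) : II N p u u' (1, 0) (s • mv g (0, 1)) =
      II N p u u' (1, 0) (0, 1) + II N p u u' (0, 1) (mv g (0, 1)) := by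
  have k1 : Ap2 N p u u' (1, 0) := ⟨hu.1.symm, hu'.1.symm⟩
  have k2 : Ap2 N p u u' (0, 1) := ⟨hu.2.symm, hu'.2.symm⟩
  have k3 := II_add k1 k2 (k2.left H.dvd hg)
  rw [II_symm H.p0 k1 k2, II_symm H.p0 k2 (k2.left H.dvd hg), II_symm H.p0 k1 (k2.left H.dvd hg)]
    at k3
  rw [II_smul hs]
  omega

theorem Lv.ap1 (H : Lv N p q) : Ap2 N p (1, 0) (0, 1) (1, 0) := ⟨H.ap.1, H.ap.2.1⟩

theorem Lv.ap2 (H : Lv N p q) : Ap2 N p (1, 0) (0, 1) (0, 1) := H.ap.2.2

/-- The class dual to a loop. -/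
theorem Lv.dual (H : Lv N p q) (hN : N ≠ 0) (hg : G0 N g) : ∃ (G : ℂ → ℂ) (C : ℝ), Ci N G ∧
    ∀ k D : ℤ, D ≠ 0 → IsCoprime D N →
      (II N p (1, 0) (mv g (1, 0)) (1, 0) (k, D) : ℝ) = C + (cv G k D).re := by
  have k1 : Ap2 N p (1, 0) (mv g (1, 0)) (0, 1) := ⟨H.ap2.1, H.ap2.1.right H.dvd hg⟩
  obtain ⟨G, hG, h1⟩ := exists_ci hN
    (θ := fun h => -(II N p (0, 1) (mv h (0, 1)) (1, 0) (mv g (1, 0)) : ℤ))
    (fun h h' hh hh' => by
      rw [II_mul H.dvd H.p0 hh hh' k1]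
      push_cast
      ring)
    fun h c hh hc e => by rw [(H.par hh hg hc e H.ap2).1, Int.cast_zero, neg_zero]
  refine ⟨G, II N p (1, 0) (mv g (1, 0)) (1, 0) (0, 1) - (cv G 0 1).re, hG, fun k D hD hc => ?_⟩
  obtain ⟨s, h, hs, hh, e⟩ := exists_col hD hc k
  obtain ⟨c, h2⟩ := hG.inv h hh
  have e1 : k = s * (mv h (0, 1)).1 := congrArg Prod.fst e
  have e2 : D = s * (mv h (0, 1)).2 := congrArg Prod.snd e
  have h3 := h1 h hh Complex.I (by simp)
  rw [h2 _ (by simp), Complex.add_re, add_right_inj, II_symm H.p0 k1 (k1.left H.dvd hh)] at h3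
  rw [e, H.split H.ap1 (H.ap1.left H.dvd hg) hs hh, e1, e2, cv_scale G hs,
    cv_act hN hG (hh.1 ▸ one_pos) h2 one_ne_zero (right_ne_zero_of_mul (e2 ▸ hD)),
    Complex.add_re, h3]
  push_cast
  ring

theorem sum_jac_neg {V : Type*} [CommRing V] (f : ℤ → V) (p A D : ℕ) :
    ∑ k ∈ Ico (0 : ℤ) D, (J(-(p * k) | A) : V) * f k =
      J(-p | A) * ∑ k ∈ range D, (J((k : ℤ) | A) : V) * f k := by
  rw [Int.Ico_eq_finset_map, sum_map, mul_sum]
  simp [← neg_mul, jacobiSym.mul_left, mul_assoc]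

theorem Cw_eq (N A : ℕ) (β : ℤ) (m : ℕ) : Cw N A β m = wG N A (((A * m : ℕ) : ℤ) ^ 2) (β * m) := by
  rw [Cw]
  congr 1
  push_cast
  ring

theorem sp_of (H : Cx N p A B ρ ρ' β) (hm : m ≠ 0) (hc : m.Coprime N) :
    Sp N p (N / p) (A * m : ℕ) (β * m) := by
  have e := (Nat.mul_div_cancel' H.dvd).symm
  have h1 := H.root
  have h2 := H.rq
  have h3 := H.bet
  have h4 := H.cop
  have h5 := H.lodd
  have h6 := H.ne
  have h7 := H.l1
  have h8 := H.A1
  generalize N / p = q at *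
  have oB : Odd B := Odd.of_dvd_nat (Nat.odd_iff.2 (by have := H.mod4; omega)) (dvd_mul_left B A)
  have c1 : IsCoprime (2 * N : ℤ) B := by
    exact_mod_cast Nat.isCoprime_iff_coprime.2 ((Nat.coprime_two_left.2 oB).mul_left
      (Nat.Coprime.coprime_mul_left h4).symm)
  have c2 : IsCoprime (2 : ℤ) p := by
    exact_mod_cast Nat.isCoprime_iff_coprime.2 (Nat.coprime_two_left.2 (h5.of_dvd_nat H.dvd))
  have e' : (N : ℤ) = p * q := by exact_mod_cast e
  have d1 : 2 * (q : ℤ) ∣ 2 * N := ⟨p, by rw [e']; ring⟩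
  have d2 : 2 * (p : ℤ) ∣ 2 * N := ⟨q, by rw [e']; ring⟩
  have d3 : 2 * (N : ℤ) ∣ ρ ^ 2 + (A * B : ℕ) := Dvd.dvd.trans ⟨2, by ring⟩ h1
  have d4 : 2 * (p : ℤ) ∣ ρ' + ρ := c2.mul_dvd
    (by have := (dvd_mul_right 2 (q : ℤ)).trans h2; omega) H.rp
  refine ⟨⟨e, H.hp.one_lt, ?_⟩, by positivity, Nat.isCoprime_iff_coprime.2
    ((Nat.Coprime.coprime_mul_right h4).mul_left hc), ?_, ?_⟩
  · by_contra! k
    interval_cases q <;> omega
  · rw [Nat.cast_mul, ← sub_mul]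
    refine ((c1.of_isCoprime_of_dvd_left d1).dvd_of_dvd_mul_left ?_).mul_right _
    convert ((d1.trans h3).sub (h2.mul_left ρ)).sub (d1.trans d3) using 1
    push_cast
    ring
  · rw [Nat.cast_mul, ← add_mul]
    refine ((c1.of_isCoprime_of_dvd_left d2).dvd_of_dvd_mul_left ?_).mul_right _
    convert ((d2.trans h3).sub (d4.mul_left ρ)).add (d2.trans d3) using 1
    push_cast
    ring

end SW

open SW Pool.Agent.Lib.MP_696deb_nt Pool.Agent.B4.GE in
theorem sw_stmt (hw : HWStmt) : SWStmt := by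
  intro N p A B ρ ρ' β H
  have hN : N ≠ 0 := H.lsq.ne_zero
  have hA : Squarefree A := H.sqf.of_mul_left
  have ho : Odd A := Odd.of_dvd_nat (Nat.odd_iff.2 (by have := H.mod4; omega)) (dvd_mul_right A B)
  have L : Lv N p (N / p) := (sp_of H one_ne_zero (Nat.coprime_one_left N)).toLv
  have dA : ∀ m : ℕ, (A : ℤ) ∣ (A * m : ℕ) := fun m => ⟨m, Nat.cast_mul _ _⟩
  have act' : ∀ m : ℕ, m ≠ 0 → m.Coprime N → ∀ g, G0 N g → ∀ z : ℂ, 0 < z.im →
      Iw (Cw N A β m) (act g z) = thw (Cw N A β m) (g 0 0) (g 1 0) / 2 + Iw (Cw N A β m) z :=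
    fun m h0 h1 g hg z hz => by
      rw [Cw_eq]
      exact Iw_act (wt_wG ho (dvd_pow (dA m) two_ne_zero) _)
        (fun R h => (sp_of H h0 h1).ne1 (fam_of_wG h)) hg hz
  have two : ∀ m : ℕ, m ≠ 0 → m.Coprime N → ∀ g, G0 N g →
      2 * thw (Cw N A β m) (g 0 0) (g 1 0) = J(-p | A) * ∑ k ∈ range (A * m),
        J((k : ℤ) | A) * II N p (1, 0) (mv g (1, 0)) (1, 0) (k, (A * m : ℕ)) := fun m h0 h1 g hg => by
    have := (sp_of H h0 h1).two_thw hA ho (dA m) (L.ap1.left L.dvd hg)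
    rw [← Cw_eq] at this
    simpa [mv] using this.trans (sum_jac_neg (V := ℤ) _ p A (A * m))
  refine ⟨fun m h0 h1 R h => ?_, ?_⟩
  · rw [Cw_eq] at h
    have b0 : (B : ℤ) ≠ 0 := by have := H.B1; omega
    have c : IsCoprime (B : ℤ) N := Nat.isCoprime_iff_coprime.2 (Nat.Coprime.coprime_mul_left H.cop)
    exact ⟨(sp_of H h0 h1).ne1 (fam_of_wG h), fun k => (sp_of H h0 h1).ne (fam_of_wG h) (u := (k, B))
      ⟨(L.ap1.2.col L.dvd b0 c k).symm, (L.ap2.2.col L.dvd b0 c k).symm⟩⟩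
  have act1 := act' 1 one_ne_zero (Nat.coprime_one_left N)
  obtain ⟨G, hG, h1⟩ := exists_ci hN (θ := fun g => thw (Cw N A β 1) (g 0 0) (g 1 0) / 2)
    (fun g h hg hh => by
      have k1 := act1 _ (g0_mul hg hh) Complex.I (by simp)
      rw [act_mul _ (hh.1 ▸ one_ne_zero) (by simp), act1 g hg _ (act_pos (hh.1 ▸ one_pos) (by simp)),
        act1 h hh _ (by simp)] at k1
      linarith)
    fun g c hg hc e => by
      have k1 := two 1 one_ne_zero (Nat.coprime_one_left N) g hg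
      have S := sp_of H one_ne_zero (Nat.coprime_one_left N)
      rw [sum_congr rfl (g := fun k : ℕ => J((k : ℤ) | A) * II N p (1, 0) (mv g (1, 0)) (1, 0) (0, 1))
        fun k _ => by
          obtain ⟨s, h, hs, hh, e'⟩ := exists_col S.pos.ne' S.cop k
          rw [e', L.split L.ap1 (L.ap1.left L.dvd hg) hs hh, (L.par hg hh hc e L.ap1).2, add_zero],
        ← sum_mul, sum_jac_mul hA ho H.A1, zero_mul, mul_zero] at k1
      rw [(mul_eq_zero.1 k1).resolve_left two_ne_zero, Int.cast_zero, zero_div]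
  have inv : Inv0 N fun z => (G z).re - Iw (Cw N A β 1) z := fun g hg z hz => by
    beta_reduce
    rw [h1 g hg z hz, act1 g hg z hz]
    ring
  refine ⟨G, ⟨hG, inv⟩, fun F F₂ t hF hF₂ ht hP k1 k2 => B5.ci_const hN (hG.hf hN ht) ?_⟩
  have s1 : Sup N (.single 1 1) := .single one_ne_zero (Nat.coprime_one_left N) 1
  have s2 := s1.ha (η := et A) ht
  have e1 : ∀ z : ℂ, 0 < z.im → (hf ℂ t G z).re = hf ℝ t (fun z => (G z).re - Iw (Cw N A β 1) z) z +
      cmb (fun m => Iw (Cw N A β m)) (ha (et A) t (.single 1 1)) z := fun z hz => by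
    rw [← (hw N p A B ρ ρ' β H).2.1.hf ht s1 hz, cmb_single, one_smul, ← Pi.add_apply (hf ℝ t _),
      ← map_add]
    refine (congrFun (hf_map Complex.reAddGroupHom t G) z).symm.trans ?_
    refine congrFun (congrArg _ (funext fun x => ?_)) z
    simp
  intro g hg z hz
  beta_reduce
  rw [e1 z hz, e1 _ (act_pos (hg.1 ▸ one_pos) hz), inv0_hf inv ht g hg z hz, add_right_inj]
  obtain ⟨G', C, hG', h2⟩ := L.dual hN hg
  have h3 : ∀ a : ℕ →₀ ℤ, Sup N a → cmb (fun m => Iw (Cw N A β m)) a (act g z) =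
      cmb (fun m => Iw (Cw N A β m)) a z + J(-p | A) * (cmb (Lm A G') a).re / 4 := fun a h =>
    h.ind (p := fun a => cmb (fun m => Iw (Cw N A β m)) a (act g z) =
      cmb (fun m => Iw (Cw N A β m)) a z + J(-p | A) * (cmb (Lm A G') a).re / 4) (by simp)
      (fun m c m0 m1 => by
        have S := sp_of H m0 m1
        have k3 := congrArg (Int.cast : ℤ → ℝ) (two m m0 m1 g hg)
        have k4 : ∑ k ∈ range (A * m), (J((k : ℤ) | A) : ℝ) = 0 := by
          exact_mod_cast sum_jac_mul hA ho H.A1 m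
        simp only [Int.cast_mul, Int.cast_sum, h2 _ _ S.pos.ne' S.cop, mul_add, sum_add_distrib,
          ← sum_mul, k4] at k3
        rw [cmb_single, cmb_single, Pi.smul_apply, Pi.smul_apply, act' m m0 m1 g hg z hz, Lm]
        simp only [zsmul_eq_mul, ← Complex.ofReal_intCast, Complex.re_ofReal_mul, Complex.re_sum]
        push_cast at k3 ⊢
        linear_combination c / 4 * k3)
      fun a b k3 k4 => by
        simp only [map_add, Pi.add_apply, Complex.add_re, k3, k4]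
        ring
  obtain ⟨κ, κ₂, c, h4⟩ := hP G' hG'
  have h5 : ∑ k ∈ range A, (J((k : ℤ) | A) : ℂ) = 0 := by
    exact_mod_cast sum_jac_eq_zero hA ho H.A1
  have h6 : Lm A (hf ℂ t G') 1 = κ * LA F A 1 + κ₂ * LA F₂ A 1 := by
    simp only [Lm, LA, SW.cv, mul_one, mul_add, sum_add_distrib, ← sum_mul, h5, zero_mul, zero_add,
      Ld_lin hN hF hF₂ h4 _ (Nat.cast_ne_zero.2 hA.ne_zero), mul_sum, mul_left_comm]
  rw [h3 _ s2, ← Lm_hf hN hA ho ht hG' s1, cmb_single, h6, k1, k2]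
  simp

end Pool.Agent.G5
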