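import Pool.Agent.Lib.MP_696deb_nt.B5.EXb

/-! The projector produces a function whose multiplier comes from the elliptic curve. -/

set_option autoImplicit false

open Filter Topology Complex Set CongruenceSubgroup ModularGroup
open scoped Classical Real MatrixGroups UpperHalfPlane ComplexConjugate

namespace Pool.Agent.G5

open Pool.Agent.Lib.MP_696deb_nt Pool.Agent.B4.GE Pool.Agent.Shared.Weier

/-- A power of a unitary character of a finitely generated group has a logarithm. -/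
theorem exists_log {Γ : Type*} [Group Γ] [Group.FG Γ] (χ : Γ → ℂ) (h1 : ∀ γ, ‖χ γ‖ = 1)
    (h2 : ∀ γ δ, χ (γ * δ) = χ γ * χ δ) : ∃ (n : ℕ) (θ : Γ → ℝ), 0 < n ∧
      (∀ γ δ, θ (γ * δ) = θ γ + θ δ) ∧ (∀ γ, χ γ = 1 → θ γ = 0) ∧
      ∀ γ, χ γ ^ n = cexp (θ γ * I) := by
  obtain ⟨ρ, hρ⟩ : ∃ ρ : ℝ →ₗ[ℚ] ℚ, ρ (2 * π) = 1 := by
    obtain ⟨ρ, hρ⟩ := (Module.forall_dual_apply_eq_zero_iff ℚ (2 * π)).not.2
      (by positivity) |> not_forall.1
    exact ⟨(ρ (2 * π))⁻¹ • ρ, by simp [inv_mul_cancel₀ hρ]⟩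
  have h3 : ∀ γ, cexp (arg (χ γ) * I) = χ γ := fun γ => by
    simpa [h1] using norm_mul_exp_arg_mul_I (χ γ)
  have h4 : ∀ γ δ, ∃ k : ℤ, arg (χ (γ * δ)) = arg (χ γ) + arg (χ δ) + k • (2 * π) := fun γ δ => by
    obtain ⟨k, hk⟩ := exp_eq_exp_iff_exists_int.mp (show cexp (arg (χ (γ * δ)) * I) =
      cexp (arg (χ γ) * I + arg (χ δ) * I) by rw [exp_add, h3, h3, h3, h2])
    exact ⟨k, by simpa using congrArg im hk⟩
  have h5 : χ 1 = 1 := mul_left_cancel₀ (norm_ne_zero_iff.mp (h1 1 ▸ one_ne_zero))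
    (by rw [← h2, mul_one, mul_one])
  obtain ⟨S, hS, hS'⟩ := Group.fg_iff.mp ‹Group.FG Γ›
  obtain ⟨n, hn, h6⟩ : ∃ n : ℕ, 0 < n ∧ ∀ γ ∈ S, ∃ k : ℤ, n * ρ (arg (χ γ)) = k :=
    ⟨∏ γ ∈ hS'.toFinset, (ρ (arg (χ γ))).den, Finset.prod_pos fun _ _ => Rat.den_pos _,
      fun γ hγ => by
        obtain ⟨c, hc⟩ := Finset.dvd_prod_of_mem (fun γ => (ρ (arg (χ γ))).den)
          (hS'.mem_toFinset.mpr hγ)
        exact ⟨c * (ρ (arg (χ γ))).num, by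
          rw [hc, Nat.cast_mul, mul_right_comm, Rat.den_mul_eq_num, mul_comm]; simp⟩⟩
  have h7 : ∀ γ, ∃ k : ℤ, n * ρ (arg (χ γ)) = k := fun γ => by
    have hγ : γ ∈ Subgroup.closure S := hS ▸ Subgroup.mem_top γ
    induction hγ using Subgroup.closure_induction with
    | mem γ h => exact h6 γ h
    | one => exact ⟨0, by simp [h5]⟩
    | mul γ δ _ _ a b =>
      obtain ⟨a, ha⟩ := a
      obtain ⟨b, hb⟩ := b
      obtain ⟨k, hk⟩ := h4 γ δ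
      exact ⟨a + b + n * k, by
        rw [hk, map_add, map_add, map_zsmul, hρ, mul_add, mul_add, ha, hb]; simp⟩
    | inv γ _ a =>
      obtain ⟨a, ha⟩ := a
      obtain ⟨k, hk⟩ := h4 γ γ⁻¹
      have e := congrArg ρ hk
      rw [mul_inv_cancel, h5, arg_one, map_zero, map_add, map_add, map_zsmul, hρ, zsmul_one] at e
      exact ⟨-a - n * k, by push_cast; linear_combination -ha - n * e⟩
  refine ⟨n, fun γ => n * (arg (χ γ) - ρ (arg (χ γ)) * (2 * π)), hn, fun γ δ => ?_,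
    fun γ h => by simp [h], fun γ => ?_⟩
  · obtain ⟨k, hk⟩ := h4 γ δ
    beta_reduce
    rw [hk, map_add, map_add, map_zsmul, hρ, zsmul_one, zsmul_eq_mul]
    push_cast
    ring
  · obtain ⟨k, hk⟩ := h7 γ
    have e : (n : ℂ) * (ρ (arg (χ γ)) : ℚ) = k := by exact_mod_cast hk
    beta_reduce
    nth_rw 1 [← h3 γ]
    rw [← exp_nat_mul, exp_eq_exp_iff_exists_int]
    exact ⟨k, by push_cast; linear_combination (2 * π * I) * e⟩

theorem conj_T_mem (N : ℕ) (g : SL(2, ℤ)) : g * T ^ N * g⁻¹ ∈ Gamma0 N := by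
  have h : T ^ N ∈ CongruenceSubgroup.Gamma N := by
    simpa using ModularGroup_T_pow_mem_Gamma N N dvd_rfl
  exact Gamma0_mem.mpr (Gamma_mem.mp ((Gamma_normal N).conj_mem _ h g)).2.2.1

variable {N : ℕ} {Θ : ℂ → ℂ} {ν : ℂ → ℤ}

/-- The multiplier of a power of a Green function comes from a cusp form. -/
theorem Grn.exists_mu (h : Grn N ν Θ) (hN : N ≠ 0) : ∃ (n : ℕ) (G : ℂ → ℂ), 0 < n ∧ Ci N G ∧
    Mu N ⊥ (fun z => n * ν z) (fun z => -((G z).re * I)) fun z => Θ z ^ (n : ℤ) := by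
  have : NeZero N := ⟨hN⟩
  have : Group.FG SL(2, ℤ) := Group.fg_iff.mpr ⟨_, SpecialLinearGroup.SL2Z_generators, by simp⟩
  choose χ h1 h2 using fun γ : Gamma0 N => h.mult ((g0_iff γ.1).mp γ.2)
  obtain ⟨z₀, hz₀, h0⟩ := (h.dv.ev (z := I) (by simp)).exists
  have h3 : ∀ γ δ, χ (γ * δ) = χ γ * χ δ := fun γ δ =>
    mul_right_cancel₀ ((h.dv.ne_iff hz₀).mpr h0) (by
      rw [← h2 _ _ hz₀, mul_assoc, ← h2 _ _ hz₀, ← h2 _ _ (act_pos (pos_of_det δ.1.2) hz₀),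
        ← act_mul _ (pos_of_det δ.1.2).ne' hz₀]
      rfl)
  obtain ⟨n, θ, hn, h4, h5, h6⟩ := exists_log χ h1 h3
  obtain ⟨G, h7, h8, h9⟩ := B5.HA.eichler_shimura (Γ := Gamma0 N)
    (θ := fun γ => if hγ : γ ∈ Gamma0 N then θ ⟨γ, hγ⟩ else 0)
    (fun γ hγ δ hδ => by rw [dif_pos hγ, dif_pos hδ, dif_pos (mul_mem hγ hδ), ← h4]; rfl)
    fun g => ⟨N, hN, conj_T_mem N g, by
      rw [dif_pos (conj_T_mem N g)]
      refine h5 _ ?_
      obtain ⟨c, hc, e⟩ := h.cn g.1 g.2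
      refine mul_right_cancel₀ hc (tendsto_nhds_unique (e.const_mul _) ?_)
      rw [one_mul]
      refine (e.comp (tendsto_affine one_pos N)).congr' (ev_pos.mono fun z hz => ?_)
      lift z to ℍ using hz
      simp only [Function.comp]
      rw [← h2 _ _ (act_pos (pos_of_det g.2) z.im_pos), ← coe_act, ← coe_act, mul_smul, mul_smul,
        inv_smul_smul, coe_act, ← zpow_natCast, UpperHalfPlane.modular_T_zpow_smul]
      simp [add_comm]⟩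
  have h10 : ∀ g (hg : G0 N g) (z : ℂ), 0 < z.im →
      (G (act g z)).re = (G z).re + θ ⟨⟨g, hg.1⟩, (g0_iff _).mpr hg⟩ := fun g hg z hz => by
    obtain ⟨γ, rfl⟩ : ∃ γ : SL(2, ℤ), γ.1 = g := ⟨⟨g, hg.1⟩, rfl⟩
    have e := h8 γ ((g0_iff _).mpr hg) ⟨z, hz⟩
    rwa [coe_act, dif_pos ((g0_iff _).mpr hg)] at e
  refine ⟨n, G, hn, ⟨h7, fun g hg => ?_, fun g hg => h9 ⟨g, hg⟩ N hN (conj_T_mem N _)⟩,
    h.dv.zpow n, h.cn.zpow n, fun g hg => ⟨1, -(θ ⟨⟨g, hg.1⟩, (g0_iff _).mpr hg⟩ * I),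
    one_mem _, fun z hz => ⟨?_, ?_⟩⟩⟩
  · obtain ⟨c, hc⟩ := B5.HA.hol_const (G := fun z => G (act g z) - G z) (fun z hz =>
      ((h7 _ (act_pos (pos_of_det hg.1) hz)).comp z (hol_act (pos_of_det hg.1).ne' z hz)).sub
      (h7 z hz)) fun z hz => by rw [sub_re, h10 g hg z hz, add_sub_cancel_left]
    exact ⟨c, fun z hz => by rw [← hc z hz, add_sub_cancel]⟩
  · rw [h10 g hg z hz]
    push_cast
    ring
  · rw [h2 ⟨⟨g, hg.1⟩, (g0_iff _).mpr hg⟩ z hz, mul_zpow, zpow_natCast, h6, neg_neg, Units.val_one,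
      one_mul]

theorem th_stmt : THStmt := fun N L F F₂ Θ ν t hN hF hF₂ h ht hP => by
  obtain ⟨n, G, hn, hG, h1⟩ := h.exists_mu hN
  obtain ⟨V, h2, -⟩ := Mu.hecke ht (E := fun _ => False) (fun _ => False.elim)
    (fun _ => False.elim) h1 fun _ => False.elim
  obtain ⟨κ, κ₂, c, h3⟩ := hP G hG
  obtain ⟨a, b, hb, h4⟩ := exists_eta_eq L
  have h5 : hf ℂ t (fun z => -((G z).re * I)) = fun z => -((hf ℂ t G z).re * I) :=
    hf_map' ⟨⟨fun x : ℂ => -(x.re * I), by simp⟩, fun x y => by simp [add_mul, add_comm]⟩ t G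
  have h6 : hf ℤ t (fun z => n * ν z) = (n : ℤ) • hf ℤ t ν := map_zsmul (hf ℤ t) n ν
  have h7 : (b : ℂ) ≠ 0 := ofReal_ne_zero.mpr hb.ne'
  rw [h5, h6] at h2
  refine ⟨n, -(I * conj κ / (2 * b)), -(I * conj κ₂ / (2 * b)), _, hn, h2.th.exp hN
    ((hF.smul' (-(I * κ / 2) + a * (I * conj κ / (2 * b)))).add'
      (hF₂.smul' (-(I * κ₂ / 2) + a * (I * conj κ₂ / (2 * b))))) (c := c.re * I) fun z hz => ?_⟩
  simp only [U1, h4, h3 z hz, add_re, ofReal_add, re_eq_add_conj (κ * _), re_eq_add_conj (κ₂ * _),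
    map_mul]
  field_simp
  ring

end Pool.Agent.G5
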