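import Pool.Agent.Lib.MP_696deb_nt.B5.ZGa

/-! The formula of Gross and Zagier from its parts. -/

set_option autoImplicit false

open Finset Filter Topology Complex NumberTheorySymbols
open scoped Classical

namespace Pool.Agent.G5

open Pool.Agent.Lib.MP_696deb_nt Pool.Agent.B4.GE Pool.Agent.Shared.Weier

variable {W : WeierstrassCurve ℚ} {N p A B : ℕ} {ρ ρ' β : ℤ} {T T' : Finset Fm} {t : HW}
  {F₂ : ℂ → ℂ} {P : Par W N}

/-- All the parts. -/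
structure Parts : Prop where
  cn : CNStmt
  hw : HWStmt
  lt : LTStmt
  ex : EXStmt
  th : THStmt
  ab : ABStmt
  ad : ADStmt
  gr : GRStmt
  pp : PPStmt
  gl : GLStmt
  la : LAStmt
  sw : SWStmt
  nu : NUStmt
  wp : WPStmt
  ag : AGStmt

/-- The function attached to a projector, and its point. -/
theorem exists_th (H : Parts) (c : Cx N p A B ρ ρ' β) (hT : FReps N (-(A * B : ℕ)) ρ T)
    (hT' : FReps N (-(A * B : ℕ)) (-ρ) T') (cp : Cp P F₂ p)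
    (h2 : IsOfFinAddOrder (zs N A B ρ T T' fun z => P.per.unif (F₂ z))) (ht : t ∈ HA N)
    (pj : Prj N P.F F₂ t) : ∃ (n k : ℤ) (δ : ℕ) (x : ℂ) (V : ℂ → ℂ), k ≠ 0 ∧ δ ≠ 0 ∧
      Th N (cmb (fun m => nuW (Yw N A B ρ' m)) (n • ha (et A) t (Finsupp.single 1 1)))
        (U1 P.L P.F x) V ∧ δ • P.per.unif x = (k * he P.a t) • zs N A B ρ T T' P.φ := by
  have N0 := c.N0
  have A1 := c.A1
  have B1 := c.B1
  obtain ⟨u1, -, u3⟩ := H.nu
  obtain ⟨R, hR⟩ := u1 N _ ρ' N0 c.neg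
  obtain ⟨R', hR'⟩ := u1 N _ (-ρ') N0 c.neg
  obtain ⟨a1, a2, a3, -⟩ := u3 N A B ρ' R R' c.toGood A1 B1 c.jac c.root' hR hR'
  obtain ⟨b1, -⟩ := u3 N A B ρ T T' c.toGood A1 B1 c.jac c.root hT hT'
  obtain ⟨k₀, Θ, k0, g0⟩ := H.ex N _ _ N0 a2 (by
    have := a3 ℤ fun _ => 1
    simp only [zs, smul_eq_mul, mul_one] at this
    rw [this, a1.deg])
  obtain ⟨n, x, x₂, V, n0, t1⟩ := H.th N P.L P.F F₂ Θ _ t N0 (par_ci P) cp.ci g0 ht pj
  obtain ⟨s, r1, -, r2⟩ := H.ad N (A * B) _ _ t N0 c.sqf (by nlinarith) a2 (fun z hz => by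
    obtain ⟨Q, hQ, rfl⟩ := mem_image.1 hz
    exact (root_ori hR hR' hQ).cm) ht
  obtain ⟨w, e, c₁, c₂, w1, w2, w3⟩ := cp.al
  obtain ⟨e', w4, w5⟩ := H.wp N p A B ρ ρ' β T T' R R' w c hT hT' hR hR' w1
  rw [map_smul, smul_smul] at t1
  have key : ∀ (G : ℂ → ℂ) (ε : ℤ) (y : ℂ), PerL N P.L G → Eig N P.a G →
      (∀ z : ℂ, 0 < z.im → G (act w z) = ε * G z + y) → P.per.unif (∑ z ∈ s, (((n : ℤ) * k₀) •
        hf ℤ t (nuW (wZ N B (-(A * B : ℕ)) ρ'))) z * G z) = (n * k₀ * (he P.a t * (e' * ε))) •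
        zs N A B ρ T T' fun z => P.per.unif (G z) := fun G ε y h1 h3 h4 => by
    have i : Inv0 N fun z => P.per.unif (G z) := fun g hg z hz =>
      P.per.unif_eq_iff.2 (h1 g hg z hz)
    have := r2 _ _ P.a i fun l hl h z hz => by
      rw [Tf_apply, ← map_sum, ← map_zsmul, ← h3 l hl h z hz, Tf_apply]
    rw [a3, w5 _ _ i, zs_congr (S' := fun z => ε • P.per.unif (G z) + P.per.unif y) hT hT'
      fun z hz => by rw [h4 z (hz.cm.pos c.sqf.ne_zero), map_add, ← zsmul_eq_mul, map_zsmul],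
      zs_aff _ _ _ b1, smul_smul, smul_smul, mul_assoc] at this
    rw [mul_smul ((n : ℤ) * k₀), ← this, smul_sum, map_sum]
    exact sum_congr rfl fun z _ => by
      rw [← zsmul_eq_mul, map_zsmul, Pi.smul_apply, smul_eq_mul, mul_smul ((n : ℤ) * k₀)]
  obtain ⟨k, δ, V', k1, d0, t2, t3⟩ := H.ab N p P.L P.F F₂ V x x₂ _ s w e c₁ c₂ c.lsq c.dvd
    (par_ci P) cp.ci P.inv cp.per (par_ne P) w1 w2 w3 (r1.smul _) t1 (by
      obtain ⟨m, m0, hm⟩ := isOfFinAddOrder_iff_nsmul_eq_zero.1 h2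
      refine ⟨m, m0, P.per.unif_eq_zero_iff.1 ?_⟩
      rw [← nsmul_eq_mul, map_nsmul, key F₂ (-e) c₂ cp.per cp.eig fun z hz => by
        rw [(w3 z hz).2, Int.cast_neg], smul_comm, hm, smul_zero])
  refine ⟨k * (n * k₀), 2 * k * (n * k₀) * (e' * e), 2 * δ, k * x, V',
    mul_ne_zero (by positivity) (mul_ne_zero (by omega) (by omega)), by omega,
    t2.congr fun z hz => ?_, ?_⟩
  · rw [map_smul, Pi.smul_apply, ← (H.hw N p A B ρ ρ' β c).1.hf ht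
      (.single one_ne_zero (by simp) 1) hz, cmb_single, one_smul, Yw_one, smul_smul, Pi.smul_apply]
  · have t4 := key P.F e c₁ P.inv (par_eig P) fun z hz => (w3 z hz).1
    have t5 := P.per.unif_eq_zero_iff.2 t3
    rw [two_mul, map_add, map_sub, t4, ← nsmul_eq_mul, map_nsmul] at t5
    rw [← nsmul_eq_mul, map_nsmul]
    show _ = _ • zs N A B ρ T T' fun z => P.per.unif (P.F z)
    linear_combination (norm := module) (k : ℤ) • t5

theorem Prj.mul {F : ℂ → ℂ} {a : ℕ → ℤ} {u : HW} (h : Prj N F F₂ t) (e1 : Eig N a F)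
    (e2 : Eig N a F₂) (hu : u ∈ HA N) : Prj N F F₂ (u * t) := fun G hG => by
  obtain ⟨κ, κ₂, c, e⟩ := h G hG
  refine ⟨he a u * κ, he a u * κ₂, he (fun l => l + 1) u * c, fun z hz => ?_⟩
  have e3 : Eig N a fun z => κ * F z + κ₂ * F₂ z := fun l hl h z hz => by
    have k1 := e1 l hl h z hz
    have k2 := e2 l hl h z hz
    simp only [Tf_apply, sum_add_distrib, ← mul_sum, zsmul_eq_mul] at k1 k2 ⊢
    rw [k1, k2]
    ring
  rw [hf_mul, hf_congr hu e hz, show (fun z => κ * F z + κ₂ * F₂ z + c) =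
    (fun z => κ * F z + κ₂ * F₂ z) + fun _ => c from rfl, map_add, Pi.add_apply, e3.hf hu hz,
    (eig_const N c).hf hu hz]
  simp only [zsmul_eq_mul]
  ring

theorem Good.et {n l : ℕ} (h : Good N n) (hr : 4 * (N : ℤ) ∣ ρ ^ 2 + n) (hl : l ∣ N) :
    et n l = 1 := by
  have o : Odd l := h.lodd.of_dvd_nat hl
  have e : J(-n | l) = 1 := by
    have d : (l : ℤ) ∣ ρ ^ 2 + n := ((Int.natCast_dvd_natCast.2 hl).mul_left 4).trans hr
    have c : IsCoprime (n : ℤ) l := Nat.isCoprime_iff_coprime.2 (h.cop.coprime_dvd_right hl)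
    rw [jacobiSym.mod_left' (a₂ := ρ ^ 2) (Int.modEq_iff_dvd.2 (by simpa using d)),
      jacobiSym.sq_one']
    obtain ⟨x, hx⟩ := d
    rw [show (n : ℤ) = -ρ * ρ + l * x by linear_combination hx] at c
    exact Int.isCoprime_iff_gcd_eq_one.1 c.of_add_mul_left_left.of_mul_left_right
  rw [jacobiSym.neg _ o] at e
  rcases Nat.odd_mod_four_iff.1 (Nat.odd_iff.1 o) with k | k
  · rwa [ZMod.χ₄_nat_one_mod_four k, one_mul,
      ← jacobiSym.quadratic_reciprocity_one_mod_four k h.odd] at e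
  · rwa [ZMod.χ₄_nat_three_mod_four k, neg_one_mul,
      ← jacobiSym.quadratic_reciprocity_three_mod_four k h.mod4] at e

/-- The special point is torsion when the projected derivative vanishes. -/
theorem gz_core [W.IsElliptic] (H : Parts) (c : Cx N p A B ρ ρ' β)
    (hT : FReps N (-(A * B : ℕ)) ρ T) (hT' : FReps N (-(A * B : ℕ)) (-ρ) T') (cp : Cp P F₂ p)
    (a1 : LA P.F B 1 = 0) (a2 : LA F₂ B 1 = 0) (a3 : deriv (LA F₂ B) 1 = 0)
    (h2 : IsOfFinAddOrder (zs N A B ρ T T' fun z => P.per.unif (F₂ z)))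
    (hin : ∀ M : ℕ, M ≠ 0 → ∃ l : ℕ, l.Prime ∧ ¬ l ∣ M ∧ et (A * B) l = -1 ∧ P.a l ≠ 0)
    (ht : ∀ (l l₀ : ℕ) (a : ℕ →₀ ℤ) (u : ℂ) (V : ℂ → ℂ),
      l.Prime → l₀.Prime → l ≠ l₀ → l₀ ≠ 2 → et (A * B) l₀ = -1 → Sup (N * l * l₀) a →
      Th N (cmb (fun m => nuW (Yw N A B ρ' m)) a) (U1 P.L P.F u) V → P.per.unif u ∈ Alg W →
      (et (A * B) l = 1 → hpair (zs N A B ρ T T' (hsum l₀ P.φ)) (P.per.unif u) -
        2 * zs N A B ρ T T' (hsum l₀ (gT (U1 P.L P.F u) V)) ∈ LogS l) ∧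
      (et (A * B) l ≠ 1 → ∃ (C : ℚ) (k : ℕ), ∀ j : ℕ, ∃ r : ℚ, |r| ≤ C * (j + 1) ^ k ∧
        hpair (zs N A B ρ T T' (hsum (l₀ * l ^ j) P.φ)) (P.per.unif u) -
          2 * zs N A B ρ T T' (hsum (l₀ * l ^ j) (gT (U1 P.L P.F u) V)) - r * Real.log l ∈ LogS l))
    {G₀ : ℂ → ℂ} (g0 : Geo N (Cw N A β 1) G₀)
    (hd : ∀ t ∈ HA N, Prj N P.F F₂ t → ∀ κ κ₂ y : ℂ, (∀ z : ℂ, 0 < z.im →
      hf ℂ t G₀ z = κ * P.F z + κ₂ * F₂ z + y) → κ * deriv (LA P.F B) 1 = 0) :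
    IsOfFinAddOrder (zs N A B ρ T T' P.φ) := by
  have N0 := c.N0
  have n0 := c.sqf.ne_zero
  have B1 := c.B1
  obtain ⟨la1, la2, -⟩ := H.la N B N0 (by omega)
  have ay : zs N A B ρ T T' P.φ ∈ Alg W := sum_mem fun Q hQ => zsmul_mem
    (H.ag W N _ P _ (Nat.pos_of_ne_zero n0) (root_ori hT hT' hQ).cm) _
  refine isOfFinAddOrder_of_hpair ay (eq_zero_of_mem_LogS fun l hl => ?_)
  obtain ⟨l₀, h0, d0, i0, v0⟩ := hin (2 * (N * l)) (by have := hl.ne_zero; positivity)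
  have dN : ¬ l₀ ∣ N := fun e => d0 ((e.mul_right l).mul_left 2)
  have ne : l ≠ l₀ := fun e => d0 (e ▸ (dvd_mul_left l N).mul_left 2)
  obtain ⟨t, t1, t2, t3⟩ := cp.prj (l * l₀) (mul_ne_zero hl.ne_zero h0.ne_zero)
  have t4 := HA_mono (dvd_mul_right _ _) t1
  obtain ⟨n, k, δ, x, V, k0, δ0, e1, e2⟩ := exists_th H c hT hT' cp h2 t4 t3
  have sb : Sup (N * l * l₀) (n • ha (et A) t (Finsupp.single 1 1)) :=
    ((Sup.single one_ne_zero (by simp) 1).ha (mul_assoc N l l₀ ▸ t1)).smul n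
  have ax : P.per.unif x ∈ Alg W := alg_of_smul P.per δ0 (e2 ▸ zsmul_mem ay _)
  have pF : ∀ z : ℂ, 0 < z.im → P.F (z + 1) = P.F z := fun z hz => by
    simpa using P.qe.periodic 1 hz
  have arch : ∀ j, Xl l j ∈ HA N →
      hpair (zs N A B ρ T T' (hsum (l₀ * l ^ j) P.φ)) (P.per.unif x) -
        2 * zs N A B ρ T T' (hsum (l₀ * l ^ j) (gT (U1 P.L P.F x) V)) =
      he P.a (Xl l j) * (P.a l₀ * hpair (zs N A B ρ T T' P.φ) (P.per.unif x)) +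
        (2 * (J(N | A) * J(-1 | B)) : ℤ) * cmb (fun m => Lg B (Cw N A β m))
          (ha (et A) (tl l₀ * Xl l j) (n • ha (et A) t (Finsupp.single 1 1))) := fun j hj => by
    have hu := mul_mem (tl_mem h0 dN) hj
    have pj := t3.mul (par_eig P) cp.eig hu
    obtain ⟨κ, κ₂, y, e⟩ := pj G₀ g0.ci
    have e3 := la2 (fun z => n * hf ℂ (tl l₀ * Xl l j * t) G₀ z) P.F F₂ (n * κ) (n * κ₂) (n * y)
      (par_ci P) cp.ci fun z hz => by rw [e z hz]; ring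
    have e4 := arch_eq H.cn H.hw H.gr H.pp H.gl H.sw H.nu c hT hT' (par_ci P) g0 t4 hu rfl e1 rfl
      (by rw [e3, a1, a2, mul_zero, mul_zero, add_zero])
    rw [funext e3, ((((la1 _ (par_ci P)) 1).hasDerivAt.const_mul _).fun_add
      (((la1 _ cp.ci) 1).hasDerivAt.const_mul _)).deriv, a3, mul_assoc (n : ℂ),
      hd _ (mul_mem hu t4) pj κ κ₂ y e] at e4
    rw [zs_congr hT hT' fun z hz => (hf_tl_Xl (gT_per e1 pF) hl h0 ne j (hz.cm.pos n0)).symm, e4,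
      zs_congr (S' := fun z => he P.a (tl l₀ * Xl l j) • P.φ z + 0) hT hT' fun z hz => by
        rw [← hf_tl_Xl (fun z hz => inv0_per P.inv0 hz) hl h0 ne j (hz.cm.pos n0),
          (par_eig_φ P).hf hu (hz.cm.pos n0), add_zero],
      zs_aff _ _ _ (H.nu.2.2 N A B ρ T T' c.toGood c.A1 B1 c.jac c.root hT hT').1]
    have e5 := congrArg (· ⟨_, ax⟩) (map_zsmul hbil (he P.a (tl l₀ * Xl l j)) ⟨_, ay⟩)
    simp only [AddMonoidHom.zsmul_apply, hbil_apply, AddSubgroupClass.coe_zsmul, zsmul_eq_mul] at e5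
    rw [e5, map_mul, he_tl]
    simp
    ring
  obtain ⟨s1, s2⟩ := ht l l₀ _ x V hl h0 ne (fun e => d0 (e ▸ dvd_mul_right _ _)) i0 sb e1 ax
  obtain ⟨s3, s4⟩ := log_terms H.lt c hl h0 ne dN sb
  have fin : P.a l₀ * hpair (zs N A B ρ T T' P.φ) (P.per.unif x) ∈ LogS l := by
    by_cases h : et (A * B) l = 1
    · have := arch 0 (one_mem _)
      simp only [Xl, pow_zero, mul_one, map_one, Int.cast_one, one_mul] at this
      convert sub_mem (this ▸ s1 h) (LogS.int_mul (2 * (J(N | A) * J(-1 | B))) (s3 h)) using 1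
      exact (add_sub_cancel_right _ _).symm
    · obtain ⟨C, i, hC⟩ := s2 h
      obtain ⟨C', hC'⟩ := s4 h
      refine mem_of_growth (a := P.a) (C := |C| + 2 * |C'|) (k := i + 3) hl fun j => ?_
      obtain ⟨r, r1, r2⟩ := hC j
      obtain ⟨σ, r3, r4⟩ := hC' j
      refine ⟨r - (2 * (J(N | A) * J(-1 | B)) : ℤ) * σ, ?_, ?_⟩
      · have j1 : (1 : ℚ) ≤ j + 1 := by simp
        have j2 : |((2 * (J(N | A) * J(-1 | B)) : ℤ) : ℚ)| ≤ 2 := by
          rcases jacobiSym.trichotomy N A with e | e | e <;>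
            rcases jacobiSym.trichotomy (-1) B with e' | e' | e' <;> simp [e, e']
        refine (abs_sub _ _).trans ?_
        rw [abs_mul, add_mul, mul_assoc]
        refine add_le_add (r1.trans ?_) (mul_le_mul j2 (r3.trans ?_) (abs_nonneg _) zero_le_two)
        all_goals
          exact mul_le_mul (le_abs_self _) (pow_le_pow_right₀ j1 (by omega)) (by positivity)
            (abs_nonneg _)
      · rw [arch j (Xl_mem hl (fun e => h (c.toGood.et c.root e)) j)] at r2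
        convert sub_mem r2 (LogS.int_mul (2 * (J(N | A) * J(-1 | B))) r4) using 1
        push_cast
        ring
  have e6 := congrArg (hbil ⟨_, ay⟩) (show δ • (⟨_, ax⟩ : Alg W) = (k * he P.a t) • ⟨_, ay⟩ from
    Subtype.ext e2)
  simp only [map_nsmul, map_zsmul, hbil_apply, nsmul_eq_mul, zsmul_eq_mul] at e6
  have z0 : ((P.a l₀ * (k * he P.a t) : ℤ) : ℝ) ≠ 0 := by
    exact_mod_cast mul_ne_zero v0 (mul_ne_zero k0 t2)
  convert LogS.rat_mul (δ / (P.a l₀ * (k * he P.a t) : ℤ)) fin using 1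
  rw [Rat.cast_div, Rat.cast_intCast, div_mul_eq_mul_div, eq_div_iff z0, Int.cast_mul,
    Rat.cast_natCast, mul_left_comm (δ : ℝ), e6]
  ring

theorem tors_of_zs (nu : NUStmt) (c : Cx N p A B ρ ρ' β) (hT : FReps N (-(A * B : ℕ)) ρ T)
    (hT' : FReps N (-(A * B : ℕ)) (-ρ) T') (h0 : IsOfFinAddOrder (P.per.unif P.t0))
    (h : IsOfFinAddOrder (zs N A B ρ T T' P.φ)) :
    IsOfFinAddOrder (∑ Q ∈ T, gch B Q • P.φ (froot Q)) := by
  obtain ⟨k, e⟩ := (nu.2.2 N A B ρ T T' c.toGood c.A1 c.B1 c.jac c.root hT hT').2.2.2 _ P.φ _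
    P.inv0 fun z hz => P.φ_al hz
  refine (isOfFinAddOrder_nsmul (n := 2).1 ?_).resolve_right two_ne_zero
  rw [eq_sub_of_add_eq e.symm, sub_eq_add_neg]
  exact h.add h0.zsmul.neg

/-- The height statement for one parametrization. -/
def HTc [W.IsElliptic] (P : Par W N) (B₀ : ℕ) : Prop :=
  ∀ (p A B : ℕ) (ρ ρ' β : ℤ) (T T' : Finset Fm) (l l₀ : ℕ) (a : ℕ →₀ ℤ) (u : ℂ) (V : ℂ → ℂ),
  Cx N p A B ρ ρ' β → B₀ < A * B → FReps N (-(A * B : ℕ)) ρ T → FReps N (-(A * B : ℕ)) (-ρ) T' →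
  l.Prime → l₀.Prime → l ≠ l₀ → l₀ ≠ 2 → et (A * B) l₀ = -1 → Sup (N * l * l₀) a →
  Th N (cmb (fun m => nuW (Yw N A B ρ' m)) a) (U1 P.L P.F u) V → P.per.unif u ∈ Alg W →
  (et (A * B) l = 1 → hpair (zs N A B ρ T T' (hsum l₀ P.φ)) (P.per.unif u) -
    2 * zs N A B ρ T T' (hsum l₀ (gT (U1 P.L P.F u) V)) ∈ LogS l) ∧
  (et (A * B) l ≠ 1 → ∃ (C : ℚ) (k : ℕ), ∀ j : ℕ, ∃ r : ℚ, |r| ≤ C * (j + 1) ^ k ∧
    hpair (zs N A B ρ T T' (hsum (l₀ * l ^ j) P.φ)) (P.per.unif u) -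
      2 * zs N A B ρ T T' (hsum (l₀ * l ^ j) (gT (U1 P.L P.F u) V)) - r * Real.log l ∈ LogS l)

/-- The formula for one parametrization. -/
def GZc (P : Par W N) (B₀ : ℕ) : Prop :=
  ∀ (p A B : ℕ) (ρ ρ' β : ℤ) (T T' : Finset Fm) (F₂ : ℂ → ℂ), Cx N p A B ρ ρ' β → B₀ < A * B →
  FReps N (-(A * B : ℕ)) ρ T → FReps N (-(A * B : ℕ)) (-ρ) T' → Cp P F₂ p →
  LA F₂ A 1 = 0 → LA F₂ B 1 = 0 → deriv (LA F₂ B) 1 = 0 →
  IsOfFinAddOrder (zs N A B ρ T T' fun z => P.per.unif (F₂ z)) →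
  (∀ M : ℕ, M ≠ 0 → ∃ l : ℕ, l.Prime ∧ ¬ l ∣ M ∧ et (A * B) l = -1 ∧ P.a l ≠ 0) →
  ¬ IsOfFinAddOrder (∑ Q ∈ T, gch B Q • P.φ (froot Q)) →
  LA P.F A 1 ≠ 0 ∧ LA P.F B 1 = 0 ∧ deriv (LA P.F B) 1 ≠ 0

theorem gz_c [W.IsElliptic] (H : Parts) {B₀ : ℕ} (h0 : IsOfFinAddOrder (P.per.unif P.t0))
    (ht : HTc P B₀) : GZc P B₀ := fun p A B ρ ρ' β T T' F₂ c hB hT hT' cp a0 a2 a3 h2 hin hy => by
  have B1 := c.B1
  obtain ⟨la1, la2, la3⟩ := H.la N B c.N0 (by omega)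
  have a1 := la3 P.F P.t0 c.sqf.of_mul_right (Nat.odd_mul.1 c.odd).2 c.cop.coprime_mul_left c.jac
    (par_ci P) P.al
  obtain ⟨G₀, g0, g1⟩ := (H.sw N p A B ρ ρ' β c).2
  have key := fun hd => hy (tors_of_zs H.nu c hT hT' h0 (gz_core H c hT hT' cp a1 a2 a3 h2 hin
    (fun l l₀ a u V => ht p A B ρ ρ' β T T' l l₀ a u V c hB hT hT') g0 hd))
  refine ⟨fun h => key fun t t1 t2 κ κ₂ y e => ?_, a1,
    fun h => key fun _ _ _ _ _ _ _ => by rw [h, mul_zero]⟩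
  obtain ⟨x, hx⟩ := g1 P.F F₂ t (par_ci P) cp.ci t1 t2 h a0
  have e1 := la2 _ P.F F₂ κ κ₂ y (par_ci P) cp.ci e
  have e2 := la2 (hf ℂ t G₀) P.F F₂ 0 0 x (par_ci P) cp.ci fun z hz => by simp [hx z hz]
  have e3 := (((la1 _ (par_ci P)) 1).hasDerivAt.const_mul κ).fun_add
    (((la1 _ cp.ci) 1).hasDerivAt.const_mul κ₂)
  rw [← funext e1, funext e2] at e3
  simpa [a3] using e3.deriv.symm

/-- The formula of Gross and Zagier. -/
theorem gz_of (H : Parts) (ht : HTStmt) : GZStmt := fun W _ N P hW h0 =>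
  (ht W N P hW).imp fun _ => gz_c H h0

end Pool.Agent.G5
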