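import Pool.Agent.Lib.MP_696deb_nt.B5.ZLa
import Pool.Agent.Lib.MP_696deb_nt.B5.Z3
import Pool.Agent.Lib.MP_696deb_nt.B5.CNf
import Pool.Agent.Lib.MP_696deb_nt.B5.HWd
import Pool.Agent.Lib.MP_696deb_nt.B5.LGb
import Pool.Agent.Lib.MP_696deb_nt.B5.THa
import Pool.Agent.Lib.MP_696deb_nt.B5.ABb
import Pool.Agent.Lib.MP_696deb_nt.B5.ADa
import Pool.Agent.Lib.MP_696deb_nt.B5.PPa
import Pool.Agent.Lib.MP_696deb_nt.B5.GLc
import Pool.Agent.Lib.MP_696deb_nt.B5.LAb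
import Pool.Agent.Lib.MP_696deb_nt.B5.SWd
import Pool.Agent.Lib.MP_696deb_nt.B5.WPa
import Pool.Agent.Lib.MP_696deb_nt.B5.AG
import Pool.Agent.Lib.MP_696deb_nt.B5.ARb
import Pool.Agent.Lib.MP_696deb_nt.B5.ARa
import Pool.Agent.Lib.MP_696deb_nt.B5.A0c
import Pool.Agent.Lib.MP_696deb_nt.B5.LRb
import Pool.Agent.Lib.MP_696deb_nt.B5.LQa
import Pool.Agent.Lib.MP_696deb_nt.B5.LFa

/-! The parts are put together. -/

set_option autoImplicit false

namespace Pool.Agent.G5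

open Pool.Agent.B4.GE

theorem parts : Parts := ⟨cn_stmt, hw_stmt, lt_stmt, ex_stmt, th_stmt, ab_stmt a0_stmt,
  ad_stmt, gr_stmt, pp_stmt, gl_stmt, la_stmt, sw_stmt hw_stmt, nu_stmt, wp_stmt, ag_stmt⟩

theorem gz_stmt : GZStmt := gz_of parts (ht_of_ac ac_stmt)

theorem gz6_stmt : GZ6Stmt := fun _ _ _ _ hW hN _ _ h hi _ hr r4 rN =>
  (gz_raise gz_stmt lr_stmt' lq_stmt la_stmt hW h hN hi hr r4 rN).imp fun _ g A B ρ T h1 h2 =>
    g A B ρ T ⟨h1, h2⟩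

/-- The formula of Gross and Zagier for a newform of squarefree level, in qualitative form. -/
theorem gz7 {W : WeierstrassCurve ℚ} [W.IsElliptic] {N : ℕ} {D : MD W N}
    (hW : ∃ W' : WeierstrassCurve ℤ, W = W'.map (Int.castRingHom ℚ)) (h : Nw D)
    (hN : Squarefree N) (hi : Inert D.c) : GZB D.par (fun _ _ => True) 3 :=
  gz_free lr_stmt' lq_stmt la_stmt
    (fun M P h0 => gz_c parts h0 (htb_of_ac ac_stmt W M P hW)) h hN hi

end Pool.Agent.G5
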